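import Pool.Agent.Work.MP_35c45d_lc.SDMons

/-! # Sums of determinants of size up to `m ^ (2 - ε)`: definitions

The block polynomials are direct sums of elementary symmetric functions.
-/

set_option autoImplicit false

namespace Pool.Agent.Work.MP_35c45d_lc.SE

open MvPolynomial Filter Topology SD

/-- `∑ t < T, e_D (x (t, 0), …, x (t, L - 1))` -/
noncomputable def esum (T L D : ℕ) : MvPolynomial (Fin T × Fin L) ℂ :=
  ∑ t : Fin T, ∑ S ∈ Finset.powersetCard D (Finset.univ : Finset (Fin L)), ∏ v ∈ S, X (t, v)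

/-- `∏ i < k, ∑ t < T, e_D (x (i, t, 0), …, x (i, t, L - 1))` -/
noncomputable def esf (k T L D : ℕ) : MvPolynomial (Fin k × Fin T × Fin L) ℂ :=
  ∏ i : Fin k, ∑ t : Fin T,
    ∑ S ∈ Finset.powersetCard D (Finset.univ : Finset (Fin L)), ∏ v ∈ S, X (i, t, v)

/-- the pairs (derivative, shift) used in the lower bound; the free variables are the `(i, t, v)`
with `D - 1 ≤ v` -/
def goodE (k T L D n l : ℕ) :
    Finset ((Fin k → Fin T × Fin L) × ((Fin k × Fin T × Fin L) ⊕ Fin n →₀ ℕ)) :=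
  (Finset.univ.filter fun a : Fin k → Fin T × Fin L => ∀ i, D - 1 ≤ ((a i).2 : ℕ)) ×ˢ
    ((mons Finset.univ l).filter fun μ => ∀ q : Fin k × Fin T × Fin L, D - 1 ≤ (q.2.2 : ℕ) →
      μ (Sum.inl q) < D - 1)

end Pool.Agent.Work.MP_35c45d_lc.SE
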