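import Pool.Agent.Work.MP_35c45d_lc.SDBip
import Pool.Agent.Work.MP_35c45d_lc.SEDefs

/-! # The section with all variables on the diagonal -/

set_option autoImplicit false

namespace Pool.Agent.Work.MP_35c45d_lc.SF

open MvPolynomial SD SE

theorem esf_diag {k L D m : ℕ} (hDL : D ≤ L) (hm : k * (2 * L - D) ≤ m) :
    ∃ (X0 : Matrix (Fin m) (Fin m) ℂ) (c : Fin k × Fin 1 × Fin L → Fin m) (c0 : ℂ),
      Function.Injective c ∧ c0 ≠ 0 ∧ ∀ z : Fin k × Fin 1 × Fin L → ℂ,
        (X0 + Matrix.diagonal fun i => ∑ v, if c v = i then z v else 0).permanent =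
          c0 * eval z (esf k 1 L D) := by
  classical
  have hB : Fintype.card (Fin k × (Fin L ⊕ Fin (L - D))) ≤ m := by
    rw [Fintype.card_prod, Fintype.card_sum, Fintype.card_fin, Fintype.card_fin, Fintype.card_fin]
    refine le_trans (le_of_eq ?_) hm
    congr 1
    omega
  let W := Fin (m - Fintype.card (Fin k × (Fin L ⊕ Fin (L - D))))
  have h1 : Fintype.card (Fin m) = Fintype.card ((Fin k × (Fin L ⊕ Fin (L - D))) ⊕ W) := by
    rw [Fintype.card_sum, Fintype.card_fin, Fintype.card_fin]; omega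
  let e : Fin m ≃ (Fin k × (Fin L ⊕ Fin (L - D))) ⊕ W := Fintype.equivOfCardEq h1
  let G : (Fin k × Fin 1 × Fin L → ℂ) → (Fin k × (Fin L ⊕ Fin (L - D))) ⊕ W → (Fin k × (Fin L ⊕ Fin (L - D))) ⊕ W → ℂ := fun z r s =>
    match r, s with
    | Sum.inl p, Sum.inl q => SQ.blkM (fun i : Fin k =>
        (SQ.bipM (fun a : Fin L => z (i, 0, a)) : Fin L ⊕ Fin (L - D) → Fin L ⊕ Fin (L - D) → ℂ)) p q
    | Sum.inl _, Sum.inr _ => 0
    | Sum.inr _, Sum.inl _ => 0
    | Sum.inr w, Sum.inr w' => if w = w' then 1 else 0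
  let c : Fin k × Fin 1 × Fin L → Fin m := fun v => e.symm (Sum.inl (v.1, Sum.inl v.2.2))
  have hc : Function.Injective c := by
    rintro ⟨i, t, a⟩ ⟨i', t', a'⟩ h
    simp only [c, EmbeddingLike.apply_eq_iff_eq, Sum.inl.injEq, Prod.mk.injEq] at h
    rw [h.1, h.2, Subsingleton.elim t t']
  have hG : ∀ z (i j : Fin m), G z (e i) (e j) = G 0 (e i) (e j) +
      if i = j then ∑ v, (if c v = i then z v else 0) else 0 := by
    intro z i j
    have hcv : ∀ v : Fin k × Fin 1 × Fin L, c v = i ↔
        e i = Sum.inl (v.1, Sum.inl v.2.2) := by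
      intro v
      simp only [c]
      rw [Equiv.symm_apply_eq]
      exact eq_comm
    have hij : i = j ↔ e i = e j := e.apply_eq_iff_eq.symm
    simp only [hcv, hij]
    rcases hp : e i with ⟨i1, a | a⟩ | w
    · rcases hq : e j with ⟨j1, b | b⟩ | w'
      · simp only [G, SQ.blkM, SQ.bipM, Sum.inl.injEq, Prod.mk.injEq, Pi.zero_apply]
        by_cases h1 : i1 = j1
        · by_cases h2 : a = b
          · rw [if_pos h1, if_pos h2, if_pos h1, if_pos h2, if_pos ⟨h1, h2⟩, zero_add,
              Finset.sum_eq_single (i1, 0, a)]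
            · rw [if_pos ⟨rfl, rfl⟩]
            · rintro ⟨i', t, a'⟩ _ hne
              rw [if_neg]
              rintro ⟨h3, h4⟩
              apply hne
              simp only at h3 h4
              rw [← h3, ← h4, Subsingleton.elim t 0]
            · intro h
              exact absurd (Finset.mem_univ _) h
          · rw [if_pos h1, if_neg h2, if_pos h1, if_neg h2, if_neg (fun h => h2 h.2), add_zero]
        · rw [if_neg h1, if_neg h1, if_neg (fun h => h1 h.1), add_zero]
      · simp [G, SQ.blkM, SQ.bipM]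
      · simp [G]
    · rcases hq : e j with ⟨j1, b | b⟩ | w'
      · simp [G, SQ.blkM, SQ.bipM]
      · simp [G, SQ.blkM, SQ.bipM]
      · simp [G]
    · rcases hq : e j with ⟨j1, b | b⟩ | w'
      · simp [G]
      · simp [G]
      · simp [G]
  have hsymm : ∀ z, (fun r s => G z s r) = G z := by
    intro z
    funext r s
    rcases r with ⟨i1, a | a⟩ | w <;> rcases s with ⟨j1, b | b⟩ | w'
    · simp only [G, SQ.blkM, SQ.bipM]
      by_cases h1 : i1 = j1
      · subst h1
        by_cases h2 : a = b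
        · subst h2
          rfl
        · rw [if_pos rfl, if_pos rfl, if_neg h2, if_neg (fun h => h2 h.symm)]
      · rw [if_neg h1, if_neg (fun h => h1 h.symm)]
    · simp only [G, SQ.blkM, SQ.bipM, eq_comm]
    · rfl
    · simp only [G, SQ.blkM, SQ.bipM, eq_comm]
    · simp only [G, SQ.blkM, SQ.bipM, eq_comm]
    · rfl
    · rfl
    · rfl
    · simp only [G, eq_comm]
  refine ⟨Matrix.of fun i j => G 0 (e i) (e j), c, ((L - D).factorial : ℂ) ^ (2 * k), hc, ?_,
    fun z => ?_⟩
  · exact pow_ne_zero _ (by exact_mod_cast Nat.factorial_ne_zero _)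
  · have h2 : (Matrix.of (fun i j => G 0 (e i) (e j)) +
        Matrix.diagonal fun i => ∑ v, if c v = i then z v else 0 : Matrix (Fin m) (Fin m) ℂ) =
        Matrix.of fun i j => G z (e i) (e j) := by
      refine Matrix.ext fun i j => ?_
      rw [Matrix.add_apply, Matrix.of_apply, Matrix.of_apply, Matrix.diagonal_apply, ← hG]
    rw [h2, SQ.permanent_eq_rperm]
    have h3 : SQ.rperm (fun a b => (Matrix.of fun i j => G z (e i) (e j)) b a) =
        SQ.rperm (fun r s => G z s r) := SQ.rperm_equiv e e (fun r s => G z s r)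
    rw [h3, hsymm, SQ.rperm_block rfl (G z) (fun k b => rfl)]
    have h4 : SQ.rperm (fun (w w' : W) => G z (Sum.inr w) (Sum.inr w')) = 1 := SQ.rperm_one
    have h5 : SQ.rperm (fun (a b : Fin k × (Fin L ⊕ Fin (L - D))) => G z (Sum.inl a) (Sum.inl b)) =
        SQ.rperm (SQ.blkM (fun i : Fin k =>
        (SQ.bipM (fun a : Fin L => z (i, 0, a)) : Fin L ⊕ Fin (L - D) → Fin L ⊕ Fin (L - D) → ℂ))) := rfl
    rw [h4, mul_one, h5, SQ.rperm_blk rfl]
    have h6 : ∀ i : Fin k, SQ.rperm
        (SQ.bipM (fun a : Fin L => z (i, 0, a)) : Fin L ⊕ Fin (L - D) → Fin L ⊕ Fin (L - D) → ℂ) =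
        ((L - D).factorial : ℂ) ^ 2 *
          ∑ S ∈ Finset.powersetCard D (Finset.univ : Finset (Fin L)), ∏ a ∈ S, z (i, 0, a) := by
      intro i
      rw [SQ.rperm_bip (D := D) _ (by
        rw [Fintype.card_fin, Fintype.card_fin]
        omega), Fintype.card_fin]
    simp only [h6]
    rw [Finset.prod_mul_distrib, Finset.prod_const, Finset.card_univ, Fintype.card_fin, ← pow_mul]
    congr 1
    unfold SE.esf
    rw [map_prod]
    refine Finset.prod_congr rfl fun i _ => ?_
    rw [Fin.sum_univ_one, map_sum]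
    refine Finset.sum_congr rfl fun S _ => ?_
    rw [map_prod]
    simp

end Pool.Agent.Work.MP_35c45d_lc.SF
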