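import Pool.Agent.Work.MP_35c45d_lc.SDMons

/-! # Pointwise limits of polynomials of bounded degree are coefficientwise limits -/

set_option autoImplicit false

namespace Pool.Agent.Work.MP_35c45d_lc.SF

open MvPolynomial Filter Topology SD

variable {κ : Type} [Fintype κ] [DecidableEq κ]

/-- the polynomial with given coefficients -/
noncomputable def ofCoeff (n : ℕ) :
    ((mons (Finset.univ : Finset κ) n : Finset (κ →₀ ℕ)) → ℂ) →ₗ[ℂ] MvPolynomial κ ℂ where
  toFun c := ∑ d, monomial d.1 (c d)
  map_add' c c' := by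
    simp only [Pi.add_apply, map_add, Finset.sum_add_distrib]
  map_smul' a c := by
    simp only [Pi.smul_apply, RingHom.id_apply, Finset.smul_sum, smul_monomial]

theorem coeff_ofCoeff (n : ℕ) (c : (mons (Finset.univ : Finset κ) n : Finset (κ →₀ ℕ)) → ℂ)
    (d : (mons (Finset.univ : Finset κ) n : Finset (κ →₀ ℕ))) :
    coeff d.1 (ofCoeff n c) = c d := by
  change coeff d.1 (∑ d', monomial d'.1 (c d')) = c d
  rw [coeff_sum, Finset.sum_eq_single d]
  · rw [coeff_monomial, if_pos rfl]
  · intro d' _ hne
    rw [coeff_monomial, if_neg]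
    intro h
    exact hne (Subtype.ext h)
  · intro h
    exact absurd (Finset.mem_univ _) h

theorem mem_mons_of_coeff {n : ℕ} {p : MvPolynomial κ ℂ} (hp : p.totalDegree ≤ n) {d : κ →₀ ℕ}
    (hd : coeff d p ≠ 0) : d ∈ mons (Finset.univ : Finset κ) n := by
  rw [mem_mons]
  refine ⟨Finset.subset_univ _, ?_⟩
  refine le_trans ?_ hp
  have h1 := le_totalDegree (mem_support_iff.2 hd)
  rw [Finsupp.degree_apply]
  exact h1

theorem ofCoeff_coeff {n : ℕ} {p : MvPolynomial κ ℂ} (hp : p.totalDegree ≤ n) :
    ofCoeff n (fun d => coeff d.1 p) = p := by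
  ext d
  by_cases hd : d ∈ mons (Finset.univ : Finset κ) n
  · exact coeff_ofCoeff n (fun d => coeff d.1 p) ⟨d, hd⟩
  · have h1 : coeff d p = 0 := by
      by_contra h
      exact hd (mem_mons_of_coeff hp h)
    rw [h1]
    change coeff d (∑ d' : (mons (Finset.univ : Finset κ) n : Finset (κ →₀ ℕ)),
      monomial d'.1 (coeff d'.1 p)) = 0
    rw [coeff_sum]
    refine Finset.sum_eq_zero fun d' _ => ?_
    rw [coeff_monomial, if_neg]
    rintro rfl
    exact hd d'.2

theorem coeff_tendsto_of_eval (n : ℕ) (p : ℕ → MvPolynomial κ ℂ) (f : MvPolynomial κ ℂ)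
    (hp : ∀ s, (p s).totalDegree ≤ n) (hf : f.totalDegree ≤ n)
    (h : ∀ z : κ → ℂ, Tendsto (fun s => eval z (p s)) atTop (𝓝 (eval z f))) (d : κ →₀ ℕ) :
    Tendsto (fun s => coeff d (p s)) atTop (𝓝 (coeff d f)) := by
  by_cases hd : d ∈ mons (Finset.univ : Finset κ) n
  · let T : ((mons (Finset.univ : Finset κ) n : Finset (κ →₀ ℕ)) → ℂ) →ₗ[ℂ] ((κ → ℂ) → ℂ) :=
      { toFun := fun c z => eval z (ofCoeff n c)
        map_add' := fun c c' => by
          funext z
          simp only [map_add, Pi.add_apply]
        map_smul' := fun a c => by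
          funext z
          simp only [map_smul, smul_eval, Pi.smul_apply, RingHom.id_apply, smul_eq_mul] }
    have hT : LinearMap.ker T = ⊥ := by
      rw [LinearMap.ker_eq_bot']
      intro c hc
      have h1 : ofCoeff n c = 0 := by
        refine MvPolynomial.funext fun z => ?_
        have := congrFun hc z
        rw [map_zero]
        exact this
      funext d'
      rw [← coeff_ofCoeff n c d', h1, coeff_zero, Pi.zero_apply]
    have hemb := LinearMap.isClosedEmbedding_of_injective hT
    have h2 : Tendsto (fun s => (fun d' : (mons (Finset.univ : Finset κ) n :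
        Finset (κ →₀ ℕ)) => coeff d'.1 (p s))) atTop (𝓝 (fun d' => coeff d'.1 f)) := by
      rw [hemb.tendsto_nhds_iff, tendsto_pi_nhds]
      intro z
      have h3 : ∀ q : MvPolynomial κ ℂ, q.totalDegree ≤ n →
          T (fun d' => coeff d'.1 q) z = eval z q := by
        intro q hq
        change eval z (ofCoeff n fun d' => coeff d'.1 q) = eval z q
        rw [ofCoeff_coeff hq]
      simp only [Function.comp_def]
      rw [h3 f hf]
      simp only [h3 _ (hp _)]
      exact h z
    exact (tendsto_pi_nhds.1 h2) ⟨d, hd⟩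
  · have h1 : ∀ q : MvPolynomial κ ℂ, q.totalDegree ≤ n → coeff d q = 0 := by
      intro q hq
      by_contra h
      exact hd (mem_mons_of_coeff hq h)
    rw [h1 f hf]
    simp only [h1 _ (hp _)]
    exact tendsto_const_nhds

end Pool.Agent.Work.MP_35c45d_lc.SF
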