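import Pool.Agent.Work.MP_35c45d_lc.SFMain
import Pool.Agent.Work.MP_35c45d_lc.SFPoint
import Pool.Agent.Work.MP_35c45d_lc.SFCell

/-! # Determinants of any size with small total rank of the coefficients of the diagonal variables -/

set_option autoImplicit false

namespace Pool.Agent.Work.MP_35c45d_lc.SF

open MvPolynomial Filter Topology SD SE

section block

variable {ι : Type} [Fintype ι] [DecidableEq ι] {N : ℕ}

/-- the form of `SD.det_affM` with different ranks -/
theorem det_affM_sigma (A : Matrix (Fin N) (Fin N) ℂ) (B : ι → Matrix (Fin N) (Fin N) ℂ)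
    (ρ : ι → ℕ) (hB : ∀ v, (B v).rank ≤ ρ v) :
    ∃ P : Matrix (Fin N ⊕ (Σ v : ι, Fin (ρ v))) (Fin N ⊕ (Σ v : ι, Fin (ρ v)))
        (MvPolynomial ι ℂ),
      P.det = (affM A B).det ∧ (∀ i j, (P i j).totalDegree ≤ 1) ∧
      ∀ i j, ∃ c : ℂ, P (Sum.inl i) j = C c := by
  classical
  choose U V hUV using fun v => rank_factor (B v) (hB v)
  let P12 : Matrix (Fin N) (Σ v : ι, Fin (ρ v)) (MvPolynomial ι ℂ) :=
    Matrix.of fun i q => C (U q.1 i q.2)
  let P21 : Matrix (Σ v : ι, Fin (ρ v)) (Fin N) (MvPolynomial ι ℂ) :=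
    Matrix.of fun q j => - (C (V q.1 q.2 j) * X q.1)
  refine ⟨Matrix.fromBlocks (A.map C) P12 P21 1, ?_, ?_, ?_⟩
  · rw [Matrix.det_fromBlocks_one₂₂]
    congr 1
    refine Matrix.ext fun i j => ?_
    rw [Matrix.sub_apply, Matrix.mul_apply, Matrix.map_apply]
    simp only [P12, P21, Matrix.of_apply, affM]
    rw [Fintype.sum_sigma, sub_eq_add_neg, ← Finset.sum_neg_distrib]
    congr 1
    refine Finset.sum_congr rfl fun v _ => ?_
    rw [hUV v, Matrix.mul_apply, map_sum, Finset.sum_mul, ← Finset.sum_neg_distrib]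
    refine Finset.sum_congr rfl fun t _ => ?_
    rw [C_mul]
    ring
  · rintro (i | i) (j | j)
    · simp
    · simp [P12]
    · simp only [Matrix.fromBlocks_apply₂₁, P21, Matrix.of_apply, totalDegree_neg]
      refine (totalDegree_mul _ _).trans ?_
      rw [totalDegree_C, zero_add, totalDegree_X]
    · rw [Matrix.fromBlocks_apply₂₂, Matrix.one_apply]
      split_ifs <;> simp
  · rintro i (j | j)
    · exact ⟨A i j, by simp⟩
    · exact ⟨U j.1 i j.2, by simp [P12]⟩

theorem exists_small_sum {n : ℕ} (hn : 1 ≤ n) (A : Matrix (Fin N) (Fin N) ℂ)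
    (B : ι → Matrix (Fin N) (Fin N) ℂ) (hB : ∑ v, (B v).rank ≤ n) :
    ∃ P : Matrix (Fin n) (Fin n) (MvPolynomial ι ℂ),
      (∀ i j, (P i j).totalDegree ≤ 1) ∧ P.det = (affM A B).det := by
  classical
  obtain ⟨P, hP, hP1, hP2⟩ := det_affM_sigma A B (fun v => (B v).rank) (fun v => le_rfl)
  obtain ⟨Q, hQ, hdet⟩ := exists_small_fintype hn P hP1
    ((Finset.univ : Finset (Σ v : ι, Fin ((B v).rank))).map Function.Embedding.inr) (by
      rw [Finset.card_map, Finset.card_univ, Fintype.card_sigma]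
      simpa using hB) (by
      rintro (i | i) hi j
      · exact hP2 i j
      · exact absurd (Finset.mem_map.2 ⟨i, Finset.mem_univ _, rfl⟩) hi)
  exact ⟨Q, hQ, hdet.trans hP⟩

theorem eval_affM (A : Matrix (Fin N) (Fin N) ℂ) (B : ι → Matrix (Fin N) (Fin N) ℂ) (z : ι → ℂ) :
    eval z (affM A B).det = (A + ∑ v, z v • B v).det := by
  have h1 : eval z (affM A B).det = ((affM A B).map (eval z)).det := (eval z).map_det _
  rw [h1]
  congr 1
  refine Matrix.ext fun i j => ?_
  simp only [affM, Matrix.map_apply, Matrix.of_apply, map_add, map_sum, map_mul, eval_C, eval_X,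
    Matrix.add_apply, Matrix.sum_apply, Matrix.smul_apply, smul_eq_mul]
  congr 1
  exact Finset.sum_congr rfl fun v _ => mul_comm _ _

end block

/-- `f` is a pointwise limit of sums of `M` determinants of affine matrices of any sizes with
total rank of the coefficients at most `n`. -/
theorem limSumDet_of_point {κ : Type} [Fintype κ] [DecidableEq κ] {M n : ℕ} (hn : 1 ≤ n)
    (f : MvPolynomial κ ℂ) (N : ℕ → Fin M → ℕ)
    (A : (s : ℕ) → (t : Fin M) → Matrix (Fin (N s t)) (Fin (N s t)) ℂ)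
    (B : (s : ℕ) → (t : Fin M) → κ → Matrix (Fin (N s t)) (Fin (N s t)) ℂ)
    (hB : ∀ s t, ∑ v, (B s t v).rank ≤ n)
    (h : ∀ z : κ → ℂ, Tendsto (fun s => ∑ t, (A s t + ∑ v, z v • B s t v).det) atTop
      (𝓝 (eval z f))) : LimSumDet M n f := by
  choose P hP hdet using fun s t => exists_small_sum hn (A s t) (B s t) (hB s t)
  refine ⟨P, hP, fun d => ?_⟩
  refine coeff_tendsto_of_eval (max n f.totalDegree) _ f (fun s => ?_) (le_max_right _ _)
    (fun z => ?_) d
  · exact (totalDegree_sum_det_le _ (hP s)).trans (le_max_left _ _)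
  · have h1 : ∀ s, eval z (∑ t, (P s t).det) = ∑ t, (A s t + ∑ v, z v • B s t v).det := by
      intro s
      rw [map_sum]
      refine Finset.sum_congr rfl fun t _ => ?_
      rw [hdet, eval_affM]
    simp only [h1]
    exact h z

/-- **Only the diagonal variables matter.** -/
theorem diag_main (m M : ℕ) (hm : 1 ≤ m) (r : ℝ) (hr : 1 ≤ r)
    (hsec : ∀ k D : ℕ, 1 ≤ k → 1 ≤ D → k * (3 * D) ≤ m →
      ∃ (X0 : Matrix (Fin m) (Fin m) ℂ) (c : Fin k × Fin 1 × Fin (2 * D) → Fin m) (c0 : ℂ),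
        Function.Injective c ∧ c0 ≠ 0 ∧ ∀ z : Fin k × Fin 1 × Fin (2 * D) → ℂ,
          (X0 + Matrix.diagonal fun i => ∑ v, if c v = i then z v else 0).permanent =
            c0 * eval z (esf k 1 (2 * D) D))
    (h : ∀ X : Matrix (Fin m) (Fin m) ℂ, ∃ (N : ℕ → Fin M → ℕ)
      (P : (s : ℕ) → (t : Fin M) → Matrix (Fin (N s t)) (Fin (N s t)) ℂ)
      (Q : (s : ℕ) → (t : Fin M) → Fin m → Matrix (Fin (N s t)) (Fin (N s t)) ℂ),
      (∀ s t, ((∑ i, (Q s t i).rank : ℕ) : ℝ) ≤ r * m) ∧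
      ∀ z : Fin m → ℂ, Tendsto (fun s => ∑ t, (P s t + ∑ i, z i • Q s t i).det) atTop
        (𝓝 (X + Matrix.diagonal z).permanent)) :
    (m : ℝ) ≤ 10 ^ 10 * (r * (1 + Real.log r)) ^ 2 * Real.log (M + 1) := by
  classical
  have hm1 : (1 : ℝ) ≤ m := by exact_mod_cast hm
  set n : ℕ := ⌊r * m⌋₊ with hn
  have hn1 : 1 ≤ n := Nat.le_floor (by push_cast; nlinarith)
  have hnr : (n : ℝ) ≤ r * m := Nat.floor_le (by positivity)
  -- `1 ≤ M`
  have hM : 1 ≤ M := by
    by_contra hM
    have hM0 : M = 0 := by omega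
    subst hM0
    obtain ⟨N, P, Q, -, hlim⟩ := h 0
    have h1 := hlim (fun _ => 1)
    simp only [Finset.univ_eq_empty, Finset.sum_empty] at h1
    have h2 := tendsto_nhds_unique h1 tendsto_const_nhds
    rw [zero_add, Matrix.permanent_diagonal] at h2
    simp at h2
  refine read_num m M n r hr hnr hM fun k D hk hD hkD => ?_
  obtain ⟨X0, c, c0, hc, hc0, hX0⟩ := hsec k D hk hD hkD
  obtain ⟨N, P, Q, hQ, hlim⟩ := h X0
  refine ⟨c0, hc0, limSumDet_of_point hn1 _ N P (fun s t v => Q s t (c v)) (fun s t => ?_)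
    (fun z => ?_)⟩
  · have h1 : ∑ i, (Q s t i).rank ≤ n := Nat.le_floor (hQ s t)
    refine le_trans ?_ h1
    rw [← Finset.sum_image (f := fun i => (Q s t i).rank) (s := Finset.univ) (g := c)
      (fun a _ b _ hab => hc hab)]
    exact Finset.sum_le_sum_of_subset (Finset.subset_univ _)
  · have h1 := hlim (fun i => ∑ v, if c v = i then z v else 0)
    rw [hX0 z] at h1
    have h2 : eval z (C c0 * esf k 1 (2 * D) D) = c0 * eval z (esf k 1 (2 * D) D) := by
      rw [map_mul, eval_C]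
    rw [h2]
    have h3 : ∀ s t, ∑ i, (∑ v, if c v = i then z v else 0) • Q s t i =
        ∑ v, z v • Q s t (c v) := by
      intro s t
      simp only [Finset.sum_smul]
      rw [Finset.sum_comm]
      refine Finset.sum_congr rfl fun v _ => ?_
      rw [Finset.sum_eq_single (c v)]
      · rw [if_pos rfl]
      · intro i _ hi
        rw [if_neg hi.symm, zero_smul]
      · intro h
        exact absurd (Finset.mem_univ _) h
    simp only [h3] at h1
    exact h1

theorem diag_final (m M : ℕ) (hm : 1 ≤ m) (r : ℝ) (hr : 1 ≤ r)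
    (h : ∀ X : Matrix (Fin m) (Fin m) ℂ, ∃ (N : ℕ → Fin M → ℕ)
      (P : (s : ℕ) → (t : Fin M) → Matrix (Fin (N s t)) (Fin (N s t)) ℂ)
      (Q : (s : ℕ) → (t : Fin M) → Fin m → Matrix (Fin (N s t)) (Fin (N s t)) ℂ),
      (∀ s t, ((∑ i, (Q s t i).rank : ℕ) : ℝ) ≤ r * m) ∧
      ∀ z : Fin m → ℂ, Tendsto (fun s => ∑ t, (P s t + ∑ i, z i • Q s t i).det) atTop
        (𝓝 (X + Matrix.diagonal z).permanent)) :
    (m : ℝ) ≤ 10 ^ 10 * (r * (1 + Real.log r)) ^ 2 * Real.log (M + 1) :=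
  diag_main m M hm r hr (fun k D _ hD hkD => esf_diag (by omega) (by
    have : k * (2 * (2 * D) - D) = k * (3 * D) := by congr 1; omega
    omega)) h

end Pool.Agent.Work.MP_35c45d_lc.SF
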