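import Mathlib

set_option autoImplicit false

/-!
Definitions for the lower bound for determinantal representations of the permanent which are
equivariant under an abelian permutation group.
-/

namespace Pool.MP_35c45d_lc.Ab
open Finset

section group

variable {m : ℕ} (Γ : Subgroup (Equiv.Perm (Fin m)))

/-- the orbit of `x` -/
noncomputable def orb (x : Fin m) : Finset (Fin m) :=
  open Classical in univ.filter fun y => ∃ γ : Γ, (γ : Equiv.Perm (Fin m)) x = y

/-- the characters which are trivial on the stabiliser of `x` -/
def XS (x : Fin m) : Subgroup (Γ →* ℂˣ) where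
  carrier := {χ | ∀ γ : Γ, (γ : Equiv.Perm (Fin m)) x = x → χ γ = 1}
  mul_mem' := by
    intro a b ha hb γ hγ
    rw [MonoidHom.mul_apply, ha γ hγ, hb γ hγ, one_mul]
  one_mem' := by
    intro γ _
    rfl
  inv_mem' := by
    intro a ha γ hγ
    rw [MonoidHom.inv_apply, ha γ hγ, inv_one]

/-- the vector of the character `χ` on the orbit of `x` -/
noncomputable def vec (x : Fin m) (χ : Γ →* ℂˣ) (y : Fin m) : ℂ :=
  open Classical in
  if h : ∃ γ : Γ, (γ : Equiv.Perm (Fin m)) x = y then ((χ h.choose : ℂˣ) : ℂ) else 0

end group

/-- the degree of a vertex -/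
def deg (h : ℕ) : ℕ := if h < 32 then 3 else Nat.log 2 h

/-- the loss factor of a vertex -/
noncomputable def nu (h : ℕ) : ℝ := if h < 32 then (4 * h - 4) / (2 * h - 3) else 4

end Pool.MP_35c45d_lc.Ab
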