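import Mathlib
import Pool.Agent.Work.MP_35c45d_lc.ABDefs

set_option autoImplicit false

namespace Pool.MP_35c45d_lc.Ab
open Finset

namespace Chain

/-- the characters which are trivial on `S` -/
def annS {G : Type*} [Group G] (S : Subgroup G) : Subgroup (G →* ℂˣ) where
  carrier := {χ | ∀ s ∈ S, χ s = 1}
  mul_mem' := by
    intro a b ha hb s hs
    rw [MonoidHom.mul_apply, ha s hs, hb s hs, one_mul]
  one_mem' := by
    intro s _
    rfl
  inv_mem' := by
    intro a ha s hs
    rw [MonoidHom.inv_apply, ha s hs, inv_one]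

section dual

lemma mem_annS {G : Type*} [Group G] (S : Subgroup G) (χ : G →* ℂˣ) : χ ∈ annS S ↔ ∀ s ∈ S, χ s = 1 := Iff.rfl

variable {G : Type*} [CommGroup G] [Finite G]

lemma card_annS (S : Subgroup G) : Nat.card (annS S) = S.index := by
  have : NeZero ((Monoid.exponent G : ℕ) : ℂ) :=
    ⟨by exact_mod_cast Monoid.exponent_ne_zero_of_finite⟩
  change Nat.card (annS S) = Nat.card (G ⧸ S)
  rw [← CommGroup.card_domRestrictHom_ker ℂ S]
  have h : annS S = (MonoidHom.domRestrictHom S ℂˣ).ker := by
    ext χ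
    rw [mem_annS, MonoidHom.mem_ker, MonoidHom.domRestrictHom_apply,
      MonoidHom.domRestrict_eq_one_iff]
  rw [h]

omit [Finite G] in
lemma annS_inf (S T : Subgroup G) : annS T ⊓ annS S = annS (S ⊔ T) := by
  ext χ
  rw [Subgroup.mem_inf, mem_annS, mem_annS, mem_annS]
  constructor
  · rintro ⟨h1, h2⟩ s hs
    obtain ⟨a, ha, b, hb, rfl⟩ := Subgroup.mem_sup.mp hs
    rw [map_mul, h2 a ha, h1 b hb, one_mul]
  · intro h
    exact ⟨fun s hs => h s (le_sup_right (a := S) hs), fun s hs => h s (le_sup_left (b := T) hs)⟩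

/-- the index of the annihilators -/
lemma relIndex_annS (S T : Subgroup G) :
    (annS T).relIndex (annS S) = S.relIndex T := by
  have h1 : (annS T).relIndex (annS S) * (S ⊔ T).index = S.index := by
    rw [← card_annS, ← card_annS, ← annS_inf, mul_comm]
    have h2 := Subgroup.relIndex_mul_relIndex ⊥ (annS T ⊓ annS S) (annS S) bot_le inf_le_right
    rw [Subgroup.relIndex_bot_left, Subgroup.relIndex_bot_left, Subgroup.inf_relIndex_right] at h2
    exact h2
  have h3 : S.relIndex T * (S ⊔ T).index = S.index := by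
    have h4 := Subgroup.relIndex_mul_index (H := S) (K := S ⊔ T) le_sup_left
    rw [Subgroup.relIndex_sup_left] at h4
    exact h4
  have h5 : 0 < (S ⊔ T).index := Nat.pos_of_ne_zero Subgroup.index_ne_zero_of_finite
  exact Nat.eq_of_mul_eq_mul_right h5 (h1.trans h3.symm)

end dual

section chain

variable {m : ℕ} (Γ : Subgroup (Equiv.Perm (Fin m)))

/-- the greedy chain -/
lemma greedy (c : ℕ) : ∀ D0 : Subgroup Γ, Nat.card D0 ≤ c →
    ∃ (r : ℕ) (x : Fin r → Fin m) (D : Fin r → Subgroup Γ) (L : Subgroup Γ),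
      (∀ k, D k ≤ D0) ∧
      (∀ k, 3 ≤ (MulAction.stabilizer Γ (x k)).relIndex (D k)) ∧
      (∀ k k', k' < k → D k ≤ MulAction.stabilizer Γ (x k')) ∧
      (∀ y : Fin m, (MulAction.stabilizer Γ y).relIndex L ≤ 2) ∧
      Nat.card D0 = (∏ k, (MulAction.stabilizer Γ (x k)).relIndex (D k)) * Nat.card L := by
  induction c with
  | zero =>
    intro D0 h0
    have := Nat.card_pos (α := D0)
    omega
  | succ c ih =>
    intro D0 hc
    by_cases hx : ∃ x : Fin m, 3 ≤ (MulAction.stabilizer Γ x).relIndex D0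
    · obtain ⟨x0, hx0⟩ := hx
      set D1 := MulAction.stabilizer Γ x0 ⊓ D0 with hD1
      have hcard : Nat.card D1 * (MulAction.stabilizer Γ x0).relIndex D0 = Nat.card D0 := by
        have h2 := Subgroup.relIndex_mul_relIndex ⊥ D1 D0 bot_le inf_le_right
        rw [Subgroup.relIndex_bot_left, Subgroup.relIndex_bot_left, hD1,
          Subgroup.inf_relIndex_right] at h2
        exact h2
      have hpos := Nat.card_pos (α := D1)
      obtain ⟨r, x, D, L, h1, h2, h3, hL, h4⟩ := ih D1 (by nlinarith)
      refine ⟨r + 1, Fin.cons x0 x, Fin.cons D0 D, L, ?_, ?_, ?_, hL, ?_⟩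
      · intro k
        refine Fin.cases ?_ ?_ k
        · exact le_rfl
        · intro k
          simp only [Fin.cons_succ]
          exact (h1 k).trans inf_le_right
      · intro k
        refine Fin.cases ?_ ?_ k
        · exact hx0
        · intro k
          simp only [Fin.cons_succ]
          exact h2 k
      · intro k k'
        refine Fin.cases ?_ ?_ k
        · intro h
          exact absurd h (Fin.not_lt_zero _)
        · intro k
          refine Fin.cases ?_ ?_ k'
          · intro _
            simp only [Fin.cons_succ, Fin.cons_zero]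
            exact (h1 k).trans inf_le_left
          · intro k' h
            simp only [Fin.cons_succ]
            exact h3 k k' (Fin.succ_lt_succ_iff.mp h)
      · rw [Fin.prod_univ_succ]
        simp only [Fin.cons_succ, Fin.cons_zero]
        rw [← hcard, h4]
        ring
    · refine ⟨0, Fin.elim0, Fin.elim0, D0, fun k => k.elim0, fun k => k.elim0,
        fun k => k.elim0, ?_, ?_⟩
      · push Not at hx
        intro y
        exact Nat.le_of_lt_succ (hx y)
      · simp only [Finset.univ_eq_empty, Finset.prod_empty, one_mul]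

end chain

end Chain

open Chain

/-- the greedy chain of orbits -/
theorem exists_chain {m : ℕ} (Γ : Subgroup (Equiv.Perm (Fin m)))
    (hcomm : ∀ a ∈ Γ, ∀ b ∈ Γ, a * b = b * a) :
    ∃ (r : ℕ) (x : Fin r → Fin m) (h : Fin r → ℕ) (Y : Fin r → Subgroup (Γ →* ℂˣ)),
      (∀ k, 3 ≤ h k ∧ h k ≤ m ∧ h k ≤ (Y k).relIndex (XS Γ (x k)) ∧ 3 ≤ #(orb Γ (x k))) ∧
      (∀ k k', k' < k → XS Γ (x k') ≤ Y k) ∧
      (∀ k k', k ≠ k' → Disjoint (orb Γ (x k)) (orb Γ (x k'))) ∧
      ∃ Γ' : Subgroup (Equiv.Perm (Fin m)), Γ' ≤ Γ ∧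
        (∀ y, ((fun γ : Equiv.Perm (Fin m) => γ y) '' (Γ' : Set (Equiv.Perm (Fin m)))).ncard
          ≤ 2) ∧ Nat.card Γ = (∏ k, h k) * Nat.card Γ' := by
  classical
  let _ : CommGroup Γ := { (inferInstance : Group Γ) with
    mul_comm := fun a b => Subtype.ext (hcomm _ a.2 _ b.2) }
  obtain ⟨r, x, D, L, -, h2, h3, hL, h4⟩ := greedy Γ (Nat.card (⊤ : Subgroup Γ)) ⊤ le_rfl
  have hXS : ∀ y : Fin m, XS Γ y = annS (MulAction.stabilizer Γ y) := by
    intro y
    ext χ
    rfl
  have horb : ∀ y : Fin m, #(orb Γ y) = (MulAction.stabilizer Γ y).index := by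
    intro y
    rw [MulAction.index_stabilizer, ← Set.ncard_coe_finset]
    congr 1
    ext z
    simp only [orb, Finset.coe_filter, Finset.mem_univ, true_and, Set.mem_ofPred_eq]
    rfl
  have hle : ∀ k, (MulAction.stabilizer Γ (x k)).relIndex (D k) ≤ #(orb Γ (x k)) := by
    intro k
    rw [horb]
    rw [← Subgroup.relIndex_top_right]
    apply Subgroup.relIndex_le_of_le_right le_top
    rw [Subgroup.relIndex_top_right]
    exact Subgroup.index_ne_zero_of_finite
  refine ⟨r, x, fun k => (MulAction.stabilizer Γ (x k)).relIndex (D k), fun k => annS (D k),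
    ?_, ?_, ?_, ?_⟩
  · intro k
    refine ⟨h2 k, ?_, ?_, (h2 k).trans (hle k)⟩
    · refine (hle k).trans ?_
      refine (Finset.card_le_univ _).trans ?_
      simp
    · rw [hXS]
      exact (relIndex_annS (G := Γ) _ _).ge
  · intro k k' hk
    rw [hXS]
    intro χ hχ s hs
    exact hχ s (h3 k k' hk hs)
  · have key : ∀ k k', k' < k → Disjoint (orb Γ (x k)) (orb Γ (x k')) := by
      intro k k' hk
      rw [Finset.disjoint_left]
      intro z hz hz'
      simp only [orb, Finset.mem_filter, Finset.mem_univ, true_and] at hz hz'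
      obtain ⟨a, ha⟩ := hz
      obtain ⟨b, hb⟩ := hz'
      have h5 : D k ≤ MulAction.stabilizer Γ (x k) := by
        intro d hd
        have h6 := h3 k k' hk hd
        rw [MulAction.mem_stabilizer_iff] at h6 ⊢
        have h7 : x k = (a⁻¹ * b) • x k' := by
          rw [mul_smul]
          have h8 : b • x k' = z := hb
          have h9 : a • x k = z := ha
          rw [h8, ← h9, inv_smul_smul]
        rw [h7, ← mul_smul]
        have h10 : d * (a⁻¹ * b) = (a⁻¹ * b) * d := Subtype.ext (hcomm _ d.2 _ (a⁻¹ * b).2)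
        rw [h10, mul_smul, h6]
      have h6 : (MulAction.stabilizer Γ (x k)).relIndex (D k) = 1 :=
        Subgroup.relIndex_eq_one.mpr h5
      have := h2 k
      omega
    intro k k' hne
    rcases lt_or_gt_of_ne hne with h | h
    · exact (key k' k h).symm
    · exact key k k' h
  · refine ⟨L.map Γ.subtype, ?_, ?_, ?_⟩
    · exact Subgroup.map_subtype_le L
    · intro y
      refine le_trans (le_of_eq ?_) (hL y)
      -- the orbit of `y` under `L`
      have h5 : ((fun γ : Equiv.Perm (Fin m) => γ y) ''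
          ((L.map Γ.subtype : Subgroup _) : Set (Equiv.Perm (Fin m)))) = MulAction.orbit L y := by
        ext z
        constructor
        · rintro ⟨_, ⟨γ, hγ, rfl⟩, rfl⟩
          exact ⟨⟨γ, hγ⟩, rfl⟩
        · rintro ⟨γ, rfl⟩
          exact ⟨_, ⟨γ.1, γ.2, rfl⟩, rfl⟩
      rw [h5, ← MulAction.index_stabilizer]
      rfl
    · rw [Subgroup.card_top] at h4
      rw [h4, Subgroup.card_map_of_injective Γ.subtype_injective]

end Pool.MP_35c45d_lc.Ab
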