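import Mathlib

set_option autoImplicit false
set_option linter.unusedSectionVars false

namespace Pool.MP_35c45d_lc.Ab
open Finset MvPolynomial Filter Topology

/-- The permanent of the `m × m` matrix of variables, as a polynomial in the `m²` variables. -/
noncomputable def permPoly (m : ℕ) : MvPolynomial (Fin m × Fin m) ℂ :=
  (Matrix.of fun i j : Fin m => (X (i, j) : MvPolynomial (Fin m × Fin m) ℂ)).permanent

section limit

/-- a linear functional is continuous along coefficientwise limits of bounded degree -/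
theorem tendsto_functional {q : Type*} [Fintype q] [DecidableEq q]
    (ℓ : MvPolynomial q ℂ →ₗ[ℂ] ℂ) (f : ℕ → MvPolynomial q ℂ) (g : MvPolynomial q ℂ) (M : ℕ)
    (hM : ∀ k, (f k).totalDegree ≤ M)
    (hlim : ∀ d, Tendsto (fun k => coeff d (f k)) atTop (𝓝 (coeff d g))) :
    Tendsto (fun k => ℓ (f k)) atTop (𝓝 (ℓ g)) := by
  classical
  obtain ⟨S, hS⟩ : ∃ S : Finset (q →₀ ℕ), ∀ d, (∑ i, d i) ≤ max M g.totalDegree → d ∈ S := by
    refine ⟨Finset.Iic (Finsupp.equivFunOnFinite.symm fun _ => max M g.totalDegree), ?_⟩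
    intro d hd
    rw [Finset.mem_Iic]
    intro i
    rw [Finsupp.equivFunOnFinite_symm_apply_apply]
    exact (Finset.single_le_sum (fun _ _ => Nat.zero_le _) (Finset.mem_univ i)).trans hd
  have hexp : ∀ p : MvPolynomial q ℂ, p.totalDegree ≤ max M g.totalDegree →
      ℓ p = ∑ d ∈ S, coeff d p * ℓ (monomial d 1) := by
    intro p hp
    have h1 : p = ∑ d ∈ S, coeff d p • monomial d (1 : ℂ) := by
      conv_lhs => rw [p.as_sum]
      rw [Finset.sum_subset (s₂ := S)]
      · refine Finset.sum_congr rfl fun d _ => ?_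
        rw [smul_monomial, smul_eq_mul, mul_one]
      · intro d hd
        apply hS
        have h2 := le_totalDegree hd
        rw [Finsupp.sum_fintype _ _ (fun _ => rfl)] at h2
        exact h2.trans hp
      · intro d _ hd
        rw [notMem_support_iff.mp hd, monomial_zero]
    conv_lhs => rw [h1]
    rw [map_sum]
    refine Finset.sum_congr rfl fun d _ => ?_
    rw [map_smul, smul_eq_mul]
  have h2 : ∀ k, ℓ (f k) = ∑ d ∈ S, coeff d (f k) * ℓ (monomial d 1) :=
    fun k => hexp _ ((hM k).trans (le_max_left _ _))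
  simp only [h2]
  rw [hexp g (le_max_right _ _)]
  exact tendsto_finsetSum _ fun d _ => (hlim d).mul_const _

/-- the total degree of a determinant -/
theorem totalDegree_det {n : ℕ} {q : Type*} (A : Matrix (Fin n) (Fin n) (MvPolynomial q ℂ)) (D : ℕ)
    (hD : ∀ i j, (A i j).totalDegree ≤ D) : A.det.totalDegree ≤ n * D := by
  rw [Matrix.det_apply]
  refine (totalDegree_finsetSum _ _).trans (Finset.sup_le fun σ _ => ?_)
  have h1 : (Equiv.Perm.sign σ • ∏ i, A (σ i) i).totalDegree ≤ (∏ i, A (σ i) i).totalDegree := by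
    rw [Units.smul_def]
    rcases Int.units_eq_one_or (Equiv.Perm.sign σ) with hs | hs
    · rw [hs]; simp
    · rw [hs]; simp
  refine h1.trans ((totalDegree_finsetProd _ _).trans ?_)
  calc ∑ i, (A (σ i) i).totalDegree ≤ ∑ _i : Fin n, D := Finset.sum_le_sum fun i _ => hD _ _
    _ = n * D := by simp

theorem coeff_permPoly (m : ℕ) :
    coeff (∑ i : Fin m, Finsupp.single (i, i) 1) (permPoly m) = 1 := by
  have h1 : ∀ σ : Equiv.Perm (Fin m),
      coeff (∑ i : Fin m, Finsupp.single (i, i) 1)
        (∏ i, (Matrix.of fun i j : Fin m => (X (i, j) : MvPolynomial (Fin m × Fin m) ℂ)) (σ i) i)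
      = if σ = 1 then 1 else 0 := by
    intro σ
    have h2 : ∏ i, (Matrix.of fun i j : Fin m => (X (i, j) : MvPolynomial (Fin m × Fin m) ℂ))
        (σ i) i = monomial (∑ i, Finsupp.single (σ i, i) 1) 1 := by
      simp only [Matrix.of_apply, X]
      rw [monomial_sum_one]
    rw [h2, coeff_monomial]
    by_cases hσ : σ = 1
    · subst hσ; simp
    · rw [if_neg hσ, if_neg]
      intro h3
      apply hσ
      ext i
      have h4 := DFunLike.congr_fun h3 (σ i, i)
      simp only [Finsupp.coe_finsetSum, Finset.sum_apply, Finsupp.single_apply,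
        Prod.mk.injEq] at h4
      have h5 : ∑ x : Fin m, (if σ x = σ i ∧ x = i then 1 else 0) = 1 := by
        rw [Finset.sum_eq_single i]
        · simp
        · intro x _ hx
          rw [if_neg (fun h => hx h.2)]
        · intro h; exact absurd (Finset.mem_univ _) h
      rw [h5] at h4
      by_contra h6
      have h7 : ∑ x : Fin m, (if x = σ i ∧ x = i then 1 else 0) = 0 := by
        apply Finset.sum_eq_zero
        intro x _
        rw [if_neg]
        rintro ⟨h8, h9⟩
        apply h6
        rw [← h8, h9]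
        rfl
      rw [h7] at h4
      exact one_ne_zero h4
  rw [permPoly, Matrix.permanent, coeff_sum]
  rw [Finset.sum_congr rfl fun σ _ => h1 σ]
  simp

/-- a coefficientwise limit of polynomials of degree `< m` is not the permanent -/
theorem degree_ge (m M : ℕ) (f : ℕ → MvPolynomial (Fin m × Fin m) ℂ)
    (hM : ∀ k, (f k).totalDegree ≤ M)
    (hlim : ∀ d, Tendsto (fun k => coeff d (f k)) atTop (𝓝 (coeff d (permPoly m)))) : m ≤ M := by
  by_contra hlt
  push Not at hlt
  have h1 := hlim (∑ i : Fin m, Finsupp.single (i, i) 1)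
  rw [coeff_permPoly] at h1
  have h2 : ∀ k, coeff (∑ i : Fin m, Finsupp.single (i, i) 1) (f k) = 0 := by
    intro k
    apply coeff_eq_zero_of_totalDegree_lt
    refine lt_of_le_of_lt (hM k) (lt_of_lt_of_eq hlt ?_)
    have h3 : ∑ q ∈ (∑ i : Fin m, Finsupp.single (i, i) (1 : ℕ)).support,
        (∑ i : Fin m, Finsupp.single (i, i) (1 : ℕ)) q
        = Finsupp.degree (∑ i : Fin m, Finsupp.single (i, i) (1 : ℕ)) := rfl
    rw [h3, map_sum]
    simp
  simp only [h2] at h1
  exact zero_ne_one (tendsto_nhds_unique tendsto_const_nhds h1)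

end limit


end Pool.MP_35c45d_lc.Ab
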