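import Mathlib

namespace Pool.MP_35c45d_lc.PermEq2
open Polynomial Matrix

variable {n : Type*} [Fintype n] [DecidableEq n] {R : Type*} [CommRing R]

/-- Jacobi's formula for polynomial matrices. -/
theorem derivative_det (N : Matrix n n R[X]) :
    derivative N.det = trace (adjugate N * N.map derivative) := by
  have h1 : derivative N.det = ∑ i, (N.updateCol i (fun r => derivative (N r i))).det := by
    simp only [det_apply', derivative_sum]
    rw [Finset.sum_comm]
    refine Finset.sum_congr rfl fun σ _ => ?_
    rw [derivative_mul]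
    have h0 : derivative (((Equiv.Perm.sign σ : ℤˣ) : ℤ) : R[X]) = 0 := by
      exact derivative_intCast
    rw [h0, zero_mul, zero_add, derivative_prod_finset, Finset.mul_sum]
    refine Finset.sum_congr rfl fun i _ => ?_
    congr 1
    rw [← Finset.mul_prod_erase Finset.univ _ (Finset.mem_univ i), mul_comm]
    congr 1
    · simp
    · refine Finset.prod_congr rfl fun j hj => ?_
      rw [updateCol_ne (Finset.ne_of_mem_erase hj)]
  rw [h1]
  simp only [trace, diag]
  refine Finset.sum_congr rfl fun i _ => ?_
  rw [← cramer_apply, cramer_eq_adjugate_mulVec]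
  rfl

/-- `det (1 + z M)` as a polynomial in `z`. -/
noncomputable def dpoly (M : Matrix n n R) : R[X] := det (1 + (X : R[X]) • M.map C)

/-- The `k`-th elementary symmetric function of the eigenvalues. -/
noncomputable def ecoef (k : ℕ) (M : Matrix n n R) : R := (dpoly M).coeff k

theorem newton_aux (M : Matrix n n R) (a j : ℕ) :
    (trace (adjugate (1 + (X : R[X]) • M.map C) * (M ^ j).map C)).coeff a
      = ∑ i ∈ Finset.range (a + 1), (-1) ^ i * ecoef (a - i) M * trace (M ^ (j + i)) := by
  have key : ∀ j, trace (adjugate (1 + (X : R[X]) • M.map C) * (M ^ j).map C)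
      = dpoly M * C (trace (M ^ j))
        - X * trace (adjugate (1 + (X : R[X]) • M.map C) * (M ^ (j + 1)).map C) := by
    intro j
    have h1 := adjugate_mul (1 + (X : R[X]) • M.map C)
    have h2 : adjugate (1 + (X : R[X]) • M.map C)
        = dpoly M • (1 : Matrix n n R[X])
          - (X : R[X]) • (adjugate (1 + (X : R[X]) • M.map C) * M.map C) := by
      rw [dpoly, ← h1]
      rw [mul_add, mul_one, mul_smul_comm]
      abel
    have h3 : (M ^ (j + 1)).map C = M.map C * (M ^ j).map (C : R →+* R[X]) := by
      rw [pow_succ', Matrix.map_mul]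
    have h4 : trace ((M ^ j).map (C : R →+* R[X])) = C (trace (M ^ j)) := by
      simp [trace]
    rw [h3]
    conv_lhs => rw [h2]
    rw [sub_mul, trace_sub, smul_mul_assoc, one_mul, trace_smul, smul_mul_assoc, trace_smul,
      mul_assoc, h4, smul_eq_mul, smul_eq_mul]
  induction a generalizing j with
  | zero =>
    rw [key j]
    simp [ecoef]
  | succ a ih =>
    rw [key j, coeff_sub, coeff_X_mul, ih (j + 1)]
    conv_rhs => rw [Finset.sum_range_succ']
    simp only [coeff_mul_C, pow_zero, one_mul, Nat.sub_zero, add_zero]
    rw [sub_eq_add_neg, add_comm, ← Finset.sum_neg_distrib]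
    congr 1
    refine Finset.sum_congr rfl fun i _ => ?_
    rw [Nat.add_sub_add_right, pow_succ, show j + (i + 1) = j + 1 + i by ring]
    ring

theorem newton (M : Matrix n n R) (k : ℕ) :
    (k + 1 : R) * ecoef (k + 1) M
      = ∑ i ∈ Finset.range (k + 1), (-1) ^ i * ecoef (k - i) M * trace (M ^ (1 + i)) := by
  rw [← newton_aux M k 1]
  have h := derivative_det (1 + (X : R[X]) • M.map C)
  have h2 : (1 + (X : R[X]) • M.map C).map (derivative : R[X] → R[X]) = (M ^ 1).map C := by
    rw [pow_one]
    ext1 i j
    simp only [Matrix.map_apply, Matrix.add_apply, Matrix.smul_apply, smul_eq_mul,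
      derivative_add, derivative_mul, derivative_X, one_mul, derivative_C, mul_zero, add_zero]
    rw [Matrix.one_apply]
    split_ifs <;> simp
  rw [h2] at h
  rw [← h, coeff_derivative]
  simp only [ecoef, dpoly]
  ring

/-- The products of traces of powers. -/
def traceProds (M : Matrix n n R) : Set R :=
  {x | ∃ l : List ℕ, x = (l.map (fun p => trace (M ^ p))).prod}

theorem ecoef_mem_span [Algebra ℂ R] (M : Matrix n n R) (k : ℕ) :
    ecoef k M ∈ Submodule.span ℂ (traceProds M) := by
  induction k using Nat.strong_induction_on with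
  | _ k ih =>
    rcases k with _ | k
    · apply Submodule.subset_span
      refine ⟨[], ?_⟩
      simp only [List.map_nil, List.prod_nil, ecoef, dpoly]
      rw [coeff_zero_eq_eval_zero, eval_det_add_X_smul]
      simp
    · have hmul : ∀ (p : ℕ) (x : R), x ∈ Submodule.span ℂ (traceProds M) →
          x * trace (M ^ p) ∈ Submodule.span ℂ (traceProds M) := by
        intro p x hx
        induction hx using Submodule.span_induction with
        | mem x hx =>
          obtain ⟨l, rfl⟩ := hx
          apply Submodule.subset_span
          exact ⟨p :: l, by simp [mul_comm]⟩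
        | zero => rw [zero_mul]; exact Submodule.zero_mem _
        | add x y _ _ hx hy => rw [add_mul]; exact Submodule.add_mem _ hx hy
        | smul c x _ hx => rw [smul_mul_assoc]; exact Submodule.smul_mem _ _ hx
      have hE : ecoef (k + 1) M
          = ∑ i ∈ Finset.range (k + 1), ((k + 1 : ℂ)⁻¹ * (-1) ^ i) •
              (ecoef (k - i) M * trace (M ^ (1 + i))) := by
        have h := newton M k
        have hk : (k + 1 : ℂ) ≠ 0 := by exact_mod_cast Nat.succ_ne_zero k
        have h2 : ((k + 1 : ℂ)⁻¹) • ((k + 1 : R) * ecoef (k + 1) M) = ecoef (k + 1) M := by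
          have h3 : (k + 1 : R) * ecoef (k + 1) M = (k + 1 : ℂ) • ecoef (k + 1) M := by
            rw [Algebra.smul_def, map_add, map_natCast, map_one]
          rw [h3, smul_smul, inv_mul_cancel₀ hk, one_smul]
        rw [← h2, h, Finset.smul_sum]
        refine Finset.sum_congr rfl fun i _ => ?_
        rw [mul_smul, mul_assoc]
        congr 1
        rw [Algebra.smul_def ((-1 : ℂ) ^ i), map_pow, map_neg, map_one]
      rw [hE]
      refine Submodule.sum_mem _ fun i hi => Submodule.smul_mem _ _ ?_
      exact hmul _ _ (ih (k - i) (by omega))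

theorem det_one_add_mem_span [Algebra ℂ R] (M : Matrix n n R) :
    det (1 + M) ∈ Submodule.span ℂ (traceProds M) := by
  have h1 : det (1 + M) = (dpoly M).eval 1 := by
    have h := (evalRingHom (1 : R)).map_det (1 + (X : R[X]) • M.map C)
    rw [coe_evalRingHom] at h
    rw [dpoly, h]
    congr 1
    ext i j
    simp [Matrix.add_apply, Matrix.one_apply, apply_ite (eval (1 : R))]
  rw [h1, eval_eq_sum_range]
  refine Submodule.sum_mem _ fun i _ => ?_
  rw [one_pow, mul_one]
  exact ecoef_mem_span M i

end Pool.MP_35c45d_lc.PermEq2
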