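import Mathlib

namespace Pool.MP_35c45d_lc.PermEq
open Matrix

variable {n : Type*} [Fintype n] [DecidableEq n]

/-- product of traces of consecutive blocks (sizes given by a list) of a list of matrices -/
noncomputable def tw : List ℕ → List (Matrix n n ℂ) → ℂ
  | [], _ => 1
  | p :: L, l => trace (l.take p).prod * tw L (l.drop p)

/-- sum of `g` over all words of length `k` with letters in `S` -/
def wsum {E A : Type*} [AddCommMonoid A] (S : Finset E) : ℕ → (List E → A) → A
  | 0, g => g []
  | k + 1, g => ∑ e ∈ S, wsum S k (fun l => g (e :: l))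

section wsum
variable {E A B : Type*} [AddCommMonoid A] [AddCommMonoid B]

theorem wsum_map (f : A →+ B) (S : Finset E) (k : ℕ) (g : List E → A) :
    f (wsum S k g) = wsum S k (fun l => f (g l)) := by
  induction k generalizing g with
  | zero => rfl
  | succ k ih =>
    simp only [wsum, map_sum]
    exact Finset.sum_congr rfl fun e _ => ih _

theorem wsum_congr (S : Finset E) (k : ℕ) (g g' : List E → A)
    (h : ∀ l, l.length = k → g l = g' l) : wsum S k g = wsum S k g' := by
  induction k generalizing g g' with
  | zero => exact h [] rfl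
  | succ k ih =>
    simp only [wsum]
    refine Finset.sum_congr rfl fun e _ => ih _ _ fun l hl => h _ (by simp [hl])

theorem wsum_append (S : Finset E) (a b : ℕ) (g : List E → A) :
    wsum S (a + b) g = wsum S a (fun l => wsum S b (fun l' => g (l ++ l'))) := by
  induction a generalizing g with
  | zero => simp [wsum]
  | succ a ih =>
    rw [show a + 1 + b = (a + b) + 1 by ring]
    simp only [wsum]
    exact Finset.sum_congr rfl fun e _ => ih _

theorem wsum_zero (S : Finset E) (k : ℕ) : wsum S k (fun _ => (0 : A)) = 0 := by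
  induction k with
  | zero => rfl
  | succ k ih => simp [wsum, ih]

theorem wsum_finset_sum {I : Type*} (J : Finset I) (S : Finset E) (k : ℕ) (g : I → List E → A) :
    wsum S k (fun l => ∑ j ∈ J, g j l) = ∑ j ∈ J, wsum S k (g j) := by
  induction k generalizing g with
  | zero => rfl
  | succ k ih =>
    simp only [wsum]
    rw [Finset.sum_comm]
    exact Finset.sum_congr rfl fun e _ => ih _

theorem wsum_add (S : Finset E) (k : ℕ) (g g' : List E → A) :
    wsum S k (fun l => g l + g' l) = wsum S k g + wsum S k g' := by
  induction k generalizing g g' with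
  | zero => rfl
  | succ k ih =>
    simp only [wsum]
    rw [← Finset.sum_add_distrib]
    exact Finset.sum_congr rfl fun e _ => ih _ _

theorem wsum_restrict [Fintype E] [DecidableEq E] (S : Finset E) (k : ℕ) (g : List E → A) :
    wsum S k g = wsum Finset.univ k (fun l => if l.toFinset ⊆ S then g l else 0) := by
  induction k generalizing g with
  | zero => simp [wsum]
  | succ k ih =>
    simp only [wsum]
    rw [← Finset.sum_subset (Finset.subset_univ S)]
    · refine Finset.sum_congr rfl fun e he => ?_
      rw [ih]
      refine wsum_congr _ _ _ _ fun l _ => ?_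
      simp [Finset.insert_subset_iff, he]
    · intro e _ he
      refine (wsum_congr _ _ _ (fun _ => 0) fun l _ => ?_).trans (wsum_zero _ _)
      simp [Finset.insert_subset_iff, he]

end wsum

/-- Polarisation of a function at the family `Y`, as an alternating sum. -/
noncomputable def pol {E V : Type*} [Fintype E] [DecidableEq E] [AddCommMonoid V]
    (Y : E → V) (q : V → ℂ) : ℂ :=
  ∑ U : Finset E, (-1) ^ U.card * q (∑ e ∈ Uᶜ, Y e)

theorem alt_sum_subset {E : Type*} [Fintype E] [DecidableEq E] (T : Finset E) :
    ∑ U : Finset E, (-1 : ℂ) ^ U.card * (if T ⊆ Uᶜ then 1 else 0)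
      = if T = Finset.univ then 1 else 0 := by
  have h1 : ∑ U : Finset E, (-1 : ℂ) ^ U.card * (if T ⊆ Uᶜ then 1 else 0)
      = ∑ U ∈ Tᶜ.powerset, (-1 : ℂ) ^ U.card := by
    rw [← Finset.sum_subset (Finset.subset_univ Tᶜ.powerset)]
    · refine Finset.sum_congr rfl fun U hU => ?_
      rw [Finset.mem_powerset] at hU
      rw [if_pos, mul_one]
      rw [Finset.subset_compl_comm]; exact hU
    · intro U _ hU
      rw [Finset.mem_powerset] at hU
      rw [if_neg, mul_zero]
      intro h; exact hU (Finset.subset_compl_comm.mp h)
  rw [h1]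
  have h2 := Finset.sum_powerset_neg_one_pow_card (x := Tᶜ)
  have h3 : ((∑ U ∈ Tᶜ.powerset, (-1 : ℤ) ^ U.card : ℤ) : ℂ)
      = ∑ U ∈ Tᶜ.powerset, (-1 : ℂ) ^ U.card := by push_cast; rfl
  rw [← h3, h2]
  by_cases h : T = Finset.univ
  · simp [h]
  · rw [if_neg h, if_neg]
    · simp
    · intro h'; exact h (by rwa [Finset.compl_eq_empty_iff] at h')

/-- If `q` expands in words of length `k` and the coefficients vanish on the words that contain
all the letters, then the polarisation vanishes. -/
theorem pol_eq_zero_of_words {E V : Type*} [Fintype E] [DecidableEq E] [AddCommMonoid V]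
    (Y : E → V) (q : V → ℂ) (k : ℕ) (g : List E → ℂ)
    (hq : ∀ S : Finset E, q (∑ e ∈ S, Y e) = wsum S k g)
    (hg : ∀ l : List E, l.length = k → l.toFinset = Finset.univ → g l = 0) :
    pol Y q = 0 := by
  unfold pol
  have h1 : ∀ U : Finset E, (-1 : ℂ) ^ U.card * q (∑ e ∈ Uᶜ, Y e)
      = wsum Finset.univ k
        (fun l => (-1 : ℂ) ^ U.card * (if l.toFinset ⊆ Uᶜ then g l else 0)) := by
    intro U
    rw [hq, wsum_restrict]
    exact wsum_map (AddMonoidHom.mulLeft ((-1 : ℂ) ^ U.card)) _ _ _
  simp only [h1]
  rw [← wsum_finset_sum]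
  refine (wsum_congr _ _ _ (fun _ => 0) fun l hl => ?_).trans (wsum_zero _ _)
  have h2 : ∑ U : Finset E, (-1 : ℂ) ^ U.card * (if l.toFinset ⊆ Uᶜ then g l else 0)
      = (∑ U : Finset E, (-1 : ℂ) ^ U.card * (if l.toFinset ⊆ Uᶜ then 1 else 0)) * g l := by
    rw [Finset.sum_mul]
    refine Finset.sum_congr rfl fun U _ => ?_
    split_ifs <;> simp
  rw [h2, alt_sum_subset]
  split_ifs with h
  · rw [hg l hl h, mul_zero]
  · rw [zero_mul]

/-- expansion of a power of a sum of matrices -/
theorem pow_sum_eq_wsum {E : Type*} (N : E → Matrix n n ℂ) (S : Finset E) (p : ℕ) :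
    (∑ e ∈ S, N e) ^ p = wsum S p (fun l => (l.map N).prod) := by
  induction p with
  | zero => simp [wsum]
  | succ p ih =>
    rw [pow_succ', ih]
    simp only [wsum]
    rw [Finset.sum_mul]
    refine Finset.sum_congr rfl fun e _ => ?_
    have := wsum_map (AddMonoidHom.mulLeft (N e)) S p (fun l => (l.map N).prod)
    simpa using this

theorem prod_trace_pow_eq_wsum {E : Type*} (N : E → Matrix n n ℂ) (S : Finset E) (L : List ℕ) :
    (L.map (fun p => trace ((∑ e ∈ S, N e) ^ p))).prod
      = wsum S L.sum (fun l => tw L (l.map N)) := by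
  induction L with
  | nil => simp [wsum, tw]
  | cons p L ih =>
    rw [List.map_cons, List.prod_cons, ih, List.sum_cons, wsum_append, pow_sum_eq_wsum]
    have h1 : trace (wsum S p (fun l => (l.map N).prod)) = wsum S p (fun l => trace (l.map N).prod) :=
      wsum_map (traceAddMonoidHom n ℂ) S p _
    rw [h1]
    have h2 := wsum_map (AddMonoidHom.mulRight (wsum S L.sum (fun l => tw L (l.map N)))) S p
      (fun l => trace (l.map N).prod)
    simp only [AddMonoidHom.coe_mulRight] at h2
    rw [h2]
    refine wsum_congr _ _ _ _ fun l hl => ?_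
    have h3 := wsum_map (AddMonoidHom.mulLeft (trace (l.map N).prod)) S L.sum
      (fun l' => tw L (l'.map N))
    simp only [AddMonoidHom.coe_mulLeft] at h3
    rw [h3]
    refine wsum_congr _ _ _ _ fun l' _ => ?_
    rw [tw, List.map_append, List.take_left' (by simp [hl]), List.drop_left' (by simp [hl])]

/-- rank bound: cutting a product of traces of words at one place -/
theorem tw_append_eq_sum [Nonempty n] (L : List ℕ) (k : ℕ) :
    ∃ U V : n × n → List (Matrix n n ℂ) → ℂ, ∀ l₁ l₂ : List (Matrix n n ℂ), l₁.length = k →
      tw L (l₁ ++ l₂) = ∑ x : n × n, U x l₁ * V x l₂ := by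
  induction L generalizing k with
  | nil =>
    obtain ⟨i⟩ := ‹Nonempty n›
    refine ⟨fun x _ => if x = (i, i) then 1 else 0, fun _ _ => 1, fun l₁ l₂ _ => ?_⟩
    simp [tw]
  | cons p L ih =>
    by_cases hp : p ≤ k
    · obtain ⟨U, V, hUV⟩ := ih (k - p)
      refine ⟨fun x l => trace (l.take p).prod * U x (l.drop p), V, fun l₁ l₂ hl => ?_⟩
      rw [tw, List.take_append_of_le_length (by omega), List.drop_append_of_le_length (by omega),
        hUV _ _ (by simp [hl]), Finset.mul_sum]
      exact Finset.sum_congr rfl fun x _ => by ring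
    · refine ⟨fun x l => l.prod x.1 x.2,
        fun x l => (l.take (p - k)).prod x.2 x.1 * tw L (l.drop (p - k)), fun l₁ l₂ hl => ?_⟩
      rw [tw, List.take_append, List.drop_append, List.take_of_length_le (by omega),
        List.drop_of_length_le (by omega), hl, List.nil_append, List.prod_append, trace,
        Finset.sum_mul, Fintype.sum_prod_type]
      refine Finset.sum_congr rfl fun i _ => ?_
      rw [diag_apply, mul_apply, Finset.sum_mul]
      exact Finset.sum_congr rfl fun j _ => by ring

theorem list_prod_conj (P P' : Matrix n n ℂ) (h : P' * P = 1) (h' : P * P' = 1)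
    (l : List (Matrix n n ℂ)) :
    (l.map (fun M => P * M * P')).prod = P * l.prod * P' := by
  induction l with
  | nil => simp [h']
  | cons M l ih =>
    rw [List.map_cons, List.prod_cons, ih, List.prod_cons]
    calc P * M * P' * (P * l.prod * P') = P * M * (P' * P) * l.prod * P' := by
          simp only [mul_assoc]
      _ = P * (M * l.prod) * P' := by rw [h, mul_one]; simp only [mul_assoc]

theorem tw_conj (P P' : Matrix n n ℂ) (h : P' * P = 1) (h' : P * P' = 1) (L : List ℕ)
    (l : List (Matrix n n ℂ)) :
    tw L (l.map (fun M => P * M * P')) = tw L l := by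
  induction L generalizing l with
  | nil => rfl
  | cons p L ih =>
    rw [tw, tw, ← List.map_take, ← List.map_drop, ih, list_prod_conj P P' h h',
      trace_mul_comm, ← mul_assoc, h, one_mul]

theorem list_prod_smul {E : Type*} (c : E → ℂ) (N : E → Matrix n n ℂ) (l : List E) :
    (l.map (fun e => c e • N e)).prod = (l.map c).prod • (l.map N).prod := by
  induction l with
  | nil => simp
  | cons e l ih =>
    rw [List.map_cons, List.prod_cons, ih, List.map_cons, List.prod_cons, List.map_cons,
      List.prod_cons, smul_mul_smul_comm]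

theorem tw_smul {E : Type*} (c : E → ℂ) (N : E → Matrix n n ℂ) (L : List ℕ) (l : List E)
    (hl : l.length = L.sum) :
    tw L (l.map (fun e => c e • N e)) = (l.map c).prod * tw L (l.map N) := by
  induction L generalizing l with
  | nil =>
    have : l = [] := by simpa using hl
    subst this; simp [tw]
  | cons p L ih =>
    rw [List.sum_cons] at hl
    rw [tw, tw, ← List.map_take, ← List.map_drop, ih _ (by simp [hl]), list_prod_smul, trace_smul,
      smul_eq_mul, ← List.map_take, ← List.map_drop]
    have : (l.map c).prod = ((l.take p).map c).prod * ((l.drop p).map c).prod := by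
      rw [← List.prod_append, ← List.map_append, List.take_append_drop]
    rw [this]; ring

end Pool.MP_35c45d_lc.PermEq
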