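import Mathlib
import Pool.Agent.Work.MP_35c45d_lc.PEWords

set_option linter.unusedSectionVars false
set_option linter.unusedFintypeInType false

namespace Pool.MP_35c45d_lc.PermEq2
open Matrix MvPolynomial Pool.MP_35c45d_lc.PermEq

variable {n : Type*} [Fintype n] [DecidableEq n]
variable {E : Type*} [Fintype E] [DecidableEq E]

/-- indicator exponent of a finite set -/
noncomputable def ind (S : Finset E) : E →₀ ℕ := Finsupp.indicator S (fun _ _ => 1)

theorem ind_apply (S : Finset E) (e : E) : ind S e = if e ∈ S then 1 else 0 := by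
  unfold ind
  rw [Finsupp.indicator_apply]
  split_ifs <;> rfl

/-- squarefree coefficient -/
noncomputable def cf (S : Finset E) : MvPolynomial E ℂ →ₗ[ℂ] ℂ := lcoeff ℂ (ind S)

theorem cf_apply (S : Finset E) (f : MvPolynomial E ℂ) : cf S f = coeff (ind S) f := rfl

theorem cf_mul (S : Finset E) (f g : MvPolynomial E ℂ) :
    cf S (f * g) = ∑ T ∈ S.powerset, cf T f * cf (S \ T) g := by
  rw [cf_apply, coeff_mul]
  symm
  refine Finset.sum_nbij' (fun T => (ind T, ind (S \ T))) (fun x => x.1.support) ?_ ?_ ?_ ?_ ?_
  · intro T hT
    rw [Finset.mem_powerset] at hT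
    rw [Finset.HasAntidiagonal.mem_antidiagonal]
    ext e
    simp only [Finsupp.add_apply, ind_apply, Finset.mem_sdiff]
    by_cases h1 : e ∈ T
    · have := hT h1; simp [h1, this]
    · simp [h1]
  · intro x hx
    rw [Finset.HasAntidiagonal.mem_antidiagonal] at hx
    rw [Finset.mem_powerset]
    intro e he
    have h1 := DFunLike.congr_fun hx e
    rw [Finsupp.add_apply, ind_apply] at h1
    by_contra h2
    rw [if_neg h2] at h1
    rw [Finsupp.mem_support_iff] at he
    omega
  · intro T hT
    ext e
    rw [Finsupp.mem_support_iff, ind_apply]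
    simp
  · intro x hx
    rw [Finset.HasAntidiagonal.mem_antidiagonal] at hx
    have key : ∀ e, x.1 e = (if e ∈ x.1.support then 1 else 0) ∧
        x.2 e = (if e ∈ S \ x.1.support then 1 else 0) := by
      intro e
      have h1 := DFunLike.congr_fun hx e
      rw [Finsupp.add_apply, ind_apply] at h1
      simp only [Finsupp.mem_support_iff, Finset.mem_sdiff]
      by_cases h2 : e ∈ S
      · rw [if_pos h2] at h1
        by_cases h3 : x.1 e = 0
        · simp [h3, h2]; omega
        · simp [h3]; omega
      · rw [if_neg h2] at h1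
        have h3 : x.1 e = 0 := by omega
        have h4 : x.2 e = 0 := by omega
        simp [h2, h3, h4]
    ext e
    · rw [ind_apply]; exact (key e).1.symm
    · rw [ind_apply]; exact (key e).2.symm
  · intro T _
    rfl

theorem cf_one (S : Finset E) : cf S (1 : MvPolynomial E ℂ) = if S = ∅ then 1 else 0 := by
  rw [cf_apply, coeff_one]
  have : (0 = ind S) ↔ S = ∅ := by
    constructor
    · intro h
      ext e
      have := DFunLike.congr_fun h e
      rw [ind_apply, Finsupp.zero_apply] at this
      by_contra h2
      simp at h2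
      simp [h2] at this
    · intro h
      ext e
      rw [ind_apply, h]
      simp
  simp only [this]

/-- matrix of squarefree coefficients -/
noncomputable def cfM (S : Finset E) (N : Matrix n n (MvPolynomial E ℂ)) : Matrix n n ℂ :=
  N.map (cf S)

theorem cfM_mul (S : Finset E) (N N' : Matrix n n (MvPolynomial E ℂ)) :
    cfM S (N * N') = ∑ T ∈ S.powerset, cfM T N * cfM (S \ T) N' := by
  ext i j
  rw [cfM, map_apply, mul_apply, map_sum]
  simp only [cf_mul]
  rw [Finset.sum_comm, Matrix.sum_apply]
  refine Finset.sum_congr rfl fun T _ => ?_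
  rw [mul_apply]
  rfl

theorem cfM_one (S : Finset E) : cfM S (1 : Matrix n n (MvPolynomial E ℂ)) = if S = ∅ then 1 else 0 := by
  ext i j
  rw [cfM, map_apply, one_apply]
  by_cases h : S = ∅
  · rw [if_pos h, one_apply]
    split_ifs
    · rw [cf_one, if_pos h]
    · simp
  · rw [if_neg h, Matrix.zero_apply]
    split_ifs
    · rw [cf_one, if_neg h]
    · simp

theorem cf_trace (S : Finset E) (N : Matrix n n (MvPolynomial E ℂ)) :
    cf S (trace N) = trace (cfM S N) := by
  rw [trace, map_sum]
  rfl

theorem cfM_transpose (S : Finset E) (N : Matrix n n (MvPolynomial E ℂ)) :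
    cfM S Nᵀ = (cfM S N)ᵀ := rfl

/-- sum over ordered partitions of `S` into `k` (possibly empty) parts -/
def psum {A : Type*} [AddCommMonoid A] : ℕ → Finset E → (List (Finset E) → A) → A
  | 0, S, g => if S = ∅ then g [] else 0
  | k + 1, S, g => ∑ T ∈ S.powerset, psum k (S \ T) (fun l => g (T :: l))

/-- `l` is an ordered partition of `S` -/
def IsPart : Finset E → List (Finset E) → Prop
  | S, [] => S = ∅
  | S, T :: l => T ⊆ S ∧ IsPart (S \ T) l

section psum
variable {A B : Type*} [AddCommMonoid A] [AddCommMonoid B]

omit [Fintype E] in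
theorem psum_map (f : A →+ B) (k : ℕ) (S : Finset E) (g : List (Finset E) → A) :
    f (psum k S g) = psum k S (fun l => f (g l)) := by
  induction k generalizing g S with
  | zero => simp only [psum]; split_ifs <;> simp
  | succ k ih =>
    simp only [psum, map_sum]
    exact Finset.sum_congr rfl fun e _ => ih _ _

omit [Fintype E] in
theorem psum_congr (k : ℕ) (S : Finset E) (g g' : List (Finset E) → A)
    (h : ∀ l, l.length = k → IsPart S l → g l = g' l) : psum k S g = psum k S g' := by
  induction k generalizing g g' S with
  | zero =>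
    simp only [psum]
    split_ifs with hS
    · exact h [] rfl hS
    · rfl
  | succ k ih =>
    simp only [psum]
    refine Finset.sum_congr rfl fun T hT => ih _ _ _ fun l hl hp => h _ (by simp [hl]) ?_
    exact ⟨Finset.mem_powerset.mp hT, hp⟩

omit [Fintype E] in
theorem psum_zero (k : ℕ) (S : Finset E) : psum k S (fun _ => (0 : A)) = 0 := by
  induction k generalizing S with
  | zero => simp [psum]
  | succ k ih => simp [psum, ih]

omit [Fintype E] in
theorem psum_add (k : ℕ) (S : Finset E) (g g' : List (Finset E) → A) :
    psum k S (fun l => g l + g' l) = psum k S g + psum k S g' := by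
  induction k generalizing g g' S with
  | zero => simp only [psum]; split_ifs <;> simp
  | succ k ih =>
    simp only [psum]
    rw [← Finset.sum_add_distrib]
    exact Finset.sum_congr rfl fun e _ => ih _ _ _

end psum

/-- sum over splits of a set -/
theorem psum_append {A : Type*} [AddCommMonoid A] (a b : ℕ) (S : Finset E)
    (g : List (Finset E) → A) :
    psum (a + b) S g = ∑ T ∈ S.powerset, psum a T (fun l => psum b (S \ T) (fun l' => g (l ++ l'))) := by
  induction a generalizing S g with
  | zero =>
    rw [Finset.sum_eq_single ∅]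
    · simp [psum]
    · intro T _ hT
      simp [psum, hT]
    · intro h
      exact absurd (Finset.empty_mem_powerset S) h
  | succ a ih =>
    rw [show a + 1 + b = (a + b) + 1 by ring]
    simp only [psum]
    simp only [ih]
    rw [Finset.sum_sigma', Finset.sum_sigma']
    refine Finset.sum_nbij' (fun x => ⟨x.1 ∪ x.2, x.1⟩) (fun y => ⟨y.2, y.1 \ y.2⟩) ?_ ?_ ?_ ?_ ?_
    · rintro ⟨T, T'⟩ h
      simp only [Finset.mem_sigma, Finset.mem_powerset] at h ⊢
      exact ⟨Finset.union_subset h.1 (h.2.trans Finset.sdiff_subset), Finset.subset_union_left⟩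
    · rintro ⟨U, T⟩ h
      simp only [Finset.mem_sigma, Finset.mem_powerset] at h ⊢
      exact ⟨h.2.trans h.1, Finset.sdiff_subset_sdiff h.1 le_rfl⟩
    · rintro ⟨T, T'⟩ h
      simp only [Finset.mem_sigma, Finset.mem_powerset] at h ⊢
      have : (T ∪ T') \ T = T' := by
        ext e
        simp only [Finset.mem_sdiff, Finset.mem_union]
        constructor
        · rintro ⟨h1 | h1, h2⟩
          · exact absurd h1 h2
          · exact h1
        · intro h1
          exact ⟨Or.inr h1, (Finset.mem_sdiff.mp (h.2 h1)).2⟩
      simp [this]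
    · rintro ⟨U, T⟩ h
      simp only [Finset.mem_sigma, Finset.mem_powerset] at h ⊢
      simp [Finset.union_sdiff_of_subset h.2]
    · rintro ⟨T, T'⟩ h
      simp only [Finset.mem_sigma, Finset.mem_powerset] at h ⊢
      have e1 : (T ∪ T') \ T = T' := by
        ext e
        simp only [Finset.mem_sdiff, Finset.mem_union]
        constructor
        · rintro ⟨h1 | h1, h2⟩
          · exact absurd h1 h2
          · exact h1
        · intro h1
          exact ⟨Or.inr h1, (Finset.mem_sdiff.mp (h.2 h1)).2⟩
      have e2 : (S \ T) \ T' = S \ (T ∪ T') := by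
        ext e; simp [not_or, and_assoc]
      rw [e1, e2]
      rfl

theorem cfM_pow (S : Finset E) (N : Matrix n n (MvPolynomial E ℂ)) (p : ℕ) :
    cfM S (N ^ p) = psum p S (fun l => (l.map (fun T => cfM T N)).prod) := by
  induction p generalizing S with
  | zero => rw [pow_zero, cfM_one]; simp [psum]
  | succ p ih =>
    rw [pow_succ', cfM_mul]
    simp only [psum]
    refine Finset.sum_congr rfl fun T _ => ?_
    rw [ih]
    have := psum_map (AddMonoidHom.mulLeft (cfM T N)) p (S \ T)
      (fun l => (l.map (fun T => cfM T N)).prod)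
    simpa using this

theorem cf_prod_trace_pow (S : Finset E) (N : Matrix n n (MvPolynomial E ℂ)) (L : List ℕ) :
    cf S (L.map (fun p => trace (N ^ p))).prod
      = psum L.sum S (fun l => tw L (l.map (fun T => cfM T N))) := by
  induction L generalizing S with
  | nil => simp [psum, tw, cf_one]
  | cons p L ih =>
    rw [List.map_cons, List.prod_cons, List.sum_cons, psum_append, cf_mul]
    refine Finset.sum_congr rfl fun T _ => ?_
    rw [ih, cf_trace, cfM_pow]
    have h1 : trace (psum p T (fun l => (l.map (fun T => cfM T N)).prod))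
        = psum p T (fun l => trace (l.map (fun T => cfM T N)).prod) :=
      psum_map (traceAddMonoidHom n ℂ) p T _
    rw [h1]
    have h2 := psum_map (AddMonoidHom.mulRight
      (psum L.sum (S \ T) (fun l => tw L (l.map (fun T => cfM T N))))) p T
      (fun l => trace (l.map (fun T => cfM T N)).prod)
    simp only [AddMonoidHom.coe_mulRight] at h2
    rw [h2]
    refine psum_congr _ _ _ _ fun l hl _ => ?_
    have h3 := psum_map (AddMonoidHom.mulLeft (trace (l.map (fun T => cfM T N)).prod)) L.sum (S \ T)
      (fun l' => tw L (l'.map (fun T => cfM T N)))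
    simp only [AddMonoidHom.coe_mulLeft] at h3
    rw [h3]
    refine psum_congr _ _ _ _ fun l' _ _ => ?_
    rw [tw, List.map_append, List.take_left' (by simp [hl]), List.drop_left' (by simp [hl])]

/-- union of a list of sets -/
def uni (l : List (Finset E)) : Finset E := l.foldr (· ∪ ·) ∅

omit [Fintype E] in
theorem mem_uni (l : List (Finset E)) (e : E) : e ∈ uni l ↔ ∃ T ∈ l, e ∈ T := by
  induction l with
  | nil => simp [uni]
  | cons T l ih =>
    have : uni (T :: l) = T ∪ uni l := rfl
    rw [this, Finset.mem_union, ih]
    simp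

omit [Fintype E] in
theorem IsPart.subset {S : Finset E} {l : List (Finset E)} (h : IsPart S l) :
    ∀ T ∈ l, T ⊆ S := by
  induction l generalizing S with
  | nil => simp
  | cons T l ih =>
    intro T' hT'
    rcases List.mem_cons.mp hT' with rfl | h'
    · exact h.1
    · exact (ih h.2 T' h').trans Finset.sdiff_subset

omit [Fintype E] in
theorem IsPart.prod {S : Finset E} {l : List (Finset E)} (h : IsPart S l) (c : E → ℂ) :
    (l.map (fun T => ∏ e ∈ T, c e)).prod = ∏ e ∈ S, c e := by
  induction l generalizing S with
  | nil => rw [IsPart] at h; simp [h]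
  | cons T l ih =>
    rw [List.map_cons, List.prod_cons, ih h.2, mul_comm, Finset.prod_sdiff h.1]

omit [Fintype E] in
/-- cutting an ordered partition -/
theorem IsPart.exists_cut {S : Finset E} {l : List (Finset E)} (h : IsPart S l) (D k : ℕ)
    (hD : ∀ T ∈ l, T.card ≤ D) (hk : k ≤ S.card) :
    ∃ l₁ l₂, l = l₁ ++ l₂ ∧ k ≤ (uni l₁).card ∧ (uni l₁).card ≤ k + D ∧
      (∀ T ∈ l₂, Disjoint T (uni l₁)) ∧ uni l₁ ⊆ S := by
  induction l generalizing S k with
  | nil =>
    rw [IsPart] at h
    subst h
    have : k = 0 := by simpa using hk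
    subst this
    exact ⟨[], [], rfl, by simp, by simp [uni], by simp, by simp [uni]⟩
  | cons T l ih =>
    by_cases hk0 : k = 0
    · subst hk0
      exact ⟨[], T :: l, rfl, by simp, by simp [uni], by simp [uni], by simp [uni]⟩
    by_cases hT : k ≤ T.card
    · refine ⟨[T], l, rfl, by simpa [uni] using hT, ?_, ?_, ?_⟩
      · have := hD T (by simp)
        simp only [uni, List.foldr_cons, List.foldr_nil, Finset.union_empty]
        omega
      · intro T' hT'
        have := h.2.subset T' hT'
        simp only [uni, List.foldr_cons, List.foldr_nil, Finset.union_empty]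
        rw [Finset.disjoint_left]
        intro e he
        exact (Finset.mem_sdiff.mp (this he)).2
      · simpa [uni] using h.1
    · push Not at hT
      have hcard : (S \ T).card = S.card - T.card := Finset.card_sdiff_of_subset h.1
      obtain ⟨l₁, l₂, e1, e2, e3, e4, e5⟩ := ih h.2 (k - T.card)
        (fun T' hT' => hD T' (by simp [hT'])) (by omega)
      have hdis : Disjoint T (uni l₁) := by
        rw [Finset.disjoint_left]
        intro e he he'
        exact (Finset.mem_sdiff.mp (e5 he')).2 he
      have hc : (uni (T :: l₁)).card = T.card + (uni l₁).card := by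
        have : uni (T :: l₁) = T ∪ uni l₁ := rfl
        rw [this, Finset.card_union_of_disjoint hdis]
      refine ⟨T :: l₁, l₂, by rw [e1]; rfl, by omega, by omega, ?_, ?_⟩
      · intro T' hT'
        have h1 := e4 T' hT'
        have h2 : T' ⊆ S \ T := h.2.subset T' (by rw [e1]; simp [hT'])
        have : uni (T :: l₁) = T ∪ uni l₁ := rfl
        rw [this, Finset.disjoint_union_right]
        refine ⟨?_, h1⟩
        rw [Finset.disjoint_left]
        intro e he
        exact (Finset.mem_sdiff.mp (h2 he)).2
      · have : uni (T :: l₁) = T ∪ uni l₁ := rfl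
        rw [this]
        exact Finset.union_subset h.1 (e5.trans Finset.sdiff_subset)

end Pool.MP_35c45d_lc.PermEq2
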