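import Mathlib
import Pool.Agent.Work.MP_35c45d_lc.PEParts
import Pool.Agent.Work.MP_35c45d_lc.PENewton

set_option autoImplicit false
set_option linter.unusedSectionVars false

namespace Pool.MP_35c45d_lc.OnePerm
open Matrix Finset Pool.MP_35c45d_lc.PermEq Pool.MP_35c45d_lc.PermEq2

section spec

variable {n : Type*} [Fintype n] [DecidableEq n]

/-- ratios of eigenvalues -/
noncomputable def ratios (P : Matrix n n ℂ) : Finset ℂ :=
  (P.charpoly.roots.toFinset ×ˢ P.charpoly.roots.toFinset).image fun x => x.1 / x.2

theorem card_ratios_le (P : Matrix n n ℂ) : #(ratios P) ≤ Fintype.card n ^ 2 := by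
  refine card_image_le.trans ?_
  rw [card_product, sq]
  have h : #(P.charpoly.roots.toFinset) ≤ Fintype.card n := by
    refine (Multiset.toFinset_card_le _).trans ?_
    refine (Polynomial.card_roots' _).trans ?_
    rw [Matrix.charpoly_natDegree_eq_dim]
  exact Nat.mul_le_mul h h

theorem intertwine_aeval (P X : Matrix n n ℂ) (c : ℂ) (h : X * P = c • (P * X))
    (p : Polynomial ℂ) : X * Polynomial.aeval P p = Polynomial.aeval (c • P) p * X := by
  induction p using Polynomial.induction_on' with
  | add p q hp hq => rw [map_add, map_add, mul_add, add_mul, hp, hq]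
  | monomial k a =>
    rw [Polynomial.aeval_monomial, Polynomial.aeval_monomial]
    have h1 : X * P ^ k = (c • P) ^ k * X := by
      induction k with
      | zero => simp
      | succ k ih =>
        rw [pow_succ, ← mul_assoc, ih, mul_assoc, h, pow_succ, mul_assoc, smul_mul_assoc]
    rw [← mul_assoc, (Algebra.commutes a X).symm, mul_assoc, h1, mul_assoc]

theorem mem_ratios (P X : Matrix n n ℂ) (hP : P.det ≠ 0) (hX : X ≠ 0) (c : ℂ)
    (h : X * P = c • (P * X)) : c ∈ ratios P := by
  have hne : Nonempty n := by
    by_contra hc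
    rw [not_nonempty_iff] at hc
    exact hX (Subsingleton.elim _ _)
  have hu : IsUnit P := by
    rw [isUnit_iff_isUnit_det]
    exact IsUnit.mk0 _ hP
  have hc : c ≠ 0 := by
    rintro rfl
    rw [zero_smul] at h
    exact hX (by simpa using (hu.mul_left_eq_zero).mp h)
  have h1 := intertwine_aeval P X c h P.charpoly
  rw [aeval_self_charpoly, mul_zero] at h1
  have h2 : ¬ IsUnit (Polynomial.aeval (c • P) P.charpoly) := by
    intro hunit
    exact hX ((hunit.mul_right_eq_zero).mp h1.symm)
  have h3 : (0 : ℂ) ∈ spectrum ℂ (Polynomial.aeval (c • P) P.charpoly) := by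
    rw [spectrum.zero_mem_iff]
    exact h2
  rw [spectrum.map_polynomial_aeval_of_degree_pos] at h3
  · obtain ⟨k, hk1, hk2⟩ := h3
    have hk2' : P.charpoly.eval k = 0 := hk2
    have hk0 : k ≠ 0 := by
      rintro rfl
      apply hP
      rw [Matrix.det_eq_sign_charpoly_coeff, ← Polynomial.coeff_zero_eq_eval_zero] at *
      rw [hk2', mul_zero]
    have hk3 : P.charpoly.eval (k / c) = 0 := by
      rw [spectrum.mem_iff, isUnit_iff_isUnit_det, isUnit_iff_ne_zero, not_not] at hk1
      have h4 : (algebraMap ℂ (Matrix n n ℂ)) k - c • P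
          = c • ((algebraMap ℂ (Matrix n n ℂ)) (k / c) - P) := by
        rw [smul_sub, Algebra.algebraMap_eq_smul_one, Algebra.algebraMap_eq_smul_one, smul_smul,
          mul_div_cancel₀ _ hc]
      rw [h4, det_smul, mul_eq_zero] at hk1
      have h5 := hk1.resolve_left (pow_ne_zero _ hc)
      rw [Matrix.eval_charpoly]
      exact h5
    have hq : P.charpoly ≠ 0 := (Matrix.charpoly_monic P).ne_zero
    rw [ratios, mem_image]
    refine ⟨(k, k / c), ?_, ?_⟩
    · rw [mem_product, Multiset.mem_toFinset, Multiset.mem_toFinset, Polynomial.mem_roots hq,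
        Polynomial.mem_roots hq]
      exact ⟨hk2', hk3⟩
    · field_simp
  · rw [← Polynomial.natDegree_pos_iff_degree_pos, Matrix.charpoly_natDegree_eq_dim]
    exact Fintype.card_pos

theorem one_mem_ratios [Nonempty n] (P : Matrix n n ℂ) (hP : P.det ≠ 0) : (1 : ℂ) ∈ ratios P :=
  mem_ratios P 1 hP one_ne_zero 1 (by simp)

variable {β : Type*} (P : Matrix n n ℂ) (M : β → Matrix n n ℂ) (c : β → ℂ)

theorem prod_intertwine (l : List β) (h : ∀ b ∈ l, M b * P = c b • (P * M b)) :
    (l.map M).prod * P = (l.map c).prod • (P * (l.map M).prod) := by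
  induction l with
  | nil => simp
  | cons b l ih =>
    rw [List.map_cons, List.prod_cons, List.map_cons, List.prod_cons, mul_assoc,
      ih (fun b' hb' => h b' (List.mem_cons_of_mem _ hb')), mul_smul_comm, ← mul_assoc,
      h b List.mem_cons_self, smul_mul_assoc, smul_smul, mul_comm (c b), mul_assoc]

theorem trace_zero_or (hP : P.det ≠ 0) (W : Matrix n n ℂ) (d : ℂ) (h : W * P = d • (P * W))
    (hW : trace W ≠ 0) : d = 1 := by
  have hu : IsUnit P.det := IsUnit.mk0 _ hP
  have h1 : W = d • (P * W * P⁻¹) := by
    have := congrArg (fun Y => Y * P⁻¹) h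
    simp only [mul_assoc, Matrix.mul_nonsing_inv _ hu, mul_one, smul_mul_assoc] at this
    rw [mul_assoc]
    exact this
  have h2 : trace W = d * trace W := by
    conv_lhs => rw [h1]
    rw [trace_smul, smul_eq_mul, mul_assoc, trace_mul_comm, mul_assoc,
      Matrix.nonsing_inv_mul _ hu, mul_one]
  have h3 : (d - 1) * trace W = 0 := by rw [sub_mul, one_mul, ← h2, sub_self]
  rcases mul_eq_zero.mp h3 with h | h
  · exact sub_eq_zero.mp h
  · exact absurd h hW

/-- the weight of a prefix of a nonzero product of traces is a ratio of eigenvalues -/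
theorem tw_prefix [Nonempty n] (hP : P.det ≠ 0) (L : List ℕ) (l₁ l₂ : List β)
    (h : ∀ b ∈ l₁ ++ l₂, M b * P = c b • (P * M b)) (hlen : (l₁ ++ l₂).length = L.sum)
    (hne : tw L ((l₁ ++ l₂).map M) ≠ 0) : (l₁.map c).prod ∈ ratios P := by
  induction L generalizing l₁ with
  | nil =>
    have h1 : l₁ = [] := by
      have h2 : l₁ ++ l₂ = [] := by simpa using hlen
      exact (List.append_eq_nil_iff.mp h2).1
    subst h1
    simpa using one_mem_ratios P hP
  | cons p L ih =>
    by_cases hp : p ≤ l₁.length
    · obtain ⟨a, b, hab, ha⟩ : ∃ a b, l₁ = a ++ b ∧ a.length = p :=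
        ⟨l₁.take p, l₁.drop p, (List.take_append_drop p l₁).symm, by simp [hp]⟩
      subst hab
      have e1 : ((a ++ b ++ l₂).map M).take p = a.map M := by
        rw [List.append_assoc, List.map_append, List.take_left' (by simp [ha])]
      have e2 : ((a ++ b ++ l₂).map M).drop p = (b ++ l₂).map M := by
        rw [List.append_assoc, List.map_append, List.drop_left' (by simp [ha])]
      rw [tw, e1, e2] at hne
      have h1 := left_ne_zero_of_mul hne
      have h2 := right_ne_zero_of_mul hne
      have h3 : ∀ x ∈ a, M x * P = c x • (P * M x) := fun x hx => h x (by simp [hx])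
      have h4 := trace_zero_or P hP _ _ (prod_intertwine P M c a h3) h1
      rw [List.map_append, List.prod_append, h4, one_mul]
      refine ih b (fun x hx => h x ?_) ?_ h2
      · rw [List.append_assoc]
        exact List.mem_append_right _ hx
      · rw [List.append_assoc, List.length_append, List.sum_cons, ha] at hlen
        omega
    · push Not at hp
      have e1 : ((l₁ ++ l₂).map M).take p = l₁.map M ++ (l₂.map M).take (p - l₁.length) := by
        rw [List.map_append, List.take_append, List.take_of_length_le (by simp; omega)]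
        simp
      rw [tw, e1, List.prod_append] at hne
      have h1 := left_ne_zero_of_mul hne
      have h2 : (l₁.map M).prod ≠ 0 := by
        intro h0
        rw [h0, zero_mul, trace_zero] at h1
        exact h1 rfl
      exact mem_ratios P _ hP h2 _ (prod_intertwine P M c l₁ fun x hx => h x (by simp [hx]))

theorem tw_zero_of_mem (L : List ℕ) (l : List (Matrix n n ℂ)) (hl : l.length = L.sum)
    (h0 : (0 : Matrix n n ℂ) ∈ l) : tw L l = 0 := by
  induction L generalizing l with
  | nil =>
    have : l = [] := by simpa using hl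
    subst this
    simp at h0
  | cons p L ih =>
    rw [List.sum_cons] at hl
    rw [tw]
    rw [← List.take_append_drop p l, List.mem_append] at h0
    rcases h0 with h0 | h0
    · have : (l.take p).prod = 0 := by
        rw [List.prod_eq_zero h0]
      rw [this, trace_zero, zero_mul]
    · rw [ih _ (by simp [hl]) h0, mul_zero]

end spec

section cut

variable {n : Type*} [Fintype n] [DecidableEq n] {E : Type*} [Fintype E] [DecidableEq E]

theorem prod_prefix {S : Finset E} {l₁ l₂ : List (Finset E)} (h : IsPart S (l₁ ++ l₂))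
    (w : E → ℂ) : (l₁.map (fun T => ∏ e ∈ T, w e)).prod = ∏ e ∈ uni l₁, w e := by
  induction l₁ generalizing S with
  | nil => simp [uni]
  | cons T l ih =>
    have h2 : IsPart (S \ T) (l ++ l₂) := h.2
    have h3 : uni (T :: l) = T ∪ uni l := rfl
    have h4 : Disjoint T (uni l) := by
      rw [Finset.disjoint_left]
      intro e he he'
      obtain ⟨T', hT', heT'⟩ := (mem_uni l e).mp he'
      have := h2.subset T' (by simp [hT']) heT'
      exact (Finset.mem_sdiff.mp this).2 he
    rw [List.map_cons, List.prod_cons, ih h2, h3, Finset.prod_union h4]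

/-- if the multilinear coefficient of `det (1 + N)` does not vanish, some set of about `k` letters
has a weight which is a ratio of eigenvalues -/
theorem exists_cut_ratio [Nonempty n] (N : Matrix n n (MvPolynomial E ℂ)) (P : Matrix n n ℂ)
    (hP : P.det ≠ 0) (w : E → ℂ)
    (hw : ∀ T : Finset E, cfM T N * P = (∏ e ∈ T, w e) • (P * cfM T N)) (D k : ℕ)
    (hD : ∀ T : Finset E, D < #T → cfM T N = 0) (hk : k ≤ Fintype.card E)
    (hne : cf univ (1 + N).det ≠ 0) :
    ∃ A : Finset E, k ≤ #A ∧ #A ≤ k + D ∧ ∏ e ∈ A, w e ∈ ratios P := by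
  by_contra hcon
  push Not at hcon
  apply hne
  have h1 : ∀ x ∈ Submodule.span ℂ (traceProds N), cf univ x = 0 := by
    intro x hx
    induction hx using Submodule.span_induction with
    | mem x hx =>
      obtain ⟨L, rfl⟩ := hx
      rw [cf_prod_trace_pow, ← psum_zero (A := ℂ) L.sum (Finset.univ : Finset E)]
      refine psum_congr _ _ _ _ fun l hl hp => ?_
      by_contra htw
      have hcard : ∀ T ∈ l, #T ≤ D := by
        intro T hT
        by_contra hT2
        push Not at hT2
        apply htw
        apply tw_zero_of_mem _ _ (by simp [hl])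
        rw [List.mem_map]
        exact ⟨T, hT, hD T hT2⟩
      obtain ⟨l₁, l₂, e1, e2, e3, -, -⟩ := hp.exists_cut D k hcard (by rwa [Finset.card_univ])
      subst e1
      apply hcon (uni l₁) e2 e3
      rw [← prod_prefix hp w]
      exact tw_prefix P (fun T => cfM T N) (fun T => ∏ e ∈ T, w e) hP L l₁ l₂
        (fun T _ => hw T) hl htw
    | zero => rw [map_zero]
    | add x y _ _ hx hy => rw [map_add, hx, hy, add_zero]
    | smul c x _ hx => rw [map_smul, hx, smul_zero]
  exact h1 _ (det_one_add_mem_span _)

end cut

end Pool.MP_35c45d_lc.OnePerm
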