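import Mathlib
import Pool.Agent.Work.MP_35c45d_lc.OPSpec

set_option autoImplicit false
set_option linter.unusedSectionVars false

namespace Pool.MP_35c45d_lc.OnePerm
open Matrix MvPolynomial Pool.MP_35c45d_lc.PermEq Pool.MP_35c45d_lc.PermEq2

section eval

variable {τ : Type*} {E : Type*} [Fintype E] [DecidableEq E]

/-- evaluation at `B` plus a formal combination of the test vectors `Z e` -/
noncomputable def ev (B : τ → ℂ) (Z : E → τ → ℂ) : MvPolynomial τ ℂ →ₐ[ℂ] MvPolynomial E ℂ :=
  aeval fun q => C (B q) + ∑ e, X e * C (Z e q)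

theorem ev_X (B : τ → ℂ) (Z : E → τ → ℂ) (q : τ) :
    ev B Z (X q) = C (B q) + ∑ e, X e * C (Z e q) := by
  rw [ev, aeval_X]

theorem ind_empty' : ind (∅ : Finset E) = 0 := by
  ext e; simp [ind_apply]

theorem cf_empty_ev (B : τ → ℂ) (Z : E → τ → ℂ) (f : MvPolynomial τ ℂ) :
    cf ∅ (ev B Z f) = eval B f := by
  have h1 : cf ∅ (ev B Z f) = ((constantCoeff).comp (ev B Z).toRingHom) f := by
    rw [cf_apply, ind_empty']
    rfl
  rw [h1]
  have h2 : (constantCoeff).comp (ev B Z).toRingHom = eval B := by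
    apply MvPolynomial.ringHom_ext
    · intro r
      simp [ev]
    · intro q
      have h3 : (ev B Z).toRingHom (X q) = ev B Z (X q) := rfl
      rw [RingHom.comp_apply, h3]
      simp only [ev_X, map_add, map_sum, map_mul,
        constantCoeff_X, zero_mul, Finset.sum_const_zero, add_zero, constantCoeff_C, eval_X]
  rw [h2]

theorem coeff_scale' (c : E → ℂ) (g : MvPolynomial E ℂ) (T : Finset E) :
    cf T (aeval (fun e => c e • (X e : MvPolynomial E ℂ)) g) = (∏ e ∈ T, c e) * cf T g := by
  induction g using MvPolynomial.induction_on' with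
  | monomial d a =>
    rw [aeval_monomial]
    have h1 : (d.prod fun e k => (c e • (X e : MvPolynomial E ℂ)) ^ k)
        = (d.prod fun e k => c e ^ k) • monomial d 1 := by
      rw [← MvPolynomial.prod_X_pow_eq_monomial]
      simp only [Finsupp.prod, smul_pow]
      rw [Finset.prod_smul]
    rw [h1, mul_smul_comm, show (algebraMap ℂ (MvPolynomial E ℂ)) a = C a from rfl,
      C_mul_monomial, mul_one, map_smul, smul_eq_mul]
    simp only [cf_apply, coeff_monomial]
    split_ifs with h2
    · congr 1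
      subst h2
      rw [Finsupp.prod_fintype _ _ (fun _ => pow_zero _)]
      rw [← Finset.prod_subset (Finset.subset_univ T)]
      · refine Finset.prod_congr rfl fun e he => ?_
        rw [ind_apply, if_pos he, pow_one]
      · intro e _ he
        rw [ind_apply, if_neg he, pow_zero]
    · rw [mul_zero, mul_zero]
  | add p q hp hq => rw [map_add, map_add, map_add, hp, hq, mul_add]

theorem ev_smul (B : τ → ℂ) (Z : E → τ → ℂ) (c : E → ℂ) (f : MvPolynomial τ ℂ) :
    ev B (fun e => c e • Z e) f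
      = aeval (fun e => c e • (X e : MvPolynomial E ℂ)) (ev B Z f) := by
  have h1 : ev B (fun e => c e • Z e)
      = (aeval (fun e => c e • (X e : MvPolynomial E ℂ))).comp (ev B Z) := by
    apply MvPolynomial.algHom_ext
    intro q
    rw [AlgHom.comp_apply, ev_X, ev_X, map_add, map_sum]
    congr 1
    · rw [← algebraMap_eq, AlgHom.commutes]
    · refine Finset.sum_congr rfl fun e _ => ?_
      rw [map_mul, aeval_X, ← algebraMap_eq, AlgHom.commutes, Pi.smul_apply, smul_eq_mul,
        algebraMap_eq, C_mul, smul_eq_C_mul]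
      ring
  rw [h1]; rfl

theorem cf_ev_smul (B : τ → ℂ) (Z : E → τ → ℂ) (c : E → ℂ) (f : MvPolynomial τ ℂ)
    (T : Finset E) :
    cf T (ev B (fun e => c e • Z e) f) = (∏ e ∈ T, c e) * cf T (ev B Z f) := by
  rw [ev_smul, coeff_scale']

theorem ev_rename (B : τ → ℂ) (Z : E → τ → ℂ) (g : τ → τ) (hB : ∀ q, B (g q) = B q)
    (p : MvPolynomial τ ℂ) :
    ev B Z (rename g p) = ev B (fun e q => Z e (g q)) p := by
  have h1 : (ev B Z).comp (rename g) = ev B (fun e q => Z e (g q)) := by
    apply MvPolynomial.algHom_ext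
    intro q
    rw [AlgHom.comp_apply, rename_X, ev_X, ev_X, hB]
  rw [← h1]; rfl

theorem totalDegree_ev_X (B : τ → ℂ) (Z : E → τ → ℂ) (q : τ) :
    (C (B q) + ∑ e, X e * C (Z e q) : MvPolynomial E ℂ).totalDegree ≤ 1 := by
  refine (totalDegree_add _ _).trans (max_le (by simp) ?_)
  refine (totalDegree_finsetSum _ _).trans (Finset.sup_le fun e _ => ?_)
  refine (totalDegree_mul _ _).trans ?_
  simp

theorem totalDegree_ev (B : τ → ℂ) (Z : E → τ → ℂ) (p : MvPolynomial τ ℂ) :
    (ev B Z p).totalDegree ≤ p.totalDegree := by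
  rw [ev, aeval_def, eval₂_eq]
  refine (totalDegree_finsetSum _ _).trans (Finset.sup_le fun d hd => ?_)
  refine (totalDegree_mul _ _).trans ?_
  have h0 : (algebraMap ℂ (MvPolynomial E ℂ) (coeff d p)).totalDegree = 0 := by
    rw [algebraMap_eq, totalDegree_C]
  rw [h0, zero_add]
  refine (totalDegree_finsetProd _ _).trans ?_
  refine le_trans ?_ (le_totalDegree hd)
  refine Finset.sum_le_sum fun q _ => ?_
  refine (totalDegree_pow _ _).trans ?_
  calc d q * _ ≤ d q * 1 := Nat.mul_le_mul_left _ (totalDegree_ev_X B Z q)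
    _ = d q := mul_one _

theorem cf_ev_eq_zero (B : τ → ℂ) (Z : E → τ → ℂ) (p : MvPolynomial τ ℂ) (D : ℕ)
    (hp : p.totalDegree ≤ D) (T : Finset E) (hT : D < T.card) : cf T (ev B Z p) = 0 := by
  rw [cf_apply]
  apply coeff_eq_zero_of_totalDegree_lt
  have h1 : (ind T).support = T := by
    ext e
    rw [Finsupp.mem_support_iff, ind_apply]
    split_ifs with h <;> simp [h]
  rw [h1]
  have h2 : ∑ e ∈ T, ind T e = T.card := by
    rw [Finset.card_eq_sum_ones]
    refine Finset.sum_congr rfl fun e he => ?_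
    rw [ind_apply, if_pos he]
  rw [h2]
  exact lt_of_le_of_lt ((totalDegree_ev B Z p).trans hp) hT

end eval

section main

variable {τ : Type*} {E : Type*} [Fintype E] [DecidableEq E] {n : ℕ}

theorem cfM_C_mul' (T : Finset E) (G : Matrix (Fin n) (Fin n) ℂ)
    (N : Matrix (Fin n) (Fin n) (MvPolynomial E ℂ)) :
    cfM T (G.map C * N) = G * cfM T N := by
  ext i j
  rw [cfM, map_apply, mul_apply, mul_apply, map_sum]
  refine Finset.sum_congr rfl fun k _ => ?_
  rw [map_apply, cf_apply, coeff_C_mul]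
  rfl

theorem cfM_mul_C' (T : Finset E) (G : Matrix (Fin n) (Fin n) ℂ)
    (N : Matrix (Fin n) (Fin n) (MvPolynomial E ℂ)) :
    cfM T (N * G.map C) = cfM T N * G := by
  ext i j
  rw [cfM, map_apply, mul_apply, mul_apply, map_sum]
  refine Finset.sum_congr rfl fun k _ => ?_
  rw [map_apply, cf_apply, mul_comm, coeff_C_mul, mul_comm]
  rfl

theorem cfM_sub' (T : Finset E) (N N' : Matrix (Fin n) (Fin n) (MvPolynomial E ℂ)) :
    cfM T (N - N') = cfM T N - cfM T N' := by
  ext i j
  simp [cfM]

/-- The evaluation of the determinant at a nonsingular invariant base point: if the multilinear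
coefficient is not zero, some set of about `k` letters has a weight in the finite set of ratios
of eigenvalues of `H`. -/
theorem exists_cut_ev (B : τ → ℂ) (Z : E → τ → ℂ) (g : τ → τ) (hB : ∀ q, B (g q) = B q)
    (w : E → ℂ) (hZ : ∀ e q, Z e (g q) = w e * Z e q)
    (A : Matrix (Fin n) (Fin n) (MvPolynomial τ ℂ)) (hK : (A.map (eval B)).det ≠ 0)
    (G H : Matrix (Fin n) (Fin n) ℂ) (hH : H.det ≠ 0)
    (hA : A.map (rename g) = G.map C * A * H.map C) (hn : 1 ≤ n)
    (D k : ℕ) (hdeg : ∀ i j, (A i j).totalDegree ≤ D) (hk : k ≤ Fintype.card E)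
    (hne : cf Finset.univ (ev B Z A.det) ≠ 0) :
    ∃ A' : Finset E, k ≤ A'.card ∧ A'.card ≤ k + D ∧ ∏ e ∈ A', w e ∈ ratios H := by
  have : Nonempty (Fin n) := ⟨⟨0, hn⟩⟩
  set K : Matrix (Fin n) (Fin n) ℂ := A.map (eval B) with hKdef
  have hu : IsUnit K.det := IsUnit.mk0 _ hK
  set N : Matrix (Fin n) (Fin n) (MvPolynomial E ℂ) := K⁻¹.map C * A.map (ev B Z) - 1 with hN
  -- the determinant
  have hdet : ev B Z A.det = C K.det * (1 + N).det := by
    have h1 : ev B Z A.det = (A.map (ev B Z)).det := by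
      rw [← AlgHom.coe_toRingHom, RingHom.map_det]
      rfl
    have h2 : A.map (ev B Z) = K.map C * (1 + N) := by
      rw [hN, add_sub_cancel, ← mul_assoc, ← Matrix.map_mul, Matrix.mul_nonsing_inv _ hu,
        Matrix.map_one C C_0 C_1, one_mul]
    rw [h1, h2, det_mul]
    congr 1
    exact (RingHom.map_det (C : ℂ →+* MvPolynomial E ℂ) K).symm
  have hne' : cf Finset.univ (1 + N).det ≠ 0 := by
    intro h0
    apply hne
    rw [hdet, ← smul_eq_C_mul, map_smul, h0, smul_zero]
  -- coefficient matrices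
  have hW0 : cfM ∅ (A.map (ev B Z)) = K := by
    ext i j
    rw [cfM, map_apply, map_apply, cf_empty_ev, hKdef, map_apply]
  have hWT : ∀ T : Finset E, (∏ e ∈ T, w e) • cfM T (A.map (ev B Z))
      = G * cfM T (A.map (ev B Z)) * H := by
    intro T
    have h1 : cfM T ((A.map (rename g)).map (ev B Z)) = (∏ e ∈ T, w e) • cfM T (A.map (ev B Z)) := by
      ext i j
      rw [cfM, map_apply, map_apply, map_apply, ev_rename B Z g hB]
      have h2 : (fun e q => Z e (g q)) = fun e => w e • Z e := by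
        funext e q
        rw [hZ, Pi.smul_apply, smul_eq_mul]
      rw [h2, cf_ev_smul, Matrix.smul_apply, smul_eq_mul]
      rfl
    have hC : ∀ M : Matrix (Fin n) (Fin n) ℂ,
        (M.map C : Matrix _ _ (MvPolynomial τ ℂ)).map (ev B Z) = M.map C := by
      intro M
      ext i j : 1
      rw [map_apply, map_apply, map_apply]
      exact (ev B Z).commutes _
    rw [← h1, hA, Matrix.map_mul, Matrix.map_mul, hC, hC, mul_assoc, cfM_C_mul', cfM_mul_C',
      mul_assoc]
  have e0 : K = G * K * H := by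
    have := hWT ∅
    rwa [hW0, Finset.prod_empty, one_smul] at this
  have huH : IsUnit H.det := IsUnit.mk0 _ hH
  have eH : H * K⁻¹ * G = K⁻¹ := by
    have h1 : G * K * H * H⁻¹ = K * H⁻¹ := by rw [← e0]
    rw [mul_assoc, Matrix.mul_nonsing_inv _ huH, mul_one] at h1
    have h2 : G = K * H⁻¹ * K⁻¹ := by
      rw [← h1, mul_assoc, Matrix.mul_nonsing_inv _ hu, mul_one]
    rw [h2]
    calc H * K⁻¹ * (K * H⁻¹ * K⁻¹) = H * (K⁻¹ * K) * H⁻¹ * K⁻¹ := by simp only [mul_assoc]
      _ = K⁻¹ := by
        rw [Matrix.nonsing_inv_mul _ hu, mul_one, Matrix.mul_nonsing_inv _ huH, one_mul]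
  have hNc : ∀ T : Finset E, cfM T N = K⁻¹ * cfM T (A.map (ev B Z)) - if T = ∅ then 1 else 0 := by
    intro T
    rw [hN, cfM_sub', cfM_C_mul', cfM_one]
  refine exists_cut_ratio N H hH w ?_ D k ?_ hk hne'
  · intro T
    rw [hNc, sub_mul, mul_sub, smul_sub]
    congr 1
    · rw [← mul_smul_comm, ← mul_smul_comm, hWT T]
      calc K⁻¹ * cfM T (A.map (ev B Z)) * H
          = (H * K⁻¹ * G) * cfM T (A.map (ev B Z)) * H := by rw [eH]
        _ = _ := by simp only [mul_assoc]
    · split_ifs with hT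
      · subst hT; simp
      · simp
  · intro T hT
    rw [hNc]
    have h1 : T ≠ ∅ := by
      rintro rfl
      simp at hT
    have h2 : cfM T (A.map (ev B Z)) = 0 := by
      ext i j
      rw [cfM, map_apply, map_apply, cf_ev_eq_zero B Z _ D (hdeg i j) T hT]
      rfl
    rw [if_neg h1, h2, mul_zero, sub_zero]

end main

section base

variable {τ : Type*} {E : Type*} [Fintype E] [DecidableEq E] {n : ℕ}

/-- evaluation on the line from `B` to `X₀` -/
noncomputable def lineE (B X₀ : τ → ℂ) : MvPolynomial τ ℂ →ₐ[ℂ] Polynomial ℂ :=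
  aeval fun q => Polynomial.C (B q) + Polynomial.X * Polynomial.C (X₀ q - B q)

/-- point on the line from `B` to `X₀` -/
noncomputable def lineB (B X₀ : τ → ℂ) (ε : ℂ) : τ → ℂ := fun q => B q + ε * (X₀ q - B q)

theorem lineE_eval (B X₀ : τ → ℂ) (f : MvPolynomial τ ℂ) (ε : ℂ) :
    (lineE B X₀ f).eval ε = eval (lineB B X₀ ε) f := by
  have h1 : (Polynomial.evalRingHom ε).comp (lineE B X₀).toRingHom = eval (lineB B X₀ ε) := by
    apply MvPolynomial.ringHom_ext
    · intro r
      have : (lineE B X₀).toRingHom (C r) = Polynomial.C r := (lineE B X₀).commutes r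
      rw [RingHom.comp_apply, this]
      simp
    · intro q
      have : (lineE B X₀).toRingHom (X q)
          = Polynomial.C (B q) + Polynomial.X * Polynomial.C (X₀ q - B q) := by
        change lineE B X₀ (X q) = _
        rw [lineE, aeval_X]
      rw [RingHom.comp_apply, this]
      simp [lineB]
  rw [← h1]
  rfl

/-- formal evaluation with polynomial coefficients -/
noncomputable def evP (B X₀ : τ → ℂ) (Z : E → τ → ℂ) :
    MvPolynomial τ ℂ →ₐ[ℂ] MvPolynomial E (Polynomial ℂ) :=
  aeval fun q => C (Polynomial.C (B q) + Polynomial.X * Polynomial.C (X₀ q - B q))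
    + ∑ e, X e * C (Polynomial.C (Z e q))

theorem evP_map (B X₀ : τ → ℂ) (Z : E → τ → ℂ) (f : MvPolynomial τ ℂ) (ε : ℂ) :
    MvPolynomial.map (Polynomial.evalRingHom ε) (evP B X₀ Z f) = ev (lineB B X₀ ε) Z f := by
  have h1 : (MvPolynomial.map (Polynomial.evalRingHom ε)).comp (evP B X₀ Z).toRingHom
      = (ev (lineB B X₀ ε) Z).toRingHom := by
    apply MvPolynomial.ringHom_ext
    · intro r
      have e1 : (evP B X₀ Z).toRingHom (C r) = C (Polynomial.C r) := (evP B X₀ Z).commutes r
      have e2 : (ev (lineB B X₀ ε) Z).toRingHom (C r) = C r := (ev (lineB B X₀ ε) Z).commutes r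
      rw [RingHom.comp_apply, e1, e2]
      simp
    · intro q
      have e1 : (evP B X₀ Z).toRingHom (X q)
          = C (Polynomial.C (B q) + Polynomial.X * Polynomial.C (X₀ q - B q))
          + ∑ e, X e * C (Polynomial.C (Z e q)) := by
        change evP B X₀ Z (X q) = _
        rw [evP, aeval_X]
      have e2 : (ev (lineB B X₀ ε) Z).toRingHom (X q) = C (lineB B X₀ ε q)
          + ∑ e, X e * C (Z e q) := by
        change ev (lineB B X₀ ε) Z (X q) = _
        rw [ev_X]
      rw [RingHom.comp_apply, e1, e2]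
      simp only [map_add, map_sum, map_mul, map_X, map_C, Polynomial.coe_evalRingHom,
        Polynomial.eval_C]
      congr 2
      simp [lineB]
  have h2 := congrArg (fun φ : _ →+* _ => φ f) h1
  exact h2

/-- the same at any invariant base point, if the matrix is nonsingular at some invariant point -/
theorem exists_cut_ev' (B X₀ : τ → ℂ) (Z : E → τ → ℂ) (g : τ → τ) (hB : ∀ q, B (g q) = B q)
    (hX : ∀ q, X₀ (g q) = X₀ q)
    (w : E → ℂ) (hZ : ∀ e q, Z e (g q) = w e * Z e q)
    (A : Matrix (Fin n) (Fin n) (MvPolynomial τ ℂ)) (hK : (A.map (eval X₀)).det ≠ 0)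
    (G H : Matrix (Fin n) (Fin n) ℂ) (hH : H.det ≠ 0)
    (hA : A.map (rename g) = G.map C * A * H.map C) (hn : 1 ≤ n)
    (D k : ℕ) (hdeg : ∀ i j, (A i j).totalDegree ≤ D) (hk : k ≤ Fintype.card E)
    (hne : cf Finset.univ (ev B Z A.det) ≠ 0) :
    ∃ A' : Finset E, k ≤ A'.card ∧ A'.card ≤ k + D ∧ ∏ e ∈ A', w e ∈ ratios H := by
  by_contra hcon
  apply hne
  set P : Polynomial ℂ := coeff (ind Finset.univ) (evP B X₀ Z A.det) with hP
  set p : Polynomial ℂ := lineE B X₀ A.det with hp
  have hPe : ∀ ε, P.eval ε = cf Finset.univ (ev (lineB B X₀ ε) Z A.det) := by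
    intro ε
    rw [← evP_map, cf_apply, coeff_map]
    rfl
  have hpe : ∀ ε, p.eval ε = (A.map (eval (lineB B X₀ ε))).det := by
    intro ε
    rw [hp, lineE_eval, RingHom.map_det]
    rfl
  have h1 : P * p = 0 := by
    apply Polynomial.funext
    intro ε
    rw [Polynomial.eval_mul, Polynomial.eval_zero, mul_eq_zero]
    by_cases h0 : p.eval ε = 0
    · exact Or.inr h0
    · left
      rw [hPe]
      rw [hpe] at h0
      by_contra h3
      exact hcon (exists_cut_ev (lineB B X₀ ε) Z g
        (fun q => by rw [lineB, lineB, hB, hX]) w hZ A h0 G H hH hA hn D k hdeg hk h3)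
  have h2 : p ≠ 0 := by
    intro h0
    have h3 := hpe 1
    rw [h0, Polynomial.eval_zero] at h3
    apply hK
    have h4 : lineB B X₀ 1 = X₀ := by funext q; simp [lineB]
    rw [h3, h4]
  have h3 : P = 0 := (mul_eq_zero.mp h1).resolve_right h2
  have h4 := hPe 0
  rw [h3, Polynomial.eval_zero] at h4
  have h5 : lineB B X₀ 0 = B := by funext q; simp [lineB]
  rw [h4, h5]

end base

end Pool.MP_35c45d_lc.OnePerm
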