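import Mathlib
import Pool.Agent.Work.MP_35c45d_lc.PEParts

set_option linter.unusedSectionVars false
set_option linter.unusedFintypeInType false

namespace Pool.MP_35c45d_lc.PermEq2
open Matrix Pool.MP_35c45d_lc.PermEq

variable {n : Type*} [Fintype n] [DecidableEq n]
variable {ι : Type*} [Fintype ι] [DecidableEq ι]

/-- the standard character of `ZMod 3` -/
noncomputable def chr : AddChar (ZMod 3) ℂ := ZMod.stdAddChar (N := 3)

theorem chr_eq_one {x : ZMod 3} (h : chr x = 1) : x = 0 := by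
  have h2 : chr x = chr 0 := by rw [h, AddChar.map_zero_eq_one]
  exact ZMod.injective_stdAddChar h2

theorem chr_sum {I : Type*} (s : Finset I) (f : I → ZMod 3) :
    chr (∑ i ∈ s, f i) = ∏ i ∈ s, chr (f i) := by
  classical
  induction s using Finset.induction_on with
  | empty => simp
  | insert a s ha ih => rw [Finset.sum_insert ha, Finset.prod_insert ha, AddChar.map_add_eq_mul, ih]

/-- sign label -/
def sg (a : Bool) : ZMod 3 := if a then 1 else -1

theorem sg_not (a : Bool) : sg (!a) = - sg a := by cases a <;> simp [sg]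

theorem sg_sum_eq_zero (f : Fin 3 → Bool) (h : ∑ k, sg (f k) = 0) (k k' : Fin 3) : f k = f k' := by
  rw [Fin.sum_univ_three] at h
  have : ∀ a b c : Bool, sg a + sg b + sg c = 0 → a = b ∧ b = c := by decide
  obtain ⟨h1, h2⟩ := this _ _ _ h
  fin_cases k <;> fin_cases k' <;> simp_all

/-- block permutation -/
def bp (f : ι → Equiv.Perm (ZMod 3)) : Equiv.Perm (ι × ZMod 3) :=
  Equiv.prodShear (Equiv.refl ι) f

/-- the test matrix of the edge `e` with labels `a`, `b` -/
noncomputable def Yab (σ : Fin 3 → Equiv.Perm ι) (e : Fin 3 × ι) (a b : Bool) :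
    Matrix (ι × ZMod 3) (ι × ZMod 3) ℂ :=
  Matrix.of fun x y => if x.1 = e.2 ∧ y.1 = σ e.1 e.2 then chr (sg a * x.2 + sg b * y.2) else 0

/-- test matrices with a general labelling -/
noncomputable def Yl (σ : Fin 3 → Equiv.Perm ι) (lab : Fin 3 × ι → Bool × Bool)
    (e : Fin 3 × ι) : Matrix (ι × ZMod 3) (ι × ZMod 3) ℂ := Yab σ e (lab e).1 (lab e).2

/-- labels coming from a set `T` of vertices (label `false` on `T`) -/
def labV (σ : Fin 3 → Equiv.Perm ι) (T : Finset (ι ⊕ ι)) (e : Fin 3 × ι) : Bool × Bool :=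
  (decide (Sum.inl e.2 ∉ T), decide (Sum.inr (σ e.1 e.2) ∉ T))

/-- the vertices that meet both `A` and its complement -/
def bdry (σ : Fin 3 → Equiv.Perm ι) (A : Finset (Fin 3 × ι)) : Finset (ι ⊕ ι) :=
  (Finset.univ.filter fun i : ι => ∃ k k' : Fin 3, (k, i) ∈ A ∧ (k', i) ∉ A).disjSum
  (Finset.univ.filter fun j : ι => ∃ k k' : Fin 3,
    (k, (σ k).symm j) ∈ A ∧ (k', (σ k').symm j) ∉ A)

/-- families of test matrices -/
abbrev Fam (ι : Type*) := Fin 3 × ι → Matrix (ι × ZMod 3) (ι × ZMod 3) ℂ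

/-- The properties of the coefficient matrices that the argument uses. -/
structure Sys (D : ℕ) (Nc : Finset (Fin 3 × ι) → Fam ι → Matrix n n ℂ) : Prop where
  scale : ∀ (T : Finset (Fin 3 × ι)) (Z : Fam ι) (c : Fin 3 × ι → ℂ),
    Nc T (fun e => c e • Z e) = (∏ e ∈ T, c e) • Nc T Z
  equiv : ∀ f g : ι → Equiv.Perm (ZMod 3), ∃ P P' : Matrix n n ℂ, P * P' = 1 ∧ P' * P = 1 ∧
    ((∀ T Z, Nc T (fun e => (Z e).submatrix (bp f) (bp g)) = P * Nc T Z * P') ∨
     (∀ T Z, Nc T (fun e => (Z e).submatrix (bp f) (bp g)) = P * (Nc T Z)ᵀ * P'))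
  deg : ∀ (T : Finset (Fin 3 × ι)) (Z : Fam ι), D < T.card → Nc T Z = 0

/-- symmetrised trace product -/
noncomputable def Phi (Nc : Finset (Fin 3 × ι) → Fam ι → Matrix n n ℂ) (L : List ℕ)
    (l : List (Finset (Fin 3 × ι))) (Z : Fam ι) : ℂ :=
  tw L (l.map fun T => Nc T Z) + tw L (l.map fun T => (Nc T Z)ᵀ)

variable {D : ℕ} {Nc : Finset (Fin 3 × ι) → Fam ι → Matrix n n ℂ}

theorem Sys.local_eq (h : Sys D Nc) (T : Finset (Fin 3 × ι)) (Z Z' : Fam ι)
    (hZ : ∀ e ∈ T, Z e = Z' e) : Nc T Z = Nc T Z' := by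
  have h1 := h.scale T Z (fun e => if e ∈ T then 1 else 0)
  have h2 := h.scale T Z' (fun e => if e ∈ T then 1 else 0)
  have h3 : ∏ e ∈ T, (if e ∈ T then (1 : ℂ) else 0) = 1 :=
    Finset.prod_eq_one fun e he => by rw [if_pos he]
  rw [h3, one_smul] at h1 h2
  rw [← h1, ← h2]
  congr 1
  funext e
  by_cases he : e ∈ T
  · rw [if_pos he, hZ e he]
  · rw [if_neg he, zero_smul, zero_smul]

theorem Phi_inv (h : Sys D Nc) (L : List ℕ) (l : List (Finset (Fin 3 × ι))) (Z : Fam ι)
    (f g : ι → Equiv.Perm (ZMod 3)) :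
    Phi Nc L l (fun e => (Z e).submatrix (bp f) (bp g)) = Phi Nc L l Z := by
  obtain ⟨P, P', h1, h2, h3⟩ := h.equiv f g
  have t1 : Pᵀ * P'ᵀ = 1 := by rw [← transpose_mul, h2, transpose_one]
  have t2 : P'ᵀ * Pᵀ = 1 := by rw [← transpose_mul, h1, transpose_one]
  rcases h3 with h3 | h3
  · unfold Phi
    congr 1
    · simp only [h3]
      have := tw_conj P P' h2 h1 L (l.map fun T => Nc T Z)
      rw [List.map_map] at this
      exact this
    · simp only [h3, transpose_mul]
      have := tw_conj P'ᵀ Pᵀ t1 t2 L (l.map fun T => (Nc T Z)ᵀ)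
      rw [List.map_map] at this
      simpa [Function.comp_def, mul_assoc] using this
  · unfold Phi
    rw [add_comm (tw L (l.map fun T => Nc T Z))]
    congr 1
    · simp only [h3]
      have := tw_conj P P' h2 h1 L (l.map fun T => (Nc T Z)ᵀ)
      rw [List.map_map] at this
      exact this
    · simp only [h3, transpose_mul, transpose_transpose]
      have := tw_conj P'ᵀ Pᵀ t1 t2 L (l.map fun T => Nc T Z)
      rw [List.map_map] at this
      simpa [Function.comp_def, mul_assoc] using this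

theorem Phi_smul (h : Sys D Nc) (L : List ℕ) (l : List (Finset (Fin 3 × ι)))
    (hl : l.length = L.sum) (hp : IsPart Finset.univ l) (Z : Fam ι) (c : Fin 3 × ι → ℂ) :
    Phi Nc L l (fun e => c e • Z e) = (∏ e, c e) * Phi Nc L l Z := by
  unfold Phi
  simp only [h.scale, transpose_smul]
  rw [tw_smul _ _ _ _ hl, tw_smul _ _ _ _ hl, hp.prod, mul_add]

theorem Phi_shift_row (h : Sys D Nc) (σ : Fin 3 → Equiv.Perm ι)
    (L : List ℕ) (l : List (Finset (Fin 3 × ι))) (hl : l.length = L.sum)
    (hp : IsPart Finset.univ l) (lab : Fin 3 × ι → Bool × Bool) (i : ι) (k k' : Fin 3)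
    (hk : (lab (k, i)).1 ≠ (lab (k', i)).1) : Phi Nc L l (Yl σ lab) = 0 := by
  have h1 := Phi_inv h L l (Yl σ lab)
    (fun j => if j = i then Equiv.addRight 1 else Equiv.refl _) (fun _ => Equiv.refl _)
  have h2 : (fun e => (Yl σ lab e).submatrix
      (bp (fun j => if j = i then Equiv.addRight (1 : ZMod 3) else Equiv.refl _))
      (bp (fun _ => Equiv.refl _)))
      = fun e => (if e.2 = i then chr (sg (lab e).1) else 1) • Yl σ lab e := by
    funext e
    ext x y
    simp only [Yl, Yab, submatrix_apply, of_apply, bp, Equiv.prodShear_apply, Equiv.refl_apply,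
      Matrix.smul_apply, smul_eq_mul]
    by_cases hx : x.1 = e.2
    · by_cases he : e.2 = i
      · simp only [hx, he, if_true, Equiv.coe_addRight, true_and]
        split_ifs
        · rw [← AddChar.map_add_eq_mul]; congr 1; ring
        · simp
      · simp [hx, he]
    · simp [hx]
  rw [h2, Phi_smul h L l hl hp] at h1
  have h3 : ∏ e : Fin 3 × ι, (if e.2 = i then chr (sg (lab e).1) else 1)
      = chr (∑ k, sg (lab (k, i)).1) := by
    rw [Fintype.prod_prod_type, chr_sum]
    refine Finset.prod_congr rfl fun k _ => ?_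
    simp
  rw [h3] at h1
  by_contra h4
  have h5 : chr (∑ k, sg (lab (k, i)).1) = 1 := by
    have : (chr (∑ k, sg (lab (k, i)).1) - 1) * Phi Nc L l (Yl σ lab) = 0 := by
      rw [sub_mul, h1, one_mul, sub_self]
    rcases mul_eq_zero.mp this with h | h
    · exact sub_eq_zero.mp h
    · exact absurd h h4
  exact hk (sg_sum_eq_zero (fun k => (lab (k, i)).1) (chr_eq_one h5) k k')

theorem Phi_shift_col (h : Sys D Nc) (σ : Fin 3 → Equiv.Perm ι)
    (L : List ℕ) (l : List (Finset (Fin 3 × ι))) (hl : l.length = L.sum)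
    (hp : IsPart Finset.univ l) (lab : Fin 3 × ι → Bool × Bool) (j : ι) (k k' : Fin 3)
    (hk : (lab (k, (σ k).symm j)).2 ≠ (lab (k', (σ k').symm j)).2) :
    Phi Nc L l (Yl σ lab) = 0 := by
  have h1 := Phi_inv h L l (Yl σ lab) (fun _ => Equiv.refl _)
    (fun j' => if j' = j then Equiv.addRight 1 else Equiv.refl _)
  have h2 : (fun e => (Yl σ lab e).submatrix (bp (fun _ => Equiv.refl _))
      (bp (fun j' => if j' = j then Equiv.addRight (1 : ZMod 3) else Equiv.refl _)))
      = fun e => (if σ e.1 e.2 = j then chr (sg (lab e).2) else 1) • Yl σ lab e := by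
    funext e
    ext x y
    simp only [Yl, Yab, submatrix_apply, of_apply, bp, Equiv.prodShear_apply, Equiv.refl_apply,
      Matrix.smul_apply, smul_eq_mul]
    by_cases hx : y.1 = σ e.1 e.2
    · by_cases he : σ e.1 e.2 = j
      · simp only [hx, he, if_true, Equiv.coe_addRight, and_true]
        split_ifs
        · rw [← AddChar.map_add_eq_mul]; congr 1; ring
        · simp
      · simp [hx, he]
    · simp [hx]
  rw [h2, Phi_smul h L l hl hp] at h1
  have h3 : ∏ e : Fin 3 × ι, (if σ e.1 e.2 = j then chr (sg (lab e).2) else 1)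
      = chr (∑ k, sg (lab (k, (σ k).symm j)).2) := by
    rw [Fintype.prod_prod_type, chr_sum]
    refine Finset.prod_congr rfl fun k _ => ?_
    rw [Finset.prod_eq_single ((σ k).symm j)]
    · simp
    · intro i _ hi
      rw [if_neg]
      intro h; exact hi (by rw [← h]; simp)
    · simp
  rw [h3] at h1
  by_contra h4
  have h5 : chr (∑ k, sg (lab (k, (σ k).symm j)).2) = 1 := by
    have : (chr (∑ k, sg (lab (k, (σ k).symm j)).2) - 1) * Phi Nc L l (Yl σ lab) = 0 := by
      rw [sub_mul, h1, one_mul, sub_self]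
    rcases mul_eq_zero.mp this with h | h
    · exact sub_eq_zero.mp h
    · exact absurd h h4
  exact hk (sg_sum_eq_zero (fun k => (lab (k, (σ k).symm j)).2) (chr_eq_one h5) k k')

theorem Phi_flip_row (h : Sys D Nc) (σ : Fin 3 → Equiv.Perm ι)
    (L : List ℕ) (l : List (Finset (Fin 3 × ι))) (lab : Fin 3 × ι → Bool × Bool) (i : ι) :
    Phi Nc L l (Yl σ (fun e => (if e.2 = i then !(lab e).1 else (lab e).1, (lab e).2)))
      = Phi Nc L l (Yl σ lab) := by
  have h1 := Phi_inv h L l (Yl σ lab)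
    (fun j => if j = i then Equiv.neg _ else Equiv.refl _) (fun _ => Equiv.refl _)
  rw [← h1]
  congr 1
  funext e
  ext x y
  simp only [Yl, Yab, submatrix_apply, of_apply, bp, Equiv.prodShear_apply, Equiv.refl_apply]
  by_cases hx : x.1 = e.2
  · by_cases he : e.2 = i
    · simp only [hx, he, if_true, Equiv.neg_apply, sg_not]
      simp
    · simp [hx, he]
  · simp [hx]

theorem Phi_flip_col (h : Sys D Nc) (σ : Fin 3 → Equiv.Perm ι)
    (L : List ℕ) (l : List (Finset (Fin 3 × ι))) (lab : Fin 3 × ι → Bool × Bool) (j : ι) :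
    Phi Nc L l (Yl σ (fun e => ((lab e).1, if σ e.1 e.2 = j then !(lab e).2 else (lab e).2)))
      = Phi Nc L l (Yl σ lab) := by
  have h1 := Phi_inv h L l (Yl σ lab) (fun _ => Equiv.refl _)
    (fun j' => if j' = j then Equiv.neg _ else Equiv.refl _)
  rw [← h1]
  congr 1
  funext e
  ext x y
  simp only [Yl, Yab, submatrix_apply, of_apply, bp, Equiv.prodShear_apply, Equiv.refl_apply]
  by_cases hx : y.1 = σ e.1 e.2
  · by_cases he : σ e.1 e.2 = j
    · simp only [hx, he, if_true, Equiv.neg_apply, sg_not]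
      simp
    · simp [hx, he]
  · simp [hx]

theorem Phi_labV (h : Sys D Nc) (σ : Fin 3 → Equiv.Perm ι)
    (L : List ℕ) (l : List (Finset (Fin 3 × ι))) (T : Finset (ι ⊕ ι)) :
    Phi Nc L l (Yl σ (labV σ T)) = Phi Nc L l (Yl σ (labV σ ∅)) := by
  induction T using Finset.induction_on with
  | empty => rfl
  | insert v T hv ih =>
    rw [← ih]
    rcases v with i | j
    · rw [← Phi_flip_row h σ L l (labV σ T) i]
      congr 2
      funext e
      simp only [labV, Finset.mem_insert, Sum.inl.injEq, reduceCtorEq, false_or]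
      by_cases he : e.2 = i
      · subst he; simp [hv]
      · simp [he]
    · rw [← Phi_flip_col h σ L l (labV σ T) j]
      congr 2
      funext e
      simp only [labV, Finset.mem_insert, Sum.inr.injEq, reduceCtorEq, false_or]
      by_cases he : σ e.1 e.2 = j
      · subst he; simp [hv]
      · simp [he]

theorem Phi_mixed (h : Sys D Nc) (σ : Fin 3 → Equiv.Perm ι)
    (L : List ℕ) (l : List (Finset (Fin 3 × ι))) (hl : l.length = L.sum)
    (hp : IsPart Finset.univ l) (A : Finset (Fin 3 × ι)) (T T' : Finset (ι ⊕ ι))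
    (hT : T ⊆ bdry σ A) (hT' : T' ⊆ bdry σ A) :
    Phi Nc L l (Yl σ (fun e => if e ∈ A then labV σ T e else labV σ T' e))
      = if T = T' then Phi Nc L l (Yl σ (labV σ ∅)) else 0 := by
  split_ifs with h0
  · subst h0
    simp only [ite_self]
    exact Phi_labV h σ L l T
  · have : ∃ v, ¬ (v ∈ T ↔ v ∈ T') := by
      by_contra hcon
      push Not at hcon
      exact h0 (Finset.ext hcon)
    obtain ⟨v, hv⟩ := this
    have hvb : v ∈ bdry σ A := by
      by_cases h1 : v ∈ T
      · exact hT h1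
      · exact hT' (by tauto)
    rcases v with i | j
    · rw [bdry, Finset.inl_mem_disjSum, Finset.mem_filter] at hvb
      obtain ⟨k, k', hk, hk'⟩ := hvb.2
      apply Phi_shift_row h σ L l hl hp _ i k k'
      simp only [hk, hk', if_true, if_false, labV]
      intro h2
      rw [decide_eq_decide] at h2
      tauto
    · rw [bdry, Finset.inr_mem_disjSum, Finset.mem_filter] at hvb
      obtain ⟨k, k', hk, hk'⟩ := hvb.2
      apply Phi_shift_col h σ L l hl hp _ j k k'
      simp only [hk, hk', if_true, if_false, labV, Equiv.apply_symm_apply]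
      intro h2
      rw [decide_eq_decide] at h2
      tauto

/-- The vanishing theorem for one cut. -/
theorem Phi_eq_zero [Nonempty n] (h : Sys D Nc) (σ : Fin 3 → Equiv.Perm ι)
    (L : List ℕ) (l₁ l₂ : List (Finset (Fin 3 × ι))) (hl : (l₁ ++ l₂).length = L.sum)
    (hp : IsPart Finset.univ (l₁ ++ l₂)) (hdis : ∀ T ∈ l₂, Disjoint T (uni l₁))
    (hcard : 2 * Fintype.card n ^ 2 < 2 ^ (bdry σ (uni l₁)).card) :
    Phi Nc L (l₁ ++ l₂) (Yl σ (labV σ ∅)) = 0 := by
  by_contra hne
  obtain ⟨U, V, hUV⟩ := tw_append_eq_sum (n := n) L l₁.length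
  set B := bdry σ (uni l₁) with hB
  set c := Phi Nc L (l₁ ++ l₂) (Yl σ (labV σ ∅)) with hc
  let I := {T : Finset (ι ⊕ ι) // T ∈ B.powerset}
  let UU : Matrix I ((n × n) × Bool) ℂ := fun W x =>
    if x.2 then U x.1 (l₁.map fun T => Nc T (Yl σ (labV σ W.1)))
    else U x.1 (l₁.map fun T => (Nc T (Yl σ (labV σ W.1)))ᵀ)
  let VV : Matrix ((n × n) × Bool) I ℂ := fun x W =>
    if x.2 then V x.1 (l₂.map fun T => Nc T (Yl σ (labV σ W.1)))
    else V x.1 (l₂.map fun T => (Nc T (Yl σ (labV σ W.1)))ᵀ)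
  have hprod : UU * VV = c • (1 : Matrix I I ℂ) := by
    ext W W'
    have h1 := Phi_mixed h σ L (l₁ ++ l₂) hl hp (uni l₁) W.1 W'.1
      (Finset.mem_powerset.mp W.2) (Finset.mem_powerset.mp W'.2)
    have g1 : ∀ T ∈ l₁, Nc T (Yl σ
        (fun e => if e ∈ uni l₁ then labV σ W.1 e else labV σ W'.1 e))
        = Nc T (Yl σ (labV σ W.1)) := by
      intro T hT
      apply h.local_eq
      intro e he
      have : e ∈ uni l₁ := (mem_uni l₁ e).mpr ⟨T, hT, he⟩
      simp only [Yl, this, if_true]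
    have g2 : ∀ T ∈ l₂, Nc T (Yl σ
        (fun e => if e ∈ uni l₁ then labV σ W.1 e else labV σ W'.1 e))
        = Nc T (Yl σ (labV σ W'.1)) := by
      intro T hT
      apply h.local_eq
      intro e he
      have : e ∉ uni l₁ := Finset.disjoint_left.mp (hdis T hT) he
      simp only [Yl, this, if_false]
    have e1 : (l₁ ++ l₂).map (fun T => Nc T (Yl σ
        (fun e => if e ∈ uni l₁ then labV σ W.1 e else labV σ W'.1 e)))
        = l₁.map (fun T => Nc T (Yl σ (labV σ W.1)))
          ++ l₂.map (fun T => Nc T (Yl σ (labV σ W'.1))) := by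
      rw [List.map_append]
      congr 1
      · exact List.map_congr_left g1
      · exact List.map_congr_left g2
    have e2 : (l₁ ++ l₂).map (fun T => (Nc T (Yl σ
        (fun e => if e ∈ uni l₁ then labV σ W.1 e else labV σ W'.1 e)))ᵀ)
        = l₁.map (fun T => (Nc T (Yl σ (labV σ W.1)))ᵀ)
          ++ l₂.map (fun T => (Nc T (Yl σ (labV σ W'.1)))ᵀ) := by
      rw [List.map_append]
      congr 1
      · exact List.map_congr_left fun T hT => by rw [g1 T hT]
      · exact List.map_congr_left fun T hT => by rw [g2 T hT]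
    have h2 : (UU * VV) W W' = Phi Nc L (l₁ ++ l₂) (Yl σ
        (fun e => if e ∈ uni l₁ then labV σ W.1 e else labV σ W'.1 e)) := by
      unfold Phi
      rw [e1, e2, hUV _ _ (by simp), hUV _ _ (by simp), mul_apply, Fintype.sum_prod_type,
        ← Finset.sum_add_distrib]
      refine Finset.sum_congr rfl fun x _ => ?_
      rw [Fintype.sum_bool]
      simp [UU, VV]
    rw [h2, h1, Matrix.smul_apply, Matrix.one_apply, smul_eq_mul]
    by_cases hTT : W = W'
    · subst hTT; simp [hc]
    · rw [if_neg (fun h => hTT (Subtype.ext h)), if_neg hTT, mul_zero]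
  have hrank : (c • (1 : Matrix I I ℂ)).rank = Fintype.card I := by
    have hu : IsUnit (c • (1 : Matrix I I ℂ)) := by
      rw [isUnit_iff_isUnit_det, det_smul, det_one, mul_one]
      exact (IsUnit.mk0 c hne).pow _
    rw [rank_of_isUnit _ hu]
  have hle : (UU * VV).rank ≤ Fintype.card ((n × n) × Bool) :=
    (rank_mul_le_left _ _).trans (rank_le_card_width _)
  rw [hprod, hrank] at hle
  have hI : Fintype.card I = 2 ^ B.card := by
    rw [Fintype.card_coe, Finset.card_powerset]
  rw [hI, Fintype.card_prod, Fintype.card_prod, Fintype.card_bool] at hle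
  have : 2 * Fintype.card n ^ 2 = Fintype.card n * Fintype.card n * 2 := by ring
  omega

/-- every set of `k`, ..., `k + D` edges has at least `s` mixed vertices -/
def Expands (σ : Fin 3 → Equiv.Perm ι) (k D s : ℕ) : Prop :=
  ∀ A : Finset (Fin 3 × ι), k ≤ A.card → A.card ≤ k + D → s ≤ (bdry σ A).card

theorem tw_eq_zero (L : List ℕ) (l : List (Matrix n n ℂ)) (hl : l.length = L.sum)
    (h0 : (0 : Matrix n n ℂ) ∈ l) : tw L l = 0 := by
  induction L generalizing l with
  | nil =>
    have : l = [] := by simpa using hl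
    subst this
    simp at h0
  | cons p L ih =>
    rw [List.sum_cons] at hl
    rw [tw]
    rw [← List.take_append_drop p l, List.mem_append] at h0
    rcases h0 with h0 | h0
    · have : (l.take p).prod = 0 := by
        rw [List.prod_eq_zero h0]
      rw [this, trace_zero, zero_mul]
    · rw [ih _ (by simp [hl]) h0, mul_zero]

/-- The vanishing theorem. -/
theorem Phi_eq_zero' [Nonempty n] (h : Sys D Nc) (σ : Fin 3 → Equiv.Perm ι)
    (k s : ℕ) (hk : k ≤ Fintype.card (Fin 3 × ι)) (hexp : Expands σ k D s)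
    (hcard : 2 * Fintype.card n ^ 2 < 2 ^ s)
    (L : List ℕ) (l : List (Finset (Fin 3 × ι))) (hl : l.length = L.sum)
    (hp : IsPart Finset.univ l) : Phi Nc L l (Yl σ (labV σ ∅)) = 0 := by
  by_cases hD : ∀ T ∈ l, T.card ≤ D
  · obtain ⟨l₁, l₂, e1, e2, e3, e4, _⟩ := hp.exists_cut D k hD (by rwa [Finset.card_univ])
    subst e1
    refine Phi_eq_zero h σ L l₁ l₂ hl hp e4 ?_
    exact lt_of_lt_of_le hcard (Nat.pow_le_pow_right (by norm_num) (hexp _ e2 e3))
  · push Not at hD
    obtain ⟨T, hT, hT2⟩ := hD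
    unfold Phi
    rw [tw_eq_zero _ _ (by simp [hl]), tw_eq_zero _ _ (by simp [hl]), add_zero]
    · rw [List.mem_map]
      exact ⟨T, hT, by rw [h.deg T _ hT2, transpose_zero]⟩
    · rw [List.mem_map]
      exact ⟨T, hT, h.deg T _ hT2⟩

end Pool.MP_35c45d_lc.PermEq2
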