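import Mathlib
import Pool.Agent.Work.MP_35c45d_lc.PELabels

set_option linter.unusedSectionVars false
set_option linter.unusedFintypeInType false

namespace Pool.MP_35c45d_lc.PermEq2
open Matrix MvPolynomial Pool.MP_35c45d_lc.PermEq

theorem permanent_reindex {R m n : Type*} [CommRing R] [Fintype m] [DecidableEq m] [Fintype n]
    [DecidableEq n] (e : n ≃ m) (A : Matrix m m R) :
    permanent (A.submatrix e e) = permanent A := by
  rw [permanent, permanent]
  apply Fintype.sum_equiv (Equiv.permCongr e)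
  intro σ
  apply Fintype.prod_equiv e
  intro i
  rw [Equiv.permCongr_apply, Equiv.symm_apply_apply, submatrix_apply]

section expand

variable {E : Type*} [Fintype E] [DecidableEq E] {Q : Type*} [Fintype Q] [DecidableEq Q]

/-- exponent of an optional letter -/
noncomputable def expo : Option E → E →₀ ℕ
  | none => 0
  | some e => Finsupp.single e 1

/-- coefficient of an optional letter -/
def cofac (a : E → Q → ℂ) : Option E → Q → ℂ
  | none, _ => 1
  | some e, x => a e x

theorem prod_expand (a : E → Q → ℂ) :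
    ∏ x : Q, (1 + ∑ e, X e * C (a e x) : MvPolynomial E ℂ)
      = ∑ w : Q → Option E, monomial (∑ x, expo (w x)) (∏ x, cofac a (w x) x) := by
  have h1 : ∀ x : Q, (1 + ∑ e, X e * C (a e x) : MvPolynomial E ℂ)
      = ∑ o : Option E, monomial (expo o) (cofac a o x) := by
    intro x
    rw [Fintype.sum_option]
    congr 1
    refine Finset.sum_congr rfl fun e _ => ?_
    simp only [expo, cofac]
    rw [mul_comm, C_mul_X_eq_monomial]
  simp only [h1]
  rw [Finset.prod_univ_sum, Fintype.piFinset_univ]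
  refine Finset.sum_congr rfl fun w _ => ?_
  rw [monomial_sum_prod]

theorem cf_prod_expand (a : E → Q → ℂ) :
    cf Finset.univ (∏ x : Q, (1 + ∑ e, X e * C (a e x) : MvPolynomial E ℂ))
      = ∑ w : Q → Option E, if (∑ x, expo (w x)) = ind Finset.univ
          then ∏ x, cofac a (w x) x else 0 := by
  rw [prod_expand, map_sum]
  refine Finset.sum_congr rfl fun w _ => ?_
  rw [cf_apply, coeff_monomial]

end expand

section perm

variable {ι : Type*} [Fintype ι] [DecidableEq ι] {ζ : Type*} [Fintype ζ] [DecidableEq ζ]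

/-- positions: two groups of triples and the rest -/
abbrev Ps (ι ζ : Type*) := ((ι × ZMod 3) ⊕ (ι × ZMod 3)) ⊕ ζ

/-- the entry of `Z` placed at rows of the first and columns of the second group -/
def ent (Z : Matrix (ι × ZMod 3) (ι × ZMod 3) ℂ) : Ps ι ζ → Ps ι ζ → ℂ
  | Sum.inl (Sum.inl y), Sum.inl (Sum.inr x) => Z y x
  | _, _ => 0

/-- all ones plus the formal combination of the test matrices -/
noncomputable def PM (Z : Fam ι) : Matrix (Ps ι ζ) (Ps ι ζ) (MvPolynomial (Fin 3 × ι) ℂ) :=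
  of fun s s' => 1 + ∑ e, X e * C (ent (Z e) s s')

theorem ent_col_inl (Z : Matrix (ι × ZMod 3) (ι × ZMod 3) ℂ) (s : Ps ι ζ) (x : ι × ZMod 3) :
    ent Z s (Sum.inl (Sum.inl x)) = 0 := by
  rcases s with (s | s) | s <;> rfl

theorem ent_col_inr (Z : Matrix (ι × ZMod 3) (ι × ZMod 3) ℂ) (s : Ps ι ζ) (x : ζ) :
    ent Z s (Sum.inr x) = 0 := by
  rcases s with (s | s) | s <;> rfl

theorem permanent_PM (Z : Fam ι) :
    cf Finset.univ (PM (ζ := ζ) Z).permanent
      = ∑ s : Equiv.Perm (Ps ι ζ), ∑ w : ι × ZMod 3 → Option (Fin 3 × ι),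
        if (∑ x, expo (w x)) = ind Finset.univ
          then ∏ x, cofac (fun e x => ent (Z e) (s (Sum.inl (Sum.inr x))) (Sum.inl (Sum.inr x)))
            (w x) x else 0 := by
  rw [permanent, map_sum]
  refine Finset.sum_congr rfl fun s _ => ?_
  rw [Fintype.prod_sum_type, Fintype.prod_sum_type]
  have h1 : ∏ x : ι × ZMod 3, PM (ζ := ζ) Z (s (Sum.inl (Sum.inl x))) (Sum.inl (Sum.inl x)) = 1 :=
    Finset.prod_eq_one fun x _ => by simp [PM, ent_col_inl]
  have h2 : ∏ x : ζ, PM (ζ := ζ) Z (s (Sum.inr x)) (Sum.inr x) = 1 :=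
    Finset.prod_eq_one fun x _ => by simp [PM, ent_col_inr]
  rw [h1, h2, one_mul, mul_one]
  exact cf_prod_expand _

/-- identification of labels with the index of the permutation -/
def z3 : ZMod 3 ≃ Fin 3 := Equiv.refl (Fin 3)

theorem sum_snd_zero : ∑ x : ι × ZMod 3, x.2 = 0 := by
  rw [Fintype.sum_prod_type]
  have : ∑ r : ZMod 3, r = 0 := by decide
  simp [this]

theorem expo_ne_none (w : ι × ZMod 3 → Option (Fin 3 × ι))
    (hw : (∑ x, expo (w x)) = ind Finset.univ) (x : ι × ZMod 3) : w x ≠ none := by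
  intro hx
  have h1 := congrArg (fun d : (Fin 3 × ι) →₀ ℕ => ∑ e, d e) hw
  simp only [ind_apply, Finset.mem_univ, if_true, Finsupp.coe_finsetSum, Finset.sum_apply] at h1
  rw [Finset.sum_comm] at h1
  have h2 : ∀ y, ∑ e, expo (w y) e ≤ 1 := by
    intro y
    rcases w y with _ | e
    · simp [expo]
    · simp [expo, Finsupp.single_apply]
  have h3 : ∑ e, expo (w x) e = 0 := by rw [hx]; simp [expo]
  have h4 : ∑ y, ∑ e, expo (w y) e < ∑ _y : ι × ZMod 3, 1 :=
    Finset.sum_lt_sum (fun y _ => h2 y) ⟨x, Finset.mem_univ x, by rw [h3]; exact Nat.one_pos⟩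
  rw [h1] at h4
  simp [ZMod.card] at h4
  omega

theorem prod_cofac (σ : Fin 3 → Equiv.Perm ι) (s : Equiv.Perm (Ps ι ζ))
    (w : ι × ZMod 3 → Option (Fin 3 × ι)) (hw : (∑ x, expo (w x)) = ind Finset.univ) :
    (∏ x, cofac (fun e x => ent (Yl σ (labV σ ∅) e) (s (Sum.inl (Sum.inr x)))
      (Sum.inl (Sum.inr x))) (w x) x) = 0 ∨
    (∏ x, cofac (fun e x => ent (Yl σ (labV σ ∅) e) (s (Sum.inl (Sum.inr x)))
      (Sum.inl (Sum.inr x))) (w x) x) = 1 := by
  by_cases h0 : ∀ x, cofac (fun e x => ent (Yl σ (labV σ ∅) e) (s (Sum.inl (Sum.inr x)))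
      (Sum.inl (Sum.inr x))) (w x) x ≠ 0
  · right
    have h1 : ∀ x, ∃ y : ι × ZMod 3, s (Sum.inl (Sum.inr x)) = Sum.inl (Sum.inl y) ∧
        cofac (fun e x => ent (Yl σ (labV σ ∅) e) (s (Sum.inl (Sum.inr x)))
          (Sum.inl (Sum.inr x))) (w x) x = chr (y.2 + x.2) := by
      intro x
      have h2 := h0 x
      obtain ⟨e, he⟩ := Option.ne_none_iff_exists'.mp (expo_ne_none w hw x)
      rw [he] at h2 ⊢
      simp only [cofac] at h2 ⊢
      rcases hs : s (Sum.inl (Sum.inr x)) with (y | y) | y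
      · refine ⟨y, rfl, ?_⟩
        rw [hs] at h2
        simp only [ent, Yl, Yab, of_apply, labV, Finset.notMem_empty, not_false_eq_true,
          decide_true, sg, if_true, one_mul] at h2 ⊢
        split_ifs at h2 ⊢ with h3
        · rfl
        · exact absurd rfl h2
      · rw [hs] at h2; exact absurd rfl h2
      · rw [hs] at h2; exact absurd rfl h2
    choose y hy1 hy2 using h1
    have hinj : Function.Injective y := by
      intro a b hab
      have : s (Sum.inl (Sum.inr a)) = s (Sum.inl (Sum.inr b)) := by rw [hy1, hy1, hab]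
      simpa using s.injective this
    have hbij : Function.Bijective y := Finite.injective_iff_bijective.mp hinj
    simp only [hy2]
    rw [← chr_sum, Finset.sum_add_distrib, hbij.sum_comp (fun x => x.2), sum_snd_zero]
    simp
  · left
    push Not at h0
    obtain ⟨x, hx⟩ := h0
    exact Finset.prod_eq_zero (Finset.mem_univ x) hx

theorem cf_permanent_PM_ne_zero (σ : Fin 3 → Equiv.Perm ι) :
    cf Finset.univ (PM (ζ := ζ) (Yl σ (labV σ ∅))).permanent ≠ 0 := by
  classical
  rw [permanent_PM]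
  set F : Equiv.Perm (Ps ι ζ) → (ι × ZMod 3 → Option (Fin 3 × ι)) → ℂ := fun s w =>
    if (∑ x, expo (w x)) = ind Finset.univ
          then ∏ x, cofac (fun e x => ent (Yl σ (labV σ ∅) e) (s (Sum.inl (Sum.inr x)))
            (Sum.inl (Sum.inr x))) (w x) x else 0 with hF
  have h1 : ∀ s w, F s w = ((if F s w = 1 then 1 else 0 : ℕ) : ℂ) := by
    intro s w
    have h2 : F s w = 0 ∨ F s w = 1 := by
      simp only [hF]
      by_cases hw : (∑ x, expo (w x)) = ind Finset.univ
      · rw [if_pos hw]; exact prod_cofac σ s w hw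
      · rw [if_neg hw]; exact Or.inl rfl
    rcases h2 with h2 | h2
    · rw [h2]; simp
    · rw [h2]; simp
  have h3 : ∑ s, ∑ w, F s w
      = ((∑ s : Equiv.Perm (Ps ι ζ), ∑ w : ι × ZMod 3 → Option (Fin 3 × ι),
          if F s w = 1 then 1 else 0 : ℕ) : ℂ) := by
    rw [Nat.cast_sum]
    refine Finset.sum_congr rfl fun s _ => ?_
    rw [Nat.cast_sum]
    exact Finset.sum_congr rfl fun w _ => h1 s w
  rw [h3, Nat.cast_ne_zero]
  apply ne_of_gt
  let s0 : Equiv.Perm (Ps ι ζ) :=
    { toFun := fun p => match p with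
        | Sum.inl (Sum.inl x) => Sum.inl (Sum.inr x)
        | Sum.inl (Sum.inr x) => Sum.inl (Sum.inl ((σ (z3 x.2)).symm x.1, x.2))
        | Sum.inr z => Sum.inr z
      invFun := fun p => match p with
        | Sum.inl (Sum.inl x) => Sum.inl (Sum.inr (σ (z3 x.2) x.1, x.2))
        | Sum.inl (Sum.inr x) => Sum.inl (Sum.inl x)
        | Sum.inr z => Sum.inr z
      left_inv := fun p => by rcases p with (x | x) | z <;> simp
      right_inv := fun p => by rcases p with (x | x) | z <;> simp }
  let w0 : ι × ZMod 3 → Option (Fin 3 × ι) := fun x => some (z3 x.2, (σ (z3 x.2)).symm x.1)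
  refine Finset.sum_pos' (fun _ _ => Nat.zero_le _) ⟨s0, Finset.mem_univ _, ?_⟩
  refine Finset.sum_pos' (fun _ _ => Nat.zero_le _) ⟨w0, Finset.mem_univ _, ?_⟩
  rw [if_pos]
  · exact Nat.one_pos
  have hw0 : (∑ x, expo (w0 x)) = ind Finset.univ := by
    ext e
    rw [ind_apply, if_pos (Finset.mem_univ e), Finsupp.coe_finsetSum, Finset.sum_apply]
    rw [Finset.sum_eq_single (σ e.1 e.2, z3.symm e.1)]
    · simp [w0, expo]
    · intro x _ hx
      simp only [w0, expo]
      rw [Finsupp.single_apply, if_neg]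
      intro h
      apply hx
      rw [← h]
      simp
    · intro h; exact absurd (Finset.mem_univ _) h
  simp only [hF]
  rw [if_pos hw0]
  rcases prod_cofac σ s0 w0 hw0 with h | h
  · exfalso
    rw [Finset.prod_eq_zero_iff] at h
    obtain ⟨x, _, hx⟩ := h
    have e1 : s0 (Sum.inl (Sum.inr x)) = Sum.inl (Sum.inl ((σ (z3 x.2)).symm x.1, x.2)) := rfl
    simp only [w0, cofac] at hx
    rw [e1] at hx
    simp only [ent, Yl, Yab, of_apply, Equiv.apply_symm_apply, and_self, if_true] at hx
    have : ∀ z : ZMod 3, chr z ≠ 0 := by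
      intro z hz
      have h2 : chr z * chr (-z) = 1 := by
        rw [← AddChar.map_add_eq_mul]; simp
      rw [hz, zero_mul] at h2
      exact zero_ne_one h2
    exact this _ hx
  · exact h

end perm

end Pool.MP_35c45d_lc.PermEq2
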