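import Mathlib
import Pool.Agent.Work.MP_35c45d_lc.PEParts
import Pool.Agent.Work.MP_35c45d_lc.PEPerm

set_option autoImplicit false

namespace Pool.MP_35c45d_lc.OnePerm
open Finset MvPolynomial Pool.MP_35c45d_lc.PermEq2

/-! ### sums over injections into one orbit -/

open Classical in
/-- sum over injections into an orbit, for labels without proper zero sum -/
theorem vertex_sum {X : Type*} (O : Finset X) {h : ℕ} [NeZero h] (τ : X → ZMod h)
    (hτ : ∀ u : ZMod h, u ≠ 0 → ∑ x ∈ O, ZMod.stdAddChar (N := h) (u * τ x) = 0)
    (d : ℕ) (u : Fin (d + 1) → ZMod h) (h0 : ∑ k, u k = 0)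
    (hS : ∀ S : Finset (Fin (d + 1)), S.Nonempty → S ≠ univ → ∑ k ∈ S, u k ≠ 0) :
    ∑ r ∈ Fintype.piFinset (fun _ : Fin (d + 1) => O),
      (if Function.Injective r then ∏ k, ZMod.stdAddChar (N := h) (u k * τ (r k)) else 0)
      = (-1) ^ d * (d.factorial : ℂ) * (#O : ℂ) := by
  induction d with
  | zero =>
    have hu : u 0 = 0 := by simpa using h0
    have h1 : ∀ r ∈ Fintype.piFinset (fun _ : Fin (0 + 1) => O),
        (if Function.Injective r then ∏ k, ZMod.stdAddChar (N := h) (u k * τ (r k)) else 0)
          = (1 : ℂ) := by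
      intro r _
      have : Subsingleton (Fin (0 + 1)) := inferInstanceAs (Subsingleton (Fin 1))
      rw [if_pos (Function.injective_of_subsingleton r)]
      simp [hu]
    rw [sum_congr rfl h1, sum_const, Fintype.card_piFinset]
    simp
  | succ d ih =>
    have hlast : u (Fin.last (d + 1)) ≠ 0 := by
      have := hS {Fin.last (d + 1)} (singleton_nonempty _) (by
        intro h
        have h2 : (0 : Fin (d + 1 + 1)) ∈ ({Fin.last (d + 1)} : Finset (Fin (d + 1 + 1))) := by
          rw [h]; exact mem_univ _
        rw [mem_singleton] at h2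
        exact absurd h2 (by simp [Fin.ext_iff]))
      rwa [sum_singleton] at this
    -- the merged labels
    obtain ⟨v, hv⟩ : ∃ v : Fin (d + 1) → Fin (d + 1) → ZMod h,
        v = fun k j => u j.castSucc + (if j = k then u (Fin.last (d + 1)) else 0) := ⟨_, rfl⟩
    have hv0 : ∀ k, ∑ j, v k j = 0 := by
      intro k
      rw [hv]
      simp only
      have h0' := h0
      rw [Fin.sum_univ_castSucc] at h0'
      rw [sum_add_distrib, sum_ite_eq' univ k, if_pos (mem_univ k)]
      exact h0'
    have hvS : ∀ k, ∀ S : Finset (Fin (d + 1)), S.Nonempty → S ≠ univ → ∑ j ∈ S, v k j ≠ 0 := by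
      intro k S hSn hSu
      rw [hv]
      simp only
      rw [sum_add_distrib, sum_ite_eq' S k]
      by_cases hk : k ∈ S
      · rw [if_pos hk]
        have h1 := hS (insert (Fin.last (d + 1)) (S.map Fin.castSuccEmb)) (insert_nonempty _ _) (by
          intro h
          apply hSu
          ext j
          simp only [mem_univ, iff_true]
          have h2 : j.castSucc ∈ insert (Fin.last (d + 1)) (S.map Fin.castSuccEmb) := by
            rw [h]; exact mem_univ _
          rw [mem_insert, mem_map] at h2
          rcases h2 with h2 | ⟨i, hi, hij⟩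
          · exact absurd h2 (Fin.castSucc_ne_last j)
          · have : i = j := Fin.castSucc_injective _ hij
            exact this ▸ hi)
        rw [sum_insert, sum_map] at h1
        · intro h2
          apply h1
          rw [add_comm]
          exact h2
        · rw [mem_map]
          rintro ⟨i, _, hi⟩
          exact Fin.castSucc_ne_last i hi
      · rw [if_neg hk, add_zero]
        have h1 := hS (S.map Fin.castSuccEmb) (hSn.map) (by
          intro h
          have h2 : Fin.last (d + 1) ∈ S.map Fin.castSuccEmb := by rw [h]; exact mem_univ _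
          rw [mem_map] at h2
          obtain ⟨i, _, hi⟩ := h2
          exact Fin.castSucc_ne_last i hi)
        rw [sum_map] at h1
        exact h1
    -- split off the last coordinate
    have hsplit : ∑ r ∈ Fintype.piFinset (fun _ : Fin (d + 1 + 1) => O),
        (if Function.Injective r then ∏ k, ZMod.stdAddChar (N := h) (u k * τ (r k)) else 0)
        = ∑ r ∈ Fintype.piFinset (fun _ : Fin (d + 1) => O), ∑ x ∈ O,
          (if Function.Injective (Fin.snoc (α := fun _ => X) r x : Fin (d + 1 + 1) → X) then
            ∏ k, ZMod.stdAddChar (N := h) (u k * τ ((Fin.snoc (α := fun _ => X) r x : Fin (d + 1 + 1) → X) k))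
            else 0) := by
      rw [← sum_product']
      refine sum_nbij' (fun r => (Fin.init r, r (Fin.last (d + 1))))
        (fun p => Fin.snoc (α := fun _ => X) p.1 p.2) ?_ ?_ ?_ ?_ ?_
      · intro r hr
        rw [Fintype.mem_piFinset] at hr
        rw [mem_product, Fintype.mem_piFinset]
        exact ⟨fun k => hr _, hr _⟩
      · intro p hp
        rw [mem_product, Fintype.mem_piFinset] at hp
        rw [Fintype.mem_piFinset]
        intro k
        refine Fin.lastCases ?_ (fun k => ?_) k
        · rw [Fin.snoc_last]; exact hp.2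
        · rw [Fin.snoc_castSucc]; exact hp.1 k
      · intro r _
        exact Fin.snoc_init_self r
      · intro p _
        simp
      · intro r _
        rw [Fin.snoc_init_self]
    rw [hsplit]
    have hterm : ∀ r ∈ Fintype.piFinset (fun _ : Fin (d + 1) => O), ∑ x ∈ O,
          (if Function.Injective (Fin.snoc (α := fun _ => X) r x : Fin (d + 1 + 1) → X) then
            ∏ k, ZMod.stdAddChar (N := h) (u k * τ ((Fin.snoc (α := fun _ => X) r x : Fin (d + 1 + 1) → X) k))
            else 0) = - ∑ k, (if Function.Injective r then
              ∏ j, ZMod.stdAddChar (N := h) (v k j * τ (r j)) else 0) := by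
      intro r hr
      rw [Fintype.mem_piFinset] at hr
      by_cases hinj : Function.Injective r
      · have h1 : ∀ x ∈ O, (if Function.Injective (Fin.snoc (α := fun _ => X) r x : Fin (d + 1 + 1) → X) then
            ∏ k, ZMod.stdAddChar (N := h) (u k * τ ((Fin.snoc (α := fun _ => X) r x : Fin (d + 1 + 1) → X) k))
            else 0) = (∏ k, ZMod.stdAddChar (N := h) (u k.castSucc * τ (r k))) *
              (if x ∈ univ.image r then 0 else
                ZMod.stdAddChar (N := h) (u (Fin.last (d + 1)) * τ x)) := by
          intro x _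
          have h2 : Function.Injective (Fin.snoc (α := fun _ => X) r x : Fin (d + 1 + 1) → X) ↔
              x ∉ univ.image r := by
            constructor
            · intro h3 h4
              rw [mem_image] at h4
              obtain ⟨k, _, hk⟩ := h4
              have h5 : (Fin.snoc (α := fun _ => X) r x : Fin (d + 1 + 1) → X) k.castSucc =
                  (Fin.snoc (α := fun _ => X) r x : Fin (d + 1 + 1) → X) (Fin.last (d + 1)) := by
                rw [Fin.snoc_castSucc, Fin.snoc_last, hk]
              exact Fin.castSucc_ne_last k (h3 h5)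
            · intro h3 a b
              refine Fin.lastCases ?_ (fun a => ?_) a
              · refine Fin.lastCases ?_ (fun b => ?_) b
                · intro _; rfl
                · intro h4
                  rw [Fin.snoc_castSucc, Fin.snoc_last] at h4
                  exact absurd (mem_image.2 ⟨b, mem_univ _, h4.symm⟩) h3
              · refine Fin.lastCases ?_ (fun b => ?_) b
                · intro h4
                  rw [Fin.snoc_castSucc, Fin.snoc_last] at h4
                  exact absurd (mem_image.2 ⟨a, mem_univ _, h4⟩) h3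
                · intro h4
                  rw [Fin.snoc_castSucc, Fin.snoc_castSucc] at h4
                  rw [hinj h4]
          by_cases h3 : x ∈ univ.image r
          · rw [if_neg (by rw [h2]; exact fun h => h h3), if_pos h3, mul_zero]
          · rw [if_pos (h2.2 h3), if_neg h3, Fin.prod_univ_castSucc]
            simp only [Fin.snoc_castSucc, Fin.snoc_last]
        rw [sum_congr rfl h1, ← mul_sum]
        have h2 : ∑ x ∈ O, (if x ∈ univ.image r then 0 else
            ZMod.stdAddChar (N := h) (u (Fin.last (d + 1)) * τ x)) =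
            - ∑ k, ZMod.stdAddChar (N := h) (u (Fin.last (d + 1)) * τ (r k)) := by
          have h3 := hτ (u (Fin.last (d + 1))) hlast
          have h4 : ∑ x ∈ O, ZMod.stdAddChar (N := h) (u (Fin.last (d + 1)) * τ x) =
              ∑ x ∈ O, (if x ∈ univ.image r then
                ZMod.stdAddChar (N := h) (u (Fin.last (d + 1)) * τ x) else 0) +
              ∑ x ∈ O, (if x ∈ univ.image r then 0 else
                ZMod.stdAddChar (N := h) (u (Fin.last (d + 1)) * τ x)) := by
            rw [← sum_add_distrib]
            apply sum_congr rfl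
            intro x _
            split_ifs <;> simp
          have h5 : ∑ x ∈ O, (if x ∈ univ.image r then
                ZMod.stdAddChar (N := h) (u (Fin.last (d + 1)) * τ x) else 0) =
              ∑ k, ZMod.stdAddChar (N := h) (u (Fin.last (d + 1)) * τ (r k)) := by
            rw [← sum_filter]
            have h6 : O.filter (fun x => x ∈ univ.image r) = univ.image r := by
              ext x
              rw [mem_filter]
              constructor
              · exact fun h => h.2
              · intro h
                refine ⟨?_, h⟩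
                rw [mem_image] at h
                obtain ⟨k, _, rfl⟩ := h
                exact hr k
            rw [h6, sum_image fun a _ b _ hab => hinj hab]
          rw [h4, h5] at h3
          exact eq_neg_of_add_eq_zero_right h3
        rw [h2, mul_neg, mul_sum]
        congr 1
        apply sum_congr rfl
        intro k _
        rw [if_pos hinj, hv]
        simp only [add_mul, AddChar.map_add_eq_mul]
        rw [prod_mul_distrib]
        congr 1
        rw [prod_eq_single k]
        · rw [if_pos rfl]
        · intro j _ hj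
          rw [if_neg hj, zero_mul, AddChar.map_zero_eq_one]
        · intro h; exact absurd (mem_univ k) h
      · have h1 : ∀ x, ¬ Function.Injective (Fin.snoc (α := fun _ => X) r x : Fin (d + 1 + 1) → X) := by
          intro x h
          apply hinj
          intro a b hab
          have : (Fin.snoc (α := fun _ => X) r x : Fin (d + 1 + 1) → X) a.castSucc =
              (Fin.snoc (α := fun _ => X) r x : Fin (d + 1 + 1) → X) b.castSucc := by
            rw [Fin.snoc_castSucc, Fin.snoc_castSucc, hab]
          exact Fin.castSucc_injective _ (h this)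
        simp only [h1, hinj, if_false, sum_const_zero, neg_zero]
    rw [sum_congr rfl hterm, sum_neg_distrib, sum_comm]
    have hih : ∀ k : Fin (d + 1), ∑ r ∈ Fintype.piFinset (fun _ : Fin (d + 1) => O),
        (if Function.Injective r then ∏ j, ZMod.stdAddChar (N := h) (v k j * τ (r j)) else 0)
        = (-1) ^ d * (d.factorial : ℂ) * (#O : ℂ) := fun k => ih (v k) (hv0 k) (hvS k)
    simp only [hih, sum_const, card_univ, Fintype.card_fin, nsmul_eq_mul]
    rw [Nat.factorial_succ]
    push_cast
    ring

/-! ### injections of a disjoint union -/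

/-- injections of a disjoint union of fibres, the `i`-th fibre going into the `i`-th orbit -/
theorem sum_embedding_sigma {X ι : Type*} [Fintype X] [DecidableEq X] [Fintype ι] [DecidableEq ι]
    (d : ι → ℕ) (O : ι → Finset X) (hO : ∀ i j, i ≠ j → Disjoint (O i) (O j))
    (α : (Σ i, Fin (d i)) → X → ℂ) (hα : ∀ e x, x ∉ O e.1 → α e x = 0) :
    ∑ r : (Σ i, Fin (d i)) ↪ X, ∏ e, α e (r e)
      = ∏ i, ∑ r ∈ Fintype.piFinset (fun _ : Fin (d i) => O i),
        (if Function.Injective r then ∏ k, α ⟨i, k⟩ (r k) else 0) := by
  classical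
  rw [prod_univ_sum]
  have h1 : ∑ r : (Σ i, Fin (d i)) ↪ X, ∏ e, α e (r e) =
      ∑ r ∈ univ.filter (fun r : (Σ i, Fin (d i)) ↪ X => ∀ e, r e ∈ O e.1), ∏ e, α e (r e) := by
    rw [sum_filter]
    apply sum_congr rfl
    intro r _
    split_ifs with h
    · rfl
    · push Not at h
      obtain ⟨e, he⟩ := h
      exact prod_eq_zero (mem_univ e) (hα e _ he)
  have h2 : ∀ p : (i : ι) → Fin (d i) → X, (∏ i, (if Function.Injective (p i) then
      ∏ k, α ⟨i, k⟩ (p i k) else 0)) =
      if ∀ i, Function.Injective (p i) then ∏ i, ∏ k, α ⟨i, k⟩ (p i k) else 0 := by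
    intro p
    split_ifs with h
    · exact prod_congr rfl fun i _ => if_pos (h i)
    · push Not at h
      obtain ⟨i, hi⟩ := h
      exact prod_eq_zero (mem_univ i) (if_neg hi)
  simp only [h2]
  rw [h1, ← sum_filter]
  refine sum_bij (fun (r : (Σ i, Fin (d i)) ↪ X) _ => fun i k => r ⟨i, k⟩) ?_ ?_ ?_ ?_
  · intro r hr
    rw [mem_filter] at hr
    rw [mem_filter, Fintype.mem_piFinset]
    refine ⟨fun i => ?_, fun i a b hab => ?_⟩
    · rw [Fintype.mem_piFinset]
      exact fun k => hr.2 ⟨i, k⟩
    · have := r.injective hab
      simpa using this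
  · intro r _ r' _ h
    ext ⟨i, k⟩
    exact congrFun (congrFun h i) k
  · intro p hp
    rw [mem_filter, Fintype.mem_piFinset] at hp
    obtain ⟨hp1, hp2⟩ := hp
    have hp3 : ∀ i k, p i k ∈ O i := fun i k => Fintype.mem_piFinset.1 (hp1 i) k
    refine ⟨⟨fun e => p e.1 e.2, ?_⟩, ?_, ?_⟩
    · rintro ⟨i, a⟩ ⟨j, b⟩ hab
      simp only at hab
      by_cases hij : i = j
      · subst hij
        rw [hp2 i hab]
      · exfalso
        have := hO i j hij
        rw [Finset.disjoint_left] at this
        exact this (hp3 i a) (hab ▸ hp3 j b)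
    · rw [mem_filter]
      exact ⟨mem_univ _, fun e => hp3 e.1 e.2⟩
    · rfl
  · intro r _
    rw [Fintype.prod_sigma]

/-! ### the permanent -/

section perm

variable {m : ℕ} {E : Type*} [Fintype E] [DecidableEq E]

omit [Fintype E] in
theorem sum_expo_apply (w : Fin m → Option E) (e : E) :
    (∑ x, expo (w x)) e = #(univ.filter (fun x => w x = some e)) := by
  rw [Finsupp.coe_finsetSum, Finset.sum_apply, card_filter]
  apply sum_congr rfl
  intro x _
  rcases w x with _ | e'
  · simp [expo]
  · simp only [expo, Option.some.injEq]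
    rw [Finsupp.single_apply]

theorem cf_prod_embedding (a : E → Fin m → ℂ) :
    cf Finset.univ (∏ x : Fin m, (1 + ∑ e, X e * C (a e x) : MvPolynomial E ℂ))
      = ∑ c : E ↪ Fin m, ∏ e, a e (c e) := by
  classical
  rw [cf_prod_expand, ← sum_filter]
  symm
  have hpi : ∀ (c : E ↪ Fin m) (x : Fin m) (e : E),
      Function.partialInv c x = some e ↔ c e = x := fun c x e =>
    c.injective.isPartialInv e x
  refine sum_bij (fun (c : E ↪ Fin m) _ => Function.partialInv c) ?_ ?_ ?_ ?_
  · intro c _
    rw [mem_filter]
    refine ⟨mem_univ _, ?_⟩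
    ext e
    rw [sum_expo_apply, ind_apply, if_pos (mem_univ e)]
    have : univ.filter (fun x => Function.partialInv c x = some e) = {c e} := by
      ext x
      rw [mem_filter, mem_singleton, hpi]
      exact ⟨fun h => h.2.symm, fun h => ⟨mem_univ _, h.symm⟩⟩
    rw [this, card_singleton]
  · intro c _ c' _ h
    ext e
    have h1 : Function.partialInv c (c e) = some e := (hpi c _ e).2 rfl
    rw [h] at h1
    rw [(hpi c' _ e).1 h1]
  · intro w hw
    rw [mem_filter] at hw
    have h1 : ∀ e, ∃ x, w x = some e ∧ ∀ y, w y = some e → y = x := by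
      intro e
      have h2 := DFunLike.congr_fun hw.2 e
      rw [sum_expo_apply, ind_apply, if_pos (mem_univ e), card_eq_one] at h2
      obtain ⟨x, hx⟩ := h2
      refine ⟨x, ?_, ?_⟩
      · have : x ∈ univ.filter (fun x => w x = some e) := by rw [hx]; exact mem_singleton_self x
        exact (mem_filter.1 this).2
      · intro y hy
        have : y ∈ univ.filter (fun x => w x = some e) := mem_filter.2 ⟨mem_univ _, hy⟩
        rw [hx] at this
        exact mem_singleton.1 this
    choose c hc1 hc2 using h1
    have hinj : Function.Injective c := by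
      intro e e' he
      have := hc1 e
      rw [he, hc1 e'] at this
      exact (Option.some.inj this).symm
    refine ⟨⟨c, hinj⟩, mem_univ _, ?_⟩
    funext x
    apply Option.ext
    intro e
    show Function.partialInv c x = some e ↔ w x = some e
    rw [hinj.isPartialInv e x]
    exact ⟨fun h => h ▸ hc1 e, fun h => (hc2 e x h).symm⟩
  · intro c _
    have h1 : ∏ x, cofac a (Function.partialInv c x) x =
        ∏ x ∈ univ.map c, cofac a (Function.partialInv c x) x := by
      symm
      apply prod_subset (subset_univ _)
      intro x _ hx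
      have h2 : Function.partialInv c x = none := by
        rw [Option.eq_none_iff_forall_ne_some]
        intro e he
        exact hx (mem_map.2 ⟨e, mem_univ _, (hpi c x e).1 he⟩)
      rw [h2]
      rfl
    rw [h1, prod_map]
    apply prod_congr rfl
    intro e _
    rw [(hpi c (c e) e).2 rfl]
    rfl

omit [DecidableEq E] in
/-- permutations extending an injection -/
theorem exists_perm (c r : E ↪ Fin m) : ∃ τ : Equiv.Perm (Fin m), ∀ e, τ (c e) = r e := by
  classical
  let f : {x // x ∈ Set.range c} ≃ {x // x ∈ Set.range r} :=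
    (Equiv.ofInjective c c.injective).symm.trans (Equiv.ofInjective r r.injective)
  refine ⟨f.extendSubtype, fun e => ?_⟩
  rw [Equiv.extendSubtype_apply_of_mem f (c e) ⟨e, rfl⟩]
  simp only [f, Equiv.trans_apply]
  have : (Equiv.ofInjective c c.injective).symm ⟨c e, ⟨e, rfl⟩⟩ = e :=
    Equiv.ofInjective_symm_apply c.injective e
  rw [this]
  rfl

theorem card_perm_ext (c r : E ↪ Fin m) :
    #(univ.filter (fun σ : Equiv.Perm (Fin m) => ∀ e, σ (c e) = r e)) =
      (m - Fintype.card E).factorial := by
  classical
  -- the count does not depend on `r`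
  have h1 : ∀ r r' : E ↪ Fin m,
      #(univ.filter (fun σ : Equiv.Perm (Fin m) => ∀ e, σ (c e) = r e)) =
        #(univ.filter (fun σ : Equiv.Perm (Fin m) => ∀ e, σ (c e) = r' e)) := by
    intro r r'
    obtain ⟨τ, hτ⟩ := exists_perm r r'
    refine card_bij (fun σ _ => τ * σ) ?_ ?_ ?_
    · intro σ hσ
      rw [mem_filter] at hσ ⊢
      refine ⟨mem_univ _, fun e => ?_⟩
      rw [Equiv.Perm.mul_apply, hσ.2 e, hτ e]
    · intro σ _ σ' _ h
      exact mul_left_cancel h
    · intro σ hσ
      rw [mem_filter] at hσ
      refine ⟨τ⁻¹ * σ, ?_, by rw [mul_inv_cancel_left]⟩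
      rw [mem_filter]
      refine ⟨mem_univ _, fun e => ?_⟩
      rw [Equiv.Perm.mul_apply, hσ.2 e, ← hτ e]
      exact τ.symm_apply_apply _
  -- all permutations
  have h2 : ∑ r' : E ↪ Fin m, #(univ.filter (fun σ : Equiv.Perm (Fin m) => ∀ e, σ (c e) = r' e)) =
      m.factorial := by
    have h3 : ∀ r' : E ↪ Fin m,
        (univ.filter (fun σ : Equiv.Perm (Fin m) => ∀ e, σ (c e) = r' e)) =
        univ.filter (fun σ : Equiv.Perm (Fin m) => c.trans σ.toEmbedding = r') := by
      intro r'
      ext σ
      rw [mem_filter, mem_filter]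
      constructor
      · rintro ⟨h, h'⟩
        refine ⟨h, ?_⟩
        ext e
        exact congrArg Fin.val (h' e)
      · rintro ⟨h, h'⟩
        refine ⟨h, fun e => ?_⟩
        rw [← h']
        rfl
    simp only [h3]
    rw [← card_eq_sum_card_fiberwise (fun σ _ => mem_coe.2 (mem_univ _)), card_univ,
      Fintype.card_perm, Fintype.card_fin]
  rw [sum_congr rfl (fun r' _ => h1 r' r), sum_const, card_univ, Fintype.card_embedding_eq,
    Fintype.card_fin, smul_eq_mul] at h2
  have hle : Fintype.card E ≤ m := by
    have := Fintype.card_le_of_embedding c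
    rwa [Fintype.card_fin] at this
  have h3 := Nat.factorial_mul_descFactorial hle
  have hpos : 0 < m.descFactorial (Fintype.card E) := Nat.descFactorial_pos.2 hle
  rw [← h2, mul_comm] at h3
  exact (Nat.eq_of_mul_eq_mul_left hpos h3).symm

theorem sum_perm_embedding (c : E ↪ Fin m) (f : (E → Fin m) → ℂ) :
    ∑ σ : Equiv.Perm (Fin m), f (fun e => σ (c e)) =
      ((m - Fintype.card E).factorial : ℂ) * ∑ r : E ↪ Fin m, f r := by
  classical
  rw [← sum_fiberwise_of_maps_to (s := (univ : Finset (Equiv.Perm (Fin m))))
    (t := (univ : Finset (E ↪ Fin m))) (g := fun σ => c.trans σ.toEmbedding)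
    (fun _ _ => mem_univ _), mul_sum]
  apply sum_congr rfl
  intro r _
  have h1 : ∀ σ ∈ univ.filter (fun σ : Equiv.Perm (Fin m) => c.trans σ.toEmbedding = r),
      f (fun e => σ (c e)) = f r := by
    intro σ hσ
    rw [mem_filter] at hσ
    congr 1
    funext e
    rw [← hσ.2]
    rfl
  rw [sum_congr rfl h1, sum_const, nsmul_eq_mul]
  congr 2
  rw [← card_perm_ext c r]
  congr 1
  ext σ
  rw [mem_filter, mem_filter]
  constructor
  · rintro ⟨h, h'⟩
    refine ⟨h, fun e => ?_⟩
    rw [← h']
    rfl
  · rintro ⟨h, h'⟩
    refine ⟨h, ?_⟩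
    ext e
    exact congrArg Fin.val (h' e)

/-- the multilinear coefficient of the permanent at all ones plus rank one matrices -/
theorem cf_permanent (α β : E → Fin m → ℂ) :
    cf Finset.univ (Matrix.permanent (Matrix.of fun i j : Fin m =>
      (1 + ∑ e, X e * C (α e i * β e j) : MvPolynomial E ℂ)))
      = ((m - Fintype.card E).factorial : ℂ) * (∑ r : E ↪ Fin m, ∏ e, α e (r e))
        * ∑ c : E ↪ Fin m, ∏ e, β e (c e) := by
  rw [Matrix.permanent, map_sum]
  have h1 : ∀ σ ∈ (univ : Finset (Equiv.Perm (Fin m))),
      cf Finset.univ (∏ i, (Matrix.of fun i j : Fin m =>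
        (1 + ∑ e, X e * C (α e i * β e j) : MvPolynomial E ℂ)) (σ i) i) =
      ∑ c : E ↪ Fin m, (∏ e, α e (σ (c e))) * ∏ e, β e (c e) := by
    intro σ _
    have h2 := cf_prod_embedding (fun e x => α e (σ x) * β e x)
    simp only [Matrix.of_apply]
    rw [h2]
    exact sum_congr rfl fun c _ => prod_mul_distrib
  rw [sum_congr rfl h1, sum_comm, mul_sum]
  apply sum_congr rfl
  intro c _
  rw [← sum_mul, sum_perm_embedding c (fun r => ∏ e, α e (r e))]

end perm

end Pool.MP_35c45d_lc.OnePerm
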