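import Mathlib
import Pool.Agent.Work.MP_35c45d_lc.OPVertex
import Pool.Agent.Work.MP_35c45d_lc.OPEval
import Pool.Agent.Work.MP_35c45d_lc.ABLim

set_option autoImplicit false
set_option linter.unusedSectionVars false

namespace Pool.MP_35c45d_lc.Ab
open Finset MvPolynomial Pool.MP_35c45d_lc.PermEq2 Pool.MP_35c45d_lc.OnePerm

variable {m : ℕ} {ι : Type*} [Fintype ι] [DecidableEq ι] (d : ι → ℕ)

theorem sum_ne (O : ι → Finset (Fin m)) (hdis : ∀ i j, i ≠ j → Disjoint (O i) (O j))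
    (α : (Σ i, Fin (d i)) → Fin m → ℂ) (hα : ∀ e x, x ∉ O e.1 → α e x = 0)
    (hv : ∀ i, ∃ (_ : DecidablePred fun r : Fin (d i) → Fin m => Function.Injective r),
      ∑ r ∈ Fintype.piFinset (fun _ : Fin (d i) => O i),
      (if Function.Injective r then ∏ k, α ⟨i, k⟩ (r k) else 0) ≠ 0) :
    ∑ r : (Σ i, Fin (d i)) ↪ Fin m, ∏ e, α e (r e) ≠ 0 := by
  classical
  rw [sum_embedding_sigma d O hdis α hα, prod_ne_zero_iff]
  intro i _
  obtain ⟨I, hI⟩ := hv i
  intro h0
  apply hI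
  refine Eq.trans ?_ h0
  refine sum_congr rfl fun r _ => ?_
  split_ifs <;> rfl

/-- the multilinear coefficient of the permanent at all ones plus the test matrices -/
theorem cf_perm_ne (O O' : ι → Finset (Fin m)) (hdis : ∀ i j, i ≠ j → Disjoint (O i) (O j))
    (hdis' : ∀ i j, i ≠ j → Disjoint (O' i) (O' j))
    (α β : (Σ i, Fin (d i)) → Fin m → ℂ) (hα : ∀ e x, x ∉ O e.1 → α e x = 0)
    (hβ : ∀ e x, x ∉ O' e.1 → β e x = 0)
    (hv : ∀ i, ∃ (_ : DecidablePred fun r : Fin (d i) → Fin m => Function.Injective r),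
      ∑ r ∈ Fintype.piFinset (fun _ : Fin (d i) => O i),
      (if Function.Injective r then ∏ k, α ⟨i, k⟩ (r k) else 0) ≠ 0)
    (hv' : ∀ i, ∃ (_ : DecidablePred fun r : Fin (d i) → Fin m => Function.Injective r),
      ∑ r ∈ Fintype.piFinset (fun _ : Fin (d i) => O' i),
      (if Function.Injective r then ∏ k, β ⟨i, k⟩ (r k) else 0) ≠ 0)
    (φ : Equiv.Perm (Σ i, Fin (d i))) :
    cf univ (ev (fun _ => 1) (fun e q => α e q.1 * β (φ e) q.2) (permPoly m)) ≠ 0 := by
  have h1 : ev (fun _ => 1) (fun e q => α e q.1 * β (φ e) q.2) (permPoly m)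
      = Matrix.permanent (Matrix.of fun i j : Fin m =>
      (1 + ∑ e, X e * C (α e i * β (φ e) j) : MvPolynomial (Σ i, Fin (d i)) ℂ)) := by
    rw [permPoly, Matrix.permanent, Matrix.permanent, map_sum]
    refine sum_congr rfl fun σ _ => ?_
    rw [map_prod]
    refine prod_congr rfl fun i _ => ?_
    rw [Matrix.of_apply, ev_X, Matrix.of_apply, C_1]
  rw [h1, cf_permanent]
  refine mul_ne_zero (mul_ne_zero ?_ ?_) ?_
  · exact_mod_cast Nat.factorial_ne_zero _
  · exact sum_ne d O hdis α hα hv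
  · have h2 := sum_ne d O' hdis' β hβ hv'
    have h3 : ∑ c : (Σ i, Fin (d i)) ↪ Fin m, ∏ e, β (φ e) (c e)
        = ∑ c : (Σ i, Fin (d i)) ↪ Fin m, ∏ e, β e (c e) := by
      apply Fintype.sum_equiv (Equiv.embeddingCongr φ (Equiv.refl _))
      intro c
      rw [← Equiv.prod_comp φ (fun e => β e
        (((Equiv.embeddingCongr φ (Equiv.refl _)) c) e))]
      refine prod_congr rfl fun e _ => ?_
      simp
    rw [h3]
    exact h2

end Pool.MP_35c45d_lc.Ab
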