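import Mathlib

set_option autoImplicit false

namespace Pool.MP_35c45d_lc.Ab
open Finset

/-- permutations preserving a set -/
theorem glue_card_fix {E : Type*} [Fintype E] [DecidableEq E] (A : Finset E) :
    Fintype.card {ψ : Equiv.Perm E // ∀ x, x ∈ A ↔ ψ x ∈ A} ≤
      (#A).factorial * (Fintype.card E - #A).factorial := by
  classical
  let f : {ψ : Equiv.Perm E // ∀ x, x ∈ A ↔ ψ x ∈ A} →
      Equiv.Perm {x // x ∈ A} × Equiv.Perm {x // x ∉ A} := fun ψ =>
    (ψ.1.subtypePerm fun x => (ψ.2 x).symm, ψ.1.subtypePerm fun x => (not_congr (ψ.2 x)).symm)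
  have hf : Function.Injective f := by
    intro ψ ψ' h
    apply Subtype.ext
    ext x
    by_cases hx : x ∈ A
    · have h1 := congrArg (fun q => ((q.1 ⟨x, hx⟩ : {x // x ∈ A}) : E)) h
      exact h1
    · have h1 := congrArg (fun q => ((q.2 ⟨x, hx⟩ : {x // x ∉ A}) : E)) h
      exact h1
  have h := Fintype.card_le_of_injective f hf
  rwa [Fintype.card_prod, Fintype.card_perm, Fintype.card_perm, Fintype.card_coe,
    Fintype.card_subtype_compl, Fintype.card_coe] at h

/-- counting gluings: `φ` glues row half edges to column half edges, `A` is a set of edges of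
size `a` of total label `ρ` -/
theorem card_glue {X : Type*} [CommGroup X] {P : Type*} [Fintype P] [DecidableEq P] (d : P → ℕ)
    {LR LC : P → Type*} [∀ p, Fintype (LR p)] [∀ p, Fintype (LC p)]
    (rl : (p : P) → LR p → Fin (d p) → X) (cl : (p : P) → LC p → Fin (d p) → X)
    (ρ : X) (a B : ℕ)
    (hB : Nat.card {q : ((p : P) → LR p × Finset (Fin (d p))) ×
        ((p : P) → LC p × Finset (Fin (d p))) //
      (∏ p, ∏ k ∈ (q.1 p).2, rl p (q.1 p).1 k) * (∏ p, ∏ k ∈ (q.2 p).2, cl p (q.2 p).1 k) = ρ}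
        ≤ B) :
    Nat.card {t : Equiv.Perm (Σ p, Fin (d p)) × ((p : P) → LR p) × ((p : P) → LC p) ×
        Finset (Σ p, Fin (d p)) //
      #t.2.2.2 = a ∧ ∏ e ∈ t.2.2.2, (rl e.1 (t.2.1 e.1) e.2 *
        cl (t.1 e).1 (t.2.2.1 (t.1 e).1) (t.1 e).2) = ρ}
      ≤ a.factorial * ((∑ p, d p) - a).factorial * B := by
  classical
  -- the fibres of a set of half edges
  let fib : Finset (Σ p, Fin (d p)) → (p : P) → Finset (Fin (d p)) := fun A p =>
    univ.filter fun k => (⟨p, k⟩ : Σ p, Fin (d p)) ∈ A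
  have hfib : ∀ A A' : Finset (Σ p, Fin (d p)), fib A = fib A' → A = A' := by
    intro A A' h
    ext ⟨p, k⟩
    have h1 : k ∈ fib A p ↔ k ∈ fib A' p := by rw [h]
    simpa [fib] using h1
  have hprod : ∀ (A : Finset (Σ p, Fin (d p))) (g : (Σ p, Fin (d p)) → X),
      ∏ e ∈ A, g e = ∏ p, ∏ k ∈ fib A p, g ⟨p, k⟩ := by
    intro A g
    have h1 : A = (univ : Finset P).sigma (fib A) := by
      ext ⟨p, k⟩
      simp [fib]
    conv_lhs => rw [h1]
    rw [Finset.prod_sigma]
  let Φ : Equiv.Perm (Σ p, Fin (d p)) × ((p : P) → LR p) × ((p : P) → LC p) ×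
      Finset (Σ p, Fin (d p)) → ((p : P) → LR p × Finset (Fin (d p))) ×
        ((p : P) → LC p × Finset (Fin (d p))) := fun t =>
    (fun p => (t.2.1 p, fib t.2.2.2 p), fun p => (t.2.2.1 p, fib (t.2.2.2.map t.1.toEmbedding) p))
  rw [Nat.card_eq_fintype_card, Fintype.card_subtype]
  rw [Nat.card_eq_fintype_card, Fintype.card_subtype] at hB
  refine (Finset.card_le_mul_card_image (f := Φ) _
    (a.factorial * ((∑ p, d p) - a).factorial) ?_).trans ?_
  · -- the fibres
    intro q hq
    rw [Finset.mem_image] at hq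
    obtain ⟨t0, ht0, rfl⟩ := hq
    rw [Finset.mem_filter] at ht0
    obtain ⟨φ0, l0, m0, A0⟩ := t0
    have hA0 : #A0 = a := ht0.2.1
    have hcard := glue_card_fix A0
    rw [hA0, Fintype.card_sigma] at hcard
    simp only [Fintype.card_fin] at hcard
    refine le_trans ?_ hcard
    rw [← Fintype.card_coe]
    refine Fintype.card_le_of_injective (fun t => ⟨t.1.1.trans φ0.symm, ?_⟩) ?_
    · obtain ⟨⟨φ, l, m, A⟩, ht⟩ := t
      rw [Finset.mem_filter] at ht
      have h1 := ht.2
      simp only [Φ, Prod.mk.injEq, funext_iff] at h1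
      have hA : A = A0 := hfib _ _ (funext fun p => (h1.1 p).2)
      have hB' : A.map φ.toEmbedding = A0.map φ0.toEmbedding :=
        hfib _ _ (funext fun p => (h1.2 p).2)
      rw [hA] at hB'
      intro x
      simp only [Equiv.trans_apply]
      have h2 : φ x ∈ A0.map φ.toEmbedding ↔ φ x ∈ A0.map φ0.toEmbedding := by rw [hB']
      rw [Finset.mem_map_equiv, Finset.mem_map_equiv, Equiv.symm_apply_apply] at h2
      exact h2
    · rintro ⟨⟨φ, l, m, A⟩, ht⟩ ⟨⟨φ', l', m', A'⟩, ht'⟩ h
      rw [Finset.mem_filter] at ht ht'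
      have h1 := ht.2
      have h1' := ht'.2
      simp only [Φ, Prod.mk.injEq, funext_iff] at h1 h1'
      have hA : A = A0 := hfib _ _ (funext fun p => (h1.1 p).2)
      have hA' : A' = A0 := hfib _ _ (funext fun p => (h1'.1 p).2)
      have hl : l = l0 := funext fun p => (h1.1 p).1
      have hl' : l' = l0 := funext fun p => (h1'.1 p).1
      have hm : m = m0 := funext fun p => (h1.2 p).1
      have hm' : m' = m0 := funext fun p => (h1'.2 p).1
      have hφ : φ = φ' := by
        have h2 := congrArg Subtype.val h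
        simp only at h2
        ext1 x
        have h3 := congrArg (fun e : Equiv.Perm (Σ p, Fin (d p)) => φ0 (e x)) h2
        simpa using h3
      subst hA hl hm hφ
      subst hA' hl' hm'
      rfl
  · -- the image
    refine Nat.mul_le_mul_left _ ((Finset.card_le_card ?_).trans hB)
    intro q hq
    rw [Finset.mem_image] at hq
    obtain ⟨⟨φ, l, m, A⟩, ht, rfl⟩ := hq
    rw [Finset.mem_filter] at ht ⊢
    refine ⟨Finset.mem_univ _, ?_⟩
    have h1 := ht.2.2
    simp only [Φ] at h1 ⊢
    rw [Finset.prod_mul_distrib] at h1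
    rw [← h1, hprod A]
    congr 1
    rw [← hprod (A.map φ.toEmbedding) (fun e => cl e.1 (m e.1) e.2), Finset.prod_map]
    rfl

end Pool.MP_35c45d_lc.Ab
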