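import Mathlib
import Pool.Agent.Work.MP_35c45d_lc.OPEval

set_option autoImplicit false
set_option linter.unusedSectionVars false

namespace Pool.MP_35c45d_lc.Ab
open Matrix Finset Pool.MP_35c45d_lc.PermEq Pool.MP_35c45d_lc.PermEq2 Pool.MP_35c45d_lc.OnePerm

section spec

variable {n : Type*} [Fintype n] [DecidableEq n] {J β : Type*}
  (P : J → Matrix n n ℂ) (M : β → Matrix n n ℂ) (c : J → β → ℂ)

/-- the weights of a prefix of a nonzero product of traces are realised by a nonzero matrix -/
theorem tw_prefix_fam [Nonempty n] (hP : ∀ j, (P j).det ≠ 0) (L : List ℕ) (l₁ l₂ : List β)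
    (h : ∀ j, ∀ b ∈ l₁ ++ l₂, M b * P j = c j b • (P j * M b))
    (hlen : (l₁ ++ l₂).length = L.sum)
    (hne : tw L ((l₁ ++ l₂).map M) ≠ 0) :
    ∃ X : Matrix n n ℂ, X ≠ 0 ∧ ∀ j, X * P j = (l₁.map (c j)).prod • (P j * X) := by
  induction L generalizing l₁ with
  | nil =>
    have h1 : l₁ = [] := by
      have h2 : l₁ ++ l₂ = [] := by simpa using hlen
      exact (List.append_eq_nil_iff.mp h2).1
    subst h1
    exact ⟨1, one_ne_zero, fun j => by simp⟩
  | cons p L ih =>
    by_cases hp : p ≤ l₁.length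
    · obtain ⟨a, b, hab, ha⟩ : ∃ a b, l₁ = a ++ b ∧ a.length = p :=
        ⟨l₁.take p, l₁.drop p, (List.take_append_drop p l₁).symm, by simp [hp]⟩
      subst hab
      have e1 : ((a ++ b ++ l₂).map M).take p = a.map M := by
        rw [List.append_assoc, List.map_append, List.take_left' (by simp [ha])]
      have e2 : ((a ++ b ++ l₂).map M).drop p = (b ++ l₂).map M := by
        rw [List.append_assoc, List.map_append, List.drop_left' (by simp [ha])]
      rw [tw, e1, e2] at hne
      have h1 := left_ne_zero_of_mul hne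
      have h2 := right_ne_zero_of_mul hne
      have h4 : ∀ j, (a.map (c j)).prod = 1 := fun j =>
        trace_zero_or (P j) (hP j) _ _
          (prod_intertwine (P j) M (c j) a fun x hx => h j x (by simp [hx])) h1
      obtain ⟨X, hX1, hX2⟩ := ih b (fun j x hx => h j x (by
        rw [List.append_assoc]
        exact List.mem_append_right _ hx)) (by
          rw [List.append_assoc, List.length_append, List.sum_cons, ha] at hlen
          omega) h2
      refine ⟨X, hX1, fun j => ?_⟩
      rw [List.map_append, List.prod_append, h4, one_mul]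
      exact hX2 j
    · push Not at hp
      have e1 : ((l₁ ++ l₂).map M).take p = l₁.map M ++ (l₂.map M).take (p - l₁.length) := by
        rw [List.map_append, List.take_append, List.take_of_length_le (by simp; omega)]
        simp
      rw [tw, e1, List.prod_append] at hne
      have h1 := left_ne_zero_of_mul hne
      have h2 : (l₁.map M).prod ≠ 0 := by
        intro h0
        rw [h0, zero_mul, trace_zero] at h1
        exact h1 rfl
      exact ⟨_, h2, fun j => prod_intertwine (P j) M (c j) l₁ fun x hx => h j x (by simp [hx])⟩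

end spec

section cut

variable {n : Type*} [Fintype n] [DecidableEq n] {E : Type*} [Fintype E] [DecidableEq E]
  {J : Type*}

/-- if the multilinear coefficient of `det (1 + N)` does not vanish, some set of about `k` letters
has weights which are realised by a nonzero matrix -/
theorem exists_cut_fam [Nonempty n] (N : Matrix n n (MvPolynomial E ℂ)) (P : J → Matrix n n ℂ)
    (hP : ∀ j, (P j).det ≠ 0) (w : J → E → ℂ)
    (hw : ∀ j, ∀ T : Finset E, cfM T N * P j = (∏ e ∈ T, w j e) • (P j * cfM T N)) (D k : ℕ)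
    (hD : ∀ T : Finset E, D < #T → cfM T N = 0) (hk : k ≤ Fintype.card E)
    (hne : cf univ (1 + N).det ≠ 0) :
    ∃ A : Finset E, k ≤ #A ∧ #A ≤ k + D ∧
      ∃ X : Matrix n n ℂ, X ≠ 0 ∧ ∀ j, X * P j = (∏ e ∈ A, w j e) • (P j * X) := by
  by_contra hcon
  push Not at hcon
  apply hne
  have h1 : ∀ x ∈ Submodule.span ℂ (traceProds N), cf univ x = 0 := by
    intro x hx
    induction hx using Submodule.span_induction with
    | mem x hx =>
      obtain ⟨L, rfl⟩ := hx
      rw [cf_prod_trace_pow, ← psum_zero (A := ℂ) L.sum (Finset.univ : Finset E)]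
      refine psum_congr _ _ _ _ fun l hl hp => ?_
      by_contra htw
      have hcard : ∀ T ∈ l, #T ≤ D := by
        intro T hT
        by_contra hT2
        push Not at hT2
        apply htw
        apply tw_zero_of_mem _ _ (by simp [hl])
        rw [List.mem_map]
        exact ⟨T, hT, hD T hT2⟩
      obtain ⟨l₁, l₂, e1, e2, e3, -, -⟩ := hp.exists_cut D k hcard (by rwa [Finset.card_univ])
      subst e1
      obtain ⟨X, hX1, hX2⟩ := tw_prefix_fam P (fun T => cfM T N) (fun j T => ∏ e ∈ T, w j e) hP L
        l₁ l₂ (fun j T _ => hw j T) hl htw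
      obtain ⟨j, hj⟩ := hcon (uni l₁) e2 e3 X hX1
      apply hj
      have := hX2 j
      rwa [prod_prefix hp (w j)] at this
    | zero => rw [map_zero]
    | add x y _ _ hx hy => rw [map_add, hx, hy, add_zero]
    | smul c x _ hx => rw [map_smul, hx, smul_zero]
  exact h1 _ (det_one_add_mem_span _)

end cut

section main

open MvPolynomial

variable {τ : Type*} {E : Type*} [Fintype E] [DecidableEq E] {n : ℕ} {J : Type*}

/-- The evaluation of the determinant at a nonsingular invariant base point, for a family of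
permutations of the variables. -/
theorem exists_cut_ev_fam (B : τ → ℂ) (Z : E → τ → ℂ) (g : J → τ → τ)
    (hB : ∀ j q, B (g j q) = B q)
    (w : J → E → ℂ) (hZ : ∀ j e q, Z e (g j q) = w j e * Z e q)
    (A : Matrix (Fin n) (Fin n) (MvPolynomial τ ℂ)) (hK : (A.map (eval B)).det ≠ 0)
    (G H : J → Matrix (Fin n) (Fin n) ℂ) (hH : ∀ j, (H j).det ≠ 0)
    (hA : ∀ j, A.map (rename (g j)) = (G j).map C * A * (H j).map C) (hn : 1 ≤ n)
    (D k : ℕ) (hdeg : ∀ i j, (A i j).totalDegree ≤ D) (hk : k ≤ Fintype.card E)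
    (hne : cf Finset.univ (ev B Z A.det) ≠ 0) :
    ∃ A' : Finset E, k ≤ A'.card ∧ A'.card ≤ k + D ∧
      ∃ X : Matrix (Fin n) (Fin n) ℂ, X ≠ 0 ∧
        ∀ j, X * H j = (∏ e ∈ A', w j e) • (H j * X) := by
  have : Nonempty (Fin n) := ⟨⟨0, hn⟩⟩
  set K : Matrix (Fin n) (Fin n) ℂ := A.map (eval B) with hKdef
  have hu : IsUnit K.det := IsUnit.mk0 _ hK
  set N : Matrix (Fin n) (Fin n) (MvPolynomial E ℂ) := K⁻¹.map C * A.map (ev B Z) - 1 with hN
  -- the determinant
  have hdet : ev B Z A.det = C K.det * (1 + N).det := by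
    have h1 : ev B Z A.det = (A.map (ev B Z)).det := by
      rw [← AlgHom.coe_toRingHom, RingHom.map_det]
      rfl
    have h2 : A.map (ev B Z) = K.map C * (1 + N) := by
      rw [hN, add_sub_cancel, ← mul_assoc, ← Matrix.map_mul, Matrix.mul_nonsing_inv _ hu,
        Matrix.map_one C C_0 C_1, one_mul]
    rw [h1, h2, det_mul]
    congr 1
    exact (RingHom.map_det (C : ℂ →+* MvPolynomial E ℂ) K).symm
  have hne' : cf Finset.univ (1 + N).det ≠ 0 := by
    intro h0
    apply hne
    rw [hdet, ← smul_eq_C_mul, map_smul, h0, smul_zero]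
  -- coefficient matrices
  have hW0 : cfM ∅ (A.map (ev B Z)) = K := by
    ext i j
    rw [cfM, map_apply, map_apply, cf_empty_ev, hKdef, map_apply]
  have hWT : ∀ j, ∀ T : Finset E, (∏ e ∈ T, w j e) • cfM T (A.map (ev B Z))
      = G j * cfM T (A.map (ev B Z)) * H j := by
    intro j T
    have h1 : cfM T ((A.map (rename (g j))).map (ev B Z))
        = (∏ e ∈ T, w j e) • cfM T (A.map (ev B Z)) := by
      ext i i'
      rw [cfM, map_apply, map_apply, map_apply, ev_rename B Z (g j) (hB j)]
      have h2 : (fun e q => Z e (g j q)) = fun e => w j e • Z e := by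
        funext e q
        rw [hZ, Pi.smul_apply, smul_eq_mul]
      rw [h2, cf_ev_smul, Matrix.smul_apply, smul_eq_mul]
      rfl
    have hC : ∀ M : Matrix (Fin n) (Fin n) ℂ,
        (M.map C : Matrix _ _ (MvPolynomial τ ℂ)).map (ev B Z) = M.map C := by
      intro M
      ext i j : 1
      rw [map_apply, map_apply, map_apply]
      exact (ev B Z).commutes _
    rw [← h1, hA, Matrix.map_mul, Matrix.map_mul, hC, hC, mul_assoc, cfM_C_mul', cfM_mul_C',
      mul_assoc]
  have e0 : ∀ j, K = G j * K * H j := by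
    intro j
    have := hWT j ∅
    rwa [hW0, Finset.prod_empty, one_smul] at this
  have huH : ∀ j, IsUnit (H j).det := fun j => IsUnit.mk0 _ (hH j)
  have eH : ∀ j, H j * K⁻¹ * G j = K⁻¹ := by
    intro j
    have h1 : G j * K * H j * (H j)⁻¹ = K * (H j)⁻¹ := by rw [← e0 j]
    rw [mul_assoc, Matrix.mul_nonsing_inv _ (huH j), mul_one] at h1
    have h2 : G j = K * (H j)⁻¹ * K⁻¹ := by
      rw [← h1, mul_assoc, Matrix.mul_nonsing_inv _ hu, mul_one]
    rw [h2]
    calc H j * K⁻¹ * (K * (H j)⁻¹ * K⁻¹) = H j * (K⁻¹ * K) * (H j)⁻¹ * K⁻¹ := by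
          simp only [mul_assoc]
      _ = K⁻¹ := by
        rw [Matrix.nonsing_inv_mul _ hu, mul_one, Matrix.mul_nonsing_inv _ (huH j), one_mul]
  have hNc : ∀ T : Finset E, cfM T N = K⁻¹ * cfM T (A.map (ev B Z)) - if T = ∅ then 1 else 0 := by
    intro T
    rw [hN, cfM_sub', cfM_C_mul', cfM_one]
  refine exists_cut_fam N H hH w ?_ D k ?_ hk hne'
  · intro j T
    rw [hNc, sub_mul, mul_sub, smul_sub]
    congr 1
    · rw [← mul_smul_comm, ← mul_smul_comm, hWT j T]
      calc K⁻¹ * cfM T (A.map (ev B Z)) * H j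
          = (H j * K⁻¹ * G j) * cfM T (A.map (ev B Z)) * H j := by rw [eH]
        _ = _ := by simp only [mul_assoc]
    · split_ifs with hT
      · subst hT; simp
      · simp
  · intro T hT
    rw [hNc]
    have h1 : T ≠ ∅ := by
      rintro rfl
      simp at hT
    have h2 : cfM T (A.map (ev B Z)) = 0 := by
      ext i j
      rw [cfM, map_apply, map_apply, cf_ev_eq_zero B Z _ D (hdeg i j) T hT]
      rfl
    rw [if_neg h1, h2, mul_zero, sub_zero]

/-- the same at any invariant base point, if the matrix is nonsingular at some invariant point -/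
theorem exists_cut_ev_fam' (B X₀ : τ → ℂ) (Z : E → τ → ℂ) (g : J → τ → τ)
    (hB : ∀ j q, B (g j q) = B q) (hX : ∀ j q, X₀ (g j q) = X₀ q)
    (w : J → E → ℂ) (hZ : ∀ j e q, Z e (g j q) = w j e * Z e q)
    (A : Matrix (Fin n) (Fin n) (MvPolynomial τ ℂ)) (hK : (A.map (eval X₀)).det ≠ 0)
    (G H : J → Matrix (Fin n) (Fin n) ℂ) (hH : ∀ j, (H j).det ≠ 0)
    (hA : ∀ j, A.map (rename (g j)) = (G j).map C * A * (H j).map C) (hn : 1 ≤ n)
    (D k : ℕ) (hdeg : ∀ i j, (A i j).totalDegree ≤ D) (hk : k ≤ Fintype.card E)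
    (hne : cf Finset.univ (ev B Z A.det) ≠ 0) :
    ∃ A' : Finset E, k ≤ A'.card ∧ A'.card ≤ k + D ∧
      ∃ X : Matrix (Fin n) (Fin n) ℂ, X ≠ 0 ∧
        ∀ j, X * H j = (∏ e ∈ A', w j e) • (H j * X) := by
  by_contra hcon
  apply hne
  set P : Polynomial ℂ := coeff (ind Finset.univ) (evP B X₀ Z A.det) with hP
  set p : Polynomial ℂ := lineE B X₀ A.det with hp
  have hPe : ∀ ε, P.eval ε = cf Finset.univ (ev (lineB B X₀ ε) Z A.det) := by
    intro ε
    rw [← evP_map, cf_apply, coeff_map]
    rfl
  have hpe : ∀ ε, p.eval ε = (A.map (eval (lineB B X₀ ε))).det := by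
    intro ε
    rw [hp, lineE_eval, RingHom.map_det]
    rfl
  have h1 : P * p = 0 := by
    apply Polynomial.funext
    intro ε
    rw [Polynomial.eval_mul, Polynomial.eval_zero, mul_eq_zero]
    by_cases h0 : p.eval ε = 0
    · exact Or.inr h0
    · left
      rw [hPe]
      rw [hpe] at h0
      by_contra h3
      exact hcon (exists_cut_ev_fam (lineB B X₀ ε) Z g
        (fun j q => by rw [lineB, lineB, hB, hX]) w hZ A h0 G H hH hA hn D k hdeg hk h3)
  have h2 : p ≠ 0 := by
    intro h0
    have h3 := hpe 1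
    rw [h0, Polynomial.eval_zero] at h3
    apply hK
    have h4 : lineB B X₀ 1 = X₀ := by funext q; simp [lineB]
    rw [h3, h4]
  have h3 : P = 0 := (mul_eq_zero.mp h1).resolve_right h2
  have h4 := hPe 0
  rw [h3, Polynomial.eval_zero] at h4
  have h5 : lineB B X₀ 0 = B := by funext q; simp [lineB]
  rw [h4, h5]

end main

section indep

variable {n : Type*} [Fintype n] [DecidableEq n] {J ι : Type*}

/-- matrices with distinct systems of weights are linearly independent -/
theorem indep_fam (P : J → Matrix n n ℂ) (hP : ∀ j, (P j).det ≠ 0) (w : ι → J → ℂ)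
    (hw : Function.Injective w) (X : ι → Matrix n n ℂ) (hX : ∀ i, X i ≠ 0)
    (h : ∀ i j, X i * P j = w i j • (P j * X i)) : LinearIndependent ℂ X := by
  classical
  rw [linearIndependent_iff']
  intro s
  induction s using Finset.strongInduction with
  | _ s ih =>
    intro a ha i hi
    -- eliminate another element
    by_cases hs : ∃ i' ∈ s, i' ≠ i ∧ a i' ≠ 0
    · obtain ⟨i', hi', hne, hai'⟩ := hs
      exfalso
      obtain ⟨j, hj⟩ : ∃ j, w i' j ≠ w i j := by
        by_contra hcon
        push Not at hcon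
        exact hne (hw (funext hcon))
      have hu : IsUnit (P j).det := IsUnit.mk0 _ (hP j)
      have h1 : ∑ x ∈ s, (a x * w x j) • X x = 0 := by
        have h2 : (P j)⁻¹ * (∑ x ∈ s, a x • X x) * P j = ∑ x ∈ s, (a x * w x j) • X x := by
          rw [Finset.mul_sum, Finset.sum_mul]
          refine Finset.sum_congr rfl fun x _ => ?_
          rw [mul_smul_comm, smul_mul_assoc, mul_assoc, h x j, mul_smul_comm, ← mul_assoc,
            Matrix.nonsing_inv_mul _ hu, one_mul, smul_smul]
        rw [← h2, ha]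
        simp
      have h3 : ∑ x ∈ s.erase i, (a x * (w x j - w i j)) • X x = 0 := by
        have h4 : ∑ x ∈ s, (a x * (w x j - w i j)) • X x = 0 := by
          have h5 : ∀ x, (a x * (w x j - w i j)) • X x
              = (a x * w x j) • X x - w i j • (a x • X x) := by
            intro x
            rw [smul_smul, ← sub_smul]
            congr 1
            ring
          simp only [h5]
          rw [Finset.sum_sub_distrib, h1, ← Finset.smul_sum, ha, smul_zero, sub_zero]
        rw [← Finset.add_sum_erase s _ hi] at h4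
        simpa using h4
      have h6 := ih (s.erase i) (Finset.erase_ssubset hi) _ h3 i'
        (Finset.mem_erase.mpr ⟨hne, hi'⟩)
      rcases mul_eq_zero.mp h6 with h7 | h7
      · exact hai' h7
      · exact hj (sub_eq_zero.mp h7)
    · push Not at hs
      have h1 : ∑ x ∈ s, a x • X x = a i • X i :=
        Finset.sum_eq_single i (fun x hx hxi => by rw [hs x hx hxi, zero_smul])
          (fun h => absurd hi h)
      rw [h1] at ha
      exact (smul_eq_zero.mp ha).resolve_right (hX i)

theorem card_fam_le [Fintype ι] (P : J → Matrix n n ℂ) (hP : ∀ j, (P j).det ≠ 0) (w : ι → J → ℂ)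
    (hw : Function.Injective w) (X : ι → Matrix n n ℂ) (hX : ∀ i, X i ≠ 0)
    (h : ∀ i j, X i * P j = w i j • (P j * X i)) : Fintype.card ι ≤ Fintype.card n ^ 2 := by
  have h1 := (indep_fam P hP w hw X hX h).fintype_card_le_finrank
  rwa [Module.finrank_matrix, Module.finrank_self, mul_one, ← sq] at h1

end indep

end Pool.MP_35c45d_lc.Ab
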