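import Mathlib
import Pool.Agent.Work.MP_35c45d_lc.ABSpec

set_option autoImplicit false
set_option linter.unusedSectionVars false

namespace Pool.MP_35c45d_lc.Ab
open Matrix MvPolynomial Finset

variable {m n : ℕ}

/-- renaming of the variables by a simultaneous permutation of rows and columns -/
def act (π : Equiv.Perm (Fin m)) (q : Fin m × Fin m) : Fin m × Fin m := (π q.1, π q.2)

/-- plain equivariance -/
def PlainAt (A : Matrix (Fin n) (Fin n) (MvPolynomial (Fin m × Fin m) ℂ))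
    (π : Equiv.Perm (Fin m)) : Prop :=
  ∃ G H : Matrix (Fin n) (Fin n) ℂ, G.det ≠ 0 ∧ H.det ≠ 0 ∧
    A.map (rename (act π)) = G.map C * A * H.map C

/-- transposed equivariance -/
def TransAt (A : Matrix (Fin n) (Fin n) (MvPolynomial (Fin m × Fin m) ℂ))
    (π : Equiv.Perm (Fin m)) : Prop :=
  ∃ G H : Matrix (Fin n) (Fin n) ℂ, G.det ≠ 0 ∧ H.det ≠ 0 ∧
    A.map (rename (act π)) = G.map C * A.transpose * H.map C

theorem map_rename_mul (A : Matrix (Fin n) (Fin n) (MvPolynomial (Fin m × Fin m) ℂ))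
    (π π' : Equiv.Perm (Fin m)) :
    A.map (rename (act (π * π'))) = (A.map (rename (act π'))).map (rename (act π)) := by
  ext1 i j
  rw [map_apply, map_apply, map_apply, rename_rename]
  rfl

theorem map_rename_C (π : Equiv.Perm (Fin m)) (M : Matrix (Fin n) (Fin n) ℂ) :
    (M.map C : Matrix _ _ (MvPolynomial (Fin m × Fin m) ℂ)).map (rename (act π)) = M.map C := by
  ext1 i j
  exact rename_C _ _

theorem plain_mul (A : Matrix (Fin n) (Fin n) (MvPolynomial (Fin m × Fin m) ℂ))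
    (π π' : Equiv.Perm (Fin m)) (h : PlainAt A π) (h' : PlainAt A π') : PlainAt A (π * π') := by
  obtain ⟨G, H, hG, hH, e⟩ := h
  obtain ⟨G', H', hG', hH', e'⟩ := h'
  refine ⟨G' * G, H * H', by rw [det_mul]; exact mul_ne_zero hG' hG,
    by rw [det_mul]; exact mul_ne_zero hH hH', ?_⟩
  rw [map_rename_mul, e', Matrix.map_mul, Matrix.map_mul, map_rename_C, map_rename_C, e,
    Matrix.map_mul, Matrix.map_mul]
  simp only [mul_assoc]

theorem trans_mul (A : Matrix (Fin n) (Fin n) (MvPolynomial (Fin m × Fin m) ℂ))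
    (π π' : Equiv.Perm (Fin m)) (h : TransAt A π) (h' : TransAt A π') : PlainAt A (π * π') := by
  obtain ⟨G, H, hG, hH, e⟩ := h
  obtain ⟨G', H', hG', hH', e'⟩ := h'
  refine ⟨G' * Hᵀ, Gᵀ * H', by rw [det_mul, det_transpose]; exact mul_ne_zero hG' hH,
    by rw [det_mul, det_transpose]; exact mul_ne_zero hG hH', ?_⟩
  have e2 : (A.transpose).map (rename (act π)) = (A.map (rename (act π))).transpose := rfl
  rw [map_rename_mul, e', Matrix.map_mul, Matrix.map_mul, map_rename_C, map_rename_C, e2, e,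
    transpose_mul, transpose_mul, transpose_transpose, Matrix.map_mul, Matrix.map_mul,
    transpose_map, transpose_map]
  simp only [mul_assoc]

variable (Γ : Subgroup (Equiv.Perm (Fin m)))

open Classical in
/-- the number of characters realised by nonzero matrices is at most `2 n²` -/
theorem card_real_le (A : Matrix (Fin n) (Fin n) (MvPolynomial (Fin m × Fin m) ℂ))
    (hA : ∀ γ : Γ, PlainAt A γ ∨ TransAt A γ)
    (H : {γ : Γ // PlainAt A (γ : Equiv.Perm (Fin m))} → Matrix (Fin n) (Fin n) ℂ)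
    (hH : ∀ j, (H j).det ≠ 0) (R : Finset (Γ →* ℂˣ))
    (hR : ∀ χ ∈ R, ∃ X : Matrix (Fin n) (Fin n) ℂ, X ≠ 0 ∧
      ∀ j, X * H j = ((χ j.1 : ℂˣ) : ℂ) • (H j * X)) : #R ≤ 2 * n ^ 2 := by
  let f : (Γ →* ℂˣ) → ({γ : Γ // PlainAt A (γ : Equiv.Perm (Fin m))} → ℂ) :=
    fun χ j => ((χ j.1 : ℂˣ) : ℂ)
  have h1 : #(R.image f) ≤ n ^ 2 := by
    have h2 : ∀ w : {w // w ∈ R.image f}, ∃ X : Matrix (Fin n) (Fin n) ℂ, X ≠ 0 ∧
        ∀ j, X * H j = w.1 j • (H j * X) := by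
      rintro ⟨w, hw⟩
      obtain ⟨χ, hχ, rfl⟩ := mem_image.mp hw
      exact hR χ hχ
    choose X hX1 hX2 using h2
    have h3 := card_fam_le H hH (fun w : {w // w ∈ R.image f} => w.1) Subtype.val_injective X
      hX1 hX2
    simpa using h3
  have h2 : ∀ w ∈ R.image f, #(R.filter fun χ => f χ = w) ≤ 2 := by
    intro w _
    by_contra hcon
    push Not at hcon
    obtain ⟨χ₁, χ₂, χ₃, h4, h5, h6, h12, h13, h23⟩ := Finset.two_lt_card_iff.mp hcon
    have hf1 := (mem_filter.mp h4).2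
    have hf2 := (mem_filter.mp h5).2
    have hf3 := (mem_filter.mp h6).2
    have key : ∀ χ : Γ →* ℂˣ, f χ = w → χ ≠ χ₁ → ∀ γ : Γ, ¬ PlainAt A (γ : Equiv.Perm (Fin m)) →
        ((χ γ : ℂˣ) : ℂ) = - ((χ₁ γ : ℂˣ) : ℂ) := by
      intro χ hχ hne γ hγ
      -- on plain elements the characters agree
      have hag : ∀ δ : Γ, PlainAt A (δ : Equiv.Perm (Fin m)) → χ δ = χ₁ δ := by
        intro δ hδ
        have h7 : f χ ⟨δ, hδ⟩ = f χ₁ ⟨δ, hδ⟩ := by rw [hχ, hf1]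
        exact Units.ext h7
      obtain ⟨γ₁, hγ₁⟩ : ∃ γ₁, χ γ₁ ≠ χ₁ γ₁ := by
        by_contra hcon2
        push Not at hcon2
        exact hne (MonoidHom.ext hcon2)
      have ht1 : TransAt A (γ₁ : Equiv.Perm (Fin m)) :=
        (hA γ₁).resolve_left fun h => hγ₁ (hag _ h)
      have ht : TransAt A (γ : Equiv.Perm (Fin m)) := (hA γ).resolve_left hγ
      have h8 : χ (γ₁ * γ₁) = χ₁ (γ₁ * γ₁) := hag _ (trans_mul A _ _ ht1 ht1)
      have h9 : χ (γ * γ₁) = χ₁ (γ * γ₁) := hag _ (trans_mul A _ _ ht ht1)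
      rw [map_mul, map_mul] at h8 h9
      have h8' := congrArg (fun u : ℂˣ => (u : ℂ)) h8
      have h9' := congrArg (fun u : ℂˣ => (u : ℂ)) h9
      simp only [Units.val_mul] at h8' h9'
      have h10 : ((χ γ₁ : ℂˣ) : ℂ) = - ((χ₁ γ₁ : ℂˣ) : ℂ) := by
        have h11 : (((χ γ₁ : ℂˣ) : ℂ) - ((χ₁ γ₁ : ℂˣ) : ℂ))
            * (((χ γ₁ : ℂˣ) : ℂ) + ((χ₁ γ₁ : ℂˣ) : ℂ)) = 0 := by
          ring_nf
          ring_nf at h8'
          rw [h8']
          ring
        rcases mul_eq_zero.mp h11 with h12 | h12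
        · exact absurd (Units.ext (sub_eq_zero.mp h12)) hγ₁
        · exact eq_neg_of_add_eq_zero_left h12
      rw [h10] at h9'
      have h13 : ((χ₁ γ₁ : ℂˣ) : ℂ) ≠ 0 := (χ₁ γ₁).ne_zero
      have h14 : (-((χ γ : ℂˣ) : ℂ)) * ((χ₁ γ₁ : ℂˣ) : ℂ)
          = ((χ₁ γ : ℂˣ) : ℂ) * ((χ₁ γ₁ : ℂˣ) : ℂ) := by
        rw [← h9']; ring
      have h15 := mul_right_cancel₀ h13 h14
      rw [← h15, neg_neg]
    apply h23
    apply MonoidHom.ext
    intro γ
    apply Units.ext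
    by_cases hγ : PlainAt A (γ : Equiv.Perm (Fin m))
    · have h7 : f χ₂ ⟨γ, hγ⟩ = f χ₃ ⟨γ, hγ⟩ := by rw [hf2, hf3]
      exact h7
    · rw [key χ₂ hf2 (Ne.symm h12) γ hγ, key χ₃ hf3 (Ne.symm h13) γ hγ]
  calc #R ≤ 2 * #(R.image f) := card_le_mul_card_image R 2 h2
    _ ≤ 2 * n ^ 2 := Nat.mul_le_mul_left _ h1

end Pool.MP_35c45d_lc.Ab
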