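import Mathlib
import Pool.Agent.Work.MP_35c45d_lc.ABDefs

set_option autoImplicit false

namespace Pool.MP_35c45d_lc.Ab
open Finset

/-! ### sums over injections, for a multiplicative family of functions -/

open Classical in
/-- the sum over the injections into `O` of the product of the `f (u k)` -/
noncomputable def injSum {X A : Type*} (O : Finset X) (f : A → X → ℂ) {d : ℕ} (u : Fin d → A) : ℂ :=
  ∑ r ∈ Fintype.piFinset (fun _ : Fin d => O),
    (if Function.Injective r then ∏ k, f (u k) (r k) else 0)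

/-- the merged labels -/
def mergeLab {A : Type*} [CommGroup A] {d : ℕ} (u : Fin (d + 1) → A) (k j : Fin d) : A :=
  u j.castSucc * (if j = k then u (Fin.last d) else 1)

open Classical in
theorem injSum_succ {X A : Type*} [CommGroup A] (O : Finset X) (f : A → X → ℂ)
    (hmul : ∀ a b, ∀ x ∈ O, f (a * b) x = f a x * f b x) {d : ℕ} (u : Fin (d + 1) → A) :
    injSum O f u = (∑ x ∈ O, f (u (Fin.last d)) x) * injSum O f (fun j : Fin d => u j.castSucc)
      - ∑ k, injSum O f (mergeLab u k) := by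
  unfold injSum
  have hsplit : ∑ r ∈ Fintype.piFinset (fun _ : Fin (d + 1) => O),
      (if Function.Injective r then ∏ k, f (u k) (r k) else 0)
      = ∑ r ∈ Fintype.piFinset (fun _ : Fin d => O), ∑ x ∈ O,
        (if Function.Injective (Fin.snoc (α := fun _ => X) r x : Fin (d + 1) → X) then
          ∏ k, f (u k) ((Fin.snoc (α := fun _ => X) r x : Fin (d + 1) → X) k)
          else 0) := by
    rw [← sum_product']
    refine sum_nbij' (fun r => (Fin.init r, r (Fin.last d)))
      (fun p => Fin.snoc (α := fun _ => X) p.1 p.2) ?_ ?_ ?_ ?_ ?_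
    · intro r hr
      rw [Fintype.mem_piFinset] at hr
      rw [mem_product, Fintype.mem_piFinset]
      exact ⟨fun k => hr _, hr _⟩
    · intro p hp
      rw [mem_product, Fintype.mem_piFinset] at hp
      rw [Fintype.mem_piFinset]
      intro k
      refine Fin.lastCases ?_ (fun k => ?_) k
      · rw [Fin.snoc_last]; exact hp.2
      · rw [Fin.snoc_castSucc]; exact hp.1 k
    · intro r _
      exact Fin.snoc_init_self r
    · intro p _
      simp
    · intro r _
      rw [Fin.snoc_init_self]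
  rw [hsplit]
  have hterm : ∀ r ∈ Fintype.piFinset (fun _ : Fin d => O), ∑ x ∈ O,
        (if Function.Injective (Fin.snoc (α := fun _ => X) r x : Fin (d + 1) → X) then
          ∏ k, f (u k) ((Fin.snoc (α := fun _ => X) r x : Fin (d + 1) → X) k)
          else 0) = (∑ x ∈ O, f (u (Fin.last d)) x) *
            (if Function.Injective r then ∏ k : Fin d, f (u k.castSucc) (r k) else 0)
            - ∑ k, (if Function.Injective r then
              ∏ j, f (mergeLab u k j) (r j) else 0) := by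
    intro r hr
    rw [Fintype.mem_piFinset] at hr
    by_cases hinj : Function.Injective r
    · have h1 : ∀ x ∈ O, (if Function.Injective (Fin.snoc (α := fun _ => X) r x : Fin (d + 1) → X) then
          ∏ k, f (u k) ((Fin.snoc (α := fun _ => X) r x : Fin (d + 1) → X) k)
          else 0) = (∏ k, f (u k.castSucc) (r k)) *
            (if x ∈ univ.image r then 0 else f (u (Fin.last d)) x) := by
        intro x _
        have h2 : Function.Injective (Fin.snoc (α := fun _ => X) r x : Fin (d + 1) → X) ↔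
            x ∉ univ.image r := by
          constructor
          · intro h3 h4
            rw [mem_image] at h4
            obtain ⟨k, _, hk⟩ := h4
            have h5 : (Fin.snoc (α := fun _ => X) r x : Fin (d + 1) → X) k.castSucc =
                (Fin.snoc (α := fun _ => X) r x : Fin (d + 1) → X) (Fin.last d) := by
              rw [Fin.snoc_castSucc, Fin.snoc_last, hk]
            exact Fin.castSucc_ne_last k (h3 h5)
          · intro h3 a b
            refine Fin.lastCases ?_ (fun a => ?_) a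
            · refine Fin.lastCases ?_ (fun b => ?_) b
              · intro _; rfl
              · intro h4
                rw [Fin.snoc_castSucc, Fin.snoc_last] at h4
                exact absurd (mem_image.2 ⟨b, mem_univ _, h4.symm⟩) h3
            · refine Fin.lastCases ?_ (fun b => ?_) b
              · intro h4
                rw [Fin.snoc_castSucc, Fin.snoc_last] at h4
                exact absurd (mem_image.2 ⟨a, mem_univ _, h4⟩) h3
              · intro h4
                rw [Fin.snoc_castSucc, Fin.snoc_castSucc] at h4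
                rw [hinj h4]
        by_cases h3 : x ∈ univ.image r
        · rw [if_neg (by rw [h2]; exact fun h => h h3), if_pos h3, mul_zero]
        · rw [if_pos (h2.2 h3), if_neg h3, Fin.prod_univ_castSucc]
          simp only [Fin.snoc_castSucc, Fin.snoc_last]
      rw [sum_congr rfl h1, ← mul_sum]
      have h2 : ∑ x ∈ O, (if x ∈ univ.image r then 0 else f (u (Fin.last d)) x) =
          (∑ x ∈ O, f (u (Fin.last d)) x) - ∑ k, f (u (Fin.last d)) (r k) := by
        have h4 : ∑ x ∈ O, f (u (Fin.last d)) x =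
            ∑ x ∈ O, (if x ∈ univ.image r then f (u (Fin.last d)) x else 0) +
            ∑ x ∈ O, (if x ∈ univ.image r then 0 else f (u (Fin.last d)) x) := by
          rw [← sum_add_distrib]
          apply sum_congr rfl
          intro x _
          split_ifs <;> simp
        have h5 : ∑ x ∈ O, (if x ∈ univ.image r then f (u (Fin.last d)) x else 0) =
            ∑ k, f (u (Fin.last d)) (r k) := by
          rw [← sum_filter]
          have h6 : O.filter (fun x => x ∈ univ.image r) = univ.image r := by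
            ext x
            rw [mem_filter]
            constructor
            · exact fun h => h.2
            · intro h
              refine ⟨?_, h⟩
              rw [mem_image] at h
              obtain ⟨k, _, rfl⟩ := h
              exact hr k
          rw [h6, sum_image fun a _ b _ hab => hinj hab]
        rw [h4, h5]
        ring
      rw [h2, mul_sub, if_pos hinj, mul_comm]
      congr 1
      rw [mul_sum]
      apply sum_congr rfl
      intro k _
      rw [if_pos hinj]
      unfold mergeLab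
      have h7 : ∀ j : Fin d, f (u j.castSucc * (if j = k then u (Fin.last d) else 1)) (r j) =
          f (u j.castSucc) (r j) * (if j = k then f (u (Fin.last d)) (r j) else 1) := by
        intro j
        split_ifs with h
        · rw [hmul _ _ _ (hr j)]
        · rw [mul_one, mul_one]
      simp only [h7]
      rw [prod_mul_distrib]
      congr 1
      rw [prod_ite_eq' univ k, if_pos (mem_univ k)]
    · have h1 : ∀ x, ¬ Function.Injective (Fin.snoc (α := fun _ => X) r x : Fin (d + 1) → X) := by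
        intro x h
        apply hinj
        intro a b hab
        have : (Fin.snoc (α := fun _ => X) r x : Fin (d + 1) → X) a.castSucc =
            (Fin.snoc (α := fun _ => X) r x : Fin (d + 1) → X) b.castSucc := by
          rw [Fin.snoc_castSucc, Fin.snoc_castSucc, hab]
        exact Fin.castSucc_injective _ (h this)
      simp only [h1, hinj, if_false, sum_const_zero, mul_zero, sub_zero]
  rw [sum_congr rfl hterm, sum_sub_distrib, ← mul_sum, sum_comm]

theorem injSum_zero {X A : Type*} (O : Finset X) (f : A → X → ℂ) (u : Fin 0 → A) :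
    injSum O f u = 1 := by
  unfold injSum
  have h1 : ∀ r : Fin 0 → X, Function.Injective r := fun r => Function.injective_of_subsingleton r
  simp [h1]

/-- labels without proper product one -/
theorem injSum_of_no_proper {X A : Type*} [CommGroup A] (O : Finset X) (f : A → X → ℂ)
    (hmul : ∀ a b, ∀ x ∈ O, f (a * b) x = f a x * f b x) (hone : ∀ x ∈ O, f 1 x = 1)
    (hsum : ∀ a, a ≠ 1 → ∑ x ∈ O, f a x = 0)
    (d : ℕ) (u : Fin (d + 1) → A) (h0 : ∏ k, u k = 1)
    (hS : ∀ S : Finset (Fin (d + 1)), S.Nonempty → S ≠ univ → ∏ k ∈ S, u k ≠ 1) :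
    injSum O f u = (-1) ^ d * (d.factorial : ℂ) * (#O : ℂ) := by
  induction d with
  | zero =>
    rw [injSum_succ O f hmul, injSum_zero]
    have hu : u (Fin.last 0) = 1 := by
      have : (Fin.last 0) = (0 : Fin (0 + 1)) := rfl
      rw [this]
      simpa using h0
    rw [hu, sum_congr rfl hone]
    simp
  | succ d ih =>
    have hlast : u (Fin.last (d + 1)) ≠ 1 := by
      have := hS {Fin.last (d + 1)} (singleton_nonempty _) (by
        intro h
        have h2 : (0 : Fin (d + 1 + 1)) ∈ ({Fin.last (d + 1)} : Finset (Fin (d + 1 + 1))) := by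
          rw [h]; exact mem_univ _
        rw [mem_singleton] at h2
        exact absurd h2 (by simp [Fin.ext_iff]))
      rwa [prod_singleton] at this
    have hv0 : ∀ k, ∏ j, mergeLab u k j = 1 := by
      intro k
      unfold mergeLab
      have h0' := h0
      rw [Fin.prod_univ_castSucc] at h0'
      rw [prod_mul_distrib, prod_ite_eq' univ k, if_pos (mem_univ k)]
      exact h0'
    have hvS : ∀ k, ∀ S : Finset (Fin (d + 1)), S.Nonempty → S ≠ univ →
        ∏ j ∈ S, mergeLab u k j ≠ 1 := by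
      intro k S hSn hSu
      unfold mergeLab
      rw [prod_mul_distrib, prod_ite_eq' S k]
      by_cases hk : k ∈ S
      · rw [if_pos hk]
        have h1 := hS (insert (Fin.last (d + 1)) (S.map Fin.castSuccEmb)) (insert_nonempty _ _) (by
          intro h
          apply hSu
          ext j
          simp only [mem_univ, iff_true]
          have h2 : j.castSucc ∈ insert (Fin.last (d + 1)) (S.map Fin.castSuccEmb) := by
            rw [h]; exact mem_univ _
          rw [mem_insert, mem_map] at h2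
          rcases h2 with h2 | ⟨i, hi, hij⟩
          · exact absurd h2 (Fin.castSucc_ne_last j)
          · have : i = j := Fin.castSucc_injective _ hij
            exact this ▸ hi)
        rw [prod_insert, prod_map] at h1
        · intro h2
          apply h1
          rw [mul_comm]
          exact h2
        · rw [mem_map]
          rintro ⟨i, _, hi⟩
          exact Fin.castSucc_ne_last i hi
      · rw [if_neg hk, mul_one]
        have h1 := hS (S.map Fin.castSuccEmb) (hSn.map) (by
          intro h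
          have h2 : Fin.last (d + 1) ∈ S.map Fin.castSuccEmb := by rw [h]; exact mem_univ _
          rw [mem_map] at h2
          obtain ⟨i, _, hi⟩ := h2
          exact Fin.castSucc_ne_last i hi)
        rw [prod_map] at h1
        exact h1
    rw [injSum_succ O f hmul, hsum _ hlast, zero_mul, zero_sub]
    have hih : ∀ k : Fin (d + 1), injSum O f (mergeLab u k)
        = (-1) ^ d * (d.factorial : ℂ) * (#O : ℂ) := fun k => ih (mergeLab u k) (hv0 k) (hvS k)
    simp only [hih, sum_const, card_univ, Fintype.card_fin, nsmul_eq_mul]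
    rw [Nat.factorial_succ]
    push_cast
    ring

/-- three labels -/
theorem injSum_three {X A : Type*} [CommGroup A] (O : Finset X) (f : A → X → ℂ)
    (hmul : ∀ a b, ∀ x ∈ O, f (a * b) x = f a x * f b x) (u : Fin 3 → A) :
    injSum O f u = (∑ x ∈ O, f (u 0) x) * (∑ x ∈ O, f (u 1) x) * (∑ x ∈ O, f (u 2) x)
      - (∑ x ∈ O, f (u 0) x) * (∑ x ∈ O, f (u 1 * u 2) x)
      - (∑ x ∈ O, f (u 1) x) * (∑ x ∈ O, f (u 0 * u 2) x)
      - (∑ x ∈ O, f (u 2) x) * (∑ x ∈ O, f (u 0 * u 1) x)
      + 2 * ∑ x ∈ O, f (u 0 * u 1 * u 2) x := by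
  have h1 : ∀ v : Fin 1 → A, injSum O f v = ∑ x ∈ O, f (v 0) x := by
    intro v
    rw [injSum_succ O f hmul, injSum_zero]
    have : (Fin.last 0) = (0 : Fin (0 + 1)) := rfl
    rw [this]
    simp
  have h2 : ∀ v : Fin 2 → A, injSum O f v = (∑ x ∈ O, f (v 0) x) * (∑ x ∈ O, f (v 1) x)
      - ∑ x ∈ O, f (v 0 * v 1) x := by
    intro v
    rw [injSum_succ O f hmul, h1, Fin.sum_univ_one, h1]
    have e1 : (Fin.last 1) = (1 : Fin 2) := rfl
    have e2 : (0 : Fin 1).castSucc = (0 : Fin 2) := rfl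
    unfold mergeLab
    rw [if_pos rfl, e1, e2]
    ring
  rw [injSum_succ O f hmul, h2, Fin.sum_univ_two, h2, h2]
  have e1 : (Fin.last 2) = (2 : Fin 3) := rfl
  have e2 : (0 : Fin 2).castSucc = (0 : Fin 3) := rfl
  have e3 : (1 : Fin 2).castSucc = (1 : Fin 3) := rfl
  have e4 : (0 : Fin 2) ≠ 1 := by decide
  unfold mergeLab
  rw [if_pos rfl, if_neg e4.symm, if_neg e4, if_pos rfl, e1, e2, e3, mul_one, mul_one]
  have e5 : u 0 * u 2 * u 1 = u 0 * u 1 * u 2 := by
    rw [mul_assoc, mul_comm (u 2) (u 1), ← mul_assoc]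
  have e6 : u 0 * (u 1 * u 2) = u 0 * u 1 * u 2 := by rw [mul_assoc]
  rw [e5, e6]
  ring

/-- three labels of product one -/
theorem injSum_three_ne {X A : Type*} [CommGroup A] (O : Finset X) (f : A → X → ℂ)
    (hmul : ∀ a b, ∀ x ∈ O, f (a * b) x = f a x * f b x) (hone : ∀ x ∈ O, f 1 x = 1)
    (hsum : ∀ a, a ≠ 1 → ∑ x ∈ O, f a x = 0) (hO : 3 ≤ #O)
    (u : Fin 3 → A) (h0 : ∏ k, u k = 1) : injSum O f u ≠ 0 := by
  have hS1 : ∑ x ∈ O, f 1 x = (#O : ℂ) := by
    rw [sum_congr rfl hone]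
    simp
  rw [Fin.prod_univ_three] at h0
  have h01 : u 0 * u 1 = (u 2)⁻¹ := eq_inv_of_mul_eq_one_left h0
  have h12 : u 1 * u 2 = (u 0)⁻¹ := eq_inv_of_mul_eq_one_right (by rw [← mul_assoc]; exact h0)
  have h02 : u 0 * u 2 = (u 1)⁻¹ := by
    apply eq_inv_of_mul_eq_one_left
    rw [mul_assoc, mul_comm (u 2) (u 1), ← mul_assoc]
    exact h0
  rw [injSum_three O f hmul, h0, h01, h12, h02, hS1]
  have hl3 : (3 : ℝ) ≤ (#O : ℝ) := by exact_mod_cast hO
  have hl0 : (#O : ℂ) ≠ 0 := by
    have : #O ≠ 0 := by omega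
    exact_mod_cast this
  have hl1 : (#O : ℂ) - 1 ≠ 0 := by
    rw [sub_ne_zero]
    have : #O ≠ 1 := by omega
    exact_mod_cast this
  have hl2 : (#O : ℂ) - 2 ≠ 0 := by
    rw [sub_ne_zero]
    have : #O ≠ 2 := by omega
    exact_mod_cast this
  have hinv : ∀ a : A, a ≠ 1 → ∑ x ∈ O, f a⁻¹ x = 0 := fun a ha => hsum _ (inv_ne_one.2 ha)
  by_cases a0 : u 0 = 1 <;> by_cases a1 : u 1 = 1 <;> by_cases a2 : u 2 = 1
  · rw [a0, a1, a2, inv_one, hS1]
    have : (#O : ℂ) * #O * #O - #O * #O - #O * #O - #O * #O + 2 * #O =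
        #O * ((#O - 1) * (#O - 2)) := by ring
    rw [this]
    exact mul_ne_zero hl0 (mul_ne_zero hl1 hl2)
  · exfalso
    apply a2
    rw [a0, a1, one_mul, one_mul] at h0
    exact h0
  · exfalso
    apply a1
    rw [a0, a2, one_mul, mul_one] at h0
    exact h0
  · rw [a0, inv_one, hS1, hsum _ a1, hsum _ a2]
    have : (#O : ℂ) * 0 * 0 - #O * #O - 0 * ∑ x ∈ O, f (u 1)⁻¹ x - 0 * ∑ x ∈ O, f (u 2)⁻¹ x
        + 2 * #O = - (#O * (#O - 2)) := by ring
    rw [this]
    exact neg_ne_zero.2 (mul_ne_zero hl0 hl2)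
  · exfalso
    apply a0
    rw [a1, a2, mul_one, mul_one] at h0
    exact h0
  · rw [a1, inv_one, hS1, hsum _ a0, hsum _ a2]
    have : (0 : ℂ) * #O * 0 - 0 * ∑ x ∈ O, f (u 0)⁻¹ x - #O * #O - 0 * ∑ x ∈ O, f (u 2)⁻¹ x
        + 2 * #O = - (#O * (#O - 2)) := by ring
    rw [this]
    exact neg_ne_zero.2 (mul_ne_zero hl0 hl2)
  · rw [a2, inv_one, hS1, hsum _ a0, hsum _ a1]
    have : (0 : ℂ) * 0 * #O - 0 * ∑ x ∈ O, f (u 0)⁻¹ x - 0 * ∑ x ∈ O, f (u 1)⁻¹ x - #O * #O
        + 2 * #O = - (#O * (#O - 2)) := by ring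
    rw [this]
    exact neg_ne_zero.2 (mul_ne_zero hl0 hl2)
  · rw [hsum _ a0, hsum _ a1, hsum _ a2]
    have : (0 : ℂ) * 0 * 0 - 0 * ∑ x ∈ O, f (u 0)⁻¹ x - 0 * ∑ x ∈ O, f (u 1)⁻¹ x
        - 0 * ∑ x ∈ O, f (u 2)⁻¹ x + 2 * #O = 2 * #O := by ring
    rw [this]
    exact mul_ne_zero two_ne_zero hl0

/-! ### the vectors of the characters -/

variable {m : ℕ} (Γ : Subgroup (Equiv.Perm (Fin m)))

theorem mem_orb (x y : Fin m) : y ∈ orb Γ x ↔ ∃ γ : Γ, (γ : Equiv.Perm (Fin m)) x = y := by
  classical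
  unfold orb
  rw [mem_filter]
  exact ⟨fun h => h.2, fun h => ⟨mem_univ _, h⟩⟩

theorem vec_eq_zero (x : Fin m) (χ : Γ →* ℂˣ) (y : Fin m) (hy : y ∉ orb Γ x) :
    vec Γ x χ y = 0 := by
  rw [mem_orb] at hy
  unfold vec
  rw [dif_neg hy]

theorem vec_apply (x : Fin m) (χ : Γ →* ℂˣ) (hχ : χ ∈ XS Γ x) (γ : Γ) :
    vec Γ x χ ((γ : Equiv.Perm (Fin m)) x) = ((χ γ : ℂˣ) : ℂ) := by
  have h : ∃ γ' : Γ, (γ' : Equiv.Perm (Fin m)) x = (γ : Equiv.Perm (Fin m)) x := ⟨γ, rfl⟩
  unfold vec
  rw [dif_pos h]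
  have h1 := h.choose_spec
  have h2 : χ (γ⁻¹ * h.choose) = 1 := by
    apply hχ
    rw [Subgroup.coe_mul, Equiv.Perm.mul_apply, h1, Subgroup.coe_inv]
    exact Equiv.symm_apply_apply _ _
  rw [map_mul, map_inv, inv_mul_eq_one] at h2
  rw [h2]

theorem vec_shift (x : Fin m) (χ : Γ →* ℂˣ) (hχ : χ ∈ XS Γ x) (γ : Γ) (y : Fin m) :
    vec Γ x χ ((γ : Equiv.Perm (Fin m)) y) = (χ γ : ℂˣ) * vec Γ x χ y := by
  by_cases hy : y ∈ orb Γ x
  · obtain ⟨γ', rfl⟩ := (mem_orb Γ x y).1 hy
    rw [vec_apply Γ x χ hχ γ']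
    have h1 : (γ : Equiv.Perm (Fin m)) ((γ' : Equiv.Perm (Fin m)) x) =
        ((γ * γ' : Γ) : Equiv.Perm (Fin m)) x := by
      rw [Subgroup.coe_mul, Equiv.Perm.mul_apply]
    rw [h1, vec_apply Γ x χ hχ (γ * γ'), map_mul, Units.val_mul]
  · rw [vec_eq_zero Γ x χ y hy, mul_zero]
    apply vec_eq_zero
    intro h
    apply hy
    obtain ⟨γ', hγ'⟩ := (mem_orb Γ x _).1 h
    rw [mem_orb]
    refine ⟨γ⁻¹ * γ', ?_⟩
    rw [Subgroup.coe_mul, Equiv.Perm.mul_apply, hγ', Subgroup.coe_inv]
    exact Equiv.symm_apply_apply _ _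

theorem sum_vec_eq_zero (x : Fin m) (χ : Γ →* ℂˣ) (hχ : χ ∈ XS Γ x) (h1 : χ ≠ 1) :
    ∑ y ∈ orb Γ x, vec Γ x χ y = 0 := by
  obtain ⟨γ, hγ⟩ : ∃ γ, χ γ ≠ 1 := by
    by_contra h
    push Not at h
    exact h1 (MonoidHom.ext h)
  have h2 : ∑ y ∈ orb Γ x, vec Γ x χ y =
      ∑ y ∈ orb Γ x, vec Γ x χ ((γ : Equiv.Perm (Fin m)) y) := by
    symm
    refine sum_bij (fun y _ => (γ : Equiv.Perm (Fin m)) y) ?_ ?_ ?_ ?_
    · intro y hy
      obtain ⟨γ', rfl⟩ := (mem_orb Γ x y).1 hy
      rw [mem_orb]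
      refine ⟨γ * γ', ?_⟩
      rw [Subgroup.coe_mul, Equiv.Perm.mul_apply]
    · intro y _ y' _ h
      exact (γ : Equiv.Perm (Fin m)).injective h
    · intro y hy
      obtain ⟨γ', rfl⟩ := (mem_orb Γ x y).1 hy
      refine ⟨((γ⁻¹ * γ' : Γ) : Equiv.Perm (Fin m)) x, ?_, ?_⟩
      · rw [mem_orb]
        exact ⟨γ⁻¹ * γ', rfl⟩
      · rw [Subgroup.coe_mul, Equiv.Perm.mul_apply, Subgroup.coe_inv]
        exact Equiv.apply_symm_apply _ _
    · intro y _
      rfl
  simp only [vec_shift Γ x χ hχ γ] at h2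
  rw [← mul_sum] at h2
  have h3 : (((χ γ : ℂˣ) : ℂ) - 1) * ∑ y ∈ orb Γ x, vec Γ x χ y = 0 := by
    rw [sub_mul, one_mul, ← h2, sub_self]
  rcases mul_eq_zero.1 h3 with h4 | h4
  · exfalso
    apply hγ
    apply Units.ext
    rw [Units.val_one]
    exact sub_eq_zero.1 h4
  · exact h4

open Classical in
/-- the sum over the injections into the orbit does not vanish -/
theorem vertex_ne (hcomm : ∀ a ∈ Γ, ∀ b ∈ Γ, a * b = b * a) (x : Fin m) (d : ℕ) (hd : 1 ≤ d)
    (u : Fin d → (Γ →* ℂˣ)) (hu : ∀ k, u k ∈ XS Γ x) (h1 : ∏ k, u k = 1)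
    (hgood : (d = 3 ∧ 3 ≤ #(orb Γ x)) ∨
      ∀ S : Finset (Fin d), S.Nonempty → S ≠ univ → ∏ k ∈ S, u k ≠ 1) :
    ∑ r ∈ Fintype.piFinset (fun _ : Fin d => orb Γ x),
      (if Function.Injective r then ∏ k, vec Γ x (u k) (r k) else 0) ≠ 0 := by
  obtain ⟨f, hf⟩ : ∃ f : XS Γ x → Fin m → ℂ, f = fun a : XS Γ x => vec Γ x (a : Γ →* ℂˣ) :=
    ⟨_, rfl⟩
  have hmul : ∀ a b, ∀ y ∈ orb Γ x, f (a * b) y = f a y * f b y := by
    intro a b y hy
    obtain ⟨γ, rfl⟩ := (mem_orb Γ x y).1 hy
    rw [hf]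
    simp only
    rw [vec_apply Γ x _ (a * b).2, vec_apply Γ x _ a.2, vec_apply Γ x _ b.2, Subgroup.coe_mul,
      MonoidHom.mul_apply, Units.val_mul]
  have hone : ∀ y ∈ orb Γ x, f 1 y = 1 := by
    intro y hy
    obtain ⟨γ, rfl⟩ := (mem_orb Γ x y).1 hy
    rw [hf]
    simp only
    rw [vec_apply Γ x _ (1 : XS Γ x).2, Subgroup.coe_one, MonoidHom.one_apply, Units.val_one]
  have hsum : ∀ a, a ≠ 1 → ∑ y ∈ orb Γ x, f a y = 0 := by
    intro a ha
    rw [hf]
    simp only
    apply sum_vec_eq_zero Γ x _ a.2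
    intro h
    exact ha (Subtype.ext h)
  obtain ⟨v, hv⟩ : ∃ v : Fin d → XS Γ x, v = fun k => ⟨u k, hu k⟩ := ⟨_, rfl⟩
  have hS : ∀ S : Finset (Fin d), ((∏ k ∈ S, v k : XS Γ x) : Γ →* ℂˣ) = ∏ k ∈ S, u k := by
    intro S
    rw [Subgroup.val_finsetProd, hv]
  have hv1 : ∏ k, v k = 1 := by
    apply Subtype.ext
    rw [hS, h1, Subgroup.coe_one]
  have key : injSum (orb Γ x) f v ≠ 0 := by
    have hpos : 1 ≤ #(orb Γ x) := card_pos.2 ⟨x, (mem_orb Γ x x).2 ⟨1, rfl⟩⟩
    rcases hgood with ⟨hd3, hO⟩ | hgood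
    · subst hd3
      exact injSum_three_ne (orb Γ x) f hmul hone hsum hO v hv1
    · obtain ⟨d', rfl⟩ : ∃ d', d = d' + 1 := ⟨d - 1, by omega⟩
      rw [injSum_of_no_proper (orb Γ x) f hmul hone hsum d' v hv1]
      · apply mul_ne_zero (mul_ne_zero _ _)
        · have : #(orb Γ x) ≠ 0 := by omega
          exact_mod_cast this
        · exact pow_ne_zero _ (by norm_num)
        · exact_mod_cast Nat.factorial_ne_zero d'
      · intro S hS1 hS2 hS3
        apply hgood S hS1 hS2
        rw [← hS, hS3, Subgroup.coe_one]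
  intro h
  apply key
  rw [← h]
  unfold injSum
  apply sum_congr rfl
  intro r _
  rw [hf, hv]
  by_cases hr : Function.Injective r
  · rw [if_pos hr, if_pos hr]
  · rw [if_neg hr, if_neg hr]

end Pool.MP_35c45d_lc.Ab
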