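import Mathlib
import Pool.Agent.Work.MP_35c45d_lc.ABGlue
import Pool.Agent.Work.MP_35c45d_lc.ABVertex
import Pool.Agent.Work.MP_35c45d_lc.ABCoef
import Pool.Agent.Work.MP_35c45d_lc.ABPlain

set_option autoImplicit false
set_option linter.unusedSectionVars false

namespace Pool.MP_35c45d_lc.Ab
open Finset MvPolynomial Pool.MP_35c45d_lc.PermEq2 Pool.MP_35c45d_lc.OnePerm

section core

variable {m : ℕ} (Γ : Subgroup (Equiv.Perm (Fin m))) {q : ℕ} (d : Fin q → ℕ)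
  (x y : Fin q → Fin m) {LR LC : Fin q → Type}
  (rl : (p : Fin q) → LR p → Fin (d p) → (Γ →* ℂˣ))
  (cl : (p : Fin q) → LC p → Fin (d p) → (Γ →* ℂˣ))

/-- the character of the edge `e` -/
def chi (φ : Equiv.Perm (Σ p, Fin (d p))) (l : (p : Fin q) → LR p) (l' : (p : Fin q) → LC p)
    (e : Σ p, Fin (d p)) : Γ →* ℂˣ :=
  rl e.1 (l e.1) e.2 * cl (φ e).1 (l' (φ e).1) (φ e).2

/-- the test matrix of the edge `e` -/
noncomputable def Zm (φ : Equiv.Perm (Σ p, Fin (d p))) (l : (p : Fin q) → LR p)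
    (l' : (p : Fin q) → LC p) (e : Σ p, Fin (d p)) (z : Fin m × Fin m) : ℂ :=
  vec Γ (x e.1) (rl e.1 (l e.1) e.2) z.1 *
    vec Γ (y (φ e).1) (cl (φ e).1 (l' (φ e).1) (φ e).2) z.2

theorem Zm_shift (hrl : ∀ p l k, rl p l k ∈ XS Γ (x p)) (hcl : ∀ p l k, cl p l k ∈ XS Γ (y p))
    (φ : Equiv.Perm (Σ p, Fin (d p))) (l : (p : Fin q) → LR p) (l' : (p : Fin q) → LC p)
    (e : Σ p, Fin (d p)) (γ : Γ) (z : Fin m × Fin m) :
    Zm Γ d x y rl cl φ l l' e (act (γ : Equiv.Perm (Fin m)) z)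
      = ((chi Γ d rl cl φ l l' e γ : ℂˣ) : ℂ) * Zm Γ d x y rl cl φ l l' e z := by
  unfold Zm chi act
  rw [vec_shift Γ _ _ (hrl _ _ _), vec_shift Γ _ _ (hcl _ _ _), MonoidHom.mul_apply,
    Units.val_mul]
  ring

/-- The counting inequality for one sum of determinants. -/
theorem core [∀ p, Fintype (LR p)] [∀ p, Fintype (LC p)]
    (hrl : ∀ p l k, rl p l k ∈ XS Γ (x p)) (hcl : ∀ p l k, cl p l k ∈ XS Γ (y p))
    {n N : ℕ} (hn : 1 ≤ n) (A : Fin N → Matrix (Fin n) (Fin n) (MvPolynomial (Fin m × Fin m) ℂ))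
    (D k : ℕ) (hk : k ≤ ∑ p, d p)
    (hdeg : ∀ s i j, (A s i j).totalDegree ≤ D)
    (hsym : ∀ s, ∀ γ : Γ, PlainAt (A s) γ ∨ TransAt (A s) γ)
    (hns : ∀ s, ∃ X₀ : Fin m × Fin m → ℂ,
      (∀ γ : Γ, ∀ z, X₀ (act (γ : Equiv.Perm (Fin m)) z) = X₀ z) ∧
      ((A s).map (eval X₀)).det ≠ 0)
    (hcf : ∀ φ l l', cf univ (ev (fun _ => 1) (Zm Γ d x y rl cl φ l l') (∑ s, (A s).det)) ≠ 0)
    (Bnd : ℕ)
    (hB : ∀ ρ, Nat.card {t : ((p : Fin q) → LR p × Finset (Fin (d p))) ×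
        ((p : Fin q) → LC p × Finset (Fin (d p))) //
      (∏ p, ∏ k ∈ (t.1 p).2, rl p (t.1 p).1 k) * (∏ p, ∏ k ∈ (t.2 p).2, cl p (t.2 p).1 k) = ρ}
        ≤ Bnd) :
    (∑ p, d p).factorial * ((∏ p, Fintype.card (LR p)) * ∏ p, Fintype.card (LC p))
      ≤ N * (2 * n ^ 2) * ((∑ a ∈ Icc k (k + D), a.factorial * ((∑ p, d p) - a).factorial) * Bnd) := by
  classical
  have : Fintype (Γ →* ℂˣ) := Fintype.ofFinite _
  choose X₀ hX1 hX2 using hns
  -- the conjugating matrices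
  let J : Fin N → Type := fun s => {γ : Γ // PlainAt (A s) (γ : Equiv.Perm (Fin m))}
  have hJ : ∀ s, ∀ j : J s, ∃ G H : Matrix (Fin n) (Fin n) ℂ, G.det ≠ 0 ∧ H.det ≠ 0 ∧
    (A s).map (rename (act (j.1 : Equiv.Perm (Fin m)))) = G.map C * A s * H.map C := fun s j => j.2
  choose G H hG hH hA using hJ
  let R : Fin N → Finset (Γ →* ℂˣ) := fun s => univ.filter fun χ =>
    ∃ X : Matrix (Fin n) (Fin n) ℂ, X ≠ 0 ∧ ∀ j : J s, X * H s j = ((χ j.1 : ℂˣ) : ℂ) • (H s j * X)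
  have hRc : ∀ s, #(R s) ≤ 2 * n ^ 2 := fun s =>
    card_real_le Γ (A s) (hsym s) (H s) (hH s) (R s) fun χ hχ => (mem_filter.mp hχ).2
  let RR : Finset (Γ →* ℂˣ) := univ.biUnion R
  have hRR : #RR ≤ N * (2 * n ^ 2) := by
    refine card_biUnion_le.trans ((sum_le_sum fun s _ => hRc s).trans ?_)
    simp
  -- every configuration has a good set of edges
  have hcov : ∀ t : Equiv.Perm (Σ p, Fin (d p)) × ((p : Fin q) → LR p) × ((p : Fin q) → LC p),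
      ∃ A' : Finset (Σ p, Fin (d p)), #A' ∈ Icc k (k + D) ∧
        ∏ e ∈ A', chi Γ d rl cl t.1 t.2.1 t.2.2 e ∈ RR := by
    rintro ⟨φ, l, l'⟩
    have h1 := hcf φ l l'
    rw [map_sum, map_sum] at h1
    obtain ⟨s, -, hs⟩ := exists_ne_zero_of_sum_ne_zero h1
    obtain ⟨A', h2, h3, X, h4, h5⟩ := exists_cut_ev_fam' (fun _ => 1) (X₀ s)
      (Zm Γ d x y rl cl φ l l') (fun j : J s => act (j.1 : Equiv.Perm (Fin m)))
      (fun _ _ => rfl) (fun j z => hX1 s j.1 z)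
      (fun j e => ((chi Γ d rl cl φ l l' e j.1 : ℂˣ) : ℂ))
      (fun j e z => Zm_shift Γ d x y rl cl hrl hcl φ l l' e j.1 z) (A s) (hX2 s) (G s) (H s)
      (hH s) (hA s) hn D k (hdeg s) (by
        rw [Fintype.card_sigma, sum_congr rfl fun i _ => Fintype.card_fin (d i)]
        exact hk) hs
    refine ⟨A', mem_Icc.mpr ⟨h2, h3⟩, ?_⟩
    rw [mem_biUnion]
    refine ⟨s, mem_univ _, mem_filter.mpr ⟨mem_univ _, X, h4, fun j => ?_⟩⟩
    rw [h5 j, MonoidHom.finsetProd_apply]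
    congr 1
    push_cast
    rfl
  choose AA hAA1 hAA2 using hcov
  let T := Equiv.Perm (Σ p, Fin (d p)) × ((p : Fin q) → LR p) × ((p : Fin q) → LC p) ×
        Finset (Σ p, Fin (d p))
  have hcount : ∀ ρ a, #(univ.filter fun t : T => #t.2.2.2 = a ∧
      ∏ e ∈ t.2.2.2, chi Γ d rl cl t.1 t.2.1 t.2.2.1 e = ρ)
      ≤ a.factorial * ((∑ p, d p) - a).factorial * Bnd := by
    intro ρ a
    have h1 := card_glue d rl cl ρ a Bnd (hB ρ)
    rw [Nat.card_eq_fintype_card, Fintype.card_subtype] at h1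
    exact h1
  have hsub : (univ : Finset (Equiv.Perm (Σ p, Fin (d p)) × ((p : Fin q) → LR p) ×
      ((p : Fin q) → LC p))).image
        (fun t => ((t.1, t.2.1, t.2.2, AA t) : T))
      ⊆ RR.biUnion fun ρ => (Icc k (k + D)).biUnion fun a => univ.filter fun t : T =>
        #t.2.2.2 = a ∧ ∏ e ∈ t.2.2.2, chi Γ d rl cl t.1 t.2.1 t.2.2.1 e = ρ := by
    intro t ht
    obtain ⟨t', -, rfl⟩ := mem_image.mp ht
    rw [mem_biUnion]
    refine ⟨_, hAA2 t', ?_⟩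
    rw [mem_biUnion]
    exact ⟨_, hAA1 t', mem_filter.mpr ⟨mem_univ _, rfl, rfl⟩⟩
  have h1 := card_le_card hsub
  rw [card_image_of_injective] at h1
  swap
  · rintro ⟨a1, a2, a3⟩ ⟨b1, b2, b3⟩ hab
    simp only [Prod.mk.injEq] at hab
    exact Prod.ext hab.1 (Prod.ext hab.2.1 hab.2.2.1)
  have h2 : (∑ p, d p).factorial * ((∏ p, Fintype.card (LR p)) * ∏ p, Fintype.card (LC p))
      = #(univ : Finset (Equiv.Perm (Σ p, Fin (d p)) × ((p : Fin q) → LR p) ×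
      ((p : Fin q) → LC p))) := by
    rw [card_univ, Fintype.card_prod, Fintype.card_prod, Fintype.card_perm, Fintype.card_pi,
      Fintype.card_pi, Fintype.card_sigma, sum_congr rfl fun i _ => Fintype.card_fin (d i)]
  rw [h2]
  refine h1.trans ?_
  calc _ ≤ ∑ ρ ∈ RR, ∑ a ∈ Icc k (k + D), a.factorial * ((∑ p, d p) - a).factorial * Bnd := by
        refine card_biUnion_le.trans (sum_le_sum fun ρ _ => ?_)
        exact card_biUnion_le.trans (sum_le_sum fun a _ => hcount ρ a)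
    _ = #RR * ((∑ a ∈ Icc k (k + D), a.factorial * ((∑ p, d p) - a).factorial) * Bnd) := by
        rw [sum_const, smul_eq_mul, sum_mul]
    _ ≤ _ := Nat.mul_le_mul_right _ hRR

end core

end Pool.MP_35c45d_lc.Ab
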