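import Mathlib

set_option autoImplicit false

namespace Pool.MP_35c45d_lc.Ab
open Finset

/-- triangular elimination -/
theorem elim {X : Type*} [CommGroup X] {K : Type*} [Fintype K] [DecidableEq K] (rk : K → ℕ)
    (hrk : Function.Injective rk) {P : K → Type*} [∀ k, Fintype (P k)] (s : (k : K) → P k → X)
    (Y : K → Subgroup X) (hY : ∀ k k', rk k' < rk k → ∀ p, s k' p ∈ Y k) (N : K → ℕ)
    (hN : ∀ k (c : X), Nat.card {p : P k // c * s k p ∈ Y k} ≤ N k) (ρ : X) :
    Nat.card {p : (k : K) → P k // ∏ k, s k (p k) = ρ} ≤ ∏ k, N k := by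
  classical
  set F : K → MonoidAlgebra ℕ X := fun k => ∑ p : P k, MonoidAlgebra.of ℕ X (s k p) with hF
  have cf : ∀ (k : K) (G : MonoidAlgebra ℕ X) (ρ : X),
      (F k * G).coeff ρ = ∑ p : P k, G.coeff ((s k p)⁻¹ * ρ) := by
    intro k G ρ
    rw [hF]
    simp only
    rw [Finset.sum_mul, MonoidAlgebra.coeff_sum, Finsupp.finsetSum_apply]
    refine Finset.sum_congr rfl fun p _ => ?_
    rw [MonoidAlgebra.of_apply,
      MonoidAlgebra.coeff_single_mul_eq_mul_coeff (m₂ := (s k p)⁻¹ * ρ), one_mul]
    intro m' _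
    rw [eq_inv_mul_iff_mul_eq]
  have supp : ∀ (k0 : K) (T : Finset K), (∀ k ∈ T, rk k < rk k0) → ∀ ρ, ρ ∉ Y k0 →
      (∏ k ∈ T, F k).coeff ρ = 0 := by
    intro k0 T
    induction T using Finset.induction_on with
    | empty =>
      intro _ ρ hρ
      rw [Finset.prod_empty]
      have : ρ ≠ 1 := fun h => hρ (h ▸ (Y k0).one_mem)
      rw [MonoidAlgebra.one_def, MonoidAlgebra.coeff_single, Finsupp.single_eq_of_ne]
      exact this
    | insert a T ha ih =>
      intro hT ρ hρ
      rw [Finset.prod_insert ha, cf]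
      refine Finset.sum_eq_zero fun p _ => ?_
      refine ih (fun k hk => hT k (Finset.mem_insert_of_mem hk)) _ ?_
      intro h
      apply hρ
      have h1 := (Y k0).mul_mem (hY k0 a (hT a (Finset.mem_insert_self a T)) p) h
      rwa [mul_inv_cancel_left] at h1
  have bound : ∀ T : Finset K, ∀ ρ, (∏ k ∈ T, F k).coeff ρ ≤ ∏ k ∈ T, N k := by
    intro T
    induction T using Finset.induction_on_max_value rk with
    | empty =>
      intro ρ
      rw [Finset.prod_empty, Finset.prod_empty, MonoidAlgebra.one_def,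
        MonoidAlgebra.coeff_single, Finsupp.single_apply]
      split_ifs
      · exact le_rfl
      · exact Nat.zero_le _
    | insert a T ha hmax ih =>
      intro ρ
      have hlt : ∀ k ∈ T, rk k < rk a := fun k hk =>
        lt_of_le_of_ne (hmax k hk) fun h => ha (hrk h ▸ hk)
      rw [Finset.prod_insert ha, Finset.prod_insert ha, cf]
      have h1 : ∑ p : P a, (∏ k ∈ T, F k).coeff ((s a p)⁻¹ * ρ) =
          ∑ p ∈ (univ : Finset (P a)).filter (fun p => ρ⁻¹ * s a p ∈ Y a),
            (∏ k ∈ T, F k).coeff ((s a p)⁻¹ * ρ) := by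
        rw [Finset.sum_filter]
        refine Finset.sum_congr rfl fun p _ => ?_
        split_ifs with h
        · rfl
        · refine supp a T hlt _ fun h' => h ?_
          have := (Y a).inv_mem h'
          rwa [mul_inv_rev, inv_inv] at this
      rw [h1]
      refine (Finset.sum_le_sum fun p _ => ih _).trans ?_
      rw [Finset.sum_const, smul_eq_mul]
      refine Nat.mul_le_mul_right _ ?_
      have h2 := hN a ρ⁻¹
      rwa [Nat.card_eq_fintype_card, Fintype.card_subtype] at h2
  have fin : Nat.card {p : (k : K) → P k // ∏ k, s k (p k) = ρ} = (∏ k, F k).coeff ρ := by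
    rw [hF, Fintype.prod_sum, MonoidAlgebra.coeff_sum, Finsupp.finsetSum_apply,
      Nat.card_eq_fintype_card, Fintype.card_subtype, Finset.card_filter]
    refine Finset.sum_congr rfl fun p _ => ?_
    rw [← map_prod, MonoidAlgebra.of_apply, MonoidAlgebra.coeff_single, Finsupp.single_apply]
  rw [fin]
  exact bound univ ρ

end Pool.MP_35c45d_lc.Ab
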