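import Mathlib
import Pool.Agent.Work.MP_35c45d_lc.ABDefs

set_option autoImplicit false

namespace Pool.MP_35c45d_lc.Ab
open Finset

namespace LabAux

/-- existence of good labels in a finite group -/
def Good (Q : Type) [CommGroup Q] (d : ℕ) (ν : ℝ) : Prop :=
  ∃ (Λ : Type) (_ : Fintype Λ) (_ : Nonempty Λ) (lab : Λ → Fin d → Q),
    (∀ l, ∏ k, lab l k = 1) ∧
    (d = 3 ∨ ∀ l (S : Finset (Fin d)), S.Nonempty → S ≠ univ → ∏ k ∈ S, lab l k ≠ 1) ∧
    ∀ c : Q, (Nat.card {q : Λ × Finset (Fin d) // c * ∏ k ∈ q.2, lab q.1 k = 1} : ℝ)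
      ≤ ν * Fintype.card Λ

/-- lift a tuple with product one along a surjection -/
theorem lift_tuple {G Q : Type} [CommGroup G] [CommGroup Q] (π : G →* Q)
    (hπ : Function.Surjective π) (d : ℕ) (hd : 0 < d) (q : Fin d → Q) (hq : ∏ k, q k = 1) :
    ∃ g : Fin d → G, ∏ k, g k = 1 ∧ ∀ k, π (g k) = q k := by
  choose s hs using hπ
  obtain ⟨e, rfl⟩ : ∃ e, d = e + 1 := ⟨d - 1, by omega⟩
  refine ⟨Fin.cons (∏ k : Fin e, s (q k.succ))⁻¹ (fun k => s (q k.succ)), ?_, ?_⟩
  · rw [Fin.prod_univ_succ]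
    simp
  · intro k
    refine Fin.cases ?_ ?_ k
    · rw [Fin.cons_zero, map_inv, map_prod]
      rw [Fin.prod_univ_succ] at hq
      rw [Finset.prod_congr rfl fun k _ => hs (q k.succ)]
      exact (eq_inv_of_mul_eq_one_left hq).symm
    · intro j
      rw [Fin.cons_succ, hs]

theorem of_quot {X : Type} [CommGroup X] [Finite X] (Xk Y : Subgroup X) (d : ℕ) (hd : 0 < d)
    (ν : ℝ) (hν : 0 ≤ ν) (hg : Good (Xk ⧸ Y.subgroupOf Xk) d ν) :
    ∃ (Λ : Type) (_ : Fintype Λ) (_ : Nonempty Λ) (lab : Λ → Fin d → X),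
      (∀ l k, lab l k ∈ Xk) ∧ (∀ l, ∏ k, lab l k = 1) ∧
      (d = 3 ∨ ∀ l (S : Finset (Fin d)), S.Nonempty → S ≠ univ →
        ∏ k ∈ S, lab l k ≠ 1) ∧
      ∀ c : X, (Nat.card {q : Λ × Finset (Fin d) // c * ∏ k ∈ q.2, lab q.1 k ∈ Y} : ℝ)
        ≤ ν * Fintype.card Λ := by
  obtain ⟨Λ, hF, hN, lab, hprod, hsub, hcount⟩ := hg
  have hlift := fun l => lift_tuple (QuotientGroup.mk' (Y.subgroupOf Xk))
    (QuotientGroup.mk'_surjective _) d hd (lab l) (hprod l)
  choose g hg1 hg2 using hlift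
  have hcoe : ∀ (l : Λ) (S : Finset (Fin d)),
      ∏ k ∈ S, ((g l k : Xk) : X) = ((∏ k ∈ S, g l k : Xk) : X) := by
    intro l S
    exact (map_prod Xk.subtype (fun k => g l k) S).symm
  have hpi : ∀ (l : Λ) (S : Finset (Fin d)),
      (QuotientGroup.mk' (Y.subgroupOf Xk)) (∏ k ∈ S, g l k) = ∏ k ∈ S, lab l k := by
    intro l S
    rw [map_prod]
    exact Finset.prod_congr rfl fun k _ => hg2 l k
  refine ⟨Λ, hF, hN, fun l k => ((g l k : Xk) : X), fun l k => (g l k).2, ?_, ?_, ?_⟩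
  · intro l
    rw [hcoe, hg1]
    rfl
  · rcases hsub with h3 | hs
    · exact Or.inl h3
    · refine Or.inr ?_
      intro l S hS hSu h1
      rw [hcoe] at h1
      have h2 : (∏ k ∈ S, g l k : Xk) = 1 := Subtype.ext h1
      have h3 := hpi l S
      rw [h2, map_one] at h3
      exact hs l S hS hSu h3.symm
  · intro c
    by_cases hex : ∃ q : Λ × Finset (Fin d), c * ∏ k ∈ q.2, ((g q.1 k : Xk) : X) ∈ Y
    · obtain ⟨q0, hq0⟩ := hex
      have hkey : ∀ q : Λ × Finset (Fin d),
          (c * ∏ k ∈ q.2, ((g q.1 k : Xk) : X) ∈ Y) ↔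
          ((∏ k ∈ q0.2, lab q0.1 k)⁻¹ * ∏ k ∈ q.2, lab q.1 k = 1) := by
        intro q
        rw [← hpi q0.1 q0.2, ← hpi q.1 q.2, ← map_inv, ← map_mul]
        have h1 : (QuotientGroup.mk' (Y.subgroupOf Xk))
            ((∏ k ∈ q0.2, g q0.1 k)⁻¹ * ∏ k ∈ q.2, g q.1 k) = 1 ↔
            ((∏ k ∈ q0.2, g q0.1 k)⁻¹ * ∏ k ∈ q.2, g q.1 k) ∈ Y.subgroupOf Xk :=
          QuotientGroup.eq_one_iff _
        rw [h1, Subgroup.mem_subgroupOf, Subgroup.coe_mul, Subgroup.coe_inv, ← hcoe, ← hcoe]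
        have h2 : c * ∏ k ∈ q.2, ((g q.1 k : Xk) : X)
            = (c * ∏ k ∈ q0.2, ((g q0.1 k : Xk) : X)) *
              ((∏ k ∈ q0.2, ((g q0.1 k : Xk) : X))⁻¹ * ∏ k ∈ q.2, ((g q.1 k : Xk) : X)) := by
          group
        rw [h2]
        exact Y.mul_mem_cancel_left hq0
      have hcard : Nat.card {q : Λ × Finset (Fin d) //
          c * ∏ k ∈ q.2, ((g q.1 k : Xk) : X) ∈ Y} =
          Nat.card {q : Λ × Finset (Fin d) //
            (∏ k ∈ q0.2, lab q0.1 k)⁻¹ * ∏ k ∈ q.2, lab q.1 k = 1} :=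
        Nat.card_congr (Equiv.subtypeEquivRight hkey)
      rw [hcard]
      exact hcount _
    · have hemp : IsEmpty {q : Λ × Finset (Fin d) //
          c * ∏ k ∈ q.2, ((g q.1 k : Xk) : X) ∈ Y} := ⟨fun q => hex ⟨q.1, q.2⟩⟩
      rw [Nat.card_of_isEmpty, Nat.cast_zero]
      exact mul_nonneg hν (Nat.cast_nonneg _)

section three

variable {Q : Type} [CommGroup Q] [Fintype Q] [DecidableEq Q]

/-- the multiplicity of a pair of classes -/
def om (p : Q × Q) : ℕ :=
  if p.1 = 1 then (if p.2 = 1 then 0 else 1)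
  else if p.2 = 1 ∨ p.1 * p.2 = 1 then 1 else 6

theorem om_swap (a b : Q) : om (b, a) = om (a, b) := by
  unfold om
  by_cases ha : a = 1 <;> by_cases hb : b = 1 <;> by_cases hab : a * b = 1 <;>
    simp_all [mul_comm b a]

theorem om_mul (a b : Q) : om (a * b, b⁻¹) = om (a, b) := by
  unfold om
  by_cases ha : a = 1 <;> by_cases hb : b = 1 <;> by_cases hab : a * b = 1 <;>
    simp_all

theorem sum_om_right (t : Q) :
    ∑ b : Q, (om (t, b) : ℝ) = if t = 1 then (Fintype.card Q : ℝ) - 1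
      else 6 * Fintype.card Q - 10 := by
  by_cases ht : t = 1
  · rw [if_pos ht]
    have h1 : ∀ b : Q, (om (t, b) : ℝ) = 1 - (if b = 1 then 1 else 0) := by
      intro b
      unfold om
      by_cases hb : b = 1
      · simp [ht, hb]
      · simp [ht, hb]
    rw [Finset.sum_congr rfl fun b _ => h1 b, Finset.sum_sub_distrib]
    simp
  · rw [if_neg ht]
    have h1 : ∀ b : Q, (om (t, b) : ℝ) = 6 - (if b = 1 then 5 else 0)
        - (if b = t⁻¹ then 5 else 0) := by
      intro b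
      unfold om
      by_cases hb : b = 1
      · subst hb
        have h2 : (1 : Q) ≠ t⁻¹ := fun h => ht (by rw [eq_comm, inv_eq_one] at h; exact h)
        simp [ht, h2]
        norm_num
      · by_cases hb2 : b = t⁻¹
        · subst hb2
          have h3 : t⁻¹ ≠ 1 := hb
          simp [ht]
          norm_num
        · have h3 : ¬ (t * b = 1) := fun h => hb2 (eq_inv_of_mul_eq_one_right h)
          simp [ht, hb, hb2, h3]
    rw [Finset.sum_congr rfl fun b _ => h1 b, Finset.sum_sub_distrib, Finset.sum_sub_distrib]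
    simp
    ring

/-- the weight of a class in the first position -/
noncomputable def W (Q : Type) [CommGroup Q] [Fintype Q] [DecidableEq Q] (t : Q) : ℝ :=
  if t = 1 then (Fintype.card Q : ℝ) - 1 else 6 * Fintype.card Q - 10

theorem sum_first (t : Q) :
    ∑ p : Q × Q, (om p : ℝ) * (if p.1 = t then 1 else 0) = W Q t := by
  rw [Fintype.sum_prod_type, Finset.sum_eq_single t]
  · simp only [if_true, mul_one]
    exact sum_om_right t
  · intro a _ hat
    simp [hat]
  · intro h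
    exact absurd (Finset.mem_univ _) h

theorem sum_second (t : Q) :
    ∑ p : Q × Q, (om p : ℝ) * (if p.2 = t then 1 else 0) = W Q t := by
  rw [← sum_first t, ← Equiv.sum_comp (Equiv.prodComm Q Q)]
  refine Finset.sum_congr rfl fun p _ => ?_
  obtain ⟨a, b⟩ := p
  simp only [Equiv.prodComm_apply, Prod.swap_prod_mk]
  rw [om_swap]
  rfl

/-- the change of coordinates -/
def eqv (Q : Type) [CommGroup Q] : Q × Q ≃ Q × Q where
  toFun p := (p.1 * p.2, p.2⁻¹)
  invFun p := (p.1 * p.2, p.2⁻¹)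
  left_inv p := by simp
  right_inv p := by simp

theorem sum_mul (t : Q) :
    ∑ p : Q × Q, (om p : ℝ) * (if p.1 * p.2 = t then 1 else 0) = W Q t := by
  rw [← sum_first t]
  conv_rhs => rw [← Equiv.sum_comp (eqv Q)]
  refine Finset.sum_congr rfl fun p _ => ?_
  obtain ⟨a, b⟩ := p
  simp only [eqv, Equiv.coe_fn_mk]
  rw [om_mul]
  rfl

theorem sum_total :
    ∑ p : Q × Q, (om p : ℝ) = 3 * ((Fintype.card Q : ℝ) - 1) * (2 * Fintype.card Q - 3) := by
  rw [Fintype.sum_prod_type, Finset.sum_congr rfl fun t _ => sum_om_right t]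
  have h1 : ∀ t : Q, (if t = 1 then (Fintype.card Q : ℝ) - 1 else 6 * Fintype.card Q - 10)
      = (6 * Fintype.card Q - 10) + (if t = 1 then ((Fintype.card Q : ℝ) - 1)
        - (6 * Fintype.card Q - 10) else 0) := by
    intro t
    by_cases ht : t = 1
    · simp [ht]
    · simp [ht]
  rw [Finset.sum_congr rfl fun t _ => h1 t, Finset.sum_add_distrib, Finset.sum_ite_eq']
  simp
  ring

/-- the labels -/
def lab3 (l : Σ p : Q × Q, Fin (om p)) : Fin 3 → Q := ![l.1.1, l.1.2, (l.1.1 * l.1.2)⁻¹]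

theorem sum_sigma_om (f : Q × Q → ℝ) :
    ∑ l : (Σ p : Q × Q, Fin (om p)), f l.1 = ∑ p : Q × Q, (om p : ℝ) * f p := by
  rw [Fintype.sum_sigma]
  refine Finset.sum_congr rfl fun p _ => ?_
  simp

theorem univ8 : (univ : Finset (Finset (Fin 3)))
    = {∅, {0}, {1}, {2}, {0, 1}, {0, 2}, {1, 2}, {0, 1, 2}} := by decide

theorem good3 (h : ℕ) (hh : 3 ≤ h) (hQ : h ≤ Fintype.card Q) :
    Good Q 3 ((4 * h - 4) / (2 * h - 3)) := by
  have hn : (h : ℝ) ≤ Fintype.card Q := by exact_mod_cast hQ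
  have hh' : (3 : ℝ) ≤ h := by exact_mod_cast hh
  have hcardL : (Fintype.card (Σ p : Q × Q, Fin (om p)) : ℝ)
      = 3 * ((Fintype.card Q : ℝ) - 1) * (2 * Fintype.card Q - 3) := by
    rw [← sum_total, ← Finset.card_univ, Finset.card_eq_sum_ones]
    push_cast
    have := sum_sigma_om (Q := Q) (fun _ => 1)
    simpa using this
  have hpos : 0 < (Fintype.card (Σ p : Q × Q, Fin (om p)) : ℝ) := by
    rw [hcardL]
    have h1 : 0 < (Fintype.card Q : ℝ) - 1 := by linarith
    have h2 : 0 < 2 * (Fintype.card Q : ℝ) - 3 := by linarith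
    positivity
  have hne : Nonempty (Σ p : Q × Q, Fin (om p)) := by
    rw [← Fintype.card_pos_iff]
    exact_mod_cast hpos
  refine ⟨Σ p : Q × Q, Fin (om p), inferInstance, hne, lab3, ?_, Or.inl rfl, ?_⟩
  · intro l
    rw [Fin.prod_univ_three]
    simp [lab3]
  · intro c
    have hcnt : (Nat.card {q : (Σ p : Q × Q, Fin (om p)) × Finset (Fin 3) //
        c * ∏ k ∈ q.2, lab3 q.1 k = 1} : ℝ) =
        ∑ S : Finset (Fin 3), ∑ p : Q × Q, (om p : ℝ) *
          (if c * ∏ k ∈ S, (![p.1, p.2, (p.1 * p.2)⁻¹] : Fin 3 → Q) k = 1 then 1 else 0) := by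
      rw [Nat.card_eq_fintype_card, Fintype.card_subtype, Finset.card_filter]
      push_cast
      rw [Fintype.sum_prod_type_right]
      refine Finset.sum_congr rfl fun S _ => ?_
      exact sum_sigma_om (fun p => if c * ∏ k ∈ S,
        (![p.1, p.2, (p.1 * p.2)⁻¹] : Fin 3 → Q) k = 1 then (1 : ℝ) else 0)
    have e0 : ∑ p : Q × Q, (om p : ℝ) * (if c * ∏ k ∈ (∅ : Finset (Fin 3)),
        (![p.1, p.2, (p.1 * p.2)⁻¹] : Fin 3 → Q) k = 1 then 1 else 0)
        = if c = 1 then 3 * ((Fintype.card Q : ℝ) - 1) * (2 * Fintype.card Q - 3) else 0 := by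
      rw [← sum_total]
      by_cases hc : c = 1 <;> simp [hc]
    have e7 : ∑ p : Q × Q, (om p : ℝ) * (if c * ∏ k ∈ ({0, 1, 2} : Finset (Fin 3)),
        (![p.1, p.2, (p.1 * p.2)⁻¹] : Fin 3 → Q) k = 1 then 1 else 0)
        = if c = 1 then 3 * ((Fintype.card Q : ℝ) - 1) * (2 * Fintype.card Q - 3) else 0 := by
      rw [← sum_total]
      have h1 : ∀ p : Q × Q, ∏ k ∈ ({0, 1, 2} : Finset (Fin 3)),
        (![p.1, p.2, (p.1 * p.2)⁻¹] : Fin 3 → Q) k = 1 := by
        intro p
        have h2 : ({0, 1, 2} : Finset (Fin 3)) = univ := by decide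
        rw [h2, Fin.prod_univ_three]
        simp
      by_cases hc : c = 1 <;> simp [hc]
    have e1 : ∑ p : Q × Q, (om p : ℝ) * (if c * ∏ k ∈ ({0} : Finset (Fin 3)),
        (![p.1, p.2, (p.1 * p.2)⁻¹] : Fin 3 → Q) k = 1 then 1 else 0) = W Q c⁻¹ := by
      rw [← sum_first]
      refine Finset.sum_congr rfl fun p _ => ?_
      have h1 : c * ∏ k ∈ ({0} : Finset (Fin 3)),
        (![p.1, p.2, (p.1 * p.2)⁻¹] : Fin 3 → Q) k = 1 ↔ p.1 = c⁻¹ := by
        rw [Finset.prod_singleton]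
        simp only [Matrix.cons_val_zero]
        exact mul_eq_one_iff_inv_eq.trans eq_comm
      simp only [h1]
    have e2 : ∑ p : Q × Q, (om p : ℝ) * (if c * ∏ k ∈ ({1} : Finset (Fin 3)),
        (![p.1, p.2, (p.1 * p.2)⁻¹] : Fin 3 → Q) k = 1 then 1 else 0) = W Q c⁻¹ := by
      rw [← sum_second]
      refine Finset.sum_congr rfl fun p _ => ?_
      have h1 : c * ∏ k ∈ ({1} : Finset (Fin 3)),
        (![p.1, p.2, (p.1 * p.2)⁻¹] : Fin 3 → Q) k = 1 ↔ p.2 = c⁻¹ := by
        rw [Finset.prod_singleton]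
        simp only [Matrix.cons_val_one, Matrix.cons_val_zero]
        exact mul_eq_one_iff_inv_eq.trans eq_comm
      simp only [h1]
    have e3 : ∑ p : Q × Q, (om p : ℝ) * (if c * ∏ k ∈ ({2} : Finset (Fin 3)),
        (![p.1, p.2, (p.1 * p.2)⁻¹] : Fin 3 → Q) k = 1 then 1 else 0) = W Q c := by
      rw [← sum_mul]
      refine Finset.sum_congr rfl fun p _ => ?_
      have h1 : c * ∏ k ∈ ({2} : Finset (Fin 3)),
        (![p.1, p.2, (p.1 * p.2)⁻¹] : Fin 3 → Q) k = 1 ↔ p.1 * p.2 = c := by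
        rw [Finset.prod_singleton]
        have h2 : (![p.1, p.2, (p.1 * p.2)⁻¹] : Fin 3 → Q) 2 = (p.1 * p.2)⁻¹ := rfl
        rw [h2, mul_inv_eq_one]
        exact eq_comm
      simp only [h1]
    have e4 : ∑ p : Q × Q, (om p : ℝ) * (if c * ∏ k ∈ ({0, 1} : Finset (Fin 3)),
        (![p.1, p.2, (p.1 * p.2)⁻¹] : Fin 3 → Q) k = 1 then 1 else 0) = W Q c⁻¹ := by
      rw [← sum_mul]
      refine Finset.sum_congr rfl fun p _ => ?_
      have h1 : c * ∏ k ∈ ({0, 1} : Finset (Fin 3)),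
        (![p.1, p.2, (p.1 * p.2)⁻¹] : Fin 3 → Q) k = 1 ↔ p.1 * p.2 = c⁻¹ := by
        rw [Finset.prod_pair (by decide)]
        simp only [Matrix.cons_val_one, Matrix.cons_val_zero]
        exact mul_eq_one_iff_inv_eq.trans eq_comm
      simp only [h1]
    have e5 : ∑ p : Q × Q, (om p : ℝ) * (if c * ∏ k ∈ ({0, 2} : Finset (Fin 3)),
        (![p.1, p.2, (p.1 * p.2)⁻¹] : Fin 3 → Q) k = 1 then 1 else 0) = W Q c := by
      rw [← sum_second]
      refine Finset.sum_congr rfl fun p _ => ?_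
      have h1 : c * ∏ k ∈ ({0, 2} : Finset (Fin 3)),
        (![p.1, p.2, (p.1 * p.2)⁻¹] : Fin 3 → Q) k = 1 ↔ p.2 = c := by
        rw [Finset.prod_pair (by decide)]
        have h2 : (![p.1, p.2, (p.1 * p.2)⁻¹] : Fin 3 → Q) 2 = (p.1 * p.2)⁻¹ := rfl
        have h3 : (![p.1, p.2, (p.1 * p.2)⁻¹] : Fin 3 → Q) 0 = p.1 := rfl
        rw [h2, h3, mul_inv, mul_inv_cancel_left, mul_inv_eq_one]
        exact eq_comm
      simp only [h1]
    have e6 : ∑ p : Q × Q, (om p : ℝ) * (if c * ∏ k ∈ ({1, 2} : Finset (Fin 3)),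
        (![p.1, p.2, (p.1 * p.2)⁻¹] : Fin 3 → Q) k = 1 then 1 else 0) = W Q c := by
      rw [← sum_first]
      refine Finset.sum_congr rfl fun p _ => ?_
      have h1 : c * ∏ k ∈ ({1, 2} : Finset (Fin 3)),
        (![p.1, p.2, (p.1 * p.2)⁻¹] : Fin 3 → Q) k = 1 ↔ p.1 = c := by
        rw [Finset.prod_pair (by decide)]
        have h2 : (![p.1, p.2, (p.1 * p.2)⁻¹] : Fin 3 → Q) 2 = (p.1 * p.2)⁻¹ := rfl
        have h3 : (![p.1, p.2, (p.1 * p.2)⁻¹] : Fin 3 → Q) 1 = p.2 := rfl
        rw [h2, h3, mul_comm p.1 p.2, mul_inv, mul_inv_cancel_left, mul_inv_eq_one]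
        exact eq_comm
      simp only [h1]
    rw [hcnt, univ8]
    rw [Finset.sum_insert (by decide), Finset.sum_insert (by decide),
      Finset.sum_insert (by decide), Finset.sum_insert (by decide),
      Finset.sum_insert (by decide), Finset.sum_insert (by decide),
      Finset.sum_insert (by decide), Finset.sum_singleton]
    rw [e0, e1, e2, e3, e4, e5, e6, e7, hcardL]
    have hden : (0 : ℝ) < 2 * h - 3 := by linarith
    set n : ℝ := (Fintype.card Q : ℝ) with hndef
    have hkey : 12 * (n - 1) ^ 2 ≤ (4 * (h : ℝ) - 4) / (2 * h - 3) *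
        (3 * (n - 1) * (2 * n - 3)) := by
      rw [div_mul_eq_mul_div, le_div_iff₀ hden]
      nlinarith [mul_nonneg (sub_nonneg.2 hn) (by linarith : (0 : ℝ) ≤ n - 1),
        mul_nonneg (mul_nonneg (sub_nonneg.2 hn) (by linarith : (0 : ℝ) ≤ n - 1))
        (by norm_num : (0 : ℝ) ≤ 12)]
    refine le_trans ?_ hkey
    unfold W
    by_cases hc : c = 1
    · simp only [hc, inv_one, if_true]
      rw [← hndef]
      nlinarith
    · have hc' : c⁻¹ ≠ 1 := fun h => hc (inv_eq_one.1 h)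
      simp only [hc, hc', if_false]
      rw [← hndef]
      nlinarith [mul_nonneg (by linarith : (0 : ℝ) ≤ n - 2) (by linarith : (0 : ℝ) ≤ n - 3)]

end three

section many

variable {Q : Type} [CommGroup Q] [Fintype Q] [DecidableEq Q]

theorem fibre_card {G M : Type} [Group G] [Group M] [Fintype G] [Fintype M] [DecidableEq M]
    (f : G →* M) (hf : Function.Surjective f) (t : M) :
    (univ.filter fun g => f g = t).card * Fintype.card M = Fintype.card G := by
  have h1 : Fintype.card G = ∑ s : M, (univ.filter fun g => f g = s).card := by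
    rw [← Finset.card_univ]
    exact Finset.card_eq_sum_card_fiberwise (f := f) (t := univ) (fun _ _ => Finset.mem_univ _)
  rw [h1, Finset.sum_congr rfl fun s _ =>
    MonoidHom.card_fiber_eq_of_mem_range f (hf s) (hf t)]
  rw [Finset.sum_const, Finset.card_univ, smul_eq_mul, mul_comm]

/-- two partial products -/
def twoProd (Q : Type) [CommGroup Q] {d : ℕ} (S : Finset (Fin d)) : (Fin d → Q) →* Q × Q where
  toFun q := (∏ k, q k, ∏ k ∈ S, q k)
  map_one' := by simp
  map_mul' a b := by simp [Finset.prod_mul_distrib]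

theorem twoProd_surj {d : ℕ} (S : Finset (Fin d)) (hS : S.Nonempty) (hS' : S ≠ univ) :
    Function.Surjective (twoProd Q S) := by
  obtain ⟨i, hi⟩ := hS
  obtain ⟨j, hj⟩ : ∃ j, j ∉ S := by
    by_contra hcon
    push Not at hcon
    exact hS' (Finset.eq_univ_iff_forall.2 hcon)
  have hij : i ≠ j := fun h => hj (h ▸ hi)
  rintro ⟨a, b⟩
  refine ⟨Pi.mulSingle i b * Pi.mulSingle j (a * b⁻¹), ?_⟩
  have h1 : ∀ (x : Fin d) (t : Q), ∏ k, (Pi.mulSingle x t : Fin d → Q) k = t := by
    intro x t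
    rw [Finset.prod_eq_single x]
    · simp
    · intro y _ hy
      simp [Pi.mulSingle_eq_of_ne hy]
    · intro h
      exact absurd (Finset.mem_univ _) h
  have h2 : ∏ k ∈ S, (Pi.mulSingle i b : Fin d → Q) k = b := by
    rw [Finset.prod_eq_single i]
    · simp
    · intro y _ hy
      simp [Pi.mulSingle_eq_of_ne hy]
    · intro h
      exact absurd hi h
  have h3 : ∏ k ∈ S, (Pi.mulSingle j (a * b⁻¹) : Fin d → Q) k = 1 := by
    refine Finset.prod_eq_one fun y hy => ?_
    have : y ≠ j := fun h => hj (h ▸ hy)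
    simp [Pi.mulSingle_eq_of_ne this]
  show (∏ k, (Pi.mulSingle i b * Pi.mulSingle j (a * b⁻¹) : Fin d → Q) k,
    ∏ k ∈ S, (Pi.mulSingle i b * Pi.mulSingle j (a * b⁻¹) : Fin d → Q) k) = (a, b)
  simp only [Pi.mul_apply, Finset.prod_mul_distrib]
  rw [h1, h1, h2, h3, mul_one]
  congr 1
  rw [mul_comm b, mul_assoc, inv_mul_cancel, mul_one]

theorem card_two {d : ℕ} (hd : 2 ≤ d) (S : Finset (Fin d)) (hS : S.Nonempty) (hS' : S ≠ univ)
    (t : Q) : (univ.filter fun q : Fin d → Q => ∏ k, q k = 1 ∧ ∏ k ∈ S, q k = t).card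
      = Fintype.card Q ^ (d - 2) := by
  have h1 := fibre_card (twoProd Q S) (twoProd_surj S hS hS') (1, t)
  have h2 : (univ.filter fun q : Fin d → Q => (twoProd Q S) q = (1, t))
      = univ.filter fun q : Fin d → Q => ∏ k, q k = 1 ∧ ∏ k ∈ S, q k = t := by
    refine Finset.filter_congr fun q _ => ?_
    show (∏ k, q k, ∏ k ∈ S, q k) = (1, t) ↔ _
    exact Prod.mk_inj
  rw [h2, Fintype.card_prod, Fintype.card_fun, Fintype.card_fin] at h1
  have hpos : 0 < Fintype.card Q := Fintype.card_pos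
  have h3 : Fintype.card Q ^ d = Fintype.card Q ^ (d - 2) * (Fintype.card Q * Fintype.card Q) := by
    rw [← pow_two, ← pow_add]
    congr 1
    omega
  rw [h3] at h1
  exact Nat.eq_of_mul_eq_mul_right (Nat.mul_pos hpos hpos) h1

/-- the total product -/
def oneProd (Q : Type) [CommGroup Q] (d : ℕ) : (Fin d → Q) →* Q where
  toFun q := ∏ k, q k
  map_one' := by simp
  map_mul' a b := by simp [Finset.prod_mul_distrib]

theorem card_one {d : ℕ} (hd : 1 ≤ d) :
    (univ.filter fun q : Fin d → Q => ∏ k, q k = 1).card = Fintype.card Q ^ (d - 1) := by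
  have hs : Function.Surjective (oneProd Q d) := by
    intro t
    refine ⟨Pi.mulSingle ⟨0, hd⟩ t, ?_⟩
    show ∏ k, (Pi.mulSingle (⟨0, hd⟩ : Fin d) t : Fin d → Q) k = t
    rw [Finset.prod_eq_single (⟨0, hd⟩ : Fin d)]
    · simp
    · intro y _ hy
      simp [Pi.mulSingle_eq_of_ne hy]
    · intro h
      exact absurd (Finset.mem_univ _) h
  have h1 := fibre_card (oneProd Q d) hs 1
  have h2 : (univ.filter fun q : Fin d → Q => (oneProd Q d) q = 1)
      = univ.filter fun q : Fin d → Q => ∏ k, q k = 1 := rfl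
  rw [h2, Fintype.card_fun, Fintype.card_fin] at h1
  have hpos : 0 < Fintype.card Q := Fintype.card_pos
  have h3 : Fintype.card Q ^ d = Fintype.card Q ^ (d - 1) * Fintype.card Q := by
    rw [← pow_succ]
    congr 1
    omega
  rw [h3] at h1
  exact Nat.eq_of_mul_eq_mul_right hpos h1

theorem half_sets (d : ℕ) (z : Fin d) :
    2 * (univ.filter fun S : Finset (Fin d) => z ∈ S).card = 2 ^ d := by
  have h1 : (univ.filter fun S : Finset (Fin d) => z ∈ S).card
      = (univ.filter fun S : Finset (Fin d) => ¬ z ∈ S).card := by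
    refine Finset.card_bij (fun S _ => Sᶜ) ?_ ?_ ?_
    · intro S hS
      simp only [Finset.mem_filter, Finset.mem_univ, true_and] at hS ⊢
      simpa using hS
    · intro S _ T _ h
      exact compl_injective h
    · intro S hS
      refine ⟨Sᶜ, ?_, compl_compl S⟩
      simp only [Finset.mem_filter, Finset.mem_univ, true_and] at hS ⊢
      simpa using hS
  have h2 := Finset.card_filter_add_card_filter_not (s := (univ : Finset (Finset (Fin d))))
    (fun S => z ∈ S)
  rw [Finset.card_univ, Fintype.card_finset, Fintype.card_fin] at h2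
  omega

/-- the tuples used as labels -/
def Tup (Q : Type) [CommGroup Q] (d : ℕ) : Type :=
  {q : Fin d → Q // ∏ k, q k = 1 ∧
    ∀ S : Finset (Fin d), S.Nonempty → S ≠ univ → ∏ k ∈ S, q k ≠ 1}

noncomputable instance (d : ℕ) : Fintype (Tup Q d) := by
  classical
  unfold Tup
  infer_instance

theorem card_tup_ge {d : ℕ} (hd : 2 ≤ d) (hQ : 2 ^ d ≤ Fintype.card Q) :
    Fintype.card Q ^ (d - 1) ≤ 2 * Fintype.card (Tup Q d) := by
  classical
  have hd0 : 0 < d := by omega
  let z : Fin d := ⟨0, hd0⟩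
  let V : Finset (Fin d → Q) := univ.filter fun q => ∏ k, q k = 1
  let F : Finset (Finset (Fin d)) := univ.filter fun S => z ∈ S ∧ S ≠ univ
  let B : Finset (Fin d → Q) := F.biUnion fun S =>
    univ.filter fun q : Fin d → Q => ∏ k, q k = 1 ∧ ∏ k ∈ S, q k = 1
  let T : Finset (Fin d → Q) := univ.filter fun q => ∏ k, q k = 1 ∧
    ∀ S : Finset (Fin d), S.Nonempty → S ≠ univ → ∏ k ∈ S, q k ≠ 1
  have hT : Fintype.card (Tup Q d) = T.card := Fintype.card_subtype _
  have hsub : V ⊆ T ∪ B := by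
    intro q hq
    have hq1 : ∏ k, q k = 1 := (Finset.mem_filter.1 hq).2
    by_cases hgood : ∀ S : Finset (Fin d), S.Nonempty → S ≠ univ → ∏ k ∈ S, q k ≠ 1
    · exact Finset.mem_union_left _ (Finset.mem_filter.2 ⟨Finset.mem_univ _, hq1, hgood⟩)
    · push Not at hgood
      obtain ⟨S, hS, hSu, hS1⟩ := hgood
      refine Finset.mem_union_right _ ?_
      by_cases hz : z ∈ S
      · exact Finset.mem_biUnion.2 ⟨S, Finset.mem_filter.2 ⟨Finset.mem_univ _, hz, hSu⟩,
          Finset.mem_filter.2 ⟨Finset.mem_univ _, hq1, hS1⟩⟩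
      · refine Finset.mem_biUnion.2 ⟨Sᶜ, Finset.mem_filter.2 ⟨Finset.mem_univ _,
          Finset.mem_compl.2 hz, ?_⟩, Finset.mem_filter.2 ⟨Finset.mem_univ _, hq1, ?_⟩⟩
        · intro h
          rw [Finset.compl_eq_univ_iff] at h
          exact hS.ne_empty h
        · have h1 := Finset.prod_mul_prod_compl S q
          rw [hq1, hS1, one_mul] at h1
          exact h1
  have hB : B.card ≤ F.card * Fintype.card Q ^ (d - 2) := by
    refine Finset.card_biUnion_le_card_mul _ _ _ fun S hS => ?_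
    have hS' := (Finset.mem_filter.1 hS).2
    exact (card_two hd S ⟨z, hS'.1⟩ hS'.2 1).le
  have hF : 2 * F.card ≤ 2 ^ d := by
    rw [← half_sets d z]
    refine Nat.mul_le_mul_left 2 (Finset.card_le_card ?_)
    intro S hS
    exact Finset.mem_filter.2 ⟨Finset.mem_univ _, (Finset.mem_filter.1 hS).2.1⟩
  have hV : V.card = Fintype.card Q ^ (d - 1) := card_one (by omega)
  have h1 : V.card ≤ T.card + B.card :=
    (Finset.card_le_card hsub).trans (Finset.card_union_le _ _)
  have h2 : 2 * B.card ≤ Fintype.card Q ^ (d - 1) := by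
    calc 2 * B.card ≤ 2 * (F.card * Fintype.card Q ^ (d - 2)) := Nat.mul_le_mul_left 2 hB
      _ = (2 * F.card) * Fintype.card Q ^ (d - 2) := by ring
      _ ≤ Fintype.card Q * Fintype.card Q ^ (d - 2) := Nat.mul_le_mul_right _ (hF.trans hQ)
      _ = Fintype.card Q ^ (d - 1) := by
          rw [← pow_succ']
          congr 1
          omega
  rw [hV] at h1
  rw [hT]
  omega

theorem goodMany {d : ℕ} (hd : 2 ≤ d) (hQ : 2 ^ d ≤ Fintype.card Q) : Good Q d 4 := by
  classical
  have hlow := card_tup_ge (Q := Q) hd hQ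
  have hQpos : 0 < Fintype.card Q := Fintype.card_pos
  have hpow : 0 < Fintype.card Q ^ (d - 1) := pow_pos hQpos _
  have hne : Nonempty (Tup Q d) := by
    rw [← Fintype.card_pos_iff]
    omega
  refine ⟨Tup Q d, inferInstance, hne, fun l => l.1, fun l => l.2.1, Or.inr fun l => l.2.2, ?_⟩
  intro c
  have hmain : Nat.card {q : Tup Q d × Finset (Fin d) // c * ∏ k ∈ q.2, q.1.1 k = 1}
      ≤ 4 * Fintype.card (Tup Q d) := by
    rw [Nat.card_eq_fintype_card, Fintype.card_subtype, Finset.card_filter,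
      Fintype.sum_prod_type_right]
    have hterm : ∀ S : Finset (Fin d), (∑ l : Tup Q d,
        if c * ∏ k ∈ S, l.1 k = 1 then 1 else 0) ≤
        (if S = ∅ then Fintype.card (Tup Q d) else 0) +
        (if S = univ then Fintype.card (Tup Q d) else 0) + Fintype.card Q ^ (d - 2) := by
      intro S
      have htriv : (∑ l : Tup Q d, if c * ∏ k ∈ S, l.1 k = 1 then 1 else 0)
          ≤ Fintype.card (Tup Q d) := by
        rw [← Finset.card_filter, ← Finset.card_univ]
        exact Finset.card_filter_le _ _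
      by_cases h0 : S = ∅
      · rw [if_pos h0]
        omega
      · by_cases h1 : S = univ
        · rw [if_pos h1]
          omega
        · rw [if_neg h0, if_neg h1, zero_add, zero_add, ← Finset.card_filter]
          rw [← card_two hd S (Finset.nonempty_iff_ne_empty.2 h0) h1 c⁻¹]
          refine Finset.card_le_card_of_injOn (fun l : Tup Q d => l.1) ?_ ?_
          · intro l hl
            have hl' : c * ∏ k ∈ S, l.1 k = 1 := by simpa using hl
            have h3 : ∏ k ∈ S, l.1 k = c⁻¹ := eq_inv_of_mul_eq_one_right hl'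
            exact Finset.mem_coe.2 (Finset.mem_filter.2 ⟨Finset.mem_univ _, l.2.1, h3⟩)
          · intro a _ b _ hab
            exact Subtype.ext hab
    refine (Finset.sum_le_sum fun S _ => hterm S).trans ?_
    rw [Finset.sum_add_distrib, Finset.sum_add_distrib, Finset.sum_ite_eq', Finset.sum_ite_eq',
      if_pos (Finset.mem_univ _), if_pos (Finset.mem_univ _), Finset.sum_const, Finset.card_univ,
      Fintype.card_finset, Fintype.card_fin, smul_eq_mul]
    have h5 : 2 ^ d * Fintype.card Q ^ (d - 2) ≤ Fintype.card Q ^ (d - 1) := by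
      calc 2 ^ d * Fintype.card Q ^ (d - 2) ≤ Fintype.card Q * Fintype.card Q ^ (d - 2) :=
            Nat.mul_le_mul_right _ hQ
        _ = Fintype.card Q ^ (d - 1) := by
            rw [← pow_succ']
            congr 1
            omega
    omega
  have := (Nat.cast_le (α := ℝ)).2 hmain
  push_cast at this
  exact this

end many

end LabAux

open LabAux in
/-- families of labels with product one and spread partial products -/
theorem exists_labels {X : Type} [CommGroup X] [Finite X] (Xk Y : Subgroup X) (h : ℕ)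
    (hh : 3 ≤ h) (hidx : h ≤ Y.relIndex Xk) :
    ∃ (Λ : Type) (_ : Fintype Λ) (_ : Nonempty Λ) (lab : Λ → Fin (deg h) → X),
      (∀ l k, lab l k ∈ Xk) ∧ (∀ l, ∏ k, lab l k = 1) ∧
      (deg h = 3 ∨ ∀ l (S : Finset (Fin (deg h))), S.Nonempty → S ≠ univ →
        ∏ k ∈ S, lab l k ≠ 1) ∧
      ∀ c : X, (Nat.card {q : Λ × Finset (Fin (deg h)) // c * ∏ k ∈ q.2, lab q.1 k ∈ Y} : ℝ)
        ≤ nu h * Fintype.card Λ := by
  classical
  have hh' : (3 : ℝ) ≤ h := by exact_mod_cast hh
  have : Fintype (Xk ⧸ Y.subgroupOf Xk) := Fintype.ofFinite _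
  have hcard : h ≤ Fintype.card (Xk ⧸ Y.subgroupOf Xk) := by
    rw [← Nat.card_eq_fintype_card]
    exact hidx
  by_cases h32 : h < 32
  · have hdeg : deg h = 3 := if_pos h32
    have hnu : nu h = (4 * h - 4) / (2 * h - 3) := if_pos h32
    rw [hdeg, hnu]
    refine of_quot Xk Y 3 (by norm_num) _ ?_ (good3 h hh hcard)
    exact div_nonneg (by linarith) (by linarith)
  · have hdeg : deg h = Nat.log 2 h := if_neg h32
    have hnu : nu h = 4 := if_neg h32
    rw [hdeg, hnu]
    have h5 : 5 ≤ Nat.log 2 h := by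
      refine Nat.le_log_of_pow_le (by norm_num) ?_
      norm_num
      omega
    refine of_quot Xk Y (Nat.log 2 h) (by omega) _ (by norm_num) (goodMany (by omega) ?_)
    exact (Nat.pow_log_le_self 2 (by omega)).trans hcard

end Pool.MP_35c45d_lc.Ab
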