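import Mathlib
import Pool.Agent.Work.MP_35c45d_lc.ABDefs

set_option autoImplicit false

namespace Pool.MP_35c45d_lc.Ab
open Finset

namespace NumAux

lemma choose_step (e j : ℕ) (h1 : 49 * e ≤ 100 * j) (h2 : j < e) :
    ((e.choose (j + 1) : ℕ) : ℝ) ≤ 51 / 49 * ((e.choose j : ℕ) : ℝ) := by
  have h := Nat.choose_succ_right_eq e j
  have h3 : ((e.choose (j + 1) : ℕ) : ℝ) * ((j : ℝ) + 1)
      = ((e.choose j : ℕ) : ℝ) * ((e : ℝ) - j) := by
    have h5 := congrArg (Nat.cast : ℕ → ℝ) h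
    rw [Nat.cast_mul, Nat.cast_mul, Nat.cast_sub h2.le, Nat.cast_add, Nat.cast_one] at h5
    exact h5
  have h4 : 49 * ((e : ℝ) - j) ≤ 51 * ((j : ℝ) + 1) := by
    have : (49 : ℝ) * e ≤ 100 * j := by exact_mod_cast h1
    linarith
  have hj : (0 : ℝ) < (j : ℝ) + 1 := by positivity
  have h6 : (0 : ℝ) ≤ ((e.choose j : ℕ) : ℝ) := Nat.cast_nonneg _
  have : ((e.choose (j + 1) : ℕ) : ℝ) * ((j : ℝ) + 1)
      ≤ (51 / 49 * ((e.choose j : ℕ) : ℝ)) * ((j : ℝ) + 1) := by
    rw [h3]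
    nlinarith [mul_le_mul_of_nonneg_left h4 h6]
  exact le_of_mul_le_mul_right this hj

lemma choose_chain (e a : ℕ) (h1 : 49 * e ≤ 100 * a) (i : ℕ) (h2 : a + i ≤ e / 2) :
    ((e.choose (a + i) : ℕ) : ℝ) ≤ (51 / 49) ^ i * ((e.choose a : ℕ) : ℝ) := by
  induction i with
  | zero => simp
  | succ i ih =>
    have h3 := choose_step e (a + i) (by omega) (by omega)
    have h4 := ih (by omega)
    rw [← add_assoc]
    calc ((e.choose (a + i + 1) : ℕ) : ℝ) ≤ 51 / 49 * ((e.choose (a + i) : ℕ) : ℝ) := h3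
      _ ≤ 51 / 49 * ((51 / 49) ^ i * ((e.choose a : ℕ) : ℝ)) :=
          mul_le_mul_of_nonneg_left h4 (by norm_num)
      _ = _ := by ring

lemma choose_half (e a : ℕ) (h1 : 49 * e ≤ 100 * a) (h2 : a ≤ e / 2) :
    (2 : ℝ) ^ e ≤ (e + 1) * (2451 / 2450) ^ e * ((e.choose a : ℕ) : ℝ) := by
  obtain ⟨m, hm⟩ : ∃ m, e / 2 = a + m := ⟨e / 2 - a, by omega⟩
  have h3 := choose_chain e a h1 m hm.ge
  have h4 : (2 : ℝ) ^ e ≤ ((e : ℝ) + 1) * ((e.choose (e / 2) : ℕ) : ℝ) := by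
    have h5 : 2 ^ e ≤ (e + 1) * e.choose (e / 2) := by
      rw [← Nat.sum_range_choose e]
      calc ∑ m ∈ range (e + 1), e.choose m ≤ ∑ _m ∈ range (e + 1), e.choose (e / 2) :=
            Finset.sum_le_sum fun m _ => Nat.choose_le_middle m e
        _ = _ := by rw [Finset.sum_const, Finset.card_range, smul_eq_mul]
    exact_mod_cast h5
  have h6 : ((51 : ℝ) / 49) ^ m ≤ (2451 / 2450) ^ e := by
    have h7 : (51 : ℝ) / 49 ≤ (2451 / 2450) ^ 100 := by
      have := one_add_mul_le_pow (a := (1 / 2450 : ℝ)) (by norm_num) 100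
      have h8 : (1 : ℝ) + 1 / 2450 = 2451 / 2450 := by norm_num
      rw [h8] at this
      refine le_trans ?_ this
      norm_num
    calc ((51 : ℝ) / 49) ^ m ≤ ((2451 / 2450) ^ 100) ^ m :=
          pow_le_pow_left₀ (by norm_num) h7 m
      _ = (2451 / 2450) ^ (100 * m) := by rw [pow_mul]
      _ ≤ (2451 / 2450) ^ e := pow_le_pow_right₀ (by norm_num) (by omega)
  rw [← hm] at h3
  calc (2 : ℝ) ^ e ≤ ((e : ℝ) + 1) * ((e.choose (e / 2) : ℕ) : ℝ) := h4
    _ ≤ ((e : ℝ) + 1) * ((2451 / 2450) ^ e * ((e.choose a : ℕ) : ℝ)) := by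
        refine mul_le_mul_of_nonneg_left (h3.trans ?_) (by positivity)
        exact mul_le_mul_of_nonneg_right h6 (Nat.cast_nonneg _)
    _ = _ := by ring

lemma choose_low (e a : ℕ) (h1 : 49 * e ≤ 100 * a) (h2 : 100 * a ≤ 51 * e) :
    (2 : ℝ) ^ e ≤ (e + 1) * (2451 / 2450) ^ e * ((e.choose a : ℕ) : ℝ) := by
  by_cases h : a ≤ e / 2
  · exact choose_half e a h1 h
  · have h3 : a ≤ e := by omega
    rw [← Nat.choose_symm h3]
    exact choose_half e (e - a) (by omega) (by omega)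

/-- the inequality at one vertex -/
lemma vertex_num (h : ℕ) (hh : 3 ≤ h) :
    (h : ℝ) ^ 2 * nu h ^ 42 * (301 / 300 * (2451 / 2450)) ^ (21 * deg h) ≤ 2 ^ (21 * deg h) := by
  by_cases h32 : h < 32
  · have hdeg : deg h = 3 := if_pos h32
    have hnu : nu h = (4 * h - 4) / (2 * h - 3) := if_pos h32
    rw [hdeg, hnu]
    interval_cases h <;> norm_num
  · have hdeg : deg h = Nat.log 2 h := if_neg h32
    have hnu : nu h = 4 := if_neg h32
    rw [hdeg, hnu]
    have h5 : 5 ≤ Nat.log 2 h := by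
      refine Nat.le_log_of_pow_le (by norm_num) ?_
      norm_num
      omega
    obtain ⟨d, hd⟩ : ∃ d, Nat.log 2 h = d + 5 := ⟨Nat.log 2 h - 5, by omega⟩
    have hlt : h < 2 ^ (d + 6) := by
      have := Nat.lt_pow_succ_log_self (b := 2) (by norm_num) h
      rw [hd] at this
      exact this
    have hlt' : (h : ℝ) ≤ 2 ^ (d + 6) := by exact_mod_cast hlt.le
    rw [hd]
    have e1 : ((301 : ℝ) / 300 * (2451 / 2450)) ^ (21 * (d + 5)) ≤ (2 : ℝ) ^ (9 + 19 * d) := by
      have h6 : ((301 : ℝ) / 300 * (2451 / 2450)) ^ 21 ≤ 2 ^ 1 := by norm_num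
      have h7 : ((301 : ℝ) / 300 * (2451 / 2450)) ^ (21 * (d + 5)) ≤ (2 ^ 1) ^ (d + 5) := by
        rw [pow_mul]
        exact pow_le_pow_left₀ (by positivity) h6 _
      refine h7.trans ?_
      rw [← pow_mul]
      exact pow_le_pow_right₀ (by norm_num) (by omega)
    calc (h : ℝ) ^ 2 * 4 ^ 42 * (301 / 300 * (2451 / 2450)) ^ (21 * (d + 5))
        ≤ ((2 : ℝ) ^ (d + 6)) ^ 2 * 4 ^ 42 * (2 : ℝ) ^ (9 + 19 * d) := by
          refine mul_le_mul ?_ e1 (by positivity) (by positivity)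
          refine mul_le_mul_of_nonneg_right ?_ (by positivity)
          exact pow_le_pow_left₀ (Nat.cast_nonneg _) hlt' 2
      _ = 2 ^ (21 * (d + 5)) := by
          have h8 : (4 : ℝ) ^ 42 = 2 ^ 84 := by norm_num
          rw [h8, ← pow_mul, ← pow_add, ← pow_add]
          congr 1
          omega

lemma nu_pos (h : ℕ) (hh : 3 ≤ h) : 0 < nu h := by
  unfold nu
  have hh' : (3 : ℝ) ≤ h := by exact_mod_cast hh
  split_ifs
  · exact div_pos (by linarith) (by linarith)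
  · norm_num

end NumAux

open NumAux in
/-- the final inequality -/
theorem numeric : ∃ C₁ : ℕ, ∀ (q : ℕ) (h : Fin q → ℕ) (_ : ∀ p, 3 ≤ h p) (D R e k : ℕ)
    (_ : e = ∑ p, deg (h p)) (_ : k = (49 * e + 99) / 100) (_ : 50 * (D + 1) ≤ e)
    (_ : (e.factorial : ℝ) ≤ R * (∑ a ∈ Icc k (k + D), (a.factorial : ℝ) * (e - a).factorial)
      * ∏ p, nu (h p) ^ 2),
    ∏ p, h p ^ 2 ≤ (C₁ * (R * (D + 1))) ^ 21 := by
  refine ⟨300, ?_⟩
  intro q h hh D R e k he hk hD hmain
  set P : ℝ := ∏ p, nu (h p) ^ 2 with hP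
  have hPpos : 0 < P := Finset.prod_pos fun p _ => pow_pos (nu_pos _ (hh p)) 2
  set r : ℝ := 2451 / 2450 with hr
  have hrpos : 0 < r := by rw [hr]; norm_num
  set t : ℝ := 301 / 300 with ht
  have htpos : 0 < t := by rw [ht]; norm_num
  -- the binomial coefficients
  have hterm : ∀ a ∈ Icc k (k + D), (a.factorial : ℝ) * (e - a).factorial * 2 ^ e ≤
      (e.factorial : ℝ) * ((e + 1) * r ^ e) := by
    intro a ha
    rw [mem_Icc] at ha
    have h1 := choose_low e a (by omega) (by omega)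
    have hae : a ≤ e := by omega
    have h2 : (e.choose a : ℝ) * (a.factorial : ℝ) * ((e - a).factorial : ℝ)
        = (e.factorial : ℝ) := by
      exact_mod_cast Nat.choose_mul_factorial_mul_factorial hae
    have h3 : (0 : ℝ) ≤ (a.factorial : ℝ) * (e - a).factorial := by positivity
    calc (a.factorial : ℝ) * (e - a).factorial * 2 ^ e
        ≤ (a.factorial : ℝ) * (e - a).factorial *
          ((e + 1) * r ^ e * ((e.choose a : ℕ) : ℝ)) := mul_le_mul_of_nonneg_left h1 h3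
      _ = ((e.choose a : ℝ) * (a.factorial : ℝ) * ((e - a).factorial : ℝ)) *
          ((e + 1) * r ^ e) := by ring
      _ = _ := by rw [h2]
  have hsum : (∑ a ∈ Icc k (k + D), (a.factorial : ℝ) * (e - a).factorial) * 2 ^ e ≤
      (D + 1) * ((e.factorial : ℝ) * ((e + 1) * r ^ e)) := by
    rw [Finset.sum_mul]
    refine (Finset.sum_le_sum hterm).trans (le_of_eq ?_)
    rw [Finset.sum_const, Nat.card_Icc, nsmul_eq_mul]
    have : k + D + 1 - k = D + 1 := by omega
    rw [this]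
    push_cast
    ring
  have hmain2 : (2 : ℝ) ^ e ≤ R * (D + 1) * ((e + 1) * r ^ e) * P := by
    have hef : (0 : ℝ) < e.factorial := by exact_mod_cast Nat.factorial_pos e
    have h1 : (e.factorial : ℝ) * 2 ^ e ≤
        (e.factorial : ℝ) * (R * (D + 1) * ((e + 1) * r ^ e) * P) := by
      calc (e.factorial : ℝ) * 2 ^ e
          ≤ (R * (∑ a ∈ Icc k (k + D), (a.factorial : ℝ) * (e - a).factorial) * P) * 2 ^ e :=
            mul_le_mul_of_nonneg_right hmain (by positivity)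
        _ = R * P * ((∑ a ∈ Icc k (k + D), (a.factorial : ℝ) * (e - a).factorial) * 2 ^ e) := by
            ring
        _ ≤ R * P * ((D + 1) * ((e.factorial : ℝ) * ((e + 1) * r ^ e))) :=
            mul_le_mul_of_nonneg_left hsum (by positivity)
        _ = _ := by ring
    exact le_of_mul_le_mul_left h1 hef
  -- the vertices
  have hvert : (∏ p, (h p : ℝ) ^ 2) * P ^ 21 * (t * r) ^ (21 * e) ≤ 2 ^ (21 * e) := by
    have h1 : ∏ p, ((h p : ℝ) ^ 2 * nu (h p) ^ 42 * (t * r) ^ (21 * deg (h p))) ≤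
        ∏ p, (2 : ℝ) ^ (21 * deg (h p)) := by
      refine Finset.prod_le_prod (fun p _ => ?_) fun p _ => vertex_num (h p) (hh p)
      have := nu_pos (h p) (hh p)
      positivity
    rw [Finset.prod_mul_distrib, Finset.prod_mul_distrib, Finset.prod_pow_eq_pow_sum,
      Finset.prod_pow_eq_pow_sum, ← Finset.mul_sum, ← he] at h1
    have h2 : ∏ p, nu (h p) ^ 42 = P ^ 21 := by
      rw [hP, ← Finset.prod_pow]
      refine Finset.prod_congr rfl fun p _ => ?_
      rw [← pow_mul]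
    rw [h2] at h1
    exact h1
  have hbern : (e : ℝ) + 1 ≤ 300 * t ^ e := by
    have h1 := one_add_mul_le_pow (a := (1 / 300 : ℝ)) (by norm_num) e
    have h2 : (1 : ℝ) + 1 / 300 = t := by rw [ht]; norm_num
    rw [h2] at h1
    linarith
  have hfin : (∏ p, (h p : ℝ) ^ 2) ≤ (300 * ((R : ℝ) * (D + 1))) ^ 21 := by
    have h1 : (2 : ℝ) ^ (21 * e) ≤ (R * (D + 1) * ((e + 1) * r ^ e) * P) ^ 21 := by
      rw [mul_comm 21 e, pow_mul]
      exact pow_le_pow_left₀ (by positivity) hmain2 21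
    have h2 : (R * (D + 1) * ((e + 1) * r ^ e) * P) ^ 21 ≤
        (R * (D + 1) * ((300 * t ^ e) * r ^ e) * P) ^ 21 := by
      refine pow_le_pow_left₀ (by positivity) ?_ 21
      refine mul_le_mul_of_nonneg_right ?_ hPpos.le
      refine mul_le_mul_of_nonneg_left ?_ (by positivity)
      exact mul_le_mul_of_nonneg_right hbern (by positivity)
    have h3 : (R * (D + 1) * ((300 * t ^ e) * r ^ e) * P) ^ 21 =
        (300 * ((R : ℝ) * (D + 1))) ^ 21 * (P ^ 21 * (t * r) ^ (21 * e)) := by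
      rw [mul_comm 21 e, pow_mul, ← mul_pow, ← mul_pow, mul_pow t r]
      ring
    have h4 : (∏ p, (h p : ℝ) ^ 2) * (P ^ 21 * (t * r) ^ (21 * e)) ≤
        (300 * ((R : ℝ) * (D + 1))) ^ 21 * (P ^ 21 * (t * r) ^ (21 * e)) := by
      rw [← h3, ← mul_assoc]
      exact hvert.trans (h1.trans h2)
    exact le_of_mul_le_mul_right h4 (by positivity)
  exact_mod_cast hfin

end Pool.MP_35c45d_lc.Ab
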