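import Mathlib
import Pool.Agent.Work.MP_35c45d_lc.ABDefs

set_option autoImplicit false

namespace Pool.MP_35c45d_lc.Ab
open Finset

namespace Pair

lemma pairing {r : ℕ} (h : Fin r → ℕ) (c : ℕ) : ∀ (S : Finset (Fin r)), #S ≤ c →
    ∀ M : ℕ, 1 ≤ M → (∀ k ∈ S, h k ≤ M) →
    ∃ (q : ℕ) (i j : Fin q → Fin r), Function.Injective i ∧ Function.Injective j ∧
      (∀ a b, i a ≠ j b) ∧ (∀ p, i p ∈ S) ∧ (∀ p, j p ∈ S) ∧
      ∏ k ∈ S, h k ≤ M * ∏ p, (min (h (i p)) (h (j p))) ^ 2 := by
  induction c with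
  | zero =>
    intro S hS M hM _
    have hS0 : S = ∅ := Finset.card_eq_zero.mp (by omega)
    subst hS0
    exact ⟨0, Fin.elim0, Fin.elim0, fun a => a.elim0, fun a => a.elim0, fun a => a.elim0,
      fun a => a.elim0, fun a => a.elim0, by simpa using hM⟩
  | succ c ih =>
    intro S hS M hM hle
    have triv : ∏ k ∈ S, h k ≤ M →
        ∃ (q : ℕ) (i j : Fin q → Fin r), Function.Injective i ∧ Function.Injective j ∧
          (∀ a b, i a ≠ j b) ∧ (∀ p, i p ∈ S) ∧ (∀ p, j p ∈ S) ∧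
          ∏ k ∈ S, h k ≤ M * ∏ p, (min (h (i p)) (h (j p))) ^ 2 := fun h1 =>
      ⟨0, Fin.elim0, Fin.elim0, fun a => a.elim0, fun a => a.elim0, fun a => a.elim0,
        fun a => a.elim0, fun a => a.elim0, by simpa using h1⟩
    rcases S.eq_empty_or_nonempty with h0 | h0
    · apply triv
      rw [h0]
      simpa using hM
    obtain ⟨x, hx, hxmax⟩ := S.exists_max_image h h0
    rcases (S.erase x).eq_empty_or_nonempty with h1 | h1
    · apply triv
      rw [← Finset.mul_prod_erase S h hx, h1]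
      simpa using hle x hx
    obtain ⟨y, hy, hymax⟩ := (S.erase x).exists_max_image h h1
    have hyS : y ∈ S := Finset.mem_of_mem_erase hy
    have hyx : y ≠ x := Finset.ne_of_mem_erase hy
    rcases Nat.eq_zero_or_pos (h y) with h2 | h2
    · apply triv
      rw [Finset.prod_eq_zero hyS h2]
      exact Nat.zero_le _
    set S' := (S.erase x).erase y with hS'
    have hcard : #S' ≤ c := by
      rw [hS', Finset.card_erase_of_mem hy, Finset.card_erase_of_mem hx]
      omega
    obtain ⟨q, i, j, hi, hj, hij, hiS, hjS, hprod⟩ := ih S' hcard (h y) h2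
      (fun k hk => hymax k (Finset.mem_of_mem_erase hk))
    have hsub : ∀ k ∈ S', k ∈ S ∧ k ≠ x ∧ k ≠ y := fun k hk =>
      ⟨Finset.mem_of_mem_erase (Finset.mem_of_mem_erase hk),
        Finset.ne_of_mem_erase (Finset.mem_of_mem_erase hk), Finset.ne_of_mem_erase hk⟩
    refine ⟨q + 1, Fin.cons x i, Fin.cons y j, ?_, ?_, ?_, ?_, ?_, ?_⟩
    · rw [Fin.cons_injective_iff]
      refine ⟨?_, hi⟩
      rintro ⟨p, hp⟩
      exact (hsub _ (hiS p)).2.1 hp
    · rw [Fin.cons_injective_iff]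
      refine ⟨?_, hj⟩
      rintro ⟨p, hp⟩
      exact (hsub _ (hjS p)).2.2 hp
    · intro a b
      refine Fin.cases ?_ ?_ a
      · refine Fin.cases ?_ ?_ b
        · simpa using hyx.symm
        · intro b
          simpa using (hsub _ (hjS b)).2.1.symm
      · intro a
        refine Fin.cases ?_ ?_ b
        · simpa using (hsub _ (hiS a)).2.2
        · intro b
          simpa using hij a b
    · intro p
      refine Fin.cases ?_ ?_ p
      · simpa using hx
      · intro p
        simpa using (hsub _ (hiS p)).1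
    · intro p
      refine Fin.cases ?_ ?_ p
      · simpa using hyS
      · intro p
        simpa using (hsub _ (hjS p)).1
    · rw [Fin.prod_univ_succ, ← Finset.mul_prod_erase S h hx,
        ← Finset.mul_prod_erase (S.erase x) h hy]
      simp only [Fin.cons_succ, Fin.cons_zero]
      have h3 : min (h x) (h y) = h y := min_eq_right (hxmax y hyS)
      rw [h3]
      calc h x * (h y * ∏ k ∈ S', h k)
          ≤ M * (h y * (h y * ∏ p, (min (h (i p)) (h (j p))) ^ 2)) :=
            Nat.mul_le_mul (hle x hx) (Nat.mul_le_mul_left _ hprod)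
        _ = _ := by ring

end Pair

/-- pairing in decreasing order -/
theorem exists_pairing {r : ℕ} (h : Fin r → ℕ) (B : ℕ) (hB : 1 ≤ B) (hhB : ∀ k, h k ≤ B) :
    ∃ (q : ℕ) (i j : Fin q → Fin r), Function.Injective (Sum.elim i j) ∧
      ∏ k, h k ≤ B * ∏ p, (min (h (i p)) (h (j p))) ^ 2 := by
  obtain ⟨q, i, j, hi, hj, hij, -, -, hprod⟩ := Pair.pairing h _ univ le_rfl B hB
    (fun k _ => hhB k)
  exact ⟨q, i, j, hi.sumElim hj hij, hprod⟩

theorem sq_le_deg (h : ℕ) : h ^ 2 ≤ 2 ^ (4 * deg h) := by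
  unfold deg
  split_ifs with h1
  · calc h ^ 2 ≤ 31 ^ 2 := Nat.pow_le_pow_left (by omega) 2
      _ ≤ 2 ^ (4 * 3) := by norm_num
  · have h2 : 5 ≤ Nat.log 2 h := by
      apply (Nat.le_log_iff_pow_le (by norm_num) (by omega)).mpr
      omega
    have h3 : h < 2 ^ (Nat.log 2 h + 1) := Nat.lt_pow_succ_log_self (by norm_num) h
    calc h ^ 2 ≤ (2 ^ (Nat.log 2 h + 1)) ^ 2 := Nat.pow_le_pow_left h3.le 2
      _ = 2 ^ ((Nat.log 2 h + 1) * 2) := by rw [pow_mul]
      _ ≤ 2 ^ (4 * Nat.log 2 h) := Nat.pow_le_pow_right (by norm_num) (by omega)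

end Pool.MP_35c45d_lc.Ab
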