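import Mathlib
import Pool.Agent.Work.MP_35c45d_lc.ABLab
import Pool.Agent.Work.MP_35c45d_lc.ABElim

set_option autoImplicit false
set_option linter.unusedSectionVars false

namespace Pool.MP_35c45d_lc.Ab
open Finset

/-- The labels of the rows and columns with the bound for the number of solutions. -/
theorem labels_pkg {m : ℕ} (Γ : Subgroup (Equiv.Perm (Fin m))) {q : ℕ} (x y : Fin q → Fin m)
    (h' : Fin q → ℕ) (YY : Fin q ⊕ Fin q → Subgroup (Γ →* ℂˣ)) (rk : Fin q ⊕ Fin q → ℕ)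
    (hrk : Function.Injective rk) (h3 : ∀ p, 3 ≤ h' p)
    (hidx : ∀ κ, Sum.elim h' h' κ ≤ (YY κ).relIndex (XS Γ (Sum.elim x y κ)))
    (hY : ∀ κ κ', rk κ' < rk κ → XS Γ (Sum.elim x y κ') ≤ YY κ) :
    ∃ (LR LC : Fin q → Type) (_ : ∀ p, Fintype (LR p)) (_ : ∀ p, Fintype (LC p))
      (rl : (p : Fin q) → LR p → Fin (deg (h' p)) → (Γ →* ℂˣ))
      (cl : (p : Fin q) → LC p → Fin (deg (h' p)) → (Γ →* ℂˣ)) (Bnd : ℕ),
      (∀ p l k, rl p l k ∈ XS Γ (x p)) ∧ (∀ p l k, cl p l k ∈ XS Γ (y p)) ∧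
      (∀ p l, ∏ k, rl p l k = 1) ∧ (∀ p l, ∏ k, cl p l k = 1) ∧
      (∀ p, deg (h' p) = 3 ∨ ∀ l (S : Finset (Fin (deg (h' p)))), S.Nonempty → S ≠ univ →
        ∏ k ∈ S, rl p l k ≠ 1) ∧
      (∀ p, deg (h' p) = 3 ∨ ∀ l (S : Finset (Fin (deg (h' p)))), S.Nonempty → S ≠ univ →
        ∏ k ∈ S, cl p l k ≠ 1) ∧
      0 < (∏ p, Fintype.card (LR p)) * (∏ p, Fintype.card (LC p)) ∧
      (∀ ρ, Nat.card {t : ((p : Fin q) → LR p × Finset (Fin (deg (h' p)))) ×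
        ((p : Fin q) → LC p × Finset (Fin (deg (h' p)))) //
      (∏ p, ∏ k ∈ (t.1 p).2, rl p (t.1 p).1 k) * (∏ p, ∏ k ∈ (t.2 p).2, cl p (t.2 p).1 k) = ρ}
        ≤ Bnd) ∧
      (Bnd : ℝ) ≤ (∏ p, nu (h' p) ^ 2) *
        (((∏ p, Fintype.card (LR p)) * (∏ p, Fintype.card (LC p)) : ℕ) : ℝ) := by
  classical
  have hlab := fun κ : Fin q ⊕ Fin q => exists_labels (XS Γ (Sum.elim x y κ)) (YY κ)
    (Sum.elim h' h' κ) (by rcases κ with p | p <;> exact h3 p) (hidx κ)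
  choose Λ fin nem lab hl1 hl2 hl3 hl4 using hlab
  have hnu : ∀ κ, 0 ≤ nu (Sum.elim h' h' κ) := by
    intro κ
    have h5 : 3 ≤ Sum.elim h' h' κ := by rcases κ with p | p <;> exact h3 p
    unfold nu
    split_ifs
    · have h6 : (3 : ℝ) ≤ (Sum.elim h' h' κ : ℕ) := by exact_mod_cast h5
      exact div_nonneg (by linarith) (by linarith)
    · norm_num
  let N : Fin q ⊕ Fin q → ℕ := fun κ => ⌊nu (Sum.elim h' h' κ) * Fintype.card (Λ κ)⌋₊
  have hel := elim (X := (Γ →* ℂˣ)) rk hrk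
    (P := fun κ => Λ κ × Finset (Fin (deg (Sum.elim h' h' κ))))
    (fun κ t => ∏ k ∈ t.2, lab κ t.1 k) YY
    (fun κ κ' hκ t => (YY κ).prod_mem fun k _ => hY κ κ' hκ (hl1 κ' t.1 k)) N
    (fun κ c => Nat.le_floor (hl4 κ c))
  refine ⟨fun p => Λ (Sum.inl p), fun p => Λ (Sum.inr p), fun p => fin _, fun p => fin _,
    fun p => lab (Sum.inl p), fun p => lab (Sum.inr p), ∏ κ, N κ, fun p => hl1 (Sum.inl p),
    fun p => hl1 (Sum.inr p), fun p => hl2 (Sum.inl p), fun p => hl2 (Sum.inr p),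
    fun p => hl3 (Sum.inl p), fun p => hl3 (Sum.inr p), ?_, ?_, ?_⟩
  · refine Nat.mul_pos (prod_pos fun p _ => ?_) (prod_pos fun p _ => ?_)
    · have := nem (Sum.inl p)
      exact Fintype.card_pos
    · have := nem (Sum.inr p)
      exact Fintype.card_pos
  · intro ρ
    refine le_trans (le_of_eq ?_) (hel ρ)
    refine Nat.card_congr (Equiv.subtypeEquiv
      (Equiv.sumPiEquivProdPi (fun κ => Λ κ × Finset (Fin (deg (Sum.elim h' h' κ))))).symm ?_)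
    rintro ⟨t1, t2⟩
    rw [Fintype.prod_sum_type]
    rfl
  · rw [Fintype.prod_sum_type, Nat.cast_mul, Nat.cast_prod, Nat.cast_prod]
    have hle : ∀ κ, (N κ : ℝ) ≤ nu (Sum.elim h' h' κ) * Fintype.card (Λ κ) := fun κ =>
      Nat.floor_le (mul_nonneg (hnu κ) (Nat.cast_nonneg _))
    have e1 : ∏ p : Fin q, (N (Sum.inl p) : ℝ)
        ≤ ∏ p : Fin q, (nu (h' p) * Fintype.card (Λ (Sum.inl p))) :=
      prod_le_prod (fun _ _ => Nat.cast_nonneg _) fun p _ => hle (Sum.inl p)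
    have e2 : ∏ p : Fin q, (N (Sum.inr p) : ℝ)
        ≤ ∏ p : Fin q, (nu (h' p) * Fintype.card (Λ (Sum.inr p))) :=
      prod_le_prod (fun _ _ => Nat.cast_nonneg _) fun p _ => hle (Sum.inr p)
    refine (mul_le_mul e1 e2 (prod_nonneg fun _ _ => Nat.cast_nonneg _)
      (prod_nonneg fun p _ => mul_nonneg (hnu (Sum.inl p)) (Nat.cast_nonneg _))).trans
      (le_of_eq ?_)
    rw [← prod_mul_distrib, Nat.cast_mul, Nat.cast_prod, Nat.cast_prod, ← prod_mul_distrib,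
      ← prod_mul_distrib]
    refine prod_congr rfl fun p _ => ?_
    ring

end Pool.MP_35c45d_lc.Ab
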