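import Mathlib
import Pool.Agent.Work.MP_35c45d_lc.ABCore
import Pool.Agent.Work.MP_35c45d_lc.ABChain
import Pool.Agent.Work.MP_35c45d_lc.ABPkg
import Pool.Agent.Work.MP_35c45d_lc.ABPair
import Pool.Agent.Work.MP_35c45d_lc.ABNum

set_option autoImplicit false
set_option linter.unusedSectionVars false

namespace Pool.MP_35c45d_lc.Ab
open Finset MvPolynomial Filter Topology Pool.MP_35c45d_lc.PermEq2 Pool.MP_35c45d_lc.OnePerm

theorem one_le_deg {h : ℕ} : 1 ≤ deg h := by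
  unfold deg
  split_ifs
  · norm_num
  · exact Nat.le_log_of_pow_le (by norm_num) (by omega)

section

variable {m : ℕ} (Γ : Subgroup (Equiv.Perm (Fin m)))
    (hcomm : ∀ a ∈ Γ, ∀ b ∈ Γ, a * b = b * a)

include hcomm

/-- The counting inequality for a pairing of the chain. -/
theorem key_ineq {n D M : ℕ} (hn : 1 ≤ n) (N : ℕ → ℕ)
    (A : (k : ℕ) → Fin (N k) → Matrix (Fin n) (Fin n) (MvPolynomial (Fin m × Fin m) ℂ))
    (hN : ∀ k, N k ≤ M)
    (hdeg : ∀ k s i j, (A k s i j).totalDegree ≤ D)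
    (hsym : ∀ k s, ∀ γ : Γ, PlainAt (A k s) γ ∨ TransAt (A k s) γ)
    (hns : ∀ k, N k = 1 ∨ ∀ s, ∃ X₀ : Fin m × Fin m → ℂ,
      (∀ γ : Γ, ∀ z, X₀ (act (γ : Equiv.Perm (Fin m)) z) = X₀ z) ∧
        ((A k s).map (eval X₀)).det ≠ 0)
    (hlim : ∀ d, Tendsto (fun k => coeff d (∑ s, (A k s).det)) atTop
      (𝓝 (coeff d (permPoly m))))
    {r : ℕ} (x : Fin r → Fin m) (h : Fin r → ℕ) (Y : Fin r → Subgroup (Γ →* ℂˣ))
    (hch : ∀ k, 3 ≤ h k ∧ h k ≤ m ∧ h k ≤ (Y k).relIndex (XS Γ (x k)) ∧ 3 ≤ #(orb Γ (x k)))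
    (hYc : ∀ k k', k' < k → XS Γ (x k') ≤ Y k)
    (hdis : ∀ k k', k ≠ k' → Disjoint (orb Γ (x k)) (orb Γ (x k')))
    {q : ℕ} (i j : Fin q → Fin r) (hinj : Function.Injective (Sum.elim i j))
    (e k₀ : ℕ) (he : e = ∑ p, deg (min (h (i p)) (h (j p)))) (hk₀ : k₀ ≤ e) :
    (e.factorial : ℝ) ≤ ((M * (2 * n ^ 2) : ℕ) : ℝ)
      * (∑ a ∈ Icc k₀ (k₀ + D), (a.factorial : ℝ) * (e - a).factorial)
      * ∏ p, nu (min (h (i p)) (h (j p))) ^ 2 := by
  classical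
  set h' : Fin q → ℕ := fun p => min (h (i p)) (h (j p)) with hh'
  have h3 : ∀ p, 3 ≤ h' p := fun p => le_min (hch _).1 (hch _).1
  obtain ⟨LR, LC, fR, fC, rl, cl, Bnd, hl1, hl2, hl3, hl4, hl5, hl6, hl7, hl8, hl9⟩ :=
    labels_pkg Γ (fun p => x (i p)) (fun p => x (j p)) h' (fun κ => Y (Sum.elim i j κ))
      (fun κ => (Sum.elim i j κ : Fin r).val) (Fin.val_injective.comp hinj) h3
      (by
        intro κ
        rcases κ with p | p
        · exact (min_le_left _ _).trans (hch (i p)).2.2.1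
        · exact (min_le_right _ _).trans (hch (j p)).2.2.1)
      (by
        intro κ κ' hκ
        rcases κ' with p | p
        · exact hYc _ _ (Fin.lt_def.mpr hκ)
        · exact hYc _ _ (Fin.lt_def.mpr hκ))
  have hii : ∀ p p', p ≠ p' → i p ≠ i p' := by
    intro p p' hpp h0
    have := hinj (a₁ := Sum.inl p) (a₂ := Sum.inl p') h0
    exact hpp (Sum.inl_injective this)
  have hjj : ∀ p p', p ≠ p' → j p ≠ j p' := by
    intro p p' hpp h0
    have := hinj (a₁ := Sum.inr p) (a₂ := Sum.inr p') h0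
    exact hpp (Sum.inr_injective this)
  have hM : ∀ k, (∑ s, (A k s).det).totalDegree ≤ n * D := fun k =>
    (totalDegree_finsetSum _ _).trans (Finset.sup_le fun s _ => totalDegree_det _ _ (hdeg k s))
  -- the coefficients of the permanent
  have hperm : ∀ (φ : Equiv.Perm (Σ p, Fin (deg (h' p)))) (l : (p : Fin q) → LR p)
      (l' : (p : Fin q) → LC p), cf univ (ev (fun _ => 1)
      (Zm Γ (fun p => deg (h' p)) (fun p => x (i p)) (fun p => x (j p)) rl cl φ l l')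
      (permPoly m)) ≠ 0 := by
    intro φ l l'
    refine cf_perm_ne (fun p => deg (h' p)) (fun p => orb Γ (x (i p)))
      (fun p => orb Γ (x (j p))) (fun p p' hpp => hdis _ _ (hii p p' hpp))
      (fun p p' hpp => hdis _ _ (hjj p p' hpp))
      (fun e z => vec Γ (x (i e.1)) (rl e.1 (l e.1) e.2) z)
      (fun e z => vec Γ (x (j e.1)) (cl e.1 (l' e.1) e.2) z)
      (fun e z hz => vec_eq_zero Γ _ _ _ hz) (fun e z hz => vec_eq_zero Γ _ _ _ hz)
      (fun p => ⟨_, vertex_ne Γ hcomm (x (i p)) (deg (h' p)) one_le_deg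
        (fun k => rl p (l p) k) (fun k => hl1 p (l p) k) (hl3 p (l p)) ?_⟩)
      (fun p => ⟨_, vertex_ne Γ hcomm (x (j p)) (deg (h' p)) one_le_deg
        (fun k => cl p (l' p) k) (fun k => hl2 p (l' p) k) (hl4 p (l' p)) ?_⟩) φ
    · rcases hl5 p with h5 | h5
      · exact Or.inl ⟨h5, (hch _).2.2.2⟩
      · exact Or.inr fun S => h5 (l p) S
    · rcases hl6 p with h5 | h5
      · exact Or.inl ⟨h5, (hch _).2.2.2⟩
      · exact Or.inr fun S => h5 (l' p) S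
  -- choice of the index of the sequence
  have h4 : ∀ᶠ k in atTop, ∀ t : Equiv.Perm (Σ p, Fin (deg (h' p))) × ((p : Fin q) → LR p) ×
      ((p : Fin q) → LC p), cf univ (ev (fun _ => 1)
        (Zm Γ (fun p => deg (h' p)) (fun p => x (i p)) (fun p => x (j p)) rl cl t.1 t.2.1 t.2.2)
        (∑ s, (A k s).det)) ≠ 0 := by
    rw [Filter.eventually_all]
    intro t
    have h5 := tendsto_functional ((cf Finset.univ).comp
      (ev (fun _ => 1) (Zm Γ (fun p => deg (h' p)) (fun p => x (i p)) (fun p => x (j p)) rl cl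
        t.1 t.2.1 t.2.2)).toLinearMap) _ _ _ hM hlim
    exact h5.eventually_ne (hperm t.1 t.2.1 t.2.2)
  have h5 : ∀ᶠ k in atTop, eval (fun _ => 1) (∑ s, (A k s).det) ≠ 0 := by
    have h6 := tendsto_functional ((aeval (fun _ => 1 : Fin m × Fin m → ℂ)).toLinearMap)
      _ _ _ hM hlim
    have h7 : (aeval (fun _ => 1 : Fin m × Fin m → ℂ)).toLinearMap (permPoly m) ≠ 0 := by
      have h8 : (aeval (fun _ => 1 : Fin m × Fin m → ℂ)).toLinearMap (permPoly m)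
          = ((Fintype.card (Equiv.Perm (Fin m)) : ℕ) : ℂ) := by
        rw [AlgHom.toLinearMap_apply, permPoly, Matrix.permanent, map_sum]
        simp only [map_prod, Matrix.of_apply, aeval_X, Finset.prod_const_one, Finset.sum_const,
          Finset.card_univ, nsmul_eq_mul, mul_one]
      rw [h8, Nat.cast_ne_zero]
      exact Fintype.card_ne_zero
    have h9 := h6.eventually_ne h7
    refine h9.mono fun k hk => ?_
    rw [AlgHom.toLinearMap_apply, aeval_eq_eval] at hk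
    exact hk
  obtain ⟨k, hk1, hk2⟩ := (h4.and h5).exists
  have hns' : ∀ s, ∃ X₀ : Fin m × Fin m → ℂ,
      (∀ γ : Γ, ∀ z, X₀ (act (γ : Equiv.Perm (Fin m)) z) = X₀ z) ∧
        ((A k s).map (eval X₀)).det ≠ 0 := by
    intro s
    rcases hns k with h6 | h6
    · refine ⟨fun _ => 1, fun _ _ => rfl, ?_⟩
      have h7 : Subsingleton (Fin (N k)) := by rw [h6]; infer_instance
      have h8 : ∑ s, (A k s).det = (A k s).det :=
        Fintype.sum_eq_single s fun x hx => absurd (Subsingleton.elim x s) hx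
      rw [h8, RingHom.map_det] at hk2
      exact hk2
    · exact h6 s
  have h6 := core Γ (fun p => deg (h' p)) (fun p => x (i p)) (fun p => x (j p)) rl cl hl1 hl2
    hn (A k) D k₀ (hk₀.trans he.le) (hdeg k) (hsym k) hns' (fun φ l l' => hk1 (φ, l, l')) Bnd hl8
  rw [← he] at h6
  -- division by the number of labels
  set c := (∏ p, Fintype.card (LR p)) * (∏ p, Fintype.card (LC p)) with hc
  have hc0 : (0 : ℝ) < (c : ℝ) := by exact_mod_cast hl7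
  have h7 : (e.factorial : ℝ) * c ≤ (((M * (2 * n ^ 2) : ℕ) : ℝ)
      * (∑ a ∈ Icc k₀ (k₀ + D), (a.factorial : ℝ) * (e - a).factorial)
      * ∏ p, nu (h' p) ^ 2) * c := by
    have h8 : ((e.factorial * c : ℕ) : ℝ) ≤ ((N k * (2 * n ^ 2) *
      ((∑ a ∈ Icc k₀ (k₀ + D), a.factorial * (e - a).factorial) * Bnd) : ℕ) : ℝ) := by
      exact_mod_cast h6
    push_cast at h8 ⊢
    refine h8.trans ?_
    have h9 : (N k : ℝ) ≤ M := by exact_mod_cast hN k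
    have h10 : (0 : ℝ) ≤ ∑ a ∈ Icc k₀ (k₀ + D), (a.factorial : ℝ) * (e - a).factorial :=
      sum_nonneg fun _ _ => by positivity
    calc (N k : ℝ) * (2 * n ^ 2) * ((∑ a ∈ Icc k₀ (k₀ + D), (a.factorial : ℝ)
          * (e - a).factorial) * Bnd)
        ≤ (M : ℝ) * (2 * n ^ 2) * ((∑ a ∈ Icc k₀ (k₀ + D), (a.factorial : ℝ)
          * (e - a).factorial) * ((∏ p, nu (h' p) ^ 2) * c)) := by
          gcongr
      _ = _ := by ring
  exact le_of_mul_le_mul_right h7 hc0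

end

theorem final_arith (m n D M B P c e F : ℕ) (hn : 1 ≤ n) (hM1 : 1 ≤ M)
    (hmM : m ≤ n * D) (hpair : c ≤ m * F)
    (hF : F ≤ (B * P) ^ (D + 1) * ((D + 1) * (M * n ^ 2)) ^ 21) (hce : e ≤ c) :
    e ≤ (2 ^ 22 * (B * P)) ^ (D + 1) * (M * n ^ 2) ^ 22 := by
  have hnMn : n ≤ M * n ^ 2 := by
    calc n = 1 * (n * 1) := by ring
      _ ≤ M * (n * n) := Nat.mul_le_mul hM1 (Nat.mul_le_mul_left _ hn)
      _ = M * n ^ 2 := by ring
  have h2D : D + 1 ≤ 2 ^ (D + 1) := Nat.lt_two_pow_self.le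
  obtain ⟨Z, hZ⟩ : ∃ Z, Z = (B * P) ^ (D + 1) := ⟨_, rfl⟩
  obtain ⟨W, hW⟩ : ∃ W, W = M * n ^ 2 := ⟨_, rfl⟩
  rw [← hZ, ← hW] at hF
  rw [← hW] at hnMn
  calc e ≤ c := hce
    _ ≤ m * F := hpair
    _ ≤ (n * D) * (Z * ((D + 1) * W) ^ 21) := Nat.mul_le_mul hmM hF
    _ ≤ ((D + 1) * W) * (Z * ((D + 1) * W) ^ 21) := by
        refine Nat.mul_le_mul_right _ ?_
        rw [mul_comm n D]
        exact Nat.mul_le_mul (Nat.le_succ D) hnMn
    _ = Z * (D + 1) ^ 22 * W ^ 22 := by ring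
    _ ≤ Z * (2 ^ (D + 1)) ^ 22 * W ^ 22 := by
        gcongr
    _ = (2 ^ 22 * (B * P)) ^ (D + 1) * (M * n ^ 2) ^ 22 := by
        rw [mul_pow (2 ^ 22) _ (D + 1), ← hZ, ← hW, ← pow_mul 2 22 (D + 1),
          ← pow_mul 2 (D + 1) 22, mul_comm 22 (D + 1), mul_comm (2 ^ ((D + 1) * 22)) Z]

theorem main_arith (B P C₁ D M n F : ℕ) (hB1 : 1 ≤ B) (hP : P = (2 * C₁ + 1) ^ 21)
    (h1 : F ≤ (C₁ * (M * (2 * n ^ 2) * (D + 1))) ^ 21) :
    F ≤ (B * P) ^ (D + 1) * ((D + 1) * (M * n ^ 2)) ^ 21 := by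
  refine h1.trans ?_
  have hP1 : (2 * C₁) ^ 21 ≤ P := by
    rw [hP]
    exact Nat.pow_le_pow_left (Nat.le_succ _) _
  have hP0 : 1 ≤ P := by
    rw [hP]
    exact Nat.one_le_pow _ _ (Nat.succ_pos _)
  have hBP : 1 ≤ B * P := Nat.mul_pos hB1 hP0
  calc (C₁ * (M * (2 * n ^ 2) * (D + 1))) ^ 21
      = (2 * C₁) ^ 21 * ((D + 1) * (M * n ^ 2)) ^ 21 := by
        rw [← mul_pow]
        congr 1
        ring
    _ ≤ (B * P) ^ (D + 1) * ((D + 1) * (M * n ^ 2)) ^ 21 := by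
        refine Nat.mul_le_mul_right _ ?_
        calc (2 * C₁) ^ 21 ≤ P := hP1
          _ = 1 * P := (one_mul _).symm
          _ ≤ B * P := Nat.mul_le_mul_right _ hB1
          _ = (B * P) ^ 1 := (pow_one _).symm
          _ ≤ _ := Nat.pow_le_pow_right hBP (Nat.succ_pos D)

theorem small_arith (B P D M n e F : ℕ) (hB : B = 2 ^ 200) (hP : 1 ≤ P) (hM : 1 ≤ M) (hn : 1 ≤ n)
    (h1 : F ≤ 2 ^ (4 * e)) (he : e < 50 * (D + 1)) :
    F ≤ (B * P) ^ (D + 1) * ((D + 1) * (M * n ^ 2)) ^ 21 := by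
  have h2 : 2 ^ (4 * e) ≤ B ^ (D + 1) := by
    rw [hB, ← pow_mul]
    exact Nat.pow_le_pow_right Nat.two_pos (by omega)
  have h3 : B ^ (D + 1) ≤ (B * P) ^ (D + 1) :=
    Nat.pow_le_pow_left (Nat.le_mul_of_pos_right _ hP) _
  have hMn : 1 ≤ M * n ^ 2 := Nat.mul_pos hM (Nat.pow_pos hn)
  have h4 : 1 ≤ ((D + 1) * (M * n ^ 2)) ^ 21 :=
    Nat.one_le_pow _ _ (Nat.mul_pos (Nat.succ_pos D) hMn)
  calc F ≤ (B * P) ^ (D + 1) := h1.trans (h2.trans h3)
    _ = (B * P) ^ (D + 1) * 1 := (mul_one _).symm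
    _ ≤ _ := Nat.mul_le_mul_left _ h4

/-- The lower bound for abelian groups. -/
theorem main_ab : ∃ C₀ : ℕ, ∀ (m n D M : ℕ) (_ : 1 ≤ m) (Γ : Subgroup (Equiv.Perm (Fin m)))
    (_ : ∀ a ∈ Γ, ∀ b ∈ Γ, a * b = b * a) (N : ℕ → ℕ)
    (A : (k : ℕ) → Fin (N k) → Matrix (Fin n) (Fin n) (MvPolynomial (Fin m × Fin m) ℂ))
    (_ : ∀ k, N k ≤ M)
    (_ : ∀ k s i j, (A k s i j).totalDegree ≤ D)
    (_ : ∀ k s, ∀ γ : Γ, PlainAt (A k s) γ ∨ TransAt (A k s) γ)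
    (_ : ∀ k, N k = 1 ∨ ∀ s, ∃ X₀ : Fin m × Fin m → ℂ,
      (∀ γ : Γ, ∀ z, X₀ (act (γ : Equiv.Perm (Fin m)) z) = X₀ z) ∧
        ((A k s).map (eval X₀)).det ≠ 0)
    (_ : ∀ d, Tendsto (fun k => coeff d (∑ s, (A k s).det)) atTop
      (𝓝 (coeff d (permPoly m)))),
    ∃ Γ' : Subgroup (Equiv.Perm (Fin m)), Γ' ≤ Γ ∧
      (∀ y, ((fun γ : Equiv.Perm (Fin m) => γ y) '' (Γ' : Set (Equiv.Perm (Fin m)))).ncard ≤ 2) ∧
      Nat.card Γ ≤ C₀ ^ (D + 1) * (M * n ^ 2) ^ 22 * Nat.card Γ' := by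
  classical
  obtain ⟨C₁, hC₁⟩ := numeric
  obtain ⟨B, hB⟩ : ∃ B : ℕ, B = 2 ^ 200 := ⟨_, rfl⟩
  have hB1 : 1 ≤ B := by rw [hB]; exact Nat.one_le_two_pow
  obtain ⟨P, hP⟩ : ∃ P : ℕ, P = (2 * C₁ + 1) ^ 21 := ⟨_, rfl⟩
  have hP1 : 1 ≤ P := by rw [hP]; exact Nat.one_le_pow _ _ (Nat.succ_pos _)
  refine ⟨2 ^ 22 * (B * P), ?_⟩
  intro m n D M hm Γ hcomm N A hN hdeg hsym hns hlim
  have hM : ∀ k, (∑ s, (A k s).det).totalDegree ≤ n * D := fun k =>
    (totalDegree_finsetSum _ _).trans (Finset.sup_le fun s _ => totalDegree_det _ _ (hdeg k s))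
  have hmM := degree_ge m _ _ hM hlim
  have hn : 1 ≤ n := by
    rcases Nat.eq_zero_or_pos n with h0 | h0
    · subst h0
      rw [Nat.zero_mul] at hmM
      exact absurd (hm.trans hmM) (by norm_num)
    · exact h0
  have hM1 : 1 ≤ M := by
    by_contra h0
    have h1 : M = 0 := Nat.lt_one_iff.mp (not_le.mp h0)
    have h2 : ∀ k, (∑ s, (A k s).det).totalDegree ≤ 0 := by
      intro k
      have h3 : N k = 0 := Nat.le_zero.mp ((hN k).trans h1.le)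
      have h4 : IsEmpty (Fin (N k)) := by rw [h3]; infer_instance
      rw [Finset.univ_eq_empty, Finset.sum_empty, totalDegree_zero]
    exact absurd (hm.trans (degree_ge m _ _ h2 hlim)) (by norm_num)
  obtain ⟨r, x, h, Y, hch, hYc, hdis, Γ', hΓ1, hΓ2, hcard⟩ := exists_chain Γ hcomm
  obtain ⟨q, i, j, hinj, hpair⟩ := exists_pairing h m hm (fun k => (hch k).2.1)
  obtain ⟨e, he⟩ : ∃ e, e = ∑ p, deg (min (h (i p)) (h (j p))) := ⟨_, rfl⟩
  refine ⟨Γ', hΓ1, hΓ2, ?_⟩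
  rw [hcard]
  refine Nat.mul_le_mul_right _ ?_
  refine final_arith m n D M B P _ _ _ hn hM1 hmM hpair ?_ le_rfl
  by_cases hcase : 50 * (D + 1) ≤ e
  · have hk0 : (49 * e + 99) / 100 ≤ e := by omega
    have hkey := key_ineq Γ hcomm hn N A hN hdeg hsym hns hlim x h Y hch hYc hdis i j hinj
      e ((49 * e + 99) / 100) he hk0
    have h1 := hC₁ q (fun p => min (h (i p)) (h (j p)))
      (fun p => le_min (hch _).1 (hch _).1) D (M * (2 * n ^ 2)) e _ he rfl hcase hkey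
    exact main_arith B P C₁ D M n _ hB1 hP h1
  · have h1 : ∏ p, (min (h (i p)) (h (j p))) ^ 2 ≤ 2 ^ (4 * e) := by
      refine (prod_le_prod' fun p _ => sq_le_deg _).trans (le_of_eq ?_)
      rw [prod_pow_eq_pow_sum, ← mul_sum, ← he]
    exact small_arith B P D M n e _ hB hP1 hM1 hn h1 (not_le.mp hcase)

end Pool.MP_35c45d_lc.Ab
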