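import Mathlib
import Pool.Agent.Work.MP_35c45d_lc.PENewton

set_option autoImplicit false

namespace Pool.MP_35c45d_lc.OnePerm
open MvPolynomial

namespace Upper

/-- index set: main nodes and nodes `(k, j, a, b)` -/
abbrev Ix (n : ℕ) := Fin (n + 1) ⊕ (Fin (n + 1) × Fin (n + 1) × Fin n × Fin n)

instance decBig {G : Type*} [DecidableEq G] (n : ℕ) : DecidableEq ((Ix n × G) ⊕ Unit) :=
  @instDecidableEqSum (Ix n × G) Unit inferInstance inferInstance

open PermEq2 (ecoef dpoly newton)

variable {R : Type*} [CommRing R] [Algebra ℂ R] {n : ℕ}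

/-- the weighted acyclic graph -/
noncomputable def Lm (M : Matrix (Fin n) (Fin n) R) : Matrix (Ix n) (Ix n) R
  | Sum.inl _, Sum.inl _ => 0
  | Sum.inl k, Sum.inr (k', j, a, b) => if k' = k ∧ (j : ℕ) = 0 ∧ a = b then 1 else 0
  | Sum.inr (k, j, a, b), Sum.inr (k', j', a', c) =>
      if k' = k ∧ (j' : ℕ) = j + 1 ∧ a' = a then M b c else 0
  | Sum.inr (k, j, a, b), Sum.inl k' =>
      if a = b ∧ 1 ≤ (j : ℕ) ∧ (k' : ℕ) = k + j then
        algebraMap ℂ R ((-1) ^ ((j : ℕ) - 1) / (k' : ℕ)) else 0

/-- the row vector -/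
noncomputable def rv (M : Matrix (Fin n) (Fin n) R) : Ix n → R
  | Sum.inl k => ecoef k M
  | Sum.inr (k, j, a, b) => ecoef k M * (M ^ (j : ℕ)) a b

/-- the starting vector -/
def dz : Ix n → R
  | Sum.inl k => if (k : ℕ) = 0 then 1 else 0
  | Sum.inr _ => 0

/-- indicator of the main nodes -/
def mv : Ix n → R
  | Sum.inl _ => 1
  | Sum.inr _ => 0

/-- rank of the nodes -/
def rk : Ix n → ℕ
  | Sum.inl k => 3 * (k : ℕ) + 1
  | Sum.inr (k, j, _, _) => if (j : ℕ) = 0 then 3 * (k : ℕ) + 2 else 3 * ((k : ℕ) + j)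

theorem Lm_rk (M : Matrix (Fin n) (Fin n) R) (x y : Ix n) (h : rk y ≤ rk x) : Lm M x y = 0 := by
  rcases x with k | ⟨k, j, a, b⟩ <;> rcases y with k' | ⟨k', j', a', b'⟩
  · rfl
  · simp only [Lm]
    rw [if_neg]
    rintro ⟨h1, h2, h3⟩
    subst h1
    simp only [rk, h2, if_true] at h
    omega
  · simp only [Lm]
    rw [if_neg]
    rintro ⟨h1, h2, h3⟩
    simp only [rk] at h
    split_ifs at h <;> omega
  · simp only [Lm]
    rw [if_neg]
    rintro ⟨h1, h2, h3⟩
    subst h1
    simp only [rk] at h
    split_ifs at h <;> omega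

theorem det_one_sub (M : Matrix (Fin n) (Fin n) R) : (1 - Lm M).det = 1 := by
  have hb : (1 - Lm M).BlockTriangular rk := by
    intro x y hxy
    have h1 : x ≠ y := by rintro rfl; exact lt_irrefl _ hxy
    rw [Matrix.sub_apply, Matrix.one_apply_ne h1, Lm_rk M x y hxy.le, sub_zero]
  rw [hb.det]
  apply Finset.prod_eq_one
  intro a _
  have : (1 - Lm M).toSquareBlock rk a = 1 := by
    ext x y
    rw [Matrix.toSquareBlock_def, Matrix.of_apply, Matrix.sub_apply,
      Lm_rk M x.1 y.1 (by rw [x.2, y.2]), sub_zero, Matrix.one_apply, Matrix.one_apply]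
    simp only [Subtype.ext_iff]
  rw [this, Matrix.det_one]

omit [Algebra ℂ R] in
theorem ecoef_zero (M : Matrix (Fin n) (Fin n) R) : ecoef 0 M = 1 := by
  simp only [ecoef, dpoly]
  rw [Polynomial.coeff_zero_eq_eval_zero, eval_det_add_X_smul]
  simp

/-- Newton's identity in the form `r = δ + r L` -/
theorem rv_eq (M : Matrix (Fin n) (Fin n) R) (y : Ix n) :
    ∑ x, rv M x * Lm M x y = rv M y - dz y := by
  rw [Fintype.sum_sum_type]
  rcases y with k' | ⟨k', j', a', c⟩
  · -- main node
    have h0 : ∑ k : Fin (n + 1), rv M (Sum.inl k) * Lm M (Sum.inl k) (Sum.inl k') = 0 := by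
      apply Finset.sum_eq_zero
      intro k _
      simp only [Lm, mul_zero]
    rw [h0, zero_add]
    rcases Nat.eq_zero_or_pos (k' : ℕ) with hk | hk
    · have h1 : rv M (Sum.inl k') = 1 := by
        simp only [rv, hk]
        exact ecoef_zero M
      have h2 : dz (Sum.inl k') = (1 : R) := by
        simp only [dz, hk, if_true]
      rw [h1, h2, sub_self]
      apply Finset.sum_eq_zero
      rintro ⟨k, j, a, b⟩ _
      simp only [Lm]
      rw [if_neg (by rintro ⟨-, h1, h2⟩; omega), mul_zero]
    · have h2 : dz (Sum.inl k') = (0 : R) := by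
        simp only [dz]
        rw [if_neg (by omega)]
      rw [h2, sub_zero]
      -- reduce to the sum over k and j
      have h3 : ∀ (k j : Fin (n + 1)), ∑ a : Fin n, ∑ b : Fin n,
          rv M (Sum.inr (k, j, a, b)) * Lm M (Sum.inr (k, j, a, b)) (Sum.inl k') =
          if 1 ≤ (j : ℕ) ∧ (k' : ℕ) = k + j then
            ecoef k M * Matrix.trace (M ^ (j : ℕ)) *
              algebraMap ℂ R ((-1) ^ ((j : ℕ) - 1) / (k' : ℕ)) else 0 := by
        intro k j
        split_ifs with hc
        · rw [Matrix.trace, Finset.mul_sum, Finset.sum_mul]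
          refine Finset.sum_congr rfl fun a _ => ?_
          rw [Finset.sum_eq_single a]
          · simp only [rv, Lm]
            rw [if_pos ⟨trivial, hc.1, hc.2⟩]
            rfl
          · intro b _ hb
            simp only [Lm]
            rw [if_neg (by rintro ⟨h, -⟩; exact hb h.symm), mul_zero]
          · intro h
            exact absurd (Finset.mem_univ _) h
        · apply Finset.sum_eq_zero
          intro a _
          apply Finset.sum_eq_zero
          intro b _
          simp only [Lm]
          rw [if_neg (by rintro ⟨-, h⟩; exact hc h), mul_zero]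
      rw [Fintype.sum_prod_type]
      simp only [Fintype.sum_prod_type, h3]
      -- Newton
      obtain ⟨κ, hκ⟩ : ∃ κ : ℕ, (k' : ℕ) = κ + 1 := ⟨k' - 1, by omega⟩
      have hN := newton M κ
      have hlt := k'.2
      have h5 : ∑ k : Fin (n + 1), ∑ j : Fin (n + 1), (if 1 ≤ (j : ℕ) ∧ (k' : ℕ) = k + j then
            ecoef k M * Matrix.trace (M ^ (j : ℕ)) *
              algebraMap ℂ R ((-1) ^ ((j : ℕ) - 1) / (k' : ℕ)) else 0) =
          ∑ i ∈ Finset.range (κ + 1), ecoef (κ - i) M * Matrix.trace (M ^ (1 + i)) *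
              algebraMap ℂ R ((-1) ^ i / (k' : ℕ)) := by
        rw [Finset.sum_comm]
        have h6 : ∀ j : Fin (n + 1), ∑ k : Fin (n + 1), (if 1 ≤ (j : ℕ) ∧ (k' : ℕ) = k + j then
            ecoef k M * Matrix.trace (M ^ (j : ℕ)) *
              algebraMap ℂ R ((-1) ^ ((j : ℕ) - 1) / (k' : ℕ)) else 0) =
            (fun j : ℕ => if 1 ≤ j ∧ j ≤ κ + 1 then ecoef (κ + 1 - j) M *
              Matrix.trace (M ^ j) * algebraMap ℂ R ((-1) ^ (j - 1) / (k' : ℕ)) else 0) (j : ℕ) := by
          intro j
          simp only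
          split_ifs with hc
          · rw [Finset.sum_eq_single ⟨κ + 1 - j, by omega⟩]
            · rw [if_pos ⟨hc.1, by simp only; omega⟩]
            · intro b _ hb
              rw [if_neg]
              rintro ⟨h7, h8⟩
              apply hb
              apply Fin.ext
              simp only
              omega
            · intro h
              exact absurd (Finset.mem_univ _) h
          · apply Finset.sum_eq_zero
            intro k _
            rw [if_neg]
            rintro ⟨h7, h8⟩
            exact hc ⟨h7, by omega⟩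
        rw [Finset.sum_congr rfl fun j _ => h6 j]
        rw [Fin.sum_univ_eq_sum_range (fun j : ℕ => if 1 ≤ j ∧ j ≤ κ + 1 then
          ecoef (κ + 1 - j) M * Matrix.trace (M ^ j) *
            algebraMap ℂ R ((-1) ^ (j - 1) / (k' : ℕ)) else 0) (n + 1)]
        rw [← Finset.sum_filter]
        symm
        refine Finset.sum_bij (fun i _ => i + 1) ?_ ?_ ?_ ?_
        · intro i hi
          rw [Finset.mem_range] at hi
          rw [Finset.mem_filter, Finset.mem_range]
          omega
        · intro i _ i' _ h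
          omega
        · intro j hj
          rw [Finset.mem_filter, Finset.mem_range] at hj
          exact ⟨j - 1, by rw [Finset.mem_range]; omega, by omega⟩
        · intro i hi
          rw [Finset.mem_range] at hi
          rw [show κ + 1 - (i + 1) = κ - i by omega, show 1 + i = i + 1 by omega,
            show i + 1 - 1 = i by omega]
      rw [h5]
      have h7 : rv M (Sum.inl k') = ecoef (κ + 1) M := by
        simp only [rv, hκ]
      rw [h7]
      have hk0 : ((k' : ℕ) : ℂ) ≠ 0 := by
        rw [hκ]; exact_mod_cast Nat.succ_ne_zero κ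
      have h8 : algebraMap ℂ R (1 / (k' : ℕ)) * ((κ + 1 : R) * ecoef (κ + 1) M) =
          ecoef (κ + 1) M := by
        have h9 : (κ + 1 : R) = algebraMap ℂ R ((k' : ℕ) : ℂ) := by
          rw [hκ, map_natCast]; push_cast; rfl
        rw [h9, ← mul_assoc, ← map_mul, one_div, inv_mul_cancel₀ hk0, map_one, one_mul]
      rw [← h8, hN, Finset.mul_sum]
      refine Finset.sum_congr rfl fun i _ => ?_
      have h9 : algebraMap ℂ R ((-1) ^ i / (k' : ℕ)) =
          algebraMap ℂ R (1 / (k' : ℕ)) * (-1) ^ i := by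
        rw [div_eq_mul_one_div, map_mul, map_pow, map_neg, map_one, mul_comm]
      rw [h9]
      ring
  · -- other nodes
    have h2 : dz (Sum.inr (k', j', a', c)) = (0 : R) := rfl
    rw [h2, sub_zero]
    rcases Nat.eq_zero_or_pos (j' : ℕ) with hj | hj
    · have h3 : ∑ x : Fin (n + 1) × Fin (n + 1) × Fin n × Fin n,
          rv M (Sum.inr x) * Lm M (Sum.inr x) (Sum.inr (k', j', a', c)) = 0 := by
        apply Finset.sum_eq_zero
        rintro ⟨k, j, a, b⟩ _
        simp only [Lm]
        rw [if_neg (by rintro ⟨-, h, -⟩; omega), mul_zero]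
      rw [h3, add_zero, Finset.sum_eq_single k']
      · simp only [rv, Lm, hj, pow_zero, Matrix.one_apply, true_and]
      · intro k _ hk
        simp only [Lm]
        rw [if_neg (by rintro ⟨h, -⟩; exact hk h.symm), mul_zero]
      · intro h
        exact absurd (Finset.mem_univ _) h
    · have h3 : ∑ k : Fin (n + 1), rv M (Sum.inl k) *
          Lm M (Sum.inl k) (Sum.inr (k', j', a', c)) = 0 := by
        apply Finset.sum_eq_zero
        intro k _
        simp only [Lm]
        rw [if_neg (by rintro ⟨-, h, -⟩; omega), mul_zero]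
      rw [h3, zero_add]
      obtain ⟨j₀, hj₀⟩ : ∃ j₀ : ℕ, (j' : ℕ) = j₀ + 1 := ⟨j' - 1, by omega⟩
      have hlt := j'.2
      simp only [Fintype.sum_prod_type]
      rw [Finset.sum_eq_single k', Finset.sum_eq_single ⟨j₀, by omega⟩, Finset.sum_eq_single a']
      · have h4 : rv M (Sum.inr (k', j', a', c)) =
            ∑ b, ecoef k' M * ((M ^ j₀) a' b * M b c) := by
          simp only [rv, hj₀, pow_succ, Matrix.mul_apply, Finset.mul_sum]
        rw [h4]
        refine Finset.sum_congr rfl fun b _ => ?_
        simp only [rv, Lm]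
        rw [if_pos ⟨trivial, hj₀, trivial⟩, mul_assoc]
      · intro a _ ha
        apply Finset.sum_eq_zero
        intro b _
        simp only [Lm]
        rw [if_neg (by rintro ⟨-, -, h⟩; exact ha h.symm), mul_zero]
      · intro h
        exact absurd (Finset.mem_univ _) h
      · intro j _ hj2
        apply Finset.sum_eq_zero
        intro a _
        apply Finset.sum_eq_zero
        intro b _
        simp only [Lm]
        rw [if_neg, mul_zero]
        rintro ⟨-, h, -⟩
        apply hj2
        apply Fin.ext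
        simp only
        omega
      · intro h
        exact absurd (Finset.mem_univ _) h
      · intro k _ hk
        apply Finset.sum_eq_zero
        intro j _
        apply Finset.sum_eq_zero
        intro a _
        apply Finset.sum_eq_zero
        intro b _
        simp only [Lm]
        rw [if_neg (by rintro ⟨h, -⟩; exact hk h.symm), mul_zero]
      · intro h
        exact absurd (Finset.mem_univ _) h

theorem rv_mul (M : Matrix (Fin n) (Fin n) R) (y : Ix n) :
    ∑ x, rv M x * (1 - Lm M) x y = dz y := by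
  have h1 : ∑ x, rv M x * (1 - Lm M) x y = ∑ x, rv M x * (1 : Matrix (Ix n) (Ix n) R) x y -
      ∑ x, rv M x * Lm M x y := by
    rw [← Finset.sum_sub_distrib]
    refine Finset.sum_congr rfl fun x _ => ?_
    rw [Matrix.sub_apply, mul_sub]
  rw [h1, rv_eq]
  have h2 : ∑ x, rv M x * (1 : Matrix (Ix n) (Ix n) R) x y = rv M y := by
    rw [Finset.sum_eq_single y]
    · rw [Matrix.one_apply_eq, mul_one]
    · intro x _ hx
      rw [Matrix.one_apply_ne hx, mul_zero]
    · intro h
      exact absurd (Finset.mem_univ _) h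
  rw [h2]
  ring

omit [Algebra ℂ R] in
theorem sum_rv (M : Matrix (Fin n) (Fin n) R) : ∑ x, rv M x * mv x = (1 + M).det := by
  rw [Fintype.sum_sum_type]
  simp only [mv, mul_zero, mul_one, Finset.sum_const_zero, add_zero, rv]
  rw [Fin.sum_univ_eq_sum_range (fun k => ecoef k M) (n + 1)]
  have h1 : (1 + M).det = (dpoly M).eval 1 := by
    have h := (Polynomial.evalRingHom (1 : R)).map_det
      (1 + (Polynomial.X : Polynomial R) • M.map Polynomial.C)
    rw [Polynomial.coe_evalRingHom] at h
    rw [dpoly, h]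
    congr 1
    ext i j
    simp [Matrix.add_apply, Matrix.one_apply, apply_ite (Polynomial.eval (1 : R))]
  have hdeg : (dpoly M).natDegree < n + 1 := by
    have h2 := Polynomial.natDegree_det_X_add_C_le M (1 : Matrix (Fin n) (Fin n) R)
    rw [Fintype.card_fin] at h2
    have h3 : dpoly M = ((Polynomial.X : Polynomial R) • M.map Polynomial.C +
        (1 : Matrix (Fin n) (Fin n) R).map Polynomial.C).det := by
      rw [dpoly, add_comm]
      congr 2
      ext1 i j
      simp only [Matrix.one_apply, Matrix.map_apply]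
      split_ifs <;> simp
    rw [h3]
    omega
  rw [h1, Polynomial.eval_eq_sum_range' hdeg]
  refine Finset.sum_congr rfl fun k _ => ?_
  rw [one_pow, mul_one]
  rfl

/-- a column -/
def colM {K : Type*} (v : K → R) : Matrix K Unit R := fun x _ => v x

/-- a row -/
def rowM {K : Type*} (r : K → R) : Matrix Unit K R := fun _ y => r y

omit [Algebra ℂ R] in
theorem det_bordered {K : Type*} [Fintype K] [DecidableEq K] (B : Matrix K K R) (v δ r : K → R)
    (hr : ∀ y, ∑ x, r x * B x y = δ y) :
    (Matrix.fromBlocks B (colM v) (rowM fun y => -δ y) (0 : Matrix Unit Unit R)).det =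
      B.det * ∑ x, r x * v x := by
  have h1 : Matrix.fromBlocks (1 : Matrix K K R) 0 (rowM r) (1 : Matrix Unit Unit R) *
      Matrix.fromBlocks B (colM v) (rowM fun y => -δ y) (0 : Matrix Unit Unit R) =
      Matrix.fromBlocks B (colM v) 0 (fun _ _ => ∑ x, r x * v x : Matrix Unit Unit R) := by
    rw [Matrix.fromBlocks_multiply]
    congr 1
    · rw [Matrix.one_mul, Matrix.zero_mul, add_zero]
    · rw [Matrix.one_mul, Matrix.zero_mul, add_zero]
    · rw [Matrix.one_mul]
      ext i y
      rw [Matrix.add_apply, Matrix.mul_apply]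
      have := hr y
      simp only [rowM, this, Matrix.zero_apply]
      ring
    · rw [Matrix.one_mul]
      ext i y
      rw [Matrix.add_apply, Matrix.mul_apply]
      simp only [rowM, colM, Matrix.zero_apply, add_zero]
  have h2 := congrArg Matrix.det h1
  rw [Matrix.det_mul, Matrix.det_fromBlocks_zero₁₂, Matrix.det_one, Matrix.det_one, one_mul,
    one_mul, Matrix.det_fromBlocks_zero₂₁] at h2
  rw [h2]
  congr 1
  rw [Matrix.det_unique]

theorem totalDegree_const {τ : Type*} (c : ℂ) : (C c : MvPolynomial τ ℂ).totalDegree ≤ 1 := by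
  rw [totalDegree_C]
  exact Nat.zero_le _

theorem Lm_degree {τ : Type*} (M : Matrix (Fin n) (Fin n) (MvPolynomial τ ℂ))
    (hM : ∀ i j, (M i j).totalDegree ≤ 1) (x y : Ix n) : (Lm M x y).totalDegree ≤ 1 := by
  rcases x with k | ⟨k, j, a, b⟩ <;> rcases y with k' | ⟨k', j', a', b'⟩
  · simp [Lm]
  · simp only [Lm]
    split_ifs
    · rw [totalDegree_one]; exact Nat.zero_le _
    · simp
  · simp only [Lm]
    split_ifs
    · exact totalDegree_const _
    · simp
  · simp only [Lm]
    split_ifs
    · exact hM _ _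
    · simp

theorem one_sub_degree {τ : Type*} (M : Matrix (Fin n) (Fin n) (MvPolynomial τ ℂ))
    (hM : ∀ i j, (M i j).totalDegree ≤ 1) (x y : Ix n) : ((1 - Lm M) x y).totalDegree ≤ 1 := by
  rw [Matrix.sub_apply]
  refine (totalDegree_sub _ _).trans (max_le ?_ (Lm_degree M hM x y))
  rw [Matrix.one_apply]
  split_ifs
  · rw [totalDegree_one]; exact Nat.zero_le _
  · simp

end Upper

open Upper in
theorem symmetrize_aux {τ G : Type*} [Group G] [Fintype G] [DecidableEq G] (ρ : G →* Equiv.Perm τ) {n : ℕ}
    (A : Matrix (Fin n) (Fin n) (MvPolynomial τ ℂ)) (hA : ∀ i j, (A i j).totalDegree ≤ 1)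
    (x₀ : τ → ℂ) (hx : (A.map (eval x₀)).det ≠ 0)
    (hinv : ∀ g, rename (ρ g) A.det = A.det) :
    ∃ (n' : ℕ) (A' : Matrix (Fin n') (Fin n') (MvPolynomial τ ℂ)) (P : G → Equiv.Perm (Fin n')),
      n' ≤ 1 + Fintype.card G * (n + 1) ^ 4 ∧ (∀ i j, (A' i j).totalDegree ≤ 1) ∧
      A'.det = A.det ∧ ∀ g i j, rename (ρ g) (A' i j) = A' (P g i) (P g j) := by
  set A₀ : Matrix (Fin n) (Fin n) ℂ := A.map (eval x₀) with hA₀
  set d : ℂ := A₀.det with hd
  set M : Matrix (Fin n) (Fin n) (MvPolynomial τ ℂ) := (A₀⁻¹).map C * (A - A₀.map C) with hM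
  have hunit : IsUnit A₀.det := isUnit_iff_ne_zero.2 hx
  have hAM : A = A₀.map (C : ℂ →+* MvPolynomial τ ℂ) * (1 + M) := by
    have h1 : A₀.map (C : ℂ →+* MvPolynomial τ ℂ) * (A₀⁻¹).map (C : ℂ →+* MvPolynomial τ ℂ) = 1 := by
      rw [← Matrix.map_mul, Matrix.mul_nonsing_inv _ hunit]
      simp
    rw [mul_add, mul_one, hM, ← mul_assoc, h1, one_mul]
    abel
  have hdet : A.det = C d * (1 + M).det := by
    conv_lhs => rw [hAM]
    rw [Matrix.det_mul]
    congr 1
    rw [hd]
    exact (RingHom.map_det (C : ℂ →+* MvPolynomial τ ℂ) A₀).symm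
  have hMdeg : ∀ i j, (M i j).totalDegree ≤ 1 := by
    intro i j
    rw [hM, Matrix.mul_apply]
    refine (totalDegree_finsetSum_le ?_)
    intro k _
    refine (totalDegree_mul _ _).trans ?_
    rw [Matrix.map_apply, totalDegree_C, zero_add, Matrix.sub_apply]
    refine (totalDegree_sub _ _).trans (max_le (hA _ _) ?_)
    rw [Matrix.map_apply]
    exact totalDegree_const _
  -- the big matrix on `(Ix n × G) ⊕ Unit`
  set c : ℂ := d / Fintype.card G with hc
  set B : Matrix (Ix n × G) (Ix n × G) (MvPolynomial τ ℂ) :=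
    Matrix.blockDiagonal fun h : G => (1 - Lm M).map (rename (ρ h)) with hB
  set T : Matrix ((Ix n × G) ⊕ Unit) ((Ix n × G) ⊕ Unit) (MvPolynomial τ ℂ) :=
    Matrix.fromBlocks B (colM fun x => C c * mv x.1) (rowM fun y => -dz y.1) 0 with hT
  have hBdet : B.det = 1 := by
    rw [hB, Matrix.det_blockDiagonal]
    apply Finset.prod_eq_one
    intro h _
    have h1 := RingHom.map_det (rename (ρ h) : MvPolynomial τ ℂ →ₐ[ℂ] MvPolynomial τ ℂ).toRingHom
      (1 - Lm M)
    rw [det_one_sub, map_one] at h1
    exact h1.symm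
  have hmv : ∀ (g : G) (x : Ix n), rename (ρ g) (mv x : MvPolynomial τ ℂ) = mv x := by
    intro g x
    rcases x with k | x
    · simp [mv]
    · simp [mv]
  have hdz : ∀ (g : G) (x : Ix n), rename (ρ g) (dz x : MvPolynomial τ ℂ) = dz x := by
    intro g x
    rcases x with k | x
    · simp only [dz]
      split_ifs <;> simp
    · simp [dz]
  have hTdet : T.det = A.det := by
    rw [hT, det_bordered B (fun x => C c * mv x.1) (fun y => dz y.1)
      (fun x => rename (ρ x.2) (rv M x.1)), hBdet, one_mul]
    · rw [Fintype.sum_prod_type, Finset.sum_comm]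
      have h1 : ∀ g : G, ∑ x : Ix n, rename (ρ g) (rv M x) * (C c * mv x) =
          C ((Fintype.card G : ℂ)⁻¹) * A.det := by
        intro g
        have h2 : ∑ x : Ix n, rename (ρ g) (rv M x) * (C c * mv x) =
            C c * rename (ρ g) (∑ x, rv M x * mv x) := by
          rw [map_sum, Finset.mul_sum]
          refine Finset.sum_congr rfl fun x _ => ?_
          rw [map_mul, hmv]
          ring
        rw [h2, sum_rv]
        have h3 := hinv g
        rw [hdet, map_mul, rename_C] at h3
        have h4 : c = (Fintype.card G : ℂ)⁻¹ * d := by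
          rw [hc, div_eq_inv_mul]
        rw [h4, C_mul, mul_assoc, h3, hdet]
      rw [Finset.sum_congr rfl fun g _ => h1 g, Finset.sum_const, Finset.card_univ, nsmul_eq_mul,
        ← mul_assoc]
      have h5 : ((Fintype.card G : ℕ) : MvPolynomial τ ℂ) * C ((Fintype.card G : ℂ)⁻¹) = 1 := by
        rw [← map_natCast (C : ℂ →+* MvPolynomial τ ℂ), ← C_mul, mul_inv_cancel₀, C_1]
        exact_mod_cast Fintype.card_ne_zero
      rw [h5, one_mul]
    · rintro ⟨y, g⟩
      rw [Fintype.sum_prod_type, Finset.sum_comm, Finset.sum_eq_single g]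
      · have h1 : ∀ x : Ix n, rename (ρ g) (rv M x) * B (x, g) (y, g) =
            rename (ρ g) (rv M x * (1 - Lm M) x y) := by
          intro x
          rw [hB, Matrix.blockDiagonal_apply', if_pos rfl, Matrix.map_apply, map_mul]
        simp only
        rw [Finset.sum_congr rfl fun x _ => h1 x, ← map_sum, rv_mul, hdz]
      · intro g' _ hg'
        apply Finset.sum_eq_zero
        intro x _
        rw [hB, Matrix.blockDiagonal_apply', if_neg hg', mul_zero]
      · intro h
        exact absurd (Finset.mem_univ _) h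
  have hTdeg : ∀ x y, (T x y).totalDegree ≤ 1 := by
    intro x y
    rcases x with ⟨x, g⟩ | x <;> rcases y with ⟨y, g'⟩ | y
    · rw [hT, Matrix.fromBlocks_apply₁₁, hB, Matrix.blockDiagonal_apply']
      split_ifs
      · rw [Matrix.map_apply]
        exact (totalDegree_rename_le _ _).trans (one_sub_degree M hMdeg x y)
      · simp
    · rw [hT, Matrix.fromBlocks_apply₁₂]
      simp only [colM]
      rcases x with k | x
      · simp only [mv, mul_one]
        exact totalDegree_const _
      · simp [mv]
    · rw [hT, Matrix.fromBlocks_apply₂₁]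
      simp only [rowM]
      rw [totalDegree_neg]
      rcases y with k | y
      · simp only [dz]
        split_ifs
        · rw [totalDegree_one]; exact Nat.zero_le _
        · simp
      · simp [dz]
    · rw [hT, Matrix.fromBlocks_apply₂₂]
      simp
  -- the permutations
  let Q : G → Equiv.Perm ((Ix n × G) ⊕ Unit) := fun g =>
    Equiv.sumCongr (Equiv.prodCongr (Equiv.refl _) (Equiv.mulLeft g)) (Equiv.refl _)
  have hQ : ∀ g x y, rename (ρ g) (T x y) = T (Q g x) (Q g y) := by
    intro g x y
    rcases x with ⟨x, h⟩ | x <;> rcases y with ⟨y, h'⟩ | y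
    · show rename (ρ g) (B (x, h) (y, h')) = B (x, g * h) (y, g * h')
      rw [hB, Matrix.blockDiagonal_apply', Matrix.blockDiagonal_apply']
      by_cases hh : h = h'
      · rw [if_pos hh, if_pos (by rw [hh]), Matrix.map_apply, Matrix.map_apply, rename_rename]
        congr 2
        rw [map_mul]
        rfl
      · rw [if_neg hh, if_neg (fun h2 => hh (mul_left_cancel h2)), map_zero]
    · show rename (ρ g) (C c * mv x) = C c * mv x
      rw [map_mul, rename_C, hmv]
    · show rename (ρ g) (-dz y) = -dz y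
      rw [map_neg, hdz]
    · show rename (ρ g) 0 = 0
      rw [map_zero]
  let e := Fintype.equivFin ((Ix n × G) ⊕ Unit)
  refine ⟨Fintype.card ((Ix n × G) ⊕ Unit), T.submatrix e.symm e.symm,
    fun g => (e.symm.trans (Q g)).trans e, ?_, ?_, ?_, ?_⟩
  · simp only [Fintype.card_sum, Fintype.card_prod, Fintype.card_fin, Fintype.card_unit]
    have h1 : n + 1 + (n + 1) * ((n + 1) * (n * n)) ≤ (n + 1) ^ 4 := by
      nlinarith [sq_nonneg n, Nat.zero_le n, Nat.zero_le (n ^ 2), Nat.zero_le (n ^ 3)]
    have h2 := Nat.mul_le_mul_left (Fintype.card G) h1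
    calc (n + 1 + (n + 1) * ((n + 1) * (n * n))) * Fintype.card G + 1
        = 1 + Fintype.card G * (n + 1 + (n + 1) * ((n + 1) * (n * n))) := by ring
      _ ≤ _ := by omega
  · intro i j
    exact hTdeg _ _
  · rw [Matrix.det_submatrix_equiv_self, hTdet]
  · intro g i j
    simp only [Matrix.submatrix_apply, Equiv.trans_apply, Equiv.symm_apply_apply]
    exact hQ g _ _

/-- symmetrisation of a determinantal representation under a finite group permuting the
variables -/
theorem symmetrize {τ G : Type*} [Group G] [Fintype G] (ρ : G →* Equiv.Perm τ) {n : ℕ}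
    (A : Matrix (Fin n) (Fin n) (MvPolynomial τ ℂ)) (hA : ∀ i j, (A i j).totalDegree ≤ 1)
    (x₀ : τ → ℂ) (hx : (A.map (eval x₀)).det ≠ 0)
    (hinv : ∀ g, rename (ρ g) A.det = A.det) :
    ∃ (n' : ℕ) (A' : Matrix (Fin n') (Fin n') (MvPolynomial τ ℂ)) (P : G → Equiv.Perm (Fin n')),
      n' ≤ 1 + Fintype.card G * (n + 1) ^ 4 ∧ (∀ i j, (A' i j).totalDegree ≤ 1) ∧
      A'.det = A.det ∧ ∀ g i j, rename (ρ g) (A' i j) = A' (P g i) (P g j) := by
  classical
  exact symmetrize_aux ρ A hA x₀ hx hinv

end Pool.MP_35c45d_lc.OnePerm
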