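import Mathlib
import Pool.Agent.Work.MP_35c45d_lc.OPUpper
import Pool.Agent.Work.MP_35c45d_lc.ABPlain
import Pool.Agent.Work.MP_35c45d_lc.ABLim

set_option autoImplicit false
set_option linter.unusedSectionVars false

namespace Pool.MP_35c45d_lc.Ab
open Finset MvPolynomial

/-- the permanent is invariant under simultaneous permutations of the rows and columns -/
theorem rename_permPoly {m : ℕ} (π : Equiv.Perm (Fin m)) :
    rename (act π) (permPoly m) = permPoly m := by
  rw [permPoly, Matrix.permanent, map_sum]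
  refine Fintype.sum_equiv (MulAut.conj π).toEquiv _ _ fun σ => ?_
  rw [map_prod]
  refine Fintype.prod_equiv π _ _ fun i => ?_
  rw [Matrix.of_apply, rename_X, Matrix.of_apply]
  simp [act]

/-- symmetrisation of an affine determinantal representation of the permanent -/
theorem upper {m n : ℕ} (Γ : Subgroup (Equiv.Perm (Fin m)))
    (A : Matrix (Fin n) (Fin n) (MvPolynomial (Fin m × Fin m) ℂ))
    (hA : ∀ i j, (A i j).totalDegree ≤ 1) (hdet : A.det = permPoly m) :
    ∃ (n' : ℕ) (A' : Matrix (Fin n') (Fin n') (MvPolynomial (Fin m × Fin m) ℂ)),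
      n' ≤ 1 + Nat.card Γ * (n + 1) ^ 4 ∧ (∀ i j, (A' i j).totalDegree ≤ 1) ∧
      A'.det = permPoly m ∧
      ∀ γ ∈ Γ, ∃ σ : Equiv.Perm (Fin n'), ∀ i j, rename (act γ) (A' i j) = A' (σ i) (σ j) := by
  classical
  have : Fintype Γ := Fintype.ofFinite _
  let ρ : Γ →* Equiv.Perm (Fin m × Fin m) :=
    { toFun := fun γ => Equiv.prodCongr (γ : Equiv.Perm (Fin m)) (γ : Equiv.Perm (Fin m))
      map_one' := by ext q <;> rfl
      map_mul' := fun a b => by ext q <;> rfl }
  have hρ : ∀ γ : Γ, (⇑(ρ γ) : Fin m × Fin m → Fin m × Fin m)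
      = act (γ : Equiv.Perm (Fin m)) := fun γ => rfl
  have hx : (A.map (eval fun _ => 1)).det ≠ 0 := by
    have h1 : (A.map (eval fun _ => 1)).det = eval (fun _ => 1) A.det := by
      rw [RingHom.map_det]
      rfl
    rw [h1, hdet, permPoly, Matrix.permanent, map_sum]
    simp only [map_prod, Matrix.of_apply, eval_X, Finset.prod_const_one, Finset.sum_const,
      Finset.card_univ, nsmul_eq_mul, mul_one]
    rw [Nat.cast_ne_zero]
    exact Fintype.card_ne_zero
  obtain ⟨n', A', P, h1, h2, h3, h4⟩ := OnePerm.symmetrize ρ A hA (fun _ => 1) hx (fun g => by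
    rw [hdet, hρ, rename_permPoly])
  refine ⟨n', A', ?_, h2, h3.trans hdet, fun γ hγ => ⟨P ⟨γ, hγ⟩, fun i j => ?_⟩⟩
  · rwa [Nat.card_eq_fintype_card]
  · exact h4 ⟨γ, hγ⟩ i j

/-- a subgroup with orbits of length at most two has exponent two -/
theorem sq_eq_one {m : ℕ} (Γ' : Subgroup (Equiv.Perm (Fin m)))
    (h : ∀ y, ((fun γ : Equiv.Perm (Fin m) => γ y) '' (Γ' : Set (Equiv.Perm (Fin m)))).ncard ≤ 2)
    (γ : Equiv.Perm (Fin m)) (hγ : γ ∈ Γ') : γ ^ 2 = 1 := by
  classical
  ext x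
  rw [Equiv.Perm.one_apply, pow_two, Equiv.Perm.mul_apply]
  by_contra h1
  have h1' : γ (γ x) ≠ x := fun h => h1 (by rw [h])
  have h2 : γ x ≠ x := fun h => h1' (by rw [h, h])
  have h3 : γ (γ x) ≠ γ x := fun h => h2 (γ.injective h)
  have h4 : ({x, γ x, γ (γ x)} : Set (Fin m)) ⊆
      (fun γ : Equiv.Perm (Fin m) => γ x) '' (Γ' : Set (Equiv.Perm (Fin m))) := by
    rintro z (rfl | rfl | rfl)
    · exact ⟨1, Γ'.one_mem, rfl⟩
    · exact ⟨γ, hγ, rfl⟩
    · exact ⟨γ * γ, Γ'.mul_mem hγ hγ, rfl⟩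
  have h5 := Set.ncard_le_ncard h4 (Set.toFinite _)
  have h6 : ({x, γ x, γ (γ x)} : Set (Fin m)).ncard = 3 := by
    rw [Set.ncard_eq_toFinset_card']
    simp only [Set.toFinset_insert, Set.toFinset_singleton]
    rw [card_insert_of_notMem, card_insert_of_notMem, card_singleton]
    · simpa using h3.symm
    · simp only [mem_insert, mem_singleton, not_or]
      exact ⟨h2.symm, h1'.symm⟩
  have := h x
  omega

/-- in a group of odd order or a cyclic group, a subgroup of exponent two has order at most two -/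
theorem card_le_two {m : ℕ} (Γ Γ' : Subgroup (Equiv.Perm (Fin m))) (hle : Γ' ≤ Γ)
    (h : ∀ γ ∈ Γ', γ ^ 2 = 1) (hΓ : Odd (Nat.card Γ) ∨ IsCyclic Γ) : Nat.card Γ' ≤ 2 := by
  rcases hΓ with hΓ | hΓ
  · have h1 : Γ' = ⊥ := by
      rw [Subgroup.eq_bot_iff_forall]
      intro γ hγ
      have h2 : orderOf γ ∣ 2 := orderOf_dvd_of_pow_eq_one (h γ hγ)
      have h3 : orderOf γ ∣ Nat.card Γ := Subgroup.orderOf_dvd_natCard Γ (hle hγ)
      have h4 : orderOf γ ∣ 1 := by
        have h5 : Nat.Coprime (Nat.card Γ) 2 := hΓ.coprime_two_right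
        rw [← h5]
        exact Nat.dvd_gcd h3 h2
      exact orderOf_eq_one_iff.mp (Nat.dvd_one.mp h4)
    rw [h1, Subgroup.card_bot]
    norm_num
  · have : IsCyclic Γ' := by
      have h1 : IsCyclic (Γ'.subgroupOf Γ) := inferInstance
      exact isCyclic_of_surjective (Subgroup.subgroupOfEquivOfLe hle).toMonoidHom
        (Subgroup.subgroupOfEquivOfLe hle).surjective
    obtain ⟨g, hg⟩ := IsCyclic.exists_generator (α := Γ')
    rw [← orderOf_eq_card_of_forall_mem_zpowers hg]
    apply orderOf_le_of_pow_eq_one (by norm_num)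
    exact Subtype.ext (h g g.2)

end Pool.MP_35c45d_lc.Ab
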