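import Mathlib

/-!
# Nondegenerate Bezout by dimension count, part 1 : linear independence

`psi` a square system in the variables `ι`, `p j` nondegenerate zeros, `h j` polynomials
with `h j (p i) = δ_ij`.  If `∑ j, P_j(psi) * h_j = 0` then all `P_j = 0`.
-/

open MvPolynomial

namespace Pool.Agent.DcBez

variable {K : Type*} [Field K] {ι : Type*} [Fintype ι] [DecidableEq ι]

/-- restriction to the line `p + s v` -/
noncomputable def line (p v : ι → K) : MvPolynomial ι K →ₐ[K] Polynomial K :=
  aeval fun i => Polynomial.C (p i) + Polynomial.X * Polynomial.C (v i)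

omit [Fintype ι] [DecidableEq ι] in
theorem line_eval (p v : ι → K) (f : MvPolynomial ι K) (s : K) :
    (line p v f).eval s = eval (fun i => p i + s * v i) f := by
  have h : (Polynomial.evalRingHom s).comp (line p v : MvPolynomial ι K →+* Polynomial K) =
      (eval fun i => p i + s * v i) := by
    ext i
    · simp [line]
    · simp [line]
      ring
  exact congrArg (fun g : MvPolynomial ι K →+* K => g f) h

omit [Fintype ι] [DecidableEq ι] in
theorem line_eval_zero (p v : ι → K) (f : MvPolynomial ι K) :
    (line p v f).eval 0 = eval p f := by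
  rw [line_eval]
  simp

/-- derivative along the line at `s = 0` -/
theorem line_deriv (p v : ι → K) (f : MvPolynomial ι K) :
    (line p v f).derivative.eval 0 = ∑ i, v i * eval p (pderiv i f) := by
  induction f using MvPolynomial.induction_on with
  | C a => simp [line]
  | add f g hf hg => simp [hf, hg, mul_add, Finset.sum_add_distrib]
  | mul_X f i hf =>
    have h2 : (line p v (X i)).derivative.eval 0 = v i := by simp [line]
    rw [map_mul, Polynomial.derivative_mul, Polynomial.eval_add, Polynomial.eval_mul,
      Polynomial.eval_mul, hf, line_eval_zero, line_eval_zero, h2]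
    simp only [Derivation.leibniz, smul_eq_mul, map_add, map_mul, eval_X, pderiv_X]
    simp only [mul_add, Finset.sum_add_distrib]
    have h3 : ∑ j, v j * (eval p f * eval p
        (Pi.single (M := fun _ => MvPolynomial ι K) j 1 i)) = v i * eval p f := by
      rw [Finset.sum_eq_single i]
      · simp
      · intro b _ hb
        rw [Pi.single_eq_of_ne (Ne.symm hb)]
        simp
      · simp
    rw [h3, Finset.sum_mul]
    rw [add_comm]
    congr 1
    · ring
    · exact Finset.sum_congr rfl fun j _ => by ring

theorem aeval_mul_homog {η : Type*} [Fintype η] {R : Type*} [CommRing R] [Algebra K R] (x : R)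
    (g : η → R) {Q : MvPolynomial η K} {e : ℕ} (hQ : Q.IsHomogeneous e) :
    aeval (fun i => x * g i) Q = x ^ e * aeval g Q := by
  rw [aeval_def, aeval_def, eval₂_eq', eval₂_eq', Finset.mul_sum]
  refine Finset.sum_congr rfl fun d hd => ?_
  have h1 : ∑ i, d i = e := by
    have h2 := hQ (mem_support_iff.1 hd)
    rw [Finsupp.weight_apply, Finsupp.sum_fintype _ _ (by simp)] at h2
    simpa using h2
  simp only [mul_pow]
  rw [Finset.prod_mul_distrib, Finset.prod_pow_eq_pow_sum, h1]
  ring

/-- the key step -/
theorem step [Infinite K] {κ η : Type*} [Fintype κ] [DecidableEq κ] [Fintype η]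
    (psi : η → MvPolynomial ι K)
    (p : κ → ι → K) (hz : ∀ j i, eval (p j) (psi i) = 0)
    (hJ : ∀ j, ∀ y : η → K, ∃ v : ι → K, ∀ i, ∑ l, v l * eval (p j) (pderiv l (psi i)) = y i)
    (h : κ → MvPolynomial ι K) (hh : ∀ i j, eval (p i) (h j) = if i = j then 1 else 0)
    (P : κ → MvPolynomial η K) (hP : ∑ j, aeval psi (P j) * h j = 0) (d : ℕ)
    (hd : ∀ e < d, ∀ j, homogeneousComponent e (P j) = 0) (j₀ : κ) :
    homogeneousComponent d (P j₀) = 0 := by
  classical
  refine MvPolynomial.funext fun y => ?_
  rw [map_zero]
  -- choose the direction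
  obtain ⟨v, hv⟩ := hJ j₀ y
  set L := line (p j₀) v with hL
  set g : η → Polynomial K := fun i => (L (psi i)).divX with hg
  have hpsi : ∀ i, L (psi i) = Polynomial.X * g i := by
    intro i
    have h1 := Polynomial.divX_mul_X_add (L (psi i))
    have h2 : (L (psi i)).coeff 0 = 0 := by
      rw [Polynomial.coeff_zero_eq_eval_zero, hL, line_eval_zero, hz]
    rw [h2, map_zero, add_zero] at h1
    rw [mul_comm]
    exact h1.symm
  have hg0 : ∀ i, (g i).eval 0 = y i := by
    intro i
    have h1 : (L (psi i)).derivative.eval 0 = (g i).eval 0 := by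
      rw [hpsi i]
      simp
    rw [← h1, hL, line_deriv, ← hv]
  -- all degrees are at most `N`
  obtain ⟨N, hN⟩ : ∃ N : ℕ, d ≤ N ∧ ∀ j, (P j).totalDegree ≤ N := by
    refine ⟨d + ∑ j, (P j).totalDegree, by omega, fun j => ?_⟩
    have := Finset.single_le_sum (f := fun j => (P j).totalDegree) (fun _ _ => Nat.zero_le _)
      (Finset.mem_univ j)
    omega
  have hsum : ∀ j, P j = ∑ e ∈ Finset.range (N + 1), homogeneousComponent e (P j) := by
    intro j
    conv_lhs => rw [← sum_homogeneousComponent (P j)]
    refine Finset.sum_subset (Finset.range_mono (by have := hN.2 j; omega)) fun e _ he => ?_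
    refine homogeneousComponent_eq_zero _ _ ?_
    simpa using he
  have hterm : ∀ j, L (aeval psi (P j)) = Polynomial.X ^ d *
      ∑ e ∈ Finset.range (N + 1), Polynomial.X ^ (e - d) *
        aeval g (homogeneousComponent e (P j)) := by
    intro j
    have h1 : L (aeval psi (P j)) = aeval (fun i => L (psi i)) (P j) := by
      rw [← AlgHom.comp_apply, comp_aeval]
    rw [h1]
    simp only [hpsi]
    conv_lhs => rw [hsum j]
    rw [map_sum, Finset.mul_sum]
    refine Finset.sum_congr rfl fun e _ => ?_
    rw [aeval_mul_homog _ _ (homogeneousComponent_isHomogeneous e (P j))]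
    rcases lt_or_ge e d with he | he
    · rw [hd e he j]
      simp
    · rw [← mul_assoc, ← pow_add, Nat.add_sub_cancel' he]
  have hrel := congrArg L hP
  rw [map_sum, map_zero] at hrel
  simp only [map_mul, hterm, mul_assoc] at hrel
  rw [← Finset.mul_sum] at hrel
  have hrel2 := (mul_eq_zero.1 hrel).resolve_left (pow_ne_zero _ Polynomial.X_ne_zero)
  have hrel3 := congrArg (Polynomial.eval (0 : K)) hrel2
  rw [Polynomial.eval_finsetSum, Polynomial.eval_zero, Finset.sum_eq_single j₀] at hrel3
  · rw [Polynomial.eval_mul, hL, line_eval_zero, hh, if_pos rfl, mul_one,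
      Polynomial.eval_finsetSum, Finset.sum_eq_single d] at hrel3
    · rw [Nat.sub_self, pow_zero, one_mul] at hrel3
      have h1 : Polynomial.eval 0 (aeval g (homogeneousComponent d (P j₀))) =
          eval y (homogeneousComponent d (P j₀)) := by
        have h2 : (Polynomial.aeval (0 : K)) (aeval g (homogeneousComponent d (P j₀))) =
            aeval (fun i => Polynomial.aeval (0 : K) (g i)) (homogeneousComponent d (P j₀)) := by
          rw [← AlgHom.comp_apply, comp_aeval]
        simp only [Polynomial.coe_aeval_eq_eval] at h2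
        rw [h2]
        simp only [hg0]
        rfl
      rw [h1] at hrel3
      exact hrel3
    · intro e he hne
      rcases lt_or_gt_of_ne hne with hlt | hgt
      · rw [hd e hlt j₀]
        simp
      · rw [Polynomial.eval_mul, Polynomial.eval_pow, Polynomial.eval_X,
          zero_pow (by omega), zero_mul]
    · intro hne
      exact absurd (Finset.mem_range.2 (by omega)) hne
  · intro j _ hj
    rw [Polynomial.eval_mul, hL, line_eval_zero, hh, if_neg (Ne.symm hj), mul_zero]
  · intro hne
    exact absurd (Finset.mem_univ _) hne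

/-- linear independence over the polynomials in `psi` -/
theorem indep [Infinite K] {κ η : Type*} [Fintype κ] [DecidableEq κ] [Fintype η]
    (psi : η → MvPolynomial ι K)
    (p : κ → ι → K) (hz : ∀ j i, eval (p j) (psi i) = 0)
    (hJ : ∀ j, ∀ y : η → K, ∃ v : ι → K, ∀ i, ∑ l, v l * eval (p j) (pderiv l (psi i)) = y i)
    (h : κ → MvPolynomial ι K) (hh : ∀ i j, eval (p i) (h j) = if i = j then 1 else 0)
    (P : κ → MvPolynomial η K) (hP : ∑ j, aeval psi (P j) * h j = 0) (j : κ) : P j = 0 := by
  have key : ∀ d, ∀ j, homogeneousComponent d (P j) = 0 := by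
    intro d
    induction d using Nat.strong_induction_on with
    | _ d ih => exact fun j => step psi p hz hJ h hh P hP d (fun e he => ih e he) j
  rw [← sum_homogeneousComponent (P j)]
  exact Finset.sum_eq_zero fun e _ => key e j

end Pool.Agent.DcBez
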