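import Pool.Agent.Work.MP_35c45d_lc.Bez1

/-!
# Nondegenerate Bezout by dimension count, part 2 : counting monomials
-/

open MvPolynomial

namespace Pool.Agent.DcBez

set_option linter.unusedSectionVars false

/-! ### lattice points of a product of simplices -/

/-- lattice points of a simplex -/
def simplex (F : Type*) [Fintype F] [DecidableEq F] (d : ℕ) : Finset (F → ℕ) :=
  (Fintype.piFinset fun _ => Finset.range (d + 1)).filter fun m => ∑ i, m i ≤ d

theorem mem_simplex {F : Type*} [Fintype F] [DecidableEq F] {d : ℕ} {m : F → ℕ} :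
    m ∈ simplex F d ↔ ∑ i, m i ≤ d := by
  unfold simplex
  rw [Finset.mem_filter]
  refine ⟨fun h => h.2, fun h => ⟨?_, h⟩⟩
  rw [Fintype.mem_piFinset]
  intro i
  rw [Finset.mem_range]
  have := Finset.single_le_sum (f := m) (fun _ _ => Nat.zero_le _) (Finset.mem_univ i)
  omega

theorem card_simplex (F : Type*) [Fintype F] [DecidableEq F] (d : ℕ) :
    (simplex F d).card = (d + Fintype.card F).choose (Fintype.card F) := by
  have h := Finset.card_finsuppAntidiag_nat_eq_choose (s := (Finset.univ : Finset (Option F))) d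
  have h2 : (simplex F d).card =
      (Finset.finsuppAntidiag (Finset.univ : Finset (Option F)) d).card := by
    refine Finset.card_nbij'
      (fun m => Finsupp.equivFunOnFinite.symm fun o => o.elim (d - ∑ i, m i) m)
      (fun f i => f (some i)) ?_ ?_ ?_ ?_
    · intro m hm
      have hm' := mem_simplex.1 hm
      simp only [Finset.mem_coe, Finset.mem_finsuppAntidiag, Finset.subset_univ, and_true]
      rw [Fintype.sum_option]
      simp
      omega
    · intro f hf
      simp only [Finset.mem_coe, Finset.mem_finsuppAntidiag] at hf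
      simp only [Finset.mem_coe, mem_simplex]
      have h3 := hf.1
      rw [Fintype.sum_option] at h3
      omega
    · intro m _
      rfl
    · intro f hf
      simp only [Finset.mem_coe, Finset.mem_finsuppAntidiag] at hf
      have h3 := hf.1
      rw [Fintype.sum_option] at h3
      ext o
      cases o with
      | none =>
        simp
        omega
      | some i => simp
  rw [h2, h]
  simp only [Finset.card_univ, Fintype.card_option]
  rw [show Fintype.card F + 1 + d - 1 = d + Fintype.card F by omega]
  exact Nat.choose_symm_add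

variable {ι γ : Type*} [Fintype ι] [DecidableEq ι] [Fintype γ] [DecidableEq γ]

/-- exponents with bounded degree in each group of variables -/
def box (gr : ι → γ) (D : γ → ℕ) : Finset (ι → ℕ) :=
  (Fintype.piFinset fun i => Finset.range (D (gr i) + 1)).filter
    fun m => ∀ G, ∑ i with gr i = G, m i ≤ D G

theorem mem_box {gr : ι → γ} {D : γ → ℕ} {m : ι → ℕ} :
    m ∈ box gr D ↔ ∀ G, ∑ i with gr i = G, m i ≤ D G := by
  unfold box
  rw [Finset.mem_filter]
  refine ⟨fun h => h.2, fun h => ⟨?_, h⟩⟩
  rw [Fintype.mem_piFinset]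
  intro i
  rw [Finset.mem_range]
  have h1 := h (gr i)
  have h2 := Finset.single_le_sum (f := m) (s := Finset.univ.filter fun j => gr j = gr i)
    (fun _ _ => Nat.zero_le _) (Finset.mem_filter.2 ⟨Finset.mem_univ i, rfl⟩)
  omega

/-- number of variables in a group -/
def gcard (gr : ι → γ) (G : γ) : ℕ := Fintype.card {i // gr i = G}

theorem card_box (gr : ι → γ) (D : γ → ℕ) :
    (box gr D).card = ∏ G, (D G + gcard gr G).choose (gcard gr G) := by
  have h2 : (box gr D).card =
      (Fintype.piFinset fun G => simplex {i // gr i = G} (D G)).card := by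
    refine Finset.card_nbij' (fun m G i => m i) (fun f i => f (gr i) ⟨i, rfl⟩) ?_ ?_ ?_ ?_
    · intro m hm
      have hm' := mem_box.1 hm
      simp only [Finset.mem_coe, Fintype.mem_piFinset, mem_simplex]
      intro G
      have := hm' G
      rw [← Finset.sum_subtype (Finset.univ.filter fun j => gr j = G) (by simp) m]
      exact this
    · intro f hf
      simp only [Finset.mem_coe, Fintype.mem_piFinset, mem_simplex] at hf
      simp only [Finset.mem_coe, mem_box]
      intro G
      have h3 := hf G
      rw [Finset.sum_subtype (p := fun j => gr j = G) (Finset.univ.filter fun j => gr j = G)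
        (by simp) (fun i => f (gr i) ⟨i, rfl⟩)]
      refine le_trans (le_of_eq ?_) h3
      refine Finset.sum_congr rfl fun i _ => ?_
      obtain ⟨i, hi⟩ := i
      subst hi
      rfl
    · intro m _
      rfl
    · intro f _
      funext G i
      obtain ⟨i, hi⟩ := i
      subst hi
      rfl
  rw [h2, Fintype.card_piFinset]
  exact Finset.prod_congr rfl fun G _ => card_simplex _ _

/-! ### polynomials of bounded multidegree -/

variable {K : Type*} [Field K]

/-- the degree of `f` in the group `G` is at most `D G` -/
def MDeg (gr : ι → γ) (D : γ → ℕ) (f : MvPolynomial ι K) : Prop :=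
  ∀ m ∈ f.support, ∀ G, ∑ i with gr i = G, m i ≤ D G

variable {gr : ι → γ} {D D' : γ → ℕ} {f g : MvPolynomial ι K}

theorem MDeg.mono (h : MDeg gr D f) (hD : ∀ G, D G ≤ D' G) : MDeg gr D' f :=
  fun m hm G => (h m hm G).trans (hD G)

theorem MDeg.zero : MDeg gr D (0 : MvPolynomial ι K) := fun m hm => by simp at hm

theorem MDeg.C (c : K) : MDeg gr D (MvPolynomial.C c : MvPolynomial ι K) := by
  intro m hm G
  rw [mem_support_iff, coeff_C] at hm
  have : m = 0 := by
    by_contra h
    exact hm (if_neg (Ne.symm h))
  simp [this]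

theorem MDeg.add (hf : MDeg gr D f) (hg : MDeg gr D g) : MDeg gr D (f + g) := by
  intro m hm G
  rcases Finset.mem_union.1 (MvPolynomial.support_add hm) with h | h
  · exact hf m h G
  · exact hg m h G

theorem MDeg.sum {α : Type*} {s : Finset α} {F : α → MvPolynomial ι K}
    (h : ∀ a ∈ s, MDeg gr D (F a)) : MDeg gr D (∑ a ∈ s, F a) := by
  classical
  induction s using Finset.induction_on with
  | empty => simpa using MDeg.zero
  | insert a s ha ih =>
    rw [Finset.sum_insert ha]
    exact (h a (Finset.mem_insert_self _ _)).add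
      (ih fun b hb => h b (Finset.mem_insert_of_mem hb))

theorem MDeg.neg (hf : MDeg gr D f) : MDeg gr D (-f) := by
  intro m hm G
  rw [support_neg] at hm
  exact hf m hm G

theorem MDeg.sub (hf : MDeg gr D f) (hg : MDeg gr D g) : MDeg gr D (f - g) := by
  rw [sub_eq_add_neg]
  exact hf.add hg.neg

theorem MDeg.mul (hf : MDeg gr D f) (hg : MDeg gr D' g) : MDeg gr (fun G => D G + D' G) (f * g) := by
  intro m hm G
  obtain ⟨a, ha, b, hb, rfl⟩ := Finset.mem_add.1 (MvPolynomial.support_mul f g hm)
  simp only [Finsupp.add_apply, Finset.sum_add_distrib]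
  exact Nat.add_le_add (hf a ha G) (hg b hb G)

theorem MDeg.X (i : ι) : MDeg gr (fun _ => 1) (MvPolynomial.X i : MvPolynomial ι K) := by
  intro m hm G
  have h1 : m = Finsupp.single i 1 := by
    rw [mem_support_iff, coeff_X] at hm
    by_contra h
    exact hm (if_neg (Ne.symm h))
  subst h1
  calc ∑ j with gr j = G, (Finsupp.single i 1 : ι →₀ ℕ) j
      ≤ ∑ j, (Finsupp.single i 1 : ι →₀ ℕ) j :=
        Finset.sum_le_sum_of_subset (Finset.filter_subset _ _)
    _ = 1 := by simp [Finsupp.single_apply]

theorem MDeg.X' (i : ι) : MDeg gr (fun G => if gr i = G then 1 else 0)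
    (MvPolynomial.X i : MvPolynomial ι K) := by
  intro m hm G
  have h1 : m = Finsupp.single i 1 := by
    rw [mem_support_iff, coeff_X] at hm
    by_contra h
    exact hm (if_neg (Ne.symm h))
  subst h1
  change _ ≤ if gr i = G then 1 else 0
  split_ifs with h
  · exact MDeg.X (K := K) (gr := gr) i _ (by simp [mem_support_iff]) G
  · refine le_of_eq (Finset.sum_eq_zero fun j hj => ?_)
    rw [Finsupp.single_apply, if_neg]
    rintro rfl
    exact h (Finset.mem_filter.1 hj).2

theorem MDeg.pow (hf : MDeg gr D f) (n : ℕ) : MDeg gr (fun G => n * D G) (f ^ n) := by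
  induction n with
  | zero =>
    rw [pow_zero, ← map_one MvPolynomial.C]
    exact MDeg.C 1
  | succ n ih =>
    rw [pow_succ]
    exact (ih.mul hf).mono fun G => by
      rw [Nat.succ_mul]

theorem MDeg.prod {α : Type*} {s : Finset α} {F : α → MvPolynomial ι K} {E : α → γ → ℕ}
    (h : ∀ a ∈ s, MDeg gr (E a) (F a)) : MDeg gr (fun G => ∑ a ∈ s, E a G) (∏ a ∈ s, F a) := by
  classical
  induction s using Finset.induction_on with
  | empty =>
    rw [Finset.prod_empty, ← map_one MvPolynomial.C]
    exact MDeg.C 1
  | insert a s ha ih =>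
    rw [Finset.prod_insert ha]
    exact ((h a (Finset.mem_insert_self _ _)).mul
      (ih fun b hb => h b (Finset.mem_insert_of_mem hb))).mono fun G => by
        rw [Finset.sum_insert ha]

/-! ### interpolation -/

theorem exists_interp {κ : Type*} [Fintype κ] [DecidableEq κ] (gr : ι → γ) (p : κ → ι → K)
    (hp : Function.Injective p) : ∃ h : κ → MvPolynomial ι K,
      (∀ i j, eval (p i) (h j) = if i = j then 1 else 0) ∧
      ∀ j, MDeg gr (fun _ => Fintype.card κ) (h j) := by
  classical
  have hsep : ∀ i j : κ, ∃ s : MvPolynomial ι K, MDeg gr (fun _ => 1) s ∧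
      (i ≠ j → eval (p i) s = 0 ∧ eval (p j) s = 1) := by
    intro i j
    by_cases hij : i = j
    · exact ⟨0, MDeg.zero, fun h => absurd hij h⟩
    · obtain ⟨l, hl⟩ : ∃ l, p j l ≠ p i l := by
        by_contra hne
        push Not at hne
        exact hij (hp (funext fun l => (hne l).symm))
      refine ⟨MvPolynomial.C ((p j l - p i l)⁻¹) * (X l - MvPolynomial.C (p i l)), ?_, fun _ => ?_⟩
      · exact ((MDeg.C (D := fun _ => 0) _).mul ((MDeg.X _).sub (MDeg.C _))).mono
          fun G => by simp
      · have := sub_ne_zero.2 hl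
        simp [this]
  choose s hs1 hs2 using hsep
  refine ⟨fun j => ∏ i ∈ Finset.univ.erase j, s i j, ?_, ?_⟩
  · intro i j
    rw [map_prod]
    split_ifs with hij
    · subst hij
      exact Finset.prod_eq_one fun k hk => (hs2 k i (Finset.ne_of_mem_erase hk)).2
    · exact Finset.prod_eq_zero (Finset.mem_erase.2 ⟨hij, Finset.mem_univ i⟩) (hs2 i j hij).1
  · intro j
    refine (MDeg.prod (E := fun _ _ => 1) fun i _ => hs1 i j).mono fun G => ?_
    rw [Finset.sum_const, smul_eq_mul, mul_one]
    exact (Finset.card_erase_le).trans (by rw [Finset.card_univ])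

/-! ### the dimension count -/

theorem count [Infinite K] {κ η ε : Type*} [Fintype κ] [DecidableEq κ] [Fintype η] [DecidableEq η]
    [Fintype ε] [DecidableEq ε] (psi : η → MvPolynomial ι K) (cl : η → ε) (δ : ε → γ → ℕ)
    (hdeg : ∀ i, MDeg gr (δ (cl i)) (psi i))
    (p : κ → ι → K) (hp : Function.Injective p) (hz : ∀ j i, eval (p j) (psi i) = 0)
    (hJ : ∀ j, ∀ y : η → K, ∃ v : ι → K, ∀ i, ∑ l, v l * eval (p j) (pderiv l (psi i)) = y i)
    (a : ε → ℕ) :
    Fintype.card κ * ∏ E, (a E + gcard cl E).choose (gcard cl E) ≤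
      ∏ G, ((∑ E, a E * δ E G) + Fintype.card κ + gcard gr G).choose (gcard gr G) := by
  classical
  obtain ⟨h, hh, hhd⟩ := exists_interp gr p hp
  rw [← card_box, ← card_box gr fun G => (∑ E, a E * δ E G) + Fintype.card κ]
  set D : γ → ℕ := fun G => (∑ E, a E * δ E G) + Fintype.card κ with hD
  -- the family of products
  let F : κ × (box cl a) → MvPolynomial ι K := fun z => (∏ i, psi i ^ (z.2 : η → ℕ) i) * h z.1
  have hF : ∀ z, MDeg gr D (F z) := by
    rintro ⟨j, α, hα⟩
    have h1 : MDeg gr (fun G => ∑ i, α i * δ (cl i) G) (∏ i, psi i ^ α i) :=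
      MDeg.prod fun i _ => (hdeg i).pow (α i)
    refine (h1.mul (hhd j)).mono fun G => ?_
    refine Nat.add_le_add_right ?_ _
    have h2 := mem_box.1 hα
    calc ∑ i, α i * δ (cl i) G = ∑ E, ∑ i with cl i = E, α i * δ (cl i) G :=
          (Finset.sum_fiberwise _ _ _).symm
      _ = ∑ E, (∑ i with cl i = E, α i) * δ E G := by
          refine Finset.sum_congr rfl fun E _ => ?_
          rw [Finset.sum_mul]
          exact Finset.sum_congr rfl fun i hi => by rw [(Finset.mem_filter.1 hi).2]
      _ ≤ ∑ E, a E * δ E G := Finset.sum_le_sum fun E _ => Nat.mul_le_mul_right _ (h2 E)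
  -- coefficient vectors
  let c : κ × (box cl a) → (box gr D) → K := fun z m =>
    coeff (Finsupp.equivFunOnFinite.symm (m : ι → ℕ)) (F z)
  have hlin : LinearIndependent K c := by
    rw [Fintype.linearIndependent_iff]
    intro w hw
    have hQ : ∑ z, w z • F z = 0 := by
      ext m
      rw [coeff_zero, coeff_sum]
      by_cases hm : ∃ z, m ∈ (F z).support
      · obtain ⟨z, hz⟩ := hm
        have hbox : (m : ι → ℕ) ∈ box gr D := mem_box.2 (hF z m hz)
        have h1 := congrFun hw ⟨m, hbox⟩
        rw [Finset.sum_apply] at h1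
        simp only [Pi.smul_apply, smul_eq_mul, Pi.zero_apply, c] at h1
        have h2 : (Finsupp.equivFunOnFinite.symm (m : ι → ℕ)) = m := by
          ext i; rfl
        rw [h2] at h1
        simpa [coeff_smul] using h1
      · push Not at hm
        refine Finset.sum_eq_zero fun z _ => ?_
        rw [coeff_smul, notMem_support_iff.1 (hm z), smul_zero]
    -- the polynomials `P_j`
    let P : κ → MvPolynomial η K := fun j => ∑ α : box cl a,
      monomial (Finsupp.equivFunOnFinite.symm (α : η → ℕ)) (w (j, α))
    have hP : ∑ j, aeval psi (P j) * h j = 0 := by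
      rw [← hQ, Fintype.sum_prod_type]
      refine Finset.sum_congr rfl fun j _ => ?_
      rw [map_sum, Finset.sum_mul]
      refine Finset.sum_congr rfl fun α _ => ?_
      rw [aeval_monomial, Finsupp.prod_fintype _ _ (by simp)]
      simp only [F, Finsupp.equivFunOnFinite_symm_apply_apply, algebraMap_eq]
      rw [smul_eq_C_mul, mul_assoc]
    have hPz := indep psi p hz hJ h hh P hP
    rintro ⟨j, α⟩
    have h1 := congrArg (coeff (Finsupp.equivFunOnFinite.symm (α : η → ℕ))) (hPz j)
    rw [coeff_zero, coeff_sum, Finset.sum_eq_single α] at h1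
    · rwa [coeff_monomial, if_pos rfl] at h1
    · intro β _ hβ
      rw [coeff_monomial, if_neg]
      intro heq
      exact hβ (Subtype.ext (Finsupp.equivFunOnFinite.symm.injective heq))
    · intro hne
      exact absurd (Finset.mem_univ _) hne
  have hcard := hlin.fintype_card_le_finrank
  rw [Module.finrank_fintype_fun_eq_card, Fintype.card_prod, Fintype.card_coe,
    Fintype.card_coe] at hcard
  exact hcard

end Pool.Agent.DcBez
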