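import Mathlib

/-!
# MP_35c45d_lc : Bezout for nondegenerate zeros by linear independence
-/

set_option autoImplicit false

namespace Pool.DualDC

open MvPolynomial

/-! ### restriction to a line -/

section line

variable {σ : Type*} [Fintype σ]

/-- restriction of a polynomial to the line `p + t v` -/
noncomputable def toLine (p v : σ → ℂ) : MvPolynomial σ ℂ →ₐ[ℂ] Polynomial ℂ :=
  aeval fun i => Polynomial.C (p i) + Polynomial.X * Polynomial.C (v i)

omit [Fintype σ] in
theorem toLine_coeff_zero (p v : σ → ℂ) (F : MvPolynomial σ ℂ) :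
    (toLine p v F).coeff 0 = eval p F := by
  have h : (Polynomial.constantCoeff.comp (toLine p v).toRingHom) = (eval p) := by
    apply MvPolynomial.ringHom_ext
    · intro a
      simp [toLine]
    · intro i
      simp [toLine]
  exact congrArg (fun φ => φ F) h

theorem toLine_coeff_one (p v : σ → ℂ) (F : MvPolynomial σ ℂ) :
    (toLine p v F).coeff 1 = ∑ l, v l * eval p (pderiv l F) := by
  classical
  induction F using MvPolynomial.induction_on with
  | C a => simp [toLine]
  | add F G hF hG =>
    rw [map_add, Polynomial.coeff_add, hF, hG, ← Finset.sum_add_distrib]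
    refine Finset.sum_congr rfl fun l _ => ?_
    rw [map_add, map_add, mul_add]
  | mul_X F n hF =>
    have h0 := toLine_coeff_zero p v F
    have hX : toLine p v (X n) = Polynomial.C (p n) + Polynomial.X * Polynomial.C (v n) := by
      simp [toLine]
    rw [map_mul, hX, mul_add, Polynomial.coeff_add, Polynomial.coeff_mul_C, hF]
    have h1 : (toLine p v F * (Polynomial.X * Polynomial.C (v n))).coeff 1 = eval p F * v n := by
      rw [← mul_assoc, Polynomial.coeff_mul_C, Polynomial.coeff_mul_X, h0]
    rw [h1, Finset.sum_mul]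
    have h2 : ∀ l, v l * eval p (pderiv l (F * X n)) =
        v l * eval p (pderiv l F) * p n + (if l = n then eval p F * v n else 0) := by
      intro l
      rw [pderiv_mul, map_add, map_mul, map_mul, eval_X]
      by_cases hl : l = n
      · subst hl
        rw [pderiv_X_self, map_one, if_pos rfl]
        ring
      · rw [if_neg hl, pderiv_X_of_ne (fun h => hl h.symm), map_zero]
        ring
    rw [Finset.sum_congr rfl fun l _ => h2 l, Finset.sum_add_distrib]
    simp

end line

/-! ### the lowest order term -/

section low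

variable {E : Type*} [Fintype E]

theorem coeff_mul_aeval_X_mul (P : MvPolynomial E ℂ) (d : ℕ)
    (hP : ∀ α ∈ P.support, d ≤ α.degree) (h : Polynomial ℂ) (q : E → Polynomial ℂ) :
    (h * aeval (fun i => Polynomial.X * q i) P).coeff d =
      h.coeff 0 * eval (fun i => (q i).coeff 0) (homogeneousComponent d P) := by
  classical
  rw [aeval_def, eval₂_eq', homogeneousComponent_apply, Finset.mul_sum, Polynomial.finsetSum_coeff,
    map_sum, Finset.mul_sum, Finset.sum_filter]
  refine Finset.sum_congr rfl fun α hα => ?_
  have h1 : ∏ i, (Polynomial.X * q i) ^ α i = Polynomial.X ^ α.degree * ∏ i, q i ^ α i := by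
    simp_rw [mul_pow]
    rw [Finset.prod_mul_distrib, Finset.prod_pow_eq_pow_sum]
    congr 2
    rw [Finsupp.degree_eq_sum]
  rw [h1]
  have h2 : h * ((algebraMap ℂ (Polynomial ℂ)) (coeff α P) *
      (Polynomial.X ^ α.degree * ∏ i, q i ^ α i)) =
      (h * (Polynomial.C (coeff α P) * ∏ i, q i ^ α i)) * Polynomial.X ^ α.degree := by
    rw [Polynomial.algebraMap_eq]
    ring
  rw [h2, Polynomial.coeff_mul_X_pow']
  have h3 := hP α hα
  by_cases h4 : α.degree = d
  · rw [if_pos h4.le, if_pos h4, h4, Nat.sub_self, Polynomial.mul_coeff_zero,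
      Polynomial.mul_coeff_zero, Polynomial.coeff_C_zero, Polynomial.coeff_zero_prod]
    rw [eval_monomial]
    simp [Finsupp.prod_fintype, Polynomial.coeff_zero_eq_eval_zero]
  · rw [if_neg (by omega), if_neg h4]

end low

/-! ### independence of `h j * Ψ ^ α` -/

section indep

variable {σ E κ : Type*} [Fintype σ] [Fintype E] [Fintype κ] [DecidableEq κ]

theorem bez_indep (Ψ : E → MvPolynomial σ ℂ) (p : κ → σ → ℂ)
    (hz : ∀ j i, eval (p j) (Ψ i) = 0)
    (hJ : ∀ j, Function.Surjective (fun v : σ → ℂ => fun i : E =>
      ∑ l, v l * eval (p j) (pderiv l (Ψ i))))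
    (h : κ → MvPolynomial σ ℂ) (hh : ∀ i j, eval (p i) (h j) = if i = j then 1 else 0)
    (P : κ → MvPolynomial E ℂ) (hP : ∑ j, h j * aeval Ψ (P j) = 0) : ∀ j, P j = 0 := by
  classical
  by_contra hcon
  push Not at hcon
  obtain ⟨j0, hj0⟩ := hcon
  have hex : ∃ d, ∃ j, ∃ α ∈ (P j).support, α.degree = d := by
    obtain ⟨α, hα⟩ := MvPolynomial.support_nonempty.2 hj0
    exact ⟨_, j0, α, hα, rfl⟩
  obtain ⟨j, α, hα, hd⟩ := Nat.find_spec hex
  have hmin : ∀ i, ∀ β ∈ (P i).support, Nat.find hex ≤ β.degree := fun i β hβ =>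
    Nat.find_min' hex ⟨i, β, hβ, rfl⟩
  generalize hdd : Nat.find hex = d at hd hmin
  have hne : homogeneousComponent d (P j) ≠ 0 := by
    intro h0
    have h1 : coeff α (homogeneousComponent d (P j)) = coeff α (P j) := by
      rw [coeff_homogeneousComponent, if_pos hd]
    rw [h0, coeff_zero] at h1
    exact (mem_support_iff.1 hα) h1.symm
  apply hne
  apply MvPolynomial.funext
  intro z
  rw [map_zero]
  obtain ⟨v, hv⟩ := hJ j z
  -- restrict to the line
  have h1 := congrArg (fun F => (toLine (p j) v F).coeff d) hP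
  simp only [map_sum, map_mul, map_zero, Polynomial.finsetSum_coeff, Polynomial.coeff_zero] at h1
  have h2 : ∀ i, (toLine (p j) v (h i) * toLine (p j) v (aeval Ψ (P i))).coeff d =
      (if j = i then 1 else 0) * eval z (homogeneousComponent d (P i)) := by
    intro i
    have h3 : toLine (p j) v (aeval Ψ (P i)) =
        aeval (fun e => Polynomial.X * (toLine (p j) v (Ψ e)).divX) (P i) := by
      have h4 : ∀ e, toLine (p j) v (Ψ e) = Polynomial.X * (toLine (p j) v (Ψ e)).divX := by
        intro e
        have h5 := Polynomial.X_mul_divX_add (toLine (p j) v (Ψ e))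
        rw [toLine_coeff_zero, hz, map_zero, add_zero] at h5
        exact h5.symm
      have h6 : (toLine (p j) v).comp (aeval Ψ) =
          aeval (fun e => Polynomial.X * (toLine (p j) v (Ψ e)).divX) := by
        apply MvPolynomial.algHom_ext
        intro e
        rw [AlgHom.comp_apply, aeval_X, aeval_X]
        exact h4 e
      exact congrArg (fun φ => φ (P i)) h6
    rw [h3, coeff_mul_aeval_X_mul (P i) d (hmin i), toLine_coeff_zero, hh]
    congr 2
    have h7 : (fun e => ((toLine (p j) v (Ψ e)).divX).coeff 0) = z := by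
      funext e
      rw [Polynomial.coeff_divX, toLine_coeff_one]
      exact congrFun hv e
    rw [h7]
  rw [Finset.sum_congr rfl fun i _ => h2 i] at h1
  simpa using h1

/-- the count -/
theorem bez_count (Ψ : E → MvPolynomial σ ℂ) (p : κ → σ → ℂ)
    (hz : ∀ j i, eval (p j) (Ψ i) = 0)
    (hJ : ∀ j, Function.Surjective (fun v : σ → ℂ => fun i : E =>
      ∑ l, v l * eval (p j) (pderiv l (Ψ i))))
    (h : κ → MvPolynomial σ ℂ) (hh : ∀ i j, eval (p i) (h j) = if i = j then 1 else 0)
    (A : Finset (E →₀ ℕ)) (B : Finset (σ →₀ ℕ))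
    (hAB : ∀ j, ∀ α ∈ A, (h j * ∏ e, Ψ e ^ α e).support ⊆ B) :
    Fintype.card κ * A.card ≤ B.card := by
  classical
  set v : κ × A → MvPolynomial σ ℂ := fun ja => h ja.1 * ∏ e, Ψ e ^ (ja.2.1 e) with hv
  set L : (κ × A → ℂ) →ₗ[ℂ] (B → ℂ) :=
    { toFun := fun g b => coeff b.1 (∑ ja, g ja • v ja)
      map_add' := by
        intro g g'
        funext b
        simp only [Pi.add_apply, add_smul, Finset.sum_add_distrib, coeff_add]
      map_smul' := by
        intro c g
        funext b
        simp only [Pi.smul_apply, smul_eq_mul, mul_smul, RingHom.id_apply, ← Finset.smul_sum,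
          coeff_smul] } with hL
  have hinj : Function.Injective L := by
    rw [← LinearMap.ker_eq_bot, LinearMap.ker_eq_bot']
    intro g hg
    have h0 : ∑ ja, g ja • v ja = 0 := by
      ext b
      rw [coeff_zero]
      by_cases hb : b ∈ B
      · exact congrFun hg ⟨b, hb⟩
      · rw [coeff_sum]
        apply Finset.sum_eq_zero
        intro ja _
        rw [coeff_smul]
        have h1 : coeff b (v ja) = 0 := by
          by_contra hne
          exact hb (hAB ja.1 ja.2.1 ja.2.2 (mem_support_iff.2 hne))
        rw [h1, smul_zero]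
    have h1 : ∑ j, h j * aeval Ψ (∑ a : A, monomial a.1 (g (j, a))) = 0 := by
      rw [← h0, Fintype.sum_prod_type]
      refine Finset.sum_congr rfl fun j _ => ?_
      rw [map_sum, Finset.mul_sum]
      refine Finset.sum_congr rfl fun a _ => ?_
      rw [aeval_monomial, Finsupp.prod_fintype _ _ (fun _ => pow_zero _), hv,
        ← Algebra.smul_def, mul_smul_comm]
    have h2 := bez_indep Ψ p hz hJ h hh _ h1
    funext ja
    obtain ⟨j, a⟩ := ja
    have h3 := congrArg (coeff a.1) (h2 j)
    rw [coeff_sum, coeff_zero] at h3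
    simp only [coeff_monomial] at h3
    rw [Finset.sum_eq_single a] at h3
    · rw [if_pos rfl] at h3
      exact h3
    · intro b _ hb
      rw [if_neg]
      intro h4
      exact hb (Subtype.ext h4)
    · intro h4
      exact absurd (Finset.mem_univ a) h4
  have h1 := LinearMap.finrank_le_finrank_of_injective hinj
  rw [Module.finrank_fintype_fun_eq_card, Module.finrank_fintype_fun_eq_card, Fintype.card_prod,
    Fintype.card_coe, Fintype.card_coe] at h1
  exact h1

/-- Lagrange polynomials -/
theorem bez_lagrange (p : κ → σ → ℂ) (hp : Function.Injective p) :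
    ∃ h : κ → MvPolynomial σ ℂ, ∀ i j, eval (p i) (h j) = if i = j then 1 else 0 := by
  classical
  have h1 : ∀ i j : κ, ∃ F : MvPolynomial σ ℂ, i ≠ j → eval (p i) F = 0 ∧ eval (p j) F = 1 := by
    intro i j
    by_cases hij : i = j
    · exact ⟨0, fun h => absurd hij h⟩
    · have h2 : ∃ l, p i l ≠ p j l := by
        by_contra hcon
        push Not at hcon
        exact hij (hp (funext hcon))
      obtain ⟨l, hl⟩ := h2
      refine ⟨C ((p j l - p i l)⁻¹) * (X l - C (p i l)), fun _ => ⟨?_, ?_⟩⟩
      · simp
      · simp only [map_mul, map_sub, eval_C, eval_X]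
        rw [inv_mul_cancel₀]
        exact sub_ne_zero.2 hl.symm
  choose F hF using h1
  refine ⟨fun j => ∏ i ∈ Finset.univ.erase j, F i j, fun i j => ?_⟩
  rw [map_prod]
  split_ifs with hij
  · subst hij
    apply Finset.prod_eq_one
    intro k hk
    rw [Finset.mem_erase] at hk
    exact (hF k i hk.1).2
  · exact Finset.prod_eq_zero (Finset.mem_erase.2 ⟨hij, Finset.mem_univ i⟩) (hF i j hij).1

end indep

/-! ### boxes of exponents -/

section box

/-- exponents of total degree at most `D` -/
noncomputable def simplex (τ : Type*) [Fintype τ] [DecidableEq τ] (D : ℕ) : Finset (τ →₀ ℕ) :=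
  ((Finset.univ : Finset (Option τ)).finsuppAntidiag D).image Finsupp.some

variable {τ : Type*} [Fintype τ] [DecidableEq τ]

theorem mem_simplex {D : ℕ} {β : τ →₀ ℕ} : β ∈ simplex τ D ↔ ∑ i, β i ≤ D := by
  unfold simplex
  rw [Finset.mem_image]
  constructor
  · rintro ⟨f, hf, rfl⟩
    rw [Finset.mem_finsuppAntidiag] at hf
    have h1 := hf.1
    rw [Fintype.sum_option] at h1
    simp only [Finsupp.some_apply]
    omega
  · intro h
    refine ⟨Finsupp.optionElim (D - ∑ i, β i) β, ?_, ?_⟩
    · rw [Finset.mem_finsuppAntidiag]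
      refine ⟨?_, Finset.subset_univ _⟩
      rw [Fintype.sum_option]
      simp
      omega
    · ext i
      simp

theorem card_simplex (D : ℕ) : (simplex τ D).card = (Fintype.card τ + D).choose (Fintype.card τ) := by
  unfold simplex
  rw [Finset.card_image_of_injOn, Finset.card_finsuppAntidiag_nat_eq_choose, Finset.card_univ,
    Fintype.card_option]
  · have : Fintype.card τ + 1 + D - 1 = Fintype.card τ + D := by omega
    rw [this, Nat.choose_symm_add]
  · intro f hf g hg hfg
    rw [Finset.mem_coe, Finset.mem_finsuppAntidiag] at hf hg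
    have h1 := hf.1
    have h2 := hg.1
    rw [Fintype.sum_option] at h1 h2
    have h3 : ∀ i, f (some i) = g (some i) := fun i => by
      have := DFunLike.congr_fun hfg i
      simpa using this
    have h4 : f none = g none := by
      simp only [h3] at h1
      omega
    ext o
    rcases o with _ | i
    · exact h4
    · exact h3 i

end box

end Pool.DualDC
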