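import Pool.Agent.Work.MP_35c45d_lc.Bezout

/-!
# MP_35c45d_lc : Bezout for nondegenerate zeros, three groups of variables
-/

set_option autoImplicit false

namespace Pool.DualDC

open MvPolynomial

section md

variable {X V W : Type*} [Fintype X] [Fintype V] [Fintype W]

/-- multidegree at most `(a, b, c)` -/
def MD (F : MvPolynomial (X ⊕ (V ⊕ W)) ℂ) (a b c : ℕ) : Prop :=
  ∀ β ∈ F.support, ∑ i, β (Sum.inl i) ≤ a ∧ ∑ i, β (Sum.inr (Sum.inl i)) ≤ b ∧
    ∑ i, β (Sum.inr (Sum.inr i)) ≤ c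

variable {F G : MvPolynomial (X ⊕ (V ⊕ W)) ℂ} {a b c a' b' c' : ℕ}

theorem MD.mono (h : MD F a b c) (ha : a ≤ a') (hb : b ≤ b') (hc : c ≤ c') : MD F a' b' c' :=
  fun β hβ => ⟨(h β hβ).1.trans ha, (h β hβ).2.1.trans hb, (h β hβ).2.2.trans hc⟩

theorem MD.zero : MD (0 : MvPolynomial (X ⊕ (V ⊕ W)) ℂ) a b c := by
  intro β hβ
  simp at hβ

theorem MD.const (x : ℂ) : MD (C x : MvPolynomial (X ⊕ (V ⊕ W)) ℂ) 0 0 0 := by
  classical
  intro β hβ
  rw [mem_support_iff, coeff_C] at hβ
  have h0 : 0 = β := by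
    by_contra h
    rw [if_neg h] at hβ
    exact hβ rfl
  subst h0
  simp

theorem MD.add (h : MD F a b c) (h' : MD G a b c) : MD (F + G) a b c := by
  classical
  intro β hβ
  rcases Finset.mem_union.1 (support_add hβ) with h1 | h1
  · exact h β h1
  · exact h' β h1

theorem MD.neg (h : MD F a b c) : MD (-F) a b c := by
  intro β hβ
  rw [support_neg] at hβ
  exact h β hβ

theorem MD.sub (h : MD F a b c) (h' : MD G a b c) : MD (F - G) a b c := by
  rw [sub_eq_add_neg]
  exact h.add h'.neg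

theorem MD.sum {ι : Type*} {s : Finset ι} {f : ι → MvPolynomial (X ⊕ (V ⊕ W)) ℂ}
    (h : ∀ i ∈ s, MD (f i) a b c) : MD (∑ i ∈ s, f i) a b c := by
  classical
  induction s using Finset.induction_on with
  | empty => rw [Finset.sum_empty]; exact MD.zero
  | insert i s hi ih =>
    rw [Finset.sum_insert hi]
    exact (h i (Finset.mem_insert_self i s)).add
      (ih fun j hj => h j (Finset.mem_insert_of_mem hj))

theorem MD.mul (h : MD F a b c) (h' : MD G a' b' c') : MD (F * G) (a + a') (b + b') (c + c') := by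
  classical
  intro β hβ
  obtain ⟨β1, h1, β2, h2, rfl⟩ := Finset.mem_add.1 (support_mul F G hβ)
  obtain ⟨k1, k2, k3⟩ := h β1 h1
  obtain ⟨l1, l2, l3⟩ := h' β2 h2
  simp only [Finsupp.add_apply, Finset.sum_add_distrib]
  omega

theorem MD.pow (h : MD F a b c) (k : ℕ) : MD (F ^ k) (k * a) (k * b) (k * c) := by
  induction k with
  | zero =>
    rw [pow_zero, Nat.zero_mul, Nat.zero_mul, Nat.zero_mul]
    exact MD.const 1
  | succ k ih =>
    rw [pow_succ, Nat.succ_mul, Nat.succ_mul, Nat.succ_mul]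
    exact ih.mul h

theorem MD.prod {ι : Type*} {s : Finset ι} {f : ι → MvPolynomial (X ⊕ (V ⊕ W)) ℂ}
    {A B C' : ι → ℕ} (h : ∀ i ∈ s, MD (f i) (A i) (B i) (C' i)) :
    MD (∏ i ∈ s, f i) (∑ i ∈ s, A i) (∑ i ∈ s, B i) (∑ i ∈ s, C' i) := by
  classical
  induction s using Finset.induction_on with
  | empty =>
    rw [Finset.prod_empty, Finset.sum_empty, Finset.sum_empty, Finset.sum_empty]
    exact MD.const 1
  | insert i s hi ih =>
    rw [Finset.prod_insert hi, Finset.sum_insert hi, Finset.sum_insert hi, Finset.sum_insert hi]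
    exact (h i (Finset.mem_insert_self i s)).mul
      (ih fun j hj => h j (Finset.mem_insert_of_mem hj))

theorem MD.X_inl (i : X) : MD (MvPolynomial.X (Sum.inl i) : MvPolynomial (X ⊕ (V ⊕ W)) ℂ) 1 0 0 := by
  classical
  intro β hβ
  rw [support_X, Finset.mem_singleton] at hβ
  subst hβ
  simp [Finsupp.single_apply]

theorem MD.X_inm (i : V) :
    MD (MvPolynomial.X (Sum.inr (Sum.inl i)) : MvPolynomial (X ⊕ (V ⊕ W)) ℂ) 0 1 0 := by
  classical
  intro β hβ
  rw [support_X, Finset.mem_singleton] at hβ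
  subst hβ
  simp [Finsupp.single_apply]

theorem MD.X_inr (i : W) :
    MD (MvPolynomial.X (Sum.inr (Sum.inr i)) : MvPolynomial (X ⊕ (V ⊕ W)) ℂ) 0 0 1 := by
  classical
  intro β hβ
  rw [support_X, Finset.mem_singleton] at hβ
  subst hβ
  simp [Finsupp.single_apply]

/-- every polynomial has some multidegree -/
theorem MD.exists (F : MvPolynomial (X ⊕ (V ⊕ W)) ℂ) : ∃ d, MD F d d d := by
  refine ⟨F.totalDegree, fun β hβ => ?_⟩
  have h1 : β.degree ≤ F.totalDegree := by
    have := le_totalDegree hβ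
    rwa [Finsupp.degree_apply]
  rw [Finsupp.degree_eq_sum, Fintype.sum_sum_type, Fintype.sum_sum_type] at h1
  omega

/-- polynomials in the first group -/
theorem MD.rename_inl (F : MvPolynomial X ℂ) :
    MD (rename Sum.inl F : MvPolynomial (X ⊕ (V ⊕ W)) ℂ) F.totalDegree 0 0 := by
  classical
  intro β hβ
  rw [support_rename_of_injective Sum.inl_injective, Finset.mem_image] at hβ
  obtain ⟨γ, hγ, rfl⟩ := hβ
  have h1 : γ.degree ≤ F.totalDegree := by
    have := le_totalDegree hγ
    rwa [Finsupp.degree_apply]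
  have h2 : ∀ i, Finsupp.mapDomain (Sum.inl : X → X ⊕ (V ⊕ W)) γ (Sum.inl i) = γ i :=
    fun i => Finsupp.mapDomain_apply Sum.inl_injective γ i
  have h3 : ∀ j, Finsupp.mapDomain (Sum.inl : X → X ⊕ (V ⊕ W)) γ (Sum.inr j) = 0 :=
    fun j => Finsupp.mapDomain_of_notMem_range γ _ (by simp)
  simp only [h2, h3, Finset.sum_const_zero]
  rw [Finsupp.degree_eq_sum] at h1
  exact ⟨h1, le_rfl, le_rfl⟩

end md

section box3

variable {X V W : Type*} [Fintype X] [Fintype V] [Fintype W] [DecidableEq X] [DecidableEq V]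
  [DecidableEq W]

/-- exponents bounded in the three groups -/
noncomputable def box3 (a b c : ℕ) : Finset (X ⊕ (V ⊕ W) →₀ ℕ) :=
  (simplex X a ×ˢ (simplex V b ×ˢ simplex W c)).image
    fun t => Finsupp.sumElim t.1 (Finsupp.sumElim t.2.1 t.2.2)

theorem mem_box3 {a b c : ℕ} {β : X ⊕ (V ⊕ W) →₀ ℕ} : β ∈ box3 a b c ↔
    ∑ i, β (Sum.inl i) ≤ a ∧ ∑ i, β (Sum.inr (Sum.inl i)) ≤ b ∧
    ∑ i, β (Sum.inr (Sum.inr i)) ≤ c := by
  unfold box3
  rw [Finset.mem_image]
  constructor
  · rintro ⟨⟨t1, t2, t3⟩, h, rfl⟩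
    rw [Finset.mem_product, Finset.mem_product, mem_simplex, mem_simplex, mem_simplex] at h
    simpa using h
  · intro h
    refine ⟨(Finsupp.equivFunOnFinite.symm fun i => β (Sum.inl i),
      (Finsupp.equivFunOnFinite.symm fun i => β (Sum.inr (Sum.inl i)),
        Finsupp.equivFunOnFinite.symm fun i => β (Sum.inr (Sum.inr i)))), ?_, ?_⟩
    · rw [Finset.mem_product, Finset.mem_product, mem_simplex, mem_simplex, mem_simplex]
      simpa using h
    · ext i
      rcases i with i | i | i <;> simp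

theorem card_box3 (a b c : ℕ) : (box3 (X := X) (V := V) (W := W) a b c).card =
    (Fintype.card X + a).choose (Fintype.card X) *
      ((Fintype.card V + b).choose (Fintype.card V) *
        (Fintype.card W + c).choose (Fintype.card W)) := by
  unfold box3
  rw [Finset.card_image_of_injective, Finset.card_product, Finset.card_product, card_simplex,
    card_simplex, card_simplex]
  rintro ⟨t1, t2, t3⟩ ⟨s1, s2, s3⟩ h
  have h1 : t1 = s1 := by
    ext i
    have := DFunLike.congr_fun h (Sum.inl i)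
    simpa using this
  have h2 : t2 = s2 := by
    ext i
    have := DFunLike.congr_fun h (Sum.inr (Sum.inl i))
    simpa using this
  have h3 : t3 = s3 := by
    ext i
    have := DFunLike.congr_fun h (Sum.inr (Sum.inr i))
    simpa using this
  rw [h1, h2, h3]

end box3

section main

variable {X V W E₁ E₂ E₃ κ : Type*} [Fintype X] [Fintype V] [Fintype W] [Fintype E₁] [Fintype E₂]
  [Fintype E₃] [Fintype κ]

/-- **Bezout** for nondegenerate zeros, three groups of variables, box form -/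
theorem bez_box (Ψ : E₁ ⊕ (E₂ ⊕ E₃) → MvPolynomial (X ⊕ (V ⊕ W)) ℂ)
    (p : κ → (X ⊕ (V ⊕ W)) → ℂ) (hp : Function.Injective p)
    (hz : ∀ j i, eval (p j) (Ψ i) = 0)
    (hJ : ∀ j, Function.Surjective (fun v : (X ⊕ (V ⊕ W)) → ℂ => fun i : E₁ ⊕ (E₂ ⊕ E₃) =>
      ∑ l, v l * eval (p j) (pderiv l (Ψ i))))
    (h1 : ∀ e, MD (Ψ (Sum.inl e)) 1 1 0) (h2 : ∀ e, MD (Ψ (Sum.inr (Sum.inl e))) 1 0 1)
    (h3 : ∀ e, MD (Ψ (Sum.inr (Sum.inr e))) 0 1 1) :
    ∃ d0, ∀ a b c : ℕ, Fintype.card κ * ((Fintype.card E₁ + a).choose (Fintype.card E₁) *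
      ((Fintype.card E₂ + b).choose (Fintype.card E₂) *
        (Fintype.card E₃ + c).choose (Fintype.card E₃))) ≤
      (Fintype.card X + (a + b + d0)).choose (Fintype.card X) *
      ((Fintype.card V + (a + c + d0)).choose (Fintype.card V) *
        (Fintype.card W + (b + c + d0)).choose (Fintype.card W)) := by
  classical
  obtain ⟨h, hh⟩ := bez_lagrange p hp
  choose d hd using fun j => MD.exists (h j)
  set d0 := Finset.univ.sup d with hd0
  have hd' : ∀ j, MD (h j) d0 d0 d0 := fun j =>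
    (hd j).mono (Finset.le_sup (Finset.mem_univ j)) (Finset.le_sup (Finset.mem_univ j))
      (Finset.le_sup (Finset.mem_univ j))
  refine ⟨d0, fun a b c => ?_⟩
  have key := bez_count Ψ p hz hJ h hh (box3 a b c) (box3 (a + b + d0) (a + c + d0) (b + c + d0))
    (by
      intro j α hα β hβ
      rw [mem_box3] at hα ⊢
      obtain ⟨k1, k2, k3⟩ := hα
      have hprod : MD (∏ e, Ψ e ^ α e) (a + b) (a + c) (b + c) := by
        rw [Fintype.prod_sum_type, Fintype.prod_sum_type]
        have m1 : MD (∏ e, Ψ (Sum.inl e) ^ α (Sum.inl e)) a a 0 := by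
          refine (MD.prod (A := fun e => α (Sum.inl e) * 1) (B := fun e => α (Sum.inl e) * 1)
            (C' := fun e => α (Sum.inl e) * 0) fun e _ => (h1 e).pow _).mono ?_ ?_ ?_ <;>
            simp [k1]
        have m2 : MD (∏ e, Ψ (Sum.inr (Sum.inl e)) ^ α (Sum.inr (Sum.inl e))) b 0 b := by
          refine (MD.prod (A := fun e => α (Sum.inr (Sum.inl e)) * 1)
            (B := fun e => α (Sum.inr (Sum.inl e)) * 0)
            (C' := fun e => α (Sum.inr (Sum.inl e)) * 1) fun e _ => (h2 e).pow _).mono ?_ ?_ ?_ <;>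
            simp [k2]
        have m3 : MD (∏ e, Ψ (Sum.inr (Sum.inr e)) ^ α (Sum.inr (Sum.inr e))) 0 c c := by
          refine (MD.prod (A := fun e => α (Sum.inr (Sum.inr e)) * 0)
            (B := fun e => α (Sum.inr (Sum.inr e)) * 1)
            (C' := fun e => α (Sum.inr (Sum.inr e)) * 1) fun e _ => (h3 e).pow _).mono ?_ ?_ ?_ <;>
            simp [k3]
        exact (m1.mul (m2.mul m3)).mono (by omega) (by omega) (by omega)
      exact (((hd' j).mul hprod).mono (by omega) (by omega) (by omega)) β hβ)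
  rw [card_box3, card_box3] at key
  exact key

end main

end Pool.DualDC
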