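import Mathlib

/-! MP_35c45d_lc, superquadratic bound: the numeric limit of the Bezout box count. -/

set_option autoImplicit false

open Filter Topology

namespace Pool.DualDC

theorem SQL.lower (a b : ℕ) : ((b : ℝ)) ^ a / (a.factorial : ℝ) ≤ ((a + b).choose a : ℝ) := by
  rw [div_le_iff₀ (by positivity)]
  have h1 : (b + 1) ^ a ≤ (b + a).descFactorial a := by
    have := Nat.pow_sub_le_descFactorial (b + a) a
    rwa [show b + a + 1 - a = b + 1 by omega] at this
  rw [Nat.descFactorial_eq_factorial_mul_choose, add_comm b a] at h1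
  have h2 : ((b : ℝ) + 1) ^ a ≤ (a.factorial : ℝ) * ((a + b).choose a : ℝ) := by exact_mod_cast h1
  have h3 : (b : ℝ) ^ a ≤ ((b : ℝ) + 1) ^ a := pow_le_pow_left₀ (by positivity) (by linarith) a
  linarith [mul_comm (a.factorial : ℝ) ((a + b).choose a : ℝ)]

theorem SQL.upper (a b : ℕ) : ((a + b).choose a : ℝ) ≤ ((a : ℝ) + b) ^ a / (a.factorial : ℝ) := by
  have := Nat.choose_le_pow_div (α := ℝ) a (a + b)
  simpa using this

theorem bez_limit (K n N d0 : ℕ) (hn : 1 ≤ n) (hN : 1 ≤ N)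
    (h : ∀ D : ℕ, K * ((n + 2 * n * D).choose n * ((n - 1 + 2 * n * D).choose (n - 1) *
        (N - 1 + N * D).choose (N - 1))) ≤
      (N + (4 * n * D + d0)).choose N * ((n - 1 + ((2 * n + N) * D + d0)).choose (n - 1) *
        (n - 1 + ((2 * n + N) * D + d0)).choose (n - 1))) :
    (K : ℝ) ≤ (4 * Real.exp 1 * n / N) ^ N := by
  obtain ⟨n, rfl⟩ : ∃ k, n = k + 1 := ⟨n - 1, by omega⟩
  obtain ⟨N, rfl⟩ : ∃ k, N = k + 1 := ⟨N - 1, by omega⟩
  simp only [Nat.add_sub_cancel] at h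
  set nn : ℝ := ((n + 1 : ℕ) : ℝ) with hnn
  set NN : ℝ := ((N + 1 : ℕ) : ℝ) with hNN
  have hn0 : 0 < nn := by positivity
  have hN0 : 0 < NN := by positivity
  -- the inequality for every `D ≥ 1`
  have key : ∀ D : ℕ, 1 ≤ D → (K : ℝ) * ((2 * nn) ^ (n + 1) / ((n + 1).factorial : ℝ) *
      ((2 * nn) ^ n / (n.factorial : ℝ) * (NN ^ N / (N.factorial : ℝ)))) ≤
      (4 * nn + (NN + d0) * (1 / (D : ℝ))) ^ (N + 1) / ((N + 1).factorial : ℝ) *
        (((2 * nn + NN + (n + d0) * (1 / (D : ℝ))) ^ n / (n.factorial : ℝ)) *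
        ((2 * nn + NN + (n + d0) * (1 / (D : ℝ))) ^ n / (n.factorial : ℝ))) := by
    intro D hD
    have hD0 : (0 : ℝ) < D := by exact_mod_cast hD
    have h1 := h D
    have h2 : (K : ℝ) * (((n + 1 + 2 * (n + 1) * D).choose (n + 1) : ℝ) *
        (((n + 2 * (n + 1) * D).choose n : ℝ) * ((N + (N + 1) * D).choose N : ℝ))) ≤
        ((N + 1 + (4 * (n + 1) * D + d0)).choose (N + 1) : ℝ) *
          (((n + ((2 * (n + 1) + (N + 1)) * D + d0)).choose n : ℝ) *
          ((n + ((2 * (n + 1) + (N + 1)) * D + d0)).choose n : ℝ)) := by exact_mod_cast h1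
    have a1 := SQL.lower (n + 1) (2 * (n + 1) * D)
    have a2 := SQL.lower n (2 * (n + 1) * D)
    have a3 := SQL.lower N ((N + 1) * D)
    have b1 := SQL.upper (N + 1) (4 * (n + 1) * D + d0)
    have b2 := SQL.upper n ((2 * (n + 1) + (N + 1)) * D + d0)
    have c1 : (((2 * (n + 1) * D : ℕ) : ℝ)) = 2 * nn * D := by rw [hnn]; push_cast; ring
    have c3 : ((((N + 1) * D : ℕ) : ℝ)) = NN * D := by rw [hNN]; push_cast; ring
    have c4 : (((N + 1 : ℕ) : ℝ)) + ((4 * (n + 1) * D + d0 : ℕ) : ℝ) =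
        (4 * nn + (NN + d0) * (1 / (D : ℝ))) * D := by
      rw [hnn, hNN]
      push_cast
      field_simp
      ring
    have c5 : ((n : ℕ) : ℝ) + (((2 * (n + 1) + (N + 1)) * D + d0 : ℕ) : ℝ) =
        (2 * nn + NN + (n + d0) * (1 / (D : ℝ))) * D := by
      rw [hnn, hNN]
      push_cast
      field_simp
      ring
    rw [c1] at a1 a2
    rw [c3] at a3
    rw [c4] at b1
    rw [c5] at b2
    have h3 : (K : ℝ) * ((2 * nn * D) ^ (n + 1) / ((n + 1).factorial : ℝ) *
        ((2 * nn * D) ^ n / (n.factorial : ℝ) * ((NN * D) ^ N / (N.factorial : ℝ)))) ≤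
        ((4 * nn + (NN + d0) * (1 / (D : ℝ))) * D) ^ (N + 1) / ((N + 1).factorial : ℝ) *
        ((((2 * nn + NN + (n + d0) * (1 / (D : ℝ))) * D) ^ n / (n.factorial : ℝ)) *
        (((2 * nn + NN + (n + d0) * (1 / (D : ℝ))) * D) ^ n / (n.factorial : ℝ))) := by
      refine le_trans ?_ (h2.trans ?_)
      · refine mul_le_mul_of_nonneg_left ?_ (Nat.cast_nonneg K)
        refine mul_le_mul a1 (mul_le_mul a2 a3 (by positivity) (by positivity)) (by positivity)
          (by positivity)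
      · exact mul_le_mul b1 (mul_le_mul b2 b2 (by positivity) (by positivity)) (by positivity)
          (by positivity)
    have hDp : (0 : ℝ) < (D : ℝ) ^ (2 * n + N + 1) := by positivity
    refine le_of_mul_le_mul_right ?_ hDp
    calc _ = (K : ℝ) * ((2 * nn * D) ^ (n + 1) / ((n + 1).factorial : ℝ) *
        ((2 * nn * D) ^ n / (n.factorial : ℝ) * ((NN * D) ^ N / (N.factorial : ℝ)))) := by
          simp only [mul_pow]
          ring
      _ ≤ _ := h3
      _ = _ := by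
          simp only [mul_pow]
          ring
  -- the limit
  have hlim : Tendsto (fun D : ℕ => (4 * nn + (NN + d0) * (1 / (D : ℝ))) ^ (N + 1) /
      ((N + 1).factorial : ℝ) *
        (((2 * nn + NN + (n + d0) * (1 / (D : ℝ))) ^ n / (n.factorial : ℝ)) *
        ((2 * nn + NN + (n + d0) * (1 / (D : ℝ))) ^ n / (n.factorial : ℝ)))) atTop
      (𝓝 ((4 * nn + (NN + d0) * 0) ^ (N + 1) / ((N + 1).factorial : ℝ) *
        (((2 * nn + NN + (n + d0) * 0) ^ n / (n.factorial : ℝ)) *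
        ((2 * nn + NN + (n + d0) * 0) ^ n / (n.factorial : ℝ))))) := by
    have h0 : Tendsto (fun D : ℕ => 1 / (D : ℝ)) atTop (𝓝 0) := tendsto_one_div_atTop_nhds_zero_nat
    have hc : Continuous fun x : ℝ => (4 * nn + (NN + d0) * x) ^ (N + 1) /
      ((N + 1).factorial : ℝ) *
        (((2 * nn + NN + (n + d0) * x) ^ n / (n.factorial : ℝ)) *
        ((2 * nn + NN + (n + d0) * x) ^ n / (n.factorial : ℝ))) := by fun_prop
    exact (hc.tendsto 0).comp h0
  have hfin := ge_of_tendsto hlim (Filter.eventually_atTop.2 ⟨1, key⟩)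
  simp only [mul_zero, add_zero] at hfin
  -- simplification
  have hf1 : ((n + 1).factorial : ℝ) = nn * (n.factorial : ℝ) := by
    rw [Nat.factorial_succ, hnn]; push_cast; ring
  have hf2 : ((N + 1).factorial : ℝ) = NN * (N.factorial : ℝ) := by
    rw [Nat.factorial_succ, hNN]; push_cast; ring
  have hn! : (0 : ℝ) < (n.factorial : ℝ) := by positivity
  have hN! : (0 : ℝ) < (N.factorial : ℝ) := by positivity
  rw [hf1, hf2] at hfin
  have h4 : (K : ℝ) * (2 * (2 * nn) ^ (2 * n) * NN ^ (N + 1)) ≤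
      (4 * nn) ^ (N + 1) * (2 * nn + NN) ^ (2 * n) := by
    have h5 : 0 < NN * (N.factorial : ℝ) * (n.factorial : ℝ) * (n.factorial : ℝ) := by positivity
    have h6 := mul_le_mul_of_nonneg_right hfin h5.le
    have e1 : (K : ℝ) * ((2 * nn) ^ (n + 1) / (nn * (n.factorial : ℝ)) *
      ((2 * nn) ^ n / (n.factorial : ℝ) * (NN ^ N / (N.factorial : ℝ)))) *
      (NN * (N.factorial : ℝ) * (n.factorial : ℝ) * (n.factorial : ℝ)) =
      (K : ℝ) * (2 * (2 * nn) ^ (2 * n) * NN ^ (N + 1)) := by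
      field_simp
      ring
    have e2 : (4 * nn) ^ (N + 1) / (NN * (N.factorial : ℝ)) *
        ((2 * nn + NN) ^ n / (n.factorial : ℝ) * ((2 * nn + NN) ^ n / (n.factorial : ℝ))) *
        (NN * (N.factorial : ℝ) * (n.factorial : ℝ) * (n.factorial : ℝ)) =
        (4 * nn) ^ (N + 1) * (2 * nn + NN) ^ (2 * n) := by
      field_simp
      ring
    rwa [e1, e2] at h6
  have h7 : (2 * nn + NN) ^ (2 * n) ≤ (2 * nn) ^ (2 * n) * Real.exp 1 ^ (N + 1) := by
    have h8 : 1 + NN / (2 * nn) ≤ Real.exp (NN / (2 * nn)) := by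
      rw [add_comm]; exact Real.add_one_le_exp _
    have h9 : (1 + NN / (2 * nn)) ^ (2 * n) ≤ Real.exp 1 ^ (N + 1) := by
      calc (1 + NN / (2 * nn)) ^ (2 * n) ≤ Real.exp (NN / (2 * nn)) ^ (2 * n) :=
            pow_le_pow_left₀ (by positivity) h8 _
        _ = Real.exp (((2 * n : ℕ) : ℝ) * (NN / (2 * nn))) := by rw [← Real.exp_nat_mul]
        _ ≤ Real.exp (((N + 1 : ℕ) : ℝ) * 1) := by
            refine Real.exp_le_exp.2 ?_
            rw [← hNN, mul_one, ← mul_div_assoc, div_le_iff₀ (by positivity)]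
            have h10 : ((2 * n : ℕ) : ℝ) ≤ 2 * nn := by rw [hnn]; push_cast; linarith
            calc ((2 * n : ℕ) : ℝ) * NN ≤ 2 * nn * NN := mul_le_mul_of_nonneg_right h10 hN0.le
              _ = NN * (2 * nn) := by ring
        _ = Real.exp 1 ^ (N + 1) := by rw [Real.exp_nat_mul]
    calc (2 * nn + NN) ^ (2 * n) = (2 * nn) ^ (2 * n) * (1 + NN / (2 * nn)) ^ (2 * n) := by
          rw [← mul_pow]
          congr 1
          field_simp
      _ ≤ _ := mul_le_mul_of_nonneg_left h9 (by positivity)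
  have h11 : (K : ℝ) * (2 * NN ^ (N + 1)) ≤ (4 * nn) ^ (N + 1) * Real.exp 1 ^ (N + 1) := by
    have hp : 0 < (2 * nn) ^ (2 * n) := by positivity
    refine le_of_mul_le_mul_right ?_ hp
    calc (K : ℝ) * (2 * NN ^ (N + 1)) * (2 * nn) ^ (2 * n) =
        (K : ℝ) * (2 * (2 * nn) ^ (2 * n) * NN ^ (N + 1)) := by ring
      _ ≤ (4 * nn) ^ (N + 1) * (2 * nn + NN) ^ (2 * n) := h4
      _ ≤ (4 * nn) ^ (N + 1) * ((2 * nn) ^ (2 * n) * Real.exp 1 ^ (N + 1)) :=
          mul_le_mul_of_nonneg_left h7 (by positivity)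
      _ = _ := by ring
  have h12 : (4 * Real.exp 1 * nn / NN) ^ (N + 1) * NN ^ (N + 1) =
      (4 * nn) ^ (N + 1) * Real.exp 1 ^ (N + 1) := by
    rw [← mul_pow, ← mul_pow]
    congr 1
    field_simp
  have hNp : 0 < NN ^ (N + 1) := by positivity
  refine le_of_mul_le_mul_right ?_ hNp
  rw [h12]
  have hK0 : 0 ≤ (K : ℝ) * NN ^ (N + 1) := by positivity
  linarith

end Pool.DualDC
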