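import Pool.Agent.Work.MP_35c45d_lc.BezoutBox
import Pool.Agent.Work.MP_35c45d_lc.SQLimit

/-!
# MP_35c45d_lc : Bezout for nondegenerate zeros, final form
-/

set_option autoImplicit false

namespace Pool.DualDC

open MvPolynomial

variable {X V W E₁ E₂ E₃ κ : Type*} [Fintype X] [Fintype V] [Fintype W] [Fintype E₁] [Fintype E₂]
  [Fintype E₃] [Fintype κ]

/-- injective square linear maps are surjective -/
theorem surj_of_inj {σ E : Type*} [Fintype σ] [Fintype E] (hc : Fintype.card σ = Fintype.card E)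
    (M : E → σ → ℂ) (h : ∀ v : σ → ℂ, (∀ i, ∑ l, v l * M i l = 0) → v = 0) :
    Function.Surjective (fun v : σ → ℂ => fun i : E => ∑ l, v l * M i l) := by
  classical
  let L : (σ → ℂ) →ₗ[ℂ] (E → ℂ) :=
    { toFun := fun v i => ∑ l, v l * M i l
      map_add' := fun v v' => by
        funext i
        simp only [Pi.add_apply, add_mul, Finset.sum_add_distrib]
      map_smul' := fun c v => by
        funext i
        simp only [Pi.smul_apply, smul_eq_mul, RingHom.id_apply, Finset.mul_sum, mul_assoc] }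
  have hinj : Function.Injective L := by
    rw [← LinearMap.ker_eq_bot, LinearMap.ker_eq_bot']
    intro v hv
    exact h v fun i => congrFun hv i
  have hfr : Module.finrank ℂ (σ → ℂ) = Module.finrank ℂ (E → ℂ) := by
    rw [Module.finrank_fintype_fun_eq_card, Module.finrank_fintype_fun_eq_card, hc]
  exact (LinearMap.injective_iff_surjective_of_finrank_eq_finrank hfr).1 hinj

/-- **Bezout** for nondegenerate zeros of a square system in three groups of variables:
`N` variables in the first group, `n - 1` in the second and third; `n` equations of multidegree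
`(1,1,0)`, `n - 1` of multidegree `(1,0,1)`, `N - 1` of multidegree `(0,1,1)` -/
theorem bez_main {n N : ℕ} (hn : 1 ≤ n) (hN : 1 ≤ N) (hX : Fintype.card X = N)
    (hV : Fintype.card V = n - 1) (hW : Fintype.card W = n - 1) (hE₁ : Fintype.card E₁ = n)
    (hE₂ : Fintype.card E₂ = n - 1) (hE₃ : Fintype.card E₃ = N - 1)
    (Ψ : E₁ ⊕ (E₂ ⊕ E₃) → MvPolynomial (X ⊕ (V ⊕ W)) ℂ)
    (p : κ → (X ⊕ (V ⊕ W)) → ℂ) (hp : Function.Injective p)
    (hz : ∀ j i, eval (p j) (Ψ i) = 0)
    (hJ : ∀ j, ∀ v : (X ⊕ (V ⊕ W)) → ℂ,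
      (∀ i, ∑ l, v l * eval (p j) (pderiv l (Ψ i)) = 0) → v = 0)
    (h1 : ∀ e, MD (Ψ (Sum.inl e)) 1 1 0) (h2 : ∀ e, MD (Ψ (Sum.inr (Sum.inl e))) 1 0 1)
    (h3 : ∀ e, MD (Ψ (Sum.inr (Sum.inr e))) 0 1 1) :
    (Fintype.card κ : ℝ) ≤ (4 * Real.exp 1 * n / N) ^ N := by
  have hc : Fintype.card (X ⊕ (V ⊕ W)) = Fintype.card (E₁ ⊕ (E₂ ⊕ E₃)) := by
    rw [Fintype.card_sum, Fintype.card_sum, Fintype.card_sum, Fintype.card_sum, hX, hV, hW, hE₁,
      hE₂, hE₃]
    omega
  obtain ⟨d0, hd0⟩ := bez_box Ψ p hp hz (fun j => surj_of_inj hc _ (hJ j)) h1 h2 h3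
  refine bez_limit (Fintype.card κ) n N d0 hn hN fun D => ?_
  have h4 := hd0 (2 * n * D) (2 * n * D) (N * D)
  rw [hX, hV, hW, hE₁, hE₂, hE₃] at h4
  have e1 : 2 * n * D + 2 * n * D + d0 = 4 * n * D + d0 := by ring
  have e2 : 2 * n * D + N * D + d0 = (2 * n + N) * D + d0 := by ring
  rw [e1, e2] at h4
  exact h4

end Pool.DualDC
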