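import Pool.Agent.Work.MP_35c45d_lc.BorderPermSum

/-! The second and third order terms of the permanent at the all-ones matrix with one entry
changed to `1 - m`. -/

set_option autoImplicit false

namespace Pool.Agent.Work.MP_35c45d_lc.Border

open Polynomial Finset

section coeffs

variable {ι : Type*} [DecidableEq ι] {K : Type*} [Field K]

theorem derivative_one_add_prod (s : Finset ι) (a : ι → K) :
    derivative (∏ i ∈ s, (1 + C (a i) * X)) =
      ∑ i ∈ s, C (a i) * ∏ k ∈ s.erase i, (1 + C (a k) * X) := by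
  rw [derivative_prod_finset]
  refine Finset.sum_congr rfl fun i _ => ?_
  rw [derivative_add, derivative_one, zero_add, derivative_C_mul, derivative_X, mul_one, mul_comm]

omit [DecidableEq ι] in
theorem coeff_zero_one_add_prod (s : Finset ι) (a : ι → K) :
    (∏ i ∈ s, (1 + C (a i) * X)).coeff 0 = 1 := by
  rw [coeff_zero_eq_eval_zero, eval_prod]
  simp

theorem coeff_one_one_add_prod (s : Finset ι) (a : ι → K) :
    (∏ i ∈ s, (1 + C (a i) * X)).coeff 1 = ∑ i ∈ s, a i := by
  have h := congrArg (fun p => coeff p 0) (derivative_one_add_prod s a)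
  simp only [coeff_derivative, finsetSum_coeff, coeff_C_mul, coeff_zero_one_add_prod] at h
  simpa using h

theorem coeff_two_one_add_prod (s : Finset ι) (a : ι → K) :
    2 * (∏ i ∈ s, (1 + C (a i) * X)).coeff 2 = ∑ i ∈ s, ∑ k ∈ s.erase i, a i * a k := by
  have h := congrArg (fun p => coeff p 1) (derivative_one_add_prod s a)
  simp only [coeff_derivative, finsetSum_coeff, coeff_C_mul, coeff_one_one_add_prod] at h
  simp only [← Finset.mul_sum]
  rw [← h]
  norm_num
  ring

theorem coeff_three_one_add_prod (s : Finset ι) (a : ι → K) :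
    6 * (∏ i ∈ s, (1 + C (a i) * X)).coeff 3 =
      ∑ i ∈ s, ∑ k ∈ s.erase i, ∑ l ∈ (s.erase i).erase k, a i * a k * a l := by
  have h := congrArg (fun p => 2 * coeff p 2) (derivative_one_add_prod s a)
  simp only [coeff_derivative, finsetSum_coeff, coeff_C_mul, Finset.mul_sum, mul_left_comm (2 : K),
    coeff_two_one_add_prod] at h
  simp only [← mul_assoc] at h
  rw [← h]
  norm_num
  ring

end coeffs

section weights

variable {ι : Type*} [Fintype ι] [DecidableEq ι] {K : Type*} [Field K] [CharZero K]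

omit [CharZero K] [Fintype ι] in
theorem sm_single_mul (i0 : ι) (F : ι → K) (hF : F i0 = 0) :
    (Pi.single i0 1 : ι → K) * F = 0 := by
  funext j
  by_cases h : j = i0
  · subst h; simp [hF]
  · simp [h]

omit [CharZero K] in
theorem sm_single (i0 : ι) : sm (Pi.single i0 1 : ι → K) = 1 := by
  simp [sm]

omit [CharZero K] [DecidableEq ι] in
theorem sm_zero : sm (0 : ι → K) = 0 := by
  simp [sm]

theorem wsum2 (h4 : 4 ≤ Fintype.card ι) (i0 : ι) (x : ι → ι → K) (hrow : ∀ j, x i0 j = 0)
    (hcol : ∀ i, x i i0 = 0) (hr : ∀ i, sm (x i) = 0) (i k : ι) (hik : i ≠ k) :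
    ∑ σ : Equiv.Perm ι, (1 - (Fintype.card ι : K) * (Pi.single i0 1 : ι → K) (σ i0)) *
        (x i (σ i) * x k (σ k))
      = 2 * ((Nat.factorial (Fintype.card ι - 3) : ℕ) : K) * sm (x i * x k) := by
  by_cases hi : i = i0
  · have : x i = 0 := by rw [hi]; exact funext hrow
    simp [this, sm_zero]
  by_cases hk : k = i0
  · have : x k = 0 := by rw [hk]; exact funext hrow
    simp [this, sm_zero]
  have e1 := permSum2 (K := K) (by omega) i k hik (x i) (x k)
  have e2 := permSum3 (K := K) (by omega) i0 i k (Ne.symm hi) (Ne.symm hk) hik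
    (Pi.single i0 1) (x i) (x k)
  have e3 := fact_step (K := K) (Fintype.card ι) 2 (by omega)
  have e4 : ∑ σ : Equiv.Perm ι, (1 - (Fintype.card ι : K) * (Pi.single i0 1 : ι → K) (σ i0)) *
        (x i (σ i) * x k (σ k)) = (∑ σ : Equiv.Perm ι, x i (σ i) * x k (σ k))
        - (Fintype.card ι : K) * ∑ σ : Equiv.Perm ι, (Pi.single i0 1 : ι → K) (σ i0) *
          x i (σ i) * x k (σ k) := by
    rw [Finset.mul_sum, ← Finset.sum_sub_distrib]
    refine Finset.sum_congr rfl fun σ _ => ?_
    ring
  rw [e4, e1, e2, e3]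
  simp only [br3, br2, hr, sm_single_mul i0 _ (hcol _), zero_mul, sm_zero, sm_single]
  have e5 : (Pi.single i0 1 : ι → K) * (x i * x k) = 0 := by
    rw [← mul_assoc, sm_single_mul i0 _ (hcol _), zero_mul]
  rw [e5, sm_zero]
  push_cast
  ring

theorem wsum3 (h4 : 4 ≤ Fintype.card ι) (i0 : ι) (x : ι → ι → K) (hrow : ∀ j, x i0 j = 0)
    (hcol : ∀ i, x i i0 = 0) (hr : ∀ i, sm (x i) = 0) (i k l : ι) (hik : i ≠ k) (hil : i ≠ l)
    (hkl : k ≠ l) :
    ∑ σ : Equiv.Perm ι, (1 - (Fintype.card ι : K) * (Pi.single i0 1 : ι → K) (σ i0)) *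
        (x i (σ i) * x k (σ k) * x l (σ l))
      = - 6 * ((Nat.factorial (Fintype.card ι - 4) : ℕ) : K) * sm (x i * x k * x l) := by
  by_cases hi : i = i0
  · have : x i = 0 := by rw [hi]; exact funext hrow
    simp [this, sm_zero]
  by_cases hk : k = i0
  · have : x k = 0 := by rw [hk]; exact funext hrow
    simp [this, sm_zero]
  by_cases hl : l = i0
  · have : x l = 0 := by rw [hl]; exact funext hrow
    simp [this, sm_zero]
  have e1 := permSum3 (K := K) (by omega) i k l hik hil hkl (x i) (x k) (x l)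
  have e2 := permSum4 (K := K) (by omega) i0 i k l (Ne.symm hi) (Ne.symm hk) (Ne.symm hl)
    hik hil hkl (Pi.single i0 1) (x i) (x k) (x l)
  have e3 := fact_step (K := K) (Fintype.card ι) 3 (by omega)
  have e4 : ∑ σ : Equiv.Perm ι, (1 - (Fintype.card ι : K) * (Pi.single i0 1 : ι → K) (σ i0)) *
        (x i (σ i) * x k (σ k) * x l (σ l))
        = (∑ σ : Equiv.Perm ι, x i (σ i) * x k (σ k) * x l (σ l))
        - (Fintype.card ι : K) * ∑ σ : Equiv.Perm ι, (Pi.single i0 1 : ι → K) (σ i0) *
          x i (σ i) * x k (σ k) * x l (σ l) := by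
    rw [Finset.mul_sum, ← Finset.sum_sub_distrib]
    refine Finset.sum_congr rfl fun σ _ => ?_
    ring
  rw [e4, e1, e2, e3]
  have f1 : (Pi.single i0 1 : ι → K) * x i = 0 := sm_single_mul i0 _ (hcol _)
  have f2 : (Pi.single i0 1 : ι → K) * x k = 0 := sm_single_mul i0 _ (hcol _)
  have f3 : (Pi.single i0 1 : ι → K) * x l = 0 := sm_single_mul i0 _ (hcol _)
  simp only [br4, br3, br2, hr, f1, f2, f3, sm_zero, sm_single, ← mul_assoc, zero_mul, mul_zero]
  have g1 : sm (x i * x l * x k) = sm (x i * x k * x l) := by rw [mul_right_comm]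
  rw [g1]
  push_cast
  ring

/-- Sum over ordered pairs of distinct indices. -/
theorem sum_pairs (a : ι → K) (ha : sm a = 0) :
    ∑ i, ∑ k ∈ Finset.univ.erase i, a i * a k = - sm (a * a) := by
  have h1 : ∀ i, ∑ k ∈ Finset.univ.erase i, a k = - a i := by
    intro i
    have := Finset.add_sum_erase Finset.univ a (Finset.mem_univ i)
    have h2 : ∑ i, a i = 0 := ha
    rw [h2] at this
    linear_combination this
  simp only [← Finset.mul_sum, h1]
  simp [sm]

theorem sum_triples (a : ι → K) (ha : sm a = 0) :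
    ∑ i, ∑ k ∈ Finset.univ.erase i, ∑ l ∈ (Finset.univ.erase i).erase k, a i * a k * a l
      = 2 * sm (a * a * a) := by
  have h0 : ∑ i, a i = 0 := ha
  have h1 : ∀ i, ∑ k ∈ Finset.univ.erase i, a k = - a i := by
    intro i
    have := Finset.add_sum_erase Finset.univ a (Finset.mem_univ i)
    rw [h0] at this
    linear_combination this
  have h2 : ∀ i, ∀ k ∈ Finset.univ.erase i,
      ∑ l ∈ (Finset.univ.erase i).erase k, a l = - a i - a k := by
    intro i k hk
    have := Finset.add_sum_erase (Finset.univ.erase i) a hk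
    rw [h1] at this
    linear_combination this
  have h3 : ∀ i, ∑ k ∈ Finset.univ.erase i, a k * a k = sm (a * a) - a i * a i := by
    intro i
    have := Finset.add_sum_erase Finset.univ (fun k => a k * a k) (Finset.mem_univ i)
    have h4 : ∑ i, a i * a i = sm (a * a) := rfl
    rw [h4] at this
    linear_combination this
  have h5 : ∀ i, ∑ k ∈ Finset.univ.erase i, ∑ l ∈ (Finset.univ.erase i).erase k, a i * a k * a l
      = 2 * (a i * a i * a i) - a i * sm (a * a) := by
    intro i
    have : ∀ k ∈ Finset.univ.erase i, ∑ l ∈ (Finset.univ.erase i).erase k, a i * a k * a l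
        = - (a i * a i) * a k - a i * (a k * a k) := by
      intro k hk
      rw [← Finset.mul_sum, h2 i k hk]
      ring
    rw [Finset.sum_congr rfl this, Finset.sum_sub_distrib, ← Finset.mul_sum, ← Finset.mul_sum,
      h1, h3]
    ring
  rw [Finset.sum_congr rfl fun i _ => h5 i, Finset.sum_sub_distrib, ← Finset.mul_sum,
    ← Finset.sum_mul, h0, zero_mul, sub_zero]
  rfl

/-- The first values of the permanent at the special point. -/
theorem moments_of_perm_eq_zero (h4 : 4 ≤ Fintype.card ι) (i0 : ι) (x : ι → ι → K)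
    (hrow : ∀ j, x i0 j = 0) (hcol : ∀ i, x i i0 = 0) (hr : ∀ i, ∑ j, x i j = 0)
    (hc : ∀ j, ∑ i, x i j = 0)
    (hperm : ∀ z : K, ∑ σ : Equiv.Perm ι, ∏ i, ((if i = i0 ∧ σ i = i0 then
      1 - (Fintype.card ι : K) else 1) + z * x i (σ i)) = 0) :
    ∑ i, ∑ j, x i j * x i j = 0 ∧ ∑ i, ∑ j, x i j * x i j * x i j = 0 := by
  have hr' : ∀ i, sm (x i) = 0 := hr
  let w : Equiv.Perm ι → K := fun σ => 1 - (Fintype.card ι : K) * (Pi.single i0 1 : ι → K) (σ i0)
  let F : K[X] := ∑ σ : Equiv.Perm ι, C (w σ) * ∏ i, (1 + C (x i (σ i)) * X)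
  have hF : F = 0 := by
    apply Polynomial.funext
    intro z
    rw [eval_zero, ← hperm z, eval_finsetSum]
    refine Finset.sum_congr rfl fun σ _ => ?_
    rw [eval_mul, eval_C, eval_prod]
    have e1 : w σ = ∏ i, (if i = i0 ∧ σ i = i0 then 1 - (Fintype.card ι : K) else 1) := by
      by_cases h : σ i0 = i0
      · rw [Finset.prod_eq_single i0]
        · simp [w, h]
        · intro b _ hb
          rw [if_neg (by tauto)]
        · simp
      · rw [Finset.prod_eq_one]
        · simp [w, h]
        · intro i _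
          rw [if_neg]
          rintro ⟨rfl, h'⟩
          exact h h'
    rw [e1, ← Finset.prod_mul_distrib]
    refine Finset.prod_congr rfl fun i _ => ?_
    simp only [eval_add, eval_one, eval_mul, eval_C, eval_X]
    by_cases h : i = i0 ∧ σ i = i0
    · rw [h.1, hrow]; ring
    · rw [if_neg h]; ring
  constructor
  · have h1 : 2 * F.coeff 2 = 0 := by rw [hF]; simp
    have h2 : 2 * F.coeff 2 = ∑ i, ∑ k ∈ Finset.univ.erase i,
        ∑ σ : Equiv.Perm ι, w σ * (x i (σ i) * x k (σ k)) := by
      rw [finsetSum_coeff, Finset.mul_sum]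
      simp only [coeff_C_mul, mul_left_comm (2 : K), coeff_two_one_add_prod, Finset.mul_sum]
      rw [Finset.sum_comm]
      refine Finset.sum_congr rfl fun i _ => ?_
      rw [Finset.sum_comm]
    rw [h1] at h2
    have h3 : ∀ i, ∀ k ∈ Finset.univ.erase i, ∑ σ : Equiv.Perm ι, w σ * (x i (σ i) * x k (σ k))
        = 2 * ((Nat.factorial (Fintype.card ι - 3) : ℕ) : K) * ∑ j, x i j * x k j := by
      intro i k hk
      exact wsum2 h4 i0 x hrow hcol hr' i k (Finset.ne_of_mem_erase hk).symm
    rw [Finset.sum_congr rfl fun i _ => Finset.sum_congr rfl (h3 i)] at h2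
    simp only [← Finset.mul_sum] at h2
    have h5 : ∑ i, ∑ k ∈ Finset.univ.erase i, ∑ j, x i j * x k j
        = - ∑ i, ∑ j, x i j * x i j := by
      rw [Finset.sum_congr rfl fun i _ => Finset.sum_comm, Finset.sum_comm]
      rw [Finset.sum_congr rfl fun j _ => sum_pairs (fun i => x i j) (hc j), Finset.sum_neg_distrib,
        Finset.sum_comm (f := fun i j => x i j * x i j)]
      rfl
    rw [h5] at h2
    have h6 : (2 * ((Nat.factorial (Fintype.card ι - 3) : ℕ) : K)) ≠ 0 :=
      mul_ne_zero two_ne_zero (Nat.cast_ne_zero.mpr (Nat.factorial_ne_zero _))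
    have h7 := (mul_eq_zero.mp h2.symm).resolve_left h6
    exact neg_eq_zero.mp h7
  · have h1 : 6 * F.coeff 3 = 0 := by rw [hF]; simp
    have h2 : 6 * F.coeff 3 = ∑ i, ∑ k ∈ Finset.univ.erase i,
        ∑ l ∈ (Finset.univ.erase i).erase k,
        ∑ σ : Equiv.Perm ι, w σ * (x i (σ i) * x k (σ k) * x l (σ l)) := by
      rw [finsetSum_coeff, Finset.mul_sum]
      simp only [coeff_C_mul, mul_left_comm (6 : K), coeff_three_one_add_prod, Finset.mul_sum]
      rw [Finset.sum_comm]
      refine Finset.sum_congr rfl fun i _ => ?_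
      rw [Finset.sum_comm]
      refine Finset.sum_congr rfl fun k _ => ?_
      rw [Finset.sum_comm]
    rw [h1] at h2
    have h3 : ∀ i, ∀ k ∈ Finset.univ.erase i, ∀ l ∈ (Finset.univ.erase i).erase k,
        ∑ σ : Equiv.Perm ι, w σ * (x i (σ i) * x k (σ k) * x l (σ l))
        = - 6 * ((Nat.factorial (Fintype.card ι - 4) : ℕ) : K) * ∑ j, x i j * x k j * x l j := by
      intro i k hk l hl
      exact wsum3 h4 i0 x hrow hcol hr' i k l (Finset.ne_of_mem_erase hk).symm
        (Finset.ne_of_mem_erase (Finset.mem_of_mem_erase hl)).symm (Finset.ne_of_mem_erase hl).symm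
    rw [Finset.sum_congr rfl fun i _ => Finset.sum_congr rfl fun k hk =>
      Finset.sum_congr rfl (h3 i k hk)] at h2
    simp only [← Finset.mul_sum] at h2
    have h5 : ∑ i, ∑ k ∈ Finset.univ.erase i, ∑ l ∈ (Finset.univ.erase i).erase k,
        ∑ j, x i j * x k j * x l j
        = 2 * ∑ i, ∑ j, x i j * x i j * x i j := by
      rw [Finset.sum_congr rfl fun i _ => Finset.sum_congr rfl fun k _ => Finset.sum_comm]
      rw [Finset.sum_congr rfl fun i _ => Finset.sum_comm, Finset.sum_comm]
      rw [Finset.sum_congr rfl fun j _ => sum_triples (fun i => x i j) (hc j), ← Finset.mul_sum,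
        Finset.sum_comm (f := fun i j => x i j * x i j * x i j)]
      rfl
    rw [h5] at h2
    have h6 : (- 6 * ((Nat.factorial (Fintype.card ι - 4) : ℕ) : K)) ≠ 0 :=
      mul_ne_zero (by norm_num) (Nat.cast_ne_zero.mpr (Nat.factorial_ne_zero _))
    have h7 := (mul_eq_zero.mp h2.symm).resolve_left h6
    exact (mul_eq_zero.mp h7).resolve_left two_ne_zero

end weights

end Pool.Agent.Work.MP_35c45d_lc.Border
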