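import Mathlib

/-! A linear Kneser inequality in the algebra `ι → K` and the dimension bound for subspaces on
which the first three power sums vanish. -/

set_option autoImplicit false

namespace Pool.Agent.Work.MP_35c45d_lc.Border

open Module

section kneser

variable {ι : Type*} [Finite ι] {K : Type*} [Field K]

/-- The stabiliser algebra of a subspace `V` of `ι → K`. -/
def stab (V : Submodule K (ι → K)) : Subalgebra K (ι → K) where
  carrier := {h | ∀ v ∈ V, h * v ∈ V}
  mul_mem' := by
    intro a b ha hb v hv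
    rw [mul_assoc]
    exact ha _ (hb _ hv)
  add_mem' := by
    intro a b ha hb v hv
    rw [add_mul]
    exact V.add_mem (ha _ hv) (hb _ hv)
  algebraMap_mem' := by
    intro r v hv
    rw [Algebra.algebraMap_eq_smul_one, smul_mul_assoc, one_mul]
    exact V.smul_mem _ hv

omit [Finite ι] in
theorem mem_stab {V : Submodule K (ι → K)} {h : ι → K} :
    h ∈ stab V ↔ ∀ v ∈ V, h * v ∈ V := Iff.rfl

variable [Infinite K]

/-- If a subspace `T` contains a nowhere vanishing function, then it is spanned by such. -/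
theorem exists_shift (t e : ι → K) (he : ∀ i, e i ≠ 0) :
    ∃ c : K, ∀ i, (t + c • e) i ≠ 0 := by
  classical
  have := Fintype.ofFinite ι
  obtain ⟨c, hc⟩ := Infinite.exists_notMem_finset (Finset.univ.image fun i => -(t i) / e i)
  refine ⟨c, fun i h => hc ?_⟩
  rw [Finset.mem_image]
  refine ⟨i, Finset.mem_univ _, ?_⟩
  simp only [Pi.add_apply, Pi.smul_apply, smul_eq_mul] at h
  rw [div_eq_iff (he i)]
  linear_combination -h

/-- Linear Kneser inequality (Dyson transform). -/
theorem kneser (d : ℕ) : ∀ (S T : Submodule K (ι → K)), finrank K S ≤ d → 1 ∈ S →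
    (∃ e ∈ T, ∀ i, e i ≠ 0) →
    ∃ V : Submodule K (ι → K), T ≤ V ∧ V ≤ S * T ∧
      finrank K S + finrank K T ≤ finrank K V + finrank K (Subalgebra.toSubmodule (stab V)) := by
  induction d with
  | zero =>
    intro S T hd h1 hT
    obtain ⟨e, he, hei⟩ := hT
    have hS : S = ⊥ := Submodule.finrank_eq_zero.mp (Nat.le_zero.mp hd)
    rw [hS, Submodule.mem_bot] at h1
    have : IsEmpty ι := ⟨fun i => one_ne_zero (congrFun h1 i)⟩
    refine ⟨T, le_rfl, ?_, ?_⟩
    · intro t _
      have : t = 0 := Subsingleton.elim _ _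
      rw [this]
      exact Submodule.zero_mem _
    · rw [hS, finrank_bot, zero_add]
      exact Nat.le_add_right _ _
  | succ d ih =>
    intro S T hd h1 hT
    obtain ⟨e0, he0, he0i⟩ := hT
    by_cases hcase : ∀ e ∈ T, (∀ i, e i ≠ 0) → ∀ s ∈ S, s * e ∈ T
    · -- all transforms are trivial
      have hST : ∀ s ∈ S, ∀ t ∈ T, s * t ∈ T := by
        intro s hs t ht
        obtain ⟨c, hc⟩ := exists_shift t e0 he0i
        have h2 := hcase (t + c • e0) (T.add_mem ht (T.smul_mem _ he0)) hc s hs
        have h3 := hcase e0 he0 he0i s hs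
        have : s * t = s * (t + c • e0) - c • (s * e0) := by
          rw [mul_add, mul_smul_comm, add_sub_cancel_right]
        rw [this]
        exact T.sub_mem h2 (T.smul_mem _ h3)
      refine ⟨T, le_rfl, ?_, ?_⟩
      · intro t ht
        have := Submodule.mul_mem_mul h1 ht
        rwa [one_mul] at this
      · have : S ≤ Subalgebra.toSubmodule (stab T) := fun s hs => hST s hs
        have := Submodule.finrank_mono this
        omega
    · push Not at hcase
      obtain ⟨e, he, hei, s0, hs0, hs0e⟩ := hcase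
      -- the transform at e
      let f : (ι → K) →ₗ[K] (ι → K) := LinearMap.mulRight K e
      have hf : ∀ x, f x = x * e := fun x => rfl
      have hfinj : Function.Injective f := by
        intro x y hxy
        rw [hf, hf] at hxy
        funext i
        have := congrFun hxy i
        exact mul_right_cancel₀ (hei i) this
      set S' : Submodule K (ι → K) := S ⊓ T.comap f with hS'
      set T' : Submodule K (ι → K) := T ⊔ S.map f with hT'
      have hmap : S'.map f = T ⊓ S.map f := by
        rw [hS', inf_comm T, Submodule.map_inf_eq_map_inf_comap]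
      have hdim : finrank K S' + finrank K T' = finrank K S + finrank K T := by
        have e1 : finrank K (S'.map f) = finrank K S' :=
          (LinearEquiv.finrank_eq (Submodule.equivMapOfInjective f hfinj S')).symm
        have e2 : finrank K (S.map f) = finrank K S :=
          (LinearEquiv.finrank_eq (Submodule.equivMapOfInjective f hfinj S)).symm
        have e3 := Submodule.finrank_sup_add_finrank_inf_eq T (S.map f)
        rw [← hmap, ← hT'] at e3
        omega
      have hlt : finrank K S' < finrank K S := by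
        apply Submodule.finrank_lt_finrank_of_lt
        refine lt_of_le_of_ne inf_le_left ?_
        intro h
        apply hs0e
        have : s0 ∈ S' := by rw [h]; exact hs0
        exact this.2
      obtain ⟨V, hV1, hV2, hV3⟩ := ih S' T' (by omega)
        ⟨h1, by
          change f 1 ∈ T
          rw [hf, one_mul]; exact he⟩
        ⟨e0, Submodule.mem_sup_left he0, he0i⟩
      refine ⟨V, le_trans le_sup_left hV1, le_trans hV2 ?_, by omega⟩
      rw [Submodule.mul_le]
      intro s hs t ht
      obtain ⟨t1, ht1, t2, ht2, rfl⟩ := Submodule.mem_sup.mp ht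
      obtain ⟨s2, hs2, rfl⟩ := Submodule.mem_map.mp ht2
      rw [mul_add]
      refine Submodule.add_mem _ (Submodule.mul_mem_mul hs.1 ht1) ?_
      have h5 : s * e ∈ T := hs.2
      have : s * f s2 = s2 * (s * e) := by rw [hf]; ring
      rw [this]
      exact Submodule.mul_mem_mul hs2 h5

end kneser

section isotropic

variable {ι : Type*} [Fintype ι] {K : Type*} [Field K] [CharZero K]

open Polynomial in
/-- An element of a unital subalgebra of `ι → K` orthogonal to the whole subalgebra is zero. -/
theorem subalgebra_nondeg (H : Subalgebra K (ι → K)) (h : ι → K) (hh : h ∈ H)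
    (horth : ∀ g ∈ H, ∑ i, g i * h i = 0) : h = 0 := by
  classical
  by_contra hne
  obtain ⟨i0, hi0⟩ := Function.ne_iff.mp hne
  simp only [Pi.zero_apply] at hi0
  -- a polynomial separating the value `h i0`
  let q : K[X] := ∏ c ∈ (Finset.univ.image h).erase (h i0), (X - C c)
  have hq0 : q.eval (h i0) ≠ 0 := by
    rw [eval_prod, Finset.prod_ne_zero_iff]
    intro c hc
    rw [Finset.mem_erase] at hc
    rw [eval_sub, eval_X, eval_C, sub_ne_zero]
    exact hc.1.symm
  have hq1 : ∀ i, h i ≠ h i0 → q.eval (h i) = 0 := by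
    intro i hi
    rw [eval_prod, Finset.prod_eq_zero_iff]
    refine ⟨h i, Finset.mem_erase.mpr ⟨hi, Finset.mem_image_of_mem _ (Finset.mem_univ _)⟩, ?_⟩
    simp
  have hmem : aeval h q ∈ H := by
    have := Polynomial.aeval_mem_adjoin_singleton K h (p := q)
    exact Algebra.adjoin_le (by simpa using hh) this
  have h1 := horth _ hmem
  have h2 : ∀ i, (aeval h q) i * h i = if h i = h i0 then q.eval (h i0) * h i0 else 0 := by
    intro i
    rw [aeval_pi_apply₂]
    split_ifs with hi
    · rw [hi]; rfl
    · have := hq1 i hi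
      rw [coe_aeval_eq_eval, this, zero_mul]
  simp only [h2] at h1
  rw [Finset.sum_ite, Finset.sum_const_zero, add_zero, Finset.sum_const, nsmul_eq_mul] at h1
  rcases mul_eq_zero.mp h1 with h3 | h3
  · rw [Nat.cast_eq_zero, Finset.card_eq_zero] at h3
    have : i0 ∈ Finset.filter (fun i => h i = h i0) Finset.univ := by simp
    rw [h3] at this
    simp at this
  · exact mul_ne_zero hq0 hi0 h3

omit [CharZero K] in
/-- The orthogonal bound. -/
theorem finrank_add_le_of_orth (V W : Submodule K (ι → K))
    (h : ∀ v ∈ V, ∀ w ∈ W, ∑ i, v i * w i = 0) :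
    finrank K V + finrank K W ≤ Fintype.card ι := by
  classical
  let e : (ι → K) →ₗ[K] Module.Dual K (ι → K) := LinearMap.mk₂ K (fun v w => ∑ i, v i * w i)
    (by
      intro a b c
      simp only [Pi.add_apply, add_mul, Finset.sum_add_distrib])
    (by
      intro a b c
      simp only [Pi.smul_apply, smul_eq_mul, mul_assoc, Finset.mul_sum])
    (by
      intro a b c
      simp only [Pi.add_apply, mul_add, Finset.sum_add_distrib])
    (by
      intro a b c
      simp only [Pi.smul_apply, smul_eq_mul, mul_left_comm, Finset.mul_sum])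
  have he : ∀ v w : ι → K, e v w = ∑ i, v i * w i := fun v w => rfl
  have heinj : Function.Injective e := by
    intro v w hvw
    funext i
    have := congrArg (fun g => g (Pi.single i (1 : K))) hvw
    simpa [he, Pi.single_apply] using this
  have h1 : V.map e ≤ W.dualAnnihilator := by
    rintro _ ⟨v, hv, rfl⟩
    rw [Submodule.mem_dualAnnihilator]
    intro w hw
    rw [he]
    exact h v hv w hw
  have h2 := Submodule.finrank_mono h1
  have h3 : finrank K (V.map e) = finrank K V :=
    (LinearEquiv.finrank_eq (Submodule.equivMapOfInjective e heinj V)).symm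
  have h4 : finrank K W + finrank K W.dualAnnihilator = finrank K (ι → K) :=
    Subspace.finrank_add_finrank_dualAnnihilator_eq W
  rw [finrank_fintype_fun_eq_card] at h4
  have h5 : finrank K V ≤ finrank K W.dualAnnihilator := h3.symm.le.trans h2
  omega

/-- Main bound, nowhere-vanishing version. -/
theorem isotropic3_aux (U : Submodule K (ι → K)) [Nonempty ι]
    (hU : ∀ i, ∃ u ∈ U, u i ≠ 0)
    (h1 : ∀ u ∈ U, ∑ i, u i = 0)
    (h2 : ∀ u ∈ U, ∀ v ∈ U, ∑ i, u i * v i = 0)
    (h3 : ∀ u ∈ U, ∀ v ∈ U, ∀ w ∈ U, ∑ i, u i * v i * w i = 0) :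
    3 * finrank K U + 1 ≤ Fintype.card ι := by
  classical
  obtain ⟨e, he, hei⟩ := Module.Dual.exists_forall_mem_ne_zero_of_forall_exists U
    (fun i => LinearMap.proj i) (by
      intro i
      obtain ⟨u, hu, hui⟩ := hU i
      exact ⟨u, hu, hui⟩)
  have hone : (1 : ι → K) ∉ U := by
    intro h
    have := h1 _ h
    simp at this
  set S : Submodule K (ι → K) := U ⊔ Submodule.span K {1} with hS
  have hSdim : finrank K S = finrank K U + 1 := by
    have e1 := Submodule.finrank_sup_add_finrank_inf_eq U (Submodule.span K {(1 : ι → K)})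
    have e2 : finrank K (Submodule.span K {(1 : ι → K)}) = 1 := finrank_span_singleton one_ne_zero
    have e3 : U ⊓ Submodule.span K {(1 : ι → K)} = ⊥ := by
      rw [Submodule.eq_bot_iff]
      rintro x ⟨hx1, hx2⟩
      obtain ⟨c, rfl⟩ := Submodule.mem_span_singleton.mp hx2
      by_cases hc : c = 0
      · rw [hc, zero_smul]
      · exfalso
        apply hone
        have := U.smul_mem c⁻¹ hx1
        rwa [smul_smul, inv_mul_cancel₀ hc, one_smul] at this
    rw [e3, finrank_bot, e2] at e1
    omega
  obtain ⟨V, hV1, hV2, hV3⟩ := kneser (finrank K S) S U le_rfl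
    (Submodule.mem_sup_right (Submodule.mem_span_singleton_self _)) ⟨e, he, hei⟩
  -- orthogonality of V
  have hVorth : ∀ v ∈ V, (∑ i, v i = 0) ∧ ∀ u ∈ U, ∑ i, v i * u i = 0 := by
    intro v hv
    have hv' := hV2 hv
    refine Submodule.mul_induction_on hv' ?_ ?_
    · intro s hs t ht
      obtain ⟨a, ha, b, hb, rfl⟩ := Submodule.mem_sup.mp hs
      obtain ⟨c, rfl⟩ := Submodule.mem_span_singleton.mp hb
      constructor
      · have e1 := h2 a ha t ht
        have e2 := h1 t ht
        simp only [Pi.mul_apply, Pi.add_apply, Pi.smul_apply, Pi.one_apply, smul_eq_mul, mul_one,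
          add_mul, Finset.sum_add_distrib, ← Finset.mul_sum, e1, e2, mul_zero, add_zero]
      · intro u hu
        have e1 := h3 a ha t ht u hu
        have e2 := h2 t ht u hu
        simp only [Pi.mul_apply, Pi.add_apply, Pi.smul_apply, Pi.one_apply, smul_eq_mul, mul_one,
          add_mul, Finset.sum_add_distrib, mul_assoc, ← Finset.mul_sum, e2, mul_zero, add_zero]
        simp only [← mul_assoc, e1]
    · intro x y hx hy
      constructor
      · simp only [Pi.add_apply, Finset.sum_add_distrib, hx.1, hy.1, add_zero]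
      · intro u hu
        simp only [Pi.add_apply, add_mul, Finset.sum_add_distrib, hx.2 u hu, hy.2 u hu, add_zero]
  set H := stab V with hH
  have hHV : ∀ h ∈ H, ∀ v ∈ V, h * v ∈ V := fun h hh v hv => hh v hv
  have hdisj : U ⊓ Subalgebra.toSubmodule H = ⊥ := by
    rw [Submodule.eq_bot_iff]
    rintro x ⟨hx1, hx2⟩
    refine subalgebra_nondeg H x hx2 ?_
    intro g hg
    have := (hVorth (g * x) (hHV g hg x (hV1 hx1))).1
    simpa using this
  have horth : ∀ v ∈ V, ∀ w ∈ U ⊔ Subalgebra.toSubmodule H, ∑ i, v i * w i = 0 := by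
    intro v hv w hw
    obtain ⟨a, ha, b, hb, rfl⟩ := Submodule.mem_sup.mp hw
    have e1 := (hVorth v hv).2 a ha
    have e2 := (hVorth (b * v) (hHV b hb v hv)).1
    simp only [Pi.mul_apply] at e2
    simp only [Pi.add_apply, mul_add, Finset.sum_add_distrib, e1, zero_add]
    rw [← e2]
    exact Finset.sum_congr rfl fun i _ => mul_comm _ _
  have hfin := finrank_add_le_of_orth V _ horth
  have e1 := Submodule.finrank_sup_add_finrank_inf_eq U (Subalgebra.toSubmodule H)
  rw [hdisj, finrank_bot] at e1
  omega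

/-- Main bound: a subspace of `K^ι` on which the polarised power sums of order one, two and three
vanish has dimension less than a third of `|ι|`. -/
theorem isotropic3 (U : Submodule K (ι → K)) (hU0 : U ≠ ⊥)
    (h1 : ∀ u ∈ U, ∑ i, u i = 0)
    (h2 : ∀ u ∈ U, ∀ v ∈ U, ∑ i, u i * v i = 0)
    (h3 : ∀ u ∈ U, ∀ v ∈ U, ∀ w ∈ U, ∑ i, u i * v i * w i = 0)
    (Q : Finset ι) (hQ : ∀ u ∈ U, ∀ i, i ∉ Q → u i = 0) :
    3 * finrank K U + 1 ≤ Q.card := by
  classical
  let P : ι → Prop := fun i => ∃ u ∈ U, u i ≠ 0
  let r : (ι → K) →ₗ[K] ({i // P i} → K) := LinearMap.funLeft K K (fun i => i.1)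
  have hr : ∀ x i, r x i = x i.1 := fun x i => rfl
  have hout : ∀ u ∈ U, ∀ i, ¬ P i → u i = 0 := by
    intro u hu i hi
    by_contra h
    exact hi ⟨u, hu, h⟩
  have hsum : ∀ f : ι → K, (∀ i, ¬ P i → f i = 0) → ∑ i : {i // P i}, f i.1 = ∑ i, f i := by
    intro f hf
    rw [← Finset.sum_subtype (Finset.univ.filter P) (by simp) f]
    refine Finset.sum_filter_of_ne ?_
    intro i _ hi
    by_contra h
    exact hi (hf i h)
  have hinj : Function.Injective (r.domRestrict U) := by
    intro x y hxy
    apply Subtype.ext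
    funext i
    by_cases hi : P i
    · exact congrFun hxy ⟨i, hi⟩
    · rw [hout _ x.2 i hi, hout _ y.2 i hi]
  have hdim : finrank K (U.map r) = finrank K U := by
    rw [← LinearMap.finrank_range_of_inj hinj, LinearMap.range_domRestrict]
  obtain ⟨u0, hu0, hu0n⟩ := Submodule.exists_mem_ne_zero_of_ne_bot hU0
  obtain ⟨i0, hi0⟩ := Function.ne_iff.mp hu0n
  have : Nonempty {i // P i} := ⟨⟨i0, u0, hu0, hi0⟩⟩
  have key := isotropic3_aux (U.map r) ?_ ?_ ?_ ?_
  · rw [hdim] at key
    refine key.trans ?_
    rw [Fintype.card_subtype]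
    refine Finset.card_le_card ?_
    intro i hi
    rw [Finset.mem_filter] at hi
    obtain ⟨u, hu, hui⟩ := hi.2
    by_contra h
    exact hui (hQ u hu i h)
  · rintro ⟨i, u, hu, hui⟩
    exact ⟨r u, Submodule.mem_map_of_mem hu, hui⟩
  · rintro _ ⟨u, hu, rfl⟩
    rw [← h1 u hu]
    exact hsum u (hout u hu)
  · rintro _ ⟨u, hu, rfl⟩ _ ⟨v, hv, rfl⟩
    rw [← h2 u hu v hv]
    exact hsum (fun i => u i * v i) fun i hi => by rw [hout u hu i hi, zero_mul]
  · rintro _ ⟨u, hu, rfl⟩ _ ⟨v, hv, rfl⟩ _ ⟨w, hw, rfl⟩
    rw [← h3 u hu v hv w hw]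
    exact hsum (fun i => u i * v i * w i) fun i hi => by rw [hout u hu i hi, zero_mul, zero_mul]

/-- Version of `isotropic3` with unpolarised hypotheses. -/
theorem isotropic3_diag (U : Submodule K (ι → K)) (hU0 : U ≠ ⊥)
    (h1 : ∀ u ∈ U, ∑ i, u i = 0)
    (h2 : ∀ u ∈ U, ∑ i, u i * u i = 0)
    (h3 : ∀ u ∈ U, ∑ i, u i * u i * u i = 0)
    (Q : Finset ι) (hQ : ∀ u ∈ U, ∀ i, i ∉ Q → u i = 0) :
    3 * finrank K U + 1 ≤ Q.card := by
  refine isotropic3 U hU0 h1 ?_ ?_ Q hQ
  · intro u hu v hv
    have e1 := h2 (u + v) (U.add_mem hu hv)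
    have e2 := h2 u hu
    have e3 := h2 v hv
    have e4 : ∑ i, (u + v) i * (u + v) i = ∑ i, u i * u i + ∑ i, v i * v i
        + 2 * ∑ i, u i * v i := by
      rw [Finset.mul_sum, ← Finset.sum_add_distrib, ← Finset.sum_add_distrib]
      refine Finset.sum_congr rfl fun i _ => ?_
      simp only [Pi.add_apply]
      ring
    rw [e4, e2, e3, add_zero, zero_add] at e1
    exact (mul_eq_zero.mp e1).resolve_left two_ne_zero
  · intro u hu v hv w hw
    have e1 := h3 (u + v + w) (U.add_mem (U.add_mem hu hv) hw)
    have e2 := h3 (u + v) (U.add_mem hu hv)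
    have e3 := h3 (u + w) (U.add_mem hu hw)
    have e4 := h3 (v + w) (U.add_mem hv hw)
    have e5 := h3 u hu
    have e6 := h3 v hv
    have e7 := h3 w hw
    have e8 : 6 * ∑ i, u i * v i * w i
        = ∑ i, (u + v + w) i * (u + v + w) i * (u + v + w) i
          - ∑ i, (u + v) i * (u + v) i * (u + v) i - ∑ i, (u + w) i * (u + w) i * (u + w) i
          - ∑ i, (v + w) i * (v + w) i * (v + w) i
          + ∑ i, u i * u i * u i + ∑ i, v i * v i * v i + ∑ i, w i * w i * w i := by
      simp only [Finset.mul_sum, ← Finset.sum_add_distrib, ← Finset.sum_sub_distrib]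
      refine Finset.sum_congr rfl fun i _ => ?_
      simp only [Pi.add_apply]
      ring
    rw [e1, e2, e3, e4, e5, e6, e7] at e8
    have e9 : 6 * ∑ i, u i * v i * w i = 0 := by rw [e8]; ring
    exact (mul_eq_zero.mp e9).resolve_left (by norm_num)

end isotropic

end Pool.Agent.Work.MP_35c45d_lc.Border
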