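import Mathlib

/-! Limits of determinants of affine-linear matrices: through every suitable zero of the limit
passes an affine subspace of codimension at most `n` on which the limit vanishes. -/

set_option autoImplicit false

namespace Pool.Agent.Work.MP_35c45d_lc.Border

open Filter Topology

section evalLimit

variable {σ : Type*} [Fintype σ]

theorem tendsto_eval_of_coeff (N : ℕ) (g : ℕ → MvPolynomial σ ℂ) (f : MvPolynomial σ ℂ)
    (hg : ∀ s, (g s).totalDegree ≤ N)
    (hlim : ∀ d, Tendsto (fun s => MvPolynomial.coeff d (g s)) atTop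
      (𝓝 (MvPolynomial.coeff d f)))
    (x : ℕ → σ → ℂ) (x0 : σ → ℂ) (hx : Tendsto x atTop (𝓝 x0)) :
    Tendsto (fun s => MvPolynomial.eval (x s) (g s)) atTop (𝓝 (MvPolynomial.eval x0 f)) := by
  classical
  obtain ⟨T, hT⟩ : ∃ T : Finset (σ →₀ ℕ), ∀ d, d ∈ T ↔ Finsupp.degree d ≤ N := by
    refine ⟨(Finsupp.finite_of_degree_le (σ := σ) N).toFinset, fun d => ?_⟩
    simp
  have hsupp : ∀ s, (g s).support ⊆ T := by
    intro s d hd
    rw [hT]
    have := MvPolynomial.le_totalDegree hd
    rw [Finsupp.degree_eq_sum]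
    rw [Finsupp.sum_fintype _ _ (by simp)] at this
    exact this.trans (hg s)
  have hf : f.support ⊆ T := by
    intro d hd
    by_contra hdT
    have h1 : ∀ s, MvPolynomial.coeff d (g s) = 0 := by
      intro s
      by_contra h
      exact hdT (hsupp s (MvPolynomial.mem_support_iff.mpr h))
    have h2 := hlim d
    simp only [h1] at h2
    have h3 := tendsto_nhds_unique h2 tendsto_const_nhds
    exact (MvPolynomial.mem_support_iff.mp hd) h3
  have hexp : ∀ (h : MvPolynomial σ ℂ) (y : σ → ℂ), h.support ⊆ T →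
      MvPolynomial.eval y h = ∑ d ∈ T, MvPolynomial.coeff d h * ∏ i, y i ^ d i := by
    intro h y hh
    rw [MvPolynomial.eval_eq']
    refine Finset.sum_subset hh ?_
    intro d _ hd
    rw [MvPolynomial.notMem_support_iff.mp hd, zero_mul]
  rw [hexp f x0 hf]
  have : (fun s => MvPolynomial.eval (x s) (g s)) = fun s =>
      ∑ d ∈ T, MvPolynomial.coeff d (g s) * ∏ i, x s i ^ d i := by
    funext s
    exact hexp _ _ (hsupp s)
  rw [this]
  refine tendsto_finsetSum _ fun d _ => ?_
  refine (hlim d).mul ?_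
  refine tendsto_finsetProd _ fun i _ => ?_
  exact (((continuous_apply i).tendsto x0).comp hx).pow _

end evalLimit

section roots

open Polynomial in
/-- A polynomial with no root in the disc of radius `ε` does not grow too quickly. -/
theorem norm_eval_le_of_no_root (N : ℕ) (g : ℂ[X]) (hN : g.natDegree ≤ N) (ε : ℝ) (hε : 0 < ε)
    (hroot : ∀ t : ℂ, ‖t‖ ≤ ε → g.eval t ≠ 0) (t : ℂ) :
    ‖g.eval t‖ ≤ ‖g.eval 0‖ * (1 + ‖t‖ / ε) ^ N := by
  have hs : g.Splits := IsAlgClosed.splits g
  have hg0 : g ≠ 0 := by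
    rintro rfl
    exact hroot 0 (by simpa using hε.le) (by simp)
  have h1 : ∀ s : Multiset ℂ, (∀ r ∈ s, ε < ‖r‖) →
      ‖(s.map fun r => t - r).prod‖ ≤ ‖(s.map fun r => 0 - r).prod‖ * (1 + ‖t‖ / ε) ^ s.card := by
    intro s
    induction s using Multiset.induction_on with
    | empty => intro _; simp
    | cons a s ih =>
      intro hs
      have h2 := ih fun r hr => hs r (Multiset.mem_cons_of_mem hr)
      have h3 : ε < ‖a‖ := hs a (Multiset.mem_cons_self a s)
      simp only [Multiset.map_cons, Multiset.prod_cons, norm_mul, Multiset.card_cons, pow_succ]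
      have h4 : ‖t - a‖ ≤ ‖0 - a‖ * (1 + ‖t‖ / ε) := by
        rw [zero_sub, norm_neg, mul_add, mul_one]
        have h5 : ‖t‖ ≤ ‖a‖ * (‖t‖ / ε) := by
          rw [mul_div_assoc', le_div_iff₀ hε]
          rw [mul_comm]
          exact mul_le_mul_of_nonneg_right h3.le (norm_nonneg t)
        calc ‖t - a‖ ≤ ‖t‖ + ‖a‖ := norm_sub_le _ _
          _ ≤ ‖a‖ + ‖a‖ * (‖t‖ / ε) := by linarith
      calc ‖t - a‖ * ‖(s.map fun r => t - r).prod‖
          ≤ (‖0 - a‖ * (1 + ‖t‖ / ε)) *
            (‖(s.map fun r => 0 - r).prod‖ * (1 + ‖t‖ / ε) ^ s.card) :=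
            mul_le_mul h4 h2 (norm_nonneg _) (by positivity)
        _ = _ := by ring
  have h2 : ∀ r ∈ g.roots, ε < ‖r‖ := by
    intro r hr
    by_contra h
    exact hroot r (not_lt.mp h) ((mem_roots hg0).mp hr)
  rw [hs.eval_eq_prod_roots t, hs.eval_eq_prod_roots 0, norm_mul, norm_mul, mul_assoc]
  refine mul_le_mul_of_nonneg_left ?_ (norm_nonneg _)
  refine (h1 g.roots h2).trans ?_
  refine mul_le_mul_of_nonneg_left ?_ (norm_nonneg _)
  refine pow_le_pow_right₀ ?_ ((card_roots' g).trans hN)
  have : 0 ≤ ‖t‖ / ε := by positivity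
  linarith

end roots

section deg1

variable {τ : Type*} [Fintype τ] [DecidableEq τ] {K : Type*} [Field K]

theorem eq_of_deg_le_one (p : MvPolynomial τ K) (h : p.totalDegree ≤ 1) :
    p = MvPolynomial.C (p.coeff 0)
      + ∑ t, MvPolynomial.C (p.coeff (Finsupp.single t 1)) * MvPolynomial.X t := by
  ext s
  simp only [MvPolynomial.coeff_add, MvPolynomial.coeff_C, MvPolynomial.coeff_sum,
    MvPolynomial.coeff_C_mul, MvPolynomial.coeff_X]
  by_cases h0 : s = 0
  · subst h0
    simp
  · rw [if_neg (Ne.symm h0), zero_add]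
    by_cases h1 : ∃ t, Finsupp.single t 1 = s
    · obtain ⟨t, rfl⟩ := h1
      rw [Finset.sum_eq_single t]
      · simp
      · intro b _ hb
        rw [if_neg]
        · simp
        · intro hh
          exact hb (Finsupp.single_left_injective one_ne_zero hh)
      · simp
    · push Not at h1
      rw [Finset.sum_eq_zero (fun t _ => by rw [if_neg (h1 t), mul_zero])]
      apply MvPolynomial.coeff_eq_zero_of_totalDegree_lt
      refine lt_of_le_of_lt h ?_
      by_contra hlt
      push Not at hlt
      obtain ⟨t, ht⟩ : ∃ t, s t ≠ 0 := by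
        by_contra hc
        push Not at hc
        exact h0 (Finsupp.ext hc)
      have hts : t ∈ s.support := by simpa using ht
      have h2 := Finset.add_sum_erase s.support (fun i => s i) hts
      apply h1 t
      ext b
      by_cases hb : b = t
      · subst hb
        simp only [Finsupp.single_eq_same]
        omega
      · rw [Finsupp.single_eq_of_ne hb]
        by_cases hbs : s b = 0
        · exact hbs.symm
        · have hb2 : b ∈ s.support.erase t := by
            simp [hb, hbs]
          have h3 := Finset.single_le_sum (f := fun i => s i) (fun i _ => Nat.zero_le _) hb2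
          omega

end deg1

section affine

variable {σ : Type*} [Fintype σ] {n : ℕ}

/-- The linear part of a polynomial, as a linear form. -/
noncomputable def lin (a : MvPolynomial σ ℂ) : (σ → ℂ) →ₗ[ℂ] ℂ where
  toFun y := ∑ t, a.coeff (Finsupp.single t 1) * y t
  map_add' x y := by
    simp only [Pi.add_apply, mul_add, Finset.sum_add_distrib]
  map_smul' c x := by
    simp only [Pi.smul_apply, smul_eq_mul, mul_left_comm, Finset.mul_sum, RingHom.id_apply]

theorem eval_add_of_deg_le_one (a : MvPolynomial σ ℂ) (ha : a.totalDegree ≤ 1) (x y : σ → ℂ) :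
    MvPolynomial.eval (x + y) a = MvPolynomial.eval x a + lin a y := by
  classical
  have h := eq_of_deg_le_one a ha
  have h1 : ∀ z : σ → ℂ, MvPolynomial.eval z a = a.coeff 0 + lin a z := by
    intro z
    conv_lhs => rw [h]
    simp [lin]
  rw [h1, h1, map_add, add_assoc]

omit [Fintype σ] in
/-- The determinant of a matrix of polynomials of degree at most one. -/
theorem totalDegree_det_le (A : Matrix (Fin n) (Fin n) (MvPolynomial σ ℂ))
    (hA : ∀ i j, (A i j).totalDegree ≤ 1) : A.det.totalDegree ≤ n := by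
  rw [Matrix.det_apply]
  refine MvPolynomial.totalDegree_finsetSum_le fun τ _ => ?_
  refine (MvPolynomial.totalDegree_smul_le _ _).trans ?_
  refine (MvPolynomial.totalDegree_finsetProd _ _).trans ?_
  refine (Finset.sum_le_sum fun i _ => hA _ _).trans ?_
  simp

omit [Fintype σ] in
theorem eval_det (A : Matrix (Fin n) (Fin n) (MvPolynomial σ ℂ)) (x : σ → ℂ) :
    MvPolynomial.eval x A.det = (A.map (MvPolynomial.eval x)).det := by
  rw [RingHom.map_det]
  rfl

end affine

section near

variable {σ : Type*} [Fintype σ]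

open Polynomial in
theorem eventually_root (N : ℕ) (g : ℕ → MvPolynomial σ ℂ) (f : MvPolynomial σ ℂ)
    (hg : ∀ s, (g s).totalDegree ≤ N)
    (hlim : ∀ d, Tendsto (fun s => MvPolynomial.coeff d (g s)) atTop
      (𝓝 (MvPolynomial.coeff d f)))
    (p v : σ → ℂ) (hp : MvPolynomial.eval p f = 0) (hv : MvPolynomial.eval (p + v) f ≠ 0)
    (ε : ℝ) (hε : 0 < ε) :
    ∀ᶠ s in atTop, ∃ t : ℂ, ‖t‖ ≤ ε ∧ MvPolynomial.eval (p + t • v) (g s) = 0 := by
  have h0 := tendsto_eval_of_coeff N g f hg hlim (fun _ => p) p tendsto_const_nhds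
  have h1 := tendsto_eval_of_coeff N g f hg hlim (fun _ => p + v) (p + v) tendsto_const_nhds
  rw [hp] at h0
  have h2 : Tendsto (fun s => ‖MvPolynomial.eval p (g s)‖ * (1 + ‖(1 : ℂ)‖ / ε) ^ N) atTop
      (𝓝 (‖(0 : ℂ)‖ * (1 + ‖(1 : ℂ)‖ / ε) ^ N)) := h0.norm.mul_const _
  rw [norm_zero, zero_mul] at h2
  have h3 := h1.norm
  have h4 : (0 : ℝ) < ‖MvPolynomial.eval (p + v) f‖ := norm_pos_iff.mpr hv
  filter_upwards [h2.eventually_lt h3 h4] with s hs
  by_contra hno
  push Not at hno
  let q : ℂ[X] := MvPolynomial.aeval (fun i => C (p i) + C (v i) * X) (g s)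
  have hq : ∀ t : ℂ, q.eval t = MvPolynomial.eval (p + t • v) (g s) := by
    intro t
    have e1 : (Polynomial.aeval (R := ℂ) t).comp
        (MvPolynomial.aeval (fun i => C (p i) + C (v i) * X) :
          MvPolynomial σ ℂ →ₐ[ℂ] ℂ[X]) = MvPolynomial.aeval (p + t • v) := by
      refine MvPolynomial.algHom_ext fun i => ?_
      rw [AlgHom.comp_apply, MvPolynomial.aeval_X, MvPolynomial.aeval_X]
      simp only [map_add, map_mul, aeval_C, aeval_X, Pi.add_apply, Pi.smul_apply, smul_eq_mul]
      rw [mul_comm t]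
      rfl
    have e2 := congrArg (fun φ => φ (g s)) e1
    simp only [AlgHom.comp_apply] at e2
    rw [MvPolynomial.aeval_eq_eval] at e2
    exact e2
  have hdeg : q.natDegree ≤ N * 1 := by
    refine MvPolynomial.aeval_natDegree_le (g s) (hg s) _ fun i => ?_
    rw [add_comm]
    exact natDegree_linear_le
  rw [mul_one] at hdeg
  have := norm_eval_le_of_no_root N q hdeg ε hε (fun t ht => by rw [hq]; exact hno t ht) 1
  rw [hq, hq, one_smul, zero_smul, add_zero] at this
  exact absurd hs (not_lt.mpr this)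

end near

section limit

/-- Every subspace of dimension at least `D` contains an orthonormal family of size `D`. -/
theorem exists_orthonormal {τ : Type*} [Fintype τ] (U : Submodule ℂ (EuclideanSpace ℂ τ)) (D : ℕ)
    (hD : D ≤ Module.finrank ℂ U) :
    ∃ e : Fin D → EuclideanSpace ℂ τ, Orthonormal ℂ e ∧ ∀ i, e i ∈ U := by
  let b := stdOrthonormalBasis ℂ U
  refine ⟨fun i => (b (Fin.castLE hD i) : EuclideanSpace ℂ τ), ?_, fun i => (b _).2⟩
  have h1 : Orthonormal ℂ (fun i : Fin D => b (Fin.castLE hD i)) :=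
    b.orthonormal.comp _ (Fin.castLE_injective hD)
  exact h1.comp_linearIsometry U.subtypeₗᵢ

/-- A limit of subspaces of dimension at least `D`. -/
theorem exists_limit_subspace {τ : Type*} [Fintype τ]
    (U : ℕ → Submodule ℂ (EuclideanSpace ℂ τ)) (D : ℕ)
    (hD : ∀ k, D ≤ Module.finrank ℂ (U k)) :
    ∃ (W : Submodule ℂ (EuclideanSpace ℂ τ)) (φ : ℕ → ℕ), StrictMono φ ∧
      Module.finrank ℂ W = D ∧ ∀ y ∈ W, ∃ yk : ℕ → EuclideanSpace ℂ τ,
        (∀ k, yk k ∈ U (φ k)) ∧ Tendsto yk atTop (𝓝 y) := by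
  choose e he heU using fun k => exists_orthonormal (U k) D (hD k)
  have hb : ∀ k, e k ∈ Metric.closedBall (0 : Fin D → EuclideanSpace ℂ τ) 1 := by
    intro k
    rw [mem_closedBall_zero_iff, pi_norm_le_iff_of_nonneg zero_le_one]
    intro i
    rw [(he k).1 i]
  obtain ⟨a, _, φ, hφ, ha⟩ := tendsto_subseq_of_bounded Metric.isBounded_closedBall hb
  have hai : ∀ i, Tendsto (fun k => e (φ k) i) atTop (𝓝 (a i)) := fun i =>
    ((continuous_apply i).tendsto a).comp ha
  have horth : Orthonormal ℂ a := by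
    classical
    rw [orthonormal_iff_ite]
    intro i j
    have h1 : Tendsto (fun k => inner ℂ (e (φ k) i) (e (φ k) j)) atTop (𝓝 (inner ℂ (a i) (a j))) :=
      (hai i).inner (hai j)
    have h2 : (fun k => inner ℂ (e (φ k) i) (e (φ k) j)) = fun _ => if i = j then (1 : ℂ) else 0 := by
      funext k
      exact orthonormal_iff_ite.mp (he (φ k)) i j
    rw [h2] at h1
    exact tendsto_nhds_unique h1 tendsto_const_nhds
  refine ⟨Submodule.span ℂ (Set.range a), φ, hφ, ?_, ?_⟩
  · rw [finrank_span_eq_card horth.linearIndependent, Fintype.card_fin]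
  · intro y hy
    obtain ⟨c, rfl⟩ := (Submodule.mem_span_range_iff_exists_fun ℂ).mp hy
    refine ⟨fun k => ∑ i, c i • e (φ k) i, fun k => ?_, ?_⟩
    · exact Submodule.sum_mem _ fun i _ => Submodule.smul_mem _ _ (heU _ _)
    · exact tendsto_finsetSum _ fun i _ => (hai i).const_smul (c i)

end limit

section main

/-- If the determinants of the affine-linear `n × n` matrices `A s` converge to `f`, then every
zero `p` of `f` lying on a line on which `f` does not vanish identically lies on an affine subspace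
of codimension at most `n` (in any prescribed linear family) on which `f` vanishes. -/
theorem exists_subspace {σ τ : Type*} [Fintype σ] [Fintype τ] {n : ℕ}
    (A : ℕ → Matrix (Fin n) (Fin n) (MvPolynomial σ ℂ))
    (hA : ∀ s i j, (A s i j).totalDegree ≤ 1) (f : MvPolynomial σ ℂ)
    (hlim : ∀ d, Tendsto (fun s => MvPolynomial.coeff d (A s).det) atTop
      (𝓝 (MvPolynomial.coeff d f)))
    (p v : σ → ℂ) (hp : MvPolynomial.eval p f = 0) (hv : MvPolynomial.eval (p + v) f ≠ 0)
    (Ψ : (τ → ℂ) →ₗ[ℂ] (σ → ℂ)) :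
    ∃ W : Submodule ℂ (τ → ℂ), Fintype.card τ ≤ Module.finrank ℂ W + n ∧
      ∀ y ∈ W, MvPolynomial.eval (p + Ψ y) f = 0 := by
  classical
  have hdeg : ∀ s, (A s).det.totalDegree ≤ n := fun s => totalDegree_det_le _ (hA s)
  have hroot : ∀ k : ℕ, ∃ s : ℕ, k ≤ s ∧ ∃ t : ℂ, ‖t‖ ≤ 1 / ((k : ℝ) + 1) ∧
      MvPolynomial.eval (p + t • v) (A s).det = 0 := by
    intro k
    have h1 := eventually_root n (fun s => (A s).det) f hdeg hlim p v hp hv (1 / ((k : ℝ) + 1))
      (by positivity)
    obtain ⟨s, hs1, hs2⟩ := (h1.and (eventually_ge_atTop k)).exists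
    exact ⟨s, hs2, hs1⟩
  choose s hs t ht hst using hroot
  have hker : ∀ k, ∃ κ : Fin n → ℂ, κ ≠ 0 ∧
      Matrix.mulVec ((A (s k)).map (MvPolynomial.eval (p + t k • v))) κ = 0 := by
    intro k
    have := hst k
    rw [eval_det] at this
    exact Matrix.exists_mulVec_eq_zero_iff.mpr this
  choose κ hκ0 hκ using hker
  let ev := EuclideanSpace.equiv τ ℂ
  let R : ℕ → EuclideanSpace ℂ τ →ₗ[ℂ] (Fin n → ℂ) := fun k =>
    { toFun := fun y i => ∑ j, lin (A (s k) i j) (Ψ (ev y)) * κ k j
      map_add' := by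
        intro x y
        funext i
        simp only [map_add, Pi.add_apply, add_mul, Finset.sum_add_distrib]
      map_smul' := by
        intro c x
        funext i
        simp only [map_smul, Pi.smul_apply, smul_eq_mul, mul_assoc, Finset.mul_sum,
          RingHom.id_apply] }
  let U : ℕ → Submodule ℂ (EuclideanSpace ℂ τ) := fun k => LinearMap.ker (R k)
  have hUdim : ∀ k, Fintype.card τ - n ≤ Module.finrank ℂ (U k) := by
    intro k
    have h1 := LinearMap.finrank_range_add_finrank_ker (R k)
    have h2 : Module.finrank ℂ (LinearMap.range (R k)) ≤ n := by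
      have := Submodule.finrank_le (LinearMap.range (R k))
      rwa [Module.finrank_fintype_fun_eq_card, Fintype.card_fin] at this
    rw [finrank_euclideanSpace] at h1
    change Fintype.card τ - n ≤ Module.finrank ℂ (LinearMap.ker (R k))
    omega
  have hUzero : ∀ k, ∀ y ∈ U k,
      MvPolynomial.eval (p + t k • v + Ψ (ev y)) (A (s k)).det = 0 := by
    intro k y hy
    rw [eval_det]
    refine Matrix.exists_mulVec_eq_zero_iff.mp ⟨κ k, hκ0 k, ?_⟩
    funext i
    have h1 := congrFun (hκ k) i
    have h2 : ∑ j, lin (A (s k) i j) (Ψ (ev y)) * κ k j = 0 := congrFun hy i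
    simp only [Matrix.mulVec, dotProduct, Matrix.map_apply, Pi.zero_apply] at h1 ⊢
    simp only [eval_add_of_deg_le_one _ (hA (s k) i _) (p + t k • v) (Ψ (ev y)), add_mul,
      Finset.sum_add_distrib]
    rw [h1, h2, add_zero]
  obtain ⟨W, φ, hφ, hWdim, hW⟩ := exists_limit_subspace U (Fintype.card τ - n) hUdim
  refine ⟨W.map ev.toLinearEquiv.toLinearMap, ?_, ?_⟩
  · have h1 : Module.finrank ℂ (W.map ev.toLinearEquiv.toLinearMap) = Module.finrank ℂ W :=
      LinearEquiv.finrank_map_eq ev.toLinearEquiv W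
    rw [h1, hWdim]
    omega
  · rintro _ ⟨y, hy, rfl⟩
    obtain ⟨yk, hyk, hlimy⟩ := hW y hy
    have h1 : ∀ k, MvPolynomial.eval (p + t (φ k) • v + Ψ (ev (yk k))) (A (s (φ k))).det = 0 :=
      fun k => hUzero (φ k) (yk k) (hyk k)
    have ht0 : Tendsto t atTop (𝓝 0) := by
      rw [tendsto_zero_iff_norm_tendsto_zero]
      exact squeeze_zero (fun k => norm_nonneg _) ht tendsto_one_div_add_atTop_nhds_zero_nat
    have hΨ : Continuous (fun y : EuclideanSpace ℂ τ => Ψ (ev y)) :=
      (LinearMap.continuous_of_finiteDimensional Ψ).comp ev.continuous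
    have hx : Tendsto (fun k => p + t (φ k) • v + Ψ (ev (yk k))) atTop
        (𝓝 (p + Ψ (ev y))) := by
      have e1 : Tendsto (fun k => t (φ k) • v) atTop (𝓝 ((0 : ℂ) • v)) :=
        (ht0.comp hφ.tendsto_atTop).smul_const v
      rw [zero_smul] at e1
      have e2 := (tendsto_const_nhds (x := p)).add e1
      rw [add_zero] at e2
      exact e2.add ((hΨ.tendsto y).comp hlimy)
    have hsφ : Tendsto (fun k => s (φ k)) atTop atTop :=
      (tendsto_atTop_mono hs tendsto_id).comp hφ.tendsto_atTop
    have h2 := tendsto_eval_of_coeff n (fun k => (A (s (φ k))).det) f (fun k => hdeg _)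
      (fun d => (hlim d).comp hsφ) _ _ hx
    simp only [h1] at h2
    exact (tendsto_nhds_unique h2 tendsto_const_nhds)

end main

end Pool.Agent.Work.MP_35c45d_lc.Border
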