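import Pool.Agent.Work.MP_35c45d_lc.BorderKneser
import Pool.Agent.Work.MP_35c45d_lc.BorderExpand
import Pool.Agent.Work.MP_35c45d_lc.BorderLimit

/-! Lower bound for the border determinantal complexity of the permanent. -/

set_option autoImplicit false

namespace Pool.Agent.Work.MP_35c45d_lc.Border

open Filter Topology

section param

variable {ι : Type*} [Fintype ι] [DecidableEq ι]

/-- The index set of the free coordinates. -/
abbrev Rest (i0 i1 : ι) : Type _ := {j : ι // j ≠ i0 ∧ j ≠ i1}

/-- The vectors `e_j - e_{i1}`. -/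
def phi (i0 i1 : ι) (j : Rest i0 i1) : ι → ℂ := Pi.single j.1 1 - Pi.single i1 1

omit [Fintype ι] in
theorem phi_zero (i0 i1 : ι) (h01 : i0 ≠ i1) (j : Rest i0 i1) : phi i0 i1 j i0 = 0 := by
  simp [phi, h01, j.2.1.symm]

omit [Fintype ι] in
theorem phi_self (i0 i1 : ι) (j k : Rest i0 i1) :
    phi i0 i1 j k.1 = if j = k then 1 else 0 := by
  by_cases h : j = k
  · subst h
    simp [phi, j.2.2]
  · have : k.1 ≠ j.1 := fun hh => h (Subtype.ext hh.symm)
    simp [phi, h, this, k.2.2]

theorem sum_phi (i0 i1 : ι) (j : Rest i0 i1) : ∑ a, phi i0 i1 j a = 0 := by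
  simp [phi, Pi.single_apply]

/-- The parametrisation of the matrices with vanishing row and column sums and vanishing row and
column `i0`. -/
noncomputable def Psi (i0 i1 : ι) :
    (Rest i0 i1 × Rest i0 i1 → ℂ) →ₗ[ℂ] (ι × ι → ℂ) where
  toFun y ab := ∑ t, y t * (phi i0 i1 t.1 ab.1 * phi i0 i1 t.2 ab.2)
  map_add' x y := by
    funext ab
    simp only [Pi.add_apply, add_mul, Finset.sum_add_distrib]
  map_smul' c x := by
    funext ab
    simp only [Pi.smul_apply, smul_eq_mul, mul_assoc, Finset.mul_sum, RingHom.id_apply]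

theorem Psi_apply (i0 i1 : ι) (y : Rest i0 i1 × Rest i0 i1 → ℂ) (a b : ι) :
    Psi i0 i1 y (a, b) = ∑ t, y t * (phi i0 i1 t.1 a * phi i0 i1 t.2 b) := rfl

theorem Psi_row (i0 i1 : ι) (h01 : i0 ≠ i1) (y : Rest i0 i1 × Rest i0 i1 → ℂ) (b : ι) :
    Psi i0 i1 y (i0, b) = 0 := by
  rw [Psi_apply]
  exact Finset.sum_eq_zero fun t _ => by rw [phi_zero i0 i1 h01, zero_mul, mul_zero]

theorem Psi_col (i0 i1 : ι) (h01 : i0 ≠ i1) (y : Rest i0 i1 × Rest i0 i1 → ℂ) (a : ι) :
    Psi i0 i1 y (a, i0) = 0 := by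
  rw [Psi_apply]
  exact Finset.sum_eq_zero fun t _ => by rw [phi_zero i0 i1 h01, mul_zero, mul_zero]

theorem Psi_rowsum (i0 i1 : ι) (y : Rest i0 i1 × Rest i0 i1 → ℂ) (a : ι) :
    ∑ b, Psi i0 i1 y (a, b) = 0 := by
  simp only [Psi_apply]
  rw [Finset.sum_comm]
  refine Finset.sum_eq_zero fun t _ => ?_
  rw [← Finset.mul_sum, ← Finset.mul_sum, sum_phi, mul_zero, mul_zero]

theorem Psi_colsum (i0 i1 : ι) (y : Rest i0 i1 × Rest i0 i1 → ℂ) (b : ι) :
    ∑ a, Psi i0 i1 y (a, b) = 0 := by
  simp only [Psi_apply]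
  rw [Finset.sum_comm]
  refine Finset.sum_eq_zero fun t _ => ?_
  rw [← Finset.mul_sum, ← Finset.sum_mul, sum_phi, zero_mul, mul_zero]

theorem Psi_self (i0 i1 : ι) (y : Rest i0 i1 × Rest i0 i1 → ℂ) (j k : Rest i0 i1) :
    Psi i0 i1 y (j.1, k.1) = y (j, k) := by
  rw [Psi_apply, Finset.sum_eq_single (j, k)]
  · rw [phi_self, phi_self, if_pos rfl, if_pos rfl, mul_one, mul_one]
  · rintro ⟨a, b⟩ _ hne
    rw [phi_self, phi_self]
    by_cases h1 : a = j
    · have h2 : b ≠ k := fun h => hne (by rw [h1, h])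
      simp [h2]
    · simp [h1]
  · intro h
    exact absurd (Finset.mem_univ _) h

theorem Psi_injective (i0 i1 : ι) : Function.Injective (Psi i0 i1) := by
  intro x y hxy
  funext t
  obtain ⟨j, k⟩ := t
  rw [← Psi_self i0 i1 x, ← Psi_self i0 i1 y, hxy]

theorem card_Rest (i0 i1 : ι) (h01 : i0 ≠ i1) :
    Fintype.card (Rest i0 i1) + 2 = Fintype.card ι := by
  have h1 : Fintype.card (Rest i0 i1) = (Finset.univ \ {i0, i1} : Finset ι).card := by
    rw [Fintype.card_subtype]
    congr 1
    ext j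
    simp
  rw [h1, Finset.card_sdiff_of_subset (Finset.subset_univ _), Finset.card_pair h01,
    Finset.card_univ]
  have : 2 ≤ Fintype.card ι := by
    rw [← Finset.card_pair h01]
    exact Finset.card_le_univ _
  omega

end param

section perm

variable {ι : Type*} [Fintype ι] [DecidableEq ι]

/-- The permanent polynomial. -/
noncomputable def permPoly (ι : Type*) [Fintype ι] [DecidableEq ι] : MvPolynomial (ι × ι) ℂ :=
  (Matrix.of (fun i j : ι => (MvPolynomial.X (i, j) : MvPolynomial (ι × ι) ℂ))).permanent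

theorem eval_permPoly (x : ι × ι → ℂ) :
    MvPolynomial.eval x (permPoly ι) = ∑ σ : Equiv.Perm ι, ∏ i, x (σ i, i) := by
  simp [permPoly, Matrix.permanent]

/-- All entries one, except the `(i0, i0)` entry which is `c`. -/
def pt (i0 : ι) (c : ℂ) : ι × ι → ℂ := fun ab => if ab.2 = i0 ∧ ab.1 = i0 then c else 1

theorem eval_pt (i0 : ι) (c : ℂ) :
    MvPolynomial.eval (pt i0 c) (permPoly ι)
      = ((Nat.factorial (Fintype.card ι - 1) : ℕ) : ℂ) * ((Fintype.card ι : ℂ) - 1 + c) := by
  have hcard : 1 ≤ Fintype.card ι := Fintype.card_pos_iff.mpr ⟨i0⟩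
  have h1 : ∀ σ : Equiv.Perm ι, ∏ i, pt i0 c (σ i, i)
      = 1 + (c - 1) * (Pi.single i0 1 : ι → ℂ) (σ i0) := by
    intro σ
    by_cases h : σ i0 = i0
    · rw [Finset.prod_eq_single i0]
      · simp [pt, h]
      · intro b _ hb
        simp [pt, hb]
      · simp
    · rw [Finset.prod_eq_one]
      · simp [h]
      · intro i _
        simp only [pt]
        rw [if_neg]
        rintro ⟨rfl, h'⟩
        exact h h'
  rw [eval_permPoly]
  simp only [h1, Finset.sum_add_distrib, ← Finset.mul_sum]
  rw [permSum1 hcard i0 (Pi.single i0 1), sm_single]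
  simp only [Finset.sum_const, Finset.card_univ, Fintype.card_perm, nsmul_eq_mul, mul_one]
  have h2 : ((Nat.factorial (Fintype.card ι) : ℕ) : ℂ)
      = (Fintype.card ι : ℂ) * ((Nat.factorial (Fintype.card ι - 1) : ℕ) : ℂ) := by
    rw [← Nat.cast_mul, Nat.mul_factorial_pred (by omega)]
  rw [h2]
  ring

/-- The lower bound, for an arbitrary index type with at least four elements. -/
theorem border_bound (h4 : 4 ≤ Fintype.card ι) {n : ℕ}
    (A : ℕ → Matrix (Fin n) (Fin n) (MvPolynomial (ι × ι) ℂ))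
    (hA : ∀ s i j, (A s i j).totalDegree ≤ 1)
    (hlim : ∀ d, Tendsto (fun s => MvPolynomial.coeff d (A s).det) atTop
      (𝓝 (MvPolynomial.coeff d (permPoly ι)))) :
    2 * (Fintype.card ι - 2) * (Fintype.card ι - 3) ≤ 3 * n := by
  obtain ⟨i0, i1, h01⟩ := Fintype.exists_pair_of_one_lt_card (α := ι) (by omega)
  have hp : MvPolynomial.eval (pt i0 (1 - (Fintype.card ι : ℂ))) (permPoly ι) = 0 := by
    rw [eval_pt]
    ring
  have hv : MvPolynomial.eval (pt i0 (1 - (Fintype.card ι : ℂ)) + Pi.single (i0, i0) 1)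
      (permPoly ι) ≠ 0 := by
    have : pt i0 (1 - (Fintype.card ι : ℂ)) + Pi.single (i0, i0) 1
        = pt i0 (2 - (Fintype.card ι : ℂ)) := by
      funext ab
      obtain ⟨a, b⟩ := ab
      by_cases h : b = i0 ∧ a = i0
      · simp only [pt, Pi.add_apply, h, and_self, if_true, Pi.single_eq_same]
        ring
      · have h' : (a, b) ≠ (i0, i0) := by
          intro hh
          rw [Prod.mk.injEq] at hh
          exact h ⟨hh.2, hh.1⟩
        simp [pt, h, h']
    rw [this, eval_pt]
    refine mul_ne_zero (Nat.cast_ne_zero.mpr (Nat.factorial_ne_zero _)) ?_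
    intro h
    have : (1 : ℂ) = 0 := by linear_combination h
    exact one_ne_zero this
  obtain ⟨W, hWdim, hW⟩ := exists_subspace A hA (permPoly ι) hlim _ _ hp hv (Psi i0 i1)
  have hinj := Psi_injective i0 i1
  have hcardR := card_Rest i0 i1 h01
  rw [Fintype.card_prod] at hWdim
  obtain ⟨r, hr⟩ : ∃ r, Fintype.card (Rest i0 i1) = r + 2 := ⟨Fintype.card (Rest i0 i1) - 2, by omega⟩
  have hcard : Fintype.card ι = r + 4 := by omega
  set U : Submodule ℂ (ι × ι → ℂ) := W.map (Psi i0 i1) with hU
  have hUdim : Module.finrank ℂ U = Module.finrank ℂ W :=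
    (LinearEquiv.finrank_eq (Submodule.equivMapOfInjective _ hinj W)).symm
  have hbound : Module.finrank ℂ W = 0 ∨
      3 * Module.finrank ℂ W + 1 ≤ (Fintype.card ι - 1) * (Fintype.card ι - 1) := by
    by_cases hbot : U = ⊥
    · left
      rw [← hUdim, hbot, finrank_bot]
    · right
      rw [← hUdim]
      -- moments
      have hmom : ∀ u ∈ U, ∑ t, u t * u t = 0 ∧ ∑ t, u t * u t * u t = 0 := by
        intro u hu
        obtain ⟨y, hy, rfl⟩ := hu
        have := moments_of_perm_eq_zero (K := ℂ) h4 i0 (fun i j => Psi i0 i1 y (j, i))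
          (fun j => Psi_col i0 i1 h01 y j) (fun i => Psi_row i0 i1 h01 y i)
          (fun i => Psi_colsum i0 i1 y i) (fun j => Psi_rowsum i0 i1 y j) (by
            intro z
            have h1 := hW (z • y) (W.smul_mem z hy)
            rw [eval_permPoly] at h1
            rw [← h1]
            refine Finset.sum_congr rfl fun σ _ => Finset.prod_congr rfl fun i _ => ?_
            rw [map_smul]
            rfl)
        constructor
        · rw [Fintype.sum_prod_type, Finset.sum_comm]
          exact this.1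
        · rw [Fintype.sum_prod_type, Finset.sum_comm]
          exact this.2
      have hcQ : ((Finset.univ.erase i0) ×ˢ (Finset.univ.erase i0) : Finset (ι × ι)).card
          = (Fintype.card ι - 1) * (Fintype.card ι - 1) := by
        rw [Finset.card_product, Finset.card_erase_of_mem (Finset.mem_univ _), Finset.card_univ]
      rw [← hcQ]
      refine isotropic3_diag U hbot ?_ (fun u hu => (hmom u hu).1) (fun u hu => (hmom u hu).2) _ ?_
      · rintro _ ⟨y, _, rfl⟩
        rw [Fintype.sum_prod_type]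
        exact Finset.sum_eq_zero fun a _ => Psi_rowsum i0 i1 y a
      · rintro _ ⟨y, _, rfl⟩ ⟨a, b⟩ hab
        rw [Finset.mem_product, not_and_or] at hab
        rcases hab with h | h
        · have : a = i0 := by
            by_contra h'
            exact h (Finset.mem_erase.mpr ⟨h', Finset.mem_univ _⟩)
          rw [this]
          exact Psi_row i0 i1 h01 y b
        · have : b = i0 := by
            by_contra h'
            exact h (Finset.mem_erase.mpr ⟨h', Finset.mem_univ _⟩)
          rw [this]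
          exact Psi_col i0 i1 h01 y a
  rw [hr] at hWdim
  rw [hcard] at hbound ⊢
  have e1 : r + 4 - 1 = r + 3 := by omega
  have e2 : r + 4 - 2 = r + 2 := by omega
  have e3 : r + 4 - 3 = r + 1 := by omega
  rw [e1] at hbound
  rw [e2, e3]
  rcases hbound with h | h
  · rw [h] at hWdim
    nlinarith
  · nlinarith

end perm

end Pool.Agent.Work.MP_35c45d_lc.Border
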