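import Mathlib

/-! Sums over permutations of products of few functions. -/

set_option autoImplicit false

namespace Pool.Agent.Work.MP_35c45d_lc.Border

open Equiv Finset

section step

variable {ι : Type*} [Fintype ι] [DecidableEq ι] {K : Type*} [Field K]

theorem permSum_step (S : Finset ι) (i0 : ι) (h0 : i0 ∉ S) (Ω : Perm ι → K)
    (hΩ : ∀ σ i j, i ∉ S → j ∉ S → Ω (σ * swap i j) = Ω σ) (G : ι → K) :
    ((Fintype.card ι : K) - (S.card : K)) * ∑ σ : Perm ι, Ω σ * G (σ i0)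
      = (∑ j, G j) * ∑ σ : Perm ι, Ω σ - ∑ k ∈ S, ∑ σ : Perm ι, Ω σ * G (σ k) := by
  have key : ∀ i, i ∉ S → ∑ σ : Perm ι, Ω σ * G (σ i) = ∑ σ : Perm ι, Ω σ * G (σ i0) := by
    intro i hi
    refine Fintype.sum_equiv (Equiv.mulRight (swap i0 i)) _ _ ?_
    intro σ
    simp only [Equiv.coe_mulRight, Perm.coe_mul, Function.comp_apply, swap_apply_left]
    rw [hΩ σ i0 i h0 hi]
  have h1 : ∑ i ∈ Sᶜ, ∑ σ : Perm ι, Ω σ * G (σ i)
      = ((Fintype.card ι : K) - (S.card : K)) * ∑ σ : Perm ι, Ω σ * G (σ i0) := by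
    rw [Finset.sum_congr rfl (fun i hi => key i (by simpa using hi))]
    rw [Finset.sum_const, nsmul_eq_mul, Finset.card_compl, Nat.cast_sub (Finset.card_le_univ S)]
  have h2 : ∑ i, ∑ σ : Perm ι, Ω σ * G (σ i) = (∑ j, G j) * ∑ σ : Perm ι, Ω σ := by
    rw [Finset.sum_comm, Finset.mul_sum]
    refine Finset.sum_congr rfl fun σ _ => ?_
    rw [← Finset.mul_sum, mul_comm, Equiv.sum_comp σ G]
  rw [← h1, ← h2, ← Finset.sum_add_sum_compl S]
  ring

end step

section br

variable {ι : Type*} [Fintype ι] {K : Type*} [Field K]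

/-- sum of all values -/
def sm (F : ι → K) : K := ∑ i, F i

/-- sums over injective tuples of indices -/
def br2 (F G : ι → K) : K := sm F * sm G - sm (F * G)
def br3 (F G H : ι → K) : K := br2 F G * sm H - br2 (F * H) G - br2 F (G * H)
def br4 (F G H I : ι → K) : K :=
  br3 F G H * sm I - br3 (F * I) G H - br3 F (G * I) H - br3 F G (H * I)

variable [DecidableEq ι] [CharZero K]

theorem fact_step (N r : ℕ) (h : r + 1 ≤ N) :
    ((Nat.factorial (N - r) : ℕ) : K) = ((N : K) - (r : K)) * (Nat.factorial (N - (r + 1)) : ℕ) := by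
  have h3 : Nat.factorial (N - r) = (N - r) * Nat.factorial (N - (r + 1)) := by
    have := (Nat.mul_factorial_pred (n := N - r) (by omega)).symm
    simpa [Nat.sub_sub] using this
  rw [h3]
  push_cast [Nat.cast_sub (show r ≤ N by omega)]
  ring

theorem fact_ne (N r : ℕ) (h : r + 1 ≤ N) : ((N : K) - (r : K)) ≠ 0 := by
  have : (N : K) ≠ ((r : ℕ) : K) := by
    rw [Ne, Nat.cast_inj]; omega
  simpa [sub_eq_zero] using this

theorem permSum1 (h : 1 ≤ Fintype.card ι) (i : ι) (F : ι → K) :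
    ∑ σ : Perm ι, F (σ i) = (Nat.factorial (Fintype.card ι - 1) : ℕ) * sm F := by
  have := permSum_step (K := K) (∅ : Finset ι) i (by simp) (fun _ => 1) (by simp) F
  simp only [Finset.card_empty, one_mul, Finset.sum_const, Finset.card_univ, Fintype.card_perm,
    Finset.sum_empty, nsmul_eq_mul, mul_one, sub_zero] at this
  apply mul_left_cancel₀ (fact_ne (K := K) (Fintype.card ι) 0 h)
  rw [Nat.cast_zero] at this ⊢
  rw [this]
  have h3 := fact_step (K := K) (Fintype.card ι) 0 h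
  rw [Nat.sub_zero] at h3
  rw [h3]
  simp only [sm]
  push_cast
  ring

theorem permSum2 (h : 2 ≤ Fintype.card ι) (i1 i2 : ι)
    (h12 : i1 ≠ i2) (F1 F2 : ι → K) :
    ∑ σ : Perm ι, F1 (σ i1) * F2 (σ i2) =
      (Nat.factorial (Fintype.card ι - 2) : ℕ) * br2 F1 F2 := by
  have key := permSum_step (K := K) ({i1} : Finset ι) i2
    (by simp [h12.symm])
    (fun σ => F1 (σ i1)) (by
      intro σ a b ha hb
      simp only [Finset.mem_insert, Finset.mem_singleton, not_or] at ha hb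
      have s0 : swap a b i1 = i1 := swap_apply_of_ne_of_ne (Ne.symm ha) (Ne.symm hb)
      simp only [Perm.coe_mul, Function.comp_apply, s0]) F2
  have hc : (({i1} : Finset ι)).card = 1 := by
    simp [Finset.card_insert_of_notMem, Finset.card_singleton]
  have hS : ∀ f : ι → K, ∑ k ∈ ({i1} : Finset ι), f k = f i1 := by
    intro f
    simp
  rw [hc, hS] at key
  have e0 : ∑ σ : Perm ι, F1 (σ i1) * F2 (σ i1) = (Nat.factorial (Fintype.card ι - 1) : ℕ) * sm (F1 * F2) := by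
    rw [← permSum1 (by omega) i1 (F1 * F2)]
    rfl
  rw [permSum1 (by omega) i1 F1] at key
  rw [e0] at key
  apply mul_left_cancel₀ (fact_ne (K := K) (Fintype.card ι) 1 h)
  rw [key, fact_step (K := K) (Fintype.card ι) 1 h]
  simp only [br2, sm]
  push_cast
  ring

theorem permSum3 (h : 3 ≤ Fintype.card ι) (i1 i2 i3 : ι)
    (h12 : i1 ≠ i2) (h13 : i1 ≠ i3) (h23 : i2 ≠ i3) (F1 F2 F3 : ι → K) :
    ∑ σ : Perm ι, F1 (σ i1) * F2 (σ i2) * F3 (σ i3) =
      (Nat.factorial (Fintype.card ι - 3) : ℕ) * br3 F1 F2 F3 := by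
  have key := permSum_step (K := K) ({i1, i2} : Finset ι) i3
    (by simp [h13.symm, h23.symm])
    (fun σ => F1 (σ i1) * F2 (σ i2)) (by
      intro σ a b ha hb
      simp only [Finset.mem_insert, Finset.mem_singleton, not_or] at ha hb
      have s0 : swap a b i1 = i1 := swap_apply_of_ne_of_ne (Ne.symm ha.1) (Ne.symm hb.1)
      have s1 : swap a b i2 = i2 := swap_apply_of_ne_of_ne (Ne.symm ha.2) (Ne.symm hb.2)
      simp only [Perm.coe_mul, Function.comp_apply, s0, s1]) F3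
  have hc : (({i1, i2} : Finset ι)).card = 2 := by
    simp [Finset.card_insert_of_notMem, h12]
  have hS : ∀ f : ι → K, ∑ k ∈ ({i1, i2} : Finset ι), f k = f i1 + f i2 := by
    intro f
    simp [Finset.sum_insert, h12, add_assoc]
  rw [hc, hS] at key
  have e0 : ∑ σ : Perm ι, F1 (σ i1) * F2 (σ i2) * F3 (σ i1) = (Nat.factorial (Fintype.card ι - 2) : ℕ) * br2 (F1 * F3) F2 := by
    rw [← permSum2 (by omega) i1 i2 h12 (F1 * F3) F2]
    refine Finset.sum_congr rfl fun σ _ => ?_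
    simp only [Pi.mul_apply]
    ring
  have e1 : ∑ σ : Perm ι, F1 (σ i1) * F2 (σ i2) * F3 (σ i2) = (Nat.factorial (Fintype.card ι - 2) : ℕ) * br2 F1 (F2 * F3) := by
    rw [← permSum2 (by omega) i1 i2 h12 F1 (F2 * F3)]
    refine Finset.sum_congr rfl fun σ _ => ?_
    simp only [Pi.mul_apply]
    ring
  rw [permSum2 (by omega) i1 i2 h12 F1 F2] at key
  rw [e0, e1] at key
  apply mul_left_cancel₀ (fact_ne (K := K) (Fintype.card ι) 2 h)
  rw [key, fact_step (K := K) (Fintype.card ι) 2 h]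
  simp only [br3, sm]
  push_cast
  ring

theorem permSum4 (h : 4 ≤ Fintype.card ι) (i1 i2 i3 i4 : ι)
    (h12 : i1 ≠ i2) (h13 : i1 ≠ i3) (h14 : i1 ≠ i4) (h23 : i2 ≠ i3) (h24 : i2 ≠ i4) (h34 : i3 ≠ i4) (F1 F2 F3 F4 : ι → K) :
    ∑ σ : Perm ι, F1 (σ i1) * F2 (σ i2) * F3 (σ i3) * F4 (σ i4) =
      (Nat.factorial (Fintype.card ι - 4) : ℕ) * br4 F1 F2 F3 F4 := by
  have key := permSum_step (K := K) ({i1, i2, i3} : Finset ι) i4
    (by simp [h14.symm, h24.symm, h34.symm])
    (fun σ => F1 (σ i1) * F2 (σ i2) * F3 (σ i3)) (by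
      intro σ a b ha hb
      simp only [Finset.mem_insert, Finset.mem_singleton, not_or] at ha hb
      have s0 : swap a b i1 = i1 := swap_apply_of_ne_of_ne (Ne.symm ha.1) (Ne.symm hb.1)
      have s1 : swap a b i2 = i2 := swap_apply_of_ne_of_ne (Ne.symm ha.2.1) (Ne.symm hb.2.1)
      have s2 : swap a b i3 = i3 := swap_apply_of_ne_of_ne (Ne.symm ha.2.2) (Ne.symm hb.2.2)
      simp only [Perm.coe_mul, Function.comp_apply, s0, s1, s2]) F4
  have hc : (({i1, i2, i3} : Finset ι)).card = 3 := by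
    simp [Finset.card_insert_of_notMem, h12, h13, h23]
  have hS : ∀ f : ι → K, ∑ k ∈ ({i1, i2, i3} : Finset ι), f k = f i1 + f i2 + f i3 := by
    intro f
    simp [Finset.sum_insert, h12, h13, h23, add_assoc]
  rw [hc, hS] at key
  have e0 : ∑ σ : Perm ι, F1 (σ i1) * F2 (σ i2) * F3 (σ i3) * F4 (σ i1) = (Nat.factorial (Fintype.card ι - 3) : ℕ) * br3 (F1 * F4) F2 F3 := by
    rw [← permSum3 (by omega) i1 i2 i3 h12 h13 h23 (F1 * F4) F2 F3]
    refine Finset.sum_congr rfl fun σ _ => ?_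
    simp only [Pi.mul_apply]
    ring
  have e1 : ∑ σ : Perm ι, F1 (σ i1) * F2 (σ i2) * F3 (σ i3) * F4 (σ i2) = (Nat.factorial (Fintype.card ι - 3) : ℕ) * br3 F1 (F2 * F4) F3 := by
    rw [← permSum3 (by omega) i1 i2 i3 h12 h13 h23 F1 (F2 * F4) F3]
    refine Finset.sum_congr rfl fun σ _ => ?_
    simp only [Pi.mul_apply]
    ring
  have e2 : ∑ σ : Perm ι, F1 (σ i1) * F2 (σ i2) * F3 (σ i3) * F4 (σ i3) = (Nat.factorial (Fintype.card ι - 3) : ℕ) * br3 F1 F2 (F3 * F4) := by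
    rw [← permSum3 (by omega) i1 i2 i3 h12 h13 h23 F1 F2 (F3 * F4)]
    refine Finset.sum_congr rfl fun σ _ => ?_
    simp only [Pi.mul_apply]
    ring
  rw [permSum3 (by omega) i1 i2 i3 h12 h13 h23 F1 F2 F3] at key
  rw [e0, e1, e2] at key
  apply mul_left_cancel₀ (fact_ne (K := K) (Fintype.card ι) 3 h)
  rw [key, fact_step (K := K) (Fintype.card ι) 3 h]
  simp only [br4, sm]
  push_cast
  ring

end br

end Pool.Agent.Work.MP_35c45d_lc.Border
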