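import Pool.Agent.Work.MP_35c45d_lc.Point

set_option autoImplicit false

namespace Pool.Agent.Work.MP_35c45d_lc

open Matrix Polynomial Finset

section final

variable {K : Type*} [Field K] [CharZero K] {q : ℕ}

theorem perm_x_row0 (y : Fin q ⊕ Fin 2 → K) :
    ((xpt q).updateRow (Sum.inr 0) y).permanent = (Nat.factorial q : ℕ) * br2 y (y2 q) := by
  rw [permanent_rows]
  have h : ∀ σ : Equiv.Perm (Fin q ⊕ Fin 2), ∏ i, ((xpt q).updateRow (Sum.inr 0) y) i (σ i)
      = y (σ (Sum.inr 0)) * y2 q (σ (Sum.inr 1)) := by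
    intro σ
    rw [Fintype.prod_sum_type, Fin.prod_univ_two]
    simp [xpt]
  rw [Finset.sum_congr rfl fun σ _ => h σ]
  rw [permSum2 (by rw [cardN]; omega) (Sum.inr 0) (Sum.inr 1) (by simp), cardN]
  simp

theorem perm_x_rowbig (hq : 1 ≤ q) (u : Fin q) (y : Fin q ⊕ Fin 2 → K) :
    ((xpt q).updateRow (Sum.inl u) y).permanent
      = (Nat.factorial (q - 1) : ℕ) * br3 y (y1 q) (y2 q) := by
  rw [permanent_rows]
  have h : ∀ σ : Equiv.Perm (Fin q ⊕ Fin 2), ∏ i, ((xpt q).updateRow (Sum.inl u) y) i (σ i)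
      = y (σ (Sum.inl u)) * y1 q (σ (Sum.inr 0)) * y2 q (σ (Sum.inr 1)) := by
    intro σ
    rw [Fintype.prod_sum_type, Fin.prod_univ_two, ← Finset.mul_prod_erase _ _ (Finset.mem_univ u)]
    have h1 : ∀ i ∈ Finset.univ.erase u,
        ((xpt q).updateRow (Sum.inl u) y) (Sum.inl i) (σ (Sum.inl i)) = 1 := by
      intro i hi
      rw [Matrix.updateRow_ne (by simpa using Finset.ne_of_mem_erase hi)]
      simp [xpt]
    rw [Finset.prod_eq_one h1]
    simp [xpt]
    ring
  rw [Finset.sum_congr rfl fun σ _ => h σ]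
  rw [permSum3 (by rw [cardN]; omega) (Sum.inl u) (Sum.inr 0) (Sum.inr 1) (by simp) (by simp)
    (by simp), cardN, show q + 2 - 3 = q - 1 by omega]

theorem perm_x : (xpt q : Matrix _ _ K).permanent = 0 := by
  have h : (xpt q : Matrix _ _ K).updateRow (Sum.inr 0) (y1 q) = xpt q := by
    ext1 i j
    by_cases hi : i = Sum.inr 0
    · subst hi; simp [xpt]
    · simp [hi]
  rw [← h, perm_x_row0, br2_y1_y2, mul_zero]

theorem line_row0 (e : VV q K) :
    (xpt q).map C + (X : K[X]) • (dirM e).map C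
      = ((xpt q).map C + (X : K[X]) • (dirM e).map C).updateRow (Sum.inr 0)
        (fun j => C (y1 q j)) := by
  ext1 i j
  by_cases hi : i = Sum.inr 0
  · subst hi; simp [xpt, dirM]
  · simp [hi]

/-- the linear constraints cutting out the space of directions -/
def cstr : VV q K →ₗ[K] (Fin (q + 1) → K) × K where
  toFun e := (∑ i, e.1 i, ∑ i, e.2 i)
  map_add' := by
    intro a b
    simp [Finset.sum_add_distrib]
  map_smul' := by
    intro c a
    simp [Finset.smul_sum, Finset.mul_sum]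

theorem sum_zero_of (hq : 3 ≤ q) (b : Fin q → K) (h : ∀ u, 2 * b u = ∑ i, b i) (u : Fin q) :
    b u = 0 := by
  have h1 : ∑ u, 2 * b u = ∑ _u : Fin q, ∑ i, b i := Finset.sum_congr rfl fun u _ => h u
  rw [← Finset.mul_sum, Finset.sum_const, Finset.card_univ, Fintype.card_fin, nsmul_eq_mul] at h1
  have h2 : ((q : K) - 2) * ∑ i, b i = 0 := by linear_combination -h1
  have h3 : (q : K) - 2 ≠ 0 := by
    have := fact_ne (K := K) q 2 hq
    simpa using this
  have h4 : ∑ i, b i = 0 := by
    rcases mul_eq_zero.mp h2 with h | h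
    · exact absurd h h3
    · exact h
  have h5 := h u
  rw [h4] at h5
  have : (2 : K) ≠ 0 := two_ne_zero
  rcases mul_eq_zero.mp h5 with h | h
  · exact absurd h this
  · exact h

theorem dir_zero (hq : 3 ≤ q) (e : VV q K) (he : cstr e = 0) (φ : K[X])
    (hφ : ∀ (u : Fin q ⊕ Fin 2) (y : Fin q ⊕ Fin 2 → K),
      (((xpt q).map C + (X : K[X]) • (dirM e).map C).updateRow u (fun j => C (y j))).permanent
        = φ * C ((xpt q).updateRow u y).permanent) : e = 0 := by
  obtain ⟨Z, w⟩ := e
  have hZ : ∑ i, Z i = 0 := congrArg Prod.fst he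
  have hw : ∑ i, w i = 0 := congrArg Prod.snd he
  have hq0 : (q : K) ≠ 0 := by
    have := fact_ne (K := K) q 0 (by omega); simpa using this
  have hq1 : (q : K) - 1 ≠ 0 := by
    have := fact_ne (K := K) q 1 (by omega); simpa using this
  have hq2 : (q : K) - 2 ≠ 0 := by
    have := fact_ne (K := K) q 2 hq; simpa using this
  have f0 : ((Nat.factorial q : ℕ) : K) = q * (Nat.factorial (q - 1) : ℕ) := by
    have := fact_step (K := K) q 0 (by omega); simpa using this
  have f1 : ((Nat.factorial (q - 1) : ℕ) : K) = (q - 1) * (Nat.factorial (q - 2) : ℕ) := by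
    have := fact_step (K := K) q 1 (by omega); simpa using this
  have f2 : ((Nat.factorial (q - 2) : ℕ) : K) = (q - 2) * (Nat.factorial (q - 3) : ℕ) := by
    have := fact_step (K := K) q 2 (by omega); simpa using this
  have g3 : ((Nat.factorial (q - 3) : ℕ) : K) ≠ 0 := by
    exact_mod_cast Nat.factorial_ne_zero _
  have g0 : ((Nat.factorial q : ℕ) : K) ≠ 0 := by
    exact_mod_cast Nat.factorial_ne_zero _
  -- coefficient relations
  have hc : ∀ (u : Fin q ⊕ Fin 2) (y : Fin q ⊕ Fin 2 → K) (k : ℕ),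
      ((((xpt q).map C + (X : K[X]) • (dirM (Z, w)).map C).updateRow u
        (fun j => C (y j))).permanent).coeff k
        = φ.coeff k * ((xpt q).updateRow u y).permanent := by
    intro u y k
    rw [hφ, coeff_mul_C]
  -- step 1 : w = 0
  have s1 : ∀ j, - w j = φ.coeff 1 * 2 := by
    intro j
    have := hc (Sum.inr 0) (Pi.single (Sum.inl j) 1) 1
    rw [row0_coeff1 (Z, w) (by omega) hZ, perm_x_row0] at this
    change _ * br2 _ (Sum.elim w (fun _ => 0)) = _ at this
    rw [br2_big_w j w hw, br2_big_y2] at this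
    apply mul_left_cancel₀ g0
    linear_combination this
  have hφ1 : φ.coeff 1 = 0 := by
    have h1 : ∑ j, - w j = ∑ _j : Fin q, φ.coeff 1 * 2 := Finset.sum_congr rfl fun j _ => s1 j
    rw [Finset.sum_neg_distrib, hw, Finset.sum_const, Finset.card_univ, Fintype.card_fin,
      nsmul_eq_mul, neg_zero] at h1
    rcases mul_eq_zero.mp h1.symm with h | h
    · exact absurd h hq0
    · rcases mul_eq_zero.mp h with h | h
      · exact h
      · exact absurd h two_ne_zero
  have hw0 : w = 0 := by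
    funext j
    have := s1 j
    rw [hφ1, zero_mul] at this
    simpa using this
  subst hw0
  -- step 2
  set r : Fin q → K := fun u => ∑ j, zrow (Z u) (Sum.inl j) with hr
  set ρ : Fin q → K := fun u => ∑ j, zrow (Z u) (Sum.inl j) * zrow (Z u) (Sum.inl j) with hρ
  set c : Fin q → K := fun u => zrow (Z u) (Sum.inr 0) with hcdef
  have s2 : ∀ u, r u = q * c u := by
    intro u
    have := hc (Sum.inl u) (Pi.single (Sum.inr 1) 1) 1
    rw [rowbig_coeff1 Z (by omega) hZ, hφ1, zero_mul, br4_s2 _ (zrow_inr1 _)] at this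
    have g2 : ((Nat.factorial (q - 2) : ℕ) : K) ≠ 0 := by
      exact_mod_cast Nat.factorial_ne_zero _
    have h1 : -((q : K) - 1) * r u + q * (q - 1) * c u = 0 := by
      rcases mul_eq_zero.mp this with h | h
      · exact absurd (neg_eq_zero.mp h) g2
      · exact h
    apply mul_left_cancel₀ hq1
    linear_combination -h1
  have s3 : ∀ u, ρ u = q * c u ^ 2 := by
    intro u
    have hb : ∀ u, br5 (Pi.single (Sum.inr 1) (1 : K)) (zrow (Z u)) (zrow (Z u)) (y1 q) (y2 q)
        = 2 * ((q : K) - 2) * (ρ u - q * c u ^ 2) := by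
      intro u
      rw [br5_s2 _ (zrow_inr1 _)]
      change -2 * ((q : K) - 2) * ((r u) ^ 2 - ρ u) + 2 * (q - 1) * (q - 2) * (r u * c u) = _
      rw [s2 u]
      ring
    have key : ∀ u, 2 * (2 * ((q : K) - 2) * (ρ u - q * c u ^ 2))
        = ∑ i, 2 * ((q : K) - 2) * (ρ i - q * c i ^ 2) := by
      intro u
      have := hc (Sum.inl u) (Pi.single (Sum.inr 1) 1) 2
      rw [perm_x_rowbig (by omega), br3_s2, mul_zero, mul_zero] at this
      have h2 := rowbig_coeff2 Z hq hZ u (Pi.single (Sum.inr 1) 1)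
      rw [this, mul_zero] at h2
      simp only [hb] at h2
      rcases mul_eq_zero.mp h2.symm with h | h
      · exact absurd h g3
      · linear_combination h
    have := sum_zero_of hq _ key u
    have h5 : (2 : K) * ((q : K) - 2) ≠ 0 := mul_ne_zero two_ne_zero hq2
    rcases mul_eq_zero.mp this with h | h
    · exact absurd h h5
    · linear_combination h
  -- step 4
  have s4 : 2 * φ.coeff 2 = - ∑ i, c i ^ 2 := by
    have := hc (Sum.inr 0) (Pi.single (Sum.inr 1) 1) 2
    rw [perm_x_row0, br2_s2] at this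
    have h2 := row0_coeff2 (Z, (0 : Fin q → K)) (by omega) hZ (Pi.single (Sum.inr 1) 1)
    rw [this] at h2
    have hb : ∀ i, br4 (Pi.single (Sum.inr 1) (1 : K)) (zrow (Z i)) (zrow (Z i)) (y2 q)
        = ((q : K) - 1) * q * (q + 1) * c i ^ 2 := by
      intro i
      rw [br4_s2' _ (zrow_inr1 _)]
      change ((q : K) - 1) * ((r i) ^ 2 - ρ i + 2 * (r i * c i)) = _
      rw [s2 i, s3 i]
      ring
    simp only [hb, ← Finset.mul_sum] at h2
    have hq1' : (q : K) + 1 ≠ 0 := by exact_mod_cast Nat.succ_ne_zero q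
    have h6 : ((Nat.factorial (q - 2) : ℕ) : K) * (((q : K) - 1) * q * (q + 1)) ≠ 0 := by
      refine mul_ne_zero ?_ (mul_ne_zero (mul_ne_zero hq1 hq0) hq1')
      exact_mod_cast Nat.factorial_ne_zero _
    apply mul_left_cancel₀ h6
    rw [f0, f1] at h2
    linear_combination h2
  -- step 5
  have s5 : ∀ u, c u = 0 := by
    have hb : ∀ u, br5 (Pi.single (Sum.inr 0) (1 : K)) (zrow (Z u)) (zrow (Z u)) (y1 q) (y2 q)
        = - ((q : K) - 2) * (q * (q - 1)) * c u ^ 2 := by
      intro u
      rw [br5_s1 _ (zrow_inr1 _)]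
      change -((q : K) - 2) * ((r u) ^ 2 - ρ u) = _
      rw [s2 u, s3 u]
      ring
    have key : ∀ u, c u ^ 2 = ∑ i, c i ^ 2 := by
      intro u
      have := hc (Sum.inl u) (Pi.single (Sum.inr 0) 1) 2
      rw [perm_x_rowbig (by omega), br3_s1] at this
      have h2 := rowbig_coeff2 Z hq hZ u (Pi.single (Sum.inr 0) 1)
      rw [this] at h2
      simp only [hb, ← Finset.mul_sum] at h2
      rw [f1, f2] at h2
      have h7 : (2 : K) * (((q : K) - 2) * (q * (q - 1)) * (Nat.factorial (q - 3) : ℕ)) ≠ 0 :=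
        mul_ne_zero two_ne_zero (mul_ne_zero (mul_ne_zero hq2 (mul_ne_zero hq0 hq1)) g3)
      apply mul_left_cancel₀ h7
      linear_combination h2 - (((q : K) - 1) * ((q - 2) * (Nat.factorial (q - 3) : ℕ)) * q) * s4
    have hC : ∑ i, c i ^ 2 = 0 := by
      have h1 : ∑ u, c u ^ 2 = ∑ _u : Fin q, ∑ i, c i ^ 2 := Finset.sum_congr rfl fun u _ => key u
      rw [Finset.sum_const, Finset.card_univ, Fintype.card_fin, nsmul_eq_mul] at h1
      have h2 : ((q : K) - 1) * ∑ i, c i ^ 2 = 0 := by linear_combination -h1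
      rcases mul_eq_zero.mp h2 with h | h
      · exact absurd h hq1
      · exact h
    intro u
    have := key u
    rw [hC] at this
    exact pow_eq_zero_iff (two_ne_zero) |>.mp this
  have hφ2 : φ.coeff 2 = 0 := by
    have : ∑ i, c i ^ 2 = 0 := Finset.sum_eq_zero fun i _ => by rw [s5 i]; ring
    rw [this, neg_zero] at s4
    rcases mul_eq_zero.mp s4 with h | h
    · exact absurd h two_ne_zero
    · exact h
  -- step 6
  have s6 : ∀ u j, zrow (Z u) (Sum.inl j) = 0 := by
    intro u j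
    have hb : ∀ u, br5 (Pi.single (Sum.inl j) (1 : K)) (zrow (Z u)) (zrow (Z u)) (y1 q) (y2 q)
        = 6 * zrow (Z u) (Sum.inl j) ^ 2 := by
      intro u
      rw [br5_big _ _ (zrow_inr1 _)]
      change 3 * ((r u - zrow (Z u) (Sum.inl j)) ^ 2
          - (ρ u - zrow (Z u) (Sum.inl j) ^ 2))
        - 2 * ((q : K) - 2) * ((r u - zrow (Z u) (Sum.inl j)) * c u) = _
      rw [s2 u, s3 u, s5 u]
      ring
    have key : ∀ u, 2 * (6 * zrow (Z u) (Sum.inl j) ^ 2)
        = ∑ i, 6 * zrow (Z i) (Sum.inl j) ^ 2 := by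
      intro u
      have := hc (Sum.inl u) (Pi.single (Sum.inl j) 1) 2
      rw [hφ2, zero_mul] at this
      have h2 := rowbig_coeff2 Z hq hZ u (Pi.single (Sum.inl j) 1)
      rw [this, mul_zero] at h2
      simp only [hb] at h2
      rcases mul_eq_zero.mp h2.symm with h | h
      · exact absurd h g3
      · linear_combination h
    have := sum_zero_of hq _ key u
    have h6 : (6 : K) ≠ 0 := by norm_num
    rcases mul_eq_zero.mp this with h | h
    · exact absurd h h6
    · exact pow_eq_zero_iff (two_ne_zero) |>.mp h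
  have hZ0 : Z = 0 := by
    funext u j
    refine Fin.lastCases ?_ (fun j => ?_) j
    · exact s5 u
    · exact s6 u j
  subst hZ0
  rfl

theorem bound_sum {ν : Type*} [Fintype ν] [DecidableEq ν] (hq : 3 ≤ q)
    (A : Matrix ν ν (MvPolynomial ((Fin q ⊕ Fin 2) × (Fin q ⊕ Fin 2)) K))
    (hA : ∀ i j, (A i j).totalDegree ≤ 1)
    (hdet : A.det = (Matrix.of (fun i j : Fin q ⊕ Fin 2 =>
      (MvPolynomial.X (i, j) : MvPolynomial ((Fin q ⊕ Fin 2) × (Fin q ⊕ Fin 2)) K))).permanent) :
    q * q + q ≤ Fintype.card ν + 1 := by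
  have hgrad : ((xpt q).updateRow (Sum.inr 0) (Pi.single (Sum.inl (⟨0, by omega⟩ : Fin q)) (1 : K))).permanent ≠ 0 := by
    rw [perm_x_row0, br2_big_y2]
    refine mul_ne_zero ?_ two_ne_zero
    exact_mod_cast Nat.factorial_ne_zero _
  let E := LinearMap.ker (cstr : VV q K →ₗ[K] _)
  have := core_bound A hA hdet (xpt q) perm_x (Sum.inr 0)
    (Pi.single (Sum.inl (⟨0, by omega⟩ : Fin q)) (1 : K)) hgrad
    (E := E) (dirM ∘ₗ E.subtype) ?_ ?_ ?_
  · have h1 := LinearMap.finrank_range_add_finrank_ker (cstr : VV q K →ₗ[K] _)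
    have h2 : Module.finrank K (LinearMap.range (cstr : VV q K →ₗ[K] _)) ≤ q + 2 := by
      refine (Submodule.finrank_le _).trans ?_
      simp
    have h3 : Module.finrank K (VV q K) = q * (q + 1) + q := by
      simp [Module.finrank_pi_fintype]
    rw [h3] at h1
    change Module.finrank K (LinearMap.ker (cstr : VV q K →ₗ[K] _)) + 1 ≤ Fintype.card ν at this
    nlinarith
  · rintro ⟨e, he⟩
    have hZ : ∑ i, e.1 i = 0 := congrArg Prod.fst he
    have hw : ∑ i, e.2 i = 0 := congrArg Prod.snd he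
    change (((xpt q).map C + (X : K[X]) • (dirM e).map C).permanent).coeff 1 = 0
    rw [line_row0, row0_coeff1 e (by omega) hZ]
    have : br2 (y1 q) (wrow e.2) = 0 := by
      simp [br2, sm_sum, y1, wrow, hw]
    rw [this, mul_zero]
  · rintro ⟨e, he⟩
    have hZ : ∑ i, e.1 i = 0 := congrArg Prod.fst he
    change (((xpt q).map C + (X : K[X]) • (dirM e).map C).permanent).coeff 2 = 0
    have h2 := row0_coeff2 e (by omega) hZ (y1 q)
    rw [Finset.sum_eq_zero (fun i _ => br4_v_v _ (zrow_inr1 _)), mul_zero, ← line_row0] at h2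
    rcases mul_eq_zero.mp h2 with h | h
    · exact absurd h two_ne_zero
    · exact h
  · rintro ⟨e, he⟩ ⟨φ, hφ⟩
    apply Subtype.ext
    exact dir_zero hq e he φ hφ

end final

end Pool.Agent.Work.MP_35c45d_lc
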