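import Pool.Agent.Work.MP_35c45d_lc.PermSum

set_option autoImplicit false

namespace Pool.Agent.Work.MP_35c45d_lc

open Finset

section lin

variable {ι : Type*} [Fintype ι] {K : Type*} [Field K]

theorem sm_add (F G : ι → K) : sm (F + G) = sm F + sm G := by
  simp [sm, Finset.sum_add_distrib]

theorem sm_smul (c : K) (F : ι → K) : sm (c • F) = c * sm F := by
  simp [sm, Finset.mul_sum]

theorem sm_neg (F : ι → K) : sm (-F) = - sm F := by
  simp [sm]

theorem br3_sum2 {α : Type*} (s : Finset α) (F H : ι → K) (g : α → ι → K) :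
    ∑ i ∈ s, br3 F (g i) H = br3 F (∑ i ∈ s, g i) H := by
  let f : (ι → K) →ₗ[K] K :=
    { toFun := fun G => br3 F G H
      map_add' := by
        intro a b
        simp only [br3, br2, mul_add, add_mul, sm_add]
        ring
      map_smul' := by
        intro a b
        simp only [br3, br2, mul_smul_comm, smul_mul_assoc, sm_smul, RingHom.id_apply, smul_eq_mul]
        ring }
  have := map_sum f g s
  exact this.symm

theorem br4_sum2 {α : Type*} (s : Finset α) (F H I : ι → K) (g : α → ι → K) :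
    ∑ i ∈ s, br4 F (g i) H I = br4 F (∑ i ∈ s, g i) H I := by
  let f : (ι → K) →ₗ[K] K :=
    { toFun := fun G => br4 F G H I
      map_add' := by
        intro a b
        simp only [br4, br3, br2, mul_add, add_mul, sm_add]
        ring
      map_smul' := by
        intro a b
        simp only [br4, br3, br2, mul_smul_comm, smul_mul_assoc, sm_smul, RingHom.id_apply,
          smul_eq_mul]
        ring }
  have := map_sum f g s
  exact this.symm

theorem br4_sum3 {α : Type*} (s : Finset α) (F H I : ι → K) (g : α → ι → K) :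
    ∑ i ∈ s, br4 F H (g i) I = br4 F H (∑ i ∈ s, g i) I := by
  let f : (ι → K) →ₗ[K] K :=
    { toFun := fun G => br4 F H G I
      map_add' := by
        intro a b
        simp only [br4, br3, br2, mul_add, add_mul, sm_add]
        ring
      map_smul' := by
        intro a b
        simp only [br4, br3, br2, mul_smul_comm, smul_mul_assoc, sm_smul, RingHom.id_apply,
          smul_eq_mul]
        ring }
  have := map_sum f g s
  exact this.symm

theorem br4_neg3 (F G H I : ι → K) : br4 F G (-H) I = - br4 F G H I := by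
  simp only [br4, br3, br2, mul_neg, neg_mul, sm_neg]
  ring

theorem br5_sum2 {α : Type*} (s : Finset α) (F H I J : ι → K) (g : α → ι → K) :
    ∑ i ∈ s, br5 F (g i) H I J = br5 F (∑ i ∈ s, g i) H I J := by
  let f : (ι → K) →ₗ[K] K :=
    { toFun := fun G => br5 F G H I J
      map_add' := by
        intro a b
        simp only [br5, br4, br3, br2, mul_add, add_mul, sm_add]
        ring
      map_smul' := by
        intro a b
        simp only [br5, br4, br3, br2, mul_smul_comm, smul_mul_assoc, sm_smul, RingHom.id_apply,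
          smul_eq_mul]
        ring }
  have := map_sum f g s
  exact this.symm

theorem br5_sum3 {α : Type*} (s : Finset α) (F H I J : ι → K) (g : α → ι → K) :
    ∑ i ∈ s, br5 F H (g i) I J = br5 F H (∑ i ∈ s, g i) I J := by
  let f : (ι → K) →ₗ[K] K :=
    { toFun := fun G => br5 F H G I J
      map_add' := by
        intro a b
        simp only [br5, br4, br3, br2, mul_add, add_mul, sm_add]
        ring
      map_smul' := by
        intro a b
        simp only [br5, br4, br3, br2, mul_smul_comm, smul_mul_assoc, sm_smul, RingHom.id_apply,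
          smul_eq_mul]
        ring }
  have := map_sum f g s
  exact this.symm

theorem br5_add3 (F G H H' I J : ι → K) :
    br5 F G (H + H') I J = br5 F G H I J + br5 F G H' I J := by
  simp only [br5, br4, br3, br2, mul_add, add_mul, sm_add]
  ring

theorem br5_neg3 (F G H I J : ι → K) : br5 F G (-H) I J = - br5 F G H I J := by
  simp only [br5, br4, br3, br2, mul_neg, neg_mul, sm_neg]
  ring

theorem br5_neg2 (F G H I J : ι → K) : br5 F (-G) H I J = - br5 F G H I J := by
  simp only [br5, br4, br3, br2, mul_neg, neg_mul, sm_neg]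
  ring

end lin

section special

variable {K : Type*} [Field K] (q : ℕ)

/-- first special row -/
def y1 : Fin q ⊕ Fin 2 → K := Sum.elim (fun _ => 1) ![-(q : K), 0]
/-- second special row -/
def y2 : Fin q ⊕ Fin 2 → K := Sum.elim (fun _ => 1) ![1, 2 - (q : K)]

variable {q}

theorem sm_sum (F : Fin q ⊕ Fin 2 → K) :
    sm F = ∑ j : Fin q, F (Sum.inl j) + (F (Sum.inr 0) + F (Sum.inr 1)) := by
  simp [sm, Fintype.sum_sum_type, Fin.sum_univ_two]

theorem br2_y1_y2 : br2 (y1 q : _ → K) (y2 q) = 0 := by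
  simp [br2, sm_sum, y1, y2]

theorem br4_v_v (v : Fin q ⊕ Fin 2 → K) (hv : v (Sum.inr 1) = 0) :
    br4 (y1 q) v v (y2 q) = 0 := by
  simp only [br4, br3, br2, sm_sum, Pi.mul_apply, hv]
  simp [y1, y2]
  ring

theorem sm_y2 : sm (y2 q : _ → K) = 3 := by
  simp [sm_sum, y2]
  ring

theorem br2_big_y2 (j : Fin q) : br2 (Pi.single (Sum.inl j) (1 : K)) (y2 q) = 2 := by
  simp [br2, sm_sum, y2, Pi.single_apply]
  ring

theorem br2_big_w (j : Fin q) (w : Fin q → K) (hw : ∑ i, w i = 0) :
    br2 (Pi.single (Sum.inl j) (1 : K) : Fin q ⊕ Fin 2 → K) (Sum.elim w (fun _ => 0)) = - w j := by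
  simp [br2, sm_sum, Pi.single_apply, hw]

theorem br4_s2 (v : Fin q ⊕ Fin 2 → K) (hv : v (Sum.inr 1) = 0) :
    br4 (Pi.single (Sum.inr 1) (1 : K)) v (y1 q) (y2 q)
      = -((q : K) - 1) * (∑ j, v (Sum.inl j)) + q * (q - 1) * v (Sum.inr 0) := by
  simp only [br4, br3, br2, sm_sum, Pi.mul_apply, hv]
  simp [y1, y2, Pi.single_apply]
  ring

theorem br5_s2 (v : Fin q ⊕ Fin 2 → K) (hv : v (Sum.inr 1) = 0) :
    br5 (Pi.single (Sum.inr 1) (1 : K)) v v (y1 q) (y2 q)
      = -2 * ((q : K) - 2) * ((∑ j, v (Sum.inl j)) ^ 2 - ∑ j, v (Sum.inl j) * v (Sum.inl j))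
        + 2 * (q - 1) * (q - 2) * ((∑ j, v (Sum.inl j)) * v (Sum.inr 0)) := by
  simp only [br5, br4, br3, br2, sm_sum, Pi.mul_apply, hv]
  simp [y1, y2, Pi.single_apply]
  ring

theorem br3_s2 : br3 (Pi.single (Sum.inr 1) (1 : K)) (y1 q) (y2 q) = 0 := by
  simp only [br3, br2, sm_sum, Pi.mul_apply]
  simp [y1, y2, Pi.single_apply]

theorem br2_s2 : br2 (Pi.single (Sum.inr 1) (1 : K)) (y2 q) = q + 1 := by
  simp only [br3, br2, sm_sum, Pi.mul_apply]
  simp [y2, Pi.single_apply]
  ring

theorem br4_s2' (v : Fin q ⊕ Fin 2 → K) (hv : v (Sum.inr 1) = 0) :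
    br4 (Pi.single (Sum.inr 1) (1 : K)) v v (y2 q)
      = ((q : K) - 1) * ((∑ j, v (Sum.inl j)) ^ 2 - ∑ j, v (Sum.inl j) * v (Sum.inl j)
        + 2 * ((∑ j, v (Sum.inl j)) * v (Sum.inr 0))) := by
  simp only [br4, br3, br2, sm_sum, Pi.mul_apply, hv]
  simp [y2, Pi.single_apply]
  ring

theorem br5_s1 (v : Fin q ⊕ Fin 2 → K) (hv : v (Sum.inr 1) = 0) :
    br5 (Pi.single (Sum.inr 0) (1 : K)) v v (y1 q) (y2 q)
      = - ((q : K) - 2) * ((∑ j, v (Sum.inl j)) ^ 2 - ∑ j, v (Sum.inl j) * v (Sum.inl j)) := by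
  simp only [br5, br4, br3, br2, sm_sum, Pi.mul_apply, hv]
  simp [y1, y2, Pi.single_apply]
  ring

theorem br3_s1 : br3 (Pi.single (Sum.inr 0) (1 : K)) (y1 q) (y2 q) = q := by
  simp only [br3, br2, sm_sum, Pi.mul_apply]
  simp [y1, y2]
  ring

theorem br5_big (j : Fin q) (v : Fin q ⊕ Fin 2 → K) (hv : v (Sum.inr 1) = 0) :
    br5 (Pi.single (Sum.inl j) (1 : K)) v v (y1 q) (y2 q)
      = 3 * (((∑ j, v (Sum.inl j)) - v (Sum.inl j)) ^ 2
          - (∑ j, v (Sum.inl j) * v (Sum.inl j) - v (Sum.inl j) ^ 2))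
        - 2 * ((q : K) - 2) * (((∑ j, v (Sum.inl j)) - v (Sum.inl j)) * v (Sum.inr 0)) := by
  simp only [br5, br4, br3, br2, sm_sum, Pi.mul_apply, hv]
  simp [y1, y2, Pi.single_apply]
  ring

end special

end Pool.Agent.Work.MP_35c45d_lc
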