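import Mathlib

/-! Nonscalar (multiplicative) complexity: definition, degree bound, substitution,
straight-line programs. -/

set_option autoImplicit false

namespace Pool.Agent.Work.MP_35c45d_lc.CM

open MvPolynomial

/-- The linear span of `1`, the variables and the polynomials `g j`, `j < k`. -/
noncomputable def affSpan {L : ℕ} {ι : Type} (g : Fin L → MvPolynomial ι ℂ) (k : ℕ) :
    Submodule ℂ (MvPolynomial ι ℂ) :=
  Submodule.span ℂ ({1} ∪ Set.range X ∪ {q | ∃ j : Fin L, (j : ℕ) < k ∧ q = g j})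

/-- `f` is computed with at most `L` multiplications, when linear combinations of constants,
variables and earlier results are free. -/
def MulLE (L : ℕ) {ι : Type} (f : MvPolynomial ι ℂ) : Prop :=
  ∃ g : Fin L → MvPolynomial ι ℂ,
    (∀ k : Fin L, ∃ p ∈ affSpan g k, ∃ q ∈ affSpan g k, g k = p * q) ∧ f ∈ affSpan g L

variable {L : ℕ} {ι : Type}

theorem affSpan_mono {g : Fin L → MvPolynomial ι ℂ} {k k' : ℕ} (h : k ≤ k') :
    affSpan g k ≤ affSpan g k' := by
  refine Submodule.span_mono ?_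
  refine Set.union_subset_union_right _ ?_
  rintro q ⟨j, hj, rfl⟩
  exact ⟨j, by omega, rfl⟩

theorem one_mem (g : Fin L → MvPolynomial ι ℂ) (k : ℕ) : (1 : MvPolynomial ι ℂ) ∈ affSpan g k :=
  Submodule.subset_span (Or.inl (Or.inl rfl))

theorem X_mem (g : Fin L → MvPolynomial ι ℂ) (k : ℕ) (i : ι) :
    (X i : MvPolynomial ι ℂ) ∈ affSpan g k :=
  Submodule.subset_span (Or.inl (Or.inr ⟨i, rfl⟩))

theorem C_mem (g : Fin L → MvPolynomial ι ℂ) (k : ℕ) (a : ℂ) :
    (C a : MvPolynomial ι ℂ) ∈ affSpan g k := by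
  have h := (affSpan g k).smul_mem a (one_mem g k)
  rwa [smul_eq_C_mul, mul_one] at h

theorem gate_mem (g : Fin L → MvPolynomial ι ℂ) {k : ℕ} (j : Fin L) (h : (j : ℕ) < k) :
    g j ∈ affSpan g k :=
  Submodule.subset_span (Or.inr ⟨j, h, rfl⟩)

theorem affSpan_le {g : Fin L → MvPolynomial ι ℂ} {k : ℕ} {S : Submodule ℂ (MvPolynomial ι ℂ)}
    (h1 : (1 : MvPolynomial ι ℂ) ∈ S) (h2 : ∀ i, (X i : MvPolynomial ι ℂ) ∈ S)
    (h3 : ∀ j : Fin L, (j : ℕ) < k → g j ∈ S) : affSpan g k ≤ S := by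
  refine Submodule.span_le.2 ?_
  rintro q ((hq | ⟨i, rfl⟩) | ⟨j, hj, rfl⟩)
  · rw [Set.mem_singleton_iff.1 hq]; exact h1
  · exact h2 i
  · exact h3 j hj

/-- explicit form of the elements of the span -/
theorem mem_affSpan [Fintype ι] {g : Fin L → MvPolynomial ι ℂ} {k : ℕ} {p : MvPolynomial ι ℂ}
    (hp : p ∈ affSpan g k) : ∃ (a0 : ℂ) (a : ι → ℂ) (α : Fin L → ℂ),
      (∀ j : Fin L, k ≤ (j : ℕ) → α j = 0) ∧
      p = C a0 + ∑ i, C (a i) * X i + ∑ j, C (α j) * g j := by
  classical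
  refine Submodule.span_induction (p := fun p _ => ∃ (a0 : ℂ) (a : ι → ℂ) (α : Fin L → ℂ),
      (∀ j : Fin L, k ≤ (j : ℕ) → α j = 0) ∧
      p = C a0 + ∑ i, C (a i) * X i + ∑ j, C (α j) * g j) ?_ ?_ ?_ ?_ hp
  · rintro q ((hq | ⟨i, rfl⟩) | ⟨j, hj, rfl⟩)
    · rw [Set.mem_singleton_iff.1 hq]
      exact ⟨1, 0, 0, fun _ _ => rfl, by simp⟩
    · refine ⟨0, Pi.single i 1, 0, fun _ _ => rfl, ?_⟩
      rw [Finset.sum_eq_single i (by intro b _ hb; simp [Pi.single_eq_of_ne hb])
        (fun h => absurd (Finset.mem_univ i) h)]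
      simp
    · refine ⟨0, 0, Pi.single j 1, ?_, ?_⟩
      · intro j' hj'
        rw [Pi.single_eq_of_ne]
        rintro rfl
        omega
      · rw [Finset.sum_eq_single (s := Finset.univ) (a := j)
          (f := fun j' => C ((Pi.single j 1 : Fin L → ℂ) j') * g j')
          (by intro b _ hb; simp [Pi.single_eq_of_ne hb]) (fun h => absurd (Finset.mem_univ j) h)]
        simp
  · exact ⟨0, 0, 0, fun _ _ => rfl, by simp⟩
  · rintro x y _ _ ⟨a0, a, α, h1, rfl⟩ ⟨b0, b, β, h2, rfl⟩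
    refine ⟨a0 + b0, a + b, α + β, fun j hj => by simp [h1 j hj, h2 j hj], ?_⟩
    simp only [Pi.add_apply, map_add, add_mul, Finset.sum_add_distrib]
    ring
  · rintro r x _ ⟨a0, a, α, h1, rfl⟩
    refine ⟨r * a0, r • a, r • α, fun j hj => by simp [h1 j hj], ?_⟩
    simp only [Pi.smul_apply, smul_eq_mul, C_mul, smul_eq_C_mul, mul_add, Finset.mul_sum, mul_assoc]

theorem totalDegree_mem {g : Fin L → MvPolynomial ι ℂ} {k : ℕ} {p : MvPolynomial ι ℂ}
    (hg : ∀ j : Fin L, (j : ℕ) < k → (g j).totalDegree ≤ 2 ^ k) (hp : p ∈ affSpan g k) :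
    p.totalDegree ≤ 2 ^ k := by
  have h : affSpan g k ≤ restrictTotalDegree ι ℂ (2 ^ k) := by
    refine affSpan_le ?_ (fun i => ?_) fun j hj => ?_
    · rw [mem_restrictTotalDegree, totalDegree_one]; exact Nat.zero_le _
    · rw [mem_restrictTotalDegree, totalDegree_X]; exact Nat.one_le_two_pow
    · rw [mem_restrictTotalDegree]; exact hg j hj
  exact (mem_restrictTotalDegree _ _ _).1 (h hp)

/-- Degree bound. -/
theorem MulLE.totalDegree {f : MvPolynomial ι ℂ} (hf : MulLE L f) : f.totalDegree ≤ 2 ^ L := by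
  obtain ⟨g, hg, hfg⟩ := hf
  have h1 : ∀ n : ℕ, ∀ j : Fin L, (j : ℕ) < n → (g j).totalDegree ≤ 2 ^ ((j : ℕ) + 1) := by
    intro n
    induction n with
    | zero => intro j hj; omega
    | succ n ih =>
      intro j hj
      obtain ⟨p, hp, q, hq, h⟩ := hg j
      have hb : ∀ i : Fin L, (i : ℕ) < (j : ℕ) → (g i).totalDegree ≤ 2 ^ (j : ℕ) := fun i hi =>
        (ih i (by omega)).trans (Nat.pow_le_pow_right (by norm_num) (by omega))
      have h2 := totalDegree_mem hb hp
      have h3 := totalDegree_mem hb hq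
      rw [h]
      refine (totalDegree_mul _ _).trans ?_
      rw [pow_succ]
      omega
  exact totalDegree_mem (fun j hj => (h1 L j hj).trans
    (Nat.pow_le_pow_right (by norm_num) (by omega))) hfg

/-- Affine substitutions are free. -/
theorem MulLE.subst {κ : Type} {f : MvPolynomial ι ℂ} (hf : MulLE L f)
    (φ : ι → MvPolynomial κ ℂ) (hφ : ∀ i, (φ i) ∈ Submodule.span ℂ
      ({1} ∪ Set.range X : Set (MvPolynomial κ ℂ))) : MulLE L (aeval φ f) := by
  obtain ⟨g, hg, hfg⟩ := hf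
  have key : ∀ k, ∀ p ∈ affSpan g k, aeval φ p ∈ affSpan (fun j => aeval φ (g j)) k := by
    intro k p hp
    have h : affSpan g k ≤ (affSpan (fun j => aeval φ (g j)) k).comap (aeval φ).toLinearMap := by
      refine affSpan_le ?_ (fun i => ?_) fun j hj => ?_
      · rw [Submodule.mem_comap]
        simpa using one_mem _ k
      · rw [Submodule.mem_comap, AlgHom.toLinearMap_apply, aeval_X]
        refine Submodule.span_mono ?_ (hφ i)
        exact Set.subset_union_left
      · rw [Submodule.mem_comap, AlgHom.toLinearMap_apply]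
        exact gate_mem (fun j => aeval φ (g j)) j hj
    exact h hp
  refine ⟨fun j => aeval φ (g j), fun k => ?_, key L f hfg⟩
  obtain ⟨p, hp, q, hq, h⟩ := hg k
  exact ⟨_, key k p hp, _, key k q hq, by change aeval φ (g k) = _; rw [h, map_mul]⟩

theorem MulLE.smul {f : MvPolynomial ι ℂ} (hf : MulLE L f) (c : ℂ) : MulLE L (C c * f) := by
  obtain ⟨g, hg, hfg⟩ := hf
  refine ⟨g, hg, ?_⟩
  rw [← smul_eq_C_mul]
  exact Submodule.smul_mem _ _ hfg

theorem MulLE.mono {L' : ℕ} (h : L ≤ L') {f : MvPolynomial ι ℂ} (hf : MulLE L f) :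
    MulLE L' f := by
  obtain ⟨g, hg, hfg⟩ := hf
  let g' : Fin L' → MvPolynomial ι ℂ := fun j => if h : (j : ℕ) < L then g ⟨j, h⟩ else 1
  have key : ∀ k, k ≤ L → affSpan g k ≤ affSpan g' k := by
    intro k hk
    refine affSpan_le (one_mem _ _) (fun i => X_mem _ _ _) fun j hj => ?_
    have : g j = g' ⟨j, by omega⟩ := by
      simp only [g', dif_pos j.2]
    rw [this]
    exact gate_mem _ _ hj
  refine ⟨g', fun k => ?_, affSpan_mono h (key L le_rfl hfg)⟩
  by_cases hk : (k : ℕ) < L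
  · obtain ⟨p, hp, q, hq, hpq⟩ := hg ⟨k, hk⟩
    refine ⟨p, key _ hk.le hp, q, key _ hk.le hq, ?_⟩
    simp only [g', dif_pos hk]
    exact hpq
  · refine ⟨1, one_mem _ _, 1, one_mem _ _, ?_⟩
    simp only [g', dif_neg hk, mul_one]

end Pool.Agent.Work.MP_35c45d_lc.CM
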