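import Mathlib

/-! Superquadratic lower bound for the (border) determinantal complexity of the permanent:
common definitions. -/

set_option autoImplicit false

namespace Pool.Agent.Work.MP_35c45d_lc.SQ

open MvPolynomial Filter Topology

/-- `f` is a coefficientwise limit of scalar multiples of determinants of `n × n` matrices of
affine linear forms. -/
def BorderDet (n : ℕ) {ι : Type} (f : MvPolynomial ι ℂ) : Prop :=
  ∃ (A : ℕ → Matrix (Fin n) (Fin n) (MvPolynomial ι ℂ)) (γ : ℕ → ℂ),
    (∀ s i j, (A s i j).totalDegree ≤ 1) ∧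
    ∀ d, Tendsto (fun s => coeff d (C (γ s) * (A s).det)) atTop (𝓝 (coeff d f))

/-- `x` is a nondegenerate solution of `f = 0, grad f = lam * c` (`lam ≠ 0`). -/
def IsCrit {ι : Type} [Fintype ι] (f : MvPolynomial ι ℂ) (c x : ι → ℂ) : Prop :=
  eval x f = 0 ∧ (∃ lam : ℂ, lam ≠ 0 ∧ ∀ i, eval x (pderiv i f) = lam * c i) ∧
  ∀ u : ι → ℂ, (∑ i, u i * eval x (pderiv i f) = 0) →
    (∃ τ : ℂ, ∀ i, ∑ j, u j * eval x (pderiv j (pderiv i f)) = τ * c i) → u = 0

/-- Sum of all `k × k` subpermanents of the `I × J` matrix `Y`. -/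
noncomputable def sig {R : Type*} [CommRing R] (k : ℕ) {I J : Type} [Fintype I] [Fintype J]
    [DecidableEq I] (Y : I → J → R) : R :=
  open Classical in
  ∑ S ∈ Finset.powersetCard k (Finset.univ : Finset I), ∑ f : S ↪ J, ∏ i : S, Y i (f i)

/-- The permanent of the generic `m × m` matrix. -/
noncomputable def permPoly (m : ℕ) : MvPolynomial (Fin m × Fin m) ℂ :=
  (Matrix.of (fun i j : Fin m => (X (i, j) : MvPolynomial (Fin m × Fin m) ℂ))).permanent

end Pool.Agent.Work.MP_35c45d_lc.SQ
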