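import Mathlib
import Pool.Agent.Work.MP_35c45d_lc.SQDefs

/-! Determinant side of Theorem A: definitions. -/

set_option autoImplicit false

namespace Pool.Agent.Work.MP_35c45d_lc.SQ

open MvPolynomial

variable {ι : Type} [Fintype ι]

/-- matrix of the coefficients of `X i`. -/
noncomputable def coefMat {n : ℕ} (A : Matrix (Fin n) (Fin n) (MvPolynomial ι ℂ)) (i : ι) :
    Matrix (Fin n) (Fin n) ℂ :=
  fun a b => coeff (Finsupp.single i 1) (A a b)

/-- value of the matrix at `x`. -/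
noncomputable def evMat {n : ℕ} (A : Matrix (Fin n) (Fin n) (MvPolynomial ι ℂ)) (x : ι → ℂ) :
    Matrix (Fin n) (Fin n) ℂ :=
  fun a b => eval x (A a b)

/-- `(1, v_1, ..., v_n')` as polynomials. -/
noncomputable def vP (ι : Type) (n' : ℕ) :
    Fin (n' + 1) → MvPolynomial (ι ⊕ (Fin n' ⊕ Fin n')) ℂ :=
  Fin.cons 1 (fun k => X (Sum.inr (Sum.inl k)))

/-- `(1, w_1, ..., w_n')` as polynomials. -/
noncomputable def wP (ι : Type) (n' : ℕ) :
    Fin (n' + 1) → MvPolynomial (ι ⊕ (Fin n' ⊕ Fin n')) ℂ :=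
  Fin.cons 1 (fun k => X (Sum.inr (Sum.inr k)))

/-- The square system: `A v = 0`, `w A = 0` (all columns but the first), `w A_i v` parallel to `c`. -/
noncomputable def Psi {n' : ℕ} (A : Matrix (Fin (n' + 1)) (Fin (n' + 1)) (MvPolynomial ι ℂ))
    (c : ι → ℂ) (i0 : ι) :
    Fin (n' + 1) ⊕ (Fin n' ⊕ {i : ι // i ≠ i0}) → MvPolynomial (ι ⊕ (Fin n' ⊕ Fin n')) ℂ
  | Sum.inl a => ∑ b, rename Sum.inl (A a b) * vP ι n' b
  | Sum.inr (Sum.inl b) => ∑ a, wP ι n' a * rename Sum.inl (A a b.succ)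
  | Sum.inr (Sum.inr i) => ∑ a, ∑ b,
      C (c i0 * coefMat A i.1 a b - c i.1 * coefMat A i0 a b) * (wP ι n' a * vP ι n' b)

/-- point of the total space -/
def pt {n' : ℕ} (x : ι → ℂ) (y z : Fin n' → ℂ) : ι ⊕ (Fin n' ⊕ Fin n') → ℂ :=
  Sum.elim x (Sum.elim y z)

end Pool.Agent.Work.MP_35c45d_lc.SQ
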