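import Mathlib
import Pool.Agent.Work.MP_35c45d_lc.SQDet

/-! Values and derivatives of the system `Psi`. -/

set_option autoImplicit false
set_option linter.unusedSectionVars false

namespace Pool.Agent.Work.MP_35c45d_lc.SQ

open MvPolynomial

variable {ι : Type} [Fintype ι]

namespace PsiAux

/-- directional derivative at a point -/
noncomputable def dd {τ : Type} [Fintype τ] (p q : τ → ℂ) (f : MvPolynomial τ ℂ) : ℂ :=
  ∑ l, q l * eval p (pderiv l f)

variable {τ : Type} [Fintype τ] (p q : τ → ℂ)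

theorem dd_add (f g : MvPolynomial τ ℂ) : dd p q (f + g) = dd p q f + dd p q g := by
  simp only [dd, map_add, mul_add, Finset.sum_add_distrib]

theorem dd_zero : dd p q (0 : MvPolynomial τ ℂ) = 0 := by
  simp [dd]

theorem dd_sum {κ : Type} (s : Finset κ) (f : κ → MvPolynomial τ ℂ) :
    dd p q (∑ k ∈ s, f k) = ∑ k ∈ s, dd p q (f k) := by
  classical
  induction s using Finset.induction_on with
  | empty => simp [dd_zero]
  | insert a s ha ih => rw [Finset.sum_insert ha, Finset.sum_insert ha, dd_add, ih]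

theorem dd_mul (f g : MvPolynomial τ ℂ) :
    dd p q (f * g) = dd p q f * eval p g + eval p f * dd p q g := by
  simp only [dd, pderiv_mul, map_add, map_mul, Finset.sum_mul, Finset.mul_sum]
  rw [← Finset.sum_add_distrib]
  refine Finset.sum_congr rfl fun l _ => ?_
  ring

theorem dd_C (r : ℂ) : dd p q (C r) = 0 := by
  simp [dd]

theorem dd_C_mul (r : ℂ) (g : MvPolynomial τ ℂ) : dd p q (C r * g) = r * dd p q g := by
  rw [dd_mul, dd_C, eval_C]; ring

theorem dd_X (l : τ) : dd p q (X l) = q l := by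
  classical
  unfold dd
  rw [Finset.sum_eq_single l]
  · simp
  · intro b _ hb
    rw [pderiv_X_of_ne hb.symm]; simp
  · intro h; exact absurd (Finset.mem_univ l) h

/-- affine polynomials -/
theorem affine_eq (f : MvPolynomial ι ℂ) (hf : f.totalDegree ≤ 1) :
    f = C (coeff 0 f) + ∑ i, C (coeff (Finsupp.single i 1) f) * X i := by
  classical
  ext m
  rw [coeff_add, coeff_C, coeff_sum]
  simp only [coeff_C_mul, coeff_X]
  by_cases h0 : m = 0
  · subst h0
    rw [if_pos rfl, Finset.sum_eq_zero, add_zero]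
    intro i _
    rw [if_neg, mul_zero]
    intro h
    have := DFunLike.congr_fun h i
    simp at this
  · rw [if_neg (Ne.symm h0), zero_add]
    by_cases h1 : ∃ i, m = Finsupp.single i 1
    · obtain ⟨i, rfl⟩ := h1
      rw [Finset.sum_eq_single i]
      · simp
      · intro b _ hb
        rw [if_neg, mul_zero]
        intro h
        exact hb ((Finsupp.single_left_inj one_ne_zero).1 h)
      · intro h; exact absurd (Finset.mem_univ i) h
    · rw [Finset.sum_eq_zero]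
      · rw [← notMem_support_iff]
        intro hm
        have h2 := (le_totalDegree hm).trans hf
        rw [Finsupp.sum_fintype _ _ (fun _ => rfl)] at h2
        obtain ⟨i, hi⟩ : ∃ i, m i ≠ 0 := by
          by_contra hcon
          push Not at hcon
          exact h0 (Finsupp.ext hcon)
        refine h1 ⟨i, ?_⟩
        ext j
        by_cases hj : j = i
        · subst hj
          have h6 : m j ≤ ∑ l, m l := Finset.single_le_sum (fun _ _ => Nat.zero_le _)
            (Finset.mem_univ j)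
          rw [Finsupp.single_eq_same]
          omega
        · have h6 : ∑ l ∈ {i, j}, m l ≤ ∑ l, m l :=
            Finset.sum_le_sum_of_subset (Finset.subset_univ _)
          rw [Finset.sum_pair (Ne.symm hj)] at h6
          rw [Finsupp.single_eq_of_ne hj]
          omega
      · intro i _
        rw [if_neg, mul_zero]
        intro h
        exact h1 ⟨i, h.symm⟩

theorem dd_rename {n' : ℕ} (x u : ι → ℂ) (y z y' z' : Fin n' → ℂ) (f : MvPolynomial ι ℂ)
    (hf : f.totalDegree ≤ 1) :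
    dd (pt x y z) (pt u y' z') (rename Sum.inl f) = ∑ i, u i * coeff (Finsupp.single i 1) f := by
  conv_lhs => rw [affine_eq f hf]
  simp only [map_add, map_sum, map_mul, rename_C, rename_X]
  rw [dd_add, dd_C, zero_add, dd_sum]
  refine Finset.sum_congr rfl fun i _ => ?_
  rw [dd_C_mul, dd_X, mul_comm]
  rfl

theorem eval_vP {n' : ℕ} (x : ι → ℂ) (y z : Fin n' → ℂ) (b : Fin (n' + 1)) :
    eval (pt x y z) (vP ι n' b) = (Fin.cons 1 y : Fin (n' + 1) → ℂ) b := by
  refine Fin.cases ?_ (fun k => ?_) b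
  · simp [vP]
  · simp [vP, pt]

theorem eval_wP {n' : ℕ} (x : ι → ℂ) (y z : Fin n' → ℂ) (b : Fin (n' + 1)) :
    eval (pt x y z) (wP ι n' b) = (Fin.cons 1 z : Fin (n' + 1) → ℂ) b := by
  refine Fin.cases ?_ (fun k => ?_) b
  · simp [wP]
  · simp [wP, pt]

theorem dd_vP {n' : ℕ} (x u : ι → ℂ) (y z y' z' : Fin n' → ℂ) (b : Fin (n' + 1)) :
    dd (pt x y z) (pt u y' z') (vP ι n' b) = (Fin.cons 0 y' : Fin (n' + 1) → ℂ) b := by
  refine Fin.cases ?_ (fun k => ?_) b
  · have : vP ι n' 0 = C 1 := by simp [vP]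
    rw [this, dd_C, Fin.cons_zero]
  · have : vP ι n' k.succ = X (Sum.inr (Sum.inl k)) := by simp [vP]
    rw [this, dd_X, Fin.cons_succ]
    rfl

theorem dd_wP {n' : ℕ} (x u : ι → ℂ) (y z y' z' : Fin n' → ℂ) (b : Fin (n' + 1)) :
    dd (pt x y z) (pt u y' z') (wP ι n' b) = (Fin.cons 0 z' : Fin (n' + 1) → ℂ) b := by
  refine Fin.cases ?_ (fun k => ?_) b
  · have : wP ι n' 0 = C 1 := by simp [wP]
    rw [this, dd_C, Fin.cons_zero]
  · have : wP ι n' k.succ = X (Sum.inr (Sum.inr k)) := by simp [wP]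
    rw [this, dd_X, Fin.cons_succ]
    rfl

theorem eval_renameA {n' : ℕ} (x : ι → ℂ) (y z : Fin n' → ℂ) (f : MvPolynomial ι ℂ) :
    eval (pt x y z) (rename Sum.inl f) = eval x f := by
  rw [eval_rename]
  rfl

end PsiAux

open PsiAux

theorem eval_Psi_inl {n' : ℕ} (A : Matrix (Fin (n' + 1)) (Fin (n' + 1)) (MvPolynomial ι ℂ))
    (c : ι → ℂ) (i0 : ι) (x : ι → ℂ) (y z : Fin n' → ℂ) (a : Fin (n' + 1)) :
    eval (pt x y z) (Psi A c i0 (Sum.inl a)) =
      ∑ b, evMat A x a b * (Fin.cons 1 y : Fin (n' + 1) → ℂ) b := by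
  simp only [Psi, map_sum, map_mul, eval_vP, eval_renameA, evMat]

theorem eval_Psi_inr_inl {n' : ℕ} (A : Matrix (Fin (n' + 1)) (Fin (n' + 1)) (MvPolynomial ι ℂ))
    (c : ι → ℂ) (i0 : ι) (x : ι → ℂ) (y z : Fin n' → ℂ) (b : Fin n') :
    eval (pt x y z) (Psi A c i0 (Sum.inr (Sum.inl b))) =
      ∑ a, (Fin.cons 1 z : Fin (n' + 1) → ℂ) a * evMat A x a b.succ := by
  simp only [Psi, map_sum, map_mul, eval_wP, eval_renameA, evMat]

theorem eval_Psi_inr_inr {n' : ℕ} (A : Matrix (Fin (n' + 1)) (Fin (n' + 1)) (MvPolynomial ι ℂ))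
    (c : ι → ℂ) (i0 : ι) (x : ι → ℂ) (y z : Fin n' → ℂ) (i : {i : ι // i ≠ i0}) :
    eval (pt x y z) (Psi A c i0 (Sum.inr (Sum.inr i))) =
      c i0 * (∑ a, ∑ b, (Fin.cons 1 z : Fin (n' + 1) → ℂ) a * coefMat A i.1 a b *
        (Fin.cons 1 y : Fin (n' + 1) → ℂ) b) -
      c i.1 * (∑ a, ∑ b, (Fin.cons 1 z : Fin (n' + 1) → ℂ) a * coefMat A i0 a b *
        (Fin.cons 1 y : Fin (n' + 1) → ℂ) b) := by
  simp only [Psi, map_sum, map_mul, eval_vP, eval_wP, eval_C, Finset.mul_sum]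
  simp only [← Finset.sum_sub_distrib]
  refine Finset.sum_congr rfl fun a _ => Finset.sum_congr rfl fun b _ => ?_
  ring

/-- derivative in the direction `(u, y', z')`. -/
theorem deriv_Psi_inl {n' : ℕ} (A : Matrix (Fin (n' + 1)) (Fin (n' + 1)) (MvPolynomial ι ℂ))
    (hA : ∀ a b, (A a b).totalDegree ≤ 1)
    (c : ι → ℂ) (i0 : ι) (x u : ι → ℂ) (y z y' z' : Fin n' → ℂ) (a : Fin (n' + 1)) :
    ∑ l, pt u y' z' l * eval (pt x y z) (pderiv l (Psi A c i0 (Sum.inl a))) =
      (∑ b, (∑ i, u i * coefMat A i a b) * (Fin.cons 1 y : Fin (n' + 1) → ℂ) b) +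
      ∑ b, evMat A x a b * (Fin.cons 0 y' : Fin (n' + 1) → ℂ) b := by
  change dd (pt x y z) (pt u y' z') (Psi A c i0 (Sum.inl a)) = _
  simp only [Psi, dd_sum, dd_mul, dd_vP, eval_vP, eval_renameA]
  rw [← Finset.sum_add_distrib]
  refine Finset.sum_congr rfl fun b _ => ?_
  rw [dd_rename x u y z y' z' (A a b) (hA a b)]
  rfl

theorem deriv_Psi_inr_inl {n' : ℕ} (A : Matrix (Fin (n' + 1)) (Fin (n' + 1)) (MvPolynomial ι ℂ))
    (hA : ∀ a b, (A a b).totalDegree ≤ 1)
    (c : ι → ℂ) (i0 : ι) (x u : ι → ℂ) (y z y' z' : Fin n' → ℂ) (b : Fin n') :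
    ∑ l, pt u y' z' l * eval (pt x y z) (pderiv l (Psi A c i0 (Sum.inr (Sum.inl b)))) =
      (∑ a, (Fin.cons 1 z : Fin (n' + 1) → ℂ) a * (∑ i, u i * coefMat A i a b.succ)) +
      ∑ a, (Fin.cons 0 z' : Fin (n' + 1) → ℂ) a * evMat A x a b.succ := by
  change dd (pt x y z) (pt u y' z') (Psi A c i0 (Sum.inr (Sum.inl b))) = _
  simp only [Psi, dd_sum, dd_mul, dd_wP, eval_wP, eval_renameA]
  rw [← Finset.sum_add_distrib]
  refine Finset.sum_congr rfl fun a _ => ?_
  rw [dd_rename x u y z y' z' (A a b.succ) (hA a b.succ), add_comm]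
  rfl

theorem deriv_Psi_inr_inr {n' : ℕ} (A : Matrix (Fin (n' + 1)) (Fin (n' + 1)) (MvPolynomial ι ℂ))
    (c : ι → ℂ) (i0 : ι) (x u : ι → ℂ) (y z y' z' : Fin n' → ℂ) (i : {i : ι // i ≠ i0}) :
    ∑ l, pt u y' z' l * eval (pt x y z) (pderiv l (Psi A c i0 (Sum.inr (Sum.inr i)))) =
      c i0 * (∑ a, ∑ b, ((Fin.cons 0 z' : Fin (n' + 1) → ℂ) a * coefMat A i.1 a b *
        (Fin.cons 1 y : Fin (n' + 1) → ℂ) b + (Fin.cons 1 z : Fin (n' + 1) → ℂ) a *
        coefMat A i.1 a b * (Fin.cons 0 y' : Fin (n' + 1) → ℂ) b)) -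
      c i.1 * (∑ a, ∑ b, ((Fin.cons 0 z' : Fin (n' + 1) → ℂ) a * coefMat A i0 a b *
        (Fin.cons 1 y : Fin (n' + 1) → ℂ) b + (Fin.cons 1 z : Fin (n' + 1) → ℂ) a *
        coefMat A i0 a b * (Fin.cons 0 y' : Fin (n' + 1) → ℂ) b)) := by
  change dd (pt x y z) (pt u y' z') (Psi A c i0 (Sum.inr (Sum.inr i))) = _
  simp only [Psi, dd_sum, dd_C_mul]
  simp only [dd_mul, dd_wP, eval_wP, dd_vP, eval_vP, Finset.mul_sum]
  simp only [← Finset.sum_sub_distrib]
  refine Finset.sum_congr rfl fun a _ => Finset.sum_congr rfl fun b _ => ?_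
  ring

end Pool.Agent.Work.MP_35c45d_lc.SQ
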