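import Mathlib
import Pool.Agent.Work.MP_35c45d_lc.CM1
import Pool.Agent.Work.MP_35c45d_lc.SQDetPsi
import Pool.Agent.Work.MP_35c45d_lc.Bez2
import Pool.Agent.Work.MP_35c45d_lc.BezoutMain

/-! The number of nondegenerate critical points of a polynomial computed with `L` multiplications
(Baur-Strassen in Lagrangian form). -/

set_option autoImplicit false
set_option linter.unusedSectionVars false

namespace Pool.Agent.Work.MP_35c45d_lc.CM

open MvPolynomial Matrix Pool.Agent.Work.MP_35c45d_lc.SQ Pool.Agent.Work.MP_35c45d_lc.SQ.PsiAux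

/-- coefficients of a computation with `L` multiplications -/
structure Dat (ι : Type) (L : ℕ) where
  a0 : Fin L → ℂ
  a : Fin L → ι → ℂ
  al : Fin L → Fin L → ℂ
  hal : ∀ k j, k ≤ j → al k j = 0
  b0 : Fin L → ℂ
  b : Fin L → ι → ℂ
  be : Fin L → Fin L → ℂ
  hbe : ∀ k j, k ≤ j → be k j = 0
  w0 : ℂ
  w : ι → ℂ
  W : Fin L → ℂ

variable {ι : Type} [Fintype ι] [DecidableEq ι] {L : ℕ} (d : Dat ι L)

namespace Dat

/-- affine form in `x` and `y` -/
noncomputable def aff {σ : Type} (xs : ι → MvPolynomial σ ℂ) (ys : Fin L → MvPolynomial σ ℂ)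
    (a0 : ℂ) (a : ι → ℂ) (al : Fin L → ℂ) : MvPolynomial σ ℂ :=
  C a0 + ∑ i, C (a i) * xs i + ∑ j, C (al j) * ys j

/-- `M k j = α_{k,j} v_k + β_{k,j} u_k`. -/
noncomputable def M {R : Type} [CommRing R] (φ : ℂ →+* R) (U V : Fin L → R) :
    Matrix (Fin L) (Fin L) R :=
  fun k j => φ (d.al k j) * V k + φ (d.be k j) * U k

theorem det_one_sub_M {R : Type} [CommRing R] (φ : ℂ →+* R) (U V : Fin L → R) :
    (1 - d.M φ U V).det = 1 := by
  have h : (1 - d.M φ U V).BlockTriangular OrderDual.toDual := by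
    intro i j hij
    have hij' : i < j := hij
    rw [Matrix.sub_apply, Matrix.one_apply_ne hij'.ne]
    simp only [M, d.hal i j hij'.le, d.hbe i j hij'.le, map_zero, zero_mul, add_zero, sub_zero]
  rw [Matrix.det_of_isLowerTriangular _ h]
  refine Finset.prod_eq_one fun i _ => ?_
  rw [Matrix.sub_apply, Matrix.one_apply_eq]
  simp only [M, d.hal i i le_rfl, d.hbe i i le_rfl, map_zero, zero_mul, add_zero, sub_zero]

theorem mulVec_inj {R : Type} [CommRing R] (φ : ℂ →+* R) (U V : Fin L → R) (δ : Fin L → R)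
    (h : ∀ k, δ k = ∑ j, d.M φ U V k j * δ j) : δ = 0 := by
  have h1 : (1 - d.M φ U V) *ᵥ δ = 0 := by
    rw [Matrix.sub_mulVec, Matrix.one_mulVec]
    funext k
    rw [Pi.sub_apply, h k]
    simp [Matrix.mulVec, dotProduct]
  have hu : IsUnit (1 - d.M φ U V).det := by rw [d.det_one_sub_M]; exact isUnit_one
  have h2 : (1 - d.M φ U V)⁻¹ *ᵥ ((1 - d.M φ U V) *ᵥ δ) = δ := by
    rw [Matrix.mulVec_mulVec, Matrix.nonsing_inv_mul _ hu, Matrix.one_mulVec]
  rw [← h2, h1, Matrix.mulVec_zero]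

theorem vecMul_inj {R : Type} [CommRing R] (φ : ℂ →+* R) (U V : Fin L → R) (δ : Fin L → R)
    (h : ∀ j, δ j = ∑ k, δ k * d.M φ U V k j) : δ = 0 := by
  have h1 : δ ᵥ* (1 - d.M φ U V) = 0 := by
    rw [Matrix.vecMul_sub, Matrix.vecMul_one]
    funext j
    rw [Pi.sub_apply, h j]
    simp [Matrix.vecMul, dotProduct]
  have hu : IsUnit (1 - d.M φ U V).det := by rw [d.det_one_sub_M]; exact isUnit_one
  have h2 : (δ ᵥ* (1 - d.M φ U V)) ᵥ* (1 - d.M φ U V)⁻¹ = δ := by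
    rw [Matrix.vecMul_vecMul, Matrix.mul_nonsing_inv _ hu, Matrix.vecMul_one]
  rw [← h2, h1, Matrix.zero_vecMul]

end Dat

/-- variables of the Lagrange system: `x`, `lam`, `y`, `λ`. -/
abbrev LV (ι : Type) (L : ℕ) : Type := ι ⊕ (Unit ⊕ (Fin L ⊕ Fin L))

/-- points of the Lagrange system -/
def lpt (x : ι → ℂ) (t : ℂ) (y z : Fin L → ℂ) : LV ι L → ℂ :=
  Sum.elim x (Sum.elim (fun _ => t) (Sum.elim y z))

namespace Dat

/-- first factor of gate `k` -/
noncomputable def UP (k : Fin L) : MvPolynomial (LV ι L) ℂ :=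
  aff (fun i => X (Sum.inl i)) (fun j => X (Sum.inr (Sum.inr (Sum.inl j)))) (d.a0 k) (d.a k) (d.al k)

/-- second factor of gate `k` -/
noncomputable def VP (k : Fin L) : MvPolynomial (LV ι L) ℂ :=
  aff (fun i => X (Sum.inl i)) (fun j => X (Sum.inr (Sum.inr (Sum.inl j)))) (d.b0 k) (d.b k) (d.be k)

/-- the Lagrange system -/
noncomputable def sys (c : ι → ℂ) : LV ι L → MvPolynomial (LV ι L) ℂ
  | Sum.inl i => C (d.w i) + ∑ k, X (Sum.inr (Sum.inr (Sum.inr k))) *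
      (C (d.a k i) * d.VP k + C (d.b k i) * d.UP k) - C (c i) * X (Sum.inr (Sum.inl ()))
  | Sum.inr (Sum.inl _) =>
      aff (fun i => X (Sum.inl i)) (fun j => X (Sum.inr (Sum.inr (Sum.inl j)))) d.w0 d.w d.W
  | Sum.inr (Sum.inr (Sum.inl k)) => d.UP k * d.VP k - X (Sum.inr (Sum.inr (Sum.inl k)))
  | Sum.inr (Sum.inr (Sum.inr j)) => C (d.W j) + ∑ k, X (Sum.inr (Sum.inr (Sum.inr k))) *
      (C (d.al k j) * d.VP k + C (d.be k j) * d.UP k) - X (Sum.inr (Sum.inr (Sum.inr j)))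

theorem eval_aff {σ : Type} (P : σ → ℂ) (xs : ι → MvPolynomial σ ℂ) (ys : Fin L → MvPolynomial σ ℂ)
    (a0 : ℂ) (a : ι → ℂ) (al : Fin L → ℂ) :
    eval P (aff xs ys a0 a al) = a0 + ∑ i, a i * eval P (xs i) + ∑ j, al j * eval P (ys j) := by
  simp only [aff, map_add, map_sum, map_mul, eval_C]

theorem dd_aff {σ : Type} [Fintype σ] (P Q : σ → ℂ) (xs : ι → MvPolynomial σ ℂ)
    (ys : Fin L → MvPolynomial σ ℂ) (a0 : ℂ) (a : ι → ℂ) (al : Fin L → ℂ) :
    dd P Q (aff xs ys a0 a al) = ∑ i, a i * dd P Q (xs i) + ∑ j, al j * dd P Q (ys j) := by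
  simp only [aff, dd_add, dd_sum, dd_C_mul, dd_C, zero_add]

theorem dd_sub {σ : Type} [Fintype σ] (P Q : σ → ℂ) (f g : MvPolynomial σ ℂ) :
    dd P Q (f - g) = dd P Q f - dd P Q g := by
  simp only [dd, map_sub, mul_sub, Finset.sum_sub_distrib]

end Dat

/-- A computation of `f`. -/
structure Comp (d : Dat ι L) (f : MvPolynomial ι ℂ) where
  g : Fin L → MvPolynomial ι ℂ
  hg : ∀ k, g k = Dat.aff X g (d.a0 k) (d.a k) (d.al k) * Dat.aff X g (d.b0 k) (d.b k) (d.be k)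
  hf : f = Dat.aff X g d.w0 d.w d.W

namespace Comp

variable {d : Dat ι L} {f : MvPolynomial ι ℂ} (S : Comp d f)

/-- first factor -/
noncomputable def U (k : Fin L) : MvPolynomial ι ℂ := Dat.aff X S.g (d.a0 k) (d.a k) (d.al k)

/-- second factor -/
noncomputable def V (k : Fin L) : MvPolynomial ι ℂ := Dat.aff X S.g (d.b0 k) (d.b k) (d.be k)

theorem hg' (k : Fin L) : S.g k = S.U k * S.V k := S.hg k

/-- adjoint polynomials -/
noncomputable def Lam : Fin L → MvPolynomial ι ℂ :=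
  (fun j => (C (d.W j) : MvPolynomial ι ℂ)) ᵥ* (1 - d.M C S.U S.V)⁻¹

theorem isUnit_det : IsUnit (1 - d.M C S.U S.V).det := by
  rw [d.det_one_sub_M]; exact isUnit_one

theorem lam_mul : S.Lam ᵥ* (1 - d.M C S.U S.V) = fun j => (C (d.W j) : MvPolynomial ι ℂ) := by
  unfold Lam
  rw [Matrix.vecMul_vecMul, Matrix.nonsing_inv_mul _ S.isUnit_det, Matrix.vecMul_one]

theorem lam_eq (j : Fin L) : S.Lam j = C (d.W j) + ∑ k, S.Lam k * d.M C S.U S.V k j := by
  have h := congrFun S.lam_mul j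
  rw [Matrix.vecMul_sub, Matrix.vecMul_one, Pi.sub_apply] at h
  rw [← h]
  simp [Matrix.vecMul, dotProduct]

theorem pderiv_aff (i : ι) (a0 : ℂ) (a : ι → ℂ) (al : Fin L → ℂ) :
    pderiv i (Dat.aff X S.g a0 a al) = C (a i) + ∑ j, C (al j) * pderiv i (S.g j) := by
  unfold Dat.aff
  rw [map_add, map_add, pderiv_C, zero_add, map_sum, map_sum]
  congr 1
  · rw [Finset.sum_eq_single i]
    · rw [pderiv_C_mul, pderiv_X_self, mul_one]
    · intro b _ hb
      rw [pderiv_C_mul, pderiv_X_of_ne hb, mul_zero]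
    · intro h; exact absurd (Finset.mem_univ i) h
  · exact Finset.sum_congr rfl fun j _ => by rw [pderiv_C_mul]

theorem pderiv_g (i : ι) (k : Fin L) : pderiv i (S.g k) =
    (C (d.a k i) * S.V k + C (d.b k i) * S.U k) + ∑ j, d.M C S.U S.V k j * pderiv i (S.g j) := by
  conv_lhs => rw [S.hg' k]
  rw [pderiv_mul, U, V, pderiv_aff, pderiv_aff]
  simp only [Dat.M, add_mul, Finset.sum_add_distrib, mul_add, Finset.sum_mul, Finset.mul_sum]
  have h1 : ∑ j, C (d.al k j) * (pderiv i) (S.g j) * Dat.aff X S.g (d.b0 k) (d.b k) (d.be k) =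
      ∑ j, C (d.al k j) * S.V k * (pderiv i) (S.g j) :=
    Finset.sum_congr rfl fun j _ => by unfold V; ring
  have h2 : ∑ j, Dat.aff X S.g (d.a0 k) (d.a k) (d.al k) * (C (d.be k j) * (pderiv i) (S.g j)) =
      ∑ j, C (d.be k j) * S.U k * (pderiv i) (S.g j) :=
    Finset.sum_congr rfl fun j _ => by unfold U; ring
  rw [h1, h2]
  unfold U V
  ring

/-- Baur-Strassen -/
theorem pderiv_f (i : ι) : pderiv i f =
    C (d.w i) + ∑ k, S.Lam k * (C (d.a k i) * S.V k + C (d.b k i) * S.U k) := by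
  have hf := S.hf
  conv_lhs => rw [hf]
  rw [pderiv_aff]
  congr 1
  have h1 : (1 - d.M C S.U S.V) *ᵥ (fun k => pderiv i (S.g k)) =
      fun k => C (d.a k i) * S.V k + C (d.b k i) * S.U k := by
    funext k
    rw [Matrix.sub_mulVec, Matrix.one_mulVec, Pi.sub_apply]
    conv_lhs => rw [S.pderiv_g i k]
    simp [Matrix.mulVec, dotProduct]
  have h2 : (fun j => (C (d.W j) : MvPolynomial ι ℂ)) ⬝ᵥ (fun k => pderiv i (S.g k)) =
      S.Lam ⬝ᵥ fun k => C (d.a k i) * S.V k + C (d.b k i) * S.U k := by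
    rw [← S.lam_mul, ← Matrix.dotProduct_mulVec, h1]
  exact h2

end Comp

end Pool.Agent.Work.MP_35c45d_lc.CM
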