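import Mathlib
import Pool.Agent.Work.MP_35c45d_lc.CM2

/-! Zeros of the Lagrange system. -/

set_option autoImplicit false
set_option linter.unusedSectionVars false

namespace Pool.Agent.Work.MP_35c45d_lc.CM

open MvPolynomial Matrix Pool.Agent.Work.MP_35c45d_lc.SQ Pool.Agent.Work.MP_35c45d_lc.SQ.PsiAux

variable {ι : Type} [Fintype ι] [DecidableEq ι] {L : ℕ} {d : Dat ι L} {f : MvPolynomial ι ℂ}

namespace Comp

variable (S : Comp d f)

/-- the zero of the Lagrange system above a point `x`. -/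
noncomputable def lift (x : ι → ℂ) (t : ℂ) : LV ι L → ℂ :=
  lpt x t (fun k => eval x (S.g k)) (fun k => eval x (S.Lam k))

theorem eval_UP (x : ι → ℂ) (t : ℂ) (k : Fin L) :
    eval (S.lift x t) (d.UP k) = eval x (S.U k) := by
  unfold Dat.UP U
  rw [Dat.eval_aff, Dat.eval_aff]
  simp only [eval_X]
  rfl

theorem eval_VP (x : ι → ℂ) (t : ℂ) (k : Fin L) :
    eval (S.lift x t) (d.VP k) = eval x (S.V k) := by
  unfold Dat.VP V
  rw [Dat.eval_aff, Dat.eval_aff]
  simp only [eval_X]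
  rfl

theorem lift_inl (x : ι → ℂ) (t : ℂ) (i : ι) : S.lift x t (Sum.inl i) = x i := rfl
theorem lift_t (x : ι → ℂ) (t : ℂ) (i : Unit) : S.lift x t (Sum.inr (Sum.inl i)) = t := rfl
theorem lift_y (x : ι → ℂ) (t : ℂ) (k : Fin L) :
    S.lift x t (Sum.inr (Sum.inr (Sum.inl k))) = eval x (S.g k) := rfl
theorem lift_z (x : ι → ℂ) (t : ℂ) (k : Fin L) :
    S.lift x t (Sum.inr (Sum.inr (Sum.inr k))) = eval x (S.Lam k) := rfl

theorem eval_lam (x : ι → ℂ) (j : Fin L) : eval x (S.Lam j) = d.W j +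
    ∑ k, eval x (S.Lam k) * (d.al k j * eval x (S.V k) + d.be k j * eval x (S.U k)) := by
  conv_lhs => rw [S.lam_eq j]
  simp only [map_add, map_sum, map_mul, eval_C, Dat.M]

theorem eval_pderiv_f (x : ι → ℂ) (i : ι) : eval x (pderiv i f) = d.w i +
    ∑ k, eval x (S.Lam k) * (d.a k i * eval x (S.V k) + d.b k i * eval x (S.U k)) := by
  rw [S.pderiv_f i]
  simp only [map_add, map_sum, map_mul, eval_C]

/-- critical points give zeros of the Lagrange system -/
theorem eval_sys (c x : ι → ℂ) (t : ℂ) (h0 : eval x f = 0)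
    (h1 : ∀ i, eval x (pderiv i f) = t * c i) (e : LV ι L) :
    eval (S.lift x t) (d.sys c e) = 0 := by
  rcases e with i | u | k | j
  · have h := h1 i
    rw [S.eval_pderiv_f] at h
    simp only [Dat.sys, map_sub, map_add, map_sum, map_mul, eval_C, eval_X, S.eval_UP, S.eval_VP,
      S.lift_t, S.lift_z, h]
    ring
  · have h := h0
    rw [S.hf, Dat.eval_aff] at h
    simp only [eval_X] at h
    simp only [Dat.sys, Dat.eval_aff, eval_X, S.lift_inl, S.lift_y, h]
  · simp only [Dat.sys, map_sub, map_mul, eval_X, S.eval_UP, S.eval_VP, S.lift_y]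
    rw [S.hg' k, map_mul, sub_self]
  · simp only [Dat.sys, map_sub, map_add, map_sum, map_mul, eval_C, eval_X, S.eval_UP, S.eval_VP,
      S.lift_z]
    rw [← S.eval_lam x j, sub_self]

/-- directional derivative of the factors -/
theorem dd_U (x u : ι → ℂ) (k : Fin L) :
    dd x u (S.U k) = ∑ i, d.a k i * u i + ∑ j, d.al k j * dd x u (S.g j) := by
  unfold U
  rw [Dat.dd_aff]
  simp only [dd_X]

theorem dd_V (x u : ι → ℂ) (k : Fin L) :
    dd x u (S.V k) = ∑ i, d.b k i * u i + ∑ j, d.be k j * dd x u (S.g j) := by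
  unfold V
  rw [Dat.dd_aff]
  simp only [dd_X]

theorem dd_UP (P Q : LV ι L → ℂ) (k : Fin L) :
    dd P Q (d.UP k) = ∑ i, d.a k i * Q (Sum.inl i) +
      ∑ j, d.al k j * Q (Sum.inr (Sum.inr (Sum.inl j))) := by
  unfold Dat.UP
  rw [Dat.dd_aff]
  simp only [dd_X]

theorem dd_VP (P Q : LV ι L → ℂ) (k : Fin L) :
    dd P Q (d.VP k) = ∑ i, d.b k i * Q (Sum.inl i) +
      ∑ j, d.be k j * Q (Sum.inr (Sum.inr (Sum.inl j))) := by
  unfold Dat.VP
  rw [Dat.dd_aff]
  simp only [dd_X]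

theorem dd_g (x u : ι → ℂ) (k : Fin L) : dd x u (S.g k) =
    dd x u (S.U k) * eval x (S.V k) + eval x (S.U k) * dd x u (S.V k) := by
  conv_lhs => rw [S.hg' k]
  rw [dd_mul]

theorem dd_lam (x u : ι → ℂ) (j : Fin L) : dd x u (S.Lam j) =
    ∑ k, (dd x u (S.Lam k) * (d.al k j * eval x (S.V k) + d.be k j * eval x (S.U k)) +
      eval x (S.Lam k) * (d.al k j * dd x u (S.V k) + d.be k j * dd x u (S.U k))) := by
  conv_lhs => rw [S.lam_eq j]
  rw [dd_add, dd_C, zero_add, dd_sum]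
  refine Finset.sum_congr rfl fun k _ => ?_
  simp only [dd_mul, Dat.M, dd_add, dd_C, map_add, map_mul, eval_C, zero_mul, zero_add]

theorem dd_pderiv_f (x u : ι → ℂ) (i : ι) : dd x u (pderiv i f) =
    ∑ k, (dd x u (S.Lam k) * (d.a k i * eval x (S.V k) + d.b k i * eval x (S.U k)) +
      eval x (S.Lam k) * (d.a k i * dd x u (S.V k) + d.b k i * dd x u (S.U k))) := by
  rw [S.pderiv_f i, dd_add, dd_C, zero_add, dd_sum]
  refine Finset.sum_congr rfl fun k _ => ?_
  simp only [dd_mul, dd_add, dd_C, map_add, map_mul, eval_C, zero_mul, zero_add]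

/-- nondegeneracy of the zeros -/
theorem ker_sys (c x : ι → ℂ) (t : ℂ) (hc : c ≠ 0)
    (hx : ∀ u : ι → ℂ, (∑ i, u i * eval x (pderiv i f) = 0) →
      (∃ τ : ℂ, ∀ i, ∑ j, u j * eval x (pderiv j (pderiv i f)) = τ * c i) → u = 0)
    (Q : LV ι L → ℂ) (hQ : ∀ e, dd (S.lift x t) Q (d.sys c e) = 0) : Q = 0 := by
  -- components of `Q`
  obtain ⟨u, hu⟩ : ∃ u : ι → ℂ, ∀ i, Q (Sum.inl i) = u i := ⟨_, fun _ => rfl⟩
  obtain ⟨τ, hτ⟩ : ∃ τ : ℂ, ∀ s, Q (Sum.inr (Sum.inl s)) = τ := ⟨Q (Sum.inr (Sum.inl ())), fun _ => rfl⟩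
  obtain ⟨η, hη⟩ : ∃ η : Fin L → ℂ, ∀ k, Q (Sum.inr (Sum.inr (Sum.inl k))) = η k :=
    ⟨_, fun _ => rfl⟩
  obtain ⟨μ, hμ⟩ : ∃ μ : Fin L → ℂ, ∀ k, Q (Sum.inr (Sum.inr (Sum.inr k))) = μ k :=
    ⟨_, fun _ => rfl⟩
  have hUP : ∀ k, dd (S.lift x t) Q (d.UP k) = ∑ i, d.a k i * u i + ∑ j, d.al k j * η j := by
    intro k
    rw [dd_UP]; simp only [hu, hη]
  have hVP : ∀ k, dd (S.lift x t) Q (d.VP k) = ∑ i, d.b k i * u i + ∑ j, d.be k j * η j := by
    intro k
    rw [dd_VP]; simp only [hu, hη]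
  -- gates
  have h1 : ∀ k, η k = dd x u (S.g k) := by
    have h2 : (fun k => η k - dd x u (S.g k)) = 0 := by
      refine d.mulVec_inj (RingHom.id ℂ) (fun k => eval x (S.U k)) (fun k => eval x (S.V k)) _ ?_
      intro k
      have h3 := hQ (Sum.inr (Sum.inr (Sum.inl k)))
      simp only [Dat.sys] at h3
      rw [Dat.dd_sub, dd_mul, dd_X, hη, hUP, hVP, S.eval_UP, S.eval_VP] at h3
      have h4 := S.dd_g x u k
      rw [S.dd_U, S.dd_V] at h4
      have h5 : ∑ j, d.M (RingHom.id ℂ) (fun k => eval x (S.U k)) (fun k => eval x (S.V k)) k j *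
          (η j - dd x u (S.g j)) =
          (∑ j, d.al k j * η j - ∑ j, d.al k j * dd x u (S.g j)) * eval x (S.V k) +
          eval x (S.U k) * (∑ j, d.be k j * η j - ∑ j, d.be k j * dd x u (S.g j)) := by
        rw [← Finset.sum_sub_distrib, ← Finset.sum_sub_distrib, Finset.sum_mul, Finset.mul_sum,
          ← Finset.sum_add_distrib]
        refine Finset.sum_congr rfl fun j _ => ?_
        simp only [Dat.M, RingHom.id_apply]
        ring
      rw [h5, h4]
      linear_combination -h3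
    intro k
    have := congrFun h2 k
    exact sub_eq_zero.1 this
  have hUP' : ∀ k, dd (S.lift x t) Q (d.UP k) = dd x u (S.U k) := by
    intro k
    rw [hUP, S.dd_U]; simp only [h1]
  have hVP' : ∀ k, dd (S.lift x t) Q (d.VP k) = dd x u (S.V k) := by
    intro k
    rw [hVP, S.dd_V]; simp only [h1]
  -- adjoints
  have h2 : ∀ k, μ k = dd x u (S.Lam k) := by
    have h3 : (fun k => μ k - dd x u (S.Lam k)) = 0 := by
      refine d.vecMul_inj (RingHom.id ℂ) (fun k => eval x (S.U k)) (fun k => eval x (S.V k)) _ ?_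
      intro j
      have h4 := hQ (Sum.inr (Sum.inr (Sum.inr j)))
      simp only [Dat.sys] at h4
      rw [Dat.dd_sub, dd_add, dd_C, zero_add, dd_sum, dd_X, hμ] at h4
      simp only [dd_mul, dd_add, dd_C, dd_X, map_add, map_mul, eval_C, eval_X, zero_mul, zero_add,
        hμ, S.lift_z, hUP', hVP', S.eval_UP, S.eval_VP] at h4
      have h5 := S.dd_lam x u j
      have h6 : ∑ k, (μ k - dd x u (S.Lam k)) *
          d.M (RingHom.id ℂ) (fun k => eval x (S.U k)) (fun k => eval x (S.V k)) k j =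
          ∑ k, (μ k * (d.al k j * eval x (S.V k) + d.be k j * eval x (S.U k)) +
            eval x (S.Lam k) * (d.al k j * dd x u (S.V k) + d.be k j * dd x u (S.U k))) -
          ∑ k, (dd x u (S.Lam k) * (d.al k j * eval x (S.V k) + d.be k j * eval x (S.U k)) +
            eval x (S.Lam k) * (d.al k j * dd x u (S.V k) + d.be k j * dd x u (S.U k))) := by
        rw [← Finset.sum_sub_distrib]
        refine Finset.sum_congr rfl fun k _ => ?_
        simp only [Dat.M, RingHom.id_apply]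
        ring
      rw [h6, ← h5]
      linear_combination -h4
    intro k
    have := congrFun h3 k
    exact sub_eq_zero.1 this
  -- `u = 0`
  have h3 : u = 0 := by
    refine hx u ?_ ⟨τ, fun i => ?_⟩
    · have h4 := hQ (Sum.inr (Sum.inl ()))
      simp only [Dat.sys] at h4
      rw [Dat.dd_aff] at h4
      simp only [dd_X, hu, hη, h1] at h4
      have h5 : dd x u f = 0 := by
        rw [S.hf, Dat.dd_aff]
        simp only [dd_X]
        exact h4
      exact h5
    · have h4 := hQ (Sum.inl i)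
      simp only [Dat.sys] at h4
      rw [Dat.dd_sub, dd_add, dd_C, zero_add, dd_sum] at h4
      simp only [dd_mul, dd_add, dd_C, dd_X, map_add, map_mul, eval_C, eval_X, zero_mul, zero_add,
        hμ, h2, S.lift_z, hUP', hVP', S.eval_UP, S.eval_VP, hτ] at h4
      have h5 := S.dd_pderiv_f x u i
      change dd x u (pderiv i f) = _
      rw [h5]
      linear_combination h4
  subst h3
  have h4 : ∀ F : MvPolynomial ι ℂ, dd x (0 : ι → ℂ) F = 0 := by
    intro F
    simp [dd]
  have h5 : τ = 0 := by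
    obtain ⟨i, hi⟩ : ∃ i, c i ≠ 0 := by
      by_contra hcon
      push Not at hcon
      exact hc (funext hcon)
    have h6 := hQ (Sum.inl i)
    simp only [Dat.sys] at h6
    rw [Dat.dd_sub, dd_add, dd_C, zero_add, dd_sum] at h6
    simp only [dd_mul, dd_add, dd_C, dd_X, map_add, map_mul, eval_C, eval_X, zero_mul, zero_add,
      hμ, h2, S.lift_z, hUP', hVP', S.eval_UP, S.eval_VP, hτ, h4, mul_zero, add_zero,
      Finset.sum_const_zero, zero_sub, neg_eq_zero] at h6
    exact (mul_eq_zero.1 h6).resolve_left hi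
  funext e
  rcases e with i | s | k | k
  · rw [hu]; rfl
  · rw [hτ, h5]; rfl
  · rw [hη, h1, h4]; rfl
  · rw [hμ, h2, h4]; rfl

end Comp

end Pool.Agent.Work.MP_35c45d_lc.CM
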