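import Mathlib
import Pool.Agent.Work.MP_35c45d_lc.SQDefs
import Pool.Agent.Work.MP_35c45d_lc.BorderLimit

/-! Persistence of nondegenerate critical points under coefficientwise limits. -/

set_option autoImplicit false

namespace Pool.Agent.Work.MP_35c45d_lc.SQ

open MvPolynomial Filter Topology

namespace Persist

variable {ι : Type} [Fintype ι]

/-- differential of a polynomial -/
noncomputable def dlin (p : MvPolynomial ι ℂ) (y : ι → ℂ) : (ι → ℂ) →L[ℂ] ℂ :=
  ∑ j : ι, (eval y (pderiv j p)) • (ContinuousLinearMap.proj (R := ℂ) (φ := fun _ : ι => ℂ) j)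

theorem dlin_apply (p : MvPolynomial ι ℂ) (y v : ι → ℂ) :
    dlin p y v = ∑ j, eval y (pderiv j p) * v j := by
  simp [dlin]

theorem hasFDerivAt_eval (p : MvPolynomial ι ℂ) (y : ι → ℂ) :
    HasFDerivAt (fun y => eval y p) (dlin p y) y := by
  classical
  induction p using MvPolynomial.induction_on with
  | C a =>
    have h1 : HasFDerivAt (fun _ : ι → ℂ => a) (0 : (ι → ℂ) →L[ℂ] ℂ) y := hasFDerivAt_const _ _
    have h2 : dlin (C a) y = 0 := by
      ext v
      rw [dlin_apply]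
      simp
    rw [h2]
    simpa using h1
  | add p q hp hq =>
    have h2 : dlin (p + q) y = dlin p y + dlin q y := by
      ext v
      simp only [add_apply, dlin_apply, map_add, add_mul,
        Finset.sum_add_distrib]
    rw [h2]
    have h1 := hp.add hq
    have h3 : (fun y => eval y (p + q)) = (fun y => eval y p) + fun y => eval y q := by
      funext y
      simp
    rw [h3]
    exact h1
  | mul_X p i hp =>
    have h0 : HasFDerivAt (fun y : ι → ℂ => y i)
      (ContinuousLinearMap.proj (R := ℂ) (φ := fun _ : ι => ℂ) i) y := hasFDerivAt_apply i y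
    have h1 := hp.mul h0
    have h3 : (fun y => eval y (p * X i)) = (fun y => eval y p) * fun y => y i := by
      funext y
      simp
    rw [h3]
    refine h1.congr_fderiv ?_
    ext v
    rw [dlin_apply]
    simp only [Derivation.leibniz, pderiv_X, map_add, smul_eq_mul, map_mul, eval_X,
      add_apply, smul_apply, dlin_apply,
      ContinuousLinearMap.proj_apply]
    simp only [add_mul, Finset.sum_add_distrib]
    congr 1
    · rw [Finset.sum_eq_single i]
      · simp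
      · intro b _ hb
        simp [Pi.single_eq_of_ne (Ne.symm hb)]
      · intro h
        exact absurd (Finset.mem_univ _) h
    · rw [Finset.mul_sum]
      exact Finset.sum_congr rfl fun j _ => by ring

theorem contDiff_eval (p : MvPolynomial ι ℂ) :
    ContDiff ℂ 1 fun y : ι → ℂ => eval y p := by
  exact (AnalyticOnNhd.eval_mvPolynomial (𝕜 := ℂ) p).contDiff

/-- exponents of degree at most `N` -/
noncomputable def ex (ι : Type) [Fintype ι] (N : ℕ) : Finset (ι →₀ ℕ) :=
  (Finsupp.finite_of_degree_le (σ := ι) N).toFinset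

theorem mem_ex (N : ℕ) (d : ι →₀ ℕ) : d ∈ ex ι N ↔ Finsupp.degree d ≤ N := by
  simp [ex]

/-- the polynomial with coefficients `a` -/
noncomputable def pol {N : ℕ} (a : ex ι N → ℂ) : MvPolynomial ι ℂ :=
  ∑ d : ex ι N, monomial d.1 (a d)

theorem pol_coeff {N : ℕ} (g : MvPolynomial ι ℂ) (hg : ∀ d, N < Finsupp.degree d → coeff d g = 0) :
    pol (fun d : ex ι N => coeff d.1 g) = g := by
  classical
  ext d
  unfold pol
  rw [coeff_sum]
  simp only [coeff_monomial]
  by_cases hd : d ∈ ex ι N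
  · rw [Finset.sum_eq_single ⟨d, hd⟩]
    · simp
    · intro b _ hb
      rw [if_neg]
      intro h
      exact hb (Subtype.ext h)
    · intro h
      exact absurd (Finset.mem_univ _) h
  · rw [Finset.sum_eq_zero]
    · rw [mem_ex, not_le] at hd
      exact (hg d hd).symm
    · intro b _
      rw [if_neg]
      intro h
      exact hd (h ▸ b.2)

theorem eval_pol {N : ℕ} (L : MvPolynomial ι ℂ →ₗ[ℂ] MvPolynomial ι ℂ) (a : ex ι N → ℂ)
    (y : ι → ℂ) : eval y (L (pol a)) = ∑ d : ex ι N, a d * eval y (L (monomial d.1 1)) := by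
  unfold pol
  rw [map_sum, map_sum]
  refine Finset.sum_congr rfl fun d _ => ?_
  have h1 : (monomial d.1 (a d) : MvPolynomial ι ℂ) = (a d) • monomial d.1 1 := by
    rw [smul_monomial, smul_eq_mul, mul_one]
  rw [h1, map_smul, smul_eval]

theorem contDiff_pol {N : ℕ} (L : MvPolynomial ι ℂ →ₗ[ℂ] MvPolynomial ι ℂ) :
    ContDiff ℂ 1 (fun q : (ex ι N → ℂ) × (ι → ℂ) => eval q.2 (L (pol q.1))) := by
  simp only [eval_pol]
  refine ContDiff.sum fun d _ => ?_
  refine ContDiff.mul ?_ ?_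
  · exact (contDiff_apply ℂ ℂ d).comp contDiff_fst
  · exact (contDiff_eval _).comp contDiff_snd

open Classical in
/-- rows of the square system -/
noncomputable def rowL (c : ι → ℂ) (i0 i : ι) : MvPolynomial ι ℂ →ₗ[ℂ] MvPolynomial ι ℂ :=
  if i = i0 then LinearMap.id else
    c i0 • ((pderiv i : Derivation ℂ (MvPolynomial ι ℂ) (MvPolynomial ι ℂ)) :
      MvPolynomial ι ℂ →ₗ[ℂ] MvPolynomial ι ℂ) -
    c i • ((pderiv i0 : Derivation ℂ (MvPolynomial ι ℂ) (MvPolynomial ι ℂ)) :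
      MvPolynomial ι ℂ →ₗ[ℂ] MvPolynomial ι ℂ)

omit [Fintype ι] in
theorem rowL_self (c : ι → ℂ) (i0 : ι) (g : MvPolynomial ι ℂ) : rowL c i0 i0 g = g := by
  simp [rowL]

omit [Fintype ι] in
theorem rowL_ne (c : ι → ℂ) {i0 i : ι} (h : i ≠ i0) (g : MvPolynomial ι ℂ) :
    rowL c i0 i g = c i0 • pderiv i g - c i • pderiv i0 g := by
  simp [rowL, h]

/-- Jacobian of the square system -/
noncomputable def jac (c : ι → ℂ) (i0 : ι) (g : MvPolynomial ι ℂ) (y : ι → ℂ) : Matrix ι ι ℂ :=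
  Matrix.of fun i j => eval y (pderiv j (rowL c i0 i g))

open Classical in
theorem isCrit_iff (c : ι → ℂ) (i0 : ι) (hc : c i0 ≠ 0) (g : MvPolynomial ι ℂ) (y : ι → ℂ) :
    IsCrit g c y ↔ (∀ i, eval y (rowL c i0 i g) = 0) ∧ eval y (pderiv i0 g) ≠ 0 ∧
      (jac c i0 g y).det ≠ 0 := by
  have hrow : ∀ i ≠ i0, ∀ v : ι → ℂ, ∑ j, jac c i0 g y i j * v j =
      c i0 * (∑ j, v j * eval y (pderiv j (pderiv i g))) -
        c i * ∑ j, v j * eval y (pderiv j (pderiv i0 g)) := by
    intro i hi v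
    rw [Finset.mul_sum, Finset.mul_sum, ← Finset.sum_sub_distrib]
    refine Finset.sum_congr rfl fun j _ => ?_
    simp only [jac, Matrix.of_apply, rowL_ne c hi, map_sub, Derivation.map_smul, smul_eval]
    ring
  have hrow0 : ∀ v : ι → ℂ, ∑ j, jac c i0 g y i0 j * v j =
      ∑ j, v j * eval y (pderiv j g) := by
    intro v
    refine Finset.sum_congr rfl fun j _ => ?_
    simp only [jac, Matrix.of_apply, rowL_self]
    ring
  constructor
  · rintro ⟨h1, ⟨lam, hlam, h2⟩, h3⟩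
    refine ⟨?_, ?_, ?_⟩
    · intro i
      by_cases hi : i = i0
      · rw [hi, rowL_self, h1]
      · rw [rowL_ne c hi, map_sub, smul_eval, smul_eval, h2, h2]
        ring
    · rw [h2]
      exact mul_ne_zero hlam hc
    · intro hdet
      obtain ⟨v, hv, hmv⟩ := Matrix.exists_mulVec_eq_zero_iff.2 hdet
      apply hv
      have h4 : ∀ i, ∑ j, jac c i0 g y i j * v j = 0 := fun i => congrFun hmv i
      refine h3 v ?_ ⟨(∑ j, v j * eval y (pderiv j (pderiv i0 g))) / c i0, fun i => ?_⟩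
      · rw [← hrow0, h4]
      · by_cases hi : i = i0
        · rw [hi]
          field_simp
        · have h5 := h4 i
          rw [hrow i hi] at h5
          field_simp
          linear_combination h5
  · rintro ⟨h1, h2, h3⟩
    refine ⟨?_, ⟨eval y (pderiv i0 g) / c i0, div_ne_zero h2 hc, fun i => ?_⟩, ?_⟩
    · have := h1 i0
      rwa [rowL_self] at this
    · by_cases hi : i = i0
      · rw [hi]
        field_simp
      · have h4 := h1 i
        rw [rowL_ne c hi, map_sub, smul_eval, smul_eval] at h4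
        field_simp
        linear_combination h4
    · rintro u hu ⟨τ, hτ⟩
      by_contra hne
      apply h3
      refine Matrix.exists_mulVec_eq_zero_iff.1 ⟨u, hne, ?_⟩
      funext i
      change ∑ j, jac c i0 g y i j * u j = 0
      by_cases hi : i = i0
      · rw [hi, hrow0, hu]
      · rw [hrow i hi, hτ, hτ]
        ring

end Persist

open Persist

/-- Nondegenerate solutions persist. Proof: pick `i0` with `c i0 ≠ 0`, consider the square system
`Psi_g (y) = (g y, (∂_i g y * c i0 - ∂_{i0} g y * c i)_{i ≠ i0})`, whose derivative at `x` for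
`g = f` is injective; use `ApproximatesLinearOn` (uniform convergence of the derivatives on a small
ball) to get a zero `x'` of `Psi_{g s}` near `x`; the conditions `lam ≠ 0` and injectivity of the
Jacobian are open. -/
theorem persist {ι : Type} [Fintype ι] (N : ℕ) (f : MvPolynomial ι ℂ) (g : ℕ → MvPolynomial ι ℂ)
    (hN : ∀ s, (g s).totalDegree ≤ N)
    (hlim : ∀ d, Tendsto (fun s => coeff d (g s)) atTop (𝓝 (coeff d f)))
    (c x : ι → ℂ) (hc : c ≠ 0) (hx : IsCrit f c x) (U : Set (ι → ℂ)) (hU : U ∈ 𝓝 x) :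
    ∀ᶠ s in atTop, ∃ x' ∈ U, IsCrit (g s) c x' := by
  classical
  obtain ⟨i0, hi0⟩ : ∃ i0, c i0 ≠ 0 := by
    by_contra h
    push Not at h
    exact hc (funext h)
  rw [isCrit_iff c i0 hi0] at hx
  obtain ⟨hx1, hx2, hx3⟩ := hx
  have hgN : ∀ s d, N < Finsupp.degree d → coeff d (g s) = 0 := by
    intro s d hd
    apply coeff_eq_zero_of_totalDegree_lt
    refine lt_of_le_of_lt (hN s) (lt_of_lt_of_le hd ?_)
    rw [Finsupp.degree_apply]
  have hfN : ∀ d, N < Finsupp.degree d → coeff d f = 0 := by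
    intro d hd
    have h2 := hlim d
    simp only [hgN _ d hd] at h2
    exact (tendsto_nhds_unique h2 tendsto_const_nhds)
  set a0 : ex ι N → ℂ := fun d => coeff d.1 f with ha0
  have hpf : pol a0 = f := pol_coeff f hfN
  let Φ : (ex ι N → ℂ) × (ι → ℂ) → (ι → ℂ) := fun q i => eval q.2 (rowL c i0 i (pol q.1))
  have hΦ : ContDiff ℂ 1 Φ := contDiff_pi.2 fun i => contDiff_pol (rowL c i0 i)
  let F : (ex ι N → ℂ) × (ι → ℂ) → (ex ι N → ℂ) × (ι → ℂ) := fun q => (q.1, Φ q)
  have hΦs : HasStrictFDerivAt Φ (fderiv ℂ Φ (a0, x)) (a0, x) :=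
    hΦ.contDiffAt.hasStrictFDerivAt one_ne_zero
  have hF : HasStrictFDerivAt F ((ContinuousLinearMap.fst ℂ _ _).prod (fderiv ℂ Φ (a0, x)))
      (a0, x) := hasStrictFDerivAt_fst.prodMk hΦs
  have hpart : ∀ v : ι → ℂ, fderiv ℂ Φ (a0, x) (0, v) = (jac c i0 f x).mulVec v := by
    intro v
    have h1 : HasFDerivAt (fun y : ι → ℂ => Φ (a0, y))
        ((fderiv ℂ Φ (a0, x)).comp ((0 : (ι → ℂ) →L[ℂ] (ex ι N → ℂ)).prod
          (ContinuousLinearMap.id ℂ (ι → ℂ)))) x := by
      have h2 : HasFDerivAt (fun y : ι → ℂ => ((a0, y) : (ex ι N → ℂ) × (ι → ℂ)))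
          ((0 : (ι → ℂ) →L[ℂ] (ex ι N → ℂ)).prod (ContinuousLinearMap.id ℂ (ι → ℂ))) x :=
        (hasFDerivAt_const a0 x).prodMk (hasFDerivAt_id x)
      exact hΦs.hasFDerivAt.comp x h2
    have h3 : HasFDerivAt (fun y : ι → ℂ => Φ (a0, y))
        (ContinuousLinearMap.pi fun i => dlin (rowL c i0 i f) x) x := by
      rw [hasFDerivAt_pi]
      intro i
      simp only [Φ, hpf]
      exact hasFDerivAt_eval _ _
    have h4 := h1.unique h3
    have h5 := congrArg (fun L : (ι → ℂ) →L[ℂ] (ι → ℂ) => L v) h4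
    funext i
    have h6 := congrFun h5 i
    simp only [ContinuousLinearMap.pi_apply, dlin_apply] at h6
    exact h6
  have hsurj : ((ContinuousLinearMap.fst ℂ (ex ι N → ℂ) (ι → ℂ)).prod
      (fderiv ℂ Φ (a0, x))).range = ⊤ := by
    rw [LinearMap.range_eq_top]
    rintro ⟨a, z⟩
    obtain ⟨v, hv⟩ : ∃ v, (jac c i0 f x).mulVec v = z - fderiv ℂ Φ (a0, x) (a, 0) := by
      refine ⟨(jac c i0 f x)⁻¹.mulVec (z - fderiv ℂ Φ (a0, x) (a, 0)), ?_⟩
      rw [Matrix.mulVec_mulVec, Matrix.mul_nonsing_inv _ (isUnit_iff_ne_zero.2 hx3),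
        Matrix.one_mulVec]
    refine ⟨(a, v), ?_⟩
    have h1 : ((a, v) : (ex ι N → ℂ) × (ι → ℂ)) = (a, 0) + (0, v) := by simp
    have h2 : fderiv ℂ Φ (a0, x) (a, v) = z := by
      rw [h1, map_add, hpart, hv]
      abel
    exact Prod.ext rfl h2
  have hopen := hF.map_nhds_eq_of_surj hsurj
  have hF0 : F (a0, x) = (a0, 0) := by
    refine Prod.ext rfl ?_
    funext i
    simp only [F, Φ, hpf]
    exact hx1 i
  rw [hF0] at hopen
  -- the open conditions
  have hcont : ∀ L : MvPolynomial ι ℂ →ₗ[ℂ] MvPolynomial ι ℂ,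
      Continuous (fun q : (ex ι N → ℂ) × (ι → ℂ) => eval q.2 (L (pol q.1))) :=
    fun L => (contDiff_pol L).continuous
  have hW1 : ∀ᶠ q : (ex ι N → ℂ) × (ι → ℂ) in 𝓝 (a0, x), eval q.2 (pderiv i0 (pol q.1)) ≠ 0 := by
    have h1 := (hcont ((pderiv i0 : Derivation ℂ (MvPolynomial ι ℂ) (MvPolynomial ι ℂ)) :
      MvPolynomial ι ℂ →ₗ[ℂ] MvPolynomial ι ℂ)).continuousAt (x := (a0, x))
    refine h1.eventually_ne ?_
    simp only [hpf]
    exact hx2
  have hW2 : ∀ᶠ q : (ex ι N → ℂ) × (ι → ℂ) in 𝓝 (a0, x), (jac c i0 (pol q.1) q.2).det ≠ 0 := by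
    have h1 : Continuous (fun q : (ex ι N → ℂ) × (ι → ℂ) => (jac c i0 (pol q.1) q.2)) := by
      refine continuous_matrix fun i j => ?_
      exact hcont (((pderiv j : Derivation ℂ (MvPolynomial ι ℂ) (MvPolynomial ι ℂ)) :
        MvPolynomial ι ℂ →ₗ[ℂ] MvPolynomial ι ℂ) ∘ₗ rowL c i0 i)
    have h2 := (h1.matrix_det).continuousAt (x := (a0, x))
    refine h2.eventually_ne ?_
    simp only [hpf]
    exact hx3
  have hW3 : ∀ᶠ q : (ex ι N → ℂ) × (ι → ℂ) in 𝓝 (a0, x), q.2 ∈ U :=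
    (continuous_snd.tendsto (a0, x)).eventually hU
  have hW := (hW1.and (hW2.and hW3))
  have himg : F '' {q | eval q.2 (pderiv i0 (pol q.1)) ≠ 0 ∧ (jac c i0 (pol q.1) q.2).det ≠ 0 ∧
      q.2 ∈ U} ∈ 𝓝 (a0, (0 : ι → ℂ)) := by
    rw [← hopen]
    exact image_mem_map hW
  have hseq : Tendsto (fun s => ((fun d : ex ι N => coeff d.1 (g s), (0 : ι → ℂ)) :
      (ex ι N → ℂ) × (ι → ℂ))) atTop (𝓝 (a0, 0)) := by
    refine Tendsto.prodMk_nhds ?_ tendsto_const_nhds
    exact tendsto_pi_nhds.2 fun d => hlim d.1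
  filter_upwards [hseq.eventually himg] with s hs
  obtain ⟨⟨a, y⟩, ⟨h1, h2, h3⟩, h4⟩ := hs
  have h5 : a = fun d : ex ι N => coeff d.1 (g s) := congrArg Prod.fst h4
  have h6 : Φ (a, y) = 0 := congrArg Prod.snd h4
  have h7 : pol a = g s := by rw [h5]; exact pol_coeff (g s) (hgN s)
  simp only [h7] at h1 h2
  refine ⟨y, h3, ?_⟩
  rw [isCrit_iff c i0 hi0]
  refine ⟨fun i => ?_, h1, h2⟩
  have h8 := congrFun h6 i
  simp only [Φ, h7] at h8
  exact h8

theorem persist_many {ι κ : Type} [Fintype ι] [Fintype κ] (N : ℕ) (f : MvPolynomial ι ℂ)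
    (g : ℕ → MvPolynomial ι ℂ) (hN : ∀ s, (g s).totalDegree ≤ N)
    (hlim : ∀ d, Tendsto (fun s => coeff d (g s)) atTop (𝓝 (coeff d f)))
    (c : ι → ℂ) (hc : c ≠ 0) (x : κ → ι → ℂ) (hinj : Function.Injective x)
    (hx : ∀ j, IsCrit f c (x j)) :
    ∀ᶠ s in atTop, ∃ x' : κ → ι → ℂ, Function.Injective x' ∧ ∀ j, IsCrit (g s) c (x' j) := by
  obtain ⟨U, hU, hdis⟩ := (Set.finite_range x).t2_separation
  have h1 : ∀ j, ∀ᶠ s in atTop, ∃ x' ∈ U (x j), IsCrit (g s) c x' := fun j =>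
    persist N f g hN hlim c (x j) hc (hx j) (U (x j)) ((hU (x j)).2.mem_nhds (hU (x j)).1)
  filter_upwards [eventually_all.2 h1] with s hs
  choose x' hx'U hx' using hs
  refine ⟨x', ?_, hx'⟩
  intro j j' hjj
  by_contra hne
  have h2 := hdis ⟨j, rfl⟩ ⟨j', rfl⟩ (fun h => hne (hinj h))
  exact Set.disjoint_left.1 h2 (hx'U j) (hjj ▸ hx'U j')

end Pool.Agent.Work.MP_35c45d_lc.SQ
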