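import Mathlib
import Pool.Agent.Work.MP_35c45d_lc.CM3
import Pool.Agent.Work.MP_35c45d_lc.SQPersist

/-! The number of nondegenerate critical points of a polynomial of multiplicative complexity `L`. -/

set_option autoImplicit false
set_option linter.unusedSectionVars false

namespace Pool.Agent.Work.MP_35c45d_lc.CM

open MvPolynomial Filter Topology Pool.Agent.Work.MP_35c45d_lc.SQ
  Pool.Agent.Work.MP_35c45d_lc.SQ.PsiAux Pool.Agent.DcBez

/-- Bezout for systems of quadrics (with a slightly weaker constant) -/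
theorem quad_bezout {σ κ : Type} [Fintype σ] [Fintype κ] (psi : σ → MvPolynomial σ ℂ)
    (hdeg : ∀ i, MDeg (fun _ : σ => ()) (fun _ => 2) (psi i))
    (p : κ → σ → ℂ) (hp : Function.Injective p) (hz : ∀ j i, eval (p j) (psi i) = 0)
    (hJ : ∀ j, ∀ v : σ → ℂ, (∀ i, dd (p j) v (psi i) = 0) → v = 0) :
    Fintype.card κ ≤ 3 ^ Fintype.card σ := by
  classical
  have hsurj : ∀ j, ∀ y : σ → ℂ, ∃ v : σ → ℂ, ∀ i,
      ∑ l, v l * eval (p j) (pderiv l (psi i)) = y i := by
    intro j y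
    obtain ⟨v, hv⟩ := Pool.DualDC.surj_of_inj rfl (fun i l => eval (p j) (pderiv l (psi i)))
      (fun v hv => hJ j v hv) y
    exact ⟨v, fun i => congrFun hv i⟩
  have h := count (gr := fun _ : σ => ()) psi (fun _ => ()) (fun _ _ => 2) hdeg p hp hz hsurj
    (fun _ => Fintype.card κ)
  have hg : gcard (fun _ : σ => ()) () = Fintype.card σ := by
    unfold gcard
    rw [Fintype.card_subtype]
    simp
  simp only [Fintype.univ_punit, Finset.prod_singleton, Finset.sum_singleton] at h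
  have hg' : gcard (fun _ : σ => ()) PUnit.unit = Fintype.card σ := hg
  simp only [hg'] at h
  set K := Fintype.card κ
  set n := Fintype.card σ
  have h2 : (K * 2 + K + n).choose n ≤ 3 ^ n * (K + n).choose n := by
    clear h hg hg'
    clear_value K n
    induction n with
    | zero => simp
    | succ n ih =>
      have e1 := Nat.add_one_mul_choose_eq (K * 2 + K + n) n
      have e2 := Nat.add_one_mul_choose_eq (K + n) n
      have e3 : (K * 2 + K + n + 1) ≤ 3 * (K + n + 1) := by omega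
      have h3 : (K * 2 + K + (n + 1)).choose (n + 1) * (n + 1) ≤
          3 ^ (n + 1) * (K + (n + 1)).choose (n + 1) * (n + 1) := by
        calc (K * 2 + K + (n + 1)).choose (n + 1) * (n + 1)
            = (K * 2 + K + n + 1) * (K * 2 + K + n).choose n := by rw [e1]; rfl
          _ ≤ 3 * (K + n + 1) * (3 ^ n * (K + n).choose n) := Nat.mul_le_mul e3 ih
          _ = 3 ^ (n + 1) * ((K + n + 1) * (K + n).choose n) := by ring
          _ = 3 ^ (n + 1) * (K + (n + 1)).choose (n + 1) * (n + 1) := by rw [e2]; ring_nf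
      exact Nat.le_of_mul_le_mul_right h3 (Nat.succ_pos n)
  have h3 : 0 < (K + n).choose n := Nat.choose_pos (by omega)
  exact Nat.le_of_mul_le_mul_right (h.trans h2) h3

section degree

variable {ι : Type} [Fintype ι] [DecidableEq ι] {L : ℕ}

theorem mdeg_aff {σ : Type} [Fintype σ] [DecidableEq σ] (xs : ι → MvPolynomial σ ℂ)
    (ys : Fin L → MvPolynomial σ ℂ)
    (hx : ∀ i, MDeg (fun _ : σ => ()) (fun _ => 1) (xs i))
    (hy : ∀ i, MDeg (fun _ : σ => ()) (fun _ => 1) (ys i)) (a0 : ℂ) (a : ι → ℂ) (al : Fin L → ℂ) :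
    MDeg (fun _ : σ => ()) (fun _ => 1) (Dat.aff xs ys a0 a al) := by
  unfold Dat.aff
  refine (MDeg.add (MDeg.C _) (MDeg.sum fun i _ => ?_)).add (MDeg.sum fun j _ => ?_)
  · exact ((MDeg.C (D := fun _ => 0) _).mul (hx i)).mono fun G => by simp
  · exact ((MDeg.C (D := fun _ => 0) _).mul (hy j)).mono fun G => by simp

theorem mdeg_sys (d : Dat ι L) (c : ι → ℂ) (e : LV ι L) :
    MDeg (fun _ : LV ι L => ()) (fun _ => 2) (d.sys c e) := by
  have hU : ∀ k, MDeg (fun _ : LV ι L => ()) (fun _ => 1) (d.UP k) := fun k =>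
    mdeg_aff _ _ (fun i => MDeg.X _) (fun j => MDeg.X _) _ _ _
  have hV : ∀ k, MDeg (fun _ : LV ι L => ()) (fun _ => 1) (d.VP k) := fun k =>
    mdeg_aff _ _ (fun i => MDeg.X _) (fun j => MDeg.X _) _ _ _
  have hX2 : ∀ l : LV ι L, MDeg (fun _ : LV ι L => ()) (fun _ => 2)
      (X l : MvPolynomial (LV ι L) ℂ) := fun l => (MDeg.X l).mono fun G => by norm_num
  have hq : ∀ (a b : ℂ) (k : Fin L) (l : LV ι L), MDeg (fun _ : LV ι L => ()) (fun _ => 2)
      (X l * (C a * d.VP k + C b * d.UP k)) := by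
    intro a b k l
    refine ((MDeg.X l).mul (((MDeg.C (D := fun _ => 0) a).mul (hV k)).add
      ((MDeg.C (D := fun _ => 0) b).mul (hU k)))).mono fun G => by norm_num
  rcases e with i | u | k | j
  · simp only [Dat.sys]
    refine ((MDeg.C _).add (MDeg.sum fun k _ => hq _ _ k _)).sub ?_
    exact ((MDeg.C (D := fun _ => 0) _).mul (hX2 _)).mono fun G => by norm_num
  · simp only [Dat.sys]
    exact (mdeg_aff _ _ (fun i => MDeg.X _) (fun j => MDeg.X _) _ _ _).mono fun G => by norm_num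
  · simp only [Dat.sys]
    exact ((hU k).mul (hV k)).sub (hX2 _)
  · simp only [Dat.sys]
    exact ((MDeg.C _).add (MDeg.sum fun k _ => hq _ _ k _)).sub (hX2 _)

end degree

/-- **Bezout bound for circuits**: a polynomial computed with `L` multiplications has at most
`3 ^ (N + 1 + 2 L)` nondegenerate critical points in a given direction. -/
theorem mulLE_crit {ι κ : Type} [Fintype ι] [Fintype κ] {L : ℕ} {f : MvPolynomial ι ℂ}
    (hf : MulLE L f) (c : ι → ℂ) (hc : c ≠ 0) (x : κ → ι → ℂ) (hinj : Function.Injective x)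
    (hx : ∀ j, IsCrit f c (x j)) :
    Fintype.card κ ≤ 3 ^ (Fintype.card ι + 1 + 2 * L) := by
  classical
  obtain ⟨g, hg, hfg⟩ := hf
  have h1 : ∀ k : Fin L, ∃ (a0 : ℂ) (a : ι → ℂ) (al : Fin L → ℂ) (b0 : ℂ) (b : ι → ℂ)
      (be : Fin L → ℂ), (∀ j : Fin L, k ≤ j → al j = 0) ∧ (∀ j : Fin L, k ≤ j → be j = 0) ∧
      g k = Dat.aff X g a0 a al * Dat.aff X g b0 b be := by
    intro k
    obtain ⟨p, hp, q, hq, hpq⟩ := hg k
    obtain ⟨a0, a, al, hal, rfl⟩ := mem_affSpan hp
    obtain ⟨b0, b, be, hbe, rfl⟩ := mem_affSpan hq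
    exact ⟨a0, a, al, b0, b, be, fun j hj => hal j hj, fun j hj => hbe j hj, hpq⟩
  choose a0 a al b0 b be hal hbe hgk using h1
  obtain ⟨w0, w, W, -, hfw⟩ := mem_affSpan hfg
  let d : Dat ι L := ⟨a0, a, al, hal, b0, b, be, hbe, w0, w, W⟩
  let S : Comp d f := ⟨g, hgk, hfw⟩
  have h2 : ∀ j, ∃ t : ℂ, ∀ i, eval (x j) (pderiv i f) = t * c i := by
    intro j
    obtain ⟨-, ⟨t, -, ht⟩, -⟩ := hx j
    exact ⟨t, ht⟩
  choose t ht using h2
  have h3 := quad_bezout (d.sys c) (mdeg_sys d c) (fun j => S.lift (x j) (t j)) ?_ ?_ ?_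
  · refine h3.trans (le_of_eq ?_)
    congr 1
    simp only [LV, Fintype.card_sum, Fintype.card_unit, Fintype.card_fin]
    ring
  · intro j j' hjj
    refine hinj (funext fun i => ?_)
    exact congrFun hjj (Sum.inl i)
  · intro j e
    exact S.eval_sys c (x j) (t j) (hx j).1 (ht j) e
  · intro j v hv
    exact S.ker_sys c (x j) (t j) hc (hx j).2.2 v hv

/-- `f` is a coefficientwise limit of polynomials computed with at most `L` multiplications. -/
def BorderMulLE (L : ℕ) {ι : Type} (f : MvPolynomial ι ℂ) : Prop :=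
  ∃ g : ℕ → MvPolynomial ι ℂ, (∀ s, MulLE L (g s)) ∧
    ∀ d, Tendsto (fun s => coeff d (g s)) atTop (𝓝 (coeff d f))

theorem borderMulLE_crit {ι κ : Type} [Fintype ι] [Fintype κ] {L : ℕ} {f : MvPolynomial ι ℂ}
    (hf : BorderMulLE L f) (c : ι → ℂ) (hc : c ≠ 0) (x : κ → ι → ℂ) (hinj : Function.Injective x)
    (hx : ∀ j, IsCrit f c (x j)) :
    Fintype.card κ ≤ 3 ^ (Fintype.card ι + 1 + 2 * L) := by
  obtain ⟨g, hg, hlim⟩ := hf
  obtain ⟨s, x', h1, h2⟩ :=
    (persist_many (2 ^ L) f g (fun s => (hg s).totalDegree) hlim c hc x hinj hx).exists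
  exact mulLE_crit (hg s) c hc x' h1 h2

end Pool.Agent.Work.MP_35c45d_lc.CM
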