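import Mathlib
import Pool.Agent.Work.MP_35c45d_lc.SQDefs
import Pool.Agent.Work.MP_35c45d_lc.BorderLimit

/-! Closure properties of border determinantal expressions. -/

set_option autoImplicit false

namespace Pool.Agent.Work.MP_35c45d_lc.SQ

open MvPolynomial Filter Topology

section linear

variable {ι : Type} [Fintype ι]

theorem exists_expset (N : ℕ) : ∃ T : Finset (ι →₀ ℕ), ∀ g : MvPolynomial ι ℂ,
    g.totalDegree ≤ N → g.support ⊆ T := by
  classical
  obtain ⟨T, hT⟩ : ∃ T : Finset (ι →₀ ℕ), ∀ d, d ∈ T ↔ Finsupp.degree d ≤ N := by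
    refine ⟨(Finsupp.finite_of_degree_le (σ := ι) N).toFinset, fun d => ?_⟩
    simp
  refine ⟨T, fun g hg d hd => ?_⟩
  rw [hT]
  have := MvPolynomial.le_totalDegree hd
  rw [Finsupp.degree_eq_sum]
  rw [Finsupp.sum_fintype _ _ (by simp)] at this
  exact this.trans hg

theorem support_limit_subset (T : Finset (ι →₀ ℕ)) (g : ℕ → MvPolynomial ι ℂ)
    (f : MvPolynomial ι ℂ) (hg : ∀ s, (g s).support ⊆ T)
    (hlim : ∀ d, Tendsto (fun s => coeff d (g s)) atTop (𝓝 (coeff d f))) :
    f.support ⊆ T := by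
  intro d hd
  by_contra hdT
  have h1 : ∀ s, coeff d (g s) = 0 := by
    intro s
    by_contra h
    exact hdT (hg s (mem_support_iff.mpr h))
  have h2 := hlim d
  simp only [h1] at h2
  have h3 := tendsto_nhds_unique h2 tendsto_const_nhds
  exact (mem_support_iff.mp hd) h3

omit [Fintype ι] in
theorem linear_expand (T : Finset (ι →₀ ℕ)) (L : MvPolynomial ι ℂ →ₗ[ℂ] ℂ)
    (g : MvPolynomial ι ℂ) (hg : g.support ⊆ T) :
    L g = ∑ d ∈ T, coeff d g * L (monomial d 1) := by
  classical
  have h1 : g = ∑ d ∈ T, (coeff d g) • (monomial d (1 : ℂ)) := by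
    conv_lhs => rw [g.as_sum]
    rw [Finset.sum_subset hg (fun d _ hd => by
      rw [notMem_support_iff.mp hd, monomial_zero])]
    refine Finset.sum_congr rfl fun d _ => ?_
    rw [smul_monomial, smul_eq_mul, mul_one]
  conv_lhs => rw [h1]
  rw [map_sum]
  refine Finset.sum_congr rfl fun d _ => ?_
  rw [map_smul, smul_eq_mul]

/-- Every linear functional is continuous along coefficientwise limits of bounded degree. -/
theorem tendsto_linear (N : ℕ) (g : ℕ → MvPolynomial ι ℂ) (f : MvPolynomial ι ℂ)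
    (hN : ∀ s, (g s).totalDegree ≤ N)
    (hlim : ∀ d, Tendsto (fun s => coeff d (g s)) atTop (𝓝 (coeff d f)))
    (L : MvPolynomial ι ℂ →ₗ[ℂ] ℂ) :
    Tendsto (fun s => L (g s)) atTop (𝓝 (L f)) := by
  obtain ⟨T, hT⟩ := exists_expset (ι := ι) N
  have hg : ∀ s, (g s).support ⊆ T := fun s => hT _ (hN s)
  have hf := support_limit_subset T g f hg hlim
  rw [linear_expand T L f hf]
  simp only [fun s => linear_expand T L (g s) (hg s)]
  exact tendsto_finsetSum _ fun d _ => (hlim d).mul_const _

/-- substitution of affine forms in an affine form -/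
theorem totalDegree_aeval_le {κ : Type} (p : MvPolynomial ι ℂ) (hp : p.totalDegree ≤ 1)
    (φ : ι → MvPolynomial κ ℂ) (hφ : ∀ i, (φ i).totalDegree ≤ 1) :
    (aeval φ p).totalDegree ≤ 1 := by
  classical
  rw [Border.eq_of_deg_le_one p hp, map_add, map_sum]
  refine (totalDegree_add _ _).trans (max_le ?_ ?_)
  · rw [aeval_C, algebraMap_eq, totalDegree_C]
    exact Nat.zero_le _
  · refine totalDegree_finsetSum_le fun t _ => ?_
    rw [map_mul, aeval_C, aeval_X, algebraMap_eq]
    refine (totalDegree_mul _ _).trans ?_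
    rw [totalDegree_C, zero_add]
    exact hφ t

theorem totalDegree_smul_det_le {κ : Type} {n : ℕ} (A : Matrix (Fin n) (Fin n) (MvPolynomial κ ℂ))
    (hA : ∀ i j, (A i j).totalDegree ≤ 1) (γ : ℂ) : (C γ * A.det).totalDegree ≤ n := by
  refine (totalDegree_mul _ _).trans ?_
  rw [totalDegree_C, zero_add]
  exact Border.totalDegree_det_le A hA

theorem BorderDet.subst {κ : Type} {n : ℕ} {f : MvPolynomial ι ℂ} (hf : BorderDet n f)
    (φ : ι → MvPolynomial κ ℂ) (hφ : ∀ i, (φ i).totalDegree ≤ 1) :
    BorderDet n (aeval φ f) := by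
  classical
  obtain ⟨A, γ, hA, hlim⟩ := hf
  refine ⟨fun s => (A s).map (aeval φ), γ, fun s i j => ?_, fun d => ?_⟩
  · exact totalDegree_aeval_le _ (hA s i j) φ hφ
  · have h1 : ∀ s, C (γ s) * ((A s).map (aeval φ)).det = aeval φ (C (γ s) * (A s).det) := by
      intro s
      rw [map_mul, aeval_C, algebraMap_eq, AlgHom.map_det]
      rfl
    simp only [h1]
    exact tendsto_linear n _ f (fun s => totalDegree_smul_det_le _ (hA s) _) hlim
      ((lcoeff ℂ d).comp (aeval φ).toLinearMap)

omit [Fintype ι] in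
theorem BorderDet.smul {n : ℕ} {f : MvPolynomial ι ℂ} (hf : BorderDet n f) (c : ℂ) :
    BorderDet n (C c * f) := by
  obtain ⟨A, γ, hA, hlim⟩ := hf
  refine ⟨A, fun s => c * γ s, hA, fun d => ?_⟩
  have h1 : ∀ s, coeff d (C (c * γ s) * (A s).det) = c * coeff d (C (γ s) * (A s).det) := by
    intro s
    rw [C_mul, mul_assoc, coeff_C_mul]
  simp only [h1]
  rw [coeff_C_mul]
  exact (hlim d).const_mul c

theorem BorderDet.limit {n : ℕ} {f : ℕ → MvPolynomial ι ℂ} {g : MvPolynomial ι ℂ}
    (hf : ∀ t, BorderDet n (f t))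
    (hlim : ∀ d, Tendsto (fun s => coeff d (f s)) atTop (𝓝 (coeff d g))) :
    BorderDet n g := by
  classical
  choose A γ hA hl using hf
  obtain ⟨T, hT⟩ := exists_expset (ι := ι) n
  have hsupp : ∀ t s, (C (γ t s) * (A t s).det).support ⊆ T := fun t s =>
    hT _ (totalDegree_smul_det_le _ (hA t s) _)
  have hex : ∀ t, ∃ s, ∀ d ∈ T,
      dist (coeff d (C (γ t s) * (A t s).det)) (coeff d (f t)) < 1 / ((t : ℝ) + 1) := by
    intro t
    have h1 : ∀ᶠ s in atTop, ∀ d ∈ T,
        dist (coeff d (C (γ t s) * (A t s).det)) (coeff d (f t)) < 1 / ((t : ℝ) + 1) := by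
      rw [Filter.eventually_all_finset]
      intro d _
      exact (Metric.tendsto_nhds.mp (hl t d)) _ (by positivity)
    exact h1.exists
  choose s hs using hex
  refine ⟨fun t => A t (s t), fun t => γ t (s t), fun t => hA t (s t), fun d => ?_⟩
  by_cases hd : d ∈ T
  · have h0 : Tendsto (fun t : ℕ => 1 / ((t : ℝ) + 1)) atTop (𝓝 0) :=
      tendsto_one_div_add_atTop_nhds_zero_nat
    have h2 : Tendsto (fun t => coeff d (C (γ t (s t)) * (A t (s t)).det) - coeff d (f t)) atTop
        (𝓝 0) := by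
      rw [tendsto_zero_iff_norm_tendsto_zero]
      refine squeeze_zero (fun t => norm_nonneg _) (fun t => ?_) h0
      rw [← dist_eq_norm]
      exact (hs t d hd).le
    have h3 := h2.add (hlim d)
    simpa using h3
  · have h1 : ∀ t, coeff d (C (γ t (s t)) * (A t (s t)).det) = 0 := by
      intro t
      by_contra h
      exact hd (hsupp t (s t) (mem_support_iff.mpr h))
    have h2 : ∀ t, coeff d (f t) = 0 := by
      intro t
      have := hl t d
      have h3 : ∀ s', coeff d (C (γ t s') * (A t s').det) = 0 := by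
        intro s'
        by_contra h
        exact hd (hsupp t s' (mem_support_iff.mpr h))
      simp only [h3] at this
      exact (tendsto_nhds_unique this tendsto_const_nhds)
    have h3 : coeff d g = 0 := by
      have := hlim d
      simp only [h2] at this
      exact (tendsto_nhds_unique this tendsto_const_nhds)
    simp only [h1, h3]
    exact tendsto_const_nhds

end linear

end Pool.Agent.Work.MP_35c45d_lc.SQ
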