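import Mathlib
import Pool.Agent.Work.MP_35c45d_lc.CM4
import Pool.Agent.Work.MP_35c45d_lc.SQBorder

/-! Border multiplicative complexity: substitutions; straight-line programs. -/

set_option autoImplicit false
set_option linter.unusedSectionVars false

namespace Pool.Agent.Work.MP_35c45d_lc.CM

open MvPolynomial Filter Topology Pool.Agent.Work.MP_35c45d_lc.SQ
  Pool.Agent.Work.MP_35c45d_lc.SQ.PsiAux

theorem mem_span_of_deg {κ : Type} [Fintype κ] {p : MvPolynomial κ ℂ} (h : p.totalDegree ≤ 1) :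
    p ∈ Submodule.span ℂ ({1} ∪ Set.range X : Set (MvPolynomial κ ℂ)) := by
  classical
  rw [affine_eq p h]
  refine Submodule.add_mem _ ?_ (Submodule.sum_mem _ fun i _ => ?_)
  · have h1 : (C (coeff 0 p) : MvPolynomial κ ℂ) = (coeff 0 p) • (1 : MvPolynomial κ ℂ) := by
      rw [smul_eq_C_mul, mul_one]
    rw [h1]
    exact Submodule.smul_mem _ _ (Submodule.subset_span (Or.inl rfl))
  · rw [← smul_eq_C_mul]
    exact Submodule.smul_mem _ _ (Submodule.subset_span (Or.inr ⟨i, rfl⟩))

theorem BorderMulLE.subst {L : ℕ} {ι κ : Type} [Fintype ι] [Fintype κ] {f : MvPolynomial ι ℂ}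
    (hf : BorderMulLE L f) (φ : ι → MvPolynomial κ ℂ) (hφ : ∀ i, (φ i).totalDegree ≤ 1) :
    BorderMulLE L (aeval φ f) := by
  classical
  obtain ⟨g, hg, hlim⟩ := hf
  refine ⟨fun s => aeval φ (g s), fun s => (hg s).subst φ fun i => mem_span_of_deg (hφ i),
    fun d => ?_⟩
  exact tendsto_linear (2 ^ L) g f (fun s => (hg s).totalDegree) hlim
    ((lcoeff ℂ d).comp (aeval φ).toLinearMap)

theorem BorderMulLE.smul {L : ℕ} {ι : Type} {f : MvPolynomial ι ℂ}
    (hf : BorderMulLE L f) (c : ℂ) : BorderMulLE L (C c * f) := by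
  obtain ⟨g, hg, hlim⟩ := hf
  refine ⟨fun s => C c * g s, fun s => (hg s).smul c, fun d => ?_⟩
  simp only [coeff_C_mul]
  exact (hlim d).const_mul c

/-- A straight-line program (arithmetic circuit) with gates: variables, constants, sums, scalar
multiples and products; the set `M` contains the product gates. Every gate has multiplicative
complexity at most the number of product gates. -/
theorem mulLE_of_slp {s : ℕ} {ι : Type} (p : Fin s → MvPolynomial ι ℂ) (M : Finset (Fin s))
    (h1 : ∀ i ∉ M, (∃ j, p i = X j) ∨ (∃ a, p i = C a) ∨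
      (∃ a b : Fin s, a < i ∧ b < i ∧ p i = p a + p b) ∨
      (∃ (c : ℂ) (a : Fin s), a < i ∧ p i = C c * p a))
    (h2 : ∀ i ∈ M, ∃ a b : Fin s, a < i ∧ b < i ∧ p i = p a * p b) (i : Fin s) :
    MulLE M.card (p i) := by
  classical
  -- enumerate the product gates in increasing order
  let e : Fin M.card ≃o M := M.orderIsoOfFin rfl
  let g : Fin M.card → MvPolynomial ι ℂ := fun k => p (e k)
  -- number of product gates before `i`
  have key : ∀ n : ℕ, ∀ i : Fin s, (i : ℕ) < n → ∀ k : ℕ,
      (∀ j : Fin M.card, (e j : Fin s) ≤ i → (j : ℕ) < k) → p i ∈ affSpan g k := by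
    intro n
    induction n with
    | zero => intro i hi; omega
    | succ n ih =>
      intro i hi k hk
      by_cases hM : i ∈ M
      · have h3 : p i = g (e.symm ⟨i, hM⟩) := by simp [g]
        rw [h3]
        exact gate_mem g _ (hk _ (by simp))
      · have hsub : ∀ a : Fin s, a < i → p a ∈ affSpan g k := fun a ha =>
          ih a (by have := Fin.lt_def.1 ha; omega) k fun j hj => hk j (hj.trans ha.le)
        rcases h1 i hM with ⟨j, h⟩ | ⟨a, h⟩ | ⟨a, b, ha, hb, h⟩ | ⟨c, a, ha, h⟩
        · rw [h]; exact X_mem _ _ _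
        · rw [h]; exact C_mem _ _ _
        · rw [h]; exact Submodule.add_mem _ (hsub a ha) (hsub b hb)
        · rw [h, ← smul_eq_C_mul]; exact Submodule.smul_mem _ _ (hsub a ha)
  refine ⟨g, fun k => ?_, key s i i.2 _ fun j _ => j.2⟩
  obtain ⟨a, b, ha, hb, h⟩ := h2 (e k) (e k).2
  have h4 : ∀ a : Fin s, a < e k → p a ∈ affSpan g k := fun a ha =>
    key s a a.2 k fun j hj => by
      have h5 : e j < e k := by
        rw [← Subtype.coe_lt_coe]
        exact lt_of_le_of_lt hj ha
      have h6 := e.lt_iff_lt.1 h5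
      exact h6
  exact ⟨p a, h4 a ha, p b, h4 b hb, h⟩

end Pool.Agent.Work.MP_35c45d_lc.CM
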