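import Mathlib

/-! Numerics for the bound `m ^ (3 - ε)`. -/

set_option autoImplicit false

namespace Pool.Agent.Work.MP_35c45d_lc.SQ

open Finset

theorem num_fact (q : ℕ) : ((q : ℝ) / Real.exp 1) ^ q ≤ (q.factorial : ℝ) := by
  have h := Real.pow_div_factorial_le_exp (q : ℝ) (Nat.cast_nonneg q) q
  rw [div_le_iff₀ (by positivity)] at h
  rw [div_pow, ← Real.exp_nat_mul, mul_one, div_le_iff₀ (Real.exp_pos _)]
  linarith

/-- from the number of critical points to the size of the determinant -/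
theorem num_count (q a n : ℕ) (hq : 1 ≤ q) (ha : 1 ≤ a)
    (h : ((q.factorial ^ a : ℕ) : ℝ) ≤
      (4 * Real.exp 1 * (n : ℝ) / ((a * q + 1 : ℕ) : ℝ)) ^ (a * q + 1)) :
    ((a * q + 1 : ℕ) : ℝ) * q ≤ 8 * Real.exp 1 ^ 2 * n := by
  set N : ℕ := a * q + 1 with hN
  have hNpos : (0 : ℝ) < (N : ℝ) := by positivity
  have he : (1 : ℝ) ≤ Real.exp 1 := Real.one_le_exp (by norm_num)
  have hepos : (0 : ℝ) < Real.exp 1 := Real.exp_pos 1
  have hqN : q ≤ N := by rw [hN]; nlinarith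
  set x : ℝ := 4 * Real.exp 1 * (n : ℝ) / (N : ℝ) with hx
  have hx0 : 0 ≤ x := by positivity
  have h1 : ((q : ℝ) / Real.exp 1) ^ (a * q) ≤ x ^ N := by
    refine le_trans ?_ h
    rw [mul_comm a q, pow_mul]
    push_cast
    exact pow_le_pow_left₀ (by positivity) (num_fact q) a
  have h2 : (q : ℝ) / Real.exp 1 ≤ 2 ^ N := by
    calc (q : ℝ) / Real.exp 1 ≤ q := div_le_self (Nat.cast_nonneg q) he
      _ ≤ (N : ℝ) := by exact_mod_cast hqN
      _ ≤ 2 ^ N := by exact_mod_cast (Nat.lt_two_pow_self (n := N)).le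
  have h3 : ((q : ℝ) / Real.exp 1) ^ N ≤ (2 * x) ^ N := by
    rw [mul_pow]
    calc ((q : ℝ) / Real.exp 1) ^ N = ((q : ℝ) / Real.exp 1) * ((q : ℝ) / Real.exp 1) ^ (a * q) := by
          rw [hN, pow_succ]; ring
      _ ≤ 2 ^ N * x ^ N := mul_le_mul h2 h1 (by positivity) (by positivity)
  have h4 : (q : ℝ) / Real.exp 1 ≤ 2 * x :=
    le_of_pow_le_pow_left₀ (by rw [hN]; omega) (by positivity) h3
  rw [hx, div_le_iff₀ hepos] at h4
  have h5 : 2 * (4 * Real.exp 1 * (n : ℝ) / (N : ℝ)) * Real.exp 1 =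
      8 * Real.exp 1 ^ 2 * n / N := by ring
  rw [h5, le_div_iff₀ hNpos] at h4
  linarith

theorem num_geom {D s : ℕ} (h : D < s) (k : ℕ) :
    ∑ i ∈ range k, D ^ i * s ^ (k - 1 - i) + D ^ k ≤ s ^ k := by
  induction k with
  | zero => simp
  | succ k ih =>
    have h1 : ∑ i ∈ range (k + 1), D ^ i * s ^ (k + 1 - 1 - i) =
        s * ∑ i ∈ range k, D ^ i * s ^ (k - 1 - i) + D ^ k := by
      rw [sum_range_succ, mul_sum]
      congr 1
      · refine sum_congr rfl fun i hi => ?_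
        have hi' := mem_range.1 hi
        have h2 : k + 1 - 1 - i = (k - 1 - i) + 1 := by omega
        rw [h2, pow_succ]
        ring
      · simp
    rw [h1]
    calc s * ∑ i ∈ range k, D ^ i * s ^ (k - 1 - i) + D ^ k + D ^ (k + 1)
        = s * ∑ i ∈ range k, D ^ i * s ^ (k - 1 - i) + D ^ k * (D + 1) := by ring
      _ ≤ s * ∑ i ∈ range k, D ^ i * s ^ (k - 1 - i) + D ^ k * s := by
          gcongr; omega
      _ = s * (∑ i ∈ range k, D ^ i * s ^ (k - 1 - i) + D ^ k) := by ring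
      _ ≤ s * s ^ k := Nat.mul_le_mul_left s ih
      _ = s ^ (k + 1) := by ring

theorem num_size {d D s : ℕ} (h : D < s) (k : ℕ) :
    s ^ k + ∑ i ∈ range k, d * D ^ (i + 1) * s ^ (k - 1 - i) ≤ (1 + d * D) * s ^ k := by
  have h1 : ∑ i ∈ range k, d * D ^ (i + 1) * s ^ (k - 1 - i) =
      d * D * ∑ i ∈ range k, D ^ i * s ^ (k - 1 - i) := by
    rw [mul_sum]
    refine sum_congr rfl fun i _ => ?_
    rw [pow_succ]
    ring
  have h2 := num_geom h k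
  rw [h1]
  calc s ^ k + d * D * ∑ i ∈ range k, D ^ i * s ^ (k - 1 - i)
      ≤ s ^ k + d * D * s ^ k := by gcongr; omega
    _ = (1 + d * D) * s ^ k := by ring

theorem numerics (ε : ℝ) (hε1 : ε < 1) {s0 d0 D0 : ℕ} (hD : 2 ≤ D0)
    (hDs : D0 < s0) (hd : 1 ≤ d0) (hcode : (s0 : ℝ) ^ (2 - ε) ≤ (d0 : ℝ) * (D0 : ℝ)) :
    ∃ c : ℝ, 0 < c ∧ ∃ m₀ : ℕ, ∀ m, m₀ ≤ m → ∃ k n' : ℕ, 1 ≤ k ∧ 2 ≤ n' ∧ 2 ≤ d0 ^ k ∧
      D0 ^ k ≤ n' * (D0 ^ k - 1) ∧
      s0 ^ k + ∑ i ∈ range k, d0 * D0 ^ (i + 1) * s0 ^ (k - 1 - i) +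
        (n' * (D0 ^ k - 1) - D0 ^ k) ≤ m ∧
      ∀ n : ℕ, (((D0 ^ k - 1).factorial ^ (n' * (d0 ^ k - 1)) : ℕ) : ℝ) ≤
        (4 * Real.exp 1 * (n : ℝ) / (((n' * (d0 ^ k - 1)) * (D0 ^ k - 1) + 1 : ℕ) : ℝ)) ^
          ((n' * (d0 ^ k - 1)) * (D0 ^ k - 1) + 1) → c * (m : ℝ) ^ (3 - ε) ≤ n := by
  have hs0 : 3 ≤ s0 := by omega
  have hs0pos : (0 : ℝ) < s0 := by positivity
  have hs01 : (1 : ℝ) ≤ s0 := by exact_mod_cast (by omega : 1 ≤ s0)
  -- `d0 ≥ 2`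
  have hd2 : 2 ≤ d0 := by
    by_contra hlt
    have h1 : d0 = 1 := by omega
    rw [h1] at hcode
    have h2 : (s0 : ℝ) ≤ (s0 : ℝ) ^ (2 - ε) := by
      calc (s0 : ℝ) = (s0 : ℝ) ^ (1 : ℝ) := (Real.rpow_one _).symm
        _ ≤ (s0 : ℝ) ^ (2 - ε) := Real.rpow_le_rpow_of_exponent_le hs01 (by linarith)
    have h3 : (D0 : ℝ) < s0 := by exact_mod_cast hDs
    push_cast at hcode
    linarith
  set B : ℕ := 1 + d0 * D0 with hB
  have hB3 : 5 ≤ B := by rw [hB]; nlinarith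
  have hBpos : (0 : ℝ) < B := by positivity
  set K : ℝ := 2 * B * s0 with hK
  have hKpos : 0 < K := by positivity
  refine ⟨K ^ (-(2 - ε)) / (96 * Real.exp 1 ^ 2), by positivity, 2 * B * s0, ?_⟩
  intro m hm
  set k : ℕ := Nat.log s0 (m / (2 * B)) with hk
  have hmB : s0 ≤ m / (2 * B) := by
    rw [Nat.le_div_iff_mul_le (by omega)]
    calc s0 * (2 * B) = 2 * B * s0 := by ring
      _ ≤ m := hm
  have hk1 : 1 ≤ k := Nat.log_pos (by omega) hmB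
  have hklow : 2 * B * s0 ^ k ≤ m := by
    have h1 : s0 ^ k ≤ m / (2 * B) := Nat.pow_log_le_self s0 (by omega)
    rw [Nat.le_div_iff_mul_le (by omega)] at h1
    calc 2 * B * s0 ^ k = s0 ^ k * (2 * B) := by ring
      _ ≤ m := h1
  have hkup : m < 2 * B * s0 ^ (k + 1) := by
    have h1 : m / (2 * B) < s0 ^ (k + 1) := Nat.lt_pow_succ_log_self (by omega) _
    rw [Nat.div_lt_iff_lt_mul (by omega)] at h1
    calc m < s0 ^ (k + 1) * (2 * B) := h1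
      _ = 2 * B * s0 ^ (k + 1) := by ring
  -- `q`
  have hDk2 : 2 ≤ D0 ^ k := by
    calc 2 ≤ D0 := hD
      _ = D0 ^ 1 := (pow_one _).symm
      _ ≤ D0 ^ k := Nat.pow_le_pow_right (by omega) hk1
  obtain ⟨q, hq⟩ : ∃ q, D0 ^ k = q + 1 := ⟨D0 ^ k - 1, by omega⟩
  have hq1 : 1 ≤ q := by omega
  have hqs : q + 1 ≤ s0 ^ k := by
    rw [← hq]; exact Nat.pow_le_pow_left hDs.le k
  have hdk2 : 2 ≤ d0 ^ k := by
    calc 2 ≤ d0 := hd2
      _ = d0 ^ 1 := (pow_one _).symm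
      _ ≤ d0 ^ k := Nat.pow_le_pow_right (by omega) hk1
  obtain ⟨t, ht⟩ : ∃ t, d0 ^ k = t + 1 := ⟨d0 ^ k - 1, by omega⟩
  have ht1 : 1 ≤ t := by omega
  set n' : ℕ := m / (2 * q) with hn'
  have hm10 : 10 * (q + 1) ≤ m := by
    calc 10 * (q + 1) ≤ 2 * B * (q + 1) := by gcongr; omega
      _ ≤ 2 * B * s0 ^ k := by gcongr
      _ ≤ m := hklow
  have hn'3 : 3 ≤ n' := by
    rw [hn', Nat.le_div_iff_mul_le (by omega)]
    omega
  have hn'q : 2 * (n' * q) ≤ m := by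
    have h1 := Nat.div_mul_le_self m (2 * q)
    calc 2 * (n' * q) = m / (2 * q) * (2 * q) := by rw [hn']; ring
      _ ≤ m := h1
  have hn'q' : m ≤ 3 * (n' * q) := by
    have h1 := Nat.lt_div_mul_add (a := m) (b := 2 * q) (by omega)
    have h2 : m < 2 * (n' * q) + 2 * q := by
      calc m < m / (2 * q) * (2 * q) + 2 * q := h1
        _ = 2 * (n' * q) + 2 * q := by rw [hn']; ring
    omega
  have hqn : q + 1 ≤ n' * q := by nlinarith
  have hqq : D0 ^ k - 1 = q := by omega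
  have htt : d0 ^ k - 1 = t := by omega
  refine ⟨k, n', hk1, by omega, hdk2, ?_, ?_, ?_⟩
  · rw [hqq, hq]; exact hqn
  · rw [hqq, hq]
    have h1 := num_size (d := d0) hDs k
    rw [← hB] at h1
    have h2 : 2 * (B * s0 ^ k) ≤ m := by
      calc 2 * (B * s0 ^ k) = 2 * B * s0 ^ k := by ring
        _ ≤ m := hklow
    omega
  · intro n hn
    rw [hqq, htt] at hn
    have ha1 : 1 ≤ n' * t := by nlinarith
    have h1 := num_count q (n' * t) n hq1 ha1 hn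
    -- real estimates
    have hmR : (m : ℝ) ≤ 3 * (n' * q) := by exact_mod_cast hn'q'
    have hqR : (D0 : ℝ) ^ k ≤ 2 * q := by
      have : D0 ^ k ≤ 2 * q := by omega
      exact_mod_cast this
    have htR : (d0 : ℝ) ^ k ≤ 2 * t := by
      have : d0 ^ k ≤ 2 * t := by omega
      exact_mod_cast this
    have h2 : (m : ℝ) * ((d0 : ℝ) * D0) ^ k ≤ 96 * Real.exp 1 ^ 2 * n := by
      rw [mul_pow]
      have h3 : (m : ℝ) * ((d0 : ℝ) ^ k * (D0 : ℝ) ^ k) ≤ (3 * (n' * q)) * ((2 * t) * (2 * q)) := by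
        gcongr
      have h4 : ((n' : ℝ) * q) * (t * q) ≤ (((n' * t) * q + 1 : ℕ) : ℝ) * q := by
        push_cast
        have : (0 : ℝ) ≤ q := Nat.cast_nonneg q
        nlinarith
      calc (m : ℝ) * ((d0 : ℝ) ^ k * (D0 : ℝ) ^ k) ≤ (3 * (n' * q)) * ((2 * t) * (2 * q)) := h3
        _ = 12 * (((n' : ℝ) * q) * (t * q)) := by ring
        _ ≤ 12 * ((((n' * t) * q + 1 : ℕ) : ℝ) * q) := by gcongr
        _ ≤ 12 * (8 * Real.exp 1 ^ 2 * n) := by gcongr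
        _ = 96 * Real.exp 1 ^ 2 * n := by ring
    have hmpos : (0 : ℝ) < m := by
      have : 0 < m := by omega
      exact_mod_cast this
    have h5 : (m : ℝ) / K ≤ (s0 : ℝ) ^ k := by
      rw [div_le_iff₀ hKpos, hK]
      have h6 : (m : ℝ) < 2 * B * (s0 : ℝ) ^ (k + 1) := by exact_mod_cast hkup
      calc (m : ℝ) ≤ 2 * B * (s0 : ℝ) ^ (k + 1) := h6.le
        _ = (s0 : ℝ) ^ k * (2 * B * s0) := by rw [pow_succ]; ring
    have h7 : ((m : ℝ) / K) ^ (2 - ε) ≤ ((d0 : ℝ) * D0) ^ k := by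
      calc ((m : ℝ) / K) ^ (2 - ε) ≤ ((s0 : ℝ) ^ k) ^ (2 - ε) :=
            Real.rpow_le_rpow (by positivity) h5 (by linarith)
        _ = ((s0 : ℝ) ^ (2 - ε)) ^ k := by
            rw [← Real.rpow_natCast, ← Real.rpow_mul hs0pos.le, mul_comm, Real.rpow_mul hs0pos.le,
              Real.rpow_natCast]
        _ ≤ ((d0 : ℝ) * D0) ^ k := pow_le_pow_left₀ (by positivity) hcode k
    have h8 : K ^ (-(2 - ε)) * (m : ℝ) ^ (3 - ε) = m * ((m : ℝ) / K) ^ (2 - ε) := by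
      rw [Real.div_rpow hmpos.le hKpos.le, Real.rpow_neg hKpos.le]
      have h9 : (m : ℝ) ^ (3 - ε) = m * (m : ℝ) ^ (2 - ε) := by
        rw [← Real.rpow_one_add' hmpos.le (by linarith)]
        congr 1
        ring
      rw [h9]
      field_simp
    have h10 : K ^ (-(2 - ε)) * (m : ℝ) ^ (3 - ε) ≤ 96 * Real.exp 1 ^ 2 * n := by
      rw [h8]
      exact le_trans (mul_le_mul_of_nonneg_left h7 hmpos.le) h2
    have hE : (0 : ℝ) < 96 * Real.exp 1 ^ 2 := by positivity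
    rw [div_mul_eq_mul_div, div_le_iff₀ hE]
    linarith

end Pool.Agent.Work.MP_35c45d_lc.SQ
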