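import Pool.Agent.Work.MP_35c45d_lc.CMSec
import Pool.Agent.Work.MP_35c45d_lc.SQNum

/-! Numerics for the circuit lower bound. -/

set_option autoImplicit false

namespace Pool.Agent.Work.MP_35c45d_lc.SQ

open MvPolynomial Finset

/-- a prime `q` with `4 q^3 ≤ m < 32 q^3` -/
theorem cm_prime (m : ℕ) (hm : 32 * 51 ^ 3 ≤ m) :
    ∃ q : ℕ, q.Prime ∧ 52 ≤ q ∧ 4 * q ^ 3 ≤ m ∧ m < 32 * q ^ 3 := by
  classical
  let n0 := Nat.findGreatest (fun n => 32 * n ^ 3 ≤ m) m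
  have h1 : 32 * n0 ^ 3 ≤ m := by
    have := Nat.findGreatest_spec (P := fun n => 32 * n ^ 3 ≤ m) (n := m) (m := 51)
      (by omega) hm
    exact this
  have h51 : 51 ≤ n0 := Nat.le_findGreatest (by omega) hm
  have h2 : m < 32 * (n0 + 1) ^ 3 := by
    by_contra hcon
    push Not at hcon
    have h3 : n0 + 1 ≤ m := by
      calc n0 + 1 ≤ (n0 + 1) ^ 3 := Nat.le_self_pow (by norm_num) _
        _ ≤ 32 * (n0 + 1) ^ 3 := by omega
        _ ≤ m := hcon
    have := Nat.le_findGreatest (P := fun n => 32 * n ^ 3 ≤ m) h3 hcon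
    change n0 + 1 ≤ n0 at this
    omega
  obtain ⟨q, hq, hlt, hle⟩ := Nat.exists_prime_lt_and_le_two_mul n0 (by omega)
  refine ⟨q, hq, by omega, ?_, ?_⟩
  · calc 4 * q ^ 3 ≤ 4 * (2 * n0) ^ 3 := by gcongr
      _ = 32 * n0 ^ 3 := by ring
      _ ≤ m := h1
  · calc m < 32 * (n0 + 1) ^ 3 := h2
      _ ≤ 32 * q ^ 3 := by gcongr; omega

theorem cm_log {q' a L : ℕ} (hq : 1 ≤ q')
    (h : (q'.factorial) ^ a ≤ 3 ^ (a * q' + 1 + 2 * L + 1)) :
    ((a * q' : ℕ) : ℝ) * (Real.log q' - 1 - Real.log 3) ≤ (2 * L + 2) * Real.log 3 := by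
  have h0 : (0 : ℝ) < q' := by exact_mod_cast hq
  have h1 : (((q' : ℝ) / Real.exp 1) ^ q') ^ a ≤ (3 : ℝ) ^ (a * q' + 1 + 2 * L + 1) := by
    calc (((q' : ℝ) / Real.exp 1) ^ q') ^ a ≤ ((q'.factorial : ℝ)) ^ a :=
          pow_le_pow_left₀ (by positivity) (num_fact q') a
      _ ≤ (3 : ℝ) ^ (a * q' + 1 + 2 * L + 1) := by exact_mod_cast h
  have h2 := Real.log_le_log (by positivity) h1
  rw [← pow_mul, Real.log_pow, Real.log_pow, Real.log_div h0.ne' (Real.exp_pos 1).ne',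
    Real.log_exp] at h2
  push_cast at h2 ⊢
  nlinarith

theorem cm_final {m q D L : ℕ} (hm : 32 * 51 ^ 3 ≤ m) (hq52 : 52 ≤ q) (hmq : m < 32 * q ^ 3)
    (hqD : q = 2 * D + 1) (hlog : 28 ≤ Real.log m)
    (h : ((2 * q ^ 2 * (q ^ 2 * (D + 1) - 1) * (D - 1) : ℕ) : ℝ) *
      (Real.log ((D - 1 : ℕ) : ℝ) - 1 - Real.log 3) ≤ (2 * L + 2) * Real.log 3) :
    (m : ℝ) ^ 2 * Real.log m ≤ 170000 * L := by
  have hD : 26 ≤ D := by omega
  obtain ⟨p, hp⟩ : ∃ p, D = p + 1 := ⟨D - 1, by omega⟩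
  have hp25 : 25 ≤ p := by omega
  have hq4 : q ≤ 4 * p := by omega
  have hqpos : (0 : ℝ) < q := by positivity
  have hmpos : (0 : ℝ) < m := by
    have : 0 < m := by omega
    exact_mod_cast this
  -- size
  have hA : (m : ℝ) ^ 2 ≤ 8192 * ((2 * q ^ 2 * (q ^ 2 * (D + 1) - 1) * (D - 1) : ℕ) : ℝ) := by
    have h1 : q ^ 6 ≤ 8 * (2 * q ^ 2 * (q ^ 2 * (D + 1) - 1) * (D - 1)) := by
      have h2 : q ^ 2 * D ≤ q ^ 2 * (D + 1) - 1 := by
        have : 0 < q ^ 2 := by positivity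
        rw [Nat.mul_add, mul_one]
        omega
      have h3 : q ≤ 4 * (D - 1) := by omega
      have h4 : q ≤ 4 * D := by omega
      calc q ^ 6 = q ^ 4 * (q * q) := by ring
        _ ≤ q ^ 4 * ((4 * D) * (4 * (D - 1))) := by gcongr
        _ = 8 * (2 * q ^ 2 * (q ^ 2 * D) * (D - 1)) := by ring
        _ ≤ 8 * (2 * q ^ 2 * (q ^ 2 * (D + 1) - 1) * (D - 1)) := by gcongr
    have h2 : m ^ 2 ≤ 1024 * q ^ 6 := by
      calc m ^ 2 ≤ (32 * q ^ 3) ^ 2 := by gcongr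
        _ = 1024 * q ^ 6 := by ring
    have h3 : m ^ 2 ≤ 8192 * (2 * q ^ 2 * (q ^ 2 * (D + 1) - 1) * (D - 1)) := by
      calc m ^ 2 ≤ 1024 * q ^ 6 := h2
        _ ≤ 1024 * (8 * (2 * q ^ 2 * (q ^ 2 * (D + 1) - 1) * (D - 1))) := by gcongr
        _ = _ := by ring
    exact_mod_cast h3
  set A : ℝ := ((2 * q ^ 2 * (q ^ 2 * (D + 1) - 1) * (D - 1) : ℕ) : ℝ) with hAdef
  have hA0 : 0 ≤ A := Nat.cast_nonneg _
  -- logs
  have hl2 : Real.log 2 < 0.6931471808 := Real.log_two_lt_d9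
  have hl3 : Real.log 3 ≤ 1.1 := by
    have : Real.log 3 ≤ Real.log (Real.exp 1.1) := by
      refine Real.log_le_log (by norm_num) ?_
      have h1 : (1.1 : ℝ) = 1 + 0.1 := by norm_num
      rw [h1, Real.exp_add]
      have h2 : (2.7182818283 : ℝ) < Real.exp 1 := Real.exp_one_gt_d9
      have h3 : (0.1 : ℝ) + 1 ≤ Real.exp 0.1 := Real.add_one_le_exp _
      have h4 : (1.105 : ℝ) ≤ Real.exp 0.1 := by
        have := Real.quadratic_le_exp_of_nonneg (x := 0.1) (by norm_num)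
        norm_num at this ⊢
        linarith
      nlinarith
    rwa [Real.log_exp] at this
  have hl3p : 0 < Real.log 3 := Real.log_pos (by norm_num)
  have hlq : Real.log m ≤ 5 * Real.log 2 + 3 * Real.log q := by
    have h1 : Real.log m ≤ Real.log (2 ^ 5 * (q : ℝ) ^ 3) := by
      refine Real.log_le_log hmpos ?_
      have : (m : ℝ) ≤ ((32 * q ^ 3 : ℕ) : ℝ) := by exact_mod_cast hmq.le
      push_cast at this
      linarith
    rw [Real.log_mul (by positivity) (by positivity), Real.log_pow, Real.log_pow] at h1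
    push_cast at h1
    linarith
  have hlp : Real.log q ≤ 2 * Real.log 2 + Real.log ((D - 1 : ℕ) : ℝ) := by
    have hpos : (0 : ℝ) < ((D - 1 : ℕ) : ℝ) := by
      have : 0 < D - 1 := by omega
      exact_mod_cast this
    have h1 : Real.log q ≤ Real.log (2 ^ 2 * ((D - 1 : ℕ) : ℝ)) := by
      refine Real.log_le_log hqpos ?_
      have h3 : q ≤ 2 ^ 2 * (D - 1) := by omega
      exact_mod_cast h3
    rw [Real.log_mul (by positivity) hpos.ne', Real.log_pow] at h1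
    push_cast at h1 ⊢
    linarith
  have hkey : Real.log m / 6 ≤ Real.log ((D - 1 : ℕ) : ℝ) - 1 - Real.log 3 := by
    nlinarith
  have h5 : A * (Real.log m / 6) ≤ (2 * L + 2) * 1.1 := by
    calc A * (Real.log m / 6) ≤ A * (Real.log ((D - 1 : ℕ) : ℝ) - 1 - Real.log 3) :=
          mul_le_mul_of_nonneg_left hkey hA0
      _ ≤ (2 * L + 2) * Real.log 3 := h
      _ ≤ (2 * L + 2) * 1.1 := by gcongr
  have h6 : (m : ℝ) ^ 2 * Real.log m ≤ 8192 * A * Real.log m := by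
    gcongr
  -- `L ≥ 1`
  have h7 : (m : ℝ) ^ 2 * Real.log m ≤ 8192 * 6 * 2.2 * (L + 1) := by nlinarith
  have hm1 : (1000 : ℝ) ≤ m := by
    have : 1000 ≤ m := by omega
    exact_mod_cast this
  have h8 : (8192 * 6 * 2.2 * 20 : ℝ) ≤ (m : ℝ) ^ 2 * Real.log m := by
    have h9 : (1000 : ℝ) ^ 2 ≤ (m : ℝ) ^ 2 := by gcongr
    nlinarith
  nlinarith

/-- The main section with its numerics. -/
theorem cm_main : ∃ m0 : ℕ, ∀ m : ℕ, m0 ≤ m → ∃ q' n' t : ℕ, 1 ≤ q' ∧ 2 ≤ n' ∧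
    (∃ φ : Fin m × Fin m → MvPolynomial (Option (Fin t × Fin (n' * q'))) ℂ,
      (∀ p, (φ p).totalDegree ≤ 1) ∧
      ∃ c0 : ℂ, c0 ≠ 0 ∧ aeval φ (permPoly m) = C c0 * (X none + ∑ a : Fin t,
        ∑ s ∈ powersetCard (q' + 1) (univ : Finset (Fin (n' * q'))),
          ∏ j ∈ s, (X (some (a, j)) : MvPolynomial (Option (Fin t × Fin (n' * q'))) ℂ))) ∧
    ∀ L : ℕ, (q'.factorial) ^ (n' * t) ≤ 3 ^ (t * (n' * q') + 1 + 2 * L + 1) →
      (m : ℝ) ^ 2 * Real.log m ≤ 170000 * L := by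
  obtain ⟨M, hM⟩ := exists_nat_ge (Real.exp 28)
  refine ⟨max (32 * 51 ^ 3) M, fun m hm => ?_⟩
  have hm1 : 32 * 51 ^ 3 ≤ m := le_trans (le_max_left _ _) hm
  have hm2 : M ≤ m := le_trans (le_max_right _ _) hm
  have hlog : 28 ≤ Real.log m := by
    rw [Real.le_log_iff_exp_le (by
      have : 0 < m := by omega
      exact_mod_cast this)]
    exact le_trans hM (by exact_mod_cast hm2)
  obtain ⟨q, hq, hq52, h4, h32⟩ := cm_prime m hm1
  have : Fact q.Prime := ⟨hq⟩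
  have hodd : q % 2 = 1 := (Nat.Prime.eq_two_or_odd hq).resolve_left (by omega)
  obtain ⟨D, hD⟩ : ∃ D, q = 2 * D + 1 := ⟨q / 2, by omega⟩
  obtain ⟨Vf, L, hdisj, hsum⟩ := exists_code q D (by omega)
  have hd : q ^ 2 - D * q = q * (D + 1) := by
    have : q ^ 2 = q * (D + 1) + D * q := by
      rw [hD]; ring
    omega
  have hq0 : 0 < q := by omega
  have : NeZero q := ⟨by omega⟩
  have ht : q ^ 2 * (D + 1) - 1 + 1 = q ^ 2 * (D + 1) := by
    have : 0 < q ^ 2 * (D + 1) := by positivity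
    omega
  refine ⟨D - 1, 2 * q ^ 2, q ^ 2 * (D + 1) - 1, by omega, ?_, ?_, ?_⟩
  · have : 1 ≤ q ^ 2 := Nat.one_le_pow _ _ hq0
    omega
  · have h1 := cm_section (J := Fin (2 * q ^ 2 * (D - 1))) (Y := ZMod q × ZMod q)
      (T := Fin (q ^ 2 * (D + 1) - 1)) (G := q) (m := m) hq0 (by rw [hd]; positivity)
      (D := D) (by omega) (by
        rw [Fintype.card_fin]
        have h2 : 1 ≤ q ^ 2 := Nat.one_le_pow _ _ hq0
        calc D ≤ 2 * (D - 1) := by omega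
          _ ≤ 2 * q ^ 2 * (D - 1) := by
            rw [mul_assoc]
            refine Nat.mul_le_mul_left 2 ?_
            exact Nat.le_mul_of_pos_left _ (by omega)) Vf L hdisj hsum (by
        rw [Fintype.card_prod, ZMod.card, Fintype.card_fin, hd]
        refine le_trans ?_ h4
        have e1 : 2 * q ^ 2 * (D - 1) - D ≤ q ^ 3 := by
          calc 2 * q ^ 2 * (D - 1) - D ≤ 2 * q ^ 2 * (D - 1) := Nat.sub_le _ _
            _ = q ^ 2 * (2 * (D - 1)) := by ring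
            _ ≤ q ^ 2 * q := Nat.mul_le_mul_left _ (by omega)
            _ = q ^ 3 := by ring
        have e2 : q * (D + 1) * D ≤ q ^ 3 := by
          calc q * (D + 1) * D ≤ q * q * q := by
                refine Nat.mul_le_mul (Nat.mul_le_mul_left _ (by omega)) (by omega)
            _ = q ^ 3 := by ring
        have e3 : q * (q * q) = q ^ 3 := by ring
        rw [e3]
        omega) (by
        rw [Fintype.card_fin, hd, ht]
        refine le_of_eq ?_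
        ring)
    obtain ⟨φ, hφ, c0, hc0, h⟩ := h1
    rw [show D - 1 + 1 = D by omega]
    exact ⟨φ, hφ, c0, hc0, h⟩
  · intro L' hL
    have e1 : (q ^ 2 * (D + 1) - 1) * (2 * q ^ 2 * (D - 1))
        = 2 * q ^ 2 * (q ^ 2 * (D + 1) - 1) * (D - 1) := by ring
    rw [e1] at hL
    have h1 := cm_log (by omega) hL
    exact cm_final hm1 hq52 h32 hD hlog h1

end Pool.Agent.Work.MP_35c45d_lc.SQ
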