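import Mathlib
import Pool.Agent.Work.MP_35c45d_lc.SQDefs

/-! Nondegenerate critical points of a direct sum of elementary symmetric polynomials: every
variable vector takes each `q`-th root of unity equally often. -/

set_option autoImplicit false
set_option linter.unusedSectionVars false

namespace Pool.Agent.Work.MP_35c45d_lc.SQ

open MvPolynomial Finset

/-- elementary symmetric function of degree `k` of the values `r j`, `j ∈ s` -/
def es {J R : Type*} [CommRing R] (r : J → R) (k : ℕ) (s : Finset J) : R :=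
  ∑ t ∈ powersetCard k s, ∏ j ∈ t, r j

section Es

variable {J R : Type*} [CommRing R] [DecidableEq J]

lemma es_zero (r : J → R) (s : Finset J) : es r 0 s = 1 := by
  simp [es]

lemma es_insert (r : J → R) (k : ℕ) {s : Finset J} {j : J} (hj : j ∉ s) :
    es r (k + 1) (insert j s) = es r (k + 1) s + r j * es r k s := by
  unfold es
  rw [powersetCard_succ_insert hj, sum_union]
  · congr 1
    rw [sum_image, mul_sum]
    · apply sum_congr rfl
      intro t ht
      rw [prod_insert]
      intro h
      exact hj ((mem_powersetCard.1 ht).1 h)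
    · intro a ha b hb hab
      rw [mem_coe, mem_powersetCard] at ha hb
      have h1 : j ∉ a := fun h => hj (ha.1 h)
      have h2 : j ∉ b := fun h => hj (hb.1 h)
      rw [← erase_insert h1, ← erase_insert h2, hab]
  · rw [disjoint_left]
    intro a ha hb
    rw [mem_image] at hb
    obtain ⟨b, _, rfl⟩ := hb
    exact hj ((mem_powersetCard.1 ha).1 (mem_insert_self _ _))

lemma es_erase (r : J → R) (k : ℕ) {s : Finset J} {j : J} (hj : j ∈ s) :
    es r (k + 1) s = es r (k + 1) (s.erase j) + r j * es r k (s.erase j) := by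
  rw [← es_insert r k (notMem_erase j s), insert_erase hj]

lemma es_map {R' : Type*} [CommRing R'] (φ : R →+* R') (r : J → R) (k : ℕ) (s : Finset J) :
    φ (es r k s) = es (fun j => φ (r j)) k s := by
  simp [es, map_sum, map_prod]

open Polynomial in
lemma coeff_prod (r : J → R) (s : Finset J) (k : ℕ) :
    (∏ j ∈ s, (1 + Polynomial.C (r j) * Polynomial.X)).coeff k = es r k s := by
  induction s using Finset.induction_on generalizing k with
  | empty =>
    rcases Nat.eq_zero_or_pos k with rfl | hk
    · simp [es]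
    · rw [prod_empty, Polynomial.coeff_one, if_neg (by omega)]
      unfold es
      rw [powersetCard_eq_empty.2 (by rw [card_empty]; exact hk), sum_empty]
  | insert j s hj ih =>
    rw [prod_insert hj, add_mul, one_mul, Polynomial.coeff_add, mul_assoc,
      Polynomial.coeff_C_mul, ih]
    rcases Nat.eq_zero_or_pos k with rfl | hk
    · rw [Polynomial.coeff_X_mul_zero, es_zero, es_zero]
      ring
    · obtain ⟨k, rfl⟩ : ∃ k', k = k' + 1 := ⟨k - 1, by omega⟩
      rw [Polynomial.coeff_X_mul, ih, es_insert r k hj]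

end Es

/-! ### the values at roots of unity -/

section Roots

lemma one_sub_pow_eq {R : Type*} [CommRing R] (Y : R) (n : ℕ) :
    ∃ Q : R, (1 - Y) ^ n = 1 - n * Y + Y ^ 2 * Q := by
  induction n with
  | zero => exact ⟨0, by simp⟩
  | succ n ih =>
    obtain ⟨Q, hQ⟩ := ih
    refine ⟨n + Q * (1 - Y), ?_⟩
    rw [pow_succ, hQ]
    push_cast
    ring

lemma prod_roots {q : ℕ} (hq : 1 ≤ q) {θ : ℂ} (hθ : IsPrimitiveRoot θ q) :
    ∏ k : Fin q, (1 + Polynomial.C (θ ^ (k : ℕ)) * Polynomial.X) =
      (1 - (-Polynomial.X) ^ q : Polynomial ℂ) := by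
  apply Polynomial.funext
  intro z
  rw [Polynomial.eval_prod]
  simp only [Polynomial.eval_add, Polynomial.eval_one, Polynomial.eval_mul, Polynomial.eval_C,
    Polynomial.eval_X, Polynomial.eval_sub, Polynomial.eval_pow, Polynomial.eval_neg]
  have h1 := hθ.pow_sub_pow_eq_prod_sub_mul (1 : ℂ) (-z) hq
  rw [one_pow] at h1
  rw [h1]
  symm
  have h2 : Polynomial.nthRootsFinset q (1 : ℂ) =
      (univ : Finset (Fin q)).image fun k : Fin q => θ ^ (k : ℕ) := by
    symm
    apply eq_of_subset_of_card_le
    · intro x hx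
      rw [mem_image] at hx
      obtain ⟨k, _, rfl⟩ := hx
      rw [Polynomial.mem_nthRootsFinset hq, ← pow_mul, mul_comm, pow_mul, hθ.pow_eq_one, one_pow]
    · rw [hθ.card_nthRootsFinset, card_image_of_injective, card_univ, Fintype.card_fin]
      intro a b hab
      exact Fin.ext (hθ.pow_inj a.2 b.2 hab)
  rw [h2, prod_image]
  · apply prod_congr rfl
    intro k _
    ring
  · intro a _ b _ hab
    exact Fin.ext (hθ.pow_inj a.2 b.2 hab)

variable {q n' : ℕ} {J : Type} [Fintype J] [DecidableEq J]

/-- every `q`-th root of unity occurs `n'` times -/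
structure Bal (q n' : ℕ) (r : J → ℂ) : Prop where
  pow : ∀ j, r j ^ q = 1
  card : ∀ j, (univ.filter fun i => r i = r j).card = n'
  prod : ∏ j, (1 + Polynomial.C (r j) * Polynomial.X) =
      ((1 - (-Polynomial.X) ^ q) ^ n' : Polynomial ℂ)

lemma Bal.es_univ_lt {r : J → ℂ} (h : Bal q n' r) {k : ℕ} (h0 : 0 < k) (hk : k < q) :
    es r k univ = 0 := by
  rw [← coeff_prod, h.prod]
  obtain ⟨Q, hQ⟩ := one_sub_pow_eq ((-Polynomial.X) ^ q : Polynomial ℂ) n'
  rw [hQ, neg_pow, ← Polynomial.C_1, ← Polynomial.C_neg, ← Polynomial.C_pow,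
    ← Polynomial.C_eq_natCast, mul_pow, ← pow_mul, Polynomial.coeff_add, Polynomial.coeff_sub,
    Polynomial.C_1, Polynomial.coeff_one, if_neg (by omega), mul_assoc,
    ← Polynomial.C_pow, Polynomial.coeff_C_mul, Polynomial.coeff_C_mul, Polynomial.coeff_C_mul,
    Polynomial.coeff_X_pow_mul', if_neg (by omega), Polynomial.coeff_X_pow, if_neg (by omega)]
  simp

lemma Bal.es_univ_eq {r : J → ℂ} (h : Bal q n' r) (hq : 1 ≤ q) :
    es r q univ = -((-1) ^ q * n') := by
  rw [← coeff_prod, h.prod]
  obtain ⟨Q, hQ⟩ := one_sub_pow_eq ((-Polynomial.X) ^ q : Polynomial ℂ) n'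
  rw [hQ, neg_pow, ← Polynomial.C_1, ← Polynomial.C_neg, ← Polynomial.C_pow,
    ← Polynomial.C_eq_natCast, mul_pow, ← pow_mul, Polynomial.coeff_add, Polynomial.coeff_sub,
    Polynomial.C_1, Polynomial.coeff_one, if_neg (by omega), mul_assoc,
    ← Polynomial.C_pow, Polynomial.coeff_C_mul, Polynomial.coeff_C_mul, Polynomial.coeff_C_mul,
    Polynomial.coeff_X_pow_mul', if_neg (by omega), Polynomial.coeff_X_pow, if_pos rfl]
  ring

lemma Bal.es_erase_lt {r : J → ℂ} (h : Bal q n' r) (j : J) {k : ℕ} (hk : k < q) :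
    es r k (univ.erase j) = (-r j) ^ k := by
  induction k with
  | zero => rw [es_zero, pow_zero]
  | succ k ih =>
    have h1 := es_erase r k (mem_univ j)
    have h2 := h.es_univ_lt (k := k + 1) (by omega) hk
    rw [h2, ih (by omega)] at h1
    rw [pow_succ]
    linear_combination -h1

lemma Bal.es_erase_eq {r : J → ℂ} (h : Bal q n' r) (hq : 1 ≤ q) (j : J) :
    es r q (univ.erase j) = (-1) ^ q * (1 - n') := by
  obtain ⟨k, rfl⟩ : ∃ k, q = k + 1 := ⟨q - 1, by omega⟩
  have h1 := es_erase r k (mem_univ j)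
  have h5 := h.es_erase_lt j (k := k) (by omega)
  rw [h.es_univ_eq hq, h5] at h1
  have h2 := h.pow j
  have h3 : r j * (-r j) ^ k = -((-1) ^ (k + 1)) := by
    have h4 : (-r j) ^ (k + 1) = (-1) ^ (k + 1) := by
      rw [neg_pow, h2, mul_one]
    rw [← h4, pow_succ]
    ring
  rw [h3] at h1
  linear_combination -h1

lemma Bal.es_erase_erase {r : J → ℂ} (h : Bal q n' r) {j j' : J} (hj : j' ≠ j) {k : ℕ}
    (hk : k < q) : es r k ((univ.erase j).erase j') =
      ∑ a ∈ range (k + 1), (-r j) ^ a * (-r j') ^ (k - a) := by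
  induction k with
  | zero => rw [es_zero]; simp
  | succ k ih =>
    have h1 := es_erase r k (s := univ.erase j) (mem_erase.2 ⟨hj, mem_univ j'⟩)
    rw [h.es_erase_lt j hk, ih (by omega)] at h1
    rw [sum_range_succ, Nat.sub_self, pow_zero, mul_one]
    have h2 : ∑ a ∈ range (k + 1), (-r j) ^ a * (-r j') ^ (k + 1 - a) =
        (-r j') * ∑ a ∈ range (k + 1), (-r j) ^ a * (-r j') ^ (k - a) := by
      rw [mul_sum]
      apply sum_congr rfl
      intro a ha
      rw [mem_range] at ha
      rw [show k + 1 - a = k - a + 1 from by omega, pow_succ]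
      ring
    rw [h2]
    linear_combination -h1

lemma Bal.es_hess_ne {r : J → ℂ} (h : Bal q n' r) (hq : 1 ≤ q) {j j' : J} (hj : r j' ≠ r j) :
    es r (q - 1) ((univ.erase j).erase j') = 0 := by
  rw [h.es_erase_erase (fun h' => hj (by rw [h'])) (by omega)]
  have h1 := (Commute.all (-r j) (-r j')).geom_sum₂_mul q
  rw [neg_pow, h.pow, neg_pow (r j'), h.pow, sub_self] at h1
  rw [show q - 1 + 1 = q from by omega]
  rcases mul_eq_zero.1 h1 with h2 | h2
  · exact h2
  · exfalso
    apply hj
    linear_combination h2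

lemma Bal.es_hess_eq {r : J → ℂ} (h : Bal q n' r) (hq : 1 ≤ q) {j j' : J} (hj : j' ≠ j)
    (hr : r j' = r j) : es r (q - 1) ((univ.erase j).erase j') = q * (-r j) ^ (q - 1) := by
  rw [h.es_erase_erase hj (by omega), hr]
  rw [show q - 1 + 1 = q from by omega, sum_congr rfl (g := fun _ => (-r j) ^ (q - 1)), sum_const,
    card_range, nsmul_eq_mul]
  intro a ha
  rw [mem_range] at ha
  rw [← pow_add]
  congr 1
  omega

/-- the Hessian at a balanced point is nonsingular -/
lemma Bal.hess_inj {r : J → ℂ} (h : Bal q n' r) (hq : 1 ≤ q) (hn : 2 ≤ n') {u : J → ℂ}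
    (hu : ∀ j, ∑ j', (if j' = j then 0 else u j' * es r (q - 1) ((univ.erase j).erase j')) = 0) :
    u = 0 := by
  have h1 : ∀ j, ∑ j' ∈ univ.filter (fun i => r i = r j), u j' = u j := by
    intro j
    have h2 : ∑ j', (if j' = j then 0 else u j' * es r (q - 1) ((univ.erase j).erase j')) =
        (q * (-r j) ^ (q - 1)) *
          (∑ j' ∈ univ.filter (fun i => r i = r j), u j' - u j) := by
      have h3 : ∑ j' ∈ univ.filter (fun i => r i = r j), u j' - u j =
          ∑ j', (if j' = j then 0 else if r j' = r j then u j' else 0) := by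
        rw [sum_filter, sub_eq_iff_eq_add]
        have h4 : u j = ∑ j', if j' = j then u j' else 0 := by
          rw [sum_ite_eq', if_pos (mem_univ j)]
        rw [h4, ← sum_add_distrib]
        apply sum_congr rfl
        intro j' _
        by_cases h5 : j' = j
        · rw [if_pos h5, if_pos h5, if_pos (by rw [h5]), zero_add]
        · rw [if_neg h5, if_neg h5, add_zero]
      rw [h3, mul_sum]
      apply sum_congr rfl
      intro j' _
      by_cases h5 : j' = j
      · rw [if_pos h5, if_pos h5, mul_zero]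
      · rw [if_neg h5, if_neg h5]
        by_cases h6 : r j' = r j
        · rw [if_pos h6, h.es_hess_eq hq h5 h6]
          ring
        · rw [if_neg h6, h.es_hess_ne hq h6]
          ring
    rw [hu j] at h2
    have hr : r j ≠ 0 := by
      intro h3
      have h4 := h.pow j
      rw [h3, zero_pow (by omega)] at h4
      exact zero_ne_one h4
    have h3 : (q : ℂ) * (-r j) ^ (q - 1) ≠ 0 := by
      apply mul_ne_zero
      · exact_mod_cast (by omega : q ≠ 0)
      · exact pow_ne_zero _ (neg_ne_zero.2 hr)
    rcases mul_eq_zero.1 h2.symm with h4 | h4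
    · exact absurd h4 h3
    · linear_combination h4
  funext j
  have h2 : ∑ j' ∈ univ.filter (fun i => r i = r j), u j' = n' * u j := by
    rw [sum_congr rfl (g := fun _ => u j), sum_const, h.card, nsmul_eq_mul]
    intro i hi
    rw [mem_filter] at hi
    rw [← h1 i, ← h1 j]
    congr 1
    ext l
    rw [mem_filter, mem_filter, hi.2]
  rw [h1 j] at h2
  have h3 : ((n' : ℂ) - 1) * u j = 0 := by linear_combination -h2
  rcases mul_eq_zero.1 h3 with h4 | h4
  · exfalso
    have h5 : (n' : ℂ) = ((1 : ℕ) : ℂ) := by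
      push_cast
      linear_combination h4
    have := Nat.cast_injective h5
    omega
  · exact h4

end Roots

/-! ### derivatives -/

section Deriv

variable {T J : Type} [Fintype T] [Fintype J] [DecidableEq T] [DecidableEq J]

lemma deriv_es_zero {ι : Type} {i : ι} {J' : Type} [DecidableEq J']
    (r : J' → MvPolynomial ι ℂ) (k : ℕ) (s : Finset J') (h : ∀ j ∈ s, pderiv i (r j) = 0) :
    pderiv i (es r k s) = 0 := by
  induction s using Finset.induction_on generalizing k with
  | empty =>
    rcases Nat.eq_zero_or_pos k with rfl | hk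
    · rw [es_zero, pderiv_one]
    · unfold es
      rw [powersetCard_eq_empty.2 (by rw [card_empty]; exact hk), sum_empty, map_zero]
  | insert j s hj ih =>
    rcases Nat.eq_zero_or_pos k with rfl | hk
    · rw [es_zero, pderiv_one]
    · obtain ⟨k, rfl⟩ : ∃ k', k = k' + 1 := ⟨k - 1, by omega⟩
      have h1 : ∀ k, pderiv i (es r k s) = 0 := fun k =>
        ih k fun j' hj' => h j' (mem_insert_of_mem hj')
      rw [es_insert r k hj, map_add, Derivation.leibniz, h1, h1, h j (mem_insert_self _ _)]
      simp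

/-- the variables of block `t` -/
noncomputable def vars (T J : Type) (t : T) (j : J) : MvPolynomial (Option (T × J)) ℂ :=
  X (some (t, j))

lemma pderiv_es (t t' : T) (j' : J) (k : ℕ) (s : Finset J) :
    pderiv (some (t', j')) (es (vars T J t) (k + 1) s) =
      if t = t' ∧ j' ∈ s then es (vars T J t) k (s.erase j') else 0 := by
  split_ifs with h
  · obtain ⟨rfl, h2⟩ := h
    have h3 : ∀ k, pderiv (some (t, j')) (es (vars T J t) k (s.erase j')) = 0 := by
      intro k
      apply deriv_es_zero
      intro j hj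
      unfold vars
      rw [pderiv_X_of_ne]
      intro h4
      have h5 : j' = j ∨ j = j' := by
        simp only [Option.some.injEq, Prod.mk.injEq, true_and] at h4
        tauto
      rw [mem_erase] at hj
      rcases h5 with h5 | h5
      · exact hj.1 h5.symm
      · exact hj.1 h5
    rw [es_erase _ k h2, map_add, Derivation.leibniz, h3, h3]
    unfold vars
    rw [pderiv_X_self]
    simp
  · apply deriv_es_zero
    intro j hj
    unfold vars
    rw [pderiv_X_of_ne]
    intro h4
    apply h
    simp only [Option.some.injEq, Prod.mk.injEq] at h4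
    obtain ⟨h5, h6⟩ := h4
    exact ⟨h5.symm ▸ rfl, h6 ▸ hj⟩

lemma pderiv_es_none (t : T) (k : ℕ) (s : Finset J) :
    pderiv none (es (vars T J t) k s) = 0 := by
  apply deriv_es_zero
  intro j _
  unfold vars
  rw [pderiv_X_of_ne (by simp)]

/-- the polynomial `w + ∑ t, e_D (U_t)` -/
noncomputable def dsum (T J : Type) [Fintype T] [Fintype J] (D : ℕ) :
    MvPolynomial (Option (T × J)) ℂ :=
  X none + ∑ t, es (vars T J t) D univ

lemma pderiv_dsum_none (D : ℕ) : pderiv none (dsum T J D) = 1 := by
  unfold dsum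
  rw [map_add, map_sum, sum_eq_zero fun t _ => pderiv_es_none t D univ, pderiv_X_self, add_zero]

lemma pderiv_dsum_some (D : ℕ) (t : T) (j : J) :
    pderiv (some (t, j)) (dsum T J (D + 1)) = es (vars T J t) D (univ.erase j) := by
  unfold dsum
  rw [map_add, map_sum, pderiv_X_of_ne (by simp), zero_add, sum_eq_single t]
  · rw [pderiv_es, if_pos ⟨rfl, mem_univ _⟩]
  · intro t' _ h
    rw [pderiv_es, if_neg fun h' => h h'.1]
  · intro h
    exact absurd (mem_univ _) h

lemma eval_es (x : Option (T × J) → ℂ) (t : T) (k : ℕ) (s : Finset J) :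
    eval x (es (vars T J t) k s) = es (fun j => x (some (t, j))) k s := by
  rw [es_map]
  unfold vars
  simp

theorem isCrit_of_bal {q n' : ℕ} (hq : 1 ≤ q) (hn : 2 ≤ n') (x : Option (T × J) → ℂ)
    (hx : ∀ t, Bal q n' fun j => x (some (t, j)))
    (h0 : x none = -∑ t, es (fun j => x (some (t, j))) (q + 1) univ) :
    IsCrit (dsum T J (q + 1)) (fun i => if i = none then 1 else (-1) ^ q * (1 - n')) x := by
  have hne : (1 : ℂ) - n' ≠ 0 := by
    intro h4
    have h5 : (n' : ℂ) = ((1 : ℕ) : ℂ) := by
      push_cast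
      linear_combination -h4
    have := Nat.cast_injective h5
    omega
  refine ⟨?_, ⟨1, one_ne_zero, ?_⟩, ?_⟩
  · unfold dsum
    rw [map_add, map_sum, eval_X, h0]
    simp only [eval_es]
    ring
  · intro i
    rcases i with _ | ⟨t, j⟩
    · rw [pderiv_dsum_none, map_one]
      simp
    · rw [pderiv_dsum_some, eval_es, (hx t).es_erase_eq hq]
      simp
  · intro u hu1 ⟨τ, hu2⟩
    have h1 := hu2 none
    simp only [if_true, mul_one] at h1
    have h2 : τ = 0 := by
      rw [← h1]
      apply sum_eq_zero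
      intro j _
      rw [pderiv_dsum_none, pderiv_one, map_zero, mul_zero]
    have h3 : ∀ t j, u (some (t, j)) = 0 := by
      intro t
      have h4 : (fun j => u (some (t, j))) = 0 := by
        apply (hx t).hess_inj hq hn
        intro j
        have h5 := hu2 (some (t, j))
        rw [h2, zero_mul, Fintype.sum_option, pderiv_dsum_some, pderiv_es_none, map_zero,
          mul_zero, zero_add, Fintype.sum_prod_type, sum_eq_single t] at h5
        · refine Eq.trans ?_ h5
          apply sum_congr rfl
          intro j' _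
          obtain ⟨p, rfl⟩ : ∃ p, q = p + 1 := ⟨q - 1, by omega⟩
          rw [pderiv_es]
          by_cases h6 : j' = j
          · rw [if_pos h6, if_neg, map_zero, mul_zero]
            rintro ⟨_, h7⟩
            exact (mem_erase.1 h7).1 h6
          · rw [if_neg h6, if_pos ⟨rfl, mem_erase.2 ⟨h6, mem_univ _⟩⟩, eval_es]
            rfl
        · intro t' _ ht'
          apply sum_eq_zero
          intro j' _
          obtain ⟨p, rfl⟩ : ∃ p, q = p + 1 := ⟨q - 1, by omega⟩
          rw [pderiv_es, if_neg fun h => ht' h.1.symm, map_zero, mul_zero]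
        · intro h
          exact absurd (mem_univ _) h
      intro j
      exact congrFun h4 j
    funext i
    rcases i with _ | ⟨t, j⟩
    · rw [Fintype.sum_option, pderiv_dsum_none, map_one, mul_one] at hu1
      rw [Fintype.sum_eq_zero, add_zero] at hu1
      · exact hu1
      · rintro ⟨t, j⟩
        rw [h3, zero_mul]
    · exact h3 t j

end Deriv

/-! ### the family of points -/

section Family

variable {T J : Type} [Fintype T] [Fintype J] [DecidableEq T] [DecidableEq J]

lemma bal_of_perm {q n' : ℕ} (hq : 1 ≤ q) {θ : ℂ} (hθ : IsPrimitiveRoot θ q)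
    (e : J ≃ Fin n' × Fin q) (π : Fin n' → Equiv.Perm (Fin q)) :
    Bal q n' fun j => θ ^ (π (e j).1 (e j).2 : ℕ) where
  pow j := by
    rw [← pow_mul, mul_comm, pow_mul, hθ.pow_eq_one, one_pow]
  card j := by
    have h1 : (univ.filter fun i => θ ^ (π (e i).1 (e i).2 : ℕ) = θ ^ (π (e j).1 (e j).2 : ℕ)) =
        (univ : Finset (Fin n')).image
          fun i => e.symm (i, (π i).symm (π (e j).1 (e j).2)) := by
      ext i
      rw [mem_filter, mem_image]
      constructor
      · rintro ⟨_, h2⟩
        have h3 := Fin.ext (hθ.pow_inj (Fin.is_lt _) (Fin.is_lt _) h2)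
        refine ⟨(e i).1, mem_univ _, ?_⟩
        rw [← h3, Equiv.symm_apply_apply]
        exact e.symm_apply_apply i
      · rintro ⟨a, _, rfl⟩
        refine ⟨mem_univ _, ?_⟩
        rw [Equiv.apply_symm_apply]
        simp
    rw [h1, card_image_of_injective, card_univ, Fintype.card_fin]
    intro a b hab
    have := e.symm.injective hab
    exact congrArg Prod.fst this
  prod := by
    rw [← e.symm.prod_comp, Fintype.prod_prod_type]
    simp only [Equiv.apply_symm_apply]
    rw [prod_congr rfl (g := fun _ => (1 - (-Polynomial.X) ^ q : Polynomial ℂ)), prod_const,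
      card_univ, Fintype.card_fin]
    intro i _
    rw [← prod_roots hq hθ]
    exact Equiv.prod_comp (π i) fun k : Fin q =>
      (1 + Polynomial.C (θ ^ (k : ℕ)) * Polynomial.X : Polynomial ℂ)

/-- a point of the family -/
noncomputable def famPt {q n' : ℕ} (θ : ℂ) (e : J ≃ Fin n' × Fin q)
    (P : T → Fin n' → Equiv.Perm (Fin q)) : Option (T × J) → ℂ
  | none => -∑ t, es (fun j => θ ^ (P t (e j).1 (e j).2 : ℕ)) (q + 1) univ
  | some (t, j) => θ ^ (P t (e j).1 (e j).2 : ℕ)

theorem dsum_crit {q n' : ℕ} (hq : 1 ≤ q) (hn : 2 ≤ n') (hJ : Fintype.card J = n' * q) :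
    ∃ c : Option (T × J) → ℂ, c ≠ 0 ∧ ∃ S : Finset (Option (T × J) → ℂ),
      S.card = (q.factorial) ^ (n' * Fintype.card T) ∧
      ∀ x ∈ S, IsCrit (dsum T J (q + 1)) c x := by
  refine ⟨fun i => if i = none then 1 else (-1) ^ q * (1 - n'), ?_, ?_⟩
  · intro h
    have := congrFun h none
    simp at this
  obtain ⟨e⟩ : Nonempty (J ≃ Fin n' × Fin q) := by
    rw [← Fintype.card_eq, hJ]
    simp
  have hθ := Complex.isPrimitiveRoot_exp q (by omega)
  obtain ⟨θ, hθ⟩ : ∃ θ : ℂ, IsPrimitiveRoot θ q := ⟨_, hθ⟩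
  refine ⟨(univ : Finset (T → Fin n' → Equiv.Perm (Fin q))).image (famPt θ e), ?_, ?_⟩
  · rw [card_image_of_injective, card_univ]
    · simp only [Fintype.card_fun, Fintype.card_perm, Fintype.card_fin]
      rw [pow_mul]
    · intro P Q h
      funext t i
      apply Equiv.ext
      intro k
      have h1 := congrFun h (some (t, e.symm (i, k)))
      simp only [famPt, Equiv.apply_symm_apply] at h1
      exact Fin.ext (hθ.pow_inj (Fin.is_lt _) (Fin.is_lt _) h1)
  · intro x hx
    rw [mem_image] at hx
    obtain ⟨P, _, rfl⟩ := hx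
    exact isCrit_of_bal hq hn _ (fun t => bal_of_perm hq hθ e (P t)) rfl

/-- expanded form -/
theorem esym_crit {q n' : ℕ} (hq : 1 ≤ q) (hn : 2 ≤ n') (hJ : Fintype.card J = n' * q) :
    ∃ c : Option (T × J) → ℂ, c ≠ 0 ∧ ∃ S : Finset (Option (T × J) → ℂ),
      S.card = (q.factorial) ^ (n' * Fintype.card T) ∧
      ∀ x ∈ S, IsCrit (X none + ∑ t, ∑ s ∈ powersetCard (q + 1) (univ : Finset J),
        ∏ j ∈ s, X (some (t, j))) c x :=
  dsum_crit hq hn hJ

end Family

end Pool.Agent.Work.MP_35c45d_lc.SQ
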