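import Mathlib
import Pool.Agent.Work.MP_35c45d_lc.CM5
import Pool.Agent.Work.MP_35c45d_lc.CMNum
import Pool.Agent.Work.MP_35c45d_lc.SQEsym

/-! The circuit lower bound for the permanent. -/

set_option autoImplicit false
set_option linter.unusedSectionVars false

namespace Pool.Agent.Work.MP_35c45d_lc.CM

open MvPolynomial Filter Topology Pool.Agent.Work.MP_35c45d_lc.SQ

/-- polynomials without multiplications are affine -/
theorem one_le_of_border {m L : ℕ} (hm : 2 ≤ m) (h : BorderMulLE L (permPoly m)) : 1 ≤ L := by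
  classical
  by_contra hL
  have hL0 : L = 0 := by omega
  subst hL0
  obtain ⟨g, hg, hlim⟩ := h
  have hdeg : ∀ s, (g s).totalDegree ≤ 1 := fun s => by simpa using (hg s).totalDegree
  have h1 : ∀ d : Fin m × Fin m →₀ ℕ, 1 < d.degree → coeff d (permPoly m) = 0 := by
    intro d hd
    have h2 : ∀ s, coeff d (g s) = 0 := by
      intro s
      by_contra hne
      have h3 := le_totalDegree (mem_support_iff.2 hne)
      have h4 := hdeg s
      rw [Finsupp.degree_eq_sum] at hd
      rw [Finsupp.sum_fintype _ _ (fun _ => rfl)] at h3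
      omega
    have h3 := hlim d
    simp only [h2] at h3
    exact tendsto_nhds_unique h3 tendsto_const_nhds
  have h2 : (permPoly m).totalDegree ≤ 1 := by
    refine Finset.sup_le fun d hd => ?_
    by_contra hcon
    refine (mem_support_iff.1 hd) (h1 d ?_)
    rw [Finsupp.degree_eq_sum]
    rw [Finsupp.sum_fintype _ _ (fun _ => rfl)] at hcon
    omega
  -- restrict to a line
  have h3 := totalDegree_aeval_le (permPoly m) h2
    (fun p : Fin m × Fin m => if p.1 = p.2 then (X () : MvPolynomial Unit ℂ) else 0)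
    (by intro p; split_ifs <;> simp)
  have h4 : aeval (fun p : Fin m × Fin m => if p.1 = p.2 then (X () : MvPolynomial Unit ℂ) else 0)
      (permPoly m) = X () ^ m := by
    unfold permPoly Matrix.permanent
    rw [map_sum, Finset.sum_eq_single (1 : Equiv.Perm (Fin m))]
    · simp
    · intro σ _ hσ
      rw [map_prod]
      obtain ⟨i, hi⟩ : ∃ i, σ i ≠ i := by
        by_contra hcon
        push Not at hcon
        exact hσ (Equiv.ext hcon)
      refine Finset.prod_eq_zero (Finset.mem_univ i) ?_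
      simp [hi]
    · intro h; exact absurd (Finset.mem_univ _) h
  rw [h4, totalDegree_X_pow] at h3
  omega

/-- For all large `m`: `m² log m ≤ 170000 L`. -/
theorem perm_circuit_large : ∃ m0 : ℕ, ∀ m L : ℕ, m0 ≤ m → BorderMulLE L (permPoly m) →
    (m : ℝ) ^ 2 * Real.log m ≤ 170000 * L := by
  classical
  obtain ⟨m0, h⟩ := cm_main
  refine ⟨m0, fun m L hm hL => ?_⟩
  obtain ⟨q', n', t, hq, hn, ⟨φ, hφ, c0, hc0, heq⟩, hnum⟩ := h m hm
  refine hnum L ?_
  have h1 := (hL.subst φ hφ).smul c0⁻¹
  rw [heq, ← mul_assoc, ← C_mul, inv_mul_cancel₀ hc0, C_1, one_mul] at h1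
  obtain ⟨c, hc, S, hS, hcrit⟩ := esym_crit (T := Fin t) (J := Fin (n' * q')) (q := q') (n' := n')
    hq hn (by simp)
  have h2 := borderMulLE_crit (κ := Fin S.card) h1 c hc
    (fun j => (S.equivFin.symm j : Option (Fin t × Fin (n' * q')) → ℂ))
    (fun a b hab => S.equivFin.symm.injective (Subtype.ext hab))
    (fun j => hcrit _ (S.equivFin.symm j).2)
  rw [Fintype.card_fin, hS, Fintype.card_option, Fintype.card_prod, Fintype.card_fin,
    Fintype.card_fin] at h2
  refine h2.trans (Nat.pow_le_pow_right (by norm_num) (by omega))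

/-- The lower bound for all `m ≥ 2`. -/
theorem perm_circuit : ∃ c : ℝ, 0 < c ∧ ∀ m L : ℕ, 2 ≤ m →
    BorderMulLE L (permPoly m) → c * (m : ℝ) ^ 2 * Real.log m ≤ L := by
  obtain ⟨m0, h0⟩ := perm_circuit_large
  set m1 : ℕ := m0 + 2 with hm1
  have hlogm1 : 0 < Real.log m1 := Real.log_pos (by
    have : 1 < m1 := by omega
    exact_mod_cast this)
  have hm1pos : (0 : ℝ) < m1 := by
    have : 0 < m1 := by omega
    exact_mod_cast this
  refine ⟨min (1 / (m1 ^ 2 * Real.log m1)) (1 / 170000), by positivity, fun m L hm hL => ?_⟩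
  have hm0 : (0 : ℝ) < m := by exact_mod_cast (by omega : 0 < m)
  have hlogm : 0 ≤ Real.log m := Real.log_nonneg (by exact_mod_cast (by omega : 1 ≤ m))
  rcases Nat.lt_or_ge m m1 with h | h
  · have h1 := one_le_of_border hm hL
    have h2 : (m : ℝ) ^ 2 * Real.log m ≤ (m1 : ℝ) ^ 2 * Real.log m1 := by
      have h3 : (m : ℝ) ≤ m1 := by exact_mod_cast h.le
      refine mul_le_mul (pow_le_pow_left₀ hm0.le h3 2) (Real.log_le_log hm0 h3) hlogm (by positivity)
    calc min (1 / ((m1 : ℝ) ^ 2 * Real.log m1)) (1 / 170000) * (m : ℝ) ^ 2 * Real.log m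
        = min (1 / ((m1 : ℝ) ^ 2 * Real.log m1)) (1 / 170000) * ((m : ℝ) ^ 2 * Real.log m) := by ring
      _ ≤ 1 / ((m1 : ℝ) ^ 2 * Real.log m1) * ((m1 : ℝ) ^ 2 * Real.log m1) :=
          mul_le_mul (min_le_left _ _) h2 (by positivity) (by positivity)
      _ = 1 := by field_simp
      _ ≤ L := by exact_mod_cast h1
  · have h2 := h0 m L (by omega) hL
    calc min (1 / ((m1 : ℝ) ^ 2 * Real.log m1)) (1 / 170000) * (m : ℝ) ^ 2 * Real.log m
        = min (1 / ((m1 : ℝ) ^ 2 * Real.log m1)) (1 / 170000) * ((m : ℝ) ^ 2 * Real.log m) := by ring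
      _ ≤ 1 / 170000 * (170000 * (L : ℝ)) :=
          mul_le_mul (min_le_right _ _) h2 (by positivity) (by positivity)
      _ = (L : ℝ) := by ring

end Pool.Agent.Work.MP_35c45d_lc.CM
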