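import Mathlib
import Pool.Agent.Work.MP_35c45d_lc.CMFinal

/-! Candidate hand-in: superlinear circuit lower bound for the permanent. -/

set_option autoImplicit false

namespace Pool.Agent.Work.MP_35c45d_lc.CM

open MvPolynomial Filter Topology

/-- There is `c > 0` such that for every `m ≥ 2` every arithmetic circuit over `ℂ` that computes the
`m × m` permanent, or a sequence of circuits whose polynomials tend to it coefficientwise, has at
least `c m² log m` product gates, sums and scalar multiples being free: each `g s k` is a product of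
two polynomials in the span of `1`, the variables and the earlier `g s j`, and `f s` is in the span
of `1`, the variables and the `g s j`. -/
theorem candidate : ∃ c : ℝ, 0 < c ∧ ∀ m L : ℕ, 2 ≤ m →
    ∀ (f : ℕ → MvPolynomial (Fin m × Fin m) ℂ) (g : ℕ → Fin L → MvPolynomial (Fin m × Fin m) ℂ),
      (∀ s k, ∃ p ∈ Submodule.span ℂ ({1} ∪ Set.range X ∪ {r | ∃ j : Fin L, j < k ∧ r = g s j}),
        ∃ q ∈ Submodule.span ℂ ({1} ∪ Set.range X ∪ {r | ∃ j : Fin L, j < k ∧ r = g s j}),
          g s k = p * q) →
      (∀ s, f s ∈ Submodule.span ℂ ({1} ∪ Set.range X ∪ Set.range (g s))) →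
      (∀ d, Tendsto (fun s => coeff d (f s)) atTop (𝓝 (coeff d
        (Matrix.of (fun i j : Fin m => (X (i, j) : MvPolynomial (Fin m × Fin m) ℂ))).permanent))) →
      c * (m : ℝ) ^ 2 * Real.log m ≤ L := by
  obtain ⟨c, hc, h⟩ := perm_circuit
  refine ⟨c, hc, fun m L hm f g hg hf hlim => h m L hm ⟨f, fun s => ⟨g s, fun k => ?_, ?_⟩, hlim⟩⟩
  · exact hg s k
  · refine Submodule.span_mono ?_ (hf s)
    refine Set.union_subset_union_right _ ?_
    rintro r ⟨j, rfl⟩
    exact ⟨j, j.2, rfl⟩

end Pool.Agent.Work.MP_35c45d_lc.CM
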