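import Mathlib

/-! Superquadratic lower bound: the locally decodable code given by the lines of the plane
over `ZMod q` with `D` slopes. -/

set_option autoImplicit false

namespace Pool.Agent.Work.MP_35c45d_lc.SQ

open Module

/-- coordinates whose values can be prescribed in a subspace of dimension at least `d` -/
theorem code_aux {X : Type} [Fintype X] : ∀ (d : ℕ) (W : Submodule ℂ (X → ℂ)),
    d ≤ finrank ℂ W → ∃ (a : Fin d → X) (V : Fin d → X → ℂ), (∀ b, V b ∈ W) ∧
      ∀ b c, V b (a c) = if b = c then 1 else 0 := by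
  intro d
  induction d with
  | zero =>
    intro W _
    exact ⟨Fin.elim0, Fin.elim0, fun b => b.elim0, fun b => b.elim0⟩
  | succ d ih =>
    intro W hW
    have hpos : 0 < finrank ℂ W := by omega
    obtain ⟨⟨f, hfW⟩, hf⟩ := finrank_pos_iff_exists_ne_zero.1 hpos
    have hf0 : f ≠ 0 := fun h => hf (by simp [h])
    obtain ⟨x, hx⟩ := Function.ne_iff.1 hf0
    simp only [Pi.zero_apply] at hx
    -- the functions of `W` vanishing at `x`
    let p : (X → ℂ) →ₗ[ℂ] ℂ := LinearMap.proj x
    have h1 := Submodule.finrank_sup_add_finrank_inf_eq W (LinearMap.ker p)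
    have h2 := LinearMap.finrank_range_add_finrank_ker p
    have h3 : finrank ℂ (LinearMap.range p) ≤ 1 := by
      have := Submodule.finrank_le (LinearMap.range p)
      rwa [finrank_self] at this
    have h4 : finrank ℂ (W ⊔ LinearMap.ker p : Submodule ℂ (X → ℂ)) ≤ finrank ℂ (X → ℂ) :=
      Submodule.finrank_le _
    obtain ⟨a, V, hV, hVa⟩ := ih (W ⊓ LinearMap.ker p) (by omega)
    have hV0 : ∀ b, V b x = 0 := fun b => (Submodule.mem_inf.1 (hV b)).2
    let g : X → ℂ := (f x)⁻¹ • (f - ∑ b, f (a b) • V b)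
    have hgW : g ∈ W := W.smul_mem _ (W.sub_mem hfW (W.sum_mem fun b _ =>
      W.smul_mem _ (Submodule.mem_inf.1 (hV b)).1))
    have hgx : g x = 1 := by
      simp only [g, Pi.smul_apply, Pi.sub_apply, Finset.sum_apply, smul_eq_mul, hV0, mul_zero,
        Finset.sum_const_zero, sub_zero]
      exact inv_mul_cancel₀ hx
    have hga : ∀ c, g (a c) = 0 := by
      intro c
      simp only [g, Pi.smul_apply, Pi.sub_apply, Finset.sum_apply, smul_eq_mul, hVa, mul_ite,
        mul_one, mul_zero, Finset.sum_ite_eq', Finset.mem_univ, if_true, sub_self]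
    refine ⟨Fin.cons x a, Fin.cons g V, ?_, ?_⟩
    · intro b
      refine Fin.cases ?_ (fun b => ?_) b
      · simpa using hgW
      · simpa using (Submodule.mem_inf.1 (hV b)).1
    · intro b c
      refine Fin.cases ?_ (fun b => ?_) b
      · refine Fin.cases ?_ (fun c => ?_) c
        · simpa using hgx
        · simp only [Fin.cons_zero, Fin.cons_succ, hga]
          rw [if_neg (Fin.succ_ne_zero c).symm]
      · refine Fin.cases ?_ (fun c => ?_) c
        · simp only [Fin.cons_zero, Fin.cons_succ, hV0]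
          rw [if_neg (Fin.succ_ne_zero b)]
        · simp only [Fin.cons_succ, hVa, Fin.succ_inj]

/-- the sum over the line of slope `t` through `a` -/
theorem code_line {q : ℕ} [NeZero q] (t : ZMod q) (a : ZMod q × ZMod q)
    (f : ZMod q × ZMod q → ℂ) :
    ∑ x ∈ Finset.univ.filter (fun x : ZMod q × ZMod q => x.2 - a.2 = t * (x.1 - a.1)), f x =
      ∑ y : ZMod q, f (y, t * y + (a.2 - t * a.1)) := by
  symm
  refine Finset.sum_bij (fun y _ => (y, t * y + (a.2 - t * a.1))) ?_ ?_ ?_ ?_
  · intro y _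
    rw [Finset.mem_filter]
    refine ⟨Finset.mem_univ _, ?_⟩
    ring
  · intro y _ y' _ h
    exact (Prod.mk.inj h).1
  · intro x hx
    rw [Finset.mem_filter] at hx
    refine ⟨x.1, Finset.mem_univ _, ?_⟩
    have h1 : t * x.1 + (a.2 - t * a.1) = x.2 := by
      have h2 := hx.2
      have h3 : x.2 = t * (x.1 - a.1) + a.2 := by rw [← h2]; ring
      rw [h3]
      ring
    rw [h1]
  · intro y _
    rfl

/-- the code -/
theorem exists_code (q : ℕ) [Fact q.Prime] (D : ℕ) (hD : D ≤ q) :
    ∃ (V : Fin (q ^ 2 - D * q) → ZMod q × ZMod q → ℂ)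
      (L : Fin (q ^ 2 - D * q) → Fin D → Finset (ZMod q × ZMod q)),
      (∀ a t t', t ≠ t' → Disjoint (L a t) (L a t')) ∧
      ∀ a b t, ∑ x ∈ L a t, V b x = if b = a then -1 else 0 := by
  have hq0 : NeZero q := ⟨(Fact.out : q.Prime).ne_zero⟩
  let Φ : (ZMod q × ZMod q → ℂ) →ₗ[ℂ] (Fin D × ZMod q → ℂ) :=
    { toFun := fun f e => ∑ y : ZMod q, f (y, ((e.1 : ℕ) : ZMod q) * y + e.2)
      map_add' := fun f g => by
        funext e
        simp only [Pi.add_apply, Finset.sum_add_distrib]
      map_smul' := fun c f => by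
        funext e
        simp only [Pi.smul_apply, smul_eq_mul, RingHom.id_apply, Finset.mul_sum] }
  have hdim : q ^ 2 - D * q ≤ finrank ℂ (LinearMap.ker Φ) := by
    have h1 := LinearMap.finrank_range_add_finrank_ker Φ
    have h2 := Submodule.finrank_le (LinearMap.range Φ)
    rw [finrank_fintype_fun_eq_card, Fintype.card_prod, Fintype.card_fin, ZMod.card] at h2
    rw [finrank_fintype_fun_eq_card, Fintype.card_prod, ZMod.card] at h1
    rw [pow_two]
    omega
  obtain ⟨a, V, hV, hVa⟩ := code_aux (q ^ 2 - D * q) (LinearMap.ker Φ) hdim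
  refine ⟨V, fun i t => Finset.univ.filter fun x : ZMod q × ZMod q =>
    x.2 - (a i).2 = ((t : ℕ) : ZMod q) * (x.1 - (a i).1) ∧ x ≠ a i, ?_, ?_⟩
  · intro i t t' htt
    rw [Finset.disjoint_left]
    intro x hx hx'
    rw [Finset.mem_filter] at hx hx'
    obtain ⟨_, h1, h2⟩ := hx
    obtain ⟨_, h3, _⟩ := hx'
    have h4 : (((t : ℕ) : ZMod q) - ((t' : ℕ) : ZMod q)) * (x.1 - (a i).1) = 0 := by
      rw [sub_mul, ← h1, ← h3, sub_self]
    rcases mul_eq_zero.1 h4 with h5 | h5
    · apply htt
      have h6 : ((t : ℕ) : ZMod q) = ((t' : ℕ) : ZMod q) := sub_eq_zero.1 h5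
      rw [ZMod.natCast_eq_natCast_iff'] at h6
      rw [Nat.mod_eq_of_lt (by omega), Nat.mod_eq_of_lt (by omega)] at h6
      exact Fin.ext h6
    · apply h2
      rw [h5, mul_zero] at h1
      exact Prod.ext (sub_eq_zero.1 h5) (sub_eq_zero.1 h1)
  · intro i b t
    have h1 : ∑ x ∈ Finset.univ.filter (fun x : ZMod q × ZMod q =>
        x.2 - (a i).2 = ((t : ℕ) : ZMod q) * (x.1 - (a i).1)), V b x = 0 := by
      rw [code_line]
      have h2 : Φ (V b) = 0 := hV b
      have h3 := congrFun h2 (t, (a i).2 - ((t : ℕ) : ZMod q) * (a i).1)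
      exact h3
    have h2 : (Finset.univ.filter (fun x : ZMod q × ZMod q =>
        x.2 - (a i).2 = ((t : ℕ) : ZMod q) * (x.1 - (a i).1))) =
        insert (a i) (Finset.univ.filter fun x : ZMod q × ZMod q =>
          x.2 - (a i).2 = ((t : ℕ) : ZMod q) * (x.1 - (a i).1) ∧ x ≠ a i) := by
      ext x
      simp only [Finset.mem_filter, Finset.mem_univ, true_and, Finset.mem_insert]
      constructor
      · intro h
        by_cases hx : x = a i
        · exact Or.inl hx
        · exact Or.inr ⟨h, hx⟩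
      · rintro (rfl | h)
        · simp
        · exact h.1
    rw [h2, Finset.sum_insert (by simp), hVa] at h1
    simp only
    split_ifs at h1 ⊢ with h3
    · linear_combination h1
    · simpa using h1

end Pool.Agent.Work.MP_35c45d_lc.SQ
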