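import Pool.Agent.Work.MP_35c45d_lc.SQSection
import Pool.Agent.Work.MP_35c45d_lc.SQCode

/-! Affine sections of the permanent with quadratically many variables which are direct sums of
elementary symmetric polynomials. -/

set_option autoImplicit false

namespace Pool.Agent.Work.MP_35c45d_lc.SQ

open MvPolynomial Finset

section embed

/-- Every bordered permanent of affine forms of size at most `m` is an affine substitution of the
`m × m` permanent. -/
theorem perm_embed_sub {m : ℕ} {α β κ : Type} [Fintype α]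
    [DecidableEq α] [Fintype β] [DecidableEq β] (hcard : Fintype.card α = Fintype.card β)
    (hα : Fintype.card α ≤ m) (M : α → β → MvPolynomial κ ℂ)
    (hM : ∀ a b, (M a b).totalDegree ≤ 1) :
    ∃ φ : Fin m × Fin m → MvPolynomial κ ℂ, (∀ p, (φ p).totalDegree ≤ 1) ∧
      aeval φ (permPoly m) = rperm M := by
  classical
  let K := Fin (m - Fintype.card α)
  have h1 : Fintype.card (α ⊕ K) = Fintype.card (Fin m) := by
    rw [Fintype.card_sum, Fintype.card_fin, Fintype.card_fin]; omega
  have h2 : Fintype.card (β ⊕ K) = Fintype.card (Fin m) := by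
    rw [Fintype.card_sum, Fintype.card_fin, Fintype.card_fin, ← hcard]; omega
  let eα : Fin m ≃ α ⊕ K := (Fintype.equivOfCardEq h1).symm
  let eβ : Fin m ≃ β ⊕ K := (Fintype.equivOfCardEq h2).symm
  let M' : α ⊕ K → β ⊕ K → MvPolynomial κ ℂ := fun r c =>
    match r, c with
    | Sum.inl a, Sum.inl b => M a b
    | Sum.inl _, Sum.inr _ => 0
    | Sum.inr _, Sum.inl _ => 0
    | Sum.inr k, Sum.inr k' => if k = k' then 1 else 0
  have h3 : rperm M' = rperm M := by
    rw [rperm_block rfl M' (fun k b => rfl)]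
    have : rperm (fun (k k' : K) => M' (Sum.inr k) (Sum.inr k')) = 1 := rperm_one
    rw [this, mul_one]
  let φ : Fin m × Fin m → MvPolynomial κ ℂ := fun p => M' (eα p.2) (eβ p.1)
  have hφ : ∀ p, (φ p).totalDegree ≤ 1 := by
    intro p
    simp only [φ, M']
    rcases eα p.2 with a | k <;> rcases eβ p.1 with b | k'
    · exact hM a b
    · simp
    · simp
    · simp only
      split_ifs <;> simp
  refine ⟨φ, hφ, ?_⟩
  rw [← h3]
  unfold permPoly
  rw [permanent_eq_rperm, ← rperm_equiv eα eβ M']
  unfold rperm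
  rw [map_sum]
  refine Finset.sum_congr rfl fun e _ => ?_
  rw [map_prod]
  refine Finset.prod_congr rfl fun a _ => ?_
  simp [φ]

theorem gad_final_sub {m : ℕ} {κ V T : Type} [Fintype V] [Fintype T]
    [DecidableEq V] [DecidableEq T] {sz : ℕ} {Φ : (V → T → MvPolynomial κ ℂ) → MvPolynomial κ ℂ}
    (h : Gad (MvPolynomial κ ℂ) V T sz Φ) (hsz : Fintype.card T + sz ≤ m)
    (N : V → T → MvPolynomial κ ℂ) (hN : ∀ v t, (N v t).totalDegree ≤ 1) :
    ∃ φ : Fin m × Fin m → MvPolynomial κ ℂ, (∀ p, (φ p).totalDegree ≤ 1) ∧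
      ∃ c0 : ℂ, c0 ≠ 0 ∧ aeval φ (permPoly m) = C c0 * Φ N := by
  classical
  obtain ⟨ρ, γ, _, _, _, _, E, F, H, c0, hc0, hγ, hcard, hh⟩ := h
  obtain ⟨φ, hφ, h1⟩ := perm_embed_sub (m := m) (α := V ⊕ ρ) (β := T ⊕ γ) (by
    rw [Fintype.card_sum, Fintype.card_sum, hcard]) (by
    rw [Fintype.card_sum, hcard, hγ]; exact hsz) (gadMat N E F H) (by
    intro r c
    rcases r with v | r <;> rcases c with t | g
    · exact hN v t
    · simp [gadMat, algebraMap_eq]
    · simp [gadMat, algebraMap_eq]
    · simp [gadMat, algebraMap_eq])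
  refine ⟨φ, hφ, c0, hc0, ?_⟩
  rw [h1, hh, algebraMap_eq]

end embed

section two

variable {R : Type} [CommRing R] [Algebra ℂ R]

/-- Two levels of the gadget: `G` groups of columns, and a code with `d` symbols each having `D`
disjoint recovery sets. -/
theorem two_level {J Y : Type} [Fintype J] [DecidableEq J] [Fintype Y] [DecidableEq Y]
    [Nonempty Y] {G d D : ℕ} (hG : 0 < G) (hd : 0 < d) (hD : 0 < D) (hl : D ≤ Fintype.card J)
    (Vf : Fin d → Y → ℂ) (L : Fin d → Fin D → Finset Y)
    (hdisj : ∀ a t t', t ≠ t' → Disjoint (L a t) (L a t'))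
    (hsum : ∀ a b t, ∑ x ∈ L a t, Vf b x = if b = a then -1 else 0) :
    ∃ Φ : (J → (Fin G × Y) → R) → R,
      Gad R J (Fin G × Y) (Fintype.card J - D + d * D + G * Fintype.card Y) Φ ∧
      ∀ U : J → Fin G → Fin d → R,
        Φ (fun v p => ∑ b, U v p.1 b * algebraMap ℂ R (Vf b p.2))
          = ∑ g, ∑ a, ∑ i : Fin D ↪ J, ∏ t, U (i t) g a := by
  classical
  have : Nonempty (Fin G) := ⟨⟨0, hG⟩⟩
  have : Nonempty (Fin d) := ⟨⟨0, hd⟩⟩
  have : Nonempty (Fin D) := ⟨⟨0, hD⟩⟩
  let ω : Fin d → Y → Option (Fin D) := fun a x =>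
    if h : ∃ t, x ∈ L a t then some h.choose else none
  have hω : ∀ a x t, ω a x = some t ↔ x ∈ L a t := by
    intro a x t
    simp only [ω]
    constructor
    · intro h
      split_ifs at h with h1
      have h2 := Option.some.inj h
      rw [← h2]
      exact h1.choose_spec
    · intro h
      have h1 : ∃ t, x ∈ L a t := ⟨t, h⟩
      rw [dif_pos h1]
      congr 1
      by_contra hne
      exact (Finset.disjoint_left.1 (hdisj a _ _ hne) h1.choose_spec) h
  have hb := gad_base (R := R) (V := J) (T := Fin D) (by rw [Fintype.card_fin]; exact hl)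
  have hs1 := gad_step (T := Y) ω (fun _ _ => -1) hb
  have hs2 := gad_step (T := Fin G × Y) (T' := Y) (A := Fin G)
    (fun g p => if p.1 = g then some p.2 else none) (fun _ _ => 1) hs1
  simp only [Fintype.card_fin] at hs2
  refine ⟨_, hs2, ?_⟩
  intro U
  refine Finset.sum_congr rfl fun g _ => ?_
  refine Finset.sum_congr rfl fun a _ => ?_
  refine Finset.sum_congr rfl fun i _ => ?_
  refine Finset.prod_congr rfl fun t _ => ?_
  have h1 : ∀ (v : J) (x : Y), (∑ p : Fin G × Y,
      (if (if p.1 = g then some p.2 else none) = some x then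
        algebraMap ℂ R 1 * ∑ b, U v p.1 b * algebraMap ℂ R (Vf b p.2) else 0))
      = ∑ b, U v g b * algebraMap ℂ R (Vf b x) := by
    intro v x
    rw [Finset.sum_eq_single (g, x)]
    · simp
    · rintro ⟨g', x'⟩ _ hne
      rw [if_neg]
      intro h
      apply hne
      simp only at h
      split_ifs at h with h2
      rw [h2, Option.some.inj h]
    · intro h
      exact absurd (Finset.mem_univ _) h
  simp only [h1]
  have h2 : ∀ x : Y, (if ω a x = some t then algebraMap ℂ R (-1) *
      ∑ b, U (i t) g b * algebraMap ℂ R (Vf b x) else 0)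
      = if x ∈ L a t then ∑ b, U (i t) g b * algebraMap ℂ R (-Vf b x) else 0 := by
    intro x
    by_cases hx : x ∈ L a t
    · rw [if_pos ((hω a x t).2 hx), if_pos hx, Finset.mul_sum]
      refine Finset.sum_congr rfl fun b _ => ?_
      rw [map_neg, map_neg, map_one]
      ring
    · rw [if_neg (fun h => hx ((hω a x t).1 h)), if_neg hx]
  simp only [h2]
  rw [← Finset.sum_filter, Finset.filter_mem_eq_inter, Finset.univ_inter, Finset.sum_comm]
  have h3 : ∀ b : Fin d, ∑ x ∈ L a t, U (i t) g b * algebraMap ℂ R (-Vf b x)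
      = if b = a then U (i t) g b else 0 := by
    intro b
    rw [← Finset.mul_sum, ← map_sum, Finset.sum_neg_distrib, hsum]
    split_ifs <;> simp
  simp only [h3]
  simp

end two

section sec

/-- The section of the permanent. -/
theorem cm_section {J Y T : Type} [Fintype J] [DecidableEq J] [Fintype Y] [DecidableEq Y]
    [Nonempty Y] [Fintype T] {G d D m : ℕ} (hG : 0 < G) (hd : 0 < d) (hD : 0 < D)
    (hl : D ≤ Fintype.card J)
    (Vf : Fin d → Y → ℂ) (L : Fin d → Fin D → Finset Y)
    (hdisj : ∀ a t t', t ≠ t' → Disjoint (L a t) (L a t'))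
    (hsum : ∀ a b t, ∑ x ∈ L a t, Vf b x = if b = a then -1 else 0)
    (hsize : G * Fintype.card Y + (Fintype.card J - D + d * D + G * Fintype.card Y) ≤ m)
    (hT : Fintype.card T + 1 ≤ G * d) :
    ∃ φ : Fin m × Fin m → MvPolynomial (Option (T × J)) ℂ, (∀ p, (φ p).totalDegree ≤ 1) ∧
      ∃ c0 : ℂ, c0 ≠ 0 ∧ aeval φ (permPoly m) = C c0 * (X none + ∑ t : T,
        ∑ s ∈ powersetCard D (univ : Finset J),
          ∏ j ∈ s, (X (some (t, j)) : MvPolynomial (Option (T × J)) ℂ)) := by
  classical
  obtain ⟨Φ, hΦ, hU⟩ := two_level (R := MvPolynomial (Option (T × J)) ℂ) hG hd hD hl Vf L hdisj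
    hsum
  -- embedding of the index set
  have hemb : Nonempty (Option T ↪ Fin G × Fin d) := by
    rw [Function.Embedding.nonempty_iff_card_le, Fintype.card_option, Fintype.card_prod,
      Fintype.card_fin, Fintype.card_fin]
    exact hT
  obtain ⟨emb⟩ := hemb
  -- the special vector
  obtain ⟨S0, hS0, hS0c⟩ : ∃ S0 : Finset J, S0 ⊆ univ ∧ S0.card = D :=
    Finset.exists_subset_card_eq (by rw [card_univ]; exact hl)
  obtain ⟨j0, hj0⟩ : S0.Nonempty := by
    rw [← Finset.card_pos, hS0c]; exact hD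
  let sp : J → MvPolynomial (Option (T × J)) ℂ := fun j =>
    if j = j0 then X none else if j ∈ S0 then 1 else 0
  have hsp : ∑ s ∈ powersetCard D (univ : Finset J), ∏ j ∈ s, sp j = X none := by
    rw [Finset.sum_eq_single S0]
    · rw [← Finset.mul_prod_erase S0 _ hj0]
      have : ∏ x ∈ S0.erase j0, sp x = 1 := by
        refine Finset.prod_eq_one fun x hx => ?_
        simp only [sp]
        rw [if_neg (ne_of_mem_erase hx), if_pos (mem_of_mem_erase hx)]
      rw [this, mul_one]
      simp [sp]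
    · intro s hs hne
      have hsc := (mem_powersetCard.mp hs).2
      obtain ⟨x, hx, hx'⟩ : ∃ x ∈ s, x ∉ S0 := by
        by_contra hcon
        push Not at hcon
        exact hne (Finset.eq_of_subset_of_card_le hcon (by rw [hsc, hS0c]))
      refine Finset.prod_eq_zero hx ?_
      simp only [sp]
      have hxj : x ≠ j0 := fun h => hx' (by rw [h]; exact hj0)
      rw [if_neg hxj, if_neg hx']
    · intro h
      exact absurd (mem_powersetCard.mpr ⟨subset_univ _, hS0c⟩) h
  let Uo : Option T → J → MvPolynomial (Option (T × J)) ℂ := fun o j =>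
    match o with
    | none => sp j
    | some t => X (some (t, j))
  let Ua : J → Fin G × Fin d → MvPolynomial (Option (T × J)) ℂ := fun j a =>
    if h : ∃ o, emb o = a then Uo h.choose j else 0
  have hUemb : ∀ o j, Ua j (emb o) = Uo o j := by
    intro o j
    have h : ∃ o', emb o' = emb o := ⟨o, rfl⟩
    simp only [Ua]
    rw [dif_pos h]
    congr 1
    exact emb.injective h.choose_spec
  have hUdeg : ∀ j a, (Ua j a).totalDegree ≤ 1 := by
    intro j a
    simp only [Ua]
    split_ifs with h
    · rcases h.choose with _ | t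
      · simp only [Uo, sp]
        split_ifs <;> simp
      · simp [Uo]
    · simp
  obtain ⟨φ, hφ, c0, hc0, h1⟩ := gad_final_sub (m := m) hΦ (by
      rw [Fintype.card_prod, Fintype.card_fin]
      exact hsize) (fun v p => ∑ b, Ua v (p.1, b) * algebraMap ℂ _ (Vf b p.2)) (by
      intro v p
      refine totalDegree_finsetSum_le fun b _ => ?_
      refine (totalDegree_mul _ _).trans ?_
      rw [algebraMap_eq, totalDegree_C, add_zero]
      exact hUdeg v _)
  rw [hU (fun v g b => Ua v (g, b))] at h1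
  have h2 : (∑ g : Fin G, ∑ a : Fin d, ∑ i : Fin D ↪ J, ∏ t, Ua (i t) (g, a))
      = C ((D.factorial : ℂ)) * (X none + ∑ t : T, ∑ s ∈ powersetCard D (univ : Finset J),
      ∏ j ∈ s, (X (some (t, j)) : MvPolynomial (Option (T × J)) ℂ)) := by
    have h3 : ∀ a : Fin G × Fin d, ∑ i : Fin D ↪ J, ∏ t, Ua (i t) a
        = C ((D.factorial : ℂ)) * ∑ s ∈ powersetCard D (univ : Finset J), ∏ j ∈ s, Ua j a := by
      intro a
      rw [sum_emb (fun v => Ua v a), Fintype.card_fin, map_natCast]
    rw [← Fintype.sum_prod_type' (f := fun g a => ∑ i : Fin D ↪ J, ∏ t, Ua (i t) (g, a))]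
    simp only [h3]
    rw [← Finset.mul_sum]
    congr 1
    symm
    rw [← hsp]
    have h4 : (∑ s ∈ powersetCard D (univ : Finset J), ∏ j ∈ s, sp j) + ∑ t : T,
        ∑ s ∈ powersetCard D (univ : Finset J), ∏ j ∈ s,
          (X (some (t, j)) : MvPolynomial (Option (T × J)) ℂ)
        = ∑ o : Option T, ∑ s ∈ powersetCard D (univ : Finset J), ∏ j ∈ s, Uo o j := by
      rw [Fintype.sum_option]
    rw [h4]
    refine Fintype.sum_of_injective emb emb.injective _ _ ?_ ?_
    · intro a ha
      refine Finset.sum_eq_zero fun s hs => ?_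
      have hsc := (mem_powersetCard.mp hs).2
      obtain ⟨j, hj⟩ : s.Nonempty := by
        rw [← Finset.card_pos, hsc]; exact hD
      refine Finset.prod_eq_zero hj ?_
      simp only [Ua]
      rw [dif_neg]
      rintro ⟨o, ho⟩
      exact ha ⟨o, ho⟩
    · intro o
      simp only [hUemb]
  rw [h2, ← mul_assoc, ← C_mul] at h1
  exact ⟨φ, hφ, _, mul_ne_zero hc0 (by exact_mod_cast Nat.factorial_ne_zero _), h1⟩

end sec

end Pool.Agent.Work.MP_35c45d_lc.SQ
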