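import Pool.Agent.Work.MP_35c45d_lc.RankMain

set_option autoImplicit false

namespace Pool.Agent.Results.MP_35c45d_lc.CoefficientRank

open Filter Topology

/-- Let `4 q + 1 ≤ m ≤ 2 ^ q + 2 q`, and suppose that the `m × m` permanent over the complex
numbers is a coefficientwise limit of determinants of `n × n` matrices of affine linear forms
(`n` arbitrary) in which the coefficient matrix of the variable `x_{a,b}` has rank at most `k a b`.
Then for every set `S` of positions, no two in the same row or column, the numbers `k a b`,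
`(a, b) ∈ S`, add up to at least `⌊|S| / (2 q)⌋ (m - 2 q)`. -/
theorem result (m q n : ℕ) (hm : 4 * q + 1 ≤ m) (hpow : m ≤ 2 ^ q + 2 * q)
    (k : Fin m → Fin m → ℕ)
    (A : ℕ → Matrix (Fin n) (Fin n) (MvPolynomial (Fin m × Fin m) ℂ))
    (hA : ∀ s i j, (A s i j).totalDegree ≤ 1)
    (hk : ∀ s a b, (Matrix.of fun i j =>
      MvPolynomial.coeff (Finsupp.single (a, b) 1) (A s i j)).rank ≤ k a b)
    (hlim : ∀ d, Tendsto (fun s => MvPolynomial.coeff d (A s).det) atTop
      (𝓝 (MvPolynomial.coeff d (Matrix.of (fun i j : Fin m =>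
        (MvPolynomial.X (i, j) : MvPolynomial (Fin m × Fin m) ℂ))).permanent)))
    (S : Finset (Fin m × Fin m)) (hS₁ : Set.InjOn Prod.fst (S : Set (Fin m × Fin m)))
    (hS₂ : Set.InjOn Prod.snd (S : Set (Fin m × Fin m))) :
    (S.card / (2 * q)) * (m - 2 * q) ≤ ∑ t ∈ S, k t.1 t.2 :=
  Pool.Agent.Work.MP_35c45d_lc.RankK.matching_bound hm hpow k A hA hk hlim S hS₁ hS₂

end Pool.Agent.Results.MP_35c45d_lc.CoefficientRank
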