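import Pool.Agent.Work.MP_35c45d_lc.LinAlg

set_option autoImplicit false

namespace Pool.Agent.Work.MP_35c45d_lc

open Matrix Polynomial

section deg1

variable {τ : Type*} [Fintype τ] [DecidableEq τ] {K : Type*} [Field K]

theorem eq_of_deg_le_one (p : MvPolynomial τ K) (h : p.totalDegree ≤ 1) :
    p = MvPolynomial.C (p.coeff 0)
      + ∑ t, MvPolynomial.C (p.coeff (Finsupp.single t 1)) * MvPolynomial.X t := by
  ext s
  simp only [MvPolynomial.coeff_add, MvPolynomial.coeff_C, MvPolynomial.coeff_sum,
    MvPolynomial.coeff_C_mul, MvPolynomial.coeff_X']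
  by_cases h0 : s = 0
  · subst h0
    simp
  · rw [if_neg (Ne.symm h0), zero_add]
    by_cases h1 : ∃ t, Finsupp.single t 1 = s
    · obtain ⟨t, rfl⟩ := h1
      rw [Finset.sum_eq_single t]
      · simp
      · intro b _ hb
        rw [if_neg]
        · simp
        · intro hh
          exact hb (Finsupp.single_left_injective one_ne_zero hh)
      · simp
    · push Not at h1
      rw [Finset.sum_eq_zero (fun t _ => by rw [if_neg (h1 t), mul_zero])]
      apply MvPolynomial.coeff_eq_zero_of_totalDegree_lt
      refine lt_of_le_of_lt h ?_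
      by_contra hlt
      push Not at hlt
      obtain ⟨t, ht⟩ : ∃ t, s t ≠ 0 := by
        by_contra hc
        push Not at hc
        exact h0 (Finsupp.ext hc)
      have hts : t ∈ s.support := by simpa using ht
      have h2 := Finset.add_sum_erase s.support (fun i => s i) hts
      apply h1 t
      ext b
      by_cases hb : b = t
      · subst hb
        simp only [Finsupp.single_eq_same]
        omega
      · rw [Finsupp.single_eq_of_ne hb]
        by_cases hbs : s b = 0
        · exact hbs.symm
        · have hb2 : b ∈ s.support.erase t := by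
            simp [hb, hbs]
          have h3 := Finset.single_le_sum (f := fun i => s i) (fun i _ => Nat.zero_le _) hb2
          omega

end deg1

section ev

variable {ι ν : Type*} [Fintype ι] [DecidableEq ι] [Fintype ν] [DecidableEq ν]
  {K : Type*} [Field K]

/-- evaluation of a matrix of polynomials in matrix entries at a matrix over an algebra -/
noncomputable def evM (A : Matrix ν ν (MvPolynomial (ι × ι) K)) {R : Type*} [CommRing R]
    [Algebra K R] (M : Matrix ι ι R) : Matrix ν ν R :=
  A.map (MvPolynomial.aeval (fun p : ι × ι => M p.1 p.2))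

/-- linear part -/
noncomputable def lnM (A : Matrix ν ν (MvPolynomial (ι × ι) K)) {R : Type*} [CommRing R]
    [Algebra K R] (M : Matrix ι ι R) : Matrix ν ν R :=
  Matrix.of fun i j => ∑ p : ι × ι, algebraMap K R ((A i j).coeff (Finsupp.single p 1)) * M p.1 p.2

theorem evM_apply (A : Matrix ν ν (MvPolynomial (ι × ι) K))
    (hA : ∀ i j, (A i j).totalDegree ≤ 1) {R : Type*} [CommRing R] [Algebra K R]
    (M : Matrix ι ι R) (i j : ν) :
    evM A M i j = algebraMap K R ((A i j).coeff 0) + lnM A M i j := by
  unfold evM lnM
  rw [Matrix.map_apply]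
  conv_lhs => rw [eq_of_deg_le_one (A i j) (hA i j)]
  simp [map_sum]

theorem evM_add_X (A : Matrix ν ν (MvPolynomial (ι × ι) K))
    (hA : ∀ i j, (A i j).totalDegree ≤ 1) {R : Type*} [CommRing R] [Algebra K R]
    (M E : Matrix ι ι R) :
    evM A (M.map C + (X : R[X]) • E.map C) = (evM A M).map C + (X : R[X]) • (lnM A E).map C := by
  ext1 i j
  rw [evM_apply A hA, Matrix.add_apply, Matrix.map_apply, evM_apply A hA, Matrix.smul_apply,
    Matrix.map_apply]
  simp only [lnM, Matrix.of_apply, Matrix.add_apply, Matrix.map_apply, Matrix.smul_apply,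
    smul_eq_mul, map_add, map_sum, map_mul, mul_add, Finset.sum_add_distrib, Finset.mul_sum]
  have h : ∀ a : K, algebraMap K R[X] a = C (algebraMap K R a) := fun a => rfl
  simp only [h]
  rw [add_assoc]
  congr 2
  refine Finset.sum_congr rfl fun p _ => ?_
  ring

theorem lnM_map_C (A : Matrix ν ν (MvPolynomial (ι × ι) K)) {R : Type*} [CommRing R] [Algebra K R]
    (E : Matrix ι ι R) : lnM A (E.map (C : R →+* R[X])) = (lnM A E).map C := by
  ext1 i j
  simp only [lnM, Matrix.of_apply, Matrix.map_apply, map_sum, map_mul]
  have h : ∀ a : K, algebraMap K R[X] a = C (algebraMap K R a) := fun a => rfl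
  simp only [h]

theorem lnM_add (A : Matrix ν ν (MvPolynomial (ι × ι) K)) {R : Type*} [CommRing R] [Algebra K R]
    (E F : Matrix ι ι R) : lnM A (E + F) = lnM A E + lnM A F := by
  ext1 i j
  simp [lnM, mul_add, Finset.sum_add_distrib]

theorem lnM_smul (A : Matrix ν ν (MvPolynomial (ι × ι) K)) (c : K)
    (E : Matrix ι ι K) : lnM A (c • E) = c • lnM A E := by
  ext1 i j
  simp [lnM, mul_left_comm, Finset.mul_sum]

theorem det_evM (A : Matrix ν ν (MvPolynomial (ι × ι) K))
    (hdet : A.det = (Matrix.of (fun i j : ι =>
            (MvPolynomial.X (i, j) : MvPolynomial (ι × ι) K))).permanent)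
    {R : Type*} [CommRing R] [Algebra K R] (M : Matrix ι ι R) :
    (evM A M).det = M.permanent := by
  have h := congrArg (MvPolynomial.aeval (fun p : ι × ι => M p.1 p.2)) hdet
  rw [AlgHom.map_det] at h
  rw [evM]
  have h2 : (MvPolynomial.aeval (fun p : ι × ι => M p.1 p.2)).mapMatrix A
      = A.map (MvPolynomial.aeval (fun p : ι × ι => M p.1 p.2)) := rfl
  rw [← h2, h]
  simp [Matrix.permanent, map_sum, map_prod]

/-- permanent in terms of rows -/
theorem permanent_rows {R : Type*} [CommRing R] (M : Matrix ι ι R) :
    M.permanent = ∑ σ : Equiv.Perm ι, ∏ i, M i (σ i) := by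
  rw [← Matrix.permanent_transpose]
  rfl

theorem permanent_updateRow_eq {R : Type*} [CommRing R] (M : Matrix ι ι R) (u : ι) (y : ι → R) :
    (M.updateRow u y).permanent
      = ∑ σ : Equiv.Perm ι, y (σ u) * ∏ i ∈ Finset.univ.erase u, M i (σ i) := by
  rw [permanent_rows]
  refine Finset.sum_congr rfl fun σ _ => ?_
  rw [← Finset.mul_prod_erase _ _ (Finset.mem_univ u)]
  congr 1
  · simp
  · refine Finset.prod_congr rfl fun i hi => ?_
    rw [Matrix.updateRow_ne (Finset.ne_of_mem_erase hi)]

theorem coeff_one_permanent {R : Type*} [CommRing R] (M : Matrix ι ι R) (u : ι) (y : ι → R) :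
    ((M.map C + (X : R[X]) • ((0 : Matrix ι ι R).updateRow u y).map C).permanent).coeff 1
      = (M.updateRow u y).permanent := by
  have h1 : M.map C + (X : R[X]) • ((0 : Matrix ι ι R).updateRow u y).map C
      = (M.map C).updateRow u ((fun j => C (M u j)) + (X : R[X]) • fun j => C (y j)) := by
    ext1 i j
    by_cases hi : i = u
    · subst hi; simp
    · simp [hi]
  rw [h1, permanent_updateRow_eq, permanent_updateRow_eq, Polynomial.finsetSum_coeff]
  refine Finset.sum_congr rfl fun σ _ => ?_
  have h2 : ∏ i ∈ Finset.univ.erase u, (M.map (C : R →+* R[X])) i (σ i)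
      = C (∏ i ∈ Finset.univ.erase u, M i (σ i)) := by
    rw [map_prod]; rfl
  rw [h2, Polynomial.coeff_mul_C]
  simp

/-- The core inequality: an affine determinantal expression of the permanent, a zero `x` of the
permanent with nonzero gradient, and a space `E` of directions along which the permanent vanishes
to third order at `x`, none of whose nonzero elements is a direction of constancy of the
(projectivised) gradient. -/
theorem core_bound (A : Matrix ν ν (MvPolynomial (ι × ι) K))
    (hA : ∀ i j, (A i j).totalDegree ≤ 1)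
    (hdet : A.det = (Matrix.of (fun i j : ι =>
            (MvPolynomial.X (i, j) : MvPolynomial (ι × ι) K))).permanent)
    (x : Matrix ι ι K) (hx : x.permanent = 0)
    (u0 : ι) (y0 : ι → K) (hgrad : (x.updateRow u0 y0).permanent ≠ 0)
    {E : Type*} [AddCommGroup E] [Module K E] [FiniteDimensional K E]
    (Ψ : E →ₗ[K] Matrix ι ι K)
    (h1 : ∀ e, ((x.map C + (X : K[X]) • (Ψ e).map C).permanent).coeff 1 = 0)
    (h2 : ∀ e, ((x.map C + (X : K[X]) • (Ψ e).map C).permanent).coeff 2 = 0)
    (h3 : ∀ e, (∃ φ : K[X], ∀ (u : ι) (y : ι → K),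
      ((x.map C + (X : K[X]) • (Ψ e).map C).updateRow u (fun j => C (y j))).permanent
        = φ * C (x.updateRow u y).permanent) → e = 0) :
    Module.finrank K E + 1 ≤ Fintype.card ν := by
  classical
  obtain ⟨L, L', D, hB⟩ :=
    Matrix.Pivot.exists_list_transvec_mul_diagonal_mul_list_transvec (evM A x)
  set P := (L.map Matrix.TransvectionStruct.toMatrix).prod with hPdef
  set Q := (L'.map Matrix.TransvectionStruct.toMatrix).prod with hQdef
  have hP1 : P.det = 1 := Matrix.TransvectionStruct.det_toMatrix_prod L
  have hQ1 : Q.det = 1 := Matrix.TransvectionStruct.det_toMatrix_prod L'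
  have hPu : IsUnit P.det := by rw [hP1]; exact isUnit_one
  have hQu : IsUnit Q.det := by rw [hQ1]; exact isUnit_one
  -- transformed linear part
  let LL : Matrix ι ι K →ₗ[K] Matrix ν ν K :=
    { toFun := fun z => P⁻¹ * lnM A z * Q⁻¹
      map_add' := by
        intro z w
        simp only [lnM_add, Matrix.mul_add, Matrix.add_mul]
      map_smul' := by
        intro c z
        simp only [lnM_smul, Matrix.mul_smul, Matrix.smul_mul, RingHom.id_apply] }
  have hLL : ∀ z, lnM A z = P * LL z * Q := by
    intro z
    change lnM A z = P * (P⁻¹ * lnM A z * Q⁻¹) * Q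
    rw [← Matrix.mul_assoc, ← Matrix.mul_assoc, Matrix.mul_nonsing_inv P hPu, Matrix.one_mul,
      Matrix.mul_assoc, Matrix.nonsing_inv_mul Q hQu, Matrix.mul_one]
  have hdetM : ∀ M : Matrix ν ν K[X], (P.map (C : K →+* K[X]) * M * Q.map C).det = M.det := by
    intro M
    have e1 : (P.map (C : K →+* K[X])).det = 1 := by
      have := RingHom.map_det (C : K →+* K[X]) P
      rw [hP1, map_one] at this
      exact this.symm
    have e2 : (Q.map (C : K →+* K[X])).det = 1 := by
      have := RingHom.map_det (C : K →+* K[X]) Q
      rw [hQ1, map_one] at this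
      exact this.symm
    rw [Matrix.det_mul, Matrix.det_mul, e1, e2, one_mul, mul_one]
  -- the matrix along x + X z
  have hline : ∀ z, evM A (x.map C + (X : K[X]) • z.map C)
      = P.map (C : K →+* K[X]) * ((diagonal D).map C + (X : K[X]) • (LL z).map C) * Q.map C := by
    intro z
    rw [evM_add_X A hA, hB, hLL z, Matrix.map_mul, Matrix.map_mul, Matrix.map_mul, Matrix.map_mul,
      Matrix.mul_add, Matrix.add_mul, Matrix.mul_smul, Matrix.smul_mul]
  have hperm : ∀ z, (x.map C + (X : K[X]) • z.map C).permanent
      = ((diagonal D).map C + (X : K[X]) • (LL z).map C).det := by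
    intro z
    rw [← det_evM A hdet, hline, hdetM]
  -- D has a zero
  have hdet0 : ∏ i, D i = 0 := by
    have := hperm 0
    rw [map_zero] at this
    have h4 := congrArg (fun p => eval 0 p) this
    simp only [Matrix.map_zero _ (map_zero C), smul_zero, add_zero] at h4
    have h5 : eval 0 (x.map (C : K →+* K[X])).permanent = x.permanent := by
      simp [Matrix.permanent, eval_finsetSum, eval_prod]
    have h6 : eval 0 ((diagonal D).map (C : K →+* K[X])).det = ∏ i, D i := by
      rw [← coe_evalRingHom, RingHom.map_det, ← Matrix.det_diagonal]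
      congr 1
      ext i j
      by_cases hij : i = j
      · subst hij; simp
      · simp [hij]
    rw [h5, h6, hx] at h4
    exact h4.symm
  obtain ⟨i0, -, hi0⟩ := Finset.prod_eq_zero_iff.mp hdet0
  -- gradient formula
  have hgr : ∀ (z : Matrix ι ι K), (∀ j, LL z i0 j = 0) → (∀ j, LL z j i0 = 0) →
      ∀ (u : ι) (y : ι → K),
      ((x.map C + (X : K[X]) • z.map C).updateRow u (fun j => C (y j))).permanent
        = C (LL ((0 : Matrix ι ι K).updateRow u y) i0 i0)
          * (((diagonal D).map C + (X : K[X]) • (LL z).map C).updateRow i0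
            (Pi.single i0 1)).det := by
    intro z hz1 hz2 u y
    rw [← coeff_one_permanent]
    have e1 : ((0 : Matrix ι ι K[X]).updateRow u (fun j => C (y j)))
        = ((0 : Matrix ι ι K).updateRow u y).map C := by
      ext1 i j
      by_cases hi : i = u
      · subst hi; simp
      · simp [hi]
    rw [e1]
    rw [← det_evM A hdet, evM_add_X A hA, lnM_map_C, hline, hLL, Matrix.map_mul, Matrix.map_mul,
      Matrix.map_mul, Matrix.map_mul, Matrix.map_mul, Matrix.map_mul, ← Matrix.smul_mul,
      ← Matrix.mul_smul, ← Matrix.add_mul, ← Matrix.mul_add]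
    have e2 : ∀ M : Matrix ν ν K[X][X],
        ((P.map (C : K →+* K[X])).map (C : K[X] →+* K[X][X]) * M
          * (Q.map (C : K →+* K[X])).map (C : K[X] →+* K[X][X])).det = M.det := by
      intro M
      have e1 : ((P.map (C : K →+* K[X])).map (C : K[X] →+* K[X][X])).det = 1 := by
        have := RingHom.map_det ((C : K[X] →+* K[X][X]).comp (C : K →+* K[X])) P
        rw [hP1, map_one] at this
        rw [this]
        rfl
      have e2 : ((Q.map (C : K →+* K[X])).map (C : K[X] →+* K[X][X])).det = 1 := by
        have := RingHom.map_det ((C : K[X] →+* K[X][X]).comp (C : K →+* K[X])) Q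
        rw [hQ1, map_one] at this
        rw [this]
        rfl
      rw [Matrix.det_mul, Matrix.det_mul, e1, e2, one_mul, mul_one]
    rw [e2]
    rw [coeff_one_det _ _ i0]
    · simp
    · intro j
      by_cases hj : j = i0
      · subst hj; simp [hi0, hz1]
      · simp [hz1, Ne.symm hj]
    · intro j
      by_cases hj : j = i0
      · subst hj; simp [hi0, hz2]
      · simp [hz2, hj]
  -- the other diagonal entries are nonzero
  have hD : ∀ j, j ≠ i0 → D j ≠ 0 := by
    intro j hj hDj
    apply hgrad
    have e3 := hgr 0 (by simp) (by simp) u0 y0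
    have e4 : (((diagonal D).map C + (X : K[X]) • (LL 0).map C).updateRow i0
            (Pi.single i0 1)).det = 0 := by
      apply Matrix.det_eq_zero_of_row_eq_zero j
      intro k
      rw [Matrix.updateRow_ne hj]
      by_cases hk : j = k
      · subst hk; simp [hDj]
      · simp [hk]
    rw [e4, mul_zero] at e3
    have e5 := congrArg (fun p => eval 0 p) e3
    simp only [eval_zero] at e5
    rw [← e5, permanent_updateRow_eq, permanent_updateRow_eq, eval_finsetSum]
    refine Finset.sum_congr rfl fun σ _ => ?_
    rw [eval_mul, eval_prod]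
    simp
  have hcard : Fintype.card {j // j ≠ i0} + 1 = Fintype.card ν := by
    have h7 : Fintype.card {j // j ≠ i0} = Fintype.card ν - Fintype.card {j // j = i0} :=
      Fintype.card_subtype_compl (fun i => i = i0)
    have h8 : Fintype.card {j // j = i0} = 1 := Fintype.card_unique
    have h9 : 0 < Fintype.card ν := Fintype.card_pos_iff.mpr ⟨i0⟩
    omega
  rw [← hcard]
  apply Nat.add_le_add_right
  have hcne : ((diagonal D).updateRow i0 (Pi.single i0 1)).det ≠ 0 := by
    have e6 : (diagonal D).updateRow i0 (Pi.single i0 1) = diagonal (Function.update D i0 1) := by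
      ext i j
      by_cases hi : i = i0
      · subst hi
        by_cases hj : j = i
        · subst hj; simp
        · simp [hj, Ne.symm hj]
      · by_cases hij : i = j
        · subst hij; simp [hi]
        · simp [hi, hij]
    rw [e6, det_diagonal]
    refine Finset.prod_ne_zero_iff.mpr fun j _ => ?_
    by_cases hj : j = i0
    · subst hj; simp
    · simpa [hj] using hD j hj
  -- use the isotropic bound
  have h00 : ∀ e, LL (Ψ e) i0 i0 = 0 := by
    intro e
    have e7 := h1 e
    rw [hperm, coeff_one_det _ _ i0] at e7
    · rcases mul_eq_zero.mp e7 with h | h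
      · exact h
      · exact absurd h hcne
    · intro j
      by_cases hj : j = i0
      · subst hj; simp [hi0]
      · simp [Ne.symm hj]
    · intro j
      by_cases hj : j = i0
      · subst hj; simp [hi0]
      · simp [hj]
  have hgr0 : ∀ (u : ι) (y : ι → K), (x.updateRow u y).permanent
      = LL ((0 : Matrix ι ι K).updateRow u y) i0 i0
        * ((diagonal D).updateRow i0 (Pi.single i0 1)).det := by
    intro u y
    have e3 := hgr 0 (by simp) (by simp) u y
    have e5 := congrArg (fun p => eval 0 p) e3
    simp only [eval_mul, eval_C] at e5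
    have e8 : eval 0 ((x.map C + (X : K[X]) • (0 : Matrix ι ι K).map C).updateRow u
        (fun j => C (y j))).permanent = (x.updateRow u y).permanent := by
      rw [permanent_updateRow_eq, permanent_updateRow_eq, eval_finsetSum]
      refine Finset.sum_congr rfl fun σ _ => ?_
      rw [eval_mul, eval_prod]
      simp
    rw [e8] at e5
    rw [e5]
    congr 1
    rw [← coe_evalRingHom, RingHom.map_det]
    congr 1
    ext i j
    by_cases hi : i = i0
    · subst hi
      by_cases hj : j = i
      · subst hj; simp
      · simp [hj]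
    · by_cases hij : i = j
      · subst hij; simp [hi]
      · simp [hi, hij]
  let PP : E →ₗ[K] ({j // j ≠ i0} → K) :=
    { toFun := fun e j => LL (Ψ e) i0 j
      map_add' := by intro a b; ext j; simp
      map_smul' := by intro a b; ext j; simp }
  let QQ : E →ₗ[K] ({j // j ≠ i0} → K) :=
    { toFun := fun e j => LL (Ψ e) j i0
      map_add' := by intro a b; ext j; simp
      map_smul' := by intro a b; ext j; simp }
  apply isotropic_bound (fun j : {j // j ≠ i0} => (D j)⁻¹) (fun j => inv_ne_zero (hD j j.2)) PP QQ
  · intro e hP0 hQ0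
    apply h3
    have hz1 : ∀ j, LL (Ψ e) i0 j = 0 := by
      intro j
      by_cases hj : j = i0
      · subst hj; exact h00 e
      · exact congrFun hP0 ⟨j, hj⟩
    have hz2 : ∀ j, LL (Ψ e) j i0 = 0 := by
      intro j
      by_cases hj : j = i0
      · subst hj; exact h00 e
      · exact congrFun hQ0 ⟨j, hj⟩
    refine ⟨(((diagonal D).map C + (X : K[X]) • (LL (Ψ e)).map C).updateRow i0
            (Pi.single i0 1)).det * C (((diagonal D).updateRow i0 (Pi.single i0 1)).det)⁻¹, ?_⟩
    intro u y
    rw [hgr (Ψ e) hz1 hz2 u y, hgr0 u y, C_mul]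
    have e9 : (C (((diagonal D).updateRow i0 (Pi.single i0 1)).det)⁻¹ : K[X])
        * C (((diagonal D).updateRow i0 (Pi.single i0 1)).det) = 1 := by
      rw [← C_mul, inv_mul_cancel₀ hcne, C_1]
    linear_combination (-(C (LL ((0 : Matrix ι ι K).updateRow u y) i0 i0))
      * (((diagonal D).map C + (X : K[X]) • (LL (Ψ e)).map C).updateRow i0
            (Pi.single i0 1)).det) * e9
  · intro e
    have h10 := h2 e
    rw [hperm, coeff_det_of_row D _ i0 hi0 (h00 e)] at h10
    rw [arrow_det i0 D hD _ (by simp [h00 e])] at h10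
    · have hprod : (∏ j : {j // j ≠ i0}, D j) ≠ 0 :=
        Finset.prod_ne_zero_iff.mpr fun j _ => hD j j.2
      rcases mul_eq_zero.mp h10 with h | h
      · exact absurd (neg_eq_zero.mp h) hprod
      · rw [← h]
        refine Finset.sum_congr rfl fun j _ => ?_
        have hj := j.2
        simp [PP, QQ, hj]
    · intro i j hi hj
      simp [hi, hj]

end ev

end Pool.Agent.Work.MP_35c45d_lc
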