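import Mathlib
import Pool.Agent.Work.MP_35c45d_lc.SQDefs
import Pool.Agent.Work.MP_35c45d_lc.SQPersist

/-! Persistence of nondegenerate critical points under coefficientwise limits, the direction being
allowed to vary. -/

set_option autoImplicit false

namespace Pool.Agent.Work.MP_35c45d_lc.MP

open MvPolynomial Filter Topology Pool.Agent.Work.MP_35c45d_lc.SQ SQ.Persist

variable {ι : Type} [Fintype ι]

omit [Fintype ι] in
theorem cd_lift {E V W : Type} [NormedAddCommGroup E] [NormedSpace ℂ E] [NormedAddCommGroup V]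
    [NormedSpace ℂ V] [NormedAddCommGroup W] [NormedSpace ℂ W] {G : E × V → ℂ}
    (h : ContDiff ℂ 1 G) : ContDiff ℂ 1 (fun q : (E × W) × V => G (q.1.1, q.2)) :=
  h.comp ((contDiff_fst.comp contDiff_fst).prodMk contDiff_snd)

omit [Fintype ι] in
theorem cd_mid {E V W : Type} [NormedAddCommGroup E] [NormedSpace ℂ E] [NormedAddCommGroup V]
    [NormedSpace ℂ V] [NormedAddCommGroup W] [NormedSpace ℂ W] {G : W → ℂ}
    (h : ContDiff ℂ 1 G) : ContDiff ℂ 1 (fun q : (E × W) × V => G q.1.2) :=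
  h.comp (contDiff_snd.comp contDiff_fst)

omit [Fintype ι] in
theorem cd_comb {Q : Type} [NormedAddCommGroup Q] [NormedSpace ℂ Q] {a b u v : Q → ℂ}
    (ha : ContDiff ℂ 1 a) (hb : ContDiff ℂ 1 b) (hu : ContDiff ℂ 1 u) (hv : ContDiff ℂ 1 v) :
    ContDiff ℂ 1 (fun q => a q * u q - b q * v q) :=
  (ha.mul hu).sub (hb.mul hv)

theorem contDiff_lin {N : ℕ} (L : MvPolynomial ι ℂ →ₗ[ℂ] MvPolynomial ι ℂ) :
    ContDiff ℂ 1 (fun q : ((ex ι N → ℂ) × (ι → ℂ)) × (ι → ℂ) => eval q.2 (L (pol q.1.1))) :=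
  cd_lift (W := ι → ℂ) (contDiff_pol L)

theorem contDiff_dir {N : ℕ} (j : ι) :
    ContDiff ℂ 1 (fun q : ((ex ι N → ℂ) × (ι → ℂ)) × (ι → ℂ) => q.1.2 j) :=
  cd_mid (E := ex ι N → ℂ) (V := ι → ℂ) (contDiff_apply ℂ ℂ j)

/-- the rows of the square system are continuously differentiable in coefficients, direction and
point -/
theorem contDiff_row {N : ℕ} (i0 i : ι) :
    ContDiff ℂ 1 (fun q : ((ex ι N → ℂ) × (ι → ℂ)) × (ι → ℂ) =>
      eval q.2 (rowL q.1.2 i0 i (pol q.1.1))) := by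
  by_cases hi : i = i0
  · have h1 : (fun q : ((ex ι N → ℂ) × (ι → ℂ)) × (ι → ℂ) =>
        eval q.2 (rowL q.1.2 i0 i (pol q.1.1))) = fun q : ((ex ι N → ℂ) × (ι → ℂ)) × (ι → ℂ) =>
        eval q.2 ((LinearMap.id : MvPolynomial ι ℂ →ₗ[ℂ] MvPolynomial ι ℂ) (pol q.1.1)) := by
      funext q
      rw [hi, rowL_self, LinearMap.id_apply]
    rw [h1]
    exact contDiff_lin _
  · have h1 : (fun q : ((ex ι N → ℂ) × (ι → ℂ)) × (ι → ℂ) =>
        eval q.2 (rowL q.1.2 i0 i (pol q.1.1))) = fun q : ((ex ι N → ℂ) × (ι → ℂ)) × (ι → ℂ) =>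
        q.1.2 i0 * eval q.2 (((pderiv i : Derivation ℂ (MvPolynomial ι ℂ) (MvPolynomial ι ℂ)) :
        MvPolynomial ι ℂ →ₗ[ℂ] MvPolynomial ι ℂ) (pol q.1.1)) -
        q.1.2 i * eval q.2 (((pderiv i0 : Derivation ℂ (MvPolynomial ι ℂ) (MvPolynomial ι ℂ)) :
        MvPolynomial ι ℂ →ₗ[ℂ] MvPolynomial ι ℂ) (pol q.1.1)) := by
      funext q
      rw [rowL_ne _ hi, map_sub, smul_eval, smul_eval]
      rfl
    rw [h1]
    have e1 := contDiff_lin (N := N)
      ((pderiv i : Derivation ℂ (MvPolynomial ι ℂ) (MvPolynomial ι ℂ)) :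
        MvPolynomial ι ℂ →ₗ[ℂ] MvPolynomial ι ℂ)
    have e2 := contDiff_lin (N := N)
      ((pderiv i0 : Derivation ℂ (MvPolynomial ι ℂ) (MvPolynomial ι ℂ)) :
        MvPolynomial ι ℂ →ₗ[ℂ] MvPolynomial ι ℂ)
    have e3 := contDiff_dir (N := N) i0
    have e4 := contDiff_dir (N := N) i
    exact cd_comb e3 e4 e1 e2

/-- the Jacobian is continuous in coefficients, direction and point -/
theorem continuous_jac {N : ℕ} (i0 : ι) :
    Continuous (fun q : ((ex ι N → ℂ) × (ι → ℂ)) × (ι → ℂ) =>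
      jac q.1.2 i0 (pol q.1.1) q.2) := by
  refine continuous_matrix fun i j => ?_
  have hc : ∀ j : ι, Continuous (fun q : ((ex ι N → ℂ) × (ι → ℂ)) × (ι → ℂ) => q.1.2 j) :=
    fun j => (contDiff_dir j).continuous
  have hL : ∀ L : MvPolynomial ι ℂ →ₗ[ℂ] MvPolynomial ι ℂ,
      Continuous (fun q : ((ex ι N → ℂ) × (ι → ℂ)) × (ι → ℂ) =>
        eval q.2 (L (pol q.1.1))) := fun L => (contDiff_lin L).continuous
  by_cases hi : i = i0
  · subst hi
    simp only [jac, Matrix.of_apply, rowL_self]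
    exact hL ((pderiv j : Derivation ℂ (MvPolynomial ι ℂ) (MvPolynomial ι ℂ)) :
        MvPolynomial ι ℂ →ₗ[ℂ] MvPolynomial ι ℂ)
  · simp only [jac, Matrix.of_apply, rowL_ne _ hi, map_sub, Derivation.map_smul, smul_eval]
    exact ((hc i0).mul (hL (((pderiv j : Derivation ℂ (MvPolynomial ι ℂ) (MvPolynomial ι ℂ)) :
        MvPolynomial ι ℂ →ₗ[ℂ] MvPolynomial ι ℂ) ∘ₗ
        ((pderiv i : Derivation ℂ (MvPolynomial ι ℂ) (MvPolynomial ι ℂ)) :
        MvPolynomial ι ℂ →ₗ[ℂ] MvPolynomial ι ℂ)))).sub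
      ((hc i).mul (hL (((pderiv j : Derivation ℂ (MvPolynomial ι ℂ) (MvPolynomial ι ℂ)) :
        MvPolynomial ι ℂ →ₗ[ℂ] MvPolynomial ι ℂ) ∘ₗ
        ((pderiv i0 : Derivation ℂ (MvPolynomial ι ℂ) (MvPolynomial ι ℂ)) :
        MvPolynomial ι ℂ →ₗ[ℂ] MvPolynomial ι ℂ))))

/-- Persistence with varying polynomial and varying direction. -/
theorem persist_dir (N : ℕ) (f : MvPolynomial ι ℂ)
    (g : ℕ → MvPolynomial ι ℂ) (hN : ∀ s, (g s).totalDegree ≤ N)
    (hlim : ∀ d, Tendsto (fun s => coeff d (g s)) atTop (𝓝 (coeff d f)))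
    (c x : ι → ℂ) (c' : ℕ → ι → ℂ) (hc' : Tendsto c' atTop (𝓝 c)) (hc : c ≠ 0)
    (hx : IsCrit f c x) (U : Set (ι → ℂ)) (hU : U ∈ 𝓝 x) :
    ∀ᶠ s in atTop, ∃ x' ∈ U, IsCrit (g s) (c' s) x' := by
  classical
  obtain ⟨i0, hi0⟩ : ∃ i0, c i0 ≠ 0 := by
    by_contra h
    push Not at h
    exact hc (funext h)
  rw [isCrit_iff c i0 hi0] at hx
  obtain ⟨hx1, hx2, hx3⟩ := hx
  have hgN : ∀ s d, N < Finsupp.degree d → coeff d (g s) = 0 := by
    intro s d hd
    apply coeff_eq_zero_of_totalDegree_lt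
    refine lt_of_le_of_lt (hN s) (lt_of_lt_of_le hd ?_)
    rw [Finsupp.degree_apply]
  have hfN : ∀ d, N < Finsupp.degree d → coeff d f = 0 := by
    intro d hd
    have h2 := hlim d
    simp only [hgN _ d hd] at h2
    exact (tendsto_nhds_unique h2 tendsto_const_nhds)
  set a0 : ex ι N → ℂ := fun d => coeff d.1 f with ha0
  have hpf : pol a0 = f := pol_coeff f hfN
  let Φ : ((ex ι N → ℂ) × (ι → ℂ)) × (ι → ℂ) → (ι → ℂ) :=
    fun q i => eval q.2 (rowL q.1.2 i0 i (pol q.1.1))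
  have hΦ : ContDiff ℂ 1 Φ := contDiff_pi.2 fun i => contDiff_row i0 i
  let F : ((ex ι N → ℂ) × (ι → ℂ)) × (ι → ℂ) → ((ex ι N → ℂ) × (ι → ℂ)) × (ι → ℂ) :=
    fun q => (q.1, Φ q)
  have hΦs : HasStrictFDerivAt Φ (fderiv ℂ Φ ((a0, c), x)) ((a0, c), x) :=
    hΦ.contDiffAt.hasStrictFDerivAt one_ne_zero
  have hF : HasStrictFDerivAt F ((ContinuousLinearMap.fst ℂ _ _).prod (fderiv ℂ Φ ((a0, c), x)))
      ((a0, c), x) := hasStrictFDerivAt_fst.prodMk hΦs
  have hpart : ∀ v : ι → ℂ, fderiv ℂ Φ ((a0, c), x) (0, v) = (jac c i0 f x).mulVec v := by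
    intro v
    have h1 : HasFDerivAt (fun y : ι → ℂ => Φ ((a0, c), y))
        ((fderiv ℂ Φ ((a0, c), x)).comp ((0 : (ι → ℂ) →L[ℂ] ((ex ι N → ℂ) × (ι → ℂ))).prod
          (ContinuousLinearMap.id ℂ (ι → ℂ)))) x := by
      have h2 : HasFDerivAt (fun y : ι → ℂ =>
          (((a0, c), y) : ((ex ι N → ℂ) × (ι → ℂ)) × (ι → ℂ)))
          ((0 : (ι → ℂ) →L[ℂ] ((ex ι N → ℂ) × (ι → ℂ))).prod
            (ContinuousLinearMap.id ℂ (ι → ℂ))) x :=
        (hasFDerivAt_const (a0, c) x).prodMk (hasFDerivAt_id x)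
      exact hΦs.hasFDerivAt.comp x h2
    have h3 : HasFDerivAt (fun y : ι → ℂ => Φ ((a0, c), y))
        (ContinuousLinearMap.pi fun i => dlin (rowL c i0 i f) x) x := by
      rw [hasFDerivAt_pi]
      intro i
      simp only [hpf]
      exact hasFDerivAt_eval _ _
    have h4 := h1.unique h3
    have h5 := congrArg (fun L : (ι → ℂ) →L[ℂ] (ι → ℂ) => L v) h4
    funext i
    have h6 := congrFun h5 i
    simp only [ContinuousLinearMap.pi_apply, dlin_apply] at h6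
    exact h6
  have hsurj : ((ContinuousLinearMap.fst ℂ ((ex ι N → ℂ) × (ι → ℂ)) (ι → ℂ)).prod
      (fderiv ℂ Φ ((a0, c), x))).range = ⊤ := by
    rw [LinearMap.range_eq_top]
    rintro ⟨a, z⟩
    obtain ⟨v, hv⟩ : ∃ v, (jac c i0 f x).mulVec v = z - fderiv ℂ Φ ((a0, c), x) (a, 0) := by
      refine ⟨(jac c i0 f x)⁻¹.mulVec (z - fderiv ℂ Φ ((a0, c), x) (a, 0)), ?_⟩
      rw [Matrix.mulVec_mulVec, Matrix.mul_nonsing_inv _ (isUnit_iff_ne_zero.2 hx3),
        Matrix.one_mulVec]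
    refine ⟨(a, v), ?_⟩
    have h1 : ((a, v) : ((ex ι N → ℂ) × (ι → ℂ)) × (ι → ℂ)) = (a, 0) + (0, v) := by simp
    have h2 : fderiv ℂ Φ ((a0, c), x) (a, v) = z := by
      rw [h1, map_add, hpart, hv]
      abel
    exact Prod.ext rfl h2
  have hopen := hF.map_nhds_eq_of_surj hsurj
  have hF0 : F ((a0, c), x) = ((a0, c), 0) := by
    refine Prod.ext rfl ?_
    funext i
    simp only [F, Φ, hpf]
    exact hx1 i
  rw [hF0] at hopen
  -- the open conditions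
  have hW1 : ∀ᶠ q : ((ex ι N → ℂ) × (ι → ℂ)) × (ι → ℂ) in 𝓝 ((a0, c), x),
      eval q.2 (pderiv i0 (pol q.1.1)) ≠ 0 := by
    have h1 := ((contDiff_lin (N := N)
      ((pderiv i0 : Derivation ℂ (MvPolynomial ι ℂ) (MvPolynomial ι ℂ)) :
      MvPolynomial ι ℂ →ₗ[ℂ] MvPolynomial ι ℂ)).continuous).continuousAt
        (x := ((a0, c), x))
    refine h1.eventually_ne ?_
    simp only [hpf]
    exact hx2
  have hW2 : ∀ᶠ q : ((ex ι N → ℂ) × (ι → ℂ)) × (ι → ℂ) in 𝓝 ((a0, c), x),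
      (jac q.1.2 i0 (pol q.1.1) q.2).det ≠ 0 := by
    have h2 := ((continuous_jac (N := N) i0).matrix_det).continuousAt (x := ((a0, c), x))
    refine h2.eventually_ne ?_
    simp only [hpf]
    exact hx3
  have hW3 : ∀ᶠ q : ((ex ι N → ℂ) × (ι → ℂ)) × (ι → ℂ) in 𝓝 ((a0, c), x), q.2 ∈ U :=
    (continuous_snd.tendsto ((a0, c), x)).eventually hU
  have hW := (hW1.and (hW2.and hW3))
  have himg : F '' {q | eval q.2 (pderiv i0 (pol q.1.1)) ≠ 0 ∧
      (jac q.1.2 i0 (pol q.1.1) q.2).det ≠ 0 ∧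
      q.2 ∈ U} ∈ 𝓝 ((a0, c), (0 : ι → ℂ)) := by
    rw [← hopen]
    exact image_mem_map hW
  have hseq : Tendsto (fun s => (((fun d : ex ι N => coeff d.1 (g s), c' s), (0 : ι → ℂ)) :
      ((ex ι N → ℂ) × (ι → ℂ)) × (ι → ℂ))) atTop (𝓝 ((a0, c), 0)) := by
    refine Tendsto.prodMk_nhds (Tendsto.prodMk_nhds ?_ hc') tendsto_const_nhds
    exact tendsto_pi_nhds.2 fun d => hlim d.1
  have hne : ∀ᶠ s in atTop, c' s i0 ≠ 0 :=
    ((tendsto_pi_nhds.1 hc') i0).eventually_ne hi0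
  filter_upwards [hseq.eventually himg, hne] with s hs hs0
  obtain ⟨⟨⟨a, e⟩, y⟩, ⟨h1, h2, h3⟩, h4⟩ := hs
  have h5 : (a, e) = (fun d : ex ι N => coeff d.1 (g s), c' s) := congrArg Prod.fst h4
  have h5a : a = fun d : ex ι N => coeff d.1 (g s) := congrArg Prod.fst h5
  have h5b : e = c' s := congrArg Prod.snd h5
  have h6 : Φ ((a, e), y) = 0 := congrArg Prod.snd h4
  have h7 : pol a = g s := by rw [h5a]; exact pol_coeff (g s) (hgN s)
  subst h5b
  simp only [h7] at h1 h2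
  refine ⟨y, h3, ?_⟩
  rw [isCrit_iff (c' s) i0 hs0]
  refine ⟨fun i => ?_, h1, h2⟩
  have h8 := congrFun h6 i
  simp only [Φ, h7] at h8
  exact h8

/-- The point stays nondegenerate if it stays a zero and the direction is the gradient there. -/
theorem persist_same (N : ℕ) (f : MvPolynomial ι ℂ)
    (g : ℕ → MvPolynomial ι ℂ) (hN : ∀ s, (g s).totalDegree ≤ N)
    (hlim : ∀ d, Tendsto (fun s => coeff d (g s)) atTop (𝓝 (coeff d f)))
    (c x : ι → ℂ) (hc : c ≠ 0) (hx : IsCrit f c x) (h0 : ∀ s, eval x (g s) = 0) :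
    ∀ᶠ s in atTop, IsCrit (g s) (fun i => eval x (pderiv i (g s))) x := by
  classical
  obtain ⟨i0, hi0⟩ : ∃ i0, c i0 ≠ 0 := by
    by_contra h
    push Not at h
    exact hc (funext h)
  have hgN : ∀ s d, N < Finsupp.degree d → coeff d (g s) = 0 := by
    intro s d hd
    apply coeff_eq_zero_of_totalDegree_lt
    refine lt_of_le_of_lt (hN s) (lt_of_lt_of_le hd ?_)
    rw [Finsupp.degree_apply]
  have hfN : ∀ d, N < Finsupp.degree d → coeff d f = 0 := by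
    intro d hd
    have h2 := hlim d
    simp only [hgN _ d hd] at h2
    exact (tendsto_nhds_unique h2 tendsto_const_nhds)
  set a0 : ex ι N → ℂ := fun d => coeff d.1 f with ha0
  have hpf : pol a0 = f := pol_coeff f hfN
  have hpg : ∀ s, pol (fun d : ex ι N => coeff d.1 (g s)) = g s := fun s => pol_coeff _ (hgN s)
  -- the limit direction is the gradient of `f`
  obtain ⟨lam, hlam, hgrad⟩ := hx.2.1
  have hx' : IsCrit f (fun i => eval x (pderiv i f)) x := by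
    refine ⟨hx.1, ⟨1, one_ne_zero, fun i => by rw [one_mul]⟩, ?_⟩
    rintro u hu ⟨τ, hτ⟩
    refine hx.2.2 u hu ⟨τ * lam, fun i => ?_⟩
    rw [hτ]
    change τ * eval x (pderiv i f) = τ * lam * c i
    rw [hgrad]
    ring
  have hne : (fun i => eval x (pderiv i f)) i0 ≠ 0 := by
    change eval x (pderiv i0 f) ≠ 0
    rw [hgrad]
    exact mul_ne_zero hlam hi0
  rw [isCrit_iff _ i0 hne] at hx'
  obtain ⟨-, -, hx3⟩ := hx'
  -- convergence of the data
  have ha : Tendsto (fun s => (fun d : ex ι N => coeff d.1 (g s))) atTop (𝓝 a0) :=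
    tendsto_pi_nhds.2 fun d => hlim d.1
  have hcs : Tendsto (fun s => (fun i => eval x (pderiv i (g s)))) atTop
      (𝓝 (fun i => eval x (pderiv i f))) := by
    refine tendsto_pi_nhds.2 fun i => ?_
    have h1 : Continuous (fun q : (ex ι N → ℂ) × (ι → ℂ) => eval q.2
      (((pderiv i : Derivation ℂ (MvPolynomial ι ℂ) (MvPolynomial ι ℂ)) :
        MvPolynomial ι ℂ →ₗ[ℂ] MvPolynomial ι ℂ) (pol q.1))) := (contDiff_pol _).continuous
    have h2 := (h1.tendsto (a0, x)).comp (ha.prodMk_nhds (tendsto_const_nhds (x := x)))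
    simp only [hpf, Function.comp_def, hpg] at h2
    exact h2
  have hjac : ∀ᶠ s in atTop, (jac (fun i => eval x (pderiv i (g s))) i0 (g s) x).det ≠ 0 := by
    have h1 := ((continuous_jac (N := N) i0).matrix_det).tendsto
      ((a0, (fun i => eval x (pderiv i f))), x)
    have h2 := h1.comp ((ha.prodMk_nhds hcs).prodMk_nhds (tendsto_const_nhds (x := x)))
    simp only [hpf, Function.comp_def, hpg] at h2
    exact h2.eventually_ne hx3
  have hev : ∀ᶠ s in atTop, eval x (pderiv i0 (g s)) ≠ 0 :=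
    ((tendsto_pi_nhds.1 hcs) i0).eventually_ne hne
  filter_upwards [hjac, hev] with s h1 h2
  rw [isCrit_iff _ i0 h2]
  refine ⟨fun i => ?_, h2, h1⟩
  by_cases hi : i = i0
  · rw [hi, rowL_self, h0]
  · rw [rowL_ne _ hi, map_sub, smul_eval, smul_eval]
    ring

end Pool.Agent.Work.MP_35c45d_lc.MP
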