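import Mathlib
import Pool.Agent.Work.MP_35c45d_lc.SQPersist
import Pool.Agent.Work.MP_35c45d_lc.SQDetPsi

/-! Sheets: a nondegenerate critical point of `f = 0` gives one of `f ^ a * G - τ ^ a * H = 0` for
all small `τ`, if `G` and `H` do not vanish at the point. -/

set_option autoImplicit false
set_option linter.unusedSectionVars false

namespace Pool.Agent.Work.MP_35c45d_lc.MP

open MvPolynomial Filter Topology Pool.Agent.Work.MP_35c45d_lc.SQ
open Pool.Agent.Work.MP_35c45d_lc.SQ.Persist Pool.Agent.Work.MP_35c45d_lc.SQ.PsiAux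

section chain

variable {ι K : Type} [Fintype ι] [Fintype K]

theorem eval_aeval_pt (ρ : K → MvPolynomial ι ℂ) (x : ι → ℂ) (Q : MvPolynomial K ℂ) :
    eval x (aeval ρ Q) = eval (fun k => eval x (ρ k)) Q := by
  induction Q using MvPolynomial.induction_on with
  | C a => simp
  | add p q hp hq => rw [map_add, map_add, map_add, hp, hq]
  | mul_X p i hp => rw [map_mul, map_mul, map_mul, hp, aeval_X, eval_X]

/-- chain rule -/
theorem dd_aeval (ρ : K → MvPolynomial ι ℂ) (x u : ι → ℂ) (Q : MvPolynomial K ℂ) :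
    dd x u (aeval ρ Q) = dd (fun k => eval x (ρ k)) (fun k => dd x u (ρ k)) Q := by
  induction Q using MvPolynomial.induction_on with
  | C a =>
    rw [← algebraMap_eq, AlgHom.commutes, algebraMap_eq, algebraMap_eq, dd_C, dd_C]
  | add p q hp hq => rw [map_add, dd_add, dd_add, hp, hq]
  | mul_X p i hp => rw [map_mul, dd_mul, dd_mul, hp, aeval_X, dd_X, eval_X, eval_aeval_pt]

theorem dd_sub (p q : K → ℂ) (f g : MvPolynomial K ℂ) : dd p q (f - g) = dd p q f - dd p q g := by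
  simp only [dd, map_sub, mul_sub, Finset.sum_sub_distrib]

theorem dd_zero_dir (p : K → ℂ) (f : MvPolynomial K ℂ) : dd p (fun _ => 0) f = 0 := by
  simp [dd]

theorem dd_pow (p q : K → ℂ) (f : MvPolynomial K ℂ) (n : ℕ) :
    dd p q (f ^ (n + 1)) = ((n : ℂ) + 1) * eval p f ^ n * dd p q f := by
  induction n with
  | zero => simp
  | succ n ih =>
    rw [pow_succ, dd_mul, ih, map_pow]
    push_cast
    ring

end chain

section openmap

variable {K : Type} [Fintype K] [DecidableEq K]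

/-- a polynomial map is open near a point at which its Jacobian is invertible -/
theorem poly_open (R : K → MvPolynomial K ℂ) (p : K → ℂ)
    (hdet : (Matrix.of fun k l => eval p (pderiv l (R k)) : Matrix K K ℂ).det ≠ 0) :
    map (fun (z : K → ℂ) (k : K) => eval z (R k)) (𝓝 p) = 𝓝 (fun k => eval p (R k)) := by
  have hΦ : ContDiff ℂ 1 (fun (z : K → ℂ) (k : K) => eval z (R k)) :=
    contDiff_pi.2 fun k => contDiff_eval (R k)
  have hs : HasStrictFDerivAt (fun (z : K → ℂ) (k : K) => eval z (R k))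
      (fderiv ℂ (fun (z : K → ℂ) (k : K) => eval z (R k)) p) p :=
    hΦ.contDiffAt.hasStrictFDerivAt one_ne_zero
  have h3 : HasFDerivAt (fun (z : K → ℂ) (k : K) => eval z (R k))
      (ContinuousLinearMap.pi fun k => dlin (R k) p) p := by
    rw [hasFDerivAt_pi]
    intro k
    exact hasFDerivAt_eval _ _
  rw [h3.fderiv] at hs
  have hsurj : (ContinuousLinearMap.pi fun k => dlin (R k) p : (K → ℂ) →L[ℂ] (K → ℂ)).range = ⊤ := by
    rw [LinearMap.range_eq_top]
    intro z
    refine ⟨(Matrix.of fun k l => eval p (pderiv l (R k)) : Matrix K K ℂ)⁻¹.mulVec z, ?_⟩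
    have h4 := congrFun (congrArg (fun M : Matrix K K ℂ => M.mulVec)
      (Matrix.mul_nonsing_inv _ (isUnit_iff_ne_zero.2 hdet))) z
    rw [← Matrix.mulVec_mulVec, Matrix.one_mulVec] at h4
    funext k
    have h5 := congrFun h4 k
    simp only [ContinuousLinearMap.coe_coe, ContinuousLinearMap.pi_apply, dlin_apply]
    exact h5
  exact hs.map_nhds_eq_of_surj hsurj

/-- trivial kernel and the determinant of the Jacobian -/
theorem jac_det_iff (R : K → MvPolynomial K ℂ) (z : K → ℂ) :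
    (Matrix.of fun k l => eval z (pderiv l (R k)) : Matrix K K ℂ).det ≠ 0 ↔
      ∀ v : K → ℂ, (∀ k, dd z v (R k) = 0) → v = 0 := by
  constructor
  · intro h v hv
    by_contra hne
    apply h
    refine Matrix.exists_mulVec_eq_zero_iff.1 ⟨v, hne, ?_⟩
    funext k
    change ∑ l, eval z (pderiv l (R k)) * v l = 0
    rw [← hv k]
    unfold dd
    exact Finset.sum_congr rfl fun l _ => mul_comm _ _
  · intro h hdet
    obtain ⟨v, hv, hmv⟩ := Matrix.exists_mulVec_eq_zero_iff.2 hdet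
    apply hv
    apply h v
    intro k
    have h1 := congrFun hmv k
    change ∑ l, eval z (pderiv l (R k)) * v l = 0 at h1
    rw [← h1]
    unfold dd
    exact Finset.sum_congr rfl fun l _ => mul_comm _ _

end openmap

section sys

variable {ι : Type} [Fintype ι]

/-- old variables -/
noncomputable def up (p : MvPolynomial ι ℂ) : MvPolynomial (ι ⊕ Fin 2) ℂ :=
  aeval (fun i => X (Sum.inl i)) p

/-- the variable `w` -/
noncomputable def Ww (ι : Type) : MvPolynomial (ι ⊕ Fin 2) ℂ := X (Sum.inr 0)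

/-- the variable `τ` -/
noncomputable def Tt (ι : Type) : MvPolynomial (ι ⊕ Fin 2) ℂ := X (Sum.inr 1)

/-- the common factor -/
noncomputable def Bp (G : MvPolynomial ι ℂ) (b : ℕ) : MvPolynomial (ι ⊕ Fin 2) ℂ :=
  C ((b : ℂ) + 1) * Ww ι ^ b * up G

/-- the gradient, divided by `τ ^ b` -/
noncomputable def Vp (f G H : MvPolynomial ι ℂ) (b : ℕ) (i : ι) : MvPolynomial (ι ⊕ Fin 2) ℂ :=
  Bp G b * up (pderiv i f) + Tt ι * (Ww ι ^ (b + 1) * up (pderiv i G) - up (pderiv i H))

open Classical in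
/-- the system -/
noncomputable def Rs (f G H : MvPolynomial ι ℂ) (b : ℕ) (c : ι → ℂ) (i0 : ι) :
    (ι ⊕ Fin 2) → MvPolynomial (ι ⊕ Fin 2) ℂ
  | Sum.inl i => if i = i0 then up f - Tt ι * Ww ι
      else C (c i0) * Vp f G H b i - C (c i) * Vp f G H b i0
  | Sum.inr j => if j = 0 then Ww ι ^ (b + 1) * up G - up H else Tt ι

theorem dd_up (z v : (ι ⊕ Fin 2) → ℂ) (Q : MvPolynomial ι ℂ) :
    dd z v (up Q) = dd (fun i => z (Sum.inl i)) (fun i => v (Sum.inl i)) Q := by
  unfold up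
  rw [dd_aeval]
  simp only [eval_X, dd_X]

theorem eval_up (z : (ι ⊕ Fin 2) → ℂ) (Q : MvPolynomial ι ℂ) :
    eval z (up Q) = eval (fun i => z (Sum.inl i)) Q := by
  unfold up
  rw [eval_aeval_pt]
  simp only [eval_X]

/-- the substitution `w = f / τ` -/
noncomputable def rh (f : MvPolynomial ι ℂ) (τ : ℂ) : (ι ⊕ Fin 2) → MvPolynomial ι ℂ
  | Sum.inl i => X i
  | Sum.inr j => if j = 0 then C τ⁻¹ * f else C τ

theorem rh_up (f : MvPolynomial ι ℂ) (τ : ℂ) (Q : MvPolynomial ι ℂ) :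
    aeval (rh f τ) (up Q) = Q := by
  unfold up
  induction Q using MvPolynomial.induction_on with
  | C a => simp
  | add p q hp hq => rw [map_add, map_add, hp, hq]
  | mul_X p i hp => rw [map_mul, map_mul, hp, aeval_X, aeval_X]; rfl

theorem rh_W (f : MvPolynomial ι ℂ) (τ : ℂ) : aeval (rh f τ) (Ww ι) = C τ⁻¹ * f := by
  unfold Ww; rw [aeval_X]; simp [rh]

theorem rh_T (f : MvPolynomial ι ℂ) (τ : ℂ) : aeval (rh f τ) (Tt ι) = C τ := by
  unfold Tt; rw [aeval_X]; simp [rh]

theorem C_cancel {τ : ℂ} (hτ : τ ≠ 0) (n : ℕ) (q : MvPolynomial ι ℂ) :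
    C (τ ^ n) * ((C τ⁻¹ * q) ^ n) = q ^ n := by
  rw [mul_pow, ← mul_assoc, ← C_pow, ← C_mul, ← mul_pow, mul_inv_cancel₀ hτ, one_pow, C_1, one_mul]

theorem id_F (f G H : MvPolynomial ι ℂ) (b : ℕ) {τ : ℂ} (hτ : τ ≠ 0) :
    C (τ ^ (b + 1)) * aeval (rh f τ) (Ww ι ^ (b + 1) * up G - up H)
      = f ^ (b + 1) * G - C (τ ^ (b + 1)) * H := by
  have h : aeval (rh f τ) (Ww ι ^ (b + 1) * up G - up H) = (C τ⁻¹ * f) ^ (b + 1) * G - H := by
    rw [map_sub, map_mul, map_pow, rh_W, rh_up, rh_up]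
  rw [h, mul_sub, ← mul_assoc, C_cancel hτ]

theorem id_V (f G H : MvPolynomial ι ℂ) (b : ℕ) {τ : ℂ} (hτ : τ ≠ 0) (i : ι) :
    C (τ ^ b) * aeval (rh f τ) (Vp f G H b i)
      = pderiv i (f ^ (b + 1) * G - C (τ ^ (b + 1)) * H) := by
  have e0 : aeval (rh f τ) (C ((b : ℂ) + 1)) = (C ((b : ℂ) + 1) : MvPolynomial ι ℂ) := by
    rw [← algebraMap_eq, AlgHom.commutes, algebraMap_eq]
  have e1 : aeval (rh f τ) (Vp f G H b i)
      = C ((b : ℂ) + 1) * (C τ⁻¹ * f) ^ b * G * pderiv i f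
        + C τ * ((C τ⁻¹ * f) ^ (b + 1) * pderiv i G - pderiv i H) := by
    unfold Vp Bp
    rw [map_add, map_mul, map_mul, map_mul, map_mul, map_sub, map_mul, map_pow, map_pow, e0, rh_W,
      rh_T, rh_up, rh_up, rh_up, rh_up]
  have e2 : pderiv i (f ^ (b + 1)) = C ((b : ℂ) + 1) * f ^ b * pderiv i f := by
    rw [Derivation.leibniz_pow]
    simp only [Nat.add_sub_cancel, smul_eq_mul, nsmul_eq_mul, map_add, map_natCast, map_one]
    push_cast
    ring
  have e3 : pderiv i (f ^ (b + 1) * G - C (τ ^ (b + 1)) * H)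
      = C ((b : ℂ) + 1) * f ^ b * pderiv i f * G + f ^ (b + 1) * pderiv i G
        - C (τ ^ (b + 1)) * pderiv i H := by
    rw [map_sub, pderiv_mul, pderiv_mul, pderiv_C, e2]
    ring
  have h1 := C_cancel hτ b f
  have h2 := C_cancel hτ (b + 1) f
  have h3 : (C (τ ^ b) : MvPolynomial ι ℂ) * C τ = C (τ ^ (b + 1)) := by
    rw [← C_mul, pow_succ]
  rw [e1, e3]
  linear_combination (C ((b : ℂ) + 1) * G * pderiv i f) * h1 + (pderiv i G) * h2
    + ((C τ⁻¹ * f) ^ (b + 1) * pderiv i G - pderiv i H) * h3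

theorem dd_C_mul' {K : Type} [Fintype K] (p q : K → ℂ) (r : ℂ) (g : MvPolynomial K ℂ) :
    dd p q (C r * g) = r * dd p q g := dd_C_mul p q r g

/-- the target value -/
def tgt (ι : Type) (τ : ℂ) : (ι ⊕ Fin 2) → ℂ
  | Sum.inl _ => 0
  | Sum.inr j => if j = 0 then 0 else τ

/-- the critical point of the perturbed hypersurface given by a solution of the system -/
theorem crit_of_sol (f G H : MvPolynomial ι ℂ) (b : ℕ) (c : ι → ℂ) (i0 : ι) (hi0 : c i0 ≠ 0)
    {τ : ℂ} (hτ : τ ≠ 0) (z : (ι ⊕ Fin 2) → ℂ)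
    (hsol : ∀ k, eval z (Rs f G H b c i0 k) = tgt ι τ k)
    (hV : eval z (Vp f G H b i0) ≠ 0)
    (hker : ∀ v : (ι ⊕ Fin 2) → ℂ, (∀ k, dd z v (Rs f G H b c i0 k) = 0) → v = 0) :
    IsCrit (f ^ (b + 1) * G - C (τ ^ (b + 1)) * H) c (fun i => z (Sum.inl i)) := by
  classical
  set x : ι → ℂ := fun i => z (Sum.inl i) with hx
  set F : MvPolynomial ι ℂ := f ^ (b + 1) * G - C (τ ^ (b + 1)) * H with hF
  have hT : z (Sum.inr 1) = τ := by
    have h := hsol (Sum.inr 1)
    simpa [Rs, Tt, tgt] using h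
  have hf : eval x f = τ * z (Sum.inr 0) := by
    have h := hsol (Sum.inl i0)
    simp only [Rs, if_true, map_sub, map_mul, eval_up, Tt, Ww, eval_X, hT, tgt] at h
    linear_combination h
  have hz : (fun k => eval x (rh f τ k)) = z := by
    funext k
    rcases k with i | j
    · simp [rh, hx]
    · fin_cases j
      · simp only [rh, Fin.zero_eta, if_true, map_mul, eval_C, hf]
        rw [← mul_assoc, inv_mul_cancel₀ hτ, one_mul]
      · simp [rh, hT]
  have hτb : τ ^ b ≠ 0 := pow_ne_zero _ hτ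
  have hτb1 : τ ^ (b + 1) ≠ 0 := pow_ne_zero _ hτ
  have hval : ∀ Q : MvPolynomial (ι ⊕ Fin 2) ℂ, eval x (aeval (rh f τ) Q) = eval z Q := by
    intro Q
    rw [eval_aeval_pt, hz]
  have hgrad : ∀ i, eval x (pderiv i F) = τ ^ b * eval z (Vp f G H b i) := by
    intro i
    rw [hF, ← id_V f G H b hτ i, map_mul, eval_C, hval]
  have hrel : ∀ i, c i0 * eval z (Vp f G H b i) = c i * eval z (Vp f G H b i0) := by
    intro i
    by_cases hi : i = i0
    · rw [hi]
    · have h := hsol (Sum.inl i)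
      simp only [Rs, if_neg hi, map_sub, map_mul, eval_C, tgt] at h
      linear_combination h
  refine ⟨?_, ⟨τ ^ b * eval z (Vp f G H b i0) / c i0, ?_, ?_⟩, ?_⟩
  · rw [hF, ← id_F f G H b hτ, map_mul, eval_C, hval]
    have h := hsol (Sum.inr 0)
    simp only [Rs, if_true, tgt] at h
    rw [h, mul_zero]
  · exact div_ne_zero (mul_ne_zero hτb hV) hi0
  · intro i
    rw [hgrad i]
    field_simp
    linear_combination hrel i
  · rintro u hu ⟨τ', hτ'⟩
    have hu' : dd x u F = 0 := hu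
    have hτ'' : ∀ i, dd x u (pderiv i F) = τ' * c i := hτ'
    have hdd : ∀ Q : MvPolynomial (ι ⊕ Fin 2) ℂ,
        dd x u (aeval (rh f τ) Q) = dd z (fun k => dd x u (rh f τ k)) Q := by
      intro Q
      rw [dd_aeval, hz]
    have h0 := hker (fun k => dd x u (rh f τ k)) ?_
    · funext i
      have h1 := congrFun h0 (Sum.inl i)
      simp only [rh, dd_X] at h1
      exact h1
    · intro k
      rcases k with i | j
      · by_cases hi : i = i0
        · subst hi
          simp only [Rs, if_true]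
          rw [← hdd, map_sub, rh_up, map_mul, rh_T, rh_W]
          have h2 : f - C τ * (C τ⁻¹ * f) = 0 := by
            rw [← mul_assoc, ← C_mul, mul_inv_cancel₀ hτ, C_1, one_mul, sub_self]
          rw [h2, dd_zero]
        · simp only [Rs, if_neg hi]
          rw [dd_sub, dd_C_mul', dd_C_mul', ← hdd, ← hdd]
          have h2 : ∀ i, τ ^ b * dd x u (aeval (rh f τ) (Vp f G H b i)) = τ' * c i := by
            intro i
            rw [← dd_C_mul', id_V f G H b hτ i, ← hF, hτ'']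
          have h3 : τ ^ b * (c i0 * dd x u (aeval (rh f τ) (Vp f G H b i))
              - c i * dd x u (aeval (rh f τ) (Vp f G H b i0))) = 0 := by
            linear_combination (c i0) * h2 i - (c i) * h2 i0
          exact (mul_eq_zero.mp h3).resolve_left hτb
      · by_cases hj : j = 0
        · subst hj
          simp only [Rs, if_true]
          rw [← hdd]
          have h2 : τ ^ (b + 1) * dd x u (aeval (rh f τ) (Ww ι ^ (b + 1) * up G - up H)) = 0 := by
            rw [← dd_C_mul', id_F f G H b hτ, ← hF, hu']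
          exact (mul_eq_zero.mp h2).resolve_left hτb1
        · simp only [Rs, if_neg hj]
          rw [← hdd, rh_T, dd_C]

/-- the kernel at the central point -/
theorem ker_center (f G H : MvPolynomial ι ℂ) (b : ℕ) (c : ι → ℂ) (i0 : ι) (hi0 : c i0 ≠ 0)
    (x : ι → ℂ) (hx : IsCrit f c x) (hG : eval x G ≠ 0) {w : ℂ} (hw : w ≠ 0)
    (z : (ι ⊕ Fin 2) → ℂ) (hzx : (fun i => z (Sum.inl i)) = x) (hzw : z (Sum.inr 0) = w)
    (hzt : z (Sum.inr 1) = 0) (v : (ι ⊕ Fin 2) → ℂ)
    (hv : ∀ k, dd z v (Rs f G H b c i0 k) = 0) : v = 0 := by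
  classical
  obtain ⟨hx0, ⟨lam, hlam, hgr⟩, hnd⟩ := hx
  set u : ι → ℂ := fun i => v (Sum.inl i) with hu
  have ht : v (Sum.inr 1) = 0 := by
    have h := hv (Sum.inr 1)
    simpa [Rs, Tt, dd_X] using h
  have hbne : ((b : ℂ) + 1) ≠ 0 := by exact_mod_cast Nat.succ_ne_zero b
  have hBp : eval z (Bp G b) = ((b : ℂ) + 1) * w ^ b * eval x G := by
    unfold Bp
    rw [map_mul, map_mul, map_pow, eval_C, eval_up, hzx, Ww, eval_X, hzw]
  have hBp0 : eval z (Bp G b) ≠ 0 := by
    rw [hBp]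
    exact mul_ne_zero (mul_ne_zero hbne (pow_ne_zero _ hw)) hG
  have h1 : dd x u f = 0 := by
    have h := hv (Sum.inl i0)
    simp only [Rs, if_true] at h
    rw [dd_sub, dd_up, hzx, dd_mul, Tt, Ww, dd_X, dd_X, eval_X, eval_X, ht, hzt] at h
    linear_combination h
  have hdV : ∀ i, dd z v (Vp f G H b i)
      = dd z v (Bp G b) * (lam * c i) + eval z (Bp G b) * dd x u (pderiv i f) := by
    intro i
    unfold Vp
    rw [dd_add, dd_mul, dd_mul z v (Tt ι), eval_up, dd_up, hzx, hgr, Tt, dd_X, eval_X, ht, hzt]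
    ring
  have h2 : ∀ i, dd x u (pderiv i f) = (dd x u (pderiv i0 f) / c i0) * c i := by
    intro i
    by_cases hi : i = i0
    · rw [hi]; field_simp
    · have h := hv (Sum.inl i)
      simp only [Rs, if_neg hi] at h
      rw [dd_sub, dd_C_mul', dd_C_mul', hdV, hdV] at h
      have h3 : eval z (Bp G b) * (c i0 * dd x u (pderiv i f) - c i * dd x u (pderiv i0 f)) = 0 := by
        linear_combination h
      have h4 := (mul_eq_zero.mp h3).resolve_left hBp0
      field_simp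
      linear_combination h4
  have hu0 : u = 0 := hnd u h1 ⟨_, h2⟩
  have hω : v (Sum.inr 0) = 0 := by
    have h := hv (Sum.inr 0)
    simp only [Rs, if_true] at h
    rw [dd_sub, dd_up, dd_mul, dd_up, dd_pow, ← hu, hu0, Ww, dd_X, eval_X, hzw] at h
    have e1 : dd (fun i => z (Sum.inl i)) (0 : ι → ℂ) G = 0 := dd_zero_dir _ G
    have e2 : dd (fun i => z (Sum.inl i)) (0 : ι → ℂ) H = 0 := dd_zero_dir _ H
    rw [e1, e2, eval_up, hzx] at h
    have h3 : (((b : ℂ) + 1) * w ^ b * eval x G) * v (Sum.inr 0) = 0 := by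
      linear_combination h
    exact (mul_eq_zero.mp h3).resolve_left
      (mul_ne_zero (mul_ne_zero hbne (pow_ne_zero _ hw)) hG)
  funext k
  rcases k with i | j
  · exact congrFun hu0 i
  · fin_cases j
    · exact hω
    · exact ht

/-- **Sheets** -/
theorem sheet (f G H : MvPolynomial ι ℂ) (a : ℕ) (ha : 1 ≤ a)
    (c x : ι → ℂ) (hc : c ≠ 0) (hx : IsCrit f c x) (hG : eval x G ≠ 0) (hH : eval x H ≠ 0)
    (U : Set (ι → ℂ)) (hU : U ∈ 𝓝 x) :
    ∀ᶠ τ in 𝓝[≠] (0:ℂ), ∃ x' ∈ U, IsCrit (f ^ a * G - C (τ ^ a) * H) c x' := by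
  classical
  obtain ⟨b, rfl⟩ : ∃ b, a = b + 1 := ⟨a - 1, by omega⟩
  obtain ⟨i0, hi0⟩ : ∃ i0, c i0 ≠ 0 := by
    by_contra h
    push Not at h
    exact hc (funext h)
  obtain ⟨w, hw⟩ : ∃ w : ℂ, w ^ (b + 1) = eval x H / eval x G :=
    IsAlgClosed.exists_pow_nat_eq _ (Nat.succ_pos b)
  have hw0 : w ≠ 0 := by
    rintro rfl
    rw [zero_pow (Nat.succ_ne_zero b)] at hw
    exact (div_ne_zero hH hG) hw.symm
  let p : (ι ⊕ Fin 2) → ℂ := fun k => match k with
    | Sum.inl i => x i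
    | Sum.inr j => if j = 0 then w else 0
  have hpx : (fun i => p (Sum.inl i)) = x := rfl
  have hpw : p (Sum.inr 0) = w := rfl
  have hpt : p (Sum.inr 1) = 0 := rfl
  have hRp : (fun k => eval p (Rs f G H b c i0 k)) = 0 := by
    obtain ⟨hx0, ⟨lam, hlam, hgr⟩, hnd⟩ := hx
    have hVp : ∀ i, eval p (Vp f G H b i) = eval p (Bp G b) * (lam * c i) := by
      intro i
      unfold Vp
      rw [map_add, map_mul, map_mul, eval_up, hpx, hgr, Tt, eval_X, hpt]
      ring
    funext k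
    rcases k with i | j
    · by_cases hi : i = i0
      · subst hi
        simp only [Rs, if_true, map_sub, map_mul, eval_up, Tt, Ww, eval_X, hpt, hpx, hx0,
          Pi.zero_apply]
        ring
      · simp only [Rs, if_neg hi, map_sub, map_mul, eval_C, hVp, Pi.zero_apply]
        ring
    · by_cases hj : j = 0
      · subst hj
        simp only [Rs, if_true, map_sub, map_mul, map_pow, eval_up, Ww, eval_X, hpw, hpx, hw,
          Pi.zero_apply]
        field_simp
        ring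
      · have hj1 : j = 1 := by omega
        subst hj1
        simp only [Rs, if_neg hj, Tt, eval_X, hpt, Pi.zero_apply]
  have hV0 : eval p (Vp f G H b i0) ≠ 0 := by
    obtain ⟨hx0, ⟨lam, hlam, hgr⟩, hnd⟩ := hx
    have hbne : ((b : ℂ) + 1) ≠ 0 := by exact_mod_cast Nat.succ_ne_zero b
    unfold Vp Bp
    rw [map_add, map_mul, map_mul, map_mul, map_mul, map_pow, eval_up, eval_up, eval_C, hpx, hgr,
      Tt, Ww, eval_X, eval_X, hpt, hpw, zero_mul, add_zero]
    exact mul_ne_zero (mul_ne_zero (mul_ne_zero hbne (pow_ne_zero _ hw0)) hG)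
      (mul_ne_zero hlam hi0)
  have hker := ker_center f G H b c i0 hi0 x hx hG hw0 p hpx hpw hpt
  have hdet := (jac_det_iff (Rs f G H b c i0) p).2 hker
  have hopen := poly_open (Rs f G H b c i0) p hdet
  rw [hRp] at hopen
  -- open conditions
  have hW1 : ∀ᶠ z in 𝓝 p, eval z (Vp f G H b i0) ≠ 0 :=
    (MvPolynomial.continuous_eval _).continuousAt.eventually_ne hV0
  have hW2 : ∀ᶠ z in 𝓝 p, (Matrix.of fun k l => eval z (pderiv l (Rs f G H b c i0 k)) :
      Matrix (ι ⊕ Fin 2) (ι ⊕ Fin 2) ℂ).det ≠ 0 := by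
    have h1 : Continuous (fun z : (ι ⊕ Fin 2) → ℂ =>
        (Matrix.of fun k l => eval z (pderiv l (Rs f G H b c i0 k)) :
          Matrix (ι ⊕ Fin 2) (ι ⊕ Fin 2) ℂ)) :=
      continuous_matrix fun k l => MvPolynomial.continuous_eval _
    exact (h1.matrix_det).continuousAt.eventually_ne hdet
  have hW3 : ∀ᶠ z in 𝓝 p, (fun i => z (Sum.inl i)) ∈ U := by
    have h1 : Continuous (fun z : (ι ⊕ Fin 2) → ℂ => (fun i => z (Sum.inl i) : ι → ℂ)) := by
      fun_prop
    exact h1.continuousAt.eventually (show ∀ᶠ y in 𝓝 (fun i => p (Sum.inl i)), y ∈ U by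
      rw [hpx]; exact hU)
  have himg : (fun (z : (ι ⊕ Fin 2) → ℂ) (k : ι ⊕ Fin 2) => eval z (Rs f G H b c i0 k)) ''
      {z | eval z (Vp f G H b i0) ≠ 0 ∧ (Matrix.of fun k l => eval z
        (pderiv l (Rs f G H b c i0 k)) : Matrix (ι ⊕ Fin 2) (ι ⊕ Fin 2) ℂ).det ≠ 0 ∧
        (fun i => z (Sum.inl i)) ∈ U} ∈ 𝓝 (0 : (ι ⊕ Fin 2) → ℂ) := by
    rw [← hopen]
    exact image_mem_map (hW1.and (hW2.and hW3))
  have hcur : ContinuousAt (tgt ι) 0 := by
    apply continuousAt_pi.2
    intro k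
    rcases k with i | j
    · exact continuousAt_const
    · by_cases hj : j = 0
      · simp only [tgt, if_pos hj]
        exact continuousAt_const
      · simp only [tgt, if_neg hj]
        exact continuousAt_id
  have hcur0 : tgt ι 0 = (0 : (ι ⊕ Fin 2) → ℂ) := by
    funext k
    rcases k with i | j
    · rfl
    · simp [tgt]
  have h1 : ∀ᶠ τ in 𝓝 (0:ℂ), tgt ι τ ∈
      (fun (z : (ι ⊕ Fin 2) → ℂ) (k : ι ⊕ Fin 2) => eval z (Rs f G H b c i0 k)) ''
      {z | eval z (Vp f G H b i0) ≠ 0 ∧ (Matrix.of fun k l => eval z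
        (pderiv l (Rs f G H b c i0 k)) : Matrix (ι ⊕ Fin 2) (ι ⊕ Fin 2) ℂ).det ≠ 0 ∧
        (fun i => z (Sum.inl i)) ∈ U} := by
    apply hcur.eventually
    rw [hcur0]
    exact himg
  filter_upwards [self_mem_nhdsWithin, nhdsWithin_le_nhds h1] with τ hτ hτ1
  obtain ⟨z, ⟨hz1, hz2, hz3⟩, hz4⟩ := hτ1
  refine ⟨_, hz3, crit_of_sol f G H b c i0 hi0 hτ z (fun k => congrFun hz4 k) hz1 ?_⟩
  exact (jac_det_iff (Rs f G H b c i0) z).1 hz2

end sys

end Pool.Agent.Work.MP_35c45d_lc.MP
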