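import Pool.Agent.Work.MP_35c45d_lc.MPDens
import Pool.Agent.Work.MP_35c45d_lc.MPPersist
import Pool.Agent.Work.MP_35c45d_lc.MPSheet
import Pool.Agent.Work.MP_35c45d_lc.SQBorder

/-! Generic position: the nondegenerate points of a section of the permanent can be moved away
from a given polynomial which the permanent does not divide. -/

set_option autoImplicit false

namespace Pool.Agent.Work.MP_35c45d_lc.MP

open MvPolynomial Filter Topology Pool.Agent.Work.MP_35c45d_lc.SQ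
open Pool.Agent.Work.MP_35c45d_lc.SQ.Persist Pool.Agent.Work.MP_35c45d_lc.SQ.PsiAux

namespace Gen

section lim

variable {ι : Type}

/-- coefficientwise limits -/
def Lim (g : ℕ → MvPolynomial ι ℂ) (f : MvPolynomial ι ℂ) : Prop :=
  ∀ d, Tendsto (fun s => coeff d (g s)) atTop (𝓝 (coeff d f))

theorem lim_const (f : MvPolynomial ι ℂ) : Lim (fun _ => f) f := fun _ => tendsto_const_nhds

theorem Lim.add {g g' : ℕ → MvPolynomial ι ℂ} {f f' : MvPolynomial ι ℂ} (h : Lim g f)
    (h' : Lim g' f') : Lim (fun s => g s + g' s) (f + f') := by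
  intro d
  simp only [coeff_add]
  exact (h d).add (h' d)

theorem Lim.mul {g g' : ℕ → MvPolynomial ι ℂ} {f f' : MvPolynomial ι ℂ} (h : Lim g f)
    (h' : Lim g' f') : Lim (fun s => g s * g' s) (f * f') := by
  classical
  intro d
  simp only [coeff_mul]
  exact tendsto_finsetSum _ fun p _ => (h p.1).mul (h' p.2)

theorem lim_C {a : ℕ → ℂ} {b : ℂ} (h : Tendsto a atTop (𝓝 b)) :
    Lim (fun s => (C (a s) : MvPolynomial ι ℂ)) (C b) := by
  classical
  intro d
  simp only [coeff_C]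
  by_cases hd : 0 = d
  · simpa [hd] using h
  · simp [hd]

theorem lim_aeval {K : Type} {φ : ℕ → K → MvPolynomial ι ℂ} {ψ : K → MvPolynomial ι ℂ}
    (h : ∀ q, Lim (fun s => φ s q) (ψ q)) (p : MvPolynomial K ℂ) :
    Lim (fun s => aeval (φ s) p) (aeval ψ p) := by
  induction p using MvPolynomial.induction_on with
  | C a =>
    simp only [← algebraMap_eq, AlgHom.commutes]
    exact lim_const _
  | add p q hp hq =>
    simp only [map_add]
    exact hp.add hq
  | mul_X p i hp =>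
    simp only [map_mul, aeval_X]
    exact hp.mul (h i)

theorem totalDegree_aeval_le {K : Type} (φ : K → MvPolynomial ι ℂ)
    (hφ : ∀ q, (φ q).totalDegree ≤ 1) (p : MvPolynomial K ℂ) :
    (aeval φ p).totalDegree ≤ p.totalDegree := by
  rw [aeval_def, eval₂_eq]
  refine totalDegree_finsetSum_le fun d hd => ?_
  refine (totalDegree_mul _ _).trans ?_
  have h1 : (algebraMap ℂ (MvPolynomial ι ℂ) (coeff d p)).totalDegree = 0 := by
    rw [algebraMap_eq, totalDegree_C]
  rw [h1, zero_add]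
  refine (totalDegree_finsetProd _ _).trans ?_
  refine le_trans ?_ (le_totalDegree hd)
  refine Finset.sum_le_sum fun i _ => ?_
  refine (totalDegree_pow _ _).trans ?_
  calc d i * (φ i).totalDegree ≤ d i * 1 := Nat.mul_le_mul_left _ (hφ i)
    _ = d i := mul_one _

end lim

theorem isCrit_dir {ι : Type} [Fintype ι] {f : MvPolynomial ι ℂ} {c x : ι → ℂ} {μ : ℂ}
    (hμ : μ ≠ 0) (h : IsCrit f c x) : IsCrit f (fun i => μ * c i) x := by
  obtain ⟨h1, ⟨lam, hlam, h2⟩, h3⟩ := h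
  refine ⟨h1, ⟨lam * μ⁻¹, mul_ne_zero hlam (inv_ne_zero hμ), fun i => ?_⟩, fun u hu hτ => ?_⟩
  · rw [h2 i]
    field_simp
  · obtain ⟨τ, hτ⟩ := hτ
    refine h3 u hu ⟨τ * μ, fun i => ?_⟩
    rw [hτ i]
    ring

/-- joint continuity -/
theorem nbhd {K ι : Type} [Fintype ι] [Fintype K] (φ : K → MvPolynomial ι ℂ) (y : K → ℂ)
    (W : MvPolynomial K ℂ) (x : ι → ℂ) (h : eval (fun q => eval x (φ q)) W ≠ 0) :
    ∃ U' ∈ 𝓝 x, ∃ V' ∈ 𝓝 y, ∀ x' ∈ U', ∀ z' ∈ V',
      eval (fun q => eval x' (φ q) + (z' q - y q)) W ≠ 0 := by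
  let G : (ι → ℂ) × (K → ℂ) → ℂ := fun p => eval (fun q => eval p.1 (φ q) + (p.2 q - y q)) W
  have hcont : Continuous G := by
    refine (continuous_eval_pt W).comp ?_
    refine continuous_pi fun q => ?_
    refine ((continuous_eval_pt (φ q)).comp continuous_fst).add ?_
    exact ((continuous_apply q).comp continuous_snd).sub continuous_const
  have h0 : G (x, y) ≠ 0 := by
    show eval (fun q => eval x (φ q) + (y q - y q)) W ≠ 0
    simpa using h
  have h1 : {p | G p ≠ 0} ∈ 𝓝 (x, y) := hcont.continuousAt.eventually_ne h0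
  obtain ⟨U', hU', V', hV', h2⟩ := mem_nhds_prod_iff.1 h1
  refine ⟨U', hU', V', hV', fun x' hx' z' hz' => ?_⟩
  have h3 : (x', z') ∈ {p | G p ≠ 0} := h2 (Set.mk_mem_prod hx' hz')
  exact h3

theorem step {m : ℕ} (hm : 1 ≤ m) {ι κ : Type} [Fintype ι] [Fintype κ] [DecidableEq κ]
    (φ : Fin m × Fin m → MvPolynomial ι ℂ) (hφ : ∀ q, (φ q).totalDegree ≤ 1)
    (c : ι → ℂ) (hc : c ≠ 0) (x : κ → ι → ℂ) (hinj : Function.Injective x)
    (hx : ∀ k, IsCrit (aeval φ (permPoly m)) c (x k))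
    {W : MvPolynomial (Fin m × Fin m) ℂ} (hW : ¬ permPoly m ∣ W)
    (S : Finset κ) (hS : ∀ k ∈ S, eval (x k) (aeval φ W) ≠ 0) (k0 : κ) :
    ∃ (φ' : Fin m × Fin m → MvPolynomial ι ℂ) (c' : ι → ℂ) (x' : κ → ι → ℂ),
      (∀ q, (φ' q).totalDegree ≤ 1) ∧ c' ≠ 0 ∧ Function.Injective x' ∧
      (∀ k, IsCrit (aeval φ' (permPoly m)) c' (x' k)) ∧
      ∀ k ∈ insert k0 S, eval (x' k) (aeval φ' W) ≠ 0 := by
  classical
  set f := aeval φ (permPoly m) with hf
  set y : Fin m × Fin m → ℂ := fun q => eval (x k0) (φ q) with hy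
  have hfe : ∀ x' : ι → ℂ, eval x' f = eval (fun q => eval x' (φ q)) (permPoly m) :=
    fun x' => eval_aeval_pt φ x' _
  have hy0 : eval y (permPoly m) = 0 := by
    rw [hy, ← hfe]
    exact (hx k0).1
  obtain ⟨lam, hlam, hgrad⟩ := (hx k0).2.1
  -- the permanent is smooth at `y`
  obtain ⟨q, hq⟩ : ∃ q, eval y (pderiv q (permPoly m)) ≠ 0 := by
    by_contra hcon
    push Not at hcon
    apply hc
    funext i
    have h1 : dd (x k0) (Pi.single i 1) f = 0 := by
      rw [hf, dd_aeval]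
      unfold dd
      refine Finset.sum_eq_zero fun q _ => ?_
      have h2 := hcon q
      rw [hy] at h2
      rw [h2, mul_zero]
    have h2 : dd (x k0) (Pi.single i 1) f = eval (x k0) (pderiv i f) := by
      unfold dd
      rw [Finset.sum_eq_single i]
      · simp
      · intro j _ hj
        rw [Pi.single_eq_of_ne hj, zero_mul]
      · intro h
        exact absurd (Finset.mem_univ i) h
    rw [h2, hgrad i] at h1
    exact (mul_eq_zero.1 h1).resolve_left hlam
  -- the sequence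
  have hz : ∀ s : ℕ, ∃ z ∈ Metric.ball y (1 / ((s : ℝ) + 1)), eval z (permPoly m) = 0 ∧
      eval z W ≠ 0 := fun s => perm_near hm hW hy0 hq _ (Metric.ball_mem_nhds _ (by positivity))
  choose z hz1 hz2 hz3 using hz
  have hzy : Tendsto z atTop (𝓝 y) := by
    rw [tendsto_iff_dist_tendsto_zero]
    refine squeeze_zero (fun s => dist_nonneg) (fun s => (Metric.mem_ball.1 (hz1 s)).le) ?_
    exact tendsto_one_div_add_atTop_nhds_zero_nat
  set φs : ℕ → Fin m × Fin m → MvPolynomial ι ℂ := fun s q => φ q + C (z s q - y q) with hφs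
  have hφs1 : ∀ s q, (φs s q).totalDegree ≤ 1 := by
    intro s q
    refine (totalDegree_add _ _).trans ?_
    rw [totalDegree_C]
    exact max_le (hφ q) (Nat.zero_le _)
  have hzq : ∀ q, Tendsto (fun s => z s q) atTop (𝓝 (y q)) := fun q =>
    (tendsto_pi_nhds.1 hzy) q
  have hφl : ∀ q, Lim (fun s => φs s q) (φ q) := by
    intro q
    have h1 : Lim (fun s => φ q + C (z s q - y q)) (φ q + C (y q - y q)) :=
      (lim_const _).add (lim_C ((hzq q).sub tendsto_const_nhds))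
    rw [sub_self, C_0, add_zero] at h1
    exact h1
  set g : ℕ → MvPolynomial ι ℂ := fun s => aeval (φs s) (permPoly m) with hg
  have hgN : ∀ s, (g s).totalDegree ≤ (permPoly m).totalDegree := fun s =>
    totalDegree_aeval_le _ (hφs1 s) _
  have hgl : ∀ d, Tendsto (fun s => coeff d (g s)) atTop (𝓝 (coeff d f)) :=
    lim_aeval hφl (permPoly m)
  have hev : ∀ (s : ℕ) (x' : ι → ℂ) (Q : MvPolynomial (Fin m × Fin m) ℂ),
      eval x' (aeval (φs s) Q) = eval (fun q => eval x' (φ q) + (z s q - y q)) Q := by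
    intro s x' Q
    rw [eval_aeval_pt]
    congr 2
    funext q
    rw [hφs]
    simp
  have hev0 : ∀ (s : ℕ) (Q : MvPolynomial (Fin m × Fin m) ℂ),
      eval (x k0) (aeval (φs s) Q) = eval (z s) Q := by
    intro s Q
    rw [hev]
    congr 2
    funext q
    rw [hy]
    ring
  have hpers := persist_same _ f g hgN hgl c (x k0) hc (hx k0) (fun s => by
    rw [hg]
    show eval (x k0) (aeval (φs s) (permPoly m)) = 0
    rw [hev0]
    exact hz2 s)
  set cs : ℕ → ι → ℂ := fun s i => lam⁻¹ * eval (x k0) (pderiv i (g s)) with hcs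
  have hcl : Tendsto cs atTop (𝓝 c) := by
    rw [tendsto_pi_nhds]
    intro i
    have h1 := tendsto_linear _ g f hgN hgl (((MvPolynomial.aeval (x k0)).toLinearMap :
      MvPolynomial ι ℂ →ₗ[ℂ] ℂ) ∘ₗ
      ((pderiv i : Derivation ℂ (MvPolynomial ι ℂ) (MvPolynomial ι ℂ)) :
        MvPolynomial ι ℂ →ₗ[ℂ] MvPolynomial ι ℂ))
    have h2 : Tendsto (fun s => eval (x k0) (pderiv i (g s))) atTop
        (𝓝 (eval (x k0) (pderiv i f))) := by
      simpa [MvPolynomial.aeval_eq_eval] using h1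
    have h3 := h2.const_mul lam⁻¹
    rw [hgrad i, inv_mul_cancel_left₀ hlam] at h3
    exact h3
  have hcs0 : ∀ᶠ s in atTop, cs s ≠ 0 := hcl.eventually_ne hc
  -- neighbourhoods
  obtain ⟨U, hU1, hU2⟩ := (Set.finite_range x).t2_separation
  have hnb : ∀ k, ∃ U' ∈ 𝓝 (x k), ∃ V' ∈ 𝓝 y, k ∈ S → ∀ x' ∈ U', ∀ z' ∈ V',
      eval (fun q => eval x' (φ q) + (z' q - y q)) W ≠ 0 := by
    intro k
    by_cases hk : k ∈ S
    · obtain ⟨U', hU', V', hV', h2⟩ := nbhd φ y W (x k) (by
        have h1 := hS k hk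
        rwa [eval_aeval_pt] at h1)
      exact ⟨U', hU', V', hV', fun _ => h2⟩
    · exact ⟨Set.univ, univ_mem, Set.univ, univ_mem, fun h => absurd h hk⟩
  choose U' hU' V' hV' hUV using hnb
  have hUn : ∀ k, U (x k) ∩ U' k ∈ 𝓝 (x k) := fun k =>
    inter_mem ((hU1 (x k)).2.mem_nhds (hU1 (x k)).1) (hU' k)
  have h1 : ∀ᶠ s in atTop, ∀ k, ∃ x' ∈ U (x k) ∩ U' k, IsCrit (g s) (cs s) x' := by
    rw [eventually_all]
    intro k
    exact persist_dir _ f g hgN hgl c (x k) cs hcl hc (hx k) _ (hUn k)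
  have h2 : ∀ᶠ s in atTop, ∀ k, z s ∈ V' k := by
    rw [eventually_all]
    intro k
    exact hzy.eventually (hV' k)
  obtain ⟨s, ⟨⟨hs1, hs2⟩, hs3⟩, hs4⟩ := (((h1.and h2).and hpers).and hcs0).exists
  choose xs hxs1 hxs2 using hs1
  refine ⟨φs s, cs s, fun k => if k = k0 then x k0 else xs k, hφs1 s, hs4, ?_, ?_, ?_⟩
  · have hmem : ∀ k, (if k = k0 then x k0 else xs k) ∈ U (x k) := by
      intro k
      by_cases hk : k = k0
      · rw [if_pos hk, hk]
        exact (hU1 (x k0)).1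
      · rw [if_neg hk]
        exact (hxs1 k).1
    intro k k' hkk
    by_contra hne
    have h3 := hU2 (Set.mem_range_self k) (Set.mem_range_self k') (fun h => hne (hinj h))
    have h4 := hmem k'
    rw [← (show (if k = k0 then x k0 else xs k) = (if k' = k0 then x k0 else xs k') from hkk)]
      at h4
    exact Set.disjoint_left.1 h3 (hmem k) h4
  · intro k
    show IsCrit (g s) (cs s) (if k = k0 then x k0 else xs k)
    by_cases hk : k = k0
    · rw [if_pos hk]
      exact isCrit_dir (inv_ne_zero hlam) hs3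
    · rw [if_neg hk]
      exact hxs2 k
  · intro k hk
    show eval (if k = k0 then x k0 else xs k) (aeval (φs s) W) ≠ 0
    by_cases hk' : k = k0
    · rw [if_pos hk', hev0]
      exact hz3 s
    · rw [if_neg hk', hev]
      have hkS : k ∈ S := (Finset.mem_insert.1 hk).resolve_left hk'
      exact hUV k hkS _ (hxs1 k).2 _ (hs2 k)

end Gen

theorem generic {m : ℕ} (hm : 1 ≤ m) {ι κ : Type} [Fintype ι] [Fintype κ]
    (φ : Fin m × Fin m → MvPolynomial ι ℂ) (hφ : ∀ q, (φ q).totalDegree ≤ 1)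
    (c : ι → ℂ) (hc : c ≠ 0) (x : κ → ι → ℂ) (hinj : Function.Injective x)
    (hx : ∀ k, IsCrit (aeval φ (permPoly m)) c (x k))
    {W : MvPolynomial (Fin m × Fin m) ℂ} (hW : ¬ permPoly m ∣ W) :
    ∃ (φ' : Fin m × Fin m → MvPolynomial ι ℂ) (c' : ι → ℂ) (x' : κ → ι → ℂ),
      (∀ q, (φ' q).totalDegree ≤ 1) ∧ c' ≠ 0 ∧ Function.Injective x' ∧
      ∀ k, IsCrit (aeval φ' (permPoly m)) c' (x' k) ∧ eval (x' k) (aeval φ' W) ≠ 0 := by
  classical
  have key : ∀ S : Finset κ, ∃ (φ' : Fin m × Fin m → MvPolynomial ι ℂ) (c' : ι → ℂ)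
      (x' : κ → ι → ℂ), (∀ q, (φ' q).totalDegree ≤ 1) ∧ c' ≠ 0 ∧ Function.Injective x' ∧
      (∀ k, IsCrit (aeval φ' (permPoly m)) c' (x' k)) ∧
      ∀ k ∈ S, eval (x' k) (aeval φ' W) ≠ 0 := by
    intro S
    induction S using Finset.induction_on with
    | empty => exact ⟨φ, c, x, hφ, hc, hinj, hx, fun k hk => absurd hk (Finset.notMem_empty k)⟩
    | insert k0 S _ ih =>
      obtain ⟨φ', c', x', h1, h2, h3, h4, h5⟩ := ih
      exact Gen.step hm φ' h1 c' h2 x' h3 h4 hW S h5 k0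
  obtain ⟨φ', c', x', h1, h2, h3, h4, h5⟩ := key Finset.univ
  exact ⟨φ', c', x', h1, h2, h3, fun k => ⟨h4 k, h5 k (Finset.mem_univ k)⟩⟩

end Pool.Agent.Work.MP_35c45d_lc.MP
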