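import Pool.Agent.Work.MP_35c45d_lc.SQSection
import Pool.Agent.Work.MP_35c45d_lc.CMSec

/-! The section of `SQSection` as an exact affine substitution of the permanent. -/

set_option autoImplicit false

namespace Pool.Agent.Work.MP_35c45d_lc.MP

open Finset MvPolynomial Pool.Agent.Work.MP_35c45d_lc.SQ

theorem section_gen_sub {A X0 L J T : Type} [Fintype A] [DecidableEq A] [Fintype X0] [DecidableEq X0]
    [Fintype L] [DecidableEq L] [Nonempty A] [Nonempty X0] [Nonempty L] [Fintype J] [DecidableEq J]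
    [Fintype T] (e : A → X0 → ℂ) (line : A → X0 → Option L) (c : A → X0 → ℂ)
    (hcode : ∀ a b j, ∑ x, (if line a x = some j then c a x * e b x else 0)
      = if a = b then 1 else 0) (k m : ℕ)
    (hl : Fintype.card L ^ k ≤ Fintype.card J)
    (hsize : Fintype.card X0 ^ k + slackSize (Fintype.card J) 1 (Fintype.card A)
      (Fintype.card L) (Fintype.card X0) k ≤ m)
    (hT : Fintype.card T + 1 ≤ Fintype.card A ^ k) :
    ∃ φ : Fin m × Fin m → MvPolynomial (Option (T × J)) ℂ, (∀ q, (φ q).totalDegree ≤ 1) ∧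
      ∃ γ : ℂ, γ ≠ 0 ∧ aeval φ (permPoly m) = C γ * (X none + ∑ t : T,
      ∑ s ∈ powersetCard (Fintype.card L ^ k) (univ : Finset J),
      ∏ j ∈ s, (X (some (t, j)) : MvPolynomial (Option (T × J)) ℂ)) := by
  classical
  set D := Fintype.card L ^ k with hDdef
  have hD1 : 1 ≤ D := Nat.one_le_pow _ _ Fintype.card_pos
  obtain ⟨Φ, hG, hU⟩ := multi_level (R := MvPolynomial (Option (T × J)) ℂ) (V := J) e line c hcode k
    Unit (by rw [Fintype.card_unit, one_mul]; exact hl)
  -- embedding of the index set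
  have hemb : Nonempty (Option T ↪ Wd A k) := by
    rw [Function.Embedding.nonempty_iff_card_le, Fintype.card_option, Wd.card]
    exact hT
  obtain ⟨emb⟩ := hemb
  -- the special vector
  obtain ⟨S0, hS0, hS0c⟩ : ∃ S0 : Finset J, S0 ⊆ univ ∧ S0.card = D :=
    Finset.exists_subset_card_eq (by rw [card_univ]; exact hl)
  obtain ⟨j0, hj0⟩ : S0.Nonempty := by
    rw [← Finset.card_pos, hS0c]; exact hD1
  let sp : J → MvPolynomial (Option (T × J)) ℂ := fun j =>
    if j = j0 then X none else if j ∈ S0 then 1 else 0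
  have hsp : ∑ s ∈ powersetCard D (univ : Finset J), ∏ j ∈ s, sp j = X none := by
    rw [Finset.sum_eq_single S0]
    · rw [← Finset.mul_prod_erase S0 _ hj0]
      have : ∏ x ∈ S0.erase j0, sp x = 1 := by
        refine Finset.prod_eq_one fun x hx => ?_
        simp only [sp]
        rw [if_neg (ne_of_mem_erase hx), if_pos (mem_of_mem_erase hx)]
      rw [this, mul_one]
      simp [sp]
    · intro s hs hne
      have hsc := (mem_powersetCard.mp hs).2
      obtain ⟨x, hx, hx'⟩ : ∃ x ∈ s, x ∉ S0 := by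
        by_contra hcon
        push Not at hcon
        exact hne (Finset.eq_of_subset_of_card_le hcon (by rw [hsc, hS0c]))
      refine Finset.prod_eq_zero hx ?_
      simp only [sp]
      have hxj : x ≠ j0 := fun h => hx' (by rw [h]; exact hj0)
      rw [if_neg hxj, if_neg hx']
    · intro h
      exact absurd (mem_powersetCard.mpr ⟨subset_univ _, hS0c⟩) h
  let Uo : Option T → J → MvPolynomial (Option (T × J)) ℂ := fun o j =>
    match o with
    | none => sp j
    | some t => X (some (t, j))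
  let U : J → Wd A k → MvPolynomial (Option (T × J)) ℂ := fun j a =>
    if h : ∃ o, emb o = a then Uo h.choose j else 0
  have hUemb : ∀ o j, U j (emb o) = Uo o j := by
    intro o j
    have h : ∃ o', emb o' = emb o := ⟨o, rfl⟩
    simp only [U]
    rw [dif_pos h]
    congr 1
    exact emb.injective h.choose_spec
  have hUdeg : ∀ j a, (U j a).totalDegree ≤ 1 := by
    intro j a
    simp only [U]
    split_ifs with h
    · rcases h.choose with _ | t
      · simp only [Uo, sp]
        split_ifs <;> simp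
      · simp [Uo]
    · simp
  obtain ⟨φ, hφ, c0, hc0, h1⟩ := gad_final_sub (m := m) hG (by
      rw [Fintype.card_prod, Fintype.card_unit, one_mul, Wd.card]
      exact hsize) (fun v p => ∑ b, U v b * algebraMap ℂ _ (prodE e k b p.2)) (by
      intro v p
      refine totalDegree_finsetSum_le fun b _ => ?_
      refine (totalDegree_mul _ _).trans ?_
      rw [algebraMap_eq, totalDegree_C, add_zero]
      exact hUdeg v b)
  rw [hU] at h1
  have hcardT : Fintype.card (Unit × Wd L k) = D := by
    rw [Fintype.card_prod, Fintype.card_unit, one_mul, Wd.card]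
  have h2 : (∑ a : Wd A k, ∑ i : (Unit × Wd L k) ↪ J, ∏ t, U (i t) a)
      = C ((D.factorial : ℂ)) * (X none + ∑ t : T, ∑ s ∈ powersetCard D (univ : Finset J),
      ∏ j ∈ s, (X (some (t, j)) : MvPolynomial (Option (T × J)) ℂ)) := by
    have h3 : ∀ a : Wd A k, ∑ i : (Unit × Wd L k) ↪ J, ∏ t, U (i t) a
        = C ((D.factorial : ℂ)) * ∑ s ∈ powersetCard D (univ : Finset J), ∏ j ∈ s, U j a := by
      intro a
      rw [sum_emb (fun v => U v a), hcardT, map_natCast]
    simp only [h3]
    rw [← Finset.mul_sum]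
    congr 1
    symm
    rw [← hsp]
    have h4 : (∑ s ∈ powersetCard D (univ : Finset J), ∏ j ∈ s, sp j) + ∑ t : T,
        ∑ s ∈ powersetCard D (univ : Finset J), ∏ j ∈ s,
          (X (some (t, j)) : MvPolynomial (Option (T × J)) ℂ)
        = ∑ o : Option T, ∑ s ∈ powersetCard D (univ : Finset J), ∏ j ∈ s, Uo o j := by
      rw [Fintype.sum_option]
    rw [h4]
    refine Fintype.sum_of_injective emb emb.injective _ _ ?_ ?_
    · intro a ha
      refine Finset.sum_eq_zero fun s hs => ?_
      have hsc := (mem_powersetCard.mp hs).2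
      obtain ⟨j, hj⟩ : s.Nonempty := by
        rw [← Finset.card_pos, hsc]; exact hD1
      refine Finset.prod_eq_zero hj ?_
      simp only [U]
      rw [dif_neg]
      rintro ⟨o, ho⟩
      exact ha ⟨o, ho⟩
    · intro o
      simp only [hUemb]
  rw [h2] at h1
  have hne : (D.factorial : ℂ) ≠ 0 := by exact_mod_cast Nat.factorial_ne_zero _
  rw [← mul_assoc, ← C_mul] at h1
  exact ⟨φ, hφ, _, mul_ne_zero hc0 hne, h1⟩

theorem section_main_sub {s0 d0 D0 : ℕ} (hD : 1 ≤ D0) (hd : 1 ≤ d0) (e : Fin d0 → Fin s0 → ℂ)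
    (line : Fin d0 → Fin s0 → Option (Fin D0)) (c : Fin d0 → Fin s0 → ℂ)
    (hcode : ∀ a b j, ∑ x ∈ univ.filter (fun x => line a x = some j), c a x * e b x
      = if a = b then 1 else 0) (k m : ℕ) {J : Type} [Fintype J] [DecidableEq J]
    (hsize : s0 ^ k + ∑ i ∈ range k, d0 * D0 ^ (i + 1) * s0 ^ (k - 1 - i)
      + (Fintype.card J - D0 ^ k) ≤ m)
    (hl : D0 ^ k ≤ Fintype.card J) {T : Type} [Fintype T] (hT : Fintype.card T + 1 ≤ d0 ^ k)
:
    ∃ φ : Fin m × Fin m → MvPolynomial (Option (T × J)) ℂ, (∀ q, (φ q).totalDegree ≤ 1) ∧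
      ∃ γ : ℂ, γ ≠ 0 ∧ aeval φ (permPoly m) = C γ * (X none + ∑ t : T,
      ∑ s ∈ powersetCard (D0 ^ k) (univ : Finset J),
      ∏ j ∈ s, (X (some (t, j)) : MvPolynomial (Option (T × J)) ℂ)) := by
  classical
  have : Nonempty (Fin d0) := ⟨⟨0, hd⟩⟩
  have : Nonempty (Fin D0) := ⟨⟨0, hD⟩⟩
  have : Nonempty (Fin s0) := by
    by_contra hcon
    rw [not_nonempty_iff] at hcon
    have := hcode ⟨0, hd⟩ ⟨0, hd⟩ ⟨0, hD⟩
    rw [Finset.univ_eq_empty, filter_empty, sum_empty, if_pos rfl] at this
    exact zero_ne_one this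
  have h := section_gen_sub (T := T) (J := J) e line c (fun a b j => by
    rw [← hcode a b j, Finset.sum_filter]) k m (by rwa [Fintype.card_fin]) (by
    rw [Fintype.card_fin, Fintype.card_fin, Fintype.card_fin, slackSize_eq]
    simp only [one_mul]
    omega) (by rwa [Fintype.card_fin])
  rw [Fintype.card_fin] at h
  exact h


end Pool.Agent.Work.MP_35c45d_lc.MP
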