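import Pool.Agent.Work.MP_35c45d_lc.SDDefs

/-! # Matrices of any size with few non-constant rows

A determinant of any size in which at most `R` rows contain a non-constant entry is a determinant
of size `R`.
-/

set_option autoImplicit false

namespace Pool.Agent.Work.MP_35c45d_lc.SD

open MvPolynomial Filter Topology

variable {ι : Type}

/-- all entries of the row `i` of `A` are constants -/
def ConstRow {N : ℕ} (A : Matrix (Fin N) (Fin N) (MvPolynomial ι ℂ)) (i : Fin N) : Prop :=
  ∀ j, ∃ c : ℂ, A i j = C c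

/-- the determinant does not depend on the instances -/
theorem det_inst {K R : Type} [CommRing R] (f₁ f₂ : Fintype K) (d₁ d₂ : DecidableEq K)
    (M : Matrix K K R) : @Matrix.det K d₁ f₁ R _ M = @Matrix.det K d₂ f₂ R _ M := by
  have h1 : f₁ = f₂ := Subsingleton.elim _ _
  have h2 : d₁ = d₂ := Subsingleton.elim _ _
  subst h1
  subst h2
  rfl

/-- A determinant of any size in which at most `R ≥ 1` rows contain a non-constant entry is a
determinant of size `R`; the degree of the entries does not grow. -/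
theorem exists_small {N R δ : ℕ} (hR : 1 ≤ R)
    (A : Matrix (Fin N) (Fin N) (MvPolynomial ι ℂ)) (hA : ∀ i j, (A i j).totalDegree ≤ δ)
    (S : Finset (Fin N)) (hS : S.card ≤ R) (hc : ∀ i ∉ S, ConstRow A i) :
    ∃ B : Matrix (Fin R) (Fin R) (MvPolynomial ι ℂ), (∀ i j, (B i j).totalDegree ≤ δ) ∧
      B.det = A.det := by
  classical
  by_cases h0 : A.det = 0
  · refine ⟨0, fun i j => ?_, ?_⟩
    · rw [Matrix.zero_apply, totalDegree_zero]
      exact Nat.zero_le _
    · rw [h0]
      have : Nonempty (Fin R) := ⟨⟨0, hR⟩⟩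
      exact Matrix.det_zero
  -- a point where the determinant does not vanish
  obtain ⟨x, hx⟩ : ∃ x : ι → ℂ, eval x A.det ≠ 0 := by
    by_contra hcon
    push Not at hcon
    exact h0 (MvPolynomial.funext fun x => by rw [hcon x, map_zero])
  set Q : Matrix (Fin N) (Fin N) ℂ := A.map (eval x) with hQ
  have hQdet : Q.det = eval x A.det := by
    rw [hQ, RingHom.map_det]
    rfl
  have hQu : IsUnit Q.det := by
    rw [hQdet]
    exact isUnit_iff_ne_zero.2 hx
  set G : Matrix (Fin N) (Fin N) (MvPolynomial ι ℂ) := (Q⁻¹).map C with hG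
  set M : Matrix (Fin N) (Fin N) (MvPolynomial ι ℂ) := A * G with hM
  have hGdet : G.det = C (Q.det)⁻¹ := by
    rw [hG]
    have h1 : ((Q⁻¹).map C : Matrix (Fin N) (Fin N) (MvPolynomial ι ℂ)).det = C (Q⁻¹).det :=
      ((C : ℂ →+* MvPolynomial ι ℂ).map_det Q⁻¹).symm
    rw [h1, Matrix.det_nonsing_inv, Ring.inverse_eq_inv']
  have hAM : A.det = C Q.det * M.det := by
    rw [hM, Matrix.det_mul, hGdet]
    have h1 : (C Q.det : MvPolynomial ι ℂ) * C (Q.det)⁻¹ = 1 := by
      rw [← C_mul, mul_inv_cancel₀ (by rw [hQdet]; exact hx), C_1]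
    calc A.det = A.det * 1 := (mul_one _).symm
      _ = A.det * (C Q.det * C (Q.det)⁻¹) := by rw [h1]
      _ = _ := by ring
  -- the constant rows of `M` are rows of the identity
  have hrow : ∀ i ∉ S, ∀ j, M i j = if i = j then 1 else 0 := by
    intro i hi j
    have h1 : ∀ k, A i k = C (Q i k) := by
      intro k
      obtain ⟨c, hc'⟩ := hc i hi k
      rw [hQ, Matrix.map_apply, hc', eval_C]
    have h2 : M i j = C ((Q * Q⁻¹) i j) := by
      rw [hM, Matrix.mul_apply, Matrix.mul_apply, map_sum]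
      refine Finset.sum_congr rfl fun k _ => ?_
      rw [h1, hG, Matrix.map_apply, C_mul]
    rw [h2, Matrix.mul_nonsing_inv _ hQu, Matrix.one_apply]
    split_ifs <;> simp
  have hMdeg : ∀ i j, (M i j).totalDegree ≤ δ := by
    intro i j
    rw [hM, Matrix.mul_apply]
    refine totalDegree_finsetSum_le fun k _ => ?_
    refine (totalDegree_mul _ _).trans ?_
    rw [hG, Matrix.map_apply, totalDegree_C, add_zero]
    exact hA i k
  have hdet : M.det = (Matrix.toSquareBlockProp M fun i => i ∈ S).det := by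
    rw [Matrix.twoBlockTriangular_det M (fun i => i ∈ S)]
    · have h1 : (Matrix.toSquareBlockProp M fun i => ¬ i ∈ S) = 1 := by
        refine Matrix.ext fun i j => ?_
        rw [Matrix.toSquareBlockProp_def, Matrix.of_apply, hrow i.1 i.2, Matrix.one_apply]
        congr 1
        exact propext Subtype.ext_iff.symm
      rw [h1, Matrix.det_one, mul_one]
      exact det_inst _ _ _ _ _
    · intro i hi j hj
      rw [hrow i hi, if_neg]
      rintro rfl
      exact hi hj
  -- reindexing and padding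
  obtain ⟨e, he⟩ : ∃ e, R = S.card + e := ⟨R - S.card, by omega⟩
  let φ : {i // i ∈ S} ⊕ Fin e ≃ Fin R :=
    (Equiv.sumCongr S.equivFin (Equiv.refl _)).trans (finSumFinEquiv.trans (finCongr he.symm))
  let B0 : Matrix ({i // i ∈ S} ⊕ Fin e) ({i // i ∈ S} ⊕ Fin e) (MvPolynomial ι ℂ) :=
    Matrix.fromBlocks (Matrix.toSquareBlockProp M fun i => i ∈ S) 0 0 1
  have hB0 : B0.det = M.det := by
    rw [Matrix.det_fromBlocks_zero₂₁, Matrix.det_one, mul_one, hdet]
  have hB0deg : ∀ i j, (B0 i j).totalDegree ≤ δ := by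
    rintro (i | i) (j | j)
    · exact hMdeg _ _
    · simp [B0]
    · simp [B0]
    · change ((1 : Matrix (Fin e) (Fin e) (MvPolynomial ι ℂ)) i j).totalDegree ≤ δ
      rw [Matrix.one_apply]
      split_ifs <;> simp
  let d : Fin R → MvPolynomial ι ℂ := Function.update 1 ⟨0, hR⟩ (C Q.det)
  refine ⟨Matrix.diagonal d * B0.submatrix φ.symm φ.symm, fun i j => ?_, ?_⟩
  · rw [Matrix.diagonal_mul, Matrix.submatrix_apply]
    refine (totalDegree_mul _ _).trans ?_
    have h1 : (d i).totalDegree = 0 := by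
      by_cases hi : i = ⟨0, hR⟩
      · rw [hi]
        simp only [d, Function.update_self, totalDegree_C]
      · simp only [d, Function.update_of_ne hi, Pi.one_apply, totalDegree_one]
    rw [h1, zero_add]
    exact hB0deg _ _
  · rw [Matrix.det_mul, Matrix.det_diagonal, Matrix.det_submatrix_equiv_self, hB0, hAM]
    congr 1
    rw [Finset.prod_update_of_mem (Finset.mem_univ _)]
    simp

/-- `f` is a coefficientwise limit of sums of `M` determinants of matrices of any size whose
entries are affine linear forms and in which at most `R` rows contain a non-constant entry. -/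
def LimSumDetRows (M R : ℕ) {ι : Type} (f : MvPolynomial ι ℂ) : Prop :=
  ∃ (N : ℕ → Fin M → ℕ)
    (A : ∀ s t, Matrix (Fin (N s t)) (Fin (N s t)) (MvPolynomial ι ℂ)),
    (∀ s t i j, (A s t i j).totalDegree ≤ 1) ∧
    (∀ s t, ∃ S : Finset (Fin (N s t)), S.card ≤ R ∧ ∀ i ∉ S, ConstRow (A s t) i) ∧
    ∀ d, Tendsto (fun s => coeff d (∑ t, (A s t).det)) atTop (𝓝 (coeff d f))

theorem LimSumDetRows.limSumDet {M R : ℕ} (hR : 1 ≤ R) {f : MvPolynomial ι ℂ}
    (h : LimSumDetRows M R f) : LimSumDet M R f := by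
  obtain ⟨N, A, hA, hS, hlim⟩ := h
  have h1 : ∀ s t, ∃ B : Matrix (Fin R) (Fin R) (MvPolynomial ι ℂ),
      (∀ i j, (B i j).totalDegree ≤ 1) ∧ B.det = (A s t).det := by
    intro s t
    obtain ⟨S, hSc, hSr⟩ := hS s t
    exact exists_small hR (A s t) (hA s t) S hSc hSr
  choose B hB hBdet using h1
  refine ⟨B, hB, fun d => ?_⟩
  simp only [hBdet]
  exact hlim d

/-- `exists_small` for an arbitrary finite index type -/
theorem exists_small_fintype {K : Type} [Fintype K] [DecidableEq K] {R δ : ℕ} (hR : 1 ≤ R)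
    (A : Matrix K K (MvPolynomial ι ℂ)) (hA : ∀ i j, (A i j).totalDegree ≤ δ)
    (S : Finset K) (hS : S.card ≤ R) (hc : ∀ i ∉ S, ∀ j, ∃ c : ℂ, A i j = C c) :
    ∃ B : Matrix (Fin R) (Fin R) (MvPolynomial ι ℂ), (∀ i j, (B i j).totalDegree ≤ δ) ∧
      B.det = A.det := by
  classical
  let e : K ≃ Fin (Fintype.card K) := Fintype.equivFin K
  obtain ⟨B, hB, hdet⟩ := exists_small hR (A.submatrix e.symm e.symm) (fun i j => hA _ _)
    (S.map e.toEmbedding) (by rw [Finset.card_map]; exact hS) (fun i hi j => by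
      refine hc (e.symm i) (fun h => hi ?_) (e.symm j)
      rw [Finset.mem_map]
      exact ⟨e.symm i, h, by simp⟩)
  exact ⟨B, hB, by rw [hdet, Matrix.det_submatrix_equiv_self]⟩

/-- a complex matrix as a matrix of constant polynomials -/
noncomputable def cm (ι : Type) {a b : Type} (V : Matrix a b ℂ) : Matrix a b (MvPolynomial ι ℂ) :=
  V.map C

/-- The rank form: `A = A₀ + V W` with complex matrices `A₀` and `V`, `V` of width `R`. -/
theorem exists_small_rank {N R δ : ℕ} (hR : 1 ≤ R) (A₀ : Matrix (Fin N) (Fin N) ℂ)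
    (V : Matrix (Fin N) (Fin R) ℂ) (W : Matrix (Fin R) (Fin N) (MvPolynomial ι ℂ))
    (hW : ∀ i j, (W i j).totalDegree ≤ δ) :
    ∃ B : Matrix (Fin R) (Fin R) (MvPolynomial ι ℂ), (∀ i j, (B i j).totalDegree ≤ δ) ∧
      B.det = (cm ι A₀ + cm ι V * W : Matrix (Fin N) (Fin N) (MvPolynomial ι ℂ)).det := by
  classical
  set A : Matrix (Fin N) (Fin N) (MvPolynomial ι ℂ) := cm ι A₀ + cm ι V * W with hAdef
  by_cases h0 : A.det = 0
  · refine ⟨0, fun i j => ?_, ?_⟩
    · rw [Matrix.zero_apply, totalDegree_zero]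
      exact Nat.zero_le _
    · rw [h0]
      have : Nonempty (Fin R) := ⟨⟨0, hR⟩⟩
      exact Matrix.det_zero
  obtain ⟨x, hx⟩ : ∃ x : ι → ℂ, eval x A.det ≠ 0 := by
    by_contra hcon
    push Not at hcon
    exact h0 (MvPolynomial.funext fun x => by rw [hcon x, map_zero])
  set Q : Matrix (Fin N) (Fin N) ℂ := A.map (eval x) with hQ
  have hQdet : Q.det = eval x A.det := by
    rw [hQ, RingHom.map_det]
    rfl
  have hQ0 : Q.det ≠ 0 := by
    rw [hQdet]
    exact hx
  have hQu : IsUnit Q.det := isUnit_iff_ne_zero.2 hQ0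
  let W₀ : Matrix (Fin R) (Fin N) ℂ := W.map (eval x)
  have hQ2 : Q = A₀ + V * W₀ := by
    refine Matrix.ext fun i j => ?_
    simp only [hQ, hAdef, W₀, cm, Matrix.map_apply, Matrix.add_apply, Matrix.mul_apply, map_add,
      map_sum, map_mul, eval_C]
  let W₁ : Matrix (Fin R) (Fin N) (MvPolynomial ι ℂ) := W - cm ι W₀
  have hW₁ : ∀ i j, (W₁ i j).totalDegree ≤ δ := by
    intro i j
    simp only [W₁, cm, Matrix.sub_apply, Matrix.map_apply]
    refine (totalDegree_sub _ _).trans (max_le (hW i j) ?_)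
    rw [totalDegree_C]
    exact Nat.zero_le _
  have hA1 : A = cm ι Q * (1 + (cm ι (Q⁻¹ * V) * W₁)) := by
    have e1 : (cm ι Q : Matrix (Fin N) (Fin N) (MvPolynomial ι ℂ)) * (cm ι (Q⁻¹ * V)) =
        cm ι V := by
      rw [cm, cm, ← Matrix.map_mul, ← Matrix.mul_assoc, Matrix.mul_nonsing_inv _ hQu,
        Matrix.one_mul]
      rfl
    rw [Matrix.mul_add, Matrix.mul_one, ← Matrix.mul_assoc, e1]
    have e2 : (cm ι Q : Matrix (Fin N) (Fin N) (MvPolynomial ι ℂ)) =
        cm ι A₀ + cm ι V * cm ι W₀ := by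
      rw [hQ2, cm, cm, cm, cm, ← Matrix.map_mul]
      refine Matrix.ext fun i j => ?_
      simp only [Matrix.map_apply, Matrix.add_apply, map_add]
    rw [e2]
    simp only [W₁, Matrix.mul_sub, hAdef]
    abel
  let d : Fin R → MvPolynomial ι ℂ := Function.update 1 ⟨0, hR⟩ (C Q.det)
  refine ⟨Matrix.diagonal d * (1 + W₁ * cm ι (Q⁻¹ * V)), fun i j => ?_, ?_⟩
  · rw [Matrix.diagonal_mul]
    refine (totalDegree_mul _ _).trans ?_
    have h1 : (d i).totalDegree = 0 := by
      by_cases hi : i = ⟨0, hR⟩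
      · rw [hi]
        simp only [d, Function.update_self, totalDegree_C]
      · simp only [d, Function.update_of_ne hi, Pi.one_apply, totalDegree_one]
    rw [h1, zero_add, Matrix.add_apply, Matrix.mul_apply]
    refine (totalDegree_add _ _).trans (max_le ?_ ?_)
    · rw [Matrix.one_apply]
      split_ifs <;> simp
    · refine totalDegree_finsetSum_le fun k _ => ?_
      refine (totalDegree_mul _ _).trans ?_
      rw [cm, Matrix.map_apply, totalDegree_C, add_zero]
      exact hW₁ i k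
  · have h2 : (cm ι Q : Matrix (Fin N) (Fin N) (MvPolynomial ι ℂ)).det = C Q.det :=
      ((C : ℂ →+* MvPolynomial ι ℂ).map_det Q).symm
    rw [Matrix.det_mul, Matrix.det_diagonal, hA1, Matrix.det_mul, h2,
      Matrix.det_one_add_mul_comm]
    congr 1
    rw [Finset.prod_update_of_mem (Finset.mem_univ _)]
    simp

/-- Rank form of `LimSumDetRows`, entries of degree at most `δ`: the matrices, of any size, are
`A₀ + V W` with complex matrices `A₀` and `V` and `V` of width `R`. -/
def LimSumDetRank (M R δ : ℕ) {ι : Type} (f : MvPolynomial ι ℂ) : Prop :=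
  ∃ (N : ℕ → Fin M → ℕ)
    (A₀ : ∀ s t, Matrix (Fin (N s t)) (Fin (N s t)) ℂ)
    (V : ∀ s t, Matrix (Fin (N s t)) (Fin R) ℂ)
    (W : ∀ s t, Matrix (Fin R) (Fin (N s t)) (MvPolynomial ι ℂ)),
    (∀ s t i j, (W s t i j).totalDegree ≤ δ) ∧
    ∀ d, Tendsto (fun s => coeff d (∑ t, (cm ι (A₀ s t) + cm ι (V s t) * W s t :
      Matrix (Fin (N s t)) (Fin (N s t)) (MvPolynomial ι ℂ)).det)) atTop (𝓝 (coeff d f))

theorem LimSumDetRank.limSumDet {M R : ℕ} (hR : 1 ≤ R) {f : MvPolynomial ι ℂ}
    (h : LimSumDetRank M R 1 f) : LimSumDet M R f := by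
  obtain ⟨N, A₀, V, W, hW, hlim⟩ := h
  have h1 : ∀ s t, ∃ B : Matrix (Fin R) (Fin R) (MvPolynomial ι ℂ),
      (∀ i j, (B i j).totalDegree ≤ 1) ∧ B.det = (cm ι (A₀ s t) + cm ι (V s t) * W s t :
      Matrix (Fin (N s t)) (Fin (N s t)) (MvPolynomial ι ℂ)).det := fun s t =>
    exists_small_rank hR (A₀ s t) (V s t) (W s t) (hW s t)
  choose B hB hBdet using h1
  refine ⟨B, hB, fun d => ?_⟩
  simp only [hBdet]
  exact hlim d

/-- If every row of the matrix of the variables `(i, j)` is read by at most `r` rows of `A`, then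
`A` has at most `r m` non-constant rows. -/
theorem rows_of_reads {m N r : ℕ} {κ : Type}
    (A : Matrix (Fin N) (Fin N) (MvPolynomial (Fin m × κ) ℂ))
    (h : ∀ i : Fin m, ∃ T : Finset (Fin N), T.card ≤ r ∧
      ∀ a ∉ T, ∀ b, ∀ j : κ, (i, j) ∉ (A a b).vars) :
    ∃ S : Finset (Fin N), S.card ≤ r * m ∧ ∀ i ∉ S, ConstRow A i := by
  classical
  choose T hT hTv using h
  refine ⟨Finset.univ.biUnion T, ?_, fun a ha b => ?_⟩
  · refine Finset.card_biUnion_le.trans ?_
    refine (Finset.sum_le_card_nsmul _ _ r fun i _ => hT i).trans ?_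
    rw [Finset.card_univ, Fintype.card_fin, smul_eq_mul, mul_comm]
  · refine ⟨coeff 0 (A a b), ?_⟩
    rw [← vars_eq_empty_iff_eq_C]
    refine Finset.eq_empty_of_forall_notMem ?_
    rintro ⟨i, j⟩ hij
    refine hTv i a (fun hi => ha ?_) b j hij
    exact Finset.mem_biUnion.2 ⟨i, Finset.mem_univ _, hi⟩

end Pool.Agent.Work.MP_35c45d_lc.SD
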