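import Mathlib

/-! Codes over `ℂ` in which every one of `d` information symbols has `D` disjoint recovery sets,
of length `s` with `s ^ (2 - ε) ≤ d * D`. -/

set_option autoImplicit false

namespace Pool.Agent.Work.MP_35c45d_lc.SQ

namespace Code3

open Finset

/-- coordinates -/
abbrev Co (q b : ℕ) : Type := Fin q × Fin b

/-- indices: functions on the coordinates all whose fibres have `b` elements -/
def IsIdx {q b : ℕ} (v : Co q b → Fin q) : Prop :=
  ∀ j, (univ.filter fun i => v i = j).card = b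

/-- the combinatorial heart: equal fibre sums force equality -/
theorem idx_eq {q b : ℕ} (hb : 1 ≤ b) {v y : Co q b → Fin q} (hv : IsIdx v) (hy : IsIdx y)
    (h : ∀ j, ((∑ i ∈ univ.filter (fun i => v i = j), (y i : ℕ) : ℕ) : ZMod (q * b)) =
      ((b * (j : ℕ) : ℕ) : ZMod (q * b))) : y = v := by
  by_contra hne
  have hT : (univ.filter fun i => y i ≠ v i).Nonempty := by
    obtain ⟨i, hi⟩ := Function.ne_iff.1 hne
    exact ⟨i, by simp [hi]⟩
  obtain ⟨i0, hi0, hmax⟩ := exists_max_image (univ.filter fun i => y i ≠ v i)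
    (fun i => max (y i) (v i)) hT
  rw [mem_filter] at hi0
  set js : Fin q := max (y i0) (v i0) with hjs
  have hle : ∀ i ∈ univ.filter (fun i => v i = js), (y i : ℕ) ≤ (js : ℕ) := by
    intro i hi
    rw [mem_filter] at hi
    by_contra hlt
    push Not at hlt
    have h1 : js < y i := hlt
    have h2 : y i ≠ v i := by rw [hi.2]; exact ne_of_gt h1
    have h3 := hmax i (by simp [h2])
    have h4 : y i ≤ js := le_trans (le_max_left _ _) h3
    exact absurd h1 (not_lt.2 h4)
  have hsum_le : ∑ i ∈ univ.filter (fun i => v i = js), (y i : ℕ) ≤ b * (js : ℕ) := by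
    calc ∑ i ∈ univ.filter (fun i => v i = js), (y i : ℕ)
        ≤ ∑ i ∈ univ.filter (fun i => v i = js), (js : ℕ) := sum_le_sum hle
      _ = b * (js : ℕ) := by rw [sum_const, hv js, smul_eq_mul]
  have hlt : b * (js : ℕ) < q * b := by
    have := js.2
    calc b * (js : ℕ) < b * q := Nat.mul_lt_mul_of_pos_left this (by omega)
      _ = q * b := Nat.mul_comm _ _
  have hsum : ∑ i ∈ univ.filter (fun i => v i = js), (y i : ℕ) = b * (js : ℕ) := by
    have h1 := (ZMod.natCast_eq_natCast_iff' _ _ _).1 (h js)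
    rwa [Nat.mod_eq_of_lt (lt_of_le_of_lt hsum_le hlt), Nat.mod_eq_of_lt hlt] at h1
  have hall : ∀ i ∈ univ.filter (fun i => v i = js), (y i : ℕ) = (js : ℕ) := by
    refine (sum_eq_sum_iff_of_le hle).1 ?_
    rw [hsum, sum_const, hv js, smul_eq_mul]
  have hsub : univ.filter (fun i => v i = js) ⊆ univ.filter (fun i => y i = js) := by
    intro i hi
    rw [mem_filter]
    exact ⟨mem_univ _, Fin.ext (hall i hi)⟩
  have heq : univ.filter (fun i => v i = js) = univ.filter (fun i => y i = js) :=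
    eq_of_subset_of_card_le hsub (by rw [hv js, hy js])
  rcases max_choice (y i0) (v i0) with h1 | h1
  · have h2 : y i0 = js := by rw [hjs, h1]
    have h3 : i0 ∈ univ.filter (fun i => v i = js) := by
      rw [heq, mem_filter]; exact ⟨mem_univ _, h2⟩
    rw [mem_filter] at h3
    exact hi0.2 (by rw [h2, h3.2])
  · have h2 : v i0 = js := by rw [hjs, h1]
    have h3 : i0 ∈ univ.filter (fun i => y i = js) := by
      rw [← heq, mem_filter]; exact ⟨mem_univ _, h2⟩
    rw [mem_filter] at h3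
    exact hi0.2 (by rw [h2, h3.2])

/-- the subgroup of functions constant on the fibres of `v` -/
def H {q b k : ℕ} (v : Co q b → Fin q) : AddSubgroup (Co q b → ZMod k) where
  carrier := {x | ∃ g : Fin q → ZMod k, x = fun i => g (v i)}
  add_mem' := by
    rintro x y ⟨g, rfl⟩ ⟨g', rfl⟩
    exact ⟨g + g', rfl⟩
  zero_mem' := ⟨0, rfl⟩
  neg_mem' := by
    rintro x ⟨g, rfl⟩
    exact ⟨-g, rfl⟩

theorem idx_surj {q b : ℕ} (hb : 1 ≤ b) {v : Co q b → Fin q} (hv : IsIdx v) :
    Function.Surjective v := by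
  intro j
  have h1 : (univ.filter fun i => v i = j).Nonempty := by
    rw [← card_pos, hv j]; omega
  obtain ⟨i, hi⟩ := h1
  exact ⟨i, (mem_filter.1 hi).2⟩

theorem card_H {q b k : ℕ} (hb : 1 ≤ b) {v : Co q b → Fin q} (hv : IsIdx v) :
    Nat.card (H (k := k) v) = k ^ q := by
  have hs := idx_surj hb hv
  have e : (Fin q → ZMod k) ≃ H (k := k) v := by
    refine Equiv.ofBijective (fun g => ⟨fun i => g (v i), g, rfl⟩) ⟨?_, ?_⟩
    · intro g g' h
      have h1 := congrArg Subtype.val h
      funext j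
      obtain ⟨i, rfl⟩ := hs j
      exact congrFun h1 i
    · rintro ⟨x, g, rfl⟩
      exact ⟨g, rfl⟩
  rw [← Nat.card_congr e, Nat.card_fun, Nat.card_zmod, Nat.card_eq_fintype_card,
    Fintype.card_fin]

theorem card_quot {q b k : ℕ} [NeZero k] (hb : 1 ≤ b) {v : Co q b → Fin q} (hv : IsIdx v) :
    Nat.card ((Co q b → ZMod k) ⧸ H (k := k) v) = k ^ (q * b - q) := by
  have h1 := AddSubgroup.card_eq_card_quotient_mul_card_addSubgroup (H (k := k) v)
  rw [card_H hb hv, Nat.card_fun, Nat.card_zmod, Nat.card_eq_fintype_card, Fintype.card_prod,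
    Fintype.card_fin, Fintype.card_fin] at h1
  have hk : 0 < k := Nat.pos_of_ne_zero (NeZero.ne k)
  have h2 : q ≤ q * b := Nat.le_mul_of_pos_right q (by omega)
  have h3 : k ^ (q * b) = k ^ (q * b - q) * k ^ q := by
    rw [← pow_add]; congr 1; omega
  rw [h3] at h1
  exact (Nat.eq_of_mul_eq_mul_right (pow_pos hk q) h1).symm

/-- the pairing -/
def pr {q b k : ℕ} (v : Co q b → Fin q) (x : Co q b → ZMod k) : ZMod k :=
  ∑ i, ((v i : ℕ) : ZMod k) * x i

theorem pr_add {q b k : ℕ} (v : Co q b → Fin q) (x y : Co q b → ZMod k) :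
    pr v (x + y) = pr v x + pr v y := by
  simp only [pr, Pi.add_apply, mul_add, sum_add_distrib]

theorem pr_comp {q b k : ℕ} (v y : Co q b → Fin q) (g : Fin q → ZMod k) :
    pr y (fun i => g (v i)) =
      ∑ j, ((∑ i ∈ univ.filter (fun i => v i = j), (y i : ℕ) : ℕ) : ZMod k) * g j := by
  unfold pr
  rw [← sum_fiberwise (s := (univ : Finset (Co q b))) (g := v)
    (f := fun i => ((y i : ℕ) : ZMod k) * g (v i))]
  refine sum_congr rfl fun j _ => ?_
  rw [Nat.cast_sum, sum_mul]
  refine sum_congr rfl fun i hi => ?_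
  rw [(mem_filter.1 hi).2]

theorem char_sum {A ι : Type*} [AddCommMonoid A] (ψ : AddChar A ℂ) (s : Finset ι) (f : ι → A) :
    ψ (∑ i ∈ s, f i) = ∏ i ∈ s, ψ (f i) := by
  classical
  induction s using Finset.induction_on with
  | empty => simp
  | insert a s ha ih => rw [sum_insert ha, prod_insert ha, AddChar.map_add_eq_mul, ih]

theorem sum_char {q k : ℕ} [NeZero k] (σ : Fin q → ZMod k) :
    ∑ g : Fin q → ZMod k, ZMod.stdAddChar (N := k) (∑ j, σ j * g j) =
      if σ = 0 then ((k : ℂ) ^ q) else 0 := by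
  have h1 : ∀ g : Fin q → ZMod k, ZMod.stdAddChar (N := k) (∑ j, σ j * g j) =
      ∏ j, ZMod.stdAddChar (N := k) (g j * σ j) := by
    intro g
    rw [char_sum]
    exact prod_congr rfl fun j _ => by rw [mul_comm]
  simp only [h1]
  rw [← Fintype.piFinset_univ, ← prod_univ_sum (fun _ => univ)
    (fun j t => ZMod.stdAddChar (N := k) (t * σ j))]
  have h2 : ∀ j, ∑ t : ZMod k, ZMod.stdAddChar (N := k) (t * σ j) =
      if σ j = 0 then (k : ℂ) else 0 := by
    intro j
    rw [AddChar.sum_mulShift _ (ZMod.isPrimitive_stdAddChar k), ZMod.card]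
    split_ifs <;> simp
  simp only [h2]
  by_cases hσ : σ = 0
  · rw [if_pos hσ]
    simp [hσ]
  · rw [if_neg hσ]
    obtain ⟨j, hj⟩ := Function.ne_iff.1 hσ
    exact prod_eq_zero (mem_univ j) (if_neg hj)

/-- sum over a coset of `H v` -/
theorem sum_coset {q b k : ℕ} [NeZero k] (hb : 1 ≤ b) {v : Co q b → Fin q} (hv : IsIdx v)
    (x0 : Co q b → ZMod k) (F : (Co q b → ZMod k) → ℂ) [DecidablePred fun x : Co q b → ZMod k =>
      (QuotientAddGroup.mk x : (Co q b → ZMod k) ⧸ H (k := k) v) = QuotientAddGroup.mk x0] :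
    ∑ x ∈ univ.filter (fun x : Co q b → ZMod k =>
      (QuotientAddGroup.mk x : (Co q b → ZMod k) ⧸ H (k := k) v) = QuotientAddGroup.mk x0), F x =
      ∑ g : Fin q → ZMod k, F (x0 + fun i => g (v i)) := by
  have hs := idx_surj hb hv
  symm
  refine sum_bij (fun g _ => x0 + fun i => g (v i)) ?_ ?_ ?_ ?_
  · intro g _
    rw [mem_filter]
    refine ⟨mem_univ _, ?_⟩
    refine (QuotientAddGroup.eq.2 ?_).symm
    have : -x0 + (x0 + fun i => g (v i)) = fun i => g (v i) := by abel
    rw [this]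
    exact ⟨g, rfl⟩
  · intro g _ g' _ h
    have h1 := add_left_cancel h
    funext j
    obtain ⟨i, rfl⟩ := hs j
    exact congrFun h1 i
  · intro x hx
    rw [mem_filter] at hx
    obtain ⟨g, hg⟩ := QuotientAddGroup.eq.1 hx.2.symm
    refine ⟨g, mem_univ _, ?_⟩
    rw [← hg]
    abel
  · intro g _
    rfl

theorem ortho {q b : ℕ} (hb : 1 ≤ b) (hq : 1 ≤ q) {v y : Co q b → Fin q} (hv : IsIdx v)
    (hy : IsIdx y) (x0 : Co q b → ZMod (q * b)) :
    haveI : NeZero (q * b) := ⟨by positivity⟩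
    ∑ g : Fin q → ZMod (q * b), (((q * b : ℕ) : ℂ) ^ q)⁻¹ *
      ZMod.stdAddChar (N := q * b) (- pr v (x0 + fun i => g (v i))) *
      ZMod.stdAddChar (N := q * b) (pr y (x0 + fun i => g (v i))) = if v = y then 1 else 0 := by
  have : NeZero (q * b) := ⟨by positivity⟩
  have hk : (((q * b : ℕ) : ℂ) ^ q) ≠ 0 := pow_ne_zero _ (by exact_mod_cast NeZero.ne (q * b))
  set σ : Fin q → ZMod (q * b) := fun j =>
    ((∑ i ∈ univ.filter (fun i => v i = j), (y i : ℕ) : ℕ) : ZMod (q * b)) -
      ((∑ i ∈ univ.filter (fun i => v i = j), (v i : ℕ) : ℕ) : ZMod (q * b)) with hσ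
  have h1 : ∀ g : Fin q → ZMod (q * b), (((q * b : ℕ) : ℂ) ^ q)⁻¹ *
      ZMod.stdAddChar (N := q * b) (- pr v (x0 + fun i => g (v i))) *
      ZMod.stdAddChar (N := q * b) (pr y (x0 + fun i => g (v i))) =
      (((q * b : ℕ) : ℂ) ^ q)⁻¹ * ZMod.stdAddChar (N := q * b) (pr y x0 - pr v x0) *
        ZMod.stdAddChar (N := q * b) (∑ j, σ j * g j) := by
    intro g
    rw [mul_assoc, mul_assoc, ← AddChar.map_add_eq_mul, ← AddChar.map_add_eq_mul]
    congr 2
    rw [pr_add, pr_add, pr_comp, pr_comp]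
    simp only [hσ, sub_mul, sum_sub_distrib]
    ring
  simp only [h1]
  rw [← mul_sum, sum_char]
  have hvj : ∀ j, ∑ i ∈ univ.filter (fun i => v i = j), (v i : ℕ) = b * (j : ℕ) := by
    intro j
    rw [sum_congr rfl (g := fun _ => (j : ℕ)) (fun i hi => by rw [(mem_filter.1 hi).2]),
      sum_const, hv j, smul_eq_mul]
  by_cases hvy : v = y
  · subst hvy
    have h2 : σ = 0 := by
      funext j
      simp [hσ]
    rw [if_pos h2, if_pos rfl, sub_self, AddChar.map_zero_eq_one]
    field_simp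
  · rw [if_neg hvy, if_neg, mul_zero]
    intro h2
    refine hvy (idx_eq hb hv hy fun j => ?_).symm
    have h3 := congrFun h2 j
    simp only [hσ, Pi.zero_apply, sub_eq_zero, hvj] at h3
    exact h3

/-- number of indices -/
theorem card_idx {q b : ℕ} [DecidablePred (IsIdx (q := q) (b := b))] :
    (q * b).factorial ≤ Fintype.card {v : Co q b → Fin q // IsIdx v} * b ^ (q * b) := by
  have h1 : Fintype.card (Equiv.Perm (Co q b)) = (q * b).factorial := by
    rw [Fintype.card_perm, Fintype.card_prod, Fintype.card_fin, Fintype.card_fin]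
  have h2 : Fintype.card ({v : Co q b → Fin q // IsIdx v} × (Co q b → Fin b)) =
      Fintype.card {v : Co q b → Fin q // IsIdx v} * b ^ (q * b) := by
    rw [Fintype.card_prod, Fintype.card_fun, Fintype.card_prod, Fintype.card_fin,
      Fintype.card_fin]
  rw [← h1, ← h2]
  refine Fintype.card_le_of_injective (fun σ => (⟨fun i => (σ i).1, ?_⟩, fun i => (σ i).2)) ?_
  · intro j
    have h3 : (univ.filter fun i => (σ i).1 = j) =
        ((univ : Finset (Fin b)).map ⟨fun t => σ.symm (j, t), fun t t' h => by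
          have := σ.symm.injective h
          exact (Prod.mk.inj this).2⟩) := by
      ext i
      simp only [mem_filter, mem_univ, true_and, mem_map, Function.Embedding.coeFn_mk]
      constructor
      · intro h
        refine ⟨(σ i).2, ?_⟩
        rw [← h]
        simp
      · rintro ⟨t, rfl⟩
        simp
    rw [h3, card_map, card_univ, Fintype.card_fin]
  · intro σ σ' h
    have ha := congrArg Subtype.val (Prod.mk.inj h).1
    have hb := (Prod.mk.inj h).2
    ext1 i
    exact Prod.ext (congrFun ha i) (congrFun hb i)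

/-- the code for given parameters -/
theorem code (q b : ℕ) (hq : 1 ≤ q) (hb : 2 ≤ b) :
    ∃ (d : ℕ) (e : Fin d → Fin ((q * b) ^ (q * b)) → ℂ)
      (π : Fin d → Fin ((q * b) ^ (q * b)) → Fin ((q * b) ^ (q * b - q)))
      (c : Fin d → Fin ((q * b) ^ (q * b)) → ℂ),
      (∀ a a' j, ∑ x ∈ univ.filter (fun x => π a x = j), c a x * e a' x =
        if a = a' then 1 else 0) ∧
      (q * b).factorial ≤ d * b ^ (q * b) := by
  classical
  have : NeZero (q * b) := ⟨by positivity⟩
  have hb1 : 1 ≤ b := by omega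
  let A := {v : Co q b → Fin q // IsIdx v}
  let X := Co q b → ZMod (q * b)
  have hX : Fintype.card X = (q * b) ^ (q * b) := by
    simp only [X, Fintype.card_fun, ZMod.card, Fintype.card_prod, Fintype.card_fin]
  let eX : Fin ((q * b) ^ (q * b)) ≃ X := (Fintype.equivFinOfCardEq hX).symm
  let eA : Fin (Fintype.card A) ≃ A := (Fintype.equivFin A).symm
  have hQ : ∀ v : A, Nat.card (X ⧸ H (k := q * b) v.1) = (q * b) ^ (q * b - q) :=
    fun v => card_quot hb1 v.2
  let eQ : ∀ v : A, (X ⧸ H (k := q * b) v.1) ≃ Fin ((q * b) ^ (q * b - q)) :=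
    fun v => Finite.equivFinOfCardEq (hQ v)
  refine ⟨Fintype.card A,
    fun a x => ZMod.stdAddChar (N := q * b) (pr (eA a).1 (eX x)),
    fun a x => eQ (eA a) (QuotientAddGroup.mk (eX x)),
    fun a x => (((q * b : ℕ) : ℂ) ^ q)⁻¹ * ZMod.stdAddChar (N := q * b) (- pr (eA a).1 (eX x)),
    ?_, card_idx⟩
  intro a a' j
  obtain ⟨x0, hx0⟩ : ∃ x0 : X, QuotientAddGroup.mk x0 = (eQ (eA a)).symm j :=
    QuotientAddGroup.mk_surjective _
  have h1 : ∑ x ∈ univ.filter (fun x => eQ (eA a) (QuotientAddGroup.mk (eX x)) = j),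
      (((q * b : ℕ) : ℂ) ^ q)⁻¹ * ZMod.stdAddChar (N := q * b) (- pr (eA a).1 (eX x)) *
        ZMod.stdAddChar (N := q * b) (pr (eA a').1 (eX x)) =
      ∑ x ∈ univ.filter (fun x : X => (QuotientAddGroup.mk x : X ⧸ H (k := q * b) (eA a).1) =
        QuotientAddGroup.mk x0),
      (((q * b : ℕ) : ℂ) ^ q)⁻¹ * ZMod.stdAddChar (N := q * b) (- pr (eA a).1 x) *
        ZMod.stdAddChar (N := q * b) (pr (eA a').1 x) := by
    refine sum_bij (fun x _ => eX x) ?_ ?_ ?_ ?_
    · intro x hx
      rw [mem_filter] at hx ⊢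
      refine ⟨mem_univ _, ?_⟩
      rw [hx0, ← hx.2, Equiv.symm_apply_apply]
    · intro x _ x' _ h
      exact eX.injective h
    · intro x hx
      rw [mem_filter] at hx
      refine ⟨eX.symm x, ?_, eX.apply_symm_apply x⟩
      rw [mem_filter]
      refine ⟨mem_univ _, ?_⟩
      rw [Equiv.apply_symm_apply, hx.2, hx0, Equiv.apply_symm_apply]
    · intro x _
      rfl
  rw [h1, sum_coset hb1 (eA a).2, ortho hb1 hq (eA a).2 (eA a').2]
  congr 1
  simp only [eq_iff_iff]
  constructor
  · intro h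
    exact eA.injective (Subtype.ext h)
  · rintro rfl
    rfl

end Code3

/-- **Codes over `ℂ`** with `d` information symbols, each having `D` disjoint recovery sets,
of length `s` with `s ^ (2 - ε) ≤ d * D`. -/
theorem exists_code3 (ε : ℝ) (hε : 0 < ε) :
    ∃ (s d D : ℕ) (e : Fin d → Fin s → ℂ) (π : Fin d → Fin s → Fin D) (c : Fin d → Fin s → ℂ),
      2 ≤ D ∧ D < s ∧ 1 ≤ d ∧
      (∀ a a' j, ∑ x ∈ Finset.univ.filter (fun x => π a x = j), c a x * e a' x =
        if a = a' then 1 else 0) ∧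
      (s : ℝ) ^ (2 - ε) ≤ (d : ℝ) * (D : ℝ) := by
  obtain ⟨b, hb⟩ := exists_nat_ge (max 2 (2 / ε))
  have hb2 : 2 ≤ b := by exact_mod_cast le_trans (le_max_left _ _) hb
  have hbε : 2 / ε ≤ b := le_trans (le_max_right _ _) hb
  obtain ⟨q, hq⟩ := exists_nat_ge (max 1 (Real.exp (b * (1 + Real.log b))))
  have hq1 : 1 ≤ q := by exact_mod_cast le_trans (le_max_left _ _) hq
  have hqe : Real.exp (b * (1 + Real.log b)) ≤ q := le_trans (le_max_right _ _) hq
  obtain ⟨d, e, π, c, h1, h2⟩ := Code3.code q b hq1 hb2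
  have hbpos : (0 : ℝ) < b := by positivity
  have hqpos : (0 : ℝ) < q := by positivity
  have hk2 : 2 ≤ q * b := by nlinarith
  have hkpos : (0 : ℝ) < ((q * b : ℕ) : ℝ) := by positivity
  have hd1 : 1 ≤ d := by
    by_contra h
    have h0 : d = 0 := by omega
    rw [h0, Nat.zero_mul] at h2
    exact absurd h2 (not_le.2 (Nat.factorial_pos _))
  have hqlt : q < q * b := by nlinarith
  refine ⟨(q * b) ^ (q * b), d, (q * b) ^ (q * b - q), e, π, c, ?_, ?_, hd1, h1, ?_⟩
  · calc 2 ≤ q * b := hk2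
      _ = (q * b) ^ 1 := (pow_one _).symm
      _ ≤ (q * b) ^ (q * b - q) := Nat.pow_le_pow_right (by omega) (by omega)
  · exact Nat.pow_lt_pow_right (by omega) (by omega)
  · -- logarithms
    set k : ℝ := ((q * b : ℕ) : ℝ) with hk
    have hkq : k = q * b := by rw [hk]; push_cast; ring
    have hexp : k ^ (q * b) ≤ Real.exp k * ((q * b).factorial : ℝ) := by
      have := Real.pow_div_factorial_le_exp k hkpos.le (q * b)
      rwa [div_le_iff₀ (by positivity)] at this
    have hfac : ((q * b).factorial : ℝ) ≤ d * (b : ℝ) ^ (q * b) := by exact_mod_cast h2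
    have hmain : k ^ (q * b) ≤ Real.exp k * (d * (b : ℝ) ^ (q * b)) :=
      le_trans hexp (mul_le_mul_of_nonneg_left hfac (Real.exp_pos _).le)
    have hlogk : b * (1 + Real.log b) ≤ Real.log k := by
      rw [Real.le_log_iff_exp_le hkpos]
      refine le_trans hqe ?_
      rw [hkq]
      have : (1 : ℝ) ≤ b := by exact_mod_cast (by omega : 1 ≤ b)
      nlinarith
    have hdpos : (0 : ℝ) < d := by exact_mod_cast hd1
    have hlog1 : k * Real.log k ≤ k + (Real.log d + k * Real.log b) := by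
      have h3 := Real.log_le_log (by positivity) hmain
      rw [Real.log_pow, Real.log_mul (Real.exp_pos _).ne' (by positivity), Real.log_exp,
        Real.log_mul (by positivity) (by positivity), Real.log_pow] at h3
      exact h3
    have hcast : (((q * b) ^ (q * b) : ℕ) : ℝ) = k ^ (q * b) := by rw [hk]; push_cast; rfl
    have hcast2 : (((q * b) ^ (q * b - q) : ℕ) : ℝ) = k ^ (q * b - q) := by
      rw [hk]; push_cast; rfl
    rw [hcast, hcast2]
    have hpos1 : (0 : ℝ) < (k ^ (q * b)) ^ (2 - ε) := by positivity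
    have hpos2 : (0 : ℝ) < d * k ^ (q * b - q) := by positivity
    rw [← Real.log_le_log_iff hpos1 hpos2, Real.log_rpow (by positivity), Real.log_pow,
      Real.log_mul (by positivity) (by positivity), Real.log_pow, Nat.cast_sub hqlt.le]
    rw [← hk]
    -- (2 - ε) k L ≤ log d + (k - q) L
    have hL0 : 0 ≤ Real.log k := by
      refine Real.log_nonneg ?_
      rw [hk]; exact_mod_cast (by omega : 1 ≤ q * b)
    have hεb : 2 ≤ ε * b := by
      rw [div_le_iff₀ hε] at hbε
      linarith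
    -- k * (1 + log b) ≤ (ε k - q) L
    have h5 : k * (1 + Real.log b) ≤ (ε * k - q) * Real.log k := by
      have h6 : k * (1 + Real.log b) = q * (b * (1 + Real.log b)) := by rw [hkq]; ring
      have h7 : (ε * k - q) = q * (ε * b - 1) := by rw [hkq]; ring
      rw [h6, h7, mul_assoc]
      refine mul_le_mul_of_nonneg_left ?_ hqpos.le
      calc b * (1 + Real.log b) ≤ Real.log k := hlogk
        _ = 1 * Real.log k := (one_mul _).symm
        _ ≤ (ε * b - 1) * Real.log k := mul_le_mul_of_nonneg_right (by linarith) hL0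
    nlinarith

end Pool.Agent.Work.MP_35c45d_lc.SQ
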