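import Mathlib

/-! Permanents of rectangular-indexed matrices and the exact gadget identity. -/

set_option autoImplicit false

namespace Pool.Agent.Work.MP_35c45d_lc.SQ

open Finset

/-- Permanent of a matrix with rows `α` and columns `β`. -/
noncomputable def rperm {α β : Type} {R : Type} [CommRing R] [Fintype α] [Fintype β]
    [DecidableEq α] [DecidableEq β] (M : α → β → R) : R :=
  ∑ e : α ≃ β, ∏ a, M a (e a)

section basic

variable {R : Type} [CommRing R] {α β α' β' K K' : Type}
  [Fintype α] [Fintype β] [DecidableEq α] [DecidableEq β]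
  [Fintype α'] [Fintype β'] [DecidableEq α'] [DecidableEq β']
  [Fintype K] [DecidableEq K] [Fintype K'] [DecidableEq K']

theorem rperm_equiv (e : α' ≃ α) (f : β' ≃ β) (M : α → β → R) :
    rperm (fun a b => M (e a) (f b)) = rperm M := by
  unfold rperm
  refine Fintype.sum_equiv (Equiv.equivCongr e f) _ _ fun σ => ?_
  refine Fintype.prod_equiv e _ _ fun a => ?_
  simp [Equiv.equivCongr]

/-- Block triangular matrices. -/
theorem rperm_block (hK : Fintype.card K = Fintype.card K') (M : α ⊕ K → β ⊕ K' → R)
    (h0 : ∀ k b, M (Sum.inr k) (Sum.inl b) = 0) :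
    rperm M = rperm (fun a b => M (Sum.inl a) (Sum.inl b))
      * rperm (fun k k' => M (Sum.inr k) (Sum.inr k')) := by
  classical
  unfold rperm
  rw [Finset.sum_mul_sum, ← Fintype.sum_prod_type']
  symm
  refine Fintype.sum_of_injective
    (fun p : (α ≃ β) × (K ≃ K') => Equiv.sumCongr p.1 p.2) ?_ _ _ ?_ ?_
  · rintro ⟨e1, e2⟩ ⟨f1, f2⟩ h
    have h' : ∀ x, (Equiv.sumCongr e1 e2) x = (Equiv.sumCongr f1 f2) x := fun x => by
      have := congrArg (fun g : α ⊕ K ≃ β ⊕ K' => g x) h
      exact this
    ext x
    · have := h' (Sum.inl x)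
      simpa using this
    · have := h' (Sum.inr x)
      simpa using this
  · intro e he
    by_contra hne
    have h1 : ∀ k, ∃ k', e (Sum.inr k) = Sum.inr k' := by
      intro k
      rcases hh : e (Sum.inr k) with b | k'
      · exfalso
        apply hne
        refine Finset.prod_eq_zero (Finset.mem_univ (Sum.inr k)) ?_
        rw [hh, h0]
      · exact ⟨k', rfl⟩
    choose g hg using h1
    have ginj : Function.Injective g := by
      intro k1 k2 hk
      have : e (Sum.inr k1) = e (Sum.inr k2) := by rw [hg, hg, hk]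
      exact Sum.inr_injective (e.injective this)
    have gbij : Function.Bijective g :=
      (Fintype.bijective_iff_injective_and_card g).mpr ⟨ginj, hK⟩
    have h2 : ∀ a, ∃ b, e (Sum.inl a) = Sum.inl b := by
      intro a
      rcases hh : e (Sum.inl a) with b | k'
      · exact ⟨b, rfl⟩
      · exfalso
        obtain ⟨k, rfl⟩ := gbij.2 k'
        rw [← hg] at hh
        exact absurd (e.injective hh) (by simp)
    choose f hf using h2
    have finj : Function.Injective f := by
      intro k1 k2 hk
      have : e (Sum.inl k1) = e (Sum.inl k2) := by rw [hf, hf, hk]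
      exact Sum.inl_injective (e.injective this)
    have hcard : Fintype.card α = Fintype.card β := by
      have := Fintype.card_congr e
      rw [Fintype.card_sum, Fintype.card_sum] at this
      omega
    have fbij : Function.Bijective f :=
      (Fintype.bijective_iff_injective_and_card f).mpr ⟨finj, hcard⟩
    apply he
    refine ⟨(Equiv.ofBijective f fbij, Equiv.ofBijective g gbij), ?_⟩
    ext x
    rcases x with a | k
    · simp [hf]
    · simp [hg]
  · rintro ⟨e1, e2⟩
    rw [Fintype.prod_sum_type]
    rfl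

theorem rperm_ones (hK : Fintype.card K = Fintype.card K') :
    rperm (fun (_ : K) (_ : K') => (1 : R)) = ((Fintype.card K).factorial : R) := by
  unfold rperm
  simp only [Finset.prod_const_one, Finset.sum_const, nsmul_eq_mul, mul_one]
  rw [Finset.card_univ, Fintype.card_equiv (Fintype.equivOfCardEq hK)]

theorem rperm_rowscale (u : K → R) (M : K → K' → R) :
    rperm (fun k k' => u k * M k k') = (∏ k, u k) * rperm M := by
  unfold rperm
  rw [Finset.mul_sum]
  refine Finset.sum_congr rfl fun e _ => ?_
  rw [Finset.prod_mul_distrib]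

/-- The link lemma. -/
theorem rperm_link [Nonempty K] (A : α → β → R) (u v : β → R) (ζ : K → R)
    (hζ : ∀ j, 0 < j → j < Fintype.card K →
      ∑ T ∈ powersetCard j (univ : Finset K), ∏ k ∈ T, ζ k = 0)
    (hζ1 : ∏ k, ζ k = 1) :
    rperm (Sum.elim A (fun k b => u b + ζ k * v b))
      = rperm (Sum.elim A (fun (_ : K) => u)) + rperm (Sum.elim A (fun (_ : K) => v)) := by
  classical
  set Q : Finset K → R := fun T =>
    ∑ e : α ⊕ K ≃ β, (∏ a, A a (e (Sum.inl a))) *
      ((∏ k ∈ T, v (e (Sum.inr k))) * ∏ k ∈ univ \ T, u (e (Sum.inr k))) with hQ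
  have hsym : ∀ T T' : Finset K, T.card = T'.card → Q T = Q T' := by
    intro T T' hTT
    have e0 : {x // x ∈ T} ≃ {x // x ∈ T'} := Fintype.equivOfCardEq (by simpa using hTT)
    set π : Equiv.Perm K := e0.extendSubtype with hπ
    have hπ1 : ∀ x, x ∈ T ↔ π x ∈ T' := by
      intro x
      constructor
      · intro hx
        exact e0.extendSubtype_mem x hx
      · intro hx
        by_contra hx'
        exact e0.extendSubtype_not_mem x hx' hx
    rw [hQ]
    symm
    refine Fintype.sum_equiv (Equiv.equivCongr (Equiv.sumCongr (Equiv.refl α) π.symm)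
      (Equiv.refl β)) _ _ fun σ => ?_
    have h1 : ∀ x, ((Equiv.equivCongr (Equiv.sumCongr (Equiv.refl α) π.symm)
      (Equiv.refl β)) σ) (Sum.inl x) = σ (Sum.inl x) := by
      intro x; simp [Equiv.equivCongr]
    have h2 : ∀ x, ((Equiv.equivCongr (Equiv.sumCongr (Equiv.refl α) π.symm)
      (Equiv.refl β)) σ) (Sum.inr x) = σ (Sum.inr (π x)) := by
      intro x; simp [Equiv.equivCongr]
    simp only [h1, h2]
    congr 2
    · symm
      refine Finset.prod_bij (fun x _ => π x) ?_ ?_ ?_ ?_
      · intro x hx; exact (hπ1 x).mp hx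
      · intro x _ y _ h; exact π.injective h
      · intro y hy
        exact ⟨π.symm y, (hπ1 _).mpr (by simpa using hy), by simp⟩
      · intro x _; rfl
    · symm
      refine Finset.prod_bij (fun x _ => π x) ?_ ?_ ?_ ?_
      · intro x hx
        simp only [mem_sdiff, mem_univ, true_and] at hx ⊢
        rwa [← hπ1]
      · intro x _ y _ h; exact π.injective h
      · intro y hy
        refine ⟨π.symm y, ?_, by simp⟩
        simp only [mem_sdiff, mem_univ, true_and] at hy ⊢
        rw [hπ1]; simpa using hy
      · intro x _; rfl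
  have h1 : rperm (Sum.elim A (fun k b => u b + ζ k * v b))
      = ∑ T ∈ (univ : Finset K).powerset, (∏ k ∈ T, ζ k) * Q T := by
    unfold rperm
    simp only [Fintype.prod_sum_type, Sum.elim_inl, Sum.elim_inr]
    have : ∀ e : α ⊕ K ≃ β, ∏ k, (u (e (Sum.inr k)) + ζ k * v (e (Sum.inr k)))
        = ∑ T ∈ (univ : Finset K).powerset, (∏ k ∈ T, ζ k) *
          ((∏ k ∈ T, v (e (Sum.inr k))) * ∏ k ∈ univ \ T, u (e (Sum.inr k))) := by
      intro e
      simp_rw [add_comm (u _)]
      rw [Finset.prod_add]
      refine Finset.sum_congr rfl fun T _ => ?_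
      rw [Finset.prod_mul_distrib, mul_assoc]
    simp only [this, hQ, Finset.mul_sum]
    rw [Finset.sum_comm]
    refine Finset.sum_congr rfl fun T _ => Finset.sum_congr rfl fun e _ => ?_
    ring
  have h2 : Q ∅ = rperm (Sum.elim A (fun (_ : K) => u)) := by
    rw [hQ]
    unfold rperm
    simp only [Fintype.prod_sum_type, Sum.elim_inl, Sum.elim_inr, prod_empty, one_mul, sdiff_empty]
  have h3 : Q univ = rperm (Sum.elim A (fun (_ : K) => v)) := by
    rw [hQ]
    unfold rperm
    simp only [Fintype.prod_sum_type, Sum.elim_inl, Sum.elim_inr, sdiff_self, bot_eq_empty,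
      prod_empty, mul_one]
  rw [h1, ← h2, ← h3, Finset.sum_powerset, Finset.card_univ]
  have hpos : 0 < Fintype.card K := Fintype.card_pos
  obtain ⟨s, hs⟩ : ∃ s, Fintype.card K = s + 1 := ⟨Fintype.card K - 1, by omega⟩
  rw [hs, Finset.sum_range_succ, Finset.sum_range_succ']
  have h4 : ∀ j ∈ range s, ∑ T ∈ powersetCard (j + 1) (univ : Finset K),
      (∏ k ∈ T, ζ k) * Q T = 0 := by
    intro j hj
    rw [mem_range] at hj
    by_cases hne : (powersetCard (j + 1) (univ : Finset K)).Nonempty
    · obtain ⟨T0, hT0⟩ := hne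
      rw [Finset.sum_congr rfl (fun T hT => by
        rw [hsym T T0 (by rw [(mem_powersetCard.mp hT).2, (mem_powersetCard.mp hT0).2])]),
        ← Finset.sum_mul, hζ (j + 1) (by omega) (by omega), zero_mul]
    · rw [not_nonempty_iff_eq_empty] at hne
      rw [hne, sum_empty]
  rw [Finset.sum_eq_zero h4, zero_add]
  have h5 : powersetCard (s + 1) (univ : Finset K) = {univ} := by
    rw [← hs, ← Finset.card_univ, powersetCard_self]
  rw [h5, powersetCard_zero, sum_singleton, sum_singleton, prod_empty, one_mul, hζ1, one_mul]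

end basic

section star

variable {R : Type} [CommRing R] {α β X : Type}
  [Fintype α] [Fintype β] [DecidableEq α] [DecidableEq β] [Fintype X] [DecidableEq X]

/-- splitting off the first group -/
def splitRow (α Γ X : Type) : (α ⊕ (Γ × X)) ⊕ X ≃ α ⊕ (Option Γ × X) where
  toFun y := match y with
    | Sum.inl (Sum.inl a) => Sum.inl a
    | Sum.inl (Sum.inr (g, x)) => Sum.inr (some g, x)
    | Sum.inr x => Sum.inr (none, x)
  invFun y := match y with
    | Sum.inl a => Sum.inl (Sum.inl a)
    | Sum.inr (some g, x) => Sum.inl (Sum.inr (g, x))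
    | Sum.inr (none, x) => Sum.inr x
  left_inv y := by rcases y with (a | ⟨g, x⟩) | x <;> rfl
  right_inv y := by rcases y with a | ⟨_ | g, x⟩ <;> rfl

/-- splitting off the first group -/
def splitCol (β Γ X : Type) : ((Γ × X) ⊕ β) ⊕ X ≃ (Option Γ × X) ⊕ β where
  toFun y := match y with
    | Sum.inl (Sum.inl (g, x)) => Sum.inl (some g, x)
    | Sum.inl (Sum.inr b) => Sum.inr b
    | Sum.inr x => Sum.inl (none, x)
  invFun y := match y with
    | Sum.inl (some g, x) => Sum.inl (Sum.inl (g, x))
    | Sum.inl (none, x) => Sum.inr x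
    | Sum.inr b => Sum.inl (Sum.inr b)
  left_inv y := by rcases y with (⟨g, x⟩ | b) | x <;> rfl
  right_inv y := by rcases y with ⟨_ | g, x⟩ | b <;> rfl

/-- the links without the centre -/
def ownM {Γ : Type} [DecidableEq Γ] (B : α → Γ → X → R) (A : α → β → R) (ζ : X → R) :
    α ⊕ (Γ × X) → (Γ × X) ⊕ β → R := fun r c =>
  match r, c with
  | Sum.inl a, Sum.inl (g, x) => B a g x
  | Sum.inl a, Sum.inr b => A a b
  | Sum.inr (g', k), Sum.inl (g, _) => if g = g' then ζ k else 0
  | Sum.inr _, Sum.inr _ => 0

theorem rperm_own (ζ : X → R) (hζ1 : ∏ k, ζ k = 1) (A : α → β → R) (Γ : Type) [Fintype Γ] :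
    ∀ [DecidableEq Γ] (B : α → Γ → X → R),
      rperm (ownM B A ζ)
        = ((Fintype.card X).factorial : R) ^ Fintype.card Γ * rperm A := by
  refine Fintype.induction_empty_option
    (P := fun Γ _ => ∀ [DecidableEq Γ] (B : α → Γ → X → R), rperm (ownM B A ζ)
        = ((Fintype.card X).factorial : R) ^ Fintype.card Γ * rperm A) ?_ ?_ ?_ Γ
  · intro Γ Γ' _ e ih _ B
    let _ : Fintype Γ := Fintype.ofEquiv _ e.symm
    let _ : DecidableEq Γ := Classical.decEq _
    have h := ih (fun a g x => B a (e g) x)
    rw [← rperm_equiv (Equiv.sumCongr (Equiv.refl α) (Equiv.prodCongr e (Equiv.refl X)))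
      (Equiv.sumCongr (Equiv.prodCongr e (Equiv.refl X)) (Equiv.refl β)) (ownM B A ζ),
      ← Fintype.card_congr e, ← h]
    congr 1
    funext r c
    rcases r with a | ⟨g', k⟩ <;> rcases c with ⟨g, x⟩ | b <;> simp [ownM]
  · intro _ B
    rw [Fintype.card_pempty, pow_zero, one_mul]
    rw [← rperm_equiv (Equiv.sumEmpty α (PEmpty × X)).symm (Equiv.emptySum (PEmpty × X) β).symm
      (ownM B A ζ)]
    rfl
  · intro Γ _ ih _ B
    let _ : DecidableEq Γ := Classical.decEq _
    have h := ih (fun a g x => B a (some g) x)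
    rw [← rperm_equiv (splitRow α Γ X) (splitCol β Γ X) (ownM B A ζ), rperm_block rfl]
    · have e1 : (fun a b => ownM B A ζ (splitRow α Γ X (Sum.inl a)) (splitCol β Γ X (Sum.inl b)))
          = ownM (fun a g x => B a (some g) x) A ζ := by
        funext r c
        rcases r with a | ⟨g', k⟩ <;> rcases c with ⟨g, x⟩ | b <;>
          simp [ownM, splitRow, splitCol]
      have e2 : (fun k k' => ownM B A ζ (splitRow α Γ X (Sum.inr k)) (splitCol β Γ X (Sum.inr k')))
          = fun (k : X) (_ : X) => ζ k * (1 : R) := by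
        funext k k'
        simp [ownM, splitRow, splitCol]
      rw [e1, e2, h, rperm_rowscale, hζ1, one_mul, rperm_ones rfl, Fintype.card_option, pow_succ]
      ring
    · intro k b
      rcases b with ⟨g, x⟩ | b <;> simp [ownM, splitRow, splitCol]

/-- the star of groups: centre `X`, other groups `Γ × X` -/
def starM {Γ : Type} [DecidableEq Γ] (B0 : α → X → R) (B : α → Γ → X → R) (A : α → β → R)
    (ζ : X → R) : α ⊕ (Γ × X) → X ⊕ ((Γ × X) ⊕ β) → R := fun r c =>
  match r, c with
  | Sum.inl a, Sum.inl x => B0 a x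
  | Sum.inl a, Sum.inr (Sum.inl (g, x)) => B a g x
  | Sum.inl a, Sum.inr (Sum.inr b) => A a b
  | Sum.inr _, Sum.inl _ => 1
  | Sum.inr (g', k), Sum.inr (Sum.inl (g, _)) => if g = g' then ζ k else 0
  | Sum.inr _, Sum.inr (Sum.inr _) => 0

theorem rperm_star [Nonempty X] (ζ : X → R)
    (hζ : ∀ j, 0 < j → j < Fintype.card X →
      ∑ T ∈ powersetCard j (univ : Finset X), ∏ k ∈ T, ζ k = 0)
    (hζ1 : ∏ k, ζ k = 1) (B0 : α → X → R) (A : α → β → R) (Γ : Type) [Fintype Γ] :
    ∀ [DecidableEq Γ] (B : α → Γ → X → R),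
      rperm (starM B0 B A ζ)
        = ((Fintype.card X).factorial : R) ^ Fintype.card Γ *
          (rperm (fun a => Sum.elim (B0 a) (A a)) + ∑ g, rperm (fun a => Sum.elim (B a g) (A a))) := by
  refine Fintype.induction_empty_option
    (P := fun Γ _ => ∀ [DecidableEq Γ] (B : α → Γ → X → R), rperm (starM B0 B A ζ)
        = ((Fintype.card X).factorial : R) ^ Fintype.card Γ *
          (rperm (fun a => Sum.elim (B0 a) (A a)) + ∑ g, rperm (fun a => Sum.elim (B a g) (A a))))
    ?_ ?_ ?_ Γ
  · intro Γ Γ' _ e ih _ B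
    let _ : Fintype Γ := Fintype.ofEquiv _ e.symm
    let _ : DecidableEq Γ := Classical.decEq _
    have h := ih (fun a g x => B a (e g) x)
    rw [← rperm_equiv (Equiv.sumCongr (Equiv.refl α) (Equiv.prodCongr e (Equiv.refl X)))
      (Equiv.sumCongr (Equiv.refl X) (Equiv.sumCongr (Equiv.prodCongr e (Equiv.refl X))
        (Equiv.refl β))) (starM B0 B A ζ),
      ← Fintype.card_congr e, ← Equiv.sum_comp e (fun g => rperm (fun a => Sum.elim (B a g) (A a))),
      ← h]
    congr 1
    funext r c
    rcases r with a | ⟨g', k⟩ <;> rcases c with x | ⟨g, x⟩ | b <;> simp [starM]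
  · intro _ B
    rw [Fintype.card_pempty, pow_zero, one_mul, Finset.univ_eq_empty, sum_empty, add_zero]
    rw [← rperm_equiv (Equiv.sumEmpty α (PEmpty × X)).symm
      (Equiv.sumCongr (Equiv.refl X) (Equiv.emptySum (PEmpty × X) β).symm) (starM B0 B A ζ)]
    congr 1
    funext r c
    rcases c with x | b <;> rfl
  · intro Γ _ ih _ B
    let _ : DecidableEq Γ := Classical.decEq _
    have h := ih (fun a g x => B a (some g) x)
    -- the matrix after splitting off the rows of the link `none`
    set A1 : α ⊕ (Γ × X) → X ⊕ ((Option Γ × X) ⊕ β) → R := fun r c =>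
      starM B0 B A ζ (splitRow α Γ X (Sum.inl r)) c with hA1
    set u : X ⊕ ((Option Γ × X) ⊕ β) → R := fun c =>
      match c with
      | Sum.inl _ => 1
      | Sum.inr _ => 0 with hu
    set v : X ⊕ ((Option Γ × X) ⊕ β) → R := fun c =>
      match c with
      | Sum.inr (Sum.inl (none, _)) => 1
      | _ => 0 with hv
    have hlink := rperm_link A1 u v ζ hζ hζ1
    have e0 : rperm (starM B0 B A ζ) = rperm (Sum.elim A1 (fun k b => u b + ζ k * v b)) := by
      rw [← rperm_equiv (splitRow α Γ X) (Equiv.refl _) (starM B0 B A ζ)]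
      congr 1
      funext r c
      rcases r with r | k
      · rfl
      · rcases c with x | ⟨_ | g, x⟩ | b <;> simp [starM, splitRow, hu, hv]
    rw [e0, hlink]
    have hU : rperm (Sum.elim A1 (fun (_ : X) => u))
        = ((Fintype.card X).factorial : R) ^ (Fintype.card Γ + 1) *
          rperm (fun a => Sum.elim (B a none) (A a)) := by
      -- columns: (Γ × X) ⊕ (X ⊕ β), last block = centre
      let f : ((Γ × X) ⊕ (X ⊕ β)) ⊕ X ≃ X ⊕ ((Option Γ × X) ⊕ β) :=
        { toFun := fun y => match y with
            | Sum.inl (Sum.inl (g, x)) => Sum.inr (Sum.inl (some g, x))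
            | Sum.inl (Sum.inr (Sum.inl x)) => Sum.inr (Sum.inl (none, x))
            | Sum.inl (Sum.inr (Sum.inr b)) => Sum.inr (Sum.inr b)
            | Sum.inr x => Sum.inl x
          invFun := fun y => match y with
            | Sum.inl x => Sum.inr x
            | Sum.inr (Sum.inl (some g, x)) => Sum.inl (Sum.inl (g, x))
            | Sum.inr (Sum.inl (none, x)) => Sum.inl (Sum.inr (Sum.inl x))
            | Sum.inr (Sum.inr b) => Sum.inl (Sum.inr (Sum.inr b))
          left_inv := fun y => by rcases y with (⟨g, x⟩ | x | b) | x <;> rfl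
          right_inv := fun y => by rcases y with x | ⟨_ | g, x⟩ | b <;> rfl }
      rw [← rperm_equiv (Equiv.refl _) f, rperm_block rfl]
      · have e1 : (fun a b => (Sum.elim A1 (fun (_ : X) => u)) ((Equiv.refl _) (Sum.inl a))
            (f (Sum.inl b)))
            = ownM (fun a g x => B a (some g) x) (fun a => Sum.elim (B a none) (A a)) ζ := by
          funext r c
          rcases r with a | ⟨g', k⟩ <;> rcases c with ⟨g, x⟩ | x | b <;>
            simp [ownM, splitRow, starM, hA1, f]
        have e2 : (fun k k' => (Sum.elim A1 (fun (_ : X) => u)) ((Equiv.refl _) (Sum.inr k))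
            (f (Sum.inr k'))) = fun (_ : X) (_ : X) => (1 : R) := by
          funext k k'
          simp [hu, f]
        rw [e1, e2, rperm_own ζ hζ1, rperm_ones rfl, pow_succ]
        ring
      · intro k b
        rcases b with ⟨g, x⟩ | x | b <;> simp [hu, f]
    have hV : rperm (Sum.elim A1 (fun (_ : X) => v))
        = ((Fintype.card X).factorial : R) ^ (Fintype.card Γ + 1) *
          (rperm (fun a => Sum.elim (B0 a) (A a))
            + ∑ g : Γ, rperm (fun a => Sum.elim (B a (some g)) (A a))) := by
      let f : (X ⊕ ((Γ × X) ⊕ β)) ⊕ X ≃ X ⊕ ((Option Γ × X) ⊕ β) :=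
        { toFun := fun y => match y with
            | Sum.inl (Sum.inl x) => Sum.inl x
            | Sum.inl (Sum.inr (Sum.inl (g, x))) => Sum.inr (Sum.inl (some g, x))
            | Sum.inl (Sum.inr (Sum.inr b)) => Sum.inr (Sum.inr b)
            | Sum.inr x => Sum.inr (Sum.inl (none, x))
          invFun := fun y => match y with
            | Sum.inl x => Sum.inl (Sum.inl x)
            | Sum.inr (Sum.inl (some g, x)) => Sum.inl (Sum.inr (Sum.inl (g, x)))
            | Sum.inr (Sum.inl (none, x)) => Sum.inr x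
            | Sum.inr (Sum.inr b) => Sum.inl (Sum.inr (Sum.inr b))
          left_inv := fun y => by rcases y with (x | ⟨g, x⟩ | b) | x <;> rfl
          right_inv := fun y => by rcases y with x | ⟨_ | g, x⟩ | b <;> rfl }
      rw [← rperm_equiv (Equiv.refl _) f, rperm_block rfl]
      · have e1 : (fun a b => (Sum.elim A1 (fun (_ : X) => v)) ((Equiv.refl _) (Sum.inl a))
            (f (Sum.inl b)))
            = starM B0 (fun a g x => B a (some g) x) A ζ := by
          funext r c
          rcases r with a | ⟨g', k⟩ <;> rcases c with x | ⟨g, x⟩ | b <;>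
            simp [splitRow, starM, hA1, f]
        have e2 : (fun k k' => (Sum.elim A1 (fun (_ : X) => v)) ((Equiv.refl _) (Sum.inr k))
            (f (Sum.inr k'))) = fun (_ : X) (_ : X) => (1 : R) := by
          funext k k'
          simp [hv, f]
        rw [e1, e2, h, rperm_ones rfl, pow_succ]
        ring
      · intro k b
        rcases b with x | ⟨g, x⟩ | b <;> simp [hv, f]
    rw [hU, hV, Fintype.sum_option, Fintype.card_option]
    ring

end star

end Pool.Agent.Work.MP_35c45d_lc.SQ
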