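import Mathlib
import Pool.Agent.Work.MP_35c45d_lc.SQGad

/-! Merging columns, and the exact gadget identity. -/

set_option autoImplicit false

namespace Pool.Agent.Work.MP_35c45d_lc.SQ

open Finset

section merge

variable {R : Type} [CommRing R] {α β : Type}
  [Fintype α] [Fintype β] [DecidableEq α] [DecidableEq β]

theorem prod_merge_aux (A B : α → R) (s : α) :
    ∏ j, (A j + if j = s then B j else 0) = ∏ j, A j + B s * ∏ j ∈ univ.erase s, A j := by
  rw [← Finset.mul_prod_erase univ _ (mem_univ s), ← Finset.mul_prod_erase univ A (mem_univ s)]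
  have : ∏ x ∈ univ.erase s, (A x + if x = s then B x else 0) = ∏ x ∈ univ.erase s, A x := by
    refine Finset.prod_congr rfl fun x hx => ?_
    rw [if_neg (ne_of_mem_erase hx), add_zero]
  rw [this, if_pos rfl, add_mul]

theorem rperm_merge_aux (M : Option α → Option α → R) (b0 : Option α) (c : R)
    (h1 : M none none = 1) (h : ∀ b, M none (some b) = if b0 = some b then c else 0) :
    rperm M = rperm (fun a b => M (some a) (some b)
      + if b0 = some b then c * M (some a) none else 0) := by
  classical
  have e1 : rperm M = ∑ x : Option α × Equiv.Perm α, M none x.1 *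
      ∏ j, M (some j) (Equiv.swap none x.1 (some (x.2 j))) := by
    unfold rperm
    refine Fintype.sum_equiv Equiv.Perm.decomposeOption _ _ fun σ => ?_
    obtain ⟨⟨r, π⟩, rfl⟩ := Equiv.Perm.decomposeOption.symm.surjective σ
    rw [Equiv.apply_symm_apply]
    simp only [Equiv.Perm.decomposeOption_symm_apply]
    rw [Fintype.prod_option]
    simp only [Equiv.Perm.coe_mul, Function.comp_apply, Equiv.optionCongr_apply, Option.map_none,
      Option.map_some, Equiv.swap_apply_left]
  rw [e1, Fintype.sum_prod_type, Fintype.sum_option]
  simp only [h1, one_mul, Equiv.swap_self, Equiv.refl_apply, h]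
  cases b0 with
  | none =>
    simp only [reduceCtorEq, if_false, zero_mul, sum_const_zero, add_zero]
    rfl
  | some b =>
    rw [Finset.sum_eq_single b]
    · unfold rperm
      rw [← Finset.sum_add_distrib]
      refine Finset.sum_congr rfl fun σ _ => ?_
      have h2 : ∀ j, (some b = some (σ j)) = (j = σ.symm b) := by
        intro j
        rw [Option.some_inj, eq_iff_iff, Equiv.eq_symm_apply, eq_comm]
      simp only [h2]
      rw [prod_merge_aux (fun j => M (some j) (some (σ j))) (fun j => c * M (some j) none)]
      congr 1
      rw [if_pos trivial, ← Finset.mul_prod_erase univ _ (mem_univ (σ.symm b)), ← mul_assoc]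
      congr 1
      · rw [Equiv.apply_symm_apply, Equiv.swap_apply_right]
      · refine Finset.prod_congr rfl fun x hx => ?_
        rw [Equiv.swap_apply_of_ne_of_ne (by simp)]
        intro hh
        apply ne_of_mem_erase hx
        rw [Equiv.eq_symm_apply]
        simpa using hh
    · intro b' _ hb'
      refine Finset.sum_eq_zero fun σ _ => ?_
      rw [if_neg (by simpa using hb'.symm), zero_mul]
    · intro hb
      exact absurd (Finset.mem_univ _) hb

theorem rperm_eq_zero_of_card (h : Fintype.card α ≠ Fintype.card β) (M : α → β → R) :
    rperm M = 0 := by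
  unfold rperm
  have : IsEmpty (α ≃ β) := ⟨fun e => h (Fintype.card_congr e)⟩
  rw [Finset.univ_eq_empty, sum_empty]

theorem rperm_merge_one (M : Option α → Option β → R) (b0 : Option β) (c : R)
    (h1 : M none none = 1) (h : ∀ b, M none (some b) = if b0 = some b then c else 0) :
    rperm M = rperm (fun a b => M (some a) (some b)
      + if b0 = some b then c * M (some a) none else 0) := by
  classical
  by_cases hc : Fintype.card α = Fintype.card β
  · let e : α ≃ β := Fintype.equivOfCardEq hc
    rw [← rperm_equiv (Equiv.refl (Option α)) (Equiv.optionCongr e) M]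
    rw [rperm_merge_aux (fun a b => M ((Equiv.refl (Option α)) a) ((Equiv.optionCongr e) b))
      (b0.map e.symm) c (by simpa using h1)]
    · rw [← rperm_equiv (Equiv.refl α) e (fun a b => M (some a) (some b)
        + if b0 = some b then c * M (some a) none else 0)]
      congr 1
      funext a b
      have : (Option.map (⇑e.symm) b0 = some b) = (b0 = some (e b)) := by
        cases b0 with
        | none => simp
        | some b' => simp [Equiv.symm_apply_eq]
      simp [this]
    · intro b
      have : (Option.map (⇑e.symm) b0 = some b) = (b0 = some (e b)) := by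
        cases b0 with
        | none => simp
        | some b' => simp [Equiv.symm_apply_eq]
      simp [h, this]
  · rw [rperm_eq_zero_of_card hc, rperm_eq_zero_of_card]
    rwa [Fintype.card_option, Fintype.card_option, ne_eq, Nat.add_right_cancel_iff]

/-- matrix with identity rows to be merged -/
def mergeM {X : Type} [DecidableEq X] (A : α → β → R) (B : α → X → R) (ω : X → Option β)
    (c : X → R) : α ⊕ X → β ⊕ X → R := fun r s =>
  match r, s with
  | Sum.inl a, Sum.inl b => A a b
  | Sum.inl a, Sum.inr x => B a x
  | Sum.inr x, Sum.inl b => if ω x = some b then c x else 0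
  | Sum.inr x, Sum.inr x' => if x = x' then 1 else 0

def optSum (α X : Type) : Option (α ⊕ X) ≃ α ⊕ Option X where
  toFun y := match y with
    | none => Sum.inr none
    | some (Sum.inl a) => Sum.inl a
    | some (Sum.inr x) => Sum.inr (some x)
  invFun y := match y with
    | Sum.inl a => some (Sum.inl a)
    | Sum.inr none => none
    | Sum.inr (some x) => some (Sum.inr x)
  left_inv y := by rcases y with _ | a | x <;> rfl
  right_inv y := by rcases y with a | _ | x <;> rfl

theorem rperm_merge (X : Type) [Fintype X] :
    ∀ [DecidableEq X] (A : α → β → R) (B : α → X → R) (ω : X → Option β) (c : X → R),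
      rperm (mergeM A B ω c)
        = rperm (fun a b => A a b + ∑ x, if ω x = some b then c x * B a x else 0) := by
  refine Fintype.induction_empty_option
    (P := fun X _ => ∀ [DecidableEq X] (A : α → β → R) (B : α → X → R) (ω : X → Option β)
      (c : X → R), rperm (mergeM A B ω c)
        = rperm (fun a b => A a b + ∑ x, if ω x = some b then c x * B a x else 0)) ?_ ?_ ?_ X
  · intro Γ Γ' _ e ih _ A B ω c
    let _ : Fintype Γ := Fintype.ofEquiv _ e.symm
    let _ : DecidableEq Γ := Classical.decEq _
    have h := ih A (fun a g => B a (e g)) (fun g => ω (e g)) (fun g => c (e g))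
    rw [← rperm_equiv (Equiv.sumCongr (Equiv.refl α) e) (Equiv.sumCongr (Equiv.refl β) e)
      (mergeM A B ω c)]
    have e1 : (fun a b => A a b + ∑ x, if ω x = some b then c x * B a x else 0)
        = (fun a b => A a b + ∑ x, if ω (e x) = some b then c (e x) * B a (e x) else 0) := by
      funext a b
      rw [← Equiv.sum_comp e (fun x => if ω x = some b then c x * B a x else 0)]
    rw [e1, ← h]
    congr 1
    funext r c
    rcases r with a | g' <;> rcases c with g | b <;> simp [mergeM]
  · intro _ A B ω c
    rw [← rperm_equiv (Equiv.sumEmpty α PEmpty).symm (Equiv.sumEmpty β PEmpty).symm]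
    congr 1
    funext a b
    simp [mergeM]
  · intro Γ _ ih _ A B ω c
    let _ : DecidableEq Γ := Classical.decEq _
    have h := ih (fun a b => A a b + if ω none = some b then c none * B a none else 0)
      (fun a g => B a (some g)) (fun g => ω (some g)) (fun g => c (some g))
    rw [← rperm_equiv (optSum α Γ) (optSum β Γ) (mergeM A B ω c),
      rperm_merge_one _ ((ω none).map Sum.inl) (c none)]
    · have e1 : (fun a b => A a b + ∑ x, if ω x = some b then c x * B a x else 0)
          = (fun a b => (A a b + if ω none = some b then c none * B a none else 0)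
            + ∑ x, if ω (some x) = some b then c (some x) * B a (some x) else 0) := by
        funext a b
        rw [Fintype.sum_option, add_assoc]
      rw [e1, ← h]
      congr 1
      funext r s
      rcases r with a | x <;> rcases s with b | x' <;> simp [mergeM, optSum]
    · simp [mergeM, optSum]
    · intro b
      rcases b with b | x <;> simp [mergeM, optSum]

end merge

section ones

variable {R : Type} [CommRing R] {V L J : Type}
  [Fintype V] [Fintype L] [Fintype J] [DecidableEq V] [DecidableEq L] [DecidableEq J]

theorem rperm_onesJ (hJ : Fintype.card V = Fintype.card L + Fintype.card J) (Z : V → L → R) :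
    rperm (fun v => Sum.elim (Z v) (fun (_ : J) => 1))
      = ((Fintype.card J).factorial : R) * ∑ i : L ↪ V, ∏ b, Z (i b) b := by
  classical
  have e1 : rperm (fun v => Sum.elim (Z v) (fun (_ : J) => 1))
      = ∑ e : L ⊕ J ≃ V, ∏ b, Z (e (Sum.inl b)) b := by
    unfold rperm
    refine Fintype.sum_equiv (Equiv.symmEquiv _ _) _ _ fun e => ?_
    rw [← Equiv.prod_comp e.symm, Fintype.prod_sum_type]
    simp
  rw [e1]
  have e2 : ∀ e : L ⊕ J ≃ V, ∏ b, Z (e (Sum.inl b)) b
      = ∏ b, Z ((Function.Embedding.inl.trans e.toEmbedding : L ↪ V) b) b := fun e => rfl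
  simp only [e2]
  rw [← Finset.sum_fiberwise_of_maps_to (s := (univ : Finset (L ⊕ J ≃ V)))
    (t := (univ : Finset (L ↪ V)))
    (g := fun e => (Function.Embedding.inl.trans e.toEmbedding : L ↪ V))
    (fun _ _ => mem_univ _), Finset.mul_sum]
  refine Finset.sum_congr rfl fun i _ => ?_
  rw [Finset.sum_congr rfl (fun e he => by rw [(mem_filter.mp he).2]), Finset.sum_const,
    nsmul_eq_mul]
  congr 2
  rw [← Fintype.card_subtype]
  let e0 : (Set.range (Sum.inl : L → L ⊕ J)) ≃ (Set.range i) :=
    (Equiv.ofInjective (Sum.inl : L → L ⊕ J) Sum.inl_injective).symm.trans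
      (Equiv.ofInjective i i.injective)
  have e3 : {e : L ⊕ J ≃ V // (Function.Embedding.inl.trans e.toEmbedding : L ↪ V) = i} ≃
      {e : L ⊕ J ≃ V // ∀ x : (Set.range (Sum.inl : L → L ⊕ J)), e x = e0 x} := by
    refine Equiv.subtypeEquivRight fun e => ?_
    constructor
    · rintro h ⟨_, b, rfl⟩
      have := congrArg (fun (g : L ↪ V) => g b) h
      simp only [e0, Equiv.trans_apply]
      have h5 : (Equiv.ofInjective (Sum.inl : L → L ⊕ J) Sum.inl_injective).symm
          ⟨Sum.inl b, b, rfl⟩ = b := by
        rw [Equiv.symm_apply_eq]
        rfl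
      rw [h5]
      exact this
    · intro h
      ext b
      have := h ⟨Sum.inl b, b, rfl⟩
      have h5 : (Equiv.ofInjective (Sum.inl : L → L ⊕ J) Sum.inl_injective).symm
          ⟨Sum.inl b, b, rfl⟩ = b := by
        rw [Equiv.symm_apply_eq]
        rfl
      simp only [e0, Equiv.trans_apply, h5] at this
      exact this
  rw [Fintype.card_congr (e3.trans (Equiv.Set.compl e0))]
  have c1 : Fintype.card ((Set.range (Sum.inl : L → L ⊕ J))ᶜ : Set (L ⊕ J)) = Fintype.card J := by
    rw [Fintype.card_compl_set, Set.card_range_of_injective Sum.inl_injective, Fintype.card_sum]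
    omega
  have c2 : Fintype.card ((Set.range i)ᶜ : Set V) = Fintype.card J := by
    rw [Fintype.card_compl_set, Set.card_range_of_injective i.injective, hJ]
    omega
  rw [Fintype.card_equiv (Fintype.equivOfCardEq (c1.trans c2.symm)), c1]

end ones

end Pool.Agent.Work.MP_35c45d_lc.SQ
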