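import Mathlib
import Pool.Agent.Work.MP_35c45d_lc.SQGad2
import Pool.Agent.Work.MP_35c45d_lc.SQBorder

/-! Multi-level gadget. -/

set_option autoImplicit false

namespace Pool.Agent.Work.MP_35c45d_lc.SQ

open Finset

theorem exists_zeta (K : Type) [Fintype K] [Nonempty K] : ∃ ζ : K → ℂ,
    (∀ j, 0 < j → j < Fintype.card K →
      ∑ T ∈ powersetCard j (univ : Finset K), ∏ k ∈ T, ζ k = 0) ∧ ∏ k, ζ k = 1 := by
  classical
  set s := Fintype.card K with hs
  have hpos : 0 < s := Fintype.card_pos
  obtain ⟨α, hα⟩ := IsAlgClosed.exists_pow_nat_eq (-1 : ℂ) hpos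
  have hprim := Complex.isPrimitiveRoot_exp s hpos.ne'
  have hprod := X_pow_sub_C_eq_prod hprim hpos hα
  set ω := Complex.exp (2 * Real.pi * Complex.I / s) with hω
  let e : K ≃ Fin s := Fintype.equivFin K
  refine ⟨fun k => -(ω ^ (e k : ℕ) * α), ?_⟩
  have h1 : ∏ k : K, (Polynomial.X + Polynomial.C (-(ω ^ (e k : ℕ) * α)))
      = (Polynomial.X ^ s + 1 : Polynomial ℂ) := by
    rw [Equiv.prod_comp e (fun k : Fin s => (Polynomial.X + Polynomial.C (-(ω ^ (k : ℕ) * α)))),
      Fin.prod_univ_eq_prod_range (fun i => (Polynomial.X + Polynomial.C (-(ω ^ i * α)))) s]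
    have h2 : (Polynomial.X ^ s + 1 : Polynomial ℂ) = Polynomial.X ^ s - Polynomial.C (-1) := by
      simp
    rw [h2, hprod]
    refine Finset.prod_congr rfl fun i _ => ?_
    rw [Polynomial.C_neg, sub_eq_add_neg]
  have h3 : ∀ j ≤ s, ∑ T ∈ powersetCard j (univ : Finset K), ∏ k ∈ T, (-(ω ^ (e k : ℕ) * α))
      = (Polynomial.X ^ s + 1 : Polynomial ℂ).coeff (s - j) := by
    intro j hj
    rw [← h1, Finset.prod_X_add_C_coeff _ _ (by rw [Finset.card_univ]; omega)]
    rw [Finset.card_univ, ← hs, Nat.sub_sub_self hj]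
  refine ⟨fun j hj0 hj => ?_, ?_⟩
  · rw [h3 j hj.le]
    rw [Polynomial.coeff_add, Polynomial.coeff_X_pow, Polynomial.coeff_one, if_neg (by omega),
      if_neg (by omega), add_zero]
  · have := h3 s le_rfl
    have h5 : powersetCard s (univ : Finset K) = {univ} := by
      rw [hs, ← Finset.card_univ, powersetCard_self]
    rw [h5, sum_singleton] at this
    rw [this]
    rw [Nat.sub_self, Polynomial.coeff_add, Polynomial.coeff_X_pow,
      Polynomial.coeff_one, if_neg (by omega), if_pos rfl, zero_add]

section gad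

variable {R : Type} [CommRing R] [Algebra ℂ R]

/-- Bordered matrix with constant border. -/
def gadMat {V T ρ γ : Type} (N : V → T → R) (E : V → γ → ℂ) (F : ρ → T → ℂ) (H : ρ → γ → ℂ) :
    V ⊕ ρ → T ⊕ γ → R := fun r c =>
  match r, c with
  | Sum.inl v, Sum.inl t => N v t
  | Sum.inl v, Sum.inr g => algebraMap ℂ R (E v g)
  | Sum.inr r, Sum.inl t => algebraMap ℂ R (F r t)
  | Sum.inr r, Sum.inr g => algebraMap ℂ R (H r g)

/-- `Φ` (a function of `V × T` matrices) is, up to a nonzero constant, computed by a bordered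
permanent with `sz` additional columns. -/
def Gad (R : Type) [CommRing R] [Algebra ℂ R] (V T : Type) [Fintype V] [Fintype T] [DecidableEq V]
    [DecidableEq T] (sz : ℕ) (Φ : (V → T → R) → R) : Prop :=
  ∃ (ρ γ : Type) (_ : Fintype ρ) (_ : DecidableEq ρ) (_ : Fintype γ) (_ : DecidableEq γ)
    (E : V → γ → ℂ) (F : ρ → T → ℂ) (H : ρ → γ → ℂ) (c : ℂ), c ≠ 0 ∧ Fintype.card γ = sz ∧
    Fintype.card V + Fintype.card ρ = Fintype.card T + Fintype.card γ ∧
    ∀ N : V → T → R, rperm (gadMat N E F H) = algebraMap ℂ R c * Φ N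

theorem gad_base {V T : Type} [Fintype V] [Fintype T] [DecidableEq V]
    [DecidableEq T] (h : Fintype.card T ≤ Fintype.card V) :
    Gad R V T (Fintype.card V - Fintype.card T) (fun N => ∑ i : T ↪ V, ∏ t, N (i t) t) := by
  classical
  refine ⟨Empty, Fin (Fintype.card V - Fintype.card T), inferInstance, inferInstance,
    inferInstance, inferInstance, fun _ _ => 1, fun r => r.elim, fun r => r.elim,
    ((Fintype.card V - Fintype.card T).factorial : ℂ), ?_, ?_, ?_, ?_⟩
  · exact_mod_cast Nat.factorial_ne_zero _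
  · rw [Fintype.card_fin]
  · rw [Fintype.card_fin, Fintype.card_empty]
    omega
  · intro N
    rw [← rperm_equiv (Equiv.sumEmpty V Empty).symm (Equiv.refl _)]
    have e1 : (fun (a : V) (b : T ⊕ Fin (Fintype.card V - Fintype.card T)) =>
        gadMat N (fun _ _ => 1) (fun r : Empty => r.elim) (fun r : Empty => r.elim)
          ((Equiv.sumEmpty V Empty).symm a) ((Equiv.refl _) b))
        = fun v => Sum.elim (N v) (fun _ => (1 : R)) := by
      funext v b
      rcases b with t | j <;> simp [gadMat]
    rw [e1, rperm_onesJ (by rw [Fintype.card_fin]; omega), Fintype.card_fin, map_natCast]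

/-- One level of the gadget: choose `a` and transfer the columns `T` to columns `T'`. -/
theorem gad_step {V T T' A : Type} [Fintype V] [Fintype T] [DecidableEq V]
    [DecidableEq T] [Fintype T'] [DecidableEq T'] [Nonempty T'] [Fintype A] [Nonempty A]
    (ω : A → T → Option T')
    (c : A → T → ℂ) {sz : ℕ} {Φ : (V → T' → R) → R} (h : Gad R V T' sz Φ) :
    Gad R V T (sz + Fintype.card A * Fintype.card T')
      (fun N => ∑ a, Φ (fun v t' => ∑ t, if ω a t = some t' then
        algebraMap ℂ R (c a t) * N v t else 0)) := by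
  classical
  obtain ⟨ρ, γ, _, _, _, _, E, F, H, c0, hc0, hγ, hcard, hN⟩ := h
  let a0 : A := Classical.arbitrary A
  let A' : Type := {a : A // a ≠ a0}
  let ea : Option A' ≃ A := Equiv.optionSubtypeNe a0
  obtain ⟨ζ, hζ, hζ1⟩ := exists_zeta T'
  let w : A → T → T' → ℂ := fun a t t' => if ω a t = some t' then c a t else 0
  let E' : V → T' ⊕ ((A' × T') ⊕ γ) → ℂ := fun v x =>
    match x with
    | Sum.inl _ => 0
    | Sum.inr (Sum.inl _) => 0
    | Sum.inr (Sum.inr g) => E v g
  let F' : (ρ ⊕ T) ⊕ (A' × T') → T → ℂ := fun r t =>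
    match r with
    | Sum.inl (Sum.inl _) => 0
    | Sum.inl (Sum.inr u) => if u = t then 1 else 0
    | Sum.inr _ => 0
  let H' : (ρ ⊕ T) ⊕ (A' × T') → T' ⊕ ((A' × T') ⊕ γ) → ℂ := fun r x =>
    match r, x with
    | Sum.inl (Sum.inl r), Sum.inl t' => F r t'
    | Sum.inl (Sum.inl r), Sum.inr (Sum.inl (_, t')) => F r t'
    | Sum.inl (Sum.inl r), Sum.inr (Sum.inr g) => H r g
    | Sum.inl (Sum.inr u), Sum.inl t' => w (ea none) u t'
    | Sum.inl (Sum.inr u), Sum.inr (Sum.inl (a, t')) => w (ea (some a)) u t'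
    | Sum.inl (Sum.inr _), Sum.inr (Sum.inr _) => 0
    | Sum.inr _, Sum.inl _ => 1
    | Sum.inr (a', k), Sum.inr (Sum.inl (a, _)) => if a = a' then ζ k else 0
    | Sum.inr _, Sum.inr (Sum.inr _) => 0
  refine ⟨(ρ ⊕ T) ⊕ (A' × T'), T' ⊕ ((A' × T') ⊕ γ), inferInstance, inferInstance,
    inferInstance, inferInstance, E', F', H',
    ((Fintype.card T').factorial : ℂ) ^ Fintype.card A' * c0, ?_, ?_, ?_, ?_⟩
  · exact mul_ne_zero (pow_ne_zero _ (by exact_mod_cast Nat.factorial_ne_zero _)) hc0
  · have h1 : Fintype.card A = Fintype.card A' + 1 := by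
      rw [← Fintype.card_congr ea, Fintype.card_option]
    rw [Fintype.card_sum, Fintype.card_sum, Fintype.card_prod, hγ, h1]
    ring
  · simp only [Fintype.card_sum, Fintype.card_prod]
    omega
  · intro N
    -- the star matrix
    let B : (V ⊕ ρ) ⊕ T → Option A' → T' → R := fun r a t' =>
      match r with
      | Sum.inl (Sum.inl _) => 0
      | Sum.inl (Sum.inr r) => algebraMap ℂ R (F r t')
      | Sum.inr u => algebraMap ℂ R (w (ea a) u t')
    let AA : (V ⊕ ρ) ⊕ T → T ⊕ γ → R := fun r x =>
      match r, x with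
      | Sum.inl (Sum.inl v), Sum.inl t => N v t
      | Sum.inl (Sum.inl v), Sum.inr g => algebraMap ℂ R (E v g)
      | Sum.inl (Sum.inr _), Sum.inl _ => 0
      | Sum.inl (Sum.inr r), Sum.inr g => algebraMap ℂ R (H r g)
      | Sum.inr u, Sum.inl t => if u = t then 1 else 0
      | Sum.inr _, Sum.inr _ => 0
    let er : ((V ⊕ ρ) ⊕ T) ⊕ (A' × T') ≃ V ⊕ ((ρ ⊕ T) ⊕ (A' × T')) :=
      { toFun := fun y => match y with
          | Sum.inl (Sum.inl (Sum.inl v)) => Sum.inl v
          | Sum.inl (Sum.inl (Sum.inr r)) => Sum.inr (Sum.inl (Sum.inl r))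
          | Sum.inl (Sum.inr u) => Sum.inr (Sum.inl (Sum.inr u))
          | Sum.inr x => Sum.inr (Sum.inr x)
        invFun := fun y => match y with
          | Sum.inl v => Sum.inl (Sum.inl (Sum.inl v))
          | Sum.inr (Sum.inl (Sum.inl r)) => Sum.inl (Sum.inl (Sum.inr r))
          | Sum.inr (Sum.inl (Sum.inr u)) => Sum.inl (Sum.inr u)
          | Sum.inr (Sum.inr x) => Sum.inr x
        left_inv := fun y => by rcases y with ((v | r) | u) | x <;> rfl
        right_inv := fun y => by rcases y with v | ((r | u) | x) <;> rfl }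
    let ec : T' ⊕ ((A' × T') ⊕ (T ⊕ γ)) ≃ T ⊕ (T' ⊕ ((A' × T') ⊕ γ)) :=
      { toFun := fun y => match y with
          | Sum.inl t' => Sum.inr (Sum.inl t')
          | Sum.inr (Sum.inl x) => Sum.inr (Sum.inr (Sum.inl x))
          | Sum.inr (Sum.inr (Sum.inl t)) => Sum.inl t
          | Sum.inr (Sum.inr (Sum.inr g)) => Sum.inr (Sum.inr (Sum.inr g))
        invFun := fun y => match y with
          | Sum.inr (Sum.inl t') => Sum.inl t'
          | Sum.inr (Sum.inr (Sum.inl x)) => Sum.inr (Sum.inl x)
          | Sum.inl t => Sum.inr (Sum.inr (Sum.inl t))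
          | Sum.inr (Sum.inr (Sum.inr g)) => Sum.inr (Sum.inr (Sum.inr g))
        left_inv := fun y => by rcases y with t' | x | t | g <;> rfl
        right_inv := fun y => by rcases y with t | t' | x | g <;> rfl }
    have h1 : rperm (gadMat N E' F' H') = rperm (starM (fun r t' => B r none t')
        (fun r a t' => B r (some a) t') AA (fun k => algebraMap ℂ R (ζ k))) := by
      rw [← rperm_equiv er ec]
      congr 1
      funext r x
      rcases r with ((v | r) | u) | ⟨a', k⟩ <;> rcases x with t' | ⟨a, t'⟩ | t | g <;>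
        simp [er, ec, gadMat, E', F', H', B, AA, starM]
      all_goals (split_ifs <;> simp)
    have hζ' : ∀ j, 0 < j → j < Fintype.card T' →
        ∑ S ∈ powersetCard j (univ : Finset T'), ∏ k ∈ S, algebraMap ℂ R (ζ k) = 0 := by
      intro j hj hj'
      have := congrArg (algebraMap ℂ R) (hζ j hj hj')
      simpa using this
    have hζ1' : ∏ k, algebraMap ℂ R (ζ k) = 1 := by
      have := congrArg (algebraMap ℂ R) hζ1
      simpa using this
    rw [h1, rperm_star (fun k => algebraMap ℂ R (ζ k)) hζ' hζ1']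
    have h2 : ∀ a : Option A', rperm (fun r => Sum.elim (B r a) (AA r))
        = algebraMap ℂ R c0 * Φ (fun v t' => ∑ t, if ω (ea a) t = some t' then
        algebraMap ℂ R (c (ea a) t) * N v t else 0) := by
      intro a
      rw [← hN]
      let ed : (T' ⊕ γ) ⊕ T ≃ T' ⊕ (T ⊕ γ) :=
        { toFun := fun y => match y with
            | Sum.inl (Sum.inl t') => Sum.inl t'
            | Sum.inl (Sum.inr g) => Sum.inr (Sum.inr g)
            | Sum.inr t => Sum.inr (Sum.inl t)
          invFun := fun y => match y with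
            | Sum.inl t' => Sum.inl (Sum.inl t')
            | Sum.inr (Sum.inr g) => Sum.inl (Sum.inr g)
            | Sum.inr (Sum.inl t) => Sum.inr t
          left_inv := fun y => by rcases y with (t' | g) | t <;> rfl
          right_inv := fun y => by rcases y with t' | t | g <;> rfl }
      let A2 : V ⊕ ρ → T' ⊕ γ → R := fun r x =>
        match r, x with
        | Sum.inl _, Sum.inl _ => 0
        | Sum.inl v, Sum.inr g => algebraMap ℂ R (E v g)
        | Sum.inr r, Sum.inl t' => algebraMap ℂ R (F r t')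
        | Sum.inr r, Sum.inr g => algebraMap ℂ R (H r g)
      let B2 : V ⊕ ρ → T → R := fun r t =>
        match r with
        | Sum.inl v => N v t
        | Sum.inr _ => 0
      have e1 : rperm (fun r => Sum.elim (B r a) (AA r))
          = rperm (mergeM A2 B2 (fun t => (ω (ea a) t).map Sum.inl)
            (fun t => algebraMap ℂ R (c (ea a) t))) := by
        rw [← rperm_equiv (Equiv.refl _) ed]
        congr 1
        funext r x
        rcases r with (v | r) | u <;> rcases x with (t' | g) | t <;>
          simp [ed, B, AA, mergeM, A2, B2, w]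
        split_ifs <;> simp
      rw [e1, rperm_merge]
      congr 1
      funext r x
      rcases r with v | r <;> rcases x with t' | g <;> simp [gadMat, A2, B2]
    rw [h2, Finset.sum_congr rfl (fun a _ => h2 (some a)), ← Fintype.sum_option
      (fun a => algebraMap ℂ R c0 * Φ (fun v t' => ∑ t, if ω (ea a) t = some t' then
        algebraMap ℂ R (c (ea a) t) * N v t else 0)), ← Finset.mul_sum,
      Equiv.sum_comp ea (fun a => Φ (fun v t' => ∑ t, if ω a t = some t' then
        algebraMap ℂ R (c a t) * N v t else 0)), map_mul, map_pow, map_natCast, mul_assoc]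

end gad

section embed

open MvPolynomial

theorem permanent_eq_rperm {α R : Type} [Fintype α] [DecidableEq α] [CommRing R]
    (M : Matrix α α R) : M.permanent = rperm (fun a b => M b a) := rfl

theorem rperm_one {K : Type} [Fintype K] [DecidableEq K] {R : Type} [CommRing R] :
    rperm (fun (k k' : K) => if k = k' then (1 : R) else 0) = 1 := by
  have h := rperm_merge (R := R) (α := Empty) (β := Empty) K (fun a => a.elim) (fun a => a.elim)
    (fun _ => none) (fun _ => 0)
  have h2 : rperm (fun (a b : Empty) => (Empty.elim a : R) + ∑ x : K,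
      if (none : Option Empty) = some b then (0 : R) * (Empty.elim a : R) else 0) = 1 := by
    unfold rperm
    simp
  rw [← rperm_equiv (Equiv.emptySum Empty K) (Equiv.emptySum Empty K)]
  refine Eq.trans ?_ (h.trans ?_)
  · congr 1
    funext r c
    rcases r with r | r
    · exact r.elim
    · rcases c with c | c
      · exact c.elim
      · simp [mergeM]
  · unfold rperm
    simp

/-- Every bordered permanent of affine forms of size at most `m` is a projection of the `m × m`
permanent. -/
theorem perm_embed {n m : ℕ} (hm : BorderDet n (permPoly m)) {α β κ : Type} [Fintype α]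
    [DecidableEq α] [Fintype β] [DecidableEq β] (hcard : Fintype.card α = Fintype.card β)
    (hα : Fintype.card α ≤ m) (M : α → β → MvPolynomial κ ℂ)
    (hM : ∀ a b, (M a b).totalDegree ≤ 1) : BorderDet n (rperm M) := by
  classical
  let K := Fin (m - Fintype.card α)
  have h1 : Fintype.card (α ⊕ K) = Fintype.card (Fin m) := by
    rw [Fintype.card_sum, Fintype.card_fin, Fintype.card_fin]; omega
  have h2 : Fintype.card (β ⊕ K) = Fintype.card (Fin m) := by
    rw [Fintype.card_sum, Fintype.card_fin, Fintype.card_fin, ← hcard]; omega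
  let eα : Fin m ≃ α ⊕ K := (Fintype.equivOfCardEq h1).symm
  let eβ : Fin m ≃ β ⊕ K := (Fintype.equivOfCardEq h2).symm
  let M' : α ⊕ K → β ⊕ K → MvPolynomial κ ℂ := fun r c =>
    match r, c with
    | Sum.inl a, Sum.inl b => M a b
    | Sum.inl _, Sum.inr _ => 0
    | Sum.inr _, Sum.inl _ => 0
    | Sum.inr k, Sum.inr k' => if k = k' then 1 else 0
  have h3 : rperm M' = rperm M := by
    rw [rperm_block rfl M' (fun k b => rfl)]
    have : rperm (fun (k k' : K) => M' (Sum.inr k) (Sum.inr k')) = 1 := rperm_one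
    rw [this, mul_one]
  let φ : Fin m × Fin m → MvPolynomial κ ℂ := fun p => M' (eα p.2) (eβ p.1)
  have hφ : ∀ p, (φ p).totalDegree ≤ 1 := by
    intro p
    simp only [φ, M']
    rcases eα p.2 with a | k <;> rcases eβ p.1 with b | k'
    · exact hM a b
    · simp
    · simp
    · simp only
      split_ifs <;> simp
  have h4 : aeval φ (permPoly m) = rperm M' := by
    unfold permPoly
    rw [permanent_eq_rperm, ← rperm_equiv eα eβ M']
    unfold rperm
    rw [map_sum]
    refine Finset.sum_congr rfl fun e _ => ?_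
    rw [map_prod]
    refine Finset.prod_congr rfl fun a _ => ?_
    simp [φ]
  rw [← h3, ← h4]
  exact hm.subst φ hφ

theorem gad_final {n m : ℕ} (hm : BorderDet n (permPoly m)) {κ V T : Type} [Fintype V] [Fintype T]
    [DecidableEq V] [DecidableEq T] {sz : ℕ} {Φ : (V → T → MvPolynomial κ ℂ) → MvPolynomial κ ℂ}
    (h : Gad (MvPolynomial κ ℂ) V T sz Φ) (hsz : Fintype.card T + sz ≤ m)
    (N : V → T → MvPolynomial κ ℂ) (hN : ∀ v t, (N v t).totalDegree ≤ 1) :
    BorderDet n (Φ N) := by
  classical
  obtain ⟨ρ, γ, _, _, _, _, E, F, H, c0, hc0, hγ, hcard, hh⟩ := h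
  have h1 : BorderDet n (rperm (gadMat N E F H)) := by
    refine perm_embed hm (α := V ⊕ ρ) (β := T ⊕ γ) ?_ ?_ _ ?_
    · rw [Fintype.card_sum, Fintype.card_sum, hcard]
    · rw [Fintype.card_sum, hcard, hγ]; exact hsz
    · intro r c
      rcases r with v | r <;> rcases c with t | g
      · exact hN v t
      · simp [gadMat, algebraMap_eq]
      · simp [gadMat, algebraMap_eq]
      · simp [gadMat, algebraMap_eq]
  rw [hh] at h1
  have h2 := h1.smul c0⁻¹
  rw [algebraMap_eq, ← mul_assoc, ← C_mul, inv_mul_cancel₀ hc0, C_1, one_mul] at h2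
  exact h2

end embed

end Pool.Agent.Work.MP_35c45d_lc.SQ
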