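import Mathlib
import Pool.Agent.Work.MP_35c45d_lc.SQGad3

/-! The multi-level gadget for product codes and the resulting section of the permanent. -/

set_option autoImplicit false

namespace Pool.Agent.Work.MP_35c45d_lc.SQ

open Finset

/-- Words of length `k`. -/
def Wd (X : Type) : ℕ → Type
  | 0 => Unit
  | (k + 1) => X × Wd X k

instance Wd.fintype (X : Type) [Fintype X] : ∀ k, Fintype (Wd X k)
  | 0 => inferInstanceAs (Fintype Unit)
  | (k + 1) => @instFintypeProd X (Wd X k) _ (Wd.fintype X k)

instance Wd.decEq (X : Type) [DecidableEq X] : ∀ k, DecidableEq (Wd X k)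
  | 0 => inferInstanceAs (DecidableEq Unit)
  | (k + 1) => @instDecidableEqProd X (Wd X k) _ (Wd.decEq X k)

theorem Wd.nonempty (X : Type) [Nonempty X] : ∀ k, Nonempty (Wd X k)
  | 0 => ⟨()⟩
  | (k + 1) => ⟨(Classical.arbitrary X, (Wd.nonempty X k).some)⟩

theorem Wd.card (X : Type) [Fintype X] : ∀ k, Fintype.card (Wd X k) = Fintype.card X ^ k
  | 0 => by
    rw [pow_zero]
    exact Fintype.card_unit
  | (k + 1) => by
    rw [pow_succ', ← Wd.card X k]
    exact Fintype.card_prod X (Wd X k)

/-- product of the symbols of a code -/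
def prodE {A X : Type} (e : A → X → ℂ) : ∀ k, Wd A k → Wd X k → ℂ
  | 0, _, _ => 1
  | (k + 1), a, x => e a.1 x.1 * prodE e k a.2 x.2

/-- number of slack columns -/
def slackSize (V lam d0 D0 s0 : ℕ) : ℕ → ℕ
  | 0 => V - lam
  | (k + 1) => slackSize V (lam * D0) d0 D0 s0 k + d0 * (lam * D0 * s0 ^ k)

theorem slackSize_eq (V d0 D0 s0 : ℕ) : ∀ (k lam : ℕ), slackSize V lam d0 D0 s0 k
    = (V - lam * D0 ^ k) + ∑ i ∈ range k, d0 * (lam * D0 ^ (i + 1)) * s0 ^ (k - 1 - i) := by
  intro k
  induction k with
  | zero => intro lam; simp [slackSize]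
  | succ k ih =>
    intro lam
    rw [slackSize, ih, Finset.sum_range_succ']
    have h1 : lam * D0 * D0 ^ k = lam * D0 ^ (k + 1) := by ring
    rw [h1]
    have h2 : ∑ i ∈ range k, d0 * (lam * D0 * D0 ^ (i + 1)) * s0 ^ (k - 1 - i)
        = ∑ i ∈ range k, d0 * (lam * D0 ^ (i + 1 + 1)) * s0 ^ (k + 1 - 1 - (i + 1)) := by
      refine Finset.sum_congr rfl fun i hi => ?_
      rw [mem_range] at hi
      have : k + 1 - 1 - (i + 1) = k - 1 - i := by omega
      rw [this]
      ring
    rw [h2]
    simp only [zero_add, pow_one, Nat.add_sub_cancel, Nat.sub_zero]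
    ring

section multi

variable {R : Type} [CommRing R] [Algebra ℂ R] {V A X L : Type} [Fintype V] [DecidableEq V]
  [Fintype A] [DecidableEq A] [Fintype X] [DecidableEq X] [Fintype L] [DecidableEq L]
  [Nonempty A] [Nonempty X] [Nonempty L]

theorem multi_level (e : A → X → ℂ) (line : A → X → Option L) (c : A → X → ℂ)
    (hcode : ∀ a b j, ∑ x, (if line a x = some j then c a x * e b x else 0)
      = if a = b then 1 else 0) :
    ∀ (k : ℕ) (Λ : Type) [Fintype Λ] [DecidableEq Λ] [Nonempty Λ],
      Fintype.card Λ * Fintype.card L ^ k ≤ Fintype.card V →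
      ∃ Φ : (V → (Λ × Wd X k) → R) → R,
        Gad R V (Λ × Wd X k) (slackSize (Fintype.card V) (Fintype.card Λ) (Fintype.card A)
          (Fintype.card L) (Fintype.card X) k) Φ ∧
        ∀ U : V → Wd A k → R,
          Φ (fun v p => ∑ b, U v b * algebraMap ℂ R (prodE e k b p.2))
            = ∑ a : Wd A k, ∑ i : (Λ × Wd L k) ↪ V, ∏ t, U (i t) a := by
  intro k
  induction k with
  | zero =>
    intro Λ _ _ _ hcard
    rw [pow_zero, mul_one] at hcard
    have hc : Fintype.card (Λ × Wd X 0) = Fintype.card Λ := by
      rw [Fintype.card_prod, Wd.card, pow_zero, mul_one]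
    refine ⟨fun N => ∑ i : (Λ × Wd X 0) ↪ V, ∏ t, N (i t) t, ?_, ?_⟩
    · have := gad_base (R := R) (V := V) (T := Λ × Wd X 0) (by rw [hc]; exact hcard)
      rw [hc] at this
      exact this
    · intro U
      have h1 : ∀ (f : Wd A 0 → R), ∑ a, f a = f () := fun f => Fintype.sum_unique (ι := Unit) f
      rw [h1]
      let eq0 : Λ × Wd X 0 ≃ Λ × Wd L 0 :=
        Equiv.prodCongr (Equiv.refl Λ) (Equiv.refl Unit : Wd X 0 ≃ Wd L 0)
      refine Fintype.sum_equiv (Equiv.embeddingCongr eq0 (Equiv.refl V)) _ _ fun i => ?_
      refine Fintype.prod_equiv eq0 _ _ fun t => ?_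
      simp only [h1]
      simp [prodE]
  | succ k ih =>
    intro Λ _ _ _ hcard
    have := Wd.nonempty X k
    obtain ⟨Φ', hG, hU⟩ := ih (Λ × L) (by
      rw [Fintype.card_prod]
      calc Fintype.card Λ * Fintype.card L * Fintype.card L ^ k
          = Fintype.card Λ * Fintype.card L ^ (k + 1) := by ring
        _ ≤ Fintype.card V := hcard)
    have hstep := gad_step (R := R) (V := V) (T := Λ × Wd X (k + 1)) (T' := (Λ × L) × Wd X k)
      (A := A) (fun a t => (line a t.2.1).map (fun j => ((t.1, j), t.2.2)))
      (fun a t => c a t.2.1) hG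
    refine ⟨fun N => ∑ a : A, Φ' (fun (v : V) (t' : (Λ × L) × Wd X k) =>
          ∑ t : Λ × Wd X (k + 1), if (line a t.2.1).map (fun j => ((t.1, j), t.2.2)) = some t' then
            algebraMap ℂ R (c a t.2.1) * N v t else 0), ?_, ?_⟩
    · have h2 : slackSize (Fintype.card V) (Fintype.card (Λ × L)) (Fintype.card A)
            (Fintype.card L) (Fintype.card X) k
            + Fintype.card A * Fintype.card ((Λ × L) × Wd X k)
          = slackSize (Fintype.card V) (Fintype.card Λ) (Fintype.card A)
            (Fintype.card L) (Fintype.card X) (k + 1) := by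
        simp only [slackSize, Fintype.card_prod, Wd.card]
      rw [h2] at hstep
      exact hstep
    · intro U
      have h3 : ∀ a : A, (fun (v : V) (t' : (Λ × L) × Wd X k) =>
          ∑ t : Λ × Wd X (k + 1), if (line a t.2.1).map (fun j => ((t.1, j), t.2.2)) = some t' then
            algebraMap ℂ R (c a t.2.1) *
              (∑ b : Wd A (k + 1), U v b * algebraMap ℂ R (prodE e (k + 1) b t.2)) else 0)
          = fun v t' => ∑ b' : Wd A k, U v (a, b') * algebraMap ℂ R (prodE e k b' t'.2) := by
        intro a
        funext v t'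
        obtain ⟨⟨lam, j⟩, y'⟩ := t'
        have h4 : ∀ t : Λ × Wd X (k + 1),
            (if (line a t.2.1).map (fun j => ((t.1, j), t.2.2)) = some ((lam, j), y') then
            algebraMap ℂ R (c a t.2.1) *
              (∑ b : Wd A (k + 1), U v b * algebraMap ℂ R (prodE e (k + 1) b t.2)) else 0)
            = if t.1 = lam then (if t.2.2 = y' then
              (∑ b : Wd A (k + 1), U v b * algebraMap ℂ R ((if line a t.2.1 = some j then
                c a t.2.1 * e b.1 t.2.1 else 0) * prodE e k b.2 y')) else 0) else 0 := by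
          rintro ⟨lam', x, y⟩
          by_cases h5 : lam' = lam
          · by_cases h6 : y = y'
            · subst h5 h6
              by_cases h7 : line a x = some j
              · simp only [h7, Option.map_some, if_true, Finset.mul_sum]
                refine Finset.sum_congr rfl fun b _ => ?_
                simp only [prodE, map_mul]
                ring
              · have h8 : ¬ ((line a x).map (fun j => ((lam', j), y)) = some ((lam', j), y)) := by
                  intro h9
                  rw [Option.map_eq_some_iff] at h9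
                  obtain ⟨j', hj', hj''⟩ := h9
                  simp only [Prod.mk.injEq, and_true, true_and] at hj''
                  rw [hj''] at hj'
                  exact h7 hj'
                simp only [h7, h8, if_false, if_true, zero_mul, map_zero, mul_zero, sum_const_zero]
            · have h8 : ¬ ((line a x).map (fun j => ((lam', j), y)) = some ((lam, j), y')) := by
                intro h9
                rw [Option.map_eq_some_iff] at h9
                obtain ⟨j', hj', hj''⟩ := h9
                simp only [Prod.mk.injEq] at hj''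
                exact h6 hj''.2
              simp only [h8, h6, if_false, ite_self]
          · have h8 : ¬ ((line a x).map (fun j => ((lam', j), y)) = some ((lam, j), y')) := by
              intro h9
              rw [Option.map_eq_some_iff] at h9
              obtain ⟨j', hj', hj''⟩ := h9
              simp only [Prod.mk.injEq] at hj''
              exact h5 hj''.1.1
            simp only [h8, h5, if_false]
        rw [Finset.sum_congr rfl (fun t _ => h4 t)]
        have h5 : ∀ (f : Λ × Wd X (k + 1) → R), ∑ t, f t = ∑ l : Λ, ∑ x : X, ∑ y : Wd X k,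
            f (l, (x, y)) := by
          intro f
          rw [Fintype.sum_prod_type]
          refine Finset.sum_congr rfl fun l _ => ?_
          exact Fintype.sum_prod_type (fun p : X × Wd X k => f (l, p))
        rw [h5]
        rw [Finset.sum_eq_single lam]
        · simp only [if_true, Finset.sum_ite_eq', Finset.mem_univ]
          rw [Finset.sum_comm]
          have h6 : ∀ (f : Wd A (k + 1) → R), ∑ t, f t = ∑ x : A, ∑ y : Wd A k, f (x, y) := by
            intro f
            exact Fintype.sum_prod_type (fun p : A × Wd A k => f p)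
          rw [h6, Finset.sum_eq_single a]
          · refine Finset.sum_congr rfl fun b _ => ?_
            rw [← Finset.mul_sum, ← map_sum, ← Finset.sum_mul, hcode, if_pos rfl, one_mul]
          · intro a' _ ha'
            refine Finset.sum_eq_zero fun b _ => ?_
            rw [← Finset.mul_sum, ← map_sum, ← Finset.sum_mul, hcode, if_neg ha'.symm, zero_mul,
              map_zero, mul_zero]
          · intro h; exact absurd (Finset.mem_univ _) h
        · intro l _ hl
          simp [hl]
        · intro h; exact absurd (Finset.mem_univ _) h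
      simp only [h3, hU]
      have h6 : ∀ (f : Wd A (k + 1) → R), ∑ t, f t = ∑ x : A, ∑ y : Wd A k, f (x, y) := by
        intro f
        exact Fintype.sum_prod_type (fun p : A × Wd A k => f p)
      rw [h6]
      refine Finset.sum_congr rfl fun a _ => Finset.sum_congr rfl fun a' _ => ?_
      let eq1 : (Λ × L) × Wd L k ≃ Λ × Wd L (k + 1) := Equiv.prodAssoc Λ L (Wd L k)
      refine Fintype.sum_equiv (Equiv.embeddingCongr eq1 (Equiv.refl V)) _ _ fun i => ?_
      refine Fintype.prod_equiv eq1 _ _ fun t => ?_
      simp

end multi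

section emb

variable {R : Type} [CommRing R]

/-- Sum over embeddings = factorial times elementary symmetric polynomial. -/
theorem sum_emb {T V : Type} [Fintype T] [DecidableEq T] [Fintype V] [DecidableEq V] (u : V → R) :
    ∑ i : T ↪ V, ∏ t, u (i t) = ((Fintype.card T).factorial : R) *
      ∑ s ∈ powersetCard (Fintype.card T) (univ : Finset V), ∏ v ∈ s, u v := by
  classical
  have h1 : ∀ i : T ↪ V, ∏ t, u (i t) = ∏ v ∈ univ.map i, u v := fun i => (prod_map _ _ _).symm
  simp only [h1]
  rw [← Finset.sum_fiberwise_of_maps_to (s := (univ : Finset (T ↪ V)))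
    (t := powersetCard (Fintype.card T) (univ : Finset V)) (g := fun i => univ.map i)
    (fun i _ => by rw [mem_powersetCard]; exact ⟨subset_univ _, by rw [card_map, card_univ]⟩),
    Finset.mul_sum]
  refine Finset.sum_congr rfl fun s hs => ?_
  rw [Finset.sum_congr rfl (fun e he => by rw [(mem_filter.mp he).2]), Finset.sum_const,
    nsmul_eq_mul]
  congr 2
  rw [← Fintype.card_subtype]
  have hsc : Fintype.card T = Fintype.card s := by
    rw [Fintype.card_coe, (mem_powersetCard.mp hs).2]
  let eq1 : {i : T ↪ V // univ.map i = s} ≃ (T ≃ s) :=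
    { toFun := fun i => Equiv.ofBijective (fun t => ⟨i.1 t,
          (Finset.ext_iff.mp i.2 (i.1 t)).mp (mem_map_of_mem _ (mem_univ _))⟩) (by
          rw [Fintype.bijective_iff_injective_and_card]
          refine ⟨fun t t' h => i.1.injective (by simpa using h), hsc⟩)
      invFun := fun e => ⟨⟨fun t => (e t : V), fun t t' h => e.injective (Subtype.ext h)⟩, by
          ext v
          rw [mem_map]
          constructor
          · rintro ⟨t, _, rfl⟩
            exact (e t).2
          · intro hv
            exact ⟨e.symm ⟨v, hv⟩, mem_univ _, by simp⟩⟩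
      left_inv := fun i => by
          apply Subtype.ext
          ext t
          rfl
      right_inv := fun e => by
          ext t
          rfl }
  rw [Fintype.card_congr eq1, Fintype.card_equiv (Fintype.equivOfCardEq hsc)]

end emb

section final

open MvPolynomial

theorem section_gen {A X0 L J T : Type} [Fintype A] [DecidableEq A] [Fintype X0] [DecidableEq X0]
    [Fintype L] [DecidableEq L] [Nonempty A] [Nonempty X0] [Nonempty L] [Fintype J] [DecidableEq J]
    [Fintype T] (e : A → X0 → ℂ) (line : A → X0 → Option L) (c : A → X0 → ℂ)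
    (hcode : ∀ a b j, ∑ x, (if line a x = some j then c a x * e b x else 0)
      = if a = b then 1 else 0) (k m n : ℕ)
    (hl : Fintype.card L ^ k ≤ Fintype.card J)
    (hsize : Fintype.card X0 ^ k + slackSize (Fintype.card J) 1 (Fintype.card A)
      (Fintype.card L) (Fintype.card X0) k ≤ m)
    (hT : Fintype.card T + 1 ≤ Fintype.card A ^ k) (hm : BorderDet n (permPoly m)) :
    BorderDet n (X none + ∑ t : T, ∑ s ∈ powersetCard (Fintype.card L ^ k) (univ : Finset J),
      ∏ j ∈ s, (X (some (t, j)) : MvPolynomial (Option (T × J)) ℂ)) := by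
  classical
  set D := Fintype.card L ^ k with hDdef
  have hD1 : 1 ≤ D := Nat.one_le_pow _ _ Fintype.card_pos
  obtain ⟨Φ, hG, hU⟩ := multi_level (R := MvPolynomial (Option (T × J)) ℂ) (V := J) e line c hcode k
    Unit (by rw [Fintype.card_unit, one_mul]; exact hl)
  -- embedding of the index set
  have hemb : Nonempty (Option T ↪ Wd A k) := by
    rw [Function.Embedding.nonempty_iff_card_le, Fintype.card_option, Wd.card]
    exact hT
  obtain ⟨emb⟩ := hemb
  -- the special vector
  obtain ⟨S0, hS0, hS0c⟩ : ∃ S0 : Finset J, S0 ⊆ univ ∧ S0.card = D :=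
    Finset.exists_subset_card_eq (by rw [card_univ]; exact hl)
  obtain ⟨j0, hj0⟩ : S0.Nonempty := by
    rw [← Finset.card_pos, hS0c]; exact hD1
  let sp : J → MvPolynomial (Option (T × J)) ℂ := fun j =>
    if j = j0 then X none else if j ∈ S0 then 1 else 0
  have hsp : ∑ s ∈ powersetCard D (univ : Finset J), ∏ j ∈ s, sp j = X none := by
    rw [Finset.sum_eq_single S0]
    · rw [← Finset.mul_prod_erase S0 _ hj0]
      have : ∏ x ∈ S0.erase j0, sp x = 1 := by
        refine Finset.prod_eq_one fun x hx => ?_
        simp only [sp]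
        rw [if_neg (ne_of_mem_erase hx), if_pos (mem_of_mem_erase hx)]
      rw [this, mul_one]
      simp [sp]
    · intro s hs hne
      have hsc := (mem_powersetCard.mp hs).2
      obtain ⟨x, hx, hx'⟩ : ∃ x ∈ s, x ∉ S0 := by
        by_contra hcon
        push Not at hcon
        exact hne (Finset.eq_of_subset_of_card_le hcon (by rw [hsc, hS0c]))
      refine Finset.prod_eq_zero hx ?_
      simp only [sp]
      have hxj : x ≠ j0 := fun h => hx' (by rw [h]; exact hj0)
      rw [if_neg hxj, if_neg hx']
    · intro h
      exact absurd (mem_powersetCard.mpr ⟨subset_univ _, hS0c⟩) h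
  let Uo : Option T → J → MvPolynomial (Option (T × J)) ℂ := fun o j =>
    match o with
    | none => sp j
    | some t => X (some (t, j))
  let U : J → Wd A k → MvPolynomial (Option (T × J)) ℂ := fun j a =>
    if h : ∃ o, emb o = a then Uo h.choose j else 0
  have hUemb : ∀ o j, U j (emb o) = Uo o j := by
    intro o j
    have h : ∃ o', emb o' = emb o := ⟨o, rfl⟩
    simp only [U]
    rw [dif_pos h]
    congr 1
    exact emb.injective h.choose_spec
  have hUdeg : ∀ j a, (U j a).totalDegree ≤ 1 := by
    intro j a
    simp only [U]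
    split_ifs with h
    · rcases h.choose with _ | t
      · simp only [Uo, sp]
        split_ifs <;> simp
      · simp [Uo]
    · simp
  have h1 := gad_final hm hG (by
      rw [Fintype.card_prod, Fintype.card_unit, one_mul, Wd.card]
      exact hsize) (fun v p => ∑ b, U v b * algebraMap ℂ _ (prodE e k b p.2)) (by
      intro v p
      refine totalDegree_finsetSum_le fun b _ => ?_
      refine (totalDegree_mul _ _).trans ?_
      rw [algebraMap_eq, totalDegree_C, add_zero]
      exact hUdeg v b)
  rw [hU] at h1
  have hcardT : Fintype.card (Unit × Wd L k) = D := by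
    rw [Fintype.card_prod, Fintype.card_unit, one_mul, Wd.card]
  have h2 : (∑ a : Wd A k, ∑ i : (Unit × Wd L k) ↪ J, ∏ t, U (i t) a)
      = C ((D.factorial : ℂ)) * (X none + ∑ t : T, ∑ s ∈ powersetCard D (univ : Finset J),
      ∏ j ∈ s, (X (some (t, j)) : MvPolynomial (Option (T × J)) ℂ)) := by
    have h3 : ∀ a : Wd A k, ∑ i : (Unit × Wd L k) ↪ J, ∏ t, U (i t) a
        = C ((D.factorial : ℂ)) * ∑ s ∈ powersetCard D (univ : Finset J), ∏ j ∈ s, U j a := by
      intro a
      rw [sum_emb (fun v => U v a), hcardT, map_natCast]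
    simp only [h3]
    rw [← Finset.mul_sum]
    congr 1
    symm
    rw [← hsp]
    have h4 : (∑ s ∈ powersetCard D (univ : Finset J), ∏ j ∈ s, sp j) + ∑ t : T,
        ∑ s ∈ powersetCard D (univ : Finset J), ∏ j ∈ s,
          (X (some (t, j)) : MvPolynomial (Option (T × J)) ℂ)
        = ∑ o : Option T, ∑ s ∈ powersetCard D (univ : Finset J), ∏ j ∈ s, Uo o j := by
      rw [Fintype.sum_option]
    rw [h4]
    refine Fintype.sum_of_injective emb emb.injective _ _ ?_ ?_
    · intro a ha
      refine Finset.sum_eq_zero fun s hs => ?_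
      have hsc := (mem_powersetCard.mp hs).2
      obtain ⟨j, hj⟩ : s.Nonempty := by
        rw [← Finset.card_pos, hsc]; exact hD1
      refine Finset.prod_eq_zero hj ?_
      simp only [U]
      rw [dif_neg]
      rintro ⟨o, ho⟩
      exact ha ⟨o, ho⟩
    · intro o
      simp only [hUemb]
  rw [h2] at h1
  have hne : (D.factorial : ℂ) ≠ 0 := by exact_mod_cast Nat.factorial_ne_zero _
  have h5 := h1.smul ((D.factorial : ℂ))⁻¹
  rw [← mul_assoc, ← C_mul, inv_mul_cancel₀ hne, C_1, one_mul] at h5
  exact h5

theorem section_main {s0 d0 D0 : ℕ} (hD : 1 ≤ D0) (hd : 1 ≤ d0) (e : Fin d0 → Fin s0 → ℂ)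
    (line : Fin d0 → Fin s0 → Option (Fin D0)) (c : Fin d0 → Fin s0 → ℂ)
    (hcode : ∀ a b j, ∑ x ∈ univ.filter (fun x => line a x = some j), c a x * e b x
      = if a = b then 1 else 0) (k m n : ℕ) {J : Type} [Fintype J] [DecidableEq J]
    (hsize : s0 ^ k + ∑ i ∈ range k, d0 * D0 ^ (i + 1) * s0 ^ (k - 1 - i)
      + (Fintype.card J - D0 ^ k) ≤ m)
    (hl : D0 ^ k ≤ Fintype.card J) {T : Type} [Fintype T] (hT : Fintype.card T + 1 ≤ d0 ^ k)
    (hm : BorderDet n (permPoly m)) :
    BorderDet n (X none + ∑ t : T, ∑ s ∈ powersetCard (D0 ^ k) (univ : Finset J),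
      ∏ j ∈ s, (X (some (t, j)) : MvPolynomial (Option (T × J)) ℂ)) := by
  classical
  have : Nonempty (Fin d0) := ⟨⟨0, hd⟩⟩
  have : Nonempty (Fin D0) := ⟨⟨0, hD⟩⟩
  have : Nonempty (Fin s0) := by
    by_contra hcon
    rw [not_nonempty_iff] at hcon
    have := hcode ⟨0, hd⟩ ⟨0, hd⟩ ⟨0, hD⟩
    rw [Finset.univ_eq_empty, filter_empty, sum_empty, if_pos rfl] at this
    exact zero_ne_one this
  have h := section_gen (T := T) (J := J) e line c (fun a b j => by
    rw [← hcode a b j, Finset.sum_filter]) k m n (by rwa [Fintype.card_fin]) (by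
    rw [Fintype.card_fin, Fintype.card_fin, Fintype.card_fin, slackSize_eq]
    simp only [one_mul]
    omega) (by rwa [Fintype.card_fin]) hm
  rw [Fintype.card_fin] at h
  exact h

end final

end Pool.Agent.Work.MP_35c45d_lc.SQ
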