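import Mathlib
import Pool.Agent.Work.MP_35c45d_lc.SQDefs
import Pool.Agent.Work.MP_35c45d_lc.SQPersist

/-! Passage from the exact count of nondegenerate critical points to the border count. -/

set_option autoImplicit false

namespace Pool.Agent.Work.MP_35c45d_lc.SQ

open MvPolynomial Filter Topology

/-- `K` nondegenerate critical points of a border determinant persist to `K` nondegenerate critical
points of one of the approximating determinants. -/
theorem exists_det_of_borderDet {ι κ : Type} [Fintype ι] [Fintype κ] {n : ℕ}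
    {f : MvPolynomial ι ℂ} (hf : BorderDet n f) {c : ι → ℂ} (hc : c ≠ 0) {x : κ → ι → ℂ}
    (hinj : Function.Injective x) (hx : ∀ j, IsCrit f c (x j)) :
    ∃ (A : Matrix (Fin n) (Fin n) (MvPolynomial ι ℂ)) (γ : ℂ),
      (∀ i j, (A i j).totalDegree ≤ 1) ∧ ∃ x' : κ → ι → ℂ, Function.Injective x' ∧
        ∀ j, IsCrit (C γ * A.det) c (x' j) := by
  obtain ⟨A, γ, hA, hlim⟩ := hf
  have hdeg : ∀ s, (C (γ s) * (A s).det).totalDegree ≤ n := by
    intro s
    refine (totalDegree_mul _ _).trans ?_
    rw [totalDegree_C, zero_add]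
    exact Border.totalDegree_det_le _ (hA s)
  obtain ⟨s, x', h1, h2⟩ :=
    (persist_many n f (fun s => C (γ s) * (A s).det) hdeg hlim c hc x hinj hx).exists
  exact ⟨A s, γ s, hA s, x', h1, h2⟩

/-- The border version of a bound on the number of critical points of determinants. -/
theorem border_count {B : ℕ → ℕ → ℕ → Prop}
    (hexact : ∀ (n : ℕ) (ι κ : Type) [Fintype ι] [Fintype κ]
      (A : Matrix (Fin n) (Fin n) (MvPolynomial ι ℂ)) (γ : ℂ) (c : ι → ℂ) (x : κ → ι → ℂ),
      (∀ i j, (A i j).totalDegree ≤ 1) → c ≠ 0 → Function.Injective x →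
      (∀ j, IsCrit (C γ * A.det) c (x j)) → B n (Fintype.card ι) (Fintype.card κ))
    {ι κ : Type} [Fintype ι] [Fintype κ] {n : ℕ}
    {f : MvPolynomial ι ℂ} (hf : BorderDet n f) {c : ι → ℂ} (hc : c ≠ 0) {x : κ → ι → ℂ}
    (hinj : Function.Injective x) (hx : ∀ j, IsCrit f c (x j)) :
    B n (Fintype.card ι) (Fintype.card κ) := by
  obtain ⟨A, γ, hA, x', h1, h2⟩ := exists_det_of_borderDet hf hc hinj hx
  exact hexact n ι κ A γ c x' hA hc h1 h2

end Pool.Agent.Work.MP_35c45d_lc.SQ
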