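import Mathlib
import Pool.Agent.Work.MP_35c45d_lc.SQDet

/-! Linear algebra of Theorem A (helper85). -/

set_option autoImplicit false
set_option linter.unusedSectionVars false

namespace Pool.Agent.Work.MP_35c45d_lc.SQ

open MvPolynomial Matrix

variable {ι : Type} [Fintype ι]

/-! ### Jacobi's formula -/

theorem deriv_prod {n : ℕ} (D : Derivation ℂ (MvPolynomial ι ℂ) (MvPolynomial ι ℂ))
    (s : Finset (Fin n)) (f : Fin n → MvPolynomial ι ℂ) :
    D (∏ i ∈ s, f i) = ∑ i ∈ s, D (f i) * ∏ j ∈ s.erase i, f j := by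
  induction s using Finset.induction_on with
  | empty => simp
  | insert a s ha ih =>
    rw [Finset.prod_insert ha, D.leibniz, ih, Finset.sum_insert ha, Finset.erase_insert ha,
      smul_eq_mul, smul_eq_mul, Finset.mul_sum, add_comm, mul_comm (D (f a))]
    congr 1
    refine Finset.sum_congr rfl fun i hi => ?_
    have hia : i ≠ a := fun h => ha (h ▸ hi)
    rw [Finset.erase_insert_of_ne (Ne.symm hia),
      Finset.prod_insert (fun h => ha (Finset.mem_of_mem_erase h))]
    ring

theorem jacobi {n : ℕ} (D : Derivation ℂ (MvPolynomial ι ℂ) (MvPolynomial ι ℂ))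
    (A : Matrix (Fin n) (Fin n) (MvPolynomial ι ℂ)) :
    D A.det = ∑ a, ∑ b, A.adjugate a b * D (A b a) := by
  have h1 : ∀ a, ∑ b, A.adjugate a b * D (A b a) = (A.updateCol a (fun b => D (A b a))).det := by
    intro a
    rw [← Matrix.cramer_apply, Matrix.cramer_eq_adjugate_mulVec]
    rfl
  rw [Finset.sum_congr rfl fun a _ => h1 a]
  simp only [Matrix.det_apply]
  rw [map_sum, Finset.sum_comm]
  refine Finset.sum_congr rfl fun σ _ => ?_
  have h2 : D (Equiv.Perm.sign σ • ∏ i, A (σ i) i) =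
      Equiv.Perm.sign σ • D (∏ i, A (σ i) i) := by
    rcases Int.units_eq_one_or (Equiv.Perm.sign σ) with h | h
    · rw [h, one_smul, one_smul]
    · rw [h]
      simp
  rw [h2, deriv_prod, ← Finset.smul_sum]
  congr 1
  refine Finset.sum_congr rfl fun a _ => ?_
  rw [← Finset.mul_prod_erase Finset.univ _ (Finset.mem_univ a), Matrix.updateCol_self]
  congr 1
  refine Finset.prod_congr rfl fun j hj => ?_
  rw [Matrix.updateCol_ne (Finset.ne_of_mem_erase hj)]

/-! ### point derivation -/

/-- derivative at `x` in direction `u` -/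
noncomputable def Du (x u : ι → ℂ) (P : MvPolynomial ι ℂ) : ℂ := ∑ j, u j * eval x (pderiv j P)

theorem Du_mul (x u : ι → ℂ) (P Q : MvPolynomial ι ℂ) :
    Du x u (P * Q) = Du x u P * eval x Q + eval x P * Du x u Q := by
  unfold Du
  rw [Finset.sum_mul, Finset.mul_sum, ← Finset.sum_add_distrib]
  refine Finset.sum_congr rfl fun j _ => ?_
  rw [pderiv_mul, map_add, map_mul, map_mul]
  ring

theorem Du_sum {α : Type*} (s : Finset α) (x u : ι → ℂ) (P : α → MvPolynomial ι ℂ) :
    Du x u (∑ a ∈ s, P a) = ∑ a ∈ s, Du x u (P a) := by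
  unfold Du
  rw [Finset.sum_comm]
  refine Finset.sum_congr rfl fun j _ => ?_
  rw [map_sum, map_sum, Finset.mul_sum]

/-- affine polynomials have constant derivatives -/
theorem pderiv_of_deg_le_one (p : MvPolynomial ι ℂ) (hp : p.totalDegree ≤ 1) (i : ι) :
    pderiv i p = C (coeff (Finsupp.single i 1) p) := by
  classical
  ext m
  rw [coeff_pderiv, coeff_C]
  split_ifs with h
  · subst h
    simp
  · have h1 : coeff (m + Finsupp.single i 1) p = 0 := by
      by_contra hne
      have h2 := le_totalDegree (mem_support_iff.2 hne)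
      have h3 : 1 ≤ m.degree := by
        rw [Nat.one_le_iff_ne_zero]
        intro h0
        exact h ((Finsupp.degree_eq_zero_iff m).1 h0).symm
      have h4 : (m + Finsupp.single i 1).degree = m.degree + 1 := by
        rw [map_add, Finsupp.degree_single]
      have h5 : ((m + Finsupp.single i 1).sum fun _ e => e) = (m + Finsupp.single i 1).degree := by
        rfl
      omega
    rw [h1, zero_mul]

/-! ### kernels -/

theorem ker_zero {n' : ℕ} (M : Matrix (Fin (n' + 1)) (Fin (n' + 1)) ℂ)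
    (h00 : M.adjugate 0 0 ≠ 0) (z : Fin (n' + 1) → ℂ) (hz : M *ᵥ z = 0) (hz0 : z 0 = 0) :
    z = 0 := by
  rw [Matrix.adjugate_apply] at h00
  refine Matrix.eq_zero_of_mulVec_eq_zero h00 ?_
  funext b
  by_cases hb : b = 0
  · subst hb
    simp [Matrix.mulVec, Matrix.updateRow_self, hz0]
  · have := congrFun hz b
    rw [Matrix.mulVec] at this ⊢
    rw [Matrix.updateRow_ne hb]
    exact this

theorem ker_zero_left {n' : ℕ} (M : Matrix (Fin (n' + 1)) (Fin (n' + 1)) ℂ)
    (h00 : M.adjugate 0 0 ≠ 0) (z : Fin (n' + 1) → ℂ) (hz : z ᵥ* M = 0) (hz0 : z 0 = 0) :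
    z = 0 := by
  refine ker_zero Mᵀ ?_ z ?_ hz0
  · rw [← Matrix.adjugate_transpose, Matrix.transpose_apply]
    exact h00
  · rw [Matrix.mulVec_transpose]
    exact hz

theorem evMat_adjugate {n : ℕ} (A : Matrix (Fin n) (Fin n) (MvPolynomial ι ℂ)) (x : ι → ℂ)
    (a b : Fin n) : eval x (A.adjugate a b) = (evMat A x).adjugate a b := by
  have h := (eval x).map_adjugate A
  have h2 := congrFun (congrFun h a) b
  exact h2

theorem evMat_det {n : ℕ} (A : Matrix (Fin n) (Fin n) (MvPolynomial ι ℂ)) (x : ι → ℂ) :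
    eval x A.det = (evMat A x).det := by
  rw [(eval x).map_det A]
  rfl

/-- nonzero gradient at a zero forces `adj ≠ 0`. -/
theorem adj_ne_zero {n : ℕ} (A : Matrix (Fin n) (Fin n) (MvPolynomial ι ℂ))
    (x : ι → ℂ) (i : ι) (h : eval x (pderiv i A.det) ≠ 0) : (evMat A x).adjugate ≠ 0 := by
  intro h0
  apply h
  rw [jacobi (pderiv i) A, map_sum]
  refine Finset.sum_eq_zero fun a _ => ?_
  rw [map_sum]
  refine Finset.sum_eq_zero fun b _ => ?_
  rw [map_mul, evMat_adjugate, h0]
  simp

/-! ### the bilinear forms `w B v` -/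

theorem bil_eq {n : ℕ} (W V : Fin n → ℂ) (B : Matrix (Fin n) (Fin n) ℂ) :
    ∑ a, ∑ b, W a * B a b * V b = W ⬝ᵥ (B *ᵥ V) := by
  simp only [dotProduct, Matrix.mulVec, Finset.mul_sum, mul_assoc]

/-- the matrix of the derivatives of the entries -/
theorem Du_entry {n : ℕ} (A : Matrix (Fin n) (Fin n) (MvPolynomial ι ℂ))
    (hA : ∀ a b, (A a b).totalDegree ≤ 1) (x u : ι → ℂ) (a b : Fin n) :
    Du x u (A a b) = ∑ i, u i * coefMat A i a b := by
  unfold Du coefMat
  refine Finset.sum_congr rfl fun i _ => ?_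
  rw [pderiv_of_deg_le_one _ (hA a b), eval_C]

theorem adj_rank_one {n' : ℕ} (M : Matrix (Fin (n' + 1)) (Fin (n' + 1)) ℂ) (hdet : M.det = 0)
    (h00 : M.adjugate 0 0 ≠ 0) (a b : Fin (n' + 1)) :
    M.adjugate a b = M.adjugate 0 0 * (M.adjugate a 0 / M.adjugate 0 0) *
      (M.adjugate 0 b / M.adjugate 0 0) := by
  have hcol : ∀ b, M *ᵥ (fun a => M.adjugate a b) = 0 := by
    intro b
    funext a
    have h1 := congrFun (congrFun (Matrix.mul_adjugate M) a) b
    rw [hdet, zero_smul, Matrix.mul_apply] at h1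
    exact h1
  have h2 := ker_zero M h00 (fun a => M.adjugate a b -
    (M.adjugate 0 b / M.adjugate 0 0) * M.adjugate a 0) (by
      have h3 : (fun a => M.adjugate a b - (M.adjugate 0 b / M.adjugate 0 0) * M.adjugate a 0) =
          (fun a => M.adjugate a b) - (M.adjugate 0 b / M.adjugate 0 0) •
            (fun a => M.adjugate a 0) := by
        funext a
        simp
      rw [h3, Matrix.mulVec_sub, Matrix.mulVec_smul, hcol, hcol]
      simp) (by
      field_simp
      ring)
  have h4 := congrFun h2 a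
  simp only [Pi.zero_apply] at h4
  rw [sub_eq_zero] at h4
  rw [h4]
  field_simp

/-- the point of the total space over a critical point. -/
theorem exists_lift {n' : ℕ} (A : Matrix (Fin (n' + 1)) (Fin (n' + 1)) (MvPolynomial ι ℂ))
    (hA : ∀ a b, (A a b).totalDegree ≤ 1) (c : ι → ℂ) (i0 : ι) (hc : c i0 ≠ 0) (x : ι → ℂ)
    (hx : IsCrit A.det c x) (h00 : (evMat A x).adjugate 0 0 ≠ 0) :
    ∃ y z : Fin n' → ℂ,
      (∀ a, ∑ b, evMat A x a b * (Fin.cons 1 y : Fin (n' + 1) → ℂ) b = 0) ∧
      (∀ b, ∑ a, (Fin.cons 1 z : Fin (n' + 1) → ℂ) a * evMat A x a b = 0) ∧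
      (∀ i, c i0 * (∑ a, ∑ b, (Fin.cons 1 z : Fin (n' + 1) → ℂ) a * coefMat A i a b *
          (Fin.cons 1 y : Fin (n' + 1) → ℂ) b) =
        c i * (∑ a, ∑ b, (Fin.cons 1 z : Fin (n' + 1) → ℂ) a * coefMat A i0 a b *
          (Fin.cons 1 y : Fin (n' + 1) → ℂ) b)) ∧
      ∀ (u : ι → ℂ) (y' z' : Fin n' → ℂ),
        (∀ a, (∑ b, (∑ i, u i * coefMat A i a b) * (Fin.cons 1 y : Fin (n' + 1) → ℂ) b) +
          ∑ b, evMat A x a b * (Fin.cons 0 y' : Fin (n' + 1) → ℂ) b = 0) →
        (∀ b : Fin n', (∑ a, (Fin.cons 1 z : Fin (n' + 1) → ℂ) a *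
            (∑ i, u i * coefMat A i a b.succ)) +
          ∑ a, (Fin.cons 0 z' : Fin (n' + 1) → ℂ) a * evMat A x a b.succ = 0) →
        (∀ i, i ≠ i0 → c i0 * (∑ a, ∑ b, ((Fin.cons 0 z' : Fin (n' + 1) → ℂ) a * coefMat A i a b *
            (Fin.cons 1 y : Fin (n' + 1) → ℂ) b + (Fin.cons 1 z : Fin (n' + 1) → ℂ) a *
            coefMat A i a b * (Fin.cons 0 y' : Fin (n' + 1) → ℂ) b)) -
          c i * (∑ a, ∑ b, ((Fin.cons 0 z' : Fin (n' + 1) → ℂ) a * coefMat A i0 a b *
            (Fin.cons 1 y : Fin (n' + 1) → ℂ) b + (Fin.cons 1 z : Fin (n' + 1) → ℂ) a *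
            coefMat A i0 a b * (Fin.cons 0 y' : Fin (n' + 1) → ℂ) b)) = 0) →
        u = 0 ∧ y' = 0 ∧ z' = 0 := by
  obtain ⟨hf, ⟨lam, hlam, hgrad⟩, hnd⟩ := hx
  set M := evMat A x with hM
  have hdet : M.det = 0 := by rw [← evMat_det, hf]
  set κ := M.adjugate 0 0 with hκ
  set V : Fin (n' + 1) → ℂ := fun a => M.adjugate a 0 / κ with hV
  set W : Fin (n' + 1) → ℂ := fun b => M.adjugate 0 b / κ with hW
  have hV0 : V 0 = 1 := by rw [hV]; exact div_self h00
  have hW0 : W 0 = 1 := by rw [hW]; exact div_self h00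
  have hadj : ∀ a b, M.adjugate a b = κ * V a * W b := fun a b => adj_rank_one M hdet h00 a b
  have hMV : M *ᵥ V = 0 := by
    funext a
    have h1 := congrFun (congrFun (Matrix.mul_adjugate M) a) 0
    rw [hdet, zero_smul, Matrix.mul_apply] at h1
    have h2 : (M *ᵥ V) a = (∑ j, M a j * M.adjugate j 0) / κ := by
      rw [Finset.sum_div]
      simp only [Matrix.mulVec, dotProduct, hV, mul_div_assoc]
    rw [h2, h1]
    simp
  have hWM : W ᵥ* M = 0 := by
    funext b
    have h1 := congrFun (congrFun (Matrix.adjugate_mul M) 0) b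
    rw [hdet, zero_smul, Matrix.mul_apply] at h1
    have h2 : (W ᵥ* M) b = (∑ j, M.adjugate 0 j * M j b) / κ := by
      rw [Finset.sum_div]
      simp only [Matrix.vecMul, dotProduct, hW]
      refine Finset.sum_congr rfl fun j _ => ?_
      ring
    rw [h2, h1]
    simp
  have hVc : (Fin.cons 1 (fun k : Fin n' => V k.succ) : Fin (n' + 1) → ℂ) = V := by
    funext a
    refine Fin.cases ?_ (fun k => ?_) a
    · simp [hV0]
    · simp
  have hWc : (Fin.cons 1 (fun k : Fin n' => W k.succ) : Fin (n' + 1) → ℂ) = W := by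
    funext a
    refine Fin.cases ?_ (fun k => ?_) a
    · simp [hW0]
    · simp
  -- the gradient
  have hgr : ∀ i, eval x (pderiv i A.det) = κ * (W ⬝ᵥ (coefMat A i *ᵥ V)) := by
    intro i
    rw [jacobi (pderiv i) A, map_sum, ← bil_eq, Finset.sum_comm, Finset.mul_sum]
    refine Finset.sum_congr rfl fun a _ => ?_
    rw [map_sum, Finset.mul_sum]
    refine Finset.sum_congr rfl fun b _ => ?_
    rw [map_mul, evMat_adjugate, ← hM, hadj, pderiv_of_deg_le_one _ (hA _ _), eval_C]
    unfold coefMat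
    ring
  refine ⟨fun k => V k.succ, fun k => W k.succ, ?_, ?_, ?_, ?_⟩
  · rw [hVc]
    exact fun a => congrFun hMV a
  · rw [hWc]
    exact fun b => congrFun hWM b
  · intro i
    rw [hVc, hWc, bil_eq, bil_eq]
    have h1 := hgrad i
    have h2 := hgrad i0
    rw [hgr] at h1 h2
    have h3 : κ * (c i0 * (W ⬝ᵥ (coefMat A i *ᵥ V)) - c i * (W ⬝ᵥ (coefMat A i0 *ᵥ V))) = 0 := by
      linear_combination c i0 * h1 - c i * h2
    rcases mul_eq_zero.1 h3 with h4 | h4
    · exact absurd h4 h00
    · exact sub_eq_zero.1 h4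
  · intro u y' z'
    rw [hVc, hWc]
    set Y : Fin (n' + 1) → ℂ := Fin.cons 0 y' with hY
    set Z : Fin (n' + 1) → ℂ := Fin.cons 0 z' with hZ
    have hY0 : Y 0 = 0 := by rw [hY]; rfl
    have hZ0 : Z 0 = 0 := by rw [hZ]; rfl
    set Ad : Matrix (Fin (n' + 1)) (Fin (n' + 1)) ℂ := fun a b => ∑ i, u i * coefMat A i a b with hAd
    intro h1 h2 h3
    have h1' : Ad *ᵥ V + M *ᵥ Y = 0 := by
      funext a
      exact h1 a
    -- `W Ad V = 0`
    have hWAV : W ⬝ᵥ (Ad *ᵥ V) = 0 := by
      have h4 := congrArg (fun v => W ⬝ᵥ v) h1'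
      simp only [dotProduct_add, dotProduct_zero] at h4
      rw [Matrix.dotProduct_mulVec W M Y, hWM, zero_dotProduct, add_zero] at h4
      exact h4
    have h2' : W ᵥ* Ad + Z ᵥ* M = 0 := by
      have h5 : (W ᵥ* Ad + Z ᵥ* M) ⬝ᵥ V = 0 := by
        rw [add_dotProduct, ← Matrix.dotProduct_mulVec, ← Matrix.dotProduct_mulVec, hMV, hWAV]
        simp
      have h6 : ∀ b : Fin n', (W ᵥ* Ad + Z ᵥ* M) b.succ = 0 := fun b => h2 b
      have h7 : (W ᵥ* Ad + Z ᵥ* M) 0 = 0 := by
        rw [dotProduct, Fin.sum_univ_succ, hV0, mul_one] at h5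
        rw [Finset.sum_eq_zero (fun b _ => by rw [h6 b, zero_mul]), add_zero] at h5
        exact h5
      funext b
      exact Fin.cases h7 h6 b
    -- derivative of the adjugate
    set Pd : Matrix (Fin (n' + 1)) (Fin (n' + 1)) ℂ := fun a b => Du x u (A.adjugate a b) with hPd
    have hAd' : Ad = ∑ i, u i • coefMat A i := by
      ext a b
      rw [Matrix.sum_apply]
      rfl
    have hdu : Du x u A.det = 0 := by
      unfold Du
      rw [Finset.sum_congr rfl fun i _ => by rw [hgr i]]
      have h8 : W ⬝ᵥ (Ad *ᵥ V) = ∑ i, u i * (W ⬝ᵥ (coefMat A i *ᵥ V)) := by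
        rw [hAd', Matrix.sum_mulVec, dotProduct_sum]
        refine Finset.sum_congr rfl fun i _ => ?_
        rw [Matrix.smul_mulVec, dotProduct_smul, smul_eq_mul]
      have h9 : ∑ i, u i * (κ * (W ⬝ᵥ (coefMat A i *ᵥ V))) =
          κ * ∑ i, u i * (W ⬝ᵥ (coefMat A i *ᵥ V)) := by
        rw [Finset.mul_sum]
        refine Finset.sum_congr rfl fun i _ => ?_
        ring
      rw [h9, ← h8, hWAV, mul_zero]
    have hone : ∀ a b : Fin (n' + 1), Du x u (A.det • (1 : Matrix (Fin (n' + 1)) (Fin (n' + 1))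
        (MvPolynomial ι ℂ)) a b) = 0 := by
      intro a b
      rw [smul_eq_mul, Du_mul, hdu, hf, zero_mul, zero_mul, add_zero]
    have hid1 : ∀ a b, ∑ k, (Ad a k * M.adjugate k b + M a k * Pd k b) = 0 := by
      intro a b
      have h4 := congrArg (Du x u) (congrFun (congrFun (Matrix.mul_adjugate A) a) b)
      rw [Matrix.mul_apply, Matrix.smul_apply, hone, Du_sum] at h4
      rw [← h4]
      refine Finset.sum_congr rfl fun k _ => ?_
      rw [Du_mul, evMat_adjugate, Du_entry A hA]
      rfl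
    have hid2 : ∀ a b, ∑ k, (Pd a k * M k b + M.adjugate a k * Ad k b) = 0 := by
      intro a b
      have h4 := congrArg (Du x u) (congrFun (congrFun (Matrix.adjugate_mul A) a) b)
      rw [Matrix.mul_apply, Matrix.smul_apply, hone, Du_sum] at h4
      rw [← h4]
      refine Finset.sum_congr rfl fun k _ => ?_
      rw [Du_mul, evMat_adjugate, Du_entry A hA]
      rfl
    have hcol : ∀ a b, Pd a b = κ * W b * Y a + Pd 0 b * V a := by
      intro a b
      have h4 := ker_zero M h00 (fun a => Pd a b - κ * W b * Y a - Pd 0 b * V a) (by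
        funext a
        have e1 : (M *ᵥ fun a => Pd a b - κ * W b * Y a - Pd 0 b * V a) a =
            ∑ k, M a k * Pd k b - κ * W b * (M *ᵥ Y) a - Pd 0 b * (M *ᵥ V) a := by
          simp only [Matrix.mulVec, dotProduct, Finset.mul_sum]
          rw [← Finset.sum_sub_distrib, ← Finset.sum_sub_distrib]
          refine Finset.sum_congr rfl fun k _ => ?_
          ring
        have e2 := hid1 a b
        rw [Finset.sum_add_distrib] at e2
        have e3 : ∑ k, Ad a k * M.adjugate k b = κ * W b * (Ad *ᵥ V) a := by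
          simp only [Matrix.mulVec, dotProduct, Finset.mul_sum]
          refine Finset.sum_congr rfl fun k _ => ?_
          rw [hadj]
          ring
        have e4 := congrFun h1' a
        rw [Pi.add_apply, Pi.zero_apply] at e4
        rw [e1, hMV, Pi.zero_apply]
        rw [e3] at e2
        linear_combination e2 - κ * W b * e4) (by
        show Pd 0 b - κ * W b * Y 0 - Pd 0 b * V 0 = 0
        rw [hY0, hV0]
        ring)
      have h5 := congrFun h4 a
      simp only [Pi.zero_apply] at h5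
      linear_combination h5
    have hrow : ∀ a b, Pd a b = κ * V a * Z b + Pd a 0 * W b := by
      intro a b
      have h4 := ker_zero_left M h00 (fun b => Pd a b - κ * V a * Z b - Pd a 0 * W b) (by
        funext b
        have e1 : ((fun b => Pd a b - κ * V a * Z b - Pd a 0 * W b) ᵥ* M) b =
            ∑ k, Pd a k * M k b - κ * V a * (Z ᵥ* M) b - Pd a 0 * (W ᵥ* M) b := by
          simp only [Matrix.vecMul, dotProduct, Finset.mul_sum]
          rw [← Finset.sum_sub_distrib, ← Finset.sum_sub_distrib]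
          refine Finset.sum_congr rfl fun k _ => ?_
          ring
        have e2 := hid2 a b
        rw [Finset.sum_add_distrib] at e2
        have e3 : ∑ k, M.adjugate a k * Ad k b = κ * V a * (W ᵥ* Ad) b := by
          simp only [Matrix.vecMul, dotProduct, Finset.mul_sum]
          refine Finset.sum_congr rfl fun k _ => ?_
          rw [hadj]
          ring
        have e4 := congrFun h2' b
        rw [Pi.add_apply, Pi.zero_apply] at e4
        rw [e1, hWM, Pi.zero_apply]
        rw [e3] at e2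
        linear_combination e2 - κ * V a * e4) (by
        show Pd a 0 - κ * V a * Z 0 - Pd a 0 * W 0 = 0
        rw [hZ0, hW0]
        ring)
      have h5 := congrFun h4 b
      simp only [Pi.zero_apply] at h5
      linear_combination h5
    have hPdf : ∀ a b, Pd a b = κ * (W b * Y a + Z b * V a) + Pd 0 0 * (W b * V a) := by
      intro a b
      rw [hcol a b, hrow 0 b, hV0]
      ring
    -- second derivative
    have hsec : ∀ i, Du x u (pderiv i A.det) = κ * (Z ⬝ᵥ (coefMat A i *ᵥ V) +
        W ⬝ᵥ (coefMat A i *ᵥ Y)) + Pd 0 0 * (W ⬝ᵥ (coefMat A i *ᵥ V)) := by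
      intro i
      have e1 : Du x u (pderiv i A.det) = ∑ a, ∑ b, Pd a b * coefMat A i b a := by
        rw [jacobi (pderiv i) A, Du_sum]
        refine Finset.sum_congr rfl fun a _ => ?_
        rw [Du_sum]
        refine Finset.sum_congr rfl fun b _ => ?_
        rw [Du_mul, pderiv_of_deg_le_one _ (hA _ _), eval_C]
        have e2 : Du x u (C (coeff (Finsupp.single i 1) (A b a))) = 0 := by
          unfold Du
          refine Finset.sum_eq_zero fun j _ => ?_
          rw [pderiv_C, map_zero, mul_zero]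
        rw [e2, mul_zero, add_zero]
        rfl
      rw [e1, Finset.sum_comm, ← bil_eq, ← bil_eq, ← bil_eq, ← Finset.sum_add_distrib,
        Finset.mul_sum, Finset.mul_sum, ← Finset.sum_add_distrib]
      refine Finset.sum_congr rfl fun a _ => ?_
      rw [← Finset.sum_add_distrib, Finset.mul_sum, Finset.mul_sum, ← Finset.sum_add_distrib]
      refine Finset.sum_congr rfl fun b _ => ?_
      rw [hPdf]
      ring
    have hT : ∀ i, Z ⬝ᵥ (coefMat A i *ᵥ V) + W ⬝ᵥ (coefMat A i *ᵥ Y) =
        (Z ⬝ᵥ (coefMat A i0 *ᵥ V) + W ⬝ᵥ (coefMat A i0 *ᵥ Y)) / c i0 * c i := by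
      intro i
      by_cases hi : i = i0
      · rw [hi]
        field_simp
      · have h4 := h3 i hi
        simp only [Finset.sum_add_distrib] at h4
        rw [bil_eq, bil_eq, bil_eq, bil_eq] at h4
        field_simp
        linear_combination h4
    have hu : u = 0 := by
      refine hnd u hdu ⟨κ * ((Z ⬝ᵥ (coefMat A i0 *ᵥ V) + W ⬝ᵥ (coefMat A i0 *ᵥ Y)) / c i0) +
        Pd 0 0 * (lam / κ), fun i => ?_⟩
      have h4 := hsec i
      have h5 : W ⬝ᵥ (coefMat A i *ᵥ V) = lam / κ * c i := by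
        have h6 := hgr i
        rw [hgrad] at h6
        field_simp
        linear_combination -h6
      rw [hT i, h5] at h4
      have h7 : Du x u (pderiv i A.det) = ∑ j, u j * eval x (pderiv j (pderiv i A.det)) := rfl
      rw [← h7, h4]
      ring
    have hAd0 : Ad = 0 := by
      rw [hAd', hu]
      simp
    refine ⟨hu, ?_, ?_⟩
    · have h4 : Y = 0 := ker_zero M h00 Y (by
        rw [hAd0, Matrix.zero_mulVec, zero_add] at h1'
        exact h1') hY0
      funext k
      have h5 := congrFun h4 k.succ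
      rw [hY] at h5
      simpa using h5
    · have h4 : Z = 0 := ker_zero_left M h00 Z (by
        rw [hAd0, Matrix.vecMul_zero, zero_add] at h2'
        exact h2') hZ0
      funext k
      have h5 := congrFun h4 k.succ
      rw [hZ] at h5
      simpa using h5

end Pool.Agent.Work.MP_35c45d_lc.SQ
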