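import Mathlib
import Pool.Agent.Work.MP_35c45d_lc.SQDet

/-! Multidegrees of the system `Psi`. -/

set_option autoImplicit false

namespace Pool.Agent.Work.MP_35c45d_lc.SQ

open MvPolynomial

variable {ι : Type} [Fintype ι]

namespace Supp

/-- multidegree at most `(d1, d2, d3)` -/
def DegLe {n' : ℕ} (d1 d2 d3 : ℕ) (p : MvPolynomial (ι ⊕ (Fin n' ⊕ Fin n')) ℂ) : Prop :=
  ∀ β ∈ p.support, ∑ i, β (Sum.inl i) ≤ d1 ∧ ∑ k, β (Sum.inr (Sum.inl k)) ≤ d2 ∧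
    ∑ k, β (Sum.inr (Sum.inr k)) ≤ d3

variable {n' : ℕ}

theorem DegLe.add {d1 d2 d3 : ℕ} {p q : MvPolynomial (ι ⊕ (Fin n' ⊕ Fin n')) ℂ}
    (hp : DegLe d1 d2 d3 p) (hq : DegLe d1 d2 d3 q) : DegLe d1 d2 d3 (p + q) := by
  classical
  intro β hβ
  rcases Finset.mem_union.1 (support_add hβ) with h | h
  · exact hp β h
  · exact hq β h

theorem DegLe.zero (d1 d2 d3 : ℕ) :
    DegLe d1 d2 d3 (0 : MvPolynomial (ι ⊕ (Fin n' ⊕ Fin n')) ℂ) := by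
  intro β hβ
  simp at hβ

theorem DegLe.sum {κ : Type} (s : Finset κ) {d1 d2 d3 : ℕ}
    {p : κ → MvPolynomial (ι ⊕ (Fin n' ⊕ Fin n')) ℂ}
    (hp : ∀ k ∈ s, DegLe d1 d2 d3 (p k)) : DegLe d1 d2 d3 (∑ k ∈ s, p k) := by
  classical
  induction s using Finset.induction_on with
  | empty => simpa using DegLe.zero d1 d2 d3
  | insert a s ha ih =>
    rw [Finset.sum_insert ha]
    exact (hp a (Finset.mem_insert_self _ _)).add
      (ih fun k hk => hp k (Finset.mem_insert_of_mem hk))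

theorem DegLe.mul {d1 d2 d3 e1 e2 e3 : ℕ} {p q : MvPolynomial (ι ⊕ (Fin n' ⊕ Fin n')) ℂ}
    (hp : DegLe d1 d2 d3 p) (hq : DegLe e1 e2 e3 q) :
    DegLe (d1 + e1) (d2 + e2) (d3 + e3) (p * q) := by
  classical
  intro β hβ
  obtain ⟨β1, h1, β2, h2, rfl⟩ := Finset.mem_add.1 (support_mul p q hβ)
  obtain ⟨a1, a2, a3⟩ := hp β1 h1
  obtain ⟨b1, b2, b3⟩ := hq β2 h2
  simp only [Finsupp.add_apply, Finset.sum_add_distrib]
  exact ⟨by omega, by omega, by omega⟩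

theorem DegLe.C (r : ℂ) : DegLe 0 0 0 (C r : MvPolynomial (ι ⊕ (Fin n' ⊕ Fin n')) ℂ) := by
  classical
  intro β hβ
  have h : β = 0 := by
    rw [mem_support_iff, coeff_C] at hβ
    by_contra hne
    exact hβ (if_neg (Ne.symm hne))
  subst h
  simp

theorem DegLe.mono {d1 d2 d3 e1 e2 e3 : ℕ} {p : MvPolynomial (ι ⊕ (Fin n' ⊕ Fin n')) ℂ}
    (hp : DegLe d1 d2 d3 p) (h1 : d1 ≤ e1) (h2 : d2 ≤ e2) (h3 : d3 ≤ e3) :
    DegLe e1 e2 e3 p := fun β hβ =>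
  ⟨(hp β hβ).1.trans h1, (hp β hβ).2.1.trans h2, (hp β hβ).2.2.trans h3⟩

theorem degLe_vP (b : Fin (n' + 1)) : DegLe 0 1 0 (vP ι n' b) := by
  classical
  unfold vP
  refine Fin.cases ?_ (fun k => ?_) b
  · rw [Fin.cons_zero]
    have h := DegLe.C (ι := ι) (n' := n') 1
    rw [map_one] at h
    exact h.mono le_rfl (by omega) le_rfl
  · rw [Fin.cons_succ]
    intro β hβ
    rw [support_X, Finset.mem_singleton] at hβ
    subst hβ
    simp [Finsupp.single_apply]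

theorem degLe_wP (b : Fin (n' + 1)) : DegLe 0 0 1 (wP ι n' b) := by
  classical
  unfold wP
  refine Fin.cases ?_ (fun k => ?_) b
  · rw [Fin.cons_zero]
    have h := DegLe.C (ι := ι) (n' := n') 1
    rw [map_one] at h
    exact h.mono le_rfl le_rfl (by omega)
  · rw [Fin.cons_succ]
    intro β hβ
    rw [support_X, Finset.mem_singleton] at hβ
    subst hβ
    simp [Finsupp.single_apply]

theorem degLe_rename (p : MvPolynomial ι ℂ) (hp : p.totalDegree ≤ 1) :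
    DegLe (n' := n') 1 0 0 (rename Sum.inl p) := by
  classical
  intro β hβ
  rw [support_rename_of_injective Sum.inl_injective, Finset.mem_image] at hβ
  obtain ⟨m, hm, rfl⟩ := hβ
  refine ⟨?_, ?_, ?_⟩
  · have h1 : ∀ i, Finsupp.mapDomain (Sum.inl : ι → ι ⊕ (Fin n' ⊕ Fin n')) m (Sum.inl i) = m i :=
      fun i => Finsupp.mapDomain_apply Sum.inl_injective m i
    simp only [h1]
    have h2 := (le_totalDegree hm).trans hp
    rwa [Finsupp.sum_fintype _ _ (by simp)] at h2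
  · rw [Finset.sum_eq_zero]
    intro k _
    exact Finsupp.mapDomain_of_notMem_range _ _ (by rintro ⟨i, hi⟩; cases hi)
  · rw [Finset.sum_eq_zero]
    intro k _
    exact Finsupp.mapDomain_of_notMem_range _ _ (by rintro ⟨i, hi⟩; cases hi)

end Supp

open Supp

/-- multidegrees (1,1,0) -/
theorem supp_Psi_inl {n' : ℕ} (A : Matrix (Fin (n' + 1)) (Fin (n' + 1)) (MvPolynomial ι ℂ))
    (hA : ∀ a b, (A a b).totalDegree ≤ 1) (c : ι → ℂ) (i0 : ι) (a : Fin (n' + 1))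
    (β : ι ⊕ (Fin n' ⊕ Fin n') →₀ ℕ) (hβ : β ∈ (Psi A c i0 (Sum.inl a)).support) :
    ∑ i, β (Sum.inl i) ≤ 1 ∧ ∑ k, β (Sum.inr (Sum.inl k)) ≤ 1 ∧
      ∑ k, β (Sum.inr (Sum.inr k)) ≤ 0 := by
  have h : DegLe (ι := ι) (n' := n') 1 1 0 (Psi A c i0 (Sum.inl a)) := by
    unfold Psi
    exact DegLe.sum _ fun b _ => (degLe_rename _ (hA a b)).mul (degLe_vP b)
  exact h β hβ

/-- multidegrees (1,0,1) -/
theorem supp_Psi_inr_inl {n' : ℕ} (A : Matrix (Fin (n' + 1)) (Fin (n' + 1)) (MvPolynomial ι ℂ))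
    (hA : ∀ a b, (A a b).totalDegree ≤ 1) (c : ι → ℂ) (i0 : ι) (b : Fin n')
    (β : ι ⊕ (Fin n' ⊕ Fin n') →₀ ℕ) (hβ : β ∈ (Psi A c i0 (Sum.inr (Sum.inl b))).support) :
    ∑ i, β (Sum.inl i) ≤ 1 ∧ ∑ k, β (Sum.inr (Sum.inl k)) ≤ 0 ∧
      ∑ k, β (Sum.inr (Sum.inr k)) ≤ 1 := by
  have h : DegLe (ι := ι) (n' := n') 1 0 1 (Psi A c i0 (Sum.inr (Sum.inl b))) := by
    unfold Psi
    exact DegLe.sum _ fun a _ => (degLe_wP a).mul (degLe_rename _ (hA a b.succ))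
  exact h β hβ

/-- multidegrees (0,1,1) -/
theorem supp_Psi_inr_inr {n' : ℕ} (A : Matrix (Fin (n' + 1)) (Fin (n' + 1)) (MvPolynomial ι ℂ))
    (c : ι → ℂ) (i0 : ι) (i : {i : ι // i ≠ i0})
    (β : ι ⊕ (Fin n' ⊕ Fin n') →₀ ℕ) (hβ : β ∈ (Psi A c i0 (Sum.inr (Sum.inr i))).support) :
    ∑ i, β (Sum.inl i) ≤ 0 ∧ ∑ k, β (Sum.inr (Sum.inl k)) ≤ 1 ∧
      ∑ k, β (Sum.inr (Sum.inr k)) ≤ 1 := by
  have h : DegLe (ι := ι) (n' := n') 0 1 1 (Psi A c i0 (Sum.inr (Sum.inr i))) := by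
    unfold Psi
    exact DegLe.sum _ fun a _ => DegLe.sum _ fun b _ =>
      (DegLe.C _).mul ((degLe_wP a).mul (degLe_vP b))
  exact h β hβ

end Pool.Agent.Work.MP_35c45d_lc.SQ
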