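import Mathlib
import Pool.Agent.Work.MP_35c45d_lc.SQDetAlg
import Pool.Agent.Work.MP_35c45d_lc.SQDetPsi
import Pool.Agent.Work.MP_35c45d_lc.SQDetSupp
import Pool.Agent.Work.MP_35c45d_lc.SQDetChart
import Pool.Agent.Work.MP_35c45d_lc.BezoutMain

/-! **Theorem A** (degree-of-dual bound for determinants): if `f = γ det A`, `A` an `n × n` matrix of
affine linear forms in `N` variables, and `c ≠ 0`, then the number of nondegenerate solutions of
`f = 0`, `grad f` parallel to `c`, is at most `(4 e n / N) ^ N`. -/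

set_option autoImplicit false
set_option linter.unusedSectionVars false

namespace Pool.Agent.Work.MP_35c45d_lc.SQ

open MvPolynomial Pool.DualDC

theorem theoremA_det {n' : ℕ} {ι κ : Type} [Fintype ι] [Fintype κ]
    (A : Matrix (Fin (n' + 1)) (Fin (n' + 1)) (MvPolynomial ι ℂ))
    (hA : ∀ a b, (A a b).totalDegree ≤ 1) (c : ι → ℂ) (hc : c ≠ 0) (x : κ → ι → ℂ)
    (hinj : Function.Injective x) (hx : ∀ j, IsCrit A.det c (x j)) :
    (Fintype.card κ : ℝ) ≤
      (4 * Real.exp 1 * ((n' + 1 : ℕ) : ℝ) / (Fintype.card ι : ℝ)) ^ Fintype.card ι := by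
  classical
  obtain ⟨i0, hi0⟩ : ∃ i0, c i0 ≠ 0 := by
    by_contra h
    push Not at h
    exact hc (funext h)
  have hadj : ∀ j, (evMat A (x j)).adjugate ≠ 0 := by
    intro j
    obtain ⟨-, ⟨lam, hlam, hg⟩, -⟩ := hx j
    refine adj_ne_zero A (x j) i0 ?_
    rw [hg]
    exact mul_ne_zero hlam hi0
  obtain ⟨A', hA', hdet, h00⟩ := exists_chart A hA x hadj
  have hx' : ∀ j, IsCrit A'.det c (x j) := by
    rw [hdet]
    exact hx
  have hl := fun j => exists_lift A' hA' c i0 hi0 (x j) (hx' j) (h00 j)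
  choose y z h1 h2 h3 h4 using hl
  have hN : 1 ≤ Fintype.card ι := Fintype.card_pos_iff.2 ⟨i0⟩
  refine bez_main (n := n' + 1) (N := Fintype.card ι) (X := ι) (V := Fin n') (W := Fin n')
    (E₁ := Fin (n' + 1)) (E₂ := Fin n') (E₃ := {i : ι // i ≠ i0}) (by omega) hN rfl
    (by simp) (by simp) (by simp) (by simp) ?_ (Psi A' c i0) (fun j => pt (x j) (y j) (z j))
    ?_ ?_ ?_ ?_ ?_ ?_
  · rw [Fintype.card_subtype_compl, Fintype.card_subtype_eq]
  · intro j k hjk
    apply hinj
    funext i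
    exact congrFun hjk (Sum.inl i)
  · intro j e
    rcases e with a | b | i
    · rw [eval_Psi_inl]
      exact h1 j a
    · rw [eval_Psi_inr_inl]
      exact h2 j b.succ
    · rw [eval_Psi_inr_inr, h3 j i.1, sub_self]
  · intro j v hv
    have hvpt : v = pt (fun i => v (Sum.inl i)) (fun k => v (Sum.inr (Sum.inl k)))
        (fun k => v (Sum.inr (Sum.inr k))) := by
      funext l
      rcases l with i | k | k <;> rfl
    have h5 := h4 j (fun i => v (Sum.inl i)) (fun k => v (Sum.inr (Sum.inl k)))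
        (fun k => v (Sum.inr (Sum.inr k))) (by
      intro a
      rw [← deriv_Psi_inl A' hA' c i0 (x j) _ (y j) (z j) _ _ a, ← hvpt]
      exact hv (Sum.inl a)) (by
      intro b
      rw [← deriv_Psi_inr_inl A' hA' c i0 (x j) _ (y j) (z j) _ _ b, ← hvpt]
      exact hv (Sum.inr (Sum.inl b))) (by
      intro i hi
      rw [← deriv_Psi_inr_inr A' c i0 (x j) (fun i => v (Sum.inl i)) (y j) (z j) _ _ ⟨i, hi⟩,
        ← hvpt]
      exact hv (Sum.inr (Sum.inr ⟨i, hi⟩)))
    obtain ⟨hu, hy, hz⟩ := h5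
    rw [hvpt, hu, hy, hz]
    funext l
    rcases l with i | k | k <;> rfl
  · intro a β hβ
    exact supp_Psi_inl A' hA' c i0 a β hβ
  · intro b β hβ
    exact supp_Psi_inr_inl A' hA' c i0 b β hβ
  · intro i β hβ
    exact supp_Psi_inr_inr A' c i0 i β hβ

/-- **Theorem A**, exact form. -/
theorem theoremA {n : ℕ} {ι κ : Type} [Fintype ι] [Fintype κ]
    (A : Matrix (Fin n) (Fin n) (MvPolynomial ι ℂ))
    (hA : ∀ a b, (A a b).totalDegree ≤ 1) (γ : ℂ) (c : ι → ℂ) (hc : c ≠ 0) (x : κ → ι → ℂ)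
    (hinj : Function.Injective x) (hx : ∀ j, IsCrit (C γ * A.det) c (x j)) :
    (Fintype.card κ : ℝ) ≤
      (4 * Real.exp 1 * (n : ℝ) / (Fintype.card ι : ℝ)) ^ Fintype.card ι := by
  classical
  obtain ⟨i0, hi0⟩ : ∃ i0, c i0 ≠ 0 := by
    by_contra h
    push Not at h
    exact hc (funext h)
  rcases n with _ | n'
  · rcases isEmpty_or_nonempty κ with hκ | ⟨⟨j⟩⟩
    · rw [Fintype.card_eq_zero]
      simp only [Nat.cast_zero]
      positivity
    · exfalso
      obtain ⟨-, ⟨lam, hlam, hg⟩, -⟩ := hx j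
      have h1 := hg i0
      rw [Matrix.det_fin_zero, mul_one, pderiv_C, map_zero] at h1
      exact mul_ne_zero hlam hi0 h1.symm
  · have hB : (A.updateRow 0 ((C γ : MvPolynomial ι ℂ) • A 0)).det = C γ * A.det := by
      rw [Matrix.det_updateRow_smul, Matrix.updateRow_eq_self]
    refine theoremA_det (A.updateRow 0 ((C γ : MvPolynomial ι ℂ) • A 0)) ?_ c hc x hinj (by rw [hB]; exact hx)
    intro a b
    by_cases ha : a = 0
    · subst ha
      rw [Matrix.updateRow_self]
      show (C γ * A 0 b).totalDegree ≤ 1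
      refine (totalDegree_mul _ _).trans ?_
      rw [totalDegree_C, zero_add]
      exact hA 0 b
    · rw [Matrix.updateRow_ne ha]
      exact hA a b

end Pool.Agent.Work.MP_35c45d_lc.SQ
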