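import Mathlib
import Pool.Agent.Work.MP_35c45d_lc.SQTheoremA
import Pool.Agent.Work.MP_35c45d_lc.SQBorderCount

/-! **Theorem A**, border form. -/

set_option autoImplicit false

namespace Pool.Agent.Work.MP_35c45d_lc.SQ

open MvPolynomial

/-- **Theorem A**, border form. -/
theorem theoremA_border {n : ℕ} {ι κ : Type} [Fintype ι] [Fintype κ] {f : MvPolynomial ι ℂ}
    (hf : BorderDet n f) (c : ι → ℂ) (hc : c ≠ 0) (x : κ → ι → ℂ)
    (hinj : Function.Injective x) (hx : ∀ j, IsCrit f c (x j)) :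
    (Fintype.card κ : ℝ) ≤
      (4 * Real.exp 1 * (n : ℝ) / (Fintype.card ι : ℝ)) ^ Fintype.card ι := by
  obtain ⟨A, γ, hA, x', hinj', hx'⟩ := exists_det_of_borderDet hf hc hinj hx
  exact theoremA A hA γ c hc x' hinj' hx'

/-- the same with a finite set of points -/
theorem theoremA_border_finset {n : ℕ} {ι : Type} [Fintype ι] {f : MvPolynomial ι ℂ}
    (hf : BorderDet n f) (c : ι → ℂ) (hc : c ≠ 0) (S : Finset (ι → ℂ))
    (hx : ∀ x ∈ S, IsCrit f c x) :
    (S.card : ℝ) ≤
      (4 * Real.exp 1 * (n : ℝ) / (Fintype.card ι : ℝ)) ^ Fintype.card ι := by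
  rcases Nat.eq_zero_or_pos (Fintype.card ι) with h0 | h0
  · exfalso
    apply hc
    funext i
    exact (Fintype.card_eq_zero_iff.1 h0).elim i
  · have h := theoremA_border (κ := Fin S.card) hf c hc (fun j => (S.equivFin.symm j : ι → ℂ))
      (fun a b hab => S.equivFin.symm.injective (Subtype.ext hab))
      (fun j => hx _ (S.equivFin.symm j).2)
    rwa [Fintype.card_fin] at h

end Pool.Agent.Work.MP_35c45d_lc.SQ
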