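import Pool.Agent.Work.MP_35c45d_lc.SQDefs
import Pool.Agent.Work.MP_35c45d_lc.SQCode3
import Pool.Agent.Work.MP_35c45d_lc.SQNum
import Pool.Agent.Work.MP_35c45d_lc.SQEsym
import Pool.Agent.Work.MP_35c45d_lc.SQTheoremAB
import Pool.Agent.Work.MP_35c45d_lc.SQSection

/-! Final assembly of the bound `m ^ (3 - ε)`. -/

set_option autoImplicit false

namespace Pool.Agent.Work.MP_35c45d_lc.SQ

open Finset MvPolynomial

/-- for all large `m` -/
theorem border_large (ε : ℝ) (hε : 0 < ε) (hε1 : ε < 1) :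
    ∃ c : ℝ, 0 < c ∧ ∃ m₀ : ℕ, ∀ m, m₀ ≤ m → ∀ n, BorderDet n (permPoly m) →
      c * (m : ℝ) ^ (3 - ε) ≤ n := by
  obtain ⟨s0, d0, D0, e, π, c0, hD, hDs, hd, hcode, hsize⟩ := exists_code3 ε hε
  obtain ⟨c, hc, m₀, h⟩ := numerics ε hε1 hD hDs hd hsize
  refine ⟨c, hc, m₀, fun m hm n hn => ?_⟩
  obtain ⟨k, n', hk, hn', hdk, hDn, hm', hfin⟩ := h m hm
  have hDk : 2 ≤ D0 ^ k := by
    calc 2 ≤ D0 := hD
      _ = D0 ^ 1 := (pow_one _).symm
      _ ≤ D0 ^ k := Nat.pow_le_pow_right (by omega) hk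
  have h1 := section_main (by omega) hd e (fun a x => some (π a x)) c0
    (fun a b j => by simpa using hcode a b j) k m n (J := Fin (n' * (D0 ^ k - 1)))
    (by rw [Fintype.card_fin]; exact hm') (by rw [Fintype.card_fin]; exact hDn)
    (T := Fin (d0 ^ k - 1)) (by rw [Fintype.card_fin]; omega) hn
  obtain ⟨q, hq⟩ : ∃ q, D0 ^ k = q + 1 := ⟨D0 ^ k - 1, by omega⟩
  have hqq : D0 ^ k - 1 = q := by omega
  apply hfin n
  rw [hqq] at h1 ⊢
  rw [hq] at h1
  obtain ⟨c1, hc1, S, hS, hcrit⟩ := esym_crit (T := Fin (d0 ^ k - 1)) (J := Fin (n' * q))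
    (q := q) (n' := n') (by omega) hn' (by rw [Fintype.card_fin])
  have h2 := theoremA_border_finset h1 c1 hc1 S hcrit
  rw [hS, Fintype.card_option, Fintype.card_prod, Fintype.card_fin, Fintype.card_fin] at h2
  have h3 : (d0 ^ k - 1) * (n' * q) + 1 = n' * (d0 ^ k - 1) * q + 1 := by ring
  rw [h3] at h2
  exact h2

/-- a constant is the only polynomial with a border representation of size `0` -/
theorem border_zero {ι : Type} {f : MvPolynomial ι ℂ} (hf : BorderDet 0 f) (d : ι →₀ ℕ)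
    (hd : d ≠ 0) : coeff d f = 0 := by
  classical
  obtain ⟨A, γ, _, h⟩ := hf
  refine tendsto_nhds_unique (h d) ?_
  have h1 : ∀ s, coeff d (C (γ s) * (A s).det) = 0 := by
    intro s
    rw [Matrix.det_fin_zero, mul_one, coeff_C, if_neg hd.symm]
  simp only [h1]
  exact tendsto_const_nhds

theorem perm_coeff {m : ℕ} :
    coeff (∑ i : Fin m, Finsupp.single (i, i) 1) (permPoly m) = 1 := by
  classical
  unfold permPoly Matrix.permanent
  simp only [Matrix.of_apply]
  rw [coeff_sum]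
  have h1 : ∀ σ : Equiv.Perm (Fin m), (∏ i : Fin m, (X (σ i, i) : MvPolynomial (Fin m × Fin m) ℂ)) =
      monomial (∑ i : Fin m, Finsupp.single (σ i, i) 1) 1 := by
    intro σ
    rw [monomial_sum_one]
    rfl
  simp only [h1, coeff_monomial]
  rw [Finset.sum_eq_single 1]
  · simp
  · intro σ _ hσ
    rw [if_neg]
    intro h
    apply hσ
    ext j
    have h2 := DFunLike.congr_fun h (σ j, j)
    simp only [Finsupp.coe_finsetSum, Finset.sum_apply, Finsupp.single_apply] at h2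
    have h3 : (∑ i : Fin m, if (σ i, i) = (σ j, j) then 1 else 0) = 1 := by
      rw [Finset.sum_eq_single j]
      · simp
      · intro b _ hb
        rw [if_neg]
        intro h4
        exact hb (Prod.mk.inj h4).2
      · simp
    rw [h3] at h2
    by_contra hne
    have h4 : (∑ i : Fin m, if (i, i) = (σ j, j) then 1 else 0) = 0 := by
      refine Finset.sum_eq_zero fun i _ => ?_
      rw [if_neg]
      intro h5
      have h6 := Prod.mk.inj h5
      apply hne
      rw [Equiv.Perm.one_apply, ← h6.1, h6.2]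
    rw [h4] at h2
    exact absurd h2 (by norm_num)
  · simp

theorem border_pos {m n : ℕ} (hm : 1 ≤ m) (h : BorderDet n (permPoly m)) : 1 ≤ n := by
  by_contra hn
  have h0 : n = 0 := by omega
  subst h0
  have h1 := border_zero h (∑ i : Fin m, Finsupp.single (i, i) 1) (by
    intro h2
    have h3 := DFunLike.congr_fun h2 ((⟨0, by omega⟩, ⟨0, by omega⟩) : Fin m × Fin m)
    simp only [Finsupp.coe_finsetSum, Finset.sum_apply, Finsupp.single_apply,
      Finsupp.coe_zero, Pi.zero_apply] at h3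
    rw [Finset.sum_eq_zero_iff] at h3
    have h4 := h3 ⟨0, by omega⟩ (mem_univ _)
    simp at h4)
  rw [perm_coeff] at h1
  exact one_ne_zero h1

/-- **Nearly cubic lower bound** -/
theorem border_main (ε : ℝ) (hε : 0 < ε) : ∃ c : ℝ, 0 < c ∧ ∀ m n : ℕ, 1 ≤ m →
    BorderDet n (permPoly m) → c * (m : ℝ) ^ (3 - ε) ≤ n := by
  set ε' : ℝ := min ε (1 / 2) with hε'
  obtain ⟨c, hc, m₀, h⟩ := border_large ε' (lt_min hε (by norm_num))
    (lt_of_le_of_lt (min_le_right _ _) (by norm_num))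
  have hle : ε' ≤ ε := min_le_left _ _
  have hle2 : ε' ≤ 1 / 2 := min_le_right _ _
  refine ⟨min c (((m₀ : ℝ) + 1) ^ (-(3 - ε'))), lt_min hc (by positivity), ?_⟩
  intro m n hm hn
  have hm1 : (1 : ℝ) ≤ m := by exact_mod_cast hm
  have hmono : (m : ℝ) ^ (3 - ε) ≤ (m : ℝ) ^ (3 - ε') :=
    Real.rpow_le_rpow_of_exponent_le hm1 (by linarith)
  rcases le_or_gt m₀ m with hmm | hmm
  · calc min c (((m₀ : ℝ) + 1) ^ (-(3 - ε'))) * (m : ℝ) ^ (3 - ε)
        ≤ c * (m : ℝ) ^ (3 - ε') := by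
          apply mul_le_mul (min_le_left _ _) hmono (by positivity) hc.le
      _ ≤ n := h m hmm n hn
  · have h1 : (1 : ℝ) ≤ n := by exact_mod_cast border_pos hm hn
    refine le_trans ?_ h1
    calc min c (((m₀ : ℝ) + 1) ^ (-(3 - ε'))) * (m : ℝ) ^ (3 - ε)
        ≤ ((m₀ : ℝ) + 1) ^ (-(3 - ε')) * (m : ℝ) ^ (3 - ε') := by
          apply mul_le_mul (min_le_right _ _) hmono (by positivity) (by positivity)
      _ ≤ ((m₀ : ℝ) + 1) ^ (-(3 - ε')) * ((m₀ : ℝ) + 1) ^ (3 - ε') := by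
          apply mul_le_mul_of_nonneg_left _ (by positivity)
          apply Real.rpow_le_rpow (by positivity) _ (by linarith)
          have : (m : ℝ) ≤ m₀ := by exact_mod_cast hmm.le
          linarith
      _ = 1 := by
          rw [← Real.rpow_add (by positivity)]
          simp

end Pool.Agent.Work.MP_35c45d_lc.SQ
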