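import Pool.Agent.Work.MP_35c45d_lc.MPBRed
import Pool.Agent.Work.MP_35c45d_lc.MPGen
import Pool.Agent.Work.MP_35c45d_lc.MPSheet
import Pool.Agent.Work.MP_35c45d_lc.MPSec
import Pool.Agent.Work.MP_35c45d_lc.SQFinal
import Pool.Agent.Work.MP_35c45d_lc.SDRows

/-! A nearly cubic lower bound for the (border) determinantal complexity of every nonzero multiple
of the permanent. -/

set_option autoImplicit false

namespace Pool.Agent.Work.MP_35c45d_lc.MP

open Finset MvPolynomial Filter Topology Pool.Agent.Work.MP_35c45d_lc.SQ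

/-- scaling -/
theorem isCrit_smul {ι : Type} [Fintype ι] {f : MvPolynomial ι ℂ} {c x : ι → ℂ} {γ : ℂ}
    (hγ : γ ≠ 0) (h : IsCrit f c x) : IsCrit (C γ * f) c x := by
  obtain ⟨h0, ⟨lam, hlam, h1⟩, h2⟩ := h
  have e1 : ∀ i, eval x (pderiv i (C γ * f)) = γ * eval x (pderiv i f) := by
    intro i
    rw [pderiv_C_mul, map_mul, eval_C]
  have e2 : ∀ i j, eval x (pderiv j (pderiv i (C γ * f)))
      = γ * eval x (pderiv j (pderiv i f)) := by
    intro i j
    rw [pderiv_C_mul, pderiv_C_mul, map_mul, eval_C]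
  refine ⟨by rw [map_mul, h0, mul_zero], ⟨γ * lam, mul_ne_zero hγ hlam, fun i => ?_⟩, ?_⟩
  · rw [e1, h1]; ring
  · rintro u hu ⟨τ, hτ⟩
    apply h2 u
    · have h3 : γ * ∑ i, u i * eval x (pderiv i f) = 0 := by
        rw [← hu, mul_sum]
        apply sum_congr rfl; intro i _
        rw [e1]; ring
      exact (mul_eq_zero.mp h3).resolve_left hγ
    · refine ⟨τ / γ, fun i => ?_⟩
      have h3 : γ * ∑ j, u j * eval x (pderiv j (pderiv i f)) = τ * c i := by
        rw [← hτ i, mul_sum]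
        apply sum_congr rfl; intro j _
        rw [e2]; ring
      field_simp
      linear_combination h3

/-- **Count** for limits of determinants which are nonzero multiples of the permanent -/
theorem mult_count {m n : ℕ} (hm : 1 ≤ m) {F : MvPolynomial (Fin m × Fin m) ℂ}
    (hF : BorderDet n F) (h0 : F ≠ 0) (hd : permPoly m ∣ F) {ι κ : Type} [Fintype ι] [Fintype κ]
    (φ : Fin m × Fin m → MvPolynomial ι ℂ) (hφ : ∀ q, (φ q).totalDegree ≤ 1)
    (c : ι → ℂ) (hc : c ≠ 0) (x : κ → ι → ℂ) (hinj : Function.Injective x)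
    (hx : ∀ k, IsCrit (aeval φ (permPoly m)) c (x k)) :
    (Fintype.card κ : ℝ) ≤
      (4 * Real.exp 1 * (n : ℝ) / (Fintype.card ι : ℝ)) ^ Fintype.card ι := by
  classical
  have hP := prime_permPoly hm
  obtain ⟨F', h, hF'0, hPF', hPh, hB⟩ := border_reduce hP hF h0 hd
  obtain ⟨g, hg, hPg⟩ :=
    (FiniteMultiplicity.of_prime_left hP hF'0).exists_eq_pow_mul_and_not_dvd
  set a : ℕ := multiplicity (permPoly m) F' with ha
  have ha1 : 1 ≤ a := by
    by_contra hcon
    have h1 : a = 0 := by omega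
    rw [h1, pow_zero, one_mul] at hg
    exact hPg (hg ▸ hPF')
  have hW : ¬ permPoly m ∣ g * h := by
    intro hdv
    rcases hP.dvd_or_dvd hdv with h1 | h1
    · exact hPg h1
    · exact hPh h1
  obtain ⟨φ', c', x', hφ', hc', hinj', hx'⟩ := generic hm φ hφ c hc x hinj hx hW
  obtain ⟨U, hU, hdis⟩ := (Set.finite_range x').t2_separation
  have h1 : ∀ k, ∀ᶠ τ in 𝓝[≠] (0:ℂ), ∃ y ∈ U (x' k),
      IsCrit (aeval φ' (permPoly m) ^ a * aeval φ' g - C (τ ^ a) * aeval φ' h) c' y := by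
    intro k
    obtain ⟨hcr, hne⟩ := hx' k
    rw [map_mul, map_mul] at hne
    exact sheet _ _ _ a ha1 c' (x' k) hc' hcr (left_ne_zero_of_mul hne) (right_ne_zero_of_mul hne)
      (U (x' k)) ((hU (x' k)).2.mem_nhds (hU (x' k)).1)
  obtain ⟨τ, hτ⟩ := (eventually_all.2 h1).exists
  choose y hyU hy using hτ
  have hyinj : Function.Injective y := by
    intro j j' hjj
    by_contra hne
    have h2 := hdis ⟨j, rfl⟩ ⟨j', rfl⟩ (fun h => hne (hinj' h))
    exact Set.disjoint_left.1 h2 (hyU j) (hjj ▸ hyU j')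
  have hBτ : BorderDet n (aeval φ' (permPoly m) ^ a * aeval φ' g - C (τ ^ a) * aeval φ' h) := by
    have h2 := (hB (-(τ ^ a))).subst φ' hφ'
    have h3 : aeval φ' (F' + C (-(τ ^ a)) * h)
        = aeval φ' (permPoly m) ^ a * aeval φ' g - C (τ ^ a) * aeval φ' h := by
      rw [map_add, map_mul, hg, map_mul, map_pow, aeval_C, algebraMap_eq, C_neg]
      ring
    rwa [h3] at h2
  exact theoremA_border hBτ c' hc' y hyinj hy

theorem mult_count_finset {m n : ℕ} (hm : 1 ≤ m) {F : MvPolynomial (Fin m × Fin m) ℂ}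
    (hF : BorderDet n F) (h0 : F ≠ 0) (hd : permPoly m ∣ F) {ι : Type} [Fintype ι]
    (φ : Fin m × Fin m → MvPolynomial ι ℂ) (hφ : ∀ q, (φ q).totalDegree ≤ 1)
    (c : ι → ℂ) (hc : c ≠ 0) (S : Finset (ι → ℂ))
    (hx : ∀ x ∈ S, IsCrit (aeval φ (permPoly m)) c x) :
    (S.card : ℝ) ≤
      (4 * Real.exp 1 * (n : ℝ) / (Fintype.card ι : ℝ)) ^ Fintype.card ι := by
  have h := mult_count (κ := Fin S.card) hm hF h0 hd φ hφ c hc
    (fun j => (S.equivFin.symm j : ι → ℂ))
    (fun a b hab => S.equivFin.symm.injective (Subtype.ext hab))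
    (fun j => hx _ (S.equivFin.symm j).2)
  rwa [Fintype.card_fin] at h

/-- for all large `m` -/
theorem mult_large (ε : ℝ) (hε : 0 < ε) (hε1 : ε < 1) :
    ∃ c : ℝ, 0 < c ∧ ∃ m₀ : ℕ, ∀ m, m₀ ≤ m → 1 ≤ m → ∀ (n : ℕ)
      (F : MvPolynomial (Fin m × Fin m) ℂ), BorderDet n F → F ≠ 0 → permPoly m ∣ F →
      c * (m : ℝ) ^ (3 - ε) ≤ n := by
  obtain ⟨s0, d0, D0, e, π, c0, hD, hDs, hd, hcode, hsize⟩ := exists_code3 ε hε
  obtain ⟨c, hc, m₀, h⟩ := numerics ε hε1 hD hDs hd hsize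
  refine ⟨c, hc, m₀, fun m hm hm1 n F hF hF0 hPF => ?_⟩
  obtain ⟨k, n', hk, hn', hdk, hDn, hm', hfin⟩ := h m hm
  have hDk : 2 ≤ D0 ^ k := by
    calc 2 ≤ D0 := hD
      _ = D0 ^ 1 := (pow_one _).symm
      _ ≤ D0 ^ k := Nat.pow_le_pow_right (by omega) hk
  have hsec := section_main_sub (by omega) hd e (fun a x => some (π a x)) c0
    (fun a b j => by simpa using hcode a b j) k m (J := Fin (n' * (D0 ^ k - 1)))
    (by rw [Fintype.card_fin]; exact hm') (by rw [Fintype.card_fin]; exact hDn)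
    (T := Fin (d0 ^ k - 1)) (by rw [Fintype.card_fin]; omega)
  obtain ⟨q, hq⟩ : ∃ q, D0 ^ k = q + 1 := ⟨D0 ^ k - 1, by omega⟩
  have hqq : D0 ^ k - 1 = q := by omega
  apply hfin n
  rw [hqq] at hsec ⊢
  rw [hq] at hsec
  obtain ⟨φ, hφ, γ, hγ, h1⟩ := hsec
  obtain ⟨c1, hc1, S, hS, hcrit⟩ := esym_crit (T := Fin (d0 ^ k - 1)) (J := Fin (n' * q))
    (q := q) (n' := n') (by omega) hn' (by rw [Fintype.card_fin])
  have h2 := mult_count_finset hm1 hF hF0 hPF φ hφ c1 hc1 S (by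
    intro x hx
    rw [h1]
    exact isCrit_smul hγ (hcrit x hx))
  rw [hS, Fintype.card_option, Fintype.card_prod, Fintype.card_fin, Fintype.card_fin] at h2
  have h3 : (d0 ^ k - 1) * (n' * q) + 1 = n' * (d0 ^ k - 1) * q + 1 := by ring
  rw [h3] at h2
  exact h2

theorem mult_pos {m n : ℕ} (hm : 1 ≤ m) {F : MvPolynomial (Fin m × Fin m) ℂ}
    (hF : BorderDet n F) (h0 : F ≠ 0) (hd : permPoly m ∣ F) : 1 ≤ n := by
  by_contra hn
  have hn0 : n = 0 := by omega
  subst hn0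
  have h1 : F = C (coeff 0 F) := by
    ext d
    rw [coeff_C]
    split_ifs with hd0
    · rw [hd0]
    · exact border_zero hF d (fun h => hd0 h.symm)
  have h2 : coeff 0 F ≠ 0 := by
    intro h2
    rw [h2, C_0] at h1
    exact h0 h1
  apply (prime_permPoly hm).not_isUnit
  apply isUnit_of_dvd_unit hd
  rw [h1]
  exact (isUnit_iff_ne_zero.2 h2).map C

/-- **Nearly cubic lower bound for multiples** -/
theorem mult_main (ε : ℝ) (hε : 0 < ε) : ∃ c : ℝ, 0 < c ∧ ∀ m n : ℕ, 1 ≤ m →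
    ∀ F : MvPolynomial (Fin m × Fin m) ℂ, BorderDet n F → F ≠ 0 → permPoly m ∣ F →
    c * (m : ℝ) ^ (3 - ε) ≤ n := by
  set ε' : ℝ := min ε (1 / 2) with hε'
  obtain ⟨c, hc, m₀, h⟩ := mult_large ε' (lt_min hε (by norm_num))
    (lt_of_le_of_lt (min_le_right _ _) (by norm_num))
  have hle : ε' ≤ ε := min_le_left _ _
  have hle2 : ε' ≤ 1 / 2 := min_le_right _ _
  refine ⟨min c (((m₀ : ℝ) + 1) ^ (-(3 - ε'))), lt_min hc (by positivity), ?_⟩
  intro m n hm F hF hF0 hPF
  have hm1 : (1 : ℝ) ≤ m := by exact_mod_cast hm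
  have hmono : (m : ℝ) ^ (3 - ε) ≤ (m : ℝ) ^ (3 - ε') :=
    Real.rpow_le_rpow_of_exponent_le hm1 (by linarith)
  rcases le_or_gt m₀ m with hmm | hmm
  · calc min c (((m₀ : ℝ) + 1) ^ (-(3 - ε'))) * (m : ℝ) ^ (3 - ε)
        ≤ c * (m : ℝ) ^ (3 - ε') := by
          apply mul_le_mul (min_le_left _ _) hmono (by positivity) hc.le
      _ ≤ n := h m hmm hm n F hF hF0 hPF
  · have h1 : (1 : ℝ) ≤ n := by exact_mod_cast mult_pos hm hF hF0 hPF
    refine le_trans ?_ h1
    calc min c (((m₀ : ℝ) + 1) ^ (-(3 - ε'))) * (m : ℝ) ^ (3 - ε)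
        ≤ ((m₀ : ℝ) + 1) ^ (-(3 - ε')) * (m : ℝ) ^ (3 - ε') := by
          apply mul_le_mul (min_le_right _ _) hmono (by positivity) (by positivity)
      _ ≤ ((m₀ : ℝ) + 1) ^ (-(3 - ε')) * ((m₀ : ℝ) + 1) ^ (3 - ε') := by
          apply mul_le_mul_of_nonneg_left _ (by positivity)
          apply Real.rpow_le_rpow (by positivity) _ (by linarith)
          have : (m : ℝ) ≤ m₀ := by exact_mod_cast hmm.le
          linarith
      _ = 1 := by
          rw [← Real.rpow_add (by positivity)]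
          simp

/-- **Main theorem**: matrices of any sizes with at most `R` non-constant rows. -/
theorem main (ε : ℝ) (hε : 0 < ε) : ∃ c : ℝ, 0 < c ∧ ∀ m R : ℕ, 1 ≤ m →
    ∀ (N : ℕ → ℕ) (A : ∀ s, Matrix (Fin (N s)) (Fin (N s)) (MvPolynomial (Fin m × Fin m) ℂ))
      (F : MvPolynomial (Fin m × Fin m) ℂ),
      (∀ s i j, (A s i j).totalDegree ≤ 1) →
      (∀ s, ∃ S : Finset (Fin (N s)), S.card ≤ R ∧ ∀ i ∉ S, ∀ j, ∃ a : ℂ, A s i j = C a) →
      (∀ d, Tendsto (fun s => coeff d (A s).det) atTop (𝓝 (coeff d F))) →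
      F ≠ 0 → permPoly m ∣ F → c * (m : ℝ) ^ (3 - ε) ≤ R := by
  obtain ⟨c, hc, h⟩ := mult_main ε hε
  refine ⟨c, hc, fun m R hm N A F hA hS hlim hF0 hPF => ?_⟩
  rcases Nat.eq_zero_or_pos R with hR | hR
  · -- no non-constant row: `F` is constant
    exfalso
    subst hR
    have hconst : ∀ s, ∃ a : ℂ, (A s).det = C a := by
      intro s
      obtain ⟨S, hS0, hSc⟩ := hS s
      have hSe : S = ∅ := by
        rw [← Finset.card_eq_zero]; omega
      have hall : ∀ i j, ∃ a : ℂ, A s i j = C a := fun i j => hSc i (by rw [hSe]; simp) j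
      choose a ha using hall
      refine ⟨(Matrix.of a).det, ?_⟩
      have h1 : A s = (Matrix.of a).map C := by
        ext1 i j
        rw [Matrix.map_apply, Matrix.of_apply]
        exact ha i j
      rw [h1, RingHom.map_det]
      rfl
    have hF : F = C (coeff 0 F) := by
      ext d
      rw [coeff_C]
      split_ifs with hd0
      · rw [hd0]
      · refine tendsto_nhds_unique (hlim d) ?_
        have h1 : ∀ s, coeff d (A s).det = 0 := by
          intro s
          obtain ⟨a, ha⟩ := hconst s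
          rw [ha, coeff_C, if_neg hd0]
        simp only [h1]
        exact tendsto_const_nhds
    have h2 : coeff 0 F ≠ 0 := by
      intro h2
      rw [h2, C_0] at hF
      exact hF0 hF
    apply (prime_permPoly hm).not_isUnit
    apply isUnit_of_dvd_unit hPF
    rw [hF]
    exact (isUnit_iff_ne_zero.2 h2).map C
  · have h1 : ∀ s, ∃ B : Matrix (Fin R) (Fin R) (MvPolynomial (Fin m × Fin m) ℂ),
        (∀ i j, (B i j).totalDegree ≤ 1) ∧ B.det = (A s).det := by
      intro s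
      obtain ⟨S, hSc, hSr⟩ := hS s
      exact SD.exists_small hR (A s) (hA s) S hSc hSr
    choose B hB hBdet using h1
    refine h m R hm F ⟨B, fun _ => 1, hB, fun d => ?_⟩ hF0 hPF
    simp only [map_one, one_mul, hBdet]
    exact hlim d

end Pool.Agent.Work.MP_35c45d_lc.MP
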