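import Pool.Agent.Work.MP_35c45d_lc.SDDefs
import Pool.Agent.Work.MP_35c45d_lc.SQDetAlg

/-! # Minors: Laplace expansions and derivatives -/

set_option autoImplicit false

namespace Pool.Agent.Work.MP_35c45d_lc.SD

open MvPolynomial

section alg

variable {R : Type} [CommRing R] {r n : ℕ}

/-- expansion along the first row -/
theorem laplace_row (B : Matrix (Fin n) (Fin n) R) (f g : Fin r → Fin n) (i : Fin n) :
    mnr B (Fin.cons i f : Fin (r + 1) → Fin n) (Fin.cons i g : Fin (r + 1) → Fin n) =
      B i i * mnr B f g + ∑ j : Fin r, (-1) ^ ((j : ℕ) + 1) * B i (g j) *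
        mnr B f ((Fin.cons i g : Fin (r + 1) → Fin n) ∘ (Fin.succ j).succAbove) := by
  unfold mnr
  rw [Matrix.det_succ_row_zero, Fin.sum_univ_succ]
  congr 1
  · simp only [Fin.val_zero, pow_zero, one_mul, Matrix.submatrix_apply, Fin.cons_zero,
      Matrix.submatrix_submatrix]
    congr 2

/-- expansion along the first column -/
theorem laplace_col (B : Matrix (Fin n) (Fin n) R) (f g : Fin r → Fin n) (i : Fin n) :
    mnr B (Fin.cons i f : Fin (r + 1) → Fin n) (Fin.cons i g : Fin (r + 1) → Fin n) =
      B i i * mnr B f g + ∑ j : Fin r, (-1) ^ ((j : ℕ) + 1) * B (f j) i *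
        mnr B ((Fin.cons i f : Fin (r + 1) → Fin n) ∘ (Fin.succ j).succAbove) g := by
  unfold mnr
  rw [Matrix.det_succ_column_zero, Fin.sum_univ_succ]
  congr 1
  · simp only [Fin.val_zero, pow_zero, one_mul, Matrix.submatrix_apply, Fin.cons_zero,
      Matrix.submatrix_submatrix]
    congr 2

theorem mnr_zero_left (B : Matrix (Fin n) (Fin n) R) (f g : Fin r → Fin n)
    (hf : ¬ Function.Injective f) : mnr B f g = 0 := by
  unfold mnr
  simp only [Function.Injective, not_forall] at hf
  obtain ⟨a, b, h, hne⟩ := hf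
  exact Matrix.det_zero_of_row_eq hne (by funext j; simp [h])

theorem mnr_zero_right (B : Matrix (Fin n) (Fin n) R) (f g : Fin r → Fin n)
    (hg : ¬ Function.Injective g) : mnr B f g = 0 := by
  unfold mnr
  simp only [Function.Injective, not_forall] at hg
  obtain ⟨a, b, h, hne⟩ := hg
  exact Matrix.det_zero_of_column_eq hne (fun i => by simp [h])

/-- every minor is `0` or `±` the minor with increasing indices -/
theorem mnr_sort (B : Matrix (Fin n) (Fin n) R) (f g : Fin r → Fin n)
    (hf : Function.Injective f) (hg : Function.Injective g) :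
    ∃ ε : ℤ, mnr B f g = (ε : R) * mnr B
      ((Finset.univ.image f).orderEmbOfFin (by
        rw [Finset.card_image_of_injective _ hf, Finset.card_univ, Fintype.card_fin]) : Fin r → Fin n)
      ((Finset.univ.image g).orderEmbOfFin (by
        rw [Finset.card_image_of_injective _ hg, Finset.card_univ, Fintype.card_fin]) :
        Fin r → Fin n) := by
  have key : ∀ (f : Fin r → Fin n) (hf : Function.Injective f)
      (h : (Finset.univ.image f).card = r),
      f ∘ (Tuple.sort f) = ((Finset.univ.image f).orderEmbOfFin h : Fin r → Fin n) := by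
    intro f hf h
    apply Finset.orderEmbOfFin_unique
    · intro x
      simp
    · exact (Tuple.monotone_sort f).strictMono_of_injective
        (hf.comp (Tuple.sort f).injective)
  rw [← key f hf, ← key g hg]
  have e : mnr B (f ∘ (Tuple.sort f)) (g ∘ (Tuple.sort g)) =
      ((Equiv.Perm.sign (Tuple.sort f) : ℤ) : R) * (((Equiv.Perm.sign (Tuple.sort g) : ℤ) : R) *
        mnr B f g) := by
    unfold mnr
    have e1 : B.submatrix (f ∘ (Tuple.sort f)) (g ∘ (Tuple.sort g)) =
        ((B.submatrix f g).submatrix id (Tuple.sort g)).submatrix (Tuple.sort f) id := by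
      rw [Matrix.submatrix_submatrix, Matrix.submatrix_submatrix]
      rfl
    rw [e1, Matrix.det_permute, Matrix.det_permute']
  refine ⟨(Equiv.Perm.sign (Tuple.sort f) : ℤ) * (Equiv.Perm.sign (Tuple.sort g) : ℤ), ?_⟩
  rw [e]
  have s1 : ∀ σ : Equiv.Perm (Fin r), ((Equiv.Perm.sign σ : ℤ) : R) *
      ((Equiv.Perm.sign σ : ℤ) : R) = 1 := by
    intro σ
    rcases Int.units_eq_one_or (Equiv.Perm.sign σ) with h | h <;> rw [h] <;> simp
  push_cast
  linear_combination (-(((Equiv.Perm.sign (Tuple.sort g) : ℤ) : R) *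
    ((Equiv.Perm.sign (Tuple.sort g) : ℤ) : R)) * mnr B f g) * s1 (Tuple.sort f) -
      mnr B f g * s1 (Tuple.sort g)

end alg

section der

variable {ι : Type} [Fintype ι] {n : ℕ}

omit [Fintype ι] in
theorem bord_totalDegree (A : Matrix (Fin n) (Fin n) (MvPolynomial ι ℂ))
    (hA : ∀ i j, (A i j).totalDegree ≤ 1) (v : ℂ) (i j : Fin n) :
    (bord v A i j).totalDegree ≤ 1 := by
  unfold bord
  simp only [Matrix.of_apply]
  refine (totalDegree_add _ _).trans (max_le ?_ ?_)
  · exact (totalDegree_rename_le _ _).trans (hA i j)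
  · split_ifs
    · refine (totalDegree_mul _ _).trans ?_
      rw [totalDegree_C, totalDegree_X]
    · simp

/-- the derivatives of a minor of size `r` are combinations of minors of size `r - 1` -/
theorem pderiv_mnr_mem {k r : ℕ} (A : Matrix (Fin n) (Fin n) (MvPolynomial ι ℂ))
    (hA : ∀ i j, (A i j).totalDegree ≤ 1) (v : ℂ) (x : ι ⊕ Fin n) (hr : n ≤ r + k)
    (f g : Fin r → Fin n) :
    pderiv x (mnr (bord v A) f g) ∈ Submodule.span ℂ {P | ∃ r, n ≤ r + (k + 1) ∧
      ∃ f g : Fin r → Fin n, P = mnr (bord v A) f g} := by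
  unfold mnr
  rw [SQ.jacobi (pderiv x) ((bord v A).submatrix f g)]
  refine Submodule.sum_mem _ fun a _ => Submodule.sum_mem _ fun b _ => ?_
  rw [Matrix.submatrix_apply, SQ.pderiv_of_deg_le_one _ (bord_totalDegree A hA v _ _)]
  obtain _ | r := r
  · exact a.elim0
  rw [Matrix.adjugate_fin_succ_eq_det_submatrix]
  set c := coeff (Finsupp.single x 1) (bord v A (f b) (g a)) with hc
  have e : (-1) ^ ((b : ℕ) + (a : ℕ)) *
      (((bord v A).submatrix f g).submatrix b.succAbove a.succAbove).det * C c =
      ((-1) ^ ((b : ℕ) + (a : ℕ)) * c : ℂ) •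
        ((bord v A).submatrix (f ∘ b.succAbove) (g ∘ a.succAbove)).det := by
    rw [smul_eq_C_mul, Matrix.submatrix_submatrix]
    simp only [map_mul, map_pow, map_neg, map_one]
    ring
  rw [e]
  apply Submodule.smul_mem
  apply Submodule.subset_span
  exact ⟨r, by omega, f ∘ b.succAbove, g ∘ a.succAbove, rfl⟩

/-- the `k`-th derivatives of the determinant are combinations of minors of size `≥ n - k` -/
theorem dk_mem {k : ℕ} (A : Matrix (Fin n) (Fin n) (MvPolynomial ι ℂ))
    (hA : ∀ i j, (A i j).totalDegree ≤ 1) (v : ℂ) (a : Fin k → ι) :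
    dk a (bord v A).det ∈ Submodule.span ℂ {P | ∃ r, n ≤ r + k ∧ ∃ f g : Fin r → Fin n,
      P = mnr (bord v A) f g} := by
  induction k with
  | zero =>
    apply Submodule.subset_span
    exact ⟨n, by omega, id, id, rfl⟩
  | succ k ih =>
    have h := ih (Fin.tail a)
    show pderiv (Sum.inl (a 0)) (dk (Fin.tail a) (bord v A).det) ∈ _
    refine Submodule.span_induction (p := fun P _ => pderiv (Sum.inl (a 0)) P ∈ _)
      ?_ ?_ ?_ ?_ h
    · rintro P ⟨r, hr, f, g, rfl⟩
      exact pderiv_mnr_mem A hA v _ hr f g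
    · rw [map_zero]
      exact Submodule.zero_mem _
    · intro P Q _ _ hP hQ
      rw [map_add]
      exact Submodule.add_mem _ hP hQ
    · intro c P _ hP
      rw [Derivation.map_smul]
      exact Submodule.smul_mem _ _ hP

end der

end Pool.Agent.Work.MP_35c45d_lc.SD
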