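import Pool.Agent.Work.MP_35c45d_lc.FDDefs
import Pool.Agent.Work.MP_35c45d_lc.SDMinor

/-! # The chain rule for the substitution -/

set_option autoImplicit false

namespace Pool.Agent.Work.MP_35c45d_lc.FD

open MvPolynomial SD

/-- the chain rule -/
theorem pderiv_aeval_sum {κ σ : Type} [Fintype κ] (f : κ → MvPolynomial σ ℂ) (x : σ)
    (P : MvPolynomial κ ℂ) :
    pderiv x (aeval f P) = ∑ e, pderiv x (f e) * aeval f (pderiv e P) := by
  classical
  induction P using MvPolynomial.induction_on with
  | C a =>
    rw [aeval_C, algebraMap_eq, pderiv_C]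
    simp
  | add p q hp hq =>
    rw [map_add, map_add, hp, hq, ← Finset.sum_add_distrib]
    refine Finset.sum_congr rfl fun e _ => ?_
    rw [map_add, map_add, mul_add]
  | mul_X p u hp =>
    rw [map_mul, Derivation.leibniz, hp, aeval_X]
    have h1 : ∀ e, pderiv x (f e) * aeval f (pderiv e (p * X u)) =
        (if e = u then pderiv x (f u) * aeval f p else 0) +
          f u * (pderiv x (f e) * aeval f (pderiv e p)) := by
      intro e
      rw [Derivation.leibniz, map_add, smul_eq_mul, smul_eq_mul, map_mul, map_mul, aeval_X,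
        pderiv_X]
      by_cases h : e = u
      · subst h
        rw [if_pos rfl, Pi.single_eq_same, map_one]
        ring
      · rw [if_neg h, Pi.single_eq_of_ne (Ne.symm h), map_zero]
        ring
    rw [Finset.sum_congr rfl fun e _ => h1 e, Finset.sum_add_distrib, Finset.sum_ite_eq',
      if_pos (Finset.mem_univ _), ← Finset.mul_sum, smul_eq_mul, smul_eq_mul]
    ring

/-- the derivative of an affine form is a constant -/
theorem pderiv_affine {σ : Type} (p : MvPolynomial σ ℂ) (hp : p.totalDegree ≤ 1) (x : σ) :
    pderiv x p = C (coeff (Finsupp.single x 1) p) := by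
  classical
  conv_lhs => rw [p.as_sum]
  rw [map_sum]
  have h1 : ∀ d ∈ p.support, pderiv x (monomial d (coeff d p)) =
      if d = Finsupp.single x 1 then C (coeff d p) else 0 := by
    intro d hd
    rw [pderiv_monomial]
    have hdeg : d.degree ≤ 1 := (le_totalDegree hd).trans hp
    split_ifs with h
    · rw [h, tsub_self, Finsupp.single_eq_same, Nat.cast_one, mul_one, C_apply]
    · have h0 : d x = 0 := by
        by_contra hne
        apply h
        have h2 : Finsupp.single x 1 ≤ d := Finsupp.single_le_iff.2 (Nat.one_le_iff_ne_zero.2 hne)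
        have h3 : (d - Finsupp.single x 1) + Finsupp.single x 1 = d := tsub_add_cancel_of_le h2
        have h4 := congrArg Finsupp.degree h3
        rw [map_add, Finsupp.degree_single] at h4
        have h5 : (d - Finsupp.single x 1).degree = 0 := by omega
        rw [Finsupp.degree_eq_zero_iff] at h5
        rw [← h3, h5, zero_add]
      rw [h0, Nat.cast_zero, mul_zero, map_zero]
  rw [Finset.sum_congr rfl h1, Finset.sum_ite_eq']
  split_ifs with h
  · rfl
  · rw [notMem_support_iff.1 h, map_zero]

theorem sb_totalDegree {ι : Type} {c n : ℕ}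
    (A : Fin c → Matrix (Fin n) (Fin n) (MvPolynomial ι ℂ))
    (hA : ∀ a i j, (A a i j).totalDegree ≤ 1) (v : ℂ) (e : Ent c n) :
    (rename Sum.inl (A e.1 e.2.1 e.2.2) +
      if e.2.1 = e.2.2 then C v * X (Sum.inr (finProdFinEquiv (e.1, e.2.1))) else 0 :
      MvPolynomial (ι ⊕ Fin (c * n)) ℂ).totalDegree ≤ 1 := by
  refine (totalDegree_add _ _).trans (max_le ?_ ?_)
  · exact (totalDegree_rename_le _ _).trans (hA _ _ _)
  · split_ifs
    · refine (totalDegree_mul _ _).trans ?_
      rw [totalDegree_C, totalDegree_X]
    · simp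

/-- iterated derivatives of a substituted polynomial are combinations of substituted iterated
derivatives; the derivative of an affine form is a constant. -/
theorem dk_mem {ι : Type} {c n : ℕ} (A : Fin c → Matrix (Fin n) (Fin n) (MvPolynomial ι ℂ))
    (hA : ∀ a i j, (A a i j).totalDegree ≤ 1) (v : ℂ) (P : MvPolynomial (Ent c n) ℂ) :
    ∀ {k : ℕ} (a : Fin k → ι), dk a (sb v A P) ∈
      Submodule.span ℂ {Q | ∃ w : List (Ent c n), w.length = k ∧ Q = sb v A (Dw w P)} := by
  intro k
  induction k with
  | zero =>
    intro a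
    apply Submodule.subset_span
    exact ⟨[], rfl, rfl⟩
  | succ k ih =>
    intro a
    have h := ih (Fin.tail a)
    show pderiv (Sum.inl (a 0)) (dk (Fin.tail a) (sb v A P)) ∈ _
    refine Submodule.span_induction (p := fun Q _ => pderiv (Sum.inl (a 0)) Q ∈ _)
      ?_ ?_ ?_ ?_ h
    · rintro Q ⟨w, hw, rfl⟩
      unfold sb
      rw [pderiv_aeval_sum]
      refine Submodule.sum_mem _ fun e _ => ?_
      rw [pderiv_affine _ (sb_totalDegree A hA v e), ← smul_eq_C_mul]
      apply Submodule.smul_mem
      apply Submodule.subset_span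
      exact ⟨e :: w, by rw [List.length_cons, hw], rfl⟩
    · rw [map_zero]
      exact Submodule.zero_mem _
    · intro P Q _ _ hP hQ
      rw [map_add]
      exact Submodule.add_mem _ hP hQ
    · intro c P _ hP
      rw [Derivation.map_smul]
      exact Submodule.smul_mem _ _ hP

end Pool.Agent.Work.MP_35c45d_lc.FD
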