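import Pool.Agent.Work.MP_35c45d_lc.SDMonsB

/-!
# Counting words of letters by the size of their support
-/

set_option autoImplicit false

namespace Pool.Agent.FDCount

/-- A letter: block, row, column. -/
abbrev Letter (c n : ℕ) := Fin c × Fin n × Fin n

/-- The indices met by a letter. -/
def V1 {c n : ℕ} (x : Letter c n) : Finset (Fin c × Fin n) := {(x.1, x.2.1), (x.1, x.2.2)}

/-- The indices met by a word. -/
def V {c n K : ℕ} (w : Fin K → Letter c n) : Finset (Fin c × Fin n) :=
  Finset.univ.biUnion fun t => V1 (w t)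

/-- The cost of one letter. -/
def Lam (c n k : ℕ) (z : ℝ) : ℝ := 2 * c * n ^ 2 * z ^ 2 + 8 * k ^ 2 + c * n * z

theorem Lam_nonneg (c n k : ℕ) {z : ℝ} (hz : 0 ≤ z) : 0 ≤ Lam c n k z := by
  unfold Lam
  positivity

theorem letter_le {c n k : ℕ} {z : ℝ} (hz0 : 0 ≤ z) (hz1 : z ≤ 1) (U : Finset (Fin c × Fin n))
    (hU : U.card ≤ 2 * k) :
    ∑ x : Letter c n, z ^ (V1 x \ U).card ≤ Lam c n k z := by
  classical
  rcases Nat.eq_zero_or_pos c with hc | hc
  · subst hc
    rw [Finset.univ_eq_empty, Finset.sum_empty]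
    exact Lam_nonneg _ _ _ hz0
  have hpt : ∀ x : Letter c n, z ^ (V1 x \ U).card ≤
      (if (x.1, x.2.1) ∈ U ∧ (x.1, x.2.2) ∈ U then (1 : ℝ) else 0) +
      z * (if (x.1, x.2.1) ∈ U then (1 : ℝ) else 0) +
      z * (if (x.1, x.2.2) ∈ U then (1 : ℝ) else 0) +
      z * (if x.2.1 = x.2.2 then (1 : ℝ) else 0) + z ^ 2 := by
    rintro ⟨a, i, j⟩
    simp only
    have hz2 : 0 ≤ z ^ 2 := sq_nonneg z
    by_cases hp : (a, i) ∈ U
    · by_cases hq : (a, j) ∈ U
      · have h0 : V1 (a, i, j) \ U = ∅ := by
          rw [Finset.sdiff_eq_empty_iff_subset]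
          intro y hy
          simp only [V1, Finset.mem_insert, Finset.mem_singleton] at hy
          rcases hy with rfl | rfl <;> assumption
        rw [h0]
        simp only [hp, hq, and_self, if_true, Finset.card_empty, pow_zero]
        split_ifs <;> nlinarith
      · have h1 : 1 ≤ (V1 (a, i, j) \ U).card := by
          rw [Nat.one_le_iff_ne_zero, Finset.card_ne_zero]
          exact ⟨(a, j), by simp [V1, hq]⟩
        have h2 : z ^ (V1 (a, i, j) \ U).card ≤ z := by
          calc z ^ (V1 (a, i, j) \ U).card ≤ z ^ 1 := pow_le_pow_of_le_one hz0 hz1 h1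
            _ = z := pow_one z
        simp only [hp, hq, and_false, if_true, if_false]
        split_ifs <;> nlinarith
    · by_cases hq : (a, j) ∈ U
      · have h1 : 1 ≤ (V1 (a, i, j) \ U).card := by
          rw [Nat.one_le_iff_ne_zero, Finset.card_ne_zero]
          exact ⟨(a, i), by simp [V1, hp]⟩
        have h2 : z ^ (V1 (a, i, j) \ U).card ≤ z := by
          calc z ^ (V1 (a, i, j) \ U).card ≤ z ^ 1 := pow_le_pow_of_le_one hz0 hz1 h1
            _ = z := pow_one z
        simp only [hp, hq, false_and, if_true, if_false]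
        split_ifs <;> nlinarith
      · by_cases hij : i = j
        · subst hij
          have h1 : 1 ≤ (V1 (a, i, i) \ U).card := by
            rw [Nat.one_le_iff_ne_zero, Finset.card_ne_zero]
            exact ⟨(a, i), by simp [V1, hp]⟩
          have h2 : z ^ (V1 (a, i, i) \ U).card ≤ z := by
            calc z ^ (V1 (a, i, i) \ U).card ≤ z ^ 1 := pow_le_pow_of_le_one hz0 hz1 h1
              _ = z := pow_one z
          simp only [hp, and_self, if_true, if_false]
          nlinarith
        · have h1 : 2 ≤ (V1 (a, i, j) \ U).card := by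
            have h3 : ({(a, i), (a, j)} : Finset (Fin c × Fin n)) ⊆ V1 (a, i, j) \ U := by
              intro y hy
              simp only [Finset.mem_insert, Finset.mem_singleton] at hy
              rcases hy with rfl | rfl
              · simp [V1, hp]
              · simp [V1, hq]
            have h4 := Finset.card_le_card h3
            rwa [Finset.card_pair (by simpa using hij)] at h4
          have h2 : z ^ (V1 (a, i, j) \ U).card ≤ z ^ 2 := pow_le_pow_of_le_one hz0 hz1 h1
          simp only [hp, hq, hij, and_self, if_false]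
          nlinarith
  have hA : ∑ x : Letter c n, (if (x.1, x.2.1) ∈ U ∧ (x.1, x.2.2) ∈ U then (1 : ℝ) else 0) ≤
      (U.card : ℝ) ^ 2 := by
    rw [Finset.sum_boole]
    have : (Finset.univ.filter fun x : Letter c n =>
        (x.1, x.2.1) ∈ U ∧ (x.1, x.2.2) ∈ U).card ≤ (U ×ˢ U).card := by
      apply Finset.card_le_card_of_injOn (fun x => ((x.1, x.2.1), (x.1, x.2.2)))
      · intro x hx
        have := (Finset.mem_filter.1 hx).2
        exact Finset.mem_product.2 this
      · rintro ⟨a, i, j⟩ _ ⟨a', i', j'⟩ _ h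
        simp only [Prod.mk.injEq] at h ⊢
        exact ⟨h.1.1, h.1.2, h.2.2⟩
    rw [Finset.card_product] at this
    calc ((Finset.univ.filter fun x : Letter c n =>
        (x.1, x.2.1) ∈ U ∧ (x.1, x.2.2) ∈ U).card : ℝ) ≤ ((U.card * U.card : ℕ) : ℝ) := by
          exact_mod_cast this
      _ = _ := by push_cast; ring
  have hB : ∑ x : Letter c n, (if (x.1, x.2.1) ∈ U then (1 : ℝ) else 0) ≤ U.card * n := by
    rw [Finset.sum_boole]
    have : (Finset.univ.filter fun x : Letter c n => (x.1, x.2.1) ∈ U).card ≤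
        (U ×ˢ (Finset.univ : Finset (Fin n))).card := by
      apply Finset.card_le_card_of_injOn (fun x => ((x.1, x.2.1), x.2.2))
      · intro x hx
        have := (Finset.mem_filter.1 hx).2
        exact Finset.mem_product.2 ⟨this, Finset.mem_univ _⟩
      · rintro ⟨a, i, j⟩ _ ⟨a', i', j'⟩ _ h
        simp only [Prod.mk.injEq] at h ⊢
        exact ⟨h.1.1, h.1.2, h.2⟩
    rw [Finset.card_product, Finset.card_univ, Fintype.card_fin] at this
    exact_mod_cast this
  have hC : ∑ x : Letter c n, (if (x.1, x.2.2) ∈ U then (1 : ℝ) else 0) ≤ U.card * n := by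
    rw [Finset.sum_boole]
    have : (Finset.univ.filter fun x : Letter c n => (x.1, x.2.2) ∈ U).card ≤
        (U ×ˢ (Finset.univ : Finset (Fin n))).card := by
      apply Finset.card_le_card_of_injOn (fun x => ((x.1, x.2.2), x.2.1))
      · intro x hx
        have := (Finset.mem_filter.1 hx).2
        exact Finset.mem_product.2 ⟨this, Finset.mem_univ _⟩
      · rintro ⟨a, i, j⟩ _ ⟨a', i', j'⟩ _ h
        simp only [Prod.mk.injEq] at h ⊢
        exact ⟨h.1.1, h.2, h.1.2⟩
    rw [Finset.card_product, Finset.card_univ, Fintype.card_fin] at this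
    exact_mod_cast this
  have hD : ∑ x : Letter c n, (if x.2.1 = x.2.2 then (1 : ℝ) else 0) ≤ c * n := by
    rw [Finset.sum_boole]
    have : (Finset.univ.filter fun x : Letter c n => x.2.1 = x.2.2).card ≤
        ((Finset.univ : Finset (Fin c)) ×ˢ (Finset.univ : Finset (Fin n))).card := by
      apply Finset.card_le_card_of_injOn (fun x => (x.1, x.2.1))
      · intro x hx
        simp
      · rintro ⟨a, i, j⟩ hx ⟨a', i', j'⟩ hx' h
        have h1 := (Finset.mem_filter.1 hx).2
        have h2 := (Finset.mem_filter.1 hx').2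
        simp only [Prod.mk.injEq] at h h1 h2 ⊢
        exact ⟨h.1, h.2, by rw [← h1, ← h2]; exact h.2⟩
    rw [Finset.card_product, Finset.card_univ, Finset.card_univ, Fintype.card_fin,
      Fintype.card_fin] at this
    exact_mod_cast this
  have hsum := Finset.sum_le_sum fun x (_ : x ∈ (Finset.univ : Finset (Letter c n))) => hpt x
  refine hsum.trans ?_
  simp only [Finset.sum_add_distrib, ← Finset.mul_sum, Finset.sum_const, Finset.card_univ,
    Fintype.card_prod, Fintype.card_fin, nsmul_eq_mul]
  have hUk : (U.card : ℝ) ≤ 2 * k := by exact_mod_cast hU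
  have hU0 : (0 : ℝ) ≤ U.card := Nat.cast_nonneg _
  have hn0 : (0 : ℝ) ≤ n := Nat.cast_nonneg _
  have hc1 : (1 : ℝ) ≤ c := by exact_mod_cast hc
  have hk0 : (0 : ℝ) ≤ k := Nat.cast_nonneg _
  unfold Lam
  push_cast
  have e1 : (U.card : ℝ) ^ 2 ≤ 4 * k ^ 2 := by nlinarith
  have e2 : z * ((U.card : ℝ) * n) ≤ z * (2 * k * n) :=
    mul_le_mul_of_nonneg_left (mul_le_mul_of_nonneg_right hUk hn0) hz0
  have e3 : 4 * (k : ℝ) * n * z ≤ 4 * k ^ 2 + c * n ^ 2 * z ^ 2 := by
    have h1 : 0 ≤ (2 * (k : ℝ) - n * z) ^ 2 := sq_nonneg _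
    have h2 : (n : ℝ) ^ 2 * z ^ 2 ≤ c * (n ^ 2 * z ^ 2) := by
      have : 0 ≤ (n : ℝ) ^ 2 * z ^ 2 := by positivity
      nlinarith
    nlinarith
  have e4 := mul_le_mul_of_nonneg_left hB hz0
  have e5 := mul_le_mul_of_nonneg_left hC hz0
  have e6 := mul_le_mul_of_nonneg_left hD hz0
  nlinarith

theorem V_card_le {c n K : ℕ} (w : Fin K → Letter c n) : (V w).card ≤ 2 * K := by
  unfold V
  refine Finset.card_biUnion_le.trans ?_
  calc ∑ t : Fin K, (V1 (w t)).card ≤ ∑ _t : Fin K, 2 :=
        Finset.sum_le_sum fun t _ => Finset.card_le_two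
    _ = 2 * K := by simp [mul_comm]

theorem V_cons {c n K : ℕ} (x : Letter c n) (w : Fin K → Letter c n) :
    V (Fin.cons x w : Fin (K + 1) → Letter c n) = V w ∪ (V1 x \ V w) := by
  classical
  ext y
  simp only [V, Finset.mem_biUnion, Finset.mem_univ, true_and, Finset.mem_union,
    Finset.mem_sdiff, Fin.exists_fin_succ, Fin.cons_zero, Fin.cons_succ]
  tauto

theorem word_le {c n k : ℕ} {z : ℝ} (hz0 : 0 ≤ z) (hz1 : z ≤ 1) :
    ∀ K : ℕ, K ≤ k → ∑ w : Fin K → Letter c n, z ^ (V w).card ≤ Lam c n k z ^ K := by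
  intro K
  induction K with
  | zero =>
    intro _
    simp [V]
  | succ K ih =>
    intro hK
    have ih := ih (by omega)
    rw [← (Fin.consEquiv fun _ : Fin (K + 1) => Letter c n).sum_comp]
    rw [Fintype.sum_prod_type_right]
    have h1 : ∀ w : Fin K → Letter c n, ∑ x : Letter c n,
        z ^ (V ((Fin.consEquiv fun _ : Fin (K + 1) => Letter c n) (x, w))).card ≤
        Lam c n k z * z ^ (V w).card := by
      intro w
      have h2 : ∀ x : Letter c n,
          z ^ (V ((Fin.consEquiv fun _ : Fin (K + 1) => Letter c n) (x, w))).card =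
          z ^ (V1 x \ V w).card * z ^ (V w).card := by
        intro x
        have : ((Fin.consEquiv fun _ : Fin (K + 1) => Letter c n) (x, w)) =
            (Fin.cons x w : Fin (K + 1) → Letter c n) := rfl
        rw [this, V_cons, Finset.card_union_of_disjoint Finset.disjoint_sdiff, pow_add, mul_comm]
      simp only [h2]
      rw [← Finset.sum_mul]
      refine mul_le_mul_of_nonneg_right ?_ (by positivity)
      exact letter_le hz0 hz1 _ ((V_card_le w).trans (by omega))
    calc _ ≤ ∑ w : Fin K → Letter c n, Lam c n k z * z ^ (V w).card :=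
          Finset.sum_le_sum fun w _ => h1 w
      _ = Lam c n k z * ∑ w : Fin K → Letter c n, z ^ (V w).card := by rw [Finset.mul_sum]
      _ ≤ Lam c n k z * Lam c n k z ^ K :=
          mul_le_mul_of_nonneg_left ih (Lam_nonneg _ _ _ hz0)
      _ = _ := by ring

/-- The sum over all pairs of lengths. -/
theorem pair_le {A B : ℝ} (hA : 0 ≤ A) (hB : 0 ≤ B) (k : ℕ) :
    ∑ K ∈ Finset.range (k + 1), ∑ J ∈ Finset.range (k + 1 - K), A ^ K * B ^ J ≤
      (1 + A + B) ^ k := by
  induction k with
  | zero => simp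
  | succ k ih =>
    set P := ∑ K ∈ Finset.range (k + 1), ∑ J ∈ Finset.range (k + 1 - K), A ^ K * B ^ J with hP
    have hnn : ∀ K ∈ Finset.range (k + 1),
        0 ≤ ∑ J ∈ Finset.range (k + 1 - K), A ^ K * B ^ J := fun K _ =>
      Finset.sum_nonneg fun J _ => mul_nonneg (pow_nonneg hA _) (pow_nonneg hB _)
    have h0 : ∑ J ∈ Finset.range (k + 1), B ^ J ≤ P := by
      have := Finset.single_le_sum hnn (Finset.mem_range.2 (Nat.succ_pos k))
      simpa using this
    have h1 : (1 : ℝ) ≤ ∑ J ∈ Finset.range (k + 1), B ^ J := by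
      have := Finset.single_le_sum (f := fun J => B ^ J) (fun J _ => pow_nonneg hB J)
        (Finset.mem_range.2 (Nat.succ_pos k))
      simpa using this
    have h2 : ∑ K ∈ Finset.range (k + 1 + 1), ∑ J ∈ Finset.range (k + 1 + 1 - K), A ^ K * B ^ J =
        A * P + (1 + B * ∑ J ∈ Finset.range (k + 1), B ^ J) := by
      rw [Finset.sum_range_succ' _ (k + 1)]
      congr 1
      · rw [hP, Finset.mul_sum]
        refine Finset.sum_congr rfl fun K _ => ?_
        rw [Finset.mul_sum, Nat.add_sub_add_right]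
        exact Finset.sum_congr rfl fun J _ => by ring
      · rw [Nat.sub_zero, Finset.sum_range_succ' _ (k + 1), Finset.mul_sum]
        simp only [pow_zero, one_mul, mul_one]
        rw [add_comm]
        congr 1
        exact Finset.sum_congr rfl fun J _ => by ring
    rw [h2, pow_succ]
    have h3 : A * P + (1 + B * ∑ J ∈ Finset.range (k + 1), B ^ J) ≤ P * (1 + A + B) := by
      have := mul_le_mul_of_nonneg_left h0 hB
      nlinarith
    refine h3.trans (mul_le_mul_of_nonneg_right ih (by positivity))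

/-- The count of FD. -/
theorem count_le {c n k : ℕ} {z : ℝ} (hz0 : 0 ≤ z) (hz1 : z ≤ 1) :
    ∑ K ∈ Finset.range (k + 1), ∑ J ∈ Finset.range (k + 1 - K),
      (c : ℝ) ^ J * ∑ w : Fin K → Letter c n, z ^ (V w).card ≤ (1 + c + Lam c n k z) ^ k := by
  have hL := Lam_nonneg c n k hz0
  have h := pair_le hL (Nat.cast_nonneg c) k
  refine le_trans ?_ (h.trans (le_of_eq (by ring)))
  refine Finset.sum_le_sum fun K hK => Finset.sum_le_sum fun J _ => ?_
  rw [mul_comm]
  refine mul_le_mul_of_nonneg_right ?_ (by positivity)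
  exact word_le hz0 hz1 K (by have := Finset.mem_range.1 hK; omega)

/-- The number of (word, operator word, monomial) triples, in numbers. -/
theorem fub_le (N c n k l : ℕ) (z : ℝ)
    (hz : z = ((N + c * n : ℕ) : ℝ) / ((N + c * n + l : ℕ) : ℝ)) (hN : 0 < N + c * n) :
    ((∑ K ∈ Finset.range (k + 1), ∑ J ∈ Finset.range (k + 1 - K),
      c ^ J * ∑ w : Fin K → Letter c n, (N + (c * n - (V w).card) + l).choose l : ℕ) : ℝ) ≤
      (1 + c + Lam c n k z) ^ k * ((N + c * n + l).choose l : ℝ) := by
  have hz0 : 0 ≤ z := by rw [hz]; positivity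
  have hz1 : z ≤ 1 := by
    rw [hz]
    apply div_le_one_of_le₀ _ (by positivity)
    push_cast
    have : (0 : ℝ) ≤ l := Nat.cast_nonneg l
    linarith
  have hB : (0 : ℝ) ≤ ((N + c * n + l).choose l : ℝ) := by positivity
  have h := mul_le_mul_of_nonneg_right (count_le (c := c) (n := n) (k := k) hz0 hz1) hB
  refine le_trans ?_ h
  rw [Finset.sum_mul]
  push_cast
  refine Finset.sum_le_sum fun K _ => ?_
  rw [Finset.sum_mul]
  refine Finset.sum_le_sum fun J _ => ?_
  rw [mul_assoc, Finset.sum_mul]
  refine mul_le_mul_of_nonneg_left (Finset.sum_le_sum fun w _ => ?_) (by positivity)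
  have hV : (V w).card ≤ c * n := by
    have := Finset.card_le_univ (V w)
    simpa using this
  have h6 := Work.MP_35c45d_lc.SD.choose_ratio (N + c * n) (V w).card l (by omega) hN
  have h7 : N + c * n - (V w).card = N + (c * n - (V w).card) := by omega
  rw [h7] at h6
  refine h6.trans (le_of_eq ?_)
  rw [hz]
  push_cast
  ring

end Pool.Agent.FDCount
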