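import Pool.Agent.Work.MP_35c45d_lc.FDDefs
import Pool.Agent.Work.MP_35c45d_lc.FDCount

/-! # Numerical form of the upper bound -/

set_option autoImplicit false

namespace Pool.Agent.Work.MP_35c45d_lc.FD

theorem ubF_le (N c n k l : ℕ) (hN : 0 < N + c * n) (z : ℝ)
    (hz : z = ((N + c * n : ℕ) : ℝ) / ((N + c * n + l : ℕ) : ℝ)) :
    (ubF N c n k l : ℝ) ≤
      (1 + c + (2 * c * n ^ 2 * z ^ 2 + 8 * k ^ 2 + c * n * z)) ^ k *
        ((N + c * n + l).choose l : ℝ) :=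
  FDCount.fub_le N c n k l z hz hN

theorem Vf_card_le {c n K : ℕ} (w : Fin K → Ent c n) : (Vf w).card ≤ 2 * K :=
  FDCount.V_card_le w

end Pool.Agent.Work.MP_35c45d_lc.FD
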