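import Pool.Agent.Work.MP_35c45d_lc.SDMons

/-! # A spanning family with the right number of members is linearly independent -/

set_option autoImplicit false

namespace Pool.Agent.Work.MP_35c45d_lc.SE

open MvPolynomial SD

/-- A family of polynomials indexed by the exponents such that, for every `N`, the monomials of degree
`≤ N` are combinations of its members with index of degree `≤ N`, is linearly independent. -/
theorem li_of_span {σ : Type} [Fintype σ] [DecidableEq σ] (b : (σ →₀ ℕ) → MvPolynomial σ ℂ)
    (h : ∀ μ : σ →₀ ℕ, (monomial μ 1 : MvPolynomial σ ℂ) ∈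
      Submodule.span ℂ (b '' {κ | κ.degree ≤ μ.degree})) : LinearIndependent ℂ b := by
  classical
  -- the finite families
  have key : ∀ N : ℕ, LinearIndependent ℂ
      (fun x : (mons (Finset.univ : Finset σ) N : Finset (σ →₀ ℕ)) => b x.1) := by
    intro N
    set I : Finset (σ →₀ ℕ) := mons (Finset.univ : Finset σ) N with hI
    have hmem : ∀ κ : σ →₀ ℕ, κ ∈ I ↔ κ.degree ≤ N := by
      intro κ
      rw [hI, mem_mons]
      exact ⟨fun h => h.2, fun h => ⟨Finset.subset_univ _, h⟩⟩
    rw [linearIndependent_iff_card_le_finrank_span]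
    have hmono : LinearIndependent ℂ (fun x : I => (monomial x.1 1 : MvPolynomial σ ℂ)) := by
      have h1 : LinearIndependent ℂ (fun s : σ →₀ ℕ => (monomial s 1 : MvPolynomial σ ℂ)) := by
        have := (MvPolynomial.basisMonomials σ ℂ).linearIndependent
        rwa [coe_basisMonomials] at this
      exact h1.comp (fun x : I => x.1) Subtype.val_injective
    have hle : Submodule.span ℂ (Set.range fun x : I => (monomial x.1 1 : MvPolynomial σ ℂ)) ≤
        Submodule.span ℂ (Set.range fun x : I => b x.1) := by
      rw [Submodule.span_le]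
      rintro _ ⟨x, rfl⟩
      refine Submodule.span_mono ?_ (h x.1)
      rintro _ ⟨κ, hκ, rfl⟩
      exact ⟨⟨κ, (hmem κ).2 (le_trans hκ ((hmem x.1).1 x.2))⟩, rfl⟩
    have h3 := finrank_span_eq_card hmono
    have : FiniteDimensional ℂ (Submodule.span ℂ (Set.range fun x : I => b x.1)) :=
      FiniteDimensional.span_of_finite ℂ (Set.finite_range _)
    rw [Set.finrank, ← h3]
    exact Submodule.finrank_mono hle
  rw [linearIndependent_iff_finset_linearIndependent]
  intro s
  set N : ℕ := s.sup fun μ => μ.degree with hN
  have hs : ∀ μ ∈ s, μ ∈ mons (Finset.univ : Finset σ) N := by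
    intro μ hμ
    rw [mem_mons]
    exact ⟨Finset.subset_univ _, Finset.le_sup (f := fun μ : σ →₀ ℕ => μ.degree) hμ⟩
  exact (key N).comp (fun x : s => (⟨x.1, hs x.1 x.2⟩ : (mons (Finset.univ : Finset σ) N)))
    (fun x y hxy => by
      simp only [Subtype.mk.injEq] at hxy
      exact Subtype.ext hxy)

end Pool.Agent.Work.MP_35c45d_lc.SE
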