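import Pool.Agent.Work.MP_35c45d_lc.SEDefs

/-! # Counting monomials with small exponents in a set of variables -/

set_option autoImplicit false

namespace Pool.Agent.Work.MP_35c45d_lc.SE

open SD

/-- the monomials of degree at most `l` whose exponent at `q` is at least `d` -/
theorem card_bad {σ : Type} [Fintype σ] [DecidableEq σ] (q : σ) (d l : ℕ) (z : ℝ)
    (hz : z = (Fintype.card σ : ℝ) / ((Fintype.card σ + l : ℕ) : ℝ)) :
    (((mons (Finset.univ : Finset σ) l).filter fun μ => d ≤ μ q).card : ℝ) ≤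
      (1 - z) ^ d * ((Fintype.card σ + l).choose l : ℝ) := by
  classical
  have hN : 0 < Fintype.card σ := Fintype.card_pos_iff.2 ⟨q⟩
  have hNr : (0 : ℝ) < (Fintype.card σ : ℝ) := by exact_mod_cast hN
  have h1z : 1 - z = (l : ℝ) / ((Fintype.card σ : ℝ) + l) := by
    rw [hz, Nat.cast_add]
    have : (0 : ℝ) < (Fintype.card σ : ℝ) + l := by positivity
    field_simp
    ring
  by_cases hl : d ≤ l
  · refine le_trans ?_ (h1z ▸ choose_ratio' (Fintype.card σ) l d hl hN)
    rw [← (show (mons (Finset.univ : Finset σ) (l - d)).card =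
      (Fintype.card σ + (l - d)).choose (l - d) by rw [card_mons, Finset.card_univ])]
    norm_cast
    refine Finset.card_le_card_of_injOn (fun μ => μ - Finsupp.single q d) ?_ ?_
    · intro μ hμ
      rw [Finset.coe_filter, Set.mem_ofPred_eq, mem_mons] at hμ
      rw [Finset.mem_coe, mem_mons]
      refine ⟨Finset.subset_univ _, ?_⟩
      have h2 : μ = (μ - Finsupp.single q d) + Finsupp.single q d := by
        rw [tsub_add_cancel_of_le]
        exact Finsupp.single_le_iff.2 hμ.2
      have h3 := congrArg Finsupp.degree h2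
      rw [map_add, Finsupp.degree_single] at h3
      have h4 := hμ.1.2
      change (μ - Finsupp.single q d).degree ≤ l - d
      omega
    · intro μ hμ μ' hμ' hh
      rw [Finset.coe_filter, Set.mem_ofPred_eq] at hμ hμ'
      have h2 : ∀ ν : σ →₀ ℕ, d ≤ ν q →
          (ν - Finsupp.single q d) + Finsupp.single q d = ν := fun ν hν =>
        tsub_add_cancel_of_le (Finsupp.single_le_iff.2 hν)
      rw [← h2 μ hμ.2, ← h2 μ' hμ'.2]
      simp only at hh
      rw [hh]
  · have : ((mons (Finset.univ : Finset σ) l).filter fun μ => d ≤ μ q) = ∅ := by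
      rw [Finset.filter_eq_empty_iff]
      intro μ hμ hq
      rw [mem_mons] at hμ
      have h3 : μ q ≤ μ.degree := Finsupp.le_degree _ _
      have h4 := hμ.2
      omega
    rw [this, Finset.card_empty, Nat.cast_zero]
    have h5 : 0 ≤ 1 - z := by rw [h1z]; positivity
    positivity

/-- At least half of the monomials of degree at most `l` have small exponents at all `q` in `B`. -/
theorem card_good {σ : Type} [Fintype σ] [DecidableEq σ] [Nonempty σ] (B : Finset σ) (d l : ℕ)
    (z : ℝ) (hz : z = (Fintype.card σ : ℝ) / ((Fintype.card σ + l : ℕ) : ℝ))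
    (h : 2 * (B.card : ℝ) * (1 - z) ^ d ≤ 1) :
    ((Fintype.card σ + l).choose l : ℝ) / 2 ≤
      (((mons (Finset.univ : Finset σ) l).filter fun μ => ∀ q ∈ B, μ q < d).card : ℝ) := by
  classical
  have hcard : (mons (Finset.univ : Finset σ) l).card = (Fintype.card σ + l).choose l := by
    rw [card_mons, Finset.card_univ]
  have hunion : (mons (Finset.univ : Finset σ) l) ⊆
      ((mons (Finset.univ : Finset σ) l).filter fun μ => ∀ q ∈ B, μ q < d) ∪
      B.biUnion fun q => ((mons (Finset.univ : Finset σ) l).filter fun μ => d ≤ μ q) := by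
    intro μ hμ
    rw [Finset.mem_union, Finset.mem_filter, Finset.mem_biUnion]
    by_cases hq : ∀ q ∈ B, μ q < d
    · exact Or.inl ⟨hμ, hq⟩
    · push Not at hq
      obtain ⟨q, hqB, hq⟩ := hq
      exact Or.inr ⟨q, hqB, Finset.mem_filter.2 ⟨hμ, hq⟩⟩
  have hle := (Finset.card_le_card hunion).trans (Finset.card_union_le _ _)
  have hle2 := hle.trans (Nat.add_le_add_left Finset.card_biUnion_le _)
  rw [hcard] at hle2
  have hle3 : ((Fintype.card σ + l).choose l : ℝ) ≤
      (((mons (Finset.univ : Finset σ) l).filter fun μ => ∀ q ∈ B, μ q < d).card : ℝ) +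
        ∑ q ∈ B, (((mons (Finset.univ : Finset σ) l).filter fun μ => d ≤ μ q).card : ℝ) := by
    exact_mod_cast hle2
  have hsum : ∑ q ∈ B, (((mons (Finset.univ : Finset σ) l).filter fun μ => d ≤ μ q).card : ℝ) ≤
      (B.card : ℝ) * ((1 - z) ^ d * ((Fintype.card σ + l).choose l : ℝ)) := by
    refine (Finset.sum_le_card_nsmul _ _ _ fun q _ => card_bad q d l z hz).trans ?_
    rw [nsmul_eq_mul]
  have hC : (0 : ℝ) ≤ ((Fintype.card σ + l).choose l : ℝ) := by positivity
  nlinarith [mul_le_mul_of_nonneg_right h hC]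

theorem exists_good {σ : Type} [Fintype σ] [DecidableEq σ] [Nonempty σ] (B : Finset σ) (d l : ℕ)
    (z : ℝ) (hz : z = (Fintype.card σ : ℝ) / ((Fintype.card σ + l : ℕ) : ℝ))
    (h : 2 * (B.card : ℝ) * (1 - z) ^ d ≤ 1) :
    ∃ s : Finset (σ →₀ ℕ), (∀ μ ∈ s, μ ∈ mons (Finset.univ : Finset σ) l ∧ ∀ q ∈ B, μ q < d) ∧
      ((Fintype.card σ + l).choose l : ℝ) / 2 ≤ (s.card : ℝ) :=
  ⟨_, fun μ hμ => by rw [Finset.mem_filter] at hμ; exact hμ, card_good B d l z hz h⟩

theorem goodE_card (k T L D n l : ℕ) (hk : 1 ≤ k) (hT : 1 ≤ T) (hL : D ≤ L) (hL1 : 1 ≤ L) (z : ℝ)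
    (hz : z = ((k * (T * L) + n : ℕ) : ℝ) / ((k * (T * L) + n + l : ℕ) : ℝ))
    (h : 2 * ((k * (T * L) : ℕ) : ℝ) * (1 - z) ^ (D - 1) ≤ 1) :
    ((T * (L - (D - 1)) : ℕ) : ℝ) ^ k / 2 * ((k * (T * L) + n + l).choose l : ℝ) ≤
      ((goodE k T L D n l).card : ℝ) := by
  have hcs : Fintype.card ((Fin k × Fin T × Fin L) ⊕ Fin n) = k * (T * L) + n := by
    rw [Fintype.card_sum, Fintype.card_prod, Fintype.card_prod, Fintype.card_fin, Fintype.card_fin,
      Fintype.card_fin, Fintype.card_fin]
  have hpos : 0 < k * (T * L) + n := by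
    have : 1 ≤ k * (T * L) := Nat.mul_pos hk (Nat.mul_pos hT hL1)
    omega
  have : Nonempty ((Fin k × Fin T × Fin L) ⊕ Fin n) := by
    rw [← Fintype.card_pos_iff, hcs]
    exact hpos
  -- the free variables
  set B : Finset ((Fin k × Fin T × Fin L) ⊕ Fin n) :=
    (Finset.univ.filter fun q : Fin k × Fin T × Fin L => D - 1 ≤ (q.2.2 : ℕ)).map
      Function.Embedding.inl with hB
  have hBc : B.card ≤ k * (T * L) := by
    rw [hB, Finset.card_map]
    refine (Finset.card_le_univ _).trans ?_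
    rw [Fintype.card_prod, Fintype.card_prod, Fintype.card_fin, Fintype.card_fin, Fintype.card_fin]
  have hz01 : 0 ≤ 1 - z := by
    rw [hz, sub_nonneg]
    refine div_le_one_of_le₀ ?_ (by positivity)
    exact_mod_cast Nat.le_add_right _ _
  have hh : 2 * (B.card : ℝ) * (1 - z) ^ (D - 1) ≤ 1 := by
    refine le_trans ?_ h
    have : (B.card : ℝ) ≤ ((k * (T * L) : ℕ) : ℝ) := by exact_mod_cast hBc
    gcongr
  obtain ⟨s, hs, h1⟩ := exists_good B (D - 1) l z (by rw [hcs, hz]) hh
  rw [hcs] at h1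
  have h2 : ∀ s : Finset ((Fin k × Fin T × Fin L) ⊕ Fin n →₀ ℕ),
      (∀ μ ∈ s, μ ∈ mons (Finset.univ : Finset ((Fin k × Fin T × Fin L) ⊕ Fin n)) l ∧
        ∀ q ∈ B, μ q < D - 1) → (s.card : ℝ) ≤
      (((mons (Finset.univ : Finset ((Fin k × Fin T × Fin L) ⊕ Fin n)) l).filter
        fun μ => ∀ q : Fin k × Fin T × Fin L, D - 1 ≤ (q.2.2 : ℕ) →
      μ (Sum.inl q) < D - 1).card : ℝ) := by
    intro s hs
    refine Nat.cast_le.2 (Finset.card_le_card fun μ hμ => ?_)
    rw [Finset.mem_filter]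
    refine ⟨(hs μ hμ).1, fun q hq => (hs μ hμ).2 _ ?_⟩
    rw [hB]
    exact Finset.mem_map.2 ⟨q, by simpa using hq, rfl⟩
  replace h1 := h1.trans (h2 _ hs)
  -- the derivatives
  have h3 : (Finset.univ.filter fun a : Fin k → Fin T × Fin L => ∀ i, D - 1 ≤ ((a i).2 : ℕ)).card =
      (T * (L - (D - 1))) ^ k := by
    have h4 : (Finset.univ.filter fun a : Fin k → Fin T × Fin L => ∀ i, D - 1 ≤ ((a i).2 : ℕ)) =
        Fintype.piFinset fun _ : Fin k => (Finset.univ : Finset (Fin T)) ×ˢ
          (Finset.univ.filter fun v : Fin L => D - 1 ≤ (v : ℕ)) := by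
      ext a
      simp
    have h5 : (Finset.univ.filter fun v : Fin L => D - 1 ≤ (v : ℕ)).card = L - (D - 1) := by
      have h6 : (Finset.univ.filter fun v : Fin L => D - 1 ≤ (v : ℕ)).card +
          (Finset.univ.filter fun v : Fin L => ¬ (D - 1 ≤ (v : ℕ))).card = L := by
        rw [Finset.card_filter_add_card_filter_not, Finset.card_univ, Fintype.card_fin]
      have h7 : (Finset.univ.filter fun v : Fin L => ¬ (D - 1 ≤ (v : ℕ))).card = D - 1 := by
        have h8 : (Finset.univ.filter fun v : Fin L => ¬ (D - 1 ≤ (v : ℕ))) =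
            Finset.univ.filter fun v : Fin L => (v : ℕ) < D - 1 := by
          refine Finset.filter_congr fun v _ => ?_
          rw [not_le]
        rw [h8, Fin.card_filter_val_lt]
        omega
      omega
    rw [h4, Fintype.card_piFinset_const, Finset.card_product, Finset.card_univ, Fintype.card_fin, h5]
  rw [goodE, Finset.card_product, h3]
  push_cast
  rw [div_mul_eq_mul_div, mul_div_assoc]
  refine mul_le_mul_of_nonneg_left ?_ (by positivity)
  exact h1

end Pool.Agent.Work.MP_35c45d_lc.SE
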