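import Pool.Agent.Work.MP_35c45d_lc.SERule
import Pool.Agent.Work.MP_35c45d_lc.SECount
import Pool.Agent.Work.MP_35c45d_lc.SEGood

/-! # Shifted partial derivatives of products of sums of elementary symmetric functions

`SE.indep` is in `SERule`, `SE.goodE_card` in `SEGood`. -/

set_option autoImplicit false
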