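import Pool.Agent.Work.MP_35c45d_lc.FDSemi
import Pool.Agent.Work.MP_35c45d_lc.FDUb
import Pool.Agent.Work.MP_35c45d_lc.SELow

/-! # The inequality between the parameters -/

set_option autoImplicit false

namespace Pool.Agent.Work.MP_35c45d_lc.FD

open MvPolynomial Filter Topology SD SE

/-- Compare `SE.core_gen`; the shift is `l = ⌊N (D - 1) / (2 log (2 Nv))⌋`, `N = Nv + c * n`. -/
theorem core_gen {k D c n M w Nv : ℕ} (hk : 1 ≤ k) (hw : 1 ≤ w) (hNv : 2 ≤ Nv) (hD2 : 2 ≤ D)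
    (hD : 2 * Real.log (2 * (Nv : ℝ)) ≤ (D : ℝ) - 1) (G : ℕ → ℕ)
    (hgood : ∀ (l : ℕ) (z : ℝ), z = ((Nv + c * n : ℕ) : ℝ) / ((Nv + c * n + l : ℕ) : ℝ) →
      2 * (Nv : ℝ) * (1 - z) ^ (D - 1) ≤ 1 →
        (w : ℝ) ^ k / 2 * ((Nv + c * n + l).choose l : ℝ) ≤ (G l : ℝ))
    (hlim : ∀ l, G l ≤ M * ubF Nv c n k l) (δ : ℝ)
    (hδ : δ = 2 * Real.log (2 * (Nv : ℝ)) / ((D : ℝ) - 1))
    (hn : 1 + c + (2 * c * n ^ 2 * δ ^ 2 + 8 * k ^ 2 + c * n * δ) ≤ (w : ℝ) / 2) :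
    (2 : ℝ) ^ k ≤ 2 * M := by
  have hw1 : (1 : ℝ) ≤ w := by exact_mod_cast hw
  have hNv2 : (2 : ℝ) ≤ Nv := by exact_mod_cast hNv
  have hD2' : (2 : ℝ) ≤ D := by exact_mod_cast hD2
  set L : ℝ := Real.log (2 * (Nv : ℝ)) with hL
  have hL1 : 1 ≤ L := by
    rw [hL, Real.le_log_iff_exp_le (by linarith)]
    have := Real.exp_one_lt_d9
    linarith
  set d : ℝ := (D : ℝ) - 1 with hd
  have hd1 : 1 ≤ d := by rw [hd]; linarith
  -- the shift
  set N : ℝ := ((Nv + c * n : ℕ) : ℝ) with hN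
  have hN1 : 1 ≤ N := by
    rw [hN]
    have : 1 ≤ Nv + c * n := by omega
    exact_mod_cast this
  set l : ℕ := ⌊N * d / (2 * L)⌋₊ with hl
  have hlle : (l : ℝ) ≤ N * d / (2 * L) := Nat.floor_le (by positivity)
  have hllt : N * d / (2 * L) < l + 1 := Nat.lt_floor_add_one _
  set z : ℝ := N / ((Nv + c * n + l : ℕ) : ℝ) with hz
  have hNl : ((Nv + c * n + l : ℕ) : ℝ) = N + l := by
    rw [hN, Nat.cast_add (Nv + c * n) l]
  have hNlpos : 0 < N + l := by positivity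
  -- `z ≤ 2 L / d`
  have hz1 : z * d ≤ 2 * L := by
    rw [hz, hNl, div_mul_eq_mul_div, div_le_iff₀ hNlpos]
    have h1 : N * d ≤ (l + 1) * (2 * L) := by
      rw [← div_le_iff₀ (by linarith)]
      exact hllt.le
    nlinarith
  -- `z ≥ L / d`
  have hz2 : L ≤ z * d := by
    rw [hz, hNl, div_mul_eq_mul_div, le_div_iff₀ hNlpos]
    have h1 : (l : ℝ) * (2 * L) ≤ N * d := by
      rw [← le_div_iff₀ (by linarith)]
      exact hlle
    nlinarith
  have hz0 : 0 < z := by rw [hz, hNl]; positivity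
  have hz01 : z ≤ 1 := by
    rw [hz, hNl, div_le_one hNlpos]
    have : (0 : ℝ) ≤ l := Nat.cast_nonneg l
    linarith
  have hzδ : z ≤ δ := by
    rw [hδ, le_div_iff₀ (by linarith)]
    exact hz1
  -- the good monomials
  have hexp : 2 * (Nv : ℝ) * (1 - z) ^ (D - 1) ≤ 1 := by
    have h1 : (1 - z) ^ (D - 1) ≤ Real.exp (-L) := by
      have h2 : 1 - z ≤ Real.exp (-z) := by
        have := Real.add_one_le_exp (-z)
        linarith
      calc (1 - z) ^ (D - 1) ≤ (Real.exp (-z)) ^ (D - 1) :=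
            pow_le_pow_left₀ (by linarith) h2 _
        _ = Real.exp (-(z * d)) := by
            rw [← Real.exp_nat_mul, Nat.cast_sub (by omega), Nat.cast_one, ← hd]
            congr 1
            ring
        _ ≤ Real.exp (-L) := Real.exp_le_exp.2 (by linarith)
    have h3 : Real.exp (-L) = (2 * (Nv : ℝ))⁻¹ := by
      rw [Real.exp_neg, hL, Real.exp_log (by linarith)]
    rw [h3] at h1
    calc 2 * (Nv : ℝ) * (1 - z) ^ (D - 1) ≤ 2 * (Nv : ℝ) * (2 * (Nv : ℝ))⁻¹ :=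
          mul_le_mul_of_nonneg_left h1 (by positivity)
      _ = 1 := mul_inv_cancel₀ (by linarith)
  have hgood' := hgood l z (by rw [hz, hN]) hexp
  -- the upper bound
  have hub := ubF_le Nv c n k l (by omega) z (by rw [hz, hN])
  have hlim' : (G l : ℝ) ≤ M * (ubF Nv c n k l : ℝ) := by
    exact_mod_cast hlim l
  have hbase : 1 + c + (2 * c * n ^ 2 * z ^ 2 + 8 * k ^ 2 + c * n * z) ≤ (w : ℝ) / 2 := by
    refine le_trans ?_ hn
    have h1 : z ^ 2 ≤ δ ^ 2 := pow_le_pow_left₀ hz0.le hzδ 2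
    have h2 : 2 * (c : ℝ) * n ^ 2 * z ^ 2 ≤ 2 * c * n ^ 2 * δ ^ 2 :=
      mul_le_mul_of_nonneg_left h1 (by positivity)
    have h3 : (c : ℝ) * n * z ≤ c * n * δ := mul_le_mul_of_nonneg_left hzδ (by positivity)
    linarith
  set Ch : ℝ := ((Nv + c * n + l).choose l : ℝ) with hCh
  have hChpos : 0 < Ch := by
    rw [hCh]
    exact_mod_cast Nat.choose_pos (by omega)
  have hfin : (w : ℝ) ^ k / 2 ≤ M * ((w : ℝ) / 2) ^ k := by
    have h1 : (w : ℝ) ^ k / 2 * Ch ≤ M * (((w : ℝ) / 2) ^ k * Ch) := by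
      refine hgood'.trans (hlim'.trans ?_)
      refine mul_le_mul_of_nonneg_left (hub.trans ?_) (Nat.cast_nonneg M)
      refine mul_le_mul_of_nonneg_right (pow_le_pow_left₀ (by positivity) hbase k) hChpos.le
    have : (w : ℝ) ^ k / 2 * Ch ≤ M * ((w : ℝ) / 2) ^ k * Ch := by linarith
    exact le_of_mul_le_mul_right this hChpos
  rw [div_pow] at hfin
  have hppos : (0 : ℝ) < (w : ℝ) ^ k := by positivity
  have h2pos : (0 : ℝ) < (2 : ℝ) ^ k := by positivity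
  have h3 : (w : ℝ) ^ k / 2 * 2 ^ k ≤ M * (w : ℝ) ^ k := by
    calc (w : ℝ) ^ k / 2 * 2 ^ k ≤ (M * ((w : ℝ) ^ k / 2 ^ k)) * 2 ^ k :=
          mul_le_mul_of_nonneg_right hfin h2pos.le
      _ = M * (w : ℝ) ^ k := by field_simp
  have h4 : (w : ℝ) ^ k * 2 ^ k ≤ (w : ℝ) ^ k * (2 * M) := by nlinarith
  exact le_of_mul_le_mul_left h4 hppos

/-- the number of shifted derivatives is at most `M * ubF`; compare `SE.lim_ineq` -/
theorem lim_ineqF {k T L D c n M l : ℕ} (hD : 2 ≤ D) (hL : D ≤ L) {c1 : ℂ} (hc1 : c1 ≠ 0)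
    (h : LimFunDet M c n (C c1 * esf k T L D)) :
    (goodE k T L D (c * n) l).card ≤ M * ubF (k * (T * L)) c n k l := by
  classical
  obtain ⟨b, hb, hli⟩ := indep (k := k) (T := T) (L := L) (D := D) (n := c * n) (l := l) hD hL
  have h1 := lim_cardF (k := k) (l := l) h (α := goodE k T L D (c * n) l)
    (fun x i => (i, x.1.1 i)) (fun x => b x.1.2) (fun x => ?_) ?_
  · rw [Fintype.card_coe, Fintype.card_prod, Fintype.card_prod, Fintype.card_fin, Fintype.card_fin,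
      Fintype.card_fin] at h1
    exact h1
  · refine (hb _).trans ?_
    exact (mem_mons.1 (Finset.mem_filter.1 (Finset.mem_product.1 x.2).2).1).2
  · have h2 := hli.units_smul (fun _ => Units.mk0 c1 hc1)
    convert h2 using 1
    funext x
    change _ = (Units.mk0 c1 hc1) • (b x.1.2 * dk (fun i => (i, x.1.1 i))
      (rename Sum.inl (esf k T L D)))
    rw [dk_eq, dk_eq, map_mul, rename_C, ← smul_eq_C_mul, map_smul, mul_smul_comm]
    rfl

theorem core {k T L D c n M w : ℕ} (hk : 1 ≤ k) (hT : 1 ≤ T) (hD2 : 2 ≤ D) (hL : D ≤ L)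
    (hw : w = T * (L - (D - 1)))
    (hD : 2 * Real.log (2 * k * (T * L)) ≤ (D : ℝ) - 1) {c1 : ℂ} (hc1 : c1 ≠ 0)
    (h : LimFunDet M c n (C c1 * esf k T L D)) (δ : ℝ)
    (hδ : δ = 2 * Real.log (2 * k * (T * L)) / ((D : ℝ) - 1))
    (hn : 1 + c + (2 * c * n ^ 2 * δ ^ 2 + 8 * k ^ 2 + c * n * δ) ≤ (w : ℝ) / 2) :
    (2 : ℝ) ^ k ≤ 2 * M := by
  have hcast : 2 * ((k * (T * L) : ℕ) : ℝ) = 2 * k * (T * L) := by
    push_cast
    ring
  have hw1 : 1 ≤ w := by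
    rw [hw]
    exact Nat.mul_pos hT (by omega)
  have hNv : 2 ≤ k * (T * L) := by
    have h1 : 1 * (1 * L) ≤ k * (T * L) := Nat.mul_le_mul hk (Nat.mul_le_mul_right L hT)
    omega
  refine core_gen (k := k) (D := D) (c := c) (n := n) (M := M) (w := w) (Nv := k * (T * L))
    hk hw1 hNv hD2 (by rw [hcast]; exact hD) (fun l => (goodE k T L D (c * n) l).card)
    ?_ (fun l => lim_ineqF hD2 hL hc1 h) δ (by rw [hcast]; exact hδ) hn
  intro l z hz hexp
  rw [hw]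
  exact goodE_card k T L D (c * n) l hk hT hL (by omega) z hz hexp

end Pool.Agent.Work.MP_35c45d_lc.FD
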