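import Pool.Agent.Work.MP_35c45d_lc.SDDefs

/-! # Polynomial functions of determinants: definitions

The upper half of the theorem on limits of sums of `M` arbitrary polynomials in `c` determinants of
size `n`: derivatives of the outer function `Ψ (det Z_1, …, det Z_c)` in the entries of generic
matrices.
-/

set_option autoImplicit false

namespace Pool.Agent.Work.MP_35c45d_lc.FD

open MvPolynomial Filter Topology

/-- `f` is a coefficientwise limit of sums of `M` polynomials (of bounded degree) in `c` determinants of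
`n × n` matrices of affine linear forms. -/
def LimFunDet (M c n : ℕ) {ι : Type} (f : MvPolynomial ι ℂ) : Prop :=
  ∃ (D : ℕ) (Ψ : ℕ → Fin M → MvPolynomial (Fin c) ℂ)
    (A : ℕ → Fin M → Fin c → Matrix (Fin n) (Fin n) (MvPolynomial ι ℂ)),
    (∀ s t, (Ψ s t).totalDegree ≤ D) ∧ (∀ s t a i j, (A s t a i j).totalDegree ≤ 1) ∧
    ∀ d, Tendsto (fun s => coeff d (∑ t, aeval (fun a => (A s t a).det) (Ψ s t))) atTop
      (𝓝 (coeff d f))

/-- the entries of `c` matrices of size `n` -/
abbrev Ent (c n : ℕ) : Type := Fin c × Fin n × Fin n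

variable {c n : ℕ}

/-- generic matrices -/
noncomputable def Zm (a : Fin c) : Matrix (Fin n) (Fin n) (MvPolynomial (Ent c n) ℂ) :=
  Matrix.of fun i j => X (a, i, j)

/-- `Ψ (det Z_1, …, det Z_c)` -/
noncomputable def GG (n : ℕ) (Ψ : MvPolynomial (Fin c) ℂ) : MvPolynomial (Ent c n) ℂ :=
  aeval (fun a => (Zm (n := n) a).det) Ψ

/-- the Euler operators `T_a ∂ / ∂ T_a` -/
noncomputable def Eu (a : Fin c) (Ψ : MvPolynomial (Fin c) ℂ) : MvPolynomial (Fin c) ℂ :=
  X a * pderiv a Ψ

/-- products of Euler operators -/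
noncomputable def Eus : List (Fin c) → MvPolynomial (Fin c) ℂ → MvPolynomial (Fin c) ℂ
  | [], Ψ => Ψ
  | a :: β, Ψ => Eu a (Eus β Ψ)

/-- iterated derivatives -/
noncomputable def Dw {κ : Type} : List κ → (MvPolynomial κ ℂ →ₗ[ℂ] MvPolynomial κ ℂ)
  | [] => LinearMap.id
  | e :: w => (pderiv e).toLinearMap.comp (Dw w)

/-- the substitution: `Z_a` becomes `A_a + v diag (y_a)` -/
noncomputable def sb {ι : Type} (v : ℂ) (A : Fin c → Matrix (Fin n) (Fin n) (MvPolynomial ι ℂ)) :
    MvPolynomial (Ent c n) ℂ →ₐ[ℂ] MvPolynomial (ι ⊕ Fin (c * n)) ℂ :=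
  aeval fun e => rename Sum.inl (A e.1 e.2.1 e.2.2) +
    if e.2.1 = e.2.2 then C v * X (Sum.inr (finProdFinEquiv (e.1, e.2.1))) else 0

/-- the dummy variables met by a letter -/
def Vl (e : Ent c n) : Finset (Fin c × Fin n) := {(e.1, e.2.1), (e.1, e.2.2)}

/-- the dummy variables met by a word -/
def Vw : List (Ent c n) → Finset (Fin c × Fin n)
  | [] => ∅
  | e :: w => Vl e ∪ Vw w

/-- the dummy variables met by a word, given as a function -/
def Vf {K : ℕ} (w : Fin K → Ent c n) : Finset (Fin c × Fin n) :=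
  Finset.univ.biUnion fun i => Vl (w i)

/-- the upper bound: `N` variables, `c` determinants of size `n`, derivatives of order `k`, shifts of
degree at most `l` -/
def ubF (N c n k l : ℕ) : ℕ :=
  ∑ K ∈ Finset.range (k + 1), ∑ J ∈ Finset.range (k + 1 - K),
    c ^ J * ∑ w : Fin K → Ent c n, (N + (c * n - (Vf w).card) + l).choose l

end Pool.Agent.Work.MP_35c45d_lc.FD
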