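import Pool.Agent.Work.MP_35c45d_lc.SDLim

/-! # Functions of determinants: general lemmas on limits

Degree of substitutions, semicontinuity of the rank of a family of linear operators, choice of a small
parameter. -/

set_option autoImplicit false

namespace Pool.Agent.Work.MP_35c45d_lc.FD

open MvPolynomial Filter Topology SD

theorem totalDegree_aeval_le {κ σ : Type} (p : MvPolynomial κ ℂ) (φ : κ → MvPolynomial σ ℂ) (n : ℕ)
    (hφ : ∀ i, (φ i).totalDegree ≤ n) : (aeval φ p).totalDegree ≤ p.totalDegree * n := by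
  classical
  rw [aeval_def, eval₂_eq]
  refine totalDegree_finsetSum_le fun d hd => ?_
  refine (totalDegree_mul _ _).trans ?_
  have h1 : (algebraMap ℂ (MvPolynomial σ ℂ) (coeff d p)).totalDegree = 0 := totalDegree_C _
  rw [h1, zero_add]
  refine (totalDegree_finsetProd _ _).trans ?_
  calc ∑ i ∈ d.support, (φ i ^ d i).totalDegree ≤ ∑ i ∈ d.support, d i * n :=
        Finset.sum_le_sum fun i _ => (totalDegree_pow _ _).trans (Nat.mul_le_mul_left _ (hφ i))
    _ = (∑ i ∈ d.support, d i) * n := by rw [Finset.sum_mul]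
    _ ≤ p.totalDegree * n := Nat.mul_le_mul_right _ (le_totalDegree hd)

/-- semicontinuity of the rank -/
theorem semi {σ α : Type} [Fintype σ] [Fintype α] [DecidableEq α]
    (Λ : α → (MvPolynomial σ ℂ →ₗ[ℂ] MvPolynomial σ ℂ))
    (F : ℕ → MvPolynomial σ ℂ) (f : MvPolynomial σ ℂ) (N B : ℕ) (hdeg : ∀ s, (F s).totalDegree ≤ N)
    (hlim : ∀ d, Tendsto (fun s => coeff d (F s)) atTop (𝓝 (coeff d f)))
    (hli : LinearIndependent ℂ fun x => Λ x f)
    (hB : ∀ s, ∃ S : Submodule ℂ (MvPolynomial σ ℂ), FiniteDimensional ℂ S ∧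
      Module.finrank ℂ S ≤ B ∧ ∀ x, Λ x (F s) ∈ S) :
    Fintype.card α ≤ B := by
  by_contra hlt
  rw [not_le] at hlt
  set b : α → MvPolynomial σ ℂ := fun x => Λ x f with hb
  obtain ⟨Θ, hΘ⟩ := LinearMap.exists_leftInverse_of_injective (Finsupp.linearCombination ℂ b)
    (LinearMap.ker_eq_bot.2 hli)
  have hΘb : ∀ x, Θ (b x) = Finsupp.single x 1 := by
    intro x
    have h1 := LinearMap.congr_fun hΘ (Finsupp.single x 1)
    rw [LinearMap.comp_apply, Finsupp.linearCombination_single, one_smul] at h1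
    exact h1
  let Lf : α → α → (MvPolynomial σ ℂ →ₗ[ℂ] ℂ) := fun x y =>
    (Finsupp.lapply y).comp (Θ.comp (Λ x))
  let Z : ℕ → Matrix α α ℂ := fun s => Matrix.of fun x y => Lf x y (F s)
  have hZ : Tendsto Z atTop (𝓝 (1 : Matrix α α ℂ)) := by
    refine tendsto_pi_nhds.2 fun x => tendsto_pi_nhds.2 fun y => ?_
    have h1 := SQ.tendsto_linear N F f hdeg hlim (Lf x y)
    have h2 : Lf x y f = (1 : Matrix α α ℂ) x y := by
      change (Θ (b x)) y = _
      rw [hΘb, Finsupp.single_apply, Matrix.one_apply]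
    rw [← h2]
    exact h1
  have hdet : Tendsto (fun s => (Z s).det) atTop (𝓝 ((1 : Matrix α α ℂ).det)) :=
    ((Continuous.matrix_det continuous_id).tendsto _).comp hZ
  have hsing : ∀ s, (Z s).det = 0 := by
    intro s
    by_contra hne
    obtain ⟨S, hS, hSr, hu⟩ := hB s
    have hli1 : LinearIndependent ℂ (Z s).row := by
      rw [Matrix.linearIndependent_rows_iff_isUnit, Matrix.isUnit_iff_isUnit_det]
      exact isUnit_iff_ne_zero.2 hne
    let Θ' : MvPolynomial σ ℂ →ₗ[ℂ] (α → ℂ) :=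
      LinearMap.pi fun y => (Finsupp.lapply y).comp Θ
    have hli2 : LinearIndependent ℂ (fun x : α => Λ x (F s)) := by
      apply LinearIndependent.of_comp Θ'
      exact hli1
    have hli3 : LinearIndependent ℂ (fun x : α => (⟨_, hu x⟩ : S)) := by
      apply LinearIndependent.of_comp S.subtype
      exact hli2
    have h6 := hli3.fintype_card_le_finrank
    omega
  simp only [hsing] at hdet
  have h7 := tendsto_nhds_unique tendsto_const_nhds hdet
  rw [Matrix.det_one] at h7
  exact one_ne_zero h7.symm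

/-- a small parameter can be put into a limit -/
theorem exists_param {σ : Type} [Fintype σ] (N : ℕ) (G : ℕ → ℂ → MvPolynomial σ ℂ)
    (f : MvPolynomial σ ℂ) (hdeg : ∀ s v, (G s v).totalDegree ≤ N)
    (hcont : ∀ s d, Tendsto (fun v => coeff d (G s v)) (𝓝 0) (𝓝 (coeff d (G s 0))))
    (hlim : ∀ d, Tendsto (fun s => coeff d (G s 0)) atTop (𝓝 (coeff d f))) :
    ∃ v : ℕ → ℂ, (∀ s, v s ≠ 0) ∧
      ∀ d, Tendsto (fun s => coeff d (G s (v s))) atTop (𝓝 (coeff d f)) := by
  classical
  obtain ⟨T, hT⟩ := SQ.exists_expset (ι := σ) N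
  have hex : ∀ s : ℕ, ∃ v : ℂ, v ≠ 0 ∧ ∀ d ∈ T,
      dist (coeff d (G s v)) (coeff d (G s 0)) < 1 / ((s : ℝ) + 1) := by
    intro s
    have h1 : ∀ᶠ v in 𝓝[≠] (0 : ℂ), ∀ d ∈ T,
        dist (coeff d (G s v)) (coeff d (G s 0)) < 1 / ((s : ℝ) + 1) := by
      rw [Filter.eventually_all_finset]
      intro d _
      exact ((Metric.tendsto_nhds.mp (hcont s d)) _ (by positivity)).filter_mono
        nhdsWithin_le_nhds
    obtain ⟨v, hv, hv0⟩ := (h1.and self_mem_nhdsWithin).exists
    exact ⟨v, hv0, hv⟩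
  choose v hv0 hv using hex
  refine ⟨v, hv0, fun d => ?_⟩
  by_cases hd : d ∈ T
  · have h0 : Tendsto (fun t : ℕ => 1 / ((t : ℝ) + 1)) atTop (𝓝 0) :=
      tendsto_one_div_add_atTop_nhds_zero_nat
    have h2 : Tendsto (fun s => coeff d (G s (v s)) - coeff d (G s 0)) atTop (𝓝 0) := by
      rw [tendsto_zero_iff_norm_tendsto_zero]
      refine squeeze_zero (fun t => norm_nonneg _) (fun t => ?_) h0
      rw [← dist_eq_norm]
      exact (hv t d hd).le
    have h3 := h2.add (hlim d)
    simpa using h3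
  · have h1 : ∀ g : MvPolynomial σ ℂ, g.totalDegree ≤ N → coeff d g = 0 := by
      intro g hg
      by_contra h
      exact hd (hT g hg (mem_support_iff.mpr h))
    have h4 := hlim d
    simp only [fun s => h1 _ (hdeg s 0)] at h4
    rw [← tendsto_nhds_unique tendsto_const_nhds h4]
    simp only [fun s => h1 _ (hdeg s (v s))]
    exact tendsto_const_nhds

/-- coefficients of a polynomial in a parameter are continuous -/
theorem tendsto_eval {σ : Type} (P : Polynomial (MvPolynomial σ ℂ)) (d : σ →₀ ℕ) :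
    Tendsto (fun v : ℂ => coeff d (P.eval (C v))) (𝓝 0) (𝓝 (coeff d (P.eval (C 0)))) := by
  have h3 : ∀ v : ℂ, coeff d (P.eval (C v)) =
      ∑ j ∈ Finset.range (P.natDegree + 1), coeff d (P.coeff j) * v ^ j := by
    intro v
    rw [Polynomial.eval_eq_sum_range, coeff_sum]
    refine Finset.sum_congr rfl fun j _ => ?_
    rw [← C_pow, mul_comm, coeff_C_mul, mul_comm]
  simp only [h3]
  refine (Continuous.tendsto ?_ 0)
  fun_prop

/-- substitution of polynomials in a parameter -/
theorem eval_aeval {σ κ : Type} (Ψ : MvPolynomial κ ℂ) (φ : κ → Polynomial (MvPolynomial σ ℂ))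
    (v : ℂ) : (aeval φ Ψ).eval (C v) = aeval (fun a => (φ a).eval (C v)) Ψ := by
  let e : Polynomial (MvPolynomial σ ℂ) →ₐ[ℂ] MvPolynomial σ ℂ :=
    (Polynomial.aeval (C v : MvPolynomial σ ℂ)).restrictScalars ℂ
  have h : ∀ p, e p = p.eval (C v) := fun p => by
    change Polynomial.aeval (C v : MvPolynomial σ ℂ) p = _
    rw [Polynomial.coe_aeval_eq_eval]
  rw [← h, ← AlgHom.comp_apply, comp_aeval]
  simp only [h]

end Pool.Agent.Work.MP_35c45d_lc.FD
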