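import Pool.Agent.Work.MP_35c45d_lc.SDNumF

/-! # Numerics of the final bound for functions of determinants -/

set_option autoImplicit false

namespace Pool.Agent.Work.MP_35c45d_lc.FD

open Filter

/-- the inequality between the parameters, with `s = √x`, `y = m'`, `P = m ^ (ε / 16)` -/
theorem num_aux {c n k s δ P y c₀ R : ℝ} (hc : 0 ≤ c) (hn : 0 ≤ n) (hk : 0 ≤ k) (hs : 1 ≤ s)
    (hδ : 0 ≤ δ) (hP : 1 ≤ P) (hsy : s * P ^ 4 ≤ y) (h1c : 1 + c ≤ s ^ 2)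
    (hncs : n * √c ≤ s ^ 2) (hδy : δ * y ≤ P ^ 2) (hky : k * y ≤ s ^ 2) (hc₀ : 0 < c₀)
    (hPc : 24 ≤ c₀ * P) (hR : c₀ * y ^ 2 ≤ R * P) :
    1 + c + (2 * c * n ^ 2 * δ ^ 2 + 8 * k ^ 2 + c * n * δ) ≤ R / 2 := by
  have hs0 : 0 < s := by linarith
  have hP0 : 0 < P := by linarith
  have hP2 : 1 ≤ P ^ 2 := one_le_pow₀ hP
  have hP4 : 1 ≤ P ^ 4 := one_le_pow₀ hP
  have hsc : √c ≤ s := by
    rw [Real.sqrt_le_left hs0.le]
    linarith
  have hsc0 : 0 ≤ √c := Real.sqrt_nonneg c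
  have hcsq : √c ^ 2 = c := Real.sq_sqrt hc
  -- all terms are at most `t = s ^ 2 * P ^ 4` times a constant
  have hsyy : s ≤ y := by
    calc s = s * 1 := (mul_one s).symm
      _ ≤ s * P ^ 4 := by gcongr
      _ ≤ y := hsy
  have hsP : s ^ 2 * P ^ 2 ≤ y ^ 2 := by
    calc s ^ 2 * P ^ 2 ≤ s ^ 2 * (P ^ 2 * P ^ 6) := by
          gcongr
          exact le_mul_of_one_le_right (by positivity) (one_le_pow₀ hP)
      _ = (s * P ^ 4) ^ 2 := by ring
      _ ≤ y ^ 2 := by gcongr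
  have hs2y : s ^ 2 * P ^ 2 ≤ y ^ 2 := hsP
  have hδs : s * δ ≤ 1 := by
    have h1 : s * δ * P ^ 2 ≤ 1 * P ^ 2 := by
      calc s * δ * P ^ 2 ≤ s * δ * (P ^ 2 * P ^ 2) := by
            refine mul_le_mul_of_nonneg_left ?_ (by positivity)
            exact le_mul_of_one_le_right (by positivity) hP2
        _ = δ * (s * P ^ 4) := by ring
        _ ≤ δ * y := by gcongr
        _ ≤ P ^ 2 := hδy
        _ = 1 * P ^ 2 := (one_mul _).symm
    exact le_of_mul_le_mul_right h1 (by positivity)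
  have t1 : 2 * c * n ^ 2 * δ ^ 2 ≤ 2 * s ^ 2 := by
    calc 2 * c * n ^ 2 * δ ^ 2 = 2 * (n * √c) ^ 2 * δ ^ 2 := by rw [mul_pow, hcsq]; ring
      _ ≤ 2 * (s ^ 2) ^ 2 * δ ^ 2 := by gcongr
      _ = 2 * s ^ 2 * (s * δ) ^ 2 := by ring
      _ ≤ 2 * s ^ 2 * 1 ^ 2 := by gcongr
      _ = 2 * s ^ 2 := by ring
  have t2 : 8 * k ^ 2 ≤ 8 * s ^ 2 := by
    have h1 : k * s ≤ s * s := by
      calc k * s ≤ k * y := by gcongr
        _ ≤ s ^ 2 := hky
        _ = s * s := by ring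
    have h2 : k ≤ s := le_of_mul_le_mul_right h1 hs0
    gcongr
  have t3 : c * n * δ ≤ s ^ 2 := by
    calc c * n * δ = √c * (n * √c) * δ := by
          nth_rewrite 1 [← hcsq]
          ring
      _ ≤ s * s ^ 2 * δ := by gcongr
      _ = s ^ 2 * (s * δ) := by ring
      _ ≤ s ^ 2 * 1 := by gcongr
      _ = s ^ 2 := mul_one _
  have t4 : 24 * s ^ 2 ≤ R := by
    have h1 : 24 * s ^ 2 * P ≤ R * P := by
      calc 24 * s ^ 2 * P ≤ c₀ * P * s ^ 2 * P := by gcongr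
        _ = c₀ * (s ^ 2 * P ^ 2) := by ring
        _ ≤ c₀ * y ^ 2 := by gcongr
        _ ≤ R * P := hR
    exact le_of_mul_le_mul_right h1 hP0
  linarith

/-- The final numerics. Put `x = c + n * √c + m`. If `x ≥ m ^ (2 - ε)` there is nothing to prove.
Otherwise take `m' = ⌈√x * m ^ (ε / 4)⌉` and `k = m / m'`. -/
theorem num_final (ε : ℝ) (hε : 0 < ε) (hε1 : ε < 1) (c₀ : ℝ) (hc₀ : 0 < c₀)
    (m₀ : ℕ) (T Q : ℕ → ℕ) (hTQ : ∀ m', m₀ ≤ m' → 400 ≤ T m' * (Q m' + 1) ∧ T m' ≤ m' ∧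
      Q m' ≤ m' ∧ c₀ * (m' : ℝ) ^ (1 - ε / 16) ≤ (Q m' : ℝ) ∧
      c₀ * (m' : ℝ) ^ (2 - ε / 16) ≤ (T m' : ℝ) * (Q m' : ℝ)) :
    ∃ κ : ℝ, 0 < κ ∧ ∀ m c n M : ℕ, 1 ≤ m → 1 ≤ M →
      (∀ k m' : ℕ, 1 ≤ k → m₀ ≤ m' → k * m' ≤ m → ∀ δ : ℝ,
        δ = 2 * Real.log (2 * k * (T m' * (2 * Q m'))) / ((Q m' : ℝ) - 1) → 2 ≤ Q m' →
        2 * Real.log (2 * k * (T m' * (2 * Q m'))) ≤ (Q m' : ℝ) - 1 →
        1 + c + (2 * c * n ^ 2 * δ ^ 2 + 8 * k ^ 2 + c * n * δ) ≤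
          (T m' : ℝ) * (Q m' + 1) / 2 → (2 : ℝ) ^ k ≤ 2 * M) →
      κ * (m : ℝ) ^ (2 - ε) ≤ ((c : ℝ) + n * √c + m) * Real.log (M + 1) ^ 2 := by
  have hε16 : 0 < ε / 16 := by linarith
  have hev : ∀ᶠ x : ℝ in atTop, (m₀ : ℝ) ≤ x ^ (ε / 16) ∧ 2 ≤ x ^ (ε / 16) ∧
      24 / c₀ ≤ x ^ (ε / 16) ∧ 4 * Real.log 4 + 8 * Real.log x ≤ c₀ * x ^ (ε / 16) := by
    filter_upwards [(tendsto_rpow_atTop hε16).eventually_ge_atTop (m₀ : ℝ),
      (tendsto_rpow_atTop hε16).eventually_ge_atTop 2,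
      (tendsto_rpow_atTop hε16).eventually_ge_atTop (24 / c₀),
      SD.ev_log (4 * Real.log 4) 8 (ε / 16) c₀ hε16 hc₀ (by norm_num)] with x h1 h2 h3 h4
    exact ⟨h1, h2, h3, h4⟩
  obtain ⟨m1, hm1⟩ := eventually_atTop.mp (tendsto_natCast_atTop_atTop.eventually hev)
  refine ⟨min (1 / 256) (1 / (4 * ((m1 : ℝ) + 1) ^ 2)), by positivity, ?_⟩
  intro m c n M hm hM H
  have hm' : (1 : ℝ) ≤ m := by exact_mod_cast hm
  have hmpos : (0 : ℝ) < m := by linarith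
  have hM' : (1 : ℝ) ≤ M := by exact_mod_cast hM
  have hlog2 : (1 / 2 : ℝ) ≤ Real.log (M + 1) := by
    have h1 : Real.log 2 ≤ Real.log (M + 1) := Real.log_le_log (by norm_num) (by linarith)
    have h2 := Real.log_two_gt_d9
    linarith
  have hmp : (0 : ℝ) < (m : ℝ) ^ (2 - ε) := Real.rpow_pos_of_pos hmpos _
  have hncx : (0 : ℝ) ≤ n * √c := by positivity
  have hc0 : (0 : ℝ) ≤ c := by positivity
  set x : ℝ := (c : ℝ) + n * √c + m with hx
  have hx1 : 1 ≤ x := by linarith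
  have hx0 : 0 < x := by linarith
  by_cases hbig : m1 ≤ m
  swap
  · -- small `m`
    rw [not_le] at hbig
    have hb : (m : ℝ) ≤ m1 + 1 := by
      have : (m : ℝ) < m1 := by exact_mod_cast hbig
      linarith
    have h1 : (m : ℝ) ^ (2 - ε) ≤ ((m1 : ℝ) + 1) ^ 2 := by
      calc (m : ℝ) ^ (2 - ε) ≤ (m : ℝ) ^ (2 : ℝ) :=
            Real.rpow_le_rpow_of_exponent_le hm' (by linarith)
        _ = (m : ℝ) ^ 2 := by norm_cast
        _ ≤ _ := by gcongr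
    calc min (1 / 256) (1 / (4 * ((m1 : ℝ) + 1) ^ 2)) * (m : ℝ) ^ (2 - ε)
        ≤ 1 / (4 * ((m1 : ℝ) + 1) ^ 2) * ((m1 : ℝ) + 1) ^ 2 := by
          gcongr
          exact min_le_right _ _
      _ = 1 * (1 / 2) ^ 2 := by
          field_simp
          norm_num
      _ ≤ x * Real.log (M + 1) ^ 2 := by gcongr
  obtain ⟨hA, hB, hC, hD⟩ := hm1 m hbig
  set P : ℝ := (m : ℝ) ^ (ε / 16) with hP
  have hP0 : 0 < P := by linarith
  have hP1 : 1 ≤ P := by linarith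
  have hP16 : (m : ℝ) ^ (2 - ε) * P ^ 16 = (m : ℝ) ^ 2 := by
    rw [hP, ← Real.rpow_natCast, ← Real.rpow_mul hmpos.le, ← Real.rpow_add hmpos]
    have : 2 - ε + ε / 16 * ((16 : ℕ) : ℝ) = ((2 : ℕ) : ℝ) := by push_cast; ring
    rw [this, Real.rpow_natCast]
  by_cases hxb : (m : ℝ) ^ (2 - ε) ≤ x
  · calc min (1 / 256) (1 / (4 * ((m1 : ℝ) + 1) ^ 2)) * (m : ℝ) ^ (2 - ε)
        ≤ 1 / 256 * x := by
          gcongr
          exact min_le_left _ _
      _ ≤ x * (1 / 2) ^ 2 := by nlinarith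
      _ ≤ x * Real.log (M + 1) ^ 2 := by gcongr
  rw [not_le] at hxb
  -- the parameters
  set s : ℝ := √x with hs
  have hs2 : s ^ 2 = x := Real.sq_sqrt hx0.le
  have hs1 : 1 ≤ s := by rw [hs, Real.one_le_sqrt]; exact hx1
  have hs0 : 0 < s := by linarith
  set y : ℝ := s * P ^ 4 with hy
  have hP4 : 1 ≤ P ^ 4 := one_le_pow₀ hP1
  have hPy : P ≤ y := by
    calc P = 1 * P := (one_mul P).symm
      _ ≤ s * P ^ 4 := by
        gcongr
        exact le_self_pow₀ hP1 (by norm_num)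
  have hy1 : 1 ≤ y := hP1.trans hPy
  have hypos : 0 < y := by linarith
  set m' : ℕ := ⌈y⌉₊ with hm'def
  have hm'y : y ≤ (m' : ℝ) := Nat.le_ceil y
  have hm'2 : (m' : ℝ) ≤ 2 * y := by
    have := (Nat.ceil_lt_add_one (by linarith : 0 ≤ y)).le
    linarith
  have hm'pos : (0 : ℝ) < m' := by linarith
  have hm'posN : 0 < m' := by exact_mod_cast hm'pos
  have hy3 : 2 * y ≤ m := by
    have h1 : (2 * y) ^ 2 ≤ (m : ℝ) ^ 2 := by
      calc (2 * y) ^ 2 = x * (4 * P ^ 8) := by rw [hy, ← hs2]; ring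
        _ ≤ (m : ℝ) ^ (2 - ε) * (4 * P ^ 8) := by gcongr
        _ ≤ (m : ℝ) ^ (2 - ε) * P ^ 16 := by
          gcongr
          have h2 : 4 ≤ P ^ 8 := by
            calc (4 : ℝ) ≤ 2 ^ 8 := by norm_num
              _ ≤ P ^ 8 := by gcongr
          calc 4 * P ^ 8 ≤ P ^ 8 * P ^ 8 := by gcongr
            _ = P ^ 16 := by ring
        _ = (m : ℝ) ^ 2 := hP16
    exact le_of_sq_le_sq h1 hmpos.le
  have hm'm : m' ≤ m := by
    have : (m' : ℝ) ≤ m := hm'2.trans hy3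
    exact_mod_cast this
  have hm'mr : (m' : ℝ) ≤ m := by exact_mod_cast hm'm
  set k : ℕ := m / m' with hk
  have hk1 : 1 ≤ k := Nat.div_pos hm'm hm'posN
  have hkm : k * m' ≤ m := Nat.div_mul_le_self m m'
  have hkmr : (k : ℝ) * m' ≤ m := by exact_mod_cast hkm
  have hk2 : (m : ℝ) ≤ 2 * k * m' := by
    have h1 : m < (k + 1) * m' := by
      have h0 := Nat.lt_mul_div_succ m hm'posN
      rw [hk, mul_comm]
      exact h0
    have h2 : (m : ℝ) < (k + 1) * m' := by exact_mod_cast h1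
    have h3 : (1 : ℝ) ≤ k := by exact_mod_cast hk1
    nlinarith
  have hkpos : (0 : ℝ) < k := by exact_mod_cast hk1
  have hm0 : m₀ ≤ m' := by
    have : (m₀ : ℝ) ≤ m' := hA.trans (hPy.trans hm'y)
    exact_mod_cast this
  obtain ⟨hT1, hT2, hQ1, hQ2, hTQ1⟩ := hTQ m' hm0
  have hTpos : 1 ≤ T m' := by
    rcases Nat.eq_zero_or_pos (T m') with h | h
    · rw [h] at hT1
      omega
    · exact h
  have hTpos' : (1 : ℝ) ≤ T m' := by exact_mod_cast hTpos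
  have hPm' : (m' : ℝ) ^ (ε / 16) ≤ P := by
    rw [hP]
    gcongr
  have hQP : c₀ * m' ≤ Q m' * P := by
    have h1 : (m' : ℝ) = (m' : ℝ) ^ (1 - ε / 16) * (m' : ℝ) ^ (ε / 16) := by
      rw [← Real.rpow_add hm'pos]
      have : 1 - ε / 16 + ε / 16 = 1 := by ring
      rw [this, Real.rpow_one]
    have h3 : (0 : ℝ) < (m' : ℝ) ^ (1 - ε / 16) := Real.rpow_pos_of_pos hm'pos _
    calc c₀ * m' = c₀ * (m' : ℝ) ^ (1 - ε / 16) * (m' : ℝ) ^ (ε / 16) := by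
          rw [mul_assoc, ← h1]
      _ ≤ c₀ * (m' : ℝ) ^ (1 - ε / 16) * P := by gcongr
      _ ≤ Q m' * P := by gcongr
  have hTQP : c₀ * (m' : ℝ) ^ 2 ≤ (T m' : ℝ) * (Q m' + 1) * P := by
    have h1 : (m' : ℝ) ^ 2 = (m' : ℝ) ^ (2 - ε / 16) * (m' : ℝ) ^ (ε / 16) := by
      rw [← Real.rpow_add hm'pos]
      have : 2 - ε / 16 + ε / 16 = ((2 : ℕ) : ℝ) := by push_cast; ring
      rw [this, Real.rpow_natCast]
    have h3 : (0 : ℝ) < (m' : ℝ) ^ (2 - ε / 16) := Real.rpow_pos_of_pos hm'pos _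
    calc c₀ * (m' : ℝ) ^ 2 = c₀ * (m' : ℝ) ^ (2 - ε / 16) * (m' : ℝ) ^ (ε / 16) := by
          rw [mul_assoc, ← h1]
      _ ≤ c₀ * (m' : ℝ) ^ (2 - ε / 16) * P := by gcongr
      _ ≤ (T m' : ℝ) * Q m' * P := by gcongr
      _ ≤ (T m' : ℝ) * (Q m' + 1) * P := by
        gcongr
        linarith
  have hlogm : 0 ≤ Real.log m := Real.log_nonneg hm'
  have hlog4 : 1 ≤ Real.log 4 := by
    have h1 : Real.log 4 = 2 * Real.log 2 := by
      rw [show (4 : ℝ) = 2 ^ 2 by norm_num, Real.log_pow]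
      push_cast
      rfl
    have h2 := Real.log_two_gt_d9
    linarith
  have hc₀P : c₀ * P ≤ Q m' := by
    have h1 : c₀ * P * P ≤ Q m' * P := by
      calc c₀ * P * P = c₀ * (1 * P ^ 2) := by ring
        _ ≤ c₀ * (s * P ^ 4) := by
          gcongr
          norm_num
        _ ≤ c₀ * m' := by gcongr
        _ ≤ Q m' * P := hQP
    exact le_of_mul_le_mul_right h1 hP0
  have hQ4 : (4 : ℝ) ≤ Q m' := by linarith
  have hQpos : 0 < Q m' := by
    have : (0 : ℝ) < Q m' := by linarith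
    exact_mod_cast this
  have hQ2N : 2 ≤ Q m' := by
    have : ((2 : ℕ) : ℝ) ≤ Q m' := by push_cast; linarith
    exact_mod_cast this
  have hQpos' : (0 : ℝ) < Q m' := by linarith
  -- the logarithm
  have hlog : Real.log (2 * k * (T m' * (2 * Q m'))) ≤ Real.log 4 + 2 * Real.log m := by
    have h1 : 2 * (k : ℝ) * (T m' * (2 * Q m')) ≤ 4 * (m : ℝ) ^ 2 := by
      have e1 : k * (T m' * Q m') ≤ m * m := by
        calc k * (T m' * Q m') ≤ k * (m' * m') := by gcongr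
          _ = (k * m') * m' := by ring
          _ ≤ m * m := by gcongr
      have e2 : (k : ℝ) * (T m' * Q m') ≤ m * m := by exact_mod_cast e1
      nlinarith
    calc Real.log (2 * k * (T m' * (2 * Q m'))) ≤ Real.log (4 * (m : ℝ) ^ 2) :=
          Real.log_le_log (by positivity) h1
      _ = _ := by
          rw [Real.log_mul (by norm_num) (by positivity), Real.log_pow]
          push_cast
          rfl
  have hc1 : 2 * Real.log (2 * k * (T m' * (2 * Q m'))) ≤ (Q m' : ℝ) - 1 := by linarith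
  have hlog0 : 0 ≤ Real.log (2 * k * (T m' * (2 * Q m'))) := by
    apply Real.log_nonneg
    have h1 : 1 ≤ k * (T m' * Q m') := Nat.mul_pos hk1 (Nat.mul_pos hTpos hQpos)
    have h2 : (1 : ℝ) ≤ k * (T m' * Q m') := by exact_mod_cast h1
    nlinarith
  obtain ⟨δ, hδ⟩ : ∃ δ : ℝ,
      δ = 2 * Real.log (2 * k * (T m' * (2 * Q m'))) / ((Q m' : ℝ) - 1) := ⟨_, rfl⟩
  have hδ0 : 0 ≤ δ := by
    rw [hδ]
    exact div_nonneg (by linarith) (by linarith)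
  have hδy : δ * m' ≤ P ^ 2 := by
    have h1 : δ * (Q m' / 2) ≤ 2 * (Real.log 4 + 2 * Real.log m) := by
      calc δ * (Q m' / 2) ≤ δ * ((Q m' : ℝ) - 1) := by
            gcongr
            linarith
        _ = 2 * Real.log (2 * k * (T m' * (2 * Q m'))) := by
            rw [hδ]
            exact div_mul_cancel₀ _ (by linarith)
        _ ≤ _ := by linarith
    have h2 : δ * Q m' ≤ c₀ * P := by linarith
    have h3 : c₀ * (δ * m') ≤ c₀ * P ^ 2 := by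
      calc c₀ * (δ * m') = δ * (c₀ * m') := by ring
        _ ≤ δ * (Q m' * P) := by gcongr
        _ = (δ * Q m') * P := by ring
        _ ≤ c₀ * P * P := by gcongr
        _ = c₀ * P ^ 2 := by ring
    exact le_of_mul_le_mul_left h3 hc₀
  have hc2 : 1 + (c : ℝ) + (2 * c * n ^ 2 * δ ^ 2 + 8 * k ^ 2 + c * n * δ) ≤
      (T m' : ℝ) * (Q m' + 1) / 2 := by
    refine num_aux (s := s) (P := P) (y := m') (c₀ := c₀) hc0 (by positivity) hkpos.le hs1 hδ0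
      hP1 hm'y ?_ ?_ hδy ?_ hc₀ ?_ hTQP
    · rw [hs2]; linarith
    · rw [hs2]; linarith
    · rw [hs2]; linarith
    · rw [div_le_iff₀ hc₀] at hC
      linarith
  have hfin := H k m' hk1 hm0 hkm δ hδ hQ2N hc1 hc2
  -- `log (M + 1) ≥ k / 4`
  have hlk : (k : ℝ) / 4 ≤ Real.log (M + 1) := by
    have h1 : (2 : ℝ) ^ k ≤ (M + 1) ^ 2 := hfin.trans (by nlinarith)
    have h2 := Real.log_le_log (by positivity) h1
    rw [Real.log_pow, Real.log_pow] at h2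
    have h3 := Real.log_two_gt_d9
    push_cast at h2
    nlinarith
  calc min (1 / 256) (1 / (4 * ((m1 : ℝ) + 1) ^ 2)) * (m : ℝ) ^ (2 - ε)
      ≤ 1 / 256 * (m : ℝ) ^ (2 - ε) := by
        gcongr
        exact min_le_left _ _
    _ ≤ x * (k / 4) ^ 2 := by
        have h1 : (m : ℝ) ≤ 4 * k * y := by nlinarith
        have h3 : 1 / 256 * (m : ℝ) ^ (2 - ε) * P ^ 16 ≤ x * (k / 4) ^ 2 * P ^ 16 := by
          calc 1 / 256 * (m : ℝ) ^ (2 - ε) * P ^ 16 = 1 / 256 * ((m : ℝ) ^ (2 - ε) * P ^ 16) := by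
                ring
            _ = 1 / 256 * (m : ℝ) ^ 2 := by rw [hP16]
            _ ≤ 1 / 256 * (4 * k * y) ^ 2 := by gcongr
            _ = x * (k / 4) ^ 2 * P ^ 8 := by rw [hy, ← hs2]; ring
            _ ≤ x * (k / 4) ^ 2 * P ^ 16 := by
              gcongr
              norm_num
        exact le_of_mul_le_mul_right h3 (by positivity)
    _ ≤ _ := by gcongr

end Pool.Agent.Work.MP_35c45d_lc.FD
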