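import Mathlib

set_option autoImplicit false

namespace Pool.Agent.Work.MP_35c45d_lc.SD

open Finset Filter

theorem ev_log (C0 C1 b d : ℝ) (hb : 0 < b) (hd : 0 < d) (hC1 : 0 ≤ C1) :
    ∀ᶠ x : ℝ in atTop, C0 + C1 * Real.log x ≤ d * x ^ b := by
  have h1 := (isLittleO_log_rpow_atTop hb).bound (show (0 : ℝ) < d / (2 * (C1 + 1)) by positivity)
  have h2 := (tendsto_rpow_atTop hb).eventually_ge_atTop (2 * |C0| / d)
  filter_upwards [h1, h2, eventually_ge_atTop (1 : ℝ)] with x hx1 hx2 hx3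
  have hxb : 0 < x ^ b := Real.rpow_pos_of_pos (by linarith) _
  rw [Real.norm_of_nonneg (Real.log_nonneg hx3), Real.norm_of_nonneg hxb.le] at hx1
  have h3 : C1 * Real.log x ≤ d / 2 * x ^ b := by
    calc C1 * Real.log x ≤ C1 * (d / (2 * (C1 + 1)) * x ^ b) := by gcongr
      _ = (C1 / (C1 + 1)) * (d / 2 * x ^ b) := by field_simp
      _ ≤ 1 * (d / 2 * x ^ b) := by
        gcongr
        rw [div_le_one (by positivity)]
        linarith
      _ = _ := one_mul _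
  have h4 : C0 ≤ d / 2 * x ^ b := by
    rw [div_le_iff₀ hd] at hx2
    have := le_abs_self C0
    linarith
  linarith

/-- The final numerics. Take `m' ≈ (n / m) ^ 2 * m ^ (ε / 2)`, `k = m / m'`. If `n ^ 2 ≥ m ^ (3 - ε)`
there is nothing to prove (`log (M + 1) ≥ log 2`). -/
theorem num_final (ε : ℝ) (hε : 0 < ε) (hε1 : ε < 1) (c : ℝ) (hc : 0 < c) (E : ℝ) (hE : 0 < E)
    (m₀ : ℕ) (P Q : ℕ → ℕ) (hPQ : ∀ m', m₀ ≤ m' → 400 ≤ P m' ∧ (P m' : ℝ) ≤ (m' : ℝ) ^ E ∧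
      c * (m' : ℝ) ^ (1 / E) ≤ (Q m' : ℝ) ∧
      c * (m' : ℝ) ^ (3 - ε / 8) ≤ (P m' : ℝ) * (Q m' : ℝ) ^ 2) :
    ∃ c' : ℝ, 0 < c' ∧ ∀ m n M : ℕ, 1 ≤ m → m ≤ n → 1 ≤ M →
      (∀ k m' : ℕ, 1 ≤ k → m₀ ≤ m' → k * m' ≤ m →
        2 * Real.log (2 * k * P m') ≤ (Q m' : ℝ) - 1 →
        12 * n * Real.log (2 * k * P m') ≤ k * ((Q m' : ℝ) - 1) * √(P m') → (2 : ℝ) ^ k ≤ 2 * M) →
      c' * (m : ℝ) ^ (3 - ε) ≤ (n : ℝ) ^ 2 * Real.log (M + 1) := by
  have hev : ∀ᶠ x : ℝ in atTop, (m₀ : ℝ) ≤ x ^ (ε / 2) ∧ 2 ≤ x ^ (ε / 2) ∧ 2 ≤ x ∧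
      (2 * Real.log 2 + 1) + 2 * (1 + E) * Real.log x ≤ c * x ^ (ε / 2 * (1 / E)) ∧
      12 * Real.log 2 + 12 * (1 + E) * Real.log x ≤ √c / 4 * x ^ (ε / 8) := by
    have hsc : 0 < √c := Real.sqrt_pos.mpr hc
    filter_upwards [(tendsto_rpow_atTop (half_pos hε)).eventually_ge_atTop (m₀ : ℝ),
      (tendsto_rpow_atTop (half_pos hε)).eventually_ge_atTop 2, eventually_ge_atTop (2 : ℝ),
      ev_log (2 * Real.log 2 + 1) (2 * (1 + E)) (ε / 2 * (1 / E)) c (by positivity) hc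
        (by positivity),
      ev_log (12 * Real.log 2) (12 * (1 + E)) (ε / 8) (√c / 4) (by positivity) (by positivity)
        (by positivity)] with x h1 h2 h3 h4 h5
    exact ⟨h1, h2, h3, h4, h5⟩
  obtain ⟨m1, hm1⟩ := eventually_atTop.mp (tendsto_natCast_atTop_atTop.eventually hev)
  refine ⟨min (1 / 16) (1 / (2 * ((m1 : ℝ) + 1) ^ 3)), by positivity, ?_⟩
  intro m n M hm hmn hM H
  have hm' : (1 : ℝ) ≤ m := by exact_mod_cast hm
  have hmpos : (0 : ℝ) < m := by linarith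
  have hmn' : (m : ℝ) ≤ n := by exact_mod_cast hmn
  have hnpos : (0 : ℝ) < n := by linarith
  have hM' : (1 : ℝ) ≤ M := by exact_mod_cast hM
  have hlog2 : (1 / 2 : ℝ) ≤ Real.log (M + 1) := by
    have h1 : Real.log 2 ≤ Real.log (M + 1) := Real.log_le_log (by norm_num) (by linarith)
    have h2 := Real.log_two_gt_d9
    linarith
  have hmp : (0 : ℝ) < (m : ℝ) ^ (3 - ε) := Real.rpow_pos_of_pos hmpos _
  by_cases hbig : m1 ≤ m
  swap
  · -- small `m`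
    rw [not_le] at hbig
    have hb : (m : ℝ) ≤ m1 + 1 := by
      have : (m : ℝ) < m1 := by exact_mod_cast hbig
      linarith
    have h1 : (m : ℝ) ^ (3 - ε) ≤ ((m1 : ℝ) + 1) ^ 3 := by
      calc (m : ℝ) ^ (3 - ε) ≤ (m : ℝ) ^ (3 : ℝ) :=
            Real.rpow_le_rpow_of_exponent_le hm' (by linarith)
        _ = (m : ℝ) ^ 3 := by norm_cast
        _ ≤ _ := by gcongr
    calc min (1 / 16) (1 / (2 * ((m1 : ℝ) + 1) ^ 3)) * (m : ℝ) ^ (3 - ε)
        ≤ 1 / (2 * ((m1 : ℝ) + 1) ^ 3) * ((m1 : ℝ) + 1) ^ 3 := by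
          gcongr
          exact min_le_right _ _
      _ = 1 ^ 2 * (1 / 2) := by field_simp
      _ ≤ (n : ℝ) ^ 2 * Real.log (M + 1) := by
          gcongr
          linarith
  obtain ⟨hA, hB, hm2, hC, hD⟩ := hm1 m hbig
  by_cases hn : (m : ℝ) ^ (3 - ε) ≤ (n : ℝ) ^ 2
  · calc min (1 / 16) (1 / (2 * ((m1 : ℝ) + 1) ^ 3)) * (m : ℝ) ^ (3 - ε)
        ≤ 1 / 16 * (n : ℝ) ^ 2 := by
          gcongr
          exact min_le_left _ _
      _ ≤ (n : ℝ) ^ 2 * Real.log (M + 1) := by nlinarith [sq_nonneg (n : ℝ)]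
  rw [not_le] at hn
  -- the parameters
  set y : ℝ := ((n : ℝ) / m) ^ 2 * (m : ℝ) ^ (ε / 2) with hy
  have hnm : 1 ≤ (n : ℝ) / m := by rwa [one_le_div hmpos]
  have hym : (m : ℝ) ^ (ε / 2) ≤ y := by
    rw [hy]
    have h1 : (1 : ℝ) ≤ ((n : ℝ) / m) ^ 2 := one_le_pow₀ hnm
    have h2 : (0 : ℝ) ≤ (m : ℝ) ^ (ε / 2) := Real.rpow_nonneg hmpos.le _
    nlinarith
  have hy2 : 2 ≤ y := hB.trans hym
  set m' : ℕ := ⌈y⌉₊ with hm'def
  have hm'y : y ≤ (m' : ℝ) := Nat.le_ceil y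
  have hm'2 : (m' : ℝ) ≤ 2 * y := by
    have := (Nat.ceil_lt_add_one (by linarith : 0 ≤ y)).le
    linarith
  have hm'pos : (0 : ℝ) < m' := by linarith
  have hm'posN : 0 < m' := by exact_mod_cast hm'pos
  -- `(n / m) ^ 2 < m ^ (1 - ε)`
  have hnm2 : ((n : ℝ) / m) ^ 2 < (m : ℝ) ^ (1 - ε) := by
    rw [div_pow, div_lt_iff₀ (by positivity)]
    calc (n : ℝ) ^ 2 < (m : ℝ) ^ (3 - ε) := hn
      _ = (m : ℝ) ^ (1 - ε) * (m : ℝ) ^ 2 := by
        rw [← Real.rpow_natCast, ← Real.rpow_add hmpos]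
        congr 1
        push_cast
        ring
  have hy3 : 2 * y ≤ m := by
    calc 2 * y ≤ (m : ℝ) ^ (ε / 2) * ((m : ℝ) ^ (1 - ε) * (m : ℝ) ^ (ε / 2)) := by
          rw [hy]
          gcongr
      _ = m := by
        rw [← Real.rpow_add hmpos, ← Real.rpow_add hmpos]
        have : ε / 2 + (1 - ε + ε / 2) = 1 := by ring
        rw [this, Real.rpow_one]
  have hm'm : m' ≤ m := by
    have : (m' : ℝ) ≤ m := hm'2.trans hy3
    exact_mod_cast this
  set k : ℕ := m / m' with hk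
  have hk1 : 1 ≤ k := Nat.div_pos hm'm hm'posN
  have hkm : k * m' ≤ m := Nat.div_mul_le_self m m'
  have hkle : k ≤ m := Nat.div_le_self m m'
  have hk2 : (m : ℝ) ≤ 2 * k * m' := by
    have h1 : m < (k + 1) * m' := by
      have h0 := Nat.lt_mul_div_succ m hm'posN
      rw [hk, mul_comm]
      exact h0
    have h2 : (m : ℝ) < (k + 1) * m' := by exact_mod_cast h1
    have h3 : (1 : ℝ) ≤ k := by exact_mod_cast hk1
    nlinarith
  have hkpos : (0 : ℝ) < k := by exact_mod_cast hk1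
  have hm0 : m₀ ≤ m' := by
    have : (m₀ : ℝ) ≤ m' := hA.trans (hym.trans hm'y)
    exact_mod_cast this
  obtain ⟨hP1, hP2, hQ1, hPQ1⟩ := hPQ m' hm0
  have hPpos : (0 : ℝ) < P m' := by
    have : (400 : ℝ) ≤ P m' := by exact_mod_cast hP1
    linarith
  -- the logarithm
  have hlog : Real.log (2 * k * P m') ≤ Real.log 2 + (1 + E) * Real.log m := by
    have h1 : 2 * (k : ℝ) * P m' ≤ 2 * (m : ℝ) ^ (1 + E) := by
      have h2 : (P m' : ℝ) ≤ (m : ℝ) ^ E := hP2.trans (by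
        gcongr)
      calc 2 * (k : ℝ) * P m' ≤ 2 * (m : ℝ) * (m : ℝ) ^ E := by gcongr
        _ = 2 * (m : ℝ) ^ (1 + E) := by rw [Real.rpow_add hmpos, Real.rpow_one]; ring
    calc Real.log (2 * k * P m') ≤ Real.log (2 * (m : ℝ) ^ (1 + E)) :=
          Real.log_le_log (by positivity) h1
      _ = _ := by rw [Real.log_mul (by norm_num) (by positivity), Real.log_rpow hmpos]
  have hQlow : c * (m : ℝ) ^ (ε / 2 * (1 / E)) ≤ Q m' := by
    refine le_trans ?_ hQ1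
    rw [Real.rpow_mul hmpos.le]
    gcongr
    exact hym.trans hm'y
  have hc1 : 2 * Real.log (2 * k * P m') ≤ (Q m' : ℝ) - 1 := by linarith
  have hQ2 : (2 : ℝ) ≤ Q m' := by
    have h1 : 0 ≤ Real.log m := Real.log_nonneg hm'
    have h2 := Real.log_two_gt_d9
    have h3 : 0 ≤ 2 * (1 + E) * Real.log m := by positivity
    linarith
  -- the main inequality
  have hc2 : 12 * n * Real.log (2 * k * P m') ≤ k * ((Q m' : ℝ) - 1) * √(P m') := by
    have hexp : 0 < 1 / 2 - ε / 16 := by linarith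
    have h1 : √c * (m' : ℝ) ^ ((3 - ε / 8) / 2) ≤ Q m' * √(P m') := by
      have h2 : √(c * (m' : ℝ) ^ (3 - ε / 8)) ≤ √((P m' : ℝ) * (Q m' : ℝ) ^ 2) :=
        Real.sqrt_le_sqrt hPQ1
      rw [Real.sqrt_mul hc.le, Real.sqrt_mul hPpos.le, Real.sqrt_sq (by positivity)] at h2
      have h3 : √((m' : ℝ) ^ (3 - ε / 8)) = (m' : ℝ) ^ ((3 - ε / 8) / 2) := by
        rw [Real.sqrt_eq_rpow, ← Real.rpow_mul hm'pos.le]
        congr 1
        ring
      rw [h3] at h2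
      linarith
    have h4 : (n : ℝ) * (m : ℝ) ^ (ε / 8) ≤ m * (m' : ℝ) ^ (1 / 2 - ε / 16) := by
      have h5 : y ^ (1 / 2 - ε / 16) ≤ (m' : ℝ) ^ (1 / 2 - ε / 16) := by gcongr
      have h6 : y ^ (1 / 2 - ε / 16) =
          ((n : ℝ) / m) ^ (1 - ε / 8) * (m : ℝ) ^ (ε / 2 * (1 / 2 - ε / 16)) := by
        rw [hy, Real.mul_rpow (by positivity) (by positivity), ← Real.rpow_natCast,
          ← Real.rpow_mul (by positivity), ← Real.rpow_mul hmpos.le]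
        congr 2
        push_cast
        ring
      have h7 : ((n : ℝ) / m) * (m : ℝ) ^ (-(ε / 16)) ≤ ((n : ℝ) / m) ^ (1 - ε / 8) := by
        have h8 : ((n : ℝ) / m) ^ (1 - ε / 8) = ((n : ℝ) / m) * ((n : ℝ) / m) ^ (-(ε / 8)) := by
          rw [sub_eq_add_neg, Real.rpow_add (by positivity), Real.rpow_one]
        rw [h8]
        gcongr
        have h9 : (n : ℝ) / m ≤ (m : ℝ) ^ (1 / 2 : ℝ) := by
          rw [← Real.sqrt_eq_rpow]
          refine Real.le_sqrt_of_sq_le (hnm2.le.trans ?_)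
          calc (m : ℝ) ^ (1 - ε) ≤ (m : ℝ) ^ (1 : ℝ) :=
                Real.rpow_le_rpow_of_exponent_le hm' (by linarith)
            _ = m := Real.rpow_one _
        calc (m : ℝ) ^ (-(ε / 16)) = ((m : ℝ) ^ (1 / 2 : ℝ)) ^ (-(ε / 8)) := by
              rw [← Real.rpow_mul hmpos.le]
              congr 1
              ring
          _ ≤ ((n : ℝ) / m) ^ (-(ε / 8)) :=
              Real.rpow_le_rpow_of_nonpos (by positivity) h9 (by linarith)
      calc (n : ℝ) * (m : ℝ) ^ (ε / 8)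
          ≤ n * (m : ℝ) ^ (-(ε / 16) + ε / 2 * (1 / 2 - ε / 16)) := by
            gcongr
            nlinarith
        _ = m * (((n : ℝ) / m) * (m : ℝ) ^ (-(ε / 16)) *
              (m : ℝ) ^ (ε / 2 * (1 / 2 - ε / 16))) := by
            rw [Real.rpow_add hmpos]
            field_simp
        _ ≤ m * (((n : ℝ) / m) ^ (1 - ε / 8) * (m : ℝ) ^ (ε / 2 * (1 / 2 - ε / 16))) := by
            gcongr
        _ ≤ m * (m' : ℝ) ^ (1 / 2 - ε / 16) := by
            rw [← h6]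
            gcongr
    have h10 : m * (m' : ℝ) ^ (1 / 2 - ε / 16) ≤ 2 * k * (m' : ℝ) ^ ((3 - ε / 8) / 2) := by
      calc m * (m' : ℝ) ^ (1 / 2 - ε / 16) ≤ (2 * k * m') * (m' : ℝ) ^ (1 / 2 - ε / 16) := by
            gcongr
        _ = 2 * k * (m' : ℝ) ^ ((3 - ε / 8) / 2) := by
            have : (3 - ε / 8) / 2 = 1 + (1 / 2 - ε / 16) := by ring
            rw [this, Real.rpow_add hm'pos, Real.rpow_one]
            ring
    have hsP : 0 < √(P m' : ℝ) := Real.sqrt_pos.mpr hPpos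
    have h11 : Q m' * √(P m') ≤ 2 * (((Q m' : ℝ) - 1) * √(P m')) := by nlinarith
    calc 12 * n * Real.log (2 * k * P m')
        ≤ n * (12 * Real.log 2 + 12 * (1 + E) * Real.log m) := by nlinarith
      _ ≤ n * (√c / 4 * (m : ℝ) ^ (ε / 8)) := by gcongr
      _ = √c / 4 * (n * (m : ℝ) ^ (ε / 8)) := by ring
      _ ≤ √c / 4 * (2 * k * (m' : ℝ) ^ ((3 - ε / 8) / 2)) :=
          mul_le_mul_of_nonneg_left (h4.trans h10) (by positivity)
      _ = k / 2 * (√c * (m' : ℝ) ^ ((3 - ε / 8) / 2)) := by ring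
      _ ≤ k / 2 * (2 * (((Q m' : ℝ) - 1) * √(P m'))) :=
          mul_le_mul_of_nonneg_left (h1.trans h11) (by positivity)
      _ = _ := by ring
  have hfin := H k m' hk1 hm0 hkm hc1 hc2
  -- `log (M + 1) ≥ k / 4`
  have hlk : (k : ℝ) / 4 ≤ Real.log (M + 1) := by
    have h1 : (2 : ℝ) ^ k ≤ (M + 1) ^ 2 := hfin.trans (by nlinarith)
    have h2 := Real.log_le_log (by positivity) h1
    rw [Real.log_pow, Real.log_pow] at h2
    have h3 := Real.log_two_gt_d9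
    push_cast at h2
    nlinarith
  calc min (1 / 16) (1 / (2 * ((m1 : ℝ) + 1) ^ 3)) * (m : ℝ) ^ (3 - ε)
      ≤ 1 / 16 * (m : ℝ) ^ (3 - ε / 2) := by
        gcongr
        · exact min_le_left _ _
        · linarith
    _ ≤ (n : ℝ) ^ 2 * (k / 4) := by
        -- k ≥ m / (2 m') ≥ m / (4 y)
        have h1 : (m : ℝ) ≤ 4 * k * y := by nlinarith
        have h2 : (m : ℝ) ^ (3 - ε / 2) * y = (n : ℝ) ^ 2 * m := by
          rw [hy]
          have : (m : ℝ) ^ (3 - ε / 2) * (((n : ℝ) / m) ^ 2 * (m : ℝ) ^ (ε / 2)) =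
              ((n : ℝ) / m) ^ 2 * ((m : ℝ) ^ (3 - ε / 2) * (m : ℝ) ^ (ε / 2)) := by ring
          rw [this, ← Real.rpow_add hmpos]
          have h3 : 3 - ε / 2 + ε / 2 = ((3 : ℕ) : ℝ) := by push_cast; ring
          rw [h3, Real.rpow_natCast]
          field_simp
        have hypos : 0 < y := by linarith
        have h3 : 1 / 16 * (m : ℝ) ^ (3 - ε / 2) * y ≤ (n : ℝ) ^ 2 * (k / 4) * y := by
          calc 1 / 16 * (m : ℝ) ^ (3 - ε / 2) * y = 1 / 16 * ((m : ℝ) ^ (3 - ε / 2) * y) := by ring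
            _ = 1 / 16 * ((n : ℝ) ^ 2 * m) := by rw [h2]
            _ ≤ 1 / 16 * ((n : ℝ) ^ 2 * (4 * k * y)) := by gcongr
            _ = _ := by ring
        exact le_of_mul_le_mul_right h3 hypos
    _ ≤ _ := by gcongr

end Pool.Agent.Work.MP_35c45d_lc.SD
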