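import Pool.Agent.Work.MP_35c45d_lc.SQNum
import Pool.Agent.Work.MP_35c45d_lc.SDNumF

/-! # Numerics of the gadget and of the final bound -/

set_option autoImplicit false

namespace Pool.Agent.Work.MP_35c45d_lc.SE

open Finset Filter

/-- parameters of the gadget: `q = 2`, `T = d0 ^ K`, `D = D0 ^ K`, `L = 2 * D`. -/
theorem num_gadget (ε : ℝ) (hε : 0 < ε) (hε1 : ε < 1) {s0 d0 D0 : ℕ} (hD : 2 ≤ D0) (hDs : D0 < s0)
    (hd : 1 ≤ d0) (hds : d0 ≤ s0) (hcode : (s0 : ℝ) ^ (2 - ε) ≤ (d0 : ℝ) * (D0 : ℝ)) :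
    ∃ c : ℝ, 0 < c ∧ ∃ m₀ : ℕ, ∀ m, m₀ ≤ m → ∃ K : ℕ,
      s0 ^ K + ∑ i ∈ range K, d0 * D0 ^ (i + 1) * s0 ^ (K - 1 - i) + (2 - 1) * D0 ^ K ≤ m ∧
      400 ≤ d0 ^ K * (D0 ^ K + 1) ∧ d0 ^ K ≤ m ∧ D0 ^ K ≤ m ∧
      c * (m : ℝ) ^ (1 - ε) ≤ ((D0 ^ K : ℕ) : ℝ) ∧
      c * (m : ℝ) ^ (2 - ε) ≤ ((d0 ^ K : ℕ) : ℝ) * ((D0 ^ K : ℕ) : ℝ) := by
  have hs0 : 3 ≤ s0 := by omega
  have hs0pos : (0 : ℝ) < s0 := by positivity
  set B : ℕ := 1 + d0 * D0 with hB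
  have hB3 : 3 ≤ B := by rw [hB]; nlinarith
  have hBpos : (0 : ℝ) < B := by positivity
  set L : ℝ := 2 * B * s0 with hL
  have hLpos : 0 < L := by positivity
  refine ⟨min (L ^ (-(1 - ε))) (L ^ (-(2 - ε))), by positivity, 2 * B * s0 ^ 9, ?_⟩
  intro m hm
  set K : ℕ := Nat.log s0 (m / (2 * B)) with hK
  have hmB : s0 ^ 9 ≤ m / (2 * B) := by
    rw [Nat.le_div_iff_mul_le (by omega)]
    calc s0 ^ 9 * (2 * B) = 2 * B * s0 ^ 9 := by ring
      _ ≤ m := hm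
  have hK9 : 9 ≤ K := Nat.le_log_of_pow_le (by omega) hmB
  have hs9 : 1 ≤ s0 ^ 9 := Nat.one_le_pow _ _ (by omega)
  have hKlow : 2 * B * s0 ^ K ≤ m := by
    have h1 : s0 ^ K ≤ m / (2 * B) := Nat.pow_log_le_self s0 (by omega)
    rw [Nat.le_div_iff_mul_le (by omega)] at h1
    calc 2 * B * s0 ^ K = s0 ^ K * (2 * B) := by ring
      _ ≤ m := h1
  have hKup : m < 2 * B * s0 ^ (K + 1) := by
    have h1 : m / (2 * B) < s0 ^ (K + 1) := Nat.lt_pow_succ_log_self (by omega) _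
    rw [Nat.div_lt_iff_lt_mul (by omega)] at h1
    calc m < s0 ^ (K + 1) * (2 * B) := h1
      _ = 2 * B * s0 ^ (K + 1) := by ring
  have hDs' : D0 ^ K ≤ s0 ^ K := Nat.pow_le_pow_left hDs.le K
  have hds' : d0 ^ K ≤ s0 ^ K := Nat.pow_le_pow_left hds K
  have hdK : 1 ≤ d0 ^ K := Nat.one_le_pow _ _ (by omega)
  have hsK : s0 ^ K ≤ m := by
    calc s0 ^ K ≤ 2 * B * s0 ^ K := Nat.le_mul_of_pos_left _ (by omega)
      _ ≤ m := hKlow
  have hm1 : 1 ≤ m := le_trans (Nat.one_le_pow _ _ (by omega)) hsK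
  have hmpos : (0 : ℝ) < m := by exact_mod_cast hm1
  have h5 : (m : ℝ) / L ≤ (s0 : ℝ) ^ K := by
    rw [div_le_iff₀ hLpos, hL]
    have h6 : (m : ℝ) < 2 * B * (s0 : ℝ) ^ (K + 1) := by exact_mod_cast hKup
    calc (m : ℝ) ≤ 2 * B * (s0 : ℝ) ^ (K + 1) := h6.le
      _ = (s0 : ℝ) ^ K * (2 * B * s0) := by rw [pow_succ]; ring
  have hrp : ∀ t : ℝ, 0 ≤ t → ((m : ℝ) / L) ^ t ≤ ((s0 : ℝ) ^ t) ^ K := by
    intro t ht
    calc ((m : ℝ) / L) ^ t ≤ ((s0 : ℝ) ^ K) ^ t := Real.rpow_le_rpow (by positivity) h5 ht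
      _ = ((s0 : ℝ) ^ t) ^ K := by
          rw [← Real.rpow_natCast, ← Real.rpow_mul hs0pos.le, mul_comm, Real.rpow_mul hs0pos.le,
            Real.rpow_natCast]
  have hLm : ∀ t : ℝ, L ^ (-t) * (m : ℝ) ^ t = ((m : ℝ) / L) ^ t := by
    intro t
    rw [Real.div_rpow hmpos.le hLpos.le, Real.rpow_neg hLpos.le]
    field_simp
  refine ⟨K, ?_, ?_, hds'.trans hsK, hDs'.trans hsK, ?_, ?_⟩
  · have h1 := SQ.num_size (d := d0) hDs K
    rw [← hB] at h1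
    have h2 : B * s0 ^ K + s0 ^ K ≤ m := by
      calc B * s0 ^ K + s0 ^ K ≤ B * s0 ^ K + B * s0 ^ K := by
            gcongr
            exact Nat.le_mul_of_pos_left _ (by omega)
        _ = 2 * B * s0 ^ K := by ring
        _ ≤ m := hKlow
    omega
  · have h1 : 2 ^ 9 ≤ D0 ^ K := by
      calc 2 ^ 9 ≤ 2 ^ K := Nat.pow_le_pow_right (by omega) hK9
        _ ≤ D0 ^ K := Nat.pow_le_pow_left hD K
    calc 400 ≤ 1 * (2 ^ 9 + 1) := by norm_num
      _ ≤ d0 ^ K * (D0 ^ K + 1) := Nat.mul_le_mul hdK (by omega)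
  · have h7 : (s0 : ℝ) ^ (1 - ε) ≤ D0 := by
      have h8 : (s0 : ℝ) ^ (2 - ε) = s0 * (s0 : ℝ) ^ (1 - ε) := by
        rw [← Real.rpow_one_add' hs0pos.le (by linarith)]
        congr 1
        ring
      rw [h8] at hcode
      have h9 : (s0 : ℝ) * (s0 : ℝ) ^ (1 - ε) ≤ s0 * D0 := by
        refine hcode.trans ?_
        gcongr
      exact le_of_mul_le_mul_left h9 hs0pos
    calc min (L ^ (-(1 - ε))) (L ^ (-(2 - ε))) * (m : ℝ) ^ (1 - ε)
        ≤ L ^ (-(1 - ε)) * (m : ℝ) ^ (1 - ε) := by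
          gcongr
          exact min_le_left _ _
      _ = ((m : ℝ) / L) ^ (1 - ε) := hLm _
      _ ≤ ((s0 : ℝ) ^ (1 - ε)) ^ K := hrp _ (by linarith)
      _ ≤ (D0 : ℝ) ^ K := by gcongr
      _ = ((D0 ^ K : ℕ) : ℝ) := by push_cast; rfl
  · calc min (L ^ (-(1 - ε))) (L ^ (-(2 - ε))) * (m : ℝ) ^ (2 - ε)
        ≤ L ^ (-(2 - ε)) * (m : ℝ) ^ (2 - ε) := by
          gcongr
          exact min_le_right _ _
      _ = ((m : ℝ) / L) ^ (2 - ε) := hLm _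
      _ ≤ ((s0 : ℝ) ^ (2 - ε)) ^ K := hrp _ (by linarith)
      _ ≤ ((d0 : ℝ) * D0) ^ K := by gcongr
      _ = ((d0 ^ K : ℕ) : ℝ) * ((D0 ^ K : ℕ) : ℝ) := by push_cast; rw [mul_pow]

theorem ratio_bound {ε m n y' : ℝ} (hε : 0 < ε) (hε1 : ε < 1) (hm : 1 ≤ m) (hn : 0 < n)
    (h9 : n / m ≤ m) (hy' : n / m * m ^ (ε / 2) ≤ y') :
    n * m ^ (ε / 8) ≤ m * y' ^ (1 - 3 * ε / 16) := by
  have hmpos : 0 < m := by linarith
  have hexp : 0 < 1 - 3 * ε / 16 := by linarith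
  set y : ℝ := n / m * m ^ (ε / 2) with hy
  have hypos : 0 < y := by positivity
  have h5 : y ^ (1 - 3 * ε / 16) ≤ y' ^ (1 - 3 * ε / 16) := by gcongr
  have h6 : y ^ (1 - 3 * ε / 16) =
      (n / m) ^ (1 - 3 * ε / 16) * m ^ (ε / 2 * (1 - 3 * ε / 16)) := by
    rw [hy, Real.mul_rpow (by positivity) (by positivity), ← Real.rpow_mul hmpos.le]
  have h7 : (n / m) * m ^ (-(3 * ε / 16)) ≤ (n / m) ^ (1 - 3 * ε / 16) := by
    have h8 : (n / m) ^ (1 - 3 * ε / 16) = (n / m) * (n / m) ^ (-(3 * ε / 16)) := by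
      rw [sub_eq_add_neg, Real.rpow_add (by positivity), Real.rpow_one]
    rw [h8]
    refine mul_le_mul_of_nonneg_left ?_ (by positivity)
    exact Real.rpow_le_rpow_of_nonpos (by positivity) h9 (by linarith)
  calc n * m ^ (ε / 8) ≤ n * m ^ (-(3 * ε / 16) + ε / 2 * (1 - 3 * ε / 16)) := by
        refine mul_le_mul_of_nonneg_left ?_ hn.le
        refine Real.rpow_le_rpow_of_exponent_le hm ?_
        nlinarith
    _ = m * ((n / m) * m ^ (-(3 * ε / 16)) * m ^ (ε / 2 * (1 - 3 * ε / 16))) := by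
        rw [Real.rpow_add hmpos]
        field_simp
    _ ≤ m * ((n / m) ^ (1 - 3 * ε / 16) * m ^ (ε / 2 * (1 - 3 * ε / 16))) := by
        refine mul_le_mul_of_nonneg_left ?_ hmpos.le
        exact mul_le_mul_of_nonneg_right h7 (by positivity)
    _ ≤ m * y' ^ (1 - 3 * ε / 16) := by
        rw [← h6]
        exact mul_le_mul_of_nonneg_left h5 hmpos.le

/-- The final numerics. Take `m' ≈ (n / m) * m ^ (ε / 2)`, `k = m / m'`. If `n ≥ m ^ (2 - ε)`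
there is nothing to prove (`log (M + 1) ≥ log 2`). -/
theorem num_final (ε : ℝ) (hε : 0 < ε) (hε1 : ε < 1) (c : ℝ) (hc : 0 < c)
    (m₀ : ℕ) (T Q : ℕ → ℕ) (hTQ : ∀ m', m₀ ≤ m' → 400 ≤ T m' * (Q m' + 1) ∧ T m' ≤ m' ∧
      Q m' ≤ m' ∧ c * (m' : ℝ) ^ (1 - ε / 8) ≤ (Q m' : ℝ) ∧
      c * (m' : ℝ) ^ (2 - ε / 8) ≤ (T m' : ℝ) * (Q m' : ℝ)) :
    ∃ c' : ℝ, 0 < c' ∧ ∀ m n M : ℕ, 1 ≤ m → m ≤ n → 1 ≤ M →
      (∀ k m' : ℕ, 1 ≤ k → m₀ ≤ m' → k * m' ≤ m →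
        2 * Real.log (2 * k * (T m' * (2 * Q m'))) ≤ (Q m' : ℝ) - 1 →
        12 * n * Real.log (2 * k * (T m' * (2 * Q m'))) ≤
          k * ((Q m' : ℝ) - 1) * √(T m' * (Q m' + 1)) → (2 : ℝ) ^ k ≤ 2 * M) →
      c' * (m : ℝ) ^ (2 - ε) ≤ (n : ℝ) * Real.log (M + 1) := by
  have hsc : 0 < √c := Real.sqrt_pos.mpr hc
  have hexp1 : 0 < ε / 2 * (1 - ε / 8) := by
    have : 0 < 1 - ε / 8 := by linarith
    positivity
  have hev : ∀ᶠ x : ℝ in atTop, (m₀ : ℝ) ≤ x ^ (ε / 2) ∧ 2 ≤ x ^ (ε / 2) ∧ 2 ≤ x ∧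
      (2 * Real.log 4 + 1) + 4 * Real.log x ≤ c * x ^ (ε / 2 * (1 - ε / 8)) ∧
      12 * Real.log 4 + 24 * Real.log x ≤ c * √c / 4 * x ^ (ε / 8) := by
    filter_upwards [(tendsto_rpow_atTop (half_pos hε)).eventually_ge_atTop (m₀ : ℝ),
      (tendsto_rpow_atTop (half_pos hε)).eventually_ge_atTop 2, eventually_ge_atTop (2 : ℝ),
      SD.ev_log (2 * Real.log 4 + 1) 4 (ε / 2 * (1 - ε / 8)) c hexp1 hc
        (by positivity),
      SD.ev_log (12 * Real.log 4) 24 (ε / 8) (c * √c / 4) (by positivity) (by positivity)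
        (by positivity)] with x h1 h2 h3 h4 h5
    exact ⟨h1, h2, h3, h4, h5⟩
  obtain ⟨m1, hm1⟩ := eventually_atTop.mp (tendsto_natCast_atTop_atTop.eventually hev)
  refine ⟨min (1 / 16) (1 / (2 * ((m1 : ℝ) + 1) ^ 2)), by positivity, ?_⟩
  intro m n M hm hmn hM H
  have hm' : (1 : ℝ) ≤ m := by exact_mod_cast hm
  have hmpos : (0 : ℝ) < m := by linarith
  have hmn' : (m : ℝ) ≤ n := by exact_mod_cast hmn
  have hnpos : (0 : ℝ) < n := by linarith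
  have hM' : (1 : ℝ) ≤ M := by exact_mod_cast hM
  have hlog2 : (1 / 2 : ℝ) ≤ Real.log (M + 1) := by
    have h1 : Real.log 2 ≤ Real.log (M + 1) := Real.log_le_log (by norm_num) (by linarith)
    have h2 := Real.log_two_gt_d9
    linarith
  have hmp : (0 : ℝ) < (m : ℝ) ^ (2 - ε) := Real.rpow_pos_of_pos hmpos _
  by_cases hbig : m1 ≤ m
  swap
  · -- small `m`
    rw [not_le] at hbig
    have hb : (m : ℝ) ≤ m1 + 1 := by
      have : (m : ℝ) < m1 := by exact_mod_cast hbig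
      linarith
    have h1 : (m : ℝ) ^ (2 - ε) ≤ ((m1 : ℝ) + 1) ^ 2 := by
      calc (m : ℝ) ^ (2 - ε) ≤ (m : ℝ) ^ (2 : ℝ) :=
            Real.rpow_le_rpow_of_exponent_le hm' (by linarith)
        _ = (m : ℝ) ^ 2 := by norm_cast
        _ ≤ _ := by gcongr
    calc min (1 / 16) (1 / (2 * ((m1 : ℝ) + 1) ^ 2)) * (m : ℝ) ^ (2 - ε)
        ≤ 1 / (2 * ((m1 : ℝ) + 1) ^ 2) * ((m1 : ℝ) + 1) ^ 2 := by
          gcongr
          exact min_le_right _ _
      _ = 1 * (1 / 2) := by field_simp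
      _ ≤ (n : ℝ) * Real.log (M + 1) := by
          gcongr
          linarith
  obtain ⟨hA, hB, hm2, hC, hD⟩ := hm1 m hbig
  by_cases hn : (m : ℝ) ^ (2 - ε) ≤ (n : ℝ)
  · calc min (1 / 16) (1 / (2 * ((m1 : ℝ) + 1) ^ 2)) * (m : ℝ) ^ (2 - ε)
        ≤ 1 / 16 * (n : ℝ) := by
          gcongr
          exact min_le_left _ _
      _ ≤ (n : ℝ) * Real.log (M + 1) := by nlinarith
  rw [not_le] at hn
  -- the parameters
  set y : ℝ := ((n : ℝ) / m) * (m : ℝ) ^ (ε / 2) with hy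
  have hnm : 1 ≤ (n : ℝ) / m := by rwa [one_le_div hmpos]
  have hym : (m : ℝ) ^ (ε / 2) ≤ y := by
    rw [hy]
    have h2 : (0 : ℝ) ≤ (m : ℝ) ^ (ε / 2) := Real.rpow_nonneg hmpos.le _
    nlinarith
  have hy2 : 2 ≤ y := hB.trans hym
  have hypos : 0 < y := by linarith
  set m' : ℕ := ⌈y⌉₊ with hm'def
  have hm'y : y ≤ (m' : ℝ) := Nat.le_ceil y
  have hm'2 : (m' : ℝ) ≤ 2 * y := by
    have := (Nat.ceil_lt_add_one (by linarith : 0 ≤ y)).le
    linarith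
  have hm'pos : (0 : ℝ) < m' := by linarith
  have hm'posN : 0 < m' := by exact_mod_cast hm'pos
  -- `n / m < m ^ (1 - ε)`
  have hnm2 : (n : ℝ) / m < (m : ℝ) ^ (1 - ε) := by
    rw [div_lt_iff₀ (by positivity)]
    calc (n : ℝ) < (m : ℝ) ^ (2 - ε) := hn
      _ = (m : ℝ) ^ (1 - ε) * m := by
        rw [← Real.rpow_add_one hmpos.ne']
        congr 1
        ring
  have hy3 : 2 * y ≤ m := by
    calc 2 * y ≤ (m : ℝ) ^ (ε / 2) * ((m : ℝ) ^ (1 - ε) * (m : ℝ) ^ (ε / 2)) := by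
          rw [hy]
          gcongr
      _ = m := by
        rw [← Real.rpow_add hmpos, ← Real.rpow_add hmpos]
        have : ε / 2 + (1 - ε + ε / 2) = 1 := by ring
        rw [this, Real.rpow_one]
  have hm'm : m' ≤ m := by
    have : (m' : ℝ) ≤ m := hm'2.trans hy3
    exact_mod_cast this
  set k : ℕ := m / m' with hk
  have hk1 : 1 ≤ k := Nat.div_pos hm'm hm'posN
  have hkm : k * m' ≤ m := Nat.div_mul_le_self m m'
  have hk2 : (m : ℝ) ≤ 2 * k * m' := by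
    have h1 : m < (k + 1) * m' := by
      have h0 := Nat.lt_mul_div_succ m hm'posN
      rw [hk, mul_comm]
      exact h0
    have h2 : (m : ℝ) < (k + 1) * m' := by exact_mod_cast h1
    have h3 : (1 : ℝ) ≤ k := by exact_mod_cast hk1
    nlinarith
  have hkpos : (0 : ℝ) < k := by exact_mod_cast hk1
  have hm0 : m₀ ≤ m' := by
    have : (m₀ : ℝ) ≤ m' := hA.trans (hym.trans hm'y)
    exact_mod_cast this
  obtain ⟨hT1, hT2, hQ1, hQ2, hTQ1⟩ := hTQ m' hm0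
  have hTpos : 1 ≤ T m' := by
    rcases Nat.eq_zero_or_pos (T m') with h | h
    · rw [h] at hT1
      omega
    · exact h
  have hTpos' : (1 : ℝ) ≤ T m' := by exact_mod_cast hTpos
  have hQlow : c * (m : ℝ) ^ (ε / 2 * (1 - ε / 8)) ≤ Q m' := by
    refine le_trans ?_ hQ2
    rw [Real.rpow_mul hmpos.le]
    gcongr
    · linarith
    · exact hym.trans hm'y
  have hlogm : 0 ≤ Real.log m := Real.log_nonneg hm'
  have hlog4 : 1 ≤ Real.log 4 := by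
    have h1 : Real.log 4 = 2 * Real.log 2 := by
      rw [show (4 : ℝ) = 2 ^ 2 by norm_num, Real.log_pow]
      push_cast
      rfl
    have h2 := Real.log_two_gt_d9
    linarith
  have hQ3 : (3 : ℝ) ≤ Q m' := by linarith
  have hQpos : 0 < Q m' := by
    have : (0 : ℝ) < Q m' := by linarith
    exact_mod_cast this
  have hQpos' : (0 : ℝ) < Q m' := by linarith
  -- the logarithm
  have hlog : Real.log (2 * k * (T m' * (2 * Q m'))) ≤ Real.log 4 + 2 * Real.log m := by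
    have h1 : 2 * (k : ℝ) * (T m' * (2 * Q m')) ≤ 4 * (m : ℝ) ^ 2 := by
      have e1 : k * (T m' * Q m') ≤ m * m := by
        calc k * (T m' * Q m') ≤ k * (m' * m') := by gcongr
          _ = (k * m') * m' := by ring
          _ ≤ m * m := by gcongr
      have e2 : (k : ℝ) * (T m' * Q m') ≤ m * m := by exact_mod_cast e1
      nlinarith
    calc Real.log (2 * k * (T m' * (2 * Q m'))) ≤ Real.log (4 * (m : ℝ) ^ 2) :=
          Real.log_le_log (by positivity) h1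
      _ = _ := by
          rw [Real.log_mul (by norm_num) (by positivity), Real.log_pow]
          push_cast
          rfl
  have hc1 : 2 * Real.log (2 * k * (T m' * (2 * Q m'))) ≤ (Q m' : ℝ) - 1 := by linarith
  -- the main inequality
  have hc2 : 12 * n * Real.log (2 * k * (T m' * (2 * Q m'))) ≤
      k * ((Q m' : ℝ) - 1) * √(T m' * (Q m' + 1)) := by
    have h1 : √c * (m' : ℝ) ^ (1 - ε / 16) ≤ √(T m' * (Q m' + 1)) := by
      have h2 : √(c * (m' : ℝ) ^ (2 - ε / 8)) ≤ √((T m' : ℝ) * (Q m' + 1)) := by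
        apply Real.sqrt_le_sqrt
        refine hTQ1.trans ?_
        gcongr
        linarith
      rw [Real.sqrt_mul hc.le] at h2
      have h3 : √((m' : ℝ) ^ (2 - ε / 8)) = (m' : ℝ) ^ (1 - ε / 16) := by
        rw [Real.sqrt_eq_rpow, ← Real.rpow_mul hm'pos.le]
        congr 1
        ring
      rwa [h3] at h2
    have h4 : (n : ℝ) * (m : ℝ) ^ (ε / 8) ≤ m * (m' : ℝ) ^ (1 - 3 * ε / 16) := by
      refine ratio_bound hε hε1 hm' hnpos ?_ hm'y
      refine hnm2.le.trans ?_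
      calc (m : ℝ) ^ (1 - ε) ≤ (m : ℝ) ^ (1 : ℝ) :=
            Real.rpow_le_rpow_of_exponent_le hm' (by linarith)
        _ = m := Real.rpow_one _
    have h10 : m * (m' : ℝ) ^ (1 - 3 * ε / 16) ≤
        2 * k * ((m' : ℝ) ^ (1 - ε / 8) * (m' : ℝ) ^ (1 - ε / 16)) := by
      calc m * (m' : ℝ) ^ (1 - 3 * ε / 16) ≤ (2 * k * m') * (m' : ℝ) ^ (1 - 3 * ε / 16) := by
            gcongr
        _ = 2 * k * ((m' : ℝ) ^ (1 - ε / 8) * (m' : ℝ) ^ (1 - ε / 16)) := by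
            have h11 : (m' : ℝ) * (m' : ℝ) ^ (1 - 3 * ε / 16) =
                (m' : ℝ) ^ (1 - ε / 8) * (m' : ℝ) ^ (1 - ε / 16) := by
              rw [← Real.rpow_add hm'pos, ← Real.rpow_one_add' hm'pos.le (by linarith)]
              congr 1
              ring
            rw [← h11]
            ring
    have h12 : c * (m' : ℝ) ^ (1 - ε / 8) ≤ 2 * ((Q m' : ℝ) - 1) := by linarith
    have h13 : (0 : ℝ) < (m' : ℝ) ^ (1 - ε / 8) := Real.rpow_pos_of_pos hm'pos _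
    have h14 : (0 : ℝ) < (m' : ℝ) ^ (1 - ε / 16) := Real.rpow_pos_of_pos hm'pos _
    calc 12 * n * Real.log (2 * k * (T m' * (2 * Q m')))
        ≤ 12 * n * (Real.log 4 + 2 * Real.log m) := by gcongr
      _ = n * (12 * Real.log 4 + 24 * Real.log m) := by ring
      _ ≤ n * (c * √c / 4 * (m : ℝ) ^ (ε / 8)) := by gcongr
      _ = c * √c / 4 * (n * (m : ℝ) ^ (ε / 8)) := by ring
      _ ≤ c * √c / 4 * (2 * k * ((m' : ℝ) ^ (1 - ε / 8) * (m' : ℝ) ^ (1 - ε / 16))) :=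
          mul_le_mul_of_nonneg_left (h4.trans h10) (by positivity)
      _ = k / 2 * ((c * (m' : ℝ) ^ (1 - ε / 8)) * (√c * (m' : ℝ) ^ (1 - ε / 16))) := by ring
      _ ≤ k / 2 * ((2 * ((Q m' : ℝ) - 1)) * √(T m' * (Q m' + 1))) := by
          gcongr
          linarith
      _ = _ := by ring
  have hfin := H k m' hk1 hm0 hkm hc1 hc2
  -- `log (M + 1) ≥ k / 4`
  have hlk : (k : ℝ) / 4 ≤ Real.log (M + 1) := by
    have h1 : (2 : ℝ) ^ k ≤ (M + 1) ^ 2 := hfin.trans (by nlinarith)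
    have h2 := Real.log_le_log (by positivity) h1
    rw [Real.log_pow, Real.log_pow] at h2
    have h3 := Real.log_two_gt_d9
    push_cast at h2
    nlinarith
  calc min (1 / 16) (1 / (2 * ((m1 : ℝ) + 1) ^ 2)) * (m : ℝ) ^ (2 - ε)
      ≤ 1 / 16 * (m : ℝ) ^ (2 - ε / 2) := by
        gcongr
        · exact min_le_left _ _
        · linarith
    _ ≤ (n : ℝ) * (k / 4) := by
        -- k ≥ m / (2 m') ≥ m / (4 y)
        have h1 : (m : ℝ) ≤ 4 * k * y := by nlinarith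
        have h2 : (m : ℝ) ^ (2 - ε / 2) * y = (n : ℝ) * m := by
          rw [hy]
          have : (m : ℝ) ^ (2 - ε / 2) * (((n : ℝ) / m) * (m : ℝ) ^ (ε / 2)) =
              ((n : ℝ) / m) * ((m : ℝ) ^ (2 - ε / 2) * (m : ℝ) ^ (ε / 2)) := by ring
          rw [this, ← Real.rpow_add hmpos]
          have h3 : 2 - ε / 2 + ε / 2 = ((2 : ℕ) : ℝ) := by push_cast; ring
          rw [h3, Real.rpow_natCast]
          field_simp
        have h3 : 1 / 16 * (m : ℝ) ^ (2 - ε / 2) * y ≤ (n : ℝ) * (k / 4) * y := by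
          calc 1 / 16 * (m : ℝ) ^ (2 - ε / 2) * y = 1 / 16 * ((m : ℝ) ^ (2 - ε / 2) * y) := by ring
            _ = 1 / 16 * ((n : ℝ) * m) := by rw [h2]
            _ ≤ 1 / 16 * ((n : ℝ) * (4 * k * y)) := by gcongr
            _ = _ := by ring
        exact le_of_mul_le_mul_right h3 hypos
    _ ≤ _ := by gcongr

end Pool.Agent.Work.MP_35c45d_lc.SE
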