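import Pool.Agent.Work.MP_35c45d_lc.SDDefs
import Pool.Agent.Work.MP_35c45d_lc.CMSec
import Pool.Agent.Work.MP_35c45d_lc.SQEsym

/-! # Sections of the permanent -/

set_option autoImplicit false

namespace Pool.Agent.Work.MP_35c45d_lc.SD

open MvPolynomial

variable {κ κ' : Type}

theorem permP_eq (m : ℕ) : permP m = SQ.permPoly m := rfl

/-- substitution of affine forms does not raise the total degree -/
theorem totalDegree_aeval_le' (p : MvPolynomial κ ℂ) (φ : κ → MvPolynomial κ' ℂ)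
    (hφ : ∀ i, (φ i).totalDegree ≤ 1) : (aeval φ p).totalDegree ≤ p.totalDegree := by
  classical
  rw [aeval_def, eval₂_eq]
  refine totalDegree_finsetSum_le fun d hd => ?_
  refine (totalDegree_mul _ _).trans ?_
  rw [algebraMap_eq, totalDegree_C, zero_add]
  refine (totalDegree_finsetProd _ _).trans ?_
  refine le_trans (Finset.sum_le_sum fun i _ => ?_) (le_totalDegree hd)
  refine (totalDegree_pow _ _).trans ?_
  calc d i * (φ i).totalDegree ≤ d i * 1 := Nat.mul_le_mul_left _ (hφ i)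
    _ = d i := mul_one _

theorem aeval_permP (m : ℕ) (φ : Fin m × Fin m → MvPolynomial κ ℂ) :
    aeval φ (permP m) = SQ.rperm (fun a b : Fin m => φ (b, a)) := by
  unfold permP
  rw [SQ.permanent_eq_rperm]
  unfold SQ.rperm
  rw [map_sum]
  refine Finset.sum_congr rfl fun e _ => ?_
  rw [map_prod]
  refine Finset.prod_congr rfl fun a _ => ?_
  simp

theorem HasSec.subst {m : ℕ} {f : MvPolynomial κ ℂ} (hf : HasSec m f)
    (ψ : κ → MvPolynomial κ' ℂ) (hψ : ∀ i, (ψ i).totalDegree ≤ 1) : HasSec m (aeval ψ f) := by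
  obtain ⟨φ, hφ, c, hc, h⟩ := hf
  refine ⟨fun q => aeval ψ (φ q), fun q => (totalDegree_aeval_le' _ _ hψ).trans (hφ q), c, hc, ?_⟩
  have h1 : aeval (fun q => aeval ψ (φ q)) (permP m) = aeval ψ (aeval φ (permP m)) := by
    rw [comp_aeval_apply]
  rw [h1, h, map_mul, aeval_C, algebraMap_eq]

theorem HasSec.mono {m m' : ℕ} (h : m ≤ m') {f : MvPolynomial κ ℂ} (hf : HasSec m f) :
    HasSec m' f := by
  obtain ⟨φ, hφ, c, hc, h1⟩ := hf
  obtain ⟨φ', hφ', h2⟩ := SQ.perm_embed_sub (m := m') (α := Fin m) (β := Fin m) rfl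
    (by rw [Fintype.card_fin]; exact h) (fun a b => φ (b, a)) (fun a b => hφ _)
  exact ⟨φ', hφ', c, hc, by rw [permP_eq, h2, ← aeval_permP, h1]⟩

theorem HasSec.mul {m m' : ℕ} {f g : MvPolynomial κ ℂ} (hf : HasSec m f) (hg : HasSec m' g) :
    HasSec (m + m') (f * g) := by
  obtain ⟨φ, hφ, c, hc, h1⟩ := hf
  obtain ⟨φ', hφ', c', hc', h1'⟩ := hg
  let M : Fin m ⊕ Fin m' → Fin m ⊕ Fin m' → MvPolynomial κ ℂ := fun r s =>
    match r, s with
    | Sum.inl a, Sum.inl b => φ (b, a)
    | Sum.inl _, Sum.inr _ => 0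
    | Sum.inr _, Sum.inl _ => 0
    | Sum.inr a, Sum.inr b => φ' (b, a)
  have hM : SQ.rperm M = C (c * c') * (f * g) := by
    rw [SQ.rperm_block rfl M (fun k b => rfl)]
    have e1 : SQ.rperm (fun a b => M (Sum.inl a) (Sum.inl b)) = C c * f := by
      rw [← h1, aeval_permP]
    have e2 : SQ.rperm (fun a b => M (Sum.inr a) (Sum.inr b)) = C c' * g := by
      rw [← h1', aeval_permP]
    rw [e1, e2, C_mul]
    ring
  obtain ⟨φ'', hφ'', h2⟩ := SQ.perm_embed_sub (m := m + m') (α := Fin m ⊕ Fin m')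
    (β := Fin m ⊕ Fin m') rfl (by rw [Fintype.card_sum, Fintype.card_fin, Fintype.card_fin]) M
    (by
      rintro (a | a) (b | b)
      · exact hφ _
      · simp [M]
      · simp [M]
      · exact hφ' _)
  exact ⟨φ'', hφ'', c * c', mul_ne_zero hc hc', by rw [permP_eq, h2, hM]⟩

theorem hasSec_zero_one : HasSec 0 (1 : MvPolynomial κ ℂ) := by
  refine ⟨fun q => q.1.elim0, fun q => q.1.elim0, 1, one_ne_zero, ?_⟩
  rw [aeval_permP, C_1, one_mul]
  unfold SQ.rperm
  simp

/-- blocks -/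
theorem hasSec_fermat {k p D m' m : ℕ} (hm : k * m' ≤ m)
    (h : HasSec m' (∑ a : Fin p, (X a : MvPolynomial (Fin p) ℂ) ^ D)) :
    HasSec m (fermat k p D) := by
  classical
  have h1 : ∀ i : Fin k, HasSec m'
      (∑ a : Fin p, (X (i, a) : MvPolynomial (Fin k × Fin p) ℂ) ^ D) := by
    intro i
    have h2 := h.subst (fun a => (X (i, a) : MvPolynomial (Fin k × Fin p) ℂ))
      (fun a => (totalDegree_X _).le)
    rw [map_sum] at h2
    simpa using h2
  have h3 : ∀ s : Finset (Fin k), HasSec (s.card * m')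
      (∏ i ∈ s, ∑ a : Fin p, (X (i, a) : MvPolynomial (Fin k × Fin p) ℂ) ^ D) := by
    intro s
    induction s using Finset.induction_on with
    | empty =>
      rw [Finset.card_empty, zero_mul, Finset.prod_empty]
      exact hasSec_zero_one
    | insert i s hi ih =>
      rw [Finset.card_insert_of_notMem hi, Finset.prod_insert hi]
      exact ((h1 i).mul ih).mono (by rw [add_mul, one_mul, add_comm])
  have h4 := h3 Finset.univ
  rw [Finset.card_univ, Fintype.card_fin] at h4
  exact h4.mono hm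

section roots

/-- The elementary symmetric function of degree `D` of the family `ζ b * y j`. -/
theorem esymm_roots {R : Type} [CommRing R] [Algebra ℂ R] {q D : ℕ} (hD : 1 ≤ D) (ζ : Fin D → ℂ)
    (hζ : ∀ j, 0 < j → j < D →
      ∑ T ∈ Finset.powersetCard j (Finset.univ : Finset (Fin D)), ∏ k ∈ T, ζ k = 0)
    (hζ1 : ∏ k, ζ k = 1) (y : Fin q → R) :
    ∑ s ∈ Finset.powersetCard D (Finset.univ : Finset (Fin q × Fin D)),
      ∏ v ∈ s, (algebraMap ℂ R (ζ v.2) * y v.1) = ∑ j, y j ^ D := by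
  classical
  -- one block
  have h1 : ∀ j : Fin q, ∏ b : Fin D, (1 + Polynomial.C (algebraMap ℂ R (ζ b) * y j) *
      Polynomial.X) = (1 + Polynomial.C (y j ^ D) * Polynomial.X ^ D : Polynomial R) := by
    intro j
    refine Polynomial.ext fun k => ?_
    rw [SQ.coeff_prod (fun b : Fin D => algebraMap ℂ R (ζ b) * y j) Finset.univ k]
    unfold SQ.es
    have h2 : ∀ t ∈ Finset.powersetCard k (Finset.univ : Finset (Fin D)),
        ∏ b ∈ t, (algebraMap ℂ R (ζ b) * y j) = algebraMap ℂ R (∏ b ∈ t, ζ b) * y j ^ k := by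
      intro t ht
      rw [Finset.prod_mul_distrib, Finset.prod_const, (Finset.mem_powersetCard.mp ht).2, map_prod]
    rw [Finset.sum_congr rfl h2, ← Finset.sum_mul, ← map_sum]
    rw [Polynomial.coeff_add, Polynomial.coeff_one, Polynomial.coeff_C_mul_X_pow]
    rcases Nat.eq_zero_or_pos k with rfl | hk
    · rw [if_pos rfl, if_neg (by omega)]
      simp
    · rcases lt_trichotomy k D with hlt | heq | hgt
      · rw [hζ k hk hlt, if_neg (by omega), if_neg (by omega)]
        simp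
      · subst heq
        rw [if_neg (by omega), if_pos rfl]
        have h3 : Finset.powersetCard k (Finset.univ : Finset (Fin k)) = {Finset.univ} := by
          have h4 := Finset.powersetCard_self (Finset.univ : Finset (Fin k))
          rwa [Finset.card_univ, Fintype.card_fin] at h4
        rw [h3, Finset.sum_singleton, hζ1]
        simp
      · rw [if_neg (by omega), if_neg (by omega)]
        rw [Finset.powersetCard_eq_empty.2 (by simpa using hgt)]
        simp
  have h4 : ∏ v : Fin q × Fin D, (1 + Polynomial.C (algebraMap ℂ R (ζ v.2) * y v.1) *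
      Polynomial.X) = Polynomial.expand R D (∏ j : Fin q, (1 + Polynomial.C (y j ^ D) *
        Polynomial.X)) := by
    rw [Fintype.prod_prod_type, map_prod]
    refine Finset.prod_congr rfl fun j _ => ?_
    rw [h1 j]
    simp
  have h5 := SQ.coeff_prod (fun v : Fin q × Fin D => algebraMap ℂ R (ζ v.2) * y v.1)
    Finset.univ D
  unfold SQ.es at h5
  rw [← h5, h4]
  have h6 := Polynomial.coeff_expand_mul' (R := R) (p := D) (by omega)
    (∏ j : Fin q, (1 + Polynomial.C (y j ^ D) * Polynomial.X)) 1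
  rw [mul_one] at h6
  rw [h6, SQ.coeff_prod (fun j : Fin q => y j ^ D) Finset.univ 1]
  unfold SQ.es
  rw [Finset.powersetCard_one, Finset.sum_map]
  simp

end roots

/-- The code gadget and roots of unity: with `V = Fin q × Fin D`, `D = D0 ^ K`, in
`SQ.multi_level`, and `U (j, b) a = ζ b * X (j, a)`, where `∏ b, (1 + ζ b * t) = 1 + t ^ D`. -/
theorem hasSec_code {s0 d0 D0 : ℕ} (hD : 1 ≤ D0) (hd : 1 ≤ d0) (e : Fin d0 → Fin s0 → ℂ)
    (line : Fin d0 → Fin s0 → Option (Fin D0)) (c : Fin d0 → Fin s0 → ℂ)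
    (hcode : ∀ a b j, ∑ x ∈ Finset.univ.filter (fun x => line a x = some j), c a x * e b x
      = if a = b then 1 else 0) (K q m : ℕ) (hq : 1 ≤ q)
    (hsize : s0 ^ K + ∑ i ∈ Finset.range K, d0 * D0 ^ (i + 1) * s0 ^ (K - 1 - i)
      + (q - 1) * D0 ^ K ≤ m) :
    HasSec m (∑ a : Fin (q * d0 ^ K), (X a : MvPolynomial (Fin (q * d0 ^ K)) ℂ) ^ (D0 ^ K)) := by
  classical
  have : Nonempty (Fin d0) := ⟨⟨0, hd⟩⟩
  have : Nonempty (Fin D0) := ⟨⟨0, hD⟩⟩
  have : Nonempty (Fin s0) := by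
    by_contra hcon
    rw [not_nonempty_iff] at hcon
    have := hcode ⟨0, hd⟩ ⟨0, hd⟩ ⟨0, hD⟩
    rw [Finset.univ_eq_empty, Finset.filter_empty, Finset.sum_empty, if_pos rfl] at this
    exact zero_ne_one this
  set D := D0 ^ K with hDdef
  have hD1 : 1 ≤ D := Nat.one_le_pow _ _ hD
  have : Nonempty (Fin D) := ⟨⟨0, hD1⟩⟩
  obtain ⟨ζ, hζ, hζ1⟩ := SQ.exists_zeta (Fin D)
  rw [Fintype.card_fin] at hζ
  -- variables
  have hidx : Fintype.card (Fin q × SQ.Wd (Fin d0) K) = Fintype.card (Fin (q * d0 ^ K)) := by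
    rw [Fintype.card_prod, SQ.Wd.card, Fintype.card_fin, Fintype.card_fin, Fintype.card_fin]
  let idx : Fin q × SQ.Wd (Fin d0) K ≃ Fin (q * d0 ^ K) := Fintype.equivOfCardEq hidx
  obtain ⟨Φ, hG, hU⟩ := SQ.multi_level (R := MvPolynomial (Fin (q * d0 ^ K)) ℂ)
    (V := Fin q × Fin D) e line c
    (fun a b j => by rw [← hcode a b j, Finset.sum_filter]) K Unit (by
      rw [Fintype.card_unit, one_mul, Fintype.card_fin, Fintype.card_prod, Fintype.card_fin,
        Fintype.card_fin]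
      exact Nat.le_mul_of_pos_left _ hq)
  let U : Fin q × Fin D → SQ.Wd (Fin d0) K → MvPolynomial (Fin (q * d0 ^ K)) ℂ := fun v a =>
    algebraMap ℂ _ (ζ v.2) * X (idx (v.1, a))
  have hUdeg : ∀ v a, (U v a).totalDegree ≤ 1 := by
    intro v a
    simp only [U]
    refine (totalDegree_mul _ _).trans ?_
    rw [algebraMap_eq, totalDegree_C, zero_add, totalDegree_X]
  obtain ⟨φ, hφ, c0, hc0, h1⟩ := SQ.gad_final_sub (m := m) hG (by
      rw [Fintype.card_prod, Fintype.card_unit, one_mul, SQ.Wd.card, Fintype.card_fin,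
        Fintype.card_fin, Fintype.card_fin, Fintype.card_prod, Fintype.card_fin, Fintype.card_fin,
        SQ.slackSize_eq]
      simp only [one_mul]
      have h2 : q * D - D0 ^ K = (q - 1) * D := by
        rw [← hDdef, Nat.sub_mul, one_mul]
      rw [h2]
      omega) (fun v p => ∑ b, U v b * algebraMap ℂ _ (SQ.prodE e K b p.2)) (by
      intro v p
      refine totalDegree_finsetSum_le fun b _ => ?_
      refine (totalDegree_mul _ _).trans ?_
      rw [algebraMap_eq, totalDegree_C, add_zero]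
      exact hUdeg v b)
  rw [hU] at h1
  have hcardT : Fintype.card (Unit × SQ.Wd (Fin D0) K) = D := by
    rw [Fintype.card_prod, Fintype.card_unit, one_mul, SQ.Wd.card, Fintype.card_fin]
  have h3 : ∀ a : SQ.Wd (Fin d0) K, ∑ i : (Unit × SQ.Wd (Fin D0) K) ↪ (Fin q × Fin D),
      ∏ t, U (i t) a = C ((D.factorial : ℂ)) * ∑ j : Fin q, X (idx (j, a)) ^ D := by
    intro a
    rw [SQ.sum_emb (fun v => U v a), hcardT, map_natCast]
    congr 1
    exact esymm_roots hD1 ζ hζ hζ1 (fun j => (X (idx (j, a)) : MvPolynomial (Fin (q * d0 ^ K)) ℂ))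
  have h4 : (∑ a : SQ.Wd (Fin d0) K, ∑ i : (Unit × SQ.Wd (Fin D0) K) ↪ (Fin q × Fin D),
      ∏ t, U (i t) a) = C ((D.factorial : ℂ)) * ∑ a : Fin (q * d0 ^ K), X a ^ D := by
    rw [Finset.sum_congr rfl (fun a _ => h3 a), ← Finset.mul_sum]
    congr 1
    rw [Finset.sum_comm, ← Fintype.sum_prod_type' (f := fun (j : Fin q) (a : SQ.Wd (Fin d0) K) =>
      (X (idx (j, a)) : MvPolynomial (Fin (q * d0 ^ K)) ℂ) ^ D)]
    exact Equiv.sum_comp idx
      (fun a : Fin (q * d0 ^ K) => (X a : MvPolynomial (Fin (q * d0 ^ K)) ℂ) ^ D)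
  rw [h4, ← mul_assoc, ← C_mul] at h1
  exact ⟨φ, hφ, c0 * D.factorial, mul_ne_zero hc0 (by exact_mod_cast Nat.factorial_ne_zero _), h1⟩

end Pool.Agent.Work.MP_35c45d_lc.SD
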