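import Pool.Agent.Work.MP_35c45d_lc.SEDefs
import Pool.Agent.Work.MP_35c45d_lc.SDSec

/-! # Sections of the permanent -/

set_option autoImplicit false

namespace Pool.Agent.Work.MP_35c45d_lc.SE

open MvPolynomial Filter Topology SD

/-- blocks (compare `SD.hasSec_fermat`) -/
theorem hasSec_esf {k T L D m' m : ℕ} (hm : k * m' ≤ m) (h : HasSec m' (esum T L D)) :
    HasSec m (esf k T L D) := by
  classical
  have h1 : ∀ i : Fin k, HasSec m' (∑ t : Fin T,
      ∑ S ∈ Finset.powersetCard D (Finset.univ : Finset (Fin L)),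
        ∏ v ∈ S, (X (i, t, v) : MvPolynomial (Fin k × Fin T × Fin L) ℂ)) := by
    intro i
    have h2 := h.subst (fun a : Fin T × Fin L => (X (i, a) : MvPolynomial (Fin k × Fin T × Fin L) ℂ))
      (fun a => (totalDegree_X _).le)
    unfold esum at h2
    simpa only [map_sum, map_prod, aeval_X] using h2
  have h3 : ∀ s : Finset (Fin k), HasSec (s.card * m')
      (∏ i ∈ s, ∑ t : Fin T, ∑ S ∈ Finset.powersetCard D (Finset.univ : Finset (Fin L)),
        ∏ v ∈ S, (X (i, t, v) : MvPolynomial (Fin k × Fin T × Fin L) ℂ)) := by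
    intro s
    induction s using Finset.induction_on with
    | empty =>
      rw [Finset.card_empty, zero_mul, Finset.prod_empty]
      exact hasSec_zero_one
    | insert i s hi ih =>
      rw [Finset.card_insert_of_notMem hi, Finset.prod_insert hi]
      exact ((h1 i).mul ih).mono (by rw [add_mul, one_mul, add_comm])
  have h4 := h3 Finset.univ
  rw [Finset.card_univ, Fintype.card_fin] at h4
  exact h4.mono hm

/-- The code gadget (compare `SD.hasSec_code`, with `U v a = X (a, v)`): `T = d0 ^ K`, `D = D0 ^ K`,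
`L = q * D0 ^ K`. -/
theorem hasSec_code {s0 d0 D0 : ℕ} (hD : 1 ≤ D0) (hd : 1 ≤ d0) (e : Fin d0 → Fin s0 → ℂ)
    (line : Fin d0 → Fin s0 → Option (Fin D0)) (c : Fin d0 → Fin s0 → ℂ)
    (hcode : ∀ a b j, ∑ x ∈ Finset.univ.filter (fun x => line a x = some j), c a x * e b x
      = if a = b then 1 else 0) (K q m : ℕ) (hq : 1 ≤ q)
    (hsize : s0 ^ K + ∑ i ∈ Finset.range K, d0 * D0 ^ (i + 1) * s0 ^ (K - 1 - i)
      + (q - 1) * D0 ^ K ≤ m) :
    HasSec m (esum (d0 ^ K) (q * D0 ^ K) (D0 ^ K)) := by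
  classical
  have : Nonempty (Fin d0) := ⟨⟨0, hd⟩⟩
  have : Nonempty (Fin D0) := ⟨⟨0, hD⟩⟩
  have : Nonempty (Fin s0) := by
    by_contra hcon
    rw [not_nonempty_iff] at hcon
    have := hcode ⟨0, hd⟩ ⟨0, hd⟩ ⟨0, hD⟩
    rw [Finset.univ_eq_empty, Finset.filter_empty, Finset.sum_empty, if_pos rfl] at this
    exact zero_ne_one this
  have hidx : Fintype.card (SQ.Wd (Fin d0) K) = Fintype.card (Fin (d0 ^ K)) := by
    rw [SQ.Wd.card, Fintype.card_fin, Fintype.card_fin]
  let idx : SQ.Wd (Fin d0) K ≃ Fin (d0 ^ K) := Fintype.equivOfCardEq hidx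
  obtain ⟨Φ, hG, hU⟩ := SQ.multi_level (R := MvPolynomial (Fin (d0 ^ K) × Fin (q * D0 ^ K)) ℂ)
    (V := Fin (q * D0 ^ K)) e line c
    (fun a b j => by rw [← hcode a b j, Finset.sum_filter]) K Unit (by
      rw [Fintype.card_unit, one_mul, Fintype.card_fin, Fintype.card_fin]
      exact Nat.le_mul_of_pos_left _ hq)
  let U : Fin (q * D0 ^ K) → SQ.Wd (Fin d0) K →
    MvPolynomial (Fin (d0 ^ K) × Fin (q * D0 ^ K)) ℂ := fun v a => X (idx a, v)
  obtain ⟨φ, hφ, c0, hc0, h1⟩ := SQ.gad_final_sub (m := m) hG (by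
      rw [Fintype.card_prod, Fintype.card_unit, one_mul, SQ.Wd.card, Fintype.card_fin,
        Fintype.card_fin, Fintype.card_fin, Fintype.card_fin, SQ.slackSize_eq]
      simp only [one_mul]
      have h2 : q * D0 ^ K - D0 ^ K = (q - 1) * D0 ^ K := by
        rw [Nat.sub_mul, one_mul]
      rw [h2]
      omega) (fun v p => ∑ b, U v b * algebraMap ℂ _ (SQ.prodE e K b p.2)) (by
      intro v p
      refine totalDegree_finsetSum_le fun b _ => ?_
      refine (totalDegree_mul _ _).trans ?_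
      rw [algebraMap_eq, totalDegree_C, add_zero, totalDegree_X])
  rw [hU] at h1
  have hcardT : Fintype.card (Unit × SQ.Wd (Fin D0) K) = D0 ^ K := by
    rw [Fintype.card_prod, Fintype.card_unit, one_mul, SQ.Wd.card, Fintype.card_fin]
  have h3 : ∀ a : SQ.Wd (Fin d0) K, ∑ i : (Unit × SQ.Wd (Fin D0) K) ↪ (Fin (q * D0 ^ K)),
      ∏ t, U (i t) a = C (((D0 ^ K).factorial : ℂ)) *
        ∑ S ∈ Finset.powersetCard (D0 ^ K) (Finset.univ : Finset (Fin (q * D0 ^ K))),
          ∏ v ∈ S, X (idx a, v) := by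
    intro a
    rw [SQ.sum_emb (fun v => U v a), hcardT, map_natCast]
  have h4 : (∑ a : SQ.Wd (Fin d0) K, ∑ i : (Unit × SQ.Wd (Fin D0) K) ↪ (Fin (q * D0 ^ K)),
      ∏ t, U (i t) a) = C (((D0 ^ K).factorial : ℂ)) * esum (d0 ^ K) (q * D0 ^ K) (D0 ^ K) := by
    rw [Finset.sum_congr rfl (fun a _ => h3 a), ← Finset.mul_sum]
    congr 1
    unfold esum
    exact Equiv.sum_comp idx (fun a : Fin (d0 ^ K) =>
      ∑ S ∈ Finset.powersetCard (D0 ^ K) (Finset.univ : Finset (Fin (q * D0 ^ K))),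
        ∏ v ∈ S, (X (a, v) : MvPolynomial (Fin (d0 ^ K) × Fin (q * D0 ^ K)) ℂ))
  rw [h4, ← mul_assoc, ← C_mul] at h1
  exact ⟨φ, hφ, c0 * (D0 ^ K).factorial,
    mul_ne_zero hc0 (by exact_mod_cast Nat.factorial_ne_zero _), h1⟩

/-- the code has at most `s0` symbols -/
theorem code_le {s0 d0 D0 : ℕ} (hD : 1 ≤ D0) (e : Fin d0 → Fin s0 → ℂ)
    (line : Fin d0 → Fin s0 → Option (Fin D0)) (c : Fin d0 → Fin s0 → ℂ)
    (hcode : ∀ a b j, ∑ x ∈ Finset.univ.filter (fun x => line a x = some j), c a x * e b x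
      = if a = b then 1 else 0) : d0 ≤ s0 := by
  classical
  have hli : LinearIndependent ℂ e := by
    rw [Fintype.linearIndependent_iff]
    intro g hg a
    have h1 : ∑ x ∈ Finset.univ.filter (fun x => line a x = some (⟨0, hD⟩ : Fin D0)),
        c a x * (∑ b, g b • e b) x = 0 := by
      rw [hg]
      simp
    have h2 : ∑ x ∈ Finset.univ.filter (fun x => line a x = some (⟨0, hD⟩ : Fin D0)),
        c a x * (∑ b, g b • e b) x = ∑ b, g b * ∑ x ∈ Finset.univ.filter
          (fun x => line a x = some (⟨0, hD⟩ : Fin D0)), c a x * e b x := by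
      simp only [Finset.sum_apply, Pi.smul_apply, smul_eq_mul, Finset.mul_sum]
      rw [Finset.sum_comm]
      refine Finset.sum_congr rfl fun b _ => Finset.sum_congr rfl fun x _ => ?_
      ring
    rw [h2] at h1
    simp only [hcode, mul_ite, mul_one, mul_zero, Finset.sum_ite_eq, Finset.mem_univ,
      if_true] at h1
    exact h1
  have h := hli.fintype_card_le_finrank
  rwa [Fintype.card_fin, Module.finrank_fin_fun] at h

end Pool.Agent.Work.MP_35c45d_lc.SE
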