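import Pool.Agent.Work.MP_35c45d_lc.FDCore
import Pool.Agent.Work.MP_35c45d_lc.FDNum
import Pool.Agent.Work.MP_35c45d_lc.SESec
import Pool.Agent.Work.MP_35c45d_lc.SENum
import Pool.Agent.Work.MP_35c45d_lc.SQCode3

/-! # Assembly -/

set_option autoImplicit false

namespace Pool.Agent.Work.MP_35c45d_lc.FD

open MvPolynomial Filter Topology SD SE

theorem main_lt (ε : ℝ) (hε : 0 < ε) (hε1 : ε < 1) : ∃ κ : ℝ, 0 < κ ∧ ∀ m c n M : ℕ, 1 ≤ m →
    LimFunDet M c n (permP m) →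
      κ * (m : ℝ) ^ (2 - ε) ≤ ((c : ℝ) + n * √c + m) * Real.log (M + 1) ^ 2 := by
  obtain ⟨s0, d0, D0, e, π, c0, hD, hDs, hd, hcode, hsize⟩ :=
    SQ.exists_code3 (ε / 16) (by positivity)
  have hcode' : ∀ a b j, ∑ x ∈ Finset.univ.filter (fun x => (some (π a x) : Option (Fin D0)) =
      some j), c0 a x * e b x = if a = b then 1 else 0 := fun a b j => by simpa using hcode a b j
  have hds : d0 ≤ s0 := SE.code_le (by omega) e (fun a x => some (π a x)) c0 hcode'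
  obtain ⟨c', hc', m₀, hg⟩ := SE.num_gadget (ε / 16) (by positivity) (by linarith) hD hDs hd hds hsize
  choose! K hs h400 hTm hDm hDE hTD using hg
  obtain ⟨κ, hκ, h⟩ := FD.num_final ε hε hε1 c' hc' m₀ (fun m' => d0 ^ K m')
    (fun m' => D0 ^ K m') (fun m' hm' => ⟨h400 m' hm', hTm m' hm', hDm m' hm', hDE m' hm', by
      simpa using hTD m' hm'⟩)
  refine ⟨κ, hκ, fun m c n M hm hL => ?_⟩
  refine h m c n M hm hL.one_le ?_
  intro k m' hk hm' hkm δ hδ hQ2 hD2 hn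
  have h1 := SE.hasSec_code (by omega) hd e (fun a x => some (π a x)) c0 hcode' (K m') 2 m'
    (by norm_num) (hs m' hm')
  obtain ⟨φ, hφ, c1, hc1, h2⟩ := SE.hasSec_esf hkm h1
  have h3 := hL.subst φ hφ
  rw [h2] at h3
  have hT1 : 1 ≤ d0 ^ K m' := Nat.one_le_pow _ _ hd
  have hw : d0 ^ K m' * (D0 ^ K m' + 1) = d0 ^ K m' * (2 * D0 ^ K m' - (D0 ^ K m' - 1)) := by
    congr 1
    omega
  refine core hk hT1 hQ2 (by omega) hw ?_ hc1 h3 δ ?_ ?_
  · push_cast at hD2 ⊢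
    exact hD2
  · push_cast at hδ ⊢
    exact hδ
  · push_cast at hn ⊢
    exact hn

/-- **Main theorem** -/
theorem main (ε : ℝ) (hε : 0 < ε) : ∃ κ : ℝ, 0 < κ ∧ ∀ m c n M : ℕ, 1 ≤ m →
    LimFunDet M c n (permP m) →
      κ * (m : ℝ) ^ (2 - ε) ≤ ((c : ℝ) + n * √c + m) * Real.log (M + 1) ^ 2 := by
  obtain ⟨κ, hκ, h⟩ := main_lt (min ε (1 / 2)) (lt_min hε (by norm_num))
    (lt_of_le_of_lt (min_le_right _ _) (by norm_num))
  refine ⟨κ, hκ, fun m c n M hm hL => le_trans ?_ (h m c n M hm hL)⟩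
  refine mul_le_mul_of_nonneg_left ?_ hκ.le
  refine Real.rpow_le_rpow_of_exponent_le (by exact_mod_cast hm) ?_
  have := min_le_left ε (1 / 2)
  linarith

end Pool.Agent.Work.MP_35c45d_lc.FD
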