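import Pool.Agent.Work.MP_35c45d_lc.SDMons
import Pool.Agent.Work.MP_35c45d_lc.SDMinor

/-! # The upper bound for the shifted partial derivatives of a determinant -/

set_option autoImplicit false

namespace Pool.Agent.Work.MP_35c45d_lc.SD

open MvPolynomial

section span

variable {ι : Type} {n : ℕ}

/-- the normal forms -/
def nforms (v : ℂ) (A : Matrix (Fin n) (Fin n) (MvPolynomial ι ℂ)) (k l : ℕ) :
    Set (MvPolynomial (ι ⊕ Fin n) ℂ) :=
  {P | ∃ r, n ≤ r + k ∧ ∃ f g : Fin r → Fin n, ∃ μ : (ι ⊕ Fin n) →₀ ℕ, μ.degree ≤ l ∧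
    (∀ i, μ (Sum.inr i) ≠ 0 → i ∈ Set.range f ∧ i ∈ Set.range g) ∧
    P = monomial μ 1 * mnr (bord v A) f g}

theorem mul_affine_mem (T : Submodule ℂ (MvPolynomial (ι ⊕ Fin n) ℂ)) (μ : (ι ⊕ Fin n) →₀ ℕ)
    (p : MvPolynomial ι ℂ) (hp : p.totalDegree ≤ 1) (Q : MvPolynomial (ι ⊕ Fin n) ℂ)
    (H : ∀ m : ι →₀ ℕ, m.degree ≤ 1 → monomial (μ + m.mapDomain Sum.inl) 1 * Q ∈ T) :
    monomial μ 1 * (rename Sum.inl p * Q) ∈ T := by
  have e : monomial μ 1 * (rename Sum.inl p * Q) =
      ∑ m ∈ p.support, coeff m p • (monomial (μ + m.mapDomain Sum.inl) 1 * Q) := by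
    conv_lhs => rw [p.as_sum]
    rw [map_sum, Finset.sum_mul, Finset.mul_sum]
    refine Finset.sum_congr rfl fun m _ => ?_
    rw [rename_monomial, ← mul_assoc, monomial_mul, one_mul, ← smul_mul_assoc, smul_monomial,
      smul_eq_mul, mul_one]
  rw [e]
  refine Submodule.sum_mem _ fun m hm => Submodule.smul_mem _ _ (H m ?_)
  exact (le_totalDegree hm).trans hp

theorem kill_row (v : ℂ) (hv : v ≠ 0) (A : Matrix (Fin n) (Fin n) (MvPolynomial ι ℂ))
    {r : ℕ} (f g : Fin r → Fin n) (i : Fin n) (hi : i ∉ Set.range g) (μ : (ι ⊕ Fin n) →₀ ℕ) :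
    monomial (μ + Finsupp.single (Sum.inr i) 1) 1 * mnr (bord v A) f g =
      v⁻¹ • (monomial μ 1 * mnr (bord v A) (Fin.cons i f : Fin (r + 1) → Fin n)
          (Fin.cons i g : Fin (r + 1) → Fin n) -
        monomial μ 1 * (rename Sum.inl (A i i) * mnr (bord v A) f g) -
        ∑ j : Fin r, ((-1) ^ ((j : ℕ) + 1) : ℂ) • (monomial μ 1 *
          (rename Sum.inl (A i (g j)) * mnr (bord v A) f
            ((Fin.cons i g : Fin (r + 1) → Fin n) ∘ (Fin.succ j).succAbove)))) := by
  have e1 : bord v A i i = rename Sum.inl (A i i) + C v * X (Sum.inr i) := by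
    simp [bord]
  have e2 : ∀ j, bord v A i (g j) = rename Sum.inl (A i (g j)) := by
    intro j
    have : i ≠ g j := fun h => hi ⟨j, h.symm⟩
    simp [bord, this]
  rw [laplace_row, e1]
  have e3 : ∑ j : Fin r, (-1) ^ ((j : ℕ) + 1) * bord v A i (g j) * mnr (bord v A) f
      ((Fin.cons i g : Fin (r + 1) → Fin n) ∘ (Fin.succ j).succAbove) =
      ∑ j : Fin r, (-1) ^ ((j : ℕ) + 1) * (rename Sum.inl (A i (g j)) * mnr (bord v A) f
      ((Fin.cons i g : Fin (r + 1) → Fin n) ∘ (Fin.succ j).succAbove)) := by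
    refine Finset.sum_congr rfl fun j _ => ?_
    rw [e2, mul_assoc]
  rw [e3]
  have e4 : ∑ j : Fin r, ((-1) ^ ((j : ℕ) + 1) : ℂ) • (monomial μ (1 : ℂ) *
          (rename Sum.inl (A i (g j)) * mnr (bord v A) f
            ((Fin.cons i g : Fin (r + 1) → Fin n) ∘ (Fin.succ j).succAbove))) =
      monomial μ 1 * ∑ j : Fin r, (-1) ^ ((j : ℕ) + 1) * (rename Sum.inl (A i (g j)) *
        mnr (bord v A) f ((Fin.cons i g : Fin (r + 1) → Fin n) ∘ (Fin.succ j).succAbove)) := by
    rw [Finset.mul_sum]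
    refine Finset.sum_congr rfl fun j _ => ?_
    rw [smul_eq_C_mul, map_pow, map_neg, map_one]
    ring
  rw [e4]
  have e5 : monomial (μ + Finsupp.single (Sum.inr i) 1) (1 : ℂ) =
      monomial μ 1 * X (Sum.inr i) := by
    rw [X, monomial_mul, one_mul]
  rw [e5, smul_eq_C_mul]
  have e6 : (C v⁻¹ * C v : MvPolynomial (ι ⊕ Fin n) ℂ) = 1 := by
    rw [← C_mul, inv_mul_cancel₀ hv, C_1]
  linear_combination (-(monomial μ (1 : ℂ) * X (Sum.inr i) * mnr (bord v A) f g)) * e6

theorem kill_col (v : ℂ) (hv : v ≠ 0) (A : Matrix (Fin n) (Fin n) (MvPolynomial ι ℂ))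
    {r : ℕ} (f g : Fin r → Fin n) (i : Fin n) (hi : i ∉ Set.range f) (μ : (ι ⊕ Fin n) →₀ ℕ) :
    monomial (μ + Finsupp.single (Sum.inr i) 1) 1 * mnr (bord v A) f g =
      v⁻¹ • (monomial μ 1 * mnr (bord v A) (Fin.cons i f : Fin (r + 1) → Fin n)
          (Fin.cons i g : Fin (r + 1) → Fin n) -
        monomial μ 1 * (rename Sum.inl (A i i) * mnr (bord v A) f g) -
        ∑ j : Fin r, ((-1) ^ ((j : ℕ) + 1) : ℂ) • (monomial μ 1 *
          (rename Sum.inl (A (f j) i) * mnr (bord v A)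
            ((Fin.cons i f : Fin (r + 1) → Fin n) ∘ (Fin.succ j).succAbove) g))) := by
  have e1 : bord v A i i = rename Sum.inl (A i i) + C v * X (Sum.inr i) := by
    simp [bord]
  have e2 : ∀ j, bord v A (f j) i = rename Sum.inl (A (f j) i) := by
    intro j
    have : f j ≠ i := fun h => hi ⟨j, h⟩
    simp [bord, this]
  rw [laplace_col, e1]
  have e3 : ∑ j : Fin r, (-1) ^ ((j : ℕ) + 1) * bord v A (f j) i * mnr (bord v A)
      ((Fin.cons i f : Fin (r + 1) → Fin n) ∘ (Fin.succ j).succAbove) g =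
      ∑ j : Fin r, (-1) ^ ((j : ℕ) + 1) * (rename Sum.inl (A (f j) i) * mnr (bord v A)
      ((Fin.cons i f : Fin (r + 1) → Fin n) ∘ (Fin.succ j).succAbove) g) := by
    refine Finset.sum_congr rfl fun j _ => ?_
    rw [e2, mul_assoc]
  rw [e3]
  have e4 : ∑ j : Fin r, ((-1) ^ ((j : ℕ) + 1) : ℂ) • (monomial μ (1 : ℂ) *
          (rename Sum.inl (A (f j) i) * mnr (bord v A)
            ((Fin.cons i f : Fin (r + 1) → Fin n) ∘ (Fin.succ j).succAbove) g)) =
      monomial μ 1 * ∑ j : Fin r, (-1) ^ ((j : ℕ) + 1) * (rename Sum.inl (A (f j) i) *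
        mnr (bord v A) ((Fin.cons i f : Fin (r + 1) → Fin n) ∘ (Fin.succ j).succAbove) g) := by
    rw [Finset.mul_sum]
    refine Finset.sum_congr rfl fun j _ => ?_
    rw [smul_eq_C_mul, map_pow, map_neg, map_one]
    ring
  rw [e4]
  have e5 : monomial (μ + Finsupp.single (Sum.inr i) 1) (1 : ℂ) =
      monomial μ 1 * X (Sum.inr i) := by
    rw [X, monomial_mul, one_mul]
  rw [e5, smul_eq_C_mul]
  have e6 : (C v⁻¹ * C v : MvPolynomial (ι ⊕ Fin n) ℂ) = 1 := by
    rw [← C_mul, inv_mul_cancel₀ hv, C_1]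
  linear_combination (-(monomial μ (1 : ℂ) * X (Sum.inr i) * mnr (bord v A) f g)) * e6

theorem mapDomain_inl_inr (m : ι →₀ ℕ) (i : Fin n) :
    (m.mapDomain (Sum.inl : ι → ι ⊕ Fin n)) (Sum.inr i) = 0 :=
  Finsupp.mapDomain_of_notMem_range _ _ (by simp)

theorem kill (v : ℂ) (hv : v ≠ 0) (A : Matrix (Fin n) (Fin n) (MvPolynomial ι ℂ))
    (hA : ∀ i j, (A i j).totalDegree ≤ 1) (k l : ℕ) (d : ℕ) :
    ∀ μ : (ι ⊕ Fin n) →₀ ℕ, μ.degree ≤ l → ∑ i, μ (Sum.inr i) ≤ d →
    ∀ r, n ≤ r + k → ∀ f g : Fin r → Fin n,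
      monomial μ 1 * mnr (bord v A) f g ∈ Submodule.span ℂ (nforms v A k l) := by
  induction d with
  | zero =>
    intro μ hμ hd r hr f g
    apply Submodule.subset_span
    refine ⟨r, hr, f, g, μ, hμ, fun i hi => ?_, rfl⟩
    exact absurd (Finset.sum_eq_zero_iff.1 (Nat.le_zero.1 hd) i (Finset.mem_univ _)) hi
  | succ d ih =>
    intro μ hμ hd r hr f g
    by_cases hall : ∀ i, μ (Sum.inr i) ≠ 0 → i ∈ Set.range f ∧ i ∈ Set.range g
    · exact Submodule.subset_span ⟨r, hr, f, g, μ, hμ, hall, rfl⟩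
    · push Not at hall
      obtain ⟨i, hi, hfg⟩ := hall
      obtain ⟨μ', rfl⟩ : ∃ μ', μ = μ' + Finsupp.single (Sum.inr i) 1 := by
        refine ⟨μ - Finsupp.single (Sum.inr i) 1, ?_⟩
        rw [tsub_add_cancel_of_le]
        rw [Finsupp.single_le_iff]
        omega
      have hdeg : μ'.degree + 1 ≤ l := by
        rw [map_add, Finsupp.degree_single] at hμ
        exact hμ
      have hyd : ∑ i, μ' (Sum.inr i) ≤ d := by
        simp only [Finsupp.add_apply, Finset.sum_add_distrib] at hd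
        have h1 : 1 ≤ ∑ j : Fin n, (Finsupp.single (Sum.inr i : ι ⊕ Fin n) 1) (Sum.inr j) := by
          refine le_trans (le_of_eq ?_) (Finset.single_le_sum
            (f := fun j : Fin n => (Finsupp.single (Sum.inr i : ι ⊕ Fin n) 1) (Sum.inr j))
            (fun _ _ => Nat.zero_le _) (Finset.mem_univ i))
          simp
        omega
      have aux : ∀ (p : MvPolynomial ι ℂ) (_ : p.totalDegree ≤ 1) (f g : Fin r → Fin n),
          monomial μ' 1 * (rename Sum.inl p * mnr (bord v A) f g) ∈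
            Submodule.span ℂ (nforms v A k l) := by
        intro p hp f g
        refine mul_affine_mem _ _ _ hp _ fun m hm => ih _ ?_ ?_ r hr f g
        · rw [map_add, Finsupp.degree_mapDomain]
          omega
        · simp only [Finsupp.add_apply, mapDomain_inl_inr, add_zero]
          exact hyd
      have hplus : monomial μ' 1 * mnr (bord v A) (Fin.cons i f : Fin (r + 1) → Fin n)
          (Fin.cons i g : Fin (r + 1) → Fin n) ∈ Submodule.span ℂ (nforms v A k l) :=
        ih μ' (by omega) hyd (r + 1) (by omega) _ _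
      by_cases hf : i ∈ Set.range f
      · rw [kill_row v hv A f g i (hfg hf)]
        refine Submodule.smul_mem _ _ (Submodule.sub_mem _ (Submodule.sub_mem _ hplus
          (aux _ (hA _ _) _ _)) (Submodule.sum_mem _ fun j _ => Submodule.smul_mem _ _
          (aux _ (hA _ _) _ _)))
      · rw [kill_col v hv A f g i hf]
        refine Submodule.smul_mem _ _ (Submodule.sub_mem _ (Submodule.sub_mem _ hplus
          (aux _ (hA _ _) _ _)) (Submodule.sum_mem _ fun j _ => Submodule.smul_mem _ _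
          (aux _ (hA _ _) _ _)))

/-- the sorted normal forms -/
noncomputable def sform (v : ℂ) (A : Matrix (Fin n) (Fin n) (MvPolynomial ι ℂ))
    (q : (_ : Finset (Fin n) × Finset (Fin n)) × ((ι ⊕ Fin n) →₀ ℕ)) :
    MvPolynomial (ι ⊕ Fin n) ℂ :=
  if h : q.1.2.card = q.1.1.card then
    monomial q.2 1 * mnr (bord v A) (q.1.1.orderEmbOfFin rfl : Fin q.1.1.card → Fin n)
      (q.1.2.orderEmbOfFin h : Fin q.1.1.card → Fin n)
  else 0

theorem mnr_cast {R : Type} [CommRing R] (B : Matrix (Fin n) (Fin n) R) (s t : Finset (Fin n))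
    {r : ℕ} (hs : s.card = r) (ht : t.card = r) :
    mnr B (s.orderEmbOfFin hs : Fin r → Fin n) (t.orderEmbOfFin ht : Fin r → Fin n) =
      mnr B (s.orderEmbOfFin rfl : Fin s.card → Fin n)
        (t.orderEmbOfFin (ht.trans hs.symm) : Fin s.card → Fin n) := by
  subst hs
  rfl

end span

/-- The upper bound. Proof: `monomial μ 1 * mnr B f g`, `deg μ ≤ l`, `B = bord v A`, is a combination
of the normal forms `monomial μ 1 * mnr B f g` with `deg μ ≤ l` and `μ (Sum.inr i) = 0` for all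
`i` outside `range f ∩ range g`: induction on the degree of `μ` in the dummy variables,
using `laplace_row` (`i ∉ range g`) and `laplace_col` (`i ∉ range f`): in the row version the
entries `B i (g j)`, `g j ≠ i`, and `B i i - C v * X (Sum.inr i)` are affine in the variables
`Sum.inl _`. -/
theorem upper {ι : Type} [Fintype ι] [DecidableEq ι] {n : ℕ}
    (A : Matrix (Fin n) (Fin n) (MvPolynomial ι ℂ)) (hA : ∀ i j, (A i j).totalDegree ≤ 1)
    (v : ℂ) (hv : v ≠ 0) (k l : ℕ) :
    ∃ W : Submodule ℂ (MvPolynomial (ι ⊕ Fin n) ℂ), FiniteDimensional ℂ W ∧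
      Module.finrank ℂ W ≤ ub (Fintype.card ι) n k l ∧
      ∀ (a : Fin k → ι) (μ : (ι ⊕ Fin n) →₀ ℕ), μ.degree ≤ l →
        monomial μ 1 * dk a (bord v A).det ∈ W := by
  classical
  set S : Finset ((_ : Finset (Fin n) × Finset (Fin n)) × ((ι ⊕ Fin n) →₀ ℕ)) :=
    (prs n k).sigma fun p => mons ((Finset.univ : Finset ι).disjSum (p.1 ∩ p.2)) l with hS
  have hsub : nforms v A k l ⊆ Submodule.span ℂ ((S.image (sform v A) :
      Finset (MvPolynomial (ι ⊕ Fin n) ℂ)) : Set (MvPolynomial (ι ⊕ Fin n) ℂ)) := by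
    rintro P ⟨r, hr, f, g, μ, hμ, hy, rfl⟩
    by_cases hf : Function.Injective f
    swap
    · rw [mnr_zero_left _ _ _ hf, mul_zero]
      exact Submodule.zero_mem _
    by_cases hg : Function.Injective g
    swap
    · rw [mnr_zero_right _ _ _ hg, mul_zero]
      exact Submodule.zero_mem _
    obtain ⟨ε, hε⟩ := mnr_sort (bord v A) f g hf hg
    have cf : (Finset.univ.image f).card = r := by
      rw [Finset.card_image_of_injective _ hf, Finset.card_univ, Fintype.card_fin]
    have cg : (Finset.univ.image g).card = r := by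
      rw [Finset.card_image_of_injective _ hg, Finset.card_univ, Fintype.card_fin]
    rw [hε, mnr_cast (bord v A) _ _ cf cg]
    have e : monomial μ (1 : ℂ) * ((ε : MvPolynomial (ι ⊕ Fin n) ℂ) * mnr (bord v A)
        ((Finset.univ.image f).orderEmbOfFin rfl : Fin (Finset.univ.image f).card → Fin n)
        ((Finset.univ.image g).orderEmbOfFin (cg.trans cf.symm) :
          Fin (Finset.univ.image f).card → Fin n)) =
        (ε : ℂ) • sform v A ⟨(Finset.univ.image f, Finset.univ.image g), μ⟩ := by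
      unfold sform
      simp only
      rw [dif_pos (cg.trans cf.symm), smul_eq_C_mul, map_intCast]
      ring
    rw [e]
    refine Submodule.smul_mem _ _ (Submodule.subset_span ?_)
    rw [Finset.coe_image]
    refine ⟨_, ?_, rfl⟩
    rw [hS, Finset.mem_coe, Finset.mem_sigma]
    refine ⟨?_, ?_⟩
    · simp only [prs, Finset.mem_filter, Finset.mem_univ, true_and]
      exact ⟨cf.trans cg.symm, by rw [cf]; exact hr⟩
    · simp only
      rw [mem_mons]
      refine ⟨?_, hμ⟩
      intro x hx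
      rw [Finsupp.mem_support_iff] at hx
      rcases x with x | i
      · simp
      · have := hy i hx
        simpa using this
  refine ⟨Submodule.span ℂ ((S.image (sform v A) :
      Finset (MvPolynomial (ι ⊕ Fin n) ℂ)) : Set (MvPolynomial (ι ⊕ Fin n) ℂ)),
    FiniteDimensional.span_finset _ _, ?_, ?_⟩
  · refine (finrank_span_finset_le_card _).trans (Finset.card_image_le.trans ?_)
    rw [hS, Finset.card_sigma]
    unfold ub
    refine Finset.sum_le_sum fun p _ => ?_
    rw [card_mons, Finset.card_disjSum, Finset.card_univ]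
  · intro a μ hμ
    have h1 := dk_mem A hA v a
    have h2 : Submodule.span ℂ (nforms v A k l) ≤ Submodule.span ℂ ((S.image (sform v A) :
      Finset (MvPolynomial (ι ⊕ Fin n) ℂ)) : Set (MvPolynomial (ι ⊕ Fin n) ℂ)) :=
      Submodule.span_le.2 hsub
    apply h2
    refine Submodule.span_induction (p := fun P _ => monomial μ 1 * P ∈
      Submodule.span ℂ (nforms v A k l)) ?_ ?_ ?_ ?_ h1
    · rintro P ⟨r, hr, f, g, rfl⟩
      exact kill v hv A hA k l _ μ hμ le_rfl r hr f g
    · rw [mul_zero]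
      exact Submodule.zero_mem _
    · intro P Q _ _ hP hQ
      rw [mul_add]
      exact Submodule.add_mem _ hP hQ
    · intro c P _ hP
      rw [mul_smul_comm]
      exact Submodule.smul_mem _ _ hP

end Pool.Agent.Work.MP_35c45d_lc.SD
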