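import Pool.Agent.Work.MP_35c45d_lc.FDRel
import Pool.Agent.Work.MP_35c45d_lc.SDSpan

/-! # Reduction to the normal forms -/

set_option autoImplicit false

namespace Pool.Agent.Work.MP_35c45d_lc.FD

open MvPolynomial SD

variable {ι : Type} {c n : ℕ}

/-- the normal forms: the shift does not contain the dummy variables met by the word -/
def nforms (v : ℂ) (A : Fin c → Matrix (Fin n) (Fin n) (MvPolynomial ι ℂ))
    (Ψ : MvPolynomial (Fin c) ℂ) (k l : ℕ) : Set (MvPolynomial (ι ⊕ Fin (c * n)) ℂ) :=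
  {P | ∃ (w : List (Ent c n)) (β : List (Fin c)) (μ : (ι ⊕ Fin (c * n)) →₀ ℕ),
    w.length + β.length ≤ k ∧ μ.degree ≤ l ∧
    (∀ p ∈ Vw w, μ (Sum.inr (finProdFinEquiv p)) = 0) ∧
    P = monomial μ 1 * sb v A (Dw w (GG n (Eus β Ψ)))}

theorem Dw_perm {κ : Type} {w w' : List κ} (h : w.Perm w') (f : MvPolynomial κ ℂ) :
    Dw w f = Dw w' f := by
  induction h with
  | nil => rfl
  | cons x _ ih => rw [Dw_cons, Dw_cons, ih]
  | swap x y l => rw [Dw_cons, Dw_cons, Dw_cons, Dw_cons, pderiv_comm']
  | trans _ _ ih1 ih2 => exact ih1.trans ih2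

theorem mem_Vw {w : List (Ent c n)} {p : Fin c × Fin n} (h : p ∈ Vw w) :
    ∃ e ∈ w, p ∈ Vl e := by
  induction w with
  | nil => simp [Vw] at h
  | cons e w ih =>
    rw [Vw, Finset.mem_union] at h
    rcases h with h | h
    · exact ⟨e, by simp, h⟩
    · obtain ⟨e', h1, h2⟩ := ih h
      exact ⟨e', by simp [h1], h2⟩

theorem step {N : ℕ} (T : Submodule ℂ (MvPolynomial (ι ⊕ Fin N) ℂ)) (v : ℂ) (hv : v ≠ 0)
    (μ : (ι ⊕ Fin N) →₀ ℕ) (q : Fin N) (S : Fin n → MvPolynomial (ι ⊕ Fin N) ℂ) (i₀ : Fin n)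
    (R : MvPolynomial (ι ⊕ Fin N) ℂ) (p : Fin n → MvPolynomial ι ℂ)
    (hrel : ∑ j, (rename Sum.inl (p j) + if j = i₀ then C v * X (Sum.inr q) else 0) * S j = R)
    (h1 : ∀ j, monomial μ 1 * (rename Sum.inl (p j) * S j) ∈ T)
    (h2 : monomial μ 1 * R ∈ T) :
    monomial (μ + Finsupp.single (Sum.inr q) 1) 1 * S i₀ ∈ T := by
  have e1 : monomial (μ + Finsupp.single (Sum.inr q) 1) (1 : ℂ) =
      monomial μ 1 * X (Sum.inr q) := by
    rw [X, monomial_mul, one_mul]
  have e2 : C v * (X (Sum.inr q) * S i₀) = R - ∑ j, rename Sum.inl (p j) * S j := by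
    rw [← hrel]
    have : ∑ j, (rename Sum.inl (p j) + if j = i₀ then C v * X (Sum.inr q) else 0) * S j =
        ∑ j, rename Sum.inl (p j) * S j + C v * (X (Sum.inr q) * S i₀) := by
      simp only [add_mul, Finset.sum_add_distrib, ite_mul, zero_mul, Finset.sum_ite_eq',
        Finset.mem_univ, if_true]
      ring
    rw [this]
    ring
  have e3 : (C v⁻¹ * C v : MvPolynomial (ι ⊕ Fin N) ℂ) = 1 := by
    rw [← C_mul, inv_mul_cancel₀ hv, C_1]
  have e4 : monomial (μ + Finsupp.single (Sum.inr q) 1) 1 * S i₀ =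
      v⁻¹ • (monomial μ 1 * R - ∑ j, monomial μ 1 * (rename Sum.inl (p j) * S j)) := by
    rw [← Finset.mul_sum, ← mul_sub, ← e2, smul_eq_C_mul, e1]
    linear_combination (-(monomial μ (1 : ℂ) * X (Sum.inr q) * S i₀)) * e3
  rw [e4]
  exact Submodule.smul_mem _ _ (Submodule.sub_mem _ h2 (Submodule.sum_mem _ fun j _ => h1 j))

/-- induction on the degree of `μ` in the dummy variables; compare `SD.kill` -/
theorem kill (v : ℂ) (hv : v ≠ 0) (A : Fin c → Matrix (Fin n) (Fin n) (MvPolynomial ι ℂ))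
    (hA : ∀ a i j, (A a i j).totalDegree ≤ 1) (Ψ : MvPolynomial (Fin c) ℂ) (k l : ℕ) (d : ℕ) :
    ∀ μ : (ι ⊕ Fin (c * n)) →₀ ℕ, μ.degree ≤ l → ∑ i, μ (Sum.inr i) ≤ d →
    ∀ (w : List (Ent c n)) (β : List (Fin c)), w.length + β.length ≤ k →
      monomial μ 1 * sb v A (Dw w (GG n (Eus β Ψ))) ∈ Submodule.span ℂ (nforms v A Ψ k l) := by
  classical
  induction d with
  | zero =>
    intro μ hμ hd w β hk
    apply Submodule.subset_span
    refine ⟨w, β, μ, hk, hμ, fun p _ => ?_, rfl⟩
    exact Finset.sum_eq_zero_iff.1 (Nat.le_zero.1 hd) _ (Finset.mem_univ _)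
  | succ d ih =>
    intro μ hμ hd w β hk
    by_cases hall : ∀ p ∈ Vw w, μ (Sum.inr (finProdFinEquiv p)) = 0
    · exact Submodule.subset_span ⟨w, β, μ, hk, hμ, hall, rfl⟩
    push Not at hall
    obtain ⟨⟨a, i⟩, hp, hi⟩ := hall
    obtain ⟨⟨b, x, y⟩, he, hpe⟩ := mem_Vw hp
    obtain ⟨μ', rfl⟩ : ∃ μ', μ = μ' + Finsupp.single (Sum.inr (finProdFinEquiv (a, i))) 1 := by
      refine ⟨μ - Finsupp.single (Sum.inr (finProdFinEquiv (a, i))) 1, ?_⟩
      rw [tsub_add_cancel_of_le]
      rw [Finsupp.single_le_iff]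
      omega
    have hdeg : μ'.degree + 1 ≤ l := by
      rw [map_add, Finsupp.degree_single] at hμ
      exact hμ
    have hyd : ∑ j, μ' (Sum.inr j) ≤ d := by
      simp only [Finsupp.add_apply, Finset.sum_add_distrib] at hd
      have h1 : 1 ≤ ∑ j : Fin (c * n), (Finsupp.single
          (Sum.inr (finProdFinEquiv (a, i)) : ι ⊕ Fin (c * n)) 1) (Sum.inr j) := by
        refine le_trans (le_of_eq ?_) (Finset.single_le_sum
          (f := fun j : Fin (c * n) => (Finsupp.single
            (Sum.inr (finProdFinEquiv (a, i)) : ι ⊕ Fin (c * n)) 1) (Sum.inr j))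
          (fun _ _ => Nat.zero_le _) (Finset.mem_univ (finProdFinEquiv (a, i))))
        simp
      omega
    -- the two kinds of terms
    have aux : ∀ (p : MvPolynomial ι ℂ) (_ : p.totalDegree ≤ 1) (w : List (Ent c n))
        (β : List (Fin c)), w.length + β.length ≤ k →
        monomial μ' 1 * (rename Sum.inl p * sb v A (Dw w (GG n (Eus β Ψ)))) ∈
          Submodule.span ℂ (nforms v A Ψ k l) := by
      intro p hp w β hk
      refine mul_affine_mem _ _ _ hp _ fun m hm => ih _ ?_ ?_ w β hk
      · rw [map_add, Finsupp.degree_mapDomain]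
        omega
      · simp only [Finsupp.add_apply, mapDomain_inl_inr, add_zero]
        exact hyd
    have aux0 : ∀ (w : List (Ent c n)) (β : List (Fin c)), w.length + β.length ≤ k →
        monomial μ' 1 * sb v A (Dw w (GG n (Eus β Ψ))) ∈
          Submodule.span ℂ (nforms v A Ψ k l) :=
      fun w β hk => ih μ' (by omega) hyd w β hk
    set w0 := w.erase (b, x, y) with hw0
    have hperm : w.Perm ((b, x, y) :: w0) := List.perm_cons_erase he
    have hlen : w.length = w0.length + 1 := by rw [hperm.length_eq, List.length_cons]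
    have hDw : Dw w (GG n (Eus β Ψ)) = Dw w0 (pderiv (b, x, y) (GG n (Eus β Ψ))) := by
      rw [Dw_perm hperm, Dw_cons, Dw_pderiv]
    have hcons : ∀ (u : List (Ent c n)) (e : Ent c n),
        Dw u (pderiv e (GG n (Eus β Ψ))) = Dw (e :: u) (GG n (Eus β Ψ)) := fun u e => by
      rw [Dw_cons, Dw_pderiv]
    -- the right hand sides
    have hR : ∀ (P : Prop) [Decidable P] (a : Fin c) (g : Fin n → Ent c n) (h : Fin n → Ent c n),
        monomial μ' 1 * sb v A ((if P then Dw w0 (GG n (Eu a (Eus β Ψ))) else 0) -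
          ∑ j, ∑ k : Fin w0.length, if w0.get k = g j then
            Dw (w0.eraseIdx k) (pderiv (h j) (GG n (Eus β Ψ))) else 0) ∈
          Submodule.span ℂ (nforms v A Ψ k l) := by
      intro P _ a g h
      rw [map_sub, mul_sub]
      refine Submodule.sub_mem _ ?_ ?_
      · split_ifs
        · exact aux0 w0 (a :: β) (by rw [List.length_cons]; omega)
        · rw [map_zero, mul_zero]
          exact Submodule.zero_mem _
      · rw [map_sum, Finset.mul_sum]
        refine Submodule.sum_mem _ fun j _ => ?_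
        rw [map_sum, Finset.mul_sum]
        refine Submodule.sum_mem _ fun k' _ => ?_
        split_ifs
        · rw [hcons]
          refine aux0 _ β ?_
          have := List.length_eraseIdx_le w0 (k' : ℕ)
          rw [List.length_cons]
          omega
        · rw [map_zero, mul_zero]
          exact Submodule.zero_mem _
    have hsb : ∀ e : Ent c n, sb v A (X e) = rename Sum.inl (A e.1 e.2.1 e.2.2) +
        if e.2.1 = e.2.2 then C v * X (Sum.inr (finProdFinEquiv (e.1, e.2.1))) else 0 :=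
      fun e => by rw [sb, aeval_X]
    rw [hDw]
    simp only [Vl, Finset.mem_insert, Finset.mem_singleton, Prod.mk.injEq] at hpe
    rcases hpe with ⟨rfl, rfl⟩ | ⟨rfl, rfl⟩
    · -- a letter in row `i`: the column relation
      have h := congrArg (sb v A) (col_word a i y (Eus β Ψ) w0)
      rw [map_sum] at h
      simp only [map_mul, hsb] at h
      refine step _ v hv μ' (finProdFinEquiv (a, i))
        (fun j => sb v A (Dw w0 (pderiv (a, j, y) (GG n (Eus β Ψ))))) i _ (fun j => A a j i)
        (Eq.trans (Finset.sum_congr rfl fun j _ => ?_) h) (fun j => ?_) ?_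
      · by_cases hj : j = i
        · subst hj
          rfl
        · simp [hj]
      · rw [hcons]
        exact aux _ (hA _ _ _) _ _ (by rw [List.length_cons]; omega)
      · exact hR _ a (fun j => (a, j, i)) (fun j => (a, j, y))
    · -- a letter in column `i`: the row relation
      have h := congrArg (sb v A) (row_word a i x (Eus β Ψ) w0)
      rw [map_sum] at h
      simp only [map_mul, hsb] at h
      refine step _ v hv μ' (finProdFinEquiv (a, i))
        (fun j => sb v A (Dw w0 (pderiv (a, x, j) (GG n (Eus β Ψ))))) i _ (fun j => A a i j)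
        (Eq.trans (Finset.sum_congr rfl fun j _ => ?_) h) (fun j => ?_) ?_
      · by_cases hj : j = i
        · subst hj
          rfl
        · have hj' : ¬ i = j := fun hh => hj hh.symm
          simp [hj, hj']
      · rw [hcons]
        exact aux _ (hA _ _ _) _ _ (by rw [List.length_cons]; omega)
      · exact hR _ a (fun j => (a, i, j)) (fun j => (a, x, j))

end Pool.Agent.Work.MP_35c45d_lc.FD
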