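import Pool.Agent.Work.MP_35c45d_lc.FDDefs
import Pool.Agent.Work.MP_35c45d_lc.SQDetAlg

/-! # The two differential relations for a function of determinants -/

set_option autoImplicit false

namespace Pool.Agent.Work.MP_35c45d_lc.FD

open MvPolynomial

variable {c n : ℕ}

theorem pderiv_det (a b : Fin c) (i j : Fin n) :
    pderiv (a, i, j) (Zm (n := n) b).det = if a = b then (Zm b).adjugate j i else 0 := by
  rw [SQ.jacobi (pderiv (a, i, j)) (Zm b)]
  have h : ∀ x y : Fin n, pderiv (a, i, j) ((Zm (n := n) b) y x) =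
      if a = b ∧ y = i ∧ x = j then 1 else 0 := by
    intro x y
    simp only [Zm, Matrix.of_apply, pderiv_X, Pi.single_apply, Prod.mk.injEq]
    by_cases h : b = a ∧ y = i ∧ x = j
    · rw [if_pos h, if_pos ⟨h.1.symm, h.2⟩]
    · rw [if_neg h, if_neg (fun hh => h ⟨hh.1.symm, hh.2⟩)]
  simp only [h]
  split_ifs with hab
  · subst hab
    simp [Finset.sum_ite_eq', ite_and]
  · simp [hab]

theorem pderiv_GG (a : Fin c) (i j : Fin n) (Φ : MvPolynomial (Fin c) ℂ) :
    pderiv (a, i, j) (GG n Φ) = GG n (pderiv a Φ) * (Zm a).adjugate j i := by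
  induction Φ using MvPolynomial.induction_on with
  | C r => simp [GG]
  | add p q hp hq =>
    have : GG n (p + q) = GG n p + GG n q := by simp [GG]
    rw [this, map_add, hp, hq, map_add]
    simp only [GG, map_add]
    ring
  | mul_X p b hp =>
    have e : GG n (p * X b) = GG n p * (Zm b).det := by simp [GG]
    rw [e, pderiv_mul, hp, pderiv_det, pderiv_mul, pderiv_X]
    by_cases hab : a = b
    · subst hab
      simp only [GG, map_add, map_mul, aeval_X, Pi.single_eq_same, if_true, map_one]
      ring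
    · rw [if_neg hab, Pi.single_eq_of_ne (fun h => hab h.symm)]
      simp only [GG, map_mul, aeval_X, mul_zero, add_zero]
      ring

theorem rel_row (Ψ : MvPolynomial (Fin c) ℂ) (a : Fin c) (i i' : Fin n) :
    ∑ j, X (a, i, j) * pderiv (a, i', j) (GG n Ψ) = if i = i' then GG n (Eu a Ψ) else 0 := by
  have h1 := congrFun (congrFun (Matrix.mul_adjugate (Zm (n := n) a)) i) i'
  rw [Matrix.mul_apply, Matrix.smul_apply, Matrix.one_apply, smul_eq_mul] at h1
  have h2 : ∑ j, X (a, i, j) * pderiv (a, i', j) (GG n Ψ) =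
      GG n (pderiv a Ψ) * ∑ j, Zm a i j * (Zm a).adjugate j i' := by
    rw [Finset.mul_sum]
    refine Finset.sum_congr rfl fun j _ => ?_
    rw [pderiv_GG]
    simp only [Zm, Matrix.of_apply]
    ring
  rw [h2, h1]
  split_ifs with h
  · simp only [GG, Eu, map_mul, aeval_X]
    ring
  · simp

theorem rel_col (Ψ : MvPolynomial (Fin c) ℂ) (a : Fin c) (j j' : Fin n) :
    ∑ i, X (a, i, j) * pderiv (a, i, j') (GG n Ψ) = if j = j' then GG n (Eu a Ψ) else 0 := by
  have h1 := congrFun (congrFun (Matrix.adjugate_mul (Zm (n := n) a)) j') j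
  rw [Matrix.mul_apply, Matrix.smul_apply, Matrix.one_apply, smul_eq_mul] at h1
  have h2 : ∑ i, X (a, i, j) * pderiv (a, i, j') (GG n Ψ) =
      GG n (pderiv a Ψ) * ∑ i, (Zm a).adjugate j' i * Zm a i j := by
    rw [Finset.mul_sum]
    refine Finset.sum_congr rfl fun i _ => ?_
    rw [pderiv_GG]
    simp only [Zm, Matrix.of_apply]
    ring
  rw [h2, h1]
  by_cases h : j = j'
  · subst h
    simp only [GG, Eu, map_mul, aeval_X, if_true]
    ring
  · rw [if_neg h, if_neg (fun hh => h hh.symm)]
    simp

/-! ### iterated derivatives -/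

section words

variable {κ : Type}

@[simp] theorem Dw_nil (f : MvPolynomial κ ℂ) : Dw [] f = f := rfl

@[simp] theorem Dw_cons (e : κ) (w : List κ) (f : MvPolynomial κ ℂ) :
    Dw (e :: w) f = pderiv e (Dw w f) := rfl

theorem pderiv_comm' (u v : κ) (f : MvPolynomial κ ℂ) :
    pderiv u (pderiv v f) = pderiv v (pderiv u f) := by
  classical
  have h : ⁅(pderiv u : Derivation ℂ (MvPolynomial κ ℂ) (MvPolynomial κ ℂ)),
      (pderiv v : Derivation ℂ (MvPolynomial κ ℂ) (MvPolynomial κ ℂ))⁆ = 0 := by
    apply MvPolynomial.derivation_ext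
    intro i
    rw [Derivation.commutator_apply, pderiv_X, pderiv_X]
    by_cases h1 : v = i <;> by_cases h2 : u = i <;> simp [h1, h2]
  have h2 := congrArg (fun D => D f) h
  rw [Derivation.commutator_apply] at h2
  exact sub_eq_zero.1 h2

theorem Dw_pderiv (w : List κ) (v : κ) (f : MvPolynomial κ ℂ) :
    Dw w (pderiv v f) = pderiv v (Dw w f) := by
  induction w with
  | nil => rfl
  | cons u w ih => rw [Dw_cons, ih, pderiv_comm', Dw_cons]

/-- Leibniz rule for a variable -/
theorem Dw_X_mul [DecidableEq κ] (w : List κ) (v : κ) (f : MvPolynomial κ ℂ) :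
    Dw w (X v * f) = X v * Dw w f +
      ∑ k : Fin w.length, if w.get k = v then Dw (w.eraseIdx k) f else 0 := by
  induction w with
  | nil => simp
  | cons u w ih =>
    rw [Dw_cons, ih, map_add, map_sum, pderiv_mul, Dw_cons, pderiv_X]
    have e : ∑ k : Fin (u :: w).length, (if (u :: w).get k = v then
        Dw ((u :: w).eraseIdx k) f else 0) = (if u = v then Dw w f else 0) +
        ∑ k : Fin w.length, pderiv u (if w.get k = v then Dw (w.eraseIdx k) f else 0) := by
      refine (Fin.sum_univ_succ (n := w.length) _).trans ?_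
      congr 1
      refine Finset.sum_congr rfl fun k _ => ?_
      simp only [List.get_cons_succ', Fin.val_succ, List.eraseIdx_cons_succ, Dw_cons]
      split_ifs with h
      · rfl
      · rw [map_zero]
    rw [e]
    by_cases h : u = v
    · subst h
      rw [Pi.single_eq_same, if_pos rfl]
      ring
    · rw [Pi.single_eq_of_ne (fun hh => h hh.symm), if_neg h]
      ring

end words

/-- the row relation, differentiated along `w` -/
theorem row_word (a : Fin c) (i i' : Fin n) (Φ : MvPolynomial (Fin c) ℂ) (w : List (Ent c n)) :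
    ∑ j, X (a, i, j) * Dw w (pderiv (a, i', j) (GG n Φ)) =
      (if i = i' then Dw w (GG n (Eu a Φ)) else 0) -
      ∑ j, ∑ k : Fin w.length, if w.get k = (a, i, j) then
        Dw (w.eraseIdx k) (pderiv (a, i', j) (GG n Φ)) else 0 := by
  have h := congrArg (Dw w) (rel_row Φ a i i')
  rw [map_sum, Finset.sum_congr rfl fun j _ => Dw_X_mul w (a, i, j) _,
    Finset.sum_add_distrib] at h
  rw [eq_sub_iff_add_eq, h]
  split_ifs
  · rfl
  · exact map_zero _

/-- the column relation, differentiated along `w` -/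
theorem col_word (a : Fin c) (j j' : Fin n) (Φ : MvPolynomial (Fin c) ℂ) (w : List (Ent c n)) :
    ∑ i, X (a, i, j) * Dw w (pderiv (a, i, j') (GG n Φ)) =
      (if j = j' then Dw w (GG n (Eu a Φ)) else 0) -
      ∑ i, ∑ k : Fin w.length, if w.get k = (a, i, j) then
        Dw (w.eraseIdx k) (pderiv (a, i, j') (GG n Φ)) else 0 := by
  have h := congrArg (Dw w) (rel_col Φ a j j')
  rw [map_sum, Finset.sum_congr rfl fun i _ => Dw_X_mul w (a, i, j) _,
    Finset.sum_add_distrib] at h
  rw [eq_sub_iff_add_eq, h]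
  split_ifs
  · rfl
  · exact map_zero _

end Pool.Agent.Work.MP_35c45d_lc.FD
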