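import Pool.Agent.Work.MP_35c45d_lc.FDSpan
import Pool.Agent.Work.MP_35c45d_lc.FDGen

/-! # Limits of sums of functions of determinants -/

set_option autoImplicit false

namespace Pool.Agent.Work.MP_35c45d_lc.FD

open MvPolynomial Filter Topology SD

variable {ι κ : Type} {M c n : ℕ}

theorem totalDegree_fun_le (D : ℕ) (Ψ : Fin M → MvPolynomial (Fin c) ℂ)
    (A : Fin M → Fin c → Matrix (Fin n) (Fin n) (MvPolynomial ι ℂ)) (hΨ : ∀ t, (Ψ t).totalDegree ≤ D)
    (hA : ∀ t a i j, (A t a i j).totalDegree ≤ 1) :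
    (∑ t, aeval (fun a => (A t a).det) (Ψ t)).totalDegree ≤ D * n := by
  refine totalDegree_finsetSum_le fun t _ => ?_
  refine (totalDegree_aeval_le _ _ n fun a => Border.totalDegree_det_le _ (hA t a)).trans ?_
  exact Nat.mul_le_mul_right _ (hΨ t)

theorem LimFunDet.subst [Fintype ι] {f : MvPolynomial ι ℂ} (hf : LimFunDet M c n f)
    (φ : ι → MvPolynomial κ ℂ) (hφ : ∀ i, (φ i).totalDegree ≤ 1) :
    LimFunDet M c n (aeval φ f) := by
  classical
  obtain ⟨D, Ψ, A, hΨ, hA, hlim⟩ := hf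
  refine ⟨D, Ψ, fun s t a => (A s t a).map (aeval φ), hΨ, fun s t a i j => ?_, fun d => ?_⟩
  · exact SQ.totalDegree_aeval_le _ (hA s t a i j) φ hφ
  · have h1 : ∀ s, ∑ t, aeval (fun a => ((A s t a).map (aeval φ)).det) (Ψ s t) =
        aeval φ (∑ t, aeval (fun a => (A s t a).det) (Ψ s t)) := by
      intro s
      rw [map_sum]
      refine Finset.sum_congr rfl fun t _ => ?_
      rw [← AlgHom.comp_apply, comp_aeval]
      congr 2
      funext a
      rw [AlgHom.map_det]
      rfl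
    simp only [h1]
    exact SQ.tendsto_linear (D * n) _ f (fun s => totalDegree_fun_le D _ _ (hΨ s) (hA s)) hlim
      ((lcoeff ℂ d).comp (aeval φ).toLinearMap)

theorem LimFunDet.one_le {m : ℕ} (h : LimFunDet M c n (permP m)) : 1 ≤ M := by
  obtain ⟨D, Ψ, A, hΨ, hA, hlim⟩ := h
  have h1 := hlim (∑ i : Fin m, Finsupp.single (i, i) 1)
  rw [perm_coeff] at h1
  by_contra hlt
  have h0 : M = 0 := by omega
  subst h0
  simp only [Finset.univ_eq_empty, Finset.sum_empty, coeff_zero] at h1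
  exact zero_ne_one (tendsto_nhds_unique tendsto_const_nhds h1)

/-- the matrix with dummy variables -/
noncomputable def Bm (v : ℂ) (A : Matrix (Fin n) (Fin n) (MvPolynomial ι ℂ)) (a : Fin c) :
    Matrix (Fin n) (Fin n) (MvPolynomial (ι ⊕ Fin (c * n)) ℂ) :=
  Matrix.of fun i j => rename Sum.inl (A i j) +
    if i = j then C v * X (Sum.inr (finProdFinEquiv (a, i))) else 0

theorem sb_GG (v : ℂ) (A : Fin c → Matrix (Fin n) (Fin n) (MvPolynomial ι ℂ))
    (Ψ : MvPolynomial (Fin c) ℂ) :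
    sb v A (GG n Ψ) = aeval (fun a => (Bm v (A a) a).det) Ψ := by
  rw [GG, ← AlgHom.comp_apply, comp_aeval]
  congr 2
  funext a
  rw [AlgHom.map_det]
  congr 1
  ext1 i j
  simp only [AlgHom.mapMatrix_apply, Matrix.map_apply, Zm, Matrix.of_apply, sb, aeval_X, Bm]

theorem totalDegree_Bm_le (v : ℂ) (A : Matrix (Fin n) (Fin n) (MvPolynomial ι ℂ)) (a : Fin c)
    (hA : ∀ i j, (A i j).totalDegree ≤ 1) (i j : Fin n) : (Bm v A a i j).totalDegree ≤ 1 := by
  rw [Bm, Matrix.of_apply]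
  refine (totalDegree_add _ _).trans (max_le ?_ ?_)
  · exact (totalDegree_rename_le _ _).trans (hA i j)
  · split_ifs
    · refine (totalDegree_mul _ _).trans ?_
      rw [totalDegree_C, zero_add, totalDegree_X]
    · simp

/-- the same with a formal parameter -/
noncomputable def Bp (A : Matrix (Fin n) (Fin n) (MvPolynomial ι ℂ)) (a : Fin c) :
    Matrix (Fin n) (Fin n) (Polynomial (MvPolynomial (ι ⊕ Fin (c * n)) ℂ)) :=
  Matrix.of fun i j => Polynomial.C (rename Sum.inl (A i j)) +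
    if i = j then Polynomial.X * Polynomial.C (X (Sum.inr (finProdFinEquiv (a, i)))) else 0

theorem eval_Bp (v : ℂ) (A : Matrix (Fin n) (Fin n) (MvPolynomial ι ℂ)) (a : Fin c) :
    (Bp A a).det.eval (C v) = (Bm v A a).det := by
  have h2 : (Bp A a).det.eval (C v) = Polynomial.evalRingHom (C v) (Bp A a).det := rfl
  rw [h2, RingHom.map_det]
  congr 1
  refine Matrix.ext fun i j => ?_
  simp only [Bm, Bp, Matrix.of_apply, RingHom.mapMatrix_apply, Matrix.map_apply]
  split_ifs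
  · rw [map_add, map_mul, Polynomial.coe_evalRingHom, Polynomial.eval_C, Polynomial.eval_X,
      Polynomial.eval_C]
  · rw [map_add, map_zero, Polynomial.coe_evalRingHom, Polynomial.eval_C]

theorem eval_fun (v : ℂ) (A : Fin c → Matrix (Fin n) (Fin n) (MvPolynomial ι ℂ))
    (Ψ : MvPolynomial (Fin c) ℂ) :
    (aeval (fun a => (Bp (A a) a).det) Ψ).eval (C v) = sb v A (GG n Ψ) := by
  rw [eval_aeval, sb_GG]
  congr 2
  funext a
  exact eval_Bp v (A a) a

theorem Bm_zero (A : Matrix (Fin n) (Fin n) (MvPolynomial ι ℂ)) (a : Fin c) :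
    (Bm 0 A a).det = rename Sum.inl A.det := by
  rw [AlgHom.map_det]
  congr 1
  refine Matrix.ext fun i j => ?_
  simp [Bm]

theorem sb_zero (A : Fin c → Matrix (Fin n) (Fin n) (MvPolynomial ι ℂ))
    (Ψ : MvPolynomial (Fin c) ℂ) :
    sb 0 A (GG n Ψ) = rename Sum.inl (aeval (fun a => (A a).det) Ψ) := by
  rw [sb_GG, ← AlgHom.comp_apply, comp_aeval]
  congr 2
  funext a
  exact Bm_zero _ _

/-- the dummy variables can be added -/
theorem LimFunDet.bord [Fintype ι] {f : MvPolynomial ι ℂ} (hf : LimFunDet M c n f) :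
    ∃ (Nd : ℕ) (Ψ : ℕ → Fin M → MvPolynomial (Fin c) ℂ)
      (A : ℕ → Fin M → Fin c → Matrix (Fin n) (Fin n) (MvPolynomial ι ℂ)) (v : ℕ → ℂ),
      (∀ s t a i j, (A s t a i j).totalDegree ≤ 1) ∧ (∀ s, v s ≠ 0) ∧
      (∀ s, (∑ t, sb (v s) (A s t) (GG n (Ψ s t))).totalDegree ≤ Nd) ∧
      ∀ d, Tendsto (fun s => coeff d (∑ t, sb (v s) (A s t) (GG n (Ψ s t)))) atTop
        (𝓝 (coeff d (rename Sum.inl f))) := by
  obtain ⟨D, Ψ, A, hΨ, hA, hlim⟩ := hf
  have hdeg : ∀ s (v : ℂ), (∑ t, sb v (A s t) (GG n (Ψ s t))).totalDegree ≤ D * n := by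
    intro s v
    simp only [sb_GG]
    exact totalDegree_fun_le D _ (fun t a => Bm v (A s t a) a) (hΨ s)
      fun t a => totalDegree_Bm_le v _ a (hA s t a)
  have hcont : ∀ (s : ℕ) (d : ι ⊕ Fin (c * n) →₀ ℕ),
      Tendsto (fun v => coeff d (∑ t, sb v (A s t) (GG n (Ψ s t)))) (𝓝 0)
        (𝓝 (coeff d (∑ t, sb 0 (A s t) (GG n (Ψ s t))))) := by
    intro s d
    simp only [coeff_sum, ← eval_fun]
    exact tendsto_finsetSum _ fun t _ => tendsto_eval _ d
  have hlim0 : ∀ d : ι ⊕ Fin (c * n) →₀ ℕ,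
      Tendsto (fun s => coeff d (∑ t, sb 0 (A s t) (GG n (Ψ s t)))) atTop
        (𝓝 (coeff d (rename Sum.inl f))) := by
    intro d
    simp only [sb_zero, ← map_sum]
    exact SQ.tendsto_linear (D * n) _ f (fun s => totalDegree_fun_le D _ _ (hΨ s) (hA s)) hlim
      ((lcoeff ℂ d).comp (rename Sum.inl).toLinearMap)
  obtain ⟨v, hv, hv'⟩ := exists_param (σ := ι ⊕ Fin (c * n)) (D * n)
    (fun s v => ∑ t, sb v (A s t) (GG n (Ψ s t))) (rename Sum.inl f) hdeg hcont hlim0
  exact ⟨D * n, Ψ, A, v, hA, hv, fun s => hdeg s (v s), hv'⟩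

/-- A linearly independent family of shifted derivatives has at most `M * ubF` members; compare
`SE.lim_card`. -/
theorem lim_cardF {ι : Type} [Fintype ι] [DecidableEq ι] {M c n k l : ℕ} {f : MvPolynomial ι ℂ}
    (h : LimFunDet M c n f) {α : Type} [Fintype α] (a : α → Fin k → ι)
    (ν : α → MvPolynomial (ι ⊕ Fin (c * n)) ℂ) (hν : ∀ x, (ν x).totalDegree ≤ l)
    (hli : LinearIndependent ℂ fun x => ν x * dk (a x) (rename Sum.inl f)) :
    Fintype.card α ≤ M * ubF (Fintype.card ι) c n k l := by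
  classical
  obtain ⟨Nd, Ψ, A, v, hA, hv, hdeg, hlim⟩ := h.bord
  refine semi (fun x => (LinearMap.mulLeft ℂ (ν x)).comp (dkL (a x)))
    (fun s => ∑ t, sb (v s) (A s t) (GG n (Ψ s t))) (rename Sum.inl f) Nd _ hdeg hlim ?_ ?_
  · have : (fun x => (LinearMap.mulLeft ℂ (ν x)).comp (dkL (a x)) (rename Sum.inl f)) =
        fun x => ν x * dk (a x) (rename Sum.inl f) := by
      funext x
      rw [LinearMap.comp_apply, LinearMap.mulLeft_apply, dk_eq]
    rw [this]
    exact hli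
  · intro s
    choose W hfd hrank hmem using fun t => upper (A s t) (hA s t) (v s) (hv s) (Ψ s t) k l
    obtain ⟨S, hS, hSr, hSm⟩ :=
      exists_sum_space W hfd (u := ubF (Fintype.card ι) c n k l) hrank
    refine ⟨S, hS, hSr, fun x => ?_⟩
    have h1 : (LinearMap.mulLeft ℂ (ν x)).comp (dkL (a x))
        (∑ t, sb (v s) (A s t) (GG n (Ψ s t))) =
        ∑ t, ν x * dk (a x) (sb (v s) (A s t) (GG n (Ψ s t))) := by
      rw [LinearMap.comp_apply, LinearMap.mulLeft_apply, map_sum, Finset.mul_sum]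
      refine Finset.sum_congr rfl fun t _ => ?_
      rw [dk_eq]
    rw [h1]
    refine hSm _ fun t => ?_
    have h2 : ν x * dk (a x) (sb (v s) (A s t) (GG n (Ψ s t))) = ∑ d ∈ (ν x).support,
        coeff d (ν x) • (monomial d 1 * dk (a x) (sb (v s) (A s t) (GG n (Ψ s t)))) := by
      conv_lhs => rw [(ν x).as_sum]
      rw [Finset.sum_mul]
      refine Finset.sum_congr rfl fun d _ => ?_
      rw [← smul_mul_assoc, smul_monomial, smul_eq_mul, mul_one]
    rw [h2]
    refine Submodule.sum_mem _ fun d hd => Submodule.smul_mem _ _ (hmem t (a x) d ?_)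
    exact (le_totalDegree hd).trans (hν x)

end Pool.Agent.Work.MP_35c45d_lc.FD
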