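import Pool.Agent.Work.MP_35c45d_lc.FDRed
import Pool.Agent.Work.MP_35c45d_lc.FDChain

/-! # The upper bound for the shifted partial derivatives of a function of determinants -/

set_option autoImplicit false

namespace Pool.Agent.Work.MP_35c45d_lc.FD

open MvPolynomial SD

theorem Vw_ofFn {c n : ℕ} : ∀ {K : ℕ} (w : Fin K → Ent c n), Vw (List.ofFn w) = Vf w
  | 0, w => by simp [Vw, Vf]
  | (K + 1), w => by
    rw [List.ofFn_succ, Vw, Vw_ofFn]
    ext p
    simp only [Vf, Finset.mem_union, Finset.mem_biUnion, Finset.mem_univ, true_and,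
      Fin.exists_fin_succ]

/-- the normal forms, indexed -/
noncomputable def sformF {ι : Type} {c n : ℕ} (v : ℂ)
    (A : Fin c → Matrix (Fin n) (Fin n) (MvPolynomial ι ℂ)) (Ψ : MvPolynomial (Fin c) ℂ)
    (q : (K : ℕ) × (J : ℕ) × ((Fin J → Fin c) × ((_ : Fin K → Ent c n) ×
      ((ι ⊕ Fin (c * n)) →₀ ℕ)))) : MvPolynomial (ι ⊕ Fin (c * n)) ℂ :=
  monomial q.2.2.2.2 1 * sb v A (Dw (List.ofFn q.2.2.2.1) (GG n (Eus (List.ofFn q.2.2.1) Ψ)))

theorem upper {ι : Type} [Fintype ι] [DecidableEq ι] {c n : ℕ}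
    (A : Fin c → Matrix (Fin n) (Fin n) (MvPolynomial ι ℂ))
    (hA : ∀ a i j, (A a i j).totalDegree ≤ 1) (v : ℂ) (hv : v ≠ 0)
    (Ψ : MvPolynomial (Fin c) ℂ) (k l : ℕ) :
    ∃ W : Submodule ℂ (MvPolynomial (ι ⊕ Fin (c * n)) ℂ), FiniteDimensional ℂ W ∧
      Module.finrank ℂ W ≤ ubF (Fintype.card ι) c n k l ∧
      ∀ (a : Fin k → ι) (μ : (ι ⊕ Fin (c * n)) →₀ ℕ), μ.degree ≤ l →
        monomial μ 1 * dk a (sb v A (GG n Ψ)) ∈ W := by
  classical
  set S : Finset ((K : ℕ) × (J : ℕ) × ((Fin J → Fin c) × ((_ : Fin K → Ent c n) ×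
      ((ι ⊕ Fin (c * n)) →₀ ℕ)))) :=
    (Finset.range (k + 1)).sigma fun K => (Finset.range (k + 1 - K)).sigma fun J =>
      (Finset.univ : Finset (Fin J → Fin c)) ×ˢ
        ((Finset.univ : Finset (Fin K → Ent c n)).sigma fun w =>
          mons ((Finset.univ : Finset ι).disjSum
            ((Vf w).map finProdFinEquiv.toEmbedding)ᶜ) l) with hS
  have hsub : nforms v A Ψ k l ⊆ Submodule.span ℂ ((S.image (sformF v A Ψ) :
      Finset (MvPolynomial (ι ⊕ Fin (c * n)) ℂ)) :
        Set (MvPolynomial (ι ⊕ Fin (c * n)) ℂ)) := by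
    rintro P ⟨w, β, μ, hwβ, hμ, hy, rfl⟩
    apply Submodule.subset_span
    rw [Finset.coe_image]
    refine ⟨⟨w.length, β.length, β.get, ⟨w.get, μ⟩⟩, ?_, ?_⟩
    · rw [hS, Finset.mem_coe, Finset.mem_sigma, Finset.mem_sigma, Finset.mem_product,
        Finset.mem_sigma]
      refine ⟨?_, ?_, Finset.mem_univ _, Finset.mem_univ _, ?_⟩
      · simp only [Finset.mem_range]
        omega
      · simp only [Finset.mem_range]
        omega
      · simp only
        rw [mem_mons]
        refine ⟨?_, hμ⟩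
        intro x hx
        rw [Finsupp.mem_support_iff] at hx
        rcases x with x | i
        · simp
        · simp only [Finset.inr_mem_disjSum, Finset.mem_compl]
          intro hi
          obtain ⟨p, hp, hpi⟩ := Finset.mem_map.1 hi
          apply hx
          rw [← Vw_ofFn, List.ofFn_get] at hp
          rw [← hpi]
          exact hy p hp
    · simp only [sformF, List.ofFn_get]
  refine ⟨Submodule.span ℂ ((S.image (sformF v A Ψ) :
      Finset (MvPolynomial (ι ⊕ Fin (c * n)) ℂ)) : Set (MvPolynomial (ι ⊕ Fin (c * n)) ℂ)),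
    FiniteDimensional.span_finset _ _, ?_, ?_⟩
  · refine (finrank_span_finset_le_card _).trans (Finset.card_image_le.trans ?_)
    rw [hS, Finset.card_sigma]
    unfold ubF
    refine Finset.sum_le_sum fun K _ => ?_
    rw [Finset.card_sigma]
    refine Finset.sum_le_sum fun J _ => ?_
    rw [Finset.card_product, Finset.card_sigma, Finset.card_univ, Fintype.card_fun,
      Fintype.card_fin, Fintype.card_fin]
    refine Nat.mul_le_mul_left _ (Finset.sum_le_sum fun w _ => ?_)
    rw [card_mons, Finset.card_disjSum, Finset.card_univ, Finset.card_compl, Fintype.card_fin,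
      Finset.card_map]
  · intro a μ hμ
    have h1 := dk_mem A hA v (GG n Ψ) a
    have h2 : Submodule.span ℂ (nforms v A Ψ k l) ≤ Submodule.span ℂ ((S.image (sformF v A Ψ) :
      Finset (MvPolynomial (ι ⊕ Fin (c * n)) ℂ)) :
        Set (MvPolynomial (ι ⊕ Fin (c * n)) ℂ)) := Submodule.span_le.2 hsub
    apply h2
    refine Submodule.span_induction (p := fun P _ => monomial μ 1 * P ∈
      Submodule.span ℂ (nforms v A Ψ k l)) ?_ ?_ ?_ ?_ h1
    · rintro P ⟨w, hw, rfl⟩
      exact kill v hv A hA Ψ k l _ μ hμ le_rfl w [] (by rw [hw]; simp)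
    · rw [mul_zero]
      exact Submodule.zero_mem _
    · intro P Q _ _ hP hQ
      rw [mul_add]
      exact Submodule.add_mem _ hP hQ
    · intro c P _ hP
      rw [mul_smul_comm]
      exact Submodule.smul_mem _ _ hP

end Pool.Agent.Work.MP_35c45d_lc.FD
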