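import Pool.Agent.Work.MP_35c45d_lc.SDDefs

/-! # Counting monomials -/

set_option autoImplicit false

namespace Pool.Agent.Work.MP_35c45d_lc.SD

open Finset

section mons

variable {σ : Type} [DecidableEq σ]

theorem mem_mons {s : Finset σ} {l : ℕ} {μ : σ →₀ ℕ} :
    μ ∈ mons s l ↔ μ.support ⊆ s ∧ μ.degree ≤ l := by
  unfold mons
  simp only [mem_biUnion, mem_range, mem_finsuppAntidiag]
  constructor
  · rintro ⟨d, hd, h1, h2⟩
    refine ⟨h2, ?_⟩
    rw [Finsupp.degree_apply, Finset.sum_subset h2 (fun i _ hi => by simpa using hi), h1]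
    omega
  · rintro ⟨h2, h⟩
    refine ⟨μ.degree, by omega, ?_, h2⟩
    rw [Finsupp.degree_apply, Finset.sum_subset h2 (fun i _ hi => by simpa using hi)]

theorem card_mons (s : Finset σ) (l : ℕ) : (mons s l).card = (s.card + l).choose l := by
  unfold mons
  rw [Finset.card_biUnion]
  · simp_rw [Finset.card_finsuppAntidiag_nat_eq_multichoose]
    rw [Nat.sum_range_multichoose, ← Nat.choose_symm_add, add_comm]
  · intro a _ b _ hab
    rw [Function.onFun_apply, Finset.disjoint_left]
    intro μ h1 h2
    rw [mem_finsuppAntidiag] at h1 h2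
    exact hab (h1.1.symm.trans h2.1)

end mons

end Pool.Agent.Work.MP_35c45d_lc.SD
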