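import Pool.Agent.Work.MP_35c45d_lc.FGDefs
import Pool.Agent.Work.MP_35c45d_lc.FDCount
import Pool.Agent.Work.MP_35c45d_lc.SDMonsA

/-! # Functions of determinants: numerical form of the upper bound with multisets (helper59) -/

set_option autoImplicit false

namespace Pool.Agent.Work.MP_35c45d_lc.FD

open Finset

theorem LamG_nonneg (c n k : ℕ) {z : ℝ} (hz : 0 ≤ z) : 0 ≤ LamG c n k z := by
  unfold LamG
  positivity

theorem letterG_le {c n k : ℕ} {z : ℝ} (hz0 : 0 ≤ z) (hz1 : z ≤ 1) (U : Finset (Fin c × Fin n))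
    (hU : U.card ≤ 2 * k) :
    ∑ x : Ent c n, z ^ (Vl x \ U).card ≤ LamG c n k z := by
  classical
  rcases Nat.eq_zero_or_pos c with hc | hc
  · subst hc
    rw [Finset.univ_eq_empty, Finset.sum_empty]
    exact LamG_nonneg _ _ _ hz0
  have hpt : ∀ x : Ent c n, z ^ (Vl x \ U).card ≤
      (if (x.1, x.2.1) ∈ U ∧ (x.1, x.2.2) ∈ U then (1 : ℝ) else 0) +
      z * (if (x.1, x.2.1) ∈ U then (1 : ℝ) else 0) +
      z * (if (x.1, x.2.2) ∈ U then (1 : ℝ) else 0) +
      z * (if x.2.1 = x.2.2 then (1 : ℝ) else 0) + z ^ 2 := by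
    rintro ⟨a, i, j⟩
    simp only
    have hz2 : 0 ≤ z ^ 2 := sq_nonneg z
    by_cases hp : (a, i) ∈ U
    · by_cases hq : (a, j) ∈ U
      · have h0 : Vl (a, i, j) \ U = ∅ := by
          rw [Finset.sdiff_eq_empty_iff_subset]
          intro y hy
          simp only [Vl, Finset.mem_insert, Finset.mem_singleton] at hy
          rcases hy with rfl | rfl <;> assumption
        rw [h0]
        simp only [hp, hq, and_self, if_true, Finset.card_empty, pow_zero]
        split_ifs <;> nlinarith
      · have h1 : 1 ≤ (Vl (a, i, j) \ U).card := by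
          rw [Nat.one_le_iff_ne_zero, Finset.card_ne_zero]
          exact ⟨(a, j), by simp [Vl, hq]⟩
        have h2 : z ^ (Vl (a, i, j) \ U).card ≤ z := by
          calc z ^ (Vl (a, i, j) \ U).card ≤ z ^ 1 := pow_le_pow_of_le_one hz0 hz1 h1
            _ = z := pow_one z
        simp only [hp, hq, and_false, if_true, if_false]
        split_ifs <;> nlinarith
    · by_cases hq : (a, j) ∈ U
      · have h1 : 1 ≤ (Vl (a, i, j) \ U).card := by
          rw [Nat.one_le_iff_ne_zero, Finset.card_ne_zero]
          exact ⟨(a, i), by simp [Vl, hp]⟩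
        have h2 : z ^ (Vl (a, i, j) \ U).card ≤ z := by
          calc z ^ (Vl (a, i, j) \ U).card ≤ z ^ 1 := pow_le_pow_of_le_one hz0 hz1 h1
            _ = z := pow_one z
        simp only [hp, hq, false_and, if_true, if_false]
        split_ifs <;> nlinarith
      · by_cases hij : i = j
        · subst hij
          have h1 : 1 ≤ (Vl (a, i, i) \ U).card := by
            rw [Nat.one_le_iff_ne_zero, Finset.card_ne_zero]
            exact ⟨(a, i), by simp [Vl, hp]⟩
          have h2 : z ^ (Vl (a, i, i) \ U).card ≤ z := by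
            calc z ^ (Vl (a, i, i) \ U).card ≤ z ^ 1 := pow_le_pow_of_le_one hz0 hz1 h1
              _ = z := pow_one z
          simp only [hp, and_self, if_true, if_false]
          nlinarith
        · have h1 : 2 ≤ (Vl (a, i, j) \ U).card := by
            have h3 : ({(a, i), (a, j)} : Finset (Fin c × Fin n)) ⊆ Vl (a, i, j) \ U := by
              intro y hy
              simp only [Finset.mem_insert, Finset.mem_singleton] at hy
              rcases hy with rfl | rfl
              · simp [Vl, hp]
              · simp [Vl, hq]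
            have h4 := Finset.card_le_card h3
            rwa [Finset.card_pair (by simpa using hij)] at h4
          have h2 : z ^ (Vl (a, i, j) \ U).card ≤ z ^ 2 := pow_le_pow_of_le_one hz0 hz1 h1
          simp only [hp, hq, hij, and_self, if_false]
          nlinarith
  have hfib : ∀ y : Fin c × Fin n, (Finset.univ.filter fun x : Ent c n =>
      ((x.1, x.2.1) ∈ U ∧ (x.1, x.2.2) ∈ U) ∧ (x.1, x.2.1) = y).card ≤ min n (2 * k) := by
    intro y
    refine le_min ?_ ?_
    · calc (Finset.univ.filter fun x : Ent c n =>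
          ((x.1, x.2.1) ∈ U ∧ (x.1, x.2.2) ∈ U) ∧ (x.1, x.2.1) = y).card
          ≤ (Finset.univ : Finset (Fin n)).card := by
            apply Finset.card_le_card_of_injOn (fun x => x.2.2)
            · intro x _
              exact Finset.mem_univ _
            · rintro ⟨a, i, j⟩ hx ⟨a', i', j'⟩ hx' h
              have h1 := (Finset.mem_filter.1 hx).2.2
              have h2 := (Finset.mem_filter.1 hx').2.2
              rw [← h2] at h1
              simp only [Prod.mk.injEq] at h h1 ⊢
              exact ⟨h1.1, h1.2, h⟩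
        _ = n := by simp
    · refine le_trans ?_ hU
      apply Finset.card_le_card_of_injOn (fun x => (x.1, x.2.2))
      · intro x hx
        exact (Finset.mem_filter.1 hx).2.1.2
      · rintro ⟨a, i, j⟩ hx ⟨a', i', j'⟩ hx' h
        have h1 := (Finset.mem_filter.1 hx).2.2
        have h2 := (Finset.mem_filter.1 hx').2.2
        rw [← h2] at h1
        simp only [Prod.mk.injEq] at h h1 ⊢
        exact ⟨h1.1, h1.2, h.2⟩
  have hA : ∑ x : Ent c n, (if (x.1, x.2.1) ∈ U ∧ (x.1, x.2.2) ∈ U then (1 : ℝ) else 0) ≤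
      (U.card : ℝ) * (min n (2 * k) : ℕ) := by
    rw [Finset.sum_boole]
    have h1 : (Finset.univ.filter fun x : Ent c n =>
        (x.1, x.2.1) ∈ U ∧ (x.1, x.2.2) ∈ U).card ≤ U.card * min n (2 * k) := by
      rw [Finset.card_eq_sum_card_fiberwise (f := fun x : Ent c n => (x.1, x.2.1)) (t := U)
        (fun x hx => (Finset.mem_filter.1 hx).2.1)]
      refine (Finset.sum_le_card_nsmul U _ (min n (2 * k)) fun y _ => ?_).trans (by simp)
      rw [Finset.filter_filter]
      exact hfib y
    exact_mod_cast h1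
  have hB : ∑ x : Ent c n, (if (x.1, x.2.1) ∈ U then (1 : ℝ) else 0) ≤ U.card * n := by
    rw [Finset.sum_boole]
    have : (Finset.univ.filter fun x : Ent c n => (x.1, x.2.1) ∈ U).card ≤
        (U ×ˢ (Finset.univ : Finset (Fin n))).card := by
      apply Finset.card_le_card_of_injOn (fun x => ((x.1, x.2.1), x.2.2))
      · intro x hx
        have := (Finset.mem_filter.1 hx).2
        exact Finset.mem_product.2 ⟨this, Finset.mem_univ _⟩
      · rintro ⟨a, i, j⟩ _ ⟨a', i', j'⟩ _ h
        simp only [Prod.mk.injEq] at h ⊢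
        exact ⟨h.1.1, h.1.2, h.2⟩
    rw [Finset.card_product, Finset.card_univ, Fintype.card_fin] at this
    exact_mod_cast this
  have hC : ∑ x : Ent c n, (if (x.1, x.2.2) ∈ U then (1 : ℝ) else 0) ≤ U.card * n := by
    rw [Finset.sum_boole]
    have : (Finset.univ.filter fun x : Ent c n => (x.1, x.2.2) ∈ U).card ≤
        (U ×ˢ (Finset.univ : Finset (Fin n))).card := by
      apply Finset.card_le_card_of_injOn (fun x => ((x.1, x.2.2), x.2.1))
      · intro x hx
        have := (Finset.mem_filter.1 hx).2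
        exact Finset.mem_product.2 ⟨this, Finset.mem_univ _⟩
      · rintro ⟨a, i, j⟩ _ ⟨a', i', j'⟩ _ h
        simp only [Prod.mk.injEq] at h ⊢
        exact ⟨h.1.1, h.2, h.1.2⟩
    rw [Finset.card_product, Finset.card_univ, Fintype.card_fin] at this
    exact_mod_cast this
  have hD : ∑ x : Ent c n, (if x.2.1 = x.2.2 then (1 : ℝ) else 0) ≤ c * n := by
    rw [Finset.sum_boole]
    have : (Finset.univ.filter fun x : Ent c n => x.2.1 = x.2.2).card ≤
        ((Finset.univ : Finset (Fin c)) ×ˢ (Finset.univ : Finset (Fin n))).card := by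
      apply Finset.card_le_card_of_injOn (fun x => (x.1, x.2.1))
      · intro x hx
        simp
      · rintro ⟨a, i, j⟩ hx ⟨a', i', j'⟩ hx' h
        have h1 := (Finset.mem_filter.1 hx).2
        have h2 := (Finset.mem_filter.1 hx').2
        simp only [Prod.mk.injEq] at h h1 h2 ⊢
        exact ⟨h.1, h.2, by rw [← h1, ← h2]; exact h.2⟩
    rw [Finset.card_product, Finset.card_univ, Finset.card_univ, Fintype.card_fin,
      Fintype.card_fin] at this
    exact_mod_cast this
  have hsum := Finset.sum_le_sum fun x (_ : x ∈ (Finset.univ : Finset (Ent c n))) => hpt x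
  refine hsum.trans ?_
  simp only [Finset.sum_add_distrib, ← Finset.mul_sum, Finset.sum_const, Finset.card_univ,
    Fintype.card_prod, Fintype.card_fin, nsmul_eq_mul]
  have hUk : (U.card : ℝ) ≤ 2 * k := by exact_mod_cast hU
  have hU0 : (0 : ℝ) ≤ U.card := Nat.cast_nonneg _
  have hn0 : (0 : ℝ) ≤ n := Nat.cast_nonneg _
  have hc1 : (1 : ℝ) ≤ c := by exact_mod_cast hc
  have hk0 : (0 : ℝ) ≤ k := Nat.cast_nonneg _
  unfold LamG
  set μ : ℝ := ((min n (2 * k) : ℕ) : ℝ) with hμ
  have hμ0 : 0 ≤ μ := Nat.cast_nonneg _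
  push_cast
  have e1 : (U.card : ℝ) * μ ≤ 2 * k * μ := mul_le_mul_of_nonneg_right hUk hμ0
  have e2 : z * ((U.card : ℝ) * n) ≤ z * (2 * k * n) :=
    mul_le_mul_of_nonneg_left (mul_le_mul_of_nonneg_right hUk hn0) hz0
  have e3 : 4 * (k : ℝ) * n * z ≤ 4 * k * μ + c * n ^ 2 * z ^ 2 := by
    have h2 : (n : ℝ) ^ 2 * z ^ 2 ≤ c * (n ^ 2 * z ^ 2) := by
      have : 0 ≤ (n : ℝ) ^ 2 * z ^ 2 := by positivity
      nlinarith
    rcases le_total n (2 * k) with h | h
    · have hμ' : μ = n := by rw [hμ, min_eq_left h]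
      rw [hμ']
      have h3 : 4 * (k : ℝ) * n * z ≤ 4 * k * n := by
        have : 0 ≤ 4 * (k : ℝ) * n := by positivity
        nlinarith
      nlinarith [sq_nonneg ((n : ℝ) * z)]
    · have hμ' : μ = 2 * k := by rw [hμ, min_eq_right h]; push_cast; ring
      rw [hμ']
      have h1 : 0 ≤ (2 * (k : ℝ) - n * z) ^ 2 := sq_nonneg _
      nlinarith
  have e4 := mul_le_mul_of_nonneg_left hB hz0
  have e5 := mul_le_mul_of_nonneg_left hC hz0
  have e6 := mul_le_mul_of_nonneg_left hD hz0
  have e7 : 0 ≤ (k : ℝ) * μ := by positivity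
  nlinarith

theorem VS_card_le {c n : ℕ} (S : Finset (Ent c n)) : (VS S).card ≤ 2 * S.card := by
  unfold VS
  refine Finset.card_biUnion_le.trans ?_
  calc ∑ t ∈ S, (Vl t).card ≤ ∑ _t ∈ S, 2 :=
        Finset.sum_le_sum fun t _ => Finset.card_le_two
    _ = 2 * S.card := by simp [mul_comm]

theorem VS_insert {c n : ℕ} (x : Ent c n) (S : Finset (Ent c n)) :
    VS (insert x S) = VS S ∪ (Vl x \ VS S) := by
  classical
  ext y
  simp only [VS, Finset.mem_biUnion, Finset.mem_union, Finset.mem_sdiff, Finset.mem_insert]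
  constructor
  · rintro ⟨a, rfl | h, h'⟩
    · by_cases hy : ∃ b ∈ S, y ∈ Vl b
      · exact Or.inl hy
      · exact Or.inr ⟨h', hy⟩
    · exact Or.inl ⟨a, h, h'⟩
  · rintro (⟨a, h, h'⟩ | ⟨h, _⟩)
    · exact ⟨a, Or.inr h, h'⟩
    · exact ⟨x, Or.inl rfl, h⟩

/-- sets of `r` letters -/
noncomputable def FF (c n r : ℕ) (z : ℝ) : ℝ :=
  ∑ S ∈ powersetCard r (univ : Finset (Ent c n)), z ^ (VS S).card

theorem FF_zero (c n : ℕ) (z : ℝ) : FF c n 0 z = 1 := by
  simp [FF, VS]

theorem FF_nonneg (c n r : ℕ) {z : ℝ} (hz : 0 ≤ z) : 0 ≤ FF c n r z :=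
  Finset.sum_nonneg fun _ _ => pow_nonneg hz _

theorem FF_succ_le {c n k r : ℕ} {z : ℝ} (hz0 : 0 ≤ z) (hz1 : z ≤ 1) (hr : r ≤ k) :
    ((r : ℝ) + 1) * FF c n (r + 1) z ≤ LamG c n k z * FF c n r z := by
  classical
  have h1 : ((r : ℝ) + 1) * FF c n (r + 1) z =
      ∑ p ∈ (powersetCard (r + 1) (univ : Finset (Ent c n))).sigma (fun S => S),
        z ^ (VS p.1).card := by
    rw [Finset.sum_sigma]
    unfold FF
    rw [Finset.mul_sum]
    refine Finset.sum_congr rfl fun S hS => ?_
    change _ = ∑ _s ∈ S, z ^ (VS S).card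
    rw [Finset.sum_const, (Finset.mem_powersetCard.1 hS).2, nsmul_eq_mul]
    push_cast
    ring
  have h2 : ∑ p ∈ (powersetCard (r + 1) (univ : Finset (Ent c n))).sigma (fun S => S),
        z ^ (VS p.1).card =
      ∑ p ∈ (powersetCard r (univ : Finset (Ent c n))).sigma (fun S => univ \ S),
        z ^ (VS (insert p.2 p.1)).card := by
    refine Finset.sum_bij' (fun p _ => ⟨p.1.erase p.2, p.2⟩) (fun p _ => ⟨insert p.2 p.1, p.2⟩)
      ?_ ?_ ?_ ?_ ?_
    · rintro ⟨S, e⟩ hp
      simp only [Finset.mem_sigma, Finset.mem_powersetCard] at hp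
      simp only [Finset.mem_sigma, Finset.mem_powersetCard, Finset.subset_univ, true_and,
        Finset.mem_sdiff, Finset.mem_univ, Finset.notMem_erase, not_false_eq_true, and_true]
      rw [Finset.card_erase_of_mem hp.2, hp.1.2]
      rfl
    · rintro ⟨S, e⟩ hp
      simp only [Finset.mem_sigma, Finset.mem_powersetCard, Finset.subset_univ, true_and,
        Finset.mem_sdiff, Finset.mem_univ] at hp
      simp only [Finset.mem_sigma, Finset.mem_powersetCard, Finset.subset_univ, true_and,
        Finset.mem_insert_self, and_true]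
      rw [Finset.card_insert_of_notMem hp.2, hp.1]
    · rintro ⟨S, e⟩ hp
      simp only [Finset.mem_sigma] at hp
      simp only [Finset.insert_erase hp.2]
    · rintro ⟨S, e⟩ hp
      simp only [Finset.mem_sigma, Finset.mem_sdiff, Finset.mem_univ, true_and] at hp
      simp only [Finset.erase_insert hp.2]
    · rintro ⟨S, e⟩ hp
      simp only [Finset.mem_sigma] at hp
      simp only [Finset.insert_erase hp.2]
  rw [h1, h2, Finset.sum_sigma]
  unfold FF
  rw [Finset.mul_sum]
  refine Finset.sum_le_sum fun S hS => ?_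
  have hSc := (Finset.mem_powersetCard.1 hS).2
  calc ∑ e ∈ univ \ S, z ^ (VS (insert e S)).card
      = ∑ e ∈ univ \ S, z ^ (Vl e \ VS S).card * z ^ (VS S).card := by
        refine Finset.sum_congr rfl fun e _ => ?_
        rw [VS_insert, Finset.card_union_of_disjoint Finset.disjoint_sdiff, pow_add, mul_comm]
    _ ≤ ∑ e : Ent c n, z ^ (Vl e \ VS S).card * z ^ (VS S).card :=
        Finset.sum_le_sum_of_subset_of_nonneg (Finset.subset_univ _)
          fun _ _ _ => mul_nonneg (pow_nonneg hz0 _) (pow_nonneg hz0 _)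
    _ = (∑ e : Ent c n, z ^ (Vl e \ VS S).card) * z ^ (VS S).card := by
        rw [Finset.sum_mul]
    _ ≤ LamG c n k z * z ^ (VS S).card := by
        refine mul_le_mul_of_nonneg_right (letterG_le hz0 hz1 _ ?_) (pow_nonneg hz0 _)
        exact (VS_card_le S).trans (by omega)

theorem FF_le {c n k : ℕ} {z : ℝ} (hz0 : 0 ≤ z) (hz1 : z ≤ 1) :
    ∀ r : ℕ, r ≤ k → FF c n r z ≤ LamG c n k z ^ r / r.factorial := by
  intro r
  induction r with
  | zero => intro _; simp [FF_zero]
  | succ r ih =>
    intro hr
    have ih := ih (by omega)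
    have h := FF_succ_le (c := c) (n := n) (k := k) (r := r) hz0 hz1 (by omega)
    have hL := LamG_nonneg c n k hz0
    have hr0 : (0 : ℝ) < (r : ℝ) + 1 := by positivity
    have hf0 : (0 : ℝ) < r.factorial := by positivity
    rw [Nat.factorial_succ, pow_succ]
    push_cast
    rw [le_div_iff₀ (by positivity)]
    rw [le_div_iff₀ hf0] at ih
    calc FF c n (r + 1) z * (((r : ℝ) + 1) * r.factorial)
        = (((r : ℝ) + 1) * FF c n (r + 1) z) * r.factorial := by ring
      _ ≤ (LamG c n k z * FF c n r z) * r.factorial := mul_le_mul_of_nonneg_right h hf0.le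
      _ = LamG c n k z * (FF c n r z * r.factorial) := by ring
      _ ≤ LamG c n k z * LamG c n k z ^ r := mul_le_mul_of_nonneg_left ih hL
      _ = LamG c n k z ^ r * LamG c n k z := by ring

/-- multisets of `K` letters, by support -/
theorem mult_le {c n K : ℕ} {z : ℝ} (hz0 : 0 ≤ z) :
    ∑ m ∈ finsuppAntidiag (univ : Finset (Ent c n)) K, z ^ (VS m.support).card ≤
      4 ^ K * ∑ r ∈ range (K + 1), FF c n r z := by
  classical
  refine (le_of_eq (Finset.sum_comp (fun S : Finset (Ent c n) => z ^ (VS S).card)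
    (fun m : Ent c n →₀ ℕ => m.support))).trans ?_
  have hcard : ∀ m ∈ finsuppAntidiag (univ : Finset (Ent c n)) K, m.support.card ≤ K := by
    intro m hm
    rw [Finset.mem_finsuppAntidiag] at hm
    calc m.support.card = ∑ i ∈ m.support, 1 := by simp
      _ ≤ ∑ i ∈ m.support, m i := Finset.sum_le_sum fun i hi =>
          Nat.one_le_iff_ne_zero.2 (Finsupp.mem_support_iff.1 hi)
      _ ≤ ∑ i, m i := Finset.sum_le_sum_of_subset (Finset.subset_univ _)
      _ = K := hm.1
  have hfib : ∀ S ∈ (finsuppAntidiag (univ : Finset (Ent c n)) K).image (fun m => m.support),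
      (((finsuppAntidiag (univ : Finset (Ent c n)) K).filter fun m => m.support = S).card : ℝ) ≤
        4 ^ K := by
    intro S hS
    obtain ⟨m₀, hm₀, rfl⟩ := Finset.mem_image.1 hS
    have hS' := hcard m₀ hm₀
    have h1 : ((finsuppAntidiag (univ : Finset (Ent c n)) K).filter
        fun m => m.support = m₀.support).card ≤ (SD.mons m₀.support K).card := by
      apply Finset.card_le_card
      intro m hm
      rw [Finset.mem_filter, Finset.mem_finsuppAntidiag] at hm
      rw [SD.mem_mons]
      refine ⟨le_of_eq hm.2, ?_⟩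
      rw [Finsupp.degree_eq_sum]
      exact le_of_eq hm.1.1
    rw [SD.card_mons] at h1
    have h2 : (m₀.support.card + K).choose K ≤ 4 ^ K := by
      calc (m₀.support.card + K).choose K ≤ 2 ^ (m₀.support.card + K) := Nat.choose_le_two_pow _ _
        _ ≤ 2 ^ (K + K) := Nat.pow_le_pow_right (by norm_num) (by omega)
        _ = 4 ^ K := by rw [← two_mul, pow_mul]; norm_num
    exact_mod_cast h1.trans h2
  calc ∑ S ∈ (finsuppAntidiag (univ : Finset (Ent c n)) K).image (fun m => m.support),
        ((finsuppAntidiag (univ : Finset (Ent c n)) K).filter fun m => m.support = S).card •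
          z ^ (VS S).card
      ≤ ∑ S ∈ (finsuppAntidiag (univ : Finset (Ent c n)) K).image (fun m => m.support),
          4 ^ K * z ^ (VS S).card := by
        refine Finset.sum_le_sum fun S hS => ?_
        rw [nsmul_eq_mul]
        exact mul_le_mul_of_nonneg_right (hfib S hS) (pow_nonneg hz0 _)
    _ = 4 ^ K * ∑ S ∈ (finsuppAntidiag (univ : Finset (Ent c n)) K).image (fun m => m.support),
          z ^ (VS S).card := by rw [Finset.mul_sum]
    _ ≤ 4 ^ K * ∑ r ∈ range (K + 1), FF c n r z := by
        refine mul_le_mul_of_nonneg_left ?_ (by positivity)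
        have hmaps : ∀ S ∈ (finsuppAntidiag (univ : Finset (Ent c n)) K).image
            (fun m => m.support), S.card ∈ range (K + 1) := by
          intro S hS
          obtain ⟨m₀, hm₀, rfl⟩ := Finset.mem_image.1 hS
          exact Finset.mem_range.2 (Nat.lt_succ_of_le (hcard m₀ hm₀))
        rw [← Finset.sum_fiberwise_of_maps_to hmaps]
        refine Finset.sum_le_sum fun r _ => ?_
        unfold FF
        refine Finset.sum_le_sum_of_subset_of_nonneg ?_ fun _ _ _ => pow_nonneg hz0 _
        intro S hS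
        rw [Finset.mem_powersetCard]
        exact ⟨Finset.subset_univ _, (Finset.mem_filter.1 hS).2⟩

theorem pow_div_mono {X : ℝ} (hX : 0 ≤ X) {a b : ℕ} (hab : a ≤ b) (hb : (b : ℝ) ≤ X) :
    X ^ a / a.factorial ≤ X ^ b / b.factorial := by
  induction b, hab using Nat.le_induction with
  | base => exact le_rfl
  | succ b hab ih =>
    push_cast at hb
    refine (ih (by linarith)).trans ?_
    rw [Nat.factorial_succ, pow_succ]
    push_cast
    rw [div_le_div_iff₀ (by positivity) (by positivity)]
    have h1 : 0 ≤ X ^ b * (b.factorial : ℝ) := by positivity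
    nlinarith

theorem multichoose_le {c J k : ℕ} {X : ℝ} (hX : (c : ℝ) + k ≤ X) (hJ : J ≤ k) :
    (Nat.multichoose c J : ℝ) ≤ X ^ J / J.factorial := by
  rw [Nat.multichoose_eq]
  refine (Nat.choose_le_pow_div J (c + J - 1)).trans ?_
  apply div_le_div_of_nonneg_right _ (by positivity)
  apply pow_le_pow_left₀ (by positivity)
  refine le_trans ?_ hX
  have : c + J - 1 ≤ c + k := by omega
  exact_mod_cast this

theorem countG_le {c n k : ℕ} {z : ℝ} (hk : 1 ≤ k) (hz0 : 0 ≤ z) (hz1 : z ≤ 1) :
    ∑ K ∈ range (k + 1), ∑ J ∈ range (k + 1 - K), (Nat.multichoose c J : ℝ) *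
      ∑ m ∈ finsuppAntidiag (univ : Finset (Ent c n)) K, z ^ (VS m.support).card ≤
      (192 * (c + k + LamG c n k z) / k) ^ k := by
  have hL := LamG_nonneg c n k hz0
  set X : ℝ := c + k + LamG c n k z with hXdef
  have hc0 : (0 : ℝ) ≤ c := Nat.cast_nonneg _
  have hk0 : (0 : ℝ) < k := by exact_mod_cast hk
  have hXk : (k : ℝ) ≤ X := by rw [hXdef]; linarith
  have hX0 : 0 ≤ X := hk0.le.trans hXk
  have hterm : ∀ K ∈ range (k + 1), ∀ J ∈ range (k + 1 - K), (Nat.multichoose c J : ℝ) *
      ∑ m ∈ finsuppAntidiag (univ : Finset (Ent c n)) K, z ^ (VS m.support).card ≤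
      (k + 1) * (8 ^ k * (X ^ k / k.factorial)) := by
    intro K hK J hJ
    rw [Finset.mem_range] at hK hJ
    have h1 : ∑ r ∈ range (K + 1), FF c n r z ≤ (k + 1) * (X ^ K / K.factorial) := by
      calc ∑ r ∈ range (K + 1), FF c n r z ≤ ∑ r ∈ range (K + 1), X ^ K / K.factorial := by
            refine Finset.sum_le_sum fun r hr => ?_
            rw [Finset.mem_range] at hr
            refine (FF_le (k := k) hz0 hz1 r (by omega)).trans ?_
            refine le_trans ?_ (pow_div_mono (X := X) hX0 (show r ≤ K by omega) ?_)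
            · apply div_le_div_of_nonneg_right _ (by positivity)
              apply pow_le_pow_left₀ hL
              rw [hXdef]
              linarith
            · refine le_trans ?_ hXk
              exact_mod_cast (show K ≤ k by omega)
        _ = (K + 1) * (X ^ K / K.factorial) := by
            rw [Finset.sum_const, Finset.card_range, nsmul_eq_mul]
            push_cast
            ring
        _ ≤ (k + 1) * (X ^ K / K.factorial) := by
            apply mul_le_mul_of_nonneg_right _ (by positivity)
            have : (K : ℝ) ≤ k := by exact_mod_cast (show K ≤ k by omega)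
            linarith
    have h2 := multichoose_le (c := c) (J := J) (k := k) (X := X) (by rw [hXdef]; linarith)
      (by omega)
    have h3 := mult_le (c := c) (n := n) (K := K) hz0
    have h4 : X ^ J / J.factorial * (X ^ K / K.factorial) ≤ 2 ^ k * (X ^ k / k.factorial) := by
      have h5 : X ^ J / J.factorial * (X ^ K / K.factorial) =
          ((J + K).choose K : ℝ) * (X ^ (J + K) / (J + K).factorial) := by
        have h6 := Nat.add_choose_mul_factorial_mul_factorial J K
        have h7 : ((J + K).choose K : ℝ) * J.factorial * K.factorial = (J + K).factorial := by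
          exact_mod_cast h6
        rw [← h7, pow_add]
        have hJ0 : (J.factorial : ℝ) ≠ 0 := by positivity
        have hK0 : (K.factorial : ℝ) ≠ 0 := by positivity
        have hC0 : ((J + K).choose K : ℝ) ≠ 0 := by
          have := Nat.choose_pos (show K ≤ J + K by omega)
          positivity
        field_simp
      rw [h5]
      refine mul_le_mul ?_ (pow_div_mono hX0 (by omega) hXk) (by positivity) (by positivity)
      calc ((J + K).choose K : ℝ) ≤ (2 ^ (J + K) : ℕ) := by
            exact_mod_cast Nat.choose_le_two_pow _ _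
        _ ≤ 2 ^ k := by
            push_cast
            exact pow_le_pow_right₀ (by norm_num) (by omega)
    have h5 : (4 : ℝ) ^ K ≤ 4 ^ k := pow_le_pow_right₀ (by norm_num) (by omega)
    have hP0 : 0 ≤ X ^ K / K.factorial := by positivity
    have hQ0 : 0 ≤ X ^ k / k.factorial := by positivity
    have hR0 : 0 ≤ X ^ J / J.factorial := by positivity
    calc (Nat.multichoose c J : ℝ) *
        ∑ m ∈ finsuppAntidiag (univ : Finset (Ent c n)) K, z ^ (VS m.support).card
        ≤ (X ^ J / J.factorial) * (4 ^ k * ((k + 1) * (X ^ K / K.factorial))) := by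
          refine mul_le_mul h2 ?_ (Finset.sum_nonneg fun _ _ => pow_nonneg hz0 _) hR0
          refine h3.trans ?_
          refine mul_le_mul h5 h1 ?_ (by positivity)
          exact Finset.sum_nonneg fun r _ => FF_nonneg c n r hz0
      _ = 4 ^ k * (k + 1) * (X ^ J / J.factorial * (X ^ K / K.factorial)) := by ring
      _ ≤ 4 ^ k * (k + 1) * (2 ^ k * (X ^ k / k.factorial)) :=
          mul_le_mul_of_nonneg_left h4 (by positivity)
      _ = (k + 1) * (8 ^ k * (X ^ k / k.factorial)) := by
          have : (8 : ℝ) ^ k = 4 ^ k * 2 ^ k := by rw [← mul_pow]; norm_num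
          rw [this]
          ring
  have hQ0 : 0 ≤ X ^ k / k.factorial := by positivity
  have hsum : ∑ K ∈ range (k + 1), ∑ J ∈ range (k + 1 - K), (Nat.multichoose c J : ℝ) *
      ∑ m ∈ finsuppAntidiag (univ : Finset (Ent c n)) K, z ^ (VS m.support).card ≤
      (k + 1) * ((k + 1) * ((k + 1) * (8 ^ k * (X ^ k / k.factorial)))) := by
    calc _ ≤ ∑ K ∈ range (k + 1), ((k : ℝ) + 1) * ((k + 1) * (8 ^ k * (X ^ k / k.factorial))) := by
          refine Finset.sum_le_sum fun K hK => ?_
          calc _ ≤ ∑ J ∈ range (k + 1 - K), ((k : ℝ) + 1) * (8 ^ k * (X ^ k / k.factorial)) :=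
                Finset.sum_le_sum fun J hJ => hterm K hK J hJ
            _ = ((k + 1 - K : ℕ) : ℝ) * (((k : ℝ) + 1) * (8 ^ k * (X ^ k / k.factorial))) := by
                rw [Finset.sum_const, Finset.card_range, nsmul_eq_mul]
            _ ≤ _ := by
                apply mul_le_mul_of_nonneg_right _ (by positivity)
                exact_mod_cast (show k + 1 - K ≤ k + 1 by omega)
      _ = _ := by
          rw [Finset.sum_const, Finset.card_range, nsmul_eq_mul]
          push_cast
          ring
  refine hsum.trans ?_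
  have h8 : ((k : ℝ) + 1) ≤ 2 ^ k := by
    have : k + 1 ≤ 2 ^ k := Nat.lt_two_pow_self
    exact_mod_cast this
  have h9 : X ^ k / k.factorial ≤ (3 * X / k) ^ k := by
    have h10 : (k : ℝ) ^ k / k.factorial ≤ Real.exp k := Real.pow_div_factorial_le_exp k hk0.le k
    have h11 : Real.exp k ≤ 3 ^ k := by
      have : Real.exp k = Real.exp 1 ^ k := by rw [← Real.exp_nat_mul]; ring_nf
      rw [this]
      exact pow_le_pow_left₀ (Real.exp_pos 1).le (by linarith [Real.exp_one_lt_d9]) k
    have hf0 : (0 : ℝ) < k.factorial := by positivity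
    have hkk : (0 : ℝ) < (k : ℝ) ^ k := by positivity
    have h12 : (k : ℝ) ^ k ≤ 3 ^ k * k.factorial := by
      rw [div_le_iff₀ hf0] at h10
      exact h10.trans (mul_le_mul_of_nonneg_right h11 hf0.le)
    rw [div_pow, mul_pow, div_le_div_iff₀ hf0 hkk]
    have hXk0 : 0 ≤ X ^ k := by positivity
    nlinarith
  calc ((k : ℝ) + 1) * ((k + 1) * ((k + 1) * (8 ^ k * (X ^ k / k.factorial))))
      = ((k : ℝ) + 1) ^ 3 * (8 ^ k * (X ^ k / k.factorial)) := by ring
    _ ≤ (2 ^ k) ^ 3 * (8 ^ k * (3 * X / k) ^ k) := by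
        refine mul_le_mul (pow_le_pow_left₀ (by positivity) h8 3) ?_ (by positivity)
          (by positivity)
        exact mul_le_mul_of_nonneg_left h9 (by positivity)
    _ = (192 * X / k) ^ k := by
        have h13 : ((2 : ℝ) ^ k) ^ 3 = 8 ^ k := by
          rw [← pow_mul, mul_comm, pow_mul]; norm_num
        rw [h13, ← mul_pow, ← mul_pow]
        congr 1
        ring

theorem ubG_le (N c n k l : ℕ) (hk : 1 ≤ k) (hN : 0 < N + c * n) (z : ℝ)
    (hz : z = ((N + c * n : ℕ) : ℝ) / ((N + c * n + l : ℕ) : ℝ)) :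
    (ubG N c n k l : ℝ) ≤ (192 * (c + k + LamG c n k z) / k) ^ k *
      ((N + c * n + l).choose l : ℝ) := by
  have hz0 : 0 ≤ z := by rw [hz]; positivity
  have hz1 : z ≤ 1 := by
    rw [hz]
    apply div_le_one_of_le₀ _ (by positivity)
    push_cast
    have : (0 : ℝ) ≤ l := Nat.cast_nonneg l
    linarith
  have hB : (0 : ℝ) ≤ ((N + c * n + l).choose l : ℝ) := by positivity
  have h := mul_le_mul_of_nonneg_right (countG_le (c := c) (n := n) (k := k) hk hz0 hz1) hB
  refine le_trans ?_ h
  unfold ubG
  rw [Finset.sum_mul]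
  push_cast
  refine Finset.sum_le_sum fun K _ => ?_
  rw [Finset.sum_mul]
  refine Finset.sum_le_sum fun J _ => ?_
  rw [mul_assoc, Finset.sum_mul]
  refine mul_le_mul_of_nonneg_left (Finset.sum_le_sum fun m _ => ?_) (by positivity)
  have hV : (VS m.support).card ≤ c * n := by
    have := Finset.card_le_univ (VS m.support)
    simpa using this
  have h6 := SD.choose_ratio (N + c * n) (VS m.support).card l (by omega) hN
  have h7 : N + c * n - (VS m.support).card = N + (c * n - (VS m.support).card) := by omega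
  rw [h7] at h6
  refine h6.trans (le_of_eq ?_)
  rw [hz]
  push_cast
  ring

end Pool.Agent.Work.MP_35c45d_lc.FD
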