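import Pool.Agent.Work.MP_35c45d_lc.SMCardA

/-! # Multiples: the number of pairs (derivative, shift): see `SMCardA` (helper28) -/
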