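import Pool.Agent.Work.MP_35c45d_lc.SDMons

/-! # Shifted partial derivatives of `∏ i, ∑ a, X (i, a) ^ D` -/

set_option autoImplicit false

namespace Pool.Agent.Work.MP_35c45d_lc.SD

open MvPolynomial

section der

variable {σ : Type}

theorem pderiv_prod_zero {α : Type} (v : σ) (s : Finset α) (g : α → MvPolynomial σ ℂ)
    (h : ∀ i ∈ s, pderiv v (g i) = 0) : pderiv v (∏ i ∈ s, g i) = 0 := by
  classical
  induction s using Finset.induction_on with
  | empty => simp
  | insert a s ha ih =>
    rw [Finset.prod_insert ha, Derivation.leibniz, h a (Finset.mem_insert_self _ _),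
      ih fun i hi => h i (Finset.mem_insert_of_mem hi), smul_zero, smul_zero, add_zero]

/-- the derivative in the variables `(i, a i)` is a monomial -/
theorem dk_fermat_aux {k p D n : ℕ} (a : Fin k → Fin p) : ∀ (k' : ℕ) (b : Fin k' → Fin k),
    Function.Injective b →
    dk (n := n) (fun t => (b t, a (b t))) (rename Sum.inl (fermat k p D)) =
      C ((D : ℂ) ^ k') * (∏ t, X (Sum.inl (b t, a (b t))) ^ (D - 1)) *
        ∏ i ∈ Finset.univ \ Finset.univ.image b, ∑ c : Fin p, X (Sum.inl (i, c)) ^ D := by
  classical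
  intro k'
  induction k' with
  | zero =>
    intro b _
    simp [dk, fermat, map_prod, map_sum]
  | succ k' ih =>
    intro b hb
    have hb' : Function.Injective (Fin.tail b) := fun i j hij => Fin.succ_injective _ (hb hij)
    have hb0 : ∀ t, Fin.tail b t ≠ b 0 := fun t h => by
      have := hb h
      exact absurd this (Fin.succ_ne_zero t)
    have h1 : dk (n := n) (fun t => (b t, a (b t))) (rename Sum.inl (fermat k p D)) =
        pderiv (Sum.inl (b 0, a (b 0))) (dk (n := n) (fun t => (Fin.tail b t, a (Fin.tail b t)))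
          (rename Sum.inl (fermat k p D))) := rfl
    rw [h1, ih (Fin.tail b) hb']
    have hset : Finset.univ \ Finset.univ.image (Fin.tail b) =
        insert (b 0) (Finset.univ \ Finset.univ.image b) := by
      ext i
      simp only [Finset.mem_sdiff, Finset.mem_univ, true_and, Finset.mem_image, not_exists,
        Finset.mem_insert]
      constructor
      · intro h
        by_cases hi : i = b 0
        · exact Or.inl hi
        · right
          intro t
          refine Fin.cases (fun h => hi h.symm) (fun t => h t) t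
      · rintro (rfl | h)
        · exact hb0
        · exact fun t => h t.succ
    have hnot : b 0 ∉ Finset.univ \ Finset.univ.image b := by
      simp
    rw [hset, Finset.prod_insert hnot]
    set v : (Fin k × Fin p) ⊕ Fin n := Sum.inl (b 0, a (b 0)) with hv
    set P1 : MvPolynomial ((Fin k × Fin p) ⊕ Fin n) ℂ :=
      ∏ t, X (Sum.inl (Fin.tail b t, a (Fin.tail b t))) ^ (D - 1) with hP1
    set P2 : MvPolynomial ((Fin k × Fin p) ⊕ Fin n) ℂ :=
      ∏ i ∈ Finset.univ \ Finset.univ.image b, ∑ c : Fin p, X (Sum.inl (i, c)) ^ D with hP2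
    have d1 : pderiv v P1 = 0 := by
      refine pderiv_prod_zero _ _ _ fun t _ => ?_
      rw [Derivation.leibniz_pow, pderiv_X_of_ne, smul_zero, smul_zero]
      intro h
      exact hb0 t (Prod.mk.inj (Sum.inl.inj h)).1
    have d2 : pderiv v P2 = 0 := by
      refine pderiv_prod_zero _ _ _ fun i hi => ?_
      rw [map_sum]
      refine Finset.sum_eq_zero fun c _ => ?_
      rw [Derivation.leibniz_pow, pderiv_X_of_ne, smul_zero, smul_zero]
      intro h
      rw [(Prod.mk.inj (Sum.inl.inj h)).1] at hi
      exact hnot hi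
    have d3 : pderiv v (∑ c : Fin p, X (Sum.inl (b 0, c)) ^ D :
        MvPolynomial ((Fin k × Fin p) ⊕ Fin n) ℂ) = C (D : ℂ) * X v ^ (D - 1) := by
      rw [map_sum, Finset.sum_eq_single (a (b 0))]
      · rw [Derivation.leibniz_pow, ← hv, pderiv_X_self, nsmul_eq_mul, smul_eq_mul, mul_one]
        simp
      · intro c _ hc
        rw [Derivation.leibniz_pow, pderiv_X_of_ne, smul_zero, smul_zero]
        intro h
        exact hc (Prod.mk.inj (Sum.inl.inj h)).2
      · intro h
        exact absurd (Finset.mem_univ _) h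
    rw [Derivation.leibniz, Derivation.leibniz, Derivation.leibniz, d1, d2, d3, pderiv_C]
    simp only [smul_eq_mul]
    rw [Fin.prod_univ_succ]
    have h3 : (∏ t : Fin k', X (Sum.inl (b t.succ, a (b t.succ))) ^ (D - 1) :
      MvPolynomial ((Fin k × Fin p) ⊕ Fin n) ℂ) = P1 := rfl
    rw [h3, pow_succ, C_mul, ← hv]
    ring

end der

/-- the derivative in the variables `(i, a i)` is a monomial -/
theorem dk_fermat {k p D n : ℕ} (a : Fin k → Fin p) :
    dk (n := n) (fun i => (i, a i)) (rename Sum.inl (fermat k p D)) =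
      monomial (∑ i, Finsupp.single (Sum.inl (i, a i)) (D - 1)) ((D : ℂ) ^ k) := by
  classical
  have h := dk_fermat_aux (D := D) (n := n) a k id Function.injective_id
  simp only [id_eq] at h
  rw [h, Finset.image_id, Finset.sdiff_self, Finset.prod_empty, mul_one]
  have h1 : ∀ t : Fin k, (X (Sum.inl (t, a t)) ^ (D - 1) :
      MvPolynomial ((Fin k × Fin p) ⊕ Fin n) ℂ) =
      monomial (Finsupp.single (Sum.inl (t, a t)) (D - 1)) 1 := fun t => X_pow_eq_monomial
  simp only [h1]
  rw [← monomial_sum_one, C_mul_monomial, mul_one]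

/-- the pairs (derivative, shift) used in the lower bound -/
def good (k p D n l : ℕ) : Finset ((Fin k → Fin p) × ((Fin k × Fin p) ⊕ Fin n →₀ ℕ)) :=
  Finset.univ ×ˢ ((mons Finset.univ l).filter fun μ => ∀ q, μ (Sum.inl q) < D - 1)

/-- the exponent of the shifted derivative -/
noncomputable def expo {k p n : ℕ} (D : ℕ)
    (x : (Fin k → Fin p) × ((Fin k × Fin p) ⊕ Fin n →₀ ℕ)) : (Fin k × Fin p) ⊕ Fin n →₀ ℕ :=
  x.2 + ∑ i, Finsupp.single (Sum.inl (i, x.1 i)) (D - 1)

theorem expo_apply {k p n D : ℕ} (x : (Fin k → Fin p) × ((Fin k × Fin p) ⊕ Fin n →₀ ℕ))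
    (i : Fin k) (c : Fin p) :
    expo D x (Sum.inl (i, c)) = x.2 (Sum.inl (i, c)) + if x.1 i = c then D - 1 else 0 := by
  classical
  rw [expo, Finsupp.add_apply, Finsupp.finsetSum_apply]
  congr 1
  rw [Finset.sum_eq_single i]
  · rw [Finsupp.single_apply]
    simp only [Sum.inl.injEq, Prod.mk.injEq, true_and]
  · intro j _ hj
    rw [Finsupp.single_apply, if_neg]
    intro h
    exact hj (Prod.mk.inj (Sum.inl.inj h)).1
  · intro h
    exact absurd (Finset.mem_univ _) h

theorem expo_inj {k p D n l : ℕ} :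
    Set.InjOn (expo (k := k) (p := p) (n := n) D) (good k p D n l) := by
  classical
  rintro ⟨a, μ⟩ hx ⟨a', μ'⟩ hx' h
  simp only [good, Finset.coe_product, Finset.coe_univ, Set.mem_prod, Set.mem_univ, true_and,
    Finset.mem_coe, Finset.mem_filter] at hx hx'
  have ha : a = a' := by
    funext i
    by_contra hne
    have h1 := DFunLike.congr_fun h (Sum.inl (i, a i))
    rw [expo_apply, expo_apply] at h1
    have h3 : (if (a, μ).1 i = a i then D - 1 else 0) = D - 1 := if_pos rfl
    have h4 : (if (a', μ').1 i = a i then D - 1 else 0) = 0 := if_neg (fun h => hne h.symm)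
    rw [h3, h4] at h1
    have h2 := hx'.2 (i, a i)
    simp only at h1
    omega
  subst ha
  rw [expo, expo] at h
  simp only at h
  rw [add_right_cancel h]

theorem good_card (k p D n l : ℕ) (hk : 1 ≤ k) (hp : 1 ≤ p) (z : ℝ)
    (hz : z = ((k * p + n : ℕ) : ℝ) / ((k * p + n + l : ℕ) : ℝ))
    (h : 2 * ((k * p : ℕ) : ℝ) * (1 - z) ^ (D - 1) ≤ 1) :
    (p : ℝ) ^ k / 2 * ((k * p + n + l).choose l : ℝ) ≤ ((good k p D n l).card : ℝ) := by
  classical
  have hkp : 1 ≤ k * p := Nat.mul_pos hk hp
  set σ := (Fin k × Fin p) ⊕ Fin n with hσ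
  have hcs : Fintype.card σ = k * p + n := by
    change Fintype.card ((Fin k × Fin p) ⊕ Fin n) = k * p + n
    rw [Fintype.card_sum, Fintype.card_prod, Fintype.card_fin, Fintype.card_fin, Fintype.card_fin]
  have hcard : (mons (Finset.univ : Finset σ) l).card = (k * p + n + l).choose l := by
    rw [card_mons, Finset.card_univ, hcs]
  have h1z : 1 - z = (l : ℝ) / (((k * p + n : ℕ) : ℝ) + l) := by
    have hpos : (0 : ℝ) < ((k * p + n : ℕ) : ℝ) + l := by
      have : (0 : ℝ) < ((k * p + n : ℕ) : ℝ) := by exact_mod_cast (by omega : 0 < k * p + n)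
      positivity
    rw [hz]
    rw [Nat.cast_add (k * p + n) l]
    field_simp
    ring
  -- the bad monomials
  have hbad : ∀ q : Fin k × Fin p,
      (((mons (Finset.univ : Finset σ) l).filter fun μ => D - 1 ≤ μ (Sum.inl q)).card : ℝ) ≤
        (1 - z) ^ (D - 1) * ((k * p + n + l).choose l : ℝ) := by
    intro q
    by_cases hl : D - 1 ≤ l
    · refine le_trans ?_ (h1z ▸ choose_ratio' (k * p + n) l (D - 1) hl (by omega))
      rw [← (show (mons (Finset.univ : Finset σ) (l - (D - 1))).card =
        (k * p + n + (l - (D - 1))).choose (l - (D - 1)) by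
          rw [card_mons, Finset.card_univ, hcs])]
      norm_cast
      refine Finset.card_le_card_of_injOn (fun μ => μ - Finsupp.single (Sum.inl q) (D - 1)) ?_ ?_
      · intro μ hμ
        rw [Finset.coe_filter, Set.mem_ofPred_eq, mem_mons] at hμ
        rw [Finset.mem_coe, mem_mons]
        refine ⟨Finset.subset_univ _, ?_⟩
        have h2 : μ = (μ - Finsupp.single (Sum.inl q) (D - 1)) +
            Finsupp.single (Sum.inl q) (D - 1) := by
          rw [tsub_add_cancel_of_le]
          exact Finsupp.single_le_iff.2 hμ.2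
        have h3 := congrArg Finsupp.degree h2
        rw [map_add, Finsupp.degree_single] at h3
        have h4 := hμ.1.2
        change (μ - Finsupp.single (Sum.inl q) (D - 1)).degree ≤ l - (D - 1)
        omega
      · intro μ hμ μ' hμ' hh
        rw [Finset.coe_filter, Set.mem_ofPred_eq] at hμ hμ'
        have h2 : ∀ ν : σ →₀ ℕ, D - 1 ≤ ν (Sum.inl q) →
            (ν - Finsupp.single (Sum.inl q) (D - 1)) +
            Finsupp.single (Sum.inl q) (D - 1) = ν := fun ν hν =>
          tsub_add_cancel_of_le (Finsupp.single_le_iff.2 hν)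
        rw [← h2 μ hμ.2, ← h2 μ' hμ'.2]
        simp only at hh
        rw [hh]
    · have : ((mons (Finset.univ : Finset σ) l).filter fun μ => D - 1 ≤ μ (Sum.inl q)) = ∅ := by
        rw [Finset.filter_eq_empty_iff]
        intro μ hμ hq
        rw [mem_mons] at hμ
        have h3 : μ (Sum.inl q) ≤ μ.degree := Finsupp.le_degree _ _
        have h4 := hμ.2
        omega
      rw [this, Finset.card_empty, Nat.cast_zero]
      have h5 : 0 ≤ 1 - z := by rw [h1z]; positivity
      positivity
  -- the good monomials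
  have hunion : (mons (Finset.univ : Finset σ) l) ⊆
      ((mons (Finset.univ : Finset σ) l).filter fun μ => ∀ q, μ (Sum.inl q) < D - 1) ∪
      Finset.univ.biUnion fun q : Fin k × Fin p =>
        ((mons (Finset.univ : Finset σ) l).filter fun μ => D - 1 ≤ μ (Sum.inl q)) := by
    intro μ hμ
    rw [Finset.mem_union, Finset.mem_filter, Finset.mem_biUnion]
    by_cases hq : ∀ q, μ (Sum.inl q) < D - 1
    · exact Or.inl ⟨hμ, hq⟩
    · push Not at hq
      obtain ⟨q, hq⟩ := hq
      exact Or.inr ⟨q, Finset.mem_univ _, Finset.mem_filter.2 ⟨hμ, hq⟩⟩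
  have hle := (Finset.card_le_card hunion).trans (Finset.card_union_le _ _)
  have hle2 := hle.trans (Nat.add_le_add_left Finset.card_biUnion_le _)
  rw [hcard] at hle2
  have hle3 : ((k * p + n + l).choose l : ℝ) ≤
      (((mons (Finset.univ : Finset σ) l).filter fun μ => ∀ q, μ (Sum.inl q) < D - 1).card : ℝ) +
        ∑ q : Fin k × Fin p, (((mons (Finset.univ : Finset σ) l).filter
          fun μ => D - 1 ≤ μ (Sum.inl q)).card : ℝ) := by
    exact_mod_cast hle2
  have hsum : ∑ q : Fin k × Fin p, (((mons (Finset.univ : Finset σ) l).filter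
      fun μ => D - 1 ≤ μ (Sum.inl q)).card : ℝ) ≤
      ((k * p : ℕ) : ℝ) * ((1 - z) ^ (D - 1) * ((k * p + n + l).choose l : ℝ)) := by
    refine (Finset.sum_le_card_nsmul _ _ _ fun q _ => hbad q).trans ?_
    rw [nsmul_eq_mul, Finset.card_univ, Fintype.card_prod, Fintype.card_fin, Fintype.card_fin]
  have hgood : ((good k p D n l).card : ℝ) = (p : ℝ) ^ k *
      (((mons (Finset.univ : Finset σ) l).filter fun μ => ∀ q, μ (Sum.inl q) < D - 1).card : ℝ) := by
    rw [good, Finset.card_product, Finset.card_univ, Fintype.card_fun, Fintype.card_fin,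
      Fintype.card_fin]
    push_cast
    rfl
  rw [hgood, div_mul_eq_mul_div, mul_div_assoc]
  refine mul_le_mul_of_nonneg_left ?_ (by positivity)
  have hC : (0 : ℝ) ≤ ((k * p + n + l).choose l : ℝ) := by positivity
  nlinarith [mul_le_mul_of_nonneg_right h hC]

end Pool.Agent.Work.MP_35c45d_lc.SD
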