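import Pool.Agent.Work.MP_35c45d_lc.SDDefs
import Pool.Agent.Work.MP_35c45d_lc.SQBorder

/-! # Limits of sums of determinants: substitutions, padding, degree -/

set_option autoImplicit false

namespace Pool.Agent.Work.MP_35c45d_lc.SD

open MvPolynomial Filter Topology

variable {ι κ : Type} {M n : ℕ}

theorem totalDegree_sum_det_le (A : Fin M → Matrix (Fin n) (Fin n) (MvPolynomial ι ℂ))
    (hA : ∀ t i j, (A t i j).totalDegree ≤ 1) : (∑ t, (A t).det).totalDegree ≤ n :=
  totalDegree_finsetSum_le fun t _ => Border.totalDegree_det_le _ (hA t)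

/-- compare `SQ.BorderDet.subst` -/
theorem LimSumDet.subst [Fintype ι] {f : MvPolynomial ι ℂ} (hf : LimSumDet M n f)
    (φ : ι → MvPolynomial κ ℂ) (hφ : ∀ i, (φ i).totalDegree ≤ 1) :
    LimSumDet M n (aeval φ f) := by
  classical
  obtain ⟨A, hA, hlim⟩ := hf
  refine ⟨fun s t => (A s t).map (aeval φ), fun s t i j => ?_, fun d => ?_⟩
  · exact SQ.totalDegree_aeval_le _ (hA s t i j) φ hφ
  · have h1 : ∀ s, ∑ t, ((A s t).map (aeval φ)).det = aeval φ (∑ t, (A s t).det) := by
      intro s
      rw [map_sum]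
      refine Finset.sum_congr rfl fun t _ => ?_
      rw [AlgHom.map_det]
      rfl
    simp only [h1]
    exact SQ.tendsto_linear n _ f (fun s => totalDegree_sum_det_le _ (hA s)) hlim
      ((lcoeff ℂ d).comp (aeval φ).toLinearMap)

theorem LimSumDet.pad {f : MvPolynomial ι ℂ} (hf : LimSumDet M n f) {n' : ℕ} (h : n ≤ n') :
    LimSumDet M n' f := by
  classical
  obtain ⟨e, rfl⟩ : ∃ e, n' = n + e := ⟨n' - n, by omega⟩
  obtain ⟨A, hA, hlim⟩ := hf
  refine ⟨fun s t => (Matrix.fromBlocks (A s t) 0 0 (1 : Matrix (Fin e) (Fin e) _)).submatrix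
    finSumFinEquiv.symm finSumFinEquiv.symm, fun s t i j => ?_, fun d => ?_⟩
  · change ((Matrix.fromBlocks (A s t) 0 0 (1 : Matrix (Fin e) (Fin e) _))
      (finSumFinEquiv.symm i) (finSumFinEquiv.symm j)).totalDegree ≤ 1
    rcases finSumFinEquiv.symm i with i | i <;> rcases finSumFinEquiv.symm j with j | j
    · exact hA s t i j
    · simp
    · simp
    · rw [Matrix.fromBlocks_apply₂₂, Matrix.one_apply]
      split_ifs <;> simp
  · have h1 : ∀ s t, ((Matrix.fromBlocks (A s t) 0 0 (1 : Matrix (Fin e) (Fin e) _)).submatrix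
        finSumFinEquiv.symm finSumFinEquiv.symm).det = (A s t).det := by
      intro s t
      rw [Matrix.det_submatrix_equiv_self, Matrix.det_fromBlocks_zero₂₁, Matrix.det_one, mul_one]
    simp only [h1]
    exact hlim d

theorem perm_coeff {m : ℕ} :
    coeff (∑ i : Fin m, Finsupp.single (i, i) 1) (permP m) = 1 := by
  classical
  unfold permP Matrix.permanent
  simp only [Matrix.of_apply]
  rw [coeff_sum]
  have h1 : ∀ σ : Equiv.Perm (Fin m), (∏ i : Fin m, (X (σ i, i) : MvPolynomial (Fin m × Fin m) ℂ)) =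
      monomial (∑ i : Fin m, Finsupp.single (σ i, i) 1) 1 := by
    intro σ
    rw [monomial_sum_one]
    rfl
  simp only [h1, coeff_monomial]
  rw [Finset.sum_eq_single 1]
  · simp
  · intro σ _ hσ
    rw [if_neg]
    intro h
    apply hσ
    ext j
    have h2 := DFunLike.congr_fun h (σ j, j)
    simp only [Finsupp.coe_finsetSum, Finset.sum_apply, Finsupp.single_apply] at h2
    have h3 : (∑ i : Fin m, if (σ i, i) = (σ j, j) then 1 else 0) = 1 := by
      rw [Finset.sum_eq_single j]
      · simp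
      · intro b _ hb
        rw [if_neg]
        intro h4
        exact hb (Prod.mk.inj h4).2
      · simp
    rw [h3] at h2
    by_contra hne
    have h4 : (∑ i : Fin m, if (i, i) = (σ j, j) then 1 else 0) = 0 := by
      refine Finset.sum_eq_zero fun i _ => ?_
      rw [if_neg]
      intro h5
      have h6 := Prod.mk.inj h5
      apply hne
      rw [Equiv.Perm.one_apply, ← h6.1, h6.2]
    rw [h4] at h2
    exact absurd h2 (by norm_num)
  · simp

theorem degree_diag (m : ℕ) :
    (∑ i : Fin m, Finsupp.single ((i, i) : Fin m × Fin m) 1).degree = m := by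
  rw [map_sum]
  simp

theorem LimSumDet.le {m : ℕ} (hm : 1 ≤ m) (h : LimSumDet M n (permP m)) : m ≤ n ∧ 1 ≤ M := by
  have _ := hm
  obtain ⟨A, hA, hlim⟩ := h
  have h1 := hlim (∑ i : Fin m, Finsupp.single (i, i) 1)
  rw [perm_coeff] at h1
  constructor
  · by_contra hlt
    have h2 : ∀ s, coeff (∑ i : Fin m, Finsupp.single (i, i) 1) (∑ t, (A s t).det) = 0 := by
      intro s
      apply coeff_eq_zero_of_totalDegree_lt
      refine lt_of_le_of_lt (totalDegree_sum_det_le _ (hA s)) ?_
      have h3 := degree_diag m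
      rw [Finsupp.degree_apply] at h3
      rw [h3]
      omega
    simp only [h2] at h1
    exact zero_ne_one (tendsto_nhds_unique tendsto_const_nhds h1)
  · by_contra hlt
    have h0 : M = 0 := by omega
    subst h0
    simp only [Finset.univ_eq_empty, Finset.sum_empty, coeff_zero] at h1
    exact zero_ne_one (tendsto_nhds_unique tendsto_const_nhds h1)

/-- coefficients depend continuously on the parameter of the dummy variables -/
theorem tendsto_bord (A : Matrix (Fin n) (Fin n) (MvPolynomial ι ℂ)) (d : ι ⊕ Fin n →₀ ℕ) :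
    Tendsto (fun v : ℂ => coeff d (SD.bord v A).det) (𝓝 0)
      (𝓝 (coeff d (rename Sum.inl A.det))) := by
  classical
  let P : Polynomial (MvPolynomial (ι ⊕ Fin n) ℂ) :=
    (Matrix.of fun i j => Polynomial.C (rename Sum.inl (A i j)) +
      if i = j then Polynomial.X * Polynomial.C (X (Sum.inr i)) else 0).det
  have h1 : ∀ v : ℂ, (SD.bord v A).det = P.eval (C v) := by
    intro v
    have h2 : P.eval (C v) = Polynomial.evalRingHom (C v) P := rfl
    rw [h2, RingHom.map_det]
    congr 1
    refine Matrix.ext fun i j => ?_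
    simp only [SD.bord, Matrix.of_apply, RingHom.mapMatrix_apply, Matrix.map_apply]
    split_ifs
    · rw [map_add, map_mul, Polynomial.coe_evalRingHom, Polynomial.eval_C, Polynomial.eval_X,
        Polynomial.eval_C]
    · rw [map_add, map_zero, Polynomial.coe_evalRingHom, Polynomial.eval_C]
  have h3 : ∀ v : ℂ, coeff d (SD.bord v A).det =
      ∑ j ∈ Finset.range (P.natDegree + 1), coeff d (P.coeff j) * v ^ j := by
    intro v
    rw [h1, Polynomial.eval_eq_sum_range, coeff_sum]
    refine Finset.sum_congr rfl fun j _ => ?_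
    rw [← C_pow, mul_comm, coeff_C_mul, mul_comm]
  have h4 : coeff d (rename Sum.inl A.det) = ∑ j ∈ Finset.range (P.natDegree + 1),
      coeff d (P.coeff j) * (0 : ℂ) ^ j := by
    rw [← h3]
    congr 1
    rw [AlgHom.map_det]
    congr 1
    ext i j
    simp [SD.bord]
  rw [h4]
  simp only [h3]
  refine (Continuous.tendsto ?_ 0)
  fun_prop

theorem totalDegree_bord_le (v : ℂ) (A : Matrix (Fin n) (Fin n) (MvPolynomial ι ℂ))
    (hA : ∀ i j, (A i j).totalDegree ≤ 1) (i j : Fin n) : (SD.bord v A i j).totalDegree ≤ 1 := by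
  rw [SD.bord, Matrix.of_apply]
  refine (totalDegree_add _ _).trans (max_le ?_ ?_)
  · exact (totalDegree_rename_le _ _).trans (hA i j)
  · split_ifs
    · refine (totalDegree_mul _ _).trans ?_
      rw [totalDegree_C, zero_add, totalDegree_X]
    · simp

/-- In a limit of sums of determinants the dummy variables can be added. -/
theorem LimSumDet.bord [Fintype ι] {f : MvPolynomial ι ℂ} (hf : LimSumDet M n f) :
    ∃ (A : ℕ → Fin M → Matrix (Fin n) (Fin n) (MvPolynomial ι ℂ)) (v : ℕ → ℂ),
      (∀ s t i j, (A s t i j).totalDegree ≤ 1) ∧ (∀ s, v s ≠ 0) ∧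
      ∀ d, Tendsto (fun s => coeff d (∑ t, (SD.bord (v s) (A s t)).det)) atTop
        (𝓝 (coeff d (rename Sum.inl f))) := by
  classical
  obtain ⟨A, hA, hlim⟩ := hf
  obtain ⟨T, hT⟩ := SQ.exists_expset (ι := ι ⊕ Fin n) n
  have hlim' : ∀ d, Tendsto (fun s => coeff d (rename (Sum.inl : ι → ι ⊕ Fin n)
      (∑ t, (A s t).det))) atTop (𝓝 (coeff d (rename Sum.inl f))) := fun d =>
    SQ.tendsto_linear n _ f (fun s => totalDegree_sum_det_le _ (hA s)) hlim
      ((lcoeff ℂ d).comp (rename Sum.inl).toLinearMap)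
  have hex : ∀ s : ℕ, ∃ v : ℂ, v ≠ 0 ∧ ∀ d ∈ T,
      dist (coeff d (∑ t, (SD.bord v (A s t)).det))
        (coeff d (rename (Sum.inl : ι → ι ⊕ Fin n) (∑ t, (A s t).det))) < 1 / ((s : ℝ) + 1) := by
    intro s
    have h1 : ∀ᶠ v in 𝓝[≠] (0 : ℂ), ∀ d ∈ T,
        dist (coeff d (∑ t, (SD.bord v (A s t)).det))
        (coeff d (rename (Sum.inl : ι → ι ⊕ Fin n) (∑ t, (A s t).det))) < 1 / ((s : ℝ) + 1) := by
      rw [Filter.eventually_all_finset]
      intro d _
      have h2 : Tendsto (fun v : ℂ => coeff d (∑ t, (SD.bord v (A s t)).det)) (𝓝 0)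
          (𝓝 (coeff d (rename (Sum.inl : ι → ι ⊕ Fin n) (∑ t, (A s t).det)))) := by
        simp only [coeff_sum, map_sum]
        exact tendsto_finsetSum _ fun t _ => tendsto_bord (A s t) d
      exact ((Metric.tendsto_nhds.mp h2) _ (by positivity)).filter_mono nhdsWithin_le_nhds
    obtain ⟨v, hv, hv0⟩ := (h1.and self_mem_nhdsWithin).exists
    exact ⟨v, hv0, hv⟩
  choose v hv0 hv using hex
  refine ⟨A, v, hA, hv0, fun d => ?_⟩
  by_cases hd : d ∈ T
  · have h0 : Tendsto (fun t : ℕ => 1 / ((t : ℝ) + 1)) atTop (𝓝 0) :=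
      tendsto_one_div_add_atTop_nhds_zero_nat
    have h2 : Tendsto (fun s => coeff d (∑ t, (SD.bord (v s) (A s t)).det) -
        coeff d (rename (Sum.inl : ι → ι ⊕ Fin n) (∑ t, (A s t).det))) atTop (𝓝 0) := by
      rw [tendsto_zero_iff_norm_tendsto_zero]
      refine squeeze_zero (fun t => norm_nonneg _) (fun t => ?_) h0
      rw [← dist_eq_norm]
      exact (hv t d hd).le
    have h3 := h2.add (hlim' d)
    simpa using h3
  · have h1 : ∀ g : MvPolynomial (ι ⊕ Fin n) ℂ, g.totalDegree ≤ n → coeff d g = 0 := by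
      intro g hg
      by_contra h
      exact hd (hT g hg (mem_support_iff.mpr h))
    have h2 : ∀ s, coeff d (∑ t, (SD.bord (v s) (A s t)).det) = 0 := fun s =>
      h1 _ (totalDegree_sum_det_le _ fun t => totalDegree_bord_le _ _ (hA s t))
    have h3 : ∀ s, coeff d (rename (Sum.inl : ι → ι ⊕ Fin n) (∑ t, (A s t).det)) = 0 := fun s =>
      h1 _ ((totalDegree_rename_le _ _).trans (totalDegree_sum_det_le _ (hA s)))
    have h4 := hlim' d
    simp only [h3] at h4
    rw [← tendsto_nhds_unique tendsto_const_nhds h4]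
    simp only [h2]
    exact tendsto_const_nhds

end Pool.Agent.Work.MP_35c45d_lc.SD
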