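import Pool.Agent.Work.MP_35c45d_lc.SDSpan
import Pool.Agent.Work.MP_35c45d_lc.SDLow
import Pool.Agent.Work.MP_35c45d_lc.SDSub

/-! # The inequality for limits of sums of determinants -/

set_option autoImplicit false

namespace Pool.Agent.Work.MP_35c45d_lc.SD

open MvPolynomial Filter Topology

section lin

variable {ι : Type} {n : ℕ}

/-- `dk` as a linear map -/
noncomputable def dkL : {k : ℕ} → (Fin k → ι) → (MvPolynomial (ι ⊕ Fin n) ℂ →ₗ[ℂ]
    MvPolynomial (ι ⊕ Fin n) ℂ)
  | 0, _ => LinearMap.id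
  | (_ + 1), a => (pderiv (Sum.inl (a 0))).toLinearMap.comp (dkL (Fin.tail a))

theorem dk_eq : ∀ {k : ℕ} (a : Fin k → ι) (P : MvPolynomial (ι ⊕ Fin n) ℂ), dk a P = dkL a P
  | 0, _, _ => rfl
  | (k + 1), a, P => by
    change pderiv (Sum.inl (a 0)) (dk (Fin.tail a) P) =
      pderiv (Sum.inl (a 0)) (dkL (Fin.tail a) P)
    rw [dk_eq]

end lin

/-- sums of subspaces -/
theorem exists_sum_space {V : Type} [AddCommGroup V] [Module ℂ V] {M u : ℕ}
    (W : Fin M → Submodule ℂ V) (hfd : ∀ t, FiniteDimensional ℂ (W t))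
    (hW : ∀ t, Module.finrank ℂ (W t) ≤ u) :
    ∃ S : Submodule ℂ V, FiniteDimensional ℂ S ∧ Module.finrank ℂ S ≤ M * u ∧
      ∀ w : Fin M → V, (∀ t, w t ∈ W t) → ∑ t, w t ∈ S := by
  classical
  let Λ : ((t : Fin M) → W t) →ₗ[ℂ] V :=
    LinearMap.lsum ℂ (fun t => W t) ℂ (fun t => (W t).subtype)
  have hΛ : ∀ w, Λ w = ∑ t, (w t : V) := by
    intro w
    simp [Λ, LinearMap.lsum_apply]
  refine ⟨LinearMap.range Λ, inferInstance, ?_, ?_⟩
  · refine (LinearMap.finrank_range_le Λ).trans ?_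
    rw [Module.finrank_pi_fintype]
    refine (Finset.sum_le_card_nsmul _ _ u fun t _ => hW t).trans ?_
    rw [Finset.card_univ, Fintype.card_fin, smul_eq_mul]
  · intro w hw
    exact ⟨fun t => ⟨w t, hw t⟩, by rw [hΛ]⟩

theorem lim_ineq {k p D n M l : ℕ} (hD : 2 ≤ D) {c : ℂ} (hc : c ≠ 0)
    (h : LimSumDet M n (C c * fermat k p D)) :
    (good k p D n l).card ≤ M * ub (k * p) n k l := by
  classical
  by_contra hlt
  rw [not_le] at hlt
  obtain ⟨A, v, hA, hv, hlim⟩ := h.bord
  set F : ℕ → MvPolynomial ((Fin k × Fin p) ⊕ Fin n) ℂ :=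
    fun s => ∑ t, (SD.bord (v s) (A s t)).det with hF
  -- the linear functionals
  let Lf : (good k p D n l) → (good k p D n l) →
      (MvPolynomial ((Fin k × Fin p) ⊕ Fin n) ℂ →ₗ[ℂ] ℂ) := fun x y =>
    (lcoeff ℂ (expo D y.1)).comp ((LinearMap.mulLeft ℂ (monomial x.1.2 1)).comp
      (dkL (fun i => (i, x.1.1 i))))
  let Z : ℕ → Matrix (good k p D n l) (good k p D n l) ℂ := fun s => Matrix.of fun x y =>
    Lf x y (F s)
  have hdeg : ∀ s, (F s).totalDegree ≤ n := fun s =>
    totalDegree_sum_det_le _ fun t => totalDegree_bord_le _ _ (hA s t)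
  -- the limit of the matrix
  have hZ : Tendsto Z atTop (𝓝 ((c * (D : ℂ) ^ k) • (1 : Matrix (good k p D n l) _ ℂ))) := by
    refine tendsto_pi_nhds.2 fun x => tendsto_pi_nhds.2 fun y => ?_
    have h1 := SQ.tendsto_linear n F _ hdeg hlim (Lf x y)
    have h2 : Lf x y (rename Sum.inl (C c * fermat k p D)) =
        ((c * (D : ℂ) ^ k) • (1 : Matrix (good k p D n l) _ ℂ)) x y := by
      have h3 : dkL (n := n) (fun i => (i, x.1.1 i)) (rename Sum.inl (C c * fermat k p D)) =
          C c * monomial (∑ i, Finsupp.single (Sum.inl (i, x.1.1 i)) (D - 1)) ((D : ℂ) ^ k) := by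
        rw [← dk_fermat, dk_eq, map_mul, rename_C, ← smul_eq_C_mul, ← smul_eq_C_mul, map_smul]
      change coeff (expo D y.1) (monomial x.1.2 1 * dkL (n := n) (fun i => (i, x.1.1 i))
        (rename Sum.inl (C c * fermat k p D))) = _
      rw [h3, C_mul_monomial, monomial_mul, one_mul, coeff_monomial, Matrix.smul_apply,
        Matrix.one_apply, smul_eq_mul]
      have h4 : (x.1.2 + ∑ i, Finsupp.single (Sum.inl (i, x.1.1 i)) (D - 1) = expo D y.1) ↔
          x = y := by
        constructor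
        · intro h5
          exact Subtype.ext (expo_inj x.2 y.2 h5)
        · rintro rfl
          rfl
      by_cases hxy : x = y
      · rw [if_pos (h4.2 hxy), if_pos hxy, mul_one]
      · rw [if_neg (fun h5 => hxy (h4.1 h5)), if_neg hxy, mul_zero]
    rw [← h2]
    exact h1
  have hdet : Tendsto (fun s => (Z s).det) atTop
      (𝓝 (((c * (D : ℂ) ^ k) • (1 : Matrix (good k p D n l) _ ℂ)).det)) :=
    ((Continuous.matrix_det continuous_id).tendsto _).comp hZ
  -- all the matrices are singular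
  have hsing : ∀ s, (Z s).det = 0 := by
    intro s
    by_contra hne
    choose W hfd hrank hmem using fun t => upper (A s t) (hA s t) (v s) (hv s) k l
    obtain ⟨S, hS, hSr, hSm⟩ := exists_sum_space W hfd (u := ub (k * p) n k l) (fun t => by
      have := hrank t
      rwa [Fintype.card_prod, Fintype.card_fin, Fintype.card_fin] at this)
    have hu : ∀ x : (good k p D n l),
        monomial x.1.2 1 * dkL (n := n) (fun i => (i, x.1.1 i)) (F s) ∈ S := by
      intro x
      have h1 : monomial x.1.2 1 * dkL (n := n) (fun i => (i, x.1.1 i)) (F s) =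
          ∑ t, monomial x.1.2 1 * dk (fun i => (i, x.1.1 i)) (SD.bord (v s) (A s t)).det := by
        rw [hF]
        simp only
        rw [map_sum, Finset.mul_sum]
        refine Finset.sum_congr rfl fun t _ => ?_
        rw [dk_eq]
      rw [h1]
      apply hSm
      intro t
      apply hmem t
      exact (mem_mons.1 (Finset.mem_filter.1 (Finset.mem_product.1 x.2).2).1).2
    have hli : LinearIndependent ℂ (Z s).row := by
      rw [Matrix.linearIndependent_rows_iff_isUnit, Matrix.isUnit_iff_isUnit_det]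
      exact isUnit_iff_ne_zero.2 hne
    let Θ : MvPolynomial ((Fin k × Fin p) ⊕ Fin n) ℂ →ₗ[ℂ] ((good k p D n l) → ℂ) :=
      LinearMap.pi fun y => lcoeff ℂ (expo D y.1)
    have hli2 : LinearIndependent ℂ (fun x : (good k p D n l) =>
        monomial x.1.2 1 * dkL (n := n) (fun i => (i, x.1.1 i)) (F s)) := by
      apply LinearIndependent.of_comp Θ
      exact hli
    have hli3 : LinearIndependent ℂ (fun x : (good k p D n l) =>
        (⟨_, hu x⟩ : S)) := by
      apply LinearIndependent.of_comp S.subtype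
      exact hli2
    have h6 := hli3.fintype_card_le_finrank
    rw [Fintype.card_coe] at h6
    omega
  simp only [hsing] at hdet
  have h7 := tendsto_nhds_unique tendsto_const_nhds hdet
  rw [Matrix.det_smul, Matrix.det_one, mul_one] at h7
  have h8 : c * (D : ℂ) ^ k ≠ 0 := mul_ne_zero hc (pow_ne_zero _ (by
    exact_mod_cast (by omega : D ≠ 0)))
  exact pow_ne_zero _ h8 h7.symm

/-- the numerical form -/
theorem core {k p D n M : ℕ} (hk : 1 ≤ k) (hp : 400 ≤ p)
    (hD : 2 * Real.log (2 * k * p) ≤ (D : ℝ) - 1) {c : ℂ} (hc : c ≠ 0)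
    (h : LimSumDet M n (C c * fermat k p D))
    (hn : 12 * n * Real.log (2 * k * p) ≤ k * ((D : ℝ) - 1) * √p) :
    (2 : ℝ) ^ k ≤ 2 * M := by
  have hk1 : (1 : ℝ) ≤ k := by exact_mod_cast hk
  have hp1 : (400 : ℝ) ≤ p := by exact_mod_cast hp
  set L : ℝ := Real.log (2 * k * p) with hL
  have hkp : (800 : ℝ) ≤ 2 * k * p := by nlinarith
  have hL1 : 1 ≤ L := by
    rw [hL, Real.le_log_iff_exp_le (by linarith)]
    have := Real.exp_one_lt_d9
    linarith
  have hDr : 2 ≤ (D : ℝ) - 1 := by linarith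
  have hD3 : 3 ≤ D := by
    have : (3 : ℝ) ≤ D := by linarith
    exact_mod_cast this
  set d : ℝ := (D : ℝ) - 1 with hd
  have hsp : (20 : ℝ) ≤ √p := by
    rw [Real.le_sqrt (by norm_num) (by linarith)]
    linarith
  have hspp : √(p : ℝ) * √p = p := Real.mul_self_sqrt (by linarith)
  -- the padded size
  set X : ℝ := k * d / L with hX
  have hX2 : 2 ≤ X := by
    rw [hX, le_div_iff₀ (by linarith)]
    nlinarith
  set n' : ℕ := ⌊X * √p / 12⌋₊ with hn'
  have hn'le : (n' : ℝ) ≤ X * √p / 12 := Nat.floor_le (by positivity)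
  have hn'lt : X * √p / 12 < n' + 1 := Nat.lt_floor_add_one _
  have hnn' : n ≤ n' := by
    rw [hn']
    apply Nat.le_floor
    rw [hX, le_div_iff₀ (by norm_num), div_mul_eq_mul_div, le_div_iff₀ (by linarith)]
    nlinarith
  have hpad := h.pad hnn'
  -- the shift
  have hn'pos : (1 : ℝ) ≤ n' := by
    have : (1 : ℝ) < n' + 1 := by
      refine lt_of_le_of_lt ?_ hn'lt
      rw [le_div_iff₀ (by norm_num)]
      nlinarith
    have h2 : 0 < n' := by
      by_contra h0
      have h3 : n' = 0 := by omega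
      rw [h3] at this
      norm_num at this
    exact_mod_cast h2
  set N : ℝ := ((k * p + n' : ℕ) : ℝ) with hN
  have hN1 : 1 ≤ N := by
    rw [hN]
    push_cast
    nlinarith
  set l : ℕ := ⌊N * d / (2 * L)⌋₊ with hl
  have hlle : (l : ℝ) ≤ N * d / (2 * L) := Nat.floor_le (by positivity)
  have hllt : N * d / (2 * L) < l + 1 := Nat.lt_floor_add_one _
  set z : ℝ := N / ((k * p + n' + l : ℕ) : ℝ) with hz
  have hNl : ((k * p + n' + l : ℕ) : ℝ) = N + l := by
    rw [hN, Nat.cast_add (k * p + n') l]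
  have hNlpos : 0 < N + l := by positivity
  -- `z ≤ 2 L / d`
  have hz1 : z * d ≤ 2 * L := by
    rw [hz, hNl, div_mul_eq_mul_div, div_le_iff₀ hNlpos]
    have h1 : N * d ≤ (l + 1) * (2 * L) := by
      rw [← div_le_iff₀ (by linarith)]
      exact hllt.le
    nlinarith
  -- `z ≥ L / d`
  have hz2 : L ≤ z * d := by
    rw [hz, hNl, div_mul_eq_mul_div, le_div_iff₀ hNlpos]
    have h1 : (l : ℝ) * (2 * L) ≤ N * d := by
      rw [← le_div_iff₀ (by linarith)]
      exact hlle
    nlinarith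
  have hz0 : 0 < z := by rw [hz, hNl]; positivity
  have hz01 : z ≤ 1 := by
    rw [hz, hNl, div_le_one hNlpos]
    have : (0 : ℝ) ≤ l := Nat.cast_nonneg l
    linarith
  -- the good monomials
  have hexp : 2 * ((k * p : ℕ) : ℝ) * (1 - z) ^ (D - 1) ≤ 1 := by
    have h1 : (1 - z) ^ (D - 1) ≤ Real.exp (-L) := by
      have h2 : 1 - z ≤ Real.exp (-z) := by
        have := Real.add_one_le_exp (-z)
        linarith
      calc (1 - z) ^ (D - 1) ≤ (Real.exp (-z)) ^ (D - 1) :=
            pow_le_pow_left₀ (by linarith) h2 _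
        _ = Real.exp (-(z * d)) := by
            rw [← Real.exp_nat_mul, Nat.cast_sub (by omega), Nat.cast_one, ← hd]
            congr 1
            ring
        _ ≤ Real.exp (-L) := Real.exp_le_exp.2 (by linarith)
    have h3 : Real.exp (-L) = (2 * k * p : ℝ)⁻¹ := by
      rw [Real.exp_neg, hL, Real.exp_log (by linarith)]
    rw [h3] at h1
    push_cast
    calc 2 * ((k : ℝ) * p) * (1 - z) ^ (D - 1) ≤ 2 * ((k : ℝ) * p) * (2 * k * p : ℝ)⁻¹ :=
          mul_le_mul_of_nonneg_left h1 (by positivity)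
      _ = 1 := by
          rw [← mul_assoc]
          exact mul_inv_cancel₀ (by linarith)
  have hgood := good_card k p D n' l hk (by omega) z (by rw [hz, hN]) hexp
  -- the upper bound
  have hub := ub_le (k * p) n' k l hk z (by rw [hz, hN]) (by
    have h1 : (X * √p / 12 - 1) * z ≤ n' * z := mul_le_mul_of_nonneg_right (by linarith) hz0.le
    have h2 : X * z * L = k * (z * d) := by
      rw [hX]
      field_simp
    have h3 : (k : ℝ) * L ≤ X * z * L := by
      rw [h2]
      exact mul_le_mul_of_nonneg_left hz2 (by linarith)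
    have h4 : (k : ℝ) ≤ X * z := le_of_mul_le_mul_right h3 (by linarith)
    have h5 : X * z * 20 ≤ X * z * √p := mul_le_mul_of_nonneg_left hsp (by positivity)
    nlinarith)
  have hlim := lim_ineq (l := l) (by omega) hc hpad
  have hlim' : ((good k p D n' l).card : ℝ) ≤ M * (ub (k * p) n' k l : ℝ) := by
    exact_mod_cast hlim
  set θ : ℝ := 3 * Real.exp 1 * n' * z / (2 * k) with hθ
  set Ch : ℝ := ((k * p + n' + l).choose l : ℝ) with hCh
  have hChpos : 0 < Ch := by
    rw [hCh]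
    exact_mod_cast Nat.choose_pos (by omega)
  have hθ0 : 0 ≤ θ := by rw [hθ]; positivity
  -- `θ ^ 2 ≤ p / 2`
  have hθ1 : θ ≤ Real.exp 1 * √p / 4 := by
    rw [hθ, div_le_iff₀ (by linarith)]
    have h1 : (n' : ℝ) * z ≤ X * √p / 12 * z := mul_le_mul_of_nonneg_right hn'le hz0.le
    have h2 : X * z ≤ 2 * k := by
      have h3 : X * z * L = k * (z * d) := by
        rw [hX]
        field_simp
      have h4 : X * z * L ≤ 2 * k * L := by
        rw [h3]
        nlinarith
      exact le_of_mul_le_mul_right h4 (by linarith)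
    have h5 : (n' : ℝ) * z ≤ k * √p / 6 := by
      have h6 : X * z * √p ≤ 2 * k * √p := mul_le_mul_of_nonneg_right h2 (Real.sqrt_nonneg _)
      nlinarith
    have he : 0 < Real.exp 1 := Real.exp_pos 1
    have h7 := mul_le_mul_of_nonneg_left h5 (by positivity : 0 ≤ 3 * Real.exp 1)
    calc 3 * Real.exp 1 * ↑n' * z = 3 * Real.exp 1 * (↑n' * z) := by ring
      _ ≤ 3 * Real.exp 1 * (k * √p / 6) := h7
      _ = Real.exp 1 * √p / 4 * (2 * k) := by ring
  have hθ2 : θ ^ 2 ≤ p / 2 := by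
    have he : Real.exp 1 < 2.7182818286 := Real.exp_one_lt_d9
    have he0 : 0 < Real.exp 1 := Real.exp_pos 1
    have he2 : Real.exp 1 ^ 2 ≤ 8 := by
      calc Real.exp 1 ^ 2 ≤ 2.7182818286 ^ 2 := pow_le_pow_left₀ he0.le he.le 2
        _ ≤ 8 := by norm_num
    calc θ ^ 2 ≤ (Real.exp 1 * √p / 4) ^ 2 := pow_le_pow_left₀ hθ0 hθ1 2
      _ = Real.exp 1 ^ 2 * (√p * √p) / 16 := by ring
      _ = Real.exp 1 ^ 2 * p / 16 := by rw [hspp]
      _ ≤ 8 * p / 16 := by gcongr
      _ = p / 2 := by ring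
  have hfin : (p : ℝ) ^ k / 2 ≤ M * ((p : ℝ) / 2) ^ k := by
    have h1 : (p : ℝ) ^ k / 2 * Ch ≤ M * (θ ^ (2 * k) * Ch) := by
      refine hgood.trans (hlim'.trans ?_)
      exact mul_le_mul_of_nonneg_left hub (Nat.cast_nonneg M)
    have h2 : (p : ℝ) ^ k / 2 ≤ M * θ ^ (2 * k) := by
      have : (p : ℝ) ^ k / 2 * Ch ≤ M * θ ^ (2 * k) * Ch := by linarith
      exact le_of_mul_le_mul_right this hChpos
    refine h2.trans (mul_le_mul_of_nonneg_left ?_ (Nat.cast_nonneg M))
    rw [pow_mul]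
    exact pow_le_pow_left₀ (by positivity) hθ2 k
  rw [div_pow] at hfin
  have hppos : (0 : ℝ) < (p : ℝ) ^ k := by positivity
  have h2pos : (0 : ℝ) < (2 : ℝ) ^ k := by positivity
  have h3 : (p : ℝ) ^ k / 2 * 2 ^ k ≤ M * (p : ℝ) ^ k := by
    calc (p : ℝ) ^ k / 2 * 2 ^ k ≤ (M * ((p : ℝ) ^ k / 2 ^ k)) * 2 ^ k :=
          mul_le_mul_of_nonneg_right hfin h2pos.le
      _ = M * (p : ℝ) ^ k := by field_simp
  have h4 : (p : ℝ) ^ k * 2 ^ k ≤ (p : ℝ) ^ k * (2 * M) := by nlinarith
  exact le_of_mul_le_mul_left h4 hppos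

end Pool.Agent.Work.MP_35c45d_lc.SD
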