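import Pool.Agent.Work.MP_35c45d_lc.SMPow

/-! # Multiples: the components of a polynomial in the adapted basis (helper59)

`comp e` is the coefficient of `∏ f_i ^ e_i` in the expansion of a polynomial in the factors, with
coefficients in the span of the basis elements of multiplicity zero. -/

set_option autoImplicit false

namespace Pool.Agent.Work.MP_35c45d_lc.SM

open MvPolynomial SD SE

variable {k T L D n : ℕ}

/-- the reduced exponent -/
noncomputable def red (hT : 1 ≤ T) (hL : D - 1 < L) (m : Vr k T L n →₀ ℕ) : Vr k T L n →₀ ℕ :=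
  m - ∑ i, Finsupp.single (sp n hT hL i) (D * mult k T L D n m i)

theorem sum_single_sp (hT : 1 ≤ T) (hL : D - 1 < L) (e : Fin k → ℕ) (j : Fin k) :
    (∑ i, Finsupp.single (sp n hT hL i) (e i)) (sp n hT hL j) = e j := by
  classical
  rw [Finsupp.finsetSum_apply, Finset.sum_eq_single j]
  · rw [Finsupp.single_eq_same]
  · intro i _ hi
    rw [Finsupp.single_apply, if_neg (fun h => hi (sp_inj hT hL h))]
  · intro h
    exact absurd (Finset.mem_univ _) h

theorem sum_single_ne (hT : 1 ≤ T) (hL : D - 1 < L) (e : Fin k → ℕ) (v : Vr k T L n)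
    (hv : ∀ i, v ≠ sp n hT hL i) :
    (∑ i, Finsupp.single (sp n hT hL i) (e i)) v = 0 := by
  classical
  rw [Finsupp.finsetSum_apply]
  refine Finset.sum_eq_zero fun i _ => ?_
  rw [Finsupp.single_apply, if_neg (fun h => hv i h.symm)]

theorem sum_le (hT : 1 ≤ T) (hL : D - 1 < L) (m : Vr k T L n →₀ ℕ) :
    ∑ i, Finsupp.single (sp n hT hL i) (D * mult k T L D n m i) ≤ m := by
  intro v
  by_cases hv : ∃ j, v = sp n hT hL j
  · obtain ⟨j, rfl⟩ := hv
    rw [sum_single_sp, mult_eq hT hL]
    exact Nat.mul_div_le _ _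
  · push Not at hv
    rw [sum_single_ne hT hL _ v hv]
    exact Nat.zero_le _

theorem red_add (hT : 1 ≤ T) (hL : D - 1 < L) (m : Vr k T L n →₀ ℕ) :
    red hT hL m + ∑ i, Finsupp.single (sp n hT hL i) (D * mult k T L D n m i) = m := by
  unfold red
  exact tsub_add_cancel_of_le (sum_le hT hL m)

theorem red_inj (hT : 1 ≤ T) (hL : D - 1 < L) {m m' : Vr k T L n →₀ ℕ}
    (h : mult k T L D n m = mult k T L D n m') (h' : red hT hL m = red hT hL m') : m = m' := by
  rw [← red_add hT hL m, ← red_add hT hL m', h, h']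

theorem mult_add_sum (hT : 1 ≤ T) (hL : D - 1 < L) (hD : 1 ≤ D) (m : Vr k T L n →₀ ℕ)
    (e : Fin k → ℕ) : mult k T L D n (m + ∑ i, Finsupp.single (sp n hT hL i) (D * e i)) =
      mult k T L D n m + e := by
  funext j
  rw [mult_eq hT hL, Pi.add_apply, mult_eq hT hL, Finsupp.add_apply, sum_single_sp,
    Nat.add_mul_div_left _ _ hD]

theorem mult_red (hT : 1 ≤ T) (hL : D - 1 < L) (hD : 1 ≤ D) (m : Vr k T L n →₀ ℕ) :
    mult k T L D n (red hT hL m) = 0 := by
  have h := mult_add_sum hT hL hD (red hT hL m) (mult k T L D n m)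
  rw [red_add hT hL m] at h
  have h2 : 0 + mult k T L D n m = mult k T L D n (red hT hL m) + mult k T L D n m := by
    rw [zero_add]
    exact h
  exact (add_right_cancel h2).symm

theorem red_of_mult (hT : 1 ≤ T) (hL : D - 1 < L) {m : Vr k T L n →₀ ℕ}
    (h : mult k T L D n m = 0) : red hT hL m = m := by
  have h1 := red_add hT hL m
  rw [h] at h1
  simpa using h1

theorem red_add_sum (hT : 1 ≤ T) (hL : D - 1 < L) (hD : 1 ≤ D) (m : Vr k T L n →₀ ℕ)
    (e : Fin k → ℕ) (h : mult k T L D n m = 0) :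
    red hT hL (m + ∑ i, Finsupp.single (sp n hT hL i) (D * e i)) = m := by
  unfold red
  have h1 : mult k T L D n (m + ∑ i, Finsupp.single (sp n hT hL i) (D * e i)) = e := by
    rw [mult_add_sum hT hL hD, h, zero_add]
  rw [h1]
  exact add_tsub_cancel_right _ _

theorem Phi_add_sum (hT : 1 ≤ T) (hD : 2 ≤ D) (hL : D - 1 < L) (m : Vr k T L n →₀ ℕ)
    (e : Fin k → ℕ) : Phi (qM k T L D n) (thM k T L D n)
      (m + ∑ i, Finsupp.single (sp n hT hL i) (D * e i)) =
      (∏ i, fM k T L D n i ^ e i) * Phi (qM k T L D n) (thM k T L D n) m := by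
  classical
  have h1 : ∀ (m : Vr k T L n →₀ ℕ) (i : Fin k) (a : ℕ),
      Phi (qM k T L D n) (thM k T L D n) (m + Finsupp.single (sp n hT hL i) (D * a)) =
      fM k T L D n i ^ a * Phi (qM k T L D n) (thM k T L D n) m := by
    intro m i a
    induction a with
    | zero => simp
    | succ a ih =>
      rw [Nat.mul_succ, Finsupp.single_add, ← add_assoc, ← Phi_mul_fM hT hD hL, ih, pow_succ]
      ring
  have h2 : ∀ s : Finset (Fin k), Phi (qM k T L D n) (thM k T L D n)
      (m + ∑ i ∈ s, Finsupp.single (sp n hT hL i) (D * e i)) =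
      (∏ i ∈ s, fM k T L D n i ^ e i) * Phi (qM k T L D n) (thM k T L D n) m := by
    intro s
    induction s using Finset.induction_on with
    | empty => simp
    | insert i s hi ih =>
      rw [Finset.sum_insert hi, Finset.prod_insert hi, mul_assoc, ← ih, ← h1]
      congr 1
      abel
  exact h2 Finset.univ

theorem Phi_red (hT : 1 ≤ T) (hD : 2 ≤ D) (hL : D - 1 < L) (m : Vr k T L n →₀ ℕ) :
    Phi (qM k T L D n) (thM k T L D n) m = (∏ i, fM k T L D n i ^ mult k T L D n m i) *
      Phi (qM k T L D n) (thM k T L D n) (red hT hL m) := by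
  rw [← Phi_add_sum hT hD hL, red_add hT hL m]

/-- the adapted basis -/
noncomputable def basisM (n : ℕ) (hT : 1 ≤ T) (hD : 2 ≤ D) (hL : D ≤ L) :
    Module.Basis (Vr k T L n →₀ ℕ) ℂ (MvPolynomial (Vr k T L n) ℂ) :=
  Module.Basis.mk (PhiM_li hT hD hL) (spanM_top hT hD hL).ge

theorem basisM_apply (hT : 1 ≤ T) (hD : 2 ≤ D) (hL : D ≤ L) (m : Vr k T L n →₀ ℕ) :
    basisM n hT hD hL m = Phi (qM k T L D n) (thM k T L D n) m :=
  Module.Basis.mk_apply _ _ _

/-- the component of multiplicity `e` -/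
noncomputable def comp (n : ℕ) (hT : 1 ≤ T) (hD : 2 ≤ D) (hL : D ≤ L) (e : Fin k → ℕ) :
    MvPolynomial (Vr k T L n) ℂ →ₗ[ℂ] MvPolynomial (Vr k T L n) ℂ :=
  (basisM n hT hD hL).constr ℂ fun m => if mult k T L D n m = e then
    Phi (qM k T L D n) (thM k T L D n) (red (D := D) hT (by omega) m) else 0

theorem comp_Phi (hT : 1 ≤ T) (hD : 2 ≤ D) (hL : D ≤ L) (e : Fin k → ℕ)
    (m : Vr k T L n →₀ ℕ) : comp n hT hD hL e (Phi (qM k T L D n) (thM k T L D n) m) =
      if mult k T L D n m = e then
        Phi (qM k T L D n) (thM k T L D n) (red (D := D) hT (by omega) m) else 0 := by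
  rw [← basisM_apply hT hD hL, comp, Module.Basis.constr_basis]

theorem comp_of_mem (hT : 1 ≤ T) (hD : 2 ≤ D) (hL : D ≤ L) (e : Fin k → ℕ) (a : ℕ)
    (he : ∑ i, e i < a) (p : MvPolynomial (Vr k T L n) ℂ) (hp : p ∈ IM k T L D n ^ a) :
    comp n hT hD hL e p = 0 := by
  rw [mem_pow_iff hT hD hL] at hp
  refine Submodule.span_induction (p := fun p _ => comp n hT hD hL e p = 0) ?_ ?_ ?_ ?_ hp
  · rintro _ ⟨m, hm, rfl⟩
    rw [comp_Phi, if_neg]
    rintro rfl
    exact absurd hm (not_le.2 he)
  · exact map_zero _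
  · intro x y _ _ hx hy
    rw [map_add, hx, hy, add_zero]
  · intro c x _ hx
    rw [map_smul, hx, smul_zero]

theorem comp_mul (hT : 1 ≤ T) (hD : 2 ≤ D) (hL : D ≤ L) (e e' : Fin k → ℕ)
    (he : ∑ i, e i ≤ ∑ i, e' i) (h : MvPolynomial (Vr k T L n) ℂ) :
    comp n hT hD hL e ((∏ i, fM k T L D n i ^ e' i) * h) =
      if e' = e then comp n hT hD hL 0 h else 0 := by
  have hL' : D - 1 < L := by omega
  have hh : h ∈ Submodule.span ℂ (Set.range (Phi (qM k T L D n) (thM k T L D n))) := by
    rw [spanM_top hT hD hL]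
    exact Submodule.mem_top
  refine Submodule.span_induction (p := fun h _ =>
    comp n hT hD hL e ((∏ i, fM k T L D n i ^ e' i) * h) =
      if e' = e then comp n hT hD hL 0 h else 0) ?_ ?_ ?_ ?_ hh
  · rintro _ ⟨m, rfl⟩
    rw [← Phi_add_sum hT hD hL', comp_Phi, comp_Phi, mult_add_sum hT hL' (by omega)]
    by_cases hm : mult k T L D n m = 0
    · rw [hm, zero_add, if_pos rfl, red_add_sum hT hL' (by omega) m e' hm,
        red_of_mult hT hL' hm]
    · rw [if_neg hm, ite_self, if_neg]
      intro h1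
      apply hm
      have h2 : ∑ i, (mult k T L D n m + e') i = ∑ i, e i := by rw [h1]
      simp only [Pi.add_apply, Finset.sum_add_distrib] at h2
      have h3 : ∑ i, mult k T L D n m i = 0 := by omega
      funext i
      exact (Finset.sum_eq_zero_iff.1 h3) i (Finset.mem_univ i)
  · simp
  · intro x y _ _ hx hy
    rw [mul_add, map_add, hx, hy, map_add]
    split_ifs <;> simp
  · intro c x _ hx
    rw [mul_smul_comm, map_smul, hx, map_smul]
    split_ifs <;> simp

/-- the complement -/
theorem sub_comp_mem (hT : 1 ≤ T) (hD : 2 ≤ D) (hL : D ≤ L) (h : MvPolynomial (Vr k T L n) ℂ) :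
    h - comp n hT hD hL 0 h ∈ IM k T L D n := by
  have hL' : D - 1 < L := by omega
  have hh : h ∈ Submodule.span ℂ (Set.range (Phi (qM k T L D n) (thM k T L D n))) := by
    rw [spanM_top hT hD hL]
    exact Submodule.mem_top
  refine Submodule.span_induction (p := fun h _ => h - comp n hT hD hL 0 h ∈ IM k T L D n)
    ?_ ?_ ?_ ?_ hh
  · rintro _ ⟨m, rfl⟩
    rw [comp_Phi]
    by_cases hm : mult k T L D n m = 0
    · rw [if_pos hm, red_of_mult hT hL' hm, sub_self]
      exact Ideal.zero_mem _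
    · rw [if_neg hm, sub_zero, mem_IM_iff hT hD hL]
      refine Submodule.subset_span ⟨m, ?_, rfl⟩
      change 1 ≤ _
      rw [Nat.one_le_iff_ne_zero]
      intro h0
      apply hm
      funext i
      exact (Finset.sum_eq_zero_iff.1 h0) i (Finset.mem_univ i)
  · rw [map_zero, sub_zero]
    exact Ideal.zero_mem _
  · intro x y _ _ hx hy
    have := Ideal.add_mem _ hx hy
    rw [map_add]
    convert this using 1
    ring
  · intro c x _ hx
    rw [map_smul, ← smul_sub, smul_eq_C_mul]
    exact Ideal.mul_mem_left _ _ hx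

theorem mem_of_comp (hT : 1 ≤ T) (hD : 2 ≤ D) (hL : D ≤ L) (h : MvPolynomial (Vr k T L n) ℂ)
    (h0 : comp n hT hD hL 0 h = 0) : h ∈ IM k T L D n := by
  have := sub_comp_mem hT hD hL h
  rwa [h0, sub_zero] at this

theorem comp_comp (hT : 1 ≤ T) (hD : 2 ≤ D) (hL : D ≤ L) (e : Fin k → ℕ)
    (h : MvPolynomial (Vr k T L n) ℂ) :
    comp n hT hD hL 0 (comp n hT hD hL e h) = comp n hT hD hL e h := by
  have hL' : D - 1 < L := by omega
  have hh : h ∈ Submodule.span ℂ (Set.range (Phi (qM k T L D n) (thM k T L D n))) := by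
    rw [spanM_top hT hD hL]
    exact Submodule.mem_top
  refine Submodule.span_induction (p := fun h _ =>
    comp n hT hD hL 0 (comp n hT hD hL e h) = comp n hT hD hL e h) ?_ ?_ ?_ ?_ hh
  · rintro _ ⟨m, rfl⟩
    rw [comp_Phi]
    split_ifs
    · rw [comp_Phi, if_pos (mult_red hT hL' (by omega) m),
        red_of_mult hT hL' (mult_red hT hL' (by omega) m)]
    · rw [map_zero]
  · simp
  · intro x y _ _ hx hy
    rw [map_add, map_add, hx, hy]
  · intro c x _ hx
    rw [map_smul, map_smul, hx]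

/-- a nonzero component is not in the ideal -/
theorem comp_notMem (hT : 1 ≤ T) (hD : 2 ≤ D) (hL : D ≤ L) (e : Fin k → ℕ)
    (h : MvPolynomial (Vr k T L n) ℂ) (h0 : comp n hT hD hL e h ≠ 0) :
    comp n hT hD hL e h ∉ IM k T L D n := by
  intro hm
  apply h0
  rw [← comp_comp hT hD hL e h]
  exact comp_of_mem hT hD hL 0 1 (by simp) _ (by rwa [pow_one])

/-- the first nonzero component -/
theorem exists_comp (hT : 1 ≤ T) (hD : 2 ≤ D) (hL : D ≤ L) (g : MvPolynomial (Vr k T L n) ℂ)
    (hg : g ≠ 0) : ∃ e : Fin k → ℕ, comp n hT hD hL e g ≠ 0 ∧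
      g ∈ Submodule.span ℂ (Phi (qM k T L D n) (thM k T L D n) ''
        {m | ∑ i, e i ≤ ∑ i, mult k T L D n m i}) := by
  classical
  have hL' : D - 1 < L := by omega
  set B := basisM (k := k) n hT hD hL with hB
  have hsupp : (B.repr g).support.Nonempty := by
    rw [Finset.nonempty_iff_ne_empty]
    intro h
    rw [Finsupp.support_eq_empty] at h
    apply hg
    exact B.repr.map_eq_zero_iff.1 h
  obtain ⟨m0, hm0, hmin⟩ := Finset.exists_min_image (B.repr g).support
    (fun m => ∑ i, mult k T L D n m i) hsupp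
  refine ⟨mult k T L D n m0, ?_, ?_⟩
  · have h1 : (B.coord (red hT hL' m0)).comp (comp n hT hD hL (mult k T L D n m0)) =
        B.coord m0 := by
      refine B.ext fun m => ?_
      have h2 : B m = Phi (qM k T L D n) (thM k T L D n) m := basisM_apply hT hD hL m
      rw [LinearMap.comp_apply, h2, comp_Phi, ← h2, Module.Basis.coord_apply B m0,
        Module.Basis.repr_self]
      by_cases hm : mult k T L D n m = mult k T L D n m0
      · rw [if_pos hm, ← basisM_apply hT hD hL, ← hB, Module.Basis.coord_apply,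
          Module.Basis.repr_self]
        by_cases hr : m = m0
        · rw [hr, Finsupp.single_eq_same, Finsupp.single_eq_same]
        · rw [Finsupp.single_apply, Finsupp.single_apply, if_neg hr, if_neg]
          exact fun h => hr (red_inj hT hL' hm h)
      · rw [if_neg hm, map_zero, Finsupp.single_apply, if_neg]
        rintro rfl
        exact hm rfl
    intro h0
    have h3 := LinearMap.congr_fun h1 g
    rw [LinearMap.comp_apply, h0, map_zero, Module.Basis.coord_apply] at h3
    exact (Finsupp.mem_support_iff.1 hm0) h3.symm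
  · have h1 := B.linearCombination_repr g
    rw [Finsupp.linearCombination_apply, Finsupp.sum] at h1
    rw [← h1]
    refine Submodule.sum_mem _ fun m hm => Submodule.smul_mem _ _ ?_
    refine Submodule.subset_span ⟨m, hmin m hm, ?_⟩
    exact (basisM_apply hT hD hL m).symm

end Pool.Agent.Work.MP_35c45d_lc.SM
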