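import Pool.Agent.Work.MP_35c45d_lc.SMDefs

/-! # Multiples: iterated derivatives modulo powers of an ideal -/

set_option autoImplicit false

namespace Pool.Agent.Work.MP_35c45d_lc.SM

open MvPolynomial SD

variable {α : Type} {k n : ℕ}

/-- a derivative lowers the order of vanishing by at most one -/
theorem pderiv_mem_pow {σ : Type} (I : Ideal (MvPolynomial σ ℂ)) (x : σ) (b : ℕ)
    (P : MvPolynomial σ ℂ) (h : P ∈ I ^ (b + 1)) : pderiv x P ∈ I ^ b := by
  induction b generalizing P with
  | zero => simp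
  | succ b ih =>
    rw [pow_succ] at h
    refine Submodule.mul_induction_on h (fun u hu v hv => ?_) (fun u v hu hv => ?_)
    · rw [Derivation.leibniz, smul_eq_mul, smul_eq_mul]
      refine Ideal.add_mem _ (Ideal.mul_mem_right _ _ hu) ?_
      rw [mul_comm, pow_succ]
      exact Ideal.mul_mem_mul (ih u hu) hv
    · rw [map_add]
      exact Ideal.add_mem _ hu hv

theorem dk_mem_pow {ι : Type} {k' : ℕ} (I : Ideal (MvPolynomial (ι ⊕ Fin n) ℂ)) (a : Fin k' → ι)
    (b : ℕ) (P : MvPolynomial (ι ⊕ Fin n) ℂ) (h : P ∈ I ^ (b + k')) : dk a P ∈ I ^ b := by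
  induction k' generalizing b with
  | zero => exact h
  | succ k' ih =>
    have h1 : dk a P = pderiv (Sum.inl (a 0)) (dk (Fin.tail a) P) := rfl
    rw [h1]
    refine pderiv_mem_pow I _ b _ (ih (Fin.tail a) (b + 1) ?_)
    have h2 : b + 1 + k' = b + (k' + 1) := by omega
    rw [h2]
    exact h

theorem pderiv_comm {σ : Type} (x y : σ) (p : MvPolynomial σ ℂ) :
    pderiv x (pderiv y p) = pderiv y (pderiv x p) := by
  classical
  have h : ⁅(pderiv x : Derivation ℂ (MvPolynomial σ ℂ) (MvPolynomial σ ℂ)),
      (pderiv y : Derivation ℂ (MvPolynomial σ ℂ) (MvPolynomial σ ℂ))⁆ = 0 := by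
    apply MvPolynomial.derivation_ext
    intro i
    rw [Derivation.commutator_apply, pderiv_X, pderiv_X]
    by_cases h1 : y = i <;> by_cases h2 : x = i <;> simp [h1, h2]
  have h2 := congrArg (fun D => D p) h
  rw [Derivation.commutator_apply] at h2
  exact sub_eq_zero.1 h2

theorem prod_pow_mem {σ β : Type} [DecidableEq β] (I : Ideal (MvPolynomial σ ℂ))
    (f g : β → MvPolynomial σ ℂ) (e : β → ℕ) (hf : ∀ i, f i ∈ I) (s : Finset β) :
    ∏ i ∈ s, (f i ^ e i * g i) ∈ I ^ (∑ i ∈ s, e i) := by
  induction s using Finset.induction_on with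
  | empty => simp
  | insert i s hi ih =>
    rw [Finset.prod_insert hi, Finset.sum_insert hi, pow_add]
    exact Ideal.mul_mem_mul (Ideal.mul_mem_right _ _ (Ideal.pow_mem_pow (hf i) _)) ih

theorem dk_mul_mod_aux (f : Fin k → MvPolynomial ((Fin k × α) ⊕ Fin n) ℂ)
    (hf : ∀ i j, j ≠ i → ∀ a, pderiv (Sum.inl (j, a)) (f i) = 0) (a : Fin k → α)
    (u : MvPolynomial ((Fin k × α) ⊕ Fin n) ℂ) (e : Fin k → ℕ) :
    ∀ (k' : ℕ) (b : Fin k' → Fin k), Function.Injective b →
    dk (n := n) (fun t => (b t, a (b t))) (u * ∏ i, f i ^ (e i + 1)) -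
      u * ((∏ i ∈ Finset.univ.image b, (f i ^ e i *
        (C ((e i : ℂ) + 1) * pderiv (Sum.inl (i, a i)) (f i)))) *
          ∏ i ∈ Finset.univ \ Finset.univ.image b, f i ^ (e i + 1)) ∈
      Ideal.span (Set.range f) ^ (∑ i, e i + (k - k') + 1) := by
  classical
  intro k'
  set I := Ideal.span (Set.range f) with hI
  have hfI : ∀ i, f i ∈ I := fun i => Ideal.subset_span (Set.mem_range_self i)
  induction k' with
  | zero =>
    intro b _
    simp [dk]
  | succ k' ih =>
    intro b hb
    have hb' : Function.Injective (Fin.tail b) := fun i j hij => Fin.succ_injective _ (hb hij)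
    have hb0 : ∀ t, Fin.tail b t ≠ b 0 := fun t h => by
      have := hb h
      exact absurd this (Fin.succ_ne_zero t)
    have hk' : k' + 1 ≤ k := by
      have := Fintype.card_le_of_injective b hb
      simpa using this
    have h1 : dk (n := n) (fun t => (b t, a (b t))) (u * ∏ i, f i ^ (e i + 1)) =
        pderiv (Sum.inl (b 0, a (b 0))) (dk (n := n) (fun t => (Fin.tail b t, a (Fin.tail b t)))
          (u * ∏ i, f i ^ (e i + 1))) := rfl
    set S' := Finset.univ.image (Fin.tail b) with hS'
    have hbS' : b 0 ∉ S' := by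
      rw [hS']
      simp only [Finset.mem_image, Finset.mem_univ, true_and, not_exists]
      exact hb0
    have hS : Finset.univ.image b = insert (b 0) S' := by
      ext i
      simp only [hS', Finset.mem_image, Finset.mem_univ, true_and, Finset.mem_insert]
      constructor
      · rintro ⟨t, rfl⟩
        refine Fin.cases (Or.inl rfl) (fun t => Or.inr ⟨t, rfl⟩) t
      · rintro (rfl | ⟨t, rfl⟩)
        · exact ⟨0, rfl⟩
        · exact ⟨t.succ, rfl⟩
    have hset : Finset.univ \ S' = insert (b 0) (Finset.univ \ insert (b 0) S') := by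
      ext i
      simp only [Finset.mem_sdiff, Finset.mem_univ, true_and, Finset.mem_insert, not_or]
      by_cases hi : i = b 0
      · subst hi
        simp [hbS']
      · simp [hi]
    have hnot : b 0 ∉ Finset.univ \ insert (b 0) S' := by simp
    have ih' := ih (Fin.tail b) hb'
    rw [← hS'] at ih'
    rw [hS, h1]
    set v : (Fin k × α) ⊕ Fin n := Sum.inl (b 0, a (b 0)) with hv
    set P1 := ∏ i ∈ S', (f i ^ e i * (C ((e i : ℂ) + 1) * pderiv (Sum.inl (i, a i)) (f i)))
      with hP1
    set P2 := ∏ i ∈ Finset.univ \ insert (b 0) S', f i ^ (e i + 1) with hP2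
    rw [hset, Finset.prod_insert hnot, ← hP2] at ih'
    rw [Finset.prod_insert hbS', ← hP1]
    -- the derivatives of the two products vanish
    have d1 : pderiv v P1 = 0 := by
      refine pderiv_prod_zero _ _ _ fun i hi => ?_
      have hne : b 0 ≠ i := fun h => hbS' (h ▸ hi)
      have d3 : pderiv v (f i) = 0 := hf i (b 0) hne _
      have d4 : pderiv v (pderiv (Sum.inl (i, a i)) (f i)) = 0 := by
        rw [pderiv_comm, d3, map_zero]
      rw [Derivation.leibniz, Derivation.leibniz, Derivation.leibniz_pow, d3, d4, pderiv_C]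
      simp
    have d2 : pderiv v P2 = 0 := by
      refine pderiv_prod_zero _ _ _ fun i hi => ?_
      have hne : b 0 ≠ i := fun h => hnot (h ▸ hi)
      have d3 : pderiv v (f i) = 0 := hf i (b 0) hne _
      rw [Derivation.leibniz_pow, d3]
      simp
    -- the error of the previous step
    have e1 := pderiv_mem_pow I v (∑ i, e i + (k - k')) _ ih'
    have e2 : ∑ i, e i + (k - k') = ∑ i, e i + (k - (k' + 1)) + 1 := by omega
    rw [e2] at e1
    -- the term with the derivative of `u`
    have e3 : pderiv v u * (P1 * (f (b 0) ^ (e (b 0) + 1) * P2)) ∈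
        I ^ (∑ i, e i + (k - (k' + 1)) + 1) := by
      refine Ideal.mul_mem_left _ _ ?_
      have e4 : P1 ∈ I ^ (∑ i ∈ S', e i) := prod_pow_mem I f _ e hfI S'
      have e5 : f (b 0) ^ (e (b 0) + 1) * P2 ∈ I ^ (∑ i ∈ Finset.univ \ S', (e i + 1)) := by
        have e6 := prod_pow_mem I f (fun _ => 1) (fun i => e i + 1) hfI (Finset.univ \ S')
        simp only [mul_one] at e6
        rw [hset, Finset.prod_insert hnot, ← hP2, ← hset] at e6
        exact e6
      have e7 := Ideal.mul_mem_mul e4 e5
      rw [← pow_add] at e7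
      have e8 : ∑ i ∈ S', e i + ∑ i ∈ Finset.univ \ S', (e i + 1) =
          ∑ i, e i + (k - (k' + 1)) + 1 := by
        rw [Finset.sum_add_distrib, ← add_assoc, add_comm (∑ i ∈ S', e i),
          Finset.sum_sdiff (Finset.subset_univ S'), Finset.sum_const, smul_eq_mul, mul_one,
          Finset.card_sdiff_of_subset (Finset.subset_univ S'), Finset.card_univ, Fintype.card_fin,
          hS', Finset.card_image_of_injective _ hb', Finset.card_univ, Fintype.card_fin]
        omega
      rwa [e8] at e7
    -- assembly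
    have e9 := Ideal.add_mem _ e1 e3
    convert e9 using 1
    rw [map_sub, Derivation.leibniz, Derivation.leibniz, Derivation.leibniz, d1, d2,
      Derivation.leibniz_pow]
    simp only [smul_eq_mul, nsmul_eq_mul, Nat.cast_add, Nat.cast_one, map_add, map_one,
      map_natCast, Nat.add_sub_cancel]
    ring

/-- (M3) one derivative in the variables of every block, applied to `u ∏ f_i ^ (e_i + 1)`
(compare `SE.dk_prod_aux`) -/
theorem dk_mul_mod (f : Fin k → MvPolynomial ((Fin k × α) ⊕ Fin n) ℂ)
    (hf : ∀ i j, j ≠ i → ∀ a, pderiv (Sum.inl (j, a)) (f i) = 0) (a : Fin k → α)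
    (u : MvPolynomial ((Fin k × α) ⊕ Fin n) ℂ) (e : Fin k → ℕ) :
    dk (n := n) (fun i => (i, a i)) (u * ∏ i, f i ^ (e i + 1)) -
      (∏ i, ((e i : ℂ) + 1)) • (u * (∏ i, f i ^ e i) * ∏ i, pderiv (Sum.inl (i, a i)) (f i)) ∈
      Ideal.span (Set.range f) ^ (∑ i, e i + 1) := by
  classical
  have h := dk_mul_mod_aux f hf a u e k id Function.injective_id
  simp only [id_eq] at h
  rw [Finset.image_id, Finset.sdiff_self, Finset.prod_empty, mul_one, Nat.sub_self,
    add_zero] at h
  convert h using 2
  rw [Finset.prod_mul_distrib, Finset.prod_mul_distrib, ← map_prod, smul_eq_C_mul]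
  ring

end Pool.Agent.Work.MP_35c45d_lc.SM
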