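import Pool.Agent.Work.MP_35c45d_lc.SMPrime
import Pool.Agent.Work.MP_35c45d_lc.SMDer
import Pool.Agent.Work.MP_35c45d_lc.SMComp
import Pool.Agent.Work.MP_35c45d_lc.SDLim

/-! # Multiples: linear independence of the shifted derivatives of `g * f` (helper59) -/

set_option autoImplicit false

namespace Pool.Agent.Work.MP_35c45d_lc.SM

open MvPolynomial SD SE

variable {k T L D n : ℕ}

/-- the derivative of a factor in one of its variables -/
theorem pderiv_fM (i : Fin k) (c : Fin T × Fin L) :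
    pderiv (Sum.inl (i, c)) (fM k T L (D + 1) n i) =
      SQ.es (fun v => X (Sum.inl (i, c.1, v))) D (Finset.univ.erase c.2) := by
  classical
  obtain ⟨t, v⟩ := c
  unfold fM
  rw [map_sum, Finset.sum_eq_single t]
  · exact pderiv_es_self (fun v => Sum.inl (i, t, v)) (fun v v' h => by
      simpa using h) Finset.univ (Finset.mem_univ v) D
  · intro t' _ ht'
    refine pderiv_es_zero (fun v => Sum.inl (i, t', v)) _ _ (fun j _ h => ht' ?_) _
    simp only [Sum.inl.injEq, Prod.mk.injEq] at h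
    exact h.2.1
  · intro h
    exact absurd (Finset.mem_univ _) h

theorem pderiv_fM_ne (i j : Fin k) (hij : j ≠ i) (c : Fin T × Fin L) :
    pderiv (Sum.inl (j, c)) (fM k T L D n i) = 0 := by
  classical
  unfold fM
  rw [map_sum]
  refine Finset.sum_eq_zero fun t _ => ?_
  refine pderiv_es_zero (fun v => Sum.inl (i, t, v)) _ _ (fun j' _ h => hij ?_) _
  simp only [Sum.inl.injEq, Prod.mk.injEq] at h
  exact h.1.symm

/-- the derivative of a factor in a free variable is a parameter -/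
theorem pderiv_fM_thM (hD : 2 ≤ D) (i : Fin k) (c : Fin T × Fin L) (hc : D - 1 ≤ (c.2 : ℕ))
    (hs : ¬ Spec D c) :
    pderiv (Sum.inl (i, c)) (fM k T L D n i) = thM k T L D n (Sum.inl (i, c)) := by
  obtain ⟨D', rfl⟩ : ∃ D', D = D' + 1 := ⟨D - 1, by omega⟩
  rw [pderiv_fM]
  simp only [thM]
  rw [if_neg hs, if_neg (by omega)]
  rfl

theorem qM_free (i : Fin k) (c : Fin T × Fin L) (hc : D - 1 ≤ (c.2 : ℕ))
    (hs : ¬ Spec D c) : qM k T L D n (Sum.inl (i, c)) = D - 1 := by
  simp only [qM]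
  rw [if_neg hs]
  omega

theorem Phi_prodM (hD : 2 ≤ D) (μ : Vr k T L n →₀ ℕ)
    (a : Fin k → Fin T × Fin L) (ha : ∀ i, D - 1 ≤ ((a i).2 : ℕ)) (hs : ∀ i, ¬ Spec D (a i))
    (s : Finset (Fin k)) :
    Phi (qM k T L D n) (thM k T L D n) μ * ∏ i ∈ s, thM k T L D n (Sum.inl (i, a i)) =
      Phi (qM k T L D n) (thM k T L D n)
        (μ + ∑ i ∈ s, Finsupp.single (Sum.inl (i, a i)) (D - 1)) := by
  classical
  induction s using Finset.induction_on with
  | empty => simp
  | insert i s hi ih =>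
    rw [Finset.prod_insert hi, Finset.sum_insert hi]
    have h1 : qM k T L D n (Sum.inl (i, a i)) = D - 1 := qM_free i (a i) (ha i) (hs i)
    have h2 := Phi_add (qM k T L D n) (qM_pos hD) (thM k T L D n)
      (μ + ∑ i ∈ s, Finsupp.single (Sum.inl (i, a i)) (D - 1)) (Sum.inl (i, a i))
    rw [h1, ← ih] at h2
    have h3 : μ + (Finsupp.single (Sum.inl (i, a i)) (D - 1) +
        ∑ i ∈ s, Finsupp.single (Sum.inl (i, a i)) (D - 1)) =
        μ + ∑ i ∈ s, Finsupp.single (Sum.inl (i, a i)) (D - 1) +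
          Finsupp.single (Sum.inl (i, a i)) (D - 1) := by
      abel
    rw [h3, h2]
    ring

/-- the component of the lowest order of a shifted derivative of `g * f` -/
theorem comp_dk (hT : 1 ≤ T) (hD : 2 ≤ D) (hL : D ≤ L) (e : Fin k → ℕ)
    (a : Fin k → Fin T × Fin L) (P g : MvPolynomial (Vr k T L n) ℂ)
    (hg : g ∈ Submodule.span ℂ (Phi (qM k T L D n) (thM k T L D n) ''
        {m | ∑ i, e i ≤ ∑ i, mult k T L D n m i})) :
    comp n hT hD hL e (P * dk (fun i => (i, a i)) (g * ∏ i, fM k T L D n i)) =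
      (∏ i, ((e i : ℂ) + 1)) • comp n hT hD hL 0 (comp n hT hD hL e g *
        (P * ∏ i, pderiv (Sum.inl (i, a i)) (fM k T L D n i))) := by
  classical
  have hL' : D - 1 < L := by omega
  refine Submodule.span_induction (p := fun g _ =>
    comp n hT hD hL e (P * dk (fun i => (i, a i)) (g * ∏ i, fM k T L D n i)) =
      (∏ i, ((e i : ℂ) + 1)) • comp n hT hD hL 0 (comp n hT hD hL e g *
        (P * ∏ i, pderiv (Sum.inl (i, a i)) (fM k T L D n i)))) ?_ ?_ ?_ ?_ hg
  · rintro _ ⟨m, hm, rfl⟩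
    have hm' : ∑ i, e i ≤ ∑ i, mult k T L D n m i := hm
    set θ : MvPolynomial (Vr k T L n) ℂ :=
      ∏ i, pderiv (Sum.inl (i, a i)) (fM k T L D n i) with hθ
    -- the derivative
    have h1 : Phi (qM k T L D n) (thM k T L D n) m * ∏ i, fM k T L D n i =
        Phi (qM k T L D n) (thM k T L D n) (red hT hL' m) *
          ∏ i, fM k T L D n i ^ (mult k T L D n m i + 1) := by
      rw [Phi_red hT hD hL' m]
      simp only [pow_succ, Finset.prod_mul_distrib]
      ring
    have h2 := dk_mul_mod (n := n) (fM k T L D n) (fun i j hij c => pderiv_fM_ne i j hij c) a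
      (Phi (qM k T L D n) (thM k T L D n) (red hT hL' m)) (mult k T L D n m)
    rw [← h1] at h2
    have h3 := comp_of_mem hT hD hL e _ (Nat.lt_succ_of_le hm') _ (Ideal.mul_mem_left _ P h2)
    rw [mul_sub, map_sub, sub_eq_zero] at h3
    rw [h3, mul_smul_comm, map_smul]
    have h4 : P * (Phi (qM k T L D n) (thM k T L D n) (red hT hL' m) *
        (∏ i, fM k T L D n i ^ mult k T L D n m i) * θ) =
        (∏ i, fM k T L D n i ^ mult k T L D n m i) *
          (Phi (qM k T L D n) (thM k T L D n) (red hT hL' m) * (P * θ)) := by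
      ring
    rw [h4, comp_mul hT hD hL e _ hm', comp_Phi]
    by_cases hme : mult k T L D n m = e
    · rw [if_pos hme, if_pos hme, hme]
    · rw [if_neg hme, if_neg hme, zero_mul, map_zero, smul_zero, smul_zero]
  · simp [dk_eq]
  · intro x y _ _ hx hy
    rw [add_mul, dk_eq, map_add, mul_add, map_add, ← dk_eq, ← dk_eq, hx, hy, map_add, add_mul,
      map_add, smul_add]
  · intro c x _ hx
    rw [smul_mul_assoc, dk_eq, map_smul, ← dk_eq, mul_smul_comm, map_smul, hx, map_smul,
      smul_mul_assoc, map_smul, smul_comm]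

/-- (M4) compare `SE.indep` -/
theorem indepM {k T L D n l : ℕ} (hT : 1 ≤ T) (hD : 2 ≤ D) (hL : D < L)
    (g : MvPolynomial (Vr k T L n) ℂ) (hg : g ≠ 0) :
    ∃ b : (Vr k T L n →₀ ℕ) → MvPolynomial (Vr k T L n) ℂ,
      (∀ μ, (b μ).totalDegree ≤ μ.degree) ∧
      LinearIndependent ℂ (fun x : goodM k T L D n l =>
        b x.1.2 * dk (fun i => (i, x.1.1 i)) (g * rename Sum.inl (esf k T L D))) := by
  classical
  have hLe : D ≤ L := hL.le
  have hL' : D - 1 < L := by omega
  refine ⟨Phi (qM k T L D n) (thM k T L D n), fun μ =>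
    Phi_totalDegree_le _ _ (fun v => (thM_homog v).totalDegree_le) μ, ?_⟩
  rw [rename_esf]
  have hgood : ∀ x : goodM k T L D n l, (∀ i, D - 1 ≤ ((x.1.1 i).2 : ℕ)) ∧
      (∀ i, ¬ Spec D (x.1.1 i)) ∧ ∀ q : Fin k × Fin T × Fin L, D - 1 ≤ (q.2.2 : ℕ) →
        x.1.2 (Sum.inl q) < D - 1 := by
    intro x
    obtain ⟨hx1, hx2⟩ := Finset.mem_filter.1 x.2
    simp only [goodE, Finset.mem_product, Finset.mem_filter, Finset.mem_univ, true_and] at hx1
    exact ⟨hx1.1, hx2, hx1.2.2⟩
  obtain ⟨e, he, hge⟩ := exists_comp hT hD hLe g hg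
  set φ := Phi (qM k T L D n) (thM k T L D n) with hφ
  -- the exponents are different and have no multiplicity
  have hexp : ∀ x : goodM k T L D n l, φ x.1.2 *
      ∏ i, pderiv (Sum.inl (i, x.1.1 i)) (fM k T L D n i) = φ (expE D x.1) := by
    intro x
    obtain ⟨h1, h2, -⟩ := hgood x
    rw [Finset.prod_congr rfl fun i _ => pderiv_fM_thM hD i (x.1.1 i) (h1 i) (h2 i)]
    exact Phi_prodM hD x.1.2 x.1.1 h1 h2 Finset.univ
  have hmult : ∀ x : goodM k T L D n l, mult k T L D n (expE D x.1) = 0 := by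
    intro x
    obtain ⟨h1, h2, h3⟩ := hgood x
    funext i
    rw [mult_eq hT hL', Pi.zero_apply, Nat.div_eq_zero_iff]
    right
    unfold sp
    rw [expE_apply, if_neg, add_zero]
    · have := h3 (i, ⟨0, hT⟩, ⟨D - 1, hL'⟩) le_rfl
      omega
    · intro h
      apply h2 i
      rw [h]
      exact ⟨rfl, rfl⟩
  have hli : LinearIndependent ℂ (fun x : goodM k T L D n l => φ (expE D x.1)) := by
    refine (PhiM_li hT hD hLe).comp (fun x : goodM k T L D n l => expE D x.1) ?_
    intro x y hxy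
    exact Subtype.ext (expE_inj (Finset.mem_filter.1 x.2).1 (Finset.mem_filter.1 y.2).1 hxy)
  have hprime := isPrime_IM (k := k) (n := n) hT hD hL
  rw [Fintype.linearIndependent_iff] at hli ⊢
  intro lam hlam
  refine hli lam ?_
  set H : MvPolynomial (Vr k T L n) ℂ := ∑ x : goodM k T L D n l, lam x • φ (expE D x.1) with hH
  -- the component of the relation
  have h1 : (∏ i, ((e i : ℂ) + 1)) • comp n hT hD hLe 0 (comp n hT hD hLe e g * H) = 0 := by
    have h2 := congrArg (comp n hT hD hLe e) hlam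
    rw [map_sum, map_zero] at h2
    rw [hH, Finset.mul_sum, map_sum, Finset.smul_sum, ← h2]
    refine Finset.sum_congr rfl fun x _ => ?_
    rw [map_smul, comp_dk hT hD hLe e x.1.1 _ g hge, hexp x, mul_smul_comm, map_smul, smul_comm]
  have hγ : (∏ i, ((e i : ℂ) + 1)) ≠ 0 := by
    refine Finset.prod_ne_zero_iff.2 fun i _ => ?_
    exact_mod_cast Nat.succ_ne_zero (e i)
  have h3 : comp n hT hD hLe 0 (comp n hT hD hLe e g * H) = 0 := by
    rcases smul_eq_zero.1 h1 with h | h
    · exact absurd h hγ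
    · exact h
  have h4 := mem_of_comp hT hD hLe _ h3
  rcases hprime.mem_or_mem h4 with h | h
  · exact absurd h (comp_notMem hT hD hLe e g he)
  · have h5 : comp n hT hD hLe 0 H = H := by
      rw [hH, map_sum]
      refine Finset.sum_congr rfl fun x _ => ?_
      rw [map_smul, comp_Phi, if_pos (hmult x), red_of_mult hT hL' (hmult x)]
    rw [← h5]
    exact comp_of_mem hT hD hLe 0 1 (by simp) _ (by rwa [pow_one])

end Pool.Agent.Work.MP_35c45d_lc.SM
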