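import Pool.Agent.Work.MP_35c45d_lc.FGSpan
import Pool.Agent.Work.MP_35c45d_lc.FGCount
import Pool.Agent.Work.MP_35c45d_lc.FDSemi
import Pool.Agent.Work.MP_35c45d_lc.SMIndep
import Pool.Agent.Work.MP_35c45d_lc.SMCard

/-! # Functions of determinants, multisets: the inequality between the parameters -/

set_option autoImplicit false

namespace Pool.Agent.Work.MP_35c45d_lc.FD

open MvPolynomial Filter Topology SD SE SM

/-- compare `FD.lim_cardF` -/
theorem lim_cardG {ι : Type} [Fintype ι] [DecidableEq ι] {M c n k l : ℕ} {f : MvPolynomial ι ℂ}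
    (h : LimFunDet M c n f) {α : Type} [Fintype α] (a : α → Fin k → ι)
    (ν : α → MvPolynomial (ι ⊕ Fin (c * n)) ℂ) (hν : ∀ x, (ν x).totalDegree ≤ l)
    (hli : LinearIndependent ℂ fun x => ν x * dk (a x) (rename Sum.inl f)) :
    Fintype.card α ≤ M * ubG (Fintype.card ι) c n k l := by
  classical
  obtain ⟨Nd, Ψ, A, v, hA, hv, hdeg, hlim⟩ := h.bord
  refine semi (fun x => (LinearMap.mulLeft ℂ (ν x)).comp (dkL (a x)))
    (fun s => ∑ t, sb (v s) (A s t) (GG n (Ψ s t))) (rename Sum.inl f) Nd _ hdeg hlim ?_ ?_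
  · have : (fun x => (LinearMap.mulLeft ℂ (ν x)).comp (dkL (a x)) (rename Sum.inl f)) =
        fun x => ν x * dk (a x) (rename Sum.inl f) := by
      funext x
      rw [LinearMap.comp_apply, LinearMap.mulLeft_apply, dk_eq]
    rw [this]
    exact hli
  · intro s
    choose W hfd hrank hmem using fun t => upperG (A s t) (hA s t) (v s) (hv s) (Ψ s t) k l
    obtain ⟨S, hS, hSr, hSm⟩ :=
      exists_sum_space W hfd (u := ubG (Fintype.card ι) c n k l) hrank
    refine ⟨S, hS, hSr, fun x => ?_⟩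
    have h1 : (LinearMap.mulLeft ℂ (ν x)).comp (dkL (a x))
        (∑ t, sb (v s) (A s t) (GG n (Ψ s t))) =
        ∑ t, ν x * dk (a x) (sb (v s) (A s t) (GG n (Ψ s t))) := by
      rw [LinearMap.comp_apply, LinearMap.mulLeft_apply, map_sum, Finset.mul_sum]
      refine Finset.sum_congr rfl fun t _ => ?_
      rw [dk_eq]
    rw [h1]
    refine hSm _ fun t => ?_
    have h2 : ν x * dk (a x) (sb (v s) (A s t) (GG n (Ψ s t))) = ∑ d ∈ (ν x).support,
        coeff d (ν x) • (monomial d 1 * dk (a x) (sb (v s) (A s t) (GG n (Ψ s t)))) := by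
      conv_lhs => rw [(ν x).as_sum]
      rw [Finset.sum_mul]
      refine Finset.sum_congr rfl fun d _ => ?_
      rw [← smul_mul_assoc, smul_monomial, smul_eq_mul, mul_one]
    rw [h2]
    refine Submodule.sum_mem _ fun d hd => Submodule.smul_mem _ _ (hmem t (a x) d ?_)
    exact (le_totalDegree hd).trans (hν x)

theorem LamG_mono (c n k : ℕ) {z δ : ℝ} (hz : 0 ≤ z) (h : z ≤ δ) : LamG c n k z ≤ LamG c n k δ := by
  unfold LamG
  have h1 : z ^ 2 ≤ δ ^ 2 := pow_le_pow_left₀ hz h 2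
  have h2 : 2 * (c : ℝ) * n ^ 2 * z ^ 2 ≤ 2 * c * n ^ 2 * δ ^ 2 :=
    mul_le_mul_of_nonneg_left h1 (by positivity)
  have h3 : (c : ℝ) * n * z ≤ c * n * δ := mul_le_mul_of_nonneg_left h (by positivity)
  linarith

/-- compare `FD.core_gen`; `Nt` variables in all, `Nv` of them are special variables -/
theorem core_genT {k D c n M w Nv Nt : ℕ} (hk : 1 ≤ k) (hw : 1 ≤ w) (hNv : 2 ≤ Nv) (hNt : 1 ≤ Nt)
    (hD2 : 2 ≤ D) (hD : 2 * Real.log (2 * (Nv : ℝ)) ≤ (D : ℝ) - 1) (G : ℕ → ℕ)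
    (hgood : ∀ (l : ℕ) (z : ℝ), z = ((Nt + c * n : ℕ) : ℝ) / ((Nt + c * n + l : ℕ) : ℝ) →
      2 * (Nv : ℝ) * (1 - z) ^ (D - 1) ≤ 1 →
        (w : ℝ) ^ k / 2 * ((Nt + c * n + l).choose l : ℝ) ≤ (G l : ℝ))
    (hlim : ∀ l, G l ≤ M * ubG Nt c n k l) (δ : ℝ)
    (hδ : δ = 2 * Real.log (2 * (Nv : ℝ)) / ((D : ℝ) - 1))
    (hn : 384 * (c + k + LamG c n k δ) ≤ k * (w : ℝ)) :
    (2 : ℝ) ^ k ≤ 2 * M := by
  have hk1 : (1 : ℝ) ≤ k := by exact_mod_cast hk
  have hw1 : (1 : ℝ) ≤ w := by exact_mod_cast hw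
  have hNv2 : (2 : ℝ) ≤ Nv := by exact_mod_cast hNv
  set L : ℝ := Real.log (2 * (Nv : ℝ)) with hL
  have hL1 : 1 ≤ L := by
    rw [hL, Real.le_log_iff_exp_le (by linarith)]
    have := Real.exp_one_lt_d9
    linarith
  set d : ℝ := (D : ℝ) - 1 with hd
  have hDr : 2 ≤ d := by linarith
  set N : ℝ := ((Nt + c * n : ℕ) : ℝ) with hN
  have hN1 : 1 ≤ N := by
    have h1 : ((Nt : ℕ) : ℝ) ≤ N := by
      rw [hN]
      exact_mod_cast Nat.le_add_right _ _
    have h2 : (1 : ℝ) ≤ Nt := by exact_mod_cast hNt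
    linarith
  set l : ℕ := ⌊N * d / (2 * L)⌋₊ with hl
  have hlle : (l : ℝ) ≤ N * d / (2 * L) := Nat.floor_le (by positivity)
  have hllt : N * d / (2 * L) < l + 1 := Nat.lt_floor_add_one _
  set z : ℝ := N / ((Nt + c * n + l : ℕ) : ℝ) with hz
  have hNl : ((Nt + c * n + l : ℕ) : ℝ) = N + l := by
    rw [hN, Nat.cast_add (Nt + c * n) l]
  have hNlpos : 0 < N + l := by positivity
  -- `z ≤ 2 L / d`
  have hz1 : z * d ≤ 2 * L := by
    rw [hz, hNl, div_mul_eq_mul_div, div_le_iff₀ hNlpos]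
    have h1 : N * d ≤ (l + 1) * (2 * L) := by
      rw [← div_le_iff₀ (by linarith)]
      exact hllt.le
    nlinarith
  -- `z ≥ L / d`
  have hz2 : L ≤ z * d := by
    rw [hz, hNl, div_mul_eq_mul_div, le_div_iff₀ hNlpos]
    have h1 : (l : ℝ) * (2 * L) ≤ N * d := by
      rw [← le_div_iff₀ (by linarith)]
      exact hlle
    nlinarith
  have hz0 : 0 < z := by rw [hz, hNl]; positivity
  have hz01 : z ≤ 1 := by
    rw [hz, hNl, div_le_one hNlpos]
    have : (0 : ℝ) ≤ l := Nat.cast_nonneg l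
    linarith
  have hzδ : z ≤ δ := by
    rw [hδ, le_div_iff₀ (by linarith)]
    exact hz1
  -- the good monomials
  have hexp : 2 * (Nv : ℝ) * (1 - z) ^ (D - 1) ≤ 1 := by
    have h1 : (1 - z) ^ (D - 1) ≤ Real.exp (-L) := by
      have h2 : 1 - z ≤ Real.exp (-z) := by
        have := Real.add_one_le_exp (-z)
        linarith
      calc (1 - z) ^ (D - 1) ≤ (Real.exp (-z)) ^ (D - 1) :=
            pow_le_pow_left₀ (by linarith) h2 _
        _ = Real.exp (-(z * d)) := by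
            rw [← Real.exp_nat_mul, Nat.cast_sub (by omega), Nat.cast_one, ← hd]
            congr 1
            ring
        _ ≤ Real.exp (-L) := Real.exp_le_exp.2 (by linarith)
    have h3 : Real.exp (-L) = (2 * (Nv : ℝ))⁻¹ := by
      rw [Real.exp_neg, hL, Real.exp_log (by linarith)]
    rw [h3] at h1
    calc 2 * (Nv : ℝ) * (1 - z) ^ (D - 1) ≤ 2 * (Nv : ℝ) * (2 * (Nv : ℝ))⁻¹ :=
          mul_le_mul_of_nonneg_left h1 (by positivity)
      _ = 1 := mul_inv_cancel₀ (by linarith)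
  have hgood' := hgood l z (by rw [hz, hN]) hexp
  -- the upper bound
  have hub := ubG_le Nt c n k l hk (by omega) z (by rw [hz, hN])
  have hlim' : (G l : ℝ) ≤ M * (ubG Nt c n k l : ℝ) := by
    exact_mod_cast hlim l
  have hLam0 := LamG_nonneg c n k hz0.le
  have hLam1 := LamG_mono c n k hz0.le hzδ
  set θ : ℝ := 192 * (c + k + LamG c n k z) / k with hθ
  set Ch : ℝ := ((Nt + c * n + l).choose l : ℝ) with hCh
  have hChpos : 0 < Ch := by
    rw [hCh]
    exact_mod_cast Nat.choose_pos (by omega)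
  have hθ0 : 0 ≤ θ := by rw [hθ]; positivity
  have hθ2 : θ ≤ w / 2 := by
    rw [hθ, div_le_iff₀ (by linarith)]
    linarith
  have hfin : (w : ℝ) ^ k / 2 ≤ M * ((w : ℝ) / 2) ^ k := by
    have h1 : (w : ℝ) ^ k / 2 * Ch ≤ M * (θ ^ k * Ch) := by
      refine hgood'.trans (hlim'.trans ?_)
      exact mul_le_mul_of_nonneg_left hub (Nat.cast_nonneg M)
    have h2 : (w : ℝ) ^ k / 2 ≤ M * θ ^ k := by
      have : (w : ℝ) ^ k / 2 * Ch ≤ M * θ ^ k * Ch := by linarith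
      exact le_of_mul_le_mul_right this hChpos
    refine h2.trans (mul_le_mul_of_nonneg_left ?_ (Nat.cast_nonneg M))
    exact pow_le_pow_left₀ hθ0 hθ2 k
  rw [div_pow] at hfin
  have hppos : (0 : ℝ) < (w : ℝ) ^ k := by positivity
  have h2pos : (0 : ℝ) < (2 : ℝ) ^ k := by positivity
  have h3 : (w : ℝ) ^ k / 2 * 2 ^ k ≤ M * (w : ℝ) ^ k := by
    calc (w : ℝ) ^ k / 2 * 2 ^ k ≤ (M * ((w : ℝ) ^ k / 2 ^ k)) * 2 ^ k :=
          mul_le_mul_of_nonneg_right hfin h2pos.le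
      _ = M * (w : ℝ) ^ k := by field_simp
  have h4 : (w : ℝ) ^ k * 2 ^ k ≤ (w : ℝ) ^ k * (2 * M) := by nlinarith
  exact le_of_mul_le_mul_left h4 hppos

/-- compare `FD.core_gen` -/
theorem core_genG {k D c n M w Nv : ℕ} (hk : 1 ≤ k) (hw : 1 ≤ w) (hNv : 2 ≤ Nv) (hD2 : 2 ≤ D)
    (hD : 2 * Real.log (2 * (Nv : ℝ)) ≤ (D : ℝ) - 1) (G : ℕ → ℕ)
    (hgood : ∀ (l : ℕ) (z : ℝ), z = ((Nv + c * n : ℕ) : ℝ) / ((Nv + c * n + l : ℕ) : ℝ) →
      2 * (Nv : ℝ) * (1 - z) ^ (D - 1) ≤ 1 →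
        (w : ℝ) ^ k / 2 * ((Nv + c * n + l).choose l : ℝ) ≤ (G l : ℝ))
    (hlim : ∀ l, G l ≤ M * ubG Nv c n k l) (δ : ℝ)
    (hδ : δ = 2 * Real.log (2 * (Nv : ℝ)) / ((D : ℝ) - 1))
    (hn : 384 * (c + k + LamG c n k δ) ≤ k * (w : ℝ)) :
    (2 : ℝ) ^ k ≤ 2 * M :=
  core_genT hk hw hNv (by omega) hD2 hD G hgood hlim δ hδ hn

theorem lim_ineqG {k T L D c n M l : ℕ} (hT : 1 ≤ T) (hD : 2 ≤ D) (hL : D < L)
    (g : MvPolynomial (Fin k × Fin T × Fin L) ℂ) (hg : g ≠ 0)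
    (h : LimFunDet M c n (g * esf k T L D)) :
    (goodM k T L D (c * n) l).card ≤ M * ubG (k * (T * L)) c n k l := by
  classical
  have hg' : rename (Sum.inl : _ → Vr k T L (c * n)) g ≠ 0 := by
    intro h0
    apply hg
    exact rename_injective _ Sum.inl_injective (by rw [h0, map_zero])
  obtain ⟨b, hb, hli⟩ := indepM (k := k) (T := T) (L := L) (D := D) (n := c * n) (l := l) hT hD hL
    _ hg'
  have h1 := lim_cardG (k := k) (l := l) h (α := goodM k T L D (c * n) l)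
    (fun x i => (i, x.1.1 i)) (fun x => b x.1.2) (fun x => ?_) ?_
  · rw [Fintype.card_coe, Fintype.card_prod, Fintype.card_prod, Fintype.card_fin, Fintype.card_fin,
      Fintype.card_fin] at h1
    exact h1
  · refine (hb _).trans ?_
    exact (mem_mons.1 (Finset.mem_filter.1 (Finset.mem_product.1
      (Finset.mem_filter.1 x.2).1).2).1).2
  · simp only [map_mul]
    exact hli

/-- compare `SM.coreF` -/
theorem coreG {k T L D c n M w : ℕ} (hk : 1 ≤ k) (hT : 1 ≤ T) (hD2 : 2 ≤ D) (hL : D < L)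
    (hw : w + 1 = T * (L - (D - 1)))
    (hD : 2 * Real.log (2 * k * (T * L)) ≤ (D : ℝ) - 1)
    (g : MvPolynomial (Fin k × Fin T × Fin L) ℂ) (hg : g ≠ 0)
    (h : LimFunDet M c n (g * esf k T L D)) (δ : ℝ)
    (hδ : δ = 2 * Real.log (2 * k * (T * L)) / ((D : ℝ) - 1))
    (hn : 384 * (c + k + LamG c n k δ) ≤ k * (w : ℝ)) :
    (2 : ℝ) ^ k ≤ 2 * M := by
  have hcast : 2 * ((k * (T * L) : ℕ) : ℝ) = 2 * k * (T * L) := by
    push_cast
    ring
  have hw1 : 1 ≤ w := by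
    have h1 : 1 * 2 ≤ T * (L - (D - 1)) := Nat.mul_le_mul hT (by omega)
    omega
  have hNv : 2 ≤ k * (T * L) := by
    have h1 : 1 * (1 * L) ≤ k * (T * L) := Nat.mul_le_mul hk (Nat.mul_le_mul_right L hT)
    omega
  refine core_genG (k := k) (D := D) (c := c) (n := n) (M := M) (w := w) (Nv := k * (T * L))
    hk hw1 hNv hD2 (by rw [hcast]; exact hD) (fun l => (goodM k T L D (c * n) l).card)
    ?_ (fun l => lim_ineqG hT hD2 hL g hg h) δ (by rw [hcast]; exact hδ) hn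
  intro l z hz hexp
  have h1 := goodM_card k T L D (c * n) l hk hT (by omega) hL.le z hz hexp
  rw [← hw, Nat.add_sub_cancel] at h1
  exact h1

end Pool.Agent.Work.MP_35c45d_lc.FD
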