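import Pool.Agent.Work.MP_35c45d_lc.FDDefs

/-! # Functions of determinants: the upper bound with multisets instead of words -/

set_option autoImplicit false

namespace Pool.Agent.Work.MP_35c45d_lc.FD

open Finset

/-- the dummy variables met by a set of letters -/
def VS {c n : ℕ} (S : Finset (Ent c n)) : Finset (Fin c × Fin n) := S.biUnion Vl

/-- the cost of one more letter -/
def LamG (c n k : ℕ) (z : ℝ) : ℝ := 2 * c * n ^ 2 * z ^ 2 + c * n * z + 8 * k * (min n (2 * k) : ℕ)

/-- the upper bound: `N` variables, `c` determinants of size `n`, derivatives of order `k`, shifts of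
degree at most `l`; a multiset of letters is a `Finsupp` -/
def ubG (N c n k l : ℕ) : ℕ :=
  ∑ K ∈ range (k + 1), ∑ J ∈ range (k + 1 - K), Nat.multichoose c J *
    ∑ m ∈ finsuppAntidiag (univ : Finset (Ent c n)) K,
      (N + (c * n - (VS m.support).card) + l).choose l

end Pool.Agent.Work.MP_35c45d_lc.FD
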