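import Pool.Agent.Work.MP_35c45d_lc.FGDefs
import Pool.Agent.Work.MP_35c45d_lc.FDNum

/-! # Numerics of the final bound for functions of determinants, multisets -/

set_option autoImplicit false

namespace Pool.Agent.Work.MP_35c45d_lc.FD

open Filter

/-- the inequality between the parameters, with `y = m'`, `P = m ^ (ε / 16)`, `S = T (Q + 1)` -/
theorem num_auxG {c n k y P c₀ R δ L S mn : ℝ} (hc : 0 ≤ c) (hn : 0 ≤ n) (hk : 0 < k)
    (hL : 0 < L) (hkL : k ≤ 8 * L) (hP : 1 ≤ P) (hy : 0 < y) (hyP : P ^ 8 ≤ 2 * y)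
    (hδ : 0 ≤ δ) (hδy : δ * y ≤ P ^ 2) (hR0 : 0 ≤ R) (hR : 32 * R * P ^ 16 ≤ (k * y) ^ 2)
    (h1 : c * L ≤ R) (h2 : n * √c * (L * √L) ≤ R) (hmn : 0 ≤ mn) (h3 : mn * L ^ 2 ≤ 16 * R)
    (hS : c₀ * y ^ 2 ≤ S * P) (hc₀ : 110000 ≤ c₀ * P) :
    400 * (c + k + (2 * c * n ^ 2 * δ ^ 2 + c * n * δ + 8 * k * mn)) ≤ k * S := by
  have hP0 : 0 < P := by linarith
  have hky : 0 < k * y := by positivity
  have hYpos : 0 < (k * y) ^ 2 := by positivity
  have hP16 : P ^ 2 ≤ P ^ 16 := pow_le_pow_right₀ hP (by norm_num)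
  have hk2 : k ^ 2 ≤ 64 * L ^ 2 := by
    calc k ^ 2 ≤ (8 * L) ^ 2 := pow_le_pow_left₀ hk.le hkL 2
      _ = 64 * L ^ 2 := by ring
  have hk3 : k ^ 3 ≤ 512 * L ^ 3 := by
    calc k ^ 3 ≤ (8 * L) ^ 3 := pow_le_pow_left₀ hk.le hkL 3
      _ = 512 * L ^ 3 := by ring
  have hcsq : √c ^ 2 = c := Real.sq_sqrt hc
  have hLsq : √L ^ 2 = L := Real.sq_sqrt hL.le
  have hcn : c * n ^ 2 * L ^ 3 ≤ R ^ 2 := by
    calc c * n ^ 2 * L ^ 3 = (n * √c * (L * √L)) ^ 2 := by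
          rw [mul_pow, mul_pow, mul_pow, hcsq, hLsq]
          ring
      _ ≤ R ^ 2 := pow_le_pow_left₀ (by positivity) h2 2
  -- the five terms
  have t1 : P ^ 2 * k * c ≤ 1 / 4 * (k * y) ^ 2 := by
    calc P ^ 2 * k * c ≤ P ^ 2 * (8 * L) * c := by gcongr
      _ = 8 * P ^ 2 * (c * L) := by ring
      _ ≤ 8 * P ^ 16 * R := by gcongr
      _ ≤ 1 / 4 * (k * y) ^ 2 := by linarith
  have t2 : P ^ 2 * k * k ≤ 4 * (k * y) ^ 2 := by
    have h5 : P ^ 16 ≤ 4 * y ^ 2 := by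
      calc P ^ 16 = (P ^ 8) ^ 2 := by ring
        _ ≤ (2 * y) ^ 2 := pow_le_pow_left₀ (by positivity) hyP 2
        _ = 4 * y ^ 2 := by ring
    calc P ^ 2 * k * k = P ^ 2 * k ^ 2 := by ring
      _ ≤ 4 * y ^ 2 * k ^ 2 := by
        gcongr
        exact hP16.trans h5
      _ = 4 * (k * y) ^ 2 := by ring
  have t3 : P ^ 2 * k * (2 * c * n ^ 2 * δ ^ 2) ≤ (k * y) ^ 2 := by
    have h5 : P ^ 2 * k * (2 * c * n ^ 2 * δ ^ 2) * (k * y) ^ 2 ≤ (k * y) ^ 2 * (k * y) ^ 2 := by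
      calc P ^ 2 * k * (2 * c * n ^ 2 * δ ^ 2) * (k * y) ^ 2 =
            2 * P ^ 2 * k ^ 3 * (c * n ^ 2) * (δ * y) ^ 2 := by ring
        _ ≤ 2 * P ^ 2 * (512 * L ^ 3) * (c * n ^ 2) * (P ^ 2) ^ 2 := by gcongr
        _ = 1024 * P ^ 6 * (c * n ^ 2 * L ^ 3) := by ring
        _ ≤ 1024 * P ^ 32 * R ^ 2 := by
          gcongr
          norm_num
        _ = (32 * R * P ^ 16) ^ 2 := by ring
        _ ≤ ((k * y) ^ 2) ^ 2 := pow_le_pow_left₀ (by positivity) hR 2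
        _ = _ := by ring
    exact le_of_mul_le_mul_right h5 hYpos
  have t4 : P ^ 2 * k * (c * n * δ) ≤ (k * y) ^ 2 := by
    have h6 : (L ^ 2 * (c * n)) ^ 2 ≤ R ^ 3 := by
      calc (L ^ 2 * (c * n)) ^ 2 = (c * L) * (c * n ^ 2 * L ^ 3) := by ring
        _ ≤ R * R ^ 2 := by gcongr
        _ = R ^ 3 := by ring
    have h7 : 64 * P ^ 4 * (L ^ 2 * (c * n)) ≤ (k * y) ^ 3 := by
      have h8 : (64 * P ^ 4 * (L ^ 2 * (c * n))) ^ 2 ≤ ((k * y) ^ 3) ^ 2 := by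
        calc (64 * P ^ 4 * (L ^ 2 * (c * n))) ^ 2 = 4096 * P ^ 8 * (L ^ 2 * (c * n)) ^ 2 := by ring
          _ ≤ 32768 * P ^ 48 * R ^ 3 := by
            gcongr
            · norm_num
            · norm_num
          _ = (32 * R * P ^ 16) ^ 3 := by ring
          _ ≤ ((k * y) ^ 2) ^ 3 := pow_le_pow_left₀ (by positivity) hR 3
          _ = _ := by ring
      exact le_of_sq_le_sq h8 (by positivity)
    have h5 : P ^ 2 * k * (c * n * δ) * (k * y) ≤ (k * y) ^ 2 * (k * y) := by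
      calc P ^ 2 * k * (c * n * δ) * (k * y) = P ^ 2 * k ^ 2 * (c * n) * (δ * y) := by ring
        _ ≤ P ^ 2 * (64 * L ^ 2) * (c * n) * P ^ 2 := by gcongr
        _ = 64 * P ^ 4 * (L ^ 2 * (c * n)) := by ring
        _ ≤ (k * y) ^ 3 := h7
        _ = _ := by ring
    exact le_of_mul_le_mul_right h5 hky
  have t5 : P ^ 2 * k * (8 * k * mn) ≤ 256 * (k * y) ^ 2 := by
    calc P ^ 2 * k * (8 * k * mn) = 8 * P ^ 2 * k ^ 2 * mn := by ring
      _ ≤ 8 * P ^ 16 * (64 * L ^ 2) * mn := by gcongr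
      _ = 512 * P ^ 16 * (mn * L ^ 2) := by ring
      _ ≤ 512 * P ^ 16 * (16 * R) := by gcongr
      _ = 256 * (32 * R * P ^ 16) := by ring
      _ ≤ 256 * (k * y) ^ 2 := by gcongr
  have hfin : P ^ 2 * k * (400 * (c + k + (2 * c * n ^ 2 * δ ^ 2 + c * n * δ + 8 * k * mn))) ≤
      P ^ 2 * k * (k * S) := by
    calc P ^ 2 * k * (400 * (c + k + (2 * c * n ^ 2 * δ ^ 2 + c * n * δ + 8 * k * mn)))
        = 400 * (P ^ 2 * k * c + P ^ 2 * k * k + P ^ 2 * k * (2 * c * n ^ 2 * δ ^ 2) +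
          P ^ 2 * k * (c * n * δ) + P ^ 2 * k * (8 * k * mn)) := by ring
      _ ≤ 110000 * (k * y) ^ 2 := by linarith
      _ ≤ c₀ * P * (k * y) ^ 2 := by gcongr
      _ = P * k ^ 2 * (c₀ * y ^ 2) := by ring
      _ ≤ P * k ^ 2 * (S * P) := by gcongr
      _ = _ := by ring
  exact le_of_mul_le_mul_left hfin (by positivity)

/-- Take `k = ⌈4 log (M + 1)⌉ + 1` (so that `2 ^ k ≤ 2 M` fails) and `m' = m / k`. -/
theorem num_finalG (ε : ℝ) (hε : 0 < ε) (hε1 : ε < 1) (c₀ : ℝ) (hc₀ : 0 < c₀)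
    (m₀ : ℕ) (T Q : ℕ → ℕ) (hTQ : ∀ m', m₀ ≤ m' → 400 ≤ T m' * (Q m' + 1) ∧ T m' ≤ m' ∧
      Q m' ≤ m' ∧ c₀ * (m' : ℝ) ^ (1 - ε / 16) ≤ (Q m' : ℝ) ∧
      c₀ * (m' : ℝ) ^ (2 - ε / 16) ≤ (T m' : ℝ) * (Q m' : ℝ)) :
    ∃ κ : ℝ, 0 < κ ∧ ∀ m c n M : ℕ, 1 ≤ m → 1 ≤ M → 1 ≤ c → 1 ≤ n →
      (∀ k m' : ℕ, 1 ≤ k → m₀ ≤ m' → k * m' ≤ m → ∀ δ : ℝ,
        δ = 2 * Real.log (2 * k * (T m' * (2 * Q m'))) / ((Q m' : ℝ) - 1) → 2 ≤ Q m' →
        2 * Real.log (2 * k * (T m' * (2 * Q m'))) ≤ (Q m' : ℝ) - 1 →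
        400 * (c + k + LamG c n k δ) ≤ k * ((T m' : ℝ) * (Q m' + 1)) → (2 : ℝ) ^ k ≤ 2 * M) →
      κ * (m : ℝ) ^ (2 - ε) ≤ c * Real.log (M + 1) +
        n * √c * (Real.log (M + 1) * √(Real.log (M + 1))) +
        min (n : ℝ) (Real.log (M + 1)) * Real.log (M + 1) ^ 2 := by
  have hε16 : 0 < ε / 16 := by linarith
  have hev : ∀ᶠ x : ℝ in atTop, 2 * (m₀ : ℝ) ≤ x ^ (ε / 16) ∧ 2 ≤ x ^ (ε / 16) ∧
      110000 / c₀ ≤ x ^ (ε / 16) ∧ 4 * Real.log 4 + 8 * Real.log x ≤ c₀ * x ^ (ε / 16) := by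
    filter_upwards [(tendsto_rpow_atTop hε16).eventually_ge_atTop (2 * (m₀ : ℝ)),
      (tendsto_rpow_atTop hε16).eventually_ge_atTop 2,
      (tendsto_rpow_atTop hε16).eventually_ge_atTop (110000 / c₀),
      SD.ev_log (4 * Real.log 4) 8 (ε / 16) c₀ hε16 hc₀ (by norm_num)] with x h1 h2 h3 h4
    exact ⟨h1, h2, h3, h4⟩
  obtain ⟨m1, hm1⟩ := eventually_atTop.mp (tendsto_natCast_atTop_atTop.eventually hev)
  refine ⟨min (1 / 128) (1 / (2 * ((m1 : ℝ) + 1) ^ 2)), by positivity, ?_⟩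
  intro m c n M hm hM hcN hnN H
  have hm' : (1 : ℝ) ≤ m := by exact_mod_cast hm
  have hmpos : (0 : ℝ) < m := by linarith
  have hM' : (1 : ℝ) ≤ M := by exact_mod_cast hM
  have hc1 : (1 : ℝ) ≤ c := by exact_mod_cast hcN
  have hn1 : (1 : ℝ) ≤ n := by exact_mod_cast hnN
  set L : ℝ := Real.log (M + 1) with hL
  have hL2 : (1 / 2 : ℝ) ≤ L := by
    have h1 : Real.log 2 ≤ Real.log (M + 1) := Real.log_le_log (by norm_num) (by linarith)
    have h2 := Real.log_two_gt_d9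
    linarith
  have hL0 : 0 < L := by linarith
  have hsL : 0 ≤ √L := Real.sqrt_nonneg _
  have hsc : 0 ≤ √(c : ℝ) := Real.sqrt_nonneg _
  have hmp : (0 : ℝ) < (m : ℝ) ^ (2 - ε) := Real.rpow_pos_of_pos hmpos _
  have hmin0 : 0 ≤ min (n : ℝ) L := by positivity
  have a1 : 0 ≤ (c : ℝ) * L := by positivity
  have a2 : 0 ≤ (n : ℝ) * √c * (L * √L) := by positivity
  have a3 : 0 ≤ min (n : ℝ) L * L ^ 2 := by positivity
  by_cases hbig : m1 ≤ m
  swap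
  · -- small `m`
    rw [not_le] at hbig
    have hb : (m : ℝ) ≤ m1 + 1 := by
      have : (m : ℝ) < m1 := by exact_mod_cast hbig
      linarith
    have h1 : (m : ℝ) ^ (2 - ε) ≤ ((m1 : ℝ) + 1) ^ 2 := by
      calc (m : ℝ) ^ (2 - ε) ≤ (m : ℝ) ^ (2 : ℝ) :=
            Real.rpow_le_rpow_of_exponent_le hm' (by linarith)
        _ = (m : ℝ) ^ 2 := by norm_cast
        _ ≤ _ := by gcongr
    have h2 : min (1 / 128) (1 / (2 * ((m1 : ℝ) + 1) ^ 2)) * (m : ℝ) ^ (2 - ε) ≤ 1 / 2 := by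
      calc min (1 / 128) (1 / (2 * ((m1 : ℝ) + 1) ^ 2)) * (m : ℝ) ^ (2 - ε)
          ≤ 1 / (2 * ((m1 : ℝ) + 1) ^ 2) * ((m1 : ℝ) + 1) ^ 2 := by
            gcongr
            exact min_le_right _ _
        _ = 1 / 2 := by field_simp
    have h3 : 1 * L ≤ (c : ℝ) * L := by gcongr
    linarith
  obtain ⟨hA, hB, hC, hD⟩ := hm1 m hbig
  by_contra hcon
  rw [not_le] at hcon
  set P : ℝ := (m : ℝ) ^ (ε / 16) with hP
  have hP0 : 0 < P := by linarith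
  have hP1 : 1 ≤ P := by linarith
  have hP16 : (m : ℝ) ^ (2 - ε) * P ^ 16 = (m : ℝ) ^ 2 := by
    rw [hP, ← Real.rpow_natCast, ← Real.rpow_mul hmpos.le, ← Real.rpow_add hmpos]
    have : 2 - ε + ε / 16 * ((16 : ℕ) : ℝ) = ((2 : ℕ) : ℝ) := by push_cast; ring
    rw [this, Real.rpow_natCast]
  obtain ⟨R, hR⟩ : ∃ R : ℝ, R = 1 / 128 * (m : ℝ) ^ (2 - ε) := ⟨_, rfl⟩
  have hR0 : 0 < R := by rw [hR]; positivity
  have hRP : 128 * R * P ^ 16 = (m : ℝ) ^ 2 := by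
    rw [← hP16, hR]
    ring
  have hconR : (c : ℝ) * L + n * √c * (L * √L) + min (n : ℝ) L * L ^ 2 < R := by
    refine hcon.trans_le ?_
    rw [hR]
    gcongr
    exact min_le_left _ _
  have b1 : (c : ℝ) * L ≤ R := by linarith
  have b2 : (n : ℝ) * √c * (L * √L) ≤ R := by linarith
  have b3 : min (n : ℝ) L * L ^ 2 ≤ R := by linarith
  -- the parameter `k`
  set k : ℕ := ⌈4 * L⌉₊ + 1 with hk
  have hk1 : 1 ≤ k := by omega
  have hkr : (k : ℝ) = (⌈4 * L⌉₊ : ℝ) + 1 := by rw [hk]; push_cast; rfl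
  have hkge : 4 * L + 1 ≤ k := by
    have := Nat.le_ceil (4 * L)
    linarith
  have hkle : (k : ℝ) ≤ 8 * L := by
    have := (Nat.ceil_lt_add_one (by positivity : 0 ≤ 4 * L)).le
    linarith
  have hkpos : (0 : ℝ) < k := by linarith
  have hkm2 : (P ^ 8 * k) ^ 2 ≤ (m : ℝ) ^ 2 := by
    have h1 : 1 / 2 * L ^ 2 ≤ R := by
      refine le_trans ?_ b3
      gcongr
      exact le_min (by linarith) hL2
    calc (P ^ 8 * k) ^ 2 = P ^ 16 * (k : ℝ) ^ 2 := by ring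
      _ ≤ P ^ 16 * (8 * L) ^ 2 := by gcongr
      _ = 128 * (1 / 2 * L ^ 2) * P ^ 16 := by ring
      _ ≤ 128 * R * P ^ 16 := by gcongr
      _ = (m : ℝ) ^ 2 := hRP
  have hkm1 : P ^ 8 * k ≤ m := le_of_sq_le_sq hkm2 hmpos.le
  have hkm0 : (k : ℝ) ≤ m := by
    calc (k : ℝ) = 1 * k := (one_mul _).symm
      _ ≤ P ^ 8 * k := by
        gcongr
        exact one_le_pow₀ hP1
      _ ≤ m := hkm1
  have hkm : k ≤ m := by exact_mod_cast hkm0
  set m' : ℕ := m / k with hm'def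
  have hm'1 : 1 ≤ m' := Nat.div_pos hkm (by omega)
  have hkm' : k * m' ≤ m := Nat.mul_div_le m k
  have hkm'r : (k : ℝ) * m' ≤ m := by exact_mod_cast hkm'
  have hm'1r : (1 : ℝ) ≤ m' := by exact_mod_cast hm'1
  have hm'pos : (0 : ℝ) < m' := by linarith
  have hm2 : (m : ℝ) ≤ 2 * (k * m') := by
    have h1 : m < (m' + 1) * k := by
      have h0 := Nat.lt_div_mul_add (a := m) (b := k) (by omega)
      have h2 : (m' + 1) * k = m / k * k + k := by rw [hm'def]; ring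
      omega
    have h2 : (m : ℝ) < (m' + 1) * k := by exact_mod_cast h1
    nlinarith
  have hPm : P ^ 8 ≤ 2 * m' := by
    have h1 : P ^ 8 * k ≤ 2 * m' * k := by
      calc P ^ 8 * k ≤ m := hkm1
        _ ≤ 2 * (k * m') := hm2
        _ = 2 * m' * k := by ring
    exact le_of_mul_le_mul_right h1 hkpos
  have hPP8 : P ≤ P ^ 8 := le_self_pow₀ hP1 (by norm_num)
  have hm0 : m₀ ≤ m' := by
    have : (m₀ : ℝ) ≤ m' := by linarith
    exact_mod_cast this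
  have hm'm : m' ≤ m := Nat.div_le_self m k
  have hm'mr : (m' : ℝ) ≤ m := by exact_mod_cast hm'm
  obtain ⟨hT1, hT2, hQ1, hQ2, hTQ1⟩ := hTQ m' hm0
  have hTpos : 1 ≤ T m' := by
    rcases Nat.eq_zero_or_pos (T m') with h | h
    · rw [h] at hT1
      omega
    · exact h
  have hTpos' : (1 : ℝ) ≤ T m' := by exact_mod_cast hTpos
  have hPm' : (m' : ℝ) ^ (ε / 16) ≤ P := by
    rw [hP]
    gcongr
  have hQP : c₀ * m' ≤ Q m' * P := by
    have h1 : (m' : ℝ) = (m' : ℝ) ^ (1 - ε / 16) * (m' : ℝ) ^ (ε / 16) := by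
      rw [← Real.rpow_add hm'pos]
      have : 1 - ε / 16 + ε / 16 = 1 := by ring
      rw [this, Real.rpow_one]
    have h3 : (0 : ℝ) < (m' : ℝ) ^ (1 - ε / 16) := Real.rpow_pos_of_pos hm'pos _
    calc c₀ * m' = c₀ * (m' : ℝ) ^ (1 - ε / 16) * (m' : ℝ) ^ (ε / 16) := by
          rw [mul_assoc, ← h1]
      _ ≤ c₀ * (m' : ℝ) ^ (1 - ε / 16) * P := by gcongr
      _ ≤ Q m' * P := by gcongr
  have hTQP : c₀ * (m' : ℝ) ^ 2 ≤ (T m' : ℝ) * (Q m' + 1) * P := by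
    have h1 : (m' : ℝ) ^ 2 = (m' : ℝ) ^ (2 - ε / 16) * (m' : ℝ) ^ (ε / 16) := by
      rw [← Real.rpow_add hm'pos]
      have : 2 - ε / 16 + ε / 16 = ((2 : ℕ) : ℝ) := by push_cast; ring
      rw [this, Real.rpow_natCast]
    have h3 : (0 : ℝ) < (m' : ℝ) ^ (2 - ε / 16) := Real.rpow_pos_of_pos hm'pos _
    calc c₀ * (m' : ℝ) ^ 2 = c₀ * (m' : ℝ) ^ (2 - ε / 16) * (m' : ℝ) ^ (ε / 16) := by
          rw [mul_assoc, ← h1]
      _ ≤ c₀ * (m' : ℝ) ^ (2 - ε / 16) * P := by gcongr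
      _ ≤ (T m' : ℝ) * Q m' * P := by gcongr
      _ ≤ (T m' : ℝ) * (Q m' + 1) * P := by
        gcongr
        linarith
  have hlogm : 0 ≤ Real.log m := Real.log_nonneg hm'
  have hlog4 : 1 ≤ Real.log 4 := by
    have h1 : Real.log 4 = 2 * Real.log 2 := by
      rw [show (4 : ℝ) = 2 ^ 2 by norm_num, Real.log_pow]
      push_cast
      rfl
    have h2 := Real.log_two_gt_d9
    linarith
  have hc₀P : c₀ * P ≤ Q m' := by
    have h1 : c₀ * P * P ≤ Q m' * P := by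
      have h2 : P ^ 2 ≤ m' := by
        have h3 : P ^ 2 * 2 ≤ P ^ 8 := by
          calc P ^ 2 * 2 ≤ P ^ 2 * P := by gcongr
            _ = P ^ 3 := by ring
            _ ≤ P ^ 8 := pow_le_pow_right₀ hP1 (by norm_num)
        linarith
      calc c₀ * P * P = c₀ * P ^ 2 := by ring
        _ ≤ c₀ * m' := by gcongr
        _ ≤ Q m' * P := hQP
    exact le_of_mul_le_mul_right h1 hP0
  have hQ4 : (4 : ℝ) ≤ Q m' := by linarith
  have hQpos : 0 < Q m' := by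
    have : (0 : ℝ) < Q m' := by linarith
    exact_mod_cast this
  have hQ2N : 2 ≤ Q m' := by
    have : ((2 : ℕ) : ℝ) ≤ Q m' := by push_cast; linarith
    exact_mod_cast this
  have hQpos' : (0 : ℝ) < Q m' := by linarith
  -- the logarithm
  have hlog : Real.log (2 * k * (T m' * (2 * Q m'))) ≤ Real.log 4 + 2 * Real.log m := by
    have h1 : 2 * (k : ℝ) * (T m' * (2 * Q m')) ≤ 4 * (m : ℝ) ^ 2 := by
      have e1 : k * (T m' * Q m') ≤ m * m := by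
        calc k * (T m' * Q m') ≤ k * (m' * m') := by gcongr
          _ = (k * m') * m' := by ring
          _ ≤ m * m := by gcongr
      have e2 : (k : ℝ) * (T m' * Q m') ≤ m * m := by exact_mod_cast e1
      nlinarith
    calc Real.log (2 * k * (T m' * (2 * Q m'))) ≤ Real.log (4 * (m : ℝ) ^ 2) :=
          Real.log_le_log (by positivity) h1
      _ = _ := by
          rw [Real.log_mul (by norm_num) (by positivity), Real.log_pow]
          push_cast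
          rfl
  have hc1' : 2 * Real.log (2 * k * (T m' * (2 * Q m'))) ≤ (Q m' : ℝ) - 1 := by linarith
  have hlog0 : 0 ≤ Real.log (2 * k * (T m' * (2 * Q m'))) := by
    apply Real.log_nonneg
    have h1 : 1 ≤ k * (T m' * Q m') := Nat.mul_pos hk1 (Nat.mul_pos hTpos hQpos)
    have h2 : (1 : ℝ) ≤ k * (T m' * Q m') := by exact_mod_cast h1
    nlinarith
  obtain ⟨δ, hδ⟩ : ∃ δ : ℝ,
      δ = 2 * Real.log (2 * k * (T m' * (2 * Q m'))) / ((Q m' : ℝ) - 1) := ⟨_, rfl⟩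
  have hδ0 : 0 ≤ δ := by
    rw [hδ]
    exact div_nonneg (by linarith) (by linarith)
  have hδy : δ * m' ≤ P ^ 2 := by
    have h1 : δ * (Q m' / 2) ≤ 2 * (Real.log 4 + 2 * Real.log m) := by
      calc δ * (Q m' / 2) ≤ δ * ((Q m' : ℝ) - 1) := by
            gcongr
            linarith
        _ = 2 * Real.log (2 * k * (T m' * (2 * Q m'))) := by
            rw [hδ]
            exact div_mul_cancel₀ _ (by linarith)
        _ ≤ _ := by linarith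
    have h2 : δ * Q m' ≤ c₀ * P := by linarith
    have h3 : c₀ * (δ * m') ≤ c₀ * P ^ 2 := by
      calc c₀ * (δ * m') = δ * (c₀ * m') := by ring
        _ ≤ δ * (Q m' * P) := by gcongr
        _ = (δ * Q m') * P := by ring
        _ ≤ c₀ * P * P := by gcongr
        _ = c₀ * P ^ 2 := by ring
    exact le_of_mul_le_mul_left h3 hc₀
  -- the main inequality
  have hmn : (((min n (2 * k) : ℕ) : ℝ)) * L ^ 2 ≤ 16 * R := by
    have h1 : ((min n (2 * k) : ℕ) : ℝ) ≤ 16 * min (n : ℝ) L := by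
      rw [mul_min_of_nonneg _ _ (by norm_num : (0 : ℝ) ≤ 16)]
      refine le_min ?_ ?_
      · have h2 : ((min n (2 * k) : ℕ) : ℝ) ≤ n := by exact_mod_cast min_le_left _ _
        linarith
      · have h2 : ((min n (2 * k) : ℕ) : ℝ) ≤ ((2 * k : ℕ) : ℝ) := by
          exact_mod_cast min_le_right _ _
        have h4 : ((2 * k : ℕ) : ℝ) = 2 * k := by push_cast; rfl
        rw [h4] at h2
        linarith
    calc (((min n (2 * k) : ℕ) : ℝ)) * L ^ 2 ≤ 16 * min (n : ℝ) L * L ^ 2 := by gcongr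
      _ = 16 * (min (n : ℝ) L * L ^ 2) := by ring
      _ ≤ 16 * R := by gcongr
  have hc2 : 400 * ((c : ℝ) + k + LamG c n k δ) ≤ k * ((T m' : ℝ) * (Q m' + 1)) := by
    unfold LamG
    refine num_auxG (y := m') (P := P) (c₀ := c₀) (R := R) (L := L) (by positivity)
      (by positivity) hkpos hL0 hkle hP1 hm'pos hPm hδ0 hδy hR0.le ?_ b1 b2 (Nat.cast_nonneg _)
      hmn hTQP ?_
    · have h1 : (m : ℝ) ^ 2 ≤ (2 * (k * m')) ^ 2 := pow_le_pow_left₀ hmpos.le hm2 2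
      have h2 : (2 * ((k : ℝ) * m')) ^ 2 = 4 * (k * m') ^ 2 := by ring
      linarith
    · rw [div_le_iff₀ hc₀] at hC
      linarith
  have hfin := H k m' hk1 hm0 hkm' δ hδ hQ2N hc1' hc2
  -- contradiction
  have h1 := Real.log_le_log (by positivity) hfin
  rw [Real.log_pow, Real.log_mul (by norm_num) (by positivity)] at h1
  have h2 : Real.log M ≤ L := Real.log_le_log (by positivity) (by linarith)
  have h3 := Real.log_two_gt_d9
  nlinarith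

end Pool.Agent.Work.MP_35c45d_lc.FD
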