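import Pool.Agent.Work.MP_35c45d_lc.FGDefs
import Pool.Agent.Work.MP_35c45d_lc.FDSpan

/-! # The upper bound with multisets (helper59) -/

set_option autoImplicit false

namespace Pool.Agent.Work.MP_35c45d_lc.FD

open MvPolynomial SD

theorem Eu_comm {c : ℕ} (a b : Fin c) (Ψ : MvPolynomial (Fin c) ℂ) :
    Eu a (Eu b Ψ) = Eu b (Eu a Ψ) := by
  rcases eq_or_ne a b with rfl | h
  · rfl
  · unfold Eu
    rw [Derivation.leibniz, Derivation.leibniz, pderiv_X_of_ne h.symm, pderiv_X_of_ne h,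
      smul_zero, smul_zero, add_zero, add_zero, smul_eq_mul, smul_eq_mul, pderiv_comm']
    ring

theorem Eus_perm {c : ℕ} {β β' : List (Fin c)} (h : β.Perm β') (Ψ : MvPolynomial (Fin c) ℂ) :
    Eus β Ψ = Eus β' Ψ := by
  induction h with
  | nil => rfl
  | cons x _ ih => rw [Eus, Eus, ih]
  | swap x y l => rw [Eus, Eus, Eus, Eus, Eu_comm]
  | trans _ _ ih1 ih2 => exact ih1.trans ih2

theorem mem_Vw_iff {c n : ℕ} {w : List (Ent c n)} {p : Fin c × Fin n} :
    p ∈ Vw w ↔ ∃ e ∈ w, p ∈ Vl e := by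
  refine ⟨mem_Vw, ?_⟩
  induction w with
  | nil => rintro ⟨e, he, _⟩; simp at he
  | cons x w ih =>
    rintro ⟨e, he, hp⟩
    rw [Vw, Finset.mem_union]
    rcases List.mem_cons.1 he with rfl | he
    · exact Or.inl hp
    · exact Or.inr (ih ⟨e, he, hp⟩)

theorem VS_toFinsupp {c n : ℕ} (w : List (Ent c n)) :
    VS (Multiset.toFinsupp (w : Multiset (Ent c n))).support = Vw w := by
  ext p
  rw [mem_Vw_iff, VS, Finset.mem_biUnion]
  simp only [Multiset.toFinsupp_support, Multiset.mem_toFinset, Multiset.mem_coe]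

theorem toList_perm {α : Type} [DecidableEq α] (w : List α) :
    (Finsupp.toMultiset (Multiset.toFinsupp (w : Multiset α))).toList.Perm w := by
  rw [← Multiset.coe_eq_coe, Multiset.coe_toList, Multiset.toFinsupp_toMultiset]

theorem toFinsupp_mem {α : Type} [DecidableEq α] [Fintype α] (w : List α) :
    Multiset.toFinsupp (w : Multiset α) ∈
      Finset.finsuppAntidiag (Finset.univ : Finset α) w.length := by
  rw [Finset.mem_finsuppAntidiag]
  refine ⟨?_, Finset.subset_univ _⟩
  have h := Multiset.toFinsupp_sum_eq (w : Multiset α)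
  rw [Multiset.coe_card] at h
  rw [← h, Finsupp.sum_fintype _ _ fun _ => rfl]
  rfl

/-- the normal forms, indexed by multisets -/
noncomputable def sformG {ι : Type} {c n : ℕ} (v : ℂ)
    (A : Fin c → Matrix (Fin n) (Fin n) (MvPolynomial ι ℂ)) (Ψ : MvPolynomial (Fin c) ℂ)
    (q : (_ : ℕ) × (_ : ℕ) × ((Fin c →₀ ℕ) × ((_ : Ent c n →₀ ℕ) ×
      ((ι ⊕ Fin (c * n)) →₀ ℕ)))) : MvPolynomial (ι ⊕ Fin (c * n)) ℂ :=
  monomial q.2.2.2.2 1 * sb v A (Dw (Finsupp.toMultiset q.2.2.2.1).toList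
    (GG n (Eus (Finsupp.toMultiset q.2.2.1).toList Ψ)))

/-- compare `FD.upper` -/
theorem upperG {ι : Type} [Fintype ι] [DecidableEq ι] {c n : ℕ}
    (A : Fin c → Matrix (Fin n) (Fin n) (MvPolynomial ι ℂ))
    (hA : ∀ a i j, (A a i j).totalDegree ≤ 1) (v : ℂ) (hv : v ≠ 0)
    (Ψ : MvPolynomial (Fin c) ℂ) (k l : ℕ) :
    ∃ W : Submodule ℂ (MvPolynomial (ι ⊕ Fin (c * n)) ℂ), FiniteDimensional ℂ W ∧
      Module.finrank ℂ W ≤ ubG (Fintype.card ι) c n k l ∧
      ∀ (a : Fin k → ι) (μ : (ι ⊕ Fin (c * n)) →₀ ℕ), μ.degree ≤ l →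
        monomial μ 1 * dk a (sb v A (GG n Ψ)) ∈ W := by
  classical
  set S : Finset ((_ : ℕ) × (_ : ℕ) × ((Fin c →₀ ℕ) × ((_ : Ent c n →₀ ℕ) ×
      ((ι ⊕ Fin (c * n)) →₀ ℕ)))) :=
    (Finset.range (k + 1)).sigma fun K => (Finset.range (k + 1 - K)).sigma fun J =>
      (Finset.finsuppAntidiag (Finset.univ : Finset (Fin c)) J) ×ˢ
        ((Finset.finsuppAntidiag (Finset.univ : Finset (Ent c n)) K).sigma fun m =>
          mons ((Finset.univ : Finset ι).disjSum
            ((VS m.support).map finProdFinEquiv.toEmbedding)ᶜ) l) with hS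
  have hsub : nforms v A Ψ k l ⊆ Submodule.span ℂ ((S.image (sformG v A Ψ) :
      Finset (MvPolynomial (ι ⊕ Fin (c * n)) ℂ)) :
        Set (MvPolynomial (ι ⊕ Fin (c * n)) ℂ)) := by
    rintro P ⟨w, β, μ, hwβ, hμ, hy, rfl⟩
    apply Submodule.subset_span
    rw [Finset.coe_image]
    refine ⟨⟨w.length, β.length, Multiset.toFinsupp (β : Multiset (Fin c)),
      ⟨Multiset.toFinsupp (w : Multiset (Ent c n)), μ⟩⟩, ?_, ?_⟩
    · rw [hS, Finset.mem_coe, Finset.mem_sigma, Finset.mem_sigma, Finset.mem_product,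
        Finset.mem_sigma]
      refine ⟨?_, ?_, toFinsupp_mem β, toFinsupp_mem w, ?_⟩
      · simp only [Finset.mem_range]
        omega
      · simp only [Finset.mem_range]
        omega
      · simp only
        rw [mem_mons]
        refine ⟨?_, hμ⟩
        intro x hx
        rw [Finsupp.mem_support_iff] at hx
        rcases x with x | i
        · simp
        · simp only [Finset.inr_mem_disjSum, Finset.mem_compl]
          intro hi
          obtain ⟨p, hp, hpi⟩ := Finset.mem_map.1 hi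
          apply hx
          rw [VS_toFinsupp] at hp
          rw [← hpi]
          exact hy p hp
    · simp only [sformG]
      rw [Dw_perm (toList_perm w), Eus_perm (toList_perm β)]
  refine ⟨Submodule.span ℂ ((S.image (sformG v A Ψ) :
      Finset (MvPolynomial (ι ⊕ Fin (c * n)) ℂ)) : Set (MvPolynomial (ι ⊕ Fin (c * n)) ℂ)),
    FiniteDimensional.span_finset _ _, ?_, ?_⟩
  · refine (finrank_span_finset_le_card _).trans (Finset.card_image_le.trans ?_)
    rw [hS, Finset.card_sigma]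
    unfold ubG
    refine Finset.sum_le_sum fun K _ => ?_
    rw [Finset.card_sigma]
    refine Finset.sum_le_sum fun J _ => ?_
    rw [Finset.card_product, Finset.card_sigma, Finset.card_finsuppAntidiag_nat_eq_multichoose,
      Finset.card_univ, Fintype.card_fin]
    refine Nat.mul_le_mul_left _ (Finset.sum_le_sum fun m _ => ?_)
    rw [card_mons, Finset.card_disjSum, Finset.card_univ, Finset.card_compl, Fintype.card_fin,
      Finset.card_map]
  · intro a μ hμ
    have h1 := dk_mem A hA v (GG n Ψ) a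
    have h2 : Submodule.span ℂ (nforms v A Ψ k l) ≤ Submodule.span ℂ ((S.image (sformG v A Ψ) :
      Finset (MvPolynomial (ι ⊕ Fin (c * n)) ℂ)) :
        Set (MvPolynomial (ι ⊕ Fin (c * n)) ℂ)) := Submodule.span_le.2 hsub
    apply h2
    refine Submodule.span_induction (p := fun P _ => monomial μ 1 * P ∈
      Submodule.span ℂ (nforms v A Ψ k l)) ?_ ?_ ?_ ?_ h1
    · rintro P ⟨w, hw, rfl⟩
      exact kill v hv A hA Ψ k l _ μ hμ le_rfl w [] (by rw [hw]; simp)
    · rw [mul_zero]
      exact Submodule.zero_mem _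
    · intro P Q _ _ hP hQ
      rw [mul_add]
      exact Submodule.add_mem _ hP hQ
    · intro c P _ hP
      rw [mul_smul_comm]
      exact Submodule.smul_mem _ _ hP

end Pool.Agent.Work.MP_35c45d_lc.FD
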