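import Mathlib

/-! Arithmetic formulas with additions, multiplications and divisions; the number of leaves with
labels in a block bounds the dimension of the space of partial derivatives outside the block. -/

set_option autoImplicit false

namespace Pool.Agent.Work.MP_35c45d_lc.FQ

open MvPolynomial

/-- Arithmetic formulas over the complex numbers: binary trees whose inner nodes are additions,
multiplications or divisions and whose leaves carry a variable from `σ` or a constant. -/
inductive Formula (σ : Type) : Type where
  | var (i : σ) : Formula σ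
  | const (c : ℂ) : Formula σ
  | add (a b : Formula σ) : Formula σ
  | mul (a b : Formula σ) : Formula σ
  | div (a b : Formula σ) : Formula σ

variable {σ : Type}

/-- The rational function computed by a formula. -/
noncomputable def Formula.value : Formula σ → FractionRing (MvPolynomial σ ℂ)
  | .var i => algebraMap (MvPolynomial σ ℂ) _ (X i)
  | .const c => algebraMap (MvPolynomial σ ℂ) _ (C c)
  | .add a b => a.value + b.value
  | .mul a b => a.value * b.value
  | .div a b => a.value / b.value

/-- No division by the zero function occurs in the formula. -/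
def Formula.Valid : Formula σ → Prop
  | .var _ => True
  | .const _ => True
  | .add a b => a.Valid ∧ b.Valid
  | .mul a b => a.Valid ∧ b.Valid
  | .div a b => a.Valid ∧ b.Valid ∧ b.value ≠ 0

/-- The number of leaves of a formula that carry a variable. -/
def Formula.varLeaves : Formula σ → ℕ
  | .var _ => 1
  | .const _ => 0
  | .add a b => a.varLeaves + b.varLeaves
  | .mul a b => a.varLeaves + b.varLeaves
  | .div a b => a.varLeaves + b.varLeaves

/-- `φ` computes the polynomial `f`. -/
def Formula.Computes (φ : Formula σ) (f : MvPolynomial σ ℂ) : Prop :=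
  φ.Valid ∧ φ.value = algebraMap (MvPolynomial σ ℂ) (FractionRing (MvPolynomial σ ℂ)) f

/-- The number of leaves of a formula labelled by a given variable. -/
def occ [DecidableEq σ] (j : σ) : Formula σ → ℕ
  | .var i => if i = j then 1 else 0
  | .const _ => 0
  | .add a b => occ j a + occ j b
  | .mul a b => occ j a + occ j b
  | .div a b => occ j a + occ j b

/-- The number of leaves of a formula labelled by a variable of the block `B`. -/
def occB [DecidableEq σ] (B : Finset σ) : Formula σ → ℕ
  | .var i => if i ∈ B then 1 else 0
  | .const _ => 0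
  | .add a b => occB B a + occB B b
  | .mul a b => occB B a + occB B b
  | .div a b => occB B a + occB B b

theorem occB_eq_sum [DecidableEq σ] (B : Finset σ) (φ : Formula σ) :
    occB B φ = ∑ j ∈ B, occ j φ := by
  induction φ with
  | var i =>
    simp only [occB, occ]
    rw [Finset.sum_ite_eq]
  | const c => simp [occB, occ]
  | add a b iha ihb => simp only [occB, occ, iha, ihb, Finset.sum_add_distrib]
  | mul a b iha ihb => simp only [occB, occ, iha, ihb, Finset.sum_add_distrib]
  | div a b iha ihb => simp only [occB, occ, iha, ihb, Finset.sum_add_distrib]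

theorem sum_occ [DecidableEq σ] [Fintype σ] (φ : Formula σ) :
    ∑ j, occ j φ = φ.varLeaves := by
  induction φ with
  | var i => simp [occ, Formula.varLeaves]
  | const c => simp [occ, Formula.varLeaves]
  | add a b iha ihb => simp only [occ, Formula.varLeaves, Finset.sum_add_distrib, iha, ihb]
  | mul a b iha ihb => simp only [occ, Formula.varLeaves, Finset.sum_add_distrib, iha, ihb]
  | div a b iha ihb => simp only [occ, Formula.varLeaves, Finset.sum_add_distrib, iha, ihb]

/-! ### Values and derivatives at a point -/

/-- value at a point -/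
noncomputable def val (x : σ → ℂ) : Formula σ → ℂ
  | .var i => x i
  | .const c => c
  | .add a b => val x a + val x b
  | .mul a b => val x a * val x b
  | .div a b => val x a / val x b

/-- partial derivative at a point -/
noncomputable def dval [DecidableEq σ] (x : σ → ℂ) (i : σ) : Formula σ → ℂ
  | .var j => if j = i then 1 else 0
  | .const _ => 0
  | .add a b => dval x i a + dval x i b
  | .mul a b => dval x i a * val x b + val x a * dval x i b
  | .div a b => (dval x i a * val x b - val x a * dval x i b) / val x b ^ 2

/-- the divisions are defined at the point -/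
def Ok (x : σ → ℂ) : Formula σ → Prop
  | .var _ => True
  | .const _ => True
  | .add a b => Ok x a ∧ Ok x b
  | .mul a b => Ok x a ∧ Ok x b
  | .div a b => Ok x a ∧ Ok x b ∧ val x b ≠ 0

/-- a formula without leaves in the block takes the same values at points that agree outside
of the block -/
theorem small [DecidableEq σ] (B : Finset σ) (x x' : σ → ℂ) (hx : ∀ i, i ∉ B → x i = x' i)
    (φ : Formula σ) (h : occB B φ = 0) :
    val x φ = val x' φ ∧ ∀ i, dval x i φ = dval x' i φ := by
  induction φ with
  | var i =>
    have hi : i ∉ B := by
      intro hi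
      simp [occB, hi] at h
    exact ⟨hx i hi, fun j => rfl⟩
  | const c => exact ⟨rfl, fun j => rfl⟩
  | add a b iha ihb =>
    simp only [occB, Nat.add_eq_zero_iff] at h
    obtain ⟨ha, ha'⟩ := iha h.1
    obtain ⟨hb, hb'⟩ := ihb h.2
    exact ⟨by simp only [val, ha, hb], fun j => by simp only [dval, ha' j, hb' j]⟩
  | mul a b iha ihb =>
    simp only [occB, Nat.add_eq_zero_iff] at h
    obtain ⟨ha, ha'⟩ := iha h.1
    obtain ⟨hb, hb'⟩ := ihb h.2
    exact ⟨by simp only [val, ha, hb], fun j => by simp only [dval, ha, hb, ha' j, hb' j]⟩
  | div a b iha ihb =>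
    simp only [occB, Nat.add_eq_zero_iff] at h
    obtain ⟨ha, ha'⟩ := iha h.1
    obtain ⟨hb, hb'⟩ := ihb h.2
    exact ⟨by simp only [val, ha, hb], fun j => by simp only [dval, ha, hb, ha' j, hb' j]⟩

/-- two multiplied subspaces that share a vector -/
theorem share {J : Type} [Finite J] (u v p q : J → ℂ) (V W : Submodule ℂ (J → ℂ))
    (hp : p ∈ V) (hq : q ∈ W) (hpq : u * p = v * q) (hv : v = 0 ∨ p ≠ 0)
    (hW : 1 ≤ Module.finrank ℂ W) :
    Module.finrank ℂ (V.map (LinearMap.mulLeft ℂ u) ⊔ W.map (LinearMap.mulLeft ℂ v) :
      Submodule ℂ (J → ℂ)) + 1 ≤ Module.finrank ℂ V + Module.finrank ℂ W := by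
  have hfV : Module.finrank ℂ (V.map (LinearMap.mulLeft ℂ u)) ≤ Module.finrank ℂ V :=
    Submodule.finrank_map_le _ _
  have hfW : Module.finrank ℂ (W.map (LinearMap.mulLeft ℂ v)) ≤ Module.finrank ℂ W :=
    Submodule.finrank_map_le _ _
  have hE := Submodule.finrank_sup_add_finrank_inf_eq (V.map (LinearMap.mulLeft ℂ u))
    (W.map (LinearMap.mulLeft ℂ v))
  by_cases h0 : v = 0
  · have : W.map (LinearMap.mulLeft ℂ v) = ⊥ := by
      rw [Submodule.eq_bot_iff]
      rintro x ⟨y, _, rfl⟩
      simp [h0]
    rw [this, finrank_bot] at hE
    rw [this]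
    omega
  · have hp0 : p ≠ 0 := by tauto
    by_cases h1 : u * p = 0
    · -- `p` lies in the kernel
      have h2 : Module.finrank ℂ (V.map (LinearMap.mulLeft ℂ u)) + 1 ≤ Module.finrank ℂ V := by
        have h3 := LinearMap.finrank_range_add_finrank_ker ((LinearMap.mulLeft ℂ u).domRestrict V)
        have h4 : LinearMap.range ((LinearMap.mulLeft ℂ u).domRestrict V) =
            V.map (LinearMap.mulLeft ℂ u) := by
          rw [LinearMap.range_domRestrict]
        rw [h4] at h3
        have h5 : 1 ≤ Module.finrank ℂ (LinearMap.ker ((LinearMap.mulLeft ℂ u).domRestrict V)) := by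
          rw [Nat.one_le_iff_ne_zero]
          intro h6
          rw [Submodule.finrank_eq_zero] at h6
          have h7 : (⟨p, hp⟩ : V) ∈ LinearMap.ker ((LinearMap.mulLeft ℂ u).domRestrict V) := by
            rw [LinearMap.mem_ker]
            simpa using h1
          rw [h6, Submodule.mem_bot] at h7
          exact hp0 (congrArg Subtype.val h7)
        omega
      omega
    · have : 1 ≤ Module.finrank ℂ (V.map (LinearMap.mulLeft ℂ u) ⊓
          W.map (LinearMap.mulLeft ℂ v) : Submodule ℂ (J → ℂ)) := by
        rw [Nat.one_le_iff_ne_zero]
        intro h2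
        rw [Submodule.finrank_eq_zero] at h2
        apply h1
        rw [← Submodule.mem_bot ℂ, ← h2]
        refine ⟨⟨p, hp, rfl⟩, ⟨q, hq, ?_⟩⟩
        simp [hpq]
      omega

theorem finrank_pos_of_one {J : Type} [Finite J] [Nonempty J] (V : Submodule ℂ (J → ℂ))
    (h : (1 : J → ℂ) ∈ V) : 1 ≤ Module.finrank ℂ V := by
  rw [Nat.one_le_iff_ne_zero]
  intro h0
  rw [Submodule.finrank_eq_zero] at h0
  rw [h0] at h
  exact one_ne_zero ((Submodule.mem_bot ℂ).mp h)

theorem fr2 {M : Type} [AddCommGroup M] [Module ℂ M] (a b : M) :
    Module.finrank ℂ (Submodule.span ℂ ({a, b} : Set M)) ≤ 2 := by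
  classical
  have h1 := finrank_span_finset_le_card (R := ℂ) ({a, b} : Finset M)
  rw [Finset.coe_insert, Finset.coe_singleton] at h1
  exact h1.trans Finset.card_le_two

theorem fr3 {M : Type} [AddCommGroup M] [Module ℂ M] (a b c : M) :
    Module.finrank ℂ (Submodule.span ℂ ({a, b, c} : Set M)) ≤ 3 := by
  classical
  have h1 := finrank_span_finset_le_card (R := ℂ) ({a, b, c} : Finset M)
  rw [Finset.coe_insert, Finset.coe_insert, Finset.coe_singleton] at h1
  exact h1.trans Finset.card_le_three

/-- Main lemma. -/
theorem main [DecidableEq σ] {J : Type} [Finite J] [Nonempty J] (B : Finset σ) (x : J → σ → ℂ)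
    (hx : ∀ i, i ∉ B → ∀ j j', x j i = x j' i) (φ : Formula σ) (hok : ∀ j, Ok (x j) φ)
    (h : 1 ≤ occB B φ) :
    ∃ V : Submodule ℂ (J → ℂ), Module.finrank ℂ V + 1 ≤ 4 * occB B φ ∧
      (1 : J → ℂ) ∈ V ∧ (fun j => val (x j) φ) ∈ V ∧ (fun j => val (x j) φ ^ 2) ∈ V ∧
      ∀ i, i ∉ B → (fun j => dval (x j) i φ) ∈ V := by
  have hconst : ∀ ψ : Formula σ, occB B ψ = 0 → (∃ c : ℂ, ∀ j, val (x j) ψ = c) ∧
      ∀ i, ∃ c : ℂ, ∀ j, dval (x j) i ψ = c := by
    intro ψ hψ
    obtain ⟨j0⟩ := ‹Nonempty J›
    refine ⟨⟨val (x j0) ψ, fun j => ?_⟩, fun i => ⟨dval (x j0) i ψ, fun j => ?_⟩⟩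
    · exact (small B (x j) (x j0) (fun i hi => hx i hi j j0) ψ hψ).1
    · exact (small B (x j) (x j0) (fun i hi => hx i hi j j0) ψ hψ).2 i
  induction φ with
  | var i =>
    have hi : i ∈ B := by
      by_contra hi
      simp [occB, hi] at h
    let y : J → ℂ := fun j => x j i
    refine ⟨Submodule.span ℂ {1, y, y ^ 2}, ?_, ?_, ?_, ?_, ?_⟩
    · simp only [occB, hi, if_true, mul_one]
      have h1 := fr3 (1 : J → ℂ) y (y ^ 2)
      omega
    · exact Submodule.subset_span (by simp)
    · apply Submodule.subset_span
      right; left
      rfl
    · apply Submodule.subset_span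
      right; right
      rfl
    · intro j hj
      have hij : i ≠ j := fun h => hj (h ▸ hi)
      have : (fun j' => dval (x j') j (Formula.var i)) = (0 : J → ℂ) := by
        funext j'
        simp [dval, hij]
      rw [this]
      exact Submodule.zero_mem _
  | const c => simp [occB] at h
  | add a b iha ihb =>
    have hoka : ∀ j, Ok (x j) a := fun j => (hok j).1
    have hokb : ∀ j, Ok (x j) b := fun j => (hok j).2
    by_cases h1 : occB B a = 0
    · have h2 : 1 ≤ occB B b := by
        simp only [occB] at h; omega
      obtain ⟨V, hV1, hV2, hV3, hV3', hV4⟩ := ihb hokb h2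
      obtain ⟨⟨c, hc⟩, hc'⟩ := hconst a h1
      refine ⟨V, by simp only [occB]; omega, hV2, ?_, ?_, ?_⟩
      · have : (fun j => val (x j) (Formula.add a b)) =
            c • (1 : J → ℂ) + fun j => val (x j) b := by
          funext j
          simp [val, hc]
        rw [this]
        exact V.add_mem (V.smul_mem _ hV2) hV3
      · have : (fun j => val (x j) (Formula.add a b) ^ 2) =
            c ^ 2 • (1 : J → ℂ) + (2 * c) • (fun j => val (x j) b) +
              fun j => val (x j) b ^ 2 := by
          funext j
          simp only [val, hc, Pi.add_apply, Pi.smul_apply, Pi.one_apply, smul_eq_mul]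
          ring
        rw [this]
        exact V.add_mem (V.add_mem (V.smul_mem _ hV2) (V.smul_mem _ hV3)) hV3'
      · intro i hi
        obtain ⟨d, hd⟩ := hc' i
        have : (fun j => dval (x j) i (Formula.add a b)) =
            d • (1 : J → ℂ) + fun j => dval (x j) i b := by
          funext j
          simp [dval, hd]
        rw [this]
        exact V.add_mem (V.smul_mem _ hV2) (hV4 i hi)
    · by_cases h2 : occB B b = 0
      · obtain ⟨V, hV1, hV2, hV3, hV3', hV4⟩ := iha hoka (by omega)
        obtain ⟨⟨c, hc⟩, hc'⟩ := hconst b h2
        refine ⟨V, by simp only [occB]; omega, hV2, ?_, ?_, ?_⟩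
        · have : (fun j => val (x j) (Formula.add a b)) =
              c • (1 : J → ℂ) + fun j => val (x j) a := by
            funext j
            simp [val, hc, add_comm]
          rw [this]
          exact V.add_mem (V.smul_mem _ hV2) hV3
        · have : (fun j => val (x j) (Formula.add a b) ^ 2) =
              c ^ 2 • (1 : J → ℂ) + (2 * c) • (fun j => val (x j) a) +
                fun j => val (x j) a ^ 2 := by
            funext j
            simp only [val, hc, Pi.add_apply, Pi.smul_apply, Pi.one_apply, smul_eq_mul]
            ring
          rw [this]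
          exact V.add_mem (V.add_mem (V.smul_mem _ hV2) (V.smul_mem _ hV3)) hV3'
        · intro i hi
          obtain ⟨d, hd⟩ := hc' i
          have : (fun j => dval (x j) i (Formula.add a b)) =
              d • (1 : J → ℂ) + fun j => dval (x j) i a := by
            funext j
            simp [dval, hd, add_comm]
          rw [this]
          exact V.add_mem (V.smul_mem _ hV2) (hV4 i hi)
      · obtain ⟨V, hV1, hV2, hV3, hV3', hV4⟩ := iha hoka (by omega)
        obtain ⟨W, hW1, hW2, hW3, hW3', hW4⟩ := ihb hokb (by omega)
        let r : J → ℂ := fun j => val (x j) a * val (x j) b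
        have hsup : Module.finrank ℂ (V ⊔ W : Submodule ℂ (J → ℂ)) + 1 ≤
            Module.finrank ℂ V + Module.finrank ℂ W := by
          have hE := Submodule.finrank_sup_add_finrank_inf_eq V W
          have := finrank_pos_of_one (V ⊓ W) ⟨hV2, hW2⟩
          omega
        have hr : Module.finrank ℂ (Submodule.span ℂ {r}) ≤ 1 := by
          have := finrank_span_le_card (R := ℂ) ({r} : Set (J → ℂ))
          simpa using this
        refine ⟨(V ⊔ W) ⊔ Submodule.span ℂ {r}, ?_, Submodule.mem_sup_left
          (Submodule.mem_sup_left hV2), ?_, ?_, ?_⟩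
        · have := Submodule.finrank_add_le_finrank_add_finrank (V ⊔ W) (Submodule.span ℂ {r})
          simp only [occB]
          omega
        · exact Submodule.mem_sup_left (Submodule.add_mem_sup hV3 hW3)
        · have : (fun j => val (x j) (Formula.add a b) ^ 2) =
              ((fun j => val (x j) a ^ 2) + fun j => val (x j) b ^ 2) + (2 : ℂ) • r := by
            funext j
            simp only [val, Pi.add_apply, Pi.smul_apply, smul_eq_mul, r]
            ring
          rw [this]
          exact Submodule.add_mem_sup (Submodule.add_mem_sup hV3' hW3')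
            (Submodule.smul_mem _ _ (Submodule.mem_span_singleton_self _))
        · intro i hi
          exact Submodule.mem_sup_left (Submodule.add_mem_sup (hV4 i hi) (hW4 i hi))
  | mul a b iha ihb =>
    have hoka : ∀ j, Ok (x j) a := fun j => (hok j).1
    have hokb : ∀ j, Ok (x j) b := fun j => (hok j).2
    by_cases h1 : occB B a = 0
    · have h2 : 1 ≤ occB B b := by
        simp only [occB] at h; omega
      obtain ⟨V, hV1, hV2, hV3, hV3', hV4⟩ := ihb hokb h2
      obtain ⟨⟨c, hc⟩, hc'⟩ := hconst a h1
      refine ⟨V, by simp only [occB]; omega, hV2, ?_, ?_, ?_⟩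
      · have : (fun j => val (x j) (Formula.mul a b)) = c • fun j => val (x j) b := by
          funext j
          simp [val, hc]
        rw [this]
        exact V.smul_mem _ hV3
      · have : (fun j => val (x j) (Formula.mul a b) ^ 2) = c ^ 2 • fun j => val (x j) b ^ 2 := by
          funext j
          simp only [val, hc, Pi.smul_apply, smul_eq_mul]
          ring
        rw [this]
        exact V.smul_mem _ hV3'
      · intro i hi
        obtain ⟨d, hd⟩ := hc' i
        have : (fun j => dval (x j) i (Formula.mul a b)) =
            (d • fun j => val (x j) b) + c • fun j => dval (x j) i b := by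
          funext j
          simp [dval, hd, hc]
        rw [this]
        exact V.add_mem (V.smul_mem _ hV3) (V.smul_mem _ (hV4 i hi))
    · by_cases h2 : occB B b = 0
      · obtain ⟨V, hV1, hV2, hV3, hV3', hV4⟩ := iha hoka (by omega)
        obtain ⟨⟨c, hc⟩, hc'⟩ := hconst b h2
        refine ⟨V, by simp only [occB]; omega, hV2, ?_, ?_, ?_⟩
        · have : (fun j => val (x j) (Formula.mul a b)) = c • fun j => val (x j) a := by
            funext j
            simp [val, hc, mul_comm]
          rw [this]
          exact V.smul_mem _ hV3
        · have : (fun j => val (x j) (Formula.mul a b) ^ 2) =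
              c ^ 2 • fun j => val (x j) a ^ 2 := by
            funext j
            simp only [val, hc, Pi.smul_apply, smul_eq_mul]
            ring
          rw [this]
          exact V.smul_mem _ hV3'
        · intro i hi
          obtain ⟨d, hd⟩ := hc' i
          have : (fun j => dval (x j) i (Formula.mul a b)) =
              (c • fun j => dval (x j) i a) + d • fun j => val (x j) a := by
            funext j
            simp [dval, hd, hc, mul_comm]
          rw [this]
          exact V.add_mem (V.smul_mem _ (hV4 i hi)) (V.smul_mem _ hV3)
      · obtain ⟨V, hV1, hV2, hV3, hV3', hV4⟩ := iha hoka (by omega)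
        obtain ⟨W, hW1, hW2, hW3, hW3', hW4⟩ := ihb hokb (by omega)
        let p : J → ℂ := fun j => val (x j) a
        let q : J → ℂ := fun j => val (x j) b
        let r : J → ℂ := p ^ 2 * q ^ 2
        have hsup := share q p p q V W hV3 hW3 (mul_comm q p) (by tauto)
          (finrank_pos_of_one W hW2)
        set U := V.map (LinearMap.mulLeft ℂ q) ⊔ W.map (LinearMap.mulLeft ℂ p) with hU
        have hr : Module.finrank ℂ (Submodule.span ℂ {1, r}) ≤ 2 := fr2 1 r
        refine ⟨U ⊔ Submodule.span ℂ {1, r}, ?_, ?_, ?_, ?_, ?_⟩
        · have := Submodule.finrank_add_le_finrank_add_finrank U (Submodule.span ℂ {1, r})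
          simp only [occB]
          omega
        · exact Submodule.mem_sup_right (Submodule.subset_span (by simp))
        · refine Submodule.mem_sup_left (Submodule.mem_sup_left ⟨p, hV3, ?_⟩)
          funext j
          simp [val, p, q, mul_comm]
        · refine Submodule.mem_sup_right (Submodule.subset_span ?_)
          right
          change _ = r
          funext j
          simp only [val, r, p, q, Pi.mul_apply, Pi.pow_apply]
          ring
        · intro i hi
          refine Submodule.mem_sup_left ?_
          have : (fun j => dval (x j) i (Formula.mul a b)) =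
              (q * fun j => dval (x j) i a) + p * fun j => dval (x j) i b := by
            funext j
            simp only [dval, p, q, Pi.mul_apply, Pi.add_apply]
            ring
          rw [this]
          exact Submodule.add_mem_sup ⟨_, hV4 i hi, rfl⟩ ⟨_, hW4 i hi, rfl⟩
  | div a b iha ihb =>
    have hoka : ∀ j, Ok (x j) a := fun j => (hok j).1
    have hokb : ∀ j, Ok (x j) b := fun j => (hok j).2.1
    have hb0 : ∀ j, val (x j) b ≠ 0 := fun j => (hok j).2.2
    by_cases h1 : occB B a = 0
    · have h2 : 1 ≤ occB B b := by
        simp only [occB] at h; omega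
      obtain ⟨V, hV1, hV2, hV3, hV3', hV4⟩ := ihb hokb h2
      obtain ⟨⟨c, hc⟩, hc'⟩ := hconst a h1
      let u : J → ℂ := fun j => (val (x j) b ^ 2)⁻¹
      refine ⟨V.map (LinearMap.mulLeft ℂ u), ?_, ?_, ?_, ?_, ?_⟩
      · have := Submodule.finrank_map_le (LinearMap.mulLeft ℂ u) V
        simp only [occB]; omega
      · refine ⟨_, hV3', ?_⟩
        funext j
        simp only [LinearMap.mulLeft_apply, Pi.mul_apply, Pi.one_apply, u]
        exact inv_mul_cancel₀ (pow_ne_zero 2 (hb0 j))
      · refine ⟨_, V.smul_mem c hV3, ?_⟩
        funext j
        have := hb0 j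
        simp only [LinearMap.mulLeft_apply, Pi.mul_apply, Pi.smul_apply, smul_eq_mul, u, val, hc]
        field_simp
      · refine ⟨_, V.smul_mem (c ^ 2) hV2, ?_⟩
        funext j
        have := hb0 j
        simp only [LinearMap.mulLeft_apply, Pi.mul_apply, Pi.smul_apply, smul_eq_mul, u, val, hc,
          Pi.one_apply]
        field_simp
      · intro i hi
        obtain ⟨d, hd⟩ := hc' i
        refine ⟨_, V.sub_mem (V.smul_mem d hV3) (V.smul_mem c (hV4 i hi)), ?_⟩
        funext j
        have := hb0 j
        simp only [LinearMap.mulLeft_apply, Pi.mul_apply, Pi.smul_apply, Pi.sub_apply,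
          smul_eq_mul, u, dval, hc, hd]
        field_simp
    · by_cases h2 : occB B b = 0
      · obtain ⟨V, hV1, hV2, hV3, hV3', hV4⟩ := iha hoka (by omega)
        obtain ⟨⟨c, hc⟩, hc'⟩ := hconst b h2
        refine ⟨V, by simp only [occB]; omega, hV2, ?_, ?_, ?_⟩
        · have : (fun j => val (x j) (Formula.div a b)) = c⁻¹ • fun j => val (x j) a := by
            funext j
            simp [val, hc, div_eq_mul_inv, mul_comm]
          rw [this]
          exact V.smul_mem _ hV3
        · have : (fun j => val (x j) (Formula.div a b) ^ 2) =
              (c⁻¹) ^ 2 • fun j => val (x j) a ^ 2 := by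
            funext j
            simp only [val, hc, Pi.smul_apply, smul_eq_mul, div_eq_mul_inv]
            ring
          rw [this]
          exact V.smul_mem _ hV3'
        · intro i hi
          obtain ⟨d, hd⟩ := hc' i
          have : (fun j => dval (x j) i (Formula.div a b)) =
              ((c / c ^ 2) • fun j => dval (x j) i a) - (d / c ^ 2) • fun j => val (x j) a := by
            funext j
            simp only [dval, hd, hc, Pi.sub_apply, Pi.smul_apply, smul_eq_mul]
            ring
          rw [this]
          exact V.sub_mem (V.smul_mem _ (hV4 i hi)) (V.smul_mem _ hV3)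
      · obtain ⟨V, hV1, hV2, hV3, hV3', hV4⟩ := iha hoka (by omega)
        obtain ⟨W, hW1, hW2, hW3, hW3', hW4⟩ := ihb hokb (by omega)
        let p : J → ℂ := fun j => val (x j) a
        let q : J → ℂ := fun j => val (x j) b
        let u : J → ℂ := fun j => (val (x j) b)⁻¹
        let v : J → ℂ := fun j => val (x j) a * (val (x j) b ^ 2)⁻¹
        let r : J → ℂ := fun j => (val (x j) a / val (x j) b) ^ 2
        have huv : u * p = v * q := by
          funext j
          have := hb0 j
          simp only [Pi.mul_apply, u, v, p, q]
          field_simp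
        have hv0 : v = 0 ∨ p ≠ 0 := by
          by_cases hp : p = 0
          · left
            funext j
            have := congrFun hp j
            simp only [p, Pi.zero_apply] at this
            simp [v, this]
          · right; exact hp
        have hsup := share u v p q V W hV3 hW3 huv hv0 (finrank_pos_of_one W hW2)
        set U := V.map (LinearMap.mulLeft ℂ u) ⊔ W.map (LinearMap.mulLeft ℂ v) with hU
        have hr : Module.finrank ℂ (Submodule.span ℂ {1, r}) ≤ 2 := fr2 1 r
        refine ⟨U ⊔ Submodule.span ℂ {1, r}, ?_, ?_, ?_, ?_, ?_⟩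
        · have := Submodule.finrank_add_le_finrank_add_finrank U (Submodule.span ℂ {1, r})
          simp only [occB]
          omega
        · exact Submodule.mem_sup_right (Submodule.subset_span (by simp))
        · refine Submodule.mem_sup_left (Submodule.mem_sup_left ⟨p, hV3, ?_⟩)
          funext j
          simp only [LinearMap.mulLeft_apply, Pi.mul_apply, val, u, p, div_eq_mul_inv]
          ring
        · refine Submodule.mem_sup_right (Submodule.subset_span ?_)
          right
          rfl
        · intro i hi
          refine Submodule.mem_sup_left ?_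
          have : (fun j => dval (x j) i (Formula.div a b)) =
              (u * fun j => dval (x j) i a) + (v * fun j => (-1 : ℂ) * dval (x j) i b) := by
            funext j
            have := hb0 j
            simp only [dval, u, v, Pi.mul_apply, Pi.add_apply]
            field_simp
            ring
          rw [this]
          refine Submodule.add_mem_sup ⟨_, hV4 i hi, rfl⟩ ⟨_, W.smul_mem (-1) (hW4 i hi), rfl⟩

end Pool.Agent.Work.MP_35c45d_lc.FQ
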