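import Mathlib

set_option autoImplicit false

namespace Pool.Agent.Work.MP_35c45d_lc.TR

open Filter Topology

/-- More polynomials than variables: there is an annihilator. -/
theorem annih {τ ν : Type} [Fintype τ] [Fintype ν] (h : Fintype.card ν < Fintype.card τ)
    (Ψ : τ → MvPolynomial ν ℂ) :
    ∃ Q : MvPolynomial τ ℂ, Q ≠ 0 ∧ MvPolynomial.aeval Ψ Q = 0 := by
  by_contra hcon
  push Not at hcon
  have hind : AlgebraicIndependent ℂ Ψ := by
    rw [algebraicIndependent_iff]
    intro p hp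
    by_contra h
    exact hcon p h hp
  have h1 := hind.cardinalMk_le_trdeg
  rw [MvPolynomial.trdeg_of_isDomain] at h1
  simp only [Cardinal.mk_fintype, Cardinal.lift_id] at h1
  have h2 : Fintype.card τ ≤ Fintype.card ν := by exact_mod_cast h1
  omega

theorem eq_zero_of_nhds {τ : Type} [Fintype τ] (Q : MvPolynomial τ ℂ) (z : τ → ℂ)
    (h : ∀ᶠ x in 𝓝 z, MvPolynomial.eval x Q = 0) : Q = 0 := by
  rw [Metric.eventually_nhds_iff_ball] at h
  obtain ⟨ε, hε, h⟩ := h
  apply MvPolynomial.funext_set (fun i => Metric.ball (z i) ε)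
  · intro i
    exact infinite_of_mem_nhds (z i) (Metric.ball_mem_nhds _ hε)
  · intro x hx
    rw [← ball_pi _ hε] at hx
    rw [h x hx, map_zero]

/-- A map with identity derivative at `0` cannot locally map into the zero set of a nonzero
polynomial. -/
theorem eq_zero_of_local {τ : Type} [Fintype τ] [DecidableEq τ] (H : (τ → ℂ) → (τ → ℂ))
    (hH : ContDiff ℂ 1 H)
    (hder : ∀ j : τ, ∀ s : ℂ, H (s • Pi.single j 1) = H 0 + s • Pi.single j 1)
    (Q : MvPolynomial τ ℂ) (hQ : ∀ᶠ w in 𝓝 (0 : τ → ℂ), MvPolynomial.eval (H w) Q = 0) :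
    Q = 0 := by
  have hf : HasStrictFDerivAt H (fderiv ℂ H 0) 0 :=
    hH.contDiffAt.hasStrictFDerivAt (by norm_num)
  have h1 : ∀ j : τ, fderiv ℂ H 0 (Pi.single j 1) = Pi.single j 1 := by
    intro j
    have e1 : HasDerivAt (fun s : ℂ => s • (Pi.single j 1 : τ → ℂ)) (Pi.single j 1) 0 := by
      simpa using (hasDerivAt_id (0 : ℂ)).smul_const (Pi.single j 1 : τ → ℂ)
    have e2 : HasDerivAt (fun s : ℂ => H (s • (Pi.single j 1 : τ → ℂ)))
        (fderiv ℂ H 0 (Pi.single j 1)) 0 := by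
      have := hf.hasFDerivAt
      have e3 : HasFDerivAt H (fderiv ℂ H 0) ((0 : ℂ) • (Pi.single j 1 : τ → ℂ)) := by
        simpa using this
      exact e3.comp_hasDerivAt (0 : ℂ) e1
    have e4 : HasDerivAt (fun s : ℂ => H (s • (Pi.single j 1 : τ → ℂ))) (Pi.single j 1) 0 := by
      have : (fun s : ℂ => H (s • (Pi.single j 1 : τ → ℂ))) =
          fun s => H 0 + s • Pi.single j 1 := funext (hder j)
      rw [this]
      exact e1.const_add (H 0)
    exact e2.unique e4
  have h2 : ∀ v : τ → ℂ, fderiv ℂ H 0 v = v := by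
    intro v
    conv_lhs => rw [pi_eq_sum_univ' v]
    rw [map_sum]
    simp only [map_smul]
    conv_rhs => rw [pi_eq_sum_univ' v]
    apply Finset.sum_congr rfl
    intro j _
    congr 1
    have := h1 j
    convert! this using 2
  have h3 : (fderiv ℂ H 0).range = ⊤ := by
    rw [LinearMap.range_eq_top]
    intro v
    exact ⟨v, h2 v⟩
  have h4 := hf.map_nhds_eq_of_surj h3
  apply eq_zero_of_nhds Q (H 0)
  rw [← h4]
  exact hQ

end Pool.Agent.Work.MP_35c45d_lc.TR
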