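import Mathlib

set_option autoImplicit false

namespace Pool.Agent.Work.MP_35c45d_lc.TR

open Finset Equiv

/-- normalising constants, `(-1)^u u! (N-1-u)!`. -/
noncomputable def kap (N : ℕ) : ℕ → ℂ
  | 0 => (N.factorial : ℂ) / N
  | u + 1 => -((u + 1 : ℕ) : ℂ) * kap N u / ((N - 1 - u : ℕ) : ℂ)

theorem kap_ne {N : ℕ} : ∀ {u : ℕ}, u < N → kap N u ≠ 0
  | 0, h => by
      unfold kap
      have h1 : (N.factorial : ℂ) ≠ 0 := by exact_mod_cast N.factorial_ne_zero
      have h2 : (N : ℂ) ≠ 0 := by exact_mod_cast h.ne'
      exact div_ne_zero h1 h2
  | u + 1, h => by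
      unfold kap
      have h1 : kap N u ≠ 0 := kap_ne (by omega)
      have h2 : ((N - 1 - u : ℕ) : ℂ) ≠ 0 := by
        have : N - 1 - u ≠ 0 := by omega
        exact_mod_cast this
      have h3 : ((u + 1 : ℕ) : ℂ) ≠ 0 := by exact_mod_cast (Nat.succ_ne_zero u)
      exact div_ne_zero (mul_ne_zero (neg_ne_zero.mpr h3) h1) h2

variable {P X : Type*} [Fintype P] [DecidableEq P] [DecidableEq X]

/-- The sum over all permutations of a product of values at distinct points, when the functions
have vanishing joint moments. -/
theorem sum_perm (A : Finset X) : ∀ (c : P → ℂ) (g : X → P → ℂ) (p0 : P) (f : X → P),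
    Set.InjOn f A → (∀ j ∈ A, f j ≠ p0) →
    (∀ V ⊆ A, V.Nonempty → ∑ p, ∏ j ∈ V, g j p = 0) →
    ∑ a : Perm P, c (a p0) * ∏ j ∈ A, g j (a (f j)) =
      kap (Fintype.card P) A.card * ∑ p, c p * ∏ j ∈ A, g j p := by
  induction A using Finset.induction_on with
  | empty =>
    intro c g p0 f _ _ _
    simp only [prod_empty, mul_one, card_empty]
    have hN : (Fintype.card P : ℂ) ≠ 0 := by
      have : Nonempty P := ⟨p0⟩
      exact_mod_cast Fintype.card_ne_zero
    have h1 : ∀ q : P, ∑ a : Perm P, c (a q) = ∑ a : Perm P, c (a p0) := by
      intro q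
      rw [← Equiv.sum_comp (Equiv.mulRight (swap p0 q))]
      simp
    have h2 : ∑ q : P, ∑ a : Perm P, c (a q) = Fintype.card P * ∑ a : Perm P, c (a p0) := by
      rw [Finset.sum_congr rfl (fun q _ => h1 q)]
      simp
    have h3 : ∑ q : P, ∑ a : Perm P, c (a q) = (Fintype.card P).factorial * ∑ p, c p := by
      rw [Finset.sum_comm]
      have : ∀ a : Perm P, ∑ q : P, c (a q) = ∑ p, c p := fun a => Equiv.sum_comp a c
      rw [Finset.sum_congr rfl (fun a _ => this a)]
      simp [Fintype.card_perm]
    rw [h2] at h3
    unfold kap
    field_simp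
    rw [← h3]
    ring
  | insert x A hx ih =>
    intro c g p0 f hf hp0 hV
    have hinjA : Set.InjOn f A := hf.mono (by simp)
    have hfx : ∀ j ∈ A, f j ≠ f x := by
      intro j hj h
      have := hf (by simp [hj]) (by simp) h
      subst this
      exact hx hj
    have hVA : ∀ V ⊆ A, V.Nonempty → ∑ p, ∏ j ∈ V, g j p = 0 :=
      fun V hVA' hne => hV V (hVA'.trans (subset_insert _ _)) hne
    set h := g x with hh
    -- the sum with the last function evaluated at `a q`
    set Z : P → ℂ := fun q => ∑ a : Perm P, (c (a p0) * ∏ j ∈ A, g j (a (f j))) * h (a q) with hZ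
    set Pi0 : ℂ := ∑ p, c p * ∏ j ∈ insert x A, g j p with hPi
    have hsum : ∑ q, Z q = 0 := by
      simp only [hZ]
      rw [Finset.sum_comm]
      apply Finset.sum_eq_zero
      intro a _
      rw [← Finset.mul_sum, Equiv.sum_comp a h]
      have := hV {x} (by simp) (by simp)
      simp only [prod_singleton] at this
      rw [hh, this, mul_zero]
    -- value at p0
    have hZ0 : Z p0 = kap (Fintype.card P) A.card * Pi0 := by
      have := ih (fun p => c p * h p) g p0 f hinjA (fun j hj => hp0 j (by simp [hj])) hVA
      rw [hPi]
      simp only [hZ]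
      rw [Finset.sum_congr rfl (fun a _ => by
        show _ = (c (a p0) * h (a p0)) * ∏ j ∈ A, g j (a (f j)); ring), this]
      congr 1
      apply Finset.sum_congr rfl
      intro p _
      rw [prod_insert hx]
      ring
    -- value at f y, y ∈ A
    have hZy : ∀ y ∈ A, Z (f y) = kap (Fintype.card P) A.card * Pi0 := by
      intro y hy
      have := ih c (Function.update g y (fun p => g y p * h p)) p0 f hinjA
        (fun j hj => hp0 j (by simp [hj])) ?_
      · simp only [hZ]
        have e1 : ∀ a : Perm P, (c (a p0) * ∏ j ∈ A, g j (a (f j))) * h (a (f y)) =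
            c (a p0) * ∏ j ∈ A, Function.update g y (fun p => g y p * h p) j (a (f j)) := by
          intro a
          rw [← Finset.mul_prod_erase A _ hy, ← Finset.mul_prod_erase A _ hy]
          have : ∏ j ∈ A.erase y, Function.update g y (fun p => g y p * h p) j (a (f j)) =
              ∏ j ∈ A.erase y, g j (a (f j)) := by
            apply Finset.prod_congr rfl
            intro j hj
            rw [Function.update_of_ne (Finset.ne_of_mem_erase hj)]
          rw [this, Function.update_self]
          ring
        rw [Finset.sum_congr rfl (fun a _ => e1 a), this, hPi]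
        congr 1
        apply Finset.sum_congr rfl
        intro p _
        rw [prod_insert hx, ← Finset.mul_prod_erase A _ hy, ← Finset.mul_prod_erase A _ hy]
        have : ∏ j ∈ A.erase y, Function.update g y (fun p => g y p * h p) j p =
            ∏ j ∈ A.erase y, g j p := by
          apply Finset.prod_congr rfl
          intro j hj
          rw [Function.update_of_ne (Finset.ne_of_mem_erase hj)]
        rw [this, Function.update_self]
        ring
      · intro V hVA' hne
        by_cases hyV : y ∈ V
        · have := hV (insert x V) (Finset.insert_subset_insert _ hVA') (by simp)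
          rw [← this]
          apply Finset.sum_congr rfl
          intro p _
          have hxV : x ∉ V := fun h' => hx (hVA' h')
          rw [prod_insert hxV, ← Finset.mul_prod_erase V _ hyV, ← Finset.mul_prod_erase V _ hyV]
          have : ∏ j ∈ V.erase y, Function.update g y (fun p => g y p * h p) j p =
              ∏ j ∈ V.erase y, g j p := by
            apply Finset.prod_congr rfl
            intro j hj
            rw [Function.update_of_ne (Finset.ne_of_mem_erase hj)]
          rw [this, Function.update_self]
          ring
        · rw [← hVA V hVA' hne]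
          apply Finset.sum_congr rfl
          intro p _
          apply Finset.prod_congr rfl
          intro j hj
          rw [Function.update_of_ne]
          rintro rfl
          exact hyV hj
    -- other values are all equal
    have hZq : ∀ q, q ≠ p0 → (∀ j ∈ A, f j ≠ q) → Z q = Z (f x) := by
      intro q hq0 hqA
      simp only [hZ]
      rw [← Equiv.sum_comp (Equiv.mulRight (swap q (f x)))]
      apply Finset.sum_congr rfl
      intro a _
      simp only [coe_mulRight, Perm.coe_mul, Function.comp_apply, swap_apply_left]
      rw [swap_apply_of_ne_of_ne hq0.symm (hp0 x (by simp)).symm]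
      congr 2
      apply Finset.prod_congr rfl
      intro j hj
      rw [swap_apply_of_ne_of_ne (hqA j hj) (hfx j hj)]
    -- put together
    have hcard : (insert p0 (A.image f)).card = A.card + 1 := by
      rw [card_insert_of_notMem, card_image_of_injOn hinjA]
      intro h'
      rw [mem_image] at h'
      obtain ⟨j, hj, hj'⟩ := h'
      exact hp0 j (by simp [hj]) hj'
    have hfxmem : f x ∉ insert p0 (A.image f) := by
      intro h'
      rw [mem_insert, mem_image] at h'
      rcases h' with h' | ⟨j, hj, hj'⟩
      · exact hp0 x (by simp) h'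
      · exact hfx j hj hj'
    have hlt : A.card + 1 < Fintype.card P := by
      rw [← hcard]
      apply Finset.card_lt_univ_of_notMem hfxmem
    have hsplit : ∑ q, Z q = (A.card + 1 : ℕ) * (kap (Fintype.card P) A.card * Pi0) +
        ((Fintype.card P - 1 - A.card : ℕ) : ℂ) * Z (f x) := by
      rw [← Finset.sum_add_sum_compl (insert p0 (A.image f)) Z]
      congr 1
      · rw [Finset.sum_congr rfl (g := fun _ => kap (Fintype.card P) A.card * Pi0)]
        · rw [Finset.sum_const, hcard, nsmul_eq_mul]
        · intro q hq
          rw [mem_insert, mem_image] at hq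
          rcases hq with rfl | ⟨j, hj, rfl⟩
          · exact hZ0
          · exact hZy j hj
      · rw [Finset.sum_congr rfl (g := fun _ => Z (f x))]
        · rw [Finset.sum_const, card_compl, hcard, nsmul_eq_mul]
          congr 2
          omega
        · intro q hq
          rw [mem_compl, mem_insert, mem_image] at hq
          push Not at hq
          exact hZq q hq.1 (fun j hj => hq.2 j hj)
    have hN : ((Fintype.card P - 1 - A.card : ℕ) : ℂ) ≠ 0 := by
      have : Fintype.card P - 1 - A.card ≠ 0 := by omega
      exact_mod_cast this
    have hgoal : ∑ a : Perm P, c (a p0) * ∏ j ∈ insert x A, g j (a (f j)) = Z (f x) := by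
      simp only [hZ]
      apply Finset.sum_congr rfl
      intro a _
      rw [prod_insert hx]
      ring
    rw [hgoal, card_insert_of_notMem hx]
    rw [hsum] at hsplit
    have h5 : kap (Fintype.card P) (A.card + 1) =
      -((A.card + 1 : ℕ) : ℂ) * kap (Fintype.card P) A.card /
        ((Fintype.card P - 1 - A.card : ℕ) : ℂ) := rfl
    rw [h5]
    field_simp
    linear_combination -hsplit

end Pool.Agent.Work.MP_35c45d_lc.TR
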