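import Mathlib
import Pool.Agent.Work.MP_35c45d_lc.TRSum

set_option autoImplicit false

namespace Pool.Agent.Work.MP_35c45d_lc.TR

open Finset Equiv

/-- the sign of a bit -/
def sg (b : Bool) : ℂ := if b then -1 else 1

theorem sg_mul_self (b : Bool) : sg b * sg b = 1 := by cases b <;> simp [sg]

/-- the Walsh function -/
def chi {β : ℕ} (V : Finset (Fin β)) (x : Fin β → Bool) : ℂ := ∏ i ∈ V, sg (x i)

/-- the coordinate functions on the cube plus rest. -/
def dd {β : ℕ} {Z : Type*} (i : Fin β) : (Fin β → Bool) ⊕ Z → ℂ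
  | Sum.inl x => sg (x i)
  | Sum.inr _ => 0

theorem prod_dd_inl {β : ℕ} {Z : Type*} (V : Finset (Fin β)) (x : Fin β → Bool) :
    ∏ i ∈ V, dd (Z := Z) i (Sum.inl x) = chi V x := rfl

theorem sum_chi {β : ℕ} (V : Finset (Fin β)) (hV : V.Nonempty) :
    ∑ x : Fin β → Bool, chi V x = 0 := by
  unfold chi
  have h1 : ∀ x : Fin β → Bool, ∏ i ∈ V, sg (x i) = ∏ i, (if i ∈ V then sg (x i) else 1) := by
    intro x
    rw [Finset.prod_ite_mem, Finset.univ_inter]
  rw [Finset.sum_congr rfl (fun x _ => h1 x)]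
  have h2 := (Finset.prod_univ_sum (fun _ : Fin β => (Finset.univ : Finset Bool))
    (fun i b => if i ∈ V then sg b else 1)).symm
  rw [Fintype.piFinset_univ] at h2
  rw [h2]
  obtain ⟨i, hi⟩ := hV
  apply Finset.prod_eq_zero (Finset.mem_univ i)
  simp [hi, sg]

theorem sum_dd {β : ℕ} {Z : Type*} [Fintype Z] (V : Finset (Fin β)) (hV : V.Nonempty) :
    ∑ p : (Fin β → Bool) ⊕ Z, ∏ i ∈ V, dd i p = 0 := by
  rw [Fintype.sum_sum_type]
  simp only [prod_dd_inl, sum_chi V hV, zero_add]
  apply Finset.sum_eq_zero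
  intro z _
  obtain ⟨i, hi⟩ := hV
  exact Finset.prod_eq_zero hi rfl

/-- orthogonality -/
theorem sum_chi_mul {β : ℕ} (a x : Fin β → Bool) :
    ∑ V : Finset (Fin β), chi V a * chi V x = if a = x then 2 ^ β else 0 := by
  unfold chi
  have h1 : ∀ V : Finset (Fin β), (∏ i ∈ V, sg (a i)) * ∏ i ∈ V, sg (x i) =
      ∏ i ∈ V, (sg (a i) * sg (x i)) := fun V => by rw [Finset.prod_mul_distrib]
  rw [Finset.sum_congr rfl (fun V _ => h1 V)]
  have h2 := Finset.prod_one_add (s := (Finset.univ : Finset (Fin β)))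
    (f := fun i => sg (a i) * sg (x i))
  rw [Finset.powerset_univ] at h2
  rw [← h2]
  split_ifs with h
  · subst h
    simp only [sg_mul_self]
    rw [Finset.prod_const]
    norm_num
  · have : ∃ i, a i ≠ x i := by
      by_contra hne
      push Not at hne
      exact h (funext hne)
    obtain ⟨i, hi⟩ := this
    apply Finset.prod_eq_zero (Finset.mem_univ i)
    revert hi
    cases a i <;> cases x i <;> simp [sg]

/-- Walsh inversion in two variables -/
theorem walsh_inj {β : ℕ} (c : (Fin β → Bool) × (Fin β → Bool) → ℂ)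
    (h : ∀ V W : Finset (Fin β), ∑ q, c q * (chi V q.1 * chi W q.2) = 0) : c = 0 := by
  funext q0
  have h1 : ∑ V : Finset (Fin β), ∑ W : Finset (Fin β), (chi V q0.1 * chi W q0.2) *
      ∑ q, c q * (chi V q.1 * chi W q.2) = 0 := by
    apply Finset.sum_eq_zero
    intro V _
    apply Finset.sum_eq_zero
    intro W _
    rw [h V W, mul_zero]
  have h2 : ∑ V : Finset (Fin β), ∑ W : Finset (Fin β), (chi V q0.1 * chi W q0.2) *
      ∑ q, c q * (chi V q.1 * chi W q.2) =
      ∑ q, c q * ((∑ V : Finset (Fin β), chi V q0.1 * chi V q.1) *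
        (∑ W : Finset (Fin β), chi W q0.2 * chi W q.2)) := by
    simp_rw [Finset.mul_sum, Finset.sum_mul]
    simp_rw [Finset.mul_sum]
    rw [Finset.sum_comm]
    simp_rw [Finset.sum_comm (s := (Finset.univ : Finset (Finset (Fin β))))
      (t := (Finset.univ : Finset ((Fin β → Bool) × (Fin β → Bool))))]
    apply Finset.sum_congr rfl
    intro q _
    apply Finset.sum_congr rfl
    intro V _
    apply Finset.sum_congr rfl
    intro W _
    ring
  rw [h2] at h1
  simp_rw [sum_chi_mul] at h1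
  rw [Finset.sum_eq_single q0] at h1
  · simp only [if_true] at h1
    have h3 : ((2 : ℂ) ^ β * 2 ^ β) ≠ 0 :=
      mul_ne_zero (pow_ne_zero _ two_ne_zero) (pow_ne_zero _ two_ne_zero)
    exact (mul_eq_zero.mp h1).resolve_right h3
  · intro q _ hq
    by_cases h1 : q0.1 = q.1
    · by_cases h2 : q0.2 = q.2
      · exact absurd (Prod.ext h1 h2).symm hq
      · simp [h2]
    · simp [h1]
  · intro h; exact absurd (Finset.mem_univ _) h

end Pool.Agent.Work.MP_35c45d_lc.TR
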