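import Mathlib
import Pool.Agent.Work.MP_35c45d_lc.TRWalsh

set_option autoImplicit false

namespace Pool.Agent.Work.MP_35c45d_lc.TR

open Finset Equiv

variable {T P : Type*}

theorem ap_inv {α : Type*} (σ : Perm α) (x : α) : σ (σ⁻¹ x) = x := σ.apply_symm_apply x

theorem inv_ap {α : Type*} (σ : Perm α) (x : α) : σ⁻¹ (σ x) = x := σ.symm_apply_apply x

/-- The base matrix; the special diagonal entries in `S` are switched off. -/
def base [DecidableEq T] (C D : T → P → ℂ) (S : Finset T) : Matrix (T ⊕ P) (T ⊕ P) ℂ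
  | Sum.inl t, Sum.inl t' => if t = t' ∧ t ∉ S then 1 else 0
  | Sum.inl t, Sum.inr c => C t c
  | Sum.inr p, Sum.inl t => D t p
  | Sum.inr _, Sum.inr _ => 1

/-- column part -/
def Ec [DecidableEq T] (D : T → P → ℂ) (S : Finset T) (t : T) : T ⊕ P → ℂ
  | Sum.inl t' => if t' = t ∧ t ∉ S then 1 else 0
  | Sum.inr p => D t p

/-- row part -/
def Er (C : T → P → ℂ) (t : T) : T ⊕ P → ℂ
  | Sum.inl _ => 1
  | Sum.inr c => C t c

/-- auxiliary: row part entries -/
def hh (C : T → P → ℂ) : T ⊕ P → T ⊕ P → ℂ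
  | Sum.inl t, j => Er C t j
  | Sum.inr _, _ => 1

theorem hh_col (C : T → P → ℂ) (i : T ⊕ P) (t : T) : hh C i (Sum.inl t) = 1 := by
  rcases i with _ | _ <;> rfl

/-- extension of a permutation of the outer indices. -/
abbrev ext (a : Perm P) : Perm (T ⊕ P) := Equiv.sumCongr (Equiv.refl T) a

theorem ext_inl (a : Perm P) (t : T) : ext a (Sum.inl t) = Sum.inl t := rfl

theorem ext_inr (a : Perm P) (p : P) : ext (T := T) a (Sum.inr p) = Sum.inr (a p) := rfl

theorem base_inl [DecidableEq T] (C D : T → P → ℂ) (S : Finset T) (i : T ⊕ P) (t : T) :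
    base C D S i (Sum.inl t) = Ec D S t i := by
  rcases i with t' | p
  · simp only [base, Ec]
    by_cases h : t' = t
    · subst h; rfl
    · simp [h]
  · rfl

theorem base_inr [DecidableEq T] (C D : T → P → ℂ) (S : Finset T) (i : T ⊕ P) (c : P) :
    base C D S i (Sum.inr c) = hh C i (Sum.inr c) := by
  rcases i with t' | p <;> rfl

variable [Fintype T] [Fintype P] [DecidableEq T] [DecidableEq P]

omit [DecidableEq P] in
theorem prod_split (C D : T → P → ℂ) (S : Finset T) (a b : Perm P) (σ : Perm (T ⊕ P)) :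
    ∏ j, base C D S (ext a (σ j)) (ext b j) =
      (∏ t, Ec D S t (ext a (σ (Sum.inl t)))) * ∏ t, Er C t (ext b (σ⁻¹ (Sum.inl t))) := by
  rw [Fintype.prod_sum_type]
  congr 1
  · apply Finset.prod_congr rfl
    intro t _
    rw [ext_inl, base_inl]
  · have h1 : ∏ c : P, base C D S (ext a (σ (Sum.inr c))) (ext b (Sum.inr c)) =
        ∏ j, hh C (ext a (σ j)) (ext b j) := by
      rw [Fintype.prod_sum_type]
      have : ∏ t : T, hh C (ext a (σ (Sum.inl t))) (ext b (Sum.inl t)) = 1 := by
        apply Finset.prod_eq_one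
        intro t _
        rw [ext_inl, hh_col]
      rw [this, one_mul]
      apply Finset.prod_congr rfl
      intro c _
      rw [ext_inr, base_inr]
    rw [h1, ← Equiv.prod_comp σ⁻¹, Fintype.prod_sum_type]
    have h2 : ∏ p : P, hh C (ext a (σ (σ⁻¹ (Sum.inr p)))) (ext b (σ⁻¹ (Sum.inr p))) = 1 := by
      apply Finset.prod_eq_one
      intro p _
      rw [ap_inv, ext_inr]
      rfl
    rw [h2, mul_one]
    apply Finset.prod_congr rfl
    intro t _
    rw [ap_inv, ext_inl]
    rfl

/-- the derivative of the permanent of the base matrix in the direction of an outer entry. -/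
noncomputable def LL (C D : T → P → ℂ) (S : Finset T) (k l : P) : ℂ :=
  ∑ σ : Perm (T ⊕ P), if σ (Sum.inr l) = Sum.inr k then ∏ j, base C D S (σ j) j else 0

/-- the set of special columns matched to the outer part. -/
def Uset (σ : Perm (T ⊕ P)) : Finset T := Finset.univ.filter (fun t => (σ (Sum.inl t)).isRight)

theorem LL_reindex (C D : T → P → ℂ) (S : Finset T) (k l : P) (a b : Perm P) :
    LL C D S k l = ∑ σ : Perm (T ⊕ P), if ext a (σ (ext b⁻¹ (Sum.inr l))) = Sum.inr k then
      ((∏ t, Ec D S t (ext a (σ (Sum.inl t)))) * ∏ t, Er C t (ext b (σ⁻¹ (Sum.inl t)))) else 0 := by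
  unfold LL
  rw [← Equiv.sum_comp ((Equiv.mulLeft (ext a)).trans (Equiv.mulRight (ext b)⁻¹))]
  apply Finset.sum_congr rfl
  intro σ _
  rw [← prod_split]
  have h1 : ∏ j, base C D S (((Equiv.mulLeft (ext a)).trans (Equiv.mulRight (ext b)⁻¹)) σ j) j =
      ∏ j, base C D S (ext a (σ j)) (ext b j) := by
    rw [← Equiv.prod_comp (ext b)]
    apply Finset.prod_congr rfl
    intro j _
    simp [Perm.mul_apply]
  rw [h1]
  rfl

end Pool.Agent.Work.MP_35c45d_lc.TR
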