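import Mathlib
import Pool.Agent.Work.MP_35c45d_lc.TRPerm

set_option autoImplicit false

namespace Pool.Agent.Work.MP_35c45d_lc.TR

open Finset Equiv

variable {β : ℕ} {P : Type*}

/-- row entries of the special rows at the outer columns. -/
def Crow (d : Fin β → P → ℂ) : Fin β ⊕ Fin β → P → ℂ
  | Sum.inl _, _ => 1
  | Sum.inr i, c => d i c

/-- column entries of the special columns at the outer rows. -/
def Dcol (d : Fin β → P → ℂ) : Fin β ⊕ Fin β → P → ℂ
  | Sum.inl i, p => d i p
  | Sum.inr _, _ => 1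

/-- extension of `d i` by one -/
def de {T : Type*} (d : Fin β → P → ℂ) (i : Fin β) : T ⊕ P → ℂ
  | Sum.inl _ => 1
  | Sum.inr p => d i p

variable [Fintype P] [DecidableEq P]

theorem avg {T : Type*} (d : Fin β → P → ℂ)
    (hd : ∀ V : Finset (Fin β), V.Nonempty → ∑ p, ∏ i ∈ V, d i p = 0)
    (τ : Fin β → T ⊕ P) (q k : P)
    (hτ : ∀ i j, (τ i).isRight → τ i = τ j → i = j) (hq : ∀ i, τ i ≠ Sum.inr q) :
    ∑ a : Perm P, (if a q = k then ∏ i, de d i (ext (T := T) a (τ i)) else 0) =
      kap (Fintype.card P) (Finset.univ.filter (fun i => (τ i).isRight)).card *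
        ∏ i ∈ Finset.univ.filter (fun i => (τ i).isRight), d i k := by
  set A := Finset.univ.filter (fun i => (τ i).isRight) with hA
  set f : Fin β → P := fun i => Sum.elim (fun _ => q) id (τ i) with hf
  have hfA : ∀ i ∈ A, τ i = Sum.inr (f i) := by
    intro i hi
    rw [hA, mem_filter] at hi
    rcases h : τ i with t | p
    · rw [h] at hi; simp at hi
    · simp [hf, h]
  have h1 : ∀ a : Perm P, ∏ i, de d i (ext (T := T) a (τ i)) = ∏ i ∈ A, d i (a (f i)) := by
    intro a
    rw [hA, Finset.prod_filter]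
    apply Finset.prod_congr rfl
    intro i _
    rcases h : τ i with t | p
    · simp [de]
    · simp [de, hf, h]
  have h2 := sum_perm A (fun p => if p = k then 1 else 0) d q f ?_ ?_ (fun V _ hV => hd V hV)
  · simp_rw [h1]
    have h3 : ∀ a : Perm P, (if a q = k then ∏ i ∈ A, d i (a (f i)) else 0) =
        (if a q = k then 1 else 0) * ∏ i ∈ A, d i (a (f i)) := by
      intro a; split_ifs <;> simp
    simp_rw [h3, h2]
    congr 1
    simp
  · intro i hi j hj hij
    have hi' := hfA i hi
    have hj' := hfA j hj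
    apply hτ i j
    · rw [hi']; rfl
    · rw [hi', hj', hij]
  · intro i hi h
    apply hq i
    rw [hfA i hi, h]

/-- `σ` fixes all special indices outside `Uset σ`. -/
def Valid {T : Type*} [Fintype T] (σ : Perm (T ⊕ P)) : Prop :=
  ∀ t, t ∉ Uset σ → σ (Sum.inl t) = Sum.inl t

omit [Fintype P] [DecidableEq P] in
theorem mem_Uset {T : Type*} [Fintype T] (σ : Perm (T ⊕ P)) (t : T) :
    t ∈ Uset σ ↔ (σ (Sum.inl t)).isRight := by
  simp [Uset]

omit [Fintype P] [DecidableEq P] in
theorem Valid.inv {T : Type*} [Fintype T] {σ : Perm (T ⊕ P)} (h : Valid σ) (t : T) :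
    (σ⁻¹ (Sum.inl t)).isRight ↔ t ∈ Uset σ := by
  constructor
  · intro h1
    by_contra h2
    have h3 := h t h2
    rw [← h3, inv_ap] at h1
    simp at h1
  · intro h1
    rcases h2 : σ⁻¹ (Sum.inl t) with t' | p
    · exfalso
      have h3 : σ (Sum.inl t') = Sum.inl t := by rw [← h2, ap_inv]
      by_cases h4 : t' ∈ Uset σ
      · rw [mem_Uset, h3] at h4
        simp at h4
      · have h5 := h t' h4
        rw [h3] at h5
        have h6 : t = t' := Sum.inl_injective h5
        subst h6
        exact h4 h1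
    · rfl

open Classical in
theorem col_part (d : Fin β → P → ℂ) (S : Finset (Fin β ⊕ Fin β)) (a : Perm P)
    (σ : Perm ((Fin β ⊕ Fin β) ⊕ P)) :
    ∏ t, Ec (Dcol d) S t (ext a (σ (Sum.inl t))) =
      if Valid σ ∧ S ⊆ Uset σ then
        ∏ i, de d i (ext a (σ (Sum.inl (Sum.inl i)))) else 0 := by
  split_ifs with h
  · rw [Fintype.prod_sum_type]
    have key : ∀ t, t ∉ Uset σ → Ec (Dcol d) S t (ext a (σ (Sum.inl t))) = 1 := by
      intro t ht
      rw [h.1 t ht, ext_inl]
      have : t ∉ S := fun h' => ht (h.2 h')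
      simp [Ec, this]
    have h2 : ∏ i : Fin β, Ec (Dcol d) S (Sum.inr i) (ext a (σ (Sum.inl (Sum.inr i)))) = 1 := by
      apply Finset.prod_eq_one
      intro i _
      by_cases hi : Sum.inr i ∈ Uset σ
      · rw [mem_Uset] at hi
        rcases h3 : σ (Sum.inl (Sum.inr i)) with t | p
        · rw [h3] at hi; simp at hi
        · simp [Ec, Dcol]
      · exact key _ hi
    rw [h2, mul_one]
    apply Finset.prod_congr rfl
    intro i _
    by_cases hi : Sum.inl i ∈ Uset σ
    · rw [mem_Uset] at hi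
      rcases h3 : σ (Sum.inl (Sum.inl i)) with t | p
      · rw [h3] at hi; simp at hi
      · simp [Ec, Dcol, de]
    · rw [key _ hi, h.1 _ hi]
      rfl
  · rw [not_and_or] at h
    rcases h with h | h
    · unfold Valid at h
      push Not at h
      obtain ⟨t, ht, hne⟩ := h
      apply Finset.prod_eq_zero (Finset.mem_univ t)
      rw [mem_Uset] at ht
      rcases h3 : σ (Sum.inl t) with t' | p
      · rw [ext_inl]
        have : t' ≠ t := by
          rintro rfl
          exact hne h3
        simp [Ec, this]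
      · rw [h3] at ht; simp at ht
    · rw [Finset.not_subset] at h
      obtain ⟨t, hS, ht⟩ := h
      apply Finset.prod_eq_zero (Finset.mem_univ t)
      rw [mem_Uset] at ht
      rcases h3 : σ (Sum.inl t) with t' | p
      · rw [ext_inl]
        simp [Ec, hS]
      · rw [h3] at ht; simp at ht

omit [Fintype P] [DecidableEq P] in
theorem row_part (d : Fin β → P → ℂ) (b : Perm P) (σ : Perm ((Fin β ⊕ Fin β) ⊕ P)) :
    ∏ t, Er (Crow d) t (ext b (σ⁻¹ (Sum.inl t))) =
        ∏ i, de d i (ext b (σ⁻¹ (Sum.inl (Sum.inr i)))) := by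
  rw [Fintype.prod_sum_type]
  have h2 : ∏ i : Fin β, Er (Crow d) (Sum.inl i) (ext b (σ⁻¹ (Sum.inl (Sum.inl i)))) = 1 := by
    apply Finset.prod_eq_one
    intro i _
    rcases h3 : σ⁻¹ (Sum.inl (Sum.inl i)) with t | p
    · rfl
    · rfl
  rw [h2, one_mul]
  apply Finset.prod_congr rfl
  intro i _
  rcases h3 : σ⁻¹ (Sum.inl (Sum.inr i)) with t | p
  · rfl
  · rfl

/-- left half -/
def U1 (U : Finset (Fin β ⊕ Fin β)) : Finset (Fin β) := Finset.univ.filter (fun i => Sum.inl i ∈ U)

/-- right half -/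
def U2 (U : Finset (Fin β ⊕ Fin β)) : Finset (Fin β) := Finset.univ.filter (fun i => Sum.inr i ∈ U)

open Classical in
/-- number of triples -/
noncomputable def cnt (P : Type*) [Fintype P] [DecidableEq P] (U : Finset (Fin β ⊕ Fin β)) : ℂ :=
  ∑ σ : Perm ((Fin β ⊕ Fin β) ⊕ P), ∑ c : P, ∑ r : P,
    if σ (Sum.inr c) = Sum.inr r ∧ Valid σ ∧ Uset σ = U then (1 : ℂ) else 0

/-- coefficient -/
noncomputable def coef (P : Type*) [Fintype P] [DecidableEq P] (U : Finset (Fin β ⊕ Fin β)) : ℂ :=
  cnt P U * (kap (Fintype.card P) (U1 U).card * kap (Fintype.card P) (U2 U).card) /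
    ((Fintype.card P).factorial * (Fintype.card P).factorial)

open Classical in
theorem LL_formula (d : Fin β → P → ℂ)
    (hd : ∀ V : Finset (Fin β), V.Nonempty → ∑ p, ∏ i ∈ V, d i p = 0)
    (S : Finset (Fin β ⊕ Fin β)) (k l : P) :
    LL (Crow d) (Dcol d) S k l =
      ∑ U : Finset (Fin β ⊕ Fin β), if S ⊆ U then
        coef P U * ((∏ i ∈ U1 U, d i k) * ∏ i ∈ U2 U, d i l) else 0 := by
  set N := Fintype.card P with hN
  -- average over all pairs
  have h0 : ((N.factorial : ℂ) * N.factorial) * LL (Crow d) (Dcol d) S k l =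
      ∑ a : Perm P, ∑ b : Perm P, LL (Crow d) (Dcol d) S k l := by
    simp only [Finset.sum_const, Finset.card_univ, Fintype.card_perm, nsmul_eq_mul, ← hN]
    ring
  -- the expansion
  have h1 : ∀ a b : Perm P, LL (Crow d) (Dcol d) S k l =
      ∑ σ : Perm ((Fin β ⊕ Fin β) ⊕ P), ∑ c : P, ∑ r : P,
        if σ (Sum.inr c) = Sum.inr r ∧ Valid σ ∧ S ⊆ Uset σ then
          (if a r = k then ∏ i, de d i (ext a (σ (Sum.inl (Sum.inl i)))) else 0) *
          (if b c = l then ∏ i, de d i (ext b (σ⁻¹ (Sum.inl (Sum.inr i)))) else 0) else 0 := by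
    intro a b
    rw [LL_reindex (Crow d) (Dcol d) S k l a b]
    apply Finset.sum_congr rfl
    intro σ _
    rw [col_part, row_part]
    by_cases hv : Valid σ ∧ S ⊆ Uset σ
    · rw [if_pos hv]
      rw [Finset.sum_eq_single (b⁻¹ l)]
      · rw [ext_inr]
        rcases hs : σ (Sum.inr (b⁻¹ l)) with t | r
        · simp
        · rw [Finset.sum_eq_single r]
          · simp only [ap_inv, ext_inr, Sum.inr.injEq, hv, and_self, if_true]
            by_cases hk : a r = k
            · simp [hk]
            · simp [hk]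
          · intro r' _ hr'
            rw [if_neg]
            rintro ⟨h, _⟩
            exact hr' (Sum.inr_injective h).symm
          · intro h; exact absurd (Finset.mem_univ _) h
      · intro c _ hc
        apply Finset.sum_eq_zero
        intro r _
        have : b c ≠ l := by
          rintro rfl
          exact hc (inv_ap b c).symm
        simp [this]
      · intro h; exact absurd (Finset.mem_univ _) h
    · rw [if_neg hv]
      simp only [zero_mul, ite_self]
      symm
      apply Finset.sum_eq_zero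
      intro c _
      apply Finset.sum_eq_zero
      intro r _
      rw [if_neg]
      rintro ⟨_, h⟩
      exact hv h
  -- exchange the sums
  have h2 : ∑ a : Perm P, ∑ b : Perm P, LL (Crow d) (Dcol d) S k l =
      ∑ σ : Perm ((Fin β ⊕ Fin β) ⊕ P), ∑ c : P, ∑ r : P,
        if σ (Sum.inr c) = Sum.inr r ∧ Valid σ ∧ S ⊆ Uset σ then
          (∑ a : Perm P, if a r = k then ∏ i, de d i (ext a (σ (Sum.inl (Sum.inl i)))) else 0) *
          (∑ b : Perm P, if b c = l then ∏ i, de d i (ext b (σ⁻¹ (Sum.inl (Sum.inr i)))) else 0)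
          else 0 := by
    rw [Finset.sum_congr rfl (fun a _ => Finset.sum_congr rfl (fun b _ => h1 a b))]
    have e1 : ∀ a : Perm P, ∑ b : Perm P, ∑ σ : Perm ((Fin β ⊕ Fin β) ⊕ P), ∑ c : P, ∑ r : P,
        (if σ (Sum.inr c) = Sum.inr r ∧ Valid σ ∧ S ⊆ Uset σ then
          (if a r = k then ∏ i, de d i (ext a (σ (Sum.inl (Sum.inl i)))) else 0) *
          (if b c = l then ∏ i, de d i (ext b (σ⁻¹ (Sum.inl (Sum.inr i)))) else 0) else 0) =
        ∑ σ : Perm ((Fin β ⊕ Fin β) ⊕ P), ∑ c : P, ∑ r : P,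
        (if σ (Sum.inr c) = Sum.inr r ∧ Valid σ ∧ S ⊆ Uset σ then
          (if a r = k then ∏ i, de d i (ext a (σ (Sum.inl (Sum.inl i)))) else 0) *
          (∑ b : Perm P, if b c = l then
            ∏ i, de d i (ext b (σ⁻¹ (Sum.inl (Sum.inr i)))) else 0) else 0) := by
      intro a
      rw [Finset.sum_comm]
      apply Finset.sum_congr rfl; intro σ _
      rw [Finset.sum_comm]
      apply Finset.sum_congr rfl; intro c _
      rw [Finset.sum_comm]
      apply Finset.sum_congr rfl; intro r _
      split_ifs <;> simp [Finset.mul_sum]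
    rw [Finset.sum_congr rfl (fun a _ => e1 a)]
    rw [Finset.sum_comm]
    apply Finset.sum_congr rfl; intro σ _
    rw [Finset.sum_comm]
    apply Finset.sum_congr rfl; intro c _
    rw [Finset.sum_comm]
    apply Finset.sum_congr rfl; intro r _
    by_cases h : σ (Sum.inr c) = Sum.inr r ∧ Valid σ ∧ S ⊆ Uset σ
    · simp only [if_pos h]
      rw [Finset.sum_mul]
    · simp only [if_neg h]
      simp
  -- evaluate
  have h3 : ∀ σ : Perm ((Fin β ⊕ Fin β) ⊕ P), ∀ c r : P,
      (if σ (Sum.inr c) = Sum.inr r ∧ Valid σ ∧ S ⊆ Uset σ then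
          (∑ a : Perm P, if a r = k then ∏ i, de d i (ext a (σ (Sum.inl (Sum.inl i)))) else 0) *
          (∑ b : Perm P, if b c = l then ∏ i, de d i (ext b (σ⁻¹ (Sum.inl (Sum.inr i)))) else 0)
          else 0) =
      ∑ U : Finset (Fin β ⊕ Fin β), if S ⊆ U then
        (if σ (Sum.inr c) = Sum.inr r ∧ Valid σ ∧ Uset σ = U then (1 : ℂ) else 0) *
        ((kap N (U1 U).card * kap N (U2 U).card) *
        ((∏ i ∈ U1 U, d i k) * ∏ i ∈ U2 U, d i l)) else 0 := by
    intro σ c r
    by_cases h : σ (Sum.inr c) = Sum.inr r ∧ Valid σ ∧ S ⊆ Uset σ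
    · rw [if_pos h, Finset.sum_eq_single (Uset σ)]
      · rw [if_pos h.2.2, if_pos ⟨h.1, h.2.1, rfl⟩, one_mul]
        rw [avg d hd (fun i => σ (Sum.inl (Sum.inl i))) r k, avg d hd
          (fun i => σ⁻¹ (Sum.inl (Sum.inr i))) c l]
        · have e1 : Finset.univ.filter (fun i : Fin β => (σ (Sum.inl (Sum.inl i))).isRight) =
            U1 (Uset σ) := by
            ext i; simp [U1, mem_Uset]
          have e2 : Finset.univ.filter (fun i : Fin β => (σ⁻¹ (Sum.inl (Sum.inr i))).isRight) =
            U2 (Uset σ) := by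
            ext i
            simp only [U2, mem_filter, mem_univ, true_and]
            exact h.2.1.inv _
          rw [e1, e2, ← hN]
          ring
        · intro i j _ hij
          have := σ⁻¹.injective hij
          simpa using this
        · intro i hi
          have h5 : σ (Sum.inr c) = Sum.inl (Sum.inr i) := by rw [← hi, ap_inv]
          rw [h.1] at h5
          exact absurd h5 (by simp)
        · intro i j _ hij
          have := σ.injective hij
          simpa using this
        · intro i hi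
          rw [← h.1] at hi
          have := σ.injective hi
          simp at this
      · intro U _ hU
        split_ifs with h1 h2
        · exact absurd h2.2.2.symm hU
        · simp
        · rfl
      · intro h; exact absurd (Finset.mem_univ _) h
    · rw [if_neg h]
      symm
      apply Finset.sum_eq_zero
      intro U _
      split_ifs with h1 h2
      · exfalso
        apply h
        refine ⟨h2.1, h2.2.1, ?_⟩
        rw [h2.2.2]; exact h1
      · simp
      · rfl
  rw [← h0] at h2
  simp_rw [h3] at h2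
  have h4 : ∑ σ : Perm ((Fin β ⊕ Fin β) ⊕ P), ∑ c : P, ∑ r : P,
      ∑ U : Finset (Fin β ⊕ Fin β), (if S ⊆ U then
        (if σ (Sum.inr c) = Sum.inr r ∧ Valid σ ∧ Uset σ = U then (1 : ℂ) else 0) *
        ((kap N (U1 U).card * kap N (U2 U).card) *
        ((∏ i ∈ U1 U, d i k) * ∏ i ∈ U2 U, d i l)) else 0) =
      ∑ U : Finset (Fin β ⊕ Fin β), if S ⊆ U then
        cnt P U * ((kap N (U1 U).card * kap N (U2 U).card) *
        ((∏ i ∈ U1 U, d i k) * ∏ i ∈ U2 U, d i l)) else 0 := by
    unfold cnt
    have e : ∀ U : Finset (Fin β ⊕ Fin β), (if S ⊆ U then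
        (∑ σ : Perm ((Fin β ⊕ Fin β) ⊕ P), ∑ c : P, ∑ r : P,
          if σ (Sum.inr c) = Sum.inr r ∧ Valid σ ∧ Uset σ = U then (1 : ℂ) else 0) *
        ((kap N (U1 U).card * kap N (U2 U).card) *
        ((∏ i ∈ U1 U, d i k) * ∏ i ∈ U2 U, d i l)) else 0) =
        ∑ σ : Perm ((Fin β ⊕ Fin β) ⊕ P), ∑ c : P, ∑ r : P, (if S ⊆ U then
        (if σ (Sum.inr c) = Sum.inr r ∧ Valid σ ∧ Uset σ = U then (1 : ℂ) else 0) *
        ((kap N (U1 U).card * kap N (U2 U).card) *
        ((∏ i ∈ U1 U, d i k) * ∏ i ∈ U2 U, d i l)) else 0) := by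
      intro U
      by_cases hS : S ⊆ U
      · simp only [if_pos hS, Finset.sum_mul]
      · simp only [if_neg hS, Finset.sum_const_zero]
    rw [Finset.sum_congr rfl (fun U _ => e U)]
    rw [Finset.sum_comm (s := (Finset.univ : Finset (Finset (Fin β ⊕ Fin β))))]
    apply Finset.sum_congr rfl; intro σ _
    rw [Finset.sum_comm (s := (Finset.univ : Finset (Finset (Fin β ⊕ Fin β))))]
    apply Finset.sum_congr rfl; intro c _
    rw [Finset.sum_comm (s := (Finset.univ : Finset (Finset (Fin β ⊕ Fin β))))]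
  rw [h4] at h2
  have hf : ((N.factorial : ℂ) * N.factorial) ≠ 0 := by
    have : (N.factorial : ℂ) ≠ 0 := by exact_mod_cast N.factorial_ne_zero
    exact mul_ne_zero this this
  have h5 : LL (Crow d) (Dcol d) S k l = ((N.factorial : ℂ) * N.factorial)⁻¹ *
    (((N.factorial : ℂ) * N.factorial) * LL (Crow d) (Dcol d) S k l) := by
    rw [← mul_assoc, inv_mul_cancel₀ hf, one_mul]
  rw [h5, h2, Finset.mul_sum]
  apply Finset.sum_congr rfl
  intro U _
  split_ifs
  · unfold coef
    rw [← hN]
    field_simp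
  · simp

end Pool.Agent.Work.MP_35c45d_lc.TR
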