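import Mathlib
import Pool.Agent.Work.MP_35c45d_lc.TRAvg

set_option autoImplicit false

namespace Pool.Agent.Work.MP_35c45d_lc.TR

open Finset Equiv

variable {β : ℕ} {P : Type*} [Fintype P] [DecidableEq P]

open Classical in
theorem cnt_ne (U : Finset (Fin β ⊕ Fin β)) (hU : U.card < Fintype.card P) : cnt P U ≠ 0 := by
  have hcard : Fintype.card (Option U) ≤ Fintype.card P := by
    simp; omega
  obtain ⟨e⟩ := Function.Embedding.nonempty_of_card_le hcard
  let p0 : P := e none
  -- the partial map
  let f : (Fin β ⊕ Fin β) ⊕ P → (Fin β ⊕ Fin β) ⊕ P := fun x => Sum.casesOn x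
    (fun t => if h : t ∈ U then Sum.inr (e (some ⟨t, h⟩)) else Sum.inl t) (fun p => Sum.inr p)
  let s : Finset ((Fin β ⊕ Fin β) ⊕ P) :=
    insert (Sum.inr p0) (Finset.univ.filter (fun x => x.isLeft))
  have hf1 : ∀ t, ∀ h : t ∈ U, f (Sum.inl t) = Sum.inr (e (some ⟨t, h⟩)) := by
    intro t h
    simp [f, h]
  have hf2 : ∀ t, t ∉ U → f (Sum.inl t) = Sum.inl t := by
    intro t h
    simp [f, h]
  have hf3 : f (Sum.inr p0) = Sum.inr p0 := rfl
  have hf4 : ∀ t, f (Sum.inl t) ≠ Sum.inr p0 := by
    intro t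
    by_cases h : t ∈ U
    · rw [hf1 t h]
      intro h'
      have := e.injective (Sum.inr_injective h')
      simp at this
    · rw [hf2 t h]; simp
  have hf5 : ∀ t t', f (Sum.inl t) = f (Sum.inl t') → t = t' := by
    intro t t' h
    by_cases h1 : t ∈ U
    · by_cases h2 : t' ∈ U
      · rw [hf1 t h1, hf1 t' h2] at h
        have := e.injective (Sum.inr_injective h)
        simpa using this
      · rw [hf1 t h1, hf2 t' h2] at h
        simp at h
    · by_cases h2 : t' ∈ U
      · rw [hf2 t h1, hf1 t' h2] at h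
        simp at h
      · rw [hf2 t h1, hf2 t' h2] at h
        simpa using h
  have hinj : Set.InjOn f s := by
    intro x hx y hy hxy
    simp only [s, coe_insert, Set.mem_insert_iff, mem_coe, mem_filter, mem_univ, true_and] at hx hy
    rcases hx with rfl | hx
    · rcases hy with rfl | hy
      · rfl
      · rcases y with t | p
        · exact absurd hxy.symm (hf4 t)
        · simp at hy
    · rcases x with t | p
      · rcases hy with rfl | hy
        · exact absurd hxy (hf4 t)
        · rcases y with t' | p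
          · rw [hf5 t t' hxy]
          · simp at hy
      · simp at hx
  obtain ⟨g, hg⟩ := Finset.exists_equiv_extend_of_card_eq
    (α := (Fin β ⊕ Fin β) ⊕ P) (β := (Fin β ⊕ Fin β) ⊕ P) (t := Finset.univ)
    (by simp) (s := s) (f := f) (by simp) hinj
  let σ : Perm ((Fin β ⊕ Fin β) ⊕ P) := g.trans (Equiv.subtypeUnivEquiv (by simp))
  have hσ : ∀ x ∈ s, σ x = f x := by
    intro x hx
    rw [← hg x hx]
    rfl
  have hσl : ∀ t, σ (Sum.inl t) = f (Sum.inl t) := fun t => hσ _ (by simp [s])
  have hσp : σ (Sum.inr p0) = Sum.inr p0 := by rw [hσ _ (by simp [s])]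
  have hUs : Uset σ = U := by
    ext t
    rw [mem_Uset, hσl]
    by_cases h : t ∈ U
    · rw [hf1 t h]; simp [h]
    · rw [hf2 t h]; simp [h]
  have hval : Valid σ := by
    intro t ht
    rw [hUs] at ht
    rw [hσl, hf2 t ht]
  -- the count as a natural number
  have h1 : cnt P U = ((∑ σ : Perm ((Fin β ⊕ Fin β) ⊕ P), ∑ c : P, ∑ r : P,
    if σ (Sum.inr c) = Sum.inr r ∧ Valid σ ∧ Uset σ = U then 1 else 0 : ℕ) : ℂ) := by
    unfold cnt
    push_cast
    rfl
  rw [h1]
  have h2 : (∑ σ : Perm ((Fin β ⊕ Fin β) ⊕ P), ∑ c : P, ∑ r : P,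
    if σ (Sum.inr c) = Sum.inr r ∧ Valid σ ∧ Uset σ = U then 1 else 0 : ℕ) ≠ 0 := by
    intro h0
    have h3 := (Finset.sum_eq_zero_iff.mp h0) σ (Finset.mem_univ _)
    have h4 := (Finset.sum_eq_zero_iff.mp h3) p0 (Finset.mem_univ _)
    have h5 := (Finset.sum_eq_zero_iff.mp h4) p0 (Finset.mem_univ _)
    rw [if_pos ⟨hσp, hval, hUs⟩] at h5
    exact one_ne_zero h5
  exact_mod_cast h2

theorem card_U1_le (U : Finset (Fin β ⊕ Fin β)) : (U1 U).card ≤ β := by
  unfold U1
  exact (Finset.card_le_univ _).trans (by simp)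

theorem card_U2_le (U : Finset (Fin β ⊕ Fin β)) : (U2 U).card ≤ β := by
  unfold U2
  exact (Finset.card_le_univ _).trans (by simp)

theorem coef_ne (hN : 2 * β < Fintype.card P) (U : Finset (Fin β ⊕ Fin β)) : coef P U ≠ 0 := by
  unfold coef
  have hU : U.card < Fintype.card P := by
    have := Finset.card_le_univ U
    simp at this
    omega
  have h1 := cnt_ne (P := P) U hU
  have h2 : kap (Fintype.card P) (U1 U).card ≠ 0 := kap_ne (by have := card_U1_le U; omega)
  have h3 : kap (Fintype.card P) (U2 U).card ≠ 0 := kap_ne (by have := card_U2_le U; omega)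
  have h4 : ((Fintype.card P).factorial : ℂ) ≠ 0 := by
    exact_mod_cast (Fintype.card P).factorial_ne_zero
  exact div_ne_zero (mul_ne_zero h1 (mul_ne_zero h2 h3)) (mul_ne_zero h4 h4)

/-- Moebius inversion on the Boolean lattice, upwards. -/
theorem moebius {T : Type*} [Fintype T] [DecidableEq T] (G : Finset T → ℂ)
    (h : ∀ S : Finset T, ∑ U : Finset T, (if S ⊆ U then G U else 0) = 0) : ∀ S, G S = 0 := by
  have key : ∀ n : ℕ, ∀ S : Finset T, Sᶜ.card = n → G S = 0 := by
    intro n
    induction n using Nat.strong_induction_on with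
    | _ n ih =>
      intro S hS
      have h1 := h S
      rw [Finset.sum_eq_single S] at h1
      · simpa using h1
      · intro U _ hU
        split_ifs with h2
        · apply ih Uᶜ.card _ U rfl
          rw [← hS]
          apply Finset.card_lt_card
          rw [Finset.ssubset_iff_subset_ne]
          constructor
          · exact Finset.compl_subset_compl.mpr h2
          · intro h3
            exact hU (compl_injective h3)
        · rfl
      · intro h2; exact absurd (Finset.mem_univ _) h2
  exact fun S => key _ S rfl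

/-- The functions `S ↦ LL S k l` for `k, l` in the cube are linearly independent. -/
theorem LL_indep {Z : Type*} [Fintype Z] [DecidableEq Z]
    (hN : 2 * β < Fintype.card ((Fin β → Bool) ⊕ Z))
    (c : (Fin β → Bool) × (Fin β → Bool) → ℂ)
    (h : ∀ S : Finset (Fin β ⊕ Fin β),
      ∑ q, c q * LL (Crow (dd (Z := Z))) (Dcol dd) S (Sum.inl q.1) (Sum.inl q.2) = 0) : c = 0 := by
  have h1 : ∀ S : Finset (Fin β ⊕ Fin β), ∑ U : Finset (Fin β ⊕ Fin β),
      (if S ⊆ U then (coef ((Fin β → Bool) ⊕ Z) U *
        ∑ q, c q * (chi (U1 U) q.1 * chi (U2 U) q.2)) else 0) = 0 := by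
    intro S
    have e0 : ∑ q, c q * LL (Crow (dd (Z := Z))) (Dcol dd) S (Sum.inl q.1) (Sum.inl q.2) =
        ∑ q, ∑ U : Finset (Fin β ⊕ Fin β), (if S ⊆ U then (coef ((Fin β → Bool) ⊕ Z) U *
        (c q * (chi (U1 U) q.1 * chi (U2 U) q.2))) else 0) := by
      apply Finset.sum_congr rfl
      intro q _
      rw [LL_formula dd (fun V hV => sum_dd V hV) S, Finset.mul_sum]
      apply Finset.sum_congr rfl
      intro U _
      split_ifs
      · rw [prod_dd_inl, prod_dd_inl]
        ring
      · simp
    have e1 := h S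
    rw [e0, Finset.sum_comm] at e1
    refine Eq.trans ?_ e1
    apply Finset.sum_congr rfl
    intro U _
    split_ifs
    · rw [Finset.mul_sum]
    · simp
  have h2 := moebius _ h1
  apply walsh_inj
  intro V W
  have h3 := h2 (V.disjSum W)
  have e1 : U1 (V.disjSum W) = V := by
    ext i; simp [U1]
  have e2 : U2 (V.disjSum W) = W := by
    ext i; simp [U2]
  rw [e1, e2] at h3
  exact (mul_eq_zero.mp h3).resolve_left (coef_ne hN _)

end Pool.Agent.Work.MP_35c45d_lc.TR
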