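import Mathlib
import Pool.Agent.Work.MP_35c45d_lc.TRInd

set_option autoImplicit false

namespace Pool.Agent.Work.MP_35c45d_lc.TR

open Finset Equiv

variable {β : ℕ} {P : Type*} [Fintype P] [DecidableEq P]

theorem avg0 {T : Type*} (d : Fin β → P → ℂ)
    (hd : ∀ V : Finset (Fin β), V.Nonempty → ∑ p, ∏ i ∈ V, d i p = 0)
    (hβ : β < Fintype.card P) (τ : Fin β → T ⊕ P)
    (hτ : ∀ i j, (τ i).isRight → τ i = τ j → i = j) :
    ∑ a : Perm P, ∏ i, de d i (ext (T := T) a (τ i)) =
      if Finset.univ.filter (fun i => (τ i).isRight) = ∅ then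
        ((Fintype.card P).factorial : ℂ) else 0 := by
  classical
  split_ifs with hA
  · have h1 : ∀ a : Perm P, ∏ i, de d i (ext (T := T) a (τ i)) = 1 := by
      intro a
      apply Finset.prod_eq_one
      intro i _
      have hi : i ∉ Finset.univ.filter (fun i => (τ i).isRight) := by rw [hA]; simp
      rcases h : τ i with t | p
      · rfl
      · exfalso
        apply hi
        simp [h]
    rw [Finset.sum_congr rfl (fun a _ => h1 a)]
    simp [Fintype.card_perm]
  · -- a free point
    have hne : (Finset.univ.filter (fun i => (τ i).isRight)).Nonempty :=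
      Finset.nonempty_iff_ne_empty.mpr hA
    obtain ⟨i0, _⟩ := id hne
    have : Nonempty P := Fintype.card_pos_iff.mp (by omega)
    let f : Fin β → P := fun i => Sum.elim (fun _ => Classical.arbitrary P) id (τ i)
    obtain ⟨q, hq⟩ : ∃ q : P, q ∉ Finset.univ.image f := by
      by_contra hcon
      push Not at hcon
      have h1 : (Finset.univ : Finset P) ⊆ Finset.univ.image f := fun x _ => hcon x
      have h2 := Finset.card_le_card h1
      have h3 : (Finset.univ.image f).card ≤ β := by
        refine Finset.card_image_le.trans ?_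
        simp
      rw [Finset.card_univ] at h2
      omega
    have hq' : ∀ i, τ i ≠ Sum.inr q := by
      intro i hi
      apply hq
      rw [Finset.mem_image]
      exact ⟨i, Finset.mem_univ _, by simp [f, hi]⟩
    have h1 : ∑ a : Perm P, ∏ i, de d i (ext (T := T) a (τ i)) =
        ∑ k : P, ∑ a : Perm P, (if a q = k then ∏ i, de d i (ext (T := T) a (τ i)) else 0) := by
      rw [Finset.sum_comm]
      apply Finset.sum_congr rfl
      intro a _
      simp
    rw [h1, Finset.sum_congr rfl (fun k _ => avg d hd τ q k hτ hq'), ← Finset.mul_sum,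
      hd _ hne, mul_zero]

open Classical in
theorem perm_base_ne (d : Fin β → P → ℂ)
    (hd : ∀ V : Finset (Fin β), V.Nonempty → ∑ p, ∏ i ∈ V, d i p = 0)
    (hβ : β < Fintype.card P) :
    (base (Crow d) (Dcol d) ∅).permanent ≠ 0 := by
  set N := Fintype.card P with hN
  have h0 : ((N.factorial : ℂ) * N.factorial) * (base (Crow d) (Dcol d) ∅).permanent =
      ∑ a : Perm P, ∑ b : Perm P, (base (Crow d) (Dcol d) ∅).permanent := by
    simp only [Finset.sum_const, Finset.card_univ, Fintype.card_perm, nsmul_eq_mul, ← hN]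
    ring
  have h1 : ∀ a b : Perm P, (base (Crow d) (Dcol d) ∅).permanent =
      ∑ σ : Perm ((Fin β ⊕ Fin β) ⊕ P), if Valid σ then
        (∏ i, de d i (ext a (σ (Sum.inl (Sum.inl i))))) *
        (∏ i, de d i (ext b (σ⁻¹ (Sum.inl (Sum.inr i))))) else 0 := by
    intro a b
    unfold Matrix.permanent
    rw [← Equiv.sum_comp ((Equiv.mulLeft (ext a)).trans (Equiv.mulRight (ext b)⁻¹))]
    apply Finset.sum_congr rfl
    intro σ _
    have e1 : ∏ j, base (Crow d) (Dcol d) ∅
        (((Equiv.mulLeft (ext a)).trans (Equiv.mulRight (ext b)⁻¹)) σ j) j =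
        ∏ j, base (Crow d) (Dcol d) ∅ (ext a (σ j)) (ext b j) := by
      rw [← Equiv.prod_comp (ext b)]
      apply Finset.prod_congr rfl
      intro j _
      simp [Perm.mul_apply]
    rw [e1, prod_split, col_part, row_part]
    simp only [Finset.empty_subset, and_true]
    split_ifs
    · rfl
    · simp
  have h2 : ∑ a : Perm P, ∑ b : Perm P, (base (Crow d) (Dcol d) ∅).permanent =
      ∑ σ : Perm ((Fin β ⊕ Fin β) ⊕ P), if Valid σ then
        (∑ a : Perm P, ∏ i, de d i (ext a (σ (Sum.inl (Sum.inl i))))) *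
        (∑ b : Perm P, ∏ i, de d i (ext b (σ⁻¹ (Sum.inl (Sum.inr i))))) else 0 := by
    rw [Finset.sum_congr rfl (fun a _ => Finset.sum_congr rfl (fun b _ => h1 a b))]
    have e1 : ∀ a : Perm P, ∑ b : Perm P, ∑ σ : Perm ((Fin β ⊕ Fin β) ⊕ P), (if Valid σ then
        (∏ i, de d i (ext a (σ (Sum.inl (Sum.inl i))))) *
        (∏ i, de d i (ext b (σ⁻¹ (Sum.inl (Sum.inr i))))) else 0) =
        ∑ σ : Perm ((Fin β ⊕ Fin β) ⊕ P), if Valid σ then
        (∏ i, de d i (ext a (σ (Sum.inl (Sum.inl i))))) *
        (∑ b : Perm P, ∏ i, de d i (ext b (σ⁻¹ (Sum.inl (Sum.inr i))))) else 0 := by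
      intro a
      rw [Finset.sum_comm]
      apply Finset.sum_congr rfl; intro σ _
      split_ifs
      · rw [Finset.mul_sum]
      · simp
    rw [Finset.sum_congr rfl (fun a _ => e1 a), Finset.sum_comm]
    apply Finset.sum_congr rfl; intro σ _
    split_ifs
    · rw [Finset.sum_mul]
    · simp
  have h3 : ∀ σ : Perm ((Fin β ⊕ Fin β) ⊕ P), (if Valid σ then
        (∑ a : Perm P, ∏ i, de d i (ext a (σ (Sum.inl (Sum.inl i))))) *
        (∑ b : Perm P, ∏ i, de d i (ext b (σ⁻¹ (Sum.inl (Sum.inr i))))) else 0) =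
      ((N.factorial : ℂ) * N.factorial) *
        (((if Valid σ ∧ Finset.univ.filter
          (fun i : Fin β => (σ (Sum.inl (Sum.inl i))).isRight) = ∅ ∧
        Finset.univ.filter (fun i : Fin β => (σ⁻¹ (Sum.inl (Sum.inr i))).isRight) = ∅
        then 1 else 0 : ℕ)) : ℂ) := by
    intro σ
    rw [avg0 d hd hβ (fun i => σ (Sum.inl (Sum.inl i))), avg0 d hd hβ
          (fun i => σ⁻¹ (Sum.inl (Sum.inr i)))]
    · rw [← hN]
      by_cases a1 : Valid σ <;>
      by_cases a2 : Finset.univ.filter (fun i : Fin β => (σ (Sum.inl (Sum.inl i))).isRight) = ∅ <;>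
      by_cases a3 : Finset.univ.filter
            (fun i : Fin β => (σ⁻¹ (Sum.inl (Sum.inr i))).isRight) = ∅ <;>
      simp only [a1, a2, a3, if_true, if_false, and_self, and_true, and_false, false_and, true_and,
        Nat.cast_one, Nat.cast_zero, mul_one, mul_zero, zero_mul]
    · intro i j _ hij
      have := σ⁻¹.injective hij
      simpa using this
    · intro i j _ hij
      have := σ.injective hij
      simpa using this
  rw [← h0] at h2
  simp_rw [h3] at h2
  rw [← Finset.mul_sum] at h2
  have hf : ((N.factorial : ℂ) * N.factorial) ≠ 0 := by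
    have : (N.factorial : ℂ) ≠ 0 := by exact_mod_cast N.factorial_ne_zero
    exact mul_ne_zero this this
  have h4 := mul_left_cancel₀ hf h2
  rw [h4, ← Nat.cast_sum]
  have h5 : (∑ σ : Perm ((Fin β ⊕ Fin β) ⊕ P), if Valid σ ∧ Finset.univ.filter
          (fun i : Fin β => (σ (Sum.inl (Sum.inl i))).isRight) = ∅ ∧
        Finset.univ.filter (fun i : Fin β => (σ⁻¹ (Sum.inl (Sum.inr i))).isRight) = ∅
        then 1 else 0 : ℕ) ≠ 0 := by
    intro h6
    have h7 := (Finset.sum_eq_zero_iff.mp h6) 1 (Finset.mem_univ _)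
    rw [if_pos] at h7
    · exact one_ne_zero h7
    · refine ⟨?_, ?_, ?_⟩
      · intro t _; rfl
      · ext i; simp
      · ext i; simp
  exact_mod_cast h5

end Pool.Agent.Work.MP_35c45d_lc.TR
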