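import Mathlib
import Pool.Agent.Work.MP_35c45d_lc.TRBase
import Pool.Agent.Work.MP_35c45d_lc.TRAlg

set_option autoImplicit false

namespace Pool.Agent.Work.MP_35c45d_lc.TR

open Finset Equiv Matrix

/-- A matrix of rank at most `r` factors through dimension `r`. -/
theorem rank_factor {n : ℕ} (A : Matrix (Fin n) (Fin n) ℂ) (r : ℕ) (h : A.rank ≤ r) :
    ∃ (U : Matrix (Fin n) (Fin r) ℂ) (V : Matrix (Fin r) (Fin n) ℂ), A = U * V := by
  have h1 : Module.finrank ℂ (LinearMap.range A.mulVecLin) ≤ Module.finrank ℂ (Fin r → ℂ) := by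
    rw [Module.finrank_fin_fun]; exact h
  obtain ⟨f, hf⟩ := finrank_le_iff_exists_linearMap.mp h1
  obtain ⟨g, hg⟩ := LinearMap.exists_leftInverse_of_injective f (LinearMap.ker_eq_bot.mpr hf)
  refine ⟨LinearMap.toMatrix' ((LinearMap.range A.mulVecLin).subtype ∘ₗ g),
    LinearMap.toMatrix' (f ∘ₗ A.mulVecLin.rangeRestrict), ?_⟩
  rw [← LinearMap.toMatrix'_comp]
  have : ((LinearMap.range A.mulVecLin).subtype ∘ₗ g) ∘ₗ f ∘ₗ A.mulVecLin.rangeRestrict =
      A.mulVecLin := by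
    ext x
    have h2 : g (f (A.mulVecLin.rangeRestrict (Pi.single x 1))) =
        A.mulVecLin.rangeRestrict (Pi.single x 1) := LinearMap.congr_fun hg _
    simp only [LinearMap.comp_apply, LinearMap.single_apply]
    rw [h2]
    rfl
  rw [this]
  rw [← Matrix.toLin'_apply']
  exact (LinearMap.toMatrix'_toLin' A).symm

/-- determinant of a matrix with some updates switched off -/
theorem det_update {n : ℕ} {T : Type} [Fintype T] [DecidableEq T] (r : T → ℕ)
    (A : Matrix (Fin n) (Fin n) ℂ) (hA : A.det ≠ 0) (B : T → Matrix (Fin n) (Fin n) ℂ)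
    (U : ∀ t, Matrix (Fin n) (Fin (r t)) ℂ) (V : ∀ t, Matrix (Fin (r t)) (Fin n) ℂ)
    (hB : ∀ t, B t = U t * V t) :
    ∃ G : Matrix (Σ t, Fin (r t)) (Σ t, Fin (r t)) ℂ, ∀ S : Finset T,
      (A - ∑ t ∈ S, B t).det =
        A.det * (1 - diagonal (fun x : Σ t, Fin (r t) => if x.1 ∈ S then (1 : ℂ) else 0) * G).det := by
  let UU : Matrix (Fin n) (Σ t, Fin (r t)) ℂ := Matrix.of fun a x => U x.1 a x.2
  let VV : Matrix (Σ t, Fin (r t)) (Fin n) ℂ := Matrix.of fun x a => V x.1 x.2 a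
  refine ⟨VV * A⁻¹ * UU, fun S => ?_⟩
  set D : Matrix (Σ t, Fin (r t)) (Σ t, Fin (r t)) ℂ :=
    diagonal (fun x : Σ t, Fin (r t) => if x.1 ∈ S then (1 : ℂ) else 0) with hD
  have hu : IsUnit A.det := isUnit_iff_ne_zero.mpr hA
  have h1 : ∑ t ∈ S, B t = UU * (D * VV) := by
    ext a b
    rw [Matrix.sum_apply, Matrix.mul_apply, Fintype.sum_sigma, ← Finset.sum_filter_add_sum_filter_not
      Finset.univ (fun t => t ∈ S)]
    have e1 : ∑ t ∈ Finset.univ.filter (fun t => ¬ t ∈ S), ∑ x : Fin (r t),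
        UU a ⟨t, x⟩ * (D * VV) ⟨t, x⟩ b = 0 := by
      apply Finset.sum_eq_zero
      intro t ht
      rw [mem_filter] at ht
      apply Finset.sum_eq_zero
      intro x _
      rw [hD, Matrix.diagonal_mul]
      simp [ht.2]
    rw [e1, add_zero]
    have e2 : Finset.univ.filter (fun t => t ∈ S) = S := by ext; simp
    rw [e2]
    apply Finset.sum_congr rfl
    intro t ht
    rw [hB t, Matrix.mul_apply]
    apply Finset.sum_congr rfl
    intro x _
    rw [hD, Matrix.diagonal_mul]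
    simp [ht, UU, VV]
  have h2 : A - ∑ t ∈ S, B t = A * (1 - (A⁻¹ * UU) * (D * VV)) := by
    rw [h1, Matrix.mul_sub, Matrix.mul_one, ← Matrix.mul_assoc A (A⁻¹ * UU) (D * VV),
      ← Matrix.mul_assoc A A⁻¹ UU, Matrix.mul_nonsing_inv _ hu, Matrix.one_mul]
  rw [h2, Matrix.det_mul, Matrix.det_one_sub_mul_comm]
  congr 2
  simp only [Matrix.mul_assoc]

/-- the universal polynomial -/
noncomputable def Psi0 {ι : Type} [Fintype ι] [DecidableEq ι] (χ : ι → Prop) [DecidablePred χ] :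
    MvPolynomial (Option (ι × ι)) ℂ :=
  MvPolynomial.X none *
    (1 - diagonal (fun x : ι => if χ x then (1 : MvPolynomial (Option (ι × ι)) ℂ) else 0) *
      Matrix.of (fun i j => MvPolynomial.X (some (i, j)))).det

theorem eval_Psi0 {ι : Type} [Fintype ι] [DecidableEq ι] (χ : ι → Prop) [DecidablePred χ]
    (δ : ℂ) (G : Matrix ι ι ℂ) :
    MvPolynomial.eval (fun o : Option (ι × ι) => o.elim δ (fun p => G p.1 p.2)) (Psi0 χ) =
      δ * (1 - diagonal (fun x : ι => if χ x then (1 : ℂ) else 0) * G).det := by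
  unfold Psi0
  rw [map_mul, MvPolynomial.eval_X, RingHom.map_det]
  congr 2
  ext i j
  simp only [RingHom.mapMatrix_apply, Matrix.map_apply, Matrix.sub_apply, Matrix.diagonal_mul,
    map_sub, map_mul]
  congr 1
  · rw [Matrix.one_apply, Matrix.one_apply]; split_ifs <;> simp
  · by_cases h : χ i
    · simp [h]
    · simp [h]

end Pool.Agent.Work.MP_35c45d_lc.TR
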