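import Mathlib
import Pool.Agent.Work.MP_35c45d_lc.TRDet

set_option autoImplicit false

namespace Pool.Agent.Work.MP_35c45d_lc.TR

open Finset Equiv Matrix Filter Topology

/-- the cube -/
abbrev KK (β : ℕ) := Fin β → Bool

/-- the total index type -/
abbrev II (β : ℕ) (Z : Type) := (Fin β ⊕ Fin β) ⊕ ((Fin β → Bool) ⊕ Z)

/-- perturbation matrix -/
def Wm {β : ℕ} {Z : Type} (w : KK β × KK β → ℂ) : Matrix (II β Z) (II β Z) ℂ
  | Sum.inr (Sum.inl a), Sum.inr (Sum.inl b) => w (a, b)
  | _, _ => 0

theorem Wm_zero {β : ℕ} {Z : Type} : Wm (β := β) (Z := Z) 0 = 0 := by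
  ext i j
  rcases i with i | i | i <;> rcases j with j | j | j <;> rfl

theorem contDiff_Wm {β : ℕ} {Z : Type} (i j : II β Z) :
    ContDiff ℂ 1 (fun w : KK β × KK β → ℂ => Wm w i j) := by
  rcases i with i | i | i <;> rcases j with j | j | j
  all_goals first
    | exact contDiff_apply ℂ ℂ (i, j)
    | exact contDiff_const

/-- the base matrix used -/
abbrev bs (β : ℕ) (Z : Type) (S : Finset (Fin β ⊕ Fin β)) : Matrix (II β Z) (II β Z) ℂ :=
  base (Crow dd) (Dcol dd) S

/-- the derivative at outer entries -/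
noncomputable abbrev ls (β : ℕ) (Z : Type) [Fintype Z] [DecidableEq Z]
    (S : Finset (Fin β ⊕ Fin β)) (q : KK β × KK β) : ℂ :=
  LL (Crow (dd (Z := Z))) (Dcol dd) S (Sum.inl q.1) (Sum.inl q.2)

variable {β : ℕ} {Z : Type} [Fintype Z] [DecidableEq Z]

theorem perm_line (S : Finset (Fin β ⊕ Fin β)) (q : KK β × KK β) (s : ℂ) :
    (bs β Z S + Wm (s • Pi.single q 1)).permanent = (bs β Z S).permanent + s * ls β Z S q := by
  unfold Matrix.permanent ls LL
  rw [Finset.mul_sum, ← Finset.sum_add_distrib]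
  apply Finset.sum_congr rfl
  intro σ _
  set l : II β Z := Sum.inr (Sum.inl q.2) with hl
  set k : II β Z := Sum.inr (Sum.inl q.1) with hk
  have hW : ∀ i j : II β Z, Wm (s • Pi.single q (1 : ℂ)) i j = if i = k ∧ j = l then s else 0 := by
    intro i j
    rcases i with i | i | i <;> rcases j with j | j | j
    all_goals simp only [Wm, hk, hl, Sum.inr.injEq, Sum.inl.injEq, reduceCtorEq, false_and,
      and_false, if_false, Pi.smul_apply, smul_eq_mul, Pi.single_apply]
    by_cases h1 : i = q.1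
    · by_cases h2 : j = q.2
      · simp [h1, h2]
      · have : (i, j) ≠ q := fun h => h2 (congrArg Prod.snd h)
        simp [h2, this]
    · have : (i, j) ≠ q := fun h => h1 (congrArg Prod.fst h)
      simp [h1, this]
  rw [← Finset.mul_prod_erase Finset.univ _ (Finset.mem_univ l)]
  rw [← Finset.mul_prod_erase Finset.univ (fun i => bs β Z S (σ i) i) (Finset.mem_univ l)]
  have e1 : ∏ x ∈ Finset.univ.erase l,
      (bs β Z S + Wm (s • Pi.single q (1 : ℂ)) : Matrix (II β Z) (II β Z) ℂ) (σ x) x =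
      ∏ x ∈ Finset.univ.erase l, bs β Z S (σ x) x := by
    apply Finset.prod_congr rfl
    intro x hx
    rw [Matrix.add_apply, hW, if_neg, add_zero]
    rintro ⟨_, h⟩
    exact (Finset.ne_of_mem_erase hx) h
  rw [e1, Matrix.add_apply, hW]
  by_cases h : σ l = k
  · rw [if_pos ⟨h, rfl⟩, if_pos h]
    rw [h]
    have : bs β Z S k l = 1 := rfl
    rw [this]
    ring
  · rw [if_neg (fun h' => h h'.1), if_neg h]
    ring

theorem base_sub (S : Finset (Fin β ⊕ Fin β)) (i j : II β Z) :
    bs β Z S i j = bs β Z ∅ i j - ∑ t ∈ S, (if i = Sum.inl t ∧ j = Sum.inl t then 1 else 0) := by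
  have h0 : (∀ t : Fin β ⊕ Fin β, ¬ (i = Sum.inl t ∧ j = Sum.inl t)) →
      ∑ t ∈ S, (if i = Sum.inl t ∧ j = Sum.inl t then (1 : ℂ) else 0) = 0 := by
    intro h
    apply Finset.sum_eq_zero
    intro t _
    rw [if_neg (h t)]
  rcases i with t | p
  · rcases j with t' | c
    · by_cases h : t = t'
      · subst h
        by_cases hS : t ∈ S
        · rw [Finset.sum_eq_single t]
          · simp [bs, base, hS]
          · intro b _ hb
            rw [if_neg]
            rintro ⟨h, _⟩
            exact hb (Sum.inl_injective h).symm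
          · intro h; exact absurd hS h
        · rw [Finset.sum_eq_zero]
          · simp [bs, base, hS]
          · intro b hb
            rw [if_neg]
            rintro ⟨h, _⟩
            have := Sum.inl_injective h
            subst this
            exact hS hb
      · rw [h0]
        · simp [bs, base, h]
        · rintro b ⟨h1, h2⟩
          exact h ((Sum.inl_injective h1).trans (Sum.inl_injective h2).symm)
    · rw [h0]
      · rw [sub_zero]; rfl
      · rintro b ⟨_, h2⟩
        exact absurd h2 (by simp)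
  · rw [h0]
    · rw [sub_zero]
      rcases j with t' | c <;> rfl
    · rintro b ⟨h1, _⟩
      exact absurd h1 (by simp)

/-- the determinant function -/
noncomputable def FF {N : ℕ} (A0 : Matrix (Fin N) (Fin N) ℂ)
    (A : II β Z → II β Z → Matrix (Fin N) (Fin N) ℂ) (X : Matrix (II β Z) (II β Z) ℂ) : ℂ :=
  (A0 + ∑ i, ∑ j, X i j • A i j).det

theorem FF_eval {N : ℕ} (r : Fin β ⊕ Fin β → ℕ) (A0 : Matrix (Fin N) (Fin N) ℂ)
    (A : II β Z → II β Z → Matrix (Fin N) (Fin N) ℂ)
    (hr : ∀ t, (A (Sum.inl t) (Sum.inl t)).rank ≤ r t) (W : Matrix (II β Z) (II β Z) ℂ)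
    (hn : FF A0 A (bs β Z ∅ + W) ≠ 0) :
    ∃ φ : Option ((Σ t : Fin β ⊕ Fin β, Fin (r t)) × (Σ t : Fin β ⊕ Fin β, Fin (r t))) → ℂ,
      ∀ S, FF A0 A (bs β Z S + W) = MvPolynomial.eval φ
        (Psi0 (fun x : (Σ t : Fin β ⊕ Fin β, Fin (r t)) => x.1 ∈ S)) := by
  choose U V hUV using fun t => rank_factor _ _ (hr t)
  obtain ⟨G, hG⟩ := det_update r (A0 + ∑ i, ∑ j, (bs β Z ∅ + W) i j • A i j) hn
    (fun t => A (Sum.inl t) (Sum.inl t)) U V hUV
  refine ⟨fun o => o.elim (FF A0 A (bs β Z ∅ + W)) (fun p => G p.1 p.2), fun S => ?_⟩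
  rw [eval_Psi0]
  unfold FF
  rw [← hG S]
  congr 1
  have e1 : ∀ i j, (bs β Z S + W) i j • A i j =
      (bs β Z ∅ + W) i j • A i j - ∑ t ∈ S,
        (if i = Sum.inl t ∧ j = Sum.inl t then (1 : ℂ) else 0) • A i j := by
    intro i j
    rw [← Finset.sum_smul, ← sub_smul, Matrix.add_apply, Matrix.add_apply, base_sub S i j]
    congr 1
    ring
  simp_rw [e1, Finset.sum_sub_distrib]
  have e2 : ∑ i : II β Z, ∑ j : II β Z, ∑ t ∈ S,
      (if i = Sum.inl t ∧ j = Sum.inl t then (1 : ℂ) else 0) • A i j =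
      ∑ t ∈ S, A (Sum.inl t) (Sum.inl t) := by
    rw [Finset.sum_congr rfl (fun i _ => Finset.sum_comm), Finset.sum_comm]
    apply Finset.sum_congr rfl
    intro t _
    rw [Finset.sum_eq_single (Sum.inl t), Finset.sum_eq_single (Sum.inl t)]
    · simp
    · intro j _ hj
      rw [if_neg (fun h => hj h.2), zero_smul]
    · intro h; exact absurd (Finset.mem_univ _) h
    · intro i _ hi
      apply Finset.sum_eq_zero
      intro j _
      rw [if_neg (fun h => hi h.1), zero_smul]
    · intro h; exact absurd (Finset.mem_univ _) h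
  rw [e2]
  abel

/-- the core statement -/
theorem core (hN : 2 * β < Fintype.card ((Fin β → Bool) ⊕ Z)) (r : Fin β ⊕ Fin β → ℕ)
    (N : ℕ → ℕ) (A0 : ∀ n, Matrix (Fin (N n)) (Fin (N n)) ℂ)
    (A : ∀ n, II β Z → II β Z → Matrix (Fin (N n)) (Fin (N n)) ℂ)
    (hr : ∀ n t, (A n (Sum.inl t) (Sum.inl t)).rank ≤ r t)
    (hlim : ∀ X : Matrix (II β Z) (II β Z) ℂ,
      Tendsto (fun n => (A0 n + ∑ i, ∑ j, X i j • A n i j).det) atTop (𝓝 X.permanent)) :
    4 ^ β ≤ (∑ t, r t) ^ 2 + 1 := by
  by_contra hcon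
  push Not at hcon
  -- dual coefficients
  let v : KK β × KK β → Finset (Fin β ⊕ Fin β) → ℂ := fun q S => ls β Z S q
  have hv : Function.Injective (Fintype.linearCombination ℂ v) := by
    rw [injective_iff_map_eq_zero]
    intro c hc
    apply LL_indep (Z := Z) hN c
    intro S
    have := congrFun hc S
    rw [Fintype.linearCombination_apply, Finset.sum_apply] at this
    simpa [v, ls] using this
  obtain ⟨g, hg⟩ := LinearMap.exists_leftInverse_of_injective _ (LinearMap.ker_eq_bot.mpr hv)
  let cc : KK β × KK β → Finset (Fin β ⊕ Fin β) → ℂ := fun q S => g (Pi.single S 1) q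
  have hcc : ∀ q' q, ∑ S, cc q' S * ls β Z S q = (Pi.single q 1 : KK β × KK β → ℂ) q' := by
    intro q' q
    have h1 : g (v q) = Pi.single q 1 := by
      have := LinearMap.congr_fun hg (Pi.single q 1)
      simp only [LinearMap.comp_apply, LinearMap.id_apply] at this
      rw [Fintype.linearCombination_apply_single, one_smul] at this
      exact this
    rw [← h1]
    have h2 : v q = ∑ S, v q S • (Pi.single S 1 : Finset (Fin β ⊕ Fin β) → ℂ) := by
      conv_lhs => rw [pi_eq_sum_univ' (v q)]
    rw [h2, map_sum, Finset.sum_apply]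
    apply Finset.sum_congr rfl
    intro S _
    rw [map_smul]
    simp only [cc, v, Pi.smul_apply, smul_eq_mul]
    ring
  -- the annihilator
  let ι := Σ t : Fin β ⊕ Fin β, Fin (r t)
  let Psi : KK β × KK β → MvPolynomial (Option (ι × ι)) ℂ := fun q =>
    ∑ S : Finset (Fin β ⊕ Fin β), MvPolynomial.C (cc q S) * Psi0 (fun x : ι => x.1 ∈ S)
  have hcard : Fintype.card (Option (ι × ι)) < Fintype.card (KK β × KK β) := by
    have e1 : Fintype.card (Option (ι × ι)) = (∑ t, r t) ^ 2 + 1 := by
      rw [Fintype.card_option, Fintype.card_prod]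
      simp only [ι, Fintype.card_sigma, Fintype.card_fin]
      ring
    have e2 : Fintype.card (KK β × KK β) = 4 ^ β := by
      rw [Fintype.card_prod, Fintype.card_fun]
      simp only [Fintype.card_bool, Fintype.card_fin]
      rw [← mul_pow]
      norm_num
    rw [e1, e2]
    exact hcon
  obtain ⟨Q, hQ0, hQ⟩ := annih hcard Psi
  -- the map
  let H : (KK β × KK β → ℂ) → (KK β × KK β → ℂ) := fun w q =>
    ∑ S, cc q S * (bs β Z S + Wm w).permanent
  have hH : ContDiff ℂ 1 H := by
    rw [contDiff_pi]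
    intro q
    apply ContDiff.sum
    intro S _
    apply contDiff_const.mul
    unfold Matrix.permanent
    apply ContDiff.sum
    intro σ _
    apply contDiff_prod
    intro i _
    simp only [Matrix.add_apply]
    exact contDiff_const.add (contDiff_Wm _ _)
  have hder : ∀ j : KK β × KK β, ∀ s : ℂ, H (s • Pi.single j 1) = H 0 + s • Pi.single j 1 := by
    intro j s
    funext q
    simp only [H, Pi.add_apply, Pi.smul_apply, smul_eq_mul]
    rw [← hcc q j, Finset.mul_sum, ← Finset.sum_add_distrib]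
    apply Finset.sum_congr rfl
    intro S _
    rw [perm_line, Wm_zero, add_zero]
    ring
  apply hQ0
  apply eq_zero_of_local H hH hder Q
  -- local vanishing
  have hcont : Continuous (fun w : KK β × KK β → ℂ => (bs β Z ∅ + Wm w).permanent) := by
    unfold Matrix.permanent
    apply continuous_finsetSum
    intro σ _
    apply continuous_finsetProd
    intro i _
    simp only [Matrix.add_apply]
    exact continuous_const.add (contDiff_Wm _ _).continuous
  have hne0 : (bs β Z ∅ + Wm 0).permanent ≠ 0 := by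
    rw [Wm_zero, add_zero]
    apply perm_base_ne dd (fun V hV => sum_dd V hV)
    omega
  have hev : ∀ᶠ w in 𝓝 (0 : KK β × KK β → ℂ), (bs β Z ∅ + Wm w).permanent ≠ 0 :=
    hcont.continuousAt.eventually_ne hne0
  filter_upwards [hev] with w hw
  -- the limit
  have hlim' : ∀ X : Matrix (II β Z) (II β Z) ℂ,
      Tendsto (fun n => FF (A0 n) (A n) X) atTop (𝓝 X.permanent) := hlim
  let Hn : ℕ → (KK β × KK β → ℂ) := fun n q => ∑ S, cc q S * FF (A0 n) (A n) (bs β Z S + Wm w)
  have hlim1 : Tendsto Hn atTop (𝓝 (H w)) := by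
    rw [tendsto_pi_nhds]
    intro q
    apply tendsto_finsetSum
    intro S _
    exact (hlim' _).const_mul _
  have hlim2 : Tendsto (fun n => MvPolynomial.eval (Hn n) Q) atTop
      (𝓝 (MvPolynomial.eval (H w) Q)) :=
    ((MvPolynomial.continuous_eval Q).tendsto _).comp hlim1
  have hne : ∀ᶠ n in atTop, FF (A0 n) (A n) (bs β Z ∅ + Wm w) ≠ 0 :=
    (hlim' (bs β Z ∅ + Wm w)).eventually_ne hw
  have hzero : ∀ᶠ n in atTop, MvPolynomial.eval (Hn n) Q = 0 := by
    filter_upwards [hne] with n hn
    obtain ⟨φ, hφ⟩ := FF_eval r (A0 n) (A n) (hr n) (Wm w) hn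
    have h2 : Hn n = fun q => MvPolynomial.eval φ (Psi q) := by
      funext q
      simp only [Hn, Psi, map_sum, map_mul, MvPolynomial.eval_C]
      apply Finset.sum_congr rfl
      intro S _
      rw [hφ S]
    have h3 := congrArg (MvPolynomial.eval φ) hQ
    rw [map_zero, MvPolynomial.map_aeval] at h3
    rw [h2]
    have h4 : ((MvPolynomial.eval φ).comp
        (algebraMap ℂ (MvPolynomial (Option (ι × ι)) ℂ))) = RingHom.id ℂ := by
      ext x
      simp
    rw [h4] at h3
    exact h3
  exact tendsto_nhds_unique (hlim2.congr' hzero) tendsto_const_nhds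

end Pool.Agent.Work.MP_35c45d_lc.TR
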