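import Mathlib
import Pool.Agent.Work.MP_35c45d_lc.TRCore

set_option autoImplicit false

namespace Pool.Agent.Work.MP_35c45d_lc.TR

open Finset Equiv Matrix Filter Topology

theorem perm_submatrix {ι κ : Type*} [Fintype ι] [DecidableEq ι] [Fintype κ]
    [DecidableEq κ] (e e' : κ ≃ ι) (M : Matrix ι ι ℂ) :
    (M.submatrix e e').permanent = M.permanent := by
  unfold Matrix.permanent
  refine Fintype.sum_equiv (Equiv.equivCongr e' e) _ _ ?_
  intro σ
  refine Fintype.prod_equiv e' _ _ ?_
  intro i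
  simp

theorem exists_ext {m β : ℕ} {Z : Type} [Fintype Z] [DecidableEq Z]
    (hcard : Fintype.card (II β Z) = m) (p : Fin β ⊕ Fin β → Fin m)
    (hp : Function.Injective p) : ∃ e : II β Z ≃ Fin m, ∀ t, e (Sum.inl t) = p t := by
  classical
  by_cases hm : m = 0
  · subst hm
    exact ⟨Fintype.equivOfCardEq (by rw [hcard]; simp), fun t => (p t).elim0⟩
  have : NeZero m := ⟨hm⟩
  let f : II β Z → Fin m := Sum.elim p (fun _ => 0)
  obtain ⟨g, hg⟩ := Finset.exists_equiv_extend_of_card_eq
    (α := II β Z) (β := Fin m) (t := Finset.univ)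
    (by rw [hcard]; simp) (s := Finset.univ.image Sum.inl) (f := f) (by simp) (by
      intro x hx y hy hxy
      simp only [coe_image, coe_univ, Set.image_univ, Set.mem_range] at hx hy
      obtain ⟨t, rfl⟩ := hx
      obtain ⟨t', rfl⟩ := hy
      rw [hp hxy])
  refine ⟨g.trans (Equiv.subtypeUnivEquiv (by simp)), fun t => ?_⟩
  have := hg (Sum.inl t) (by simp)
  simpa [f] using this

theorem block {m β : ℕ} (h1 : 4 * β < m) (h2 : 2 * β + 2 ^ β ≤ m) (hβ : 1 ≤ β)
    (r : Fin m → Fin m → ℕ)
    (N : ℕ → ℕ) (A0 : ∀ n, Matrix (Fin (N n)) (Fin (N n)) ℂ)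
    (A : ∀ n, Fin m → Fin m → Matrix (Fin (N n)) (Fin (N n)) ℂ)
    (hr : ∀ n i j, (A n i j).rank ≤ r i j)
    (hlim : ∀ X : Matrix (Fin m) (Fin m) ℂ,
      Tendsto (fun n => (A0 n + ∑ i, ∑ j, X i j • A n i j).det) atTop (𝓝 X.permanent))
    (p q : Fin β ⊕ Fin β → Fin m) (hp : Function.Injective p) (hq : Function.Injective q) :
    2 ^ β ≤ ∑ t, r (p t) (q t) := by
  classical
  let Z := Fin (m - 2 * β - 2 ^ β)
  have hcard : Fintype.card (II β Z) = m := by
    simp only [II, Z, Fintype.card_sum, Fintype.card_fin, Fintype.card_fun, Fintype.card_bool]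
    omega
  obtain ⟨e, he⟩ := exists_ext (Z := Z) hcard p hp
  obtain ⟨e', he'⟩ := exists_ext (Z := Z) hcard q hq
  have hN : 2 * β < Fintype.card ((Fin β → Bool) ⊕ Z) := by
    simp only [Z, Fintype.card_sum, Fintype.card_fin, Fintype.card_fun, Fintype.card_bool]
    omega
  have key := core (Z := Z) hN (fun t => r (p t) (q t)) N A0 (fun n i j => A n (e i) (e' j))
    (fun n t => by rw [he, he']; exact hr n _ _) (fun X => by
      have h3 := hlim (X.submatrix e.symm e'.symm)
      rw [perm_submatrix] at h3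
      have h4 : ∀ n, A0 n + ∑ i, ∑ j, X.submatrix e.symm e'.symm i j • A n i j =
          A0 n + ∑ i, ∑ j, X i j • A n (e i) (e' j) := by
        intro n
        congr 1
        rw [← Equiv.sum_comp e]
        apply Finset.sum_congr rfl
        intro i _
        rw [← Equiv.sum_comp e']
        apply Finset.sum_congr rfl
        intro j _
        simp
      simp_rw [h4] at h3
      exact h3)
  by_contra hcon
  push Not at hcon
  set R := ∑ t, r (p t) (q t) with hR
  have h5 : 2 ≤ 2 ^ β := by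
    calc 2 = 2 ^ 1 := rfl
      _ ≤ 2 ^ β := Nat.pow_le_pow_right (by norm_num) hβ
  have h6 : (4 : ℕ) ^ β = 2 ^ β * 2 ^ β := by
    rw [← mul_pow]; norm_num
  rw [h6] at key
  nlinarith [key, hcon, h5]

/-- every rank bound is positive -/
theorem r_pos {m : ℕ} (r : Fin m → Fin m → ℕ)
    (N : ℕ → ℕ) (A0 : ∀ n, Matrix (Fin (N n)) (Fin (N n)) ℂ)
    (A : ∀ n, Fin m → Fin m → Matrix (Fin (N n)) (Fin (N n)) ℂ)
    (hr : ∀ n i j, (A n i j).rank ≤ r i j)
    (hlim : ∀ X : Matrix (Fin m) (Fin m) ℂ,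
      Tendsto (fun n => (A0 n + ∑ i, ∑ j, X i j • A n i j).det) atTop (𝓝 X.permanent))
    (i j : Fin m) : 1 ≤ r i j := by
  by_contra hcon
  have h0 : r i j = 0 := by omega
  have hA : ∀ n, A n i j = 0 := by
    intro n
    have := hr n i j
    rw [h0] at this
    obtain ⟨U, V, hUV⟩ := rank_factor _ 0 this
    rw [hUV]
    ext a b
    rw [Matrix.mul_apply]
    simp
  let X1 : Matrix (Fin m) (Fin m) ℂ := Matrix.of fun a b => if a = swap i j b then 1 else 0
  let X2 : Matrix (Fin m) (Fin m) ℂ := Matrix.of fun a b => if b = j then 0 else X1 a b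
  have hp1 : X1.permanent = 1 := by
    unfold Matrix.permanent
    rw [Finset.sum_eq_single (swap i j)]
    · apply Finset.prod_eq_one
      intro b _
      simp [X1]
    · intro τ _ hτ
      have : ∃ b, τ b ≠ swap i j b := by
        by_contra hne
        push Not at hne
        exact hτ (Equiv.ext hne)
      obtain ⟨b, hb⟩ := this
      apply Finset.prod_eq_zero (Finset.mem_univ b)
      simp only [X1, Matrix.of_apply]
      rw [if_neg hb]
    · intro h; exact absurd (Finset.mem_univ _) h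
  have hp2 : X2.permanent = 0 := by
    unfold Matrix.permanent
    apply Finset.sum_eq_zero
    intro τ _
    apply Finset.prod_eq_zero (Finset.mem_univ j)
    simp [X2]
  have heq : ∀ n, A0 n + ∑ a, ∑ b, X1 a b • A n a b = A0 n + ∑ a, ∑ b, X2 a b • A n a b := by
    intro n
    congr 1
    apply Finset.sum_congr rfl
    intro a _
    apply Finset.sum_congr rfl
    intro b _
    by_cases hb : b = j
    · subst hb
      by_cases ha : a = i
      · subst ha
        rw [hA n]; simp
      · simp [X1, X2, ha]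
    · simp [X2, hb]
  have l1 := hlim X1
  have l2 := hlim X2
  simp_rw [heq] at l1
  have := tendsto_nhds_unique l1 l2
  rw [hp1, hp2] at this
  exact one_ne_zero this

theorem two_mul_le_pow {b : ℕ} (hb : 3 ≤ b) : 2 * b + 2 ≤ 2 ^ b := by
  induction b, hb using Nat.le_induction with
  | base => norm_num
  | succ n hn ih =>
    rw [pow_succ]
    omega

theorem total {m : ℕ} (hm : 2 ≤ m) (r : Fin m → Fin m → ℕ)
    (N : ℕ → ℕ) (A0 : ∀ n, Matrix (Fin (N n)) (Fin (N n)) ℂ)
    (A : ∀ n, Fin m → Fin m → Matrix (Fin (N n)) (Fin (N n)) ℂ)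
    (hr : ∀ n i j, (A n i j).rank ≤ r i j)
    (hlim : ∀ X : Matrix (Fin m) (Fin m) ℂ,
      Tendsto (fun n => (A0 n + ∑ i, ∑ j, X i j • A n i j).det) atTop (𝓝 X.permanent)) :
    m ^ 3 ≤ 16 * Nat.log 2 m * ∑ i, ∑ j, r i j := by
  have : NeZero m := ⟨by omega⟩
  set L := Nat.log 2 m with hL
  have hL1 : 1 ≤ L := Nat.log_pos (by norm_num) hm
  by_cases hsmall : m < 16
  · -- trivial bound
    have h1 : m * m ≤ ∑ i : Fin m, ∑ j : Fin m, r i j := by
      calc m * m = ∑ i : Fin m, ∑ j : Fin m, 1 := by simp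
        _ ≤ _ := Finset.sum_le_sum (fun i _ => Finset.sum_le_sum
          (fun j _ => r_pos r N A0 A hr hlim i j))
    calc m ^ 3 = m * (m * m) := by ring
      _ ≤ (16 * L) * (m * m) := Nat.mul_le_mul_right _ (by omega)
      _ ≤ _ := Nat.mul_le_mul_left _ h1
  · push Not at hsmall
    have hL4 : 4 ≤ L := by
      rw [hL]
      calc 4 = Nat.log 2 16 := by
            rw [show (16 : ℕ) = 2 ^ 4 from rfl, Nat.log_pow (by norm_num)]
        _ ≤ Nat.log 2 m := Nat.log_mono_right hsmall
    have hpow1 : 2 ^ L ≤ m := Nat.pow_log_le_self 2 (by omega)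
    have hpow2 : m < 2 ^ (L + 1) := Nat.lt_pow_succ_log_self (by norm_num) m
    obtain ⟨β, hβ⟩ : ∃ β, L = β + 1 := ⟨L - 1, by omega⟩
    rw [hβ] at hpow1 hpow2
    have hβ3 : 3 ≤ β := by omega
    have hb : 2 * β + 2 ≤ 2 ^ β := two_mul_le_pow hβ3
    have hp1 : (2 : ℕ) ^ (β + 1) = 2 * 2 ^ β := by ring
    have hp2 : (2 : ℕ) ^ (β + 1 + 1) = 4 * 2 ^ β := by ring
    rw [hp1] at hpow1
    rw [hp2] at hpow2
    have h1 : 4 * β < m := by omega
    have h2 : 2 * β + 2 ^ β ≤ m := by omega
    set K := m / (β + β) with hK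
    have hKm : K * (β + β) ≤ m := Nat.div_mul_le_self _ _
    let φ : Fin K × (Fin β ⊕ Fin β) → Fin m := fun x =>
      Fin.castLE hKm (finProdFinEquiv (x.1, finSumFinEquiv x.2))
    have hφ : Function.Injective φ := by
      intro x y hxy
      have h3 := finProdFinEquiv.injective (Fin.castLE_injective hKm hxy)
      rw [Prod.mk.injEq] at h3
      exact Prod.ext h3.1 (finSumFinEquiv.injective h3.2)
    have hs : ∀ s : Fin m, K * 2 ^ β ≤ ∑ i, r i (i + s) := by
      intro s
      calc K * 2 ^ β = ∑ c : Fin K, 2 ^ β := by simp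
        _ ≤ ∑ c : Fin K, ∑ t, r (φ (c, t)) (φ (c, t) + s) := by
            apply Finset.sum_le_sum
            intro c _
            apply block h1 h2 (by omega) r N A0 A hr hlim (fun t => φ (c, t))
              (fun t => φ (c, t) + s)
            · intro t t' h
              have := hφ h
              simpa using this
            · intro t t' h
              have := hφ (add_right_cancel h)
              simpa using this
        _ = ∑ x : Fin K × (Fin β ⊕ Fin β), r (φ x) (φ x + s) := by
            rw [Fintype.sum_prod_type]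
        _ = ∑ i ∈ Finset.univ.image φ, r i (i + s) := by
            rw [Finset.sum_image (fun x _ y _ h => hφ h)]
        _ ≤ ∑ i, r i (i + s) := Finset.sum_le_sum_of_subset (Finset.subset_univ _)
    have htot : m * (K * 2 ^ β) ≤ ∑ i, ∑ j, r i j := by
      calc m * (K * 2 ^ β) = ∑ s : Fin m, K * 2 ^ β := by simp
        _ ≤ ∑ s : Fin m, ∑ i, r i (i + s) := Finset.sum_le_sum (fun s _ => hs s)
        _ = ∑ i, ∑ s : Fin m, r i (i + s) := Finset.sum_comm
        _ = ∑ i, ∑ j, r i j := by
            apply Finset.sum_congr rfl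
            intro i _
            exact Equiv.sum_comp (Equiv.addLeft i) (fun j => r i j)
    have hK1 : 1 ≤ K := by
      rw [hK]
      exact (Nat.one_le_div_iff (by omega)).mpr (by omega)
    have hlt : m < (β + β) * (K + 1) := by
      rw [hK]
      exact Nat.lt_mul_div_succ m (by omega)
    have hle1 : m ≤ 4 * β * K := by nlinarith
    have hle2 : m ≤ 4 * 2 ^ β := hpow2.le
    calc m ^ 3 = m * (m * m) := by ring
      _ ≤ m * ((4 * β * K) * (4 * 2 ^ β)) := Nat.mul_le_mul_left _ (Nat.mul_le_mul hle1 hle2)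
      _ = (16 * β) * (m * (K * 2 ^ β)) := by ring
      _ ≤ (16 * β) * ∑ i, ∑ j, r i j := Nat.mul_le_mul_left _ htot
      _ ≤ 16 * L * ∑ i, ∑ j, r i j := Nat.mul_le_mul_right _ (by omega)

end Pool.Agent.Work.MP_35c45d_lc.TR
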