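import Mathlib
import Pool.Agent.Work.MP_35c45d_lc.TRBlock
import Pool.Agent.Work.MP_35c45d_lc.SQBorder
import Pool.Agent.Work.MP_35c45d_lc.SQPersist

/-! The Walsh base points in the space of matrices; the derivatives of the permanent at these
points are linearly independent (from `TR.LL_indep`). -/

set_option autoImplicit false

namespace Pool.Agent.Work.MP_35c45d_lc.FQ

open MvPolynomial Filter Topology TR

/-- base point of the block -/
def xS {m β : ℕ} {Z : Type} (e e' : II β Z ≃ Fin m) (S : Finset (Fin β ⊕ Fin β)) :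
    Fin m × Fin m → ℂ :=
  fun ij => bs β Z S (e.symm ij.1) (e'.symm ij.2)

/-- the vector of derivatives at the base points -/
noncomputable def ww {m β : ℕ} {Z : Type} (e e' : II β Z ≃ Fin m)
    (f : MvPolynomial (Fin m × Fin m) ℂ) (q : KK β × KK β) (S : Finset (Fin β ⊕ Fin β)) : ℂ :=
  eval (xS e e' S) (pderiv (e (Sum.inr (Sum.inl q.1)), e' (Sum.inr (Sum.inl q.2))) f)

section

variable {m β : ℕ} {Z : Type} (e e' : II β Z ≃ Fin m)

/-- the block of special positions -/
def blk : Finset (Fin m × Fin m) :=
  Finset.univ.image (fun t : Fin β ⊕ Fin β => (e (Sum.inl t), e' (Sum.inl t)))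

theorem xS_agree (S : Finset (Fin β ⊕ Fin β)) (i : Fin m × Fin m) (hi : i ∉ blk e e') :
    xS e e' ∅ i = xS e e' S i := by
  obtain ⟨a, b⟩ := i
  obtain ⟨a, rfl⟩ := e.surjective a
  obtain ⟨b, rfl⟩ := e'.surjective b
  simp only [xS, Equiv.symm_apply_apply]
  rcases a with t | p
  · rcases b with t' | c
    · have hne : t ≠ t' := by
        rintro rfl
        apply hi
        exact Finset.mem_image.mpr ⟨t, Finset.mem_univ _, rfl⟩
      simp [bs, base, hne]
    · rfl
  · rcases b with t' | c <;> rfl

end

section

variable {m β : ℕ} {Z : Type} [Fintype Z] [DecidableEq Z] (e e' : II β Z ≃ Fin m)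

omit [Fintype Z] [DecidableEq Z] in
theorem eval_perm (x : Fin m × Fin m → ℂ) :
    eval x (SQ.permPoly m) = (Matrix.of fun i j => x (i, j)).permanent := by
  simp [SQ.permPoly, Matrix.permanent, map_sum, map_prod]

theorem ww_perm (q : KK β × KK β) (S : Finset (Fin β ⊕ Fin β)) :
    ww e e' (SQ.permPoly m) q S = ls β Z S q := by
  classical
  set i0 : Fin m × Fin m := (e (Sum.inr (Sum.inl q.1)), e' (Sum.inr (Sum.inl q.2))) with hi0
  set v : Fin m × Fin m → ℂ := Pi.single i0 1 with hv
  set x := xS e e' S with hx
  have h1 : HasDerivAt (fun s : ℂ => x + s • v) v 0 := by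
    simpa using ((hasDerivAt_id (0 : ℂ)).smul_const v).const_add x
  have h2 : HasDerivAt (fun s : ℂ => eval (x + s • v) (SQ.permPoly m))
      (SQ.Persist.dlin (SQ.permPoly m) x v) 0 := by
    have h3 := SQ.Persist.hasFDerivAt_eval (SQ.permPoly m) (x + (0 : ℂ) • v)
    have h4 := h3.comp_hasDerivAt (0 : ℂ) h1
    rw [zero_smul, add_zero] at h4
    exact h4
  have h5 : ∀ s : ℂ, eval (x + s • v) (SQ.permPoly m) = (bs β Z S).permanent + s * ls β Z S q := by
    intro s
    rw [eval_perm, ← perm_line S q s, ← perm_submatrix e.symm e'.symm]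
    congr 1
    ext a b
    obtain ⟨a, rfl⟩ := e.surjective a
    obtain ⟨b, rfl⟩ := e'.surjective b
    simp only [Matrix.of_apply, Matrix.submatrix_apply, Equiv.symm_apply_apply, Pi.add_apply,
      Pi.smul_apply, Matrix.add_apply, smul_eq_mul, hx, xS]
    congr 1
    rw [hv, hi0]
    rcases a with t | (p | z)
    · have : (e (Sum.inl t), e' b) ≠ (e (Sum.inr (Sum.inl q.1)), e' (Sum.inr (Sum.inl q.2))) := by
        intro h
        have := e.injective (congrArg Prod.fst h)
        simp at this
      rw [Pi.single_eq_of_ne this]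
      rcases b with t' | (c | z') <;> simp [Wm]
    · rcases b with t' | (c | z')
      · have : (e (Sum.inr (Sum.inl p)), e' (Sum.inl t')) ≠
            (e (Sum.inr (Sum.inl q.1)), e' (Sum.inr (Sum.inl q.2))) := by
          intro h
          have := e'.injective (congrArg Prod.snd h)
          simp at this
        rw [Pi.single_eq_of_ne this]
        simp [Wm]
      · by_cases hpc : (p, c) = q
        · subst hpc
          simp [Wm]
        · have : (e (Sum.inr (Sum.inl p)), e' (Sum.inr (Sum.inl c))) ≠
              (e (Sum.inr (Sum.inl q.1)), e' (Sum.inr (Sum.inl q.2))) := by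
            intro h
            apply hpc
            have h1 := e.injective (congrArg Prod.fst h)
            have h2 := e'.injective (congrArg Prod.snd h)
            simp only [Sum.inr.injEq, Sum.inl.injEq] at h1 h2
            exact Prod.ext h1 h2
          rw [Pi.single_eq_of_ne this]
          simp [Wm, Pi.single_eq_of_ne hpc]
      · have : (e (Sum.inr (Sum.inl p)), e' (Sum.inr (Sum.inr z'))) ≠
            (e (Sum.inr (Sum.inl q.1)), e' (Sum.inr (Sum.inl q.2))) := by
          intro h
          have := e'.injective (congrArg Prod.snd h)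
          simp at this
        rw [Pi.single_eq_of_ne this]
        simp [Wm]
    · have : (e (Sum.inr (Sum.inr z)), e' b) ≠
          (e (Sum.inr (Sum.inl q.1)), e' (Sum.inr (Sum.inl q.2))) := by
        intro h
        have := e.injective (congrArg Prod.fst h)
        simp at this
      rw [Pi.single_eq_of_ne this]
      rcases b with t' | (c | z') <;> simp [Wm]
  have h6 : HasDerivAt (fun s : ℂ => (bs β Z S).permanent + s * ls β Z S q) (ls β Z S q) 0 := by
    simpa using ((hasDerivAt_id (0 : ℂ)).mul_const (ls β Z S q)).const_add ((bs β Z S).permanent)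
  have h7 : (fun s : ℂ => eval (x + s • v) (SQ.permPoly m)) =
      fun s : ℂ => (bs β Z S).permanent + s * ls β Z S q := funext h5
  rw [h7] at h2
  have h8 := h2.unique h6
  rw [SQ.Persist.dlin_apply] at h8
  rw [← h8]
  rw [Finset.sum_eq_single i0]
  · simp [hv, ww, hx, hi0]
  · intro j _ hj
    rw [hv, Pi.single_eq_of_ne hj, mul_zero]
  · intro h
    exact absurd (Finset.mem_univ _) h

theorem indep_perm (hN : 2 * β < Fintype.card ((Fin β → Bool) ⊕ Z)) :
    LinearIndependent ℂ (ww e e' (SQ.permPoly m)) := by
  rw [Fintype.linearIndependent_iff]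
  intro c hc
  have h1 : c = 0 := by
    apply LL_indep (Z := Z) hN c
    intro S
    have h2 := congrFun hc S
    simp only [Finset.sum_apply, Pi.smul_apply, smul_eq_mul, Pi.zero_apply] at h2
    rw [← h2]
    apply Finset.sum_congr rfl
    intro q _
    rw [ww_perm]
  intro q
  rw [h1]; rfl

/-- derivative evaluation as a linear functional -/
noncomputable def dL (x : Fin m × Fin m → ℂ) (i : Fin m × Fin m) :
    MvPolynomial (Fin m × Fin m) ℂ →ₗ[ℂ] ℂ :=
  (MvPolynomial.aeval x).toLinearMap ∘ₗ (pderiv i).toLinearMap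

omit [Fintype Z] [DecidableEq Z] in
theorem dL_apply (x : Fin m × Fin m → ℂ) (i : Fin m × Fin m)
    (f : MvPolynomial (Fin m × Fin m) ℂ) : dL x i f = eval x (pderiv i f) := by
  simp [dL]

end

end Pool.Agent.Work.MP_35c45d_lc.FQ
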