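import Mathlib
import Pool.Agent.Work.MP_35c45d_lc.FQBase
import Pool.Agent.Work.MP_35c45d_lc.SQPersist

/-! Formulas with divisions: numerator and denominator, values and derivatives at good points. -/

set_option autoImplicit false

namespace Pool.Agent.Work.MP_35c45d_lc.FQ

open MvPolynomial Filter Topology

variable {σ : Type}

/-- numerator and denominator -/
noncomputable def nd : Formula σ → MvPolynomial σ ℂ × MvPolynomial σ ℂ
  | .var i => (X i, 1)
  | .const c => (C c, 1)
  | .add a b => ((nd a).1 * (nd b).2 + (nd b).1 * (nd a).2, (nd a).2 * (nd b).2)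
  | .mul a b => ((nd a).1 * (nd b).1, (nd a).2 * (nd b).2)
  | .div a b => ((nd a).1 * (nd b).2, (nd a).2 * (nd b).1)

/-- the product of the numerators of all divisors -/
noncomputable def good : Formula σ → MvPolynomial σ ℂ
  | .var _ => 1
  | .const _ => 1
  | .add a b => good a * good b
  | .mul a b => good a * good b
  | .div a b => good a * good b * (nd b).1

theorem nd_spec (φ : Formula σ) (h : φ.Valid) :
    (nd φ).2 ≠ 0 ∧ good φ ≠ 0 ∧
    φ.value = algebraMap (MvPolynomial σ ℂ) (FractionRing (MvPolynomial σ ℂ)) (nd φ).1 /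
      algebraMap (MvPolynomial σ ℂ) (FractionRing (MvPolynomial σ ℂ)) (nd φ).2 := by
  have hinj := IsFractionRing.injective (MvPolynomial σ ℂ) (FractionRing (MvPolynomial σ ℂ))
  have hne : ∀ p : MvPolynomial σ ℂ, p ≠ 0 →
      algebraMap (MvPolynomial σ ℂ) (FractionRing (MvPolynomial σ ℂ)) p ≠ 0 := by
    intro p hp h0
    exact hp (hinj (by rw [h0, map_zero]))
  induction φ with
  | var i => simp [nd, good, Formula.value]
  | const c => simp [nd, good, Formula.value]
  | add a b iha ihb =>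
    obtain ⟨ha1, ha2, ha3⟩ := iha h.1
    obtain ⟨hb1, hb2, hb3⟩ := ihb h.2
    refine ⟨mul_ne_zero ha1 hb1, mul_ne_zero ha2 hb2, ?_⟩
    simp only [nd, Formula.value, ha3, hb3, map_add, map_mul]
    have := hne _ ha1
    have := hne _ hb1
    field_simp
  | mul a b iha ihb =>
    obtain ⟨ha1, ha2, ha3⟩ := iha h.1
    obtain ⟨hb1, hb2, hb3⟩ := ihb h.2
    refine ⟨mul_ne_zero ha1 hb1, mul_ne_zero ha2 hb2, ?_⟩
    simp only [nd, Formula.value, ha3, hb3, map_mul]
    rw [div_mul_div_comm]
  | div a b iha ihb =>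
    obtain ⟨ha1, ha2, ha3⟩ := iha h.1
    obtain ⟨hb1, hb2, hb3⟩ := ihb h.2.1
    have hb4 : (nd b).1 ≠ 0 := by
      intro h0
      apply h.2.2
      rw [hb3, h0, map_zero, zero_div]
    refine ⟨mul_ne_zero ha1 hb4, mul_ne_zero (mul_ne_zero ha2 hb2) hb4, ?_⟩
    simp only [nd, Formula.value, ha3, hb3, map_mul]
    rw [div_div_div_eq]

theorem nd_degree (φ : Formula σ) :
    (nd φ).1.totalDegree ≤ φ.varLeaves ∧ (nd φ).2.totalDegree ≤ φ.varLeaves := by
  induction φ with
  | var i =>
    simp only [nd, Formula.varLeaves]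
    exact ⟨(totalDegree_X i).le, by simp⟩
  | const c => simp [nd, Formula.varLeaves]
  | add a b iha ihb =>
    simp only [nd, Formula.varLeaves]
    refine ⟨(totalDegree_add _ _).trans (max_le ?_ ?_), ?_⟩
    · exact (totalDegree_mul _ _).trans (by omega)
    · exact (totalDegree_mul _ _).trans (by omega)
    · exact (totalDegree_mul _ _).trans (by omega)
  | mul a b iha ihb =>
    simp only [nd, Formula.varLeaves]
    refine ⟨?_, ?_⟩
    · exact (totalDegree_mul _ _).trans (by omega)
    · exact (totalDegree_mul _ _).trans (by omega)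
  | div a b iha ihb =>
    simp only [nd, Formula.varLeaves]
    refine ⟨?_, ?_⟩
    · exact (totalDegree_mul _ _).trans (by omega)
    · exact (totalDegree_mul _ _).trans (by omega)

theorem computes_mul {φ : Formula σ} {f : MvPolynomial σ ℂ} (h : φ.Computes f) :
    f * (nd φ).2 = (nd φ).1 := by
  obtain ⟨h1, _, h3⟩ := nd_spec φ h.1
  have hinj := IsFractionRing.injective (MvPolynomial σ ℂ) (FractionRing (MvPolynomial σ ℂ))
  have hne : algebraMap (MvPolynomial σ ℂ) (FractionRing (MvPolynomial σ ℂ)) (nd φ).2 ≠ 0 := by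
    intro h0
    exact h1 (hinj (by rw [h0, map_zero]))
  apply hinj
  rw [map_mul]
  rw [h.2, eq_div_iff hne] at h3
  exact h3

theorem computes_degree {φ : Formula σ} {f : MvPolynomial σ ℂ} (h : φ.Computes f) :
    f.totalDegree ≤ φ.varLeaves := by
  by_cases hf : f = 0
  · rw [hf]; simp
  · have h1 := computes_mul h
    have h2 := (nd_spec φ h.1).1
    have h3 := totalDegree_mul_of_isDomain hf h2
    rw [h1] at h3
    have := (nd_degree φ).1
    omega

theorem at_point (x : σ → ℂ) (φ : Formula σ) (h : eval x (good φ) ≠ 0) :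
    Ok x φ ∧ eval x (nd φ).2 ≠ 0 ∧ val x φ * eval x (nd φ).2 = eval x (nd φ).1 := by
  induction φ with
  | var i => simp [Ok, nd, val]
  | const c => simp [Ok, nd, val]
  | add a b iha ihb =>
    simp only [good, map_mul, mul_ne_zero_iff] at h
    obtain ⟨ha1, ha2, ha3⟩ := iha h.1
    obtain ⟨hb1, hb2, hb3⟩ := ihb h.2
    refine ⟨⟨ha1, hb1⟩, ?_, ?_⟩
    · simp only [nd, map_mul]
      exact mul_ne_zero ha2 hb2
    · simp only [nd, val, map_mul, map_add, ← ha3, ← hb3]
      ring
  | mul a b iha ihb =>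
    simp only [good, map_mul, mul_ne_zero_iff] at h
    obtain ⟨ha1, ha2, ha3⟩ := iha h.1
    obtain ⟨hb1, hb2, hb3⟩ := ihb h.2
    refine ⟨⟨ha1, hb1⟩, ?_, ?_⟩
    · simp only [nd, map_mul]
      exact mul_ne_zero ha2 hb2
    · simp only [nd, val, map_mul, ← ha3, ← hb3]
      ring
  | div a b iha ihb =>
    simp only [good, map_mul, mul_ne_zero_iff] at h
    obtain ⟨ha1, ha2, ha3⟩ := iha h.1.1
    obtain ⟨hb1, hb2, hb3⟩ := ihb h.1.2
    have hb4 : val x b ≠ 0 := by
      intro h0
      rw [h0, zero_mul] at hb3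
      exact h.2 hb3.symm
    refine ⟨⟨ha1, hb1, hb4⟩, ?_, ?_⟩
    · simp only [nd, map_mul]
      exact mul_ne_zero ha2 h.2
    · simp only [nd, val, map_mul, ← ha3, ← hb3]
      field_simp

theorem hasDeriv [DecidableEq σ] (x : σ → ℂ) (i : σ) (φ : Formula σ) (h : Ok x φ) :
    HasDerivAt (fun t : ℂ => val (x + t • Pi.single i 1) φ) (dval x i φ) 0 := by
  have hx0 : x + (0 : ℂ) • (Pi.single i 1 : σ → ℂ) = x := by simp
  induction φ with
  | var j =>
    have h1 : (fun t : ℂ => val (x + t • Pi.single i 1) (Formula.var j)) =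
        fun t : ℂ => x j + t * (if j = i then 1 else 0) := by
      funext t
      simp [val, Pi.single_apply]
    rw [h1]
    simpa [dval] using ((hasDerivAt_id (0 : ℂ)).mul_const (if j = i then (1 : ℂ) else 0)).const_add
      (x j)
  | const c =>
    simp only [val, dval]
    exact hasDerivAt_const _ _
  | add a b iha ihb =>
    simp only [val, dval]
    exact (iha h.1).add (ihb h.2)
  | mul a b iha ihb =>
    simp only [val, dval]
    have := (iha h.1).mul (ihb h.2)
    rw [hx0] at this
    exact this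
  | div a b iha ihb =>
    simp only [val, dval]
    have := (iha h.1).div (ihb h.2.1) (by rw [hx0]; exact h.2.2)
    rw [hx0] at this
    exact this

theorem dval_eq [DecidableEq σ] [Fintype σ] {φ : Formula σ} {f : MvPolynomial σ ℂ}
    (h : φ.Computes f) (x : σ → ℂ) (hx : eval x (good φ) ≠ 0) (i : σ) :
    dval x i φ = eval x (pderiv i f) := by
  have h1 := hasDeriv x i φ (at_point x φ hx).1
  have hl : HasDerivAt (fun t : ℂ => x + t • (Pi.single i 1 : σ → ℂ)) (Pi.single i 1) 0 := by
    simpa using ((hasDerivAt_id (0 : ℂ)).smul_const (Pi.single i 1 : σ → ℂ)).const_add x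
  have hx0 : x + (0 : ℂ) • (Pi.single i 1 : σ → ℂ) = x := by simp
  have h2 : HasDerivAt (fun t : ℂ => eval (x + t • (Pi.single i 1 : σ → ℂ)) f)
      (SQ.Persist.dlin f x (Pi.single i 1)) 0 := by
    have h3 := SQ.Persist.hasFDerivAt_eval f (x + (0 : ℂ) • (Pi.single i 1 : σ → ℂ))
    have h4 := h3.comp_hasDerivAt (0 : ℂ) hl
    rw [hx0] at h4
    exact h4
  have hcont : ContinuousAt (fun t : ℂ => eval (x + t • (Pi.single i 1 : σ → ℂ)) (good φ)) 0 := by
    have h3 := SQ.Persist.hasFDerivAt_eval (good φ) (x + (0 : ℂ) • (Pi.single i 1 : σ → ℂ))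
    exact (h3.comp_hasDerivAt (0 : ℂ) hl).continuousAt
  have hev : ∀ᶠ t in 𝓝 (0 : ℂ), eval (x + t • (Pi.single i 1 : σ → ℂ)) (good φ) ≠ 0 := by
    apply hcont.eventually_ne
    rw [hx0]
    exact hx
  have heq : (fun t : ℂ => val (x + t • Pi.single i 1) φ) =ᶠ[𝓝 0]
      fun t : ℂ => eval (x + t • (Pi.single i 1 : σ → ℂ)) f := by
    filter_upwards [hev] with t ht
    obtain ⟨_, h5, h6⟩ := at_point _ φ ht
    rw [← computes_mul h, map_mul] at h6
    exact mul_right_cancel₀ h5 h6
  have h7 := (h1.congr_of_eventuallyEq heq.symm).unique h2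
  rw [h7, SQ.Persist.dlin_apply, Finset.sum_eq_single i]
  · simp
  · intro j _ hj
    rw [Pi.single_eq_of_ne hj, mul_zero]
  · intro h
    exact absurd (Finset.mem_univ _) h

end Pool.Agent.Work.MP_35c45d_lc.FQ
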