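import Mathlib
import Pool.Agent.Work.MP_35c45d_lc.FQPts
import Pool.Agent.Work.MP_35c45d_lc.FQVal

/-! The formula size lower bound for (limits of) the permanent. -/

set_option autoImplicit false

namespace Pool.Agent.Work.MP_35c45d_lc.FQ

open MvPolynomial Filter Topology TR

section

variable {m β : ℕ} {Z : Type} (e e' : II β Z ≃ Fin m)

theorem card_KK : Fintype.card (KK β × KK β) = 4 ^ β := by
  simp only [Fintype.card_prod, Fintype.card_fun, Fintype.card_fin, Fintype.card_bool]
  rw [← mul_pow]; norm_num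

/-- shifted derivative vectors -/
noncomputable def wu (f : MvPolynomial (Fin m × Fin m) ℂ) (u : Fin m × Fin m → ℂ)
    (q : KK β × KK β) (S : Finset (Fin β ⊕ Fin β)) : ℂ :=
  eval (xS e e' S + u) (pderiv (e (Sum.inr (Sum.inl q.1)), e' (Sum.inr (Sum.inl q.2))) f)

theorem good_point (f : MvPolynomial (Fin m × Fin m) ℂ) (g : MvPolynomial (Fin m × Fin m) ℂ)
    (hg : g ≠ 0) (hind : LinearIndependent ℂ (ww e e' f)) :
    ∃ u : Fin m × Fin m → ℂ, LinearIndependent ℂ (wu e e' f u) ∧
      ∀ S, eval (xS e e' S + u) g ≠ 0 := by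
  classical
  have hc : ContinuousAt (fun u => wu e e' f u) 0 := by
    apply continuousAt_pi.mpr
    intro q
    apply continuousAt_pi.mpr
    intro S
    have h1 : Continuous (fun y : Fin m × Fin m → ℂ =>
        eval y (pderiv (e (Sum.inr (Sum.inl q.1)), e' (Sum.inr (Sum.inl q.2))) f)) :=
      (SQ.Persist.contDiff_eval _).continuous
    exact (h1.comp (continuous_const.add continuous_id)).continuousAt
  have hw0 : wu e e' f 0 = ww e e' f := by
    funext q S
    simp [wu, ww]
  have ho : IsOpen {f : KK β × KK β → (Finset (Fin β ⊕ Fin β) → ℂ) | LinearIndependent ℂ f} :=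
    isOpen_setOfPred_linearIndependent
  have h1 : ∀ᶠ u in 𝓝 (0 : Fin m × Fin m → ℂ), LinearIndependent ℂ (wu e e' f u) := by
    apply hc.eventually (ho.mem_nhds _)
    change LinearIndependent ℂ (wu e e' f 0)
    rw [hw0]
    exact hind
  let Q : MvPolynomial (Fin m × Fin m) ℂ :=
    ∏ S : Finset (Fin β ⊕ Fin β), aeval (fun i => X i + C (xS e e' S i)) g
  have hQe : ∀ u, eval u Q = ∏ S : Finset (Fin β ⊕ Fin β), eval (xS e e' S + u) g := by
    intro u
    simp only [Q, map_prod]
    apply Finset.prod_congr rfl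
    intro S _
    have h3 : ((eval u).comp (aeval (fun i => X i + C (xS e e' S i)) :
        MvPolynomial (Fin m × Fin m) ℂ →ₐ[ℂ] MvPolynomial (Fin m × Fin m) ℂ).toRingHom) =
        eval (xS e e' S + u) := by
      apply MvPolynomial.ringHom_ext
      · intro c
        simp
      · intro i
        simp [add_comm]
    exact congrArg (fun h : MvPolynomial (Fin m × Fin m) ℂ →+* ℂ => h g) h3
  have hQ : Q ≠ 0 := by
    rw [Finset.prod_ne_zero_iff]
    intro S _ h0
    apply hg
    apply MvPolynomial.funext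
    intro y
    rw [map_zero]
    have h4 : ((eval (y - xS e e' S)).comp (aeval (fun i => X i + C (xS e e' S i)) :
        MvPolynomial (Fin m × Fin m) ℂ →ₐ[ℂ] MvPolynomial (Fin m × Fin m) ℂ).toRingHom) =
        eval y := by
      apply MvPolynomial.ringHom_ext
      · intro c
        simp
      · intro i
        simp
    have h5 := congrArg (fun h : MvPolynomial (Fin m × Fin m) ℂ →+* ℂ => h g) h4
    simp only [RingHom.comp_apply] at h5
    rw [← h5]
    have : (aeval (fun i => X i + C (xS e e' S i)) :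
        MvPolynomial (Fin m × Fin m) ℂ →ₐ[ℂ] MvPolynomial (Fin m × Fin m) ℂ).toRingHom g = 0 := h0
    rw [this, map_zero]
  have h2 : ∃ᶠ u in 𝓝 (0 : Fin m × Fin m → ℂ), eval u Q ≠ 0 := by
    intro hcon
    apply hQ
    apply eq_zero_of_nhds Q 0
    filter_upwards [hcon] with u hu
    simpa using hu
  obtain ⟨u, hu1, hu2⟩ := (h2.and_eventually h1).exists
  refine ⟨u, hu2, fun S => ?_⟩
  rw [hQe, Finset.prod_ne_zero_iff] at hu1
  exact hu1 S (Finset.mem_univ _)

theorem block_bound (hβ : 1 ≤ β) (φ : Formula (Fin m × Fin m))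
    (f : MvPolynomial (Fin m × Fin m) ℂ) (hf : φ.Computes f)
    (hind : LinearIndependent ℂ (ww e e' f)) :
    4 ^ β ≤ 4 * ∑ t, occ (e (Sum.inl t), e' (Sum.inl t)) φ := by
  classical
  obtain ⟨u, hu1, hu2⟩ := good_point e e' f (good φ) (nd_spec φ hf.1).2.1 hind
  have hB : ∑ t, occ (e (Sum.inl t), e' (Sum.inl t)) φ = occB (blk e e') φ := by
    rw [occB_eq_sum, blk, Finset.sum_image]
    intro x _ y _ hxy
    simpa using congrArg Prod.fst hxy
  rw [hB]
  have hnot : ∀ q : KK β × KK β,
      (e (Sum.inr (Sum.inl q.1)), e' (Sum.inr (Sum.inl q.2))) ∉ blk e e' := by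
    intro q hq
    simp [blk] at hq
  have hagree : ∀ i, i ∉ blk e e' → ∀ S S' : Finset (Fin β ⊕ Fin β),
      (xS e e' S + u) i = (xS e e' S' + u) i := by
    intro i hi S S'
    simp only [Pi.add_apply]
    rw [← xS_agree e e' S i hi, ← xS_agree e e' S' i hi]
  have hw : ∀ q, wu e e' f u q = fun S => dval (xS e e' S + u)
      (e (Sum.inr (Sum.inl q.1)), e' (Sum.inr (Sum.inl q.2))) φ := by
    intro q
    funext S
    rw [dval_eq hf _ (hu2 S)]
    rfl
  have h4 : 4 ≤ 4 ^ β := by
    calc 4 = 4 ^ 1 := rfl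
      _ ≤ 4 ^ β := Nat.pow_le_pow_right (by norm_num) hβ
  have hgen : ∀ V : Submodule ℂ (Finset (Fin β ⊕ Fin β) → ℂ),
      (∀ i, i ∉ blk e e' → (fun S => dval (xS e e' S + u) i φ) ∈ V) →
      4 ^ β ≤ Module.finrank ℂ V := by
    intro V hi
    have h1 : Submodule.span ℂ (Set.range (wu e e' f u)) ≤ V := by
      rw [Submodule.span_le]
      rintro _ ⟨q, rfl⟩
      rw [hw]
      exact hi _ (hnot q)
    have h2 := Submodule.finrank_mono h1
    rw [finrank_span_eq_card hu1, card_KK] at h2
    exact h2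
  by_cases h0 : occB (blk e e') φ = 0
  · exfalso
    have := hgen (Submodule.span ℂ {(1 : Finset (Fin β ⊕ Fin β) → ℂ)}) (by
      intro i hi
      rw [Submodule.mem_span_singleton]
      refine ⟨dval (xS e e' ∅ + u) i φ, ?_⟩
      funext S
      simp only [Pi.smul_apply, Pi.one_apply, smul_eq_mul, mul_one]
      exact (small (blk e e') _ _ (fun i hi => hagree i hi ∅ S) φ h0).2 i)
    have h5 : Module.finrank ℂ (Submodule.span ℂ {(1 : Finset (Fin β ⊕ Fin β) → ℂ)}) ≤ 1 := by
      have := finrank_span_le_card (R := ℂ) ({1} : Set (Finset (Fin β ⊕ Fin β) → ℂ))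
      simpa using this
    omega
  · obtain ⟨V, hV1, _, _, _, hV4⟩ := main (blk e e') (fun S : Finset (Fin β ⊕ Fin β) =>
      xS e e' S + u) (fun i hi j j' => hagree i hi j j') φ
      (fun S => (at_point _ φ (hu2 S)).1) (by omega)
    have := hgen V hV4
    omega

end

theorem eventually_indep {m β : ℕ} {Z : Type} [Fintype Z] [DecidableEq Z]
    (e e' : II β Z ≃ Fin m) (hN : 2 * β < Fintype.card ((Fin β → Bool) ⊕ Z)) (s : ℕ)
    (f : ℕ → MvPolynomial (Fin m × Fin m) ℂ) (hs : ∀ k, (f k).totalDegree ≤ s)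
    (hlim : ∀ d, Tendsto (fun k => coeff d (f k)) atTop (𝓝 (coeff d (SQ.permPoly m)))) :
    ∀ᶠ k in atTop, LinearIndependent ℂ (ww e e' (f k)) := by
  have ht : Tendsto (fun k => ww e e' (f k)) atTop (𝓝 (ww e e' (SQ.permPoly m))) := by
    rw [tendsto_pi_nhds]
    intro q
    rw [tendsto_pi_nhds]
    intro S
    have := SQ.tendsto_linear s f (SQ.permPoly m) hs hlim
      (dL (xS e e' S) (e (Sum.inr (Sum.inl q.1)), e' (Sum.inr (Sum.inl q.2))))
    simp only [dL_apply] at this
    exact this
  have ho : IsOpen {f : KK β × KK β → (Finset (Fin β ⊕ Fin β) → ℂ) | LinearIndependent ℂ f} :=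
    isOpen_setOfPred_linearIndependent
  exact ht.eventually (ho.mem_nhds (indep_perm e e' hN))

/-- for large indices every partial matching of `2 β` positions carries many leaves -/
theorem block {m β : ℕ} (h1 : 4 * β < m) (h2 : 2 * β + 2 ^ β ≤ m) (hβ : 1 ≤ β) (s : ℕ)
    (Φ : ℕ → Formula (Fin m × Fin m)) (f : ℕ → MvPolynomial (Fin m × Fin m) ℂ)
    (hf : ∀ k, (Φ k).Computes (f k)) (hs : ∀ k, (Φ k).varLeaves ≤ s)
    (hlim : ∀ d, Tendsto (fun k => coeff d (f k)) atTop (𝓝 (coeff d (SQ.permPoly m)))) :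
    ∀ᶠ k in atTop, ∀ p q : Fin β ⊕ Fin β → Fin m, Function.Injective p → Function.Injective q →
      4 ^ β ≤ 4 * ∑ t, occ (p t, q t) (Φ k) := by
  classical
  rw [eventually_all]
  intro p
  rw [eventually_all]
  intro q
  by_cases hp : Function.Injective p
  swap
  · exact Eventually.of_forall fun k hp' => absurd hp' hp
  by_cases hq : Function.Injective q
  swap
  · exact Eventually.of_forall fun k _ hq' => absurd hq' hq
  let Z := Fin (m - 2 * β - 2 ^ β)
  have hcard : Fintype.card (II β Z) = m := by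
    simp only [II, Z, Fintype.card_sum, Fintype.card_fin, Fintype.card_fun, Fintype.card_bool]
    omega
  obtain ⟨e, he⟩ := exists_ext (Z := Z) hcard p hp
  obtain ⟨e', he'⟩ := exists_ext (Z := Z) hcard q hq
  have hN : 2 * β < Fintype.card ((Fin β → Bool) ⊕ Z) := by
    simp only [Z, Fintype.card_sum, Fintype.card_fin, Fintype.card_fun, Fintype.card_bool]
    omega
  filter_upwards [eventually_indep e e' hN s f (fun k => (computes_degree (hf k)).trans (hs k))
    hlim] with k hk _ _
  have := block_bound e e' hβ (Φ k) (f k) (hf k) hk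
  simpa only [he, he'] using this

/-- a polynomial computed by a formula without the variable `j` does not contain `j` -/
theorem pderiv_eq_zero {σ : Type} [DecidableEq σ] [Fintype σ] (φ : Formula σ)
    (f : MvPolynomial σ ℂ) (hf : φ.Computes f) (j : σ) (h : occ j φ = 0) : pderiv j f = 0 := by
  have hnd : pderiv j (nd φ).1 = 0 ∧ pderiv j (nd φ).2 = 0 := by
    clear hf
    induction φ with
    | var i =>
      have : i ≠ j := by
        intro hij
        simp [occ, hij] at h
      simp [nd, pderiv_X_of_ne this]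
    | const c => simp [nd]
    | add a b iha ihb =>
      simp only [occ, Nat.add_eq_zero_iff] at h
      obtain ⟨ha1, ha2⟩ := iha h.1
      obtain ⟨hb1, hb2⟩ := ihb h.2
      simp [nd, Derivation.leibniz, ha1, ha2, hb1, hb2]
    | mul a b iha ihb =>
      simp only [occ, Nat.add_eq_zero_iff] at h
      obtain ⟨ha1, ha2⟩ := iha h.1
      obtain ⟨hb1, hb2⟩ := ihb h.2
      simp [nd, Derivation.leibniz, ha1, ha2, hb1, hb2]
    | div a b iha ihb =>
      simp only [occ, Nat.add_eq_zero_iff] at h
      obtain ⟨ha1, ha2⟩ := iha h.1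
      obtain ⟨hb1, hb2⟩ := ihb h.2
      simp [nd, Derivation.leibniz, ha1, ha2, hb1, hb2]
  have h1 := computes_mul hf
  have h2 := (nd_spec φ hf.1).1
  have h3 := congrArg (pderiv j) h1
  rw [Derivation.leibniz, hnd.1, hnd.2] at h3
  simp only [smul_eq_mul, mul_zero, zero_add] at h3
  exact (mul_eq_zero.mp h3).resolve_left h2

/-- every variable of the permanent occurs -/
theorem occ_pos {m : ℕ} (s : ℕ)
    (Φ : ℕ → Formula (Fin m × Fin m)) (f : ℕ → MvPolynomial (Fin m × Fin m) ℂ)
    (hf : ∀ k, (Φ k).Computes (f k)) (hs : ∀ k, (Φ k).varLeaves ≤ s)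
    (hlim : ∀ d, Tendsto (fun k => coeff d (f k)) atTop (𝓝 (coeff d (SQ.permPoly m)))) :
    ∀ᶠ k in atTop, ∀ j, 1 ≤ occ j (Φ k) := by
  classical
  rw [eventually_all]
  rintro ⟨a, b⟩
  let X1 : Fin m × Fin m → ℂ := fun ij => if ij.1 = Equiv.swap a b ij.2 then 1 else 0
  have h1 : eval X1 (pderiv (a, b) (SQ.permPoly m)) = 1 := by
    set v : Fin m × Fin m → ℂ := Pi.single (a, b) 1 with hv
    have hl : HasDerivAt (fun s : ℂ => X1 + s • v) v 0 := by
      simpa using ((hasDerivAt_id (0 : ℂ)).smul_const v).const_add X1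
    have h2 : HasDerivAt (fun s : ℂ => eval (X1 + s • v) (SQ.permPoly m))
        (SQ.Persist.dlin (SQ.permPoly m) X1 v) 0 := by
      have h3 := SQ.Persist.hasFDerivAt_eval (SQ.permPoly m) (X1 + (0 : ℂ) • v)
      have h4 := h3.comp_hasDerivAt (0 : ℂ) hl
      rw [zero_smul, add_zero] at h4
      exact h4
    have h5 : ∀ s : ℂ, eval (X1 + s • v) (SQ.permPoly m) = 1 + s := by
      intro s
      rw [eval_perm]
      unfold Matrix.permanent
      rw [Finset.sum_eq_single (Equiv.swap a b)]
      · rw [← Finset.mul_prod_erase Finset.univ _ (Finset.mem_univ b)]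
        have : ∏ x ∈ Finset.univ.erase b, (Matrix.of fun i j => (X1 + s • v) (i, j))
            ((Equiv.swap a b) x) x = 1 := by
          apply Finset.prod_eq_one
          intro x hx
          have hxb : x ≠ b := Finset.ne_of_mem_erase hx
          have : (Equiv.swap a b x, x) ≠ (a, b) := fun h => hxb (congrArg Prod.snd h)
          simp [X1, hv, Pi.single_eq_of_ne this]
        rw [this, mul_one]
        simp [X1, hv]
      · intro τ _ hτ
        have : ∃ c, τ c ≠ Equiv.swap a b c := by
          by_contra hne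
          push Not at hne
          exact hτ (Equiv.ext hne)
        obtain ⟨c, hc⟩ := this
        -- there are at least two places of disagreement, one of them is not `b`
        have : ∃ c, τ c ≠ Equiv.swap a b c ∧ c ≠ b := by
          by_contra hne
          push Not at hne
          have hcb : c = b := hne c hc
          have hall : ∀ x, x ≠ b → τ x = Equiv.swap a b x := by
            intro x hx
            by_contra h
            exact hx (hne x h)
          obtain ⟨y, hy⟩ := τ.surjective (Equiv.swap a b b)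
          by_cases hyb : y = b
          · rw [hyb] at hy
            rw [hcb] at hc
            exact hc hy
          · have := hall y hyb
            rw [this] at hy
            exact hyb ((Equiv.swap a b).injective hy)
        obtain ⟨c, hc, hcb⟩ := this
        apply Finset.prod_eq_zero (Finset.mem_univ c)
        have h6 : (τ c, c) ≠ (a, b) := fun h => hcb (congrArg Prod.snd h)
        simp [X1, hv, Pi.single_eq_of_ne h6, hc]
      · intro h; exact absurd (Finset.mem_univ _) h
    have h6 : HasDerivAt (fun s : ℂ => (1 : ℂ) + s) 1 0 := by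
      simpa using (hasDerivAt_id (0 : ℂ)).const_add 1
    rw [funext h5] at h2
    have h7 := h2.unique h6
    rw [SQ.Persist.dlin_apply, Finset.sum_eq_single (a, b)] at h7
    · simpa [hv] using h7
    · intro j _ hj
      rw [hv, Pi.single_eq_of_ne hj, mul_zero]
    · intro h
      exact absurd (Finset.mem_univ _) h
  have h2 := SQ.tendsto_linear s f (SQ.permPoly m)
    (fun k => (computes_degree (hf k)).trans (hs k)) hlim (dL X1 (a, b))
  simp only [dL_apply] at h2
  rw [h1] at h2
  have h3 : ∀ᶠ k in atTop, eval X1 (pderiv (a, b) (f k)) ≠ 0 := h2.eventually_ne one_ne_zero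
  filter_upwards [h3] with k hk
  by_contra hcon
  apply hk
  rw [pderiv_eq_zero (Φ k) (f k) (hf k) (a, b) (by omega), map_zero]

theorem total {m : ℕ} (hm : 2 ≤ m) (s : ℕ)
    (Φ : ℕ → Formula (Fin m × Fin m)) (f : ℕ → MvPolynomial (Fin m × Fin m) ℂ)
    (hf : ∀ k, (Φ k).Computes (f k)) (hs : ∀ k, (Φ k).varLeaves ≤ s)
    (hlim : ∀ d, Tendsto (fun k => coeff d (f k)) atTop (𝓝 (coeff d (SQ.permPoly m)))) :
    m ^ 4 ≤ 256 * Nat.log 2 m * s := by
  have : NeZero m := ⟨by omega⟩
  set L := Nat.log 2 m with hL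
  have hL1 : 1 ≤ L := Nat.log_pos (by norm_num) hm
  by_cases hsmall : m < 16
  · obtain ⟨k, hk⟩ := (occ_pos s Φ f hf hs hlim).exists
    have h1 : m * m ≤ s := by
      calc m * m = ∑ j : Fin m × Fin m, 1 := by simp
        _ ≤ ∑ j, occ j (Φ k) := Finset.sum_le_sum (fun j _ => hk j)
        _ = (Φ k).varLeaves := sum_occ _
        _ ≤ s := hs k
    calc m ^ 4 = (m * m) * (m * m) := by ring
      _ ≤ (16 * 16) * s := Nat.mul_le_mul (Nat.mul_le_mul (by omega) (by omega)) h1
      _ ≤ 256 * L * s := Nat.mul_le_mul_right _ (by omega)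
  · push Not at hsmall
    have hL4 : 4 ≤ L := by
      rw [hL]
      calc 4 = Nat.log 2 16 := by
            rw [show (16 : ℕ) = 2 ^ 4 from rfl, Nat.log_pow (by norm_num)]
        _ ≤ Nat.log 2 m := Nat.log_mono_right hsmall
    have hpow1 : 2 ^ L ≤ m := Nat.pow_log_le_self 2 (by omega)
    have hpow2 : m < 2 ^ (L + 1) := Nat.lt_pow_succ_log_self (by norm_num) m
    obtain ⟨β, hβ⟩ : ∃ β, L = β + 1 := ⟨L - 1, by omega⟩
    rw [hβ] at hpow1 hpow2
    have hβ3 : 3 ≤ β := by omega
    have hb : 2 * β + 2 ≤ 2 ^ β := two_mul_le_pow hβ3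
    have hp1 : (2 : ℕ) ^ (β + 1) = 2 * 2 ^ β := by ring
    have hp2 : (2 : ℕ) ^ (β + 1 + 1) = 4 * 2 ^ β := by ring
    rw [hp1] at hpow1
    rw [hp2] at hpow2
    have h1 : 4 * β < m := by omega
    have h2 : 2 * β + 2 ^ β ≤ m := by omega
    obtain ⟨k, hk⟩ := (block h1 h2 (by omega) s Φ f hf hs hlim).exists
    set r : Fin m → Fin m → ℕ := fun i j => occ (i, j) (Φ k) with hr
    set K := m / (β + β) with hK
    have hKm : K * (β + β) ≤ m := Nat.div_mul_le_self _ _
    let φ : Fin K × (Fin β ⊕ Fin β) → Fin m := fun x =>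
      Fin.castLE hKm (finProdFinEquiv (x.1, finSumFinEquiv x.2))
    have hφ : Function.Injective φ := by
      intro x y hxy
      have h3 := finProdFinEquiv.injective (Fin.castLE_injective hKm hxy)
      rw [Prod.mk.injEq] at h3
      exact Prod.ext h3.1 (finSumFinEquiv.injective h3.2)
    have hs' : ∀ t : Fin m, K * 4 ^ β ≤ 4 * ∑ i, r i (i + t) := by
      intro t
      calc K * 4 ^ β = ∑ c : Fin K, 4 ^ β := by simp
        _ ≤ ∑ c : Fin K, 4 * ∑ a, r (φ (c, a)) (φ (c, a) + t) := by
            apply Finset.sum_le_sum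
            intro c _
            apply hk (fun a => φ (c, a)) (fun a => φ (c, a) + t)
            · intro a a' h
              have := hφ h
              simpa using this
            · intro a a' h
              have := hφ (add_right_cancel h)
              simpa using this
        _ = 4 * ∑ x : Fin K × (Fin β ⊕ Fin β), r (φ x) (φ x + t) := by
            rw [Fintype.sum_prod_type, Finset.mul_sum]
        _ = 4 * ∑ i ∈ Finset.univ.image φ, r i (i + t) := by
            rw [Finset.sum_image (fun x _ y _ h => hφ h)]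
        _ ≤ 4 * ∑ i, r i (i + t) := Nat.mul_le_mul_left _
            (Finset.sum_le_sum_of_subset (Finset.subset_univ _))
    have htot : m * (K * 4 ^ β) ≤ 4 * s := by
      calc m * (K * 4 ^ β) = ∑ t : Fin m, K * 4 ^ β := by simp
        _ ≤ ∑ t : Fin m, 4 * ∑ i, r i (i + t) := Finset.sum_le_sum (fun t _ => hs' t)
        _ = 4 * ∑ t : Fin m, ∑ i, r i (i + t) := by rw [Finset.mul_sum]
        _ = 4 * ∑ i, ∑ t : Fin m, r i (i + t) := by rw [Finset.sum_comm]
        _ = 4 * ∑ i, ∑ j, r i j := by
            congr 1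
            apply Finset.sum_congr rfl
            intro i _
            exact Equiv.sum_comp (Equiv.addLeft i) (fun j => r i j)
        _ = 4 * (Φ k).varLeaves := by
            rw [← sum_occ, Fintype.sum_prod_type]
        _ ≤ 4 * s := Nat.mul_le_mul_left _ (hs k)
    have hK1 : 1 ≤ K := by
      rw [hK]
      exact (Nat.one_le_div_iff (by omega)).mpr (by omega)
    have hlt : m < (β + β) * (K + 1) := by
      rw [hK]
      exact Nat.lt_mul_div_succ m (by omega)
    have hle1 : m ≤ 4 * β * K := by nlinarith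
    have hle2 : m ≤ 4 * 2 ^ β := hpow2.le
    have h44 : (4 : ℕ) ^ β = 2 ^ β * 2 ^ β := by
      rw [← mul_pow]; norm_num
    calc m ^ 4 = (m * m) * (m * m) := by ring
      _ ≤ (m * m) * ((4 * 2 ^ β) * (4 * 2 ^ β)) :=
          Nat.mul_le_mul_left _ (Nat.mul_le_mul hle2 hle2)
      _ ≤ (m * (4 * β * K)) * ((4 * 2 ^ β) * (4 * 2 ^ β)) :=
          Nat.mul_le_mul_right _ (Nat.mul_le_mul_left _ hle1)
      _ = (64 * β) * (m * (K * 4 ^ β)) := by rw [h44]; ring
      _ ≤ (64 * β) * (4 * s) := Nat.mul_le_mul_left _ htot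
      _ = 256 * β * s := by ring
      _ ≤ 256 * L * s := Nat.mul_le_mul_right _ (by omega)

end Pool.Agent.Work.MP_35c45d_lc.FQ
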