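import Mathlib

/-! Arithmetic formulas and the transcendence-degree (Jacobian) argument for them. -/

set_option autoImplicit false

namespace Pool.Agent.Work.MP_35c45d_lc.FS

open MvPolynomial

/-- Arithmetic formulas over `ℂ` with variables `σ`. -/
inductive Fml (σ : Type) : Type
  | var : σ → Fml σ
  | con : ℂ → Fml σ
  | add : Fml σ → Fml σ → Fml σ
  | mul : Fml σ → Fml σ → Fml σ

namespace Fml

variable {σ τ : Type}

/-- The polynomial computed by a formula. -/
noncomputable def poly : Fml σ → MvPolynomial σ ℂ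
  | var i => X i
  | con c => C c
  | add φ ψ => poly φ + poly ψ
  | mul φ ψ => poly φ * poly ψ

/-- The number of leaves labelled by variables. -/
def leaves : Fml σ → ℕ
  | var _ => 1
  | con _ => 0
  | add φ ψ => leaves φ + leaves ψ
  | mul φ ψ => leaves φ + leaves ψ

/-- The number of leaves labelled by variables in `B`. -/
def cnt (B : Set σ) [DecidablePred (· ∈ B)] : Fml σ → ℕ
  | var i => if i ∈ B then 1 else 0
  | con _ => 0
  | add φ ψ => cnt B φ + cnt B ψ
  | mul φ ψ => cnt B φ + cnt B ψ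

/-- Renaming of variables. -/
def map (f : σ → τ) : Fml σ → Fml τ
  | var i => var (f i)
  | con c => con c
  | add φ ψ => add (map f φ) (map f ψ)
  | mul φ ψ => mul (map f φ) (map f ψ)

theorem poly_map (f : σ → τ) (φ : Fml σ) : (φ.map f).poly = rename f φ.poly := by
  induction φ with
  | var i => simp [map, poly]
  | con c => simp [map, poly]
  | add φ ψ h1 h2 => simp [map, poly, h1, h2]
  | mul φ ψ h1 h2 => simp [map, poly, h1, h2]

theorem cnt_map (f : σ → τ) (B : Set τ) [DecidablePred (· ∈ B)] [DecidablePred (· ∈ f ⁻¹' B)]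
    (φ : Fml σ) : (φ.map f).cnt B = φ.cnt (f ⁻¹' B) := by
  induction φ with
  | var i => simp [map, cnt]
  | con c => simp [map, cnt]
  | add φ ψ h1 h2 => simp [map, cnt, h1, h2]
  | mul φ ψ h1 h2 => simp [map, cnt, h1, h2]

theorem cnt_congr (B B' : Set σ) [DecidablePred (· ∈ B)] [DecidablePred (· ∈ B')] (h : B = B')
    (φ : Fml σ) : φ.cnt B = φ.cnt B' := by
  subst h
  induction φ with
  | var i => simp [cnt]
  | con c => simp [cnt]
  | add φ ψ h1 h2 => simp [cnt, h1, h2]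
  | mul φ ψ h1 h2 => simp [cnt, h1, h2]

theorem totalDegree_poly_le (φ : Fml σ) : φ.poly.totalDegree ≤ φ.leaves := by
  induction φ with
  | var i => simp [poly, leaves]
  | con c => simp [poly, leaves]
  | add φ ψ h1 h2 =>
    refine (totalDegree_add _ _).trans ?_
    simp only [leaves]
    omega
  | mul φ ψ h1 h2 =>
    refine (totalDegree_mul _ _).trans ?_
    simp only [leaves]
    omega

/-- Disjoint sets of variables. -/
theorem sum_cnt_le {β : Type} [Fintype β] (B : β → Set σ) [∀ b, DecidablePred (· ∈ B b)]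
    (hB : Pairwise fun b b' => Disjoint (B b) (B b')) (φ : Fml σ) :
    ∑ b, φ.cnt (B b) ≤ φ.leaves := by
  classical
  induction φ with
  | var i =>
    simp only [cnt, leaves, Finset.sum_boole, Nat.cast_id]
    rw [Finset.card_le_one]
    intro b hb b' hb'
    rw [Finset.mem_filter] at hb hb'
    by_contra hne
    exact Set.disjoint_left.mp (hB hne) hb.2 hb'.2
  | con c => simp [cnt, leaves]
  | add φ ψ h1 h2 =>
    simp only [cnt, leaves, Finset.sum_add_distrib]
    omega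
  | mul φ ψ h1 h2 =>
    simp only [cnt, leaves, Finset.sum_add_distrib]
    omega

end Fml

section codim

variable {V : Type} [AddCommGroup V] [Module ℂ V] [FiniteDimensional ℂ V]

theorem cd_inf {K K' : Submodule ℂ V} {c c' : ℕ}
    (h : Module.finrank ℂ V ≤ Module.finrank ℂ K + c)
    (h' : Module.finrank ℂ V ≤ Module.finrank ℂ K' + c') :
    Module.finrank ℂ V ≤ Module.finrank ℂ (K ⊓ K' : Submodule ℂ V) + (c + c') := by
  have h1 := Submodule.finrank_sup_add_finrank_inf_eq K K'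
  have h2 : Module.finrank ℂ (K ⊔ K' : Submodule ℂ V) ≤ Module.finrank ℂ V :=
    Submodule.finrank_le _
  omega

theorem cd_ker (α : V →ₗ[ℂ] ℂ) :
    Module.finrank ℂ V ≤ Module.finrank ℂ (LinearMap.ker α) + 1 := by
  have h1 := LinearMap.finrank_range_add_finrank_ker α
  have h2 : Module.finrank ℂ (LinearMap.range α) ≤ 1 := by
    have := Submodule.finrank_le (LinearMap.range α)
    rwa [Module.finrank_self] at this
  omega

end codim

section main

variable {σ X : Type} [Fintype σ] {V : Type} [AddCommGroup V] [Module ℂ V]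
  [FiniteDimensional ℂ V]

/-- directional derivative -/
noncomputable def Dd (P : X → σ → ℂ) (H : V →ₗ[ℂ] (σ → ℂ)) (f : MvPolynomial σ ℂ) (h : V) (x : X) :
    ℂ := ∑ t, H h t * eval (P x) (pderiv t f)

theorem Dd_add (P : X → σ → ℂ) (H : V →ₗ[ℂ] (σ → ℂ)) (f g : MvPolynomial σ ℂ) (h : V) (x : X) :
    Dd P H (f + g) h x = Dd P H f h x + Dd P H g h x := by
  simp only [Dd, map_add, mul_add, Finset.sum_add_distrib]

theorem Dd_mul (P : X → σ → ℂ) (H : V →ₗ[ℂ] (σ → ℂ)) (f g : MvPolynomial σ ℂ) (h : V) (x : X) :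
    Dd P H (f * g) h x = Dd P H f h x * eval (P x) g + eval (P x) f * Dd P H g h x := by
  simp only [Dd, pderiv_mul, map_add, map_mul, Finset.sum_mul, Finset.mul_sum,
    ← Finset.sum_add_distrib]
  refine Finset.sum_congr rfl fun t _ => ?_
  ring

theorem Dd_X (P : X → σ → ℂ) (H : V →ₗ[ℂ] (σ → ℂ)) (i : σ) (h : V) (x : X) :
    Dd P H (MvPolynomial.X i) h x = H h i := by
  classical
  unfold Dd
  rw [Finset.sum_eq_single i]
  · simp
  · intro b _ hb
    rw [pderiv_X_of_ne hb.symm]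
    simp
  · intro h; exact absurd (Finset.mem_univ _) h

theorem Dd_C (P : X → σ → ℂ) (H : V →ₗ[ℂ] (σ → ℂ)) (c : ℂ) (h : V) (x : X) :
    Dd P H (MvPolynomial.C c) h x = 0 := by
  simp [Dd]

theorem fml_struct (B : Set σ) [DecidablePred (· ∈ B)] (P : X → σ → ℂ)
    (y0 : σ → ℂ) (hP : ∀ x t, t ∉ B → P x t = y0 t) (H : V →ₗ[ℂ] (σ → ℂ))
    (hH : ∀ h, ∀ t ∈ B, H h t = 0) (φ : Fml σ) :
    (φ.cnt B = 0 → ∃ (c : ℂ) (γ : V →ₗ[ℂ] ℂ), (∀ x, eval (P x) φ.poly = c) ∧
      ∀ h x, Dd P H φ.poly h x = γ h) ∧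
    (1 ≤ φ.cnt B → ∃ (K : Submodule ℂ V) (g : X → ℂ) (a b : ℂ) (α β : V →ₗ[ℂ] ℂ),
      Module.finrank ℂ V ≤ Module.finrank ℂ K + (4 * φ.cnt B - 4) ∧
      (∀ x, eval (P x) φ.poly = a * g x + b) ∧
      ∀ h ∈ K, ∀ x, Dd P H φ.poly h x = α h * g x + β h) := by
  induction φ with
  | var i =>
    refine ⟨fun h0 => ?_, fun h1 => ?_⟩
    · have hi : i ∉ B := by
        intro hi
        simp [Fml.cnt, hi] at h0
      refine ⟨y0 i, (LinearMap.proj i).comp H, fun x => ?_, fun h x => ?_⟩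
      · rw [Fml.poly, eval_X, hP x i hi]
      · rw [Fml.poly, Dd_X]
        rfl
    · have hi : i ∈ B := by
        by_contra hi
        simp [Fml.cnt, hi] at h1
      refine ⟨⊤, fun x => P x i, 1, 0, 0, 0, ?_, fun x => ?_, fun h _ x => ?_⟩
      · rw [finrank_top]; omega
      · rw [Fml.poly, eval_X]; ring
      · rw [Fml.poly, Dd_X, hH h i hi]; simp
  | con c =>
    refine ⟨fun _ => ⟨c, 0, fun x => ?_, fun h x => ?_⟩, fun h1 => ?_⟩
    · rw [Fml.poly, eval_C]
    · rw [Fml.poly, Dd_C]; rfl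
    · simp [Fml.cnt] at h1
  | add φ ψ ih1 ih2 =>
    refine ⟨fun h0 => ?_, fun h1 => ?_⟩
    · simp only [Fml.cnt] at h0
      obtain ⟨c1, γ1, e1, d1⟩ := ih1.1 (by omega)
      obtain ⟨c2, γ2, e2, d2⟩ := ih2.1 (by omega)
      refine ⟨c1 + c2, γ1 + γ2, fun x => ?_, fun h x => ?_⟩
      · rw [Fml.poly, map_add, e1, e2]
      · rw [Fml.poly, Dd_add, d1, d2]; rfl
    · simp only [Fml.cnt] at h1
      rcases Nat.eq_zero_or_pos (φ.cnt B) with hz1 | hp1
      · obtain ⟨c1, γ1, e1, d1⟩ := ih1.1 hz1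
        obtain ⟨K, g, a, b, α, β, hc, e2, d2⟩ := ih2.2 (by omega)
        refine ⟨K, g, a, b + c1, α, β + γ1, ?_, fun x => ?_, fun h hh x => ?_⟩
        · simp only [Fml.cnt]; rw [hz1, zero_add]; exact hc
        · rw [Fml.poly, map_add, e1, e2]; ring
        · rw [Fml.poly, Dd_add, d1, d2 h hh, LinearMap.add_apply]; ring
      · rcases Nat.eq_zero_or_pos (ψ.cnt B) with hz2 | hp2
        · obtain ⟨c1, γ1, e1, d1⟩ := ih2.1 hz2
          obtain ⟨K, g, a, b, α, β, hc, e2, d2⟩ := ih1.2 (by omega)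
          refine ⟨K, g, a, b + c1, α, β + γ1, ?_, fun x => ?_, fun h hh x => ?_⟩
          · simp only [Fml.cnt]; rw [hz2, add_zero]; exact hc
          · rw [Fml.poly, map_add, e1, e2]; ring
          · rw [Fml.poly, Dd_add, d1, d2 h hh, LinearMap.add_apply]; ring
        · obtain ⟨K1, g1, a1, b1, α1, β1, hc1, e1, d1⟩ := ih1.2 hp1
          obtain ⟨K2, g2, a2, b2, α2, β2, hc2, e2, d2⟩ := ih2.2 hp2
          refine ⟨(K1 ⊓ K2) ⊓ ((LinearMap.ker α1 ⊓ LinearMap.ker β1) ⊓
            (LinearMap.ker α2 ⊓ LinearMap.ker β2)),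
            fun x => eval (P x) (Fml.poly (.add φ ψ)), 1, 0, 0, 0, ?_, fun x => by ring,
            fun h hh x => ?_⟩
          · refine (cd_inf (cd_inf hc1 hc2) (cd_inf (cd_inf (cd_ker α1) (cd_ker β1))
              (cd_inf (cd_ker α2) (cd_ker β2)))).trans ?_
            simp only [Fml.cnt]
            omega
          · simp only [Submodule.mem_inf, LinearMap.mem_ker] at hh
            rw [Fml.poly, Dd_add, d1 h hh.1.1, d2 h hh.1.2, hh.2.1.1, hh.2.1.2, hh.2.2.1,
              hh.2.2.2]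
            simp
  | mul φ ψ ih1 ih2 =>
    refine ⟨fun h0 => ?_, fun h1 => ?_⟩
    · simp only [Fml.cnt] at h0
      obtain ⟨c1, γ1, e1, d1⟩ := ih1.1 (by omega)
      obtain ⟨c2, γ2, e2, d2⟩ := ih2.1 (by omega)
      refine ⟨c1 * c2, c2 • γ1 + c1 • γ2, fun x => ?_, fun h x => ?_⟩
      · rw [Fml.poly, map_mul, e1, e2]
      · rw [Fml.poly, Dd_mul, d1, d2, e1, e2, LinearMap.add_apply, LinearMap.smul_apply,
          LinearMap.smul_apply, smul_eq_mul, smul_eq_mul]
        ring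
    · simp only [Fml.cnt] at h1
      rcases Nat.eq_zero_or_pos (φ.cnt B) with hz1 | hp1
      · obtain ⟨c1, γ1, e1, d1⟩ := ih1.1 hz1
        obtain ⟨K, g, a, b, α, β, hc, e2, d2⟩ := ih2.2 (by omega)
        refine ⟨K, g, c1 * a, c1 * b, c1 • α + a • γ1, c1 • β + b • γ1, ?_, fun x => ?_,
          fun h hh x => ?_⟩
        · simp only [Fml.cnt]; rw [hz1, zero_add]; exact hc
        · rw [Fml.poly, map_mul, e1, e2]; ring
        · rw [Fml.poly, Dd_mul, d1, d2 h hh, e1, e2]
          simp only [LinearMap.add_apply, LinearMap.smul_apply, smul_eq_mul]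
          ring
      · rcases Nat.eq_zero_or_pos (ψ.cnt B) with hz2 | hp2
        · obtain ⟨c1, γ1, e1, d1⟩ := ih2.1 hz2
          obtain ⟨K, g, a, b, α, β, hc, e2, d2⟩ := ih1.2 (by omega)
          refine ⟨K, g, c1 * a, c1 * b, c1 • α + a • γ1, c1 • β + b • γ1, ?_, fun x => ?_,
            fun h hh x => ?_⟩
          · simp only [Fml.cnt]; rw [hz2, add_zero]; exact hc
          · rw [Fml.poly, map_mul, e1, e2]; ring
          · rw [Fml.poly, Dd_mul, d1, d2 h hh, e1, e2]
            simp only [LinearMap.add_apply, LinearMap.smul_apply, smul_eq_mul]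
            ring
        · obtain ⟨K1, g1, a1, b1, α1, β1, hc1, e1, d1⟩ := ih1.2 hp1
          obtain ⟨K2, g2, a2, b2, α2, β2, hc2, e2, d2⟩ := ih2.2 hp2
          refine ⟨(K1 ⊓ K2) ⊓ ((LinearMap.ker α1 ⊓ LinearMap.ker β1) ⊓
            (LinearMap.ker α2 ⊓ LinearMap.ker β2)),
            fun x => eval (P x) (Fml.poly (.mul φ ψ)), 1, 0, 0, 0, ?_, fun x => by ring,
            fun h hh x => ?_⟩
          · refine (cd_inf (cd_inf hc1 hc2) (cd_inf (cd_inf (cd_ker α1) (cd_ker β1))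
              (cd_inf (cd_ker α2) (cd_ker β2)))).trans ?_
            simp only [Fml.cnt]
            omega
          · simp only [Submodule.mem_inf, LinearMap.mem_ker] at hh
            rw [Fml.poly, Dd_mul, d1 h hh.1.1, d2 h hh.1.2, hh.2.1.1, hh.2.1.2, hh.2.2.1,
              hh.2.2.2]
            simp

/-- A formula with few leaves in `B` has a direction in which the derivative vanishes for all
values of the variables in `B`. -/
theorem exists_dir (B : Set σ) [DecidablePred (· ∈ B)] (P : X → σ → ℂ)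
    (y0 : σ → ℂ) (hP : ∀ x t, t ∉ B → P x t = y0 t) (H : V →ₗ[ℂ] (σ → ℂ))
    (hH : ∀ h, ∀ t ∈ B, H h t = 0) (φ : Fml σ) (hV : 2 ≤ Module.finrank ℂ V)
    (hcnt : 4 * φ.cnt B < Module.finrank ℂ V + 2) :
    ∃ h : V, h ≠ 0 ∧ ∀ x, Dd P H φ.poly h x = 0 := by
  have hs := fml_struct B P y0 hP H hH φ
  rcases Nat.eq_zero_or_pos (φ.cnt B) with hz | hp
  · obtain ⟨c, γ, e, d⟩ := hs.1 hz
    have h1 := cd_ker γ
    have h2 : 0 < Module.finrank ℂ (LinearMap.ker γ) := by omega
    have h3 : LinearMap.ker γ ≠ ⊥ := by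
      intro h
      rw [h, finrank_bot] at h2
      exact lt_irrefl _ h2
    obtain ⟨h, hh, hne⟩ := Submodule.exists_mem_ne_zero_of_ne_bot h3
    refine ⟨h, hne, fun x => ?_⟩
    rw [d]
    exact hh
  · obtain ⟨K, g, a, b, α, β, hc, e, d⟩ := hs.2 hp
    have h1 := cd_inf hc (cd_inf (cd_ker α) (cd_ker β))
    have h2 : 0 < Module.finrank ℂ (K ⊓ (LinearMap.ker α ⊓ LinearMap.ker β) : Submodule ℂ V) := by
      omega
    have h3 : (K ⊓ (LinearMap.ker α ⊓ LinearMap.ker β) : Submodule ℂ V) ≠ ⊥ := by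
      intro h
      rw [h, finrank_bot] at h2
      exact lt_irrefl _ h2
    obtain ⟨h, hh, hne⟩ := Submodule.exists_mem_ne_zero_of_ne_bot h3
    simp only [Submodule.mem_inf, LinearMap.mem_ker] at hh
    refine ⟨h, hne, fun x => ?_⟩
    rw [d h hh.1, hh.2.1, hh.2.2]
    ring

end main

end Pool.Agent.Work.MP_35c45d_lc.FS
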