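import Pool.Agent.Work.MP_35c45d_lc.GCTransfer
import Pool.Agent.Work.MP_35c45d_lc.CMFinal
import Pool.Agent.Work.MP_35c45d_lc.MPMain

/-! General circuits: every nonzero multiple of the permanent needs `c m² log m` multiplications. -/

set_option autoImplicit false

namespace Pool.Agent.Work.MP_35c45d_lc.GC

open MvPolynomial Filter Topology Pool.Agent.Work.MP_35c45d_lc.SQ
open Pool.Agent.Work.MP_35c45d_lc.CM

theorem sub_C {L : ℕ} {ι : Type} {f : MvPolynomial ι ℂ} (hf : MulLE L f) (r : ℂ) :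
    MulLE L (f - C r) := by
  obtain ⟨g, hg, hfg⟩ := hf
  exact ⟨g, hg, Submodule.sub_mem _ hfg (C_mem _ _ _)⟩

/-- **Count** for limits of circuits which are nonzero multiples of the permanent -/
theorem mult_count {m L : ℕ} (hm : 1 ≤ m) (Fs : ℕ → MvPolynomial (Fin m × Fin m) ℂ)
    (hFs : ∀ s, MulLE L (Fs s)) {F : MvPolynomial (Fin m × Fin m) ℂ}
    (hlim : ∀ d, Tendsto (fun s => coeff d (Fs s)) atTop (𝓝 (coeff d F)))
    (h0 : F ≠ 0) (hd : permPoly m ∣ F) {ι : Type} [Fintype ι]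
    (φ : Fin m × Fin m → MvPolynomial ι ℂ) (hφ : ∀ q, (φ q).totalDegree ≤ 1)
    (c : ι → ℂ) (hc : c ≠ 0) (S : Finset (ι → ℂ))
    (hx : ∀ x ∈ S, IsCrit (aeval φ (permPoly m)) c x) :
    S.card ≤ 3 ^ (Fintype.card ι + 1 + 2 * L) := by
  obtain ⟨s, r, φ', c', x', hφ', hc', hinj, hcr⟩ := transfer hm Fs
    (fun s => (hFs s).totalDegree) hlim h0 hd (κ := Fin S.card) φ hφ c hc
    (fun j => (S.equivFin.symm j : ι → ℂ))
    (fun a b hab => S.equivFin.symm.injective (Subtype.ext hab))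
    (fun j => hx _ (S.equivFin.symm j).2)
  have h1 := mulLE_crit (sub_C ((hFs s).subst φ' fun i => mem_span_of_deg (hφ' i)) r) c' hc' x'
    hinj hcr
  rwa [Fintype.card_fin] at h1

/-- For all large `m`: `m² log m ≤ 170000 L`. -/
theorem mult_large : ∃ m0 : ℕ, ∀ m L : ℕ, m0 ≤ m → 1 ≤ m →
    ∀ (Fs : ℕ → MvPolynomial (Fin m × Fin m) ℂ) (F : MvPolynomial (Fin m × Fin m) ℂ),
      (∀ s, MulLE L (Fs s)) → (∀ d, Tendsto (fun s => coeff d (Fs s)) atTop (𝓝 (coeff d F))) →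
      F ≠ 0 → permPoly m ∣ F → (m : ℝ) ^ 2 * Real.log m ≤ 170000 * L := by
  classical
  obtain ⟨m0, h⟩ := cm_main
  refine ⟨m0, fun m L hm hm1 Fs F hFs hlim h0 hd => ?_⟩
  obtain ⟨q', n', t, hq, hn, ⟨φ, hφ, c0, hc0, heq⟩, hnum⟩ := h m hm
  refine hnum L ?_
  obtain ⟨c, hc, S, hS, hcrit⟩ := esym_crit (T := Fin t) (J := Fin (n' * q')) (q := q') (n' := n')
    hq hn (by simp)
  have h2 := mult_count hm1 Fs hFs hlim h0 hd φ hφ c hc S (by
    intro x hx
    rw [heq]
    exact MP.isCrit_smul hc0 (hcrit x hx))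
  rw [hS, Fintype.card_option, Fintype.card_prod, Fintype.card_fin, Fintype.card_fin] at h2
  refine h2.trans (Nat.pow_le_pow_right (by norm_num) (by omega))

/-- some multiplication is needed -/
theorem one_le {m L : ℕ} (hm : 2 ≤ m) (Fs : ℕ → MvPolynomial (Fin m × Fin m) ℂ)
    (F : MvPolynomial (Fin m × Fin m) ℂ)
    (hFs : ∀ s, MulLE L (Fs s)) (hlim : ∀ d, Tendsto (fun s => coeff d (Fs s)) atTop (𝓝 (coeff d F)))
    (h0 : F ≠ 0) (hd : permPoly m ∣ F) : 1 ≤ L := by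
  classical
  by_contra hL
  have hL0 : L = 0 := by omega
  subst hL0
  have hdeg : ∀ s, (Fs s).totalDegree ≤ 1 := fun s => by simpa using (hFs s).totalDegree
  have h1 : F.totalDegree ≤ 1 := by
    refine Finset.sup_le fun d hd' => ?_
    by_contra hcon
    refine (mem_support_iff.1 hd') ?_
    have h2 : ∀ s, coeff d (Fs s) = 0 := by
      intro s
      by_contra hne
      have h3 := le_totalDegree (mem_support_iff.2 hne)
      have h4 := hdeg s
      omega
    have h3 := hlim d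
    simp only [h2] at h3
    exact tendsto_nhds_unique h3 tendsto_const_nhds
  obtain ⟨g, rfl⟩ := hd
  have hg : g ≠ 0 := right_ne_zero_of_mul h0
  have hp : permPoly m ≠ 0 := left_ne_zero_of_mul h0
  rw [totalDegree_mul_of_isDomain hp hg] at h1
  have h2 : m ≤ (permPoly m).totalDegree := by
    have h3 : (∑ i : Fin m, Finsupp.single (i, i) 1) ∈ (permPoly m).support := by
      rw [mem_support_iff, perm_coeff]
      exact one_ne_zero
    have h4 := le_totalDegree h3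
    refine le_trans ?_ h4
    rw [Finsupp.sum_fintype _ _ (fun _ => rfl), ← Finsupp.degree_eq_sum, map_sum]
    simp
  omega

/-- **Theorem GC** -/
theorem main : ∃ c : ℝ, 0 < c ∧ ∀ m L : ℕ, 2 ≤ m →
    ∀ (Fs : ℕ → MvPolynomial (Fin m × Fin m) ℂ) (F : MvPolynomial (Fin m × Fin m) ℂ),
      (∀ s, MulLE L (Fs s)) → (∀ d, Tendsto (fun s => coeff d (Fs s)) atTop (𝓝 (coeff d F))) →
      F ≠ 0 → permPoly m ∣ F → c * (m : ℝ) ^ 2 * Real.log m ≤ L := by
  obtain ⟨m0, h0⟩ := mult_large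
  set m1 : ℕ := m0 + 2 with hm1
  have hlogm1 : 0 < Real.log m1 := Real.log_pos (by
    have : 1 < m1 := by omega
    exact_mod_cast this)
  have hm1pos : (0 : ℝ) < m1 := by
    have : 0 < m1 := by omega
    exact_mod_cast this
  refine ⟨min (1 / (m1 ^ 2 * Real.log m1)) (1 / 170000), by positivity,
    fun m L hm Fs F hFs hlim hF hd => ?_⟩
  have hm0 : (0 : ℝ) < m := by exact_mod_cast (by omega : 0 < m)
  have hlogm : 0 ≤ Real.log m := Real.log_nonneg (by exact_mod_cast (by omega : 1 ≤ m))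
  rcases Nat.lt_or_ge m m1 with h | h
  · have h1 := one_le hm Fs F hFs hlim hF hd
    have h2 : (m : ℝ) ^ 2 * Real.log m ≤ (m1 : ℝ) ^ 2 * Real.log m1 := by
      have h3 : (m : ℝ) ≤ m1 := by exact_mod_cast h.le
      refine mul_le_mul (pow_le_pow_left₀ hm0.le h3 2) (Real.log_le_log hm0 h3) hlogm (by positivity)
    calc min (1 / ((m1 : ℝ) ^ 2 * Real.log m1)) (1 / 170000) * (m : ℝ) ^ 2 * Real.log m
        = min (1 / ((m1 : ℝ) ^ 2 * Real.log m1)) (1 / 170000) * ((m : ℝ) ^ 2 * Real.log m) := by ring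
      _ ≤ 1 / ((m1 : ℝ) ^ 2 * Real.log m1) * ((m1 : ℝ) ^ 2 * Real.log m1) :=
          mul_le_mul (min_le_left _ _) h2 (by positivity) (by positivity)
      _ = 1 := by field_simp
      _ ≤ L := by exact_mod_cast h1
  · have h2 := h0 m L (by omega) (by omega) Fs F hFs hlim hF hd
    calc min (1 / ((m1 : ℝ) ^ 2 * Real.log m1)) (1 / 170000) * (m : ℝ) ^ 2 * Real.log m
        = min (1 / ((m1 : ℝ) ^ 2 * Real.log m1)) (1 / 170000) * ((m : ℝ) ^ 2 * Real.log m) := by ring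
      _ ≤ 1 / 170000 * (170000 * (L : ℝ)) :=
          mul_le_mul (min_le_right _ _) h2 (by positivity) (by positivity)
      _ = (L : ℝ) := by ring

end Pool.Agent.Work.MP_35c45d_lc.GC
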