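import Pool.Agent.Work.MP_35c45d_lc.GCMult

/-! Reserve hand-in: superlinear circuit lower bound for all nonzero multiples of the permanent. -/

set_option autoImplicit false

namespace Pool.Agent.Work.MP_35c45d_lc.GC

open MvPolynomial Filter Topology Pool.Agent.Work.MP_35c45d_lc.CM

/-- There is `c > 0` such that for all `m ≥ 2` and all `L`: if a nonzero multiple `F` of the `m × m`
permanent is the coefficientwise limit of polynomials `f s`, each computed by an arithmetic circuit
with `L` product gates (sums and scalar multiples are free: each `g s k` is a product of two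
polynomials in the span of `1`, the variables and the earlier `g s j`, and `f s` is in the span of
`1`, the variables and the `g s j`), then `L ≥ c m² log m`. -/
theorem candidate : ∃ c : ℝ, 0 < c ∧ ∀ m L : ℕ, 2 ≤ m →
    ∀ (F : MvPolynomial (Fin m × Fin m) ℂ) (f : ℕ → MvPolynomial (Fin m × Fin m) ℂ)
      (g : ℕ → Fin L → MvPolynomial (Fin m × Fin m) ℂ),
      F ≠ 0 →
      (Matrix.of (fun i j : Fin m => (X (i, j) : MvPolynomial (Fin m × Fin m) ℂ))).permanent ∣ F →
      (∀ s k, ∃ p ∈ Submodule.span ℂ ({1} ∪ Set.range X ∪ {r | ∃ j : Fin L, j < k ∧ r = g s j}),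
        ∃ q ∈ Submodule.span ℂ ({1} ∪ Set.range X ∪ {r | ∃ j : Fin L, j < k ∧ r = g s j}),
          g s k = p * q) →
      (∀ s, f s ∈ Submodule.span ℂ ({1} ∪ Set.range X ∪ Set.range (g s))) →
      (∀ d, Tendsto (fun s => coeff d (f s)) atTop (𝓝 (coeff d F))) →
      c * (m : ℝ) ^ 2 * Real.log m ≤ L := by
  obtain ⟨c, hc, h⟩ := main
  refine ⟨c, hc, fun m L hm F f g hF hd hg hf hlim => h m L hm f F
    (fun s => ⟨g s, fun k => hg s k, ?_⟩) hlim hF hd⟩
  refine Submodule.span_mono ?_ (hf s)
  refine Set.union_subset_union_right _ ?_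
  rintro r ⟨j, rfl⟩
  exact ⟨j, j.2, rfl⟩

end Pool.Agent.Work.MP_35c45d_lc.GC
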