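import Pool.Agent.Work.MP_35c45d_lc.MPGen

/-! Transfer of nondegenerate critical points: from a section of the permanent to a section of a
polynomial close to a nonzero multiple of the permanent. -/

set_option autoImplicit false

namespace Pool.Agent.Work.MP_35c45d_lc.GC

open MvPolynomial Filter Topology Pool.Agent.Work.MP_35c45d_lc.SQ
open Pool.Agent.Work.MP_35c45d_lc.MP

/-- If `F` is a nonzero multiple of the permanent and the coefficientwise limit of the `Fs s` (of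
bounded degree), and an affine section of the permanent has nondegenerate critical points `x k`,
then some affine section of some `Fs s`, minus a constant, has as many of them. -/
theorem transfer {m : ℕ} (hm : 1 ≤ m) (Fs : ℕ → MvPolynomial (Fin m × Fin m) ℂ) {Nd : ℕ}
    (hdeg : ∀ s, (Fs s).totalDegree ≤ Nd) {F : MvPolynomial (Fin m × Fin m) ℂ}
    (hlim : ∀ d, Tendsto (fun s => coeff d (Fs s)) atTop (𝓝 (coeff d F)))
    (h0 : F ≠ 0) (hd : permPoly m ∣ F) {ι κ : Type} [Fintype ι] [Fintype κ]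
    (φ : Fin m × Fin m → MvPolynomial ι ℂ) (hφ : ∀ q, (φ q).totalDegree ≤ 1)
    (c : ι → ℂ) (hc : c ≠ 0) (x : κ → ι → ℂ) (hinj : Function.Injective x)
    (hx : ∀ k, IsCrit (aeval φ (permPoly m)) c (x k)) :
    ∃ (s : ℕ) (r : ℂ) (φ' : Fin m × Fin m → MvPolynomial ι ℂ) (c' : ι → ℂ) (x' : κ → ι → ℂ),
      (∀ q, (φ' q).totalDegree ≤ 1) ∧ c' ≠ 0 ∧ Function.Injective x' ∧
      ∀ k, IsCrit (aeval φ' (Fs s) - C r) c' (x' k) := by
  classical
  have hP := prime_permPoly hm
  obtain ⟨g, hg, hPg⟩ := (FiniteMultiplicity.of_prime_left hP h0).exists_eq_pow_mul_and_not_dvd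
  set a : ℕ := multiplicity (permPoly m) F with ha
  have ha1 : 1 ≤ a := by
    by_contra hcon
    have h1 : a = 0 := by omega
    rw [h1, pow_zero, one_mul] at hg
    exact hPg (hg ▸ hd)
  obtain ⟨φ', c', x', hφ', hc', hinj', hx'⟩ := generic hm φ hφ c hc x hinj hx hPg
  obtain ⟨U, hU, hdis⟩ := (Set.finite_range x').t2_separation
  have h1 : ∀ k, ∀ᶠ τ in 𝓝[≠] (0:ℂ), ∃ y ∈ U (x' k),
      IsCrit (aeval φ' (permPoly m) ^ a * aeval φ' g - C (τ ^ a) * 1) c' y := by
    intro k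
    obtain ⟨hcr, hne⟩ := hx' k
    exact sheet _ _ _ a ha1 c' (x' k) hc' hcr hne (by rw [map_one]; exact one_ne_zero)
      (U (x' k)) ((hU (x' k)).2.mem_nhds (hU (x' k)).1)
  obtain ⟨τ, hτ⟩ := (eventually_all.2 h1).exists
  choose y hyU hy using hτ
  have hFe : aeval φ' (permPoly m) ^ a * aeval φ' g - C (τ ^ a) * 1 =
      aeval φ' F - C (τ ^ a) := by
    have h2 : aeval φ' F = aeval φ' (permPoly m) ^ a * aeval φ' g := by
      conv_lhs => rw [hg]
      rw [map_mul, map_pow]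
    rw [h2, mul_one]
  rw [hFe] at hy
  -- persistence
  have hl1 : Gen.Lim (fun s => aeval φ' (Fs s) - C (τ ^ a)) (aeval φ' F - C (τ ^ a)) := by
    have h2 : Gen.Lim (fun s => aeval φ' (Fs s)) (aeval φ' F) := by
      intro d
      have h3 := tendsto_linear Nd Fs F hdeg hlim
        ((lcoeff ℂ d : MvPolynomial ι ℂ →ₗ[ℂ] ℂ) ∘ₗ (aeval φ').toLinearMap)
      exact h3
    intro d
    simp only [coeff_sub]
    exact (h2 d).sub tendsto_const_nhds
  have hNd : ∀ s, (aeval φ' (Fs s) - C (τ ^ a)).totalDegree ≤ Nd := by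
    intro s
    refine (totalDegree_sub _ _).trans ?_
    rw [totalDegree_C]
    exact max_le ((Gen.totalDegree_aeval_le _ hφ' _).trans (hdeg s)) (Nat.zero_le _)
  have h2 : ∀ k, ∀ᶠ s in atTop, ∃ z ∈ U (x' k),
      IsCrit (aeval φ' (Fs s) - C (τ ^ a)) c' z := by
    intro k
    exact persist_dir Nd _ _ hNd hl1 c' (y k) (fun _ => c') tendsto_const_nhds hc' (hy k)
      (U (x' k)) ((hU (x' k)).2.mem_nhds (hyU k))
  obtain ⟨s, hs⟩ := (eventually_all.2 h2).exists
  choose z hzU hz using hs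
  refine ⟨s, τ ^ a, φ', c', z, hφ', hc', ?_, hz⟩
  intro j j' hjj
  by_contra hne
  have h2 := hdis ⟨j, rfl⟩ ⟨j', rfl⟩ (fun h => hne (hinj' h))
  exact Set.disjoint_left.1 h2 (hzU j) (hjj ▸ hzU j')

end Pool.Agent.Work.MP_35c45d_lc.GC
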