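import Pool.Agent.Work.MP_35c45d_lc.LODefs
import Pool.Agent.Work.MP_35c45d_lc.SELow

/-! # Local limits: the extra variables as dummy variables -/

set_option autoImplicit false

namespace Pool.Agent.Work.MP_35c45d_lc.LO

open MvPolynomial Filter Topology SD FD SE

variable {σ ι : Type}

/-- `N + r` dummy variables are `N` extra variables and `r` dummy variables -/
noncomputable def split (N r : ℕ) (e : ι ≃ Fin N) : σ ⊕ Fin (N + r) ≃ (σ ⊕ ι) ⊕ Fin r :=
  ((Equiv.refl σ).sumCongr (finSumFinEquiv.symm.trans (e.symm.sumCongr (Equiv.refl (Fin r))))).trans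
    (Equiv.sumAssoc σ ι (Fin r)).symm

theorem split_inl (N r : ℕ) (e : ι ≃ Fin N) (z : σ) :
    split N r e (Sum.inl z) = Sum.inl (Sum.inl z) := rfl

/-- iterated derivatives commute with an injective renaming of the variables -/
theorem ren_dk {r s : ℕ} {τ : Type} (h : σ ⊕ Fin s → τ ⊕ Fin r) (hh : Function.Injective h)
    (u : σ → τ) (hu : ∀ z, h (Sum.inl z) = Sum.inl (u z)) :
    ∀ {k : ℕ} (a : Fin k → σ) (P : MvPolynomial (σ ⊕ Fin s) ℂ),
      rename h (dk a P) = dk (fun i => u (a i)) (rename h P)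
  | 0, _, _ => rfl
  | (k + 1), a, P => by
    have ih := ren_dk h hh u hu (Fin.tail a) P
    have h1 : dk a P = pderiv (Sum.inl (a 0)) (dk (Fin.tail a) P) := rfl
    have h2 : dk (fun i => u (a i)) (rename h P) =
        pderiv (Sum.inl (u (a 0))) (dk (fun i => u (Fin.tail a i)) (rename h P)) := rfl
    rw [h1, h2, ← ih, ← hu, pderiv_rename hh]

/-- transport of a family -/
theorem ren_li {k l r N : ℕ} (e : ι ≃ Fin N) {α : Type} (a : α → Fin k → σ)
    (ν : α → MvPolynomial (σ ⊕ Fin (N + r)) ℂ) (hν : ∀ x, (ν x).totalDegree ≤ l)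
    (f : MvPolynomial σ ℂ) (g0 : MvPolynomial (σ ⊕ ι) ℂ)
    (hli : LinearIndependent ℂ fun x => ν x * dk (a x)
      (rename (split N r e).symm (rename Sum.inl g0) * rename Sum.inl f)) :
    ∃ ν' : α → MvPolynomial ((σ ⊕ ι) ⊕ Fin r) ℂ, (∀ x, (ν' x).totalDegree ≤ l) ∧
      LinearIndependent ℂ (fun x => ν' x * dk (fun i => (Sum.inl (a x i) : σ ⊕ ι))
        (rename Sum.inl (g0 * rename Sum.inl f))) := by
  refine ⟨fun x => rename (split N r e) (ν x), fun x => (totalDegree_rename_le _ _).trans (hν x), ?_⟩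
  have h1 := hli.map' (rename (split N r e) :
    MvPolynomial (σ ⊕ Fin (N + r)) ℂ →ₐ[ℂ] MvPolynomial ((σ ⊕ ι) ⊕ Fin r) ℂ).toLinearMap
    (LinearMap.ker_eq_bot.2 (rename_injective _ (split N r e).injective))
  have h2 : (fun x => rename (split N r e) (ν x) * dk (fun i => (Sum.inl (a x i) : σ ⊕ ι))
        (rename Sum.inl (g0 * rename Sum.inl f))) =
      (rename (split N r e) :
        MvPolynomial (σ ⊕ Fin (N + r)) ℂ →ₐ[ℂ] MvPolynomial ((σ ⊕ ι) ⊕ Fin r) ℂ).toLinearMap ∘
      fun x => ν x * dk (a x)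
        (rename (split N r e).symm (rename Sum.inl g0) * rename Sum.inl f) := by
    funext x
    rw [Function.comp_apply, AlgHom.toLinearMap_apply]
    have h3 : (⇑(split N r e) ∘ ⇑(split N r e).symm : (σ ⊕ ι) ⊕ Fin r → (σ ⊕ ι) ⊕ Fin r) = id := by
      funext z
      exact Equiv.apply_symm_apply _ z
    have h4 : (⇑(split N r e) ∘ Sum.inl : σ → (σ ⊕ ι) ⊕ Fin r) = Sum.inl ∘ Sum.inl := by
      funext z
      exact split_inl N r e z
    have h5 : rename (split N r e) (ν x * dk (a x)
        (rename (split N r e).symm (rename Sum.inl g0) * rename Sum.inl f)) =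
        rename (split N r e) (ν x) * dk (fun i => (Sum.inl (a x i) : σ ⊕ ι))
        (rename Sum.inl (g0 * rename Sum.inl f)) := by
      rw [map_mul, ren_dk _ (split N r e).injective (fun z => (Sum.inl z : σ ⊕ ι))
        (split_inl N r e), map_mul, rename_rename, rename_rename, rename_rename, h3, h4,
        Function.id_comp, map_mul, rename_rename]
    exact h5.symm
  rw [h2]
  exact h1

end Pool.Agent.Work.MP_35c45d_lc.LO
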