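import Pool.Agent.Work.MP_35c45d_lc.LOSemi

/-! # Local limits: change of the centre -/

set_option autoImplicit false

namespace Pool.Agent.Work.MP_35c45d_lc.LO

open MvPolynomial Filter Topology SD FD

section aut

variable {τ : Type} {r k : ℕ}

/-- a substitution commutes with a derivative -/
theorem aut_pderiv [DecidableEq τ] (θ : τ → MvPolynomial τ ℂ) (z : τ)
    (h : ∀ u, pderiv z (θ u) = if u = z then 1 else 0) (q : MvPolynomial τ ℂ) :
    pderiv z (aeval θ q) = aeval θ (pderiv z q) := by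
  induction q using MvPolynomial.induction_on with
  | C a => rw [aeval_C, pderiv_C, map_zero, algebraMap_eq, pderiv_C]
  | add p q hp hq => rw [map_add, map_add, map_add, map_add, hp, hq]
  | mul_X p u hp =>
    rw [map_mul, aeval_X, Derivation.leibniz, Derivation.leibniz, hp, h u, pderiv_X, map_add]
    simp only [smul_eq_mul, map_mul, aeval_X]
    congr 1
    by_cases hu : u = z
    · subst hu
      simp
    · rw [if_neg hu, Pi.single_eq_of_ne hu, mul_zero, map_zero, mul_zero]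

theorem aut_dk [DecidableEq τ] (θ : τ ⊕ Fin r → MvPolynomial (τ ⊕ Fin r) ℂ) (S : Set τ)
    (h : ∀ z ∈ S, ∀ u, pderiv (Sum.inl z) (θ u) = if u = Sum.inl z then 1 else 0) :
    ∀ {k : ℕ} (a : Fin k → τ), (∀ i, a i ∈ S) → ∀ q : MvPolynomial (τ ⊕ Fin r) ℂ,
      dk a (aeval θ q) = aeval θ (dk a q)
  | 0, _, _, _ => rfl
  | k + 1, a, ha, q => by
    change pderiv (Sum.inl (a 0)) (dk (Fin.tail a) (aeval θ q)) = _
    rw [aut_dk θ S h (Fin.tail a) (fun i => ha i.succ) q, aut_pderiv θ _ (h _ (ha 0))]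
    rfl

end aut

section scale

variable {σ ι : Type}

/-- the weights: the new variables have weight one -/
def wI (u : σ ⊕ ι) : ℕ := Sum.elim (fun _ => 0) (fun _ => 1) u

/-- the scaling of the new variables -/
noncomputable def scl (e : ℂ) : MvPolynomial (σ ⊕ ι) ℂ →ₐ[ℂ] MvPolynomial (σ ⊕ ι) ℂ :=
  aeval (Sum.elim (fun z => X (Sum.inl z)) fun i => C e * X (Sum.inr i))

theorem scl_X (e : ℂ) (u : σ ⊕ ι) : scl e (X u) = C (e ^ wI u) * X u := by
  rw [scl, aeval_X]
  rcases u with z | i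
  · simp [wI]
  · simp [wI]

theorem coeff_scl (e : ℂ) (H : MvPolynomial (σ ⊕ ι) ℂ) (d : σ ⊕ ι →₀ ℕ) :
    coeff d (scl e H) = e ^ (Finsupp.weight wI d) * coeff d H := by
  classical
  have h1 : ∀ u : σ ⊕ ι →₀ ℕ, scl e (monomial u 1) = C (e ^ (Finsupp.weight wI u)) * monomial u 1 := by
    intro u
    induction u using Finsupp.induction_linear with
    | zero => simp
    | add f g hf hg =>
      have h2 : (monomial (f + g) (1 : ℂ)) = monomial f 1 * monomial g 1 := by
        rw [monomial_mul, one_mul]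
      rw [h2, map_mul, hf, hg, map_add, pow_add, C_mul]
      ring
    | single a b =>
      have h2 : (monomial (Finsupp.single a b) (1 : ℂ)) = X a ^ b := by
        rw [X_pow_eq_monomial]
      rw [h2, map_pow, scl_X, Finsupp.weight_single, mul_pow, ← C_pow, ← pow_mul, smul_eq_mul,
        mul_comm b]
  induction H using MvPolynomial.induction_on' with
  | monomial u a =>
    have h2 : monomial u a = C a * monomial u (1 : ℂ) := by
      rw [C_mul_monomial, mul_one]
    rw [h2, map_mul, h1, ← algebraMap_eq, AlgHom.commutes, algebraMap_eq, coeff_C_mul, coeff_C_mul,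
      coeff_C_mul, coeff_monomial]
    split_ifs with h
    · subst h
      ring
    · ring
  | add p q hp hq => rw [map_add, coeff_add, coeff_add, hp, hq, mul_add]

end scale

section main

variable {σ ι : Type}

theorem rename_eq_aeval {τ τ' : Type} (f : τ → τ') (q : MvPolynomial τ ℂ) :
    rename f q = aeval (fun u => (X (f u) : MvPolynomial τ' ℂ)) q := by
  rw [aeval_unique (rename f : MvPolynomial τ ℂ →ₐ[ℂ] MvPolynomial τ' ℂ)]
  congr 2
  funext u
  rw [Function.comp_apply, rename_X]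

theorem Fp_mul (p : ι → ℂ) (φ : ι → MvPolynomial σ ℂ) (f g : MvPolynomial ι ℂ) :
    Fp p φ (f * g) = Fp p φ f * Fp p φ g := map_mul _ _ _

theorem eq_const_add_lin (q : MvPolynomial σ ℂ) (hq : q.totalDegree ≤ 1) :
    q = C (coeff 0 q) + homogeneousComponent 1 q := by
  conv_lhs => rw [← sum_homogeneousComponent q]
  have h1 : q.totalDegree = 0 ∨ q.totalDegree = 1 := by omega
  rcases h1 with h1 | h1
  · rw [h1, Finset.sum_range_one, homogeneousComponent_zero,
      homogeneousComponent_eq_zero 1 q (by omega), add_zero]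
  · rw [h1, Finset.sum_range_succ, Finset.sum_range_one, homogeneousComponent_zero]

/-- the centre of the section -/
theorem Fp_centre (φ : ι → MvPolynomial σ ℂ) (hφ : ∀ i, (φ i).totalDegree ≤ 1)
    (f : MvPolynomial ι ℂ) :
    Fp (fun i => coeff 0 (φ i)) φ f = aeval (fun i => rename Sum.inl (φ i) + X (Sum.inr i)) f := by
  unfold Fp
  congr 2
  funext i
  conv_rhs => rw [eq_const_add_lin (φ i) (hφ i)]
  rw [map_add, rename_C]

theorem scl_zero_Fp (φ : ι → MvPolynomial σ ℂ) (hφ : ∀ i, (φ i).totalDegree ≤ 1)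
    (f : MvPolynomial ι ℂ) :
    scl 0 (Fp (fun i => coeff 0 (φ i)) φ f) = rename Sum.inl (aeval φ f) := by
  rw [Fp_centre φ hφ, scl, ← AlgHom.comp_apply, comp_aeval, ← AlgHom.comp_apply, comp_aeval]
  congr 2
  funext i
  rw [map_add, aeval_X]
  simp only [Sum.elim_inr, C_0, zero_mul, add_zero]
  rw [aeval_rename, rename_eq_aeval]
  rfl

/-- `Fp` is injective -/
theorem Fp_ne_zero (p : ι → ℂ) (φ : ι → MvPolynomial σ ℂ) (g : MvPolynomial ι ℂ) (hg : g ≠ 0) :
    Fp p φ g ≠ 0 := by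
  intro h0
  apply hg
  have h1 : aeval (Sum.elim (fun _ => 0) (fun i => X i - C (p i)) :
      σ ⊕ ι → MvPolynomial ι ℂ) (Fp p φ g) = g := by
    rw [Fp, ← AlgHom.comp_apply, comp_aeval]
    conv_rhs => rw [← aeval_X_left_apply g]
    congr 2
    funext i
    rw [map_add, map_add, aeval_X, aeval_rename, aeval_C, algebraMap_eq, Sum.elim_inr]
    have h2 : aeval ((Sum.elim (fun _ => 0) (fun i => X i - C (p i)) :
        σ ⊕ ι → MvPolynomial ι ℂ) ∘ Sum.inl) (homogeneousComponent 1 (φ i)) = 0 := by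
      have h3 : ((Sum.elim (fun _ => 0) (fun i => X i - C (p i)) :
        σ ⊕ ι → MvPolynomial ι ℂ) ∘ Sum.inl) = 0 := rfl
      rw [h3, aeval_zero, constantCoeff_eq, coeff_homogeneousComponent, if_neg (by simp), map_zero]
    rw [h2]
    ring
  rw [← h1, h0, map_zero]

theorem tendsto_rename_inl {τ β : Type} {r : ℕ} {F : Filter β} (w : β → MvPolynomial τ ℂ)
    (w0 : MvPolynomial τ ℂ) (h : ∀ d, Tendsto (fun s => coeff d (w s)) F (𝓝 (coeff d w0)))
    (d : τ ⊕ Fin r →₀ ℕ) :
    Tendsto (fun s => coeff d (rename (Sum.inl : τ → τ ⊕ Fin r) (w s))) F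
      (𝓝 (coeff d (rename (Sum.inl : τ → τ ⊕ Fin r) w0))) := by
  classical
  by_cases hd : ∃ u : τ →₀ ℕ, u.mapDomain (Sum.inl : τ → τ ⊕ Fin r) = d
  · obtain ⟨u, rfl⟩ := hd
    simp only [coeff_rename_mapDomain _ Sum.inl_injective]
    exact h u
  · have h1 : ∀ q : MvPolynomial τ ℂ, coeff d (rename (Sum.inl : τ → τ ⊕ Fin r) q) = 0 := by
      intro q
      exact coeff_rename_eq_zero _ _ _ fun u hu => absurd ⟨u, hu⟩ hd
    simp only [h1]
    exact tendsto_const_nhds

/-- the affine change of the new variables -/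
noncomputable def tht (r : ℕ) (e : ℂ) (q : ι → ℂ) :
    (σ ⊕ ι) ⊕ Fin r → MvPolynomial ((σ ⊕ ι) ⊕ Fin r) ℂ :=
  Sum.elim (Sum.elim (fun z => X (Sum.inl (Sum.inl z)))
    fun i => C e * X (Sum.inl (Sum.inr i)) + C (q i)) fun j => X (Sum.inr j)

theorem tht_inj (r : ℕ) (e : ℂ) (he : e ≠ 0) (q : ι → ℂ) :
    Function.Injective (aeval (tht (σ := σ) r e q) :
      MvPolynomial ((σ ⊕ ι) ⊕ Fin r) ℂ →ₐ[ℂ] MvPolynomial ((σ ⊕ ι) ⊕ Fin r) ℂ) := by
  have h1 : ∀ P : MvPolynomial ((σ ⊕ ι) ⊕ Fin r) ℂ,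
      aeval (tht r e⁻¹ fun i => -(e⁻¹ * q i)) (aeval (tht r e q) P) = P := by
    intro P
    rw [← AlgHom.comp_apply, comp_aeval]
    conv_rhs => rw [← aeval_X_left_apply P]
    congr 2
    funext u
    rcases u with (z | i) | j
    · simp [tht]
    · simp only [tht, Sum.elim_inl, Sum.elim_inr, map_add, map_mul, aeval_X, aeval_C, algebraMap_eq]
      rw [mul_add, ← mul_assoc, ← C_mul, ← C_mul, mul_inv_cancel₀ he, C_1, one_mul, mul_neg,
        ← mul_assoc, mul_inv_cancel₀ he, one_mul, C_neg]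
      ring
    · simp [tht]
  exact Function.LeftInverse.injective h1

theorem tht_deg (r : ℕ) (e : ℂ) (q : ι → ℂ) (u : (σ ⊕ ι) ⊕ Fin r) :
    (tht r e q u).totalDegree ≤ 1 := by
  rcases u with (z | i) | j
  · simp [tht]
  · simp only [tht, Sum.elim_inl, Sum.elim_inr]
    refine (totalDegree_add _ _).trans (max_le ?_ ?_)
    · refine (totalDegree_mul _ _).trans ?_
      rw [totalDegree_C, totalDegree_X]
    · rw [totalDegree_C]
      exact Nat.zero_le _
  · simp [tht]

theorem tht_pderiv [DecidableEq σ] [DecidableEq ι] (r : ℕ) (e : ℂ) (q : ι → ℂ) (z : σ ⊕ ι)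
    (hz : z ∈ Set.range (Sum.inl : σ → σ ⊕ ι)) (u : (σ ⊕ ι) ⊕ Fin r) :
    pderiv (Sum.inl z) (tht r e q u) = if u = Sum.inl z then 1 else 0 := by
  obtain ⟨z, rfl⟩ := hz
  rcases u with (z' | i) | j
  · simp only [tht, Sum.elim_inl, pderiv_X]
    by_cases h : z' = z
    · subst h
      simp
    · rw [Pi.single_eq_of_ne (by simpa using h), if_neg (by simpa using h)]
  · simp only [tht, Sum.elim_inl, Sum.elim_inr, map_add, Derivation.leibniz, pderiv_C, pderiv_X,
      smul_zero, add_zero]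
    rw [Pi.single_eq_of_ne (by simp), if_neg (by simp), smul_zero]
  · simp only [tht, Sum.elim_inr, pderiv_X]
    rw [Pi.single_eq_of_ne (by simp), if_neg (by simp)]

/-- the change of variables carries the scaled centre to `p` -/
theorem tht_scl (r : ℕ) (e : ℂ) (he : e ≠ 0) (φ : ι → MvPolynomial σ ℂ)
    (hφ : ∀ i, (φ i).totalDegree ≤ 1) (p : ι → ℂ) (f : MvPolynomial ι ℂ) :
    aeval (tht r e⁻¹ fun i => e⁻¹ * (p i - coeff 0 (φ i)))
      (rename Sum.inl (scl e (Fp (fun i => coeff 0 (φ i)) φ f))) =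
      rename Sum.inl (Fp p φ f) := by
  rw [Fp_centre φ hφ, scl, ← AlgHom.comp_apply (aeval (Sum.elim _ _)), comp_aeval, aeval_rename,
    ← AlgHom.comp_apply, comp_aeval, Fp, ← AlgHom.comp_apply, comp_aeval]
  congr 2
  funext i
  rw [map_add, map_add, map_add, map_add, aeval_X, Sum.elim_inr, map_mul, aeval_C, algebraMap_eq,
    aeval_X, rename_C, rename_X, aeval_rename, Function.comp_apply]
  have h1 : aeval ((Sum.elim (fun z => X (Sum.inl z)) fun i => C e * X (Sum.inr i) :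
      σ ⊕ ι → MvPolynomial (σ ⊕ ι) ℂ) ∘ Sum.inl) (φ i) = rename Sum.inl (φ i) := by
    rw [rename_eq_aeval]
    rfl
  have h2 : aeval ((tht r e⁻¹ fun i => e⁻¹ * (p i - coeff 0 (φ i))) ∘ Sum.inl)
      (rename (Sum.inl : σ → σ ⊕ ι) (φ i)) =
      rename (Sum.inl : σ ⊕ ι → (σ ⊕ ι) ⊕ Fin r) (rename Sum.inl (φ i)) := by
    rw [aeval_rename, rename_rename, rename_eq_aeval]
    rfl
  rw [h1, h2]
  conv_lhs => rw [eq_const_add_lin (φ i) (hφ i)]
  simp only [tht, Sum.elim_inl, Sum.elim_inr, map_add, rename_C]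
  rw [mul_add, ← mul_assoc, ← C_mul, ← C_mul, mul_inv_cancel₀ he, ← mul_assoc,
    mul_inv_cancel₀ he, one_mul, C_1, one_mul, C_sub]
  ring

theorem tendsto_scl_lowest (H : MvPolynomial (σ ⊕ ι) ℂ) (b : ℕ)
    (hb : ∀ d, coeff d H ≠ 0 → b ≤ Finsupp.weight wI d) (d : σ ⊕ ι →₀ ℕ) :
    Tendsto (fun e : ℂ => coeff d (C ((e ^ b)⁻¹) * scl e H)) (𝓝[≠] 0)
      (𝓝 (coeff d (weightedHomogeneousComponent wI b H))) := by
  classical
  rw [coeff_weightedHomogeneousComponent]
  simp only [coeff_C_mul, coeff_scl]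
  by_cases h0 : coeff d H = 0
  · rw [h0, ite_self]
    simp only [mul_zero]
    exact tendsto_const_nhds
  · have h1 := hb d h0
    obtain ⟨j, hj⟩ : ∃ j, Finsupp.weight wI d = b + j := ⟨Finsupp.weight wI d - b, by omega⟩
    have h2 : ∀ᶠ e : ℂ in 𝓝[≠] 0, e ^ j * coeff d H =
        (e ^ b)⁻¹ * (e ^ (Finsupp.weight wI d) * coeff d H) := by
      filter_upwards [self_mem_nhdsWithin] with e he
      have he' : e ≠ 0 := he
      rw [hj, pow_add]
      field_simp
    refine Tendsto.congr' h2 ?_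
    have h3 : Tendsto (fun e : ℂ => e ^ j * coeff d H) (𝓝[≠] 0) (𝓝 (0 ^ j * coeff d H)) := by
      refine Tendsto.mono_left ?_ nhdsWithin_le_nhds
      have : Continuous fun e : ℂ => e ^ j * coeff d H := by fun_prop
      exact this.tendsto 0
    rcases Nat.eq_zero_or_pos j with rfl | hj0
    · rw [if_pos (by omega)]
      simpa using h3
    · rw [if_neg (by omega)]
      rw [zero_pow (by omega), zero_mul] at h3
      exact h3

theorem tendsto_scl_zero (H : MvPolynomial (σ ⊕ ι) ℂ) (d : σ ⊕ ι →₀ ℕ) :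
    Tendsto (fun e : ℂ => coeff d (scl e H)) (𝓝[≠] 0) (𝓝 (coeff d (scl 0 H))) := by
  simp only [coeff_scl]
  refine Tendsto.mono_left ?_ nhdsWithin_le_nhds
  have : Continuous fun e : ℂ => e ^ (Finsupp.weight wI d) * coeff d H := by fun_prop
  exact this.tendsto 0

end main

/-- (L2) A linearly independent family of shifted derivatives of `g0 * f`, `f` a section of `P`, gives
one of the same size for `g * P` at any centre. -/
theorem shift {σ ι : Type} [Fintype σ] [DecidableEq σ] [Fintype ι] [DecidableEq ι]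
    (P g : MvPolynomial ι ℂ) (hg : g ≠ 0) (φ : ι → MvPolynomial σ ℂ)
    (hφ : ∀ i, (φ i).totalDegree ≤ 1) (p : ι → ℂ) :
    ∃ g0 : MvPolynomial (σ ⊕ ι) ℂ, g0 ≠ 0 ∧ (g = 1 → g0 = 1) ∧
      ∀ (k l r : ℕ) (α : Type) [Fintype α] (a : α → Fin k → σ)
        (ν : α → MvPolynomial ((σ ⊕ ι) ⊕ Fin r) ℂ), (∀ x, (ν x).totalDegree ≤ l) →
        LinearIndependent ℂ (fun x => ν x * dk (fun i => (Sum.inl (a x i) : σ ⊕ ι))
          (rename Sum.inl (g0 * rename Sum.inl (aeval φ P)))) →
        ∃ ν' : α → MvPolynomial ((σ ⊕ ι) ⊕ Fin r) ℂ, (∀ x, (ν' x).totalDegree ≤ l) ∧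
          LinearIndependent ℂ (fun x => ν' x * dk (fun i => (Sum.inl (a x i) : σ ⊕ ι))
            (rename Sum.inl (Fp p φ (g * P)))) := by
  classical
  set H := Fp (fun i => coeff 0 (φ i)) φ g with hH
  have hH0 : H ≠ 0 := Fp_ne_zero _ _ _ hg
  obtain ⟨d0, hd0, hmin⟩ := H.support.exists_min_image (fun d => Finsupp.weight wI d)
    (support_nonempty.2 hH0)
  refine ⟨weightedHomogeneousComponent wI (Finsupp.weight wI d0) H, ?_, ?_, ?_⟩
  · intro h0
    have h1 := congrArg (coeff d0) h0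
    rw [coeff_weightedHomogeneousComponent, if_pos rfl, coeff_zero] at h1
    exact (mem_support_iff.1 hd0) h1
  · intro hg1
    have h1 : H = 1 := by
      rw [hH, hg1, Fp, map_one]
    have h2 : d0 = 0 := by
      by_contra hne
      rw [mem_support_iff, h1, coeff_one, if_neg (Ne.symm hne)] at hd0
      exact hd0 rfl
    rw [h1, h2, map_zero]
    ext d
    rw [coeff_weightedHomogeneousComponent, coeff_one]
    by_cases hd : (0 : σ ⊕ ι →₀ ℕ) = d
    · rw [← hd, map_zero, if_pos rfl, if_pos rfl]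
    · rw [if_neg hd, ite_self]
  · intro k l r α _ a ν hν hli
    set b := Finsupp.weight wI d0 with hb
    set g0 := weightedHomogeneousComponent wI b H with hg0
    -- the scaled family
    have hlim1 : ∀ d, Tendsto (fun e : ℂ => coeff d (C ((e ^ b)⁻¹) * scl e
        (Fp (fun i => coeff 0 (φ i)) φ (g * P)))) (𝓝[≠] 0)
        (𝓝 (coeff d (g0 * rename Sum.inl (aeval φ P)))) := by
      have h1 : ∀ e : ℂ, C ((e ^ b)⁻¹) * scl e (Fp (fun i => coeff 0 (φ i)) φ (g * P)) =
          (C ((e ^ b)⁻¹) * scl e H) * scl e (Fp (fun i => coeff 0 (φ i)) φ P) := by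
        intro e
        rw [Fp_mul, map_mul, mul_assoc]
      simp only [h1]
      refine tendsto_mul _ _ _ _ ?_ ?_
      · refine tendsto_scl_lowest H b fun d hd => hmin d (mem_support_iff.2 hd)
      · intro d
        have h2 := tendsto_scl_zero (Fp (fun i => coeff 0 (φ i)) φ P) d
        rwa [scl_zero_Fp φ hφ] at h2
    have hev := li_open (F := 𝓝[≠] (0 : ℂ)) (fun x => ν x * dk (fun i => (Sum.inl (a x i) : σ ⊕ ι))
        (rename Sum.inl (g0 * rename Sum.inl (aeval φ P))))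
      (fun (e : ℂ) x => ν x * dk (fun i => (Sum.inl (a x i) : σ ⊕ ι))
        (rename Sum.inl (C ((e ^ b)⁻¹) * scl e (Fp (fun i => coeff 0 (φ i)) φ (g * P)))))
      (fun x => tendsto_mul _ _ _ _ (fun _ => tendsto_const_nhds)
        (tendsto_dk _ _ (tendsto_rename_inl _ _ hlim1) _)) hli
    obtain ⟨e, he1, he2⟩ := (hev.and self_mem_nhdsWithin).exists
    have he : e ≠ 0 := he2
    -- remove the scalar
    have hc : ((e ^ b)⁻¹ : ℂ) ≠ 0 := inv_ne_zero (pow_ne_zero _ he)
    have hli2 : LinearIndependent ℂ (fun x => ν x * dk (fun i => (Sum.inl (a x i) : σ ⊕ ι))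
        (rename Sum.inl (scl e (Fp (fun i => coeff 0 (φ i)) φ (g * P))))) := by
      have h3 := he1.units_smul (fun _ => (Units.mk0 _ hc)⁻¹)
      convert h3 using 1
      funext x
      rw [Pi.smul_apply', dk_eq, dk_eq, map_mul, rename_C, ← smul_eq_C_mul, map_smul, mul_smul_comm,
        Units.smul_def, smul_smul]
      simp only [Units.val_inv_eq_inv_val, Units.val_mk0]
      rw [inv_mul_cancel₀ hc, one_smul]
    -- the change of variables
    set Θ : MvPolynomial ((σ ⊕ ι) ⊕ Fin r) ℂ →ₐ[ℂ] MvPolynomial ((σ ⊕ ι) ⊕ Fin r) ℂ :=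
      aeval (tht r e⁻¹ fun i => e⁻¹ * (p i - coeff 0 (φ i))) with hΘ
    have hli3 := hli2.map' Θ.toLinearMap
      (LinearMap.ker_eq_bot.2 (tht_inj r e⁻¹ (inv_ne_zero he) _))
    refine ⟨fun x => Θ (ν x), fun x => ?_, ?_⟩
    · refine (totalDegree_aeval_le _ _ 1 (tht_deg r _ _)).trans ?_
      rw [mul_one]
      exact hν x
    · have h4 : (fun x => Θ (ν x) * dk (fun i => (Sum.inl (a x i) : σ ⊕ ι))
          (rename Sum.inl (Fp p φ (g * P)))) = (⇑Θ.toLinearMap ∘ fun x => ν x *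
          dk (fun i => (Sum.inl (a x i) : σ ⊕ ι))
            (rename Sum.inl (scl e (Fp (fun i => coeff 0 (φ i)) φ (g * P))))) := by
        funext x
        rw [Function.comp_apply, AlgHom.toLinearMap_apply, map_mul]
        congr 1
        rw [hΘ, ← aut_dk (tht r e⁻¹ fun i => e⁻¹ * (p i - coeff 0 (φ i)))
          (Set.range (Sum.inl : σ → σ ⊕ ι)) (fun z hz u => tht_pderiv r _ _ z hz u)
          (fun i => (Sum.inl (a x i) : σ ⊕ ι)) (fun i => ⟨a x i, rfl⟩), tht_scl r e he φ hφ]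
      rw [h4]
      exact hli3

end Pool.Agent.Work.MP_35c45d_lc.LO
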