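import Pool.Agent.Work.MP_35c45d_lc.FGCore
import Pool.Agent.Work.MP_35c45d_lc.LOShift
import Pool.Agent.Work.MP_35c45d_lc.LORen

/-! # Local limits: the inequality between the parameters -/

set_option autoImplicit false

namespace Pool.Agent.Work.MP_35c45d_lc.LO

open MvPolynomial Filter Topology SD FD SE SM

/-- the extra variables are introduced by a linear substitution -/
theorem LimU.Fp {σ ι : Type} [Fintype ι] {M c n : ℕ} (p : ι → ℂ) (φ : ι → MvPolynomial σ ℂ)
    (f : MvPolynomial ι ℂ) (h : LimU M c n (recen p f)) : LimU M c n (LO.Fp p φ f) := by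
  have h1 := h.subst (fun i => rename Sum.inl (homogeneousComponent 1 (φ i)) +
    X (Sum.inr i) : ι → MvPolynomial (σ ⊕ ι) ℂ) (fun i => ?_)
  · have h2 : aeval (fun i => rename Sum.inl (homogeneousComponent 1 (φ i)) +
        X (Sum.inr i) : ι → MvPolynomial (σ ⊕ ι) ℂ) (recen p f) = LO.Fp p φ f := by
      rw [recen, ← AlgHom.comp_apply, comp_aeval, LO.Fp]
      congr 2
      funext i
      rw [map_add, aeval_C, algebraMap_eq, aeval_X]
      ring
    rwa [h2] at h1
  · exact ((homogeneousComponent_isHomogeneous 1 (φ i)).rename_isHomogeneous).add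
      (isHomogeneous_X _ _)

/-- the number of shifted derivatives, over abstract index types -/
theorem card_abs {σ ι : Type} [Fintype σ] [DecidableEq σ] [Fintype ι] [DecidableEq ι]
    {c n M : ℕ} (P g : MvPolynomial ι ℂ) (hg : g ≠ 0) (φ : ι → MvPolynomial σ ℂ)
    (hφ : ∀ i, (φ i).totalDegree ≤ 1) (p : ι → ℂ) (h : LimU M c n (recen p (g * P))) :
    ∃ g0 : MvPolynomial (σ ⊕ ι) ℂ, g0 ≠ 0 ∧
      ∀ (k l : ℕ) (α : Type) [Fintype α] (a : α → Fin k → σ)
        (ν : α → MvPolynomial (σ ⊕ Fin (Fintype.card ι + c * n)) ℂ),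
        (∀ x, (ν x).totalDegree ≤ l) →
        LinearIndependent ℂ (fun x => ν x * dk (a x)
          (rename (split (Fintype.card ι) (c * n) (Fintype.equivFin ι)).symm
            (rename Sum.inl g0) * rename Sum.inl (aeval φ P))) →
        Fintype.card α ≤ M * ubG (Fintype.card σ + Fintype.card ι) c n k l := by
  obtain ⟨g0, hg0, -, hsh⟩ := shift P g hg φ hφ p
  refine ⟨g0, hg0, fun k l α _ a ν hν hli => ?_⟩
  obtain ⟨ν1, hν1, hli1⟩ := ren_li (r := c * n) (Fintype.equivFin ι) a ν hν (aeval φ P) g0 hli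
  obtain ⟨ν', hν', hli2⟩ := hsh k l (c * n) α a ν1 hν1 hli1
  have h1 := lim_card_gen (ubG (Fintype.card (σ ⊕ ι)) c n k l)
    (fun A hA v hv Ψ => upperG A hA v hv Ψ k l) (h.Fp p φ (g * P))
    (fun x i => (Sum.inl (a x i) : σ ⊕ ι)) ν' hν' hli2
  rwa [Fintype.card_sum] at h1

/-- the number of shifted derivatives -/
theorem card_le {ι : Type} [Fintype ι] [DecidableEq ι] {k T L D c n M l : ℕ}
    (hT : 1 ≤ T) (hD : 2 ≤ D) (hL : D < L) {c1 : ℂ} (hc1 : c1 ≠ 0)
    (P g : MvPolynomial ι ℂ) (hg : g ≠ 0)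
    (φ : ι → MvPolynomial (Fin k × Fin T × Fin L) ℂ) (hφ : ∀ i, (φ i).totalDegree ≤ 1)
    (hP : aeval φ P = C c1 * esf k T L D) (p : ι → ℂ) (h : LimU M c n (recen p (g * P))) :
    (goodM k T L D (Fintype.card ι + c * n) l).card ≤
      M * ubG (k * (T * L) + Fintype.card ι) c n k l := by
  obtain ⟨g0, hg0, hab⟩ := card_abs P g hg φ hφ p h
  have hg1 : rename (split (Fintype.card ι) (c * n) (Fintype.equivFin ι)).symm
      (rename Sum.inl g0) * (C c1 : MvPolynomial (Vr k T L (Fintype.card ι + c * n)) ℂ) ≠ 0 := by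
    refine mul_ne_zero ?_ (C_ne_zero.2 hc1)
    intro h0
    apply hg0
    have h1 := rename_injective _
      (split (Fintype.card ι) (c * n) (Fintype.equivFin ι)).symm.injective
      (h0.trans (map_zero _).symm)
    exact rename_injective _ Sum.inl_injective (h1.trans (map_zero _).symm)
  obtain ⟨b, hb, hli⟩ := indepM (k := k) (T := T) (L := L) (D := D)
    (n := Fintype.card ι + c * n) (l := l) hT hD hL _ hg1
  have hE : rename (split (Fintype.card ι) (c * n) (Fintype.equivFin ι)).symm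
      (rename Sum.inl g0) * (C c1 : MvPolynomial (Vr k T L (Fintype.card ι + c * n)) ℂ) *
      rename Sum.inl (esf k T L D) =
      rename (split (Fintype.card ι) (c * n) (Fintype.equivFin ι)).symm
      (rename Sum.inl g0) * rename Sum.inl (aeval φ P) := by
    rw [hP, map_mul, rename_C, mul_assoc]
  rw [hE] at hli
  have h1 := hab k l _ _ _ (fun x => ?_) hli
  · rw [Fintype.card_coe, Fintype.card_prod, Fintype.card_prod,
      Fintype.card_fin, Fintype.card_fin, Fintype.card_fin] at h1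
    exact h1
  · refine (hb _).trans ?_
    have hx := (Finset.mem_filter.1 x.2).1
    rw [goodE, Finset.mem_product, Finset.mem_filter, Finset.mem_filter] at hx
    exact (mem_mons.1 hx.2.1).2

/-- Compare `SM.coreF`. -/
theorem core {ι : Type} [Fintype ι] [DecidableEq ι] {k T L D c n M w : ℕ} (hk : 1 ≤ k)
    (hT : 1 ≤ T) (hD2 : 2 ≤ D) (hL : D < L) (hw : w + 1 = T * (L - (D - 1)))
    (hD : 2 * Real.log (2 * k * (T * L)) ≤ (D : ℝ) - 1) {c1 : ℂ} (hc1 : c1 ≠ 0)
    (P g : MvPolynomial ι ℂ) (hg : g ≠ 0)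
    (φ : ι → MvPolynomial (Fin k × Fin T × Fin L) ℂ) (hφ : ∀ i, (φ i).totalDegree ≤ 1)
    (hP : aeval φ P = C c1 * esf k T L D) (p : ι → ℂ) (h : LimU M c n (recen p (g * P))) (δ : ℝ)
    (hδ : δ = 2 * Real.log (2 * k * (T * L)) / ((D : ℝ) - 1))
    (hn : 384 * (c + k + LamG c n k δ) ≤ k * (w : ℝ)) :
    (2 : ℝ) ^ k ≤ 2 * M := by
  have hcast : 2 * ((k * (T * L) : ℕ) : ℝ) = 2 * k * (T * L) := by
    push_cast
    ring
  have hw1 : 1 ≤ w := by
    have h1 : 1 * 2 ≤ T * (L - (D - 1)) := Nat.mul_le_mul hT (by omega)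
    omega
  have hNv : 2 ≤ k * (T * L) := by
    have h1 : 1 * (1 * L) ≤ k * (T * L) := Nat.mul_le_mul hk (Nat.mul_le_mul_right L hT)
    omega
  refine core_genT (k := k) (D := D) (c := c) (n := n) (M := M) (w := w) (Nv := k * (T * L))
    (Nt := k * (T * L) + Fintype.card ι) hk hw1 hNv (by omega) hD2 (by rw [hcast]; exact hD)
    (fun l => (goodM k T L D (Fintype.card ι + c * n) l).card)
    ?_ (fun l => card_le hT hD2 hL hc1 P g hg φ hφ hP p h) δ (by rw [hcast]; exact hδ) hn
  intro l z hz hexp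
  rw [add_assoc (k * (T * L))] at hz ⊢
  have hw' : w = T * (L - (D - 1)) - 1 := by omega
  rw [hw']
  exact goodM_card k T L D (Fintype.card ι + c * n) l hk hT (by omega) hL.le z hz hexp

end Pool.Agent.Work.MP_35c45d_lc.LO
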