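import Pool.Agent.Work.MP_35c45d_lc.FDSemi

/-! # Local limits of functions of determinants: definitions

The degrees of the outer polynomials are not bounded along the sequence; only coefficientwise
convergence at one centre is assumed. This contains analytic (even formal) outer functions.
-/

set_option autoImplicit false

namespace Pool.Agent.Work.MP_35c45d_lc.LO

open MvPolynomial Filter Topology SD FD

/-- `f` is a coefficientwise limit of sums of `M` polynomials, of any degrees, in `c` determinants of
`n × n` matrices of affine linear forms. -/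
def LimU (M c n : ℕ) {ι : Type} (f : MvPolynomial ι ℂ) : Prop :=
  ∃ (Ψ : ℕ → Fin M → MvPolynomial (Fin c) ℂ)
    (A : ℕ → Fin M → Fin c → Matrix (Fin n) (Fin n) (MvPolynomial ι ℂ)),
    (∀ s t a i j, (A s t a i j).totalDegree ≤ 1) ∧
    ∀ d, Tendsto (fun s => coeff d (∑ t, aeval (fun a => (A s t a).det) (Ψ s t))) atTop
      (𝓝 (coeff d f))

/-- the Taylor expansion at `p` -/
noncomputable def recen {ι : Type} (p : ι → ℂ) (f : MvPolynomial ι ℂ) : MvPolynomial ι ℂ :=
  aeval (fun i => C (p i) + X i) f

/-- `f (p + L z + x)`, where `L z` is the linear part of `φ` and the `x` are new variables -/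
noncomputable def Fp {σ ι : Type} (p : ι → ℂ) (φ : ι → MvPolynomial σ ℂ) (f : MvPolynomial ι ℂ) :
    MvPolynomial (σ ⊕ ι) ℂ :=
  aeval (fun i => C (p i) + rename Sum.inl (homogeneousComponent 1 (φ i)) + X (Sum.inr i)) f

end Pool.Agent.Work.MP_35c45d_lc.LO
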