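import Pool.Agent.Work.MP_35c45d_lc.LOMain

/-! # The final form, with formal power series -/

set_option autoImplicit false

namespace Pool.Agent.Work.MP_35c45d_lc.LO

open MvPolynomial Filter Topology SD FD SE

theorem recen_permP {m : ℕ} (P : Matrix (Fin m) (Fin m) ℂ) :
    recen (fun q : Fin m × Fin m => P q.1 q.2) (permP m) =
      (Matrix.of fun i j : Fin m => (X (i, j) + C (P i j) :
        MvPolynomial (Fin m × Fin m) ℂ)).permanent := by
  unfold recen permP Matrix.permanent
  rw [map_sum]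
  refine Finset.sum_congr rfl fun σ _ => ?_
  rw [map_prod]
  refine Finset.prod_congr rfl fun i _ => ?_
  rw [Matrix.of_apply, Matrix.of_apply, aeval_X, add_comm]

theorem pow_main (ε : ℝ) (hε : 0 < ε) : ∃ κ : ℝ, 0 < κ ∧ ∀ m c n M : ℕ, 1 ≤ m →
    ∀ (P : Matrix (Fin m) (Fin m) ℂ) (g : MvPolynomial (Fin m × Fin m) ℂ)
      (Ψ : ℕ → Fin M → MvPowerSeries (Fin c) ℂ)
      (A : ℕ → Fin M → Fin c → Matrix (Fin n) (Fin n) (MvPolynomial (Fin m × Fin m) ℂ)),
      g ≠ 0 → (∀ s t a i j, (A s t a i j).totalDegree ≤ 1) →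
      (∀ d, Tendsto (fun s => MvPowerSeries.coeff d (∑ t, MvPowerSeries.subst
          (fun a => (((A s t a).det - C (constantCoeff (A s t a).det) :
            MvPolynomial (Fin m × Fin m) ℂ) : MvPowerSeries (Fin m × Fin m) ℂ)) (Ψ s t))) atTop
        (𝓝 (coeff d (g * (Matrix.of fun i j : Fin m => (X (i, j) + C (P i j) :
          MvPolynomial (Fin m × Fin m) ℂ)).permanent)))) →
      κ * (m : ℝ) ^ (2 - ε) ≤ c * Real.log (M + 1) +
        n * √c * (Real.log (M + 1) * √(Real.log (M + 1))) +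
        min (n : ℝ) (Real.log (M + 1)) * Real.log (M + 1) ^ 2 := by
  obtain ⟨κ, hκ, h⟩ := main ε hε
  refine ⟨κ, hκ, fun m c n M hm P g Ψ A hg hA hlim => ?_⟩
  set p : Fin m × Fin m → ℂ := fun q => P q.1 q.2 with hp
  have hr : recen p (recen (fun q => - p q) g) = g := by
    have h1 := recen_recen (fun q => - p q) g
    simpa using h1
  refine h m c n M hm p (recen (fun q => - p q) g) (fun h0 => hg ?_) ?_
  · rw [← hr, h0, recen, map_zero]
  · have h2 : recen p (recen (fun q => - p q) g * permP m) = g * (Matrix.of fun i j : Fin m =>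
        (X (i, j) + C (P i j) : MvPolynomial (Fin m × Fin m) ℂ)).permanent := by
      rw [← recen_permP P, ← hp]
      conv_rhs => rw [← hr]
      unfold recen
      rw [map_mul]
    rw [h2]
    obtain ⟨Q, hQ⟩ := exists_poly (fun s t a => (A s t a).det) Ψ _ hlim
    exact ⟨Q, A, hA, hQ⟩

end Pool.Agent.Work.MP_35c45d_lc.LO
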