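import Mathlib

/-! # From formal power series to polynomials

A coefficientwise limit of sums of formal power series in polynomials without constant term is a
coefficientwise limit of sums of polynomials in these polynomials. -/

set_option autoImplicit false

namespace Pool.Agent.Work.MP_35c45d_lc.LO

open MvPolynomial Filter Topology

theorem coe_aeval {ι κ : Type} (F : κ → MvPolynomial ι ℂ) (P : MvPolynomial κ ℂ) :
    (aeval (fun a => ((F a : MvPolynomial ι ℂ) : MvPowerSeries ι ℂ)) P : MvPowerSeries ι ℂ) =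
      ((aeval F P : MvPolynomial ι ℂ) : MvPowerSeries ι ℂ) := by
  have h : ∀ Q : MvPolynomial ι ℂ, coeToMvPowerSeries.algHom ℂ Q = (Q : MvPowerSeries ι ℂ) := by
    intro Q
    rw [coeToMvPowerSeries.algHom_apply]
    simp
  rw [← h (aeval F P), ← AlgHom.comp_apply, comp_aeval]
  congr 2

/-- the coefficients of small degree only depend on the truncation -/
theorem coeff_subst_trunc {ι : Type} [Finite ι] {c : ℕ} (F : Fin c → MvPolynomial ι ℂ)
    (hF : ∀ a, constantCoeff (F a) = 0) (Ψ : MvPowerSeries (Fin c) ℂ) (N : ℕ) (d : ι →₀ ℕ)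
    (hd : d.degree < N) :
    MvPowerSeries.coeff d (MvPowerSeries.subst (fun a => (F a : MvPowerSeries ι ℂ)) Ψ) =
      coeff d (aeval F (MvPowerSeries.truncTotal N Ψ)) := by
  have h0 : ∀ a, MvPowerSeries.constantCoeff ((F a : MvPolynomial ι ℂ) : MvPowerSeries ι ℂ) = 0 := by
    intro a
    rw [← MvPowerSeries.coeff_zero_eq_constantCoeff_apply, MvPolynomial.coeff_coe]
    exact hF a
  have h1 := MvPowerSeries.truncTotal_subst_eq_truncTotal_truncTotal_subst (k := N) (f := Ψ) h0
  have h2 := congrArg (coeff d) h1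
  rw [MvPowerSeries.coeff_truncTotal _ hd, MvPowerSeries.coeff_truncTotal _ hd,
    MvPowerSeries.subst_coe, coe_aeval, MvPolynomial.coeff_coe] at h2
  exact h2

theorem exists_poly {ι : Type} [Finite ι] {M c : ℕ} (F : ℕ → Fin M → Fin c → MvPolynomial ι ℂ)
    (Ψ : ℕ → Fin M → MvPowerSeries (Fin c) ℂ) (f : (ι →₀ ℕ) → ℂ)
    (h : ∀ d, Tendsto (fun s => MvPowerSeries.coeff d (∑ t, MvPowerSeries.subst
      (fun a => ((F s t a - C (constantCoeff (F s t a)) : MvPolynomial ι ℂ) : MvPowerSeries ι ℂ))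
      (Ψ s t))) atTop (𝓝 (f d))) :
    ∃ Q : ℕ → Fin M → MvPolynomial (Fin c) ℂ,
      ∀ d, Tendsto (fun s => coeff d (∑ t, aeval (F s t) (Q s t))) atTop (𝓝 (f d)) := by
  refine ⟨fun s t => aeval (fun a => X a - C (constantCoeff (F s t a)))
    (MvPowerSeries.truncTotal s (Ψ s t)), fun d => ?_⟩
  refine (h d).congr' ?_
  filter_upwards [eventually_gt_atTop d.degree] with s hs
  rw [map_sum, coeff_sum]
  refine Finset.sum_congr rfl fun t _ => ?_
  rw [coeff_subst_trunc (fun a => F s t a - C (constantCoeff (F s t a)))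
    (fun a => by simp) (Ψ s t) s d hs]
  congr 1
  rw [← AlgHom.comp_apply, comp_aeval]
  congr 2
  funext a
  simp

end Pool.Agent.Work.MP_35c45d_lc.LO
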