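import Pool.Agent.Work.MP_35c45d_lc.SMLim

/-! # Sections of multiples of the permanent: sums of functions of determinants -/

set_option autoImplicit false

namespace Pool.Agent.Work.MP_35c45d_lc.SM

open MvPolynomial Filter Topology SD FD

/-- sums of `M` functions of degree at most `D` of `c` determinants of size `n` -/
def funSet (M c n D : ℕ) (ι : Type) : Set (MvPolynomial ι ℂ) :=
  {F | ∃ (Ψ : Fin M → MvPolynomial (Fin c) ℂ)
    (A : Fin M → Fin c → Matrix (Fin n) (Fin n) (MvPolynomial ι ℂ)),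
    (∀ t, (Ψ t).totalDegree ≤ D) ∧ (∀ t a i j, (A t a i j).totalDegree ≤ 1) ∧
    F = ∑ t, aeval (fun a => (A t a).det) (Ψ t)}

theorem limFunDet_iff {M c n : ℕ} {ι : Type} {f : MvPolynomial ι ℂ} :
    LimFunDet M c n f ↔ ∃ (D : ℕ) (F : ℕ → MvPolynomial ι ℂ), (∀ s, F s ∈ funSet M c n D ι) ∧
      ∀ d, Tendsto (fun s => coeff d (F s)) atTop (𝓝 (coeff d f)) := by
  constructor
  · rintro ⟨D, Ψ, A, hΨ, hA, hlim⟩
    exact ⟨D, _, fun s => ⟨Ψ s, A s, hΨ s, hA s, rfl⟩, hlim⟩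
  · rintro ⟨D, F, hF, hlim⟩
    choose Ψ A hΨ hA hFe using hF
    refine ⟨D, Ψ, A, hΨ, hA, fun d => ?_⟩
    simp only [hFe] at hlim
    exact hlim d

theorem LimFunDet.mult_section {m M c n : ℕ} {κ : Type} [Fintype κ]
    {g : MvPolynomial (Fin m × Fin m) ℂ} (hg : g ≠ 0) (h : LimFunDet M c n (g * permP m))
    {f : MvPolynomial κ ℂ} (hs : HasSec m f) :
    ∃ g' : MvPolynomial κ ℂ, g' ≠ 0 ∧ LimFunDet M c n (g' * f) := by
  obtain ⟨D, F, hF, hlim⟩ := limFunDet_iff.1 h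
  have hdeg : ∀ (ι : Type), ∀ P ∈ funSet M c n D ι, P.totalDegree ≤ D * n := by
    rintro ι P ⟨Ψ, A, hΨ, hA, rfl⟩
    exact totalDegree_fun_le D Ψ A hΨ hA
  have hsub : ∀ F ∈ funSet M c n D (Fin m × Fin m), ∀ φ : Fin m × Fin m → MvPolynomial κ ℂ,
      (∀ q, (φ q).totalDegree ≤ 1) → ∀ b : ℂ, b ≠ 0 → C b * aeval φ F ∈ funSet M c n D κ := by
    rintro P ⟨Ψ, A, hΨ, hA, rfl⟩ φ hφ b _
    refine ⟨fun t => C b * Ψ t, fun t a => (A t a).map (aeval φ), fun t => ?_,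
      fun t a i j => ?_, ?_⟩
    · refine (totalDegree_mul _ _).trans ?_
      rw [totalDegree_C, zero_add]
      exact hΨ t
    · exact SQ.totalDegree_aeval_le _ (hA t a i j) φ hφ
    · rw [map_sum, Finset.mul_sum]
      refine Finset.sum_congr rfl fun t _ => ?_
      rw [map_mul, aeval_C, algebraMap_eq, ← AlgHom.comp_apply, comp_aeval]
      congr 3
      funext a
      rw [AlgHom.map_det]
      rfl
  obtain ⟨g', hg', F', hF', hlim'⟩ := SM.mult_section (D * n) (funSet M c n D (Fin m × Fin m))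
    (funSet M c n D κ) (D * n) (hdeg _) (hdeg _) hsub hg hs F hF hlim
  exact ⟨g', hg', limFunDet_iff.2 ⟨D, F', hF', hlim'⟩⟩

end Pool.Agent.Work.MP_35c45d_lc.SM
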