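import Pool.Agent.Work.MP_35c45d_lc.SMIndep
import Pool.Agent.Work.MP_35c45d_lc.SMLimF
import Pool.Agent.Work.MP_35c45d_lc.SMCard
import Pool.Agent.Work.MP_35c45d_lc.FDMain

/-! # Multiples: assembly for functions of determinants -/

set_option autoImplicit false

namespace Pool.Agent.Work.MP_35c45d_lc.SM

open MvPolynomial Filter Topology SD SE FD

theorem lim_ineqF {k T L D c n M l : ℕ} (hT : 1 ≤ T) (hD : 2 ≤ D) (hL : D < L)
    (g : MvPolynomial (Fin k × Fin T × Fin L) ℂ) (hg : g ≠ 0)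
    (h : LimFunDet M c n (g * esf k T L D)) :
    (goodM k T L D (c * n) l).card ≤ M * ubF (k * (T * L)) c n k l := by
  classical
  have hg' : rename (Sum.inl : _ → Vr k T L (c * n)) g ≠ 0 := by
    intro h0
    apply hg
    exact rename_injective _ Sum.inl_injective (by rw [h0, map_zero])
  obtain ⟨b, hb, hli⟩ := indepM (k := k) (T := T) (L := L) (D := D) (n := c * n) (l := l) hT hD hL
    _ hg'
  have h1 := lim_cardF (k := k) (l := l) h (α := goodM k T L D (c * n) l)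
    (fun x i => (i, x.1.1 i)) (fun x => b x.1.2) (fun x => ?_) ?_
  · rw [Fintype.card_coe, Fintype.card_prod, Fintype.card_prod, Fintype.card_fin, Fintype.card_fin,
      Fintype.card_fin] at h1
    exact h1
  · refine (hb _).trans ?_
    exact (mem_mons.1 (Finset.mem_filter.1 (Finset.mem_product.1
      (Finset.mem_filter.1 x.2).1).2).1).2
  · simp only [map_mul]
    exact hli

theorem coreF {k T L D c n M w : ℕ} (hk : 1 ≤ k) (hT : 1 ≤ T) (hD2 : 2 ≤ D) (hL : D < L)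
    (hw : w + 1 = T * (L - (D - 1)))
    (hD : 2 * Real.log (2 * k * (T * L)) ≤ (D : ℝ) - 1)
    (g : MvPolynomial (Fin k × Fin T × Fin L) ℂ) (hg : g ≠ 0)
    (h : LimFunDet M c n (g * esf k T L D)) (δ : ℝ)
    (hδ : δ = 2 * Real.log (2 * k * (T * L)) / ((D : ℝ) - 1))
    (hn : 1 + c + (2 * c * n ^ 2 * δ ^ 2 + 8 * k ^ 2 + c * n * δ) ≤ (w : ℝ) / 2) :
    (2 : ℝ) ^ k ≤ 2 * M := by
  have hcast : 2 * ((k * (T * L) : ℕ) : ℝ) = 2 * k * (T * L) := by
    push_cast
    ring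
  have hw1 : 1 ≤ w := by
    have h1 : 1 * 2 ≤ T * (L - (D - 1)) := Nat.mul_le_mul hT (by omega)
    omega
  have hNv : 2 ≤ k * (T * L) := by
    have h1 : 1 * (1 * L) ≤ k * (T * L) := Nat.mul_le_mul hk (Nat.mul_le_mul_right L hT)
    omega
  refine core_gen (k := k) (D := D) (c := c) (n := n) (M := M) (w := w) (Nv := k * (T * L))
    hk hw1 hNv hD2 (by rw [hcast]; exact hD) (fun l => (goodM k T L D (c * n) l).card)
    ?_ (fun l => lim_ineqF hT hD2 hL g hg h) δ (by rw [hcast]; exact hδ) hn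
  intro l z hz hexp
  have h1 := goodM_card k T L D (c * n) l hk hT (by omega) hL.le z hz hexp
  rw [← hw, Nat.add_sub_cancel] at h1
  exact h1

theorem permP_ne_zero (m : ℕ) : permP m ≠ 0 := by
  intro h
  have h1 := perm_coeff (m := m)
  rw [h, coeff_zero] at h1
  exact zero_ne_one h1

theorem one_le_degree_mul_perm {m : ℕ} (hm : 1 ≤ m) {g : MvPolynomial (Fin m × Fin m) ℂ}
    (hg : g ≠ 0) : 1 ≤ (g * permP m).totalDegree := by
  rw [totalDegree_mul_of_isDomain hg (permP_ne_zero m)]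
  have h1 : m ≤ (permP m).totalDegree := by
    have h2 : (∑ i : Fin m, Finsupp.single ((i, i) : Fin m × Fin m) 1) ∈ (permP m).support := by
      rw [mem_support_iff, perm_coeff]
      exact one_ne_zero
    have h3 := le_totalDegree h2
    have h4 := degree_diag m
    rw [Finsupp.degree_apply] at h4
    have h5 : (∑ i : Fin m, Finsupp.single ((i, i) : Fin m × Fin m) 1).sum (fun _ e => e) =
        m := h4
    omega
  omega

theorem LimFunDet.one_le_c {M c n : ℕ} {ι : Type} {f : MvPolynomial ι ℂ} (h : LimFunDet M c n f)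
    (hf : 1 ≤ f.totalDegree) : 1 ≤ c := by
  classical
  by_contra hc
  have h0 : c = 0 := by omega
  subst h0
  obtain ⟨D, Ψ, A, hΨ, hA, hlim⟩ := h
  have h1 : ∀ d : ι →₀ ℕ, d ≠ 0 → coeff d f = 0 := by
    intro d hd
    have h2 := hlim d
    have h3 : ∀ s, coeff d (∑ t, aeval (fun a => (A s t a).det) (Ψ s t)) = 0 := by
      intro s
      rw [coeff_sum]
      refine Finset.sum_eq_zero fun t _ => ?_
      rw [MvPolynomial.eq_C_of_isEmpty (Ψ s t), aeval_C, algebraMap_eq, coeff_C, if_neg hd.symm]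
    simp only [h3] at h2
    exact (tendsto_nhds_unique tendsto_const_nhds h2).symm
  have h2 : f = C (coeff 0 f) := by
    ext d
    rw [coeff_C]
    split_ifs with h3
    · rw [h3]
    · exact h1 d (fun h => h3 h.symm)
  rw [h2, totalDegree_C] at hf
  omega

theorem LimFunDet.one_le_M {M c n : ℕ} {ι : Type} {f : MvPolynomial ι ℂ} (h : LimFunDet M c n f)
    (hf : f ≠ 0) : 1 ≤ M := by
  by_contra hlt
  have h0 : M = 0 := by omega
  subst h0
  obtain ⟨D, Ψ, A, hΨ, hA, hlim⟩ := h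
  apply hf
  ext d
  have h1 := hlim d
  simp only [Finset.univ_eq_empty, Finset.sum_empty, coeff_zero] at h1
  rw [coeff_zero]
  exact (tendsto_nhds_unique tendsto_const_nhds h1).symm

theorem fun_main_lt (ε : ℝ) (hε : 0 < ε) (hε1 : ε < 1) : ∃ κ : ℝ, 0 < κ ∧ ∀ m c n M : ℕ, 1 ≤ m →
    ∀ g : MvPolynomial (Fin m × Fin m) ℂ, g ≠ 0 → LimFunDet M c n (g * permP m) →
      κ * (m : ℝ) ^ (2 - ε) ≤ ((c : ℝ) + n * √c + m) * Real.log (M + 1) ^ 2 := by
  obtain ⟨s0, d0, D0, e, π, c0, hD, hDs, hd, hcode, hsize⟩ :=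
    SQ.exists_code3 (ε / 16) (by positivity)
  have hcode' : ∀ a b j, ∑ x ∈ Finset.univ.filter (fun x => (some (π a x) : Option (Fin D0)) =
      some j), c0 a x * e b x = if a = b then 1 else 0 := fun a b j => by simpa using hcode a b j
  have hds : d0 ≤ s0 := SE.code_le (by omega) e (fun a x => some (π a x)) c0 hcode'
  obtain ⟨c', hc', m₀, hg⟩ := SE.num_gadget (ε / 16) (by positivity) (by linarith) hD hDs hd hds
    hsize
  choose! K hs h400 hTm hDm hDE hTD using hg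
  obtain ⟨κ, hκ, h⟩ := FD.num_final ε hε hε1 c' hc' m₀ (fun m' => d0 ^ K m')
    (fun m' => D0 ^ K m') (fun m' hm' => ⟨h400 m' hm', hTm m' hm', hDm m' hm', hDE m' hm', by
      simpa using hTD m' hm'⟩)
  refine ⟨κ / 2, by positivity, fun m c n M hm g hg hL => ?_⟩
  have hc1 : 1 ≤ c := LimFunDet.one_le_c hL (one_le_degree_mul_perm hm hg)
  have hM1 : 1 ≤ M := LimFunDet.one_le_M hL (mul_ne_zero hg (permP_ne_zero m))
  have h0 : κ * (m : ℝ) ^ (2 - ε) ≤ (((c + 1 : ℕ) : ℝ) + n * √((c + 1 : ℕ) : ℝ) + m) *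
      Real.log (M + 1) ^ 2 := by
    refine h m (c + 1) n M hm hM1 ?_
    intro k m' hk hm' hkm δ hδ hQ2 hD2 hn
    have h1 := SE.hasSec_code (by omega) hd e (fun a x => some (π a x)) c0 hcode' (K m') 2 m'
      (by norm_num) (hs m' hm')
    obtain ⟨g', hg', h3⟩ := LimFunDet.mult_section hg hL (SE.hasSec_esf hkm h1)
    have hT1 : 1 ≤ d0 ^ K m' := Nat.one_le_pow _ _ hd
    have hw : (d0 ^ K m' * (D0 ^ K m' + 1) - 1) + 1 =
        d0 ^ K m' * (2 * D0 ^ K m' - (D0 ^ K m' - 1)) := by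
      have h5 : D0 ^ K m' + 1 = 2 * D0 ^ K m' - (D0 ^ K m' - 1) := by omega
      rw [← h5]
      have h6 : 1 ≤ d0 ^ K m' * (D0 ^ K m' + 1) := Nat.mul_pos hT1 (by omega)
      omega
    have hδ0 : 0 ≤ δ := by
      rw [hδ]
      have h7 : (2 : ℝ) ≤ ((D0 ^ K m' : ℕ) : ℝ) := by exact_mod_cast hQ2
      refine div_nonneg (mul_nonneg (by norm_num) (Real.log_nonneg ?_)) (by linarith)
      have h8 : (1 : ℝ) ≤ k := by exact_mod_cast hk
      have h9 : (1 : ℝ) ≤ ((d0 ^ K m' : ℕ) : ℝ) := by exact_mod_cast hT1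
      have h10 : (1 : ℝ) ≤ ((d0 ^ K m' : ℕ) : ℝ) * (2 * ((D0 ^ K m' : ℕ) : ℝ)) := by nlinarith
      nlinarith
    refine coreF hk hT1 hQ2 (by omega) hw ?_ g' hg' h3 δ ?_ ?_
    · push_cast at hD2 ⊢
      exact hD2
    · push_cast at hδ ⊢
      exact hδ
    · have h11 : (((d0 ^ K m' * (D0 ^ K m' + 1) - 1 : ℕ) : ℝ)) =
          ((d0 ^ K m' : ℕ) : ℝ) * (((D0 ^ K m' : ℕ) : ℝ) + 1) - 1 := by
        rw [Nat.cast_sub (Nat.mul_pos hT1 (by omega))]
        push_cast
        ring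
      rw [h11]
      have h12 : (0 : ℝ) ≤ 2 * n ^ 2 * δ ^ 2 + n * δ := by positivity
      push_cast at hn ⊢
      nlinarith
  have hc1' : (1 : ℝ) ≤ c := by exact_mod_cast hc1
  have hsq : √((c + 1 : ℕ) : ℝ) ≤ 2 * √(c : ℝ) := by
    rw [Real.sqrt_le_left (by positivity), mul_pow, Real.sq_sqrt (by positivity)]
    push_cast
    linarith
  have hle : (((c + 1 : ℕ) : ℝ) + n * √((c + 1 : ℕ) : ℝ) + m) ≤
      2 * ((c : ℝ) + n * √c + m) := by
    have h13 : (n : ℝ) * √((c + 1 : ℕ) : ℝ) ≤ n * (2 * √(c : ℝ)) :=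
      mul_le_mul_of_nonneg_left hsq (Nat.cast_nonneg n)
    have h14 : (0 : ℝ) ≤ m := Nat.cast_nonneg m
    push_cast at h13 ⊢
    linarith
  have h15 := mul_le_mul_of_nonneg_right hle (sq_nonneg (Real.log (M + 1)))
  linarith

/-- **Main theorem for functions of determinants, multiples** -/
theorem fun_main (ε : ℝ) (hε : 0 < ε) : ∃ κ : ℝ, 0 < κ ∧ ∀ m c n M : ℕ, 1 ≤ m →
    ∀ g : MvPolynomial (Fin m × Fin m) ℂ, g ≠ 0 → LimFunDet M c n (g * permP m) →
      κ * (m : ℝ) ^ (2 - ε) ≤ ((c : ℝ) + n * √c + m) * Real.log (M + 1) ^ 2 := by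
  obtain ⟨κ, hκ, h⟩ := fun_main_lt (min ε (1 / 2)) (lt_min hε (by norm_num))
    (lt_of_le_of_lt (min_le_right _ _) (by norm_num))
  refine ⟨κ, hκ, fun m c n M hm g hg hL => le_trans ?_ (h m c n M hm g hg hL)⟩
  refine mul_le_mul_of_nonneg_left ?_ hκ.le
  refine Real.rpow_le_rpow_of_exponent_le (by exact_mod_cast hm) ?_
  have := min_le_left ε (1 / 2)
  linarith

end Pool.Agent.Work.MP_35c45d_lc.SM
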