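import Pool.Agent.Work.MP_35c45d_lc.LOCore
import Pool.Agent.Work.MP_35c45d_lc.LOPow
import Pool.Agent.Work.MP_35c45d_lc.FGNum
import Pool.Agent.Work.MP_35c45d_lc.SMFun

/-! # Assembly -/

set_option autoImplicit false

namespace Pool.Agent.Work.MP_35c45d_lc.LO

open MvPolynomial Filter Topology SD FD SE

theorem recen_recen {ι : Type} (p : ι → ℂ) (f : MvPolynomial ι ℂ) :
    recen (fun i => - p i) (recen p f) = f := by
  unfold recen
  rw [← AlgHom.comp_apply, comp_aeval]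
  have h : (fun i => (aeval fun i => C (-p i) + X i) (C (p i) + X i : MvPolynomial ι ℂ)) = X := by
    funext i
    rw [map_add, aeval_C, aeval_X, algebraMap_eq, map_neg]
    ring
  rw [h, aeval_X_left_apply]

/-- a limit of constants is a constant -/
theorem eq_C_of_tendsto {ι : Type} (F : ℕ → MvPolynomial ι ℂ) (f : MvPolynomial ι ℂ)
    (hF : ∀ s, ∃ r, F s = C r)
    (hlim : ∀ d, Tendsto (fun s => coeff d (F s)) atTop (𝓝 (coeff d f))) :
    f = C (coeff 0 f) := by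
  classical
  have h1 : ∀ d : ι →₀ ℕ, d ≠ 0 → coeff d f = 0 := by
    intro d hd
    have h2 := hlim d
    have h3 : ∀ s, coeff d (F s) = 0 := by
      intro s
      obtain ⟨r, hr⟩ := hF s
      rw [hr, coeff_C, if_neg hd.symm]
    simp only [h3] at h2
    exact (tendsto_nhds_unique tendsto_const_nhds h2).symm
  ext d
  rw [coeff_C]
  split_ifs with h3
  · rw [h3]
  · exact h1 d (fun h => h3 h.symm)

theorem not_const {m : ℕ} (hm : 1 ≤ m) (p : Fin m × Fin m → ℂ)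
    {g : MvPolynomial (Fin m × Fin m) ℂ} (hg : g ≠ 0) (r : ℂ) : recen p (g * permP m) ≠ C r := by
  intro h
  have h1 := recen_recen p (g * permP m)
  rw [h] at h1
  have h2 := SM.one_le_degree_mul_perm hm hg
  rw [← h1, recen, aeval_C, algebraMap_eq, totalDegree_C] at h2
  omega

theorem one_le_c {m c n M : ℕ} (hm : 1 ≤ m) (p : Fin m × Fin m → ℂ)
    {g : MvPolynomial (Fin m × Fin m) ℂ} (hg : g ≠ 0)
    (h : LimU M c n (recen p (g * permP m))) : 1 ≤ c := by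
  by_contra hc
  have h0 : c = 0 := by omega
  subst h0
  obtain ⟨Ψ, A, hA, hlim⟩ := h
  refine not_const hm p hg _ (eq_C_of_tendsto _ _ (fun s => ?_) hlim)
  refine ⟨∑ t, coeff 0 (Ψ s t), ?_⟩
  rw [map_sum]
  refine Finset.sum_congr rfl fun t _ => ?_
  rw [MvPolynomial.eq_C_of_isEmpty (Ψ s t), aeval_C, algebraMap_eq]
  simp

theorem one_le_n {m c n M : ℕ} (hm : 1 ≤ m) (p : Fin m × Fin m → ℂ)
    {g : MvPolynomial (Fin m × Fin m) ℂ} (hg : g ≠ 0)
    (h : LimU M c n (recen p (g * permP m))) : 1 ≤ n := by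
  by_contra hn
  have h0 : n = 0 := by omega
  subst h0
  obtain ⟨Ψ, A, hA, hlim⟩ := h
  refine not_const hm p hg _ (eq_C_of_tendsto _ _ (fun s => ?_) hlim)
  refine ⟨∑ t, eval (fun _ => 1) (Ψ s t), ?_⟩
  rw [map_sum]
  refine Finset.sum_congr rfl fun t _ => ?_
  have h1 : (fun a => (A s t a).det) = fun a => (C 1 : MvPolynomial (Fin m × Fin m) ℂ) := by
    funext a
    rw [Matrix.det_isEmpty, C_1]
  rw [h1]
  have h2 : ∀ Q : MvPolynomial (Fin c) ℂ,
      aeval (fun _ => (C 1 : MvPolynomial (Fin m × Fin m) ℂ)) Q = C (eval (fun _ => 1) Q) := by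
    intro Q
    induction Q using MvPolynomial.induction_on with
    | C r => rw [aeval_C, eval_C, algebraMap_eq]
    | add P Q hP hQ => rw [map_add, map_add, map_add, hP, hQ]
    | mul_X P a hP => rw [map_mul, map_mul, map_mul, hP, aeval_X, eval_X]
  exact h2 _

theorem main_lt (ε : ℝ) (hε : 0 < ε) (hε1 : ε < 1) : ∃ κ : ℝ, 0 < κ ∧ ∀ m c n M : ℕ, 1 ≤ m →
    ∀ (p : Fin m × Fin m → ℂ) (g : MvPolynomial (Fin m × Fin m) ℂ), g ≠ 0 →
      LimU M c n (recen p (g * permP m)) →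
      κ * (m : ℝ) ^ (2 - ε) ≤ c * Real.log (M + 1) +
        n * √c * (Real.log (M + 1) * √(Real.log (M + 1))) +
        min (n : ℝ) (Real.log (M + 1)) * Real.log (M + 1) ^ 2 := by
  obtain ⟨s0, d0, D0, e, π, c0, hD, hDs, hd, hcode, hsize⟩ :=
    SQ.exists_code3 (ε / 16) (by positivity)
  have hcode' : ∀ a b j, ∑ x ∈ Finset.univ.filter (fun x => (some (π a x) : Option (Fin D0)) =
      some j), c0 a x * e b x = if a = b then 1 else 0 := fun a b j => by simpa using hcode a b j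
  have hds : d0 ≤ s0 := SE.code_le (by omega) e (fun a x => some (π a x)) c0 hcode'
  obtain ⟨c', hc', m₀, hg⟩ := SE.num_gadget (ε / 16) (by positivity) (by linarith) hD hDs hd hds
    hsize
  choose! K hs h400 hTm hDm hDE hTD using hg
  obtain ⟨κ, hκ, h⟩ := FD.num_finalG ε hε hε1 c' hc' m₀ (fun m' => d0 ^ K m')
    (fun m' => D0 ^ K m') (fun m' hm' => ⟨h400 m' hm', hTm m' hm', hDm m' hm', hDE m' hm', by
      simpa using hTD m' hm'⟩)
  refine ⟨κ, hκ, fun m c n M hm p g hg hL => ?_⟩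
  have hc1 : 1 ≤ c := one_le_c hm p hg hL
  have hn1 : 1 ≤ n := one_le_n hm p hg hL
  have hf0 : recen p (g * permP m) ≠ 0 := by
    have h1 := not_const hm p hg 0
    rwa [map_zero] at h1
  refine h m c n M hm (LimU.one_le hL hf0) hc1 hn1 ?_
  intro k m' hk hm' hkm δ hδ hQ2 hD2 hn
  have h1 := SE.hasSec_code (by omega) hd e (fun a x => some (π a x)) c0 hcode' (K m') 2 m'
    (by norm_num) (hs m' hm')
  obtain ⟨φ, hφ, c1, hc1', h2⟩ := SE.hasSec_esf hkm h1
  have hT1 : 1 ≤ d0 ^ K m' := Nat.one_le_pow _ _ hd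
  have hw : (d0 ^ K m' * (D0 ^ K m' + 1) - 1) + 1 =
      d0 ^ K m' * (2 * D0 ^ K m' - (D0 ^ K m' - 1)) := by
    have h5 : D0 ^ K m' + 1 = 2 * D0 ^ K m' - (D0 ^ K m' - 1) := by omega
    rw [← h5]
    have h6 : 1 ≤ d0 ^ K m' * (D0 ^ K m' + 1) := Nat.mul_pos hT1 (by omega)
    omega
  have hδ0 : 0 ≤ δ := by
    rw [hδ]
    have h7 : (2 : ℝ) ≤ ((D0 ^ K m' : ℕ) : ℝ) := by exact_mod_cast hQ2
    refine div_nonneg (mul_nonneg (by norm_num) (Real.log_nonneg ?_)) (by linarith)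
    have h8 : (1 : ℝ) ≤ k := by exact_mod_cast hk
    have h9 : (1 : ℝ) ≤ ((d0 ^ K m' : ℕ) : ℝ) := by exact_mod_cast hT1
    have h10 : (1 : ℝ) ≤ ((d0 ^ K m' : ℕ) : ℝ) * (2 * ((D0 ^ K m' : ℕ) : ℝ)) := by nlinarith
    nlinarith
  refine core hk hT1 hQ2 (by omega) hw ?_ hc1' (permP m) g hg φ hφ h2 p hL δ ?_ ?_
  · push_cast at hD2 ⊢
    exact hD2
  · push_cast at hδ ⊢
    exact hδ
  · have h11 : (((d0 ^ K m' * (D0 ^ K m' + 1) - 1 : ℕ) : ℝ)) =
        ((d0 ^ K m' : ℕ) : ℝ) * (((D0 ^ K m' : ℕ) : ℝ) + 1) - 1 := by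
      rw [Nat.cast_sub (Nat.mul_pos hT1 (by omega))]
      push_cast
      ring
    rw [h11]
    have h12 : 0 ≤ LamG c n k δ := by
      unfold LamG
      positivity
    have h13 : (0 : ℝ) ≤ c := Nat.cast_nonneg c
    have h14 : (1 : ℝ) ≤ k := by exact_mod_cast hk
    push_cast at hn ⊢
    nlinarith

/-- **Main theorem** -/
theorem main (ε : ℝ) (hε : 0 < ε) : ∃ κ : ℝ, 0 < κ ∧ ∀ m c n M : ℕ, 1 ≤ m →
    ∀ (p : Fin m × Fin m → ℂ) (g : MvPolynomial (Fin m × Fin m) ℂ), g ≠ 0 →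
      LimU M c n (recen p (g * permP m)) →
      κ * (m : ℝ) ^ (2 - ε) ≤ c * Real.log (M + 1) +
        n * √c * (Real.log (M + 1) * √(Real.log (M + 1))) +
        min (n : ℝ) (Real.log (M + 1)) * Real.log (M + 1) ^ 2 := by
  obtain ⟨κ, hκ, h⟩ := main_lt (min ε (1 / 2)) (lt_min hε (by norm_num))
    (lt_of_le_of_lt (min_le_right _ _) (by norm_num))
  refine ⟨κ, hκ, fun m c n M hm p g hg hL => le_trans ?_ (h m c n M hm p g hg hL)⟩
  refine mul_le_mul_of_nonneg_left ?_ hκ.le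
  refine Real.rpow_le_rpow_of_exponent_le (by exact_mod_cast hm) ?_
  have := min_le_left ε (1 / 2)
  linarith

end Pool.Agent.Work.MP_35c45d_lc.LO
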