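import Pool.Agent.Work.MP_35c45d_lc.LODefs

/-! # Local limits: substitutions and the upper bound, without a bound on the degrees -/

set_option autoImplicit false

namespace Pool.Agent.Work.MP_35c45d_lc.LO

open MvPolynomial Filter Topology SD FD

variable {ι κ : Type} {M c n : ℕ}

/-- linear independence of a finite family is open under coefficientwise convergence -/
theorem li_open {σ α β : Type} [Fintype α] {F : Filter β} (v : α → MvPolynomial σ ℂ)
    (w : β → α → MvPolynomial σ ℂ)
    (hlim : ∀ x d, Tendsto (fun s => coeff d (w s x)) F (𝓝 (coeff d (v x))))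
    (hli : LinearIndependent ℂ v) : ∀ᶠ s in F, LinearIndependent ℂ (w s) := by
  classical
  set T : Finset (σ →₀ ℕ) := Finset.univ.biUnion fun x => (v x).support with hT
  let r : MvPolynomial σ ℂ →ₗ[ℂ] (T → ℂ) := LinearMap.pi fun d => lcoeff ℂ d.1
  have hr : ∀ p d, r p d = coeff d.1 p := fun p d => rfl
  have hli' : LinearIndependent ℂ fun x => r (v x) := by
    rw [Fintype.linearIndependent_iff] at hli ⊢
    intro g hg
    refine hli g (MvPolynomial.ext _ _ fun d => ?_)
    rw [coeff_sum, coeff_zero]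
    by_cases hd : d ∈ T
    · have h1 := congrFun hg ⟨d, hd⟩
      rw [Finset.sum_apply] at h1
      rw [Pi.zero_apply] at h1
      rw [← h1]
      refine Finset.sum_congr rfl fun x _ => ?_
      rw [Pi.smul_apply, hr, coeff_smul]
    · refine Finset.sum_eq_zero fun x _ => ?_
      have h2 : coeff d (v x) = 0 := by
        by_contra h3
        apply hd
        rw [hT, Finset.mem_biUnion]
        exact ⟨x, Finset.mem_univ _, mem_support_iff.2 h3⟩
      rw [coeff_smul, h2, smul_zero]
  obtain ⟨Θ, hΘ⟩ := LinearMap.exists_leftInverse_of_injective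
    (Finsupp.linearCombination ℂ fun x => r (v x)) (LinearMap.ker_eq_bot.2 hli')
  have hΘb : ∀ x, Θ (r (v x)) = Finsupp.single x 1 := by
    intro x
    have h1 := LinearMap.congr_fun hΘ (Finsupp.single x 1)
    rw [LinearMap.comp_apply, Finsupp.linearCombination_single, one_smul] at h1
    exact h1
  let Z : β → Matrix α α ℂ := fun s => Matrix.of fun x y => Θ (r (w s x)) y
  have hZ : Tendsto Z F (𝓝 (1 : Matrix α α ℂ)) := by
    refine tendsto_pi_nhds.2 fun x => tendsto_pi_nhds.2 fun y => ?_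
    have h1 : Tendsto (fun s => r (w s x)) F (𝓝 (r (v x))) :=
      tendsto_pi_nhds.2 fun d => hlim x d.1
    have h2 : Continuous ((Finsupp.lapply y).comp Θ : (T → ℂ) →ₗ[ℂ] ℂ) :=
      LinearMap.continuous_of_finiteDimensional _
    have h3 := (h2.tendsto (r (v x))).comp h1
    have h4 : ((Finsupp.lapply y).comp Θ : (T → ℂ) →ₗ[ℂ] ℂ) (r (v x)) =
        (1 : Matrix α α ℂ) x y := by
      change Θ (r (v x)) y = _
      rw [hΘb, Finsupp.single_apply, Matrix.one_apply]
    rw [h4] at h3
    exact h3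
  have hdet : Tendsto (fun s => (Z s).det) F (𝓝 ((1 : Matrix α α ℂ).det)) :=
    ((Continuous.matrix_det continuous_id).tendsto _).comp hZ
  rw [Matrix.det_one] at hdet
  filter_upwards [hdet.eventually_ne one_ne_zero] with s hs
  have hli1 : LinearIndependent ℂ (Z s).row := by
    rw [Matrix.linearIndependent_rows_iff_isUnit, Matrix.isUnit_iff_isUnit_det]
    exact isUnit_iff_ne_zero.2 hs
  let Θ' : MvPolynomial σ ℂ →ₗ[ℂ] (α → ℂ) :=
    LinearMap.pi fun y => (Finsupp.lapply y).comp (Θ.comp r)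
  apply LinearIndependent.of_comp Θ'
  exact hli1

/-- multiplication by a polynomial is continuous -/
theorem tendsto_mul {σ β : Type} {F : Filter β} (p q : β → MvPolynomial σ ℂ)
    (p0 q0 : MvPolynomial σ ℂ) (hp : ∀ d, Tendsto (fun s => coeff d (p s)) F (𝓝 (coeff d p0)))
    (hq : ∀ d, Tendsto (fun s => coeff d (q s)) F (𝓝 (coeff d q0))) :
    ∀ d, Tendsto (fun s => coeff d (p s * q s)) F (𝓝 (coeff d (p0 * q0))) := by
  classical
  intro d
  simp only [coeff_mul]
  exact tendsto_finsetSum _ fun x _ => (hp x.1).mul (hq x.2)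

/-- iterated derivatives are continuous -/
theorem tendsto_dk {β : Type} {r k : ℕ} {F : Filter β} (p : β → MvPolynomial (ι ⊕ Fin r) ℂ)
    (p0 : MvPolynomial (ι ⊕ Fin r) ℂ)
    (hp : ∀ d, Tendsto (fun s => coeff d (p s)) F (𝓝 (coeff d p0))) (a : Fin k → ι) :
    ∀ d, Tendsto (fun s => coeff d (dk a (p s))) F (𝓝 (coeff d (dk a p0))) := by
  induction k with
  | zero => exact hp
  | succ k ih =>
    intro d
    have h1 : ∀ P : MvPolynomial (ι ⊕ Fin r) ℂ,
        dk a P = pderiv (Sum.inl (a 0)) (dk (Fin.tail a) P) := fun P => rfl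
    simp only [h1, coeff_pderiv]
    exact (ih (Fin.tail a) _).mul_const _

/-- renaming is continuous -/
theorem tendsto_rename {σ τ β : Type} {F : Filter β} (e : σ → τ) (he : Function.Injective e)
    (p : β → MvPolynomial σ ℂ) (p0 : MvPolynomial σ ℂ)
    (hp : ∀ d, Tendsto (fun s => coeff d (p s)) F (𝓝 (coeff d p0))) :
    ∀ d, Tendsto (fun s => coeff d (rename e (p s))) F (𝓝 (coeff d (rename e p0))) := by
  intro d
  by_cases hd : ∃ u : σ →₀ ℕ, u.mapDomain e = d
  · obtain ⟨u, rfl⟩ := hd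
    simp only [coeff_rename_mapDomain e he]
    exact hp u
  · have h1 : ∀ P : MvPolynomial σ ℂ, coeff d (rename e P) = 0 := fun P =>
      coeff_rename_eq_zero e P d fun u hu => absurd ⟨u, hu⟩ hd
    simp only [h1]
    exact tendsto_const_nhds

theorem coeff_aeval_hom {φ : ι → MvPolynomial κ ℂ} (hφ : ∀ i, (φ i).IsHomogeneous 1)
    (P : MvPolynomial ι ℂ) (d : κ →₀ ℕ) :
    coeff d (aeval φ P) = coeff d (aeval φ (homogeneousComponent d.degree P)) := by
  have h1 : ∀ i, (aeval φ (homogeneousComponent i P)).IsHomogeneous i := by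
    intro i
    have := (homogeneousComponent_isHomogeneous i P).aeval φ hφ
    rwa [one_mul] at this
  conv_lhs => rw [← sum_homogeneousComponent P, map_sum, coeff_sum]
  by_cases hd : d.degree ∈ Finset.range (P.totalDegree + 1)
  · rw [Finset.sum_eq_single_of_mem _ hd]
    intro i _ hi
    exact (h1 i).coeff_eq_zero (Ne.symm hi)
  · rw [Finset.mem_range, not_lt] at hd
    rw [homogeneousComponent_eq_zero d.degree P (by omega), map_zero, coeff_zero]
    refine Finset.sum_eq_zero fun i hi => ?_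
    rw [Finset.mem_range] at hi
    exact (h1 i).coeff_eq_zero (by omega)

/-- linear substitutions without constant terms -/
theorem LimU.subst [Fintype ι] {f : MvPolynomial ι ℂ} (hf : LimU M c n f)
    (φ : ι → MvPolynomial κ ℂ) (hφ : ∀ i, (φ i).IsHomogeneous 1) :
    LimU M c n (aeval φ f) := by
  classical
  obtain ⟨Ψ, A, hA, hlim⟩ := hf
  refine ⟨Ψ, fun s t a => (A s t a).map (aeval φ), fun s t a i j => ?_, fun d => ?_⟩
  · exact SQ.totalDegree_aeval_le _ (hA s t a i j) φ fun i => (hφ i).totalDegree_le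
  · have h1 : ∀ s, ∑ t, aeval (fun a => ((A s t a).map (aeval φ)).det) (Ψ s t) =
        aeval φ (∑ t, aeval (fun a => (A s t a).det) (Ψ s t)) := by
      intro s
      rw [map_sum]
      refine Finset.sum_congr rfl fun t _ => ?_
      rw [← AlgHom.comp_apply, comp_aeval]
      congr 2
      funext a
      rw [AlgHom.map_det]
      rfl
    simp only [h1]
    set F : ℕ → MvPolynomial ι ℂ := fun s => ∑ t, aeval (fun a => (A s t a).det) (Ψ s t) with hF
    change Tendsto (fun s => coeff d (aeval φ (F s))) atTop (𝓝 (coeff d (aeval φ f)))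
    rw [coeff_aeval_hom hφ f d]
    simp only [fun s => coeff_aeval_hom hφ (F s) d]
    refine SQ.tendsto_linear d.degree (fun s => homogeneousComponent d.degree (F s))
      (homogeneousComponent d.degree f)
      (fun s => (homogeneousComponent_isHomogeneous _ _).totalDegree_le) (fun e => ?_)
      ((lcoeff ℂ d).comp (aeval φ).toLinearMap)
    simp only [coeff_homogeneousComponent]
    split_ifs
    · exact hlim e
    · exact tendsto_const_nhds

theorem LimU.one_le {f : MvPolynomial ι ℂ} (h : LimU M c n f) (hf : f ≠ 0) : 1 ≤ M := by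
  by_contra hlt
  have h0 : M = 0 := by omega
  subst h0
  obtain ⟨Ψ, A, hA, hlim⟩ := h
  refine hf (MvPolynomial.ext _ _ fun d => ?_)
  have h1 := hlim d
  simp only [Finset.univ_eq_empty, Finset.sum_empty, coeff_zero] at h1
  exact (tendsto_nhds_unique tendsto_const_nhds h1).symm

/-- Compare `FD.lim_cardF`; `U` is any upper bound for one term. -/
theorem lim_card_gen {ι : Type} [Fintype ι] [DecidableEq ι] {M c n k l : ℕ} (U : ℕ)
    (hU : ∀ (A : Fin c → Matrix (Fin n) (Fin n) (MvPolynomial ι ℂ)),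
      (∀ a i j, (A a i j).totalDegree ≤ 1) → ∀ v : ℂ, v ≠ 0 → ∀ Ψ : MvPolynomial (Fin c) ℂ,
      ∃ W : Submodule ℂ (MvPolynomial (ι ⊕ Fin (c * n)) ℂ), FiniteDimensional ℂ W ∧
        Module.finrank ℂ W ≤ U ∧
        ∀ (a : Fin k → ι) (μ : (ι ⊕ Fin (c * n)) →₀ ℕ), μ.degree ≤ l →
          monomial μ 1 * dk a (sb v A (GG n Ψ)) ∈ W)
    {f : MvPolynomial ι ℂ} (h : LimU M c n f) {α : Type} [Fintype α] (a : α → Fin k → ι)
    (ν : α → MvPolynomial (ι ⊕ Fin (c * n)) ℂ) (hν : ∀ x, (ν x).totalDegree ≤ l)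
    (hli : LinearIndependent ℂ fun x => ν x * dk (a x) (rename Sum.inl f)) :
    Fintype.card α ≤ M * U := by
  classical
  obtain ⟨Ψ, A, hA, hlim⟩ := h
  -- one member of the sequence
  have h1 : ∀ᶠ s in atTop, LinearIndependent ℂ fun x => ν x * dk (a x)
      (rename (Sum.inl : ι → ι ⊕ Fin (c * n))
        (∑ t, aeval (fun a => (A s t a).det) (Ψ s t))) := by
    refine li_open _ (fun s x => ν x * dk (a x) (rename (Sum.inl : ι → ι ⊕ Fin (c * n))
      (∑ t, aeval (fun a => (A s t a).det) (Ψ s t)))) (fun x => ?_) hli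
    refine tendsto_mul (fun _ => ν x) _ _ _ (fun d => tendsto_const_nhds) ?_
    exact tendsto_dk _ _ (tendsto_rename _ Sum.inl_injective _ _ hlim) (a x)
  obtain ⟨s, hs⟩ := h1.exists
  -- one value of the parameter
  have h2 : ∀ᶠ v in 𝓝 (0 : ℂ), LinearIndependent ℂ fun x => ν x * dk (a x)
      (∑ t, sb v (A s t) (GG n (Ψ s t))) := by
    refine li_open _ (fun v x => ν x * dk (a x) (∑ t, sb v (A s t) (GG n (Ψ s t))))
      (fun x => ?_) hs
    refine tendsto_mul (fun _ => ν x) _ _ _ (fun d => tendsto_const_nhds) ?_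
    refine tendsto_dk _ _ (fun d => ?_) (a x)
    have h3 : rename (Sum.inl : ι → ι ⊕ Fin (c * n))
        (∑ t, aeval (fun a => (A s t a).det) (Ψ s t)) = ∑ t, sb 0 (A s t) (GG n (Ψ s t)) := by
      rw [map_sum]
      exact Finset.sum_congr rfl fun t _ => (sb_zero _ _).symm
    rw [h3]
    simp only [coeff_sum, ← eval_fun]
    exact tendsto_finsetSum _ fun t _ => tendsto_eval _ d
  obtain ⟨v, hv, hv0⟩ :=
    ((h2.filter_mono nhdsWithin_le_nhds).and (self_mem_nhdsWithin (s := ({0} : Set ℂ)ᶜ))).exists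
  choose W hfd hrank hmem using fun t => hU (A s t) (hA s t) v hv0 (Ψ s t)
  obtain ⟨S, hS, hSr, hSm⟩ := exists_sum_space W hfd (u := U) hrank
  have hu : ∀ x, ν x * dk (a x) (∑ t, sb v (A s t) (GG n (Ψ s t))) ∈ S := by
    intro x
    have h4 : ν x * dk (a x) (∑ t, sb v (A s t) (GG n (Ψ s t))) =
        ∑ t, ν x * dk (a x) (sb v (A s t) (GG n (Ψ s t))) := by
      rw [dk_eq, map_sum, Finset.mul_sum]
      refine Finset.sum_congr rfl fun t _ => ?_
      rw [dk_eq]
    rw [h4]
    refine hSm _ fun t => ?_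
    have h5 : ν x * dk (a x) (sb v (A s t) (GG n (Ψ s t))) = ∑ d ∈ (ν x).support,
        coeff d (ν x) • (monomial d 1 * dk (a x) (sb v (A s t) (GG n (Ψ s t)))) := by
      conv_lhs => rw [(ν x).as_sum]
      rw [Finset.sum_mul]
      refine Finset.sum_congr rfl fun d _ => ?_
      rw [← smul_mul_assoc, smul_monomial, smul_eq_mul, mul_one]
    rw [h5]
    refine Submodule.sum_mem _ fun d hd => Submodule.smul_mem _ _ (hmem t (a x) d ?_)
    exact (le_totalDegree hd).trans (hν x)
  have hli3 : LinearIndependent ℂ (fun x : α => (⟨_, hu x⟩ : S)) := by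
    apply LinearIndependent.of_comp S.subtype
    exact hv
  exact (hli3.fintype_card_le_finrank).trans hSr

end Pool.Agent.Work.MP_35c45d_lc.LO
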