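import Mathlib

set_option autoImplicit false

namespace Pool.Agent.Work.MP_35c45d_lc

open Matrix Polynomial

section iso

variable {K : Type*} [Field K]

/-- A space carrying two linear maps `P, Q` to `K^J`, jointly injective, on which
`∑ d_j P_j Q_j` vanishes, has dimension at most `|J|`. -/
theorem isotropic_bound {J : Type*} [Fintype J] {E : Type*} [AddCommGroup E] [Module K E]
    [FiniteDimensional K E] (d : J → K) (hd : ∀ j, d j ≠ 0)
    (P Q : E →ₗ[K] (J → K)) (hinj : ∀ e, P e = 0 → Q e = 0 → e = 0)
    (hiso : ∀ e, ∑ j, d j * (P e j * Q e j) = 0) :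
    Module.finrank K E ≤ Fintype.card J := by
  classical
  have hpol : ∀ e e', (∑ j, d j * (P e j * Q e' j)) + ∑ j, d j * (P e' j * Q e j) = 0 := by
    intro e e'
    have h1 := hiso (e + e')
    have h2 := hiso e
    have h3 := hiso e'
    simp only [map_add, Pi.add_apply] at h1
    have : ∑ j, d j * ((P e j + P e' j) * (Q e j + Q e' j))
        = ∑ j, d j * (P e j * Q e j) + ∑ j, d j * (P e' j * Q e' j)
          + ((∑ j, d j * (P e j * Q e' j)) + ∑ j, d j * (P e' j * Q e j)) := by
      simp only [← Finset.sum_add_distrib]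
      refine Finset.sum_congr rfl fun j _ => ?_
      ring
    rw [this, h2, h3] at h1
    simpa using h1
  -- kernel of P embeds in the annihilator of range P
  let g : LinearMap.ker P →ₗ[K] Module.Dual K (J → K) :=
    { toFun := fun e => 
        { toFun := fun x => ∑ j, d j * (x j * Q e j)
          map_add' := by
            intro x y
            simp only [Pi.add_apply, ← Finset.sum_add_distrib]
            refine Finset.sum_congr rfl fun j _ => ?_
            ring
          map_smul' := by
            intro c x
            simp only [Pi.smul_apply, smul_eq_mul, RingHom.id_apply, Finset.mul_sum]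
            refine Finset.sum_congr rfl fun j _ => ?_
            ring }
      map_add' := by
        intro x y
        ext v
        simp [mul_add, Finset.sum_add_distrib]
      map_smul' := by
        intro c x
        ext v
        simp [mul_left_comm, Finset.mul_sum] }
  have hg : ∀ (e : LinearMap.ker P) (x : J → K), g e x = ∑ j, d j * (x j * Q e j) := fun _ _ => rfl
  have hginj : Function.Injective g := by
    rw [← LinearMap.ker_eq_bot, LinearMap.ker_eq_bot']
    intro e he
    have hQ : Q e = 0 := by
      ext j
      have := congrArg (fun f => f (Pi.single j (1 : K))) he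
      simp only [hg, LinearMap.zero_apply] at this
      rw [Finset.sum_eq_single j] at this
      · simp only [Pi.single_eq_same, one_mul] at this
        simpa [hd j] using this
      · intro b _ hb
        simp [hb]
      · simp
    have := hinj e e.2 hQ
    exact Subtype.ext this
  have hrange : LinearMap.range g ≤ (LinearMap.range P).dualAnnihilator := by
    rintro _ ⟨e, rfl⟩
    rw [Submodule.mem_dualAnnihilator]
    rintro _ ⟨e', rfl⟩
    rw [hg]
    have := hpol e' e
    have he : P e = 0 := e.2
    simp only [he] at this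
    simpa using this
  have h1 : Module.finrank K (LinearMap.ker P) ≤ Module.finrank K (LinearMap.range P).dualAnnihilator := by
    rw [← LinearMap.finrank_range_of_inj hginj]
    exact Submodule.finrank_mono hrange
  have h2 := Subspace.finrank_add_finrank_dualAnnihilator_eq (LinearMap.range P)
  have h3 := LinearMap.finrank_range_add_finrank_ker P
  rw [Module.finrank_fintype_fun_eq_card] at h2
  omega

end iso

section detlem

variable {ν : Type*} [Fintype ν] [DecidableEq ν]

/-- determinant of an arrow matrix -/
theorem arrow_det {K : Type*} [Field K] (i0 : ν) (D : ν → K) (hD : ∀ j, j ≠ i0 → D j ≠ 0)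
    (M : Matrix ν ν K) (h00 : M i0 i0 = 0)
    (hM : ∀ i j, i ≠ i0 → j ≠ i0 → M i j = (diagonal D) i j) :
    M.det = -(∏ j : {j // j ≠ i0}, D j) * ∑ j : {j // j ≠ i0}, (D j)⁻¹ * (M i0 j * M j i0) := by
  classical
  let e : {i // i = i0} ⊕ {i // i ≠ i0} ≃ ν := Equiv.sumCompl (fun i => i = i0)
  rw [← Matrix.det_submatrix_equiv_self e M]
  have : M.submatrix e e = fromBlocks (0 : Matrix {i // i = i0} {i // i = i0} K)
      (Matrix.of fun _ (j : {i // i ≠ i0}) => M i0 j) (Matrix.of fun (i : {i // i ≠ i0}) _ => M i i0)
      (diagonal fun j : {i // i ≠ i0} => D j) := by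
    ext i j
    rcases i with ⟨i, hi⟩ | ⟨i, hi⟩ <;> rcases j with ⟨j, hj⟩ | ⟨j, hj⟩
    · subst hi; subst hj; simp [e, h00]
    · subst hi; simp [e]
    · subst hj; simp [e]
    · simp only [submatrix_apply, e, Equiv.sumCompl_apply_inr, fromBlocks_apply₂₂]
      rw [hM i j hi hj]
      simp [diagonal_apply, Subtype.ext_iff]
  rw [this]
  haveI : Invertible (diagonal fun j : {i // i ≠ i0} => D j) := by
    apply Matrix.invertibleOfIsUnitDet
    rw [det_diagonal]
    exact IsUnit.mk0 _ (Finset.prod_ne_zero_iff.mpr fun j _ => hD j j.2)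
  rw [Matrix.det_fromBlocks₂₂, det_diagonal]
  have hinv : ⅟(diagonal fun j : {i // i ≠ i0} => D j) = diagonal fun j : {i // i ≠ i0} => (D j)⁻¹ := by
    rw [invOf_eq_nonsing_inv]
    apply Matrix.inv_eq_right_inv
    rw [diagonal_mul_diagonal]
    ext i j
    by_cases h : i = j
    · subst h; simp [hD i i.2]
    · simp [h]
  rw [hinv]
  haveI : Unique {i // i = i0} := ⟨⟨⟨i0, rfl⟩⟩, fun a => Subtype.ext a.2⟩
  rw [Matrix.det_unique, zero_sub, Matrix.neg_apply, Matrix.mul_apply]
  have h1 : ∀ j : {i // i ≠ i0}, ((Matrix.of fun (_ : {i // i = i0}) (j : {i // i ≠ i0}) => M i0 j) *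
      diagonal fun j : {i // i ≠ i0} => (D j)⁻¹) default j = M i0 j * (D j)⁻¹ := by
    intro j
    rw [Matrix.mul_diagonal]
    rfl
  simp only [h1, Matrix.of_apply]
  rw [mul_neg, neg_mul]
  congr 2
  refine Finset.sum_congr rfl fun j _ => ?_
  ring

variable {R : Type*} [CommRing R]

theorem coeff_one_det (N Λ : Matrix ν ν R) (i0 : ν) (hr : ∀ j, N i0 j = 0) (hc : ∀ j, N j i0 = 0) :
    ((N.map C + (X : R[X]) • Λ.map C).det).coeff 1
      = Λ i0 i0 * (N.updateRow i0 (Pi.single i0 1)).det := by
  have h1 : N.map C + (X : R[X]) • Λ.map C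
      = (N.map C + (X : R[X]) • Λ.map C).updateRow i0 ((X : R[X]) • fun j => C (Λ i0 j)) := by
    ext1 i j
    by_cases hi : i = i0
    · subst hi; simp [hr]
    · simp [hi]
  rw [h1, det_updateRow_smul, coeff_X_mul, coeff_zero_eq_eval_zero]
  have h2 : eval 0 ((N.map C + (X : R[X]) • Λ.map C).updateRow i0 fun j => C (Λ i0 j)).det
      = (N.updateRow i0 (Λ i0)).det := by
    rw [← coe_evalRingHom, RingHom.map_det]
    congr 1
    ext i j
    by_cases hi : i = i0
    · subst hi; simp
    · simp [hi]
  rw [h2, det_eq_sum_mul_adjugate_row _ i0]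
  rw [Finset.sum_eq_single i0]
  · simp [adjugate_apply]
  · intro j _ hj
    rw [adjugate_apply]
    rw [det_eq_zero_of_column_eq_zero i0]
    · simp
    · intro i
      by_cases hi : i = i0
      · subst hi; simp [hj.symm]
      · simp [hi, hc]
  · simp

theorem coeff_det_of_row (D : ν → R) (Λ : Matrix ν ν R) (i0 : ν) (hD0 : D i0 = 0)
    (h00 : Λ i0 i0 = 0) :
    (((diagonal D).map C + (X : R[X]) • Λ.map C).det).coeff 2
      = (((diagonal D).updateRow i0 (Λ i0)).updateCol i0 (fun j => Λ j i0)).det := by
  have h1 : (diagonal D).map C + (X : R[X]) • Λ.map C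
      = ((diagonal D).map C + (X : R[X]) • Λ.map C).updateRow i0
        ((X : R[X]) • fun j => C (Λ i0 j)) := by
    ext1 i j
    by_cases hi : i = i0
    · subst hi
      by_cases hj : j = i
      · subst hj; simp [hD0]
      · simp [diagonal_apply, Ne.symm hj]
    · simp [hi]
  rw [h1, det_updateRow_smul]
  have h3 : ((diagonal D).map C + (X : R[X]) • Λ.map C).updateRow i0 (fun j => C (Λ i0 j))
      = (((diagonal D).map C + (X : R[X]) • Λ.map C).updateRow i0
        (fun j => C (Λ i0 j))).updateCol i0 ((X : R[X]) • fun j => C (Λ j i0)) := by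
    ext1 i j
    by_cases hj : j = i0
    · subst hj
      by_cases hi : i = j
      · subst hi; simp [h00]
      · simp [diagonal_apply, hi]
    · simp [hj]
  rw [h3, det_updateCol_smul, coeff_X_mul, coeff_X_mul, coeff_zero_eq_eval_zero,
    ← coe_evalRingHom, RingHom.map_det]
  congr 1
  ext i j
  by_cases hj : j = i0
  · subst hj; simp
  · by_cases hi : i = i0
    · subst hi; simp [hj]
    · by_cases hij : i = j
      · subst hij; simp [hj]
      · simp [hi, hj, diagonal_apply, hij]

end detlem

end Pool.Agent.Work.MP_35c45d_lc
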