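import Pool.Agent.Work.MP_35c45d_lc.SQPersist
import Pool.Agent.Work.MP_35c45d_lc.SQBorder

/-! # Border reduction: from a multiple of a prime `P` to a pencil `F' + r h`, `P ∤ h` -/

set_option autoImplicit false

namespace Pool.Agent.Work.MP_35c45d_lc.MP

open MvPolynomial Filter Topology Pool.Agent.Work.MP_35c45d_lc.SQ

section normal

variable {σ : Type} [Fintype σ]

theorem coeff_pol {N : ℕ} (a : Persist.ex σ N → ℂ) (d : Persist.ex σ N) :
    coeff d.1 (Persist.pol a) = a d := by
  classical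
  unfold Persist.pol
  rw [coeff_sum]
  simp only [coeff_monomial]
  rw [Finset.sum_eq_single d]
  · simp
  · intro b _ hb
    rw [if_neg]
    intro h
    exact hb (Subtype.ext h)
  · intro h
    exact absurd (Finset.mem_univ _) h

theorem coeff_pol_of_notMem {N : ℕ} (a : Persist.ex σ N → ℂ) {d : σ →₀ ℕ}
    (hd : d ∉ Persist.ex σ N) : coeff d (Persist.pol a) = 0 := by
  classical
  unfold Persist.pol
  rw [coeff_sum]
  refine Finset.sum_eq_zero fun b _ => ?_
  rw [coeff_monomial, if_neg]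
  intro h
  exact hd (h ▸ b.2)

theorem coeff_high' {N : ℕ} {g : MvPolynomial σ ℂ} (hN : g.totalDegree ≤ N) {d : σ →₀ ℕ}
    (hd : d ∉ Persist.ex σ N) : coeff d g = 0 := by
  rw [Persist.mem_ex, not_le] at hd
  apply coeff_eq_zero_of_totalDegree_lt
  refine lt_of_le_of_lt hN (lt_of_lt_of_le hd ?_)
  rw [Finsupp.degree_apply]

/-- a sequence of nonzero finite families of polynomials of bounded degree has, after passing to
a subsequence and rescaling, a nonzero limit in one place -/
theorem exists_normal_limit {N : ℕ} {I : Type} [Finite I] [Nonempty I]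
    (q : ℕ → I → MvPolynomial σ ℂ) (hq : ∀ s i, (q s i).totalDegree ≤ N)
    (hne : ∀ᶠ s in atTop, ∃ i, q s i ≠ 0) :
    ∃ (ψ : ℕ → ℕ) (i : I) (κ : ℕ → ℂ) (h : MvPolynomial σ ℂ), StrictMono ψ ∧ (∀ s, κ s ≠ 0) ∧
      h ≠ 0 ∧ ∀ d, Tendsto (fun s => coeff d (C (κ s) * q (ψ s) i)) atTop (𝓝 (coeff d h)) := by
  classical
  have hex0 : (0 : σ →₀ ℕ) ∈ Persist.ex σ N := by
    rw [Persist.mem_ex]
    simp
  have : Nonempty (Persist.ex σ N) := ⟨⟨0, hex0⟩⟩
  have : Fintype I := Fintype.ofFinite I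
  have h1 : ∀ s, ∃ t : I × Persist.ex σ N, ∀ t' : I × Persist.ex σ N,
      ‖coeff t'.2.1 (q s t'.1)‖ ≤ ‖coeff t.2.1 (q s t.1)‖ := fun s =>
    Finite.exists_max (fun t : I × Persist.ex σ N => ‖coeff t.2.1 (q s t.1)‖)
  choose t ht using h1
  obtain ⟨t0, ht0⟩ := Finite.exists_infinite_fiber t
  have hfreq : ∃ᶠ s in atTop, t s = t0 := by
    rw [Nat.frequently_atTop_iff_infinite]
    exact Set.infinite_coe_iff.1 ht0
  obtain ⟨ψ0, hψ0, hψ0'⟩ := extraction_of_frequently_atTop (hfreq.and_eventually hne)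
  -- the largest coefficient does not vanish
  have hκ : ∀ k, coeff t0.2.1 (q (ψ0 k) t0.1) ≠ 0 := by
    intro k h0
    obtain ⟨hk1, i, hk2⟩ := hψ0' k
    apply hk2
    ext d
    rw [coeff_zero]
    by_cases hd : d ∈ Persist.ex σ N
    · have h2 := ht (ψ0 k) (i, ⟨d, hd⟩)
      rw [hk1, h0, norm_zero] at h2
      exact norm_le_zero_iff.1 h2
    · exact coeff_high' (hq _ _) hd
  let b : ℕ → (I × Persist.ex σ N → ℂ) := fun k t' =>
    (coeff t0.2.1 (q (ψ0 k) t0.1))⁻¹ * coeff t'.2.1 (q (ψ0 k) t'.1)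
  have hb : ∀ k, b k ∈ Metric.closedBall (0 : I × Persist.ex σ N → ℂ) 1 := by
    intro k
    rw [mem_closedBall_zero_iff, pi_norm_le_iff_of_nonneg zero_le_one]
    intro t'
    have h2 := ht (ψ0 k) t'
    rw [(hψ0' k).1] at h2
    simp only [b]
    rw [norm_mul, norm_inv, inv_mul_le_iff₀ (norm_pos_iff.2 (hκ k)), mul_one]
    exact h2
  obtain ⟨β, _, ψ1, hψ1, hlim⟩ := (isCompact_closedBall (0 : I × Persist.ex σ N → ℂ) 1).tendsto_subseq hb
  rw [tendsto_pi_nhds] at hlim
  refine ⟨ψ0 ∘ ψ1, t0.1, fun k => (coeff t0.2.1 (q (ψ0 (ψ1 k)) t0.1))⁻¹,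
    Persist.pol (fun d => β (t0.1, d)), hψ0.comp hψ1, fun k => inv_ne_zero (hκ _), ?_, ?_⟩
  · intro h0
    have h2 := hlim t0
    have h3 : ∀ k, (b ∘ ψ1) k t0 = 1 := fun k => inv_mul_cancel₀ (hκ _)
    simp only [h3] at h2
    have h4 := tendsto_nhds_unique h2 tendsto_const_nhds
    have h5 := coeff_pol (fun d : Persist.ex σ N => β (t0.1, d)) t0.2
    rw [h0, coeff_zero] at h5
    have h6 : β t0 = 0 := h5.symm
    rw [h6] at h4
    exact zero_ne_one h4
  · intro d
    by_cases hd : d ∈ Persist.ex σ N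
    · have h2 := hlim (t0.1, ⟨d, hd⟩)
      have h3 := coeff_pol (fun d : Persist.ex σ N => β (t0.1, d)) ⟨d, hd⟩
      simp only at h3
      rw [h3]
      refine h2.congr fun k => ?_
      simp only [Function.comp, b, coeff_C_mul]
    · rw [coeff_pol_of_notMem _ hd]
      have h3 : ∀ k, coeff d (C ((coeff t0.2.1 (q (ψ0 (ψ1 k)) t0.1))⁻¹) *
          q ((ψ0 ∘ ψ1) k) t0.1) = 0 := by
        intro k
        rw [coeff_C_mul, coeff_high' (hq _ _) hd, mul_zero]
      simp only [h3]
      exact tendsto_const_nhds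

end normal

theorem BorderDet.succ {σ : Type} {n : ℕ} {f : MvPolynomial σ ℂ} (hf : BorderDet n f) :
    BorderDet (n + 1) f := by
  classical
  obtain ⟨A, γ, hA, hlim⟩ := hf
  refine ⟨fun s => (Matrix.fromBlocks (A s) 0 0 (1 : Matrix (Fin 1) (Fin 1) _)).submatrix
    finSumFinEquiv.symm finSumFinEquiv.symm, γ, fun s i j => ?_, fun d => ?_⟩
  · change ((Matrix.fromBlocks (A s) 0 0 (1 : Matrix (Fin 1) (Fin 1) _))
      (finSumFinEquiv.symm i) (finSumFinEquiv.symm j)).totalDegree ≤ 1
    rcases finSumFinEquiv.symm i with i | i <;> rcases finSumFinEquiv.symm j with j | j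
    · exact hA s i j
    · simp
    · simp
    · rw [Matrix.fromBlocks_apply₂₂, Matrix.one_apply]
      split_ifs <;> simp
  · have h1 : ∀ s, ((Matrix.fromBlocks (A s) 0 0 (1 : Matrix (Fin 1) (Fin 1) _)).submatrix
        finSumFinEquiv.symm finSumFinEquiv.symm).det = (A s).det := by
      intro s
      rw [Matrix.det_submatrix_equiv_self, Matrix.det_fromBlocks_zero₂₁, Matrix.det_one, mul_one]
    simp only [h1]
    exact hlim d

theorem det_updateRow_adj {R : Type*} [CommRing R] {n : Type*} [Fintype n] [DecidableEq n]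
    (A : Matrix n n R) (i j : n) (t : R) :
    (A.updateRow j (A j + t • Pi.single i 1)).det = A.det + t * A.adjugate i j := by
  rw [Matrix.det_updateRow_add, Matrix.det_updateRow_smul, Matrix.updateRow_eq_self,
    Matrix.adjugate_apply]

/-- `A` with `t` added to the entry `(k, l)` -/
noncomputable def bump {σ : Type} {n : ℕ} (A : Matrix (Fin n) (Fin n) (MvPolynomial σ ℂ))
    (k l : Fin n) (t : ℂ) : Matrix (Fin n) (Fin n) (MvPolynomial σ ℂ) :=
  A.updateRow k (A k + (C t : MvPolynomial σ ℂ) • Pi.single l (1 : MvPolynomial σ ℂ))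

theorem det_bump {σ : Type} {n : ℕ} (A : Matrix (Fin n) (Fin n) (MvPolynomial σ ℂ))
    (k l : Fin n) (t : ℂ) : (bump A k l t).det = A.det + C t * A.adjugate l k :=
  det_updateRow_adj A l k (C t)

theorem degree_bump {σ : Type} {n : ℕ} {A : Matrix (Fin n) (Fin n) (MvPolynomial σ ℂ)}
    (hA : ∀ i j, (A i j).totalDegree ≤ 1) (k l : Fin n) (t : ℂ) (i j : Fin n) :
    (bump A k l t i j).totalDegree ≤ 1 := by
  unfold bump
  by_cases hi : i = k
  · subst hi
    rw [Matrix.updateRow_self, Pi.add_apply, Pi.smul_apply, smul_eq_mul]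
    refine (totalDegree_add _ _).trans (max_le (hA _ _) ?_)
    refine (totalDegree_mul _ _).trans ?_
    rw [totalDegree_C, zero_add]
    by_cases hj : j = l
    · subst hj; simp
    · simp [hj]
  · rw [Matrix.updateRow_ne hi]
    exact hA _ _

theorem border_reduce {σ : Type} [Fintype σ] {P : MvPolynomial σ ℂ} (hP : Prime P) {n : ℕ}
    {F : MvPolynomial σ ℂ} (hF : BorderDet n F) (h0 : F ≠ 0) (hd : P ∣ F) :
    ∃ F' h : MvPolynomial σ ℂ, F' ≠ 0 ∧ P ∣ F' ∧ ¬ P ∣ h ∧
      ∀ r : ℂ, BorderDet n (F' + C r * h) := by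
  classical
  induction n generalizing F with
  | zero =>
    exfalso
    obtain ⟨A, γ, hA, hlim⟩ := hF
    have hz : ∀ d, d ≠ 0 → coeff d F = 0 := by
      intro d hd0
      have h1 := hlim d
      have h2 : ∀ s, coeff d (C (γ s) * (A s).det) = 0 := by
        intro s
        rw [Matrix.det_isEmpty, mul_one, coeff_C, if_neg (Ne.symm hd0)]
      simp only [h2] at h1
      exact (tendsto_nhds_unique h1 tendsto_const_nhds)
    have hF1 : F = C (coeff 0 F) := by
      ext d
      by_cases hd0 : d = 0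
      · subst hd0; simp
      · rw [hz d hd0, coeff_C, if_neg (Ne.symm hd0)]
    have hc : coeff 0 F ≠ 0 := fun h => h0 (by rw [hF1, h, C_0])
    have hu : IsUnit F := by
      rw [hF1]
      exact IsUnit.map C (isUnit_iff_ne_zero.2 hc)
    exact hP.not_isUnit (isUnit_of_dvd_unit hd hu)
  | succ n ih =>
    obtain ⟨A, γ, hA, hlim⟩ := hF
    -- a nonzero coefficient of the limit
    obtain ⟨d0, hd0⟩ : ∃ d, coeff d F ≠ 0 := by
      by_contra hcon
      push Not at hcon
      exact h0 (by ext d; rw [hcon, coeff_zero])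
    have hev : ∀ᶠ s in atTop, coeff d0 (C (γ s) * (A s).det) ≠ 0 :=
      (hlim d0).eventually_ne hd0
    have hγ : ∀ᶠ s in atTop, γ s ≠ 0 := by
      filter_upwards [hev] with s hs h
      exact hs (by rw [h, C_0, zero_mul, coeff_zero])
    have hadj : ∀ᶠ s in atTop, ∃ p : Fin (n + 1) × Fin (n + 1),
        (A s).adjugate p.1 p.2 ≠ 0 := by
      filter_upwards [hev] with s hs
      by_contra hcon
      push Not at hcon
      have h1 : (A s).adjugate = 0 := Matrix.ext fun i j => hcon (i, j)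
      have h2 : (A s).det = 0 := by
        have h3 := Matrix.mul_adjugate (A s)
        rw [h1, mul_zero] at h3
        have h4 := congrFun (congrFun h3 0) 0
        simpa using h4.symm
      exact hs (by rw [h2, mul_zero, coeff_zero])
    have hsub : ∀ s (p : Fin (n + 1) × Fin (n + 1)), (A s).adjugate p.1 p.2 =
        C ((-1 : ℂ) ^ (p.2 + p.1 : ℕ)) * ((A s).submatrix p.2.succAbove p.1.succAbove).det := by
      intro s p
      rw [Matrix.adjugate_fin_succ_eq_det_submatrix]
      simp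
    have hdeg : ∀ s (p : Fin (n + 1) × Fin (n + 1)),
        ((A s).adjugate p.1 p.2).totalDegree ≤ n := by
      intro s p
      rw [hsub]
      exact totalDegree_smul_det_le _ (fun i j => hA s _ _) _
    obtain ⟨ψ, p, κ, h, hψ, hκ, hh, hl⟩ := exists_normal_limit
      (q := fun s (p : Fin (n + 1) × Fin (n + 1)) => (A s).adjugate p.1 p.2) hdeg hadj
    -- (b) the limit of the cofactors
    have hb : BorderDet n h := by
      refine ⟨fun s => (A (ψ s)).submatrix p.2.succAbove p.1.succAbove,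
        fun s => κ s * (-1 : ℂ) ^ (p.2 + p.1 : ℕ), fun s i j => hA _ _ _, fun d => ?_⟩
      refine (hl d).congr fun s => ?_
      rw [hsub, C_mul, mul_assoc]
    by_cases hPh : P ∣ h
    · obtain ⟨F', h', h1, h2, h3, h4⟩ := ih hb hh hPh
      exact ⟨F', h', h1, h2, h3, fun r => BorderDet.succ (h4 r)⟩
    · refine ⟨F, h, h0, hd, hPh, fun r => ?_⟩
      refine ⟨fun s => bump (A (ψ s)) p.2 p.1 (r * κ s / γ (ψ s)), fun s => γ (ψ s),
        fun s i j => degree_bump (hA _) p.2 p.1 _ i j, fun d => ?_⟩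
      · have h1 : Tendsto (fun s => coeff d (C (γ (ψ s)) * (A (ψ s)).det)) atTop
            (𝓝 (coeff d F)) := (hlim d).comp hψ.tendsto_atTop
        have h2 := h1.add ((hl d).const_mul r)
        rw [coeff_add, coeff_C_mul]
        refine h2.congr' ?_
        filter_upwards [hψ.tendsto_atTop.eventually hγ] with s hs
        rw [det_bump, mul_add, coeff_add]
        congr 1
        rw [← mul_assoc, ← C_mul, ← coeff_C_mul, ← mul_assoc, ← C_mul]
        congr 3
        field_simp

end Pool.Agent.Work.MP_35c45d_lc.MP
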