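import Pool.Agent.Work.MP_35c45d_lc.SQDefs

/-! # The permanent is a prime polynomial -/

set_option autoImplicit false

namespace Pool.Agent.Work.MP_35c45d_lc.MP

open MvPolynomial

variable {σ : Type}

/-- scaling the variables in `ω` by a new variable -/
noncomputable def theta (ω : σ → Prop) [DecidablePred ω] :
    MvPolynomial σ ℂ →ₐ[ℂ] Polynomial (MvPolynomial σ ℂ) :=
  aeval fun v => (if ω v then Polynomial.X else 1) * Polynomial.C (X v)

theorem eval_one_theta (ω : σ → Prop) [DecidablePred ω] (f : MvPolynomial σ ℂ) :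
    Polynomial.eval 1 (theta ω f) = f := by
  induction f using MvPolynomial.induction_on with
  | C a =>
    have : theta ω (C a) = Polynomial.C (C a) := by
      rw [← algebraMap_eq, AlgHom.commutes]; rfl
    rw [this, Polynomial.eval_C]
  | add p q hp hq => rw [map_add, Polynomial.eval_add, hp, hq]
  | mul_X p v hp =>
    rw [map_mul, Polynomial.eval_mul, hp]
    congr 1
    unfold theta
    rw [aeval_X, Polynomial.eval_mul, Polynomial.eval_C]
    split_ifs <;> simp

theorem eval_zero_theta (ω : σ → Prop) [DecidablePred ω] (f : MvPolynomial σ ℂ) :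
    Polynomial.eval 0 (theta ω f) =
      bind₁ (fun v => if ω v then (0 : MvPolynomial σ ℂ) else X v) f := by
  induction f using MvPolynomial.induction_on with
  | C a =>
    have : theta ω (C a) = Polynomial.C (C a) := by
      rw [← algebraMap_eq, AlgHom.commutes]; rfl
    rw [this, Polynomial.eval_C, bind₁_C_right]
  | add p q hp hq => rw [map_add, Polynomial.eval_add, hp, hq, map_add]
  | mul_X p v hp =>
    rw [map_mul, Polynomial.eval_mul, hp, map_mul]
    congr 1
    unfold theta
    rw [aeval_X, Polynomial.eval_mul, Polynomial.eval_C, bind₁_X_right]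
    split_ifs <;> simp

theorem vars_of_natDegree_zero (ω : σ → Prop) [DecidablePred ω] {f : MvPolynomial σ ℂ}
    (h : (theta ω f).natDegree = 0) : ∀ v ∈ f.vars, ¬ ω v := by
  classical
  have h1 : bind₁ (fun v => if ω v then (0 : MvPolynomial σ ℂ) else X v) f = f := by
    rw [← eval_zero_theta]
    conv_rhs => rw [← eval_one_theta ω f]
    rw [Polynomial.eq_C_of_natDegree_eq_zero h, Polynomial.eval_C, Polynomial.eval_C]
  intro v hv hω
  rw [← h1] at hv
  have h2 := vars_bind₁ (fun v => if ω v then (0 : MvPolynomial σ ℂ) else X v) f hv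
  rw [Finset.mem_biUnion] at h2
  obtain ⟨w, _, hw⟩ := h2
  by_cases h3 : ω w
  · simp [h3] at hw
  · rw [if_neg h3, vars_X, Finset.mem_singleton] at hw
    exact h3 (hw ▸ hω)

/-- if a product has degree one in the variables of `ω`, one factor does not contain any of
them -/
theorem alt (ω : σ → Prop) [DecidablePred ω] {f g P : MvPolynomial σ ℂ} (hP : P ≠ 0)
    (hfg : f * g = P) (hω : theta ω P = Polynomial.X * Polynomial.C P) :
    (∀ v ∈ f.vars, ¬ ω v) ∨ (∀ v ∈ g.vars, ¬ ω v) := by
  have h0 : theta ω f * theta ω g ≠ 0 := by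
    rw [← map_mul, hfg, hω]
    exact mul_ne_zero Polynomial.X_ne_zero (by rwa [Ne, Polynomial.C_eq_zero])
  have h1 : (theta ω f).natDegree + (theta ω g).natDegree = 1 := by
    rw [← Polynomial.natDegree_mul (left_ne_zero_of_mul h0) (right_ne_zero_of_mul h0),
      ← map_mul, hfg, hω, Polynomial.natDegree_X_mul (by rwa [Ne, Polynomial.C_eq_zero]),
      Polynomial.natDegree_C]
  rcases Nat.eq_zero_or_pos (theta ω f).natDegree with h | h
  · exact Or.inl (vars_of_natDegree_zero ω h)
  · exact Or.inr (vars_of_natDegree_zero ω (by omega))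

theorem isUnit_of_vars {f : MvPolynomial σ ℂ} (h0 : f ≠ 0) (h : f.vars = ∅) : IsUnit f := by
  classical
  have h1 : f.totalDegree = 0 := by
    rw [← Nat.le_zero, totalDegree]
    refine Finset.sup_le fun d hd => ?_
    have : d = 0 := by
      ext v
      by_contra hv
      have : v ∈ f.vars := (mem_vars_iff_mem_support v).2 ⟨d, hd, Finsupp.mem_support_iff.2 hv⟩
      rw [h] at this
      simp at this
    simp [this]
  rw [totalDegree_eq_zero_iff_eq_C] at h1
  rw [h1] at h0 ⊢
  refine IsUnit.map C (isUnit_iff_ne_zero.2 fun h2 => h0 ?_)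
  rw [h2, C_0]

theorem permPoly_eq (m : ℕ) :
    SQ.permPoly m = ∑ τ : Equiv.Perm (Fin m), ∏ b : Fin m, X (τ b, b) := by
  unfold SQ.permPoly Matrix.permanent
  rfl

theorem theta_permPoly {m : ℕ} (ω : Fin m × Fin m → Prop) [DecidablePred ω]
    (h : ∀ τ : Equiv.Perm (Fin m), ∃ b₀ : Fin m, ∀ b, ω (τ b, b) ↔ b = b₀) :
    theta ω (SQ.permPoly m) = Polynomial.X * Polynomial.C (SQ.permPoly m) := by
  rw [permPoly_eq, map_sum, map_sum, Finset.mul_sum]
  refine Finset.sum_congr rfl fun τ _ => ?_
  obtain ⟨b₀, hb⟩ := h τ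
  rw [map_prod, map_prod]
  unfold theta
  simp only [aeval_X]
  rw [Finset.prod_mul_distrib]
  congr 1
  simp only [hb]
  rw [Finset.prod_ite_eq' Finset.univ b₀ (fun _ => (Polynomial.X : Polynomial (MvPolynomial
    (Fin m × Fin m) ℂ)))]
  simp

theorem mem_vars_permPoly {m : ℕ} (i j : Fin m) : (i, j) ∈ (SQ.permPoly m).vars := by
  classical
  by_contra hv
  let π : Equiv.Perm (Fin m) := Equiv.swap i j
  have hπ : π j = i := Equiv.swap_apply_right i j
  let x : Fin m × Fin m → ℂ := fun v => if v.1 = π v.2 then 1 else 0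
  let y : Fin m × Fin m → ℂ := fun v => if v.1 = π v.2 ∧ v ≠ (i, j) then 1 else 0
  have hxy : eval x (SQ.permPoly m) = eval y (SQ.permPoly m) := by
    refine eval₂Hom_congr' rfl ?_ rfl
    intro v hv1 _
    have hne : v ≠ (i, j) := fun h => hv (h ▸ hv1)
    simp only [x, y]
    simp [hne]
  have hx : eval x (SQ.permPoly m) = 1 := by
    rw [permPoly_eq, map_sum, Finset.sum_eq_single π]
    · rw [map_prod]
      refine Finset.prod_eq_one fun b _ => ?_
      simp [x]
    · intro τ _ hτ
      have : ∃ b, τ b ≠ π b := by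
        by_contra h
        push Not at h
        exact hτ (Equiv.ext h)
      obtain ⟨b, hb⟩ := this
      rw [map_prod]
      refine Finset.prod_eq_zero (Finset.mem_univ b) ?_
      simp [x, hb]
    · simp
  have hy : eval y (SQ.permPoly m) = 0 := by
    rw [permPoly_eq, map_sum]
    refine Finset.sum_eq_zero fun τ _ => ?_
    rw [map_prod]
    by_cases hτ : τ = π
    · refine Finset.prod_eq_zero (Finset.mem_univ j) ?_
      simp [y, hτ, hπ]
    · have : ∃ b, τ b ≠ π b := by
        by_contra h
        push Not at h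
        exact hτ (Equiv.ext h)
      obtain ⟨b, hb⟩ := this
      refine Finset.prod_eq_zero (Finset.mem_univ b) ?_
      simp [y, hb]
  rw [hx, hy] at hxy
  exact one_ne_zero hxy

theorem permPoly_ne_zero' {m : ℕ} (hm : 1 ≤ m) : SQ.permPoly m ≠ 0 := by
  intro h
  have := mem_vars_permPoly (m := m) ⟨0, hm⟩ ⟨0, hm⟩
  rw [h] at this
  simp at this

theorem irreducible_permPoly {m : ℕ} (hm : 1 ≤ m) : Irreducible (SQ.permPoly m) := by
  classical
  have hP := permPoly_ne_zero' hm
  refine ⟨fun hu => ?_, fun f g hfg => ?_⟩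
  · have h1 := mem_vars_permPoly (m := m) ⟨0, hm⟩ ⟨0, hm⟩
    obtain ⟨a, _, ha⟩ := (MvPolynomial.isUnit_iff_eq_C_of_isReduced).1 hu
    rw [ha] at h1
    simp at h1
  · have hf0 : f ≠ 0 := fun h => hP (by rw [hfg, h, zero_mul])
    have hg0 : g ≠ 0 := fun h => hP (by rw [hfg, h, mul_zero])
    by_contra hcon
    push Not at hcon
    obtain ⟨hf, hg⟩ := hcon
    have hfv : f.vars ≠ ∅ := fun h => hf (isUnit_of_vars hf0 h)
    have hgv : g.vars ≠ ∅ := fun h => hg (isUnit_of_vars hg0 h)
    obtain ⟨⟨i, j⟩, hij⟩ := Finset.nonempty_iff_ne_empty.2 hfv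
    obtain ⟨⟨k, l⟩, hkl⟩ := Finset.nonempty_iff_ne_empty.2 hgv
    have hrow := alt (fun v : Fin m × Fin m => v.1 = i) hP hfg.symm
      (theta_permPoly _ fun τ => ⟨τ.symm i, fun b => by
        simp only
        rw [Equiv.eq_symm_apply]⟩)
    have hcol := alt (fun v : Fin m × Fin m => v.2 = l) hP hfg.symm
      (theta_permPoly _ fun τ => ⟨l, fun b => Iff.rfl⟩)
    have hg1 : ∀ v ∈ g.vars, v.1 ≠ i := by
      rcases hrow with h | h
      · exact absurd rfl (h _ hij)
      · exact h
    have hf1 : ∀ v ∈ f.vars, v.2 ≠ l := by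
      rcases hcol with h | h
      · exact h
      · exact absurd rfl (h _ hkl)
    have h2 := mem_vars_permPoly (m := m) i l
    rw [hfg] at h2
    rcases Finset.mem_union.1 (vars_mul f g h2) with h | h
    · exact hf1 _ h rfl
    · exact hg1 _ h rfl

/-- the permanent is prime -/
theorem prime_permPoly {m : ℕ} (hm : 1 ≤ m) : Prime (SQ.permPoly m) :=
  (irreducible_permPoly hm).prime

end Pool.Agent.Work.MP_35c45d_lc.MP
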