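import Mathlib
import Pool.Agent.Work.MP_35c45d_lc.MPIrr

/-! Zeros of a prime polynomial, linear in a variable, at which another polynomial, not a multiple
of it, does not vanish. -/

set_option autoImplicit false

namespace Pool.Agent.Work.MP_35c45d_lc.MP

open MvPolynomial Filter Topology Pool.Agent.Work.MP_35c45d_lc.SQ

section gen

variable {σ : Type}

theorem eval_update [DecidableEq σ] {p : MvPolynomial σ ℂ} {v : σ} (hv : v ∉ p.vars)
    (z : σ → ℂ) (a : ℂ) : eval (Function.update z v a) p = eval z p := by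
  refine eval₂Hom_congr' rfl ?_ rfl
  intro i hi _
  rw [Function.update_of_ne]
  rintro rfl
  exact hv hi

/-- pseudo-remainder -/
theorem pseudo [DecidableEq σ] {P p1 p0 : MvPolynomial σ ℂ} {v : σ} (hexp : P = p1 * X v + p0)
    (h1 : v ∉ p1.vars) (h0 : v ∉ p0.vars) (W : MvPolynomial σ ℂ) :
    ∃ (d : ℕ) (r : MvPolynomial σ ℂ), v ∉ r.vars ∧ P ∣ p1 ^ d * W - r := by
  have hmul : ∀ a b : MvPolynomial σ ℂ, v ∉ a.vars → v ∉ b.vars → v ∉ (a * b).vars := by
    intro a b ha hb h
    rcases Finset.mem_union.mp (vars_mul _ _ h) with h | h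
    · exact ha h
    · exact hb h
  have hadd : ∀ a b : MvPolynomial σ ℂ, v ∉ a.vars → v ∉ b.vars → v ∉ (a + b).vars := by
    intro a b ha hb h
    rcases Finset.mem_union.mp (vars_add_subset _ _ h) with h | h
    · exact ha h
    · exact hb h
  have hpow : ∀ k : ℕ, v ∉ (p1 ^ k).vars := by
    intro k h
    exact h1 (vars_pow _ _ h)
  have hneg : ∀ a : MvPolynomial σ ℂ, v ∉ a.vars → v ∉ (-a).vars := by
    intro a ha
    rwa [vars_neg]
  induction W using MvPolynomial.induction_on with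
  | C a => exact ⟨0, C a, by rw [vars_C]; simp, by simp⟩
  | add f g hf hg =>
    obtain ⟨d1, r1, hr1, q1, hq1⟩ := hf
    obtain ⟨d2, r2, hr2, q2, hq2⟩ := hg
    refine ⟨d1 + d2, p1 ^ d2 * r1 + p1 ^ d1 * r2, hadd _ _ (hmul _ _ (hpow _) hr1)
      (hmul _ _ (hpow _) hr2), p1 ^ d2 * q1 + p1 ^ d1 * q2, ?_⟩
    linear_combination (p1 ^ d2) * hq1 + (p1 ^ d1) * hq2
  | mul_X f i hf =>
    obtain ⟨d, r, hr, q, hq⟩ := hf
    by_cases hi : i = v
    · subst hi
      refine ⟨d + 1, -(p0 * r), hneg _ (hmul _ _ h0 hr), p1 * X i * q + r, ?_⟩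
      linear_combination (p1 * X i) * hq - r * hexp
    · refine ⟨d, r * X i, hmul _ _ hr ?_, q * X i, ?_⟩
      · rw [vars_X, Finset.mem_singleton]
        exact fun h => hi h.symm
      · linear_combination (X i) * hq

/-- the nonvanishing set of a nonzero polynomial is dense -/
theorem exists_ne_near [Fintype σ] {r : MvPolynomial σ ℂ} (hr : r ≠ 0) (y : σ → ℂ)
    (U : Set (σ → ℂ)) (hU : U ∈ 𝓝 y) : ∃ z ∈ U, eval z r ≠ 0 := by
  obtain ⟨q, hq⟩ : ∃ q, eval q r ≠ 0 := by
    by_contra hcon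
    push Not at hcon
    exact hr (MvPolynomial.funext fun x => by rw [hcon x, map_zero])
  let φ : Polynomial ℂ := aeval (fun i => Polynomial.C (y i) + Polynomial.X * Polynomial.C (q i - y i)) r
  have hφ : ∀ t : ℂ, φ.eval t = eval (fun i => y i + t * (q i - y i)) r := by
    intro t
    show Polynomial.eval t (aeval _ r) = _
    rw [← Polynomial.coe_evalRingHom, MvPolynomial.aeval_def, ← MvPolynomial.coe_eval₂Hom,
      ← RingHom.comp_apply]
    unfold MvPolynomial.eval
    congr 1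
    apply MvPolynomial.ringHom_ext
    · intro a
      simp
    · intro i
      simp
  have hφ0 : φ ≠ 0 := by
    intro h
    have h1 := hφ 1
    rw [h, Polynomial.eval_zero] at h1
    apply hq
    rw [h1]
    congr 1
    apply congrArg
    funext i
    ring
  have hfin := Polynomial.finite_setOfPred_isRoot hφ0
  have h1 : ∀ᶠ t in 𝓝[≠] (0:ℂ), ¬ φ.IsRoot t := by
    have h2 : ({t | φ.IsRoot t} \ {0})ᶜ ∈ 𝓝 (0:ℂ) :=
      (hfin.subset Set.sdiff_subset).isClosed.isOpen_compl.mem_nhds (by simp)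
    filter_upwards [self_mem_nhdsWithin, nhdsWithin_le_nhds h2] with t ht ht2 hroot
    exact ht2 ⟨hroot, ht⟩
  have h2 : ∀ᶠ t in 𝓝[≠] (0:ℂ), (fun i => y i + t * (q i - y i)) ∈ U := by
    apply nhdsWithin_le_nhds
    have hc : ContinuousAt (fun t : ℂ => (fun i => y i + t * (q i - y i) : σ → ℂ)) 0 := by
      fun_prop
    apply hc.preimage_mem_nhds
    simpa using hU
  obtain ⟨t, ht1, ht2⟩ := (h1.and h2).exists
  refine ⟨_, ht2, ?_⟩
  rw [← hφ]
  exact ht1

theorem continuous_eval_pt [Fintype σ] (p : MvPolynomial σ ℂ) :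
    Continuous fun y : σ → ℂ => eval y p := MvPolynomial.continuous_eval p

/-- density -/
theorem exists_near [Fintype σ] {P p1 p0 : MvPolynomial σ ℂ} (hP : Prime P) {v : σ}
    (hexp : P = p1 * X v + p0) (h1 : v ∉ p1.vars) (h0 : v ∉ p0.vars) {W : MvPolynomial σ ℂ}
    (hW : ¬ P ∣ W) {y : σ → ℂ} (hy : eval y P = 0) (hy1 : eval y p1 ≠ 0)
    (U : Set (σ → ℂ)) (hU : U ∈ 𝓝 y) : ∃ z ∈ U, eval z P = 0 ∧ eval z W ≠ 0 := by
  classical
  obtain ⟨d, r, hr, q, hq⟩ := pseudo hexp h1 h0 W
  have hr0 : r ≠ 0 := by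
    rintro rfl
    rw [sub_zero] at hq
    rcases hP.dvd_or_dvd (Dvd.intro _ hq.symm) with h | h
    · have h2 := hP.dvd_of_dvd_pow h
      obtain ⟨w, hw⟩ := h2
      apply hy1
      rw [hw, map_mul, hy, zero_mul]
    · exact hW h
  let Θ : (σ → ℂ) → (σ → ℂ) := fun z => Function.update z v (-(eval z p0) / eval z p1)
  have hyv : -(eval y p0) / eval y p1 = y v := by
    have h2 := hy
    rw [hexp, map_add, map_mul, eval_X] at h2
    field_simp
    linear_combination -h2
  have hΘy : Θ y = y := by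
    show Function.update y v _ = y
    rw [hyv, Function.update_eq_self]
  have hΘc : ContinuousAt Θ y := by
    apply continuousAt_pi.2
    intro i
    by_cases hi : i = v
    · subst hi
      simp only [Θ, Function.update_self]
      exact ((continuous_eval_pt p0).continuousAt.neg).div (continuous_eval_pt p1).continuousAt hy1
    · simp only [Θ, Function.update_of_ne hi]
      exact (continuous_apply i).continuousAt
  have hU2 : Θ ⁻¹' U ∈ 𝓝 y := hΘc.preimage_mem_nhds (by rw [hΘy]; exact hU)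
  have hU3 : {z | eval z p1 ≠ 0} ∈ 𝓝 y :=
    (continuous_eval_pt p1).continuousAt.eventually_ne hy1
  obtain ⟨z, ⟨hz1, hz2⟩, hz3⟩ := exists_ne_near hr0 y _ (inter_mem hU2 hU3)
  have hz2' : eval z p1 ≠ 0 := hz2
  have e1 : eval (Θ z) p1 = eval z p1 := eval_update h1 _ _
  have e0 : eval (Θ z) p0 = eval z p0 := eval_update h0 _ _
  have er : eval (Θ z) r = eval z r := eval_update hr _ _
  have eP : eval (Θ z) P = 0 := by
    rw [hexp, map_add, map_mul, eval_X, e1, e0]
    simp only [Θ, Function.update_self]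
    field_simp
    ring
  refine ⟨Θ z, hz1, eP, ?_⟩
  intro hW0
  apply hz3
  have h3 := congrArg (eval (Θ z)) hq
  rw [map_sub, map_mul, map_mul, hW0, eP, zero_mul, mul_zero, er] at h3
  linear_combination -h3

end gen

section perm

variable {m : ℕ}

/-- coefficient of the variable `(a, b)` -/
noncomputable def q1 (a b : Fin m) : MvPolynomial (Fin m × Fin m) ℂ :=
  ∑ σ ∈ (Finset.univ : Finset (Equiv.Perm (Fin m))).filter (fun σ => σ b = a),
    ∏ i ∈ Finset.univ.erase b, X (σ i, i)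

/-- the rest -/
noncomputable def q0 (a b : Fin m) : MvPolynomial (Fin m × Fin m) ℂ :=
  ∑ σ ∈ (Finset.univ : Finset (Equiv.Perm (Fin m))).filter (fun σ => ¬ σ b = a),
    ∏ i, X (σ i, i)

theorem perm_expand (a b : Fin m) : permPoly m = q1 a b * X (a, b) + q0 a b := by
  classical
  unfold permPoly Matrix.permanent q1 q0
  simp only [Matrix.of_apply]
  rw [← Finset.sum_filter_add_sum_filter_not Finset.univ (fun σ : Equiv.Perm (Fin m) => σ b = a)]
  congr 1
  rw [Finset.sum_mul]
  apply Finset.sum_congr rfl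
  intro σ hσ
  rw [Finset.mem_filter] at hσ
  rw [← Finset.mul_prod_erase _ _ (Finset.mem_univ b), hσ.2, mul_comm]

theorem q1_vars (a b : Fin m) : (a, b) ∉ (q1 a b).vars := by
  classical
  intro h
  have h1 := vars_sum_subset _ _ h
  rw [Finset.mem_biUnion] at h1
  obtain ⟨σ, _, h2⟩ := h1
  have h3 := vars_prod _ h2
  rw [Finset.mem_biUnion] at h3
  obtain ⟨i, hi, h4⟩ := h3
  rw [vars_X, Finset.mem_singleton] at h4
  exact (Finset.mem_erase.mp hi).1 (Prod.mk.inj h4).2.symm

theorem q0_vars (a b : Fin m) : (a, b) ∉ (q0 a b).vars := by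
  classical
  intro h
  have h1 := vars_sum_subset _ _ h
  rw [Finset.mem_biUnion] at h1
  obtain ⟨σ, hσ, h2⟩ := h1
  have h3 := vars_prod _ h2
  rw [Finset.mem_biUnion] at h3
  obtain ⟨i, _, h4⟩ := h3
  rw [vars_X, Finset.mem_singleton] at h4
  obtain ⟨h5, h6⟩ := Prod.mk.inj h4
  subst h6
  exact (Finset.mem_filter.mp hσ).2 h5.symm

theorem pderiv_perm (a b : Fin m) : pderiv (a, b) (permPoly m) = q1 a b := by
  rw [perm_expand a b, map_add, Derivation.leibniz, pderiv_X_self,
    pderiv_eq_zero_of_notMem_vars (q0_vars a b), pderiv_eq_zero_of_notMem_vars (q1_vars a b)]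
  simp

/-- near a smooth zero of the permanent there are zeros at which `W` does not vanish -/
theorem perm_near (hm : 1 ≤ m) {W : MvPolynomial (Fin m × Fin m) ℂ} (hW : ¬ permPoly m ∣ W)
    {y : Fin m × Fin m → ℂ} (hy : eval y (permPoly m) = 0) {q : Fin m × Fin m}
    (hq : eval y (pderiv q (permPoly m)) ≠ 0)
    (U : Set (Fin m × Fin m → ℂ)) (hU : U ∈ 𝓝 y) :
    ∃ z ∈ U, eval z (permPoly m) = 0 ∧ eval z W ≠ 0 := by
  obtain ⟨a, b⟩ := q
  rw [pderiv_perm] at hq
  exact exists_near (prime_permPoly hm) (perm_expand a b) (q1_vars a b) (q0_vars a b) hW hy hq U hU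

end perm

end Pool.Agent.Work.MP_35c45d_lc.MP
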