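import Mathlib
import Pool.Agent.Work.MP_35c45d_lc.SQDefs
import Pool.Agent.Work.MP_35c45d_lc.MPIrr

/-! Statements of the MULT theorem (multiples of the permanent): specification only, never import. -/

set_option autoImplicit false

namespace Pool.Agent.Work.MP_35c45d_lc.MPSpec

open MvPolynomial Filter Topology Pool.Agent.Work.MP_35c45d_lc.SQ

/-- MPBRed.lean (helper36), border reduction -/
theorem border_reduce {σ : Type} [Fintype σ] {P : MvPolynomial σ ℂ} (hP : Prime P) {n : ℕ}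
    {F : MvPolynomial σ ℂ} (hF : BorderDet n F) (h0 : F ≠ 0) (hd : P ∣ F) :
    ∃ F' h : MvPolynomial σ ℂ, F' ≠ 0 ∧ P ∣ F' ∧ ¬ P ∣ h ∧ ∀ r : ℂ, BorderDet n (F' + C r * h) := by
  sorry

/-- MPPersist.lean (helper22): persistence with varying polynomial and varying direction -/
theorem persist_dir {ι : Type} [Fintype ι] (N : ℕ) (f : MvPolynomial ι ℂ)
    (g : ℕ → MvPolynomial ι ℂ) (hN : ∀ s, (g s).totalDegree ≤ N)
    (hlim : ∀ d, Tendsto (fun s => coeff d (g s)) atTop (𝓝 (coeff d f)))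
    (c x : ι → ℂ) (c' : ℕ → ι → ℂ) (hc' : Tendsto c' atTop (𝓝 c)) (hc : c ≠ 0)
    (hx : IsCrit f c x) (U : Set (ι → ℂ)) (hU : U ∈ 𝓝 x) :
    ∀ᶠ s in atTop, ∃ x' ∈ U, IsCrit (g s) (c' s) x' := by
  sorry

/-- MPPersist.lean (helper22): the point stays nondegenerate if it stays a zero and the direction
is the gradient there -/
theorem persist_same {ι : Type} [Fintype ι] (N : ℕ) (f : MvPolynomial ι ℂ)
    (g : ℕ → MvPolynomial ι ℂ) (hN : ∀ s, (g s).totalDegree ≤ N)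
    (hlim : ∀ d, Tendsto (fun s => coeff d (g s)) atTop (𝓝 (coeff d f)))
    (c x : ι → ℂ) (hc : c ≠ 0) (hx : IsCrit f c x) (h0 : ∀ s, eval x (g s) = 0) :
    ∀ᶠ s in atTop, IsCrit (g s) (fun i => eval x (pderiv i (g s))) x := by
  sorry

/-- MPGen.lean (helper73): generic position -/
theorem generic {m : ℕ} (hm : 1 ≤ m) {ι κ : Type} [Fintype ι] [Fintype κ]
    (φ : Fin m × Fin m → MvPolynomial ι ℂ) (hφ : ∀ q, (φ q).totalDegree ≤ 1)
    (c : ι → ℂ) (hc : c ≠ 0) (x : κ → ι → ℂ) (hinj : Function.Injective x)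
    (hx : ∀ k, IsCrit (aeval φ (permPoly m)) c (x k))
    {W : MvPolynomial (Fin m × Fin m) ℂ} (hW : ¬ permPoly m ∣ W) :
    ∃ (φ' : Fin m × Fin m → MvPolynomial ι ℂ) (c' : ι → ℂ) (x' : κ → ι → ℂ),
      (∀ q, (φ' q).totalDegree ≤ 1) ∧ c' ≠ 0 ∧ Function.Injective x' ∧
      ∀ k, IsCrit (aeval φ' (permPoly m)) c' (x' k) ∧ eval (x' k) (aeval φ' W) ≠ 0 := by
  sorry

/-- MPSheet.lean (helper18) -/
theorem sheet {ι : Type} [Fintype ι] (f G H : MvPolynomial ι ℂ) (a : ℕ) (ha : 1 ≤ a)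
    (c x : ι → ℂ) (hc : c ≠ 0) (hx : IsCrit f c x) (hG : eval x G ≠ 0) (hH : eval x H ≠ 0)
    (U : Set (ι → ℂ)) (hU : U ∈ 𝓝 x) :
    ∀ᶠ τ in 𝓝[≠] (0:ℂ), ∃ x' ∈ U, IsCrit (f ^ a * G - C (τ ^ a) * H) c x' := by
  sorry

end Pool.Agent.Work.MP_35c45d_lc.MPSpec
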