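import Pool.Agent.Work.MP_35c45d_lc.PEGraph1

set_option autoImplicit false

namespace Pool.MP_35c45d_lc.OnePerm
open Finset

/-- the set `A` of half edges splits the vertex `i` -/
def Split {ι : Type*} {d : ι → ℕ} (A : Finset (Σ i, Fin (d i))) (i : ι) : Prop :=
  (∃ k, (⟨i, k⟩ : Σ i, Fin (d i)) ∈ A) ∧ ∃ k, (⟨i, k⟩ : Σ i, Fin (d i)) ∉ A

/-- ratio of consecutive binomials near the middle -/
theorem choose_succ_ratio (e j : ℕ) (hj : 9 * e ≤ 20 * j) :
    9 * e.choose (j + 1) ≤ 11 * e.choose j := by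
  have h := Nat.choose_succ_right_eq e j
  have h2 : 9 * (e - j) ≤ 11 * (j + 1) := by omega
  have h3 : 9 * e.choose (j + 1) * (j + 1) ≤ 11 * e.choose j * (j + 1) := by
    calc 9 * e.choose (j + 1) * (j + 1) = 9 * (e.choose (j + 1) * (j + 1)) := by ring
      _ = e.choose j * (9 * (e - j)) := by rw [h]; ring
      _ ≤ e.choose j * (11 * (j + 1)) := Nat.mul_le_mul_left _ h2
      _ = 11 * e.choose j * (j + 1) := by ring
  exact Nat.le_of_mul_le_mul_right h3 (Nat.succ_pos j)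

theorem choose_ratio (e a k : ℕ) (ha : 9 * e ≤ 20 * a) :
    9 ^ k * e.choose (a + k) ≤ 11 ^ k * e.choose a := by
  induction k with
  | zero => simp
  | succ k ih =>
    have h := choose_succ_ratio e (a + k) (by omega)
    calc 9 ^ (k + 1) * e.choose (a + (k + 1)) = 9 ^ k * (9 * e.choose (a + k + 1)) := by
          rw [pow_succ, ← add_assoc]; ring
      _ ≤ 9 ^ k * (11 * e.choose (a + k)) := Nat.mul_le_mul_left _ h
      _ = 11 * (9 ^ k * e.choose (a + k)) := by ring
      _ ≤ 11 * (11 ^ k * e.choose a) := Nat.mul_le_mul_left _ ih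
      _ = 11 ^ (k + 1) * e.choose a := by rw [pow_succ]; ring

theorem two_pow_le_middle (e : ℕ) : 2 ^ e ≤ (e + 1) * e.choose (e / 2) := by
  rw [← Nat.sum_range_choose e]
  calc ∑ m ∈ range (e + 1), e.choose m ≤ ∑ _m ∈ range (e + 1), e.choose (e / 2) :=
        sum_le_sum fun m _ => Nat.choose_le_middle m e
    _ = (e + 1) * e.choose (e / 2) := by rw [sum_const, card_range, smul_eq_mul]

theorem exists_window (e a : ℕ) (h1 : 9 * e ≤ 20 * a) (h2 : 20 * a ≤ 11 * e) :
    ∃ k, 20 * k ≤ e ∧ 9 ^ k * 2 ^ e ≤ 11 ^ k * (e + 1) * e.choose a := by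
  obtain ⟨a', k, hk, h3, h4, h5⟩ : ∃ a' k, 20 * k ≤ e ∧ 9 * e ≤ 20 * a' ∧ a' + k = e / 2 ∧
      e.choose a = e.choose a' := by
    by_cases h : a ≤ e / 2
    · exact ⟨a, e / 2 - a, by omega, h1, by omega, rfl⟩
    · refine ⟨e - a, e / 2 - (e - a), by omega, by omega, by omega, ?_⟩
      rw [Nat.choose_symm (by omega)]
  refine ⟨k, hk, ?_⟩
  have h6 := choose_ratio e a' k h3
  rw [h4] at h6
  rw [h5]
  calc 9 ^ k * 2 ^ e ≤ 9 ^ k * ((e + 1) * e.choose (e / 2)) :=
        Nat.mul_le_mul_left _ (two_pow_le_middle e)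
    _ = (e + 1) * (9 ^ k * e.choose (e / 2)) := by ring
    _ ≤ (e + 1) * (11 ^ k * e.choose a') := Nat.mul_le_mul_left _ h6
    _ = 11 ^ k * (e + 1) * e.choose a' := by ring

theorem numeric_small (e : ℕ) (he : 1000 ≤ e) : (e + 1) ^ 50 < 2 ^ (7 * e) := by
  have h1 : e + 1 < 2 ^ (e / 10) := by
    have h2 : e / 10 - 10 < 2 ^ (e / 10 - 10) := Nat.lt_two_pow_self
    have h3 : 2 ^ (e / 10) = 2 ^ (e / 10 - 10) * 1024 := by
      rw [show (1024 : ℕ) = 2 ^ 10 by norm_num, ← pow_add]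
      congr 1
      omega
    omega
  calc (e + 1) ^ 50 < (2 ^ (e / 10)) ^ 50 := Nat.pow_lt_pow_left h1 (by norm_num)
    _ = 2 ^ (e / 10 * 50) := by rw [← pow_mul]
    _ ≤ 2 ^ (7 * e) := Nat.pow_le_pow_right (by norm_num) (by omega)

/-- binomials in the window beat the square of the number of unsplit sets -/
theorem window_choose (e a p : ℕ) (he : 1000 ≤ e) (h1 : 9 * e ≤ 20 * a) (h2 : 20 * a ≤ 11 * e)
    (hp : 50 * p ≤ 42 * e) : 2 ^ p < e.choose a := by
  by_contra hcon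
  rw [not_lt] at hcon
  obtain ⟨k, hk, h3⟩ := exists_window e a h1 h2
  have h4 : 9 ^ k * 2 ^ e ≤ 11 ^ k * (e + 1) * 2 ^ p :=
    h3.trans (Nat.mul_le_mul_left _ hcon)
  have h5 : (9 ^ k * 2 ^ e) ^ 50 ≤ (11 ^ k * (e + 1) * 2 ^ p) ^ 50 := Nat.pow_le_pow_left h4 50
  have h6 : (11 ^ k) ^ 50 ≤ (9 ^ k) ^ 50 * 2 ^ e := by
    have h7 : (11 ^ 5) ^ (10 * k) ≤ (9 ^ 5 * 2 ^ 2) ^ (10 * k) :=
      Nat.pow_le_pow_left (by norm_num) _
    calc (11 ^ k) ^ 50 = (11 ^ 5) ^ (10 * k) := by rw [← pow_mul, ← pow_mul]; congr 1; ring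
      _ ≤ (9 ^ 5 * 2 ^ 2) ^ (10 * k) := h7
      _ = (9 ^ k) ^ 50 * 2 ^ (20 * k) := by
          rw [mul_pow, ← pow_mul, ← pow_mul, ← pow_mul]
          congr 2 <;> ring
      _ ≤ (9 ^ k) ^ 50 * 2 ^ e := Nat.mul_le_mul_left _ (Nat.pow_le_pow_right (by norm_num) hk)
  have h8 : (2 ^ p) ^ 50 ≤ 2 ^ (42 * e) := by
    rw [← pow_mul]
    exact Nat.pow_le_pow_right (by norm_num) (by omega)
  have h9 : (9 ^ k) ^ 50 * 2 ^ (50 * e) ≤ (9 ^ k) ^ 50 * ((e + 1) ^ 50 * 2 ^ (43 * e)) := by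
    calc (9 ^ k) ^ 50 * 2 ^ (50 * e) = (9 ^ k * 2 ^ e) ^ 50 := by
          rw [mul_pow, ← pow_mul 2 e 50, mul_comm e 50]
      _ ≤ (11 ^ k * (e + 1) * 2 ^ p) ^ 50 := h5
      _ = (11 ^ k) ^ 50 * (e + 1) ^ 50 * (2 ^ p) ^ 50 := by rw [mul_pow, mul_pow]
      _ ≤ ((9 ^ k) ^ 50 * 2 ^ e) * (e + 1) ^ 50 * 2 ^ (42 * e) := by gcongr
      _ = (9 ^ k) ^ 50 * ((e + 1) ^ 50 * 2 ^ (43 * e)) := by
          rw [show 43 * e = e + 42 * e by ring, pow_add]; ring
  have h10 : 2 ^ (50 * e) ≤ (e + 1) ^ 50 * 2 ^ (43 * e) :=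
    Nat.le_of_mul_le_mul_left h9 (by positivity)
  have h11 : 2 ^ (7 * e) * 2 ^ (43 * e) ≤ (e + 1) ^ 50 * 2 ^ (43 * e) := by
    rw [← pow_add]
    calc 2 ^ (7 * e + 43 * e) = 2 ^ (50 * e) := by congr 1; ring
      _ ≤ _ := h10
  have h12 : 2 ^ (7 * e) ≤ (e + 1) ^ 50 := Nat.le_of_mul_le_mul_right h11 (by positivity)
  exact absurd h12 (not_le.mpr (numeric_small e he))

open Classical in
/-- sets of half edges with small split weight -/
noncomputable def small {ι : Type*} [Fintype ι] (d : ι → ℕ) : Finset (Finset (Σ i, Fin (d i))) :=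
  univ.filter fun A => 5 * ∑ i with Split A i, d i < 2 * ∑ i, d i

open Classical in
theorem card_small_le {ι : Type*} [Fintype ι] (d : ι → ℕ) :
    #(small d) ≤ 2 ^ (2 * (∑ i, d i) / 5) * (2 ^ Fintype.card ι * 2 ^ Fintype.card ι) := by
  have h := Finset.card_le_mul_card_image_of_maps_to (s := small d)
    (t := (univ : Finset (Finset ι × Finset ι)))
    (f := fun A => ((univ.filter fun i => Split A i),
      (univ.filter fun i => ∀ k, (⟨i, k⟩ : Σ i, Fin (d i)) ∈ A)))
    (fun _ _ => mem_univ _) (2 ^ (2 * (∑ i, d i) / 5)) ?_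
  · rwa [Finset.card_univ, Fintype.card_prod, Fintype.card_finset] at h
  · rintro ⟨T, S⟩ _
    by_cases hT : 5 * ∑ i ∈ T, d i < 2 * ∑ i, d i
    · have h1 : #(filter (fun A : Finset (Σ i, Fin (d i)) =>
          ((univ.filter fun i => Split A i),
            (univ.filter fun i => ∀ k, (⟨i, k⟩ : Σ i, Fin (d i)) ∈ A)) = (T, S)) (small d)) ≤
          #((T.sigma fun i => (univ : Finset (Fin (d i)))).powerset) := by
        apply card_le_card_of_injOn (fun A => A.filter fun x => x.1 ∈ T)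
        · intro A _
          simp only [coe_powerset, Set.mem_preimage, Set.mem_powerset_iff, coe_subset]
          intro x hx
          rw [mem_filter] at hx
          simp [hx.2]
        · intro A hA B hB hAB
          simp only [coe_filter, Set.mem_ofPred_eq, Prod.mk.injEq] at hA hB
          obtain ⟨-, hA1, hA2⟩ := hA
          obtain ⟨-, hB1, hB2⟩ := hB
          have hAB' : ∀ x : Σ i, Fin (d i), x.1 ∈ T → (x ∈ A ↔ x ∈ B) := by
            intro x hx
            have := congrArg (fun C : Finset (Σ i, Fin (d i)) => x ∈ C) hAB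
            simpa [hx] using this
          have key : ∀ C : Finset (Σ i, Fin (d i)), (univ.filter fun i => Split C i) = T →
              (univ.filter fun i => ∀ k, (⟨i, k⟩ : Σ i, Fin (d i)) ∈ C) = S →
              ∀ x : Σ i, Fin (d i), x.1 ∉ T → (x ∈ C ↔ x.1 ∈ S) := by
            intro C hC1 hC2 x hx
            rw [← hC2, mem_filter]
            rw [← hC1, mem_filter] at hx
            constructor
            · intro hxC
              refine ⟨mem_univ _, fun k => ?_⟩
              by_contra hk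
              exact hx ⟨mem_univ _, ⟨x.2, hxC⟩, ⟨k, hk⟩⟩
            · intro hx2
              exact hx2.2 x.2
          ext x
          by_cases hx : x.1 ∈ T
          · exact hAB' x hx
          · rw [key A hA1 hA2 x hx, key B hB1 hB2 x hx]
      refine h1.trans ?_
      rw [card_powerset, card_sigma]
      apply Nat.pow_le_pow_right (by norm_num)
      simp only [card_univ, Fintype.card_fin]
      omega
    · rw [Finset.card_eq_zero.mpr]
      · exact Nat.zero_le _
      · rw [Finset.filter_eq_empty_iff]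
        intro A hA hA2
        rw [Prod.mk.injEq] at hA2
        rw [small, mem_filter, hA2.1] at hA
        exact hT hA.2

open Classical in
/-- weighted expander: `φ` glues row half edges to column half edges -/
theorem exists_graph {ι : Type*} [Fintype ι] (d : ι → ℕ) (hd : ∀ i, 100 ≤ d i)
    (hE : 1000 ≤ ∑ i, d i) :
    ∃ φ : Equiv.Perm (Σ i, Fin (d i)), ∀ A : Finset (Σ i, Fin (d i)),
      9 * ∑ i, d i ≤ 20 * #A → 20 * #A ≤ 11 * ∑ i, d i →
      2 * ∑ i, d i ≤ 5 * ∑ i with Split A i ∨ Split (A.map φ.toEmbedding) i, d i := by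
  set e := ∑ i, d i with he
  have hcard : Fintype.card (Σ i, Fin (d i)) = e := by
    rw [Fintype.card_sigma, he]
    simp
  have hl : 100 * Fintype.card ι ≤ e := by
    rw [he, mul_comm, ← smul_eq_mul, ← Finset.card_univ, ← Finset.sum_const]
    exact Finset.sum_le_sum fun i _ => hd i
  by_contra hcon
  push Not at hcon
  set W := (small d).filter fun A => 9 * e ≤ 20 * #A ∧ 20 * #A ≤ 11 * e with hW
  have hN : #(W ×ˢ small d) ≤ 2 ^ (2 * (2 * e / 5) + 4 * Fintype.card ι) := by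
    have h1 := card_small_le d
    rw [← he] at h1
    rw [card_product]
    calc #W * #(small d) ≤ #(small d) * #(small d) :=
          Nat.mul_le_mul_right _ (card_le_card (filter_subset _ _))
      _ ≤ (2 ^ (2 * e / 5) * (2 ^ Fintype.card ι * 2 ^ Fintype.card ι)) *
          (2 ^ (2 * e / 5) * (2 ^ Fintype.card ι * 2 ^ Fintype.card ι)) := Nat.mul_le_mul h1 h1
      _ = 2 ^ (2 * (2 * e / 5) + 4 * Fintype.card ι) := by
          rw [pow_add, pow_mul', pow_mul']
          ring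
  set p := 2 * (2 * e / 5) + 4 * Fintype.card ι with hp
  have hp2 : 50 * p ≤ 42 * e := by omega
  -- every permutation is bad
  have hall : (univ : Finset (Equiv.Perm (Σ i, Fin (d i)))) ⊆
      (W ×ˢ small d).biUnion fun q =>
        univ.filter fun τ : Equiv.Perm (Σ i, Fin (d i)) => ∀ x, τ x ∈ q.2 ↔ x ∈ q.1 := by
    intro φ _
    obtain ⟨A, hA1, hA2, hA3⟩ := hcon φ
    rw [mem_biUnion]
    have hs : ∀ B : Finset (Σ i, Fin (d i)),
        (∀ i, Split B i → Split A i ∨ Split (A.map φ.toEmbedding) i) → B ∈ small d := by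
      intro B hB
      rw [small, mem_filter]
      refine ⟨mem_univ _, ?_⟩
      rw [← he]
      refine lt_of_le_of_lt (Nat.mul_le_mul_left _ ?_) hA3
      apply sum_le_sum_of_subset
      intro i hi
      rw [mem_filter] at hi ⊢
      exact ⟨mem_univ _, hB i hi.2⟩
    refine ⟨(A, A.map φ.toEmbedding), ?_, ?_⟩
    · rw [mem_product, hW, mem_filter]
      exact ⟨⟨hs A fun i hi => Or.inl hi, hA1, hA2⟩, hs _ fun i hi => Or.inr hi⟩
    · rw [mem_filter]
      refine ⟨mem_univ _, fun x => ?_⟩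
      simp
  have h1 : (e).factorial ≤ ∑ q ∈ W ×ˢ small d, PermEq.cnt q.1 q.2 := by
    rw [← hcard, ← Fintype.card_perm, ← Finset.card_univ]
    refine (card_le_card hall).trans (card_biUnion_le.trans ?_)
    apply sum_le_sum
    intro q _
    unfold PermEq.cnt
    apply card_le_card
    intro τ hτ
    rw [mem_filter] at hτ ⊢
    exact hτ
  have h2 : ∀ q ∈ W ×ˢ small d, #(W ×ˢ small d) * PermEq.cnt q.1 q.2 < e.factorial := by
    intro q hq
    rw [mem_product, hW, mem_filter] at hq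
    have h3 := window_choose e (#q.1) p hE hq.1.2.1 hq.1.2.2 hp2
    have h4 := PermEq.choose_mul_cnt_le q.1 q.2
    rw [hcard] at h4
    rcases Nat.eq_zero_or_pos (PermEq.cnt q.1 q.2) with h0 | h0
    · rw [h0, mul_zero]
      exact Nat.factorial_pos _
    · calc #(W ×ˢ small d) * PermEq.cnt q.1 q.2 ≤ 2 ^ p * PermEq.cnt q.1 q.2 :=
            Nat.mul_le_mul_right _ hN
        _ < e.choose #q.1 * PermEq.cnt q.1 q.2 := Nat.mul_lt_mul_of_pos_right h3 h0
        _ ≤ e.factorial := h4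
  have hne : (W ×ˢ small d).Nonempty := by
    rw [nonempty_iff_ne_empty]
    intro h0
    rw [h0, sum_empty] at h1
    exact absurd h1 (not_le.mpr (Nat.factorial_pos _))
  have h3 : #(W ×ˢ small d) * e.factorial < #(W ×ˢ small d) * e.factorial := by
    calc #(W ×ˢ small d) * e.factorial
        ≤ #(W ×ˢ small d) * ∑ q ∈ W ×ˢ small d, PermEq.cnt q.1 q.2 := Nat.mul_le_mul_left _ h1
      _ = ∑ q ∈ W ×ˢ small d, #(W ×ˢ small d) * PermEq.cnt q.1 q.2 := by rw [mul_sum]
      _ < ∑ _q ∈ W ×ˢ small d, e.factorial := sum_lt_sum_of_nonempty hne h2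
      _ = #(W ×ˢ small d) * e.factorial := by rw [sum_const, smul_eq_mul]
  exact lt_irrefl _ h3

end Pool.MP_35c45d_lc.OnePerm
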