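import Mathlib
import Pool.Agent.Work.MP_35c45d_lc.OPExp

set_option autoImplicit false
set_option linter.unusedSectionVars false

namespace Pool.MP_35c45d_lc.OnePerm
open Finset

/-- multipliers of the labels at a vertex of degree `d` : all `1` but the last, `-(d-1)` -/
def mlt (d : ℕ) (k : Fin d) : ℤ := 1 - if (k : ℕ) + 1 = d then (d : ℤ) else 0

theorem sum_mlt {d : ℕ} (hd : 1 ≤ d) (S : Finset (Fin d)) :
    ∑ k ∈ S, mlt d k = #S - if (⟨d - 1, by omega⟩ : Fin d) ∈ S then (d : ℤ) else 0 := by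
  unfold mlt
  rw [sum_sub_distrib]
  congr 1
  · simp
  · have h1 : ∀ k : Fin d, ((k : ℕ) + 1 = d) ↔ k = (⟨d - 1, by omega⟩ : Fin d) := by
      intro k
      rw [Fin.ext_iff]
      have := k.isLt
      simp only
      omega
    simp only [h1]
    rw [sum_ite_eq']

theorem sum_mlt_univ {d : ℕ} (hd : 1 ≤ d) : ∑ k, mlt d k = 0 := by
  rw [sum_mlt hd]
  simp

theorem sum_mlt_ne {d : ℕ} (S : Finset (Fin d)) (h1 : S.Nonempty) (h2 : S ≠ univ) :
    ∑ k ∈ S, mlt d k ≠ 0 ∧ (∑ k ∈ S, mlt d k).natAbs < d := by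
  have hd : 1 ≤ d := by
    obtain ⟨k, _⟩ := h1
    have := k.isLt
    omega
  have h3 : 1 ≤ #S := h1.card_pos
  have h4 : #S < d := by
    have := card_lt_univ_of_notMem (s := S) (x := (Finset.exists_mem_notMem_of_card_lt_card
      (s := S) (t := univ) (card_lt_card (ssubset_univ_iff.mpr h2))).choose)
      (Finset.exists_mem_notMem_of_card_lt_card
      (s := S) (t := univ) (card_lt_card (ssubset_univ_iff.mpr h2))).choose_spec.2
    simpa using this
  rw [sum_mlt hd]
  split_ifs <;> constructor <;> omega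

open Classical in
/-- admissible labels -/
noncomputable def Lam (h d : ℕ) [NeZero h] : Finset (ZMod h) :=
  univ.filter fun a => ∀ c ∈ Ico 1 d, (c : ZMod h) * a ≠ 0

theorem mem_Lam {h d : ℕ} [NeZero h] {a : ZMod h} :
    a ∈ Lam h d ↔ ∀ c : ℕ, 0 < c → c < d → (c : ZMod h) * a ≠ 0 := by
  simp only [Lam, mem_filter, mem_univ, true_and, mem_Ico, and_imp]
  exact Iff.rfl

theorem natAbs_mul_zero {h : ℕ} {c : ℤ} {a : ZMod h} (h1 : (c : ZMod h) * a = 0) :
    ((c.natAbs : ℕ) : ZMod h) * a = 0 := by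
  rcases Int.eq_nat_or_neg c with ⟨N, rfl | rfl⟩
  · simpa using h1
  · simpa using h1

theorem card_nsmul_zero {h : ℕ} [NeZero h] (c : ℕ) (hc : 0 < c) :
    #(univ.filter fun a : ZMod h => (c : ZMod h) * a = 0) ≤ c := by
  have h1 := IsAddCyclic.card_nsmul_eq_zero_le (α := ZMod h) hc
  simpa [nsmul_eq_mul] using h1

theorem card_mul_eq_le {h : ℕ} [NeZero h] (c : ℤ) (hc : c ≠ 0) (ρ : ZMod h) :
    #(univ.filter fun a : ZMod h => (c : ZMod h) * a = ρ) ≤ c.natAbs := by
  rcases (univ.filter fun a : ZMod h => (c : ZMod h) * a = ρ).eq_empty_or_nonempty with h0 | ⟨a₀, ha₀⟩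
  · rw [h0]; simp
  · rw [mem_filter] at ha₀
    refine le_trans ?_ (card_nsmul_zero (h := h) c.natAbs (Int.natAbs_pos.mpr hc))
    apply card_le_card_of_injOn (fun a => a - a₀)
    · intro a ha
      have ha' := (mem_filter.mp ha).2
      simp only [coe_filter, mem_univ, true_and, Set.mem_ofPred_eq]
      have h1 : (c : ZMod h) * (a - a₀) = 0 := by rw [mul_sub, ha', ha₀.2, sub_self]
      exact natAbs_mul_zero h1
    · intro a _ b _ hab
      exact sub_left_injective hab

theorem card_Lam (h d : ℕ) [NeZero h] : h ≤ #(Lam h d) + d ^ 2 := by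
  have h1 : (univ : Finset (ZMod h)) ⊆ Lam h d ∪ (Ico 1 d).biUnion fun c =>
      univ.filter fun a : ZMod h => (c : ZMod h) * a = 0 := by
    intro a _
    rw [mem_union, mem_biUnion]
    by_cases ha : a ∈ Lam h d
    · exact Or.inl ha
    · right
      rw [mem_Lam] at ha
      push Not at ha
      obtain ⟨c, hc1, hc2, hca⟩ := ha
      exact ⟨c, mem_Ico.mpr ⟨hc1, hc2⟩, mem_filter.mpr ⟨mem_univ _, hca⟩⟩
  have h2 := card_le_card h1
  rw [card_univ, ZMod.card] at h2
  refine h2.trans ((card_union_le _ _).trans (Nat.add_le_add_left ?_ _))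
  refine card_biUnion_le.trans ?_
  calc ∑ c ∈ Ico 1 d, #(univ.filter fun a : ZMod h => (c : ZMod h) * a = 0)
      ≤ ∑ c ∈ Ico 1 d, d := by
        refine sum_le_sum fun c hc => ?_
        rw [mem_Ico] at hc
        exact (card_nsmul_zero c (by omega)).trans hc.2.le
    _ ≤ d ^ 2 := by
        rw [sum_const, Nat.card_Ico, smul_eq_mul, sq]
        exact Nat.mul_le_mul_right _ (Nat.sub_le _ _)

/-- labels of an admissible parameter have no proper zero sum -/
theorem Lam_sum_ne {h d : ℕ} [NeZero h] {a : ZMod h} (ha : a ∈ Lam h d) (S : Finset (Fin d))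
    (h1 : S.Nonempty) (h2 : S ≠ univ) : ∑ k ∈ S, (mlt d k : ZMod h) * a ≠ 0 := by
  obtain ⟨h3, h4⟩ := sum_mlt_ne S h1 h2
  rw [← sum_mul]
  have h5 : ∑ k ∈ S, (mlt d k : ZMod h) = ((∑ k ∈ S, mlt d k : ℤ) : ZMod h) := by push_cast; rfl
  rw [h5]
  set c := ∑ k ∈ S, mlt d k with hc
  have h6 := (mem_Lam.mp ha) c.natAbs (Int.natAbs_pos.mpr h3) h4
  intro h7
  exact h6 (natAbs_mul_zero h7)

theorem Lam_sum_zero {h d : ℕ} [NeZero h] (hd : 1 ≤ d) (a : ZMod h) :
    ∑ k, (mlt d k : ZMod h) * a = 0 := by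
  rw [← sum_mul]
  have h5 : ∑ k, (mlt d k : ZMod h) = ((∑ k, mlt d k : ℤ) : ZMod h) := by push_cast; rfl
  rw [h5, sum_mlt_univ hd]
  simp

theorem addChar_sum {A I : Type*} [AddCommMonoid A] (ψ : AddChar A ℂ) (s : Finset I) (f : I → A) :
    ψ (∑ i ∈ s, f i) = ∏ i ∈ s, ψ (f i) := by
  classical
  induction s using Finset.induction_on with
  | empty => simp
  | insert a s ha ih => rw [Finset.sum_insert ha, Finset.prod_insert ha, AddChar.map_add_eq_mul, ih]

section coprime

variable {ι : Type*} [Fintype ι] [DecidableEq ι] (h : ι → ℕ) [∀ i, NeZero (h i)]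

/-- roots of unity of pairwise coprime orders are independent -/
theorem char_independent (hc : ∀ i j, i ≠ j → Nat.Coprime (h i) (h j)) (x : (i : ι) → ZMod (h i))
    (hx : ∏ i, ZMod.stdAddChar (N := h i) (x i) = 1) : x = 0 := by
  funext i
  have h1 : ∀ j, (ZMod.stdAddChar (N := h j) (x j)) ^ (h j) = 1 := by
    intro j
    rw [← AddChar.map_nsmul_eq_pow, nsmul_eq_mul, ZMod.natCast_self, zero_mul,
      AddChar.map_zero_eq_one]
  set H := ∏ j ∈ univ.erase i, h j with hH
  have h2 : (ZMod.stdAddChar (N := h i) (x i)) ^ H = 1 := by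
    have h3 : (∏ j, ZMod.stdAddChar (N := h j) (x j)) ^ H = 1 := by rw [hx, one_pow]
    rw [← mul_prod_erase univ _ (mem_univ i), mul_pow, ← prod_pow] at h3
    have h4 : ∏ j ∈ univ.erase i, (ZMod.stdAddChar (N := h j) (x j)) ^ H = 1 := by
      apply prod_eq_one
      intro j hj
      obtain ⟨q, hq⟩ : h j ∣ H := dvd_prod_of_mem _ hj
      rw [hq, pow_mul, h1, one_pow]
    rw [h4, mul_one] at h3
    exact h3
  have h3 : Nat.Coprime (h i) H := by
    rw [hH]
    apply Nat.Coprime.prod_right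
    intro j hj
    exact hc i j (ne_of_mem_erase hj).symm
  have h4 : ZMod.stdAddChar (N := h i) (x i) = 1 := by
    have := pow_gcd_eq_one.mpr ⟨h1 i, h2⟩
    rwa [Nat.Coprime.gcd_eq_one h3, pow_one] at this
  have h5 := ZMod.injective_stdAddChar (N := h i)
  apply h5
  rw [h4]
  simp

end coprime

end Pool.MP_35c45d_lc.OnePerm
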