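import Mathlib
import Pool.Agent.Work.MP_35c45d_lc.OPLab

set_option autoImplicit false
set_option linter.unusedSectionVars false

namespace Pool.MP_35c45d_lc.OnePerm
open Finset

section count

variable {ι : Type*} [Fintype ι] [DecidableEq ι] (h d : ι → ℕ) [∀ i, NeZero (h i)]

/-- sum of the multipliers of the half edges of `A` at `i` -/
def sA (A : Finset (Σ i, Fin (d i))) (i : ι) : ℤ :=
  ∑ k ∈ univ.filter (fun k : Fin (d i) => (⟨i, k⟩ : Σ i, Fin (d i)) ∈ A), mlt (d i) k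

/-- the weight of the edge `e` -/
noncomputable def wt (φ : Equiv.Perm (Σ i, Fin (d i))) (l : (i : ι) → ZMod (h i) × ZMod (h i))
    (e : Σ i, Fin (d i)) : ℂ :=
  ZMod.stdAddChar (N := h e.1) ((mlt (d e.1) e.2 : ZMod (h e.1)) * (l e.1).1) *
    ZMod.stdAddChar (N := h (φ e).1)
      ((mlt (d (φ e).1) (φ e).2 : ZMod (h (φ e).1)) * (l (φ e).1).2)

theorem prod_half (A : Finset (Σ i, Fin (d i))) (l : (i : ι) → ZMod (h i)) :
    ∏ e ∈ A, ZMod.stdAddChar (N := h e.1) ((mlt (d e.1) e.2 : ZMod (h e.1)) * l e.1)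
      = ∏ i, ZMod.stdAddChar (N := h i) ((sA d A i : ZMod (h i)) * l i) := by
  rw [← Finset.prod_subset (s₁ := univ.filter (fun e => e ∈ A)) (s₂ := A)]
  · rw [Finset.prod_filter, Fintype.prod_sigma]
    refine prod_congr rfl fun i _ => ?_
    rw [← Finset.prod_filter, sA]
    push_cast
    rw [sum_mul, addChar_sum]
  · intro e he; exact (mem_filter.mp he).2
  · intro e he he'
    exact absurd (mem_filter.mpr ⟨mem_univ _, he⟩) he'

theorem prod_wt (φ : Equiv.Perm (Σ i, Fin (d i))) (l : (i : ι) → ZMod (h i) × ZMod (h i))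
    (A : Finset (Σ i, Fin (d i))) :
    ∏ e ∈ A, wt h d φ l e = ∏ i, ZMod.stdAddChar (N := h i)
      ((sA d A i : ZMod (h i)) * (l i).1 + (sA d (A.map φ.toEmbedding) i : ZMod (h i)) * (l i).2) := by
  unfold wt
  rw [prod_mul_distrib, prod_half h d A (fun i => (l i).1)]
  have h1 : ∏ e ∈ A, ZMod.stdAddChar (N := h (φ e).1)
      ((mlt (d (φ e).1) (φ e).2 : ZMod (h (φ e).1)) * (l (φ e).1).2)
      = ∏ e ∈ A.map φ.toEmbedding,
        ZMod.stdAddChar (N := h e.1) ((mlt (d e.1) e.2 : ZMod (h e.1)) * (l e.1).2) := by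
    rw [prod_map]
    rfl
  rw [h1, prod_half h d _ (fun i => (l i).2), ← prod_mul_distrib]
  refine prod_congr rfl fun i _ => ?_
  rw [AddChar.map_add_eq_mul]

theorem sA_of_split (A : Finset (Σ i, Fin (d i))) (i : ι) (hs : Split A i) :
    sA d A i ≠ 0 ∧ (sA d A i).natAbs < d i := by
  obtain ⟨⟨k, hk⟩, ⟨k', hk'⟩⟩ := hs
  apply sum_mlt_ne
  · exact ⟨k, mem_filter.mpr ⟨mem_univ _, hk⟩⟩
  · intro h1
    have := mem_univ k'
    rw [← h1, mem_filter] at this
    exact hk' this.2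

theorem card_T {h d : ℕ} [NeZero h] (L : Finset (ZMod h)) (s s' : ℤ) (r : ZMod h)
    (hs : (s ≠ 0 ∧ s.natAbs ≤ d) ∨ (s' ≠ 0 ∧ s'.natAbs ≤ d)) :
    #((L ×ˢ L).filter fun p => (s : ZMod h) * p.1 + (s' : ZMod h) * p.2 = r) ≤ d * #L := by
  rcases hs with hs | hs
  · have h1 : ((L ×ˢ L).filter fun p => (s : ZMod h) * p.1 + (s' : ZMod h) * p.2 = r)
        ⊆ L.biUnion fun y => (univ.filter fun x : ZMod h => (s : ZMod h) * x = r - (s' : ZMod h) * y).image
          fun x => (x, y) := by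
      rintro ⟨x, y⟩ hxy
      rw [mem_filter, mem_product] at hxy
      rw [mem_biUnion]
      refine ⟨y, hxy.1.2, ?_⟩
      rw [mem_image]
      exact ⟨x, mem_filter.mpr ⟨mem_univ _, eq_sub_of_add_eq hxy.2⟩, rfl⟩
    refine (card_le_card h1).trans (card_biUnion_le.trans ?_)
    calc _ ≤ ∑ y ∈ L, d := by
          refine sum_le_sum fun y _ => ?_
          exact card_image_le.trans ((card_mul_eq_le s hs.1 _).trans hs.2)
      _ = d * #L := by rw [sum_const, smul_eq_mul, mul_comm]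
  · have h1 : ((L ×ˢ L).filter fun p => (s : ZMod h) * p.1 + (s' : ZMod h) * p.2 = r)
        ⊆ L.biUnion fun x => (univ.filter fun y : ZMod h => (s' : ZMod h) * y = r - (s : ZMod h) * x).image
          fun y => (x, y) := by
      rintro ⟨x, y⟩ hxy
      rw [mem_filter, mem_product] at hxy
      rw [mem_biUnion]
      refine ⟨x, hxy.1.1, ?_⟩
      rw [mem_image]
      exact ⟨y, mem_filter.mpr ⟨mem_univ _, eq_sub_of_add_eq' hxy.2⟩, rfl⟩
    refine (card_le_card h1).trans (card_biUnion_le.trans ?_)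
    calc _ ≤ ∑ x ∈ L, d := by
          refine sum_le_sum fun y _ => ?_
          exact card_image_le.trans ((card_mul_eq_le s' hs.1 _).trans hs.2)
      _ = d * #L := by rw [sum_const, smul_eq_mul, mul_comm]

theorem numeric_Lam {h d : ℕ} [NeZero h] (hh : 2 ^ (30 * d) ≤ h) (hd : 100 ≤ d) :
    d * 2 ^ (29 * d) ≤ #(Lam h d) := by
  have h1 := card_Lam h d
  have h2 : d < 2 ^ d := Nat.lt_two_pow_self
  have h3 : d ^ 2 ≤ 2 ^ (29 * d) := by
    calc d ^ 2 ≤ (2 ^ d) ^ 2 := by gcongr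
      _ = 2 ^ (2 * d) := by rw [← pow_mul, mul_comm]
      _ ≤ 2 ^ (29 * d) := Nat.pow_le_pow_right (by norm_num) (by omega)
  have h4 : (d + 1) * 2 ^ (29 * d) ≤ 2 ^ (30 * d) := by
    calc (d + 1) * 2 ^ (29 * d) ≤ 2 ^ d * 2 ^ (29 * d) := Nat.mul_le_mul_right _ (by omega)
      _ = 2 ^ (30 * d) := by rw [← pow_add]; congr 1; ring
  rw [add_mul, one_mul] at h4
  omega

/-- the parameters -/
noncomputable def LL : Finset ((i : ι) → ZMod (h i) × ZMod (h i)) :=
  Fintype.piFinset fun i => Lam (h i) (d i) ×ˢ Lam (h i) (d i)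

open Classical in
theorem card_fibre (hc : ∀ i j, i ≠ j → Nat.Coprime (h i) (h j)) (hd : ∀ i, 100 ≤ d i)
    (hh : ∀ i, 2 ^ (30 * d i) ≤ h i) (φ : Equiv.Perm (Σ i, Fin (d i)))
    (A : Finset (Σ i, Fin (d i))) (ρ : ℂ) :
    #((LL h d).filter fun l => ∏ e ∈ A, wt h d φ l e = ρ)
      * 2 ^ (29 * ∑ i with Split A i ∨ Split (A.map φ.toEmbedding) i, d i) ≤ #(LL h d) := by
  rcases ((LL h d).filter fun l => ∏ e ∈ A, wt h d φ l e = ρ).eq_empty_or_nonempty with h0 | ⟨l₀, hl₀⟩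
  · rw [h0]; simp
  set s := sA d A with hs
  set s' := sA d (A.map φ.toEmbedding) with hs'
  set T : (i : ι) → Finset (ZMod (h i) × ZMod (h i)) := fun i =>
    (Lam (h i) (d i) ×ˢ Lam (h i) (d i)).filter fun p =>
      (s i : ZMod (h i)) * p.1 + (s' i : ZMod (h i)) * p.2
        = (s i : ZMod (h i)) * (l₀ i).1 + (s' i : ZMod (h i)) * (l₀ i).2 with hT
  have h1 : ((LL h d).filter fun l => ∏ e ∈ A, wt h d φ l e = ρ) ⊆ Fintype.piFinset T := by
    intro l hl
    rw [mem_filter] at hl hl₀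
    have h2 : ∏ i, ZMod.stdAddChar (N := h i)
        (((s i : ZMod (h i)) * (l i).1 + (s' i : ZMod (h i)) * (l i).2)
          - ((s i : ZMod (h i)) * (l₀ i).1 + (s' i : ZMod (h i)) * (l₀ i).2)) = 1 := by
      simp only [AddChar.map_sub_eq_div]
      rw [prod_div_distrib, ← prod_wt, ← prod_wt, hl.2, hl₀.2]
      apply div_self
      rw [← hl.2, prod_wt]
      exact prod_ne_zero_iff.mpr fun i _ => (AddChar.val_isUnit _ _).ne_zero
    have h3 := char_independent h hc _ h2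
    rw [Fintype.mem_piFinset]
    intro i
    rw [hT, mem_filter]
    have h4 := congrFun h3 i
    refine ⟨?_, sub_eq_zero.mp h4⟩
    exact (Fintype.mem_piFinset.mp hl.1) i
  have h2 := card_le_card h1
  rw [Fintype.card_piFinset] at h2
  refine (Nat.mul_le_mul_right _ h2).trans ?_
  rw [LL, Fintype.card_piFinset, mul_sum, ← prod_pow_eq_pow_sum, prod_filter, ← prod_mul_distrib]
  refine prod_le_prod' fun i _ => ?_
  split_ifs with hm
  · have h5 : #(T i) ≤ d i * #(Lam (h i) (d i)) := by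
      apply card_T
      rcases hm with hm | hm
      · left
        have := sA_of_split d A i hm
        exact ⟨this.1, this.2.le⟩
      · right
        have := sA_of_split d _ i hm
        exact ⟨this.1, this.2.le⟩
    have h6 := numeric_Lam (hh i) (hd i)
    calc #(T i) * 2 ^ (29 * d i) ≤ (d i * #(Lam (h i) (d i))) * 2 ^ (29 * d i) :=
          Nat.mul_le_mul_right _ h5
      _ = #(Lam (h i) (d i)) * (d i * 2 ^ (29 * d i)) := by ring
      _ ≤ #(Lam (h i) (d i)) * #(Lam (h i) (d i)) := Nat.mul_le_mul_left _ h6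
      _ = _ := (card_product _ _).symm
  · rw [mul_one]
    exact card_le_card (filter_subset _ _)

theorem LL_pos (hd : ∀ i, 100 ≤ d i) (hh : ∀ i, 2 ^ (30 * d i) ≤ h i) : 0 < #(LL h d) := by
  rw [LL, Fintype.card_piFinset]
  refine prod_pos fun i _ => ?_
  have h6 := numeric_Lam (hh i) (hd i)
  have h7 : 0 < #(Lam (h i) (d i)) := by
    refine lt_of_lt_of_le ?_ h6
    have := hd i
    positivity
  rw [card_product]
  positivity

open Classical in
/-- the union bound -/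
theorem count_bound (hc : ∀ i j, i ≠ j → Nat.Coprime (h i) (h j)) (hd : ∀ i, 100 ≤ d i)
    (hh : ∀ i, 2 ^ (30 * d i) ≤ h i) (φ : Equiv.Perm (Σ i, Fin (d i)))
    (W : Finset (Finset (Σ i, Fin (d i)))) (μ : ℕ)
    (hW : ∀ A ∈ W, μ ≤ ∑ i with Split A i ∨ Split (A.map φ.toEmbedding) i, d i)
    {N : ℕ} (R : Fin N → Finset ℂ) (r : ℕ) (hR : ∀ s, #(R s) ≤ r)
    (hcov : ∀ l ∈ LL h d, ∃ s, ∃ A ∈ W, ∏ e ∈ A, wt h d φ l e ∈ R s) :
    2 ^ (29 * μ) ≤ 2 ^ (∑ i, d i) * (N * r) := by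
  have h1 : LL h d ⊆ (univ : Finset (Fin N)).biUnion fun s => W.biUnion fun A => (R s).biUnion fun ρ =>
      (LL h d).filter fun l => ∏ e ∈ A, wt h d φ l e = ρ := by
    intro l hl
    obtain ⟨s, A, hA, hr⟩ := hcov l hl
    simp only [mem_biUnion]
    exact ⟨s, mem_univ _, A, hA, _, hr, mem_filter.mpr ⟨hl, rfl⟩⟩
  have hpos := LL_pos h d hd hh
  have hWc : #W ≤ 2 ^ (∑ i, d i) := by
    have := card_le_univ W
    rwa [Fintype.card_finset, Fintype.card_sigma, sum_congr rfl fun i _ => Fintype.card_fin (d i)]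
      at this
  have h2 : #(LL h d) * 2 ^ (29 * μ) ≤ #(LL h d) * (2 ^ (∑ i, d i) * (N * r)) := by
    calc #(LL h d) * 2 ^ (29 * μ)
        ≤ (∑ s : Fin N, ∑ A ∈ W, ∑ ρ ∈ R s,
            #((LL h d).filter fun l => ∏ e ∈ A, wt h d φ l e = ρ)) * 2 ^ (29 * μ) := by
          refine Nat.mul_le_mul_right _ ?_
          refine (card_le_card h1).trans (card_biUnion_le.trans (sum_le_sum fun s _ => ?_))
          exact card_biUnion_le.trans (sum_le_sum fun A _ => card_biUnion_le)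
      _ = ∑ s : Fin N, ∑ A ∈ W, ∑ ρ ∈ R s,
            #((LL h d).filter fun l => ∏ e ∈ A, wt h d φ l e = ρ) * 2 ^ (29 * μ) := by
          rw [sum_mul]
          refine sum_congr rfl fun s _ => ?_
          rw [sum_mul]
          refine sum_congr rfl fun A _ => ?_
          rw [sum_mul]
      _ ≤ ∑ s : Fin N, ∑ A ∈ W, ∑ ρ ∈ R s, #(LL h d) := by
          refine sum_le_sum fun s _ => sum_le_sum fun A hA => sum_le_sum fun ρ _ => ?_
          refine le_trans (Nat.mul_le_mul_left _ ?_) (card_fibre h d hc hd hh φ A ρ)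
          exact Nat.pow_le_pow_right (by norm_num) (Nat.mul_le_mul_left _ (hW A hA))
      _ ≤ ∑ s : Fin N, ∑ A ∈ W, r * #(LL h d) := by
          refine sum_le_sum fun s _ => sum_le_sum fun A _ => ?_
          rw [sum_const, smul_eq_mul]
          exact Nat.mul_le_mul_right _ (hR s)
      _ = N * (#W * (r * #(LL h d))) := by
          simp [sum_const]
      _ ≤ N * (2 ^ (∑ i, d i) * (r * #(LL h d))) := by gcongr
      _ = _ := by ring
  exact Nat.le_of_mul_le_mul_left h2 hpos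

end count

end Pool.MP_35c45d_lc.OnePerm
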