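import Mathlib

set_option autoImplicit false

/-!
The least common multiple of a family is a product of pairwise coprime divisors of its members.
-/

namespace Pool.MP_35c45d_lc.OnePerm

lemma prod_gcd_coprime {α : Type*} [DecidableEq α] (s : Finset α) (h : α → ℕ) (y : ℕ)
    (hc : ∀ i ∈ s, ∀ j ∈ s, i ≠ j → Nat.Coprime (h i) (h j)) :
    ∏ i ∈ s, Nat.gcd y (h i) = Nat.gcd y (∏ i ∈ s, h i) := by
  induction s using Finset.induction_on with
  | empty => simp
  | insert a s ha ih =>
    rw [Finset.prod_insert ha, Finset.prod_insert ha, ih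
      (fun i hi j hj hij => hc i (Finset.mem_insert_of_mem hi) j (Finset.mem_insert_of_mem hj) hij)]
    symm
    apply Nat.Coprime.gcd_mul
    apply Nat.Coprime.prod_right
    intro j hj
    exact hc a (Finset.mem_insert_self a s) j (Finset.mem_insert_of_mem hj)
      (fun h => ha (h ▸ hj))

/-- the least common multiple of a family is a product of pairwise coprime divisors -/
theorem exists_coprime_family {α : Type*} [DecidableEq α] (s : Finset α) (l : α → ℕ)
    (hl : ∀ i ∈ s, 0 < l i) :
    ∃ h : α → ℕ, (∀ i ∈ s, h i ∣ l i) ∧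
      (∀ i ∈ s, ∀ j ∈ s, i ≠ j → Nat.Coprime (h i) (h j)) ∧ ∏ i ∈ s, h i = s.lcm l := by
  induction s using Finset.induction_on with
  | empty => exact ⟨fun _ => 1, by simp, by simp, by simp⟩
  | insert a s ha ih =>
    obtain ⟨h, h1, h2, h3⟩ := ih (fun i hi => hl i (Finset.mem_insert_of_mem hi))
    have hla : l a ≠ 0 := (hl a (Finset.mem_insert_self a s)).ne'
    have hL : s.lcm l ≠ 0 := by
      rw [Ne, Finset.lcm_eq_zero_iff]
      rintro ⟨i, hi, h0⟩
      exact (hl i (Finset.mem_insert_of_mem hi)).ne' h0
    set x := Nat.factorizationLCMLeft (l a) (s.lcm l) with hx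
    set y := Nat.factorizationLCMRight (l a) (s.lcm l) with hy
    have hxy : x * y = Nat.lcm (l a) (s.lcm l) :=
      Nat.factorizationLCMLeft_mul_factorizationLCMRight hla hL
    have hcop : Nat.Coprime x y := Nat.coprime_factorizationLCMLeft_factorizationLCMRight _ _
    have hxa : x ∣ l a := Nat.factorizationLCMLeft_dvd_left _ _
    have hyL : y ∣ s.lcm l := Nat.factorizationLCMRight_dvd_right _ _
    refine ⟨fun i => if i = a then x else Nat.gcd y (h i), ?_, ?_, ?_⟩
    · intro i hi
      rcases Finset.mem_insert.mp hi with rfl | hi'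
      · simpa using hxa
      · have hne : i ≠ a := fun h => ha (h ▸ hi')
        simp only [if_neg hne]
        exact (Nat.gcd_dvd_right _ _).trans (h1 i hi')
    · intro i hi j hj hij
      rcases Finset.mem_insert.mp hi with rfl | hi'
      · have hne : j ≠ i := fun h => hij h.symm
        simp only [if_true, if_neg hne]
        exact hcop.coprime_dvd_right (Nat.gcd_dvd_left _ _)
      · have hne : i ≠ a := fun h => ha (h ▸ hi')
        rcases Finset.mem_insert.mp hj with rfl | hj'
        · simp only [if_neg hne, if_true]
          exact (hcop.coprime_dvd_right (Nat.gcd_dvd_left _ _)).symm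
        · have hne' : j ≠ a := fun h => ha (h ▸ hj')
          simp only [if_neg hne, if_neg hne']
          exact ((h2 i hi' j hj' hij).coprime_dvd_left (Nat.gcd_dvd_right _ _)).coprime_dvd_right
            (Nat.gcd_dvd_right _ _)
    · rw [Finset.prod_insert ha, Finset.lcm_insert]
      simp only [if_true]
      have h4 : ∏ i ∈ s, (if i = a then x else Nat.gcd y (h i)) = ∏ i ∈ s, Nat.gcd y (h i) := by
        refine Finset.prod_congr rfl fun i hi => ?_
        have hne : i ≠ a := by
          rintro rfl
          exact ha hi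
        rw [if_neg hne]
      rw [h4, prod_gcd_coprime s h y h2, h3, Nat.gcd_eq_left hyL, hxy]
      rfl

end Pool.MP_35c45d_lc.OnePerm
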