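import Mathlib
import Pool.Agent.Work.MP_35c45d_lc.OPSplit

set_option autoImplicit false
set_option linter.unusedSectionVars false

namespace Pool.MP_35c45d_lc.OnePerm
open Finset

section cyc

variable {m : ℕ}

/-- coordinate along a cycle modulo a divisor of its length -/
theorem exists_coord (c : Equiv.Perm (Fin m)) (hc : c.IsCycle) (h : ℕ) (hh : h ∣ #c.support) :
    ∃ t : Fin m → ZMod h, ∀ x ∈ c.support, t (c x) = t x + 1 := by
  obtain ⟨x₀, hx₀, -⟩ := id hc
  have key : ∀ y, ∃ i : ℕ, y ∈ c.support → (c ^ i) x₀ = y := by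
    intro y
    by_cases hy : y ∈ c.support
    · obtain ⟨i, hi⟩ := hc.exists_pow_eq hx₀ (Equiv.Perm.mem_support.mp hy)
      exact ⟨i, fun _ => hi⟩
    · exact ⟨0, fun h => absurd h hy⟩
  choose f hf using key
  refine ⟨fun y => (f y : ZMod h), fun x hx => ?_⟩
  have hx' : c x ∈ c.support := Equiv.Perm.apply_mem_support.mpr hx
  have h1 : (c ^ f (c x)) x₀ = (c ^ (f x + 1)) x₀ := by
    rw [hf _ hx', pow_succ', Equiv.Perm.mul_apply, hf _ hx]
  have h2 : c ^ f (c x) = c ^ (f x + 1) := hc.pow_eq_pow_iff.mpr ⟨x₀, hx₀, h1⟩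
  rw [pow_eq_pow_iff_modEq, hc.orderOf] at h2
  have h3 : f (c x) ≡ f x + 1 [MOD h] := h2.of_dvd hh
  have h4 := (ZMod.natCast_eq_natCast_iff _ _ _).mpr h3
  simpa using h4

/-- the cycles of a permutation with pairwise coprime divisors of the lengths -/
theorem exists_cycle_data (g : Equiv.Perm (Fin m)) :
    ∃ h : Equiv.Perm (Fin m) → ℕ, (∀ c ∈ g.cycleFactorsFinset, 0 < h c ∧
        ∃ t : Fin m → ZMod (h c), ∀ x ∈ c.support, t (g x) = t x + 1) ∧
      (∀ c ∈ g.cycleFactorsFinset, ∀ c' ∈ g.cycleFactorsFinset, c ≠ c' →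
        Nat.Coprime (h c) (h c')) ∧
      ∏ c ∈ g.cycleFactorsFinset, h c = orderOf g := by
  have hpos : ∀ c ∈ g.cycleFactorsFinset, 0 < #c.support := by
    intro c hc
    have := (Equiv.Perm.mem_cycleFactorsFinset_iff.mp hc).1
    have := this.two_le_card_support
    omega
  obtain ⟨h, h1, h2, h3⟩ := exists_coprime_family g.cycleFactorsFinset
    (fun c => #c.support) hpos
  refine ⟨h, ?_, h2, ?_⟩
  · intro c hc
    refine ⟨Nat.pos_of_dvd_of_pos (h1 c hc) (hpos c hc), ?_⟩
    have hc' := Equiv.Perm.mem_cycleFactorsFinset_iff.mp hc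
    obtain ⟨t, ht⟩ := exists_coord c hc'.1 (h c) (h1 c hc)
    refine ⟨t, fun x hx => ?_⟩
    rw [← hc'.2 x hx]
    exact ht x hx
  · rw [h3, ← Equiv.Perm.lcm_cycleType, Equiv.Perm.cycleType_def, Finset.lcm_def]
    rfl

end cyc

section sel

/-- a product of pairwise coprime numbers below `H` is at most `H!` -/
theorem prod_small_le {α : Type*} [DecidableEq α] (s : Finset α) (h : α → ℕ) (H : ℕ)
    (hpos : ∀ c ∈ s, 0 < h c) (hlt : ∀ c ∈ s, h c ≤ H)
    (hc : ∀ c ∈ s, ∀ c' ∈ s, c ≠ c' → Nat.Coprime (h c) (h c')) :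
    ∏ c ∈ s, h c ≤ H.factorial := by
  have h1 : ∏ c ∈ s, h c = ∏ c ∈ s.filter (fun c => h c ≠ 1), h c := by
    rw [Finset.prod_filter]
    refine prod_congr rfl fun c _ => ?_
    split_ifs with h2
    · rfl
    · push Not at h2; exact h2
  have hinj : Set.InjOn (fun c => h c - 1) (s.filter (fun c => h c ≠ 1)) := by
    intro a ha b hb hab
    by_contra hne
    have ha' := mem_filter.mp (mem_coe.mp ha)
    have hb' := mem_filter.mp (mem_coe.mp hb)
    have h2 := hc a ha'.1 b hb'.1 hne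
    have h3 := hpos a ha'.1
    have h4 := hpos b hb'.1
    have h5 : h a = h b := by
      have : h a - 1 = h b - 1 := hab
      omega
    rw [← h5, Nat.coprime_self] at h2
    exact ha'.2 h2
  have h6 : ∏ c ∈ s.filter (fun c => h c ≠ 1), h c
      = ∏ c ∈ s.filter (fun c => h c ≠ 1), ((h c - 1) + 1) := by
    refine prod_congr rfl fun c hc' => ?_
    have := hpos c (mem_filter.mp hc').1
    omega
  rw [h1, h6, ← prod_image (f := fun x => x + 1) (g := fun c => h c - 1) hinj,
    ← Finset.prod_range_add_one_eq_factorial]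
  apply prod_le_prod_of_subset_of_one_le'
  · intro x hx
    obtain ⟨c, hc', rfl⟩ := mem_image.mp hx
    have hc'' := (mem_filter.mp hc').1
    have h3 := hpos c hc''
    have h4 := hlt c hc''
    exact mem_range.mpr (by omega)
  · intro x hx _
    omega

end sel

end Pool.MP_35c45d_lc.OnePerm
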