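import Mathlib

set_option autoImplicit false

/-!
Landau's lower bound for the maximal order of a permutation.
-/

namespace Pool.MP_35c45d_lc.OnePerm

open Filter

/-- The product of a set of primes with sum at most `m` is at most the order of some permutation
of `m` letters. -/
lemma exists_perm_of_primes (m : ℕ) (s : Finset ℕ) (hs : ∀ p ∈ s, p.Prime)
    (hsum : ∑ p ∈ s, p ≤ m) : ∃ π : Equiv.Perm (Fin m), ∏ p ∈ s, p ≤ orderOf π := by
  obtain ⟨g, hg⟩ := (Equiv.Perm.exists_with_cycleType_iff (Fin m) (m := s.val)).mpr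
    ⟨by rw [Fintype.card_fin]; simpa using hsum, fun a ha => (hs a ha).two_le⟩
  refine ⟨g, Nat.le_of_dvd (orderOf_pos g) ?_⟩
  apply Finset.prod_primes_dvd _ (fun p hp => (hs p hp).prime)
  intro p hp
  rw [← Equiv.Perm.lcm_cycleType g, hg]
  exact Multiset.dvd_lcm hp

lemma eventually_log_le (ε : ℝ) (hε : 0 < ε) (k : ℝ) (hk : 0 < k) :
    ∀ᶠ x : ℝ in atTop, Real.log x ≤ k * x ^ ε := by
  have h1 := (isLittleO_log_rpow_atTop hε).bound hk
  filter_upwards [h1, eventually_ge_atTop 1] with x hx h1x
  have h2 : 0 ≤ x ^ ε := Real.rpow_nonneg (by linarith) _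
  rw [Real.norm_eq_abs, Real.norm_eq_abs, abs_of_nonneg h2] at hx
  exact (le_abs_self _).trans hx

lemma eventually_theta : ∀ᶠ y : ℝ in atTop, y / 8 ≤ Chebyshev.theta y := by
  filter_upwards [eventually_log_le (1 / 2) (by norm_num) (1 / 32) (by norm_num),
    eventually_ge_atTop 4] with x hx h4
  rw [← Real.sqrt_eq_rpow] at hx
  have h1 := Chebyshev.theta_ge' (x := x) (by linarith)
  have h2 : Real.log (x + 2) ≤ 2 * Real.log x := by
    rw [← Real.log_rpow (by linarith)]
    apply Real.log_le_log (by linarith)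
    rw [Real.rpow_two]
    nlinarith
  have hs : 0 ≤ √x := Real.sqrt_nonneg _
  have hss : √x * √x = x := Real.mul_self_sqrt (by linarith)
  have h3 : √x ≤ x := by
    rw [Real.sqrt_le_left (by linarith)]
    nlinarith
  have h5 : 2 * √x * Real.log x ≤ x / 16 := by
    nlinarith
  have h6 : 0.6931 < Real.log 2 := by
    have := Real.log_two_gt_d9
    linarith
  nlinarith

lemma eventually_pi : ∀ᶠ m : ℕ in atTop,
    (Nat.primeCounting ⌊√(m * Real.log m) / 8⌋₊ : ℝ) * (√(m * Real.log m) / 8) ≤ m := by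
  have h1 : ∀ᶠ x : ℝ in atTop, (Nat.primeCounting ⌊√(x * Real.log x) / 8⌋₊ : ℝ) *
      (√(x * Real.log x) / 8) ≤ x := by
    filter_upwards [eventually_log_le (1 / 3) (by norm_num) 1 (by norm_num),
      eventually_ge_atTop 4096, Real.tendsto_log_atTop.eventually_ge_atTop 1] with x hx hx0 hL1
    set L := Real.log x with hL
    set y := √(x * L) / 8 with hy
    have hxL : 0 ≤ x * L := by nlinarith
    have hy0 : 0 < y := by
      rw [hy]
      have : 0 < √(x * L) := Real.sqrt_pos.mpr (by nlinarith)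
      linarith
    have hy2 : y ^ 2 = x * L / 64 := by
      rw [hy, div_pow, Real.sq_sqrt hxL]
      norm_num
    have hs : 64 ≤ √x := by
      rw [Real.le_sqrt' (by norm_num)]
      linarith
    have hss : √x * √x = x := Real.mul_self_sqrt (by linarith)
    have hL3 : L ^ 3 ≤ x := by
      rw [one_mul] at hx
      calc L ^ 3 ≤ (x ^ (1 / 3 : ℝ)) ^ 3 := pow_le_pow_left₀ (by linarith) hx 3
        _ = x := by
          rw [← Real.rpow_natCast, ← Real.rpow_mul (by linarith)]
          norm_num
    -- `y ≥ 8`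
    have hy8 : 1 < y := by
      by_contra hcon
      rw [not_lt] at hcon
      have : y ^ 2 ≤ 1 := by nlinarith
      nlinarith
    have hlogy : L / 4 ≤ Real.log y := by
      have h2 : √x ≤ y ^ 2 := by rw [hy2]; nlinarith
      have h3 := Real.log_le_log (by linarith) h2
      rw [Real.log_sqrt (by linarith), Real.log_pow] at h3
      push_cast at h3
      linarith
    have h4 := Chebyshev.pi_le_log4_mul_div hy8
    rw [Real.log_sqrt hy0.le] at h4
    have hly : 0 < Real.log y := by linarith
    have h5 : Real.log 4 * y / (Real.log y / 2) * y ≤ Real.log 4 * x / 8 := by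
      rw [div_mul_eq_mul_div, div_le_iff₀ (by linarith)]
      have h6 : 0 < Real.log 4 := Real.log_pos (by norm_num)
      have h7 : Real.log 4 * y * y = Real.log 4 * (x * L / 64) := by rw [← hy2]; ring
      rw [h7]
      have h8 : x * L / 64 ≤ x / 8 * (Real.log y / 2) := by nlinarith
      calc Real.log 4 * (x * L / 64) ≤ Real.log 4 * (x / 8 * (Real.log y / 2)) :=
            mul_le_mul_of_nonneg_left h8 h6.le
        _ = _ := by ring
    have h9 : √y * y ≤ x / 2 := by
      apply le_of_sq_le_sq _ (by linarith)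
      rw [mul_pow, Real.sq_sqrt hy0.le]
      have h10 : y * L ≤ 16 * x := by
        apply le_of_sq_le_sq _ (by linarith)
        rw [mul_pow, hy2]
        have : L ^ 3 * x ≤ x * x := mul_le_mul_of_nonneg_right hL3 (by linarith)
        nlinarith
      rw [hy2]
      have : y * (x * L / 64) = x * (y * L) / 64 := by ring
      rw [this]
      nlinarith
    have h11 : Real.log 4 ≤ 4 - 1 := Real.log_le_sub_one_of_pos (by norm_num)
    calc (Nat.primeCounting ⌊y⌋₊ : ℝ) * y ≤ (Real.log 4 * y / (Real.log y / 2) + √y) * y :=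
          mul_le_mul_of_nonneg_right h4 hy0.le
      _ = Real.log 4 * y / (Real.log y / 2) * y + √y * y := by ring
      _ ≤ Real.log 4 * x / 8 + x / 2 := add_le_add h5 h9
      _ ≤ x := by nlinarith
  exact (tendsto_natCast_atTop_atTop (R := ℝ)).eventually h1

lemma eventually_perm : ∀ᶠ m : ℕ in atTop, ∃ π : Equiv.Perm (Fin m),
    Real.exp ((1 / 64) * Real.sqrt (m * Real.log m)) ≤ orderOf π := by
  have ht : Tendsto (fun m : ℕ => √((m : ℝ) * Real.log m) / 8) atTop atTop := by
    apply Tendsto.atTop_div_const (by norm_num)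
    apply Real.tendsto_sqrt_atTop.comp
    have h1 : Tendsto (fun x : ℝ => x * Real.log x) atTop atTop :=
      tendsto_id.atTop_mul_atTop₀ Real.tendsto_log_atTop
    exact h1.comp (tendsto_natCast_atTop_atTop (R := ℝ))
  filter_upwards [eventually_pi, ht.eventually eventually_theta] with m hpi hth
  set y := √((m : ℝ) * Real.log m) / 8 with hy
  have hy0 : 0 ≤ y := by positivity
  obtain ⟨g, hg⟩ := exists_perm_of_primes m (Nat.primesLE ⌊y⌋₊)
    (fun p hp => Nat.prime_of_mem_primesLE hp) (by
      have h1 : ∀ p ∈ Nat.primesLE ⌊y⌋₊, (p : ℝ) ≤ y := by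
        intro p hp
        have h2 : p ≤ ⌊y⌋₊ := by
          rw [Nat.mem_primesLE] at hp
          exact hp.1
        exact (Nat.le_floor_iff hy0).mp h2
      have h3 : ((∑ p ∈ Nat.primesLE ⌊y⌋₊, p : ℕ) : ℝ) ≤ m := by
        push_cast
        calc ∑ p ∈ Nat.primesLE ⌊y⌋₊, (p : ℝ) ≤ ∑ p ∈ Nat.primesLE ⌊y⌋₊, y :=
              Finset.sum_le_sum h1
          _ = (Nat.primesLE ⌊y⌋₊).card * y := by rw [Finset.sum_const, nsmul_eq_mul]
          _ = (Nat.primeCounting ⌊y⌋₊ : ℝ) * y := by
              rw [Nat.primesLE_card_eq_primeCounting]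
          _ ≤ m := hpi
      exact_mod_cast h3)
  refine ⟨g, ?_⟩
  have h2 : (1 / 64) * √((m : ℝ) * Real.log m) ≤ Real.log (primorial ⌊y⌋₊) := by
    rw [← Chebyshev.theta_eq_log_primorial]
    calc (1 / 64) * √((m : ℝ) * Real.log m) = y / 8 := by rw [hy]; ring
      _ ≤ _ := hth
  calc Real.exp ((1 / 64) * √((m : ℝ) * Real.log m)) ≤ (primorial ⌊y⌋₊ : ℝ) := by
        rw [← Real.le_log_iff_exp_le (by exact_mod_cast primorial_pos _)]
        exact h2
    _ ≤ orderOf g := by
        rw [primorial_eq_prod_primesLE]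
        exact_mod_cast hg

/-- Landau: the symmetric group on `m` letters has elements of order `exp (c √(m log m))` -/
theorem exists_large_order : ∃ c : ℝ, 0 < c ∧ ∀ m : ℕ, 2 ≤ m → ∃ π : Equiv.Perm (Fin m),
    Real.exp (c * Real.sqrt (m * Real.log m)) ≤ orderOf π := by
  obtain ⟨M, hM⟩ := eventually_atTop.mp eventually_perm
  set A : ℝ := √((max M 2 : ℕ) * Real.log (max M 2 : ℕ)) with hA
  have hM2 : (2 : ℝ) ≤ (max M 2 : ℕ) := by exact_mod_cast le_max_right M 2
  have hlogpos : 0 < Real.log (max M 2 : ℕ) := Real.log_pos (by linarith)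
  have hApos : 0 < A := Real.sqrt_pos.mpr (by positivity)
  refine ⟨min (1 / 64) (Real.log 2 / A), lt_min (by norm_num)
    (div_pos (Real.log_pos (by norm_num)) hApos), fun m hm => ?_⟩
  rcases le_total M m with h | h
  · obtain ⟨g, hg⟩ := hM m h
    refine ⟨g, le_trans (Real.exp_le_exp.mpr ?_) hg⟩
    exact mul_le_mul_of_nonneg_right (min_le_left _ _) (Real.sqrt_nonneg _)
  · obtain ⟨g, hg⟩ := exists_perm_of_primes m {2} (by simp [Nat.prime_two]) (by simpa using hm)
    refine ⟨g, ?_⟩
    have hm1 : (2 : ℝ) ≤ m := by exact_mod_cast hm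
    have h1 : √((m : ℝ) * Real.log m) ≤ A := by
      apply Real.sqrt_le_sqrt
      have h2 : (m : ℝ) ≤ (max M 2 : ℕ) := by exact_mod_cast h.trans (le_max_left _ _)
      exact mul_le_mul h2 (Real.log_le_log (by linarith) h2) (Real.log_nonneg (by linarith))
        (by linarith)
    calc Real.exp (min (1 / 64) (Real.log 2 / A) * √((m : ℝ) * Real.log m))
        ≤ Real.exp (Real.log 2) := by
          apply Real.exp_le_exp.mpr
          calc min (1 / 64) (Real.log 2 / A) * √((m : ℝ) * Real.log m)
              ≤ Real.log 2 / A * A := by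
                apply mul_le_mul (min_le_right _ _) h1 (Real.sqrt_nonneg _)
                exact (div_pos (Real.log_pos (by norm_num)) hApos).le
            _ = Real.log 2 := div_mul_cancel₀ _ hApos.ne'
      _ = 2 := Real.exp_log (by norm_num)
      _ ≤ orderOf g := by
          have : (2 : ℕ) ≤ orderOf g := by simpa using hg
          exact_mod_cast this

end Pool.MP_35c45d_lc.OnePerm
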