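import Mathlib
import Pool.Agent.Work.MP_35c45d_lc.OPVertex
import Pool.Agent.Work.MP_35c45d_lc.OPCount
import Pool.Agent.Work.MP_35c45d_lc.OPEval

set_option autoImplicit false
set_option linter.unusedSectionVars false

namespace Pool.MP_35c45d_lc.OnePerm
open Finset MvPolynomial Pool.MP_35c45d_lc.PermEq2

/-- The permanent of the `m × m` matrix of variables, as a polynomial in the `m²` variables. -/
noncomputable def permPoly (m : ℕ) : MvPolynomial (Fin m × Fin m) ℂ :=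
  (Matrix.of fun i j : Fin m => (X (i, j) : MvPolynomial (Fin m × Fin m) ℂ)).permanent

theorem char_sum_zero {m h : ℕ} [NeZero h] (g : Equiv.Perm (Fin m)) (O : Finset (Fin m))
    (hO : ∀ x, g x ∈ O ↔ x ∈ O) (t : Fin m → ZMod h) (ht : ∀ x ∈ O, t (g x) = t x + 1)
    (u : ZMod h) (hu : u ≠ 0) : ∑ x ∈ O, ZMod.stdAddChar (N := h) (u * t x) = 0 := by
  have h1 : ∑ x ∈ O, ZMod.stdAddChar (N := h) (u * t x)
      = ∑ x ∈ O, ZMod.stdAddChar (N := h) (u * t (g x)) := by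
    symm
    apply Finset.sum_equiv g
    · intro x; exact (hO x).symm
    · intro x _; rfl
  have h2 : ∑ x ∈ O, ZMod.stdAddChar (N := h) (u * t (g x))
      = ZMod.stdAddChar (N := h) u * ∑ x ∈ O, ZMod.stdAddChar (N := h) (u * t x) := by
    rw [mul_sum]
    refine sum_congr rfl fun x hx => ?_
    rw [ht x hx, mul_add, mul_one, AddChar.map_add_eq_mul, mul_comm]
  rw [h2] at h1
  have h3 : ZMod.stdAddChar (N := h) u ≠ 1 := by
    intro h4
    apply hu
    apply ZMod.injective_stdAddChar (N := h)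
    rw [h4, AddChar.map_zero_eq_one]
  have h5 : (ZMod.stdAddChar (N := h) u - 1) * ∑ x ∈ O, ZMod.stdAddChar (N := h) (u * t x) = 0 := by
    rw [sub_mul, one_mul, ← h1, sub_self]
  exact (mul_eq_zero.mp h5).resolve_left (sub_ne_zero.mpr h3)

open Classical in
theorem vertex_ne {m h : ℕ} [NeZero h] (O : Finset (Fin m)) (hne : O.Nonempty)
    (t : Fin m → ZMod h)
    (ht : ∀ u : ZMod h, u ≠ 0 → ∑ x ∈ O, ZMod.stdAddChar (N := h) (u * t x) = 0)
    (d : ℕ) (hd : 1 ≤ d) (a : ZMod h) (ha : a ∈ Lam h d) :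
    ∑ r ∈ Fintype.piFinset (fun _ : Fin d => O),
      (if Function.Injective r then
        ∏ k, ZMod.stdAddChar (N := h) ((mlt d k : ZMod h) * a * t (r k)) else 0) ≠ 0 := by
  obtain ⟨d', rfl⟩ : ∃ d', d = d' + 1 := ⟨d - 1, by omega⟩
  have h1 := vertex_sum O t ht d' (fun k => (mlt (d' + 1) k : ZMod h) * a)
    (Lam_sum_zero (by omega) a) (fun S h1 h2 => Lam_sum_ne ha S h1 h2)
  have h2 : ((-1) ^ d' * (d'.factorial : ℂ) * (#O : ℂ)) ≠ 0 := by
    refine mul_ne_zero (mul_ne_zero (pow_ne_zero _ (by norm_num)) ?_) ?_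
    · exact_mod_cast d'.factorial_ne_zero
    · exact_mod_cast hne.card_pos.ne'
  rw [← h1] at h2
  convert h2

section

variable {m : ℕ} {ι : Type*} [Fintype ι] [DecidableEq ι] (h d : ι → ℕ) [∀ i, NeZero (h i)]
  (O : ι → Finset (Fin m)) (t : (i : ι) → Fin m → ZMod (h i))

/-- test vector of a half edge -/
noncomputable def vec (l : (i : ι) → ZMod (h i)) (e : Σ i, Fin (d i)) (x : Fin m) : ℂ :=
  if x ∈ O e.1 then
    ZMod.stdAddChar (N := h e.1) ((mlt (d e.1) e.2 : ZMod (h e.1)) * l e.1 * t e.1 x) else 0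

theorem sum_vec_ne (g : Equiv.Perm (Fin m)) (hO : ∀ i x, g x ∈ O i ↔ x ∈ O i)
    (hne : ∀ i, (O i).Nonempty) (hdis : ∀ i j, i ≠ j → Disjoint (O i) (O j))
    (ht : ∀ i, ∀ x ∈ O i, t i (g x) = t i x + 1) (hd : ∀ i, 100 ≤ d i)
    (l : (i : ι) → ZMod (h i)) (hl : ∀ i, l i ∈ Lam (h i) (d i)) :
    ∑ r : (Σ i, Fin (d i)) ↪ Fin m, ∏ e, vec h d O t l e (r e) ≠ 0 := by
  classical
  rw [sum_embedding_sigma d O hdis (vec h d O t l)
    (fun e x hx => by rw [vec, if_neg hx])]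
  rw [prod_ne_zero_iff]
  intro i _
  have h1 := vertex_ne (O i) (hne i) (t i)
    (fun u hu => char_sum_zero g (O i) (hO i) (t i) (ht i) u hu) (d i)
    (by have := hd i; omega) (l i) (hl i)
  intro h0
  apply h1
  refine Eq.trans ?_ h0
  refine sum_congr rfl fun r hr => ?_
  have h2 : ∀ k, r k ∈ O i := Fintype.mem_piFinset.mp hr
  have h3 : (∏ k, ZMod.stdAddChar (N := h i) ((mlt (d i) k : ZMod (h i)) * l i * t i (r k)))
      = ∏ k, vec h d O t l ⟨i, k⟩ (r k) := by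
    refine prod_congr rfl fun k _ => ?_
    rw [vec, if_pos (h2 k)]
  rw [h3]

theorem vec_shift (g : Equiv.Perm (Fin m)) (hO : ∀ i x, g x ∈ O i ↔ x ∈ O i)
    (ht : ∀ i, ∀ x ∈ O i, t i (g x) = t i x + 1)
    (l : (i : ι) → ZMod (h i)) (e : Σ i, Fin (d i)) (x : Fin m) :
    vec h d O t l e (g x) = ZMod.stdAddChar (N := h e.1)
      ((mlt (d e.1) e.2 : ZMod (h e.1)) * l e.1) * vec h d O t l e x := by
  unfold vec
  by_cases hx : x ∈ O e.1
  · rw [if_pos hx, if_pos ((hO _ _).mpr hx), ht _ x hx, mul_add, mul_one,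
      AddChar.map_add_eq_mul, mul_comm]
  · rw [if_neg hx, if_neg (fun h => hx ((hO _ _).mp h)), mul_zero]

/-- test matrices -/
noncomputable def ZZ (φ : Equiv.Perm (Σ i, Fin (d i))) (l : (i : ι) → ZMod (h i) × ZMod (h i))
    (e : Σ i, Fin (d i)) (q : Fin m × Fin m) : ℂ :=
  vec h d O t (fun i => (l i).1) e q.1 * vec h d O t (fun i => (l i).2) (φ e) q.2

theorem ZZ_shift (g : Equiv.Perm (Fin m)) (hO : ∀ i x, g x ∈ O i ↔ x ∈ O i)
    (ht : ∀ i, ∀ x ∈ O i, t i (g x) = t i x + 1)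
    (φ : Equiv.Perm (Σ i, Fin (d i))) (l : (i : ι) → ZMod (h i) × ZMod (h i))
    (e : Σ i, Fin (d i)) (q : Fin m × Fin m) :
    ZZ h d O t φ l e (g q.1, g q.2) = wt h d φ l e * ZZ h d O t φ l e q := by
  unfold ZZ wt
  rw [vec_shift h d O t g hO ht, vec_shift h d O t g hO ht]
  ring

theorem cf_perm_ne (g : Equiv.Perm (Fin m)) (hO : ∀ i x, g x ∈ O i ↔ x ∈ O i)
    (hne : ∀ i, (O i).Nonempty) (hdis : ∀ i j, i ≠ j → Disjoint (O i) (O j))
    (ht : ∀ i, ∀ x ∈ O i, t i (g x) = t i x + 1) (hd : ∀ i, 100 ≤ d i)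
    (φ : Equiv.Perm (Σ i, Fin (d i))) (l : (i : ι) → ZMod (h i) × ZMod (h i))
    (hl : l ∈ LL h d) :
    cf univ (ev (fun _ => 1) (ZZ h d O t φ l) (permPoly m)) ≠ 0 := by
  have h1 : ev (fun _ => 1) (ZZ h d O t φ l) (permPoly m)
      = Matrix.permanent (Matrix.of fun i j : Fin m =>
      (1 + ∑ e, X e * C (vec h d O t (fun i => (l i).1) e i
        * vec h d O t (fun i => (l i).2) (φ e) j) : MvPolynomial (Σ i, Fin (d i)) ℂ)) := by
    rw [permPoly, Matrix.permanent, Matrix.permanent, map_sum]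
    refine sum_congr rfl fun σ _ => ?_
    rw [map_prod]
    refine prod_congr rfl fun i _ => ?_
    rw [Matrix.of_apply, ev_X, Matrix.of_apply, C_1]
    rfl
  rw [h1, cf_permanent]
  have hl' : ∀ i, (l i).1 ∈ Lam (h i) (d i) ∧ (l i).2 ∈ Lam (h i) (d i) := by
    intro i
    have := (Fintype.mem_piFinset.mp hl) i
    exact mem_product.mp this
  refine mul_ne_zero (mul_ne_zero ?_ ?_) ?_
  · exact_mod_cast Nat.factorial_ne_zero _
  · exact sum_vec_ne h d O t g hO hne hdis ht hd _ fun i => (hl' i).1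
  · have h2 := sum_vec_ne h d O t g hO hne hdis ht hd _ fun i => (hl' i).2
    have h3 : ∑ c : (Σ i, Fin (d i)) ↪ Fin m, ∏ e, vec h d O t (fun i => (l i).2) (φ e) (c e)
        = ∑ c : (Σ i, Fin (d i)) ↪ Fin m, ∏ e, vec h d O t (fun i => (l i).2) e (c e) := by
      apply Fintype.sum_equiv (Equiv.embeddingCongr φ (Equiv.refl _))
      intro c
      rw [← Equiv.prod_comp φ (fun e => vec h d O t (fun i => (l i).2) e
        (((Equiv.embeddingCongr φ (Equiv.refl _)) c) e))]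
      refine prod_congr rfl fun e _ => ?_
      simp
    rw [h3]
    exact h2

end

end Pool.MP_35c45d_lc.OnePerm
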