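import Mathlib
import Pool.Agent.Work.MP_35c45d_lc.OPNon
import Pool.Agent.Work.MP_35c45d_lc.OPCyc

set_option autoImplicit false
set_option linter.unusedSectionVars false

namespace Pool.MP_35c45d_lc.OnePerm
open Finset MvPolynomial Filter Topology Pool.MP_35c45d_lc.PermEq2

section limit

/-- a linear functional is continuous along coefficientwise limits of bounded degree -/
theorem tendsto_functional {q : Type*} [Fintype q] [DecidableEq q]
    (ℓ : MvPolynomial q ℂ →ₗ[ℂ] ℂ) (f : ℕ → MvPolynomial q ℂ) (g : MvPolynomial q ℂ) (M : ℕ)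
    (hM : ∀ k, (f k).totalDegree ≤ M)
    (hlim : ∀ d, Tendsto (fun k => coeff d (f k)) atTop (𝓝 (coeff d g))) :
    Tendsto (fun k => ℓ (f k)) atTop (𝓝 (ℓ g)) := by
  classical
  obtain ⟨S, hS⟩ : ∃ S : Finset (q →₀ ℕ), ∀ d, (∑ i, d i) ≤ max M g.totalDegree → d ∈ S := by
    refine ⟨Finset.Iic (Finsupp.equivFunOnFinite.symm fun _ => max M g.totalDegree), ?_⟩
    intro d hd
    rw [Finset.mem_Iic]
    intro i
    rw [Finsupp.equivFunOnFinite_symm_apply_apply]
    exact (Finset.single_le_sum (fun _ _ => Nat.zero_le _) (Finset.mem_univ i)).trans hd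
  have hexp : ∀ p : MvPolynomial q ℂ, p.totalDegree ≤ max M g.totalDegree →
      ℓ p = ∑ d ∈ S, coeff d p * ℓ (monomial d 1) := by
    intro p hp
    have h1 : p = ∑ d ∈ S, coeff d p • monomial d (1 : ℂ) := by
      conv_lhs => rw [p.as_sum]
      rw [Finset.sum_subset (s₂ := S)]
      · refine Finset.sum_congr rfl fun d _ => ?_
        rw [smul_monomial, smul_eq_mul, mul_one]
      · intro d hd
        apply hS
        have h2 := le_totalDegree hd
        rw [Finsupp.sum_fintype _ _ (fun _ => rfl)] at h2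
        exact h2.trans hp
      · intro d _ hd
        rw [notMem_support_iff.mp hd, monomial_zero]
    conv_lhs => rw [h1]
    rw [map_sum]
    refine Finset.sum_congr rfl fun d _ => ?_
    rw [map_smul, smul_eq_mul]
  have h2 : ∀ k, ℓ (f k) = ∑ d ∈ S, coeff d (f k) * ℓ (monomial d 1) :=
    fun k => hexp _ ((hM k).trans (le_max_left _ _))
  simp only [h2]
  rw [hexp g (le_max_right _ _)]
  exact tendsto_finsetSum _ fun d _ => (hlim d).mul_const _

/-- the total degree of a determinant -/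
theorem totalDegree_det {n : ℕ} {q : Type*} (A : Matrix (Fin n) (Fin n) (MvPolynomial q ℂ)) (D : ℕ)
    (hD : ∀ i j, (A i j).totalDegree ≤ D) : A.det.totalDegree ≤ n * D := by
  rw [Matrix.det_apply]
  refine (totalDegree_finsetSum _ _).trans (Finset.sup_le fun σ _ => ?_)
  have h1 : (Equiv.Perm.sign σ • ∏ i, A (σ i) i).totalDegree ≤ (∏ i, A (σ i) i).totalDegree := by
    rw [Units.smul_def]
    rcases Int.units_eq_one_or (Equiv.Perm.sign σ) with hs | hs
    · rw [hs]; simp
    · rw [hs]; simp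
  refine h1.trans ((totalDegree_finsetProd _ _).trans ?_)
  calc ∑ i, (A (σ i) i).totalDegree ≤ ∑ _i : Fin n, D := Finset.sum_le_sum fun i _ => hD _ _
    _ = n * D := by simp

theorem coeff_permPoly (m : ℕ) :
    coeff (∑ i : Fin m, Finsupp.single (i, i) 1) (permPoly m) = 1 := by
  have h1 : ∀ σ : Equiv.Perm (Fin m),
      coeff (∑ i : Fin m, Finsupp.single (i, i) 1)
        (∏ i, (Matrix.of fun i j : Fin m => (X (i, j) : MvPolynomial (Fin m × Fin m) ℂ)) (σ i) i)
      = if σ = 1 then 1 else 0 := by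
    intro σ
    have h2 : ∏ i, (Matrix.of fun i j : Fin m => (X (i, j) : MvPolynomial (Fin m × Fin m) ℂ))
        (σ i) i = monomial (∑ i, Finsupp.single (σ i, i) 1) 1 := by
      simp only [Matrix.of_apply, X]
      rw [monomial_sum_one]
    rw [h2, coeff_monomial]
    by_cases hσ : σ = 1
    · subst hσ; simp
    · rw [if_neg hσ, if_neg]
      intro h3
      apply hσ
      ext i
      have h4 := DFunLike.congr_fun h3 (σ i, i)
      simp only [Finsupp.coe_finsetSum, Finset.sum_apply, Finsupp.single_apply,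
        Prod.mk.injEq] at h4
      have h5 : ∑ x : Fin m, (if σ x = σ i ∧ x = i then 1 else 0) = 1 := by
        rw [Finset.sum_eq_single i]
        · simp
        · intro x _ hx
          rw [if_neg (fun h => hx h.2)]
        · intro h; exact absurd (Finset.mem_univ _) h
      rw [h5] at h4
      by_contra h6
      have h7 : ∑ x : Fin m, (if x = σ i ∧ x = i then 1 else 0) = 0 := by
        apply Finset.sum_eq_zero
        intro x _
        rw [if_neg]
        rintro ⟨h8, h9⟩
        apply h6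
        rw [← h8, h9]
        rfl
      rw [h7] at h4
      exact one_ne_zero h4
  rw [permPoly, Matrix.permanent, coeff_sum]
  rw [Finset.sum_congr rfl fun σ _ => h1 σ]
  simp

/-- a coefficientwise limit of polynomials of degree `< m` is not the permanent -/
theorem degree_ge (m M : ℕ) (f : ℕ → MvPolynomial (Fin m × Fin m) ℂ)
    (hM : ∀ k, (f k).totalDegree ≤ M)
    (hlim : ∀ d, Tendsto (fun k => coeff d (f k)) atTop (𝓝 (coeff d (permPoly m)))) : m ≤ M := by
  by_contra hlt
  push Not at hlt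
  have h1 := hlim (∑ i : Fin m, Finsupp.single (i, i) 1)
  rw [coeff_permPoly] at h1
  have h2 : ∀ k, coeff (∑ i : Fin m, Finsupp.single (i, i) 1) (f k) = 0 := by
    intro k
    apply coeff_eq_zero_of_totalDegree_lt
    refine lt_of_le_of_lt (hM k) (lt_of_lt_of_eq hlt ?_)
    have h3 : ∑ q ∈ (∑ i : Fin m, Finsupp.single (i, i) (1 : ℕ)).support,
        (∑ i : Fin m, Finsupp.single (i, i) (1 : ℕ)) q
        = Finsupp.degree (∑ i : Fin m, Finsupp.single (i, i) (1 : ℕ)) := rfl
    rw [h3, map_sum]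
    simp
  simp only [h2] at h1
  exact zero_ne_one (tendsto_nhds_unique tendsto_const_nhds h1)

end limit

section core

/-- The bound for one sum of determinants. -/
theorem core {m : ℕ} {ι : Type*} [Fintype ι] [DecidableEq ι] (h d : ι → ℕ) [∀ i, NeZero (h i)]
    (O : ι → Finset (Fin m)) (t : (i : ι) → Fin m → ZMod (h i))
    (g : Equiv.Perm (Fin m)) (hO : ∀ i x, g x ∈ O i ↔ x ∈ O i)
    (ht : ∀ i, ∀ x ∈ O i, t i (g x) = t i x + 1) (hd : ∀ i, 100 ≤ d i)
    (hc : ∀ i j, i ≠ j → Nat.Coprime (h i) (h j)) (hh : ∀ i, 2 ^ (30 * d i) ≤ h i)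
    (hE : 1000 ≤ ∑ i, d i) (D : ℕ) (hD : 20 * D ≤ ∑ i, d i)
    (φ : Equiv.Perm (Σ i, Fin (d i)))
    (hφ : ∀ A : Finset (Σ i, Fin (d i)), 9 * ∑ i, d i ≤ 20 * #A → 20 * #A ≤ 11 * ∑ i, d i →
      ∃ μ, 2 * ∑ i, d i ≤ 5 * μ ∧ ∀ (I : DecidablePred fun i => Split A i ∨ Split (A.map φ.toEmbedding) i),
        μ ≤ ∑ i with Split A i ∨ Split (A.map φ.toEmbedding) i, d i)
    {n N : ℕ} (hn : 1 ≤ n)
    (A : Fin N → Matrix (Fin n) (Fin n) (MvPolynomial (Fin m × Fin m) ℂ))
    (hdeg : ∀ s i j, (A s i j).totalDegree ≤ D)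
    (hsym : ∀ s, ∃ G H : Matrix (Fin n) (Fin n) ℂ, H.det ≠ 0 ∧
      (A s).map (rename fun q => (g q.1, g q.2)) = G.map C * A s * H.map C)
    (hns : ∀ s, ∃ X₀ : Fin m × Fin m → ℂ,
      (∀ q, X₀ (g q.1, g q.2) = X₀ q) ∧ ((A s).map (eval X₀)).det ≠ 0)
    (hcf : ∀ l ∈ LL h d, cf univ (ev (fun _ => 1) (ZZ h d O t φ l) (∑ s, (A s).det)) ≠ 0) :
    2 ^ (53 * ∑ i, d i) ≤ (N * n ^ 2) ^ 5 := by
  classical
  choose G H hH hA using hsym
  choose X₀ hX1 hX2 using hns
  set e := ∑ i, d i with he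
  set W : Finset (Finset (Σ i, Fin (d i))) :=
    univ.filter fun A => 9 * e ≤ 20 * #A ∧ 20 * #A ≤ 11 * e with hW
  obtain ⟨μ, hμ1, hμ2⟩ : ∃ μ, 2 * e ≤ 5 * μ ∧ 5 * μ ≤ 2 * e + 4 :=
    ⟨(2 * e + 4) / 5, by omega, by omega⟩
  have hWμ : ∀ A ∈ W, μ ≤ ∑ i with Split A i ∨ Split (A.map φ.toEmbedding) i, d i := by
    intro A' hA'
    rw [hW, mem_filter] at hA'
    obtain ⟨μ', h1, h2⟩ := hφ A' hA'.2.1 hA'.2.2
    have h3 : μ ≤ μ' := by omega
    refine h3.trans ?_
    exact h2 _
  have hcov : ∀ l ∈ LL h d, ∃ s, ∃ A' ∈ W, ∏ e ∈ A', wt h d φ l e ∈ ratios (H s) := by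
    intro l hl
    have h1 := hcf l hl
    rw [map_sum, map_sum] at h1
    obtain ⟨s, -, hs⟩ := exists_ne_zero_of_sum_ne_zero h1
    refine ⟨s, ?_⟩
    obtain ⟨A', h2, h3, h4⟩ := exists_cut_ev' (fun _ => 1) (X₀ s) (ZZ h d O t φ l)
      (fun q => (g q.1, g q.2)) (fun _ => rfl) (hX1 s) (wt h d φ l)
      (fun e q => ZZ_shift h d O t g hO ht φ l e q) (A s) (hX2 s) (G s) (H s) (hH s) (hA s) hn D
      ((9 * e + 19) / 20) (hdeg s) (by
        rw [Fintype.card_sigma, sum_congr rfl fun i _ => Fintype.card_fin (d i), ← he]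
        omega) hs
    refine ⟨A', ?_, h4⟩
    rw [hW, mem_filter]
    refine ⟨mem_univ _, by omega, by omega⟩
  have hb := count_bound h d hc hd hh φ W μ hWμ (fun s => ratios (H s)) (n ^ 2)
    (fun s => by simpa using card_ratios_le (H s)) hcov
  have h5 : (2 ^ (29 * μ)) ^ 5 ≤ (2 ^ e * (N * n ^ 2)) ^ 5 := Nat.pow_le_pow_left hb 5
  rw [mul_pow, ← pow_mul, ← pow_mul] at h5
  have h6 : 2 ^ (e * 5) * 2 ^ (53 * e) ≤ 2 ^ (e * 5) * (N * n ^ 2) ^ 5 := by
    refine le_trans ?_ h5
    rw [← pow_add]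
    exact Nat.pow_le_pow_right (by norm_num) (by omega)
  exact Nat.le_of_mul_le_mul_left h6 (by positivity)

end core

section main

/-- The bound for one permutation, plain equivariance. -/
theorem main_plain : ∃ C₀ : ℕ, ∀ (m n D M : ℕ) (_ : 1 ≤ m) (g : Equiv.Perm (Fin m)) (N : ℕ → ℕ)
    (A : (k : ℕ) → Fin (N k) → Matrix (Fin n) (Fin n) (MvPolynomial (Fin m × Fin m) ℂ))
    (_ : ∀ k, N k ≤ M)
    (_ : ∀ k s i j, (A k s i j).totalDegree ≤ D)
    (_ : ∀ k s, ∃ G H : Matrix (Fin n) (Fin n) ℂ, H.det ≠ 0 ∧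
      (A k s).map (rename fun q => (g q.1, g q.2)) = G.map C * A k s * H.map C)
    (_ : ∀ k, N k = 1 ∨ ∀ s, ∃ X₀ : Fin m × Fin m → ℂ,
      (∀ q, X₀ (g q.1, g q.2) = X₀ q) ∧ ((A k s).map (eval X₀)).det ≠ 0)
    (_ : ∀ d, Tendsto (fun k => coeff d (∑ s, (A k s).det)) atTop
      (𝓝 (coeff d (permPoly m)))), orderOf g ≤ C₀ ^ (D + 1) * (M * n ^ 2) ^ 3 := by
  classical
  obtain ⟨H0, hH0⟩ : ∃ x : ℕ, ∀ y, Nat.log 2 y < 3000 → y ≤ x :=
    ⟨2 ^ 3000, fun y hy => (Nat.lt_pow_of_log_lt (by norm_num) hy).le⟩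
  obtain ⟨T0, hT0⟩ : ∃ x : ℕ, x = 31 * 1000 := ⟨_, rfl⟩
  refine ⟨H0.factorial * 2 ^ T0, ?_⟩
  intro m n D M hm g N A hN hdeg hsym hns hlim
  have hM : ∀ k, (∑ s, (A k s).det).totalDegree ≤ n * D := fun k =>
    (totalDegree_finsetSum _ _).trans (Finset.sup_le fun s _ => totalDegree_det _ _ (hdeg k s))
  have hmM := degree_ge m _ _ hM hlim
  have hn : 1 ≤ n := by
    rcases Nat.eq_zero_or_pos n with h0 | h0
    · subst h0; omega
    · exact h0
  have hM1 : 1 ≤ M := by
    by_contra h0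
    have h1 : M = 0 := by omega
    have h2 : ∀ k, (∑ s, (A k s).det).totalDegree ≤ 0 := by
      intro k
      have h3 : N k = 0 := by have := hN k; omega
      have h4 : IsEmpty (Fin (N k)) := by rw [h3]; infer_instance
      rw [Finset.univ_eq_empty, Finset.sum_empty]
      simp
    have := degree_ge m _ _ h2 hlim
    omega
  have hMn : 1 ≤ M * n ^ 2 := Nat.one_le_iff_ne_zero.mpr (by positivity)
  -- the cycles
  obtain ⟨h₀, h1, h2, h3⟩ := exists_cycle_data g
  set S := g.cycleFactorsFinset with hS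
  set Big := S.filter fun c => 100 ≤ Nat.log 2 (h₀ c) / 30 with hBig
  set d₀ : Equiv.Perm (Fin m) → ℕ := fun c => Nat.log 2 (h₀ c) / 30 with hd₀
  have hsmall : ∏ c ∈ S.filter (fun c => ¬ 100 ≤ Nat.log 2 (h₀ c) / 30), h₀ c ≤ H0.factorial := by
    apply prod_small_le
    · intro c hc
      exact (h1 c (mem_filter.mp hc).1).1
    · intro c hc
      have h4 := (mem_filter.mp hc).2
      have h5 : Nat.log 2 (h₀ c) < 3000 := by omega
      exact hH0 _ h5
    · intro c hc c' hc' hne
      exact h2 c (mem_filter.mp hc).1 c' (mem_filter.mp hc').1 hne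
  have hprod : orderOf g = (∏ c ∈ Big, h₀ c)
      * ∏ c ∈ S.filter (fun c => ¬ 100 ≤ Nat.log 2 (h₀ c) / 30), h₀ c := by
    rw [← h3, hBig]
    exact (prod_filter_mul_prod_filter_not S _ _).symm
  obtain ⟨e, he⟩ : ∃ e, e = ∑ c ∈ Big, d₀ c := ⟨_, rfl⟩
  have hcard : 100 * #Big ≤ e := by
    rw [he, mul_comm, ← smul_eq_mul, ← sum_const]
    refine sum_le_sum fun c hc => ?_
    exact (mem_filter.mp hc).2
  have hbig : ∏ c ∈ Big, h₀ c ≤ 2 ^ (30 * (e + #Big)) := by
    have h4 : ∀ c ∈ Big, h₀ c ≤ 2 ^ (30 * (d₀ c + 1)) := by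
      intro c _
      refine (Nat.lt_pow_succ_log_self (by norm_num : 1 < 2) (h₀ c)).le.trans ?_
      refine Nat.pow_le_pow_right (by norm_num) ?_
      simp only [hd₀]
      omega
    refine (prod_le_prod' h4).trans ?_
    rw [prod_pow_eq_pow_sum, ← mul_sum, sum_add_distrib, ← he, sum_const, smul_eq_mul, mul_one]
  rw [hprod]
  by_cases hcase : 1000 ≤ e ∧ 20 * D ≤ e
  · -- the main case
    have key : 2 ^ (53 * e) ≤ (M * n ^ 2) ^ 5 := by
      let ι := {c // c ∈ Big}
      let h : ι → ℕ := fun i => h₀ i.1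
      let d : ι → ℕ := fun i => d₀ i.1
      have hmem : ∀ i : ι, i.1 ∈ S := fun i => (mem_filter.mp i.2).1
      have : ∀ i, NeZero (h i) := fun i => ⟨(h1 i.1 (hmem i)).1.ne'⟩
      let O : ι → Finset (Fin m) := fun i => i.1.support
      have ht' : ∀ i : ι, ∃ t : Fin m → ZMod (h i), ∀ x ∈ O i, t (g x) = t x + 1 :=
        fun i => (h1 i.1 (hmem i)).2
      choose t ht using ht'
      have hcyc : ∀ i : ι, i.1.IsCycle ∧ ∀ a ∈ i.1.support, i.1 a = g a := fun i =>
        Equiv.Perm.mem_cycleFactorsFinset_iff.mp (hmem i)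
      have hO1 : ∀ (i : ι) (x : Fin m), x ∈ O i → g x ∈ O i := by
        intro i x hx
        have h4 := (hcyc i).2 x hx
        rw [← h4]
        exact Equiv.Perm.apply_mem_support.mpr hx
      have hO : ∀ (i : ι) (x : Fin m), g x ∈ O i ↔ x ∈ O i := by
        intro i x
        refine ⟨fun hx => ?_, hO1 i x⟩
        -- the support is finite, `g` maps it injectively into itself
        have h5 : (O i).map g.toEmbedding = O i := by
          apply Finset.eq_of_subset_of_card_le
          · intro y hy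
            obtain ⟨z, hz, rfl⟩ := mem_map.mp hy
            exact hO1 i z hz
          · rw [card_map]
        rw [← h5] at hx
        obtain ⟨z, hz, hzx⟩ := mem_map.mp hx
        have : z = x := g.injective hzx
        rwa [← this]
      have hne : ∀ i : ι, (O i).Nonempty := fun i => by
        have h4 : 2 ≤ #(O i) := (hcyc i).1.two_le_card_support
        exact card_pos.mp (by omega)
      have hdis : ∀ i j : ι, i ≠ j → Disjoint (O i) (O j) := by
        intro i j hij
        have h4 := Equiv.Perm.cycleFactorsFinset_pairwise_disjoint g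
          (hmem i) (hmem j) (fun h => hij (Subtype.ext h))
        exact h4.disjoint_support
      have hd : ∀ i : ι, 100 ≤ d i := fun i => (mem_filter.mp i.2).2
      have hc : ∀ i j : ι, i ≠ j → Nat.Coprime (h i) (h j) := fun i j hij =>
        h2 i.1 (hmem i) j.1 (hmem j) (fun h => hij (Subtype.ext h))
      have hh : ∀ i : ι, 2 ^ (30 * d i) ≤ h i := by
        intro i
        refine le_trans ?_ (Nat.pow_log_le_self 2 (h1 i.1 (hmem i)).1.ne')
        refine Nat.pow_le_pow_right (by norm_num) ?_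
        change 30 * (Nat.log 2 (h₀ i.1) / 30) ≤ Nat.log 2 (h₀ i.1)
        omega
      have hsum : ∑ i : ι, d i = e := by
        rw [he]
        exact Finset.sum_coe_sort Big d₀
      obtain ⟨φ, hφ⟩ := exists_graph d hd (by rw [hsum]; exact hcase.1)
      -- choice of the index of the sequence
      have h4 : ∀ᶠ k in atTop, ∀ l ∈ LL h d,
          cf univ (ev (fun _ => 1) (ZZ h d O t φ l) (∑ s, (A k s).det)) ≠ 0 := by
        rw [Filter.eventually_all_finset]
        intro l hl
        have h5 := tendsto_functional ((cf Finset.univ).comp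
          (ev (fun _ => 1) (ZZ h d O t φ l)).toLinearMap) _ _ _ hM hlim
        exact h5.eventually_ne (cf_perm_ne h d O t g hO hne hdis ht hd φ l hl)
      have h5 : ∀ᶠ k in atTop, eval (fun _ => 1) (∑ s, (A k s).det) ≠ 0 := by
        have h6 := tendsto_functional ((aeval (fun _ => 1 : Fin m × Fin m → ℂ)).toLinearMap)
          _ _ _ hM hlim
        have h7 : (aeval (fun _ => 1 : Fin m × Fin m → ℂ)).toLinearMap (permPoly m) ≠ 0 := by
          have h8 : (aeval (fun _ => 1 : Fin m × Fin m → ℂ)).toLinearMap (permPoly m)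
              = ((Fintype.card (Equiv.Perm (Fin m)) : ℕ) : ℂ) := by
            rw [AlgHom.toLinearMap_apply, permPoly, Matrix.permanent, map_sum]
            simp only [map_prod, Matrix.of_apply, aeval_X, Finset.prod_const_one, Finset.sum_const,
              Finset.card_univ, nsmul_eq_mul, mul_one]
          rw [h8, Nat.cast_ne_zero]
          exact Fintype.card_ne_zero
        have h9 := h6.eventually_ne h7
        refine h9.mono fun k hk => ?_
        rw [AlgHom.toLinearMap_apply, aeval_eq_eval] at hk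
        exact hk
      obtain ⟨k, hk1, hk2⟩ := (h4.and h5).exists
      have hns' : ∀ s, ∃ X₀ : Fin m × Fin m → ℂ,
          (∀ q, X₀ (g q.1, g q.2) = X₀ q) ∧ ((A k s).map (eval X₀)).det ≠ 0 := by
        intro s
        rcases hns k with h6 | h6
        · refine ⟨fun _ => 1, fun _ => rfl, ?_⟩
          have h7 : Subsingleton (Fin (N k)) := by rw [h6]; infer_instance
          have h8 : ∑ s, (A k s).det = (A k s).det :=
            Fintype.sum_eq_single s fun x hx => absurd (Subsingleton.elim x s) hx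
          rw [h8, RingHom.map_det] at hk2
          exact hk2
        · exact h6 s
      have h6 := core h d O t g hO ht hd hc hh (by rw [hsum]; exact hcase.1) D
        (by rw [hsum]; exact hcase.2) φ
        (fun A' h7 h8 => ⟨∑ i with Split A' i ∨ Split (A'.map φ.toEmbedding) i, d i,
          hφ A' h7 h8, fun I => by
            apply le_of_eq
            congr⟩)
        hn (A k) (hdeg k) (hsym k) hns' hk1
      rw [hsum] at h6
      refine h6.trans ?_
      have := hN k
      gcongr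
    -- numerics
    have h4 : (∏ c ∈ Big, h₀ c) ^ 5 ≤ ((M * n ^ 2) ^ 3) ^ 5 := by
      calc (∏ c ∈ Big, h₀ c) ^ 5 ≤ (2 ^ (30 * (e + #Big))) ^ 5 := Nat.pow_le_pow_left hbig 5
        _ = 2 ^ (150 * (e + #Big)) := by rw [← pow_mul]; congr 1; ring
        _ ≤ 2 ^ (159 * e) := Nat.pow_le_pow_right (by norm_num) (by omega)
        _ = (2 ^ (53 * e)) ^ 3 := by rw [← pow_mul]; congr 1; ring
        _ ≤ ((M * n ^ 2) ^ 5) ^ 3 := Nat.pow_le_pow_left key 3
        _ = ((M * n ^ 2) ^ 3) ^ 5 := by rw [← pow_mul, ← pow_mul]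
    have h5 : ∏ c ∈ Big, h₀ c ≤ (M * n ^ 2) ^ 3 := by
      by_contra hlt
      push Not at hlt
      exact absurd h4 (not_le.mpr (Nat.pow_lt_pow_left hlt (by norm_num)))
    have hC1 : H0.factorial ≤ (H0.factorial * 2 ^ T0) ^ (D + 1) := by
      have h6 : 1 ≤ H0.factorial * 2 ^ T0 := Nat.one_le_iff_ne_zero.mpr (by positivity)
      calc H0.factorial ≤ H0.factorial * 2 ^ T0 := Nat.le_mul_of_pos_right _ (by positivity)
        _ = (H0.factorial * 2 ^ T0) ^ 1 := (pow_one _).symm
        _ ≤ _ := Nat.pow_le_pow_right h6 (by omega)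
    calc _ ≤ (M * n ^ 2) ^ 3 * H0.factorial := Nat.mul_le_mul h5 hsmall
      _ = H0.factorial * (M * n ^ 2) ^ 3 := mul_comm _ _
      _ ≤ _ := Nat.mul_le_mul_right _ hC1
  · -- the order is bounded
    have h4 : e < 1000 * (D + 1) := by
      by_contra h5
      push Not at h5
      exact hcase ⟨by omega, by omega⟩
    have h5 : ∏ c ∈ Big, h₀ c ≤ (2 ^ T0) ^ (D + 1) := by
      refine hbig.trans ?_
      rw [← pow_mul, hT0]
      exact Nat.pow_le_pow_right (by norm_num) (by omega)
    have h6 : H0.factorial ≤ H0.factorial ^ (D + 1) := by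
      calc H0.factorial = H0.factorial ^ 1 := (pow_one _).symm
        _ ≤ _ := Nat.pow_le_pow_right (Nat.factorial_pos _) (by omega)
    calc _ ≤ (2 ^ T0) ^ (D + 1) * H0.factorial ^ (D + 1) :=
          Nat.mul_le_mul h5 (hsmall.trans h6)
      _ = (H0.factorial * 2 ^ T0) ^ (D + 1) * 1 := by rw [mul_one, mul_pow, mul_comm]
      _ ≤ _ := Nat.mul_le_mul_left _ (Nat.one_le_pow _ _ hMn)

end main

end Pool.MP_35c45d_lc.OnePerm
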