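import Pool.Agent.Work.MP_35c45d_lc.ABMain
import Pool.Agent.Work.MP_35c45d_lc.ABUpper

set_option autoImplicit false

namespace Pool.Agent.Work.MP_35c45d_lc.OldAbelianEquivariant

open MvPolynomial Filter Topology

/-- The permanent of the `m × m` matrix of variables, as a polynomial in the `m ^ 2` variables. -/
noncomputable def permPoly (m : ℕ) : MvPolynomial (Fin m × Fin m) ℂ :=
  (Matrix.of fun i j : Fin m => (X (i, j) : MvPolynomial (Fin m × Fin m) ℂ)).permanent

/-- Permuting the rows and the columns of the matrix of variables simultaneously by `π` changes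
the matrix of polynomials `A` only by `Y ↦ G Y H` or `Y ↦ G Yᵀ H` with invertible constant
matrices `G`, `H`. -/
def Respects {m n : ℕ} (A : Matrix (Fin n) (Fin n) (MvPolynomial (Fin m × Fin m) ℂ))
    (π : Equiv.Perm (Fin m)) : Prop :=
  ∃ G H : Matrix (Fin n) (Fin n) ℂ, G.det ≠ 0 ∧ H.det ≠ 0 ∧
    (A.map (rename fun q => (π q.1, π q.2)) = G.map C * A * H.map C ∨
     A.map (rename fun q => (π q.1, π q.2)) = G.map C * A.transpose * H.map C)

/-- The `m × m` permanent is a coefficientwise limit of sums of at most `M` determinants of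
`n × n` matrices of polynomials of degree at most `D`, each matrix equivariant under every
permutation in `Γ`; when a sum has several summands, each of its matrices is nonsingular at some
`Γ`-invariant point. -/
def LimitOfEquivariantDets (m n D M : ℕ) (Γ : Subgroup (Equiv.Perm (Fin m))) : Prop :=
  ∃ (N : ℕ → ℕ)
    (A : (k : ℕ) → Fin (N k) → Matrix (Fin n) (Fin n) (MvPolynomial (Fin m × Fin m) ℂ)),
    (∀ k, N k ≤ M) ∧ (∀ k s i j, (A k s i j).totalDegree ≤ D) ∧
    (∀ k s, ∀ γ ∈ Γ, Respects (A k s) γ) ∧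
    (∀ k, N k = 1 ∨ ∀ s, ∃ X₀ : Fin m × Fin m → ℂ,
      (∀ γ ∈ Γ, ∀ i j, X₀ (γ i, γ j) = X₀ (i, j)) ∧ ((A k s).map (eval X₀)).det ≠ 0) ∧
    ∀ d, Tendsto (fun k => coeff d (∑ s, (A k s).det)) atTop (𝓝 (coeff d (permPoly m)))

/-- The cost of equivariance of determinantal expressions of the permanent under an abelian group
`Γ` of permutations (acting on rows and columns simultaneously) is the order of `Γ`, up to
polynomials and up to a subgroup all of whose orbits have at most two elements. The first part is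
the lower bound, the second part is the upper bound (for all `Γ`). -/
theorem result :
    (∃ C₀ : ℕ, ∀ (m n D M : ℕ) (Γ : Subgroup (Equiv.Perm (Fin m))), 1 ≤ m →
      (∀ a ∈ Γ, ∀ b ∈ Γ, a * b = b * a) → LimitOfEquivariantDets m n D M Γ →
      (∃ Γ' : Subgroup (Equiv.Perm (Fin m)), Γ' ≤ Γ ∧ (∀ γ ∈ Γ', γ ^ 2 = 1) ∧
        (∀ x, {y | ∃ γ ∈ Γ', γ x = y}.ncard ≤ 2) ∧
        Nat.card Γ ≤ C₀ ^ (D + 1) * (M * n ^ 2) ^ 22 * Nat.card Γ') ∧
      (Odd (Nat.card Γ) ∨ IsCyclic Γ →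
        Nat.card Γ ≤ C₀ ^ (D + 1) * (M * n ^ 2) ^ 22 * 2)) ∧
    ∀ (m n : ℕ) (Γ : Subgroup (Equiv.Perm (Fin m)))
      (A : Matrix (Fin n) (Fin n) (MvPolynomial (Fin m × Fin m) ℂ)),
      (∀ i j, (A i j).totalDegree ≤ 1) → A.det = permPoly m →
      ∃ (n' : ℕ) (A' : Matrix (Fin n') (Fin n') (MvPolynomial (Fin m × Fin m) ℂ)),
        n' ≤ 1 + Nat.card Γ * (n + 1) ^ 4 ∧ (∀ i j, (A' i j).totalDegree ≤ 1) ∧
        A'.det = permPoly m ∧
        ∀ γ ∈ Γ, ∃ σ : Equiv.Perm (Fin n'), ∀ i j,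
          rename (fun q => (γ q.1, γ q.2)) (A' i j) = A' (σ i) (σ j) := by
  constructor
  · obtain ⟨C₀, hC⟩ := Pool.MP_35c45d_lc.Ab.main_ab
    refine ⟨C₀, ?_⟩
    intro m n D M Γ hm hcomm hrep
    obtain ⟨N, A, hN, hdeg, hsym, hns, hlim⟩ := hrep
    obtain ⟨Γ', h1, h2, h3⟩ := hC m n D M hm Γ hcomm N A hN hdeg
      (fun k s γ => by
        obtain ⟨G, H, hG, hH, h | h⟩ := hsym k s γ γ.2
        · exact Or.inl ⟨G, H, hG, hH, h⟩
        · exact Or.inr ⟨G, H, hG, hH, h⟩)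
      (fun k => by
        rcases hns k with h | h
        · exact Or.inl h
        · refine Or.inr fun s => ?_
          obtain ⟨X₀, h4, h5⟩ := h s
          exact ⟨X₀, fun γ z => h4 γ γ.2 z.1 z.2, h5⟩)
      hlim
    have hsq := Pool.MP_35c45d_lc.Ab.sq_eq_one Γ' h2
    refine ⟨⟨Γ', h1, hsq, h2, h3⟩, fun hodd => h3.trans ?_⟩
    exact Nat.mul_le_mul_left _ (Pool.MP_35c45d_lc.Ab.card_le_two Γ Γ' h1 hsq hodd)
  · intro m n Γ A hA hdet
    exact Pool.MP_35c45d_lc.Ab.upper Γ A hA hdet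

end Pool.Agent.Work.MP_35c45d_lc.OldAbelianEquivariant
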