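import Pool.Agent.Work.MP_35c45d_lc.SQFinal

/-! A nearly cubic lower bound for the border determinantal complexity of the permanent. -/

set_option autoImplicit false

namespace Pool.Agent.Work.MP_35c45d_lc.OldBorderDCCubic

open Filter Topology

/-- For every `ε > 0` there is `c > 0` such that for all `m ≥ 1` and all `n`: if the `m × m`
permanent over the complex numbers is a coefficientwise limit of determinants of `n × n` matrices
of affine linear forms, then `n ≥ c * m ^ (3 - ε)`. -/
theorem result (ε : ℝ) (hε : 0 < ε) : ∃ c : ℝ, 0 < c ∧ ∀ m n : ℕ, 1 ≤ m →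
    ∀ A : ℕ → Matrix (Fin n) (Fin n) (MvPolynomial (Fin m × Fin m) ℂ),
      (∀ s i j, (A s i j).totalDegree ≤ 1) →
      (∀ d, Tendsto (fun s => MvPolynomial.coeff d (A s).det) atTop
        (𝓝 (MvPolynomial.coeff d (Matrix.of (fun i j : Fin m =>
          (MvPolynomial.X (i, j) : MvPolynomial (Fin m × Fin m) ℂ))).permanent))) →
      c * (m : ℝ) ^ (3 - ε) ≤ n := by
  obtain ⟨c, hc, h⟩ := Pool.Agent.Work.MP_35c45d_lc.SQ.border_main ε hε
  refine ⟨c, hc, fun m n hm A hA hlim => h m n hm ⟨A, fun _ => 1, hA, fun d => ?_⟩⟩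
  simp only [map_one, one_mul]
  exact hlim d

end Pool.Agent.Work.MP_35c45d_lc.OldBorderDCCubic
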