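import Pool.Agent.Work.MP_35c45d_lc.BorderMain

set_option autoImplicit false

namespace Pool.Agent.Work.MP_35c45d_lc.OldBorderDetComplexity

open Filter Topology

/-- If the `m × m` permanent over the complex numbers is a coefficientwise limit of determinants
of `n × n` matrices of affine linear forms, then `3 n ≥ 2 (m - 2) (m - 3)` (for `m ≥ 3`). -/
theorem result (m n : ℕ) (hm : 3 ≤ m)
    (A : ℕ → Matrix (Fin n) (Fin n) (MvPolynomial (Fin m × Fin m) ℂ))
    (hA : ∀ s i j, (A s i j).totalDegree ≤ 1)
    (hlim : ∀ d, Tendsto (fun s => MvPolynomial.coeff d (A s).det) atTop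
      (𝓝 (MvPolynomial.coeff d (Matrix.of (fun i j : Fin m =>
        (MvPolynomial.X (i, j) : MvPolynomial (Fin m × Fin m) ℂ))).permanent))) :
    2 * (m - 2) * (m - 3) ≤ 3 * n := by
  rcases Nat.lt_or_ge m 4 with h | h
  · have : m - 3 = 0 := by omega
    rw [this, mul_zero]
    exact Nat.zero_le _
  · have := Pool.Agent.Work.MP_35c45d_lc.Border.border_bound (ι := Fin m)
      (by rw [Fintype.card_fin]; exact h) A hA hlim
    rwa [Fintype.card_fin] at this

end Pool.Agent.Work.MP_35c45d_lc.OldBorderDetComplexity
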