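import Mathlib

set_option autoImplicit false

namespace Pool.Agent.Work.MP_35c45d_lc

open Matrix

theorem permanent_submatrix_equiv {ι κ : Type*} [Fintype ι] [DecidableEq ι] [Fintype κ]
    [DecidableEq κ] {R : Type*} [CommSemiring R] (e : κ ≃ ι) (M : Matrix ι ι R) :
    (M.submatrix e e).permanent = M.permanent := by
  unfold Matrix.permanent
  refine Fintype.sum_equiv e.permCongr _ _ ?_
  intro σ
  refine Fintype.prod_equiv e _ _ ?_
  intro i
  simp

/-- transfer of a determinantal expression along an equivalence of index types -/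
theorem transfer {ι κ ν : Type*} [Fintype ι] [DecidableEq ι] [Fintype κ] [DecidableEq κ]
    [Fintype ν] [DecidableEq ν] {K : Type*} [Field K] (e : κ ≃ ι)
    (A : Matrix ν ν (MvPolynomial (ι × ι) K)) (hA : ∀ i j, (A i j).totalDegree ≤ 1)
    (hdet : A.det = (Matrix.of (fun i j : ι =>
            (MvPolynomial.X (i, j) : MvPolynomial (ι × ι) K))).permanent) :
    ∃ B : Matrix ν ν (MvPolynomial (κ × κ) K), (∀ i j, (B i j).totalDegree ≤ 1) ∧
      B.det = (Matrix.of (fun i j : κ =>
            (MvPolynomial.X (i, j) : MvPolynomial (κ × κ) K))).permanent := by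
  let f : MvPolynomial (ι × ι) K →ₐ[K] MvPolynomial (κ × κ) K :=
    MvPolynomial.rename (Prod.map e.symm e.symm)
  refine ⟨f.mapMatrix A, ?_, ?_⟩
  · intro i j
    exact (MvPolynomial.totalDegree_rename_le _ _).trans (hA i j)
  · rw [← AlgHom.map_det, hdet]
    rw [← permanent_submatrix_equiv e.symm (Matrix.of (fun i j : κ =>
            (MvPolynomial.X (i, j) : MvPolynomial (κ × κ) K)))]
    simp [Matrix.permanent, map_sum, map_prod, f]

end Pool.Agent.Work.MP_35c45d_lc
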