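import Pool.Agent.Work.MP_35c45d_lc.BoundS
import Pool.Agent.Work.MP_35c45d_lc.Reindex

set_option autoImplicit false

namespace Pool.Agent.Results.MP_35c45d_lc.DetComplexityLB

open Pool.Agent.Work.MP_35c45d_lc

/-- If the `m × m` permanent over the complex numbers is the determinant of an `n × n` matrix of
affine linear forms and `m ≥ 5`, then `n ≥ m² - 3m + 1`. -/
theorem result (m n : ℕ) (hm : 5 ≤ m)
    (A : Matrix (Fin n) (Fin n) (MvPolynomial (Fin m × Fin m) ℂ))
    (hA : ∀ i j, (A i j).totalDegree ≤ 1)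
    (hdet : A.det = (Matrix.of (fun i j : Fin m =>
      (MvPolynomial.X (i, j) : MvPolynomial (Fin m × Fin m) ℂ))).permanent) :
    m ^ 2 + 1 ≤ n + 3 * m := by
  obtain ⟨q, rfl⟩ : ∃ q, m = q + 2 := ⟨m - 2, by omega⟩
  obtain ⟨B, hB, hBdet⟩ := transfer (finSumFinEquiv : Fin q ⊕ Fin 2 ≃ Fin (q + 2)) A hA hdet
  have h := bound_sum (by omega) B hB hBdet
  rw [Fintype.card_fin] at h
  nlinarith

end Pool.Agent.Results.MP_35c45d_lc.DetComplexityLB
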