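import Mathlib
import Pool.Agent.Work.MP_35c45d_lc.FQMain

set_option autoImplicit false

namespace Pool.Agent.Work.MP_35c45d_lc.OldFormulaQuartic

open Filter Topology Pool.Agent.Work.MP_35c45d_lc

/-- Let `m ≥ 2`. If the `m × m` permanent over the complex numbers is a coefficientwise limit of
polynomials `f k`, each computed by an arithmetic formula `Φ k` with additions, multiplications
and divisions and with at most `s` leaves that carry a variable, then
`m ^ 4 ≤ 256 * ⌊log₂ m⌋ * s`. -/
theorem result (m s : ℕ) (hm : 2 ≤ m)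
    (Φ : ℕ → FQ.Formula (Fin m × Fin m)) (f : ℕ → MvPolynomial (Fin m × Fin m) ℂ)
    (hΦ : ∀ k, (Φ k).Computes (f k)) (hs : ∀ k, (Φ k).varLeaves ≤ s)
    (hlim : ∀ d, Tendsto (fun k => MvPolynomial.coeff d (f k)) atTop
      (𝓝 (MvPolynomial.coeff d (SQ.permPoly m)))) :
    m ^ 4 ≤ 256 * Nat.log 2 m * s :=
  FQ.total hm s Φ f hΦ hs hlim

end Pool.Agent.Work.MP_35c45d_lc.OldFormulaQuartic
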