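import Pool.Agent.Work.MP_35c45d_lc.SFDiag

/-! The permanent is not a sum of few determinants, of any sizes, in which the diagonal variables
are read rarely. -/

set_option autoImplicit false

namespace Pool.Agent.Work.MP_35c45d_lc.OldReadROnce

open Filter Topology

/-- Let `m ≥ 1`, `M` and a real number `r ≥ 1` be given. Assume that for every complex `m × m`
matrix `X` the polynomial `perm (X + diag (z₁, …, zₘ))` in `z₁, …, zₘ` is a pointwise limit of
sums of `M` determinants of matrices `P + z₁ Q₁ + ⋯ + zₘ Qₘ` with complex matrices `P`, `Qᵢ` of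
any sizes and with `rank Q₁ + ⋯ + rank Qₘ ≤ r m`. Then
`m ≤ 10 ^ 10 * (r * (1 + log r)) ^ 2 * log (M + 1)`. -/
theorem result (m M : ℕ) (hm : 1 ≤ m) (r : ℝ) (hr : 1 ≤ r)
    (h : ∀ X : Matrix (Fin m) (Fin m) ℂ, ∃ (N : ℕ → Fin M → ℕ)
      (P : (s : ℕ) → (t : Fin M) → Matrix (Fin (N s t)) (Fin (N s t)) ℂ)
      (Q : (s : ℕ) → (t : Fin M) → Fin m → Matrix (Fin (N s t)) (Fin (N s t)) ℂ),
      (∀ s t, ((∑ i, (Q s t i).rank : ℕ) : ℝ) ≤ r * m) ∧
      ∀ z : Fin m → ℂ, Tendsto (fun s => ∑ t, (P s t + ∑ i, z i • Q s t i).det) atTop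
        (𝓝 (X + Matrix.diagonal z).permanent)) :
    (m : ℝ) ≤ 10 ^ 10 * (r * (1 + Real.log r)) ^ 2 * Real.log (M + 1) :=
  Pool.Agent.Work.MP_35c45d_lc.SF.diag_main m M hm r hr (fun k D _ _ hkD =>
    Pool.Agent.Work.MP_35c45d_lc.SF.esf_diag (by omega) (by
      have : k * (2 * (2 * D) - D) = k * (3 * D) := by congr 1; omega
      omega)) h

end Pool.Agent.Work.MP_35c45d_lc.OldReadROnce
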