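import Pool.Agent.Work.MP_35c45d_lc.TorusMain

set_option autoImplicit false

namespace Pool.Agent.Work.MP_35c45d_lc.OldTorusEquivariant

open Pool.Agent.Work.MP_35c45d_lc.Torus
open Filter Topology

/-- The torus-equivariant determinantal complexity of the `m × m` permanent, and its border
version, are exactly `2 ^ m - 1` for `m ≥ 3`; one generic torus element suffices for the lower
bound, which holds for every polynomial having all permutation monomials that is not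
determinant-like. -/
theorem result (m : ℕ) (hm : 3 ≤ m) :
    (∀ (n : ℕ) (A : PMat m n) (d e : Fin m → ℂ), IsRep A → Generic d e → EquivariantAt A d e →
      2 ^ m - 1 ≤ n) ∧
    (∃ A : PMat m (2 ^ m - 1), IsRep A ∧
      ∀ d e : Fin m → ℂ, (∀ i, d i ≠ 0) → (∀ j, e j ≠ 0) → EquivariantAt A d e) ∧
    (∀ (n : ℕ) (A : ℕ → PMat m n) (d e : ℕ → Fin m → ℂ),
      (∀ k, Affine (A k) ∧ Generic (d k) (e k) ∧ EquivariantAt (A k) (d k) (e k)) →
      (∀ σ : Equiv.Perm (Fin m),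
        Tendsto (fun k => (A k).det.coeff (monPerm σ)) atTop (𝓝 1)) →
      m * (2 ^ m - 2) ≤ n * (n - 1) ∧
        ((∀ k, ((∏ i, d k i) * ∏ j, e k j) ^ 2 ≠ 1) → 2 ^ m - 1 ≤ n)) ∧
    (∀ (n : ℕ) (A : PMat m n) (d e : Fin m → ℂ), Affine A → Generic d e →
      EquivariantAt A d e → (∀ σ : Equiv.Perm (Fin m), A.det.coeff (monPerm σ) ≠ 0) →
      2 ^ m - 1 ≤ n ∨
      (A.det.coeff 0 ≠ 0 ∧ ((∏ i, d i) * ∏ j, e j) ^ 2 = 1 ∧
        m * (2 ^ m - 2) ≤ n * (n - 1)) ∨
      ∃ a : Fin m → Fin m → ℂ, ∀ σ : Equiv.Perm (Fin m),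
        A.det.coeff (monPerm σ) = ((Equiv.Perm.sign σ : ℤ) : ℂ) * ∏ i, a i (σ i)) ∧
    (∃ d e : Fin m → ℂ, Generic d e ∧ (∏ i, d i) * ∏ j, e j = 1) ∧
    (∃ d e : Fin m → ℂ, Generic d e ∧ ((∏ i, d i) * ∏ j, e j) ^ 2 ≠ 1) :=
  ⟨fun _ A d e hA hg he => lower_perm hm A hA d e hg he,
    attained m (by omega),
    fun _ A d e h1 h2 => lower_border hm A d e h1 h2,
    fun _ A d e hA hg he hc => lower_general hm A hA d e hg he hc,
    exists_generic_one m (by omega),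
    exists_generic_ne m (by omega)⟩

end Pool.Agent.Work.MP_35c45d_lc.OldTorusEquivariant
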