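import Mathlib
import Pool.Agent.Work.MP_35c45d_lc.PEPerm
import Pool.Agent.Work.MP_35c45d_lc.PENewton
import Pool.Agent.Work.MP_35c45d_lc.PEParts

set_option linter.unusedSectionVars false
set_option linter.unusedFintypeInType false

namespace Pool.MP_35c45d_lc.PermEq2
open Matrix MvPolynomial Pool.MP_35c45d_lc.PermEq

section idx

variable {b m : ℕ}

/-- row/column positions -/
abbrev Pos (b m : ℕ) := Ps (Fin b) (Fin (m - 6 * b))

/-- enumeration of the positions of one group -/
def enum1 (b : ℕ) : Fin b × ZMod 3 ≃ Fin (b * 3) :=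
  (Equiv.prodCongr (Equiv.refl _) z3).trans finProdFinEquiv

theorem enum1_val (x : Fin b × ZMod 3) : (enum1 b x : ℕ) = (z3 x.2 : ℕ) + 3 * x.1 := by
  simp [enum1, finProdFinEquiv]

/-- enumeration of all positions -/
def idx (h : 6 * b ≤ m) : Pos b m ≃ Fin m :=
  ((Equiv.sumCongr ((Equiv.sumCongr (enum1 b) (enum1 b)).trans finSumFinEquiv)
    (Equiv.refl _)).trans finSumFinEquiv).trans (finCongr (by omega))

theorem idx_inl_inl (h : 6 * b ≤ m) (x : Fin b × ZMod 3) :
    (idx h (Sum.inl (Sum.inl x)) : ℕ) = (z3 x.2 : ℕ) + 3 * x.1 := by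
  simp [idx, enum1_val]

theorem idx_inl_inr (h : 6 * b ≤ m) (x : Fin b × ZMod 3) :
    (idx h (Sum.inl (Sum.inr x)) : ℕ) = b * 3 + ((z3 x.2 : ℕ) + 3 * x.1) := by
  simp [idx, enum1_val]
  ring

theorem idx_inr (h : 6 * b ≤ m) (z : Fin (m - 6 * b)) :
    (idx h (Sum.inr z) : ℕ) = b * 3 + b * 3 + z := by
  simp [idx]

/-- the block permutation of the positions -/
def posPerm (m : ℕ) (f g : Fin b → Equiv.Perm (ZMod 3)) (θ : Equiv.Perm (Fin (m - 6 * b))) :
    Equiv.Perm (Pos b m) :=
  Equiv.sumCongr (Equiv.sumCongr (bp f) (bp g)) θ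

/-- the induced permutation of the indices -/
def bigPerm (h : 6 * b ≤ m) (f g : Fin b → Equiv.Perm (ZMod 3))
    (θ : Equiv.Perm (Fin (m - 6 * b))) : Equiv.Perm (Fin m) :=
  ((idx h).symm.trans (posPerm m f g θ)).trans (idx h)

theorem bigPerm_apply (h : 6 * b ≤ m) (f g : Fin b → Equiv.Perm (ZMod 3))
    (θ : Equiv.Perm (Fin (m - 6 * b))) (s : Pos b m) :
    bigPerm h f g θ (idx h s) = idx h (posPerm m f g θ s) := by
  simp [bigPerm]

theorem sign_bigPerm (h : 6 * b ≤ m) (f g : Fin b → Equiv.Perm (ZMod 3))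
    (θ : Equiv.Perm (Fin (m - 6 * b))) :
    Equiv.Perm.sign (bigPerm h f g θ)
      = Equiv.Perm.sign (Equiv.sumCongr (bp f) (bp g)) * Equiv.Perm.sign θ := by
  rw [bigPerm, Equiv.Perm.sign_symm_trans_trans]
  exact Equiv.Perm.sign_sumCongr _ _

/-- `π` is even, maps each of the triples `{3k, 3k+1, 3k+2}` with `k < t` to itself and fixes
every index `≥ 3t`. -/
def EvenTriplePerm (m t : ℕ) (π : Equiv.Perm (Fin m)) : Prop :=
  Equiv.Perm.sign π = 1 ∧ (∀ i, (π i : ℕ) / 3 = (i : ℕ) / 3) ∧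
    ∀ i : Fin m, 3 * t ≤ (i : ℕ) → π i = i

theorem exists_bigPerm (h : 6 * b ≤ m) (f g : Fin b → Equiv.Perm (ZMod 3)) (t : ℕ)
    (ht : 2 * b + 1 ≤ t) (htm : 3 * t ≤ m) :
    ∃ θ : Equiv.Perm (Fin (m - 6 * b)), EvenTriplePerm m t (bigPerm h f g θ) := by
  have hz0 : 0 < m - 6 * b := by omega
  have hz1 : 1 < m - 6 * b := by omega
  -- a permutation of the last block of given sign
  have key : ∃ θ : Equiv.Perm (Fin (m - 6 * b)),
      Equiv.Perm.sign (Equiv.sumCongr (bp f) (bp g)) * Equiv.Perm.sign θ = 1 ∧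
      (∀ z : Fin (m - 6 * b), (b * 3 + b * 3 + (θ z : ℕ)) / 3 = (b * 3 + b * 3 + (z : ℕ)) / 3) ∧
      ∀ z : Fin (m - 6 * b), 3 ≤ (z : ℕ) → θ z = z := by
    rcases Int.units_eq_one_or (Equiv.Perm.sign (Equiv.sumCongr (bp f) (bp g))) with hs | hs
    · exact ⟨1, by rw [hs]; simp, fun z => rfl, fun z _ => rfl⟩
    · refine ⟨Equiv.swap ⟨0, hz0⟩ ⟨1, hz1⟩, ?_, ?_, ?_⟩
      · rw [hs, Equiv.Perm.sign_swap (by simp)]; rfl
      · intro z
        rw [Equiv.swap_apply_def]
        split_ifs with h1 h2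
        · subst h1; simp; omega
        · subst h2; simp; omega
        · rfl
      · intro z hz
        rw [Equiv.swap_apply_def]
        split_ifs with h1 h2
        · subst h1; simp at hz
        · subst h2; simp at hz
        · rfl
  obtain ⟨θ, hθ1, hθ2, hθ3⟩ := key
  refine ⟨θ, ?_, ?_, ?_⟩
  · rw [sign_bigPerm, hθ1]
  · intro i
    obtain ⟨s, rfl⟩ := (idx h).surjective i
    rw [bigPerm_apply]
    rcases s with (x | x) | z
    · have e : posPerm m f g θ (Sum.inl (Sum.inl x)) = Sum.inl (Sum.inl (bp f x)) := rfl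
      rw [e, idx_inl_inl, idx_inl_inl]
      have h1 : (bp f x).1 = x.1 := rfl
      rw [h1]
      have h2 := (z3 (bp f x).2).isLt
      have h3 := (z3 x.2).isLt
      omega
    · have e : posPerm m f g θ (Sum.inl (Sum.inr x)) = Sum.inl (Sum.inr (bp g x)) := rfl
      rw [e, idx_inl_inr, idx_inl_inr]
      have h1 : (bp g x).1 = x.1 := rfl
      rw [h1]
      have h2 := (z3 (bp g x).2).isLt
      have h3 := (z3 x.2).isLt
      omega
    · have e : posPerm m f g θ (Sum.inr z) = Sum.inr (θ z) := rfl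
      rw [e, idx_inr, idx_inr]
      exact hθ2 z
  · intro i hi
    obtain ⟨s, rfl⟩ := (idx h).surjective i
    rw [bigPerm_apply]
    rcases s with (x | x) | z
    · exfalso
      rw [idx_inl_inl] at hi
      have h3 := (z3 x.2).isLt
      have h4 := x.1.isLt
      omega
    · exfalso
      rw [idx_inl_inr] at hi
      have h3 := (z3 x.2).isLt
      have h4 := x.1.isLt
      omega
    · have e : posPerm m f g θ (Sum.inr z) = Sum.inr (θ z) := rfl
      rw [e, hθ3 z (by rw [idx_inr] at hi; omega)]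

theorem ent_posPerm (Z : Matrix (Fin b × ZMod 3) (Fin b × ZMod 3) ℂ)
    (f g : Fin b → Equiv.Perm (ZMod 3)) (θ : Equiv.Perm (Fin (m - 6 * b))) (s s' : Pos b m) :
    ent Z (posPerm m f g θ s) (posPerm m f g θ s') = ent (Z.submatrix (bp f) (bp g)) s s' := by
  rcases s with (s | s) | s <;> rcases s' with (s' | s') | s' <;> rfl

end idx

section eval

variable {b m : ℕ}

/-- evaluation at `B` plus a formal combination of the test matrices -/
noncomputable def evb (h : 6 * b ≤ m) (B : Fin m × Fin m → ℂ) (Z : Fam (Fin b)) :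
    MvPolynomial (Fin m × Fin m) ℂ →ₐ[ℂ] MvPolynomial (Fin 3 × Fin b) ℂ :=
  aeval fun q => C (B q) + ∑ e, X e * C (ent (Z e) ((idx h).symm q.1) ((idx h).symm q.2))

theorem evb_X (h : 6 * b ≤ m) (B : Fin m × Fin m → ℂ) (Z : Fam (Fin b)) (q : Fin m × Fin m) :
    evb h B Z (X q)
      = C (B q) + ∑ e, X e * C (ent (Z e) ((idx h).symm q.1) ((idx h).symm q.2)) := by
  rw [evb, aeval_X]

theorem ind_empty {E : Type*} [Fintype E] [DecidableEq E] : ind (∅ : Finset E) = 0 := by
  ext e; simp [ind_apply]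

theorem cf_empty_evb (h : 6 * b ≤ m) (B : Fin m × Fin m → ℂ) (Z : Fam (Fin b))
    (f : MvPolynomial (Fin m × Fin m) ℂ) : cf ∅ (evb h B Z f) = eval B f := by
  have h1 : cf ∅ (evb h B Z f) = ((constantCoeff).comp (evb h B Z).toRingHom) f := by
    rw [cf_apply, ind_empty]
    rfl
  rw [h1]
  have h2 : (constantCoeff).comp (evb h B Z).toRingHom = eval B := by
    apply MvPolynomial.ringHom_ext
    · intro r
      simp [evb]
    · intro q
      have h3 : (evb h B Z).toRingHom (X q) = evb h B Z (X q) := rfl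
      rw [RingHom.comp_apply, h3]
      simp only [evb_X, map_add, map_sum, map_mul,
        constantCoeff_X, zero_mul, Finset.sum_const_zero, add_zero, constantCoeff_C, eval_X]
  rw [h2]

theorem coeff_scale {E : Type*} [Fintype E] [DecidableEq E] (c : E → ℂ) (g : MvPolynomial E ℂ)
    (T : Finset E) :
    cf T (aeval (fun e => c e • (X e : MvPolynomial E ℂ)) g) = (∏ e ∈ T, c e) * cf T g := by
  induction g using MvPolynomial.induction_on' with
  | monomial d a =>
    rw [aeval_monomial]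
    have h1 : (d.prod fun e k => (c e • (X e : MvPolynomial E ℂ)) ^ k)
        = (d.prod fun e k => c e ^ k) • monomial d 1 := by
      rw [← MvPolynomial.prod_X_pow_eq_monomial]
      simp only [Finsupp.prod, smul_pow]
      rw [Finset.prod_smul]
    rw [h1, mul_smul_comm, show (algebraMap ℂ (MvPolynomial E ℂ)) a = C a from rfl,
      C_mul_monomial, mul_one, map_smul, smul_eq_mul]
    simp only [cf_apply, coeff_monomial]
    split_ifs with h2
    · congr 1
      subst h2
      rw [Finsupp.prod_fintype _ _ (fun _ => pow_zero _)]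
      rw [← Finset.prod_subset (Finset.subset_univ T)]
      · refine Finset.prod_congr rfl fun e he => ?_
        rw [ind_apply, if_pos he, pow_one]
      · intro e _ he
        rw [ind_apply, if_neg he, pow_zero]
    · rw [mul_zero, mul_zero]
  | add p q hp hq => rw [map_add, map_add, map_add, hp, hq, mul_add]

theorem ent_smul {ι ζ : Type*} (c : ℂ) (Z : Matrix (ι × ZMod 3) (ι × ZMod 3) ℂ) (s s' : Ps ι ζ) :
    ent (c • Z) s s' = c * ent Z s s' := by
  rcases s with (s | s) | s <;> rcases s' with (s' | s') | s' <;> simp [ent]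

theorem evb_smul (h : 6 * b ≤ m) (B : Fin m × Fin m → ℂ) (Z : Fam (Fin b))
    (c : Fin 3 × Fin b → ℂ) (f : MvPolynomial (Fin m × Fin m) ℂ) :
    evb h B (fun e => c e • Z e) f
      = aeval (fun e => c e • (X e : MvPolynomial (Fin 3 × Fin b) ℂ)) (evb h B Z f) := by
  have h1 : evb h B (fun e => c e • Z e)
      = (aeval (fun e => c e • (X e : MvPolynomial (Fin 3 × Fin b) ℂ))).comp (evb h B Z) := by
    apply MvPolynomial.algHom_ext
    intro q
    rw [AlgHom.comp_apply, evb_X, evb_X, map_add, map_sum]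
    congr 1
    · rw [← algebraMap_eq, AlgHom.commutes]
    · refine Finset.sum_congr rfl fun e _ => ?_
      rw [map_mul, aeval_X, ← algebraMap_eq, AlgHom.commutes, ent_smul, algebraMap_eq, C_mul,
        smul_eq_C_mul]
      ring
  rw [h1]; rfl

theorem cf_evb_smul (h : 6 * b ≤ m) (B : Fin m × Fin m → ℂ) (Z : Fam (Fin b))
    (c : Fin 3 × Fin b → ℂ) (f : MvPolynomial (Fin m × Fin m) ℂ) (T : Finset (Fin 3 × Fin b)) :
    cf T (evb h B (fun e => c e • Z e) f) = (∏ e ∈ T, c e) * cf T (evb h B Z f) := by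
  rw [evb_smul, coeff_scale]

theorem evb_rename (h : 6 * b ≤ m) (B : Fin m × Fin m → ℂ) (Z : Fam (Fin b))
    (f g : Fin b → Equiv.Perm (ZMod 3)) (θ : Equiv.Perm (Fin (m - 6 * b)))
    (hB : ∀ i j, B (bigPerm h f g θ i, bigPerm h f g θ j) = B (i, j))
    (p : MvPolynomial (Fin m × Fin m) ℂ) :
    evb h B Z (rename (fun q => (bigPerm h f g θ q.1, bigPerm h f g θ q.2)) p)
      = evb h B (fun e => (Z e).submatrix (bp f) (bp g)) p := by
  have h1 : (evb h B Z).comp (rename (fun q => (bigPerm h f g θ q.1, bigPerm h f g θ q.2)))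
      = evb h B (fun e => (Z e).submatrix (bp f) (bp g)) := by
    apply MvPolynomial.algHom_ext
    intro q
    rw [AlgHom.comp_apply, rename_X, evb_X, evb_X, hB]
    congr 1
    refine Finset.sum_congr rfl fun e _ => ?_
    congr 2
    have e1 : (idx h).symm (bigPerm h f g θ q.1) = posPerm m f g θ ((idx h).symm q.1) := by
      rw [Equiv.symm_apply_eq, ← bigPerm_apply, Equiv.apply_symm_apply]
    have e2 : (idx h).symm (bigPerm h f g θ q.2) = posPerm m f g θ ((idx h).symm q.2) := by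
      rw [Equiv.symm_apply_eq, ← bigPerm_apply, Equiv.apply_symm_apply]
    simp only [e1, e2]
    exact ent_posPerm _ _ _ _ _ _
  rw [← h1]; rfl

theorem totalDegree_evb_X (h : 6 * b ≤ m) (B : Fin m × Fin m → ℂ) (Z : Fam (Fin b))
    (q : Fin m × Fin m) :
    (C (B q) + ∑ e, X e * C (ent (Z e) ((idx h).symm q.1) ((idx h).symm q.2)) :
      MvPolynomial (Fin 3 × Fin b) ℂ).totalDegree ≤ 1 := by
  refine (totalDegree_add _ _).trans (max_le (by simp) ?_)
  refine (totalDegree_finsetSum _ _).trans (Finset.sup_le fun e _ => ?_)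
  refine (totalDegree_mul _ _).trans ?_
  simp

theorem totalDegree_evb (h : 6 * b ≤ m) (B : Fin m × Fin m → ℂ) (Z : Fam (Fin b))
    (p : MvPolynomial (Fin m × Fin m) ℂ) : (evb h B Z p).totalDegree ≤ p.totalDegree := by
  rw [evb, aeval_def, eval₂_eq]
  refine (totalDegree_finsetSum _ _).trans (Finset.sup_le fun d hd => ?_)
  refine (totalDegree_mul _ _).trans ?_
  have h0 : (algebraMap ℂ (MvPolynomial (Fin 3 × Fin b) ℂ) (coeff d p)).totalDegree = 0 := by
    rw [algebraMap_eq, totalDegree_C]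
  rw [h0, zero_add]
  refine (totalDegree_finsetProd _ _).trans ?_
  refine le_trans ?_ (le_totalDegree hd)
  refine Finset.sum_le_sum fun q _ => ?_
  refine (totalDegree_pow _ _).trans ?_
  calc d q * _ ≤ d q * 1 := Nat.mul_le_mul_left _ (totalDegree_evb_X h B Z q)
    _ = d q := mul_one _

theorem cf_evb_eq_zero (h : 6 * b ≤ m) (B : Fin m × Fin m → ℂ) (Z : Fam (Fin b))
    (p : MvPolynomial (Fin m × Fin m) ℂ) (D : ℕ) (hp : p.totalDegree ≤ D)
    (T : Finset (Fin 3 × Fin b)) (hT : D < T.card) : cf T (evb h B Z p) = 0 := by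
  rw [cf_apply]
  apply coeff_eq_zero_of_totalDegree_lt
  have h1 : (ind T).support = T := by
    ext e
    rw [Finsupp.mem_support_iff, ind_apply]
    split_ifs with h <;> simp [h]
  rw [h1]
  have h2 : ∑ e ∈ T, ind T e = T.card := by
    rw [Finset.card_eq_sum_ones]
    refine Finset.sum_congr rfl fun e he => ?_
    rw [ind_apply, if_pos he]
  rw [h2]
  exact lt_of_le_of_lt ((totalDegree_evb h B Z p).trans hp) hT

end eval

end Pool.MP_35c45d_lc.PermEq2
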