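import Mathlib

namespace Pool.MP_35c45d_lc.PermEq
open Finset Nat

theorem exists_perm_map {ι : Type*} [Fintype ι] [DecidableEq ι] (G G' : Finset ι)
    (h : G.card = G'.card) : ∃ π : Equiv.Perm ι, ∀ x, π x ∈ G' ↔ x ∈ G := by
  have e : {x // x ∈ G} ≃ {x // x ∈ G'} := Fintype.equivOfCardEq (by simpa using h)
  refine ⟨e.extendSubtype, fun x => ⟨fun hx => ?_, fun hx => e.extendSubtype_mem x hx⟩⟩
  by_contra hx'
  exact e.extendSubtype_not_mem x hx' hx

/-- permutations mapping `F` onto `G` -/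
def cnt {ι : Type*} [Fintype ι] [DecidableEq ι] (F G : Finset ι) : ℕ :=
  (univ.filter fun τ : Equiv.Perm ι => ∀ i, τ i ∈ G ↔ i ∈ F).card

theorem choose_mul_cnt_le {ι : Type*} [Fintype ι] [DecidableEq ι] (F G : Finset ι) :
    (Fintype.card ι).choose F.card * cnt F G ≤ (Fintype.card ι)! := by
  by_cases hc : F.card = G.card
  · have h1 : ∀ G' ∈ powersetCard F.card (univ : Finset ι), cnt F G ≤ cnt F G' := by
      intro G' hG'
      obtain ⟨π, hπ⟩ := exists_perm_map G G' (by rw [← hc, (mem_powersetCard.mp hG').2])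
      unfold cnt
      apply card_le_card_of_injOn (fun τ => τ.trans π)
      · intro τ hτ
        simp only [coe_filter, mem_univ, true_and, Set.mem_ofPred_eq] at hτ ⊢
        intro i
        rw [Equiv.trans_apply, hπ]
        exact hτ i
      · intro τ _ τ' _ h
        ext x
        have := congrArg (fun f : Equiv.Perm ι => π.symm (f x)) h
        simpa using this
    have h2 : ∑ G' ∈ powersetCard F.card (univ : Finset ι), cnt F G' ≤ (Fintype.card ι)! := by
      rw [← Fintype.card_perm, ← Finset.card_univ]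
      unfold cnt
      rw [← Finset.card_biUnion]
      · exact Finset.card_le_card (Finset.subset_univ _)
      · intro G₁ _ G₂ _ hne
        rw [Function.onFun, Finset.disjoint_left]
        intro τ h1 h2
        simp only [mem_filter, mem_univ, true_and] at h1 h2
        apply hne
        ext x
        have a1 := h1 (τ.symm x)
        have a2 := h2 (τ.symm x)
        rw [Equiv.apply_symm_apply] at a1 a2
        rw [a1, a2]
    calc (Fintype.card ι).choose F.card * cnt F G
        = ∑ _G' ∈ powersetCard F.card (univ : Finset ι), cnt F G := by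
          rw [Finset.sum_const, Finset.card_powersetCard, Finset.card_univ, smul_eq_mul]
      _ ≤ ∑ G' ∈ powersetCard F.card (univ : Finset ι), cnt F G' := sum_le_sum h1
      _ ≤ _ := h2
  · have : cnt F G = 0 := by
      unfold cnt
      rw [Finset.card_eq_zero, Finset.filter_eq_empty_iff]
      intro τ _ h
      apply hc
      have : F.map τ.toEmbedding = G := by
        ext x
        rw [mem_map_equiv, ← h, Equiv.apply_symm_apply]
      rw [← this, card_map]
    rw [this, mul_zero]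
    exact Nat.zero_le _

theorem choose_lower (u s : ℕ) (hs : s ≤ u) :
    4 ^ s * (10 * u).choose (5 * u) ≤ 5 ^ s * (10 * u).choose (5 * u - s) := by
  have h1 : 4 ^ s * (5 * u + 1).ascFactorial s ≤ 5 ^ s * (5 * u - s + 1).ascFactorial s := by
    rw [ascFactorial_eq_prod_range, ascFactorial_eq_prod_range]
    have e1 : (4 : ℕ) ^ s = ∏ _i ∈ range s, 4 := by simp
    have e2 : (5 : ℕ) ^ s = ∏ _i ∈ range s, 5 := by simp
    rw [e1, e2, ← prod_mul_distrib, ← prod_mul_distrib]
    apply prod_le_prod'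
    intro i _
    omega
  have h2 : (5 * u - s)! * (5 * u - s + 1).ascFactorial s = (5 * u)! := by
    rw [factorial_mul_ascFactorial]
    congr 1
    omega
  have h3 : (5 * u)! * (5 * u + 1).ascFactorial s = (5 * u + s)! := factorial_mul_ascFactorial _ _
  have h4 : (10 * u).choose (5 * u) * (5 * u)! * (5 * u)! = (10 * u)! := by
    have := choose_mul_factorial_mul_factorial (show 5 * u ≤ 10 * u by omega)
    rwa [show 10 * u - 5 * u = 5 * u by omega] at this
  have h5 : (10 * u).choose (5 * u - s) * (5 * u - s)! * (5 * u + s)! = (10 * u)! := by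
    have := choose_mul_factorial_mul_factorial (show 5 * u - s ≤ 10 * u by omega)
    rwa [show 10 * u - (5 * u - s) = 5 * u + s by omega] at this
  have hpos : 0 < (5 * u)! * (5 * u)! := Nat.mul_pos (factorial_pos _) (factorial_pos _)
  apply Nat.le_of_mul_le_mul_right _ hpos
  calc 4 ^ s * (10 * u).choose (5 * u) * ((5 * u)! * (5 * u)!)
      = 4 ^ s * ((10 * u).choose (5 * u) * (5 * u)! * (5 * u)!) := by ring
    _ = 4 ^ s * ((10 * u).choose (5 * u - s) * (5 * u - s)! * (5 * u + s)!) := by rw [h4, h5]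
    _ = (10 * u).choose (5 * u - s) * (5 * u - s)! * (5 * u)! *
          (4 ^ s * (5 * u + 1).ascFactorial s) := by rw [← h3]; ring
    _ ≤ (10 * u).choose (5 * u - s) * (5 * u - s)! * (5 * u)! *
          (5 ^ s * (5 * u - s + 1).ascFactorial s) := Nat.mul_le_mul_left _ h1
    _ = 5 ^ s * (10 * u).choose (5 * u - s) * ((5 * u)! *
          ((5 * u - s)! * (5 * u - s + 1).ascFactorial s)) := by ring
    _ = _ := by rw [h2]

/-- lower bound for binomials near the middle -/
theorem choose_lower' (u a : ℕ) (hu : 1 ≤ u) (h1 : 4 * u ≤ a) (h2 : a ≤ 6 * u) :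
    (4 : ℝ) ^ (5 * u) * (4 / 5) ^ u / (5 * u) ≤ (10 * u).choose a := by
  obtain ⟨s, hs, hsa⟩ : ∃ s, s ≤ u ∧ (10 * u).choose a = (10 * u).choose (5 * u - s) := by
    by_cases h : a ≤ 5 * u
    · exact ⟨5 * u - a, by omega, by congr 1; omega⟩
    · refine ⟨a - 5 * u, by omega, ?_⟩
      rw [← choose_symm (by omega)]
      congr 1
      omega
  rw [hsa]
  have h3 := choose_lower u s hs
  have h3' : (4 : ℝ) ^ s * (10 * u).choose (5 * u) ≤ 5 ^ s * (10 * u).choose (5 * u - s) := by
    exact_mod_cast h3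
  have h4 : 4 ^ (5 * u) < 5 * u * centralBinom (5 * u) :=
    four_pow_lt_mul_centralBinom (5 * u) (by omega)
  have h4' : (4 : ℝ) ^ (5 * u) ≤ 5 * u * (10 * u).choose (5 * u) := by
    rw [centralBinom, show 2 * (5 * u) = 10 * u by ring] at h4
    exact_mod_cast h4.le
  have hu' : (0 : ℝ) < 5 * u := by positivity
  rw [div_le_iff₀ hu']
  have h5 : ((4 : ℝ) / 5) ^ u ≤ (4 / 5) ^ s := pow_le_pow_of_le_one (by norm_num) (by norm_num) hs
  calc (4 : ℝ) ^ (5 * u) * (4 / 5) ^ u ≤ (5 * u * (10 * u).choose (5 * u)) * (4 / 5) ^ s := by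
        gcongr
    _ = 5 * u * (((4 : ℝ) ^ s * (10 * u).choose (5 * u)) / 5 ^ s) := by rw [div_pow]; ring
    _ ≤ 5 * u * ((5 ^ s * (10 * u).choose (5 * u - s)) / 5 ^ s) := by gcongr
    _ = _ := by field_simp

/-- mixed patterns -/
def Mix (p : Fin 3 → Bool) : Prop := ∃ k k' : Fin 3, p k = true ∧ p k' = false

instance : DecidablePred Mix := fun p => by unfold Mix; infer_instance

theorem sum_patterns : ∑ p : Fin 3 → Bool, (if Mix p then (1 / 50 : ℝ) else 1) = 53 / 25 := by
  rw [Finset.sum_ite, Finset.sum_const, Finset.sum_const]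
  have h1 : (univ.filter fun p : Fin 3 → Bool => Mix p).card = 6 := by decide
  have h2 : (univ.filter fun p : Fin 3 → Bool => ¬ Mix p).card = 2 := by decide
  rw [h1, h2]
  norm_num

/-- number of mixed positions -/
def mc {b : ℕ} (f : Fin b → (Fin 3 → Bool)) : ℕ := (univ.filter fun i => Mix (f i)).card

theorem sum_mc (b : ℕ) :
    ∑ f : Fin b → (Fin 3 → Bool), (1 / 50 : ℝ) ^ mc f = (53 / 25) ^ b := by
  rw [← sum_patterns, Fintype.sum_pow]
  refine Finset.sum_congr rfl fun f _ => ?_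
  rw [Finset.prod_ite, Finset.prod_const, Finset.prod_const_one, mul_one, mc]

theorem card_filter_mul_le {T : Type*} (S : Finset T) (w : T → ℕ) (u : ℕ) :
    ((S.filter fun q => w q ≤ u).card : ℝ) * (1 / 50) ^ u ≤ ∑ q ∈ S, (1 / 50 : ℝ) ^ (w q) := by
  rw [← nsmul_eq_mul, ← Finset.sum_const]
  refine le_trans (Finset.sum_le_sum (g := fun q => (1 / 50 : ℝ) ^ (w q)) ?_)
    (Finset.sum_le_sum_of_subset_of_nonneg (Finset.filter_subset _ _) ?_)
  · intro q hq
    exact pow_le_pow_of_le_one (by norm_num) (by norm_num) (Finset.mem_filter.mp hq).2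
  · intro q _ _
    positivity

theorem card_mc_le (b u : ℕ) :
    (((univ ×ˢ univ : Finset ((Fin b → (Fin 3 → Bool)) × (Fin b → (Fin 3 → Bool)))).filter
      fun q => mc q.1 + mc q.2 ≤ u).card : ℝ) ≤ 50 ^ u * (53 / 25) ^ (2 * b) := by
  have h1 : ∑ q ∈ (univ ×ˢ univ : Finset ((Fin b → (Fin 3 → Bool)) × (Fin b → (Fin 3 → Bool)))),
      (1 / 50 : ℝ) ^ (mc q.1 + mc q.2) = (53 / 25) ^ (2 * b) := by
    rw [Finset.sum_product, two_mul, pow_add, ← sum_mc b, Finset.sum_mul_sum]
    refine Finset.sum_congr rfl fun f _ => Finset.sum_congr rfl fun g _ => ?_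
    rw [pow_add]
  have h2 := card_filter_mul_le
    (univ ×ˢ univ : Finset ((Fin b → (Fin 3 → Bool)) × (Fin b → (Fin 3 → Bool))))
    (fun q => mc q.1 + mc q.2) u
  rw [h1] at h2
  have h3 : (0 : ℝ) < (1 / 50) ^ u := by positivity
  rw [← le_div_iff₀ h3] at h2
  refine h2.trans (le_of_eq ?_)
  rw [one_div, inv_pow, div_inv_eq_mul, mul_comm]

theorem numeric (u : ℕ) (hu : 10 ≤ u) :
    (50 : ℝ) ^ u * (53 / 25) ^ (2 * (10 * u)) < ((4 : ℝ) ^ (5 * u) * (4 / 5) ^ u / (5 * u)) ^ 3 := by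
  have h1 : (125 : ℝ) * u ^ 3 < (13 / 4) ^ u := by
    induction u, hu using Nat.le_induction with
    | base => norm_num
    | succ u hu ih =>
      have hu' : (10 : ℝ) ≤ u := by exact_mod_cast hu
      have h5 : ((u : ℝ) + 1) ^ 3 ≤ ((11 / 10) * u) ^ 3 :=
        pow_le_pow_left₀ (by positivity) (by linarith) 3
      have h6 : (0 : ℝ) ≤ (u : ℝ) ^ 3 := by positivity
      rw [mul_pow] at h5
      push_cast
      rw [pow_succ (13 / 4 : ℝ) u]
      linarith
  have h2 : (50 : ℝ) * (53 / 25) ^ 20 * (13 / 4) ≤ 4 ^ 15 * (4 / 5) ^ 3 := by norm_num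
  have h3 : ((50 : ℝ) * (53 / 25) ^ 20) ^ u * (13 / 4) ^ u ≤ (4 ^ 15 * (4 / 5) ^ 3) ^ u := by
    rw [← mul_pow]
    exact pow_le_pow_left₀ (by positivity) h2 u
  have e1 : (50 : ℝ) ^ u * (53 / 25) ^ (2 * (10 * u)) = ((50 : ℝ) * (53 / 25) ^ 20) ^ u := by
    rw [mul_pow, ← pow_mul]; ring_nf
  have e2 : ((4 : ℝ) ^ (5 * u) * (4 / 5) ^ u / (5 * u)) ^ 3
      = (4 ^ 15 * (4 / 5) ^ 3) ^ u / (125 * u ^ 3) := by
    rw [div_pow, mul_pow, mul_pow, mul_pow, ← pow_mul, ← pow_mul, ← pow_mul, ← pow_mul]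
    ring_nf
  rw [e1, e2, lt_div_iff₀ (by positivity)]
  calc ((50 : ℝ) * (53 / 25) ^ 20) ^ u * (125 * u ^ 3)
      < ((50 : ℝ) * (53 / 25) ^ 20) ^ u * (13 / 4) ^ u := by gcongr
    _ ≤ _ := h3

end Pool.MP_35c45d_lc.PermEq
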