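import Mathlib
import Pool.Agent.Work.MP_35c45d_lc.PELabels
import Pool.Agent.Work.MP_35c45d_lc.PEGraph1

namespace Pool.MP_35c45d_lc.PermEq2
open Finset Pool.MP_35c45d_lc.PermEq

/-- pattern of an edge set at the rows -/
def patR {b : ℕ} (A : Finset (Fin 3 × Fin b)) : Fin b → (Fin 3 → Bool) :=
  fun i k => decide ((k, i) ∈ A)

/-- pattern of an edge set at the columns -/
def patC {b : ℕ} (σ : Fin 3 → Equiv.Perm (Fin b)) (A : Finset (Fin 3 × Fin b)) :
    Fin b → (Fin 3 → Bool) :=
  fun j k => decide ((k, (σ k).symm j) ∈ A)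

theorem card_bdry {b : ℕ} (σ : Fin 3 → Equiv.Perm (Fin b)) (A : Finset (Fin 3 × Fin b)) :
    (bdry σ A).card = mc (patR A) + mc (patC σ A) := by
  unfold bdry
  rw [Finset.card_disjSum]
  unfold mc
  congr 1
  · congr 1
    ext i
    simp [Mix, patR]
  · congr 1
    ext j
    simp [Mix, patC]

/-- the fibre of a pattern -/
def fib {b : ℕ} (f : Fin b → (Fin 3 → Bool)) (k : Fin 3) : Finset (Fin b) :=
  univ.filter fun i => f i k = true

theorem fib_card_le {b : ℕ} (f : Fin b → (Fin 3 → Bool)) (k k' : Fin 3) :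
    (fib f k).card ≤ (fib f k').card + mc f := by
  unfold mc
  refine (Finset.card_le_card ?_).trans (Finset.card_union_le _ _)
  intro i hi
  simp only [fib, mem_union, mem_filter, mem_univ, true_and] at hi ⊢
  by_cases h : f i k' = true
  · exact Or.inl h
  · right
    exact ⟨k, k', hi, by simpa using h⟩

theorem sum_fib {b : ℕ} (A : Finset (Fin 3 × Fin b)) :
    ∑ k, (fib (patR A) k).card = A.card := by
  have h1 : A.card = ∑ e : Fin 3 × Fin b, if e ∈ A then 1 else 0 := by
    rw [← Finset.card_filter]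
    congr 1
    ext e
    simp
  rw [h1, Fintype.sum_prod_type]
  refine Finset.sum_congr rfl fun k _ => ?_
  unfold fib
  rw [Finset.card_filter]
  refine Finset.sum_congr rfl fun i _ => ?_
  simp [patR]

/-- the set of bad patterns -/
def Bad (u : ℕ) : Finset ((Fin (10 * u) → (Fin 3 → Bool)) × (Fin (10 * u) → (Fin 3 → Bool))) :=
  (univ ×ˢ univ : Finset ((Fin (10 * u) → (Fin 3 → Bool)) × (Fin (10 * u) → (Fin 3 → Bool)))).filter
    fun q => mc q.1 + mc q.2 ≤ u ∧ ∀ k, 4 * u ≤ (fib q.1 k).card ∧ (fib q.1 k).card ≤ 6 * u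

theorem card_Bad_le (u : ℕ) : ((Bad u).card : ℝ) ≤ 50 ^ u * (53 / 25) ^ (2 * (10 * u)) := by
  refine le_trans ?_ (card_mc_le (10 * u) u)
  have h : Bad u ⊆ (univ ×ˢ univ : Finset ((Fin (10 * u) → (Fin 3 → Bool)) ×
      (Fin (10 * u) → (Fin 3 → Bool)))).filter fun q => mc q.1 + mc q.2 ≤ u := by
    intro q hq
    rw [Bad, Finset.mem_filter] at hq
    rw [Finset.mem_filter]
    exact ⟨hq.1, hq.2.1⟩
  exact_mod_cast Finset.card_le_card h

theorem exists_expander (u : ℕ) (hu : 10 ≤ u) :
    ∃ σ : Fin 3 → Equiv.Perm (Fin (10 * u)), Expands σ (15 * u) u u := by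
  by_contra hcon
  simp only [Expands] at hcon
  push Not at hcon
  let W : (Fin (10 * u) → (Fin 3 → Bool)) × (Fin (10 * u) → (Fin 3 → Bool)) →
      Finset (Fin 3 → Equiv.Perm (Fin (10 * u))) := fun q =>
    Fintype.piFinset fun k => univ.filter fun τ : Equiv.Perm (Fin (10 * u)) =>
      ∀ i, τ i ∈ fib q.2 k ↔ i ∈ fib q.1 k
  have hcov : (univ : Finset (Fin 3 → Equiv.Perm (Fin (10 * u)))) ⊆ (Bad u).biUnion W := by
    intro σ _
    obtain ⟨A, hA, hA', hb⟩ := hcon σ
    rw [card_bdry] at hb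
    rw [mem_biUnion]
    refine ⟨(patR A, patC σ A), ?_, ?_⟩
    · simp only [Bad, mem_filter, mem_product, mem_univ, true_and]
      refine ⟨hb.le, fun k => ?_⟩
      have hs := sum_fib A
      rw [Fin.sum_univ_three] at hs
      have h01 := fib_card_le (patR A) 0 1
      have h02 := fib_card_le (patR A) 0 2
      have h10 := fib_card_le (patR A) 1 0
      have h12 := fib_card_le (patR A) 1 2
      have h20 := fib_card_le (patR A) 2 0
      have h21 := fib_card_le (patR A) 2 1
      fin_cases k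
      · simp only [Fin.zero_eta]; omega
      · simp only [Fin.mk_one]; omega
      · simp only [Fin.reduceFinMk]; omega
    · simp only [W, Fintype.mem_piFinset, mem_filter, mem_univ, true_and]
      intro k i
      simp [fib, patR, patC]
  have hcard := Finset.card_le_card hcov
  have hcard2 := hcard.trans (Finset.card_biUnion_le)
  have hu0 : 1 ≤ u := by omega
  set c0 : ℝ := (4 : ℝ) ^ (5 * u) * (4 / 5) ^ u / (5 * u) with hc0
  have hc0pos : 0 < c0 := by
    have : (0 : ℝ) < u := by exact_mod_cast hu0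
    rw [hc0]; positivity
  set B : ℝ := ((10 * u).factorial : ℝ) with hB
  have hBpos : 0 < B := by rw [hB]; exact_mod_cast Nat.factorial_pos _
  have hW : ∀ q ∈ Bad u, ((W q).card : ℝ) ≤ (B / c0) ^ 3 := by
    intro q hq
    simp only [Bad, mem_filter, mem_product, mem_univ, true_and] at hq
    have h1 : (W q).card = ∏ k, cnt (fib q.1 k) (fib q.2 k) := by
      simp only [W, Fintype.card_piFinset, cnt]
      refine Finset.prod_congr rfl fun k _ => ?_
      congr
    have h2 : ∀ k, (cnt (fib q.1 k) (fib q.2 k) : ℝ) ≤ B / c0 := by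
      intro k
      have h3 := choose_mul_cnt_le (fib q.1 k) (fib q.2 k)
      rw [Fintype.card_fin] at h3
      have h4 := choose_lower' u (fib q.1 k).card hu0 (hq.2 k).1 (hq.2 k).2
      rw [le_div_iff₀ hc0pos]
      calc (cnt (fib q.1 k) (fib q.2 k) : ℝ) * c0
          ≤ cnt (fib q.1 k) (fib q.2 k) * ((10 * u).choose (fib q.1 k).card : ℕ) := by
            gcongr
        _ ≤ B := by
            rw [mul_comm, hB]
            exact_mod_cast h3
    rw [h1]
    push_cast
    calc ∏ k, (cnt (fib q.1 k) (fib q.2 k) : ℝ) ≤ ∏ _k : Fin 3, (B / c0) :=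
          Finset.prod_le_prod (fun _ _ => by positivity) (fun k _ => h2 k)
      _ = (B / c0) ^ 3 := by rw [Finset.prod_const, Finset.card_univ, Fintype.card_fin]
  have hreal : B ^ 3 ≤ (Bad u).card * (B / c0) ^ 3 := by
    have h1 : ((univ : Finset (Fin 3 → Equiv.Perm (Fin (10 * u)))).card : ℝ) = B ^ 3 := by
      rw [Finset.card_univ, Fintype.card_fun, Fintype.card_perm, Fintype.card_fin, Fintype.card_fin]
      push_cast
      rfl
    have h2 : ((univ : Finset (Fin 3 → Equiv.Perm (Fin (10 * u)))).card : ℝ)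
        ≤ ∑ q ∈ Bad u, ((W q).card : ℝ) := by exact_mod_cast hcard2
    rw [← h1]
    refine h2.trans ?_
    rw [← nsmul_eq_mul, ← Finset.sum_const]
    exact Finset.sum_le_sum hW
  have hfin : ((Bad u).card : ℝ) < c0 ^ 3 := lt_of_le_of_lt (card_Bad_le u) (numeric u hu)
  rw [div_pow, mul_div_assoc', le_div_iff₀ (by positivity)] at hreal
  have hB3 : 0 < B ^ 3 := by positivity
  have : B ^ 3 * c0 ^ 3 ≤ (Bad u).card * B ^ 3 := hreal
  nlinarith [mul_lt_mul_of_pos_right hfin hB3]

end Pool.MP_35c45d_lc.PermEq2
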