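import Mathlib
import Pool.Agent.Work.MP_35c45d_lc.PEEval
import Pool.Agent.Work.MP_35c45d_lc.PEGraph2

set_option linter.unusedSectionVars false
set_option linter.unusedFintypeInType false

namespace Pool.MP_35c45d_lc.PermEq2
open Matrix MvPolynomial Pool.MP_35c45d_lc.PermEq

/-- Permuting the rows and the columns of the matrix of variables simultaneously by `π` changes
the matrix of polynomials `A` only by an equivalence `Y ↦ G Y H` or `Y ↦ G Yᵀ H` with invertible
constant `G`, `H`. -/
def Respects {m n : ℕ} (A : Matrix (Fin n) (Fin n) (MvPolynomial (Fin m × Fin m) ℂ))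
    (π : Equiv.Perm (Fin m)) : Prop :=
  ∃ G H : Matrix (Fin n) (Fin n) ℂ, G.det ≠ 0 ∧ H.det ≠ 0 ∧
    (A.map (rename fun q => (π q.1, π q.2)) = G.map C * A * H.map C ∨
     A.map (rename fun q => (π q.1, π q.2)) = G.map C * Aᵀ * H.map C)

section cf

variable {n : Type*} [Fintype n] [DecidableEq n] {E : Type*} [Fintype E] [DecidableEq E]

theorem cfM_C_mul (T : Finset E) (G : Matrix n n ℂ) (N : Matrix n n (MvPolynomial E ℂ)) :
    cfM T (G.map C * N) = G * cfM T N := by
  ext i j
  rw [cfM, map_apply, mul_apply, mul_apply, map_sum]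
  refine Finset.sum_congr rfl fun k _ => ?_
  rw [map_apply, cf_apply, coeff_C_mul]
  rfl

theorem cfM_mul_C (T : Finset E) (G : Matrix n n ℂ) (N : Matrix n n (MvPolynomial E ℂ)) :
    cfM T (N * G.map C) = cfM T N * G := by
  ext i j
  rw [cfM, map_apply, mul_apply, mul_apply, map_sum]
  refine Finset.sum_congr rfl fun k _ => ?_
  rw [map_apply, cf_apply, mul_comm, coeff_C_mul, mul_comm]
  rfl

theorem cfM_sub (T : Finset E) (N N' : Matrix n n (MvPolynomial E ℂ)) :
    cfM T (N - N') = cfM T N - cfM T N' := by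
  ext i j
  simp [cfM]

end cf

section main

variable {b m n : ℕ} (h : 6 * b ≤ m) (B : Fin m × Fin m → ℂ)
  (A : Matrix (Fin n) (Fin n) (MvPolynomial (Fin m × Fin m) ℂ))

/-- coefficient matrices -/
noncomputable def WW (T : Finset (Fin 3 × Fin b)) (Z : Fam (Fin b)) : Matrix (Fin n) (Fin n) ℂ :=
  cfM T (A.map (evb h B Z))

/-- value at the base point -/
noncomputable def KB : Matrix (Fin n) (Fin n) ℂ := A.map (eval B)

/-- normalised matrix -/
noncomputable def NN (Z : Fam (Fin b)) : Matrix (Fin n) (Fin n) (MvPolynomial (Fin 3 × Fin b) ℂ) :=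
  (KB B A)⁻¹.map C * A.map (evb h B Z) - 1

/-- coefficients of the normalised matrix -/
noncomputable def Nc (T : Finset (Fin 3 × Fin b)) (Z : Fam (Fin b)) : Matrix (Fin n) (Fin n) ℂ :=
  cfM T (NN h B A Z)

theorem Nc_eq (T : Finset (Fin 3 × Fin b)) (Z : Fam (Fin b)) :
    Nc h B A T Z = (KB B A)⁻¹ * WW h B A T Z - if T = ∅ then 1 else 0 := by
  rw [Nc, NN, cfM_sub, cfM_C_mul, cfM_one, WW]

theorem WW_empty (Z : Fam (Fin b)) : WW h B A ∅ Z = KB B A := by
  ext i j
  rw [WW, cfM, map_apply, map_apply, cf_empty_evb, KB, map_apply]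

theorem WW_smul (T : Finset (Fin 3 × Fin b)) (Z : Fam (Fin b)) (c : Fin 3 × Fin b → ℂ) :
    WW h B A T (fun e => c e • Z e) = (∏ e ∈ T, c e) • WW h B A T Z := by
  ext i j
  rw [WW, cfM, map_apply, map_apply, cf_evb_smul, Matrix.smul_apply, smul_eq_mul]
  rfl

theorem sys_Nc (hK : (KB B A).det ≠ 0) (t D : ℕ) (ht : 2 * b + 1 ≤ t) (htm : 3 * t ≤ m)
    (hdeg : ∀ i j, (A i j).totalDegree ≤ D)
    (hB : ∀ π, EvenTriplePerm m t π → ∀ i j, B (π i, π j) = B (i, j))
    (hsym : ∀ π, EvenTriplePerm m t π → Respects A π) : Sys D (Nc h B A) := by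
  have hu : IsUnit (KB B A).det := IsUnit.mk0 _ hK
  refine ⟨?_, ?_, ?_⟩
  · intro T Z c
    rw [Nc_eq, Nc_eq, WW_smul, smul_sub, mul_smul_comm]
    congr 1
    split_ifs with hT
    · subst hT; simp
    · rw [smul_zero]
  · intro f g
    obtain ⟨θ, hθ⟩ := exists_bigPerm h f g t ht htm
    obtain ⟨G, H, hG, hH, h1⟩ := hsym _ hθ
    have hren : ∀ Z, A.map (evb h B (fun e => (Z e).submatrix (bp f) (bp g)))
        = (A.map (rename fun q => (bigPerm h f g θ q.1, bigPerm h f g θ q.2))).map
            (evb h B Z) := by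
      intro Z
      ext i j : 1
      rw [map_apply, map_apply, map_apply, evb_rename h B Z f g θ (hB _ hθ)]
    have hC : ∀ (Z : Fam (Fin b)) (M : Matrix (Fin n) (Fin n) ℂ),
        (M.map C : Matrix _ _ (MvPolynomial (Fin m × Fin m) ℂ)).map (evb h B Z) = M.map C := by
      intro Z M
      ext i j : 1
      rw [map_apply, map_apply, map_apply]
      exact (evb h B Z).commutes _
    rcases h1 with h1 | h1
    · have hW : ∀ T Z, WW h B A T (fun e => (Z e).submatrix (bp f) (bp g))
          = G * WW h B A T Z * H := by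
        intro T Z
        rw [WW, hren, h1, Matrix.map_mul, Matrix.map_mul, hC, hC, mul_assoc, cfM_C_mul,
          cfM_mul_C, WW, mul_assoc]
      have e0 : KB B A = G * KB B A * H := by
        have := hW ∅ 0
        rwa [WW_empty, WW_empty] at this
      have e2 : (KB B A)⁻¹ * G * KB B A * H = 1 := by
        rw [mul_assoc, mul_assoc, ← mul_assoc G, ← e0, Matrix.nonsing_inv_mul _ hu]
      refine ⟨(KB B A)⁻¹ * G * KB B A, H, e2, mul_eq_one_comm.mp e2, Or.inl fun T Z => ?_⟩
      rw [Nc_eq, Nc_eq, hW, mul_sub, sub_mul]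
      congr 1
      · have e3 : KB B A * (KB B A)⁻¹ = 1 := Matrix.mul_nonsing_inv _ hu
        calc (KB B A)⁻¹ * (G * WW h B A T Z * H)
            = (KB B A)⁻¹ * G * 1 * WW h B A T Z * H := by simp only [mul_assoc, one_mul]
          _ = (KB B A)⁻¹ * G * (KB B A * (KB B A)⁻¹) * WW h B A T Z * H := by rw [e3]
          _ = _ := by simp only [mul_assoc]
      · split_ifs with hT
        · rw [mul_one, e2]
        · rw [mul_zero, zero_mul]
    · have hW : ∀ T Z, WW h B A T (fun e => (Z e).submatrix (bp f) (bp g))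
          = G * (WW h B A T Z)ᵀ * H := by
        intro T Z
        rw [WW, hren, h1, Matrix.map_mul, Matrix.map_mul, hC, hC, mul_assoc, cfM_C_mul,
          cfM_mul_C, transpose_map, cfM_transpose, WW, mul_assoc]
      have e0 : KB B A = G * (KB B A)ᵀ * H := by
        have := hW ∅ 0
        rwa [WW_empty, WW_empty] at this
      have e2 : (KB B A)⁻¹ * G * ((KB B A)ᵀ * H) = 1 := by
        rw [mul_assoc, ← mul_assoc G, ← e0, Matrix.nonsing_inv_mul _ hu]
      refine ⟨(KB B A)⁻¹ * G, (KB B A)ᵀ * H, e2, mul_eq_one_comm.mp e2, Or.inr fun T Z => ?_⟩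
      rw [Nc_eq, Nc_eq, hW, transpose_sub, transpose_mul, mul_sub, sub_mul]
      congr 1
      · have e3 : ((KB B A)⁻¹)ᵀ * (KB B A)ᵀ = 1 := by
          rw [← transpose_mul, Matrix.mul_nonsing_inv _ hu, transpose_one]
        calc (KB B A)⁻¹ * (G * (WW h B A T Z)ᵀ * H)
            = (KB B A)⁻¹ * G * (WW h B A T Z)ᵀ * 1 * H := by simp only [mul_assoc, mul_one]
          _ = (KB B A)⁻¹ * G * (WW h B A T Z)ᵀ * (((KB B A)⁻¹)ᵀ * (KB B A)ᵀ) * H := by rw [e3]
          _ = _ := by simp only [mul_assoc]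
      · split_ifs with hT
        · rw [transpose_one, mul_one, e2]
        · rw [transpose_zero, mul_zero, zero_mul]
  · intro T Z hT
    rw [Nc_eq]
    have h1 : T ≠ ∅ := by
      rintro rfl
      simp at hT
    have h2 : WW h B A T Z = 0 := by
      ext i j
      rw [WW, cfM, map_apply, map_apply, cf_evb_eq_zero h B Z _ D (hdeg i j) T hT]
      rfl
    rw [if_neg h1, h2, mul_zero, sub_zero]

theorem det_eq (hK : (KB B A).det ≠ 0) (Z : Fam (Fin b)) :
    evb h B Z A.det = C (KB B A).det * (1 + NN h B A Z).det := by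
  have hu : IsUnit (KB B A).det := IsUnit.mk0 _ hK
  have h1 : evb h B Z A.det = (A.map (evb h B Z)).det := by
    rw [← AlgHom.coe_toRingHom, RingHom.map_det]
    rfl
  have h2 : A.map (evb h B Z) = (KB B A).map C * (1 + NN h B A Z) := by
    rw [NN, add_sub_cancel, ← mul_assoc, ← Matrix.map_mul, Matrix.mul_nonsing_inv _ hu,
      Matrix.map_one C C_0 C_1, one_mul]
  rw [h1, h2, det_mul]
  congr 1
  exact (RingHom.map_det (C : ℂ →+* MvPolynomial (Fin 3 × Fin b) ℂ) (KB B A)).symm

/-- the vanishing theorem at a nonsingular base point -/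
theorem cf_det_eq_zero (hK : (KB B A).det ≠ 0) (t D : ℕ) (ht : 2 * b + 1 ≤ t) (htm : 3 * t ≤ m)
    (hdeg : ∀ i j, (A i j).totalDegree ≤ D)
    (hB : ∀ π, EvenTriplePerm m t π → ∀ i j, B (π i, π j) = B (i, j))
    (hsym : ∀ π, EvenTriplePerm m t π → Respects A π) (hn : 1 ≤ n)
    (σ : Fin 3 → Equiv.Perm (Fin b)) (k s : ℕ) (hk : k ≤ 3 * b) (hexp : Expands σ k D s)
    (hcard : 2 * n ^ 2 < 2 ^ s) :
    cf Finset.univ (evb h B (Yl σ (labV σ ∅)) A.det) = 0 := by
  have : Nonempty (Fin n) := ⟨⟨0, hn⟩⟩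
  have hsys := sys_Nc h B A hK t D ht htm hdeg hB hsym
  set Z := Yl σ (labV σ (∅ : Finset (Fin b ⊕ Fin b))) with hZ
  rw [det_eq h B A hK, ← smul_eq_C_mul, map_smul, smul_eq_mul]
  have h1 : ∀ x ∈ Submodule.span ℂ (traceProds (NN h B A Z)), cf Finset.univ x = 0 := by
    intro x hx
    induction hx using Submodule.span_induction with
    | mem x hx =>
      obtain ⟨L, rfl⟩ := hx
      have e1 := cf_prod_trace_pow Finset.univ (NN h B A Z) L
      have e2 := cf_prod_trace_pow Finset.univ (NN h B A Z)ᵀ L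
      have e3 : (L.map fun p => trace ((NN h B A Z)ᵀ ^ p)) = L.map fun p => trace (NN h B A Z ^ p) := by
        congr 1
        funext p
        rw [← transpose_pow, trace_transpose]
      rw [e3] at e2
      have e4 : (2 : ℂ) * cf Finset.univ ((L.map fun p => trace (NN h B A Z ^ p)).prod) = 0 := by
        rw [two_mul]
        nth_rewrite 1 [e1]
        rw [e2, ← psum_add, ← psum_zero (A := ℂ) L.sum (Finset.univ : Finset (Fin 3 × Fin b))]
        refine psum_congr _ _ _ _ fun l hl hp => ?_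
        have e5 := Phi_eq_zero' hsys σ k s (by
          rw [Fintype.card_prod, Fintype.card_fin, Fintype.card_fin]; exact hk) hexp
          (by rwa [Fintype.card_fin]) L l hl hp
        rw [Phi] at e5
        rw [← e5]
        rfl
      simpa using e4
    | zero => rw [map_zero]
    | add x y _ _ hx hy => rw [map_add, hx, hy, add_zero]
    | smul c x _ hx => rw [map_smul, hx, smul_zero]
  rw [h1 _ (det_one_add_mem_span _), mul_zero]

end main

end Pool.MP_35c45d_lc.PermEq2
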