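import Mathlib
import Pool.Agent.Work.MP_35c45d_lc.PEVan

set_option linter.unusedSectionVars false
set_option linter.unusedFintypeInType false

namespace Pool.MP_35c45d_lc.PermEq2
open Matrix MvPolynomial Filter Topology Pool.MP_35c45d_lc.PermEq

section base

variable {b m n : ℕ} (h : 6 * b ≤ m)

/-- point on the line from the all ones matrix to `X₀` -/
noncomputable def lineB (X₀ : Fin m × Fin m → ℂ) (ε : ℂ) : Fin m × Fin m → ℂ :=
  fun q => 1 + ε * (X₀ q - 1)

/-- evaluation on the line -/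
noncomputable def lineE (X₀ : Fin m × Fin m → ℂ) :
    MvPolynomial (Fin m × Fin m) ℂ →ₐ[ℂ] Polynomial ℂ :=
  aeval fun q => 1 + Polynomial.X * (Polynomial.C (X₀ q) - 1)

theorem lineE_eval (X₀ : Fin m × Fin m → ℂ) (f : MvPolynomial (Fin m × Fin m) ℂ) (ε : ℂ) :
    (lineE X₀ f).eval ε = eval (lineB X₀ ε) f := by
  have h1 : (Polynomial.evalRingHom ε).comp (lineE X₀).toRingHom = eval (lineB X₀ ε) := by
    apply MvPolynomial.ringHom_ext
    · intro r
      have : (lineE X₀).toRingHom (C r) = Polynomial.C r := (lineE X₀).commutes r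
      rw [RingHom.comp_apply, this]
      simp
    · intro q
      have : (lineE X₀).toRingHom (X q) = 1 + Polynomial.X * (Polynomial.C (X₀ q) - 1) := by
        change lineE X₀ (X q) = _
        rw [lineE, aeval_X]
      rw [RingHom.comp_apply, this]
      simp [lineB]
  rw [← h1]
  rfl

/-- formal evaluation with polynomial coefficients -/
noncomputable def evP (X₀ : Fin m × Fin m → ℂ) (Z : Fam (Fin b)) :
    MvPolynomial (Fin m × Fin m) ℂ →ₐ[ℂ] MvPolynomial (Fin 3 × Fin b) (Polynomial ℂ) :=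
  aeval fun q => C (1 + Polynomial.X * (Polynomial.C (X₀ q) - 1))
    + ∑ e, X e * C (Polynomial.C (ent (Z e) ((idx h).symm q.1) ((idx h).symm q.2)))

theorem evP_map (X₀ : Fin m × Fin m → ℂ) (Z : Fam (Fin b))
    (f : MvPolynomial (Fin m × Fin m) ℂ) (ε : ℂ) :
    MvPolynomial.map (Polynomial.evalRingHom ε) (evP h X₀ Z f) = evb h (lineB X₀ ε) Z f := by
  have h1 : (MvPolynomial.map (Polynomial.evalRingHom ε)).comp (evP h X₀ Z).toRingHom
      = (evb h (lineB X₀ ε) Z).toRingHom := by
    apply MvPolynomial.ringHom_ext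
    · intro r
      have e1 : (evP h X₀ Z).toRingHom (C r) = C (Polynomial.C r) := (evP h X₀ Z).commutes r
      have e2 : (evb h (lineB X₀ ε) Z).toRingHom (C r) = C r := (evb h (lineB X₀ ε) Z).commutes r
      rw [RingHom.comp_apply, e1, e2]
      simp
    · intro q
      have e1 : (evP h X₀ Z).toRingHom (X q) = C (1 + Polynomial.X * (Polynomial.C (X₀ q) - 1))
          + ∑ e, X e * C (Polynomial.C (ent (Z e) ((idx h).symm q.1) ((idx h).symm q.2))) := by
        change evP h X₀ Z (X q) = _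
        rw [evP, aeval_X]
      have e2 : (evb h (lineB X₀ ε) Z).toRingHom (X q) = C (lineB X₀ ε q)
          + ∑ e, X e * C (ent (Z e) ((idx h).symm q.1) ((idx h).symm q.2)) := by
        change evb h (lineB X₀ ε) Z (X q) = _
        rw [evb_X]
      rw [RingHom.comp_apply, e1, e2]
      simp only [map_add, map_sum, map_mul, map_X, map_C, Polynomial.coe_evalRingHom,
        Polynomial.eval_C]
      congr 2
      simp [lineB]
  have h2 := congrArg (fun φ : _ →+* _ => φ f) h1
  exact h2

theorem cf_det_eq_zero' (A : Matrix (Fin n) (Fin n) (MvPolynomial (Fin m × Fin m) ℂ))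
    (X₀ : Fin m × Fin m → ℂ) (hK : (A.map (eval X₀)).det ≠ 0) (t D : ℕ)
    (ht : 2 * b + 1 ≤ t) (htm : 3 * t ≤ m)
    (hdeg : ∀ i j, (A i j).totalDegree ≤ D)
    (hX₀ : ∀ π, EvenTriplePerm m t π → ∀ i j, X₀ (π i, π j) = X₀ (i, j))
    (hsym : ∀ π, EvenTriplePerm m t π → Respects A π) (hn : 1 ≤ n)
    (σ : Fin 3 → Equiv.Perm (Fin b)) (k s : ℕ) (hk : k ≤ 3 * b) (hexp : Expands σ k D s)
    (hcard : 2 * n ^ 2 < 2 ^ s) :
    cf Finset.univ (evb h (fun _ => 1) (Yl σ (labV σ ∅)) A.det) = 0 := by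
  set Z := Yl σ (labV σ (∅ : Finset (Fin b ⊕ Fin b))) with hZ
  set P : Polynomial ℂ := coeff (ind Finset.univ) (evP h X₀ Z A.det) with hP
  set p : Polynomial ℂ := lineE X₀ A.det with hp
  have hPe : ∀ ε, P.eval ε = cf Finset.univ (evb h (lineB X₀ ε) Z A.det) := by
    intro ε
    rw [← evP_map, cf_apply, coeff_map]
    rfl
  have hpe : ∀ ε, p.eval ε = (KB (lineB X₀ ε) A).det := by
    intro ε
    rw [hp, lineE_eval, KB, RingHom.map_det]
    rfl
  have h1 : P * p = 0 := by
    apply Polynomial.funext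
    intro ε
    rw [Polynomial.eval_mul, Polynomial.eval_zero, mul_eq_zero]
    by_cases h0 : p.eval ε = 0
    · exact Or.inr h0
    · left
      rw [hPe]
      rw [hpe] at h0
      refine cf_det_eq_zero h (lineB X₀ ε) A h0 t D ht htm hdeg ?_ hsym hn σ k s hk hexp hcard
      intro π hπ i j
      rw [lineB, lineB, hX₀ π hπ]
  have h2 : p ≠ 0 := by
    intro h0
    have h3 := hpe 1
    rw [h0, Polynomial.eval_zero] at h3
    apply hK
    have h4 : lineB X₀ 1 = X₀ := by funext q; simp [lineB]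
    rw [h3, KB, h4]
  have h3 : P = 0 := (mul_eq_zero.mp h1).resolve_right h2
  have h4 := hPe 0
  rw [h3, Polynomial.eval_zero] at h4
  have h5 : lineB X₀ 0 = fun _ => 1 := by funext q; simp [lineB]
  rw [h4, h5]

end base

section limit

/-- a linear functional is continuous along coefficientwise limits of bounded degree -/
theorem tendsto_functional {q : Type*} [Fintype q] [DecidableEq q]
    (ℓ : MvPolynomial q ℂ →ₗ[ℂ] ℂ) (f : ℕ → MvPolynomial q ℂ) (g : MvPolynomial q ℂ) (M : ℕ)
    (hM : ∀ k, (f k).totalDegree ≤ M)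
    (hlim : ∀ d, Tendsto (fun k => coeff d (f k)) atTop (𝓝 (coeff d g))) :
    Tendsto (fun k => ℓ (f k)) atTop (𝓝 (ℓ g)) := by
  classical
  obtain ⟨S, hS⟩ : ∃ S : Finset (q →₀ ℕ), ∀ d, (∑ i, d i) ≤ max M g.totalDegree → d ∈ S := by
    refine ⟨Finset.Iic (Finsupp.equivFunOnFinite.symm fun _ => max M g.totalDegree), ?_⟩
    intro d hd
    rw [Finset.mem_Iic]
    intro i
    rw [Finsupp.equivFunOnFinite_symm_apply_apply]
    exact (Finset.single_le_sum (fun _ _ => Nat.zero_le _) (Finset.mem_univ i)).trans hd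
  have hexp : ∀ p : MvPolynomial q ℂ, p.totalDegree ≤ max M g.totalDegree →
      ℓ p = ∑ d ∈ S, coeff d p * ℓ (monomial d 1) := by
    intro p hp
    have h1 : p = ∑ d ∈ S, coeff d p • monomial d (1 : ℂ) := by
      conv_lhs => rw [p.as_sum]
      rw [Finset.sum_subset (s₂ := S)]
      · refine Finset.sum_congr rfl fun d _ => ?_
        rw [smul_monomial, smul_eq_mul, mul_one]
      · intro d hd
        apply hS
        have h2 := le_totalDegree hd
        rw [Finsupp.sum_fintype _ _ (fun _ => rfl)] at h2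
        exact h2.trans hp
      · intro d _ hd
        rw [notMem_support_iff.mp hd, monomial_zero]
    conv_lhs => rw [h1]
    rw [map_sum]
    refine Finset.sum_congr rfl fun d _ => ?_
    rw [map_smul, smul_eq_mul]
  have h2 : ∀ k, ℓ (f k) = ∑ d ∈ S, coeff d (f k) * ℓ (monomial d 1) :=
    fun k => hexp _ ((hM k).trans (le_max_left _ _))
  simp only [h2]
  rw [hexp g (le_max_right _ _)]
  exact tendsto_finsetSum _ fun d _ => (hlim d).mul_const _

/-- the total degree of a determinant -/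
theorem totalDegree_det {n : ℕ} {q : Type*} (A : Matrix (Fin n) (Fin n) (MvPolynomial q ℂ)) (D : ℕ)
    (hD : ∀ i j, (A i j).totalDegree ≤ D) : A.det.totalDegree ≤ n * D := by
  rw [det_apply]
  refine (totalDegree_finsetSum _ _).trans (Finset.sup_le fun σ _ => ?_)
  have h1 : (Equiv.Perm.sign σ • ∏ i, A (σ i) i).totalDegree ≤ (∏ i, A (σ i) i).totalDegree := by
    rw [Units.smul_def]
    rcases Int.units_eq_one_or (Equiv.Perm.sign σ) with hs | hs
    · rw [hs]; simp
    · rw [hs]; simp
  refine h1.trans ((totalDegree_finsetProd _ _).trans ?_)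
  calc ∑ i, (A (σ i) i).totalDegree ≤ ∑ _i : Fin n, D := Finset.sum_le_sum fun i _ => hD _ _
    _ = n * D := by simp

end limit

end Pool.MP_35c45d_lc.PermEq2
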