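import Mathlib

/-!
# A counting lemma: three random permutations have no small balanced edge cut

Edges are `(l, i) : Fin 3 × Fin (10 u)`; edge `(l,i)` joins the row vertex `i` with the column
vertex `σ l i`.  For a suitable `σ`, every set of exactly half of the edges leaves at least `u`
mixed vertices (vertices incident with an edge of the set and with an edge of its complement).
-/

namespace PEExpander

open Finset

/-- vectors of three booleans which are not constant -/
def Mixed (v : Fin 3 → Bool) : Prop := ∃ l l', v l ≠ v l'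

instance : DecidablePred Mixed := fun v => by unfold Mixed; infer_instance

/-- number of mixed vertices of a labelling -/
def mix {b : ℕ} (f : Fin b → (Fin 3 → Bool)) : ℕ := #{i | Mixed (f i)}

/-- number of edges of colour `l` in the set -/
def size {b : ℕ} (f : Fin b → (Fin 3 → Bool)) (l : Fin 3) : ℕ := #{i | f i l = true}

/-- weight -/
def wt (v : Fin 3 → Bool) : ℕ := if Mixed v then 1 else 64

lemma sum_wt : ∑ v : Fin 3 → Bool, wt v = 134 := by
  decide +kernel

lemma prod_wt {b : ℕ} (f : Fin b → (Fin 3 → Bool)) : ∏ i, wt (f i) = 64 ^ (b - mix f) := by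
  classical
  unfold wt
  rw [Finset.prod_ite]
  simp only [prod_const_one, one_mul, prod_const]
  congr 1
  have h := Finset.card_filter_add_card_filter_not (s := (univ : Finset (Fin b)))
    (fun i => Mixed (f i))
  simp only [card_univ, Fintype.card_fin] at h
  unfold mix
  omega

lemma sum_pow_mix (b : ℕ) : ∑ f : Fin b → (Fin 3 → Bool), 64 ^ (b - mix f) = 134 ^ b := by
  classical
  simp_rw [← prod_wt]
  have h := Finset.sum_prod_piFinset (ι := Fin b) (univ : Finset (Fin 3 → Bool))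
    (fun _ v => wt v)
  simp only [sum_wt, prod_const, card_univ, Fintype.card_fin] at h
  rw [← h]
  apply Finset.sum_congr _ (fun _ _ => rfl)
  ext f
  simp

lemma size_lower {b : ℕ} (f : Fin b → (Fin 3 → Bool)) (l : Fin 3) :
    ∑ l', size f l' ≤ 3 * size f l + 2 * mix f := by
  classical
  unfold size mix
  simp only [card_filter, mul_sum]
  rw [sum_comm, ← sum_add_distrib]
  apply sum_le_sum
  intro i _
  generalize f i = v
  revert v l
  decide +kernel

lemma size_upper {b : ℕ} (f : Fin b → (Fin 3 → Bool)) (l : Fin 3) :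
    3 * size f l ≤ ∑ l', size f l' + 2 * mix f := by
  classical
  unfold size mix
  simp only [card_filter, mul_sum]
  rw [sum_comm, ← sum_add_distrib]
  apply sum_le_sum
  intro i _
  generalize f i = v
  revert v l
  decide +kernel

lemma choose_lower (u : ℕ) (j : ℕ) (hj : 3 * j ≤ 2 * u) :
    13 ^ j * (10 * u).choose (5 * u) ≤ 17 ^ j * (10 * u).choose (5 * u - j) := by
  induction j with
  | zero => simp
  | succ j ih =>
    have ih' := ih (by omega)
    have h1 : (10 * u).choose (5 * u - j) * (5 * u - j) =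
        (10 * u).choose (5 * u - (j + 1)) * (5 * u + j + 1) := by
      have h := Nat.choose_succ_right_eq (10 * u) (5 * u - (j + 1))
      have e1 : 5 * u - (j + 1) + 1 = 5 * u - j := by omega
      have e2 : 10 * u - (5 * u - (j + 1)) = 5 * u + j + 1 := by omega
      rw [e1, e2] at h
      exact h
    have h2 : 13 * (5 * u + j + 1) ≤ 17 * (5 * u - j) := by omega
    have hpos : 0 < 5 * u + j + 1 := by omega
    have h3 : 13 * (10 * u).choose (5 * u - j) ≤ 17 * (10 * u).choose (5 * u - (j + 1)) := by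
      apply Nat.le_of_mul_le_mul_right _ hpos
      calc 13 * (10 * u).choose (5 * u - j) * (5 * u + j + 1)
          = (10 * u).choose (5 * u - j) * (13 * (5 * u + j + 1)) := by ring
        _ ≤ (10 * u).choose (5 * u - j) * (17 * (5 * u - j)) := Nat.mul_le_mul_left _ h2
        _ = 17 * ((10 * u).choose (5 * u - j) * (5 * u - j)) := by ring
        _ = 17 * ((10 * u).choose (5 * u - (j + 1)) * (5 * u + j + 1)) := by rw [h1]
        _ = 17 * (10 * u).choose (5 * u - (j + 1)) * (5 * u + j + 1) := by ring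
    calc 13 ^ (j + 1) * (10 * u).choose (5 * u)
        = 13 * (13 ^ j * (10 * u).choose (5 * u)) := by ring
      _ ≤ 13 * (17 ^ j * (10 * u).choose (5 * u - j)) := Nat.mul_le_mul_left _ ih'
      _ = 17 ^ j * (13 * (10 * u).choose (5 * u - j)) := by ring
      _ ≤ 17 ^ j * (17 * (10 * u).choose (5 * u - (j + 1))) := Nat.mul_le_mul_left _ h3
      _ = 17 ^ (j + 1) * (10 * u).choose (5 * u - (j + 1)) := by ring

/-- cubed version, to be multiplied over the three colours -/
lemma choose_cube (u s : ℕ) (h1 : 15 * u ≤ 3 * s + 2 * u) (h2 : 3 * s ≤ 15 * u + 2 * u) :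
    13 ^ (2 * u) * (10 * u).choose (5 * u) ^ 3 ≤ 17 ^ (2 * u) * (10 * u).choose s ^ 3 := by
  obtain ⟨j, hj, hs⟩ : ∃ j, 3 * j ≤ 2 * u ∧ (10 * u).choose s = (10 * u).choose (5 * u - j) := by
    rcases le_total s (5 * u) with h | h
    · exact ⟨5 * u - s, by omega, by congr 1; omega⟩
    · refine ⟨s - 5 * u, by omega, ?_⟩
      rw [← Nat.choose_symm (show s ≤ 10 * u by omega)]
      congr 1
      omega
  rw [hs]
  have h := choose_lower u j hj
  obtain ⟨r, hr⟩ : ∃ r, 2 * u = 3 * j + r := ⟨2 * u - 3 * j, by omega⟩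
  rw [hr, pow_add, pow_add, pow_mul', pow_mul']
  calc (13 ^ j) ^ 3 * 13 ^ r * (10 * u).choose (5 * u) ^ 3
      = 13 ^ r * (13 ^ j * (10 * u).choose (5 * u)) ^ 3 := by ring
    _ ≤ 17 ^ r * (17 ^ j * (10 * u).choose (5 * u - j)) ^ 3 := by gcongr; norm_num
    _ = (17 ^ j) ^ 3 * 17 ^ r * (10 * u).choose (5 * u - j) ^ 3 := by ring

lemma central_lower (u : ℕ) (hu : 0 < u) :
    4 ^ (5 * u) ≤ 5 * u * (10 * u).choose (5 * u) := by
  have h := Nat.four_pow_lt_mul_centralBinom (5 * u) (by omega)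
  rw [Nat.centralBinom_eq_two_mul_choose] at h
  have e : 2 * (5 * u) = 10 * u := by ring
  rw [e] at h
  exact h.le

/-- lower bound for the product of the three binomial coefficients -/
lemma prod_choose_lower (u : ℕ) (hu : 0 < u) (f : Fin (10 * u) → (Fin 3 → Bool))
    (hs : ∑ l, size f l = 15 * u) (hm : mix f ≤ u) :
    13 ^ (2 * u) * 4 ^ (15 * u) ≤
      17 ^ (2 * u) * (5 * u) ^ 3 * ∏ l, (10 * u).choose (size f l) := by
  have hc : ∀ l, 13 ^ (2 * u) * 4 ^ (15 * u) ≤
      17 ^ (2 * u) * (5 * u) ^ 3 * (10 * u).choose (size f l) ^ 3 := by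
    intro l
    have h := choose_cube u (size f l) (by have := size_lower f l; omega)
      (by have := size_upper f l; omega)
    have hc := central_lower u hu
    calc 13 ^ (2 * u) * 4 ^ (15 * u) = 13 ^ (2 * u) * (4 ^ (5 * u)) ^ 3 := by
          rw [← pow_mul]; congr 2; ring
      _ ≤ 13 ^ (2 * u) * (5 * u * (10 * u).choose (5 * u)) ^ 3 := by gcongr
      _ = (5 * u) ^ 3 * (13 ^ (2 * u) * (10 * u).choose (5 * u) ^ 3) := by ring
      _ ≤ (5 * u) ^ 3 * (17 ^ (2 * u) * (10 * u).choose (size f l) ^ 3) := by gcongr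
      _ = _ := by ring
  -- take cube roots by comparing cubes
  have h3 : (13 ^ (2 * u) * 4 ^ (15 * u)) ^ 3 ≤
      (17 ^ (2 * u) * (5 * u) ^ 3 * ∏ l, (10 * u).choose (size f l)) ^ 3 := by
    calc (13 ^ (2 * u) * 4 ^ (15 * u)) ^ 3 = ∏ _l : Fin 3, (13 ^ (2 * u) * 4 ^ (15 * u)) := by
          simp
      _ ≤ ∏ l : Fin 3, (17 ^ (2 * u) * (5 * u) ^ 3 * (10 * u).choose (size f l) ^ 3) :=
          Finset.prod_le_prod' (fun l _ => hc l)
      _ = _ := by
          rw [Finset.prod_mul_distrib, prod_const, Finset.prod_pow, card_univ, Fintype.card_fin]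
          ring
  exact (Nat.pow_le_pow_iff_left (by norm_num)).1 h3

/-- number of permutations carrying one indicator function to another -/
lemma card_perm_le {b : ℕ} (p q : Fin b → Bool) :
    #{τ : Equiv.Perm (Fin b) | ∀ i, q (τ i) = p i} ≤
      (#{i | p i = true}).factorial * (b - #{i | p i = true}).factorial := by
  classical
  by_cases h : ∃ τ : Equiv.Perm (Fin b), ∀ i, q (τ i) = p i
  · obtain ⟨τ₀, h0⟩ := h
    have h1 := DomMulAct.stabilizer_card p
    rw [Fintype.prod_bool] at h1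
    have h2 : Fintype.card {a // p a = false} = b - #{i | p i = true} := by
      rw [Fintype.card_subtype]
      have h := Finset.card_filter_add_card_filter_not (s := (univ : Finset (Fin b)))
        (fun i => p i = true)
      simp only [card_univ, Fintype.card_fin, Bool.not_eq_true] at h
      omega
    have h3 : Fintype.card {a // p a = true} = #{i | p i = true} := by
      rw [Fintype.card_subtype]
    rw [h2, h3] at h1
    rw [← h1, Fintype.card_subtype]
    apply Finset.card_le_card_of_injOn (fun τ => τ₀⁻¹ * τ)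
    · intro τ hτ
      simp only [coe_filter, mem_univ, true_and, Set.mem_ofPred_eq] at hτ ⊢
      funext i
      simp only [Function.comp_apply, Equiv.Perm.mul_apply]
      rw [← h0, ← hτ i]
      simp
    · intro τ _ τ' _ he
      exact mul_left_cancel he
  · push Not at h
    have : (#{τ : Equiv.Perm (Fin b) | ∀ i, q (τ i) = p i}) = 0 := by
      rw [Finset.card_eq_zero, Finset.filter_eq_empty_iff]
      intro τ _ hc
      obtain ⟨i, hi⟩ := h τ
      exact hi (hc i)
    omega

/-- the set of bad pairs of labellings -/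
noncomputable def Bad (u : ℕ) : Finset ((Fin (10 * u) → (Fin 3 → Bool)) ×
    (Fin (10 * u) → (Fin 3 → Bool))) :=
  univ.filter fun p => (∑ l, size p.1 l = 15 * u) ∧ mix p.1 + mix p.2 < u

lemma mix_le {b : ℕ} (f : Fin b → (Fin 3 → Bool)) : mix f ≤ b := by
  unfold mix
  exact (card_filter_le _ _).trans (by simp)

lemma card_bad (u : ℕ) : #(Bad u) * 64 ^ (19 * u + 1) ≤ 134 ^ (20 * u) := by
  classical
  have e : 134 ^ (20 * u) = (∑ f : Fin (10 * u) → (Fin 3 → Bool), 64 ^ (10 * u - mix f)) *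
      ∑ g : Fin (10 * u) → (Fin 3 → Bool), 64 ^ (10 * u - mix g) := by
    rw [sum_pow_mix, ← pow_add]
    congr 1
    ring
  rw [e, Finset.sum_mul_sum, ← Finset.sum_product', univ_product_univ]
  calc #(Bad u) * 64 ^ (19 * u + 1) = ∑ p ∈ Bad u, 64 ^ (19 * u + 1) := by
        rw [sum_const, smul_eq_mul]
    _ ≤ ∑ p ∈ Bad u, 64 ^ (10 * u - mix p.1) * 64 ^ (10 * u - mix p.2) := by
        apply sum_le_sum
        intro p hp
        rw [← pow_add]
        apply Nat.pow_le_pow_right (by norm_num)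
        simp only [Bad, mem_filter, mem_univ, true_and] at hp
        omega
    _ ≤ _ := Finset.sum_le_sum_of_subset (Finset.subset_univ _)

lemma numeric (u : ℕ) (hu : 4 ≤ u) :
    17 ^ (2 * u) * (5 * u) ^ 3 * 134 ^ (20 * u) <
      13 ^ (2 * u) * 4 ^ (15 * u) * 64 ^ (19 * u + 1) := by
  induction u, hu using Nat.le_induction with
  | base => norm_num
  | succ n hn ih =>
    have h1 : 17 ^ (2 * (n + 1)) * (5 * (n + 1)) ^ 3 * 134 ^ (20 * (n + 1)) =
        (17 ^ (2 * n) * 134 ^ (20 * n)) * ((17 ^ 2 * 134 ^ 20 * 5 ^ 3) * (n + 1) ^ 3) := by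
      rw [show 2 * (n + 1) = 2 * n + 2 by ring, show 20 * (n + 1) = 20 * n + 20 by ring,
        pow_add, pow_add]
      ring
    have h2 : 13 ^ (2 * (n + 1)) * 4 ^ (15 * (n + 1)) * 64 ^ (19 * (n + 1) + 1) =
        (13 ^ 2 * 4 ^ 15 * 64 ^ 19) * (13 ^ (2 * n) * 4 ^ (15 * n) * 64 ^ (19 * n + 1)) := by
      rw [show 2 * (n + 1) = 2 * n + 2 by ring, show 15 * (n + 1) = 15 * n + 15 by ring,
        show 19 * (n + 1) + 1 = (19 * n + 1) + 19 by ring, pow_add, pow_add, pow_add]
      ring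
    have h3 : (n + 1) ^ 3 * 64 ≤ n ^ 3 * 125 := by
      have : 4 * (n + 1) ≤ 5 * n := by omega
      calc (n + 1) ^ 3 * 64 = (4 * (n + 1)) ^ 3 := by ring
        _ ≤ (5 * n) ^ 3 := Nat.pow_le_pow_left this 3
        _ = n ^ 3 * 125 := by ring
    rw [h1, h2]
    have h4 : (17 ^ 2 * 134 ^ 20 * 5 ^ 3) * (n + 1) ^ 3 ≤
        (13 ^ 2 * 4 ^ 15 * 64 ^ 19) * (5 * n) ^ 3 := by
      have h5 : (17 ^ 2 * 134 ^ 20 : ℕ) * 125 ≤ (13 ^ 2 * 4 ^ 15 * 64 ^ 19) * 64 := by norm_num
      apply Nat.le_of_mul_le_mul_right _ (show 0 < 64 by norm_num)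
      calc (17 ^ 2 * 134 ^ 20 * 5 ^ 3) * (n + 1) ^ 3 * 64
          = (17 ^ 2 * 134 ^ 20 * 5 ^ 3) * ((n + 1) ^ 3 * 64) := by ring
        _ ≤ (17 ^ 2 * 134 ^ 20 * 5 ^ 3) * (n ^ 3 * 125) := Nat.mul_le_mul_left _ h3
        _ = (17 ^ 2 * 134 ^ 20 * 125) * (5 * n) ^ 3 := by ring
        _ ≤ ((13 ^ 2 * 4 ^ 15 * 64 ^ 19) * 64) * (5 * n) ^ 3 := Nat.mul_le_mul_right _ h5
        _ = _ := by ring
    calc (17 ^ (2 * n) * 134 ^ (20 * n)) * ((17 ^ 2 * 134 ^ 20 * 5 ^ 3) * (n + 1) ^ 3)
        ≤ (17 ^ (2 * n) * 134 ^ (20 * n)) * ((13 ^ 2 * 4 ^ 15 * 64 ^ 19) * (5 * n) ^ 3) :=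
          Nat.mul_le_mul_left _ h4
      _ = (13 ^ 2 * 4 ^ 15 * 64 ^ 19) * (17 ^ (2 * n) * (5 * n) ^ 3 * 134 ^ (20 * n)) := by ring
      _ < (13 ^ 2 * 4 ^ 15 * 64 ^ 19) *
          (13 ^ (2 * n) * 4 ^ (15 * n) * 64 ^ (19 * n + 1)) :=
          Nat.mul_lt_mul_of_pos_left ih (by positivity)

/-- labelling form of the expander lemma -/
theorem exists_perms_label (u : ℕ) (hu : 4 ≤ u) :
    ∃ σ : Fin 3 → Equiv.Perm (Fin (10 * u)), ∀ f g : Fin (10 * u) → (Fin 3 → Bool),
      (∀ l i, g (σ l i) l = f i l) → ∑ l, size f l = 15 * u → u ≤ mix f + mix g := by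
  classical
  by_contra hcon
  push Not at hcon
  have hcover : (univ : Finset (Fin 3 → Equiv.Perm (Fin (10 * u)))) ⊆
      (Bad u).biUnion fun p => univ.filter fun σ => ∀ l i, p.2 (σ l i) l = p.1 i l := by
    intro σ _
    obtain ⟨f, g, h1, h2, h3⟩ := hcon σ
    simp only [mem_biUnion, mem_filter, mem_univ, true_and, Bad]
    exact ⟨(f, g), ⟨h2, h3⟩, h1⟩
  have h1 := (Finset.card_le_card hcover).trans Finset.card_biUnion_le
  have hcardall : (univ : Finset (Fin 3 → Equiv.Perm (Fin (10 * u)))).card =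
      (10 * u).factorial ^ 3 := by
    rw [card_univ, Fintype.card_fun, Fintype.card_perm, Fintype.card_fin, Fintype.card_fin]
  rw [hcardall] at h1
  have hone : ∀ p ∈ Bad u,
      13 ^ (2 * u) * 4 ^ (15 * u) *
        #{σ : Fin 3 → Equiv.Perm (Fin (10 * u)) | ∀ l i, p.2 (σ l i) l = p.1 i l} ≤
      17 ^ (2 * u) * (5 * u) ^ 3 * (10 * u).factorial ^ 3 := by
    intro p hp
    simp only [Bad, mem_filter, mem_univ, true_and] at hp
    have hc : #{σ : Fin 3 → Equiv.Perm (Fin (10 * u)) | ∀ l i, p.2 (σ l i) l = p.1 i l} ≤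
        ∏ l, ((size p.1 l).factorial * (10 * u - size p.1 l).factorial) := by
      have he : (univ.filter fun σ : Fin 3 → Equiv.Perm (Fin (10 * u)) =>
          ∀ l i, p.2 (σ l i) l = p.1 i l) =
          Fintype.piFinset fun l => univ.filter fun τ : Equiv.Perm (Fin (10 * u)) =>
            ∀ i, (fun j => p.2 j l) (τ i) = (fun i => p.1 i l) i := by
        ext σ
        simp [Fintype.mem_piFinset]
      rw [he, Fintype.card_piFinset]
      apply Finset.prod_le_prod' 
      intro l _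
      exact card_perm_le (fun i => p.1 i l) (fun j => p.2 j l)
    have hprod : (∏ l, (10 * u).choose (size p.1 l)) *
        ∏ l, ((size p.1 l).factorial * (10 * u - size p.1 l).factorial) =
        (10 * u).factorial ^ 3 := by
      rw [← Finset.prod_mul_distrib]
      rw [Finset.prod_congr rfl (g := fun _ => (10 * u).factorial)]
      · simp
      · intro l _
        rw [← mul_assoc]
        apply Nat.choose_mul_factorial_mul_factorial
        unfold size
        exact (card_filter_le _ _).trans (by simp)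
    have hl := prod_choose_lower u (by omega) p.1 hp.1 (by omega)
    calc 13 ^ (2 * u) * 4 ^ (15 * u) *
        #{σ : Fin 3 → Equiv.Perm (Fin (10 * u)) | ∀ l i, p.2 (σ l i) l = p.1 i l}
        ≤ (17 ^ (2 * u) * (5 * u) ^ 3 * ∏ l, (10 * u).choose (size p.1 l)) *
          ∏ l, ((size p.1 l).factorial * (10 * u - size p.1 l).factorial) :=
          Nat.mul_le_mul hl hc
      _ = 17 ^ (2 * u) * (5 * u) ^ 3 * (10 * u).factorial ^ 3 := by
          rw [mul_assoc, hprod]
  have h2 : 13 ^ (2 * u) * 4 ^ (15 * u) * (10 * u).factorial ^ 3 ≤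
      #(Bad u) * (17 ^ (2 * u) * (5 * u) ^ 3 * (10 * u).factorial ^ 3) := by
    calc 13 ^ (2 * u) * 4 ^ (15 * u) * (10 * u).factorial ^ 3
        ≤ 13 ^ (2 * u) * 4 ^ (15 * u) * ∑ p ∈ Bad u,
          #{σ : Fin 3 → Equiv.Perm (Fin (10 * u)) | ∀ l i, p.2 (σ l i) l = p.1 i l} :=
          Nat.mul_le_mul_left _ h1
      _ ≤ _ := by
          rw [Finset.mul_sum]
          calc _ ≤ ∑ _p ∈ Bad u, 17 ^ (2 * u) * (5 * u) ^ 3 * (10 * u).factorial ^ 3 :=
                Finset.sum_le_sum hone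
            _ = _ := by rw [sum_const, smul_eq_mul]
  have h3 : 13 ^ (2 * u) * 4 ^ (15 * u) ≤ #(Bad u) * (17 ^ (2 * u) * (5 * u) ^ 3) := by
    apply Nat.le_of_mul_le_mul_right _ (show 0 < (10 * u).factorial ^ 3 by positivity)
    calc _ ≤ _ := h2
      _ = _ := by ring
  have h4 := card_bad u
  have h5 : 13 ^ (2 * u) * 4 ^ (15 * u) * 64 ^ (19 * u + 1) ≤
      17 ^ (2 * u) * (5 * u) ^ 3 * 134 ^ (20 * u) := by
    calc 13 ^ (2 * u) * 4 ^ (15 * u) * 64 ^ (19 * u + 1)
        ≤ #(Bad u) * (17 ^ (2 * u) * (5 * u) ^ 3) * 64 ^ (19 * u + 1) :=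
          Nat.mul_le_mul_right _ h3
      _ = 17 ^ (2 * u) * (5 * u) ^ 3 * (#(Bad u) * 64 ^ (19 * u + 1)) := by ring
      _ ≤ 17 ^ (2 * u) * (5 * u) ^ 3 * 134 ^ (20 * u) := Nat.mul_le_mul_left _ h4
  exact absurd (numeric u hu) (not_lt.2 h5)

/-- row vertices incident with an edge of `E` and with an edge outside `E` -/
def rowMixed {b : ℕ} (E : Finset (Fin 3 × Fin b)) : Finset (Fin b) :=
  univ.filter fun i => (∃ l, (l, i) ∈ E) ∧ ∃ l, (l, i) ∉ E

/-- column vertices incident with an edge of `E` and with an edge outside `E`; the edge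
`(l, i)` ends in the column vertex `σ l i` -/
def colMixed {b : ℕ} (σ : Fin 3 → Equiv.Perm (Fin b)) (E : Finset (Fin 3 × Fin b)) :
    Finset (Fin b) :=
  univ.filter fun j => (∃ l, (l, (σ l).symm j) ∈ E) ∧ ∃ l, (l, (σ l).symm j) ∉ E

/-- The expander lemma, `4 ≤ u`, `b = 10 u`: three permutations such that every set of
exactly half of the `30 u` edges leaves at least `u` mixed vertices. -/
theorem exists_perms (u : ℕ) (hu : 4 ≤ u) :
    ∃ σ : Fin 3 → Equiv.Perm (Fin (10 * u)), ∀ E : Finset (Fin 3 × Fin (10 * u)),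
      #E = 15 * u → u ≤ #(rowMixed E) + #(colMixed σ E) := by
  classical
  obtain ⟨σ, hσ⟩ := exists_perms_label u hu
  refine ⟨σ, fun E hE => ?_⟩
  have h := hσ (fun i l => decide ((l, i) ∈ E)) (fun j l => decide ((l, (σ l).symm j) ∈ E))
    (by intro l i; simp) ?_
  · refine h.trans (le_of_eq ?_)
    congr 1
    · unfold mix rowMixed Mixed
      congr 1
      ext i
      simp only [mem_filter, mem_univ, true_and, ne_eq, decide_eq_decide]
      constructor
      · rintro ⟨l, l', hl⟩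
        by_cases h1 : (l, i) ∈ E
        · exact ⟨⟨l, h1⟩, ⟨l', fun h2 => hl (by simp [h1, h2])⟩⟩
        · exact ⟨⟨l', by by_contra h2; exact hl (by simp [h1, h2])⟩, ⟨l, h1⟩⟩
      · rintro ⟨⟨l, hl⟩, ⟨l', hl'⟩⟩
        exact ⟨l, l', fun h => hl' (h.1 hl)⟩
    · unfold mix colMixed Mixed
      congr 1
      ext i
      simp only [mem_filter, mem_univ, true_and, ne_eq, decide_eq_decide]
      constructor
      · rintro ⟨l, l', hl⟩
        by_cases h1 : (l, (σ l).symm i) ∈ E
        · exact ⟨⟨l, h1⟩, ⟨l', fun h2 => hl (by simp [h1, h2])⟩⟩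
        · exact ⟨⟨l', by by_contra h2; exact hl (by simp [h1, h2])⟩, ⟨l, h1⟩⟩
      · rintro ⟨⟨l, hl⟩, ⟨l', hl'⟩⟩
        exact ⟨l, l', fun h => hl' (h.1 hl)⟩
  · rw [← hE]
    unfold size
    simp only [decide_eq_true_eq]
    rw [Finset.card_eq_sum_ones E, ← Finset.sum_fiberwise_of_maps_to (s := E) (t := univ)
      (g := fun e => e.1) (fun _ _ => mem_univ _)]
    apply Finset.sum_congr rfl
    intro l _
    rw [← Finset.card_eq_sum_ones]
    apply Finset.card_bij (fun i _ => (l, i))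
    · intro i hi
      simp only [mem_filter, mem_univ, true_and] at hi ⊢
      exact ⟨hi, trivial⟩
    · intro i _ j _ h
      exact (Prod.mk.inj h).2
    · rintro ⟨l', i⟩ hi
      simp only [mem_filter] at hi
      obtain ⟨h1, h2⟩ := hi
      subst h2
      exact ⟨i, by simpa using h1, rfl⟩

end PEExpander
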