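import Mathlib
import Pool.Agent.Work.MP_35c45d_lc.PEBase

set_option linter.unusedSectionVars false
set_option linter.unusedFintypeInType false

namespace Pool.MP_35c45d_lc.PermEq2
open Matrix MvPolynomial Filter Topology Pool.MP_35c45d_lc.PermEq

/-- The permanent of the `m × m` matrix of variables, as a polynomial in the `m²` variables. -/
noncomputable def permPoly (m : ℕ) : MvPolynomial (Fin m × Fin m) ℂ :=
  (Matrix.of fun i j : Fin m => (X (i, j) : MvPolynomial (Fin m × Fin m) ℂ)).permanent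

theorem evb_permPoly {b m : ℕ} (h : 6 * b ≤ m) (Z : Fam (Fin b)) :
    evb h (fun _ => 1) Z (permPoly m) = (PM (ζ := Fin (m - 6 * b)) Z).permanent := by
  rw [← permanent_reindex (idx h).symm (PM (ζ := Fin (m - 6 * b)) Z), permPoly, permanent,
    permanent, map_sum]
  refine Finset.sum_congr rfl fun σ _ => ?_
  rw [map_prod]
  refine Finset.prod_congr rfl fun i _ => ?_
  rw [of_apply, evb_X, submatrix_apply, PM, of_apply, C_1]

theorem coeff_permPoly (m : ℕ) :
    coeff (∑ i : Fin m, Finsupp.single (i, i) 1) (permPoly m) = 1 := by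
  have h1 : ∀ σ : Equiv.Perm (Fin m),
      coeff (∑ i : Fin m, Finsupp.single (i, i) 1)
        (∏ i, (Matrix.of fun i j : Fin m => (X (i, j) : MvPolynomial (Fin m × Fin m) ℂ)) (σ i) i)
      = if σ = 1 then 1 else 0 := by
    intro σ
    have h2 : ∏ i, (Matrix.of fun i j : Fin m => (X (i, j) : MvPolynomial (Fin m × Fin m) ℂ))
        (σ i) i = monomial (∑ i, Finsupp.single (σ i, i) 1) 1 := by
      simp only [of_apply, X]
      rw [monomial_sum_one]
    rw [h2, coeff_monomial]
    by_cases hσ : σ = 1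
    · subst hσ; simp
    · rw [if_neg hσ, if_neg]
      intro h3
      apply hσ
      ext i
      have h4 := DFunLike.congr_fun h3 (σ i, i)
      simp only [Finsupp.coe_finsetSum, Finset.sum_apply, Finsupp.single_apply,
        Prod.mk.injEq] at h4
      have h5 : ∑ x : Fin m, (if σ x = σ i ∧ x = i then 1 else 0) = 1 := by
        rw [Finset.sum_eq_single i]
        · simp
        · intro x _ hx
          rw [if_neg (fun h => hx h.2)]
        · intro h; exact absurd (Finset.mem_univ _) h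
      rw [h5] at h4
      by_contra h6
      have h7 : ∑ x : Fin m, (if x = σ i ∧ x = i then 1 else 0) = 0 := by
        apply Finset.sum_eq_zero
        intro x _
        rw [if_neg]
        rintro ⟨h8, h9⟩
        apply h6
        rw [← h8, h9]
        rfl
      rw [h7] at h4
      exact one_ne_zero h4
  rw [permPoly, permanent, coeff_sum]
  rw [Finset.sum_congr rfl fun σ _ => h1 σ]
  simp

/-- a coefficientwise limit of polynomials of degree `< m` is not the permanent -/
theorem degree_ge (m M : ℕ) (f : ℕ → MvPolynomial (Fin m × Fin m) ℂ)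
    (hM : ∀ k, (f k).totalDegree ≤ M)
    (hlim : ∀ d, Tendsto (fun k => coeff d (f k)) atTop (𝓝 (coeff d (permPoly m)))) : m ≤ M := by
  by_contra hlt
  push Not at hlt
  have h1 := hlim (∑ i : Fin m, Finsupp.single (i, i) 1)
  rw [coeff_permPoly] at h1
  have h2 : ∀ k, coeff (∑ i : Fin m, Finsupp.single (i, i) 1) (f k) = 0 := by
    intro k
    apply coeff_eq_zero_of_totalDegree_lt
    refine lt_of_le_of_lt (hM k) (lt_of_lt_of_eq hlt ?_)
    have h3 : ∑ q ∈ (∑ i : Fin m, Finsupp.single (i, i) (1 : ℕ)).support,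
        (∑ i : Fin m, Finsupp.single (i, i) (1 : ℕ)) q
        = Finsupp.degree (∑ i : Fin m, Finsupp.single (i, i) (1 : ℕ)) := rfl
    rw [h3, map_sum]
    simp
  simp only [h2] at h1
  exact zero_ne_one (tendsto_nhds_unique tendsto_const_nhds h1)

/-- sums of determinants, nonsingular at fixed points -/
theorem main_sum (m n t : ℕ) (hm : 1 ≤ m) (ht : 3 * t ≤ m) (N : ℕ → ℕ)
    (A : (k : ℕ) → Fin (N k) → Matrix (Fin n) (Fin n) (MvPolynomial (Fin m × Fin m) ℂ))
    (hdeg : ∀ k s i j, (A k s i j).totalDegree ≤ max 1 ((t - 1) / 20))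
    (hsym : ∀ k s π, EvenTriplePerm m t π → Respects (A k s) π)
    (hns : ∀ k s, ∃ X₀ : Fin m × Fin m → ℂ,
      (∀ π, EvenTriplePerm m t π → ∀ i j, X₀ (π i, π j) = X₀ (i, j)) ∧
      ((A k s).map (eval X₀)).det ≠ 0)
    (hlim : ∀ d, Tendsto (fun k => coeff d (∑ s, (A k s).det)) atTop
      (𝓝 (coeff d (permPoly m)))) : 2 ^ ((t - 1) / 20) ≤ 2 * n ^ 2 := by
  obtain ⟨u, hu⟩ : ∃ u, u = (t - 1) / 20 := ⟨_, rfl⟩
  rw [← hu] at hdeg ⊢
  have hM : ∀ k, (∑ s, (A k s).det).totalDegree ≤ n * max 1 u := fun k =>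
    (totalDegree_finsetSum _ _).trans (Finset.sup_le fun s _ => totalDegree_det _ _ (hdeg k s))
  have hmM := degree_ge m _ _ hM hlim
  by_cases hu10 : 10 ≤ u
  · by_contra hlt
    push Not at hlt
    rw [max_eq_right (by omega)] at hdeg hM hmM
    have hn : 1 ≤ n := by
      rcases Nat.eq_zero_or_pos n with h0 | h0
      · subst h0; omega
      · exact h0
    obtain ⟨b, hb⟩ : ∃ b, b = 10 * u := ⟨_, rfl⟩
    obtain ⟨σ, hσ⟩ : ∃ σ : Fin 3 → Equiv.Perm (Fin b), Expands σ (15 * u) u u := by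
      rw [hb]; exact exists_expander u hu10
    have h : 6 * b ≤ m := by omega
    have h0 : ∀ k, cf Finset.univ (evb h (fun _ => 1) (Yl σ (labV σ ∅)) (∑ s, (A k s).det)) = 0 := by
      intro k
      rw [map_sum, map_sum]
      refine Finset.sum_eq_zero fun s _ => ?_
      obtain ⟨X₀, hX1, hX2⟩ := hns k s
      exact cf_det_eq_zero' h (A k s) X₀ hX2 t u (by omega) ht (hdeg k s) hX1 (hsym k s) hn σ
        (15 * u) u (by omega) hσ hlt
    have h1 := tendsto_functional ((cf Finset.univ).comp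
      (evb h (fun _ => 1) (Yl σ (labV σ ∅))).toLinearMap) _ _ _ hM hlim
    have h2 : ∀ k, ((cf Finset.univ).comp
      (evb h (fun _ => 1) (Yl σ (labV σ ∅))).toLinearMap) (∑ s, (A k s).det) = 0 := h0
    simp only [h2] at h1
    have h3 := tendsto_nhds_unique h1 tendsto_const_nhds
    have h4 : cf Finset.univ (evb h (fun _ => 1) (Yl σ (labV σ ∅)) (permPoly m)) = 0 := h3
    rw [evb_permPoly] at h4
    exact cf_permanent_PM_ne_zero σ h4
  · push Not at hu10
    rcases Nat.eq_zero_or_pos u with h0 | h0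
    · subst h0
      have hn : 1 ≤ n := by
        rw [max_eq_left (by omega)] at hmM
        omega
      have : 2 * 1 ^ 2 ≤ 2 * n ^ 2 := by gcongr
      omega
    · rw [max_eq_right (by omega)] at hmM
      have hn : 60 ≤ n := by
        by_contra hlt
        push Not at hlt
        have h1 : n * u ≤ 59 * u := Nat.mul_le_mul_right _ (by omega)
        omega
      have h2 : 2 ^ u ≤ 2 ^ 9 := Nat.pow_le_pow_right (by norm_num) (by omega)
      have h3 : 2 * 60 ^ 2 ≤ 2 * n ^ 2 := by gcongr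
      omega

/-- for a single determinant nonsingularity is automatic -/
theorem main_all (m n t : ℕ) (hm : 1 ≤ m) (ht : 3 * t ≤ m) (N : ℕ → ℕ)
    (A : (k : ℕ) → Fin (N k) → Matrix (Fin n) (Fin n) (MvPolynomial (Fin m × Fin m) ℂ))
    (hdeg : ∀ k s i j, (A k s i j).totalDegree ≤ max 1 ((t - 1) / 20))
    (hsym : ∀ k s π, EvenTriplePerm m t π → Respects (A k s) π)
    (hns : ∀ k, N k = 1 ∨ ∀ s, ∃ X₀ : Fin m × Fin m → ℂ,
      (∀ π, EvenTriplePerm m t π → ∀ i j, X₀ (π i, π j) = X₀ (i, j)) ∧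
      ((A k s).map (eval X₀)).det ≠ 0)
    (hlim : ∀ d, Tendsto (fun k => coeff d (∑ s, (A k s).det)) atTop
      (𝓝 (coeff d (permPoly m)))) : 2 ^ ((t - 1) / 20) ≤ 2 * n ^ 2 := by
  have hM : ∀ k, (∑ s, (A k s).det).totalDegree ≤ n * max 1 ((t - 1) / 20) := fun k =>
    (totalDegree_finsetSum _ _).trans (Finset.sup_le fun s _ => totalDegree_det _ _ (hdeg k s))
  have h1 := tendsto_functional ((aeval (fun _ => 1 : Fin m × Fin m → ℂ)).toLinearMap) _ _ _ hM hlim
  have h2 : (aeval (fun _ => 1 : Fin m × Fin m → ℂ)).toLinearMap (permPoly m) ≠ 0 := by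
    have h3 : (aeval (fun _ => 1 : Fin m × Fin m → ℂ)).toLinearMap (permPoly m)
        = ((Fintype.card (Equiv.Perm (Fin m)) : ℕ) : ℂ) := by
      rw [AlgHom.toLinearMap_apply, permPoly, permanent, map_sum]
      simp only [map_prod, of_apply, aeval_X, Finset.prod_const_one, Finset.sum_const,
        Finset.card_univ, nsmul_eq_mul, mul_one]
    rw [h3, Nat.cast_ne_zero]
    exact Fintype.card_ne_zero
  obtain ⟨k₀, hk₀⟩ := eventually_atTop.mp (h1.eventually_ne h2)
  refine main_sum m n t hm ht (fun k => N (k + k₀)) (fun k => A (k + k₀)) (fun k => hdeg _)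
    (fun k => hsym _) ?_ (fun d => (tendsto_add_atTop_iff_nat k₀).mpr (hlim d))
  intro k s
  rcases hns (k + k₀) with h3 | h3
  · refine ⟨fun _ => 1, fun _ _ _ _ => rfl, ?_⟩
    have h4 := hk₀ (k + k₀) (Nat.le_add_left _ _)
    have h5 : Subsingleton (Fin (N (k + k₀))) := by rw [h3]; infer_instance
    have h6 : ∑ s, (A (k + k₀) s).det = (A (k + k₀) s).det :=
      Fintype.sum_eq_single s fun x hx => absurd (Subsingleton.elim x s) hx
    rw [AlgHom.toLinearMap_apply, aeval_eq_eval, h6, RingHom.map_det] at h4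
    exact h4
  · exact h3 s

end Pool.MP_35c45d_lc.PermEq2
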