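import Mathlib

/-!
# Polarisation of the coefficients of `det (1 + X M)` and its bounded rank across a cut

`T M σ = ∑ f, ∏ e, M e (f e) (f (σ e))` is the product, over the cycles of `σ`, of the traces of
the words of matrices along the cycle.
-/

namespace PEPolar

open Finset Polynomial

set_option linter.unusedSectionVars false

section

variable {E n R : Type*} [Fintype E] [DecidableEq E] [Fintype n] [DecidableEq n] [CommRing R]

/-- product over the cycles of `σ` of the traces of the words of matrices along the cycle -/
def T (M : E → Matrix n n R) (σ : Equiv.Perm E) : R := ∑ f : E → n, ∏ e, M e (f e) (f (σ e))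

/-- the cyclic rule -/
lemma T_mul (A C : E → Matrix n n R) (σ : Equiv.Perm E) :
    T (fun e => A e * C e) σ = T (fun e => C e * A (σ e)) σ := by
  classical
  have h1 : T (fun e => A e * C e) σ =
      ∑ f : E → n, ∑ a : E → n, ∏ e, (A e (f e) (a e) * C e (a e) (f (σ e))) := by
    unfold T
    apply sum_congr rfl
    intro f _
    simp only [Matrix.mul_apply]
    rw [Finset.prod_univ_sum]
    simp
  have h2 : T (fun e => C e * A (σ e)) σ =
      ∑ a : E → n, ∑ v : E → n, ∏ e, (C e (a e) (v e) * A (σ e) (v e) (a (σ e))) := by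
    unfold T
    apply sum_congr rfl
    intro f _
    simp only [Matrix.mul_apply]
    rw [Finset.prod_univ_sum]
    simp
  rw [h1, h2, sum_comm]
  apply sum_congr rfl
  intro a _
  apply Fintype.sum_equiv (Equiv.arrowCongr σ.symm (Equiv.refl n))
  intro f
  simp only [Equiv.arrowCongr_apply, Equiv.symm_symm, Equiv.coe_refl, Function.comp_apply, id_eq]
  rw [prod_mul_distrib, prod_mul_distrib, mul_comm]
  congr 1
  exact (Equiv.prod_comp σ (fun e => A e (f e) (a e))).symm

/-- conjugation invariance -/
lemma T_conj (M : E → Matrix n n R) (σ : Equiv.Perm E) (P P' : Matrix n n R) (h : P' * P = 1) :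
    T (fun e => P * M e * P') σ = T M σ := by
  have h1 := T_mul (fun _ => P) (fun e => M e * P') σ
  simp only [Matrix.mul_assoc, h, Matrix.mul_one] at h1
  simpa only [Matrix.mul_assoc] using h1

/-- transposition inverts the permutation -/
lemma T_transpose (M : E → Matrix n n R) (σ : Equiv.Perm E) :
    T (fun e => (M e).transpose) σ = T M σ⁻¹ := by
  unfold T
  apply Fintype.sum_equiv (Equiv.arrowCongr σ.symm (Equiv.refl n))
  intro f
  simp [Equiv.arrowCongr_apply, Matrix.transpose_apply]

/-- scaling the matrices -/
lemma T_smul (M : E → Matrix n n R) (c : E → R) (σ : Equiv.Perm E) :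
    T (fun e => c e • M e) σ = (∏ e, c e) * T M σ := by
  unfold T
  rw [mul_sum]
  apply sum_congr rfl
  intro f _
  simp [prod_mul_distrib]

lemma sum_sign_T (M : E → Matrix n n R) :
    ∑ σ : Equiv.Perm E, ((Equiv.Perm.sign σ : ℤ) : R) * T M σ =
      ∑ f : E → n, Matrix.det (Matrix.of fun e e' => M e (f e) (f e')) := by
  unfold T
  simp only [mul_sum]
  rw [sum_comm]
  apply sum_congr rfl
  intro f _
  rw [← Matrix.det_transpose, Matrix.det_apply']
  rfl

lemma det_eq_zero_of_not_injective (M : E → Matrix n n R) (f : E → n)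
    (hf : ¬ Function.Injective f) :
    Matrix.det (Matrix.of fun e e' => M e (f e) (f e')) = 0 := by
  unfold Function.Injective at hf
  push Not at hf
  obtain ⟨a, b, hab, hne⟩ := hf
  apply Matrix.det_zero_of_column_eq hne
  intro e
  simp [hab]

/-- `|E|! * e_{|E|}(N)` as a sum over all maps -/
lemma factorial_mul_coeff (N : Matrix n n R) :
    ((Fintype.card E).factorial : R) *
      (Matrix.det (1 + (X : R[X]) • N.map C)).coeff (Fintype.card E) =
      ∑ f : E → n, Matrix.det (Matrix.of fun e e' : E => N (f e) (f e')) := by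
  classical
  rw [Matrix.coeff_det_one_add_X_smul_eq_sum_minors, mul_sum]
  have h1 : ∑ f : E → n, Matrix.det (Matrix.of fun e e' : E => N (f e) (f e')) =
      ∑ f ∈ univ.filter (fun f : E → n => Function.Injective f),
        Matrix.det (Matrix.of fun e e' : E => N (f e) (f e')) := by
    rw [sum_filter]
    apply sum_congr rfl
    intro f _
    split_ifs with h
    · rfl
    · exact det_eq_zero_of_not_injective (fun _ => N) f h
  rw [h1]
  have h2 : ∀ f ∈ univ.filter (fun f : E → n => Function.Injective f),
      univ.image f ∈ powersetCard (Fintype.card E) (univ : Finset n) := by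
    intro f hf
    simp only [mem_filter, mem_univ, true_and] at hf
    rw [mem_powersetCard]
    exact ⟨subset_univ _, by rw [card_image_of_injective _ hf, card_univ]⟩
  rw [← sum_fiberwise_of_maps_to h2]
  apply sum_congr rfl
  intro s hs
  rw [mem_powersetCard] at hs
  have hcard : Fintype.card E = Fintype.card s := by
    rw [Fintype.card_coe]; exact hs.2.symm
  have h3 : ∀ f ∈ (univ.filter (fun f : E → n => Function.Injective f)).filter
      (fun f => univ.image f = s),
      Matrix.det (Matrix.of fun e e' : E => N (f e) (f e')) =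
        (N.submatrix (Subtype.val : s → n) (Subtype.val : s → n)).det := by
    intro f hf
    simp only [mem_filter, mem_univ, true_and] at hf
    obtain ⟨hf, him⟩ := hf
    have hmem : ∀ e, f e ∈ s := fun e => by
      rw [← him]; exact mem_image_of_mem _ (mem_univ _)
    let g : E → s := fun e => ⟨f e, hmem e⟩
    have hg : Function.Bijective g := by
      constructor
      · intro a b hab
        exact hf (congrArg Subtype.val hab)
      · rintro ⟨y, hy⟩
        rw [← him] at hy
        obtain ⟨e, _, he⟩ := mem_image.1 hy
        exact ⟨e, Subtype.ext he⟩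
    have := Matrix.det_submatrix_equiv_self (Equiv.ofBijective g hg)
      (N.submatrix (Subtype.val : s → n) (Subtype.val : s → n))
    rw [← this]
    rfl
  rw [sum_congr rfl h3, sum_const, nsmul_eq_mul]
  congr 2
  -- count
  obtain ⟨e₀⟩ : Nonempty (E ≃ s) := ⟨Fintype.equivOfCardEq hcard⟩
  rw [← Fintype.card_equiv e₀, ← card_univ]
  symm
  apply Finset.card_bij (fun f hf => Equiv.ofBijective
    (fun e => (⟨f e, by
      simp only [mem_filter, mem_univ, true_and] at hf
      rw [← hf.2]; exact mem_image_of_mem _ (mem_univ _)⟩ : s)) (by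
      simp only [mem_filter, mem_univ, true_and] at hf
      constructor
      · intro a b hab
        exact hf.1 (congrArg Subtype.val hab)
      · rintro ⟨y, hy⟩
        rw [← hf.2] at hy
        obtain ⟨e, _, he⟩ := mem_image.1 hy
        exact ⟨e, Subtype.ext he⟩))
  · intro f hf
    exact mem_univ _
  · intro f hf f' hf' h
    funext e
    have := congrArg (fun k : E ≃ s => (k e : n)) h
    simpa using this
  · intro k _
    refine ⟨fun e => (k e : n), ?_, ?_⟩
    · simp only [mem_filter, mem_univ, true_and]
      constructor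
      · intro a b hab
        exact k.injective (Subtype.ext hab)
      · ext y
        simp only [mem_image, mem_univ, true_and]
        constructor
        · rintro ⟨e, rfl⟩
          exact (k e).2
        · intro hy
          exact ⟨k.symm ⟨y, hy⟩, by simp⟩
    · ext e
      rfl

/-- inclusion-exclusion over sets of colours -/
lemma alt_sum (a : (E → E) → R) :
    ∑ S : Finset E, (-1 : R) ^ (Fintype.card E - #S) *
      ∑ h ∈ Fintype.piFinset (fun _ : E => S), a h = ∑ h : Equiv.Perm E, a h := by
  classical
  have h1 : ∀ S : Finset E, ∑ h ∈ Fintype.piFinset (fun _ : E => S), a h =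
      ∑ h : E → E, if univ.image h ⊆ S then a h else 0 := by
    intro S
    rw [← sum_filter]
    apply sum_congr _ (fun _ _ => rfl)
    ext h
    simp [Fintype.mem_piFinset, image_subset_iff]
  simp only [h1, mul_sum]
  rw [sum_comm]
  have h2 : ∀ h : E → E, ∑ S : Finset E, (-1 : R) ^ (Fintype.card E - #S) *
      (if univ.image h ⊆ S then a h else 0) = if Function.Bijective h then a h else 0 := by
    intro h
    have h3 : ∑ S : Finset E, (-1 : R) ^ (Fintype.card E - #S) *
        (if univ.image h ⊆ S then a h else 0) =
        (∑ S : Finset E, if univ.image h ⊆ S then (-1 : R) ^ (Fintype.card E - #S) else 0) *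
          a h := by
      rw [sum_mul]
      apply sum_congr rfl
      intro S _
      split_ifs <;> simp
    rw [h3]
    have h4 : (∑ S : Finset E, if univ.image h ⊆ S then (-1 : R) ^ (Fintype.card E - #S) else 0)
        = ∑ Z ∈ (univ.image h)ᶜ.powerset, (-1 : R) ^ #Z := by
      rw [← sum_filter]
      refine Finset.sum_bij' (fun S _ => Sᶜ) (fun Z _ => Zᶜ) ?_ ?_ ?_ ?_ ?_
      · intro S hS
        simp only [mem_filter, mem_univ, true_and] at hS
        rw [mem_powerset]
        exact compl_subset_compl.2 hS
      · intro Z hZ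
        rw [mem_powerset] at hZ
        simp only [mem_filter, mem_univ, true_and]
        rwa [subset_compl_comm]
      · intro S _; simp
      · intro Z _; simp
      · intro S _
        rw [card_compl]
    rw [h4]
    have h5 : ∑ Z ∈ (univ.image h)ᶜ.powerset, (-1 : R) ^ #Z =
        if (univ.image h)ᶜ = ∅ then 1 else 0 := by
      have := Finset.sum_powerset_neg_one_pow_card (x := (univ.image h)ᶜ)
      have h6 := congrArg (fun z : ℤ => (z : R)) this
      push_cast at h6
      exact h6
    rw [h5]
    have h7 : (univ.image h)ᶜ = ∅ ↔ Function.Bijective h := by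
      rw [compl_eq_empty_iff, ← Finite.surjective_iff_bijective]
      constructor
      · intro hh y
        have : y ∈ univ.image h := by rw [hh]; exact mem_univ _
        obtain ⟨e, _, he⟩ := mem_image.1 this
        exact ⟨e, he⟩
      · intro hh
        ext y
        obtain ⟨e, he⟩ := hh y
        simp only [mem_image, mem_univ, true_and, iff_true]
        exact ⟨e, he⟩
    by_cases hb : Function.Bijective h
    · rw [if_pos hb, if_pos (h7.2 hb), one_mul]
    · rw [if_neg hb, if_neg (fun hc => hb (h7.1 hc)), zero_mul]
  rw [sum_congr rfl (fun h _ => h2 h), ← sum_filter]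
  refine Finset.sum_bij' (fun h hh => Equiv.ofBijective h (by simpa using hh))
    (fun k _ => (k : E → E)) ?_ ?_ ?_ ?_ ?_
  · intro h _; exact mem_univ _
  · intro k _; simp
  · intro h _; rfl
  · intro k _; ext e; rfl
  · intro h _; rfl

/-- rows of a sum of matrices -/
lemma det_sum (M : E → Matrix n n R) (S : Finset E) (f : E → n) :
    Matrix.det (Matrix.of fun e e' : E => (∑ c ∈ S, M c) (f e) (f e')) =
      ∑ h ∈ Fintype.piFinset (fun _ : E => S),
        Matrix.det (Matrix.of fun e e' : E => M (h e) (f e) (f e')) := by
  have := (Matrix.detRowAlternating (R := R) (n := E)).toMultilinearMap.map_sum_finset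
    (fun (e : E) (c : E) => fun e' => M c (f e) (f e')) (fun _ => S)
  have h2 : (fun e => ∑ c ∈ S, fun e' => M c (f e) (f e')) =
      (Matrix.of fun e e' : E => (∑ c ∈ S, M c) (f e) (f e')) := by
    funext e e'
    simp [Finset.sum_apply, Matrix.sum_apply]
  rw [h2] at this
  exact this

lemma factorial_mul_polar (M : E → Matrix n n R) :
    ((Fintype.card E).factorial : R) *
      ∑ S : Finset E, (-1 : R) ^ (Fintype.card E - #S) *
        (Matrix.det (1 + (X : R[X]) • (∑ e ∈ S, M e).map C)).coeff (Fintype.card E) =
    ((Fintype.card E).factorial : R) *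
      ∑ σ : Equiv.Perm E, ((Equiv.Perm.sign σ : ℤ) : R) * T M σ := by
  classical
  rw [mul_sum]
  have h1 : ∀ S : Finset E, ((Fintype.card E).factorial : R) *
      ((-1 : R) ^ (Fintype.card E - #S) *
        (Matrix.det (1 + (X : R[X]) • (∑ e ∈ S, M e).map C)).coeff (Fintype.card E)) =
      ∑ f : E → n, (-1 : R) ^ (Fintype.card E - #S) *
        ∑ h ∈ Fintype.piFinset (fun _ : E => S),
        Matrix.det (Matrix.of fun e e' : E => M (h e) (f e) (f e')) := by
    intro S
    rw [mul_left_comm, factorial_mul_coeff, mul_sum]
    apply sum_congr rfl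
    intro f _
    rw [det_sum]
  rw [sum_congr rfl (fun S _ => h1 S), sum_comm]
  rw [sum_congr rfl (fun f _ => alt_sum
    (fun h => Matrix.det (Matrix.of fun e e' : E => M (h e) (f e) (f e'))))]
  rw [sum_comm, sum_sign_T]
  rw [← Fintype.card_perm, ← card_univ, ← nsmul_eq_mul, ← sum_const]
  apply sum_congr rfl
  intro h _
  symm
  apply Fintype.sum_equiv (Equiv.arrowCongr h.symm (Equiv.refl n))
  intro f
  simp only [Equiv.arrowCongr_apply, Equiv.symm_symm, Equiv.coe_refl, Function.comp_apply, id_eq]
  have := Matrix.det_submatrix_equiv_self h (Matrix.of fun e e' => M e (f e) (f e'))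
  rw [← this]
  rfl

/-- **Polarisation of `e_d`**, `d = |E|`. -/
theorem polar [IsDomain R] [CharZero R] (M : E → Matrix n n R) :
    ∑ S : Finset E, (-1 : R) ^ (Fintype.card E - #S) *
        (Matrix.det (1 + (X : R[X]) • (∑ e ∈ S, M e).map C)).coeff (Fintype.card E) =
      ∑ σ : Equiv.Perm E, ((Equiv.Perm.sign σ : ℤ) : R) * T M σ := by
  have h := factorial_mul_polar M
  have h0 : ((Fintype.card E).factorial : R) ≠ 0 := by
    exact_mod_cast (Fintype.card E).factorial_ne_zero
  exact mul_left_cancel₀ h0 h

end

section cut

variable {E : Type*} [Fintype E] [DecidableEq E]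

/-- every permutation can be cut in any prescribed size with at most one exit -/
theorem exists_cut (σ : Equiv.Perm E) (k : ℕ) (hk : k ≤ Fintype.card E) :
    ∃ E₁ : Finset E, #E₁ = k ∧ #(E₁.filter fun e => σ e ∉ E₁) ≤ 1 := by
  induction k with
  | zero => exact ⟨∅, rfl, by simp⟩
  | succ k ih =>
    obtain ⟨S, hS, hb⟩ := ih (by omega)
    by_cases h0 : (S.filter fun e => σ e ∉ S) = ∅
    · -- no exit: add any element
      have hne : ∃ a, a ∉ S := by
        by_contra hc
        push Not at hc
        have : S = univ := by ext x; simp [hc x]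
        rw [this, card_univ] at hS
        omega
      obtain ⟨a, ha⟩ := hne
      refine ⟨insert a S, by rw [card_insert_of_notMem ha, hS], ?_⟩
      rw [card_le_one]
      have key : ∀ x ∈ (insert a S).filter (fun e => σ e ∉ insert a S), x = a := by
        intro x hx
        rw [mem_filter, mem_insert] at hx
        rcases hx.1 with h | h
        · exact h
        · exfalso
          have : x ∈ S.filter fun e => σ e ∉ S := by
            rw [mem_filter]
            exact ⟨h, fun h' => hx.2 (mem_insert_of_mem h')⟩
          rw [h0] at this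
          simp at this
      intro x hx y hy
      rw [key x hx, key y hy]
    · obtain ⟨c, hc⟩ := Finset.nonempty_iff_ne_empty.2 h0
      have hc' := hc
      rw [mem_filter] at hc'
      refine ⟨insert (σ c) S, by rw [card_insert_of_notMem hc'.2, hS], ?_⟩
      rw [card_le_one]
      have key : ∀ x ∈ (insert (σ c) S).filter (fun e => σ e ∉ insert (σ c) S), x = σ c := by
        intro x hx
        rw [mem_filter, mem_insert] at hx
        rcases hx.1 with h | h
        · exact h
        · exfalso
          have hx' : x ∈ S.filter fun e => σ e ∉ S := by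
            rw [mem_filter]
            exact ⟨h, fun h' => hx.2 (mem_insert_of_mem h')⟩
          have : x = c := (card_le_one.1 hb) x hx' c hc
          subst this
          exact hx.2 (mem_insert_self _ _)
      intro x hx y hy
      rw [key x hx, key y hy]

lemma card_entry_eq_exit (σ : Equiv.Perm E) (S : Finset E) :
    #(Sᶜ.filter fun e => σ e ∈ S) = #(S.filter fun e => σ e ∉ S) := by
  have h1 : #(univ.filter fun e => σ e ∈ S) = #S := by
    have : (univ.filter fun e => σ e ∈ S) = S.map σ.symm.toEmbedding := by
      ext e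
      simp only [mem_filter, mem_univ, true_and, mem_map, Equiv.coe_toEmbedding]
      constructor
      · intro h; exact ⟨σ e, h, by simp⟩
      · rintro ⟨a, ha, rfl⟩; simpa using ha
    rw [this, card_map]
  have h2 : #(univ.filter fun e => σ e ∈ S) =
      #(S.filter fun e => σ e ∈ S) + #(Sᶜ.filter fun e => σ e ∈ S) := by
    rw [← card_union_of_disjoint]
    · congr 1
      ext e
      simp only [mem_filter, mem_univ, true_and, mem_union, mem_compl]
      tauto
    · rw [Finset.disjoint_left]
      intro e h h'
      simp only [mem_filter, mem_compl] at h h'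
      exact h'.1 h.1
  have h3 : #S = #(S.filter fun e => σ e ∈ S) + #(S.filter fun e => σ e ∉ S) :=
    (Finset.card_filter_add_card_filter_not (s := S) (fun e => σ e ∈ S)).symm
  omega

end cut

section rank

variable {E n Λ K : Type*} [Fintype E] [DecidableEq E] [Fintype n] [DecidableEq n] [Field K]

/-- separating a sum over pairs through the values on small sets -/
lemma sum_separate {A B G H : Type*} [Fintype A] [Fintype B] [Fintype G] [Fintype H]
    [DecidableEq G] [DecidableEq H] (ρ : A → G) (τ : B → H)
    (Φ : A → H → K) (Ψ : G → B → K) :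
    ∑ a, ∑ b, Φ a (τ b) * Ψ (ρ a) b =
      ∑ p : G × H, (∑ a, if ρ a = p.1 then Φ a p.2 else 0) *
        (∑ b, if τ b = p.2 then Ψ p.1 b else 0) := by
  classical
  rw [Fintype.sum_prod_type]
  have h : ∀ (g : G) (h : H), (∑ a, if ρ a = g then Φ a h else 0) *
        (∑ b, if τ b = h then Ψ g b else 0) =
      ∑ a, ∑ b, (if τ b = h then (if ρ a = g then Φ a h * Ψ g b else 0) else 0) := by
    intro g h
    rw [sum_mul_sum]
    apply sum_congr rfl
    intro a _
    apply sum_congr rfl
    intro b _
    split_ifs <;> simp
  simp only [h]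
  calc ∑ a, ∑ b, Φ a (τ b) * Ψ (ρ a) b
      = ∑ a, ∑ b, ∑ g : G, ∑ h : H,
        (if τ b = h then (if ρ a = g then Φ a h * Ψ g b else 0) else 0) := by
        apply sum_congr rfl
        intro a _
        apply sum_congr rfl
        intro b _
        simp
    _ = ∑ a, ∑ g : G, ∑ b, ∑ h : H,
        (if τ b = h then (if ρ a = g then Φ a h * Ψ g b else 0) else 0) := by
        apply sum_congr rfl
        intro a _
        exact sum_comm
    _ = ∑ g : G, ∑ a, ∑ b, ∑ h : H,
        (if τ b = h then (if ρ a = g then Φ a h * Ψ g b else 0) else 0) := sum_comm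
    _ = ∑ g : G, ∑ a, ∑ h : H, ∑ b,
        (if τ b = h then (if ρ a = g then Φ a h * Ψ g b else 0) else 0) := by
        apply sum_congr rfl
        intro g _
        apply sum_congr rfl
        intro a _
        exact sum_comm
    _ = _ := by
        apply sum_congr rfl
        intro g _
        exact sum_comm

/-- The matrix of `T`, rows = labels on `E₁`, columns = labels on the complement, factors
through the values of `f` at the entries into `E₁` and at the entries into the complement. -/
theorem rank_T_le [Nonempty n] [Fintype Λ] [DecidableEq Λ] (M : E → Λ → Matrix n n K)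
    (σ : Equiv.Perm E) (E₁ : Finset E)
    (h1 : #(E₁.filter fun e => σ e ∉ E₁) ≤ 1) :
    (Matrix.of fun x y : E → Λ => T (fun e => M e (if e ∈ E₁ then x e else y e)) σ).rank ≤
      Fintype.card n ^ 2 := by
  classical
  -- boundary sets
  let B₁ : Finset E := univ.filter fun e => e ∈ E₁ ∧ σ.symm e ∉ E₁
  let B₂ : Finset E := univ.filter fun e => e ∉ E₁ ∧ σ.symm e ∈ E₁
  have hB₂ : #B₂ ≤ 1 := by
    refine le_trans (le_of_eq ?_) h1
    apply Finset.card_bij (fun e _ => σ.symm e)
    · intro e he
      simp only [B₂, mem_filter, mem_univ, true_and] at he ⊢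
      exact ⟨he.2, by simpa using he.1⟩
    · intro a _ b _ h
      exact σ.symm.injective h
    · intro b hb
      simp only [mem_filter] at hb
      exact ⟨σ b, by simp [B₂, hb.1, hb.2], by simp⟩
  have hB₁ : #B₁ ≤ 1 := by
    rw [← card_entry_eq_exit] at h1
    refine le_trans (le_of_eq ?_) h1
    apply Finset.card_bij (fun e _ => σ.symm e)
    · intro e he
      simp only [B₁, mem_filter, mem_univ, true_and, mem_compl] at he ⊢
      exact ⟨he.2, by simpa using he.1⟩
    · intro a _ b _ h
      exact σ.symm.injective h
    · intro b hb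
      simp only [mem_filter, mem_compl] at hb
      exact ⟨σ b, by simp [B₁, hb.1, hb.2], by simp⟩
  -- the two factors
  let Φ : (E → Λ) → ({e // e ∈ E₁} → n) → (B₂ → n) → K := fun x a h =>
    ∏ e : {e // e ∈ E₁}, M e (x e) (a e)
      (if h' : σ e ∈ E₁ then a ⟨σ e, h'⟩ else h ⟨σ e, by simp [B₂, h', e.2]⟩)
  let Ψ : (E → Λ) → (B₁ → n) → ({e // e ∉ E₁} → n) → K := fun y g b =>
    ∏ e : {e // e ∉ E₁}, M e (y e) (b e)
      (if h' : σ e ∉ E₁ then b ⟨σ e, h'⟩ else g ⟨σ e, by simpa [B₁, e.2] using h'⟩)
  let ρ : ({e // e ∈ E₁} → n) → (B₁ → n) := fun a e => a ⟨e, by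
    have := e.2; simp only [B₁, mem_filter] at this; exact this.2.1⟩
  let τ : ({e // e ∉ E₁} → n) → (B₂ → n) := fun b e => b ⟨e, by
    have := e.2; simp only [B₂, mem_filter] at this; exact this.2.1⟩
  have hT : ∀ x y : E → Λ, T (fun e => M e (if e ∈ E₁ then x e else y e)) σ =
      ∑ a, ∑ b, Φ x a (τ b) * Ψ y (ρ a) b := by
    intro x y
    unfold T
    rw [← (Equiv.piEquivPiSubtypeProd (fun e => e ∈ E₁) (fun _ => n)).symm.sum_comp,
      Fintype.sum_prod_type]
    apply sum_congr rfl
    intro a _
    apply sum_congr rfl
    intro b _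
    rw [← Fintype.prod_subtype_mul_prod_subtype (fun e => e ∈ E₁)]
    congr 1
    · simp only [Φ]
      refine Finset.prod_congr (by ext; simp) ?_
      intro e _
      simp only [Equiv.piEquivPiSubtypeProd_symm_apply, e.2, if_true, dif_pos]
      congr 1
    · simp only [Ψ]
      refine Finset.prod_congr (by ext; simp) ?_
      intro e _
      simp only [Equiv.piEquivPiSubtypeProd_symm_apply, e.2, if_false, dif_neg,
        not_false_eq_true]
      congr 1
      by_cases h' : σ e ∈ E₁
      · simp [h', ρ]
      · simp [h']
  let U : Matrix (E → Λ) ((B₁ → n) × (B₂ → n)) K := Matrix.of fun x p =>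
    ∑ a, if ρ a = p.1 then Φ x a p.2 else 0
  let V : Matrix ((B₁ → n) × (B₂ → n)) (E → Λ) K := Matrix.of fun p y =>
    ∑ b, if τ b = p.2 then Ψ y p.1 b else 0
  have hUV : (Matrix.of fun x y : E → Λ => T (fun e => M e (if e ∈ E₁ then x e else y e)) σ) =
      U * V := by
    ext x y
    rw [Matrix.of_apply, hT, sum_separate, Matrix.mul_apply]
    rfl
  rw [hUV]
  have hn : 1 ≤ Fintype.card n := Fintype.card_pos
  calc (U * V).rank ≤ U.rank := Matrix.rank_mul_le_left U V
    _ ≤ Fintype.card ((B₁ → n) × (B₂ → n)) := Matrix.rank_le_card_width U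
    _ = Fintype.card n ^ #B₁ * Fintype.card n ^ #B₂ := by
        rw [Fintype.card_prod, Fintype.card_fun, Fintype.card_fun, Fintype.card_coe,
          Fintype.card_coe]
    _ = Fintype.card n ^ (#B₁ + #B₂) := by rw [pow_add]
    _ ≤ Fintype.card n ^ 2 := Nat.pow_le_pow_right hn (by omega)

end rank

end PEPolar
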