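import Mathlib
import Pool.Agent.Work.MP_35c45d_lc.SQTheoremAB
import Pool.Agent.Work.MP_35c45d_lc.SQBorder

/-! Lower bound for the border determinantal complexity of `x_1^d + ... + x_N^d`. -/

set_option autoImplicit false

namespace Pool.Agent.Work.MP_35c45d_lc.PS

open MvPolynomial SQ

/-- `1 + ∑ x_i^d` -/
noncomputable def aff (N d : ℕ) : MvPolynomial (Fin N) ℂ := 1 + ∑ i, X i ^ d

theorem eval_aff {N d : ℕ} (x : Fin N → ℂ) : eval x (aff N d) = 1 + ∑ i, x i ^ d := by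
  simp [aff]

theorem pderiv_aff {N d : ℕ} (i : Fin N) :
    pderiv i (aff N d) = C (d : ℂ) * X i ^ (d - 1) := by
  classical
  unfold aff
  rw [map_add, map_sum, Finset.sum_eq_single i]
  · rw [pderiv_pow, pderiv_X_self]
    simp
  · intro j _ hj
    rw [pderiv_pow, pderiv_X_of_ne hj]
    simp
  · intro h
    exact absurd (Finset.mem_univ i) h

theorem pderiv2_aff {N d : ℕ} (i j : Fin N) :
    pderiv j (pderiv i (aff N d)) =
      if j = i then C ((d : ℂ) * ((d - 1 : ℕ) : ℂ)) * X i ^ (d - 1 - 1) else 0 := by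
  classical
  rw [pderiv_aff, pderiv_C_mul, pderiv_pow]
  split_ifs with h
  · subst h
    rw [pderiv_X_self, mul_one, C_mul]
    simp [mul_assoc]
  · rw [pderiv_X_of_ne (fun h' => h h'.symm), mul_zero, mul_zero]

/-- critical points -/
theorem isCrit_aff {N d : ℕ} (hd : 2 ≤ d) (c x : Fin N → ℂ) (lam : ℂ) (hlam : lam ≠ 0)
    (hc : ∀ i, c i ≠ 0) (hx : ∀ i, x i ^ (d - 1) = lam * c i) (h0 : 1 + ∑ i, x i ^ d = 0) :
    IsCrit (aff N d) c x := by
  have hd0 : (d : ℂ) ≠ 0 := by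
    exact_mod_cast (by omega : d ≠ 0)
  have hd1 : ((d - 1 : ℕ) : ℂ) ≠ 0 := by
    exact_mod_cast (by omega : d - 1 ≠ 0)
  have hxi : ∀ i, x i ≠ 0 := by
    intro i h
    have h1 := hx i
    rw [h, zero_pow (by omega)] at h1
    exact mul_ne_zero hlam (hc i) h1.symm
  refine ⟨by rw [eval_aff]; exact h0, ⟨d * lam, mul_ne_zero hd0 hlam, fun i => ?_⟩, ?_⟩
  · rw [pderiv_aff]
    simp only [map_mul, eval_C, map_pow, eval_X]
    rw [hx]
    ring
  · rintro u hu ⟨τ, hτ⟩
    -- `u = s x`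
    set s : ℂ := τ / (d * ((d - 1 : ℕ) : ℂ) * lam) with hs
    have hus : ∀ i, u i = s * x i := by
      intro i
      have h1 := hτ i
      rw [Finset.sum_eq_single i] at h1
      · rw [pderiv2_aff, if_pos rfl] at h1
        simp only [map_mul, eval_C, map_pow, eval_X] at h1
        have h2 : x i ^ (d - 1 - 1) * x i = lam * c i := by
          rw [← pow_succ, ← hx i]
          congr 1
          omega
        have h3 : u i * (d * ((d - 1 : ℕ) : ℂ) * lam) = τ * x i := by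
          have h4 : u i * ((d : ℂ) * ((d - 1 : ℕ) : ℂ)) * (lam * c i) = τ * c i * x i := by
            rw [← h2]
            linear_combination x i * h1
          apply mul_right_cancel₀ (hc i)
          linear_combination h4
        rw [hs, div_mul_eq_mul_div, eq_div_iff]
        · exact h3
        · exact mul_ne_zero (mul_ne_zero hd0 hd1) hlam
      · intro j _ hj
        rw [pderiv2_aff, if_neg hj, map_zero, mul_zero]
      · intro h
        exact absurd (Finset.mem_univ i) h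
    have h5 : ∑ i, u i * eval x (pderiv i (aff N d)) = s * d * ∑ i, x i ^ d := by
      rw [Finset.mul_sum]
      refine Finset.sum_congr rfl fun i _ => ?_
      rw [pderiv_aff, hus]
      simp only [map_mul, eval_C, map_pow, eval_X]
      have h6 : x i ^ d = x i ^ (d - 1) * x i := by
        rw [← pow_succ]
        congr 1
        omega
      rw [h6]
      ring
    rw [hu] at h5
    have h7 : ∑ i, x i ^ d = -1 := by linear_combination h0
    rw [h7] at h5
    have h8 : s = 0 := by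
      rcases mul_eq_zero.1 h5.symm with h | h
      · rcases mul_eq_zero.1 h with h | h
        · exact h
        · exact absurd h hd0
      · norm_num at h
    funext i
    rw [hus, h8, zero_mul]
    rfl

/-- radii -/
noncomputable def rad {M : ℕ} (i : Fin (M + 1)) : ℝ := (1 / 3) ^ (i : ℕ)

theorem rad_pos {M : ℕ} (i : Fin (M + 1)) : 0 < rad i := by
  unfold rad
  positivity

theorem sum_rad_lt (M d : ℕ) (hd : 1 ≤ d) : ∑ i : Fin M, rad (i.succ) ^ d < 1 := by
  have h1 : ∀ i : Fin M, rad (i.succ) ^ d ≤ (1 / 3 : ℝ) ^ ((i : ℕ) + 1) := by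
    intro i
    unfold rad
    rw [Fin.val_succ, ← pow_mul]
    apply pow_le_pow_of_le_one (by norm_num) (by norm_num)
    nlinarith
  have h2 : ∀ M : ℕ, ∑ i ∈ Finset.range M, (1 / 3 : ℝ) ^ (i + 1) = (1 - (1 / 3) ^ M) / 2 := by
    intro M
    induction M with
    | zero => simp
    | succ M ih =>
      rw [Finset.sum_range_succ, ih, pow_succ]
      ring
  calc ∑ i : Fin M, rad (i.succ) ^ d ≤ ∑ i : Fin M, (1 / 3 : ℝ) ^ ((i : ℕ) + 1) :=
        Finset.sum_le_sum fun i _ => h1 i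
    _ = ∑ i ∈ Finset.range M, (1 / 3 : ℝ) ^ (i + 1) :=
        Fin.sum_univ_eq_sum_range (fun i => (1 / 3 : ℝ) ^ (i + 1)) M
    _ = (1 - (1 / 3) ^ M) / 2 := h2 M
    _ < 1 := by
        have : (0 : ℝ) < (1 / 3) ^ M := by positivity
        linarith

/-- the points -/
theorem exists_points (M q : ℕ) (hq : 1 ≤ q) :
    ∃ (c : Fin (M + 1) → ℂ) (x : Fin (q + 1) × (Fin M → Fin q) → Fin (M + 1) → ℂ), c ≠ 0 ∧
      Function.Injective x ∧ ∀ p, IsCrit (aff (M + 1) (q + 1)) c (x p) := by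
  classical
  obtain ⟨ζ, hζ⟩ : ∃ ζ : ℂ, IsPrimitiveRoot ζ q := ⟨_, Complex.isPrimitiveRoot_exp q (by omega)⟩
  obtain ⟨η, hη⟩ : ∃ η : ℂ, IsPrimitiveRoot η (q + 1) :=
    ⟨_, Complex.isPrimitiveRoot_exp (q + 1) (by omega)⟩
  -- phases
  set ph : (Fin M → Fin q) → Fin (M + 1) → ℂ := fun a =>
    Fin.cons 1 (fun i => ζ ^ (a i : ℕ)) with hph
  have hph1 : ∀ a i, ph a i ^ q = 1 := by
    intro a i
    refine Fin.cases ?_ (fun k => ?_) i
    · simp [hph]
    · simp only [hph, Fin.cons_succ]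
      rw [← pow_mul, mul_comm, pow_mul, hζ.pow_eq_one, one_pow]
  have hnorm : ∀ a i, ‖ph a i‖ = 1 := by
    intro a i
    exact Complex.norm_eq_one_of_pow_eq_one (hph1 a i) (by omega)
  set S : (Fin M → Fin q) → ℂ := fun a => ∑ i, ph a i * (rad i : ℂ) ^ (q + 1) with hS
  have hS0 : ∀ a, S a ≠ 0 := by
    intro a h
    have h1 : S a = 1 + ∑ i : Fin M, ph a i.succ * (rad i.succ : ℂ) ^ (q + 1) := by
      simp only [hS]
      rw [Fin.sum_univ_succ]
      simp [hph, rad]
    rw [h1] at h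
    have h2 : ‖∑ i : Fin M, ph a i.succ * (rad i.succ : ℂ) ^ (q + 1)‖ < 1 := by
      refine lt_of_le_of_lt (norm_sum_le _ _) ?_
      refine lt_of_le_of_lt (Finset.sum_le_sum fun i _ => ?_) (sum_rad_lt M (q + 1) (by omega))
      · rw [norm_mul, hnorm, one_mul, norm_pow, Complex.norm_real, Real.norm_of_nonneg
          (rad_pos _).le]
    have h3 : ∑ i : Fin M, ph a i.succ * (rad i.succ : ℂ) ^ (q + 1) = -1 := by
      linear_combination h
    rw [h3] at h2
    simp at h2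
  have hmu : ∀ a, ∃ μ : ℂ, μ ^ (q + 1) = -(S a)⁻¹ := fun a =>
    IsAlgClosed.exists_pow_nat_eq _ (by omega)
  choose μ hμ using hmu
  have hμ0 : ∀ a, μ a ≠ 0 := by
    intro a h
    have h1 := hμ a
    rw [h, zero_pow (by omega)] at h1
    exact (neg_ne_zero.2 (inv_ne_zero (hS0 a))) h1.symm
  have hη0 : η ≠ 0 := hη.ne_zero (by omega)
  have hrad0 : ∀ i : Fin (M + 1), (rad i : ℂ) ≠ 0 := fun i => by
    exact_mod_cast (rad_pos i).ne'
  refine ⟨fun i => (rad i : ℂ) ^ q, fun p i => μ p.2 * η ^ (p.1 : ℕ) * ph p.2 i * rad i, ?_, ?_, ?_⟩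
  · intro h
    have h1 := congrFun h 0
    exact pow_ne_zero q (hrad0 0) h1
  · rintro ⟨k, a⟩ ⟨k', a'⟩ h
    have h0 := congrFun h 0
    simp only [hph, Fin.cons_zero, mul_one] at h0
    have h0' : μ a * η ^ (k : ℕ) = μ a' * η ^ (k' : ℕ) := mul_right_cancel₀ (hrad0 0) h0
    have haa : a = a' := by
      funext i
      have h1 := congrFun h i.succ
      simp only [hph, Fin.cons_succ] at h1
      have h2 := mul_right_cancel₀ (hrad0 i.succ) h1
      rw [h0'] at h2
      have h3 := mul_left_cancel₀ (mul_ne_zero (hμ0 a') (pow_ne_zero _ hη0)) h2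
      exact Fin.ext (hζ.pow_inj (a i).2 (a' i).2 h3)
    subst haa
    have h4 := mul_left_cancel₀ (hμ0 a) h0'
    have h5 : k = k' := Fin.ext (hη.pow_inj k.2 k'.2 h4)
    rw [h5]
  · rintro ⟨k, a⟩
    refine isCrit_aff (by omega) _ _ ((μ a * η ^ (k : ℕ)) ^ q) (pow_ne_zero _
      (mul_ne_zero (hμ0 a) (pow_ne_zero _ hη0))) (fun i => pow_ne_zero q (hrad0 i)) ?_ ?_
    · intro i
      simp only [Nat.add_sub_cancel]
      rw [mul_pow, mul_pow, hph1, mul_one]
    · have h1 : ∀ i, (μ a * η ^ (k : ℕ) * ph a i * (rad i : ℂ)) ^ (q + 1) =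
          -(S a)⁻¹ * (ph a i * (rad i : ℂ) ^ (q + 1)) := by
        intro i
        rw [mul_pow, mul_pow, mul_pow, hμ, ← pow_mul, mul_comm (k : ℕ), pow_mul, hη.pow_eq_one,
          one_pow, pow_succ (ph a i), hph1]
        ring
      simp only
      rw [Finset.sum_congr rfl fun i _ => h1 i, ← Finset.mul_sum]
      have h2 : ∑ i, ph a i * (rad i : ℂ) ^ (q + 1) = S a := rfl
      rw [h2]
      have := hS0 a
      field_simp
      ring

/-- lower bound in the affine form -/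
theorem lower_aff (M d n : ℕ) (hd : 2 ≤ d) (h : BorderDet n (aff (M + 1) d)) :
    ((M : ℝ) + 1) * ((d : ℝ) - 1) ≤ 4 * Real.exp 1 * n := by
  obtain ⟨q, rfl⟩ : ∃ q, d = q + 1 := ⟨d - 1, by omega⟩
  obtain ⟨c, x, hc, hinj, hx⟩ := exists_points M q (by omega)
  have h1 := theoremA_border h c hc x hinj hx
  rw [Fintype.card_prod, Fintype.card_fun, Fintype.card_fin, Fintype.card_fin, Fintype.card_fin,
    Fintype.card_fin] at h1
  have h2 : (q : ℝ) ^ (M + 1) ≤ (((q + 1) * q ^ M : ℕ) : ℝ) := by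
    push_cast
    rw [pow_succ, mul_comm]
    exact mul_le_mul_of_nonneg_right (by linarith) (by positivity)
  have h3 : (q : ℝ) ^ (M + 1) ≤ (4 * Real.exp 1 * n / ((M + 1 : ℕ) : ℝ)) ^ (M + 1) :=
    h2.trans h1
  have h4 : (q : ℝ) ≤ 4 * Real.exp 1 * n / ((M + 1 : ℕ) : ℝ) :=
    le_of_pow_le_pow_left₀ (by omega) (by positivity) h3
  have h5 : (0 : ℝ) < ((M + 1 : ℕ) : ℝ) := by positivity
  rw [le_div_iff₀ h5] at h4
  push_cast at h4 ⊢
  linarith

/-- **lower bound**: `(N - 1) (d - 1) ≤ 4 e n`. -/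
theorem lower (N d n : ℕ) (hd : 1 ≤ d) (h : BorderDet n (∑ i : Fin N, X i ^ d)) :
    ((N : ℝ) - 1) * ((d : ℝ) - 1) ≤ 4 * Real.exp 1 * n := by
  have hd' : (1 : ℝ) ≤ d := by exact_mod_cast hd
  have hn : (0 : ℝ) ≤ 4 * Real.exp 1 * n := by positivity
  rcases Nat.lt_or_ge N 2 with hN | hN
  · have : (N : ℝ) ≤ 1 := by exact_mod_cast (by omega : N ≤ 1)
    nlinarith
  rcases Nat.lt_or_ge d 2 with hd2 | hd2
  · have : (d : ℝ) = 1 := by exact_mod_cast (by omega : d = 1)
    rw [this]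
    simpa using hn
  obtain ⟨M, rfl⟩ : ∃ M, N = M + 2 := ⟨N - 2, by omega⟩
  have h1 := h.subst (Fin.cons 1 (fun i => X i) : Fin (M + 2) → MvPolynomial (Fin (M + 1)) ℂ) (by
    intro i
    refine Fin.cases ?_ (fun k => ?_) i
    · simp
    · simp [totalDegree_X])
  have h2 : aeval (Fin.cons 1 (fun i => X i) : Fin (M + 2) → MvPolynomial (Fin (M + 1)) ℂ)
      (∑ i : Fin (M + 2), (X i : MvPolynomial (Fin (M + 2)) ℂ) ^ d) = aff (M + 1) d := by
    rw [map_sum, Fin.sum_univ_succ]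
    simp [aff]
  rw [h2] at h1
  have h3 := lower_aff M d n hd2 h1
  push_cast
  linarith

end Pool.Agent.Work.MP_35c45d_lc.PS
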