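import Mathlib

/-! Upper bound: `x_1^d + ... + x_N^d` is the determinant of a matrix of affine linear forms of size
`N (d - 1) + 1`. -/

set_option autoImplicit false

namespace Pool.Agent.Work.MP_35c45d_lc.PS

open MvPolynomial Matrix

/-- the block of the variable `x` -/
def blk {R : Type*} [CommRing R] (q : ℕ) (x : R) : Matrix (Fin q) (Fin q) R :=
  fun k l => if k = l then 1 else if (k : ℕ) + 1 = l then -x else 0

theorem det_blk {R : Type*} [CommRing R] (q : ℕ) (x : R) : (blk q x).det = 1 := by
  rw [Matrix.det_of_isUpperTriangular]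
  · simp [blk]
  · intro k l h
    simp only [id] at h
    unfold blk
    rw [if_neg h.ne', if_neg]
    have : (l : ℕ) < k := h
    omega

theorem blk_mulVec {R : Type*} [CommRing R] (q : ℕ) (x : R) (k : Fin q) :
    ∑ l, blk q x k l * x ^ (q - (l : ℕ)) = if (k : ℕ) + 1 = q then x else 0 := by
  by_cases hk : (k : ℕ) + 1 = q
  · rw [if_pos hk, Finset.sum_eq_single k]
    · simp only [blk, if_true, one_mul]
      have : q - (k : ℕ) = 1 := by omega
      rw [this, pow_one]
    · intro l _ hl
      unfold blk
      rw [if_neg hl.symm, if_neg, zero_mul]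
      have := l.2
      omega
    · intro h
      exact absurd (Finset.mem_univ k) h
  · rw [if_neg hk]
    have hk2 : (k : ℕ) + 1 < q := by
      have := k.2
      omega
    have hne : k ≠ ⟨(k : ℕ) + 1, hk2⟩ := by
      intro h
      have := congrArg Fin.val h
      simp at this
    rw [Finset.sum_eq_add k ⟨(k : ℕ) + 1, hk2⟩ hne]
    · simp only [blk, if_true, one_mul]
      rw [if_neg hne]
      have h1 : q - (k : ℕ) = (q - ((k : ℕ) + 1)) + 1 := by omega
      rw [h1, pow_succ]
      ring
    · intro l _ hl
      unfold blk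
      rw [if_neg (fun h => hl.1 h.symm), if_neg, zero_mul]
      intro h
      exact hl.2 (Fin.ext h.symm)
    · intro h
      exact absurd (Finset.mem_univ k) h
    · intro h
      exact absurd (Finset.mem_univ _) h

/-- the matrix -/
noncomputable def upMat (N q : ℕ) :
    Matrix (Unit ⊕ (Fin q × Fin N)) (Unit ⊕ (Fin q × Fin N)) (MvPolynomial (Fin N) ℂ) :=
  fromBlocks 0 (fun _ p => if (p.1 : ℕ) = 0 then -X p.2 else 0)
    (fun p _ => if (p.1 : ℕ) + 1 = q then X p.2 else 0)
    (blockDiagonal fun i => blk q (X i))

theorem det_upMat (N q : ℕ) (hq : 1 ≤ q) : (upMat N q).det = ∑ i, X i ^ (q + 1) := by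
  classical
  set u : Matrix (Fin q × Fin N) Unit (MvPolynomial (Fin N) ℂ) :=
    fun p _ => X p.2 ^ (q - (p.1 : ℕ)) with hu
  have h1 : upMat N q * fromBlocks 1 0 (-u) 1 =
      fromBlocks (fun _ _ => ∑ i, X i ^ (q + 1))
        (fun _ p => if (p.1 : ℕ) = 0 then -X p.2 else 0) 0
        (blockDiagonal fun i => blk q (X i)) := by
    unfold upMat
    rw [fromBlocks_multiply]
    congr 1
    · rw [zero_mul, zero_add]
      ext1 a b
      rw [Matrix.mul_apply, Fintype.sum_prod_type_right]
      refine Finset.sum_congr rfl fun i _ => ?_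
      rw [Finset.sum_eq_single ⟨0, hq⟩]
      · simp only [if_true, Matrix.neg_apply, hu, Nat.sub_zero, pow_succ]
        ring
      · intro k _ hk
        rw [if_neg, zero_mul]
        intro h
        exact hk (Fin.ext h)
      · intro h
        exact absurd (Finset.mem_univ _) h
    · rw [Matrix.mul_zero, Matrix.mul_one, zero_add]
    · rw [Matrix.mul_one]
      ext1 p b
      rw [Matrix.add_apply, Matrix.mul_apply, Fintype.sum_prod_type_right]
      simp only [blockDiagonal_apply, Matrix.neg_apply, hu, Matrix.zero_apply]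
      rw [Finset.sum_eq_single p.2]
      · have h2 := blk_mulVec q (X p.2 : MvPolynomial (Fin N) ℂ) p.1
        rw [← h2, ← Finset.sum_add_distrib]
        refine Finset.sum_eq_zero fun k _ => ?_
        rw [if_pos rfl]
        ring
      · intro i _ hi
        refine Finset.sum_eq_zero fun k _ => ?_
        rw [if_neg (fun h => hi h.symm), zero_mul]
      · intro h
        exact absurd (Finset.mem_univ _) h
    · rw [Matrix.mul_zero, Matrix.mul_one, zero_add]
  have h2 := congrArg Matrix.det h1
  rw [Matrix.det_mul, Matrix.det_fromBlocks_zero₁₂, Matrix.det_fromBlocks_zero₂₁, Matrix.det_one,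
    Matrix.det_one, mul_one, mul_one, Matrix.det_blockDiagonal] at h2
  rw [h2, Finset.prod_congr rfl fun i _ => det_blk q (X i), Finset.prod_const_one, mul_one]
  simp

theorem upMat_deg (N q : ℕ) (a b : Unit ⊕ (Fin q × Fin N)) : (upMat N q a b).totalDegree ≤ 1 := by
  classical
  unfold upMat
  rcases a with a | p <;> rcases b with b | p'
  · simp
  · rw [fromBlocks_apply₁₂]
    split_ifs
    · rw [totalDegree_neg]
      simp [totalDegree_X]
    · simp
  · rw [fromBlocks_apply₂₁]
    split_ifs
    · simp [totalDegree_X]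
    · simp
  · rw [fromBlocks_apply₂₂, blockDiagonal_apply]
    unfold blk
    split_ifs
    · simp
    · rw [totalDegree_neg]
      simp [totalDegree_X]
    · simp
    · simp

/-- **upper bound** -/
theorem upper (N d : ℕ) (hd : 1 ≤ d) :
    ∃ A : Matrix (Fin (N * (d - 1) + 1)) (Fin (N * (d - 1) + 1)) (MvPolynomial (Fin N) ℂ),
      (∀ i j, (A i j).totalDegree ≤ 1) ∧ A.det = ∑ i, X i ^ d := by
  classical
  rcases Nat.lt_or_ge d 2 with h | h
  · have hd1 : d = 1 := by omega
    subst hd1
    refine ⟨Matrix.diagonal (fun i => if i = 0 then ∑ i, X i else 1), ?_, ?_⟩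
    · intro i j
      rw [Matrix.diagonal_apply]
      split_ifs
      · refine (totalDegree_finsetSum _ _).trans ?_
        refine Finset.sup_le fun i _ => ?_
        simp [totalDegree_X]
      · simp
      · simp
    · rw [Matrix.det_diagonal, Finset.prod_eq_single 0]
      · simp
      · intro b _ hb
        rw [if_neg hb]
      · intro h
        exact absurd (Finset.mem_univ _) h
  · obtain ⟨q, rfl⟩ : ∃ q, d = q + 1 := ⟨d - 1, by omega⟩
    have hcard : Fintype.card (Unit ⊕ (Fin q × Fin N)) = N * (q + 1 - 1) + 1 := by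
      simp
      ring
    set e := Fintype.equivFinOfCardEq hcard
    refine ⟨(upMat N q).submatrix e.symm e.symm, ?_, ?_⟩
    · intro i j
      exact upMat_deg N q _ _
    · rw [Matrix.det_submatrix_equiv_self]
      exact det_upMat N q (by omega)

end Pool.Agent.Work.MP_35c45d_lc.PS
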