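import Pool.Agent.Work.MP_35c45d_lc.PEFinal

set_option autoImplicit false

namespace Pool.Agent.Work.MP_35c45d_lc.PermutationEquivariantOld

open MvPolynomial Filter Topology

/-- The permanent of the `m × m` matrix of variables, as a polynomial in the `m ^ 2` variables. -/
noncomputable def permPoly (m : ℕ) : MvPolynomial (Fin m × Fin m) ℂ :=
  (Matrix.of fun i j : Fin m => (X (i, j) : MvPolynomial (Fin m × Fin m) ℂ)).permanent

/-- `π` is an even permutation of the indices, maps each of the triples `{3k, 3k+1, 3k+2}` with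
`k < t` to itself, and fixes every index `≥ 3t`. -/
def EvenTriplePerm (m t : ℕ) (π : Equiv.Perm (Fin m)) : Prop :=
  Equiv.Perm.sign π = 1 ∧ (∀ i, (π i : ℕ) / 3 = (i : ℕ) / 3) ∧
    ∀ i : Fin m, 3 * t ≤ (i : ℕ) → π i = i

/-- Permuting the rows and the columns of the matrix of variables simultaneously by `π` changes
the matrix of polynomials `A` only by `Y ↦ G Y H` or `Y ↦ G Yᵀ H` with invertible constant
matrices `G`, `H`. -/
def Respects {m n : ℕ} (A : Matrix (Fin n) (Fin n) (MvPolynomial (Fin m × Fin m) ℂ))
    (π : Equiv.Perm (Fin m)) : Prop :=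
  ∃ G H : Matrix (Fin n) (Fin n) ℂ, G.det ≠ 0 ∧ H.det ≠ 0 ∧
    (A.map (rename fun q => (π q.1, π q.2)) = G.map C * A * H.map C ∨
     A.map (rename fun q => (π q.1, π q.2)) = G.map C * A.transpose * H.map C)

/-- Permutation-equivariant determinantal expressions of the permanent have exponential size:
if the `m × m` permanent is a coefficientwise limit of (sums of) determinants of `n × n` matrices
of polynomials of degree at most `max 1 u`, `u = (t - 1) / 20`, each equivariant under the even
permutations that preserve the first `t` triples of indices, then `2 ^ u ≤ 2 n ^ 2`. For sums of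
several determinants each matrix is asked to be nonsingular at some invariant point; for a single
determinant nothing is asked. -/
theorem result (m n t : ℕ) (hm : 1 ≤ m) (ht : 3 * t ≤ m) (N : ℕ → ℕ)
    (A : (k : ℕ) → Fin (N k) → Matrix (Fin n) (Fin n) (MvPolynomial (Fin m × Fin m) ℂ))
    (hdeg : ∀ k s i j, (A k s i j).totalDegree ≤ max 1 ((t - 1) / 20))
    (hsym : ∀ k s π, EvenTriplePerm m t π → Respects (A k s) π)
    (hns : ∀ k, N k = 1 ∨ ∀ s, ∃ X₀ : Fin m × Fin m → ℂ,
      (∀ π, EvenTriplePerm m t π → ∀ i j, X₀ (π i, π j) = X₀ (i, j)) ∧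
      ((A k s).map (eval X₀)).det ≠ 0)
    (hlim : ∀ d, Tendsto (fun k => coeff d (∑ s, (A k s).det)) atTop
      (𝓝 (coeff d (permPoly m)))) :
    2 ^ ((t - 1) / 20) ≤ 2 * n ^ 2 :=
  Pool.MP_35c45d_lc.PermEq2.main_all m n t hm ht N A hdeg hsym hns hlim

end Pool.Agent.Work.MP_35c45d_lc.PermutationEquivariantOld
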