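import Pool.Agent.Work.MP_35c45d_lc.Core
import Pool.Agent.Work.MP_35c45d_lc.Brackets

set_option autoImplicit false

namespace Pool.Agent.Work.MP_35c45d_lc

open Matrix Polynomial Finset

section jets

variable {K : Type*} [Field K] {α : Type*} [DecidableEq α]

theorem jet_prod (s : Finset α) (a : α → K) :
    (∏ i ∈ s, (C 1 + X * C (a i))).coeff 0 = 1 ∧
    (∏ i ∈ s, (C 1 + X * C (a i))).coeff 1 = ∑ i ∈ s, a i ∧
    2 * (∏ i ∈ s, (C 1 + X * C (a i))).coeff 2 = ∑ i ∈ s, ∑ k ∈ s.erase i, a i * a k := by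
  have hsq : ∀ s : Finset α, ∑ i ∈ s, ∑ k ∈ s.erase i, a i * a k
      = (∑ i ∈ s, a i) ^ 2 - ∑ i ∈ s, a i * a i := by
    intro s
    have : ∀ i ∈ s, ∑ k ∈ s.erase i, a i * a k = a i * ∑ k ∈ s, a k - a i * a i := by
      intro i hi
      rw [← Finset.mul_sum, ← Finset.add_sum_erase s a hi]
      ring
    rw [Finset.sum_congr rfl this, Finset.sum_sub_distrib, ← Finset.sum_mul]
    ring
  rw [hsq]
  induction s using Finset.induction_on with
  | empty => simp [coeff_one]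
  | insert b s hb ih =>
    obtain ⟨i0, i1, i2⟩ := ih
    rw [Finset.prod_insert hb, Finset.sum_insert hb, Finset.sum_insert hb]
    set p := ∏ i ∈ s, (C 1 + X * C (a i)) with hp
    have e : (C 1 + X * C (a b)) * p = p + X * (C (a b) * p) := by
      rw [C_1]; ring
    rw [e]
    refine ⟨?_, ?_, ?_⟩
    · simp [i0]
    · rw [coeff_add, show (1 : ℕ) = 0 + 1 from rfl, coeff_X_mul, coeff_C_mul, i0]
      simp [i1, add_comm]
    · rw [coeff_add, show (2 : ℕ) = 1 + 1 from rfl, coeff_X_mul, coeff_C_mul, i1]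
      simp only [show (1 + 1 : ℕ) = 2 from rfl]
      rw [mul_add, i2]
      ring

/-- jets of `P * (b + X c)` -/
theorem jet_mul (P : K[X]) (b c : K) :
    (P * (C b + X * C c)).coeff 0 = P.coeff 0 * b ∧
    (P * (C b + X * C c)).coeff 1 = P.coeff 1 * b + P.coeff 0 * c ∧
    (P * (C b + X * C c)).coeff 2 = P.coeff 2 * b + P.coeff 1 * c := by
  have e : P * (C b + X * C c) = P * C b + X * (P * C c) := by ring
  rw [e]
  refine ⟨?_, ?_, ?_⟩
  · simp
  · rw [coeff_add, show (1 : ℕ) = 0 + 1 from rfl, coeff_X_mul]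
    simp
  · rw [coeff_add, show (2 : ℕ) = 1 + 1 from rfl, coeff_X_mul]
    simp

end jets

section point

variable {K : Type*} [Field K] (q : ℕ)

/-- the special zero of the permanent -/
def xpt : Matrix (Fin q ⊕ Fin 2) (Fin q ⊕ Fin 2) K :=
  Matrix.of (Sum.elim (fun _ _ => 1) ![y1 q, y2 q])

/-- the parameter space of directions: big rows (`q` of them, supported on the first `q+1`
columns) and one special row supported on the big columns -/
abbrev VV (q : ℕ) (K : Type*) := (Fin q → Fin (q + 1) → K) × (Fin q → K)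

variable {q}

/-- a big row -/
def zrow (Z : Fin (q + 1) → K) : Fin q ⊕ Fin 2 → K :=
  Sum.elim (fun j => Z j.castSucc) ![Z (Fin.last q), 0]

/-- the special row -/
def wrow (w : Fin q → K) : Fin q ⊕ Fin 2 → K := Sum.elim w (fun _ => 0)

/-- direction matrix -/
def dirM : VV q K →ₗ[K] Matrix (Fin q ⊕ Fin 2) (Fin q ⊕ Fin 2) K where
  toFun e := Matrix.of (Sum.elim (fun i => zrow (e.1 i)) ![0, wrow e.2])
  map_add' := by
    intro a b
    ext1 i j
    rcases i with i | i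
    · rcases j with j | j
      · simp [zrow]
      · fin_cases j <;> simp [zrow]
    · fin_cases i
      · simp
      · rcases j with j | j <;> simp [wrow]
  map_smul' := by
    intro c a
    ext1 i j
    rcases i with i | i
    · rcases j with j | j
      · simp [zrow]
      · fin_cases j <;> simp [zrow]
    · fin_cases i
      · simp
      · rcases j with j | j <;> simp [wrow]

theorem zrow_inr1 (Z : Fin (q + 1) → K) : zrow Z (Sum.inr 1) = 0 := rfl

theorem sum_zrow (Z : Fin q → Fin (q + 1) → K) (s : Finset (Fin q)) :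
    ∑ i ∈ s, zrow (Z i) = zrow (∑ i ∈ s, Z i) := by
  funext j
  rw [Finset.sum_apply]
  rcases j with j | j
  · simp [zrow]
  · fin_cases j <;> simp [zrow]

/-- update of special row 0 -/
theorem perm_row0 (e : VV q K) (y : Fin q ⊕ Fin 2 → K) :
    (((xpt q).map C + (X : K[X]) • (dirM e).map C).updateRow (Sum.inr 0)
      (fun j => C (y j))).permanent
    = ∑ σ : Equiv.Perm (Fin q ⊕ Fin 2), C (y (σ (Sum.inr 0))) *
        ((∏ i : Fin q, (C 1 + X * C (zrow (e.1 i) (σ (Sum.inl i)))))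
          * (C (y2 q (σ (Sum.inr 1))) + X * C (wrow e.2 (σ (Sum.inr 1))))) := by
  rw [permanent_rows]
  refine Finset.sum_congr rfl fun σ _ => ?_
  rw [Fintype.prod_sum_type, Fin.prod_univ_two]
  have h1 : ∀ i : Fin q, (((xpt q).map C + (X : K[X]) • (dirM e).map C).updateRow (Sum.inr 0)
      (fun j => C (y j))) (Sum.inl i) (σ (Sum.inl i))
      = C 1 + X * C (zrow (e.1 i) (σ (Sum.inl i))) := by
    intro i
    rw [Matrix.updateRow_ne (by simp)]
    simp [xpt, dirM]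
  simp only [h1]
  rw [Matrix.updateRow_self, Matrix.updateRow_ne (by simp)]
  have h2 : ((xpt q).map C + (X : K[X]) • (dirM e).map C : Matrix _ _ K[X]) (Sum.inr 1) (σ (Sum.inr 1))
      = C (y2 q (σ (Sum.inr 1))) + X * C (wrow e.2 (σ (Sum.inr 1))) := by
    simp [xpt, dirM]
  rw [h2]
  ring

/-- update of a big row -/
theorem perm_rowbig (e : VV q K) (u : Fin q) (y : Fin q ⊕ Fin 2 → K) :
    (((xpt q).map C + (X : K[X]) • (dirM e).map C).updateRow (Sum.inl u)
      (fun j => C (y j))).permanent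
    = ∑ σ : Equiv.Perm (Fin q ⊕ Fin 2), C (y (σ (Sum.inl u)) * y1 q (σ (Sum.inr 0))) *
        ((∏ i ∈ Finset.univ.erase u, (C 1 + X * C (zrow (e.1 i) (σ (Sum.inl i)))))
          * (C (y2 q (σ (Sum.inr 1))) + X * C (wrow e.2 (σ (Sum.inr 1))))) := by
  rw [permanent_rows]
  refine Finset.sum_congr rfl fun σ _ => ?_
  rw [Fintype.prod_sum_type, Fin.prod_univ_two, ← Finset.mul_prod_erase _ _ (Finset.mem_univ u)]
  have h1 : ∀ i ∈ Finset.univ.erase u,
      (((xpt q).map C + (X : K[X]) • (dirM e).map C).updateRow (Sum.inl u)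
      (fun j => C (y j))) (Sum.inl i) (σ (Sum.inl i))
      = C 1 + X * C (zrow (e.1 i) (σ (Sum.inl i))) := by
    intro i hi
    rw [Matrix.updateRow_ne (by simpa using Finset.ne_of_mem_erase hi)]
    simp [xpt, dirM]
  rw [Finset.prod_congr rfl h1]
  rw [Matrix.updateRow_self, Matrix.updateRow_ne (by simp), Matrix.updateRow_ne (by simp)]
  have h2 : ((xpt q).map C + (X : K[X]) • (dirM e).map C : Matrix _ _ K[X]) (Sum.inr 1) (σ (Sum.inr 1))
      = C (y2 q (σ (Sum.inr 1))) + X * C (wrow e.2 (σ (Sum.inr 1))) := by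
    simp [xpt, dirM]
  have h3 : ((xpt q).map C + (X : K[X]) • (dirM e).map C : Matrix _ _ K[X]) (Sum.inr 0) (σ (Sum.inr 0))
      = C (y1 q (σ (Sum.inr 0))) := by
    simp [xpt, dirM]
  rw [h2, h3, C_mul]
  ring

theorem cardN : Fintype.card (Fin q ⊕ Fin 2) = q + 2 := by simp

variable [CharZero K]

theorem row0_coeff0 (e : VV q K) (y : Fin q ⊕ Fin 2 → K) :
    ((((xpt q).map C + (X : K[X]) • (dirM e).map C).updateRow (Sum.inr 0)
      (fun j => C (y j))).permanent).coeff 0 = (Nat.factorial q : ℕ) * br2 y (y2 q) := by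
  rw [perm_row0, finsetSum_coeff]
  have h : ∀ σ : Equiv.Perm (Fin q ⊕ Fin 2), (C (y (σ (Sum.inr 0))) *
        ((∏ i : Fin q, (C 1 + X * C (zrow (e.1 i) (σ (Sum.inl i)))))
          * (C (y2 q (σ (Sum.inr 1))) + X * C (wrow e.2 (σ (Sum.inr 1)))))).coeff 0
      = y (σ (Sum.inr 0)) * y2 q (σ (Sum.inr 1)) := by
    intro σ
    rw [coeff_C_mul, (jet_mul _ _ _).1, (jet_prod _ _).1, one_mul]
  rw [Finset.sum_congr rfl fun σ _ => h σ]
  rw [permSum2 (by rw [cardN]; omega) (Sum.inr 0) (Sum.inr 1) (by simp), cardN]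
  simp

theorem row0_coeff1 (e : VV q K) (hq : 1 ≤ q) (hZ : ∑ i, e.1 i = 0) (y : Fin q ⊕ Fin 2 → K) :
    ((((xpt q).map C + (X : K[X]) • (dirM e).map C).updateRow (Sum.inr 0)
      (fun j => C (y j))).permanent).coeff 1 = (Nat.factorial q : ℕ) * br2 y (wrow e.2) := by
  rw [perm_row0, finsetSum_coeff]
  have h : ∀ σ : Equiv.Perm (Fin q ⊕ Fin 2), (C (y (σ (Sum.inr 0))) *
        ((∏ i : Fin q, (C 1 + X * C (zrow (e.1 i) (σ (Sum.inl i)))))
          * (C (y2 q (σ (Sum.inr 1))) + X * C (wrow e.2 (σ (Sum.inr 1)))))).coeff 1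
      = ∑ i : Fin q, y (σ (Sum.inr 0)) * zrow (e.1 i) (σ (Sum.inl i)) * y2 q (σ (Sum.inr 1))
        + y (σ (Sum.inr 0)) * wrow e.2 (σ (Sum.inr 1)) := by
    intro σ
    rw [coeff_C_mul, (jet_mul _ _ _).2.1, (jet_prod _ _).1, (jet_prod _ _).2.1, one_mul, mul_add,
      Finset.sum_mul, Finset.mul_sum]
    congr 1
    refine Finset.sum_congr rfl fun i _ => ?_
    ring
  rw [Finset.sum_congr rfl fun σ _ => h σ, Finset.sum_add_distrib, Finset.sum_comm]
  have h3 : ∀ i : Fin q, ∑ σ : Equiv.Perm (Fin q ⊕ Fin 2),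
      y (σ (Sum.inr 0)) * zrow (e.1 i) (σ (Sum.inl i)) * y2 q (σ (Sum.inr 1))
      = (Nat.factorial (q + 2 - 3) : ℕ) * br3 y (zrow (e.1 i)) (y2 q) := by
    intro i
    rw [permSum3 (by rw [cardN]; omega) (Sum.inr 0) (Sum.inl i) (Sum.inr 1) (by simp) (by simp)
      (by simp), cardN]
  rw [Finset.sum_congr rfl fun i _ => h3 i, ← Finset.mul_sum, br3_sum2, sum_zrow, hZ]
  rw [permSum2 (by rw [cardN]; omega) (Sum.inr 0) (Sum.inr 1) (by simp), cardN]
  have : (zrow (0 : Fin (q + 1) → K)) = 0 := by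
    funext j
    rcases j with j | j
    · simp [zrow]
    · fin_cases j <;> simp [zrow]
  rw [this]
  simp [br3, br2, sm]

theorem row0_coeff2 (e : VV q K) (hq : 2 ≤ q) (hZ : ∑ i, e.1 i = 0) (y : Fin q ⊕ Fin 2 → K) :
    2 * ((((xpt q).map C + (X : K[X]) • (dirM e).map C).updateRow (Sum.inr 0)
      (fun j => C (y j))).permanent).coeff 2
    = - (Nat.factorial (q - 2) : ℕ) * ∑ i, br4 y (zrow (e.1 i)) (zrow (e.1 i)) (y2 q) := by
  have hz0 : (zrow (0 : Fin (q + 1) → K)) = 0 := by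
    funext j
    rcases j with j | j
    · simp [zrow]
    · fin_cases j <;> simp [zrow]
  rw [perm_row0, finsetSum_coeff, Finset.mul_sum]
  have h : ∀ σ : Equiv.Perm (Fin q ⊕ Fin 2), 2 * (C (y (σ (Sum.inr 0))) *
        ((∏ i : Fin q, (C 1 + X * C (zrow (e.1 i) (σ (Sum.inl i)))))
          * (C (y2 q (σ (Sum.inr 1))) + X * C (wrow e.2 (σ (Sum.inr 1)))))).coeff 2
      = ∑ i : Fin q, ∑ k ∈ Finset.univ.erase i, y (σ (Sum.inr 0)) * zrow (e.1 i) (σ (Sum.inl i))
          * zrow (e.1 k) (σ (Sum.inl k)) * y2 q (σ (Sum.inr 1))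
        + 2 * ∑ i : Fin q, y (σ (Sum.inr 0)) * zrow (e.1 i) (σ (Sum.inl i))
          * wrow e.2 (σ (Sum.inr 1)) := by
    intro σ
    have hj := (jet_prod (Finset.univ) (fun i : Fin q => zrow (e.1 i) (σ (Sum.inl i)))).2.2
    rw [coeff_C_mul, (jet_mul _ _ _).2.2, (jet_prod _ _).2.1]
    have e1 : 2 * (y (σ (Sum.inr 0)) * ((∏ i : Fin q,
          (C 1 + X * C (zrow (e.1 i) (σ (Sum.inl i))))).coeff 2 * y2 q (σ (Sum.inr 1))
          + (∑ i : Fin q, zrow (e.1 i) (σ (Sum.inl i))) * wrow e.2 (σ (Sum.inr 1))))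
        = y (σ (Sum.inr 0)) * (2 * (∏ i : Fin q,
          (C 1 + X * C (zrow (e.1 i) (σ (Sum.inl i))))).coeff 2) * y2 q (σ (Sum.inr 1))
          + 2 * (y (σ (Sum.inr 0)) * (∑ i : Fin q, zrow (e.1 i) (σ (Sum.inl i)))
            * wrow e.2 (σ (Sum.inr 1))) := by ring
    rw [e1, hj]
    simp only [Finset.mul_sum, Finset.sum_mul]
    congr 1
    refine Finset.sum_congr rfl fun i _ => ?_
    refine Finset.sum_congr rfl fun k _ => ?_
    ring
  rw [Finset.sum_congr rfl fun σ _ => h σ, Finset.sum_add_distrib, Finset.sum_comm,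
    ← Finset.mul_sum, Finset.sum_comm (s := Finset.univ (α := Equiv.Perm (Fin q ⊕ Fin 2)))
      (t := Finset.univ (α := Fin q))]
  have h4 : ∀ i : Fin q, ∑ σ : Equiv.Perm (Fin q ⊕ Fin 2), ∑ k ∈ Finset.univ.erase i,
      y (σ (Sum.inr 0)) * zrow (e.1 i) (σ (Sum.inl i))
          * zrow (e.1 k) (σ (Sum.inl k)) * y2 q (σ (Sum.inr 1))
      = - ((Nat.factorial (q - 2) : ℕ) * br4 y (zrow (e.1 i)) (zrow (e.1 i)) (y2 q)) := by
    intro i
    rw [Finset.sum_comm]
    have h5 : ∀ k ∈ Finset.univ.erase i, ∑ σ : Equiv.Perm (Fin q ⊕ Fin 2),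
        y (σ (Sum.inr 0)) * zrow (e.1 i) (σ (Sum.inl i))
          * zrow (e.1 k) (σ (Sum.inl k)) * y2 q (σ (Sum.inr 1))
        = (Nat.factorial (q - 2) : ℕ) * br4 y (zrow (e.1 i)) (zrow (e.1 k)) (y2 q) := by
      intro k hk
      have hki : k ≠ i := Finset.ne_of_mem_erase hk
      rw [permSum4 (by rw [cardN]; omega) (Sum.inr 0) (Sum.inl i) (Sum.inl k) (Sum.inr 1)
        (by simp) (by simp) (by simp) (by simpa using hki.symm) (by simp) (by simp), cardN,
        show q + 2 - 4 = q - 2 by omega]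
    rw [Finset.sum_congr rfl h5, ← Finset.mul_sum, br4_sum3, sum_zrow]
    have h6 : ∑ k ∈ Finset.univ.erase i, e.1 k = - e.1 i := by
      have := Finset.add_sum_erase Finset.univ e.1 (Finset.mem_univ i)
      rw [hZ] at this
      exact eq_neg_of_add_eq_zero_right this
    rw [h6]
    have h7 : zrow (- e.1 i) = - zrow (e.1 i) := by
      funext j
      rcases j with j | j
      · simp [zrow]
      · fin_cases j <;> simp [zrow]
    rw [h7, br4_neg3]
    ring
  have h8 : ∀ i : Fin q, ∑ σ : Equiv.Perm (Fin q ⊕ Fin 2),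
      y (σ (Sum.inr 0)) * zrow (e.1 i) (σ (Sum.inl i)) * wrow e.2 (σ (Sum.inr 1))
      = (Nat.factorial (q + 2 - 3) : ℕ) * br3 y (zrow (e.1 i)) (wrow e.2) := by
    intro i
    rw [permSum3 (by rw [cardN]; omega) (Sum.inr 0) (Sum.inl i) (Sum.inr 1) (by simp) (by simp)
      (by simp), cardN]
  rw [Finset.sum_congr rfl fun i _ => h4 i, Finset.sum_congr rfl fun i _ => h8 i,
    ← Finset.mul_sum, br3_sum2, sum_zrow, hZ, hz0]
  simp [br3, br2, sm, Finset.mul_sum]

theorem zrow_zero : (zrow (0 : Fin (q + 1) → K)) = 0 := by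
  funext j
  rcases j with j | j
  · simp [zrow]
  · fin_cases j <;> simp [zrow]

theorem zrow_neg (Z : Fin (q + 1) → K) : zrow (- Z) = - zrow Z := by
  funext j
  rcases j with j | j
  · simp [zrow]
  · fin_cases j <;> simp [zrow]

theorem zrow_sub (Z Z' : Fin (q + 1) → K) : zrow (Z - Z') = zrow Z - zrow Z' := by
  funext j
  rcases j with j | j
  · simp [zrow]
  · fin_cases j <;> simp [zrow]

theorem rowbig_coeff0 (Z : Fin q → Fin (q + 1) → K) (hq : 1 ≤ q) (u : Fin q)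
    (y : Fin q ⊕ Fin 2 → K) :
    ((((xpt q).map C + (X : K[X]) • (dirM (Z, (0 : Fin q → K))).map C).updateRow (Sum.inl u)
      (fun j => C (y j))).permanent).coeff 0
      = (Nat.factorial (q - 1) : ℕ) * br3 y (y1 q) (y2 q) := by
  rw [perm_rowbig, finsetSum_coeff]
  have h : ∀ σ : Equiv.Perm (Fin q ⊕ Fin 2), (C (y (σ (Sum.inl u)) * y1 q (σ (Sum.inr 0))) *
        ((∏ i ∈ Finset.univ.erase u, (C 1 + X * C (zrow (Z i) (σ (Sum.inl i)))))
          * (C (y2 q (σ (Sum.inr 1))) + X * C (wrow (0 : Fin q → K) (σ (Sum.inr 1)))))).coeff 0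
      = y (σ (Sum.inl u)) * y1 q (σ (Sum.inr 0)) * y2 q (σ (Sum.inr 1)) := by
    intro σ
    rw [coeff_C_mul, (jet_mul _ _ _).1, (jet_prod _ _).1, one_mul]
  rw [Finset.sum_congr rfl fun σ _ => h σ]
  rw [permSum3 (by rw [cardN]; omega) (Sum.inl u) (Sum.inr 0) (Sum.inr 1) (by simp) (by simp)
    (by simp), cardN, show q + 2 - 3 = q - 1 by omega]

theorem rowbig_coeff1 (Z : Fin q → Fin (q + 1) → K) (hq : 2 ≤ q) (hZ : ∑ i, Z i = 0) (u : Fin q)
    (y : Fin q ⊕ Fin 2 → K) :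
    ((((xpt q).map C + (X : K[X]) • (dirM (Z, (0 : Fin q → K))).map C).updateRow (Sum.inl u)
      (fun j => C (y j))).permanent).coeff 1
      = - (Nat.factorial (q - 2) : ℕ) * br4 y (zrow (Z u)) (y1 q) (y2 q) := by
  rw [perm_rowbig, finsetSum_coeff]
  have h : ∀ σ : Equiv.Perm (Fin q ⊕ Fin 2), (C (y (σ (Sum.inl u)) * y1 q (σ (Sum.inr 0))) *
        ((∏ i ∈ Finset.univ.erase u, (C 1 + X * C (zrow (Z i) (σ (Sum.inl i)))))
          * (C (y2 q (σ (Sum.inr 1))) + X * C (wrow (0 : Fin q → K) (σ (Sum.inr 1)))))).coeff 1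
      = ∑ i ∈ Finset.univ.erase u, y (σ (Sum.inl u)) * zrow (Z i) (σ (Sum.inl i))
          * y1 q (σ (Sum.inr 0)) * y2 q (σ (Sum.inr 1)) := by
    intro σ
    rw [coeff_C_mul, (jet_mul _ _ _).2.1, (jet_prod _ _).1, (jet_prod _ _).2.1]
    have hw : wrow (0 : Fin q → K) (σ (Sum.inr 1)) = 0 := by
      rcases σ (Sum.inr 1) with j | j <;> simp [wrow]
    rw [hw, mul_zero, add_zero, Finset.sum_mul, Finset.mul_sum]
    refine Finset.sum_congr rfl fun i _ => ?_
    ring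
  rw [Finset.sum_congr rfl fun σ _ => h σ, Finset.sum_comm]
  have h3 : ∀ i ∈ Finset.univ.erase u, ∑ σ : Equiv.Perm (Fin q ⊕ Fin 2),
      y (σ (Sum.inl u)) * zrow (Z i) (σ (Sum.inl i)) * y1 q (σ (Sum.inr 0)) * y2 q (σ (Sum.inr 1))
      = (Nat.factorial (q - 2) : ℕ) * br4 y (zrow (Z i)) (y1 q) (y2 q) := by
    intro i hi
    have hiu : i ≠ u := Finset.ne_of_mem_erase hi
    rw [permSum4 (by rw [cardN]; omega) (Sum.inl u) (Sum.inl i) (Sum.inr 0) (Sum.inr 1)
      (by simpa using hiu.symm) (by simp) (by simp) (by simp) (by simp) (by simp), cardN,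
      show q + 2 - 4 = q - 2 by omega]
  rw [Finset.sum_congr rfl h3, ← Finset.mul_sum, br4_sum2, sum_zrow]
  have h6 : ∑ k ∈ Finset.univ.erase u, Z k = - Z u := by
    have := Finset.add_sum_erase Finset.univ Z (Finset.mem_univ u)
    rw [hZ] at this
    exact eq_neg_of_add_eq_zero_right this
  rw [h6, zrow_neg]
  have h7 : br4 y (- zrow (Z u)) (y1 q) (y2 q) = - br4 y (zrow (Z u)) (y1 q) (y2 q) := by
    simp only [br4, br3, br2, mul_neg, neg_mul, sm_neg]
    ring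
  rw [h7]
  ring

theorem rowbig_coeff2 (Z : Fin q → Fin (q + 1) → K) (hq : 3 ≤ q) (hZ : ∑ i, Z i = 0) (u : Fin q)
    (y : Fin q ⊕ Fin 2 → K) :
    2 * ((((xpt q).map C + (X : K[X]) • (dirM (Z, (0 : Fin q → K))).map C).updateRow (Sum.inl u)
      (fun j => C (y j))).permanent).coeff 2
      = (Nat.factorial (q - 3) : ℕ) * (2 * br5 y (zrow (Z u)) (zrow (Z u)) (y1 q) (y2 q)
        - ∑ i, br5 y (zrow (Z i)) (zrow (Z i)) (y1 q) (y2 q)) := by
  rw [perm_rowbig, finsetSum_coeff, Finset.mul_sum]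
  have h : ∀ σ : Equiv.Perm (Fin q ⊕ Fin 2), 2 * (C (y (σ (Sum.inl u)) * y1 q (σ (Sum.inr 0))) *
        ((∏ i ∈ Finset.univ.erase u, (C 1 + X * C (zrow (Z i) (σ (Sum.inl i)))))
          * (C (y2 q (σ (Sum.inr 1))) + X * C (wrow (0 : Fin q → K) (σ (Sum.inr 1)))))).coeff 2
      = ∑ i ∈ Finset.univ.erase u, ∑ k ∈ (Finset.univ.erase u).erase i,
          y (σ (Sum.inl u)) * zrow (Z i) (σ (Sum.inl i)) * zrow (Z k) (σ (Sum.inl k))
          * y1 q (σ (Sum.inr 0)) * y2 q (σ (Sum.inr 1)) := by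
    intro σ
    have hj := (jet_prod (Finset.univ.erase u) (fun i : Fin q => zrow (Z i) (σ (Sum.inl i)))).2.2
    rw [coeff_C_mul, (jet_mul _ _ _).2.2, (jet_prod _ _).2.1]
    have hw : wrow (0 : Fin q → K) (σ (Sum.inr 1)) = 0 := by
      rcases σ (Sum.inr 1) with j | j <;> simp [wrow]
    rw [hw, mul_zero, add_zero]
    have e1 : 2 * (y (σ (Sum.inl u)) * y1 q (σ (Sum.inr 0)) * ((∏ i ∈ Finset.univ.erase u,
          (C 1 + X * C (zrow (Z i) (σ (Sum.inl i))))).coeff 2 * y2 q (σ (Sum.inr 1))))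
        = y (σ (Sum.inl u)) * y1 q (σ (Sum.inr 0)) * (2 * (∏ i ∈ Finset.univ.erase u,
          (C 1 + X * C (zrow (Z i) (σ (Sum.inl i))))).coeff 2) * y2 q (σ (Sum.inr 1)) := by ring
    rw [e1, hj]
    simp only [Finset.mul_sum, Finset.sum_mul]
    refine Finset.sum_congr rfl fun i _ => ?_
    refine Finset.sum_congr rfl fun k _ => ?_
    ring
  rw [Finset.sum_congr rfl fun σ _ => h σ, Finset.sum_comm]
  have h4 : ∀ i ∈ Finset.univ.erase u, ∑ σ : Equiv.Perm (Fin q ⊕ Fin 2),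
      ∑ k ∈ (Finset.univ.erase u).erase i,
      y (σ (Sum.inl u)) * zrow (Z i) (σ (Sum.inl i)) * zrow (Z k) (σ (Sum.inl k))
          * y1 q (σ (Sum.inr 0)) * y2 q (σ (Sum.inr 1))
      = (Nat.factorial (q - 3) : ℕ) * (- br5 y (zrow (Z i)) (zrow (Z i)) (y1 q) (y2 q)
        - br5 y (zrow (Z i)) (zrow (Z u)) (y1 q) (y2 q)) := by
    intro i hi
    have hiu : i ≠ u := Finset.ne_of_mem_erase hi
    rw [Finset.sum_comm]
    have h5 : ∀ k ∈ (Finset.univ.erase u).erase i, ∑ σ : Equiv.Perm (Fin q ⊕ Fin 2),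
        y (σ (Sum.inl u)) * zrow (Z i) (σ (Sum.inl i)) * zrow (Z k) (σ (Sum.inl k))
          * y1 q (σ (Sum.inr 0)) * y2 q (σ (Sum.inr 1))
        = (Nat.factorial (q - 3) : ℕ) * br5 y (zrow (Z i)) (zrow (Z k)) (y1 q) (y2 q) := by
      intro k hk
      have hki : k ≠ i := Finset.ne_of_mem_erase hk
      have hku : k ≠ u := Finset.ne_of_mem_erase (Finset.mem_of_mem_erase hk)
      rw [permSum5 (by rw [cardN]; omega) (Sum.inl u) (Sum.inl i) (Sum.inl k) (Sum.inr 0)
        (Sum.inr 1) (by simpa using hiu.symm) (by simpa using hku.symm) (by simp) (by simp)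
        (by simpa using hki.symm) (by simp) (by simp) (by simp) (by simp) (by simp), cardN,
        show q + 2 - 5 = q - 3 by omega]
    rw [Finset.sum_congr rfl h5, ← Finset.mul_sum, br5_sum3, sum_zrow]
    have h6 : ∑ k ∈ (Finset.univ.erase u).erase i, Z k = - Z i + - Z u := by
      have a1 := Finset.add_sum_erase Finset.univ Z (Finset.mem_univ u)
      have a2 := Finset.add_sum_erase (Finset.univ.erase u) Z hi
      rw [hZ] at a1
      have a3 : ∑ k ∈ (Finset.univ.erase u).erase i, Z k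
          = (∑ k ∈ Finset.univ.erase u, Z k) - Z i := by
        rw [← a2]; abel
      rw [a3, eq_neg_of_add_eq_zero_right a1]
      abel
    rw [h6]
    have h7 : zrow (- Z i + - Z u) = - zrow (Z i) + - zrow (Z u) := by
      rw [← sub_eq_add_neg, zrow_sub, zrow_neg, sub_eq_add_neg]
    rw [h7, br5_add3, br5_neg3, br5_neg3]
    ring
  rw [Finset.sum_congr rfl h4, ← Finset.mul_sum, Finset.sum_sub_distrib, br5_sum2, sum_zrow]
  have h6 : ∑ k ∈ Finset.univ.erase u, Z k = - Z u := by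
    have := Finset.add_sum_erase Finset.univ Z (Finset.mem_univ u)
    rw [hZ] at this
    exact eq_neg_of_add_eq_zero_right this
  rw [h6, zrow_neg, br5_neg2, Finset.sum_neg_distrib]
  rw [← Finset.add_sum_erase Finset.univ
    (fun i => br5 y (zrow (Z i)) (zrow (Z i)) (y1 q) (y2 q)) (Finset.mem_univ u)]
  ring

end point

end Pool.Agent.Work.MP_35c45d_lc
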