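import Pool.Agent.Work.MP_35c45d_lc.PSumLower
import Pool.Agent.Work.MP_35c45d_lc.PSumUpper

set_option autoImplicit false

namespace Pool.Agent.Work.MP_35c45d_lc.PowerSumTight

open Filter Topology MvPolynomial

/-- The (border) determinantal complexity of `x_1^d + ... + x_N^d` over the complex numbers is
`N d` up to a constant factor. -/
theorem result (N d : ℕ) (hd : 1 ≤ d) :
    (∀ (n : ℕ) (A : ℕ → Matrix (Fin n) (Fin n) (MvPolynomial (Fin N) ℂ)),
      (∀ s i j, (A s i j).totalDegree ≤ 1) →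
      (∀ e, Tendsto (fun s => coeff e (A s).det) atTop (𝓝 (coeff e (∑ i : Fin N, X i ^ d)))) →
      ((N : ℝ) - 1) * ((d : ℝ) - 1) ≤ 4 * Real.exp 1 * n) ∧
    ∃ A : Matrix (Fin (N * (d - 1) + 1)) (Fin (N * (d - 1) + 1)) (MvPolynomial (Fin N) ℂ),
      (∀ i j, (A i j).totalDegree ≤ 1) ∧ A.det = ∑ i : Fin N, X i ^ d := by
  refine ⟨fun n A hA hlim => ?_, Pool.Agent.Work.MP_35c45d_lc.PS.upper N d hd⟩
  refine Pool.Agent.Work.MP_35c45d_lc.PS.lower N d n hd ⟨A, fun _ => 1, hA, fun e => ?_⟩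
  simpa using hlim e

end Pool.Agent.Work.MP_35c45d_lc.PowerSumTight
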