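import Mathlib

/-! The determinant side: first order variations of a determinant of low total rank. -/

set_option autoImplicit false

namespace Pool.Agent.Work.MP_35c45d_lc.RankK

open Matrix TrivSqZeroExt

section dual

variable {N : Type*} [Fintype N] [DecidableEq N] {K : Type*} [Field K]

/-- Embedding of matrices into matrices over the dual numbers. -/
def up (M : Matrix N N K) : Matrix N N (DualNumber K) := M.map (algebraMap K (DualNumber K))

omit [DecidableEq N] in
theorem up_mul (M M' : Matrix N N K) : up (M * M') = up M * up M' :=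
  Matrix.map_mul

omit [Fintype N] [DecidableEq N] in
theorem up_add (M M' : Matrix N N K) : up (M + M') = up M + up M' := by
  ext1 i j
  simp [up]

omit [Fintype N] in
theorem up_one : up (1 : Matrix N N K) = 1 := by
  unfold up
  rw [Matrix.map_one _ (map_zero _) (map_one _)]

omit [Fintype N] [DecidableEq N] in
theorem up_zero : up (0 : Matrix N N K) = 0 := by
  ext1 i j
  simp [up]

omit [DecidableEq N] in
theorem trace_up (M : Matrix N N K) : (up M).trace = algebraMap K (DualNumber K) M.trace := by
  unfold Matrix.trace
  rw [map_sum]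
  rfl

theorem det_up (M : Matrix N N K) : (up M).det = algebraMap K (DualNumber K) M.det := by
  rw [RingHom.map_det]
  rfl

theorem det_one_add_eps (M : Matrix N N (DualNumber K)) (hM : M.trace = 0) (c : K) :
    (1 + (c • (DualNumber.eps : DualNumber K)) • M).det = 1 := by
  have h1 : (c • (DualNumber.eps : DualNumber K)) ^ 2 = 0 := by
    rw [smul_pow, sq (DualNumber.eps : DualNumber K), DualNumber.eps_mul_eps, smul_zero]
  rw [Matrix.det_one_add_smul, hM, h1]
  simp

/-- If `D Z D = 0` where `Z = P H P`, `P = M₀⁻¹`, and `H P` has trace zero, then the determinant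
of `M₀ + D + ε H` has no `ε` part. -/
theorem snd_det_eq_zero (M₀ P D H : Matrix N N K) (hP : M₀ * P = 1)
    (hD : D * (P * H * P) * D = 0) (htr : (H * P).trace = 0) :
    snd (up (M₀ + D) + (DualNumber.eps : DualNumber K) • up H).det = 0 := by
  set ε : DualNumber K := DualNumber.eps with hε
  have hεε : ε * ε = 0 := DualNumber.eps_mul_eps
  have hP' : P * M₀ = 1 := mul_eq_one_comm.mp hP
  set Z := P * H * P with hZ
  -- first factor
  have e1 : (1 + (-ε) • up (H * P)).det = 1 := by
    have := det_one_add_eps (up (H * P)) (by
      rw [trace_up, htr, map_zero]) (-1 : K)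
    rwa [neg_one_smul] at this
  have hDZ : (D * Z).trace = 0 := by
    have hnil : IsNilpotent (D * Z) := ⟨2, by
      rw [sq]
      calc D * Z * (D * Z) = (D * Z * D) * Z := by simp only [Matrix.mul_assoc]
        _ = 0 := by rw [hD, Matrix.zero_mul]⟩
    exact (Matrix.isNilpotent_trace_of_isNilpotent hnil).eq_zero
  have e2 : (1 + (-ε) • up (D * Z)).det = 1 := by
    have := det_one_add_eps (up (D * Z)) (by
      rw [trace_up, hDZ, map_zero]) (-1 : K)
    rwa [neg_one_smul] at this
  have e3 : (1 + (-ε) • up (H * P)) * (up (M₀ + D) + ε • up H)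
      = up M₀ * (1 + (up P + (-ε) • up Z) * up D) := by
    have f1 : up M₀ * up P = 1 := by rw [← up_mul, hP, up_one]
    have f2 : up (H * P) * up M₀ = up H := by rw [← up_mul, Matrix.mul_assoc, hP', Matrix.mul_one]
    have f3 : up M₀ * up Z = up (H * P) := by
      rw [← up_mul, hZ, Matrix.mul_assoc P H P, ← Matrix.mul_assoc M₀, hP, Matrix.one_mul]
    rw [up_add]
    calc (1 + (-ε) • up (H * P)) * (up M₀ + up D + ε • up H)
        = up M₀ + up D + ε • up H + (-ε) • (up (H * P) * up M₀) + (-ε) • (up (H * P) * up D)
          + (ε * (-ε)) • (up (H * P) * up H) := by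
          simp only [Matrix.add_mul, Matrix.mul_add, Matrix.one_mul, Matrix.smul_mul,
            Matrix.mul_smul, smul_add, smul_smul]
          abel
      _ = up M₀ + up D + (-ε) • (up (H * P) * up D) := by
          rw [f2, mul_neg, hεε, neg_zero, zero_smul]
          rw [neg_smul]
          abel
      _ = up M₀ * (1 + (up P + (-ε) • up Z) * up D) := by
          simp only [Matrix.add_mul, Matrix.mul_add, Matrix.mul_one, Matrix.smul_mul,
            Matrix.mul_smul, ← Matrix.mul_assoc, f1, f3, Matrix.one_mul]
          abel
  have e4 : (1 + (up P + (-ε) • up Z) * up D).det = (1 + up (D * P)).det := by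
    rw [Matrix.det_one_add_mul_comm]
    have f1 : 1 + up D * (up P + (-ε) • up Z) = (1 + (-ε) • up (D * Z)) * (1 + up (D * P)) := by
      have f2 : up (D * Z) * up (D * P) = 0 := by
        rw [← up_mul]
        have : D * Z * (D * P) = 0 := by
          calc D * Z * (D * P) = (D * Z * D) * P := by simp only [Matrix.mul_assoc]
            _ = 0 := by rw [hD, Matrix.zero_mul]
        rw [this, up_zero]
      simp only [Matrix.add_mul, Matrix.mul_add, Matrix.one_mul, Matrix.mul_one, Matrix.smul_mul,
        Matrix.mul_smul, f2, smul_zero, ← up_mul]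
      abel
    rw [f1, Matrix.det_mul, e2, one_mul]
  have e5 := congrArg Matrix.det e3
  rw [Matrix.det_mul, Matrix.det_mul, e1, one_mul, e4] at e5
  rw [e5, ← up_one, ← up_add, det_up, det_up, ← map_mul]
  exact snd_inl _ _

end dual

section rank

variable {N : Type*} [Fintype N] [DecidableEq N] {K : Type*} [Field K]

theorem rank_factor (A : Matrix N N K) :
    ∃ (U : Matrix N (Fin A.rank) K) (V : Matrix (Fin A.rank) N K), A = U * V := by
  obtain ⟨V, U, e, hV, hU, h⟩ := Matrix.exists_rank_normal_form A
  let P : Matrix N (Fin A.rank) K := Matrix.of fun i a => if e i = Sum.inl a then 1 else 0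
  let Q : Matrix (Fin A.rank) N K := Matrix.of fun a j => if e j = Sum.inl a then 1 else 0
  have h1 : (fromBlocks 1 0 0 0 : Matrix (Fin A.rank ⊕ Fin (Fintype.card N - A.rank))
      (Fin A.rank ⊕ Fin (Fintype.card N - A.rank)) K).submatrix e e = P * Q := by
    ext i j
    rw [Matrix.mul_apply, Matrix.submatrix_apply]
    simp only [P, Q, Matrix.of_apply]
    rcases hi : e i with a | a <;> rcases hj : e j with b | b
    · rw [fromBlocks_apply₁₁, Finset.sum_eq_single a]
      · by_cases hab : a = b
        · subst hab; simp
        · have : ¬ b = a := fun h => hab h.symm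
          simp [hab, this]
      · intro c _ hc
        have : ¬ a = c := fun h => hc h.symm
        simp [this]
      · simp
    · simp
    · simp
    · simp
  obtain ⟨V', hV'⟩ := hV.exists_left_inv
  obtain ⟨U', hU'⟩ := hU.exists_right_inv
  refine ⟨V' * P, Q * U', ?_⟩
  calc A = (V' * V) * A * (U * U') := by rw [hV', hU', Matrix.one_mul, Matrix.mul_one]
    _ = V' * (V * A * U) * U' := by simp only [Matrix.mul_assoc]
    _ = V' * P * (Q * U') := by rw [h, h1]; simp only [Matrix.mul_assoc]

/-- The map `Z ↦ A Z B` composed with a linear map has rank at most `rank A * rank B`. -/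
theorem finrank_range_le {E : Type*} [AddCommGroup E] [Module K E] [FiniteDimensional K E]
    (A B : Matrix N N K) (L : E →ₗ[K] Matrix N N K) (T : E →ₗ[K] Matrix N N K)
    (hT : ∀ e, T e = A * L e * B) :
    Module.finrank K (LinearMap.range T) ≤ A.rank * B.rank := by
  obtain ⟨U, V, hUV⟩ := rank_factor A
  obtain ⟨U', V', hUV'⟩ := rank_factor B
  let T1 : E →ₗ[K] Matrix (Fin A.rank) (Fin B.rank) K :=
    { toFun := fun e => V * L e * U'
      map_add' := by intro x y; rw [map_add, Matrix.mul_add, Matrix.add_mul]
      map_smul' := by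
        intro c x
        rw [map_smul, Matrix.mul_smul, Matrix.smul_mul, RingHom.id_apply] }
  let T2 : Matrix (Fin A.rank) (Fin B.rank) K →ₗ[K] Matrix N N K :=
    { toFun := fun e => U * e * V'
      map_add' := by intro x y; rw [Matrix.mul_add, Matrix.add_mul]
      map_smul' := by
        intro c x
        rw [Matrix.mul_smul, Matrix.smul_mul, RingHom.id_apply] }
  have hcomp : T = T2 ∘ₗ T1 := by
    ext1 e
    rw [hT]
    change A * L e * B = U * (V * L e * U') * V'
    conv_lhs => rw [hUV, hUV']
    simp only [Matrix.mul_assoc]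
  rw [hcomp, LinearMap.range_comp]
  refine (Submodule.finrank_map_le _ _).trans ?_
  refine (Submodule.finrank_le _).trans ?_
  rw [Module.finrank_matrix]
  simp

/-- Dimension of an intersection of kernels. -/
theorem finrank_iInf_ker {E : Type*} [AddCommGroup E] [Module K E] [FiniteDimensional K E]
    {F : Type*} [AddCommGroup F] [Module K F] {I : Type*} [DecidableEq I] (T : I → E →ₗ[K] F)
    (c : I → ℕ) (hc : ∀ i, Module.finrank K (LinearMap.range (T i)) ≤ c i) (s : Finset I)
    (W : Submodule K E) :
    Module.finrank K W ≤ Module.finrank K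
      (W ⊓ s.inf (fun i => LinearMap.ker (T i)) : Submodule K E) + ∑ i ∈ s, c i := by
  induction s using Finset.induction_on with
  | empty => rw [Finset.inf_empty, inf_top_eq, Finset.sum_empty, add_zero]
  | insert a s ha ih =>
    rw [Finset.sum_insert ha, Finset.inf_insert]
    set V := (W ⊓ s.inf (fun i => LinearMap.ker (T i)) : Submodule K E) with hV
    have h1 : (W ⊓ (LinearMap.ker (T a) ⊓ s.inf (fun i => LinearMap.ker (T i))) : Submodule K E)
        = V ⊓ LinearMap.ker (T a) := by
      rw [hV, inf_comm (LinearMap.ker (T a)), inf_assoc]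
    rw [h1]
    have h2 := LinearMap.finrank_range_add_finrank_ker ((T a).domRestrict V)
    have h3 : Module.finrank K (LinearMap.range ((T a).domRestrict V)) ≤ c a := by
      refine le_trans (Submodule.finrank_mono ?_) (hc a)
      rintro _ ⟨x, rfl⟩
      exact ⟨x.1, rfl⟩
    have h4 : Module.finrank K (LinearMap.ker ((T a).domRestrict V))
        = Module.finrank K (V ⊓ LinearMap.ker (T a) : Submodule K E) := by
      have : (LinearMap.ker ((T a).domRestrict V)).map V.subtype = V ⊓ LinearMap.ker (T a) := by
        ext x
        simp only [Submodule.mem_map, LinearMap.mem_ker, LinearMap.domRestrict_apply,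
          Submodule.subtype_apply, Subtype.exists, Submodule.mem_inf]
        constructor
        · rintro ⟨y, hy, h, rfl⟩
          exact ⟨hy, h⟩
        · rintro ⟨hx, h⟩
          exact ⟨x, hx, h, rfl⟩
      rw [← this]
      exact (Submodule.equivMapOfInjective V.subtype V.subtype_injective _).finrank_eq
    omega

end rank

end Pool.Agent.Work.MP_35c45d_lc.RankK
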