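import Pool.Agent.Work.MP_35c45d_lc.RankOm

/-! Linear independence of the minors of the permanent at a special family of matrices. -/

set_option autoImplicit false

namespace Pool.Agent.Work.MP_35c45d_lc.RankK

open Equiv Finset

section multiaffine

variable {κ : Type*} [Fintype κ] [DecidableEq κ] {K : Type*} [Field K]

theorem multiaffine_zero (g : Finset κ → K)
    (h : ∀ x : κ → K, ∑ S ∈ (Finset.univ : Finset κ).powerset, (∏ i ∈ S, x i) * g S = 0) (n : ℕ) :
    ∀ S : Finset κ, S.card = n → g S = 0 := by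
  induction n using Nat.strong_induction_on with
  | _ n ih =>
    intro S hS
    have h1 := h fun i => if i ∈ S then 1 else 0
    rw [Finset.sum_eq_single S] at h1
    · rw [Finset.prod_congr rfl fun i hi => if_pos hi, Finset.prod_const_one, one_mul] at h1
      exact h1
    · intro S' _ hne
      by_cases hsub : S' ⊆ S
      · have hlt : S'.card < n := by
          rw [← hS]
          exact Finset.card_lt_card (lt_of_le_of_ne hsub hne)
        rw [ih _ hlt S' rfl, mul_zero]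
      · obtain ⟨i, hi, hi'⟩ := Finset.not_subset.mp hsub
        rw [Finset.prod_eq_zero hi (if_neg hi'), zero_mul]
    · simp

end multiaffine

section main

variable {κ ν : Type*} [Fintype κ] [DecidableEq κ] [Fintype ν] [DecidableEq ν] {K : Type*}
  [Field K]

/-- The special family of matrices. -/
def Xm (Y W : κ → ν → K) (x : κ → K) : κ ⊕ ν → κ ⊕ ν → K
  | Sum.inl i, Sum.inl j => if i = j then x i else 0
  | Sum.inl i, Sum.inr b => Y i b
  | Sum.inr a, Sum.inl j => W j a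
  | Sum.inr _, Sum.inr _ => 1

/-- Extension by zero of a row of `Y`. -/
def Yh (Y : κ → ν → K) (i : κ) : κ ⊕ ν → K
  | Sum.inl _ => 0
  | Sum.inr b => Y i b

/-- Extension by one of a column of `W`. -/
def Zh (W : κ → ν → K) (j : κ) : κ ⊕ ν → K
  | Sum.inl _ => 1
  | Sum.inr a => W j a

/-- Extension by zero of a direction. -/
def Hh (h : ν → ν → K) : κ ⊕ ν → κ ⊕ ν → K
  | Sum.inr a, Sum.inr b => h a b
  | _, _ => 0

/-- The derivative of the permanent in the direction `h`. -/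
def G (Y W : κ → ν → K) (h : ν → ν → K) (x : κ → K) : K :=
  ∑ σ : Perm (κ ⊕ ν), ∑ r, Hh h r (σ r) * ∏ r' ∈ Finset.univ.erase r, Xm Y W x r' (σ r')

theorem prod_Z (W : κ → ν → K) (Y : κ → ν → K) (x : κ → K) (σ : Perm (κ ⊕ ν)) (a0 b0 : ν)
    (h0 : σ (Sum.inr a0) = Sum.inr b0) :
    ∏ a ∈ Finset.univ.erase a0, Xm Y W x (Sum.inr a) (σ (Sum.inr a))
      = ∏ j, Zh W j (σ.symm (Sum.inl j)) := by
  let Z : κ ⊕ ν → κ ⊕ ν → K := fun r c =>
    match r, c with
    | Sum.inr a, Sum.inl j => W j a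
    | _, _ => 1
  have h1 : ∏ r, Z r (σ r) = ∏ c, Z (σ.symm c) c := by
    rw [← Equiv.prod_comp σ (fun c => Z (σ.symm c) c)]
    simp
  rw [Fintype.prod_sum_type, Fintype.prod_sum_type] at h1
  have h2 : ∏ i : κ, Z (Sum.inl i) (σ (Sum.inl i)) = 1 :=
    Finset.prod_eq_one fun i _ => by
      cases σ (Sum.inl i) <;> rfl
  have h3 : ∏ b : ν, Z (σ.symm (Sum.inr b)) (Sum.inr b) = 1 :=
    Finset.prod_eq_one fun b _ => by
      cases σ.symm (Sum.inr b) <;> rfl
  rw [h2, h3, one_mul, mul_one, ← Finset.mul_prod_erase Finset.univ _ (Finset.mem_univ a0)] at h1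
  have h4 : Z (Sum.inr a0) (σ (Sum.inr a0)) = 1 := by rw [h0]
  rw [h4, one_mul] at h1
  have h5 : ∀ a, Xm Y W x (Sum.inr a) (σ (Sum.inr a)) = Z (Sum.inr a) (σ (Sum.inr a)) := by
    intro a
    cases σ (Sum.inr a) <;> rfl
  rw [Finset.prod_congr rfl fun a _ => h5 a, h1]
  refine Finset.prod_congr rfl fun j _ => ?_
  cases σ.symm (Sum.inl j) <;> rfl

theorem G_expand (Y W : κ → ν → K) (h : ν → ν → K) (x : κ → K) :
    G Y W h x = ∑ S ∈ (Finset.univ : Finset κ).powerset, (∏ i ∈ S, x i) *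
      ∑ σ : Perm (κ ⊕ ν), ∑ r, Hh h r (σ r) *
        ((∏ i ∈ S, if σ (Sum.inl i) = Sum.inl i then (1 : K) else 0) *
        (∏ i ∈ Finset.univ \ S, Yh Y i (σ (Sum.inl i))) * ∏ j, Zh W j (σ.symm (Sum.inl j))) := by
  have h1 : ∀ (σ : Perm (κ ⊕ ν)) (r : κ ⊕ ν),
      Hh h r (σ r) * ∏ r' ∈ Finset.univ.erase r, Xm Y W x r' (σ r')
      = Hh h r (σ r) * ((∏ i : κ, (x i * (if σ (Sum.inl i) = Sum.inl i then (1 : K) else 0)
          + Yh Y i (σ (Sum.inl i)))) * ∏ j, Zh W j (σ.symm (Sum.inl j))) := by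
    intro σ r
    rcases r with i | a0
    · cases σ (Sum.inl i) <;> simp [Hh]
    · rcases hb : σ (Sum.inr a0) with j | b0
      · simp [Hh]
      · congr 1
        have h2 : (Finset.univ.erase (Sum.inr a0) : Finset (κ ⊕ ν))
            = (Finset.univ : Finset κ).disjSum (Finset.univ.erase a0) := by
          ext c
          cases c <;> simp
        rw [h2, Finset.prod_disjSum, prod_Z W Y x σ a0 b0 hb]
        congr 1
        refine Finset.prod_congr rfl fun i _ => ?_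
        rcases hc : σ (Sum.inl i) with j | b
        · by_cases hij : i = j
          · subst hij
            simp [Xm, Yh]
          · have : ¬ j = i := fun h => hij h.symm
            simp [Xm, Yh, hij, this]
        · simp [Xm, Yh]
  unfold G
  simp only [h1, Finset.prod_add, Finset.sum_mul, Finset.mul_sum]
  rw [Finset.sum_comm]
  rw [Finset.sum_congr rfl fun r _ => Finset.sum_comm]
  rw [Finset.sum_comm]
  refine Finset.sum_congr rfl fun S _ => ?_
  rw [Finset.sum_comm]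
  refine Finset.sum_congr rfl fun σ _ => Finset.sum_congr rfl fun r _ => ?_
  rw [Finset.prod_mul_distrib]
  ring

end main

section symm

variable {κ ν : Type*} [Fintype κ] [DecidableEq κ] [Fintype ν] [DecidableEq ν] {K : Type*}
  [Field K]

/-- Extension of a permutation of `ν` to `κ ⊕ ν`. -/
def Ex (κ : Type*) {ν : Type*} (τ : Perm ν) : Perm (κ ⊕ ν) := Equiv.sumCongr (Equiv.refl κ) τ

omit [Fintype κ] [DecidableEq κ] [Fintype ν] [DecidableEq ν] in
theorem Ex_inl (τ : Perm ν) (i : κ) : Ex κ τ (Sum.inl i) = Sum.inl i := rfl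

omit [Fintype κ] [DecidableEq κ] [Fintype ν] [DecidableEq ν] in
theorem Ex_inr (τ : Perm ν) (b : ν) : Ex κ τ (Sum.inr b) = Sum.inr (τ b) := rfl

/-- The summand. -/
def F (Y W : κ → ν → K) (h : ν → ν → K) (S : Finset κ) (σ : Perm (κ ⊕ ν)) (r : κ ⊕ ν) : K :=
  Hh h r (σ r) * ((∏ i ∈ S, if σ (Sum.inl i) = Sum.inl i then (1 : K) else 0) *
    (∏ i ∈ Finset.univ \ S, Yh Y i (σ (Sum.inl i))) * ∏ j, Zh W j (σ.symm (Sum.inl j)))

/-- The nonzero terms. -/
def Good (S : Finset κ) (σ : Perm (κ ⊕ ν)) (r : κ ⊕ ν) : Prop :=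
  (∀ i ∈ S, σ (Sum.inl i) = Sum.inl i) ∧ (∀ i ∉ S, ∃ b, σ (Sum.inl i) = Sum.inr b) ∧
    ∃ a b, r = Sum.inr a ∧ σ r = Sum.inr b

theorem F_sum_good (Y W : κ → ν → K) (h : ν → ν → K) (S : Finset κ) (p : Option κ → ν)
    (hp : Function.Injective p) (σ : Perm (κ ⊕ ν)) (r : κ ⊕ ν) (hg : Good S σ r) :
    ∑ τ₁ : Perm ν, ∑ τ₂ : Perm ν, F Y W h S (Ex κ τ₂ * σ * (Ex κ τ₁)⁻¹) (Ex κ τ₁ r)
      = ∑ a, ∑ b, h a b * (Om p W (Finset.univ \ S) a * Om p Y (Finset.univ \ S) b) := by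
  classical
  obtain ⟨h1, h2, a0, b0, rfl, hb0⟩ := hg
  set T := (Finset.univ : Finset κ) \ S with hT
  have hmemT : ∀ i, i ∈ T ↔ i ∉ S := by intro i; simp [hT]
  -- columns
  have h2' : ∀ j ∉ S, ∃ a, σ.symm (Sum.inl j) = Sum.inr a := by
    intro j hj
    rcases hc : σ.symm (Sum.inl j) with i | a
    · exfalso
      have h3 : σ (Sum.inl i) = Sum.inl j := by rw [← hc, Equiv.apply_symm_apply]
      by_cases hi : i ∈ S
      · rw [h1 i hi] at h3
        exact hj (by rw [← Sum.inl_injective h3]; exact hi)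
      · obtain ⟨b, hb⟩ := h2 i hi
        rw [hb] at h3
        cases h3
    · exact ⟨a, rfl⟩
  have h1' : ∀ j ∈ S, σ.symm (Sum.inl j) = Sum.inl j := by
    intro j hj
    rw [Equiv.symm_apply_eq, h1 j hj]
  have : Nonempty ν := ⟨a0⟩
  choose! pY hpY using h2
  choose! pW hpW using h2'
  let qY : Option κ → ν := fun o => o.elim b0 pY
  let qW : Option κ → ν := fun o => o.elim a0 pW
  have hqY : Set.InjOn qY (insert none (some '' (T : Set κ))) := by
    rintro x hx x' hx' hxx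
    rcases hx with rfl | ⟨i, hi, rfl⟩ <;> rcases hx' with rfl | ⟨j, hj, rfl⟩
    · rfl
    · exfalso
      have h3 := hpY j ((hmemT j).mp hj)
      have h4 : b0 = pY j := hxx
      rw [← h4, ← hb0] at h3
      exact Sum.inl_ne_inr (σ.injective h3)
    · exfalso
      have h3 := hpY i ((hmemT i).mp hi)
      have h4 : pY i = b0 := hxx
      rw [h4, ← hb0] at h3
      exact Sum.inl_ne_inr (σ.injective h3)
    · have h3 := hpY i ((hmemT i).mp hi)
      have h4 := hpY j ((hmemT j).mp hj)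
      have h5 : pY i = pY j := hxx
      rw [h5, ← h4] at h3
      rw [Sum.inl_injective (σ.injective h3)]
  have hqW : Set.InjOn qW (insert none (some '' (T : Set κ))) := by
    have ha0 : σ.symm (Sum.inr b0) = Sum.inr a0 := by rw [Equiv.symm_apply_eq, hb0]
    rintro x hx x' hx' hxx
    rcases hx with rfl | ⟨i, hi, rfl⟩ <;> rcases hx' with rfl | ⟨j, hj, rfl⟩
    · rfl
    · exfalso
      have h3 := hpW j ((hmemT j).mp hj)
      have h4 : a0 = pW j := hxx
      rw [← h4, ← ha0] at h3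
      exact Sum.inl_ne_inr (σ.symm.injective h3)
    · exfalso
      have h3 := hpW i ((hmemT i).mp hi)
      have h4 : pW i = a0 := hxx
      rw [h4, ← ha0] at h3
      exact Sum.inl_ne_inr (σ.symm.injective h3)
    · have h3 := hpW i ((hmemT i).mp hi)
      have h4 := hpW j ((hmemT j).mp hj)
      have h5 : pW i = pW j := hxx
      rw [h5, ← h4] at h3
      rw [Sum.inl_injective (σ.symm.injective h3)]
  have hF : ∀ τ₁ τ₂ : Perm ν, F Y W h S (Ex κ τ₂ * σ * (Ex κ τ₁)⁻¹) (Ex κ τ₁ (Sum.inr a0))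
      = ∑ a, ∑ b, h a b * ((if τ₁ (qW none) = a then ∏ i ∈ T, W i (τ₁ (qW (some i))) else 0) *
        (if τ₂ (qY none) = b then ∏ i ∈ T, Y i (τ₂ (qY (some i))) else 0)) := by
    intro τ₁ τ₂
    have e1 : ∀ r, (Ex κ τ₂ * σ * (Ex κ τ₁)⁻¹ : Perm (κ ⊕ ν)) (Ex κ τ₁ r) = Ex κ τ₂ (σ r) := by
      intro r
      simp [Perm.coe_mul]
    have e2 : ∀ i : κ, (Ex κ τ₂ * σ * (Ex κ τ₁)⁻¹ : Perm (κ ⊕ ν)) (Sum.inl i)
        = Ex κ τ₂ (σ (Sum.inl i)) := by
      intro i
      have := e1 (Sum.inl i)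
      rwa [Ex_inl] at this
    have e3 : ∀ j : κ, (Ex κ τ₂ * σ * (Ex κ τ₁)⁻¹ : Perm (κ ⊕ ν)).symm (Sum.inl j)
        = Ex κ τ₁ (σ.symm (Sum.inl j)) := by
      intro j
      rw [Equiv.symm_apply_eq, e1, Equiv.apply_symm_apply, Ex_inl]
    unfold F
    simp only [e1, e2, e3]
    rw [hb0, Ex_inr, Ex_inr]
    have e4 : (∏ i ∈ S, if Ex κ τ₂ (σ (Sum.inl i)) = Sum.inl i then (1 : K) else 0) = 1 := by
      refine Finset.prod_eq_one fun i hi => ?_
      rw [h1 i hi, Ex_inl, if_pos rfl]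
    have e5 : ∏ i ∈ T, Yh Y i (Ex κ τ₂ (σ (Sum.inl i))) = ∏ i ∈ T, Y i (τ₂ (qY (some i))) := by
      refine Finset.prod_congr rfl fun i hi => ?_
      rw [hpY i ((hmemT i).mp hi), Ex_inr]
      rfl
    have e6 : ∏ j, Zh W j (Ex κ τ₁ (σ.symm (Sum.inl j))) = ∏ j ∈ T, W j (τ₁ (qW (some j))) := by
      rw [← Finset.prod_sdiff (Finset.subset_univ S), ← hT]
      have e7 : ∏ j ∈ S, Zh W j (Ex κ τ₁ (σ.symm (Sum.inl j))) = 1 := by
        refine Finset.prod_eq_one fun j hj => ?_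
        rw [h1' j hj, Ex_inl]
        rfl
      rw [e7, mul_one]
      refine Finset.prod_congr rfl fun j hj => ?_
      rw [hpW j ((hmemT j).mp hj), Ex_inr]
      rfl
    rw [e4, e5, e6, one_mul]
    rw [Finset.sum_eq_single (τ₁ a0)]
    · rw [Finset.sum_eq_single (τ₂ b0)]
      · have e8 : τ₁ (qW none) = τ₁ a0 := rfl
        have e9 : τ₂ (qY none) = τ₂ b0 := rfl
        rw [if_pos e8, if_pos e9]
        simp only [Hh]
        ring
      · intro b _ hb
        have e9 : ¬ τ₂ (qY none) = b := fun hh => hb hh.symm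
        rw [if_neg e9, mul_zero, mul_zero]
      · intro hh
        exact absurd (Finset.mem_univ _) hh
    · intro a _ ha
      have e9 : ¬ τ₁ (qW none) = a := fun hh => ha hh.symm
      refine Finset.sum_eq_zero fun b _ => ?_
      rw [if_neg e9, zero_mul, mul_zero]
    · intro hh
      exact absurd (Finset.mem_univ _) hh
  simp only [hF]
  rw [Finset.sum_congr rfl fun τ₁ _ => Finset.sum_comm, Finset.sum_comm]
  refine Finset.sum_congr rfl fun a _ => ?_
  rw [Finset.sum_congr rfl fun τ₁ _ => Finset.sum_comm, Finset.sum_comm]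
  refine Finset.sum_congr rfl fun b _ => ?_
  rw [← Om_congr qW p W T a hqW hp.injOn, ← Om_congr qY p Y T b hqY hp.injOn]
  unfold Om
  rw [Finset.sum_mul_sum, Finset.mul_sum]
  refine Finset.sum_congr rfl fun τ₁ _ => ?_
  rw [Finset.mul_sum]

theorem F_sum_bad (Y W : κ → ν → K) (h : ν → ν → K) (S : Finset κ)
    (σ : Perm (κ ⊕ ν)) (r : κ ⊕ ν) (hg : ¬ Good S σ r) (τ₁ τ₂ : Perm ν) :
    F Y W h S (Ex κ τ₂ * σ * (Ex κ τ₁)⁻¹) (Ex κ τ₁ r) = 0 := by
  classical
  have e1 : ∀ r, (Ex κ τ₂ * σ * (Ex κ τ₁)⁻¹ : Perm (κ ⊕ ν)) (Ex κ τ₁ r) = Ex κ τ₂ (σ r) := by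
    intro r
    simp [Perm.coe_mul]
  have e2 : ∀ i : κ, (Ex κ τ₂ * σ * (Ex κ τ₁)⁻¹ : Perm (κ ⊕ ν)) (Sum.inl i)
      = Ex κ τ₂ (σ (Sum.inl i)) := by
    intro i
    have := e1 (Sum.inl i)
    rwa [Ex_inl] at this
  unfold F
  by_cases h1 : ∀ i ∈ S, σ (Sum.inl i) = Sum.inl i
  · by_cases h2 : ∀ i ∉ S, ∃ b, σ (Sum.inl i) = Sum.inr b
    · have h3 : ¬ ∃ a b, r = Sum.inr a ∧ σ r = Sum.inr b := fun h3 => hg ⟨h1, h2, h3⟩
      have : Hh h (Ex κ τ₁ r) ((Ex κ τ₂ * σ * (Ex κ τ₁)⁻¹ : Perm (κ ⊕ ν)) (Ex κ τ₁ r)) = 0 := by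
        rw [e1]
        rcases r with i | a
        · rw [Ex_inl]; rfl
        · rcases hc : σ (Sum.inr a) with j | b
          · rw [Ex_inl]; rfl
          · exact absurd ⟨a, b, rfl, hc⟩ h3
      rw [this, zero_mul]
    · push Not at h2
      obtain ⟨i, hi, hib⟩ := h2
      have : ∏ i ∈ Finset.univ \ S, Yh Y i
          ((Ex κ τ₂ * σ * (Ex κ τ₁)⁻¹ : Perm (κ ⊕ ν)) (Sum.inl i)) = 0 := by
        refine Finset.prod_eq_zero (i := i) (by simp [hi]) ?_
        rw [e2]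
        rcases hc : σ (Sum.inl i) with j | b
        · rw [Ex_inl]; rfl
        · exact absurd hc (hib b)
      rw [this]
      ring
  · push Not at h1
    obtain ⟨i, hi, hib⟩ := h1
    have : (∏ i ∈ S, if (Ex κ τ₂ * σ * (Ex κ τ₁)⁻¹ : Perm (κ ⊕ ν)) (Sum.inl i) = Sum.inl i
        then (1 : K) else 0) = 0 := by
      refine Finset.prod_eq_zero hi ?_
      rw [if_neg]
      rw [e2]
      intro hh
      apply hib
      rcases hc : σ (Sum.inl i) with j | b
      · rw [hc, Ex_inl] at hh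
        exact hh
      · rw [hc, Ex_inr] at hh
        cases hh
    rw [this]
    ring

omit [DecidableEq ν] in
theorem exists_good (S : Finset κ) (p : Option κ → ν) (hp : Function.Injective p) :
    ∃ (σ : Perm (κ ⊕ ν)) (r : κ ⊕ ν), Good S σ r := by
  classical
  let f : Option κ → κ ⊕ ν := fun o => o.elim (Sum.inr (p none)) Sum.inl
  let g : Option κ → κ ⊕ ν := fun o => o.elim (Sum.inr (p none)) fun i =>
    if i ∈ S then Sum.inl i else Sum.inr (p (some i))
  have hf : Function.Injective f := by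
    rintro (_ | i) (_ | j) h
    · rfl
    · cases h
    · cases h
    · rw [Sum.inl_injective h]
  have hg : Function.Injective g := by
    rintro (_ | i) (_ | j) h
    · rfl
    · exfalso
      simp only [g, Option.elim] at h
      split_ifs at h
      exact absurd (hp (Sum.inr_injective h)) (by simp)
    · exfalso
      simp only [g, Option.elim] at h
      split_ifs at h
      exact absurd (hp (Sum.inr_injective h)) (by simp)
    · simp only [g, Option.elim] at h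
      split_ifs at h
      · rw [Sum.inl_injective h]
      · exact hp (Sum.inr_injective h)
  obtain ⟨σ, hσ⟩ := exists_perm_extend Set.univ f g hf.injOn hg.injOn
  refine ⟨σ, Sum.inr (p none), fun i hi => ?_, fun i hi => ⟨p (some i), ?_⟩,
    p none, p none, rfl, hσ none (Set.mem_univ _)⟩
  · have := hσ (some i) (Set.mem_univ _)
    simpa [f, g, hi] using this
  · have := hσ (some i) (Set.mem_univ _)
    simpa [f, g, hi] using this

/-- The coefficient of `∏ i ∈ S, x i` vanishes only if the product form vanishes. -/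
theorem product_form [CharZero K] (Y W : κ → ν → K) (h : ν → ν → K) (S : Finset κ)
    (p : Option κ → ν) (hp : Function.Injective p)
    (hzero : ∑ σ : Perm (κ ⊕ ν), ∑ r, F Y W h S σ r = 0) :
    ∑ a, ∑ b, h a b * (Om p W (Finset.univ \ S) a * Om p Y (Finset.univ \ S) b) = 0 := by
  classical
  set Q := ∑ a, ∑ b, h a b * (Om p W (Finset.univ \ S) a * Om p Y (Finset.univ \ S) b) with hQ
  have h1 : ∀ τ₁ τ₂ : Perm ν,
      ∑ σ : Perm (κ ⊕ ν), ∑ r, F Y W h S (Ex κ τ₂ * σ * (Ex κ τ₁)⁻¹) (Ex κ τ₁ r) = 0 := by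
    intro τ₁ τ₂
    rw [← hzero]
    refine Fintype.sum_equiv ((Equiv.mulLeft (Ex κ τ₂)).trans (Equiv.mulRight (Ex κ τ₁)⁻¹))
      _ _ fun σ => ?_
    exact Equiv.sum_comp (Ex κ τ₁)
      (fun r => F Y W h S (Ex κ τ₂ * σ * (Ex κ τ₁)⁻¹) r)
  have h2 : ∑ τ₁ : Perm ν, ∑ τ₂ : Perm ν, ∑ σ : Perm (κ ⊕ ν), ∑ r,
      F Y W h S (Ex κ τ₂ * σ * (Ex κ τ₁)⁻¹) (Ex κ τ₁ r) = 0 :=
    Finset.sum_eq_zero fun τ₁ _ => Finset.sum_eq_zero fun τ₂ _ => h1 τ₁ τ₂
  have h3 : ∑ τ₁ : Perm ν, ∑ τ₂ : Perm ν, ∑ σ : Perm (κ ⊕ ν), ∑ r,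
      F Y W h S (Ex κ τ₂ * σ * (Ex κ τ₁)⁻¹) (Ex κ τ₁ r)
      = ∑ t : Perm (κ ⊕ ν) × (κ ⊕ ν), ∑ τ₁ : Perm ν, ∑ τ₂ : Perm ν,
        F Y W h S (Ex κ τ₂ * t.1 * (Ex κ τ₁)⁻¹) (Ex κ τ₁ t.2) := by
    rw [Fintype.sum_prod_type]
    rw [Finset.sum_congr rfl fun τ₁ _ => Finset.sum_comm, Finset.sum_comm]
    refine Finset.sum_congr rfl fun σ _ => ?_
    rw [Finset.sum_congr rfl fun τ₁ _ => Finset.sum_comm, Finset.sum_comm]
  have h4 : ∀ t : Perm (κ ⊕ ν) × (κ ⊕ ν), (∑ τ₁ : Perm ν, ∑ τ₂ : Perm ν,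
        F Y W h S (Ex κ τ₂ * t.1 * (Ex κ τ₁)⁻¹) (Ex κ τ₁ t.2)) = if Good S t.1 t.2 then Q else 0 := by
    intro t
    by_cases hg : Good S t.1 t.2
    · rw [if_pos hg]
      exact F_sum_good Y W h S p hp t.1 t.2 hg
    · rw [if_neg hg]
      exact Finset.sum_eq_zero fun τ₁ _ => Finset.sum_eq_zero fun τ₂ _ =>
        F_sum_bad Y W h S t.1 t.2 hg τ₁ τ₂
  rw [h3, Finset.sum_congr rfl fun t _ => h4 t, Finset.sum_ite, Finset.sum_const_zero, add_zero,
    Finset.sum_const, nsmul_eq_mul] at h2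
  refine (mul_eq_zero.mp h2).resolve_left ?_
  rw [Nat.cast_eq_zero]
  obtain ⟨σ, r, hg⟩ := exists_good S p hp
  exact Finset.card_ne_zero_of_mem (a := (σ, r)) (by simpa using hg)

end symm

section final

variable {κ₁ κ₂ ν : Type*} [Fintype κ₁] [DecidableEq κ₁] [Fintype κ₂] [DecidableEq κ₂]
  [Fintype ν] [DecidableEq ν] {K : Type*} [Field K] [CharZero K]

/-- The family `Y`: codes in the first block, ones in the second. -/
def Yc (c : ν → κ₁ → Bool) : κ₁ ⊕ κ₂ → ν → K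
  | Sum.inl i, b => if c b i then 1 else 0
  | Sum.inr _, _ => 1

/-- The family `W`: ones in the first block, codes in the second. -/
def Wc (c : ν → κ₂ → Bool) : κ₁ ⊕ κ₂ → ν → K
  | Sum.inl _, _ => 1
  | Sum.inr j, a => if c a j then 1 else 0

omit [Fintype κ₁] [DecidableEq κ₁] [Fintype κ₂] [DecidableEq κ₂] [CharZero K] in
theorem Om_Yc (c : ν → κ₁ → Bool) (p : Option (κ₁ ⊕ κ₂) → ν) (T₁ : Finset κ₁) (T₂ : Finset κ₂)
    (b : ν) : Om p (Yc c : κ₁ ⊕ κ₂ → ν → K) (T₁.disjSum T₂) b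
      = Om (fun o => p (o.map Sum.inl)) (fun i a => if c a i then (1 : K) else 0) T₁ b := by
  unfold Om
  refine Finset.sum_congr rfl fun τ _ => ?_
  rw [Finset.prod_disjSum]
  simp only [Yc, Finset.prod_const_one, mul_one, Option.map_none, Option.map_some]

omit [Fintype κ₁] [DecidableEq κ₁] [Fintype κ₂] [DecidableEq κ₂] [CharZero K] in
theorem Om_Wc (c : ν → κ₂ → Bool) (p : Option (κ₁ ⊕ κ₂) → ν) (T₁ : Finset κ₁) (T₂ : Finset κ₂)
    (b : ν) : Om p (Wc c : κ₁ ⊕ κ₂ → ν → K) (T₁.disjSum T₂) b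
      = Om (fun o => p (o.map Sum.inr)) (fun i a => if c a i then (1 : K) else 0) T₂ b := by
  unfold Om
  refine Finset.sum_congr rfl fun τ _ => ?_
  rw [Finset.prod_disjSum]
  simp only [Wc, Finset.prod_const_one, one_mul, Option.map_none, Option.map_some]

/-- Linear independence of the minors. -/
theorem minors_independent (c₁ : ν → κ₁ → Bool) (c₂ : ν → κ₂ → Bool)
    (h₁ : Function.Injective c₁) (h₂ : Function.Injective c₂)
    (hcard : Fintype.card κ₁ + Fintype.card κ₂ + 1 ≤ Fintype.card ν) (h : ν → ν → K)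
    (hG : ∀ x : κ₁ ⊕ κ₂ → K, G (Yc c₁) (Wc c₂) h x = 0) : h = 0 := by
  classical
  have hcard' : Fintype.card (Option (κ₁ ⊕ κ₂)) ≤ Fintype.card ν := by
    rw [Fintype.card_option, Fintype.card_sum]
    exact hcard
  obtain ⟨p⟩ := Function.Embedding.nonempty_of_card_le hcard'
  have hp : Function.Injective p := p.injective
  have e1 : ∀ S : Finset (κ₁ ⊕ κ₂), ∑ σ : Perm ((κ₁ ⊕ κ₂) ⊕ ν), ∑ r,
      F (Yc c₁) (Wc c₂) h S σ r = 0 := by
    intro S
    refine multiaffine_zero (fun S => ∑ σ : Perm ((κ₁ ⊕ κ₂) ⊕ ν), ∑ r,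
      F (Yc c₁) (Wc c₂) h S σ r) ?_ S.card S rfl
    intro x
    have := hG x
    rw [G_expand] at this
    exact this
  have e2 : ∀ (T₁ : Finset κ₁) (T₂ : Finset κ₂), ∑ a, ∑ b, h a b *
      (Om (fun o => p (o.map Sum.inr)) (fun i a => if c₂ a i then (1 : K) else 0) T₂ a *
      Om (fun o => p (o.map Sum.inl)) (fun i a => if c₁ a i then (1 : K) else 0) T₁ b) = 0 := by
    intro T₁ T₂
    have h3 := product_form (Yc c₁) (Wc c₂) h (Finset.univ \ T₁.disjSum T₂) p hp (e1 _)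
    rw [Finset.sdiff_sdiff_eq_self (Finset.subset_univ _)] at h3
    simp only [Om_Yc, Om_Wc] at h3
    exact h3
  have hq1 : Function.Injective fun o : Option κ₁ => p (o.map Sum.inl) :=
    hp.comp (Option.map_injective Sum.inl_injective)
  have hq2 : Function.Injective fun o : Option κ₂ => p (o.map Sum.inr) :=
    hp.comp (Option.map_injective Sum.inr_injective)
  have hc1 : ∀ T : Finset κ₁, T.card < Fintype.card ν := by
    intro T
    have := Finset.card_le_univ T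
    omega
  have hc2 : ∀ T : Finset κ₂, T.card < Fintype.card ν := by
    intro T
    have := Finset.card_le_univ T
    omega
  have e3 : ∀ T₁ : Finset κ₁, (fun a => ∑ b, h a b *
      Om (fun o => p (o.map Sum.inl)) (fun i a => if c₁ a i then (1 : K) else 0) T₁ b) = 0 := by
    intro T₁
    refine orth_zero _ hq2 c₂ h₂ _ hc2 ?_
    intro T₂
    refine Eq.trans ?_ (e2 T₁ T₂)
    refine Finset.sum_congr rfl fun a _ => ?_
    rw [Finset.sum_mul]
    refine Finset.sum_congr rfl fun b _ => ?_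
    ring
  funext a
  refine orth_zero _ hq1 c₁ h₁ _ hc1 ?_
  intro T₁
  exact congrFun (e3 T₁) a

end final

end Pool.Agent.Work.MP_35c45d_lc.RankK
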