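import Pool.Agent.Work.MP_35c45d_lc.BorderLimit
import Pool.Agent.Work.MP_35c45d_lc.RankPerm
import Pool.Agent.Work.MP_35c45d_lc.RankDet

/-! Evaluation over the dual numbers. -/

set_option autoImplicit false

namespace Pool.Agent.Work.MP_35c45d_lc.RankK

open TrivSqZeroExt Filter Topology

section dualeval

variable {σ : Type*} [Fintype σ] [DecidableEq σ] {K : Type*} [Field K]

/-- First order expansion of a polynomial. -/
theorem aeval_dual (f : MvPolynomial σ K) (X h : σ → K) :
    MvPolynomial.aeval (fun t => (inl (X t) + inr (h t) : DualNumber K)) f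
      = inl (MvPolynomial.eval X f) + inr (∑ t, h t * MvPolynomial.eval X (MvPolynomial.pderiv t f)) := by
  induction f using MvPolynomial.induction_on with
  | C a =>
    rw [MvPolynomial.aeval_C]
    simp only [MvPolynomial.pderiv_C, map_zero, mul_zero, Finset.sum_const_zero, inr_zero, add_zero,
      MvPolynomial.eval_C]
    rfl
  | add p q hp hq =>
    rw [map_add, hp, hq]
    simp only [map_add, mul_add, Finset.sum_add_distrib, inl_add, inr_add]
    abel
  | mul_X p i hp =>
    rw [map_mul, hp, MvPolynomial.aeval_X]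
    simp only [MvPolynomial.pderiv_mul, map_add, map_mul, MvPolynomial.eval_X,
      MvPolynomial.pderiv_X]
    ext
    · simp
    · simp only [snd_add, snd_mul, snd_inl, snd_inr, fst_add, fst_inl, fst_inr, add_zero, zero_add,
        smul_eq_mul, MulOpposite.smul_eq_mul_unop, MulOpposite.unop_op]
      have h1 : ∑ t, h t * (MvPolynomial.eval X (MvPolynomial.pderiv t p) * X i
            + MvPolynomial.eval X p *
              MvPolynomial.eval X ((Pi.single t 1 : σ → MvPolynomial σ K) i))
          = (∑ t, h t * MvPolynomial.eval X (MvPolynomial.pderiv t p)) * X i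
            + MvPolynomial.eval X p * h i := by
        simp only [mul_add, Finset.sum_add_distrib, ← mul_assoc, ← Finset.sum_mul]
        congr 1
        rw [Finset.sum_eq_single i]
        · simp [mul_comm]
        · intro b _ hb
          rw [Pi.single_eq_of_ne (Ne.symm hb)]
          simp
        · simp
      rw [h1]
      ring

end dualeval

section prodsnd

variable {I : Type*} [DecidableEq I] {K : Type*} [Field K]

theorem snd_prod (s : Finset I) (u : I → DualNumber K) :
    fst (∏ i ∈ s, u i) = ∏ i ∈ s, fst (u i) ∧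
    snd (∏ i ∈ s, u i) = ∑ i ∈ s, snd (u i) * ∏ j ∈ s.erase i, fst (u j) := by
  induction s using Finset.induction_on with
  | empty => simp
  | insert a s ha ih =>
    rw [Finset.prod_insert ha]
    refine ⟨?_, ?_⟩
    · rw [fst_mul, ih.1, Finset.prod_insert ha]
    · rw [DualNumber.snd_mul, ih.1, ih.2, Finset.sum_insert ha, Finset.erase_insert ha,
        Finset.mul_sum, add_comm]
      congr 1
      refine Finset.sum_congr rfl fun i hi => ?_
      have hia : i ≠ a := fun h => ha (h ▸ hi)
      have : (insert a s).erase i = insert a (s.erase i) := by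
        rw [Finset.erase_insert_of_ne (Ne.symm hia)]
      rw [this, Finset.prod_insert (fun h => ha (Finset.mem_of_mem_erase h))]
      ring

end prodsnd

section permside

variable {ι : Type*} [Fintype ι] [DecidableEq ι] {K : Type*} [Field K]

/-- The permanent polynomial over an arbitrary field. -/
noncomputable def pp (ι : Type*) [Fintype ι] [DecidableEq ι] (K : Type*) [Field K] :
    MvPolynomial (ι × ι) K :=
  (Matrix.of (fun i j : ι => (MvPolynomial.X (i, j) : MvPolynomial (ι × ι) K))).permanent

theorem aeval_pp {R : Type*} [CommRing R] [Algebra K R] (x : ι × ι → R) :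
    MvPolynomial.aeval x (pp ι K) = ∑ σ : Equiv.Perm ι, ∏ i, x (i, σ i) := by
  have h1 : MvPolynomial.aeval x (pp ι K) = ∑ σ : Equiv.Perm ι, ∏ i, x (σ i, i) := by
    simp [pp, Matrix.permanent, map_sum, map_prod]
  rw [h1]
  refine Fintype.sum_equiv (Equiv.inv (Equiv.Perm ι)) _ _ fun σ => ?_
  rw [← Equiv.prod_comp σ (fun i => x (i, (Equiv.inv (Equiv.Perm ι) σ) i))]
  refine Finset.prod_congr rfl fun i _ => ?_
  simp

theorem sum_pderiv_pp (X h : ι × ι → K) :
    ∑ t, h t * MvPolynomial.eval X (MvPolynomial.pderiv t (pp ι K))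
      = ∑ σ : Equiv.Perm ι, ∑ r, h (r, σ r) * ∏ r' ∈ Finset.univ.erase r, X (r', σ r') := by
  have h1 := aeval_dual (pp ι K) X h
  rw [aeval_pp] at h1
  have h2 := congrArg snd h1
  rw [snd_add, snd_inl, snd_inr, zero_add, snd_sum] at h2
  rw [← h2]
  refine Finset.sum_congr rfl fun σ _ => ?_
  rw [(snd_prod Finset.univ _).2]
  refine Finset.sum_congr rfl fun r _ => ?_
  simp

end permside

section detside

variable {σ : Type*} [Fintype σ] [DecidableEq σ] {K : Type*} [Field K] {n : ℕ}

/-- The coefficient matrix of the variable `t`. -/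
noncomputable def coefMat (A : Matrix (Fin n) (Fin n) (MvPolynomial σ K)) (t : σ) : Matrix (Fin n) (Fin n) K :=
  Matrix.of fun i j => MvPolynomial.coeff (Finsupp.single t 1) (A i j)

theorem eval_entry (a : MvPolynomial σ K) (ha : a.totalDegree ≤ 1) {R : Type*} [CommRing R]
    [Algebra K R] (x : σ → R) :
    MvPolynomial.aeval x a = algebraMap K R (a.coeff 0)
      + ∑ t, algebraMap K R (a.coeff (Finsupp.single t 1)) * x t := by
  conv_lhs => rw [Border.eq_of_deg_le_one a ha]
  simp

theorem aeval_matrix (A : Matrix (Fin n) (Fin n) (MvPolynomial σ K))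
    (hA : ∀ i j, (A i j).totalDegree ≤ 1) (X h : σ → K) :
    A.map (MvPolynomial.aeval (fun t => (inl (X t) + inr (h t) : DualNumber K)))
      = up (A.map (MvPolynomial.eval X))
        + (DualNumber.eps : DualNumber K) • up (∑ t, h t • coefMat A t) := by
  ext1 i j
  have e1 := eval_entry (A i j) (hA i j) (fun t => (inl (X t) + inr (h t) : DualNumber K))
  have e2 := eval_entry (A i j) (hA i j) X
  have e0 : MvPolynomial.aeval X (A i j) = MvPolynomial.eval X (A i j) := by
    rw [MvPolynomial.aeval_eq_eval]
  rw [e0] at e2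
  rw [Matrix.map_apply, e1, Matrix.add_apply, Matrix.smul_apply]
  simp only [up, Matrix.map_apply, coefMat]
  have e3 : MvPolynomial.eval X (A i j) = (A i j).coeff 0
      + ∑ t, (A i j).coeff (Finsupp.single t 1) * X t := by
    simpa using e2
  rw [e3, Matrix.sum_apply]
  simp only [Matrix.smul_apply, Matrix.of_apply, map_add, map_sum, map_mul, smul_eq_mul]
  have e4 : ∀ c : K, algebraMap K (DualNumber K) c = inl c := fun c => rfl
  simp only [e4]
  rw [add_assoc]
  congr 1
  rw [Finset.mul_sum, ← Finset.sum_add_distrib]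
  refine Finset.sum_congr rfl fun t _ => ?_
  ext
  · simp
  · simp [mul_comm]

theorem sum_pderiv_det (A : Matrix (Fin n) (Fin n) (MvPolynomial σ K))
    (hA : ∀ i j, (A i j).totalDegree ≤ 1) (X h : σ → K) :
    ∑ t, h t * MvPolynomial.eval X (MvPolynomial.pderiv t A.det)
      = snd (up (A.map (MvPolynomial.eval X))
        + (DualNumber.eps : DualNumber K) • up (∑ t, h t • coefMat A t)).det := by
  rw [← aeval_matrix A hA X h]
  have h1 := aeval_dual A.det X h
  rw [AlgHom.map_det] at h1
  have h2 := congrArg snd h1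
  rw [snd_add, snd_inl, snd_inr, zero_add] at h2
  rw [← h2]
  rfl

end detside

section linlimit

variable {σ : Type*} [Fintype σ]

theorem tendsto_linear (N : ℕ) (g : ℕ → MvPolynomial σ ℂ) (f : MvPolynomial σ ℂ)
    (hg : ∀ s, (g s).totalDegree ≤ N)
    (hlim : ∀ d, Tendsto (fun s => MvPolynomial.coeff d (g s)) atTop
      (𝓝 (MvPolynomial.coeff d f)))
    (Λ : MvPolynomial σ ℂ →ₗ[ℂ] ℂ) :
    Tendsto (fun s => Λ (g s)) atTop (𝓝 (Λ f)) := by
  classical
  obtain ⟨T, hT⟩ : ∃ T : Finset (σ →₀ ℕ), ∀ d, d ∈ T ↔ Finsupp.degree d ≤ N := by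
    refine ⟨(Finsupp.finite_of_degree_le (σ := σ) N).toFinset, fun d => ?_⟩
    simp
  have hsupp : ∀ s, (g s).support ⊆ T := by
    intro s d hd
    rw [hT]
    have := MvPolynomial.le_totalDegree hd
    rw [Finsupp.degree_eq_sum]
    rw [Finsupp.sum_fintype _ _ (by simp)] at this
    exact this.trans (hg s)
  have hf : f.support ⊆ T := by
    intro d hd
    by_contra hdT
    have h1 : ∀ s, MvPolynomial.coeff d (g s) = 0 := by
      intro s
      by_contra h
      exact hdT (hsupp s (MvPolynomial.mem_support_iff.mpr h))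
    have h2 := hlim d
    simp only [h1] at h2
    have h3 := tendsto_nhds_unique h2 tendsto_const_nhds
    exact (MvPolynomial.mem_support_iff.mp hd) h3
  have hexp : ∀ (h : MvPolynomial σ ℂ), h.support ⊆ T →
      Λ h = ∑ d ∈ T, MvPolynomial.coeff d h * Λ (MvPolynomial.monomial d 1) := by
    intro h hh
    conv_lhs => rw [MvPolynomial.as_sum h, map_sum]
    have h1 : ∀ d, Λ (MvPolynomial.monomial d (MvPolynomial.coeff d h))
        = MvPolynomial.coeff d h * Λ (MvPolynomial.monomial d 1) := by
      intro d
      rw [← smul_eq_mul, ← map_smul, MvPolynomial.smul_monomial, smul_eq_mul, mul_one]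
    simp only [h1]
    refine Finset.sum_subset hh ?_
    intro d _ hd
    rw [MvPolynomial.notMem_support_iff.mp hd, zero_mul]
  rw [hexp f hf]
  have : (fun s => Λ (g s)) = fun s =>
      ∑ d ∈ T, MvPolynomial.coeff d (g s) * Λ (MvPolynomial.monomial d 1) := by
    funext s
    exact hexp _ (hsupp s)
  rw [this]
  exact tendsto_finsetSum _ fun d _ => (hlim d).mul_const _

end linlimit

end Pool.Agent.Work.MP_35c45d_lc.RankK
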