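import Pool.Agent.Work.MP_35c45d_lc.RankDual

/-! The block bound for the total coefficient rank. -/

set_option autoImplicit false

namespace Pool.Agent.Work.MP_35c45d_lc.RankK

open TrivSqZeroExt Filter Topology

section kernel

variable {κ ν : Type*} [Fintype κ] [DecidableEq κ] [Fintype ν] [DecidableEq ν] {K : Type*}
  [Field K] {n : ℕ}

/-- The special matrices as points. -/
def Xp (Y W : κ → ν → K) (x : κ → K) : (κ ⊕ ν) × (κ ⊕ ν) → K := fun t => Xm Y W x t.1 t.2

/-- The directions as points. -/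
def Hp (h : ν → ν → K) : (κ ⊕ ν) × (κ ⊕ ν) → K := fun t => Hh h t.1 t.2

omit [Fintype ν] in
theorem Xp_sub (Y W : κ → ν → K) (x x0 : κ → K) (t : (κ ⊕ ν) × (κ ⊕ ν)) :
    Xp Y W x t = Xp Y W x0 t + ∑ i, (x i - x0 i) *
      (if t = (Sum.inl i, Sum.inl i) then 1 else 0) := by
  obtain ⟨r, c⟩ := t
  rcases r with i | a <;> rcases c with j | b
  · by_cases hij : i = j
    · subst hij
      rw [Finset.sum_eq_single i]
      · simp [Xp, Xm]
      · intro b _ hb
        simp [Ne.symm hb]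
      · simp
    · rw [Finset.sum_eq_zero]
      · simp [Xp, Xm, hij]
      · intro k _
        rw [if_neg, mul_zero]
        intro h
        rw [Prod.mk.injEq] at h
        exact hij ((Sum.inl_injective h.1).trans (Sum.inl_injective h.2).symm)
  · simp [Xp, Xm]
  · simp [Xp, Xm]
  · simp [Xp, Xm]

theorem map_eval_Xp (A : Matrix (Fin n) (Fin n) (MvPolynomial ((κ ⊕ ν) × (κ ⊕ ν)) K))
    (hA : ∀ i j, (A i j).totalDegree ≤ 1) (Y W : κ → ν → K) (x x0 : κ → K) :
    A.map (MvPolynomial.eval (Xp Y W x)) = A.map (MvPolynomial.eval (Xp Y W x0))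
      + ∑ i, (x i - x0 i) • coefMat A (Sum.inl i, Sum.inl i) := by
  ext1 r c
  have e0 : ∀ X : (κ ⊕ ν) × (κ ⊕ ν) → K, MvPolynomial.eval X (A r c)
      = (A r c).coeff 0 + ∑ t, (A r c).coeff (Finsupp.single t 1) * X t := by
    intro X
    have := eval_entry (A r c) (hA r c) X
    rw [MvPolynomial.aeval_eq_eval] at this
    simpa using this
  rw [Matrix.add_apply, Matrix.map_apply, Matrix.map_apply, e0, e0, Matrix.sum_apply, add_assoc]
  congr 1
  simp only [Xp_sub Y W x x0, mul_add, Finset.sum_add_distrib]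
  congr 1
  simp only [Finset.mul_sum]
  rw [Finset.sum_comm]
  refine Finset.sum_congr rfl fun i _ => ?_
  rw [Finset.sum_eq_single (Sum.inl i, Sum.inl i)]
  · simp [coefMat, mul_comm]
  · intro t _ ht
    rw [if_neg ht, mul_zero, mul_zero]
  · simp

/-- The linear map sending a direction to the variation of the matrix. -/
noncomputable def Hlin (A : Matrix (Fin n) (Fin n) (MvPolynomial ((κ ⊕ ν) × (κ ⊕ ν)) K)) :
    (ν → ν → K) →ₗ[K] Matrix (Fin n) (Fin n) K where
  toFun h := ∑ t, Hp h t • coefMat A t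
  map_add' h h' := by
    rw [← Finset.sum_add_distrib]
    refine Finset.sum_congr rfl fun t _ => ?_
    rw [← add_smul]
    congr 1
    obtain ⟨r, c⟩ := t
    rcases r with i | a <;> rcases c with j | b <;> simp [Hp, Hh]
  map_smul' c h := by
    rw [RingHom.id_apply, Finset.smul_sum]
    refine Finset.sum_congr rfl fun t _ => ?_
    rw [smul_smul]
    congr 1
    obtain ⟨r, c⟩ := t
    rcases r with i | a <;> rcases c with j | b <;> simp [Hp, Hh]

/-- If the total rank is small there is a direction killed to first order. -/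
theorem exists_direction (A : Matrix (Fin n) (Fin n) (MvPolynomial ((κ ⊕ ν) × (κ ⊕ ν)) K))
    (hA : ∀ i j, (A i j).totalDegree ≤ 1) (Y W : κ → ν → K) (x0 : κ → K)
    (hdet : MvPolynomial.eval (Xp Y W x0) A.det ≠ 0) (k : κ → ℕ)
    (hk : ∀ i, (coefMat A (Sum.inl i, Sum.inl i)).rank ≤ k i)
    (hν : 2 ≤ Fintype.card ν) (hlt : ∑ i, k i < Fintype.card ν) :
    ∃ h : ν → ν → K, h ≠ 0 ∧ ∀ x : κ → K,
      ∑ t, Hp h t * MvPolynomial.eval (Xp Y W x) (MvPolynomial.pderiv t A.det) = 0 := by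
  classical
  set M₀ := A.map (MvPolynomial.eval (Xp Y W x0)) with hM₀
  have hdet' : M₀.det ≠ 0 := by
    rw [RingHom.map_det] at hdet
    exact hdet
  set P := M₀⁻¹ with hPdef
  have hP : M₀ * P = 1 := Matrix.mul_nonsing_inv _ (IsUnit.mk0 _ hdet')
  let Ai : κ → Matrix (Fin n) (Fin n) K := fun i => coefMat A (Sum.inl i, Sum.inl i)
  let L : (ν → ν → K) →ₗ[K] Matrix (Fin n) (Fin n) K :=
    { toFun := fun h => P * Hlin A h * P
      map_add' := by intro x y; rw [map_add, Matrix.mul_add, Matrix.add_mul]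
      map_smul' := by
        intro c x
        rw [map_smul, Matrix.mul_smul, Matrix.smul_mul, RingHom.id_apply] }
  let T : Option (κ × κ) → (ν → ν → K) →ₗ[K] Matrix (Fin n) (Fin n) K := fun o =>
    match o with
    | none =>
      { toFun := fun h => (Hlin A h * P).trace • (1 : Matrix (Fin n) (Fin n) K)
        map_add' := by
          intro x y
          rw [map_add, Matrix.add_mul, Matrix.trace_add, add_smul]
        map_smul' := by
          intro c x
          rw [map_smul, Matrix.smul_mul, Matrix.trace_smul, RingHom.id_apply, smul_smul,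
            smul_eq_mul] }
    | some ij =>
      { toFun := fun h => Ai ij.1 * L h * Ai ij.2
        map_add' := by intro x y; rw [map_add, Matrix.mul_add, Matrix.add_mul]
        map_smul' := by
          intro c x
          rw [map_smul, Matrix.mul_smul, Matrix.smul_mul, RingHom.id_apply] }
  let c : Option (κ × κ) → ℕ := fun o => o.elim 1 fun ij => k ij.1 * k ij.2
  have hc : ∀ o, Module.finrank K (LinearMap.range (T o)) ≤ c o := by
    intro o
    rcases o with _ | ij
    · have h1 : LinearMap.range (T none) ≤ Submodule.span K {(1 : Matrix (Fin n) (Fin n) K)} := by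
        rintro _ ⟨h, rfl⟩
        exact Submodule.mem_span_singleton.mpr ⟨_, rfl⟩
      refine (Submodule.finrank_mono h1).trans ?_
      have := finrank_span_le_card (R := K) ({(1 : Matrix (Fin n) (Fin n) K)} : Set _)
      simpa [c] using this
    · refine (finrank_range_le (Ai ij.1) (Ai ij.2) L (T (some ij)) (fun h => rfl)).trans ?_
      exact Nat.mul_le_mul (hk ij.1) (hk ij.2)
  have h1 := finrank_iInf_ker T c hc Finset.univ ⊤
  have h2 : Module.finrank K (⊤ : Submodule K (ν → ν → K))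
      = Fintype.card ν * Fintype.card ν := by
    rw [finrank_top, Module.finrank_pi_fintype]
    simp
  have h3 : ∑ o, c o = 1 + (∑ i, k i) * (∑ i, k i) := by
    rw [Fintype.sum_option, Fintype.sum_prod_type, Finset.sum_mul_sum]
    rfl
  rw [h2, h3] at h1
  have h4 : 0 < Module.finrank K (⊤ ⊓ Finset.univ.inf (fun o => LinearMap.ker (T o)) :
      Submodule K (ν → ν → K)) := by
    obtain ⟨d, hd⟩ : ∃ d, Fintype.card ν = (∑ i, k i) + 1 + d :=
      ⟨Fintype.card ν - (∑ i, k i) - 1, by omega⟩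
    by_contra hcon
    have h5 : Module.finrank K (⊤ ⊓ Finset.univ.inf (fun o => LinearMap.ker (T o)) :
      Submodule K (ν → ν → K)) = 0 := by omega
    rw [h5, hd] at h1
    rw [hd] at hν
    generalize (∑ i, k i) = s at h1 hν
    have h6 : 1 ≤ s ∨ 1 ≤ d := by omega
    rcases h6 with h6 | h6 <;> nlinarith
  rw [Module.finrank_pos_iff_exists_ne_zero] at h4
  obtain ⟨⟨h, hh⟩, hne⟩ := h4
  rw [top_inf_eq, Submodule.mem_finsetInf] at hh
  have htr : (Hlin A h * P).trace = 0 := by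
    have h5 : (Hlin A h * P).trace • (1 : Matrix (Fin n) (Fin n) K) = 0 := hh none (Finset.mem_univ _)
    rcases Nat.eq_zero_or_pos n with hn | hn
    · subst hn
      simp [Matrix.trace]
    · have h6 := congrFun (congrFun h5 ⟨0, hn⟩) ⟨0, hn⟩
      simpa using h6
  have hAA : ∀ i j, Ai i * (P * Hlin A h * P) * Ai j = 0 := fun i j =>
    hh (some (i, j)) (Finset.mem_univ _)
  refine ⟨h, fun h0 => hne (Subtype.ext h0), fun x => ?_⟩
  rw [sum_pderiv_det A hA, map_eval_Xp A hA Y W x x0]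
  have hDZD : ∀ Z : Matrix (Fin n) (Fin n) K, (∀ i j, Ai i * Z * Ai j = 0) →
      (∑ i, (x i - x0 i) • Ai i) * Z * (∑ i, (x i - x0 i) • Ai i) = 0 := by
    intro Z hZ
    rw [Finset.sum_mul]
    simp only [Finset.mul_sum, Finset.sum_mul, Matrix.smul_mul, Matrix.mul_smul]
    refine Finset.sum_eq_zero fun i _ => Finset.sum_eq_zero fun j _ => ?_
    rw [hZ, smul_zero, smul_zero]
  exact snd_det_eq_zero M₀ P (∑ i, (x i - x0 i) • Ai i) (Hlin A h) hP (hDZD _ hAA) htr

end kernel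

section block

variable {κ₁ κ₂ ν : Type*} [Fintype κ₁] [DecidableEq κ₁] [Fintype κ₂] [DecidableEq κ₂]
  [Fintype ν] [DecidableEq ν]

theorem eval_pp_ne_zero (c₁ : ν → κ₁ → Bool) (c₂ : ν → κ₂ → Bool) :
    MvPolynomial.eval (Xp (Yc c₁) (Wc c₂) (fun _ => (1 : ℂ)))
      (pp ((κ₁ ⊕ κ₂) ⊕ ν) ℂ) ≠ 0 := by
  have h0 : MvPolynomial.eval (Xp (Yc c₁) (Wc c₂) (fun _ => (1 : ℂ)))
      (pp ((κ₁ ⊕ κ₂) ⊕ ν) ℂ) = ∑ σ : Equiv.Perm ((κ₁ ⊕ κ₂) ⊕ ν), ∏ i,
        Xm (Yc c₁) (Wc c₂) (fun _ => (1 : ℂ)) i (σ i) := by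
    have := aeval_pp (ι := (κ₁ ⊕ κ₂) ⊕ ν) (K := ℂ) (Xp (Yc c₁) (Wc c₂) (fun _ => (1 : ℂ)))
    rw [MvPolynomial.aeval_eq_eval] at this
    exact this
  have h1 : ∀ r c, ∃ v : ℕ, Xm (Yc c₁) (Wc c₂) (fun _ => (1 : ℂ)) r c = (v : ℂ) := by
    intro r c
    rcases r with (i | i) | a <;> rcases c with (j | j) | b <;>
      simp only [Xm, Yc, Wc] <;> (try split_ifs) <;>
      first | exact ⟨1, Nat.cast_one.symm⟩ | exact ⟨0, Nat.cast_zero.symm⟩
  choose v hv using h1
  rw [h0]
  simp only [hv]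
  have h2 : (∑ σ : Equiv.Perm ((κ₁ ⊕ κ₂) ⊕ ν), ∏ i, (v i (σ i) : ℂ))
      = ((∑ σ : Equiv.Perm ((κ₁ ⊕ κ₂) ⊕ ν), ∏ i, v i (σ i) : ℕ) : ℂ) := by
    push_cast
    rfl
  rw [h2, Nat.cast_ne_zero]
  apply ne_of_gt
  refine lt_of_lt_of_le ?_ (Finset.single_le_sum (fun σ _ => Nat.zero_le _)
    (Finset.mem_univ (1 : Equiv.Perm ((κ₁ ⊕ κ₂) ⊕ ν))))
  apply Finset.prod_pos
  intro i _
  have h3 := hv i i
  have h4 : Xm (Yc c₁) (Wc c₂) (fun _ => (1 : ℂ)) i i = 1 := by
    rcases i with i | a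
    · simp [Xm]
    · rfl
  rw [h4] at h3
  rw [Equiv.Perm.one_apply]
  rcases Nat.eq_zero_or_pos (v i i) with h5 | h5
  · rw [h5] at h3
    simp at h3
  · exact h5

/-- The block bound in split form. -/
theorem block_bound_split {n : ℕ} (hκ : 1 ≤ Fintype.card κ₁)
    (hcard : Fintype.card κ₁ + Fintype.card κ₂ + 1 ≤ Fintype.card ν)
    (hpow₁ : Fintype.card ν ≤ 2 ^ Fintype.card κ₁) (hpow₂ : Fintype.card ν ≤ 2 ^ Fintype.card κ₂)
    (A : ℕ → Matrix (Fin n) (Fin n) (MvPolynomial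
      (((κ₁ ⊕ κ₂) ⊕ ν) × ((κ₁ ⊕ κ₂) ⊕ ν)) ℂ))
    (hA : ∀ s i j, (A s i j).totalDegree ≤ 1)
    (hlim : ∀ d, Tendsto (fun s => MvPolynomial.coeff d (A s).det) atTop
      (𝓝 (MvPolynomial.coeff d (pp ((κ₁ ⊕ κ₂) ⊕ ν) ℂ))))
    (k : κ₁ ⊕ κ₂ → ℕ) (hk : ∀ s i, (coefMat (A s) (Sum.inl i, Sum.inl i)).rank ≤ k i) :
    Fintype.card ν ≤ ∑ i, k i := by
  classical
  by_contra hcon
  push Not at hcon
  have hinj₁ : ∃ c₁ : ν → κ₁ → Bool, Function.Injective c₁ := by
    have : Fintype.card ν ≤ Fintype.card (κ₁ → Bool) := by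
      rw [Fintype.card_fun, Fintype.card_bool]
      exact hpow₁
    obtain ⟨f⟩ := Function.Embedding.nonempty_of_card_le this
    exact ⟨f, f.injective⟩
  have hinj₂ : ∃ c₂ : ν → κ₂ → Bool, Function.Injective c₂ := by
    have : Fintype.card ν ≤ Fintype.card (κ₂ → Bool) := by
      rw [Fintype.card_fun, Fintype.card_bool]
      exact hpow₂
    obtain ⟨f⟩ := Function.Embedding.nonempty_of_card_le this
    exact ⟨f, f.injective⟩
  obtain ⟨c₁, hc₁⟩ := hinj₁
  obtain ⟨c₂, hc₂⟩ := hinj₂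
  set x0 : κ₁ ⊕ κ₂ → ℂ := fun _ => 1 with hx0
  have hdeg : ∀ s, (A s).det.totalDegree ≤ n := fun s => Border.totalDegree_det_le _ (hA s)
  -- eventually the determinant is nonzero at the base point
  have hbase := Border.tendsto_eval_of_coeff n (fun s => (A s).det) _ hdeg hlim
    (fun _ => Xp (Yc c₁) (Wc c₂) x0) (Xp (Yc c₁) (Wc c₂) x0) tendsto_const_nhds
  have hne := hbase.eventually_ne (eval_pp_ne_zero c₁ c₂)
  obtain ⟨s0, hs0⟩ := eventually_atTop.mp hne
  have hdir : ∀ s : ℕ, ∃ h : ν → ν → ℂ, ‖h‖ = 1 ∧ ∀ x : κ₁ ⊕ κ₂ → ℂ,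
      ∑ t, Hp h t * MvPolynomial.eval (Xp (Yc c₁) (Wc c₂) x)
        (MvPolynomial.pderiv t (A (s + s0)).det) = 0 := by
    intro s
    obtain ⟨h, hh0, hh⟩ := exists_direction (A (s + s0)) (hA _) (Yc c₁) (Wc c₂) x0
      (hs0 (s + s0) (Nat.le_add_left _ _)) k (hk _) (by omega) hcon
    have hnorm : ‖h‖ ≠ 0 := norm_ne_zero_iff.mpr hh0
    refine ⟨((‖h‖⁻¹ : ℝ) : ℂ) • h, ?_, fun x => ?_⟩
    · rw [norm_smul, Complex.norm_real, norm_inv, norm_norm, inv_mul_cancel₀ hnorm]
    · have e1 : ∀ t : ((κ₁ ⊕ κ₂) ⊕ ν) × ((κ₁ ⊕ κ₂) ⊕ ν), Hp (((‖h‖⁻¹ : ℝ) : ℂ) • h) t = ((‖h‖⁻¹ : ℝ) : ℂ) * Hp h t := by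
        rintro ⟨r, c⟩
        rcases r with i | a <;> rcases c with j | b <;> simp [Hp, Hh]
      simp only [e1, mul_assoc]
      rw [← Finset.mul_sum, hh x, mul_zero]
  choose h hh1 hh using hdir
  obtain ⟨a, _, φ, hφ, ha⟩ := tendsto_subseq_of_bounded
    (Metric.isBounded_closedBall (x := (0 : ν → ν → ℂ)) (r := 1))
    (x := h) (fun s => by rw [mem_closedBall_zero_iff, hh1 s])
  have hanorm : ‖a‖ = 1 := by
    have h1 : Tendsto (fun s => ‖h (φ s)‖) atTop (𝓝 ‖a‖) := ha.norm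
    simp only [hh1] at h1
    exact (tendsto_nhds_unique h1 tendsto_const_nhds)
  have hzero : ∀ x : κ₁ ⊕ κ₂ → ℂ, G (Yc c₁) (Wc c₂) a x = 0 := by
    intro x
    have h1 : G (Yc c₁) (Wc c₂) a x = ∑ t, Hp a t * MvPolynomial.eval (Xp (Yc c₁) (Wc c₂) x)
        (MvPolynomial.pderiv t (pp ((κ₁ ⊕ κ₂) ⊕ ν) ℂ)) := by
      rw [sum_pderiv_pp]
      rfl
    rw [h1]
    have h2 : Tendsto (fun s => ∑ t, Hp (h (φ s)) t * MvPolynomial.eval (Xp (Yc c₁) (Wc c₂) x)
        (MvPolynomial.pderiv t (A (φ s + s0)).det)) atTop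
        (𝓝 (∑ t, Hp a t * MvPolynomial.eval (Xp (Yc c₁) (Wc c₂) x)
        (MvPolynomial.pderiv t (pp ((κ₁ ⊕ κ₂) ⊕ ν) ℂ)))) := by
      refine tendsto_finsetSum _ fun t _ => ?_
      refine Tendsto.mul ?_ ?_
      · have e1 : Continuous fun g : ν → ν → ℂ => Hp g t := by
          obtain ⟨r, c⟩ := t
          rcases r with i | a <;> rcases c with j | b
          · exact continuous_const
          · exact continuous_const
          · exact continuous_const
          · exact (continuous_apply b).comp (continuous_apply a)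
        exact (e1.tendsto a).comp ha
      · have hs : Tendsto (fun s => φ s + s0) atTop atTop :=
          tendsto_atTop_mono (fun s => Nat.le_add_right _ _) hφ.tendsto_atTop
        let Λ : MvPolynomial (((κ₁ ⊕ κ₂) ⊕ ν) × ((κ₁ ⊕ κ₂) ⊕ ν)) ℂ →ₗ[ℂ] ℂ :=
          (MvPolynomial.aeval (R := ℂ) (Xp (Yc c₁) (Wc c₂) x)).toLinearMap.comp
            (MvPolynomial.pderiv t).toLinearMap
        have := tendsto_linear n (fun s => (A (φ s + s0)).det) (pp ((κ₁ ⊕ κ₂) ⊕ ν) ℂ)
          (fun s => hdeg _) (fun d => (hlim d).comp hs) Λ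
        have e2 : ∀ f, Λ f = MvPolynomial.eval (Xp (Yc c₁) (Wc c₂) x)
            (MvPolynomial.pderiv t f) := by
          intro f
          change MvPolynomial.aeval (R := ℂ) (Xp (Yc c₁) (Wc c₂) x) (MvPolynomial.pderiv t f) = _
          rw [MvPolynomial.aeval_eq_eval]
        simpa only [e2] using this
    simp only [hh] at h2
    exact (tendsto_nhds_unique h2 tendsto_const_nhds)
  have h0 := minors_independent c₁ c₂ hc₁ hc₂ hcard a hzero
  rw [h0, norm_zero] at hanorm
  exact zero_ne_one hanorm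

end block

section transfer

theorem exists_equiv_extend {κ ν : Type*} [Fintype κ] [Fintype ν] {m : ℕ}
    (hcard : Fintype.card κ + Fintype.card ν = m) (ρ : κ → Fin m) (hρ : Function.Injective ρ) :
    ∃ e : κ ⊕ ν ≃ Fin m, ∀ i, e (Sum.inl i) = ρ i := by
  have h1 : Fintype.card (κ ⊕ ν) = Fintype.card (Fin m) := by
    rw [Fintype.card_sum, Fintype.card_fin, hcard]
  obtain ⟨e0⟩ := Fintype.card_eq.mp h1
  obtain ⟨τ, hτ⟩ := exists_perm_extend Set.univ (fun i => e0 (Sum.inl i)) ρ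
    (e0.injective.comp Sum.inl_injective).injOn hρ.injOn
  exact ⟨e0.trans τ, fun i => hτ i (Set.mem_univ _)⟩

variable {ι : Type*} [Fintype ι] [DecidableEq ι] {m n : ℕ}

omit [Fintype ι] [DecidableEq ι] in
theorem coeff_rename_equiv (er ec : ι ≃ Fin m) (p : MvPolynomial (Fin m × Fin m) ℂ)
    (d : ι × ι →₀ ℕ) :
    MvPolynomial.coeff d (MvPolynomial.rename (Prod.map er.symm ec.symm) p)
      = MvPolynomial.coeff (d.mapDomain (Prod.map er ec)) p := by
  have h1 : (d.mapDomain (Prod.map er ec)).mapDomain (Prod.map er.symm ec.symm) = d := by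
    rw [← Finsupp.mapDomain_comp, Prod.map_comp_map, Equiv.symm_comp_self, Equiv.symm_comp_self,
      Prod.map_id, Finsupp.mapDomain_id]
  conv_lhs => rw [← h1]
  exact MvPolynomial.coeff_rename_mapDomain _
    (er.symm.injective.prodMap ec.symm.injective) _ _

theorem rename_perm (er ec : ι ≃ Fin m) :
    MvPolynomial.rename (Prod.map er.symm ec.symm) (Matrix.of (fun i j : Fin m =>
        (MvPolynomial.X (i, j) : MvPolynomial (Fin m × Fin m) ℂ))).permanent = pp ι ℂ := by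
  unfold pp Matrix.permanent
  simp only [map_sum, map_prod, Matrix.of_apply, MvPolynomial.rename_X, Prod.map_apply]
  refine Fintype.sum_equiv (Equiv.equivCongr ec.symm er.symm) _ _ fun σ => ?_
  rw [← Equiv.prod_comp ec]
  refine Finset.prod_congr rfl fun i _ => ?_
  simp

/-- The block bound. -/
theorem block_bound {q : ℕ} (hq : 1 ≤ q) (hm : 4 * q + 1 ≤ m) (hpow : m ≤ 2 ^ q + 2 * q)
    (k : Fin m → Fin m → ℕ)
    (A : ℕ → Matrix (Fin n) (Fin n) (MvPolynomial (Fin m × Fin m) ℂ))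
    (hA : ∀ s i j, (A s i j).totalDegree ≤ 1)
    (hk : ∀ s a b, (Matrix.of fun i j =>
      MvPolynomial.coeff (Finsupp.single (a, b) 1) (A s i j)).rank ≤ k a b)
    (hlim : ∀ d, Tendsto (fun s => MvPolynomial.coeff d (A s).det) atTop
      (𝓝 (MvPolynomial.coeff d (Matrix.of (fun i j : Fin m =>
        (MvPolynomial.X (i, j) : MvPolynomial (Fin m × Fin m) ℂ))).permanent)))
    (ρ γ : Fin q ⊕ Fin q → Fin m) (hρ : Function.Injective ρ) (hγ : Function.Injective γ) :
    m - 2 * q ≤ ∑ i, k (ρ i) (γ i) := by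
  have hcard : Fintype.card (Fin q ⊕ Fin q) + Fintype.card (Fin (m - 2 * q)) = m := by
    rw [Fintype.card_sum, Fintype.card_fin, Fintype.card_fin]
    omega
  obtain ⟨er, her⟩ := exists_equiv_extend hcard ρ hρ
  obtain ⟨ec, hec⟩ := exists_equiv_extend hcard γ hγ
  have key := block_bound_split (κ₁ := Fin q) (κ₂ := Fin q) (ν := Fin (m - 2 * q)) (n := n)
    (by rw [Fintype.card_fin]; exact hq) (by simp only [Fintype.card_fin]; omega)
    (by simp only [Fintype.card_fin]; omega) (by simp only [Fintype.card_fin]; omega)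
    (fun s => (A s).map (MvPolynomial.rename (Prod.map er.symm ec.symm)))
    (fun s i j => (MvPolynomial.totalDegree_rename_le _ _).trans (hA s i j))
    (by
      intro d
      have h1 : ∀ s, ((A s).map (MvPolynomial.rename (Prod.map er.symm ec.symm))).det
          = MvPolynomial.rename (Prod.map er.symm ec.symm) (A s).det := by
        intro s
        rw [AlgHom.map_det]
        rfl
      simp only [h1, ← rename_perm er ec, coeff_rename_equiv]
      exact hlim _)
    (fun i => k (ρ i) (γ i))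
    (by
      intro s i
      have h1 : coefMat ((A s).map (MvPolynomial.rename (Prod.map er.symm ec.symm)))
          (Sum.inl i, Sum.inl i) = Matrix.of fun r c =>
          MvPolynomial.coeff (Finsupp.single (ρ i, γ i) 1) (A s r c) := by
        ext r c
        simp only [coefMat, Matrix.of_apply, Matrix.map_apply, coeff_rename_equiv,
          Finsupp.mapDomain_single, Prod.map_apply, her, hec]
      rw [h1]
      exact hk s _ _)
  rw [Fintype.card_fin] at key
  exact key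

/-- The bound for a partial matching. -/
theorem matching_bound {q : ℕ} (hm : 4 * q + 1 ≤ m) (hpow : m ≤ 2 ^ q + 2 * q)
    (k : Fin m → Fin m → ℕ)
    (A : ℕ → Matrix (Fin n) (Fin n) (MvPolynomial (Fin m × Fin m) ℂ))
    (hA : ∀ s i j, (A s i j).totalDegree ≤ 1)
    (hk : ∀ s a b, (Matrix.of fun i j =>
      MvPolynomial.coeff (Finsupp.single (a, b) 1) (A s i j)).rank ≤ k a b)
    (hlim : ∀ d, Tendsto (fun s => MvPolynomial.coeff d (A s).det) atTop
      (𝓝 (MvPolynomial.coeff d (Matrix.of (fun i j : Fin m =>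
        (MvPolynomial.X (i, j) : MvPolynomial (Fin m × Fin m) ℂ))).permanent)))
    (S : Finset (Fin m × Fin m)) (hS₁ : Set.InjOn Prod.fst (S : Set (Fin m × Fin m)))
    (hS₂ : Set.InjOn Prod.snd (S : Set (Fin m × Fin m))) :
    (S.card / (2 * q)) * (m - 2 * q) ≤ ∑ t ∈ S, k t.1 t.2 := by
  classical
  rcases Nat.eq_zero_or_pos q with hq | hq
  · subst hq
    simp
  let e : S ≃ Fin S.card := S.equivFin
  -- the index of the `j`-th element of the `b`-th block
  let f : Fin (S.card / (2 * q)) × (Fin q ⊕ Fin q) → Fin S.card := fun t =>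
    ⟨(2 * q) * t.1 + (finSumFinEquiv t.2 : Fin (q + q)), by
      have h1 : (t.1 : ℕ) + 1 ≤ S.card / (2 * q) := t.1.2
      have h2 : ((finSumFinEquiv t.2 : Fin (q + q)) : ℕ) < q + q := (finSumFinEquiv t.2).2
      have h3 : (2 * q) * ((t.1 : ℕ) + 1) ≤ (2 * q) * (S.card / (2 * q)) :=
        Nat.mul_le_mul_left _ h1
      have h4 : (2 * q) * (S.card / (2 * q)) ≤ S.card := Nat.mul_div_le S.card (2 * q)
      rw [Nat.mul_add] at h3
      omega⟩
  have hf : Function.Injective f := by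
    rintro ⟨b, i⟩ ⟨b', i'⟩ h
    have h1 : (2 * q) * (b : ℕ) + ((finSumFinEquiv i : Fin (q + q)) : ℕ)
        = (2 * q) * (b' : ℕ) + ((finSumFinEquiv i' : Fin (q + q)) : ℕ) := congrArg Fin.val h
    have h2 : ((finSumFinEquiv i : Fin (q + q)) : ℕ) < 2 * q := by
      have := (finSumFinEquiv i : Fin (q + q)).2
      omega
    have h3 : ((finSumFinEquiv i' : Fin (q + q)) : ℕ) < 2 * q := by
      have := (finSumFinEquiv i' : Fin (q + q)).2
      omega
    have h4 : (b : ℕ) = (b' : ℕ) := by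
      have e1 := congrArg (fun z => z / (2 * q)) h1
      beta_reduce at e1
      rw [Nat.mul_add_div (by omega), Nat.mul_add_div (by omega), Nat.div_eq_of_lt h2,
        Nat.div_eq_of_lt h3] at e1
      omega
    rw [h4] at h1
    have h5 : finSumFinEquiv i = finSumFinEquiv i' := Fin.ext (by omega)
    rw [Prod.mk.injEq]
    exact ⟨Fin.ext h4, finSumFinEquiv.injective h5⟩
  let g : Fin (S.card / (2 * q)) × (Fin q ⊕ Fin q) → Fin m × Fin m := fun t => (e.symm (f t)).1
  have hgS : ∀ t, g t ∈ S := fun t => (e.symm (f t)).2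
  have hg : Function.Injective g := fun t t' h => hf (e.symm.injective (Subtype.ext h))
  have h1 : ∑ t : Fin (S.card / (2 * q)) × (Fin q ⊕ Fin q), k (g t).1 (g t).2
      ≤ ∑ a ∈ S, k a.1 a.2 := by
    rw [← Finset.sum_image (f := fun a => k a.1 a.2) (g := g) (s := Finset.univ)
      (fun x _ y _ h => hg h)]
    refine Finset.sum_le_sum_of_subset ?_
    intro a ha
    obtain ⟨t, _, rfl⟩ := Finset.mem_image.mp ha
    exact hgS t
  refine le_trans ?_ h1
  rw [Fintype.sum_prod_type]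
  have h2 : ∀ b : Fin (S.card / (2 * q)), m - 2 * q ≤ ∑ i, k (g (b, i)).1 (g (b, i)).2 := by
    intro b
    refine block_bound hq hm hpow k A hA hk hlim (fun i => (g (b, i)).1) (fun i => (g (b, i)).2)
      ?_ ?_
    · intro i i' h
      exact (Prod.mk.inj (hg (hS₁ (hgS _) (hgS _) h))).2
    · intro i i' h
      exact (Prod.mk.inj (hg (hS₂ (hgS _) (hgS _) h))).2
  calc (S.card / (2 * q)) * (m - 2 * q) = ∑ _b : Fin (S.card / (2 * q)), (m - 2 * q) := by simp
    _ ≤ _ := Finset.sum_le_sum fun b _ => h2 b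

end transfer

end Pool.Agent.Work.MP_35c45d_lc.RankK
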