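import Mathlib

/-! Sums over permutations with one pinned value, and independence of the resulting functions. -/

set_option autoImplicit false

namespace Pool.Agent.Work.MP_35c45d_lc.RankK

open Equiv Finset

theorem exists_perm_extend {α ν : Type*} [Finite ν] (s : Set α) (f g : α → ν)
    (hf : Set.InjOn f s) (hg : Set.InjOn g s) : ∃ ρ : Perm ν, ∀ x ∈ s, ρ (f x) = g x := by
  classical
  let f' : s → ν := fun x => f x.1
  let g' : s → ν := fun x => g x.1
  have hf' : Function.Injective f' := fun x y h => Subtype.ext (hf x.2 y.2 h)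
  have hg' : Function.Injective g' := fun x y h => Subtype.ext (hg x.2 y.2 h)
  let e : {x // x ∈ Set.range f'} ≃ {x // x ∈ Set.range g'} :=
    (Equiv.ofInjective f' hf').symm.trans (Equiv.ofInjective g' hg')
  refine ⟨e.extendSubtype, fun x hx => ?_⟩
  have hmem : f x ∈ Set.range f' := ⟨⟨x, hx⟩, rfl⟩
  rw [Equiv.extendSubtype_apply_of_mem e (f x) hmem]
  have : (⟨f x, hmem⟩ : {x // x ∈ Set.range f'}) = Equiv.ofInjective f' hf' ⟨x, hx⟩ := rfl
  rw [this]
  simp only [e, Equiv.trans_apply, Equiv.symm_apply_apply]
  rfl

section Om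

variable {κ ν : Type*} [DecidableEq κ] [Fintype ν] [DecidableEq ν] {K : Type*} [Field K]

/-- Sum over the permutations sending the base point to `a`. -/
def Om (p : Option κ → ν) (y : κ → ν → K) (T : Finset κ) (a : ν) : K :=
  ∑ τ : Perm ν, if τ (p none) = a then ∏ i ∈ T, y i (τ (p (some i))) else 0

omit [DecidableEq κ] in
theorem Om_congr (p p' : Option κ → ν) (y : κ → ν → K) (T : Finset κ) (a : ν)
    (hp : Set.InjOn p (insert none (some '' (T : Set κ))))
    (hp' : Set.InjOn p' (insert none (some '' (T : Set κ)))) :
    Om p y T a = Om p' y T a := by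
  obtain ⟨ρ, hρ⟩ := exists_perm_extend _ p' p hp' hp
  unfold Om
  refine Fintype.sum_equiv (Equiv.mulRight ρ) _ _ fun τ => ?_
  simp only [Equiv.coe_mulRight, Perm.coe_mul, Function.comp_apply]
  rw [hρ none (Set.mem_insert _ _)]
  have : ∏ i ∈ T, y i (τ (p (some i))) = ∏ i ∈ T, y i (τ (ρ (p' (some i)))) := by
    refine Finset.prod_congr rfl fun i hi => ?_
    rw [hρ (some i) (Set.mem_insert_of_mem _ ⟨i, hi, rfl⟩)]
  rw [this]

theorem Om_step (p : Option κ → ν) (hp : Function.Injective p) (y : κ → ν → K) (T : Finset κ)
    (a : ν) :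
    ((Fintype.card ν : K) - (T.card : K)) * Om p y T a
      = (∑ τ : Perm ν, ∏ i ∈ T, y i (τ (p (some i)))) - ∑ i ∈ T, y i a * Om p y (T.erase i) a := by
  have h1 : ∑ τ : Perm ν, ∏ i ∈ T, y i (τ (p (some i)))
      = ∑ r : ν, ∑ τ : Perm ν, if τ r = a then ∏ i ∈ T, y i (τ (p (some i))) else 0 := by
    rw [Finset.sum_comm]
    refine Finset.sum_congr rfl fun τ _ => ?_
    rw [Finset.sum_eq_single (τ.symm a)]
    · simp
    · intro b _ hb
      rw [if_neg]
      intro h
      exact hb (by rw [← h, Equiv.symm_apply_apply])
    · simp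
  let Q : Finset ν := T.image fun i => p (some i)
  have hQcard : Q.card = T.card :=
    Finset.card_image_of_injective _ fun i j h => Option.some_injective _ (hp h)
  have h2 : ∀ r ∉ Q, (∑ τ : Perm ν, if τ r = a then ∏ i ∈ T, y i (τ (p (some i))) else 0)
      = Om p y T a := by
    intro r hr
    let p' : Option κ → ν := fun o => o.elim r fun i => p (some i)
    have : Om p' y T a = Om p y T a := by
      refine Om_congr _ _ _ _ _ ?_ hp.injOn
      rintro x hx x' hx' hxx
      rcases hx with rfl | ⟨i, hi, rfl⟩ <;> rcases hx' with rfl | ⟨j, hj, rfl⟩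
      · rfl
      · exact absurd (Finset.mem_image.mpr ⟨j, hj, hxx.symm⟩) hr
      · exact absurd (Finset.mem_image.mpr ⟨i, hi, hxx⟩) hr
      · exact hp hxx
    rw [← this]
    rfl
  have h3 : ∀ i ∈ T, (∑ τ : Perm ν, if τ (p (some i)) = a then
      ∏ k ∈ T, y k (τ (p (some k))) else 0) = y i a * Om p y (T.erase i) a := by
    intro i hi
    let p' : Option κ → ν := fun o => o.elim (p (some i)) fun k => p (some k)
    have : Om p' y (T.erase i) a = Om p y (T.erase i) a := by
      refine Om_congr _ _ _ _ _ ?_ hp.injOn
      rintro x hx x' hx' hxx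
      rcases hx with rfl | ⟨k, hk, rfl⟩ <;> rcases hx' with rfl | ⟨j, hj, rfl⟩
      · rfl
      · have : i = j := Option.some_injective _ (hp hxx)
        rw [this] at hj
        simp at hj
      · have : k = i := Option.some_injective _ (hp hxx)
        rw [this] at hk
        simp at hk
      · exact hp hxx
    rw [← this]
    unfold Om
    rw [Finset.mul_sum]
    refine Finset.sum_congr rfl fun τ _ => ?_
    by_cases hτ : τ (p (some i)) = a
    · rw [if_pos hτ]
      have : τ (p' none) = a := hτ
      rw [if_pos this, ← Finset.mul_prod_erase T _ hi, hτ]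
      rfl
    · rw [if_neg hτ]
      have : ¬ τ (p' none) = a := hτ
      rw [if_neg this, mul_zero]
  rw [h1, ← Finset.sum_add_sum_compl Q]
  have h4 : ∑ r ∈ Q, (∑ τ : Perm ν, if τ r = a then ∏ i ∈ T, y i (τ (p (some i))) else 0)
      = ∑ i ∈ T, y i a * Om p y (T.erase i) a := by
    rw [Finset.sum_image (fun i _ j _ h => Option.some_injective _ (hp h))]
    exact Finset.sum_congr rfl h3
  have h5 : ∑ r ∈ Qᶜ, (∑ τ : Perm ν, if τ r = a then ∏ i ∈ T, y i (τ (p (some i))) else 0)
      = ((Fintype.card ν : K) - (T.card : K)) * Om p y T a := by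
    rw [Finset.sum_congr rfl fun r hr => h2 r (by simpa using hr), Finset.sum_const,
      Finset.card_compl, hQcard, nsmul_eq_mul, Nat.cast_sub]
    rw [← hQcard]
    exact Finset.card_le_univ _
  rw [h4, h5]
  ring

end Om

section indep

variable {κ ν : Type*} [DecidableEq κ] [Fintype ν] [DecidableEq ν] {K : Type*} [Field K]
  [CharZero K]

omit [DecidableEq κ] in
theorem Om_empty_ne (p : Option κ → ν) (y : κ → ν → K) :
    ∃ c : K, c ≠ 0 ∧ ∀ a, Om p y ∅ a = c := by
  refine ⟨Om p y ∅ (p none), ?_, fun a => ?_⟩
  · unfold Om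
    simp only [Finset.prod_empty]
    rw [Finset.sum_ite, Finset.sum_const_zero, add_zero, Finset.sum_const, nsmul_eq_mul, mul_one,
      Nat.cast_ne_zero]
    apply Finset.card_ne_zero_of_mem (a := 1)
    simp
  · unfold Om
    simp only [Finset.prod_empty]
    refine Fintype.sum_equiv (Equiv.mulLeft (swap a (p none))) _ _ fun τ => ?_
    simp only [Equiv.coe_mulLeft, Perm.coe_mul, Function.comp_apply]
    congr 1
    rw [eq_iff_iff]
    constructor
    · intro h
      rw [h, swap_apply_left]
    · intro h
      have := congrArg (swap a (p none)) h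
      rwa [swap_apply_right, swap_apply_self] at this

/-- Orthogonality to all the pinned sums implies orthogonality to all the products. -/
theorem orth_prod (p : Option κ → ν) (hp : Function.Injective p) (y : κ → ν → K) (γ : ν → K)
    (hcard : ∀ T : Finset κ, T.card < Fintype.card ν)
    (h : ∀ T : Finset κ, ∑ a, γ a * Om p y T a = 0) (u : ℕ) :
    ∀ U : Finset κ, U.card = u → ∑ a, γ a * ∏ i ∈ U, y i a = 0 := by
  induction u using Nat.strong_induction_on with
  | _ u ih =>
    intro U hU
    obtain ⟨c0, hc0, hc0'⟩ := Om_empty_ne p y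
    -- the mixed sums
    have key : ∀ s : ℕ, s ≤ u → ∃ c : K, c ≠ 0 ∧ ∀ S ⊆ U, S.card = s →
        ∑ a, γ a * (∏ i ∈ U \ S, y i a) * Om p y S a = c * ∑ a, γ a * ∏ i ∈ U, y i a := by
      intro s
      induction s with
      | zero =>
        intro _
        refine ⟨c0, hc0, fun S _ hS => ?_⟩
        rw [Finset.card_eq_zero] at hS
        subst hS
        simp only [hc0', Finset.sdiff_empty]
        rw [← Finset.sum_mul, mul_comm]
      | succ s ihs =>
        intro hs
        obtain ⟨c, hc, hcS⟩ := ihs (by omega)
        have hne : ((Fintype.card ν : K) - ((s + 1 : ℕ) : K)) ≠ 0 := by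
          have h1 := hcard U
          rw [sub_ne_zero, Ne, Nat.cast_inj]
          omega
        refine ⟨-((s + 1 : ℕ) : K) * c / ((Fintype.card ν : K) - ((s + 1 : ℕ) : K)), ?_, ?_⟩
        · refine div_ne_zero (mul_ne_zero ?_ hc) hne
          rw [neg_ne_zero, Nat.cast_ne_zero]
          omega
        · intro S hSU hS
          rw [div_mul_eq_mul_div, eq_div_iff hne]
          have h1 : (∑ a, γ a * (∏ i ∈ U \ S, y i a) * Om p y S a) *
              ((Fintype.card ν : K) - ((s + 1 : ℕ) : K))
              = ∑ a, γ a * (∏ i ∈ U \ S, y i a) *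
                (((Fintype.card ν : K) - (S.card : K)) * Om p y S a) := by
            rw [Finset.sum_mul, hS]
            refine Finset.sum_congr rfl fun a _ => ?_
            ring
          rw [h1]
          simp only [Om_step p hp y S, mul_sub, Finset.sum_sub_distrib]
          have h2 : ∑ a, γ a * (∏ i ∈ U \ S, y i a) *
              (∑ τ : Perm ν, ∏ i ∈ S, y i (τ (p (some i)))) = 0 := by
            rw [← Finset.sum_mul]
            have h3 : (U \ S).card < u := by
              rw [Finset.card_sdiff_of_subset hSU, hU, hS]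
              omega
            rw [ih _ h3 (U \ S) rfl, zero_mul]
          rw [h2, zero_sub]
          have h4 : ∑ a, γ a * (∏ i ∈ U \ S, y i a) * ∑ i ∈ S, y i a * Om p y (S.erase i) a
              = ∑ i ∈ S, ∑ a, γ a * (∏ k ∈ U \ (S.erase i), y k a) * Om p y (S.erase i) a := by
            simp only [Finset.mul_sum]
            rw [Finset.sum_comm]
            refine Finset.sum_congr rfl fun i hi => Finset.sum_congr rfl fun a _ => ?_
            have h5 : U \ (S.erase i) = insert i (U \ S) := by
              ext k
              simp only [Finset.mem_sdiff, Finset.mem_erase, Finset.mem_insert, not_and]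
              constructor
              · rintro ⟨hk, hk'⟩
                by_cases hki : k = i
                · exact Or.inl hki
                · exact Or.inr ⟨hk, hk' hki⟩
              · rintro (rfl | ⟨hk, hk'⟩)
                · exact ⟨hSU hi, fun h => absurd rfl h⟩
                · exact ⟨hk, fun _ => hk'⟩
            have h6 : i ∉ U \ S := by simp [hi]
            rw [h5, Finset.prod_insert h6]
            ring
          rw [h4]
          have h7 : ∀ i ∈ S, ∑ a, γ a * (∏ k ∈ U \ (S.erase i), y k a) * Om p y (S.erase i) a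
              = c * ∑ a, γ a * ∏ i ∈ U, y i a := by
            intro i hi
            refine hcS (S.erase i) ((Finset.erase_subset _ _).trans hSU) ?_
            rw [Finset.card_erase_of_mem hi, hS]
            omega
          rw [Finset.sum_congr rfl h7, Finset.sum_const, hS, nsmul_eq_mul]
          push_cast
          ring
    obtain ⟨c, hc, hcS⟩ := key u le_rfl
    have h1 := hcS U (Finset.Subset.refl _) hU
    simp only [Finset.sdiff_self, Finset.prod_empty, mul_one] at h1
    rw [h U] at h1
    exact (mul_eq_zero.mp h1.symm).resolve_left hc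

/-- Independence for zero-one codes. -/
theorem orth_zero [Fintype κ] (p : Option κ → ν) (hp : Function.Injective p) (code : ν → κ → Bool)
    (hcode : Function.Injective code) (γ : ν → K)
    (hcard : ∀ T : Finset κ, T.card < Fintype.card ν)
    (h : ∀ T : Finset κ, ∑ a, γ a * Om p (fun i a => if code a i then (1 : K) else 0) T a = 0) :
    γ = 0 := by
  funext a0
  have h1 := fun U : Finset κ => orth_prod p hp _ γ hcard h U.card U rfl
  have h2 : ∑ a, γ a * ∏ i, (if code a i = code a0 i then (1 : K) else 0) = γ a0 := by
    rw [Finset.sum_eq_single a0]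
    · simp
    · intro b _ hb
      have : ∃ i, code b i ≠ code a0 i := by
        by_contra hc
        push Not at hc
        exact hb (hcode (funext hc))
      obtain ⟨i, hi⟩ := this
      rw [Finset.prod_eq_zero (Finset.mem_univ i) (if_neg hi), mul_zero]
    · simp
  rw [Pi.zero_apply, ← h2]
  have h3 : ∀ a, ∏ i, (if code a i = code a0 i then (1 : K) else 0)
      = ∑ U ∈ (Finset.univ : Finset κ).powerset,
        (∏ i ∈ U, (if code a0 i then (1 : K) else -1)) * (∏ i ∈ Finset.univ \ U,
          (if code a0 i then (0 : K) else 1)) * ∏ i ∈ U, (if code a i then (1 : K) else 0) := by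
    intro a
    have h4 : ∀ i, (if code a i = code a0 i then (1 : K) else 0)
        = (if code a0 i then (1 : K) else -1) * (if code a i then (1 : K) else 0)
          + (if code a0 i then (0 : K) else 1) := by
      intro i
      cases code a i <;> cases code a0 i <;> simp
    simp only [h4]
    rw [Finset.prod_add]
    refine Finset.sum_congr rfl fun U _ => ?_
    rw [Finset.prod_mul_distrib]
    ring
  simp only [h3, Finset.mul_sum]
  rw [Finset.sum_comm]
  refine Finset.sum_eq_zero fun U _ => ?_
  have h5 := h1 U
  calc _ = (∏ i ∈ U, (if code a0 i then (1 : K) else -1)) * (∏ i ∈ Finset.univ \ U,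
          (if code a0 i then (0 : K) else 1)) *
          ∑ a, γ a * ∏ i ∈ U, (if code a i then (1 : K) else 0) := by
        rw [Finset.mul_sum]
        refine Finset.sum_congr rfl fun a _ => ?_
        ring
    _ = 0 := by rw [h5, mul_zero]

end indep

end Pool.Agent.Work.MP_35c45d_lc.RankK
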