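import Pool.Agent.Work.MP_35c45d_lc.SALag

/-! # Determinants of affine matrices: degrees and evaluation of variables -/

set_option autoImplicit false

namespace Pool.Agent.Work.MP_35c45d_lc.SA

open MvPolynomial Filter Topology SD

section gen

variable {α τ : Type} [Fintype α] [DecidableEq α] [Fintype τ] [DecidableEq τ]

/-- the affine matrix with constant part `A` and coefficient matrices `B w` -/
noncomputable def affG (A : Matrix α α ℂ) (B : τ → Matrix α α ℂ) :
    Matrix α α (MvPolynomial τ ℂ) :=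
  Matrix.of fun i j => C (A i j) + ∑ w, C (B w i j) * X w

/-- a matrix all of whose non-constant rows contain one variable -/
theorem det_affG_sigma (A : Matrix α α ℂ) (B : τ → Matrix α α ℂ) :
    ∃ P : Matrix (α ⊕ Σ v, Fin (B v).rank) (α ⊕ Σ v, Fin (B v).rank) (MvPolynomial τ ℂ),
      P.det = (affG A B).det ∧ (∀ i j, ∃ c : ℂ, P (Sum.inl i) j = C c) ∧
      ∀ q j, ∃ c c' : ℂ, P (Sum.inr q) j = C c + C c' * X q.1 := by
  classical
  choose U V hUV using fun v => rank_factor (B v) (le_refl (B v).rank)
  let P12 : Matrix α (Σ v, Fin (B v).rank) (MvPolynomial τ ℂ) :=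
    Matrix.of fun i q => C (U q.1 i q.2)
  let P21 : Matrix (Σ v, Fin (B v).rank) α (MvPolynomial τ ℂ) :=
    Matrix.of fun q j => - (C (V q.1 q.2 j) * X q.1)
  refine ⟨Matrix.fromBlocks (A.map C) P12 P21 1, ?_, ?_, ?_⟩
  · rw [Matrix.det_fromBlocks_one₂₂]
    congr 1
    refine Matrix.ext fun i j => ?_
    rw [Matrix.sub_apply, Matrix.mul_apply, Matrix.map_apply]
    simp only [P12, P21, Matrix.of_apply, affG]
    rw [Fintype.sum_sigma, sub_eq_add_neg, ← Finset.sum_neg_distrib]
    congr 1
    refine Finset.sum_congr rfl fun v _ => ?_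
    have h1 : B v i j = ∑ t, U v i t * V v t j := by
      conv_lhs => rw [hUV v]
      rw [Matrix.mul_apply]
    rw [h1, map_sum, Finset.sum_mul, ← Finset.sum_neg_distrib]
    refine Finset.sum_congr rfl fun t _ => ?_
    rw [C_mul]
    ring
  · rintro i (j | j)
    · exact ⟨A i j, by simp⟩
    · exact ⟨U j.1 i j.2, by simp [P12]⟩
  · rintro q (j | j)
    · refine ⟨0, - V q.1 q.2 j, ?_⟩
      simp [P21]
    · refine ⟨if q = j then 1 else 0, 0, ?_⟩
      rw [Matrix.fromBlocks_apply₂₂, Matrix.one_apply]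
      split_ifs <;> simp

theorem degreeOf_det_rows {β : Type} [Fintype β] [DecidableEq β]
    (P : Matrix β β (MvPolynomial τ ℂ)) (w : τ) (r : β → ℕ)
    (h : ∀ i j, degreeOf w (P i j) ≤ r i) : degreeOf w P.det ≤ ∑ i, r i := by
  rw [Matrix.det_apply']
  refine (degreeOf_sum_le _ _ _).trans (Finset.sup_le fun σ _ => ?_)
  refine (degreeOf_mul_le _ _ _).trans ?_
  have h1 : degreeOf w (((Equiv.Perm.sign σ : ℤ) : MvPolynomial τ ℂ)) = 0 := by
    have : ((Equiv.Perm.sign σ : ℤ) : MvPolynomial τ ℂ) = C (((Equiv.Perm.sign σ : ℤ) : ℂ)) := by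
      rw [map_intCast]
    rw [this, degreeOf_C]
  rw [h1, zero_add]
  refine (degreeOf_prod_le _ _ _).trans ?_
  rw [← Equiv.sum_comp σ r]
  exact Finset.sum_le_sum fun i _ => h _ _

theorem degreeOf_det_affG_le (A : Matrix α α ℂ) (B : τ → Matrix α α ℂ) (w : τ) :
    degreeOf w (affG A B).det ≤ (B w).rank := by
  obtain ⟨P, hP, hP1, hP2⟩ := det_affG_sigma A B
  rw [← hP]
  refine (degreeOf_det_rows P w (Sum.elim (fun _ => 0) (fun q => if q.1 = w then 1 else 0))
    ?_).trans ?_
  · rintro (i | q) j
    · obtain ⟨c, hc⟩ := hP1 i j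
      rw [hc, degreeOf_C]
      exact Nat.zero_le _
    · obtain ⟨c, c', hc⟩ := hP2 q j
      rw [hc]
      refine (degreeOf_add_le _ _ _).trans (max_le ?_ ?_)
      · rw [degreeOf_C]
        exact Nat.zero_le _
      · refine (degreeOf_C_mul_le _ _ _).trans ?_
        rw [degreeOf_X]
        simp only [Sum.elim_inr]
        by_cases h : q.1 = w
        · rw [if_pos h, if_pos h.symm]
        · rw [if_neg (fun h' => h h'.symm)]
          exact Nat.zero_le _
  · rw [Fintype.sum_sum_type]
    simp only [Sum.elim_inl, Finset.sum_const_zero, zero_add, Sum.elim_inr]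
    rw [Fintype.sum_sigma, Finset.sum_eq_single w]
    · simp
    · intro v _ hv
      simp [hv]
    · intro h
      exact absurd (Finset.mem_univ _) h

theorem totalDegree_det_affG_le (A : Matrix α α ℂ) (B : τ → Matrix α α ℂ) :
    (affG A B).det.totalDegree ≤ ∑ w, (B w).rank := by
  obtain ⟨P, hP, hP1, hP2⟩ := det_affG_sigma A B
  rw [← hP]
  refine (totalDegree_det_rows P (Sum.elim (fun _ => 0) (fun _ => 1)) ?_).trans ?_
  · rintro (i | q) j
    · obtain ⟨c, hc⟩ := hP1 i j
      rw [hc, totalDegree_C]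
      exact Nat.zero_le _
    · obtain ⟨c, c', hc⟩ := hP2 q j
      rw [hc]
      refine (totalDegree_add _ _).trans (max_le ?_ ?_)
      · rw [totalDegree_C]
        exact Nat.zero_le _
      · refine (totalDegree_mul _ _).trans ?_
        rw [totalDegree_C, zero_add, totalDegree_X]
        exact le_rfl
  · rw [Fintype.sum_sum_type]
    simp

end gen

section eval

variable {α ι : Type} [Fintype α] [DecidableEq α] [Fintype ι] [DecidableEq ι] {n : ℕ}

theorem ev_affG (A : Matrix α α ℂ) (B : ι ⊕ Fin n → Matrix α α ℂ) (u : ι) (ξ : ℂ) :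
    ev u ξ (affG A B).det =
      (affG (A + ξ • B (Sum.inl u)) (Function.update B (Sum.inl u) 0)).det := by
  rw [AlgHom.map_det]
  congr 1
  refine Matrix.ext fun i j => ?_
  rw [AlgHom.mapMatrix_apply, Matrix.map_apply]
  simp only [affG, Matrix.of_apply, map_add, map_sum, map_mul, ev, aeval_X, aeval_C,
    algebraMap_eq, Matrix.add_apply, Matrix.smul_apply, smul_eq_mul]
  have h1 : ∀ w : ι ⊕ Fin n, (C (B w i j) * if w = Sum.inl u then C ξ else X w :
      MvPolynomial (ι ⊕ Fin n) ℂ) =
      (if w = Sum.inl u then C ξ * C (B (Sum.inl u) i j) else 0) +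
        C (Function.update B (Sum.inl u) 0 w i j) * X w := by
    intro w
    by_cases hw : w = Sum.inl u
    · subst hw
      simp [mul_comm]
    · simp [hw]
  simp only [h1]
  rw [Finset.sum_add_distrib, Finset.sum_ite_eq' Finset.univ (Sum.inl u), if_pos (Finset.mem_univ _)]
  ring

/-- **a set of variables can be evaluated** -/
theorem ub_eval {k l S B0 : ℕ} (T : Finset ι) :
    ∀ (A : Matrix α α ℂ) (B : ι ⊕ Fin n → Matrix α α ℂ),
      (∀ u ∈ T, (B (Sum.inl u)).rank ≤ S) →
      (∀ ξ : ι → ℕ, (∀ u, ξ u ≤ S) → UB k l B0 (affG (A + ∑ u ∈ T, (ξ u : ℂ) • B (Sum.inl u))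
        (fun w => if ∃ u ∈ T, w = Sum.inl u then 0 else B w)).det) →
      UB k l ((S + 1) ^ (2 * T.card) * B0) (affG A B).det := by
  induction T using Finset.induction_on with
  | empty =>
    intro A B _ h
    have := h (fun _ => 0) (fun _ => Nat.zero_le _)
    simpa using this
  | insert u T hu ih =>
    intro A B hB h
    rw [Finset.card_insert_of_notMem hu]
    have e1 : (S + 1) ^ (2 * (T.card + 1)) * B0 = (S + 1) ^ 2 * ((S + 1) ^ (2 * T.card) * B0) := by
      ring
    rw [e1]
    refine ub_step _ u ((degreeOf_det_affG_le _ _ _).trans (hB u (Finset.mem_insert_self _ _)))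
      fun ξ0 hξ0 => ?_
    rw [ev_affG]
    refine ih _ _ (fun v hv => ?_) (fun ξ hξ => ?_)
    · rw [Function.update_of_ne]
      · exact hB v (Finset.mem_insert_of_mem hv)
      · intro h'
        exact hu (Sum.inl_injective h' ▸ hv)
    · have h2 := h (Function.update ξ u ξ0) (fun v => by
        by_cases hv : v = u
        · subst hv
          simpa using hξ0
        · simpa [hv] using hξ v)
      have e2 : (A + (ξ0 : ℂ) • B (Sum.inl u) +
          ∑ v ∈ T, (ξ v : ℂ) • Function.update B (Sum.inl u) 0 (Sum.inl v)) =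
          A + ∑ v ∈ insert u T, ((Function.update ξ u ξ0 v : ℕ) : ℂ) • B (Sum.inl v) := by
        rw [Finset.sum_insert hu, add_assoc]
        congr 2
        · simp
        · refine Finset.sum_congr rfl fun v hv => ?_
          have hvu : v ≠ u := fun h' => hu (h' ▸ hv)
          rw [Function.update_of_ne (fun h' => hvu (Sum.inl_injective h')),
            Function.update_of_ne hvu]
      have e3 : (fun w : ι ⊕ Fin n => if ∃ v ∈ T, w = Sum.inl v then 0 else
          Function.update B (Sum.inl u) 0 w) =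
          fun w => if ∃ v ∈ insert u T, w = Sum.inl v then 0 else B w := by
        funext w
        by_cases hw : w = Sum.inl u
        · subst hw
          rw [Function.update_self, ite_self, if_pos ⟨u, Finset.mem_insert_self _ _, rfl⟩]
        · rw [Function.update_of_ne hw]
          by_cases hw2 : ∃ v ∈ T, w = Sum.inl v
          · obtain ⟨v, hv, rfl⟩ := hw2
            rw [if_pos ⟨v, hv, rfl⟩, if_pos ⟨v, Finset.mem_insert_of_mem hv, rfl⟩]
          · rw [if_neg hw2, if_neg]
            rintro ⟨v, hv, rfl⟩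
            rcases Finset.mem_insert.1 hv with rfl | hv
            · exact hw rfl
            · exact hw2 ⟨v, hv, rfl⟩
      rw [e2, e3]
      exact h2

end eval

end Pool.Agent.Work.MP_35c45d_lc.SA
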