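import Pool.Agent.Work.MP_35c45d_lc.SDAvg
import Pool.Agent.Work.MP_35c45d_lc.SDLim

/-! # Sums of determinants of any sizes: only the total rank of the coefficient matrices matters -/

set_option autoImplicit false

namespace Pool.Agent.Work.MP_35c45d_lc.SA

open MvPolynomial Filter Topology SD

/-- `perm_m` is a coefficientwise limit of sums of `M` determinants of matrices of affine linear
forms, of any sizes, such that the ranks of the coefficient matrices of the `m ^ 2` variables add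
up to at most `s` -/
def LimSumTotal (M m s : ℕ) : Prop :=
  ∃ (N : ℕ → Fin M → ℕ) (A : (j : ℕ) → (t : Fin M) → Matrix (Fin (N j t)) (Fin (N j t)) ℂ)
    (B : (j : ℕ) → (t : Fin M) → Fin m × Fin m → Matrix (Fin (N j t)) (Fin (N j t)) ℂ),
    (∀ j t, ∑ q, (B j t q).rank ≤ s) ∧
    ∀ d, Tendsto (fun j => coeff d (∑ t, (affM (A j t) (B j t)).det)) atTop
      (𝓝 (coeff d (permP m)))

/-- the shifts of degree at most `l` of the derivatives of order at most `k` in the variables
`Sum.inl _` of `G` are in a space of dimension at most `B` -/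
def UB {ι : Type} {n : ℕ} (k l B : ℕ) (G : MvPolynomial (ι ⊕ Fin n) ℂ) : Prop :=
  ∃ W : Submodule ℂ (MvPolynomial (ι ⊕ Fin n) ℂ), FiniteDimensional ℂ W ∧
    Module.finrank ℂ W ≤ B ∧ ∀ k' ≤ k, ∀ (a : Fin k' → ι) (μ : (ι ⊕ Fin n) →₀ ℕ), μ.degree ≤ l →
      monomial μ 1 * dk a G ∈ W

/-- the variable `u` is replaced by the number `ξ` -/
noncomputable def ev {ι : Type} [DecidableEq ι] {n : ℕ} (u : ι) (ξ : ℂ) :
    MvPolynomial (ι ⊕ Fin n) ℂ →ₐ[ℂ] MvPolynomial (ι ⊕ Fin n) ℂ :=
  aeval fun w => if w = Sum.inl u then C ξ else X w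

end Pool.Agent.Work.MP_35c45d_lc.SA
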