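import Pool.Agent.Work.MP_35c45d_lc.SADefs

/-! # Semicontinuity for general summands -/

set_option autoImplicit false

namespace Pool.Agent.Work.MP_35c45d_lc.SA

open MvPolynomial Filter Topology SD

variable {ι : Type} [Fintype ι] [DecidableEq ι] {n : ℕ}

/-- A linearly independent family of shifted derivatives of a limit of sums of `M` polynomials
with `UB k l u` has at most `M * u` members. -/
theorem lim_card_gen {M u k l d0 : ℕ} {f : MvPolynomial ι ℂ}
    (G : ℕ → Fin M → MvPolynomial (ι ⊕ Fin n) ℂ) (hdeg : ∀ s t, (G s t).totalDegree ≤ d0)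
    (hlim : ∀ d, Tendsto (fun s => coeff d (∑ t, G s t)) atTop (𝓝 (coeff d (rename Sum.inl f))))
    (hub : ∀ s t, UB k l u (G s t)) {α : Type} [Fintype α] (a : α → Fin k → ι)
    (ν : α → MvPolynomial (ι ⊕ Fin n) ℂ) (hν : ∀ x, (ν x).totalDegree ≤ l)
    (hli : LinearIndependent ℂ fun x => ν x * dk (a x) (rename Sum.inl f)) :
    Fintype.card α ≤ M * u := by
  classical
  by_contra hlt
  rw [not_le] at hlt
  set F : ℕ → MvPolynomial (ι ⊕ Fin n) ℂ := fun s => ∑ t, G s t with hF
  set b : α → MvPolynomial (ι ⊕ Fin n) ℂ := fun x => ν x * dk (a x) (rename Sum.inl f) with hb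
  obtain ⟨Θ, hΘ⟩ := LinearMap.exists_leftInverse_of_injective (Finsupp.linearCombination ℂ b)
    (LinearMap.ker_eq_bot.2 hli)
  have hΘb : ∀ x, Θ (b x) = Finsupp.single x 1 := by
    intro x
    have h1 := LinearMap.congr_fun hΘ (Finsupp.single x 1)
    rw [LinearMap.comp_apply, Finsupp.linearCombination_single, one_smul] at h1
    exact h1
  let Lf : α → α → (MvPolynomial (ι ⊕ Fin n) ℂ →ₗ[ℂ] ℂ) := fun x y =>
    (Finsupp.lapply y).comp (Θ.comp ((LinearMap.mulLeft ℂ (ν x)).comp (dkL (a x))))
  let Z : ℕ → Matrix α α ℂ := fun s => Matrix.of fun x y => Lf x y (F s)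
  have hdeg' : ∀ s, (F s).totalDegree ≤ d0 := fun s =>
    totalDegree_finsetSum_le fun t _ => hdeg s t
  have hZ : Tendsto Z atTop (𝓝 (1 : Matrix α α ℂ)) := by
    refine tendsto_pi_nhds.2 fun x => tendsto_pi_nhds.2 fun y => ?_
    have h1 := SQ.tendsto_linear d0 F _ hdeg' hlim (Lf x y)
    have h2 : Lf x y (rename Sum.inl f) = (1 : Matrix α α ℂ) x y := by
      change (Θ (ν x * dkL (n := n) (a x) (rename Sum.inl f))) y = _
      rw [← dk_eq]
      change (Θ (b x)) y = _
      rw [hΘb, Finsupp.single_apply, Matrix.one_apply]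
    rw [← h2]
    exact h1
  have hdet : Tendsto (fun s => (Z s).det) atTop (𝓝 ((1 : Matrix α α ℂ).det)) :=
    ((Continuous.matrix_det continuous_id).tendsto _).comp hZ
  have hsing : ∀ s, (Z s).det = 0 := by
    intro s
    by_contra hne
    choose W hfd hrank hmem using fun t => hub s t
    obtain ⟨S, hS, hSr, hSm⟩ := exists_sum_space W hfd (u := u) hrank
    have hmem' : ∀ t (x : α), ν x * dk (a x) (G s t) ∈ W t := by
      intro t x
      have h1 : ν x * dk (a x) (G s t) = ∑ d ∈ (ν x).support,
          coeff d (ν x) • (monomial d 1 * dk (a x) (G s t)) := by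
        conv_lhs => rw [(ν x).as_sum]
        rw [Finset.sum_mul]
        refine Finset.sum_congr rfl fun d _ => ?_
        rw [← smul_mul_assoc, smul_monomial, smul_eq_mul, mul_one]
      rw [h1]
      refine Submodule.sum_mem _ fun d hd => Submodule.smul_mem _ _
        (hmem t k le_rfl (a x) d ?_)
      exact (le_totalDegree hd).trans (hν x)
    have hu : ∀ x : α, ν x * dkL (n := n) (a x) (F s) ∈ S := by
      intro x
      have h1 : ν x * dkL (n := n) (a x) (F s) = ∑ t, ν x * dk (a x) (G s t) := by
        rw [hF]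
        simp only
        rw [map_sum, Finset.mul_sum]
        refine Finset.sum_congr rfl fun t _ => ?_
        rw [dk_eq]
      rw [h1]
      exact hSm _ fun t => hmem' t x
    have hli1 : LinearIndependent ℂ (Z s).row := by
      rw [Matrix.linearIndependent_rows_iff_isUnit, Matrix.isUnit_iff_isUnit_det]
      exact isUnit_iff_ne_zero.2 hne
    let Θ' : MvPolynomial (ι ⊕ Fin n) ℂ →ₗ[ℂ] (α → ℂ) :=
      LinearMap.pi fun y => (Finsupp.lapply y).comp Θ
    have hli2 : LinearIndependent ℂ (fun x : α => ν x * dkL (n := n) (a x) (F s)) := by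
      apply LinearIndependent.of_comp Θ'
      exact hli1
    have hli3 : LinearIndependent ℂ (fun x : α => (⟨_, hu x⟩ : S)) := by
      apply LinearIndependent.of_comp S.subtype
      exact hli2
    have h6 := hli3.fintype_card_le_finrank
    omega
  simp only [hsing] at hdet
  have h7 := tendsto_nhds_unique tendsto_const_nhds hdet
  rw [Matrix.det_one] at h7
  exact one_ne_zero h7.symm

end Pool.Agent.Work.MP_35c45d_lc.SA
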