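import Pool.Agent.Work.MP_35c45d_lc.SQGad3

/-! # The permanent of `[[diag x, J], [J, 0]]` and of block diagonal matrices -/

set_option autoImplicit false

namespace Pool.Agent.Work.MP_35c45d_lc.SQ

open Finset

variable {R : Type} [CommRing R]

section bip

variable {A K : Type} [Fintype A] [DecidableEq A] [Fintype K] [DecidableEq K]

/-- `[[diag x, J], [J, 0]]` -/
def bipM (x : A → R) : A ⊕ K → A ⊕ K → R := fun r s =>
  match r, s with
  | Sum.inl a, Sum.inl b => if a = b then x a else 0
  | Sum.inl _, Sum.inr _ => 1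
  | Sum.inr _, Sum.inl _ => 1
  | Sum.inr _, Sum.inr _ => 0

/-- the part of `bipM` in which the rows in `S` use the diagonal -/
def bipS (x : A → R) (S : Finset A) : A ⊕ K → A ⊕ K → R := fun r s =>
  match r, s with
  | Sum.inl a, Sum.inl b => if a ∈ S then (if a = b then x a else 0) else 0
  | Sum.inl a, Sum.inr _ => if a ∈ S then 0 else 1
  | Sum.inr _, Sum.inl _ => 1
  | Sum.inr _, Sum.inr _ => 0

theorem rperm_bip_sum (x : A → R) :
    rperm (bipM x : A ⊕ K → A ⊕ K → R) = ∑ S : Finset A, rperm (bipS x S : A ⊕ K → A ⊕ K → R) := by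
  classical
  unfold rperm
  rw [Finset.sum_comm]
  refine Finset.sum_congr rfl fun e _ => ?_
  rw [Fintype.prod_sum_type]
  have h1 : ∏ a : A, (bipM x : A ⊕ K → A ⊕ K → R) (Sum.inl a) (e (Sum.inl a)) =
      ∑ S : Finset A, ∏ a : A, (bipS x S : A ⊕ K → A ⊕ K → R) (Sum.inl a) (e (Sum.inl a)) := by
    have h2 : ∀ a : A, (bipM x : A ⊕ K → A ⊕ K → R) (Sum.inl a) (e (Sum.inl a)) =
        (bipS x univ : A ⊕ K → A ⊕ K → R) (Sum.inl a) (e (Sum.inl a)) +
        (bipS x ∅ : A ⊕ K → A ⊕ K → R) (Sum.inl a) (e (Sum.inl a)) := by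
      intro a
      rcases e (Sum.inl a) with b | b <;> simp [bipM, bipS]
    simp only [h2]
    rw [Finset.prod_add, Finset.powerset_univ]
    refine Finset.sum_congr rfl fun S _ => ?_
    rw [← Finset.prod_mul_prod_compl S (fun a =>
      (bipS x S : A ⊕ K → A ⊕ K → R) (Sum.inl a) (e (Sum.inl a)))]
    congr 1
    · refine Finset.prod_congr rfl fun a ha => ?_
      rcases e (Sum.inl a) with b | b <;> simp [bipS, ha]
    · rw [Finset.compl_eq_univ_sdiff]
      refine Finset.prod_congr rfl fun a ha => ?_
      rw [Finset.mem_sdiff] at ha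
      rcases e (Sum.inl a) with b | b <;> simp [bipS, ha.2]
  rw [h1, Finset.sum_mul]
  refine Finset.sum_congr rfl fun S _ => ?_
  rw [Fintype.prod_sum_type]
  congr 1
  refine Finset.prod_congr rfl fun k _ => ?_
  rcases e (Sum.inr k) with b | b <;> simp [bipM, bipS]

theorem rperm_bipS (x : A → R) (S : Finset A) :
    rperm (bipS x S : A ⊕ K → A ⊕ K → R) =
      if S.card + Fintype.card K = Fintype.card A then
        ((Fintype.card K).factorial : R) ^ 2 * ∏ a ∈ S, x a else 0 := by
  classical
  -- rows `S`, then the others; the block of the others and the slack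
  let er : (({a // a ∉ S} ⊕ K) ⊕ {a // a ∈ S}) ≃ A ⊕ K :=
    { toFun := fun y => match y with
        | Sum.inl (Sum.inl a) => Sum.inl a.1
        | Sum.inl (Sum.inr k) => Sum.inr k
        | Sum.inr a => Sum.inl a.1
      invFun := fun y => match y with
        | Sum.inl a => if h : a ∈ S then Sum.inr ⟨a, h⟩ else Sum.inl (Sum.inl ⟨a, h⟩)
        | Sum.inr k => Sum.inl (Sum.inr k)
      left_inv := fun y => by
        rcases y with (⟨a, ha⟩ | k) | ⟨a, ha⟩
        · simp only
          rw [dif_neg ha]
        · rfl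
        · simp only
          rw [dif_pos ha]
      right_inv := fun y => by
        rcases y with a | k
        · by_cases h : a ∈ S
          · simp only
            rw [dif_pos h]
          · simp only
            rw [dif_neg h]
        · rfl }
  let ec : ((K ⊕ {a // a ∉ S}) ⊕ {a // a ∈ S}) ≃ A ⊕ K :=
    (Equiv.sumCongr (Equiv.sumComm _ _) (Equiv.refl _)).trans er
  rw [← rperm_equiv er ec, rperm_block rfl]
  swap
  · rintro ⟨a, ha⟩ (k | ⟨b, hb⟩)
    · simp [er, ec, bipS, ha]
    · have hab : a ≠ b := fun h => hb (h ▸ ha)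
      simp [er, ec, bipS, ha, hab]
  -- the diagonal part
  have h1 : rperm (fun (k k' : {a // a ∈ S}) => (bipS x S : A ⊕ K → A ⊕ K → R) (er (Sum.inr k))
      (ec (Sum.inr k'))) = ∏ a ∈ S, x a := by
    have h2 : (fun (k k' : {a // a ∈ S}) => (bipS x S : A ⊕ K → A ⊕ K → R) (er (Sum.inr k))
        (ec (Sum.inr k'))) = fun k k' => x k.1 * (if k = k' then (1 : R) else 0) := by
      funext k k'
      obtain ⟨a, ha⟩ := k
      obtain ⟨b, hb⟩ := k'
      simp [er, ec, bipS, ha]
    rw [h2, rperm_rowscale, rperm_one, mul_one, Finset.prod_coe_sort S (fun a => x a)]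
  rw [h1]
  have h3 : (fun (a : {a // a ∉ S} ⊕ K) (b : K ⊕ {a // a ∉ S}) =>
      (bipS x S : A ⊕ K → A ⊕ K → R) (er (Sum.inl a)) (ec (Sum.inl b))) =
      fun a b => match a, b with
        | Sum.inl _, Sum.inl _ => 1
        | Sum.inl _, Sum.inr _ => 0
        | Sum.inr _, Sum.inl _ => 0
        | Sum.inr _, Sum.inr _ => 1 := by
    funext a b
    rcases a with ⟨a, ha⟩ | k
    · rcases b with k' | ⟨b, hb⟩ <;> simp [er, ec, bipS, ha]
    · rcases b with k' | ⟨b, hb⟩ <;> simp [er, ec, bipS]
  have hS : Fintype.card {a // a ∉ S} + S.card = Fintype.card A := by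
    rw [Fintype.card_subtype_compl, Fintype.card_coe]
    have := Finset.card_le_univ S
    omega
  by_cases hc : S.card + Fintype.card K = Fintype.card A
  · have hcK : Fintype.card {a // a ∉ S} = Fintype.card K := by omega
    rw [if_pos hc, h3, rperm_block hcK.symm _ (fun k b => rfl)]
    have h4 : rperm (fun (_ : {a // a ∉ S}) (_ : K) => (1 : R)) =
        ((Fintype.card K).factorial : R) := by
      rw [rperm_ones hcK, hcK]
    have h5 : rperm (fun (_ : K) (_ : {a // a ∉ S}) => (1 : R)) =
        ((Fintype.card K).factorial : R) := rperm_ones hcK.symm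
    rw [h4, h5]
    ring
  · rw [if_neg hc, h3]
    have hcK : Fintype.card {a // a ∉ S} ≠ Fintype.card K := by omega
    have h6 : rperm (fun (a : {a // a ∉ S} ⊕ K) (b : K ⊕ {a // a ∉ S}) => (match a, b with
        | Sum.inl _, Sum.inl _ => 1
        | Sum.inl _, Sum.inr _ => 0
        | Sum.inr _, Sum.inl _ => 0
        | Sum.inr _, Sum.inr _ => 1 : R)) = 0 := by
      unfold rperm
      refine Finset.sum_eq_zero fun e _ => ?_
      by_contra hne
      apply hcK
      have h7 : ∀ a, ∃ k, e (Sum.inl a) = Sum.inl k := by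
        intro a
        rcases hh : e (Sum.inl a) with k | b
        · exact ⟨k, rfl⟩
        · exfalso
          apply hne
          refine Finset.prod_eq_zero (Finset.mem_univ (Sum.inl a)) ?_
          rw [hh]
      have h8 : ∀ k, ∃ a, e (Sum.inr k) = Sum.inr a := by
        intro k
        rcases hh : e (Sum.inr k) with k' | b
        · exfalso
          apply hne
          refine Finset.prod_eq_zero (Finset.mem_univ (Sum.inr k)) ?_
          rw [hh]
        · exact ⟨b, rfl⟩
      choose f hf using h7
      choose g hg using h8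
      have hfi : Function.Injective f := fun a b h => by
        have : e (Sum.inl a) = e (Sum.inl b) := by rw [hf, hf, h]
        exact Sum.inl_injective (e.injective this)
      have hgi : Function.Injective g := fun a b h => by
        have : e (Sum.inr a) = e (Sum.inr b) := by rw [hg, hg, h]
        exact Sum.inr_injective (e.injective this)
      exact le_antisymm (Fintype.card_le_of_injective f hfi) (Fintype.card_le_of_injective g hgi)
    rw [h6, zero_mul]

/-- the elementary symmetric function as a permanent in which every variable occurs once -/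
theorem rperm_bip (x : A → R) {D : ℕ} (hD : D + Fintype.card K = Fintype.card A) :
    rperm (bipM x : A ⊕ K → A ⊕ K → R) = ((Fintype.card K).factorial : R) ^ 2 *
      ∑ S ∈ powersetCard D (univ : Finset A), ∏ a ∈ S, x a := by
  rw [rperm_bip_sum]
  simp only [rperm_bipS]
  rw [← Finset.sum_filter, Finset.mul_sum]
  refine Finset.sum_congr ?_ fun _ _ => rfl
  ext S
  rw [mem_filter, mem_powersetCard]
  constructor
  · rintro ⟨_, h⟩
    exact ⟨subset_univ _, by omega⟩
  · rintro ⟨_, h⟩
    exact ⟨mem_univ _, by omega⟩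

end bip

section diag

/-- block diagonal matrices -/
def blkM {Γ α β : Type} [DecidableEq Γ] (F : Γ → α → β → R) : Γ × α → Γ × β → R := fun p q =>
  if p.1 = q.1 then F p.1 p.2 q.2 else 0

/-- splitting off the block `none` -/
def splitBlk (Γ α : Type) : (Γ × α) ⊕ α ≃ Option Γ × α where
  toFun y := match y with
    | Sum.inl (g, x) => (some g, x)
    | Sum.inr x => (none, x)
  invFun y := match y with
    | (some g, x) => Sum.inl (g, x)
    | (none, x) => Sum.inr x
  left_inv y := by rcases y with ⟨g, x⟩ | x <;> rfl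
  right_inv y := by rcases y with ⟨_ | g, x⟩ <;> rfl

theorem rperm_blk {α β : Type} [Fintype α] [DecidableEq α] [Fintype β] [DecidableEq β]
    (hαβ : Fintype.card α = Fintype.card β) (Γ : Type) [Fintype Γ] :
    ∀ [DecidableEq Γ] (F : Γ → α → β → R), rperm (blkM F) = ∏ g, rperm (F g) := by
  refine Fintype.induction_empty_option
    (P := fun Γ _ => ∀ [DecidableEq Γ] (F : Γ → α → β → R), rperm (blkM F) = ∏ g, rperm (F g))
    ?_ ?_ ?_ Γ
  · intro Γ Γ' _ e ih _ F
    let _ : Fintype Γ := Fintype.ofEquiv _ e.symm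
    let _ : DecidableEq Γ := Classical.decEq _
    have h := ih (fun g => F (e g))
    rw [← Equiv.prod_comp e, ← h, ← rperm_equiv (Equiv.prodCongr e (Equiv.refl α))
      (Equiv.prodCongr e (Equiv.refl β)) (blkM F)]
    congr 1
    funext p q
    simp [blkM]
  · intro _ F
    rw [Fintype.prod_empty, ← rperm_equiv (Equiv.equivOfIsEmpty Empty (PEmpty × α))
      (Equiv.equivOfIsEmpty Empty (PEmpty × β))]
    unfold rperm
    simp
  · intro Γ _ ih _ F
    let _ : DecidableEq Γ := Classical.decEq _
    have h := ih (fun g => F (some g))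
    rw [Fintype.prod_option, ← h, ← rperm_equiv (splitBlk Γ α) (splitBlk Γ β) (blkM F),
      rperm_block hαβ]
    · have e1 : (fun a b => blkM F (splitBlk Γ α (Sum.inl a)) (splitBlk Γ β (Sum.inl b))) =
          blkM (fun g => F (some g)) := by
        funext p q
        simp [blkM, splitBlk]
      have e2 : (fun k k' => blkM F (splitBlk Γ α (Sum.inr k)) (splitBlk Γ β (Sum.inr k'))) =
          F none := by
        funext p q
        simp [blkM, splitBlk]
      rw [e1, e2, mul_comm]
    · rintro k ⟨g, b⟩
      simp [blkM, splitBlk]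

end diag

end Pool.Agent.Work.MP_35c45d_lc.SQ
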