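import Pool.Agent.Work.MP_35c45d_lc.SDRead2
import Pool.Agent.Work.MP_35c45d_lc.SDBip
import Pool.Agent.Work.MP_35c45d_lc.SEDefs
import Pool.Agent.Work.MP_35c45d_lc.SDSec

/-! # A section of the permanent in which every variable occupies one cell -/

set_option autoImplicit false

namespace Pool.Agent.Work.MP_35c45d_lc.SD

open MvPolynomial

variable {α β κ : Type} [Fintype α] [DecidableEq α] [Fintype β] [DecidableEq β]
  [Fintype κ] [DecidableEq κ]

/-- matrices whose entries are constants or sums of distinct variables -/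
noncomputable def cellM (c : α → β → ℂ) (cell : κ → β × α) : α → β → MvPolynomial κ ℂ :=
  fun a b => C (c a b) + ∑ v, if cell v = (b, a) then X v else 0

omit [DecidableEq κ] in
theorem perm_embed_cell {m : ℕ}
    (hcard : Fintype.card α = Fintype.card β) (hα : Fintype.card α ≤ m)
    (c : α → β → ℂ) (cell : κ → β × α) (hinj1 : Function.Injective fun v => (cell v).1)
    (hinj2 : Function.Injective fun v => (cell v).2) :
    ∃ (c' : Fin m × Fin m → ℂ) (cell' : κ → Fin m × Fin m),
      (Function.Injective fun v => (cell' v).1) ∧ (Function.Injective fun v => (cell' v).2) ∧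
      aeval (cellφ c' cell') (permP m) = SQ.rperm (cellM c cell) := by
  classical
  let K := Fin (m - Fintype.card α)
  have h1 : Fintype.card (α ⊕ K) = Fintype.card (Fin m) := by
    rw [Fintype.card_sum, Fintype.card_fin, Fintype.card_fin]; omega
  have h2 : Fintype.card (β ⊕ K) = Fintype.card (Fin m) := by
    rw [Fintype.card_sum, Fintype.card_fin, Fintype.card_fin, ← hcard]; omega
  let eα : Fin m ≃ α ⊕ K := (Fintype.equivOfCardEq h1).symm
  let eβ : Fin m ≃ β ⊕ K := (Fintype.equivOfCardEq h2).symm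
  let M' : α ⊕ K → β ⊕ K → MvPolynomial κ ℂ := fun r s =>
    match r, s with
    | Sum.inl a, Sum.inl b => cellM c cell a b
    | Sum.inl _, Sum.inr _ => 0
    | Sum.inr _, Sum.inl _ => 0
    | Sum.inr k, Sum.inr k' => if k = k' then 1 else 0
  have h3 : SQ.rperm M' = SQ.rperm (cellM c cell) := by
    rw [SQ.rperm_block rfl M' (fun k b => rfl)]
    have : SQ.rperm (fun (k k' : K) => M' (Sum.inr k) (Sum.inr k')) = 1 := SQ.rperm_one
    rw [this, mul_one]
  let c' : Fin m × Fin m → ℂ := fun p =>
    match eα p.2, eβ p.1 with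
    | Sum.inl a, Sum.inl b => c a b
    | Sum.inl _, Sum.inr _ => 0
    | Sum.inr _, Sum.inl _ => 0
    | Sum.inr k, Sum.inr k' => if k = k' then 1 else 0
  let cell' : κ → Fin m × Fin m := fun v => (eβ.symm (Sum.inl (cell v).1),
    eα.symm (Sum.inl (cell v).2))
  have h4 : ∀ p, cellφ c' cell' p = M' (eα p.2) (eβ p.1) := by
    rintro ⟨q, p⟩
    have hc : ∀ v, cell' v = (q, p) ↔ eβ q = Sum.inl (cell v).1 ∧ eα p = Sum.inl (cell v).2 := by
      intro v
      simp only [cell', Prod.mk.injEq, Equiv.symm_apply_eq]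
      constructor
      · rintro ⟨h, h'⟩
        exact ⟨h.symm, h'.symm⟩
      · rintro ⟨h, h'⟩
        exact ⟨h.symm, h'.symm⟩
    unfold cellφ
    simp only [hc, c']
    rcases hp : eα p with a | k <;> rcases hq : eβ q with b | k'
    · simp only [M', cellM]
      congr 1
      refine Finset.sum_congr rfl fun v _ => ?_
      have : (Sum.inl b = (Sum.inl (cell v).1 : β ⊕ K) ∧
          Sum.inl a = (Sum.inl (cell v).2 : α ⊕ K)) ↔ cell v = (b, a) := by
        rw [Sum.inl.injEq, Sum.inl.injEq, Prod.ext_iff]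
        constructor
        · rintro ⟨h, h'⟩
          exact ⟨h.symm, h'.symm⟩
        · rintro ⟨h, h'⟩
          exact ⟨h.symm, h'.symm⟩
      simp only [this]
    · simp [M']
    · simp [M']
    · by_cases hkk : k = k' <;> simp [M', hkk]
  refine ⟨c', cell', fun v w hvw => hinj1 ?_, fun v w hvw => hinj2 ?_, ?_⟩
  · simpa only [cell', EmbeddingLike.apply_eq_iff_eq, Sum.inl.injEq] using hvw
  · simpa only [cell', EmbeddingLike.apply_eq_iff_eq, Sum.inl.injEq] using hvw
  rw [← h3, permP_eq]
  unfold SQ.permPoly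
  rw [SQ.permanent_eq_rperm, ← SQ.rperm_equiv eα eβ M']
  unfold SQ.rperm
  rw [map_sum]
  refine Finset.sum_congr rfl fun e _ => ?_
  rw [map_prod]
  refine Finset.prod_congr rfl fun a _ => ?_
  change aeval (cellφ c' cell') (X (e a, a)) = M' (eα a) (eβ (e a))
  rw [aeval_X, h4]

/-- `∏ i < k, e_D (x_i)` is a section of the permanent of size `k (2 L - D)` in which every variable
occupies one cell, and these cells are in different rows and in different columns. -/
theorem esf_cell2 {k L D m : ℕ} (hDL : D ≤ L) (hm : k * (2 * L - D) ≤ m) :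
    ∃ (c : Fin m × Fin m → ℂ) (cell : Fin k × Fin 1 × Fin L → Fin m × Fin m) (c0 : ℂ),
      (Function.Injective fun v => (cell v).1) ∧ (Function.Injective fun v => (cell v).2) ∧
      c0 ≠ 0 ∧ aeval (cellφ c cell) (permP m) = C c0 * SE.esf k 1 L D := by
  classical
  let K := Fin (L - D)
  let c : Fin k × (Fin L ⊕ K) → Fin k × (Fin L ⊕ K) → ℂ := fun p q =>
    if p.1 = q.1 then
      (match p.2, q.2 with
        | Sum.inl _, Sum.inl _ => 0
        | Sum.inl _, Sum.inr _ => 1
        | Sum.inr _, Sum.inl _ => 1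
        | Sum.inr _, Sum.inr _ => 0)
    else 0
  let cell : Fin k × Fin 1 × Fin L → (Fin k × (Fin L ⊕ K)) × (Fin k × (Fin L ⊕ K)) := fun v =>
    ((v.1, Sum.inl v.2.2), (v.1, Sum.inl v.2.2))
  have hinj : Function.Injective fun v : Fin k × Fin 1 × Fin L =>
      ((v.1, Sum.inl v.2.2) : Fin k × (Fin L ⊕ K)) := by
    rintro ⟨i, t, a⟩ ⟨i', t', a'⟩ h
    simp only [Prod.mk.injEq, Sum.inl.injEq] at h
    obtain ⟨h1, h2⟩ := h
    rw [h1, h2, Subsingleton.elim t t']
  obtain ⟨c', cell', hinj1, hinj2, h1⟩ := perm_embed_cell (m := m) (α := Fin k × (Fin L ⊕ K))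
    (β := Fin k × (Fin L ⊕ K)) rfl (by
      rw [Fintype.card_prod, Fintype.card_sum, Fintype.card_fin, Fintype.card_fin, Fintype.card_fin]
      refine le_trans (le_of_eq ?_) hm
      congr 1
      omega) c cell hinj hinj
  have h2 : cellM c cell = SQ.blkM (fun i : Fin k =>
      (SQ.bipM (fun a : Fin L => (X (i, 0, a) : MvPolynomial (Fin k × Fin 1 × Fin L) ℂ)) :
        Fin L ⊕ K → Fin L ⊕ K → MvPolynomial (Fin k × Fin 1 × Fin L) ℂ)) := by
    funext p q
    obtain ⟨i, r⟩ := p
    obtain ⟨j, s⟩ := q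
    have hcell : ∀ v : Fin k × Fin 1 × Fin L, cell v = ((j, s), (i, r)) ↔
        v.1 = j ∧ v.1 = i ∧ Sum.inl v.2.2 = s ∧ Sum.inl v.2.2 = r := by
      intro v
      simp only [cell, Prod.mk.injEq]
      tauto
    simp only [cellM, hcell, SQ.blkM, c]
    by_cases hij : i = j
    · subst hij
      rw [if_pos rfl, if_pos rfl]
      rcases r with a | a <;> rcases s with b | b
      · simp only [SQ.bipM, C_0, zero_add, Sum.inl.injEq]
        by_cases hab : a = b
        · subst hab
          rw [if_pos rfl, Finset.sum_eq_single (i, 0, a)]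
          · simp
          · rintro ⟨i', t, a'⟩ _ hne
            rw [if_neg]
            rintro ⟨h3, -, h4, -⟩
            apply hne
            simp only at h3 h4
            rw [h3, h4, Subsingleton.elim t 0]
          · intro h
            exact absurd (Finset.mem_univ _) h
        · rw [if_neg hab]
          refine Finset.sum_eq_zero fun v _ => ?_
          rw [if_neg]
          rintro ⟨-, -, h3, h4⟩
          exact hab (h4.symm.trans h3)
      · simp [SQ.bipM]
      · simp [SQ.bipM]
      · simp [SQ.bipM]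
    · rw [if_neg hij, if_neg hij, C_0, zero_add]
      refine Finset.sum_eq_zero fun v _ => ?_
      rw [if_neg]
      rintro ⟨h3, h4, -⟩
      exact hij (h4.symm.trans h3)
  refine ⟨c', cell', ((L - D).factorial : ℂ) ^ (2 * k), hinj1, hinj2, ?_, ?_⟩
  · exact pow_ne_zero _ (by exact_mod_cast Nat.factorial_ne_zero _)
  · rw [h1, h2, SQ.rperm_blk rfl]
    have h3 : ∀ i : Fin k, SQ.rperm (SQ.bipM (fun a : Fin L =>
        (X (i, 0, a) : MvPolynomial (Fin k × Fin 1 × Fin L) ℂ)) :
        Fin L ⊕ K → Fin L ⊕ K → MvPolynomial (Fin k × Fin 1 × Fin L) ℂ) =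
        C (((L - D).factorial : ℂ) ^ 2) *
          ∑ S ∈ Finset.powersetCard D (Finset.univ : Finset (Fin L)), ∏ a ∈ S, X (i, 0, a) := by
      intro i
      rw [SQ.rperm_bip (D := D) _ (by
        rw [Fintype.card_fin, Fintype.card_fin]
        omega), Fintype.card_fin]
      simp
    simp only [h3]
    rw [Finset.prod_mul_distrib, Finset.prod_const, Finset.card_univ, Fintype.card_fin, ← C_pow,
      ← pow_mul]
    congr 1
    unfold SE.esf
    refine Finset.prod_congr rfl fun i _ => ?_
    rw [Fin.sum_univ_one]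

/-- the cells are different -/
theorem esf_cell {k L D m : ℕ} (hDL : D ≤ L) (hm : k * (2 * L - D) ≤ m) :
    ∃ (c : Fin m × Fin m → ℂ) (cell : Fin k × Fin 1 × Fin L → Fin m × Fin m) (c0 : ℂ),
      Function.Injective cell ∧ c0 ≠ 0 ∧
      aeval (cellφ c cell) (permP m) = C c0 * SE.esf k 1 L D := by
  obtain ⟨c, cell, c0, h1, -, h2, h3⟩ := esf_cell2 hDL hm
  exact ⟨c, cell, c0, Function.Injective.of_comp (f := Prod.fst) h1, h2, h3⟩

/-- a limit of sums of `M` determinants of any sizes in which the coefficient matrix of every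
variable has rank at most `r` gives a limit of sums of `M` determinants of size `r k L` for the
section -/
theorem LimSumRead.limSumDet_esf {M r k L D m : ℕ} (h : LimSumRead M r (permP m)) (hDL : D ≤ L)
    (hm : k * (2 * L - D) ≤ m) (hR : 1 ≤ r * (k * L)) :
    ∃ c : ℂ, c ≠ 0 ∧ LimSumDet M (r * (k * L)) (C c * SE.esf k 1 L D) := by
  obtain ⟨c, cell, c0, -, hc0, hcell⟩ := esf_cell hDL hm
  have hcard : Fintype.card (Fin k × Fin 1 × Fin L) = k * L := by simp
  refine ⟨c0, hc0, ?_⟩
  have h1 := (h.subst c cell).limSumDet (by rw [hcard]; exact hR)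
  rw [hcell, hcard] at h1
  exact h1

end Pool.Agent.Work.MP_35c45d_lc.SD
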