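import Pool.Agent.Work.MP_35c45d_lc.SDMons

/-! # The choice of the parameters

A generic form: `G n' l` is a number of linearly independent shifted derivatives of order `k`
(`Nv` variables, `n'` dummy variables, shifts of degree at most `l`). -/

set_option autoImplicit false

namespace Pool.Agent.Work.MP_35c45d_lc.SE

open Filter Topology SD

theorem core_gen {k D n M w Nv : ℕ} (hk : 1 ≤ k) (hw : 400 ≤ w) (hwN : w ≤ Nv)
    (hD : 2 * Real.log (2 * (Nv : ℝ)) ≤ (D : ℝ) - 1) (G : ℕ → ℕ → ℕ)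
    (hgood : ∀ (n' l : ℕ) (z : ℝ), z = ((Nv + n' : ℕ) : ℝ) / ((Nv + n' + l : ℕ) : ℝ) →
      2 * (Nv : ℝ) * (1 - z) ^ (D - 1) ≤ 1 →
        (w : ℝ) ^ k / 2 * ((Nv + n' + l).choose l : ℝ) ≤ (G n' l : ℝ))
    (hlim : ∀ n' l, n ≤ n' → G n' l ≤ M * ub Nv n' k l)
    (hn : 12 * n * Real.log (2 * (Nv : ℝ)) ≤ k * ((D : ℝ) - 1) * √w) :
    (2 : ℝ) ^ k ≤ 2 * M := by
  have hk1 : (1 : ℝ) ≤ k := by exact_mod_cast hk
  have hp1 : (400 : ℝ) ≤ w := by exact_mod_cast hw
  have hwN' : (w : ℝ) ≤ Nv := by exact_mod_cast hwN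
  set L : ℝ := Real.log (2 * (Nv : ℝ)) with hL
  have hkp : (800 : ℝ) ≤ 2 * (Nv : ℝ) := by linarith
  have hL1 : 1 ≤ L := by
    rw [hL, Real.le_log_iff_exp_le (by linarith)]
    have := Real.exp_one_lt_d9
    linarith
  have hDr : 2 ≤ (D : ℝ) - 1 := by linarith
  have hD3 : 3 ≤ D := by
    have : (3 : ℝ) ≤ D := by linarith
    exact_mod_cast this
  set d : ℝ := (D : ℝ) - 1 with hd
  have hsp : (20 : ℝ) ≤ √w := by
    rw [Real.le_sqrt (by norm_num) (by linarith)]
    linarith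
  have hspp : √(w : ℝ) * √w = w := Real.mul_self_sqrt (by linarith)
  -- the padded size
  set X : ℝ := k * d / L with hX
  have hX2 : 2 ≤ X := by
    rw [hX, le_div_iff₀ (by linarith)]
    nlinarith
  set n' : ℕ := ⌊X * √w / 12⌋₊ with hn'
  have hn'le : (n' : ℝ) ≤ X * √w / 12 := Nat.floor_le (by positivity)
  have hn'lt : X * √w / 12 < n' + 1 := Nat.lt_floor_add_one _
  have hnn' : n ≤ n' := by
    rw [hn']
    apply Nat.le_floor
    rw [hX, le_div_iff₀ (by norm_num), div_mul_eq_mul_div, le_div_iff₀ (by linarith)]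
    nlinarith
  -- the shift
  have hn'pos : (1 : ℝ) ≤ n' := by
    have : (1 : ℝ) < n' + 1 := by
      refine lt_of_le_of_lt ?_ hn'lt
      rw [le_div_iff₀ (by norm_num)]
      nlinarith
    have h2 : 0 < n' := by
      by_contra h0
      have h3 : n' = 0 := by omega
      rw [h3] at this
      norm_num at this
    exact_mod_cast h2
  set N : ℝ := ((Nv + n' : ℕ) : ℝ) with hN
  have hN1 : 1 ≤ N := by
    rw [hN]
    push_cast
    linarith
  set l : ℕ := ⌊N * d / (2 * L)⌋₊ with hl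
  have hlle : (l : ℝ) ≤ N * d / (2 * L) := Nat.floor_le (by positivity)
  have hllt : N * d / (2 * L) < l + 1 := Nat.lt_floor_add_one _
  set z : ℝ := N / ((Nv + n' + l : ℕ) : ℝ) with hz
  have hNl : ((Nv + n' + l : ℕ) : ℝ) = N + l := by
    rw [hN, Nat.cast_add (Nv + n') l]
  have hNlpos : 0 < N + l := by positivity
  -- `z ≤ 2 L / d`
  have hz1 : z * d ≤ 2 * L := by
    rw [hz, hNl, div_mul_eq_mul_div, div_le_iff₀ hNlpos]
    have h1 : N * d ≤ (l + 1) * (2 * L) := by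
      rw [← div_le_iff₀ (by linarith)]
      exact hllt.le
    nlinarith
  -- `z ≥ L / d`
  have hz2 : L ≤ z * d := by
    rw [hz, hNl, div_mul_eq_mul_div, le_div_iff₀ hNlpos]
    have h1 : (l : ℝ) * (2 * L) ≤ N * d := by
      rw [← le_div_iff₀ (by linarith)]
      exact hlle
    nlinarith
  have hz0 : 0 < z := by rw [hz, hNl]; positivity
  have hz01 : z ≤ 1 := by
    rw [hz, hNl, div_le_one hNlpos]
    have : (0 : ℝ) ≤ l := Nat.cast_nonneg l
    linarith
  -- the good monomials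
  have hexp : 2 * (Nv : ℝ) * (1 - z) ^ (D - 1) ≤ 1 := by
    have h1 : (1 - z) ^ (D - 1) ≤ Real.exp (-L) := by
      have h2 : 1 - z ≤ Real.exp (-z) := by
        have := Real.add_one_le_exp (-z)
        linarith
      calc (1 - z) ^ (D - 1) ≤ (Real.exp (-z)) ^ (D - 1) :=
            pow_le_pow_left₀ (by linarith) h2 _
        _ = Real.exp (-(z * d)) := by
            rw [← Real.exp_nat_mul, Nat.cast_sub (by omega), Nat.cast_one, ← hd]
            congr 1
            ring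
        _ ≤ Real.exp (-L) := Real.exp_le_exp.2 (by linarith)
    have h3 : Real.exp (-L) = (2 * (Nv : ℝ))⁻¹ := by
      rw [Real.exp_neg, hL, Real.exp_log (by linarith)]
    rw [h3] at h1
    calc 2 * (Nv : ℝ) * (1 - z) ^ (D - 1) ≤ 2 * (Nv : ℝ) * (2 * (Nv : ℝ))⁻¹ :=
          mul_le_mul_of_nonneg_left h1 (by positivity)
      _ = 1 := mul_inv_cancel₀ (by linarith)
  have hgood' := hgood n' l z (by rw [hz, hN]) hexp
  -- the upper bound
  have hub := ub_le Nv n' k l hk z (by rw [hz, hN]) (by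
    have h1 : (X * √w / 12 - 1) * z ≤ n' * z := mul_le_mul_of_nonneg_right (by linarith) hz0.le
    have h2 : X * z * L = k * (z * d) := by
      rw [hX]
      field_simp
    have h3 : (k : ℝ) * L ≤ X * z * L := by
      rw [h2]
      exact mul_le_mul_of_nonneg_left hz2 (by linarith)
    have h4 : (k : ℝ) ≤ X * z := le_of_mul_le_mul_right h3 (by linarith)
    have h5 : X * z * 20 ≤ X * z * √w := mul_le_mul_of_nonneg_left hsp (by positivity)
    nlinarith)
  have hlim' : (G n' l : ℝ) ≤ M * (ub Nv n' k l : ℝ) := by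
    exact_mod_cast hlim n' l hnn'
  set θ : ℝ := 3 * Real.exp 1 * n' * z / (2 * k) with hθ
  set Ch : ℝ := ((Nv + n' + l).choose l : ℝ) with hCh
  have hChpos : 0 < Ch := by
    rw [hCh]
    exact_mod_cast Nat.choose_pos (by omega)
  have hθ0 : 0 ≤ θ := by rw [hθ]; positivity
  -- `θ ^ 2 ≤ w / 2`
  have hθ1 : θ ≤ Real.exp 1 * √w / 4 := by
    rw [hθ, div_le_iff₀ (by linarith)]
    have h1 : (n' : ℝ) * z ≤ X * √w / 12 * z := mul_le_mul_of_nonneg_right hn'le hz0.le
    have h2 : X * z ≤ 2 * k := by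
      have h3 : X * z * L = k * (z * d) := by
        rw [hX]
        field_simp
      have h4 : X * z * L ≤ 2 * k * L := by
        rw [h3]
        nlinarith
      exact le_of_mul_le_mul_right h4 (by linarith)
    have h5 : (n' : ℝ) * z ≤ k * √w / 6 := by
      have h6 : X * z * √w ≤ 2 * k * √w := mul_le_mul_of_nonneg_right h2 (Real.sqrt_nonneg _)
      nlinarith
    have he : 0 < Real.exp 1 := Real.exp_pos 1
    have h7 := mul_le_mul_of_nonneg_left h5 (by positivity : 0 ≤ 3 * Real.exp 1)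
    calc 3 * Real.exp 1 * ↑n' * z = 3 * Real.exp 1 * (↑n' * z) := by ring
      _ ≤ 3 * Real.exp 1 * (k * √w / 6) := h7
      _ = Real.exp 1 * √w / 4 * (2 * k) := by ring
  have hθ2 : θ ^ 2 ≤ w / 2 := by
    have he : Real.exp 1 < 2.7182818286 := Real.exp_one_lt_d9
    have he0 : 0 < Real.exp 1 := Real.exp_pos 1
    have he2 : Real.exp 1 ^ 2 ≤ 8 := by
      calc Real.exp 1 ^ 2 ≤ 2.7182818286 ^ 2 := pow_le_pow_left₀ he0.le he.le 2
        _ ≤ 8 := by norm_num
    calc θ ^ 2 ≤ (Real.exp 1 * √w / 4) ^ 2 := pow_le_pow_left₀ hθ0 hθ1 2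
      _ = Real.exp 1 ^ 2 * (√w * √w) / 16 := by ring
      _ = Real.exp 1 ^ 2 * w / 16 := by rw [hspp]
      _ ≤ 8 * w / 16 := by gcongr
      _ = w / 2 := by ring
  have hfin : (w : ℝ) ^ k / 2 ≤ M * ((w : ℝ) / 2) ^ k := by
    have h1 : (w : ℝ) ^ k / 2 * Ch ≤ M * (θ ^ (2 * k) * Ch) := by
      refine hgood'.trans (hlim'.trans ?_)
      exact mul_le_mul_of_nonneg_left hub (Nat.cast_nonneg M)
    have h2 : (w : ℝ) ^ k / 2 ≤ M * θ ^ (2 * k) := by
      have : (w : ℝ) ^ k / 2 * Ch ≤ M * θ ^ (2 * k) * Ch := by linarith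
      exact le_of_mul_le_mul_right this hChpos
    refine h2.trans (mul_le_mul_of_nonneg_left ?_ (Nat.cast_nonneg M))
    rw [pow_mul]
    exact pow_le_pow_left₀ (by positivity) hθ2 k
  rw [div_pow] at hfin
  have hppos : (0 : ℝ) < (w : ℝ) ^ k := by positivity
  have h2pos : (0 : ℝ) < (2 : ℝ) ^ k := by positivity
  have h3 : (w : ℝ) ^ k / 2 * 2 ^ k ≤ M * (w : ℝ) ^ k := by
    calc (w : ℝ) ^ k / 2 * 2 ^ k ≤ (M * ((w : ℝ) ^ k / 2 ^ k)) * 2 ^ k :=
          mul_le_mul_of_nonneg_right hfin h2pos.le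
      _ = M * (w : ℝ) ^ k := by field_simp
  have h4 : (w : ℝ) ^ k * 2 ^ k ≤ (w : ℝ) ^ k * (2 * M) := by nlinarith
  exact le_of_mul_le_mul_left h4 hppos

end Pool.Agent.Work.MP_35c45d_lc.SE
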