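import Pool.Agent.Work.MP_35c45d_lc.SELow
import Pool.Agent.Work.MP_35c45d_lc.SESemi

/-! # The inequality for limits of sums of determinants (from `indep` and `lim_card`) -/

set_option autoImplicit false

namespace Pool.Agent.Work.MP_35c45d_lc.SE

open MvPolynomial Filter Topology SD

theorem lim_ineq {k T L D n M l : ℕ} (hD : 2 ≤ D) (hL : D ≤ L) {c : ℂ} (hc : c ≠ 0)
    (h : LimSumDet M n (C c * esf k T L D)) :
    (goodE k T L D n l).card ≤ M * ub (k * (T * L)) n k l := by
  classical
  obtain ⟨b, hb, hli⟩ := indep (k := k) (T := T) (L := L) (D := D) (n := n) (l := l) hD hL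
  have h1 := lim_card (k := k) (l := l) h (α := goodE k T L D n l) (fun x i => (i, x.1.1 i))
    (fun x => b x.1.2) (fun x => ?_) ?_
  · rw [Fintype.card_coe, Fintype.card_prod, Fintype.card_prod, Fintype.card_fin, Fintype.card_fin,
      Fintype.card_fin] at h1
    exact h1
  · refine (hb _).trans ?_
    exact (mem_mons.1 (Finset.mem_filter.1 (Finset.mem_product.1 x.2).2).1).2
  · have h2 := hli.units_smul (fun _ => Units.mk0 c hc)
    convert h2 using 1
    funext x
    change _ = (Units.mk0 c hc) • (b x.1.2 * dk (fun i => (i, x.1.1 i))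
      (rename Sum.inl (esf k T L D)))
    rw [dk_eq, dk_eq, map_mul, rename_C, ← smul_eq_C_mul, map_smul, mul_smul_comm]
    rfl

end Pool.Agent.Work.MP_35c45d_lc.SE
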