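import Pool.Agent.Work.MP_35c45d_lc.SELow
import Pool.Agent.Work.MP_35c45d_lc.SELimA
import Pool.Agent.Work.MP_35c45d_lc.SECore

/-! # The numerical form of the inequality for limits of sums of determinants -/

set_option autoImplicit false

namespace Pool.Agent.Work.MP_35c45d_lc.SE

open MvPolynomial Filter Topology SD

/-- the numerical form; `w` is the number of free variables of a block. -/
theorem core {k T L D n M w : ℕ} (hk : 1 ≤ k) (hT : 1 ≤ T) (hL : D ≤ L)
    (hw : w = T * (L - (D - 1))) (hw4 : 400 ≤ w)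
    (hD : 2 * Real.log (2 * k * (T * L)) ≤ (D : ℝ) - 1) {c : ℂ} (hc : c ≠ 0)
    (h : LimSumDet M n (C c * esf k T L D))
    (hn : 12 * n * Real.log (2 * k * (T * L)) ≤ k * ((D : ℝ) - 1) * √w) :
    (2 : ℝ) ^ k ≤ 2 * M := by
  have hcast : (2 * k * (T * L) : ℝ) = 2 * ((k * (T * L) : ℕ) : ℝ) := by
    push_cast
    ring
  rw [hcast] at hD hn
  have hwTL : w ≤ T * L := by
    rw [hw]
    exact Nat.mul_le_mul_left _ (Nat.sub_le _ _)
  have hwN : w ≤ k * (T * L) := hwTL.trans (Nat.le_mul_of_pos_left _ hk)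
  have hL1 : 1 ≤ L := by
    rcases Nat.eq_zero_or_pos L with h0 | h0
    · rw [h0] at hwTL
      omega
    · exact h0
  have hD2 : 2 ≤ D := by
    have h1 : (1 : ℝ) ≤ 2 * ((k * (T * L) : ℕ) : ℝ) := by
      have : (400 : ℝ) ≤ ((k * (T * L) : ℕ) : ℝ) := by exact_mod_cast hw4.trans hwN
      linarith
    have h2 := Real.log_nonneg h1
    have h3 : (800 : ℝ) ≤ 2 * ((k * (T * L) : ℕ) : ℝ) := by
      have : (400 : ℝ) ≤ ((k * (T * L) : ℕ) : ℝ) := by exact_mod_cast hw4.trans hwN
      linarith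
    have h4 : 1 ≤ Real.log (2 * ((k * (T * L) : ℕ) : ℝ)) := by
      rw [Real.le_log_iff_exp_le (by linarith)]
      have := Real.exp_one_lt_d9
      linarith
    have h5 : (2 : ℝ) ≤ D := by linarith
    exact_mod_cast h5
  refine core_gen (n := n) (D := D) hk hw4 hwN hD (fun n' l => (goodE k T L D n' l).card)
    (fun n' l z hz he => ?_) (fun n' l hnn => ?_) hn
  · rw [hw]
    exact goodE_card k T L D n' l hk hT hL hL1 z hz he
  · exact lim_ineq hD2 hL hc (h.pad hnn)

end Pool.Agent.Work.MP_35c45d_lc.SE
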