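import Pool.Agent.Work.MP_35c45d_lc.SFCore
import Pool.Agent.Work.MP_35c45d_lc.SELim
import Pool.Agent.Work.MP_35c45d_lc.SDCell

/-! # The refined numerical form, and determinants of any size with coefficient matrices of small
rank -/

set_option autoImplicit false

namespace Pool.Agent.Work.MP_35c45d_lc.SF

open MvPolynomial Filter Topology SD SE

/-- the numerical form; `w` is the number of free variables of a block. -/
theorem core2 {k T L D n M w : ℕ} (hk : 1 ≤ k) (hT : 1 ≤ T) (hL : D ≤ L) (hL2 : L ≤ 2 * D)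
    (hw : w = T * (L - (D - 1))) (hw4 : 10000 ≤ w)
    (hD : 2 * Real.log (2 * (w : ℝ)) ≤ (D : ℝ) - 1) {c : ℂ} (hc : c ≠ 0)
    (h : LimSumDet M n (C c * esf k T L D))
    (hn : 50 * n * Real.log (2 * (w : ℝ)) ≤ k * ((D : ℝ) - 1) * √w) :
    (2 : ℝ) ^ k ≤ M := by
  have hp1 : (10000 : ℝ) ≤ w := by exact_mod_cast hw4
  have hL1 : 1 ≤ Real.log (2 * (w : ℝ)) := by
    rw [Real.le_log_iff_exp_le (by linarith)]
    have := Real.exp_one_lt_d9
    linarith
  have hD3 : 3 ≤ D := by
    have : (3 : ℝ) ≤ D := by linarith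
    exact_mod_cast this
  have hR1 : 1 ≤ k * (T * (D - 1)) := Nat.mul_pos hk (Nat.mul_pos hT (by omega))
  have hR : k * (T * (D - 1)) ≤ k * (T * L) :=
    Nat.mul_le_mul_left _ (Nat.mul_le_mul_left _ (by omega))
  have hR3 : k * (T * L) ≤ 3 * (k * (T * (D - 1))) := by
    have h1 : L ≤ 3 * (D - 1) := by omega
    calc k * (T * L) ≤ k * (T * (3 * (D - 1))) :=
          Nat.mul_le_mul_left _ (Nat.mul_le_mul_left _ h1)
      _ = 3 * (k * (T * (D - 1))) := by ring
  refine core_gen2 (n := n) (D := D) hk hw4 hR1 hR hR3 hD (fun n' l => (goodE k T L D n' l).card)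
    (fun n' l z hz he => ?_) (fun n' l hnn => ?_) hn
  · rw [hw] at he ⊢
    exact goodE_card2 k T L D n' l hk hT (by omega) hL z hz he
  · exact lim_ineq (by omega) hL hc (h.pad hnn)

/-- The choice of the parameters, `L = 2 D`, for read restricted determinants. -/
theorem read_num (m M n : ℕ) (r : ℝ) (hr1 : 1 ≤ r) (hnr : (n : ℝ) ≤ r * m) (hM : 1 ≤ M)
    (h : ∀ k D : ℕ, 1 ≤ k → 1 ≤ D → k * (3 * D) ≤ m → ∃ c : ℂ, c ≠ 0 ∧
      LimSumDet M n (C c * esf k 1 (2 * D) D)) :
    (m : ℝ) ≤ 10 ^ 10 * (r * (1 + Real.log r)) ^ 2 * Real.log (M + 1) := by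
  have hlr : 0 ≤ Real.log r := Real.log_nonneg hr1
  set ρ : ℝ := r * (1 + Real.log r) with hρ
  have hρ1 : 1 ≤ ρ := by rw [hρ]; nlinarith
  have hM1 : (1 : ℝ) ≤ M := by exact_mod_cast hM
  have hlog2 : Real.log 2 ≤ Real.log (M + 1) := Real.log_le_log (by norm_num) (by linarith)
  have hl2 : (0.69 : ℝ) ≤ Real.log 2 := by
    have := Real.log_two_gt_d9
    linarith
  -- the parameters
  set D : ℕ := ⌈4 * 10 ^ 8 * ρ ^ 2⌉₊ with hD
  have hD1 : 4 * 10 ^ 8 * ρ ^ 2 ≤ D := Nat.le_ceil _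
  have hD2 : (D : ℝ) < 4 * 10 ^ 8 * ρ ^ 2 + 1 := Nat.ceil_lt_add_one (by positivity)
  have hρ2 : 1 ≤ ρ ^ 2 := one_le_pow₀ hρ1
  have hD8 : (4 * 10 ^ 8 : ℝ) ≤ D := by nlinarith
  have hD8' : 4 * 10 ^ 8 ≤ D := by exact_mod_cast hD8
  set k : ℕ := m / (3 * D) with hk
  rcases Nat.eq_zero_or_pos k with hk0 | hk0
  · -- few blocks: nothing to prove
    have h1 : m < 3 * D := by
      by_contra hcon
      push Not at hcon
      have := Nat.div_pos hcon (by omega)
      omega
    have h2 : (m : ℝ) < 3 * D := by exact_mod_cast h1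
    nlinarith [mul_le_mul hρ2 hlog2 (by linarith) (by positivity)]
  · have hkD : k * (3 * D) ≤ m := Nat.div_mul_le_self _ _
    have hkD2 : m < (k + 1) * (3 * D) := by
      rw [hk]
      exact Nat.lt_mul_of_div_lt (Nat.lt_succ_self _) (by omega)
    have hk1 : (1 : ℝ) ≤ k := by exact_mod_cast hk0
    have h4 : (m : ℝ) < (k + 1) * (3 * D) := by exact_mod_cast hkD2
    have h5 : (m : ℝ) ≤ 6 * (k * D) := by nlinarith
    obtain ⟨c, hc, h1⟩ := h k D hk0 (by omega) hkD
    -- `√(D + 1)` is large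
    have hw : D + 1 = 1 * (2 * D - (D - 1)) := by omega
    have hsq : 2 * 10 ^ 4 * ρ ≤ √((D + 1 : ℕ) : ℝ) := by
      rw [Real.le_sqrt (by positivity) (by positivity)]
      push_cast
      nlinarith
    have hlog : Real.log (2 * ((D + 1 : ℕ) : ℝ)) ≤ 24 * (1 + Real.log r) := by
      have hρr : ρ ≤ r ^ 2 := by
        rw [hρ, sq]
        have : Real.log r ≤ r - 1 := Real.log_le_sub_one_of_pos (by linarith)
        nlinarith
      have h3 : 2 * ((D + 1 : ℕ) : ℝ) ≤ 10 ^ 9 * r ^ 4 := by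
        push_cast
        have h4 : ρ ^ 2 ≤ (r ^ 2) ^ 2 := pow_le_pow_left₀ (by linarith) hρr 2
        have h5 : (1 : ℝ) ≤ r ^ 4 := one_le_pow₀ hr1
        nlinarith
      have h6 : Real.log (10 ^ 9 * r ^ 4) = 9 * Real.log 10 + 4 * Real.log r := by
        rw [Real.log_mul (by positivity) (by positivity), Real.log_pow, Real.log_pow]
        push_cast
        ring
      have h7 : Real.log 10 ≤ 2.4 := by
        have h8 : Real.log 10 = Real.log 2 + Real.log 5 := by
          rw [← Real.log_mul (by norm_num) (by norm_num)]; norm_num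
        have h9 : Real.log 5 ≤ Real.log 2 + Real.log 2 + 1 / 4 := by
          have h10 : Real.log 5 = Real.log 2 + Real.log 2 + Real.log (5 / 4) := by
            rw [← Real.log_mul (by norm_num) (by norm_num),
              ← Real.log_mul (by norm_num) (by norm_num)]
            norm_num
          have h11 : Real.log (5 / 4) ≤ 5 / 4 - 1 := Real.log_le_sub_one_of_pos (by norm_num)
          linarith
        have := Real.log_two_lt_d9
        linarith
      calc Real.log (2 * ((D + 1 : ℕ) : ℝ)) ≤ Real.log (10 ^ 9 * r ^ 4) :=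
            Real.log_le_log (by positivity) h3
        _ = 9 * Real.log 10 + 4 * Real.log r := h6
        _ ≤ 24 * (1 + Real.log r) := by linarith
    have hlog0 : 0 ≤ Real.log (2 * ((D + 1 : ℕ) : ℝ)) := by
      refine Real.log_nonneg ?_
      push_cast
      linarith
    have hD' : 2 * Real.log (2 * ((D + 1 : ℕ) : ℝ)) ≤ (D : ℝ) - 1 := by
      have h3 : 1 + Real.log r ≤ ρ := by rw [hρ]; nlinarith
      nlinarith
    have hn : 50 * (n : ℝ) * Real.log (2 * ((D + 1 : ℕ) : ℝ)) ≤
        k * ((D : ℝ) - 1) * √((D + 1 : ℕ) : ℝ) := by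
      push_cast at hlog hlog0 hsq ⊢
      have h3 : r * Real.log (2 * ((D : ℝ) + 1)) ≤ 24 * ρ := by
        rw [hρ]
        calc r * Real.log (2 * ((D : ℝ) + 1)) ≤ r * (24 * (1 + Real.log r)) :=
              mul_le_mul_of_nonneg_left hlog (by linarith)
          _ = _ := by ring
      have h4 : ((D : ℝ)) / 2 ≤ (D : ℝ) - 1 := by linarith
      have h6 : (n : ℝ) ≤ r * (6 * (k * D)) :=
        hnr.trans (mul_le_mul_of_nonneg_left h5 (by linarith))
      calc 50 * (n : ℝ) * Real.log (2 * ((D : ℝ) + 1))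
          ≤ 50 * (r * (6 * (k * D))) * Real.log (2 * ((D : ℝ) + 1)) := by gcongr
        _ = 300 * (k * D) * (r * Real.log (2 * ((D : ℝ) + 1))) := by ring
        _ ≤ 300 * (k * D) * (24 * ρ) := mul_le_mul_of_nonneg_left h3 (by positivity)
        _ = k * (D / 2) * (14400 * ρ) := by ring
        _ ≤ k * (D / 2) * (2 * 10 ^ 4 * ρ) := by
            refine mul_le_mul_of_nonneg_left ?_ (by positivity)
            nlinarith
        _ ≤ k * ((D : ℝ) - 1) * √((D : ℝ) + 1) := by
            refine mul_le_mul ?_ hsq (by positivity) ?_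
            · exact mul_le_mul_of_nonneg_left h4 (by linarith)
            · refine mul_nonneg (by linarith) (by linarith)
    have h2 := core2 (k := k) (T := 1) (L := 2 * D) (D := D) hk0 le_rfl (by omega) le_rfl hw
      (by omega) hD' hc h1 hn
    have h3 : (k : ℝ) * Real.log 2 ≤ Real.log (M + 1) := by
      rw [← Real.log_pow]
      exact Real.log_le_log (by positivity) (by linarith)
    have h6 : (k : ℝ) * 0.69 ≤ Real.log (M + 1) := by nlinarith
    have h7 : (D : ℝ) ≤ 4.1 * 10 ^ 8 * ρ ^ 2 := by nlinarith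
    have h8 : (k : ℝ) * D ≤ k * (4.1 * 10 ^ 8 * ρ ^ 2) :=
      mul_le_mul_of_nonneg_left h7 (by linarith)
    have h9 : (k : ℝ) * 0.69 * ρ ^ 2 ≤ Real.log (M + 1) * ρ ^ 2 :=
      mul_le_mul_of_nonneg_right h6 (by positivity)
    nlinarith

/-- **Determinants of any size in which the coefficient matrix of every variable has rank at
most `r`.** -/
theorem read_main (m r M : ℕ) (hm : 1 ≤ m) (hr : 1 ≤ r) (h : LimSumRead M r (permP m)) :
    (m : ℝ) ≤ 10 ^ 10 * ((r : ℝ) * (1 + Real.log r)) ^ 2 * Real.log (M + 1) := by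
  have hcard : 1 ≤ r * Fintype.card (Fin m × Fin m) := by
    rw [Fintype.card_prod, Fintype.card_fin]
    exact Nat.mul_pos hr (Nat.mul_pos hm hm)
  refine read_num m M (r * m) r (by exact_mod_cast hr) (by push_cast; rfl)
    ((h.limSumDet hcard).le hm).2 fun k D hk hD hkD => ?_
  obtain ⟨c, hc, h1⟩ := h.limSumDet_esf (k := k) (L := 2 * D) (D := D) (by omega) (by
      have : k * (2 * (2 * D) - D) = k * (3 * D) := by congr 1; omega
      omega) (Nat.mul_pos hr (Nat.mul_pos hk (by omega)))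
  refine ⟨c, hc, h1.pad (Nat.mul_le_mul_left _ ?_)⟩
  calc k * (2 * D) ≤ k * (3 * D) := Nat.mul_le_mul_left _ (by omega)
    _ ≤ m := hkD

end Pool.Agent.Work.MP_35c45d_lc.SF
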