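import Pool.Agent.Work.MP_35c45d_lc.SAOne
import Pool.Agent.Work.MP_35c45d_lc.SALim
import Pool.Agent.Work.MP_35c45d_lc.SFMain

/-! # Sums of determinants with heavy and light variables: the inequality -/

set_option autoImplicit false

namespace Pool.Agent.Work.MP_35c45d_lc.SA

open MvPolynomial Filter Topology SD SE SF

section general

variable {ι : Type} {n : ℕ}

theorem UB.mono {k l B B' : ℕ} {G : MvPolynomial (ι ⊕ Fin n) ℂ} (h : UB k l B G)
    (hB : B ≤ B') : UB k l B' G := by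
  obtain ⟨W, h1, h2, h3⟩ := h
  exact ⟨W, h1, h2.trans hB, h3⟩

theorem tendsto_rename {F : ℕ → MvPolynomial ι ℂ} {f : MvPolynomial ι ℂ}
    (h : ∀ d, Tendsto (fun s => coeff d (F s)) atTop (𝓝 (coeff d f))) (d : ι ⊕ Fin n →₀ ℕ) :
    Tendsto (fun s => coeff d (rename (Sum.inl : ι → ι ⊕ Fin n) (F s))) atTop
      (𝓝 (coeff d (rename (Sum.inl : ι → ι ⊕ Fin n) f))) := by
  by_cases hd : ∃ d' : ι →₀ ℕ, d'.mapDomain (Sum.inl : ι → ι ⊕ Fin n) = d
  · obtain ⟨d', rfl⟩ := hd
    simp only [coeff_rename_mapDomain _ Sum.inl_injective]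
    exact h d'
  · have h1 : ∀ p : MvPolynomial ι ℂ, coeff d (rename (Sum.inl : ι → ι ⊕ Fin n) p) = 0 := by
      intro p
      apply coeff_rename_eq_zero
      intro u hu
      exact absurd ⟨u, hu⟩ hd
    simp only [h1]
    exact tendsto_const_nhds

/-- In every summand at most `h` variables are heavy, the ranks of the others add up to at most `n`:
a linearly independent family of shifted derivatives. -/
theorem card_le_heavy [Fintype ι] [DecidableEq ι] {M S h k l : ℕ} {f : MvPolynomial ι ℂ}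
    (N : ℕ → Fin M → ℕ) (A : (j : ℕ) → (t : Fin M) → Matrix (Fin (N j t)) (Fin (N j t)) ℂ)
    (B : (j : ℕ) → (t : Fin M) → ι → Matrix (Fin (N j t)) (Fin (N j t)) ℂ)
    (hS : ∀ j t v, (B j t v).rank ≤ S)
    (hT : ∀ j t, ∃ T : Finset ι, T.card ≤ h ∧ ∑ v ∈ Tᶜ, (B j t v).rank ≤ n)
    (hlim : ∀ d, Tendsto (fun j => coeff d (∑ t, (affM (A j t) (B j t)).det)) atTop
      (𝓝 (coeff d f)))
    {α : Type} [Fintype α] (a : α → Fin k → ι)
    (ν : α → MvPolynomial (ι ⊕ Fin n) ℂ) (hν : ∀ x, (ν x).totalDegree ≤ l)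
    (hli : LinearIndependent ℂ fun x => ν x * dk (a x) (rename Sum.inl f)) :
    Fintype.card α ≤ (M * (S + 1) ^ (2 * h)) * ub (Fintype.card ι) n k l := by
  classical
  choose T hTh hTn using hT
  choose G hG hGdeg hGub using fun j t =>
    ub_summand (n := n) (A j t) (B j t) (T j t) (hS j t) (hTn j t)
  set d0 : ℕ := (S + n + 1) * (Fintype.card ι + n) with hd0
  obtain ⟨T0, hT0⟩ := SQ.exists_expset (ι := ι ⊕ Fin n) d0
  have hex : ∀ j : ℕ, ∃ ε : ℂ, (∀ t, ∀ k l, UB k l ((S + 1) ^ (2 * (T j t).card) *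
      ub (Fintype.card ι) n k l) (G j t ε)) ∧ ∀ d ∈ T0, dist (coeff d (∑ t, G j t ε))
        (coeff d (rename (Sum.inl : ι → ι ⊕ Fin n) (∑ t, (affM (A j t) (B j t)).det))) <
          1 / ((j : ℝ) + 1) := by
    intro j
    have h1 : ∀ᶠ ε in 𝓝[≠] (0 : ℂ), ∀ t, ∀ k l, UB k l ((S + 1) ^ (2 * (T j t).card) *
      ub (Fintype.card ι) n k l) (G j t ε) := eventually_all.2 fun t => hGub j t
    have h2 : ∀ᶠ ε in 𝓝[≠] (0 : ℂ), ∀ d ∈ T0, dist (coeff d (∑ t, G j t ε))
        (coeff d (rename (Sum.inl : ι → ι ⊕ Fin n) (∑ t, (affM (A j t) (B j t)).det))) <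
          1 / ((j : ℝ) + 1) := by
      rw [Filter.eventually_all_finset]
      intro d _
      have h3 : Tendsto (fun ε : ℂ => coeff d (∑ t, G j t ε)) (𝓝 0)
          (𝓝 (coeff d (rename (Sum.inl : ι → ι ⊕ Fin n) (∑ t, (affM (A j t) (B j t)).det)))) := by
        simp only [coeff_sum, map_sum]
        exact tendsto_finsetSum _ fun t _ => hG j t d
      exact ((Metric.tendsto_nhds.mp h3) _ (by positivity)).filter_mono nhdsWithin_le_nhds
    exact (h1.and h2).exists
  choose ε hε1 hε2 using hex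
  have hz : ∀ g : MvPolynomial (ι ⊕ Fin n) ℂ, g.totalDegree ≤ d0 → ∀ d ∉ T0, coeff d g = 0 := by
    intro g hg d hd
    by_contra h
    exact hd (hT0 g hg (mem_support_iff.mpr h))
  have hlim' := fun d => tendsto_rename (n := n) hlim d
  have hlim2 : ∀ d, Tendsto (fun j => coeff d (∑ t, G j t (ε j))) atTop
      (𝓝 (coeff d (rename (Sum.inl : ι → ι ⊕ Fin n) f))) := by
    intro d
    by_cases hd : d ∈ T0
    · have h0 : Tendsto (fun t : ℕ => 1 / ((t : ℝ) + 1)) atTop (𝓝 0) :=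
        tendsto_one_div_add_atTop_nhds_zero_nat
      have h2 : Tendsto (fun j => coeff d (∑ t, G j t (ε j)) - coeff d
          (rename (Sum.inl : ι → ι ⊕ Fin n) (∑ t, (affM (A j t) (B j t)).det))) atTop (𝓝 0) := by
        rw [tendsto_zero_iff_norm_tendsto_zero]
        refine squeeze_zero (fun t => norm_nonneg _) (fun t => ?_) h0
        rw [← dist_eq_norm]
        exact (hε2 t d hd).le
      have h3 := h2.add (hlim' d)
      simpa using h3
    · have h1 : ∀ j t ε', coeff d (G j t ε') = 0 := fun j t ε' => hz _ (hGdeg j t ε') d hd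
      have h2 : ∀ j, coeff d (rename (Sum.inl : ι → ι ⊕ Fin n)
          (∑ t, (affM (A j t) (B j t)).det)) = 0 := by
        intro j
        rw [map_sum, coeff_sum]
        refine Finset.sum_eq_zero fun t _ => ?_
        have h3 := hG j t d
        simp only [h1] at h3
        exact (tendsto_nhds_unique tendsto_const_nhds h3).symm
      have h4 := hlim' d
      simp only [h2] at h4
      rw [← tendsto_nhds_unique tendsto_const_nhds h4]
      simp only [coeff_sum, h1, Finset.sum_const_zero]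
      exact tendsto_const_nhds
  have h5 := lim_card_gen (k := k) (l := l) (d0 := d0)
    (u := (S + 1) ^ (2 * h) * ub (Fintype.card ι) n k l) (fun j t => G j t (ε j))
    (fun j t => hGdeg j t _) hlim2 (fun j t => (hε1 j t k l).mono (Nat.mul_le_mul_right _
      (Nat.pow_le_pow_right (Nat.succ_pos _) (Nat.mul_le_mul_left _ (hTh j t))))) a ν hν hli
  rwa [← mul_assoc] at h5

end general

/-- (5) in every summand at most `h` variables are heavy, the ranks of the others add up to at most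
`n`. -/
theorem lim_ineq_heavy {k L D M S h n l : ℕ} (hD : 2 ≤ D) (hL : D ≤ L) {c : ℂ} (hc : c ≠ 0)
    (N : ℕ → Fin M → ℕ) (A : (j : ℕ) → (t : Fin M) → Matrix (Fin (N j t)) (Fin (N j t)) ℂ)
    (B : (j : ℕ) → (t : Fin M) → Fin k × Fin 1 × Fin L →
      Matrix (Fin (N j t)) (Fin (N j t)) ℂ)
    (hS : ∀ j t v, (B j t v).rank ≤ S)
    (hT : ∀ j t, ∃ T : Finset (Fin k × Fin 1 × Fin L), T.card ≤ h ∧
      ∑ v ∈ Tᶜ, (B j t v).rank ≤ n)
    (hlim : ∀ d, Tendsto (fun j => coeff d (∑ t, (affM (A j t) (B j t)).det)) atTop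
      (𝓝 (coeff d (C c * esf k 1 L D)))) :
    (goodE k 1 L D n l).card ≤ (M * (S + 1) ^ (2 * h)) * ub (k * (1 * L)) n k l := by
  classical
  obtain ⟨b, hb, hli⟩ := indep (k := k) (T := 1) (L := L) (D := D) (n := n) (l := l) hD hL
  have h1 := card_le_heavy (k := k) (l := l) N A B hS hT hlim (α := goodE k 1 L D n l)
    (fun x i => (i, x.1.1 i)) (fun x => b x.1.2) (fun x => ?_) ?_
  · rw [Fintype.card_coe, Fintype.card_prod, Fintype.card_prod, Fintype.card_fin, Fintype.card_fin,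
      Fintype.card_fin] at h1
    exact h1
  · refine (hb _).trans ?_
    exact (mem_mons.1 (Finset.mem_filter.1 (Finset.mem_product.1 x.2).2).1).2
  · have h2 := hli.units_smul (fun _ => Units.mk0 c hc)
    have h3 : (fun x : goodE k 1 L D n l => b x.1.2 * dk (fun i => (i, x.1.1 i))
        (rename Sum.inl (C c * esf k 1 L D))) = (fun x : goodE k 1 L D n l => Units.mk0 c hc •
        (b x.1.2 * dk (fun i => (i, x.1.1 i)) (rename Sum.inl (esf k 1 L D)))) := by
      funext x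
      rw [dk_eq, dk_eq, map_mul, rename_C, ← smul_eq_C_mul, map_smul, mul_smul_comm]
      rfl
    rw [h3]
    exact h2

/-- (6) the numerical form -/
theorem core_heavy {k D M S h n : ℕ} (hk : 1 ≤ k) (hw4 : 10000 ≤ D + 1)
    (hD : 2 * Real.log (2 * ((D + 1 : ℕ) : ℝ)) ≤ (D : ℝ) - 1) {c : ℂ} (hc : c ≠ 0)
    (N : ℕ → Fin M → ℕ) (A : (j : ℕ) → (t : Fin M) → Matrix (Fin (N j t)) (Fin (N j t)) ℂ)
    (B : (j : ℕ) → (t : Fin M) → Fin k × Fin 1 × Fin (2 * D) →
      Matrix (Fin (N j t)) (Fin (N j t)) ℂ)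
    (hS : ∀ j t v, (B j t v).rank ≤ S)
    (hT : ∀ j t, ∃ T : Finset (Fin k × Fin 1 × Fin (2 * D)), T.card ≤ h ∧
      ∑ v ∈ Tᶜ, (B j t v).rank ≤ n)
    (hlim : ∀ d, Tendsto (fun j => coeff d (∑ t, (affM (A j t) (B j t)).det)) atTop
      (𝓝 (coeff d (C c * esf k 1 (2 * D) D))))
    (hn : 50 * n * Real.log (2 * ((D + 1 : ℕ) : ℝ)) ≤ k * ((D : ℝ) - 1) * √((D + 1 : ℕ) : ℝ)) :
    (2 : ℝ) ^ k ≤ M * ((S : ℝ) + 1) ^ (2 * h) := by
  have hw : D + 1 = 1 * (2 * D - (D - 1)) := by omega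
  have hR1 : 1 ≤ k * (1 * (D - 1)) := Nat.mul_pos hk (by omega)
  have hR : k * (1 * (D - 1)) ≤ k * (1 * (2 * D)) := Nat.mul_le_mul_left _ (by omega)
  have hR3 : k * (1 * (2 * D)) ≤ 3 * (k * (1 * (D - 1))) := by
    have h1 : 2 * D ≤ 3 * (D - 1) := by omega
    calc k * (1 * (2 * D)) ≤ k * (3 * (D - 1)) := Nat.mul_le_mul_left _ (by omega)
      _ = 3 * (k * (1 * (D - 1))) := by ring
  have h1 := core_gen2 (n := n) (D := D) (w := D + 1) (M := M * (S + 1) ^ (2 * h)) hk hw4 hR1 hR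
    hR3 hD (fun n' l => (goodE k 1 (2 * D) D n' l).card)
    (fun n' l z hz he => ?_) (fun n' l hnn => ?_) hn
  · push_cast at h1
    exact h1
  · rw [hw] at he ⊢
    exact goodE_card2 k 1 (2 * D) D n' l hk le_rfl (by omega) (by omega) z hz he
  · refine lim_ineq_heavy (by omega) (by omega) hc N A B hS (fun j t => ?_) hlim
    obtain ⟨T, hT1, hT2⟩ := hT j t
    exact ⟨T, hT1, hT2.trans hnn⟩

end Pool.Agent.Work.MP_35c45d_lc.SA
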