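import Mathlib

/-! # Random columns

Sequential choice (conditional expectations) of the columns of a partial permutation such that no
one of `M` given weights is much larger than its average.
-/

set_option autoImplicit false

namespace Pool.Agent.Work.MP_35c45d_lc.SA

/-- the sequential choice -/
theorem greedy {m M : ℕ} {κ : Type} [DecidableEq κ] (b : Fin M → κ → Fin m → ℝ)
    (hb : ∀ t v c, 1 ≤ b t v c) (K : Finset κ) :
    3 * K.card ≤ 2 * m → ∀ C : Fin M → ℝ, (∀ t, 0 ≤ C t) → (0 < m) →
    ∃ φ : κ → Fin m, Set.InjOn φ K ∧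
      ∑ t, C t * ∏ v ∈ K, b t v (φ v) ≤
        ∑ t, C t * ∏ v ∈ K, (1 + 3 / (m : ℝ) * ∑ c, (b t v c - 1)) := by
  classical
  induction K using Finset.induction_on with
  | empty =>
    intro _ C _ hm
    exact ⟨fun _ => ⟨0, hm⟩, by simp, by simp⟩
  | insert v0 K hv0 ih =>
    intro hK C hC hm
    rw [Finset.card_insert_of_notMem hv0] at hK
    have hm0 : (0 : ℝ) < m := by exact_mod_cast hm
    have hs0 : ∀ t v, 0 ≤ ∑ c, (b t v c - 1) := fun t v =>
      Finset.sum_nonneg fun c _ => sub_nonneg.2 (hb t v c)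
    have hg0 : ∀ t v, 0 ≤ 1 + 3 / (m : ℝ) * ∑ c, (b t v c - 1) := fun t v => by
      have := hs0 t v
      positivity
    obtain ⟨φ, hφ, hφs⟩ := ih (by omega) (fun t => C t * (1 + 3 / (m : ℝ) * ∑ c, (b t v0 c - 1)))
      (fun t => mul_nonneg (hC t) (hg0 t v0)) hm
    set D : Fin M → ℝ := fun t => C t * ∏ v ∈ K, b t v (φ v) with hD
    have hD0 : ∀ t, 0 ≤ D t := fun t => mul_nonneg (hC t)
      (Finset.prod_nonneg fun v _ => zero_le_one.trans (hb t v _))
    set F : Finset (Fin m) := (K.image φ)ᶜ with hF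
    have hFc : F.card = m - K.card := by
      rw [hF, Finset.card_compl, Fintype.card_fin, Finset.card_image_of_injOn hφ]
    have hFpos : 0 < F.card := by omega
    have hF3 : (m : ℝ) ≤ 3 * F.card := by
      have : m ≤ 3 * F.card := by omega
      exact_mod_cast this
    have hFr : (0 : ℝ) < F.card := by exact_mod_cast hFpos
    -- averaging
    have havg : ∑ c ∈ F, ∑ t, D t * b t v0 c ≤
        ∑ c ∈ F, ∑ t, D t * (1 + 3 / (m : ℝ) * ∑ c, (b t v0 c - 1)) := by
      rw [Finset.sum_comm, Finset.sum_comm (s := F)]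
      refine Finset.sum_le_sum fun t _ => ?_
      rw [← Finset.mul_sum, ← Finset.mul_sum]
      refine mul_le_mul_of_nonneg_left ?_ (hD0 t)
      rw [Finset.sum_const, nsmul_eq_mul]
      have h1 : ∑ c ∈ F, b t v0 c = F.card + ∑ c ∈ F, (b t v0 c - 1) := by
        rw [Finset.sum_sub_distrib, Finset.sum_const, nsmul_eq_mul, mul_one]
        ring
      have h2 : ∑ c ∈ F, (b t v0 c - 1) ≤ ∑ c, (b t v0 c - 1) :=
        Finset.sum_le_sum_of_subset_of_nonneg (Finset.subset_univ _) fun c _ _ =>
          sub_nonneg.2 (hb t v0 c)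
      have h3 : ∑ c, (b t v0 c - 1) ≤ F.card * (3 / (m : ℝ)) * ∑ c, (b t v0 c - 1) := by
        refine le_mul_of_one_le_left (hs0 t v0) ?_
        rw [← mul_div_assoc, one_le_div hm0]
        linarith
      rw [h1]
      have h4 : (F.card : ℝ) * (1 + 3 / (m : ℝ) * ∑ c, (b t v0 c - 1)) =
          F.card + F.card * (3 / (m : ℝ)) * ∑ c, (b t v0 c - 1) := by ring
      rw [h4]
      linarith
    obtain ⟨c0, hc0, hc0s⟩ := Finset.exists_le_of_sum_le (Finset.card_pos.1 hFpos) havg
    refine ⟨Function.update φ v0 c0, ?_, ?_⟩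
    · intro x hx y hy hxy
      rw [Finset.coe_insert, Set.mem_insert_iff] at hx hy
      have hne : ∀ z ∈ K, φ z ≠ c0 := by
        intro z hz h
        rw [hF, Finset.mem_compl] at hc0
        exact hc0 (h ▸ Finset.mem_image_of_mem φ hz)
      rcases hx with rfl | hx <;> rcases hy with rfl | hy
      · rfl
      · have h1 : y ≠ x := by
          rintro rfl
          exact hv0 hy
        rw [Function.update_self, Function.update_of_ne h1] at hxy
        exact absurd hxy.symm (hne y hy)
      · have h1 : x ≠ y := by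
          rintro rfl
          exact hv0 hx
        rw [Function.update_self, Function.update_of_ne h1] at hxy
        exact absurd hxy (hne x hx)
      · have h1 : x ≠ v0 := by
          rintro rfl
          exact hv0 hx
        have h2 : y ≠ v0 := by
          rintro rfl
          exact hv0 hy
        rw [Function.update_of_ne h1, Function.update_of_ne h2] at hxy
        exact hφ hx hy hxy
    · have h1 : ∀ t, C t * ∏ v ∈ insert v0 K, b t v (Function.update φ v0 c0 v) =
          D t * b t v0 c0 := by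
        intro t
        rw [Finset.prod_insert hv0, Function.update_self]
        have h2 : ∏ v ∈ K, b t v (Function.update φ v0 c0 v) = ∏ v ∈ K, b t v (φ v) := by
          refine Finset.prod_congr rfl fun v hv => ?_
          rw [Function.update_of_ne]
          rintro rfl
          exact hv0 hv
        rw [h2, hD]
        ring
      simp only [h1]
      refine hc0s.trans ?_
      have h3 : ∀ t, D t * (1 + 3 / (m : ℝ) * ∑ c, (b t v0 c - 1)) =
          C t * (1 + 3 / (m : ℝ) * ∑ c, (b t v0 c - 1)) * ∏ v ∈ K, b t v (φ v) := by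
        intro t
        rw [hD]
        ring
      simp only [h3]
      refine hφs.trans (le_of_eq ?_)
      refine Finset.sum_congr rfl fun t _ => ?_
      rw [Finset.prod_insert hv0]
      ring

/-- Random columns: for one permutation `τ` the truncated ranks along the cells
`(i v, τ (j v))` are small in all summands. -/
theorem exists_perm_good {m M s H : ℕ} (hm : 1 ≤ m) (hM : 1 ≤ M) (hH : 1 ≤ H)
    (ρ : Fin M → Fin m × Fin m → ℕ) (hρ : ∀ t, ∑ q, ρ t q ≤ s) {κ : Type} [Fintype κ]
    (i j : κ → Fin m) (hi : Function.Injective i) (hj : Function.Injective j)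
    (hκ : 3 * Fintype.card κ ≤ 2 * m) :
    ∃ τ : Equiv.Perm (Fin m), ∀ t,
      ∑ v, min ((ρ t (i v, τ (j v)) : ℝ) / H) 1 ≤ 6 * s / (m * H) + Real.log (2 * M) := by
  classical
  have hm0 : (0 : ℝ) < m := by exact_mod_cast hm
  have hH0 : (0 : ℝ) < H := by exact_mod_cast hH
  have hM0 : (1 : ℝ) ≤ M := by exact_mod_cast hM
  set a : Fin M → κ → Fin m → ℝ := fun t v c => min ((ρ t (i v, c) : ℝ) / H) 1 with ha
  have ha0 : ∀ t v c, 0 ≤ a t v c := fun t v c => le_min (by positivity) zero_le_one
  have ha1 : ∀ t v c, a t v c ≤ 1 := fun t v c => min_le_right _ _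
  obtain ⟨φ, hφ, hφs⟩ := greedy (fun t v c => Real.exp (a t v c))
    (fun t v c => Real.one_le_exp (ha0 t v c)) (Finset.univ : Finset κ)
    (by rw [Finset.card_univ]; exact hκ) (fun _ => 1) (fun _ => zero_le_one) hm
  -- the bound for the average
  have hb : ∀ t v, 1 + 3 / (m : ℝ) * ∑ c, (Real.exp (a t v c) - 1) ≤
      Real.exp (6 / m * ∑ c, a t v c) := by
    intro t v
    have h1 : ∑ c, (Real.exp (a t v c) - 1) ≤ ∑ c, 2 * a t v c := by
      refine Finset.sum_le_sum fun c _ => ?_
      have h2 := Real.abs_exp_sub_one_le (x := a t v c) (by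
        rw [abs_of_nonneg (ha0 t v c)]
        exact ha1 t v c)
      rw [abs_of_nonneg (ha0 t v c)] at h2
      exact (le_abs_self _).trans h2
    have h3 : 3 / (m : ℝ) * ∑ c, (Real.exp (a t v c) - 1) ≤ 6 / m * ∑ c, a t v c := by
      calc 3 / (m : ℝ) * ∑ c, (Real.exp (a t v c) - 1) ≤ 3 / (m : ℝ) * ∑ c, 2 * a t v c :=
            mul_le_mul_of_nonneg_left h1 (by positivity)
        _ = 6 / m * ∑ c, a t v c := by
            rw [← Finset.mul_sum]
            ring
    have h4 := Real.add_one_le_exp (6 / (m : ℝ) * ∑ c, a t v c)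
    linarith
  have hsum : ∀ t, ∑ v, ∑ c, a t v c ≤ s / H := by
    intro t
    have h1 : ∑ v, ∑ c, a t v c ≤ ∑ v, ∑ c, (ρ t (i v, c) : ℝ) / H :=
      Finset.sum_le_sum fun v _ => Finset.sum_le_sum fun c _ => min_le_left _ _
    refine h1.trans ?_
    simp only [← Finset.sum_div]
    refine div_le_div_of_nonneg_right ?_ hH0.le
    have h2 : ∑ v, ∑ c, ρ t (i v, c) ≤ ∑ q, ρ t q := by
      rw [Fintype.sum_prod_type]
      have h3 : ∑ v, ∑ c, ρ t (i v, c) = ∑ x ∈ Finset.univ.image i, ∑ c, ρ t (x, c) := by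
        rw [Finset.sum_image fun x _ y _ h => hi h]
      rw [h3]
      exact Finset.sum_le_sum_of_subset (Finset.subset_univ _)
    exact_mod_cast h2.trans (hρ t)
  have hprod : ∀ t, ∏ v, (1 + 3 / (m : ℝ) * ∑ c, (Real.exp (a t v c) - 1)) ≤
      Real.exp (6 * s / (m * H)) := by
    intro t
    calc ∏ v, (1 + 3 / (m : ℝ) * ∑ c, (Real.exp (a t v c) - 1))
        ≤ ∏ v, Real.exp (6 / m * ∑ c, a t v c) := by
          refine Finset.prod_le_prod (fun v _ => ?_) fun v _ => hb t v
          have : 0 ≤ ∑ c, (Real.exp (a t v c) - 1) :=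
            Finset.sum_nonneg fun c _ => sub_nonneg.2 (Real.one_le_exp (ha0 t v c))
          positivity
      _ = Real.exp (6 / m * ∑ v, ∑ c, a t v c) := by
          rw [← Real.exp_sum, Finset.mul_sum]
      _ ≤ Real.exp (6 * s / (m * H)) := by
          apply Real.exp_le_exp.2
          calc 6 / (m : ℝ) * ∑ v, ∑ c, a t v c ≤ 6 / m * (s / H) :=
                mul_le_mul_of_nonneg_left (hsum t) (by positivity)
            _ = 6 * s / (m * H) := by
                field_simp
  -- the permutation
  have hφi : Function.Injective φ := fun x y h => hφ (by simp) (by simp) h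
  let e : {x : Fin m // x ∈ Set.range j} ≃ {x : Fin m // x ∈ Set.range φ} :=
    (Equiv.ofInjective j hj).symm.trans (Equiv.ofInjective φ hφi)
  refine ⟨e.extendSubtype, fun t => ?_⟩
  have hτ : ∀ v, e.extendSubtype (j v) = φ v := by
    intro v
    rw [Equiv.extendSubtype_apply_of_mem e (j v) ⟨v, rfl⟩]
    have h1 : (Equiv.ofInjective j hj).symm ⟨j v, ⟨v, rfl⟩⟩ = v :=
      Equiv.ofInjective_symm_apply hj v
    change ((Equiv.ofInjective φ hφi) ((Equiv.ofInjective j hj).symm ⟨j v, ⟨v, rfl⟩⟩) : Fin m) = φ v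
    rw [h1]
    rfl
  simp only [hτ]
  have h1 : Real.exp (∑ v, a t v (φ v)) ≤ M * Real.exp (6 * s / (m * H)) := by
    have h2 : ∑ t, (1 : ℝ) * ∏ v, Real.exp (a t v (φ v)) ≤ M * Real.exp (6 * s / (m * H)) := by
      refine hφs.trans ?_
      calc ∑ t, (1 : ℝ) * ∏ v, (1 + 3 / (m : ℝ) * ∑ c, (Real.exp (a t v c) - 1))
          ≤ ∑ t : Fin M, Real.exp (6 * s / (m * H)) := by
            refine Finset.sum_le_sum fun t _ => ?_
            rw [one_mul]
            exact hprod t
        _ = M * Real.exp (6 * s / (m * H)) := by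
            rw [Finset.sum_const, Finset.card_univ, Fintype.card_fin, nsmul_eq_mul]
    refine le_trans ?_ h2
    rw [Real.exp_sum]
    have h3 := Finset.single_le_sum (f := fun t => (1 : ℝ) * ∏ v, Real.exp (a t v (φ v)))
      (fun t _ => mul_nonneg zero_le_one (Finset.prod_nonneg fun v _ => (Real.exp_pos _).le))
      (Finset.mem_univ t)
    simp only [one_mul] at h3 ⊢
    exact h3
  have h2 : ∑ v, a t v (φ v) ≤ Real.log M + 6 * s / (m * H) := by
    rw [← Real.exp_le_exp, Real.exp_add, Real.exp_log (by linarith)]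
    exact h1
  have h3 : Real.log M ≤ Real.log (2 * M) := Real.log_le_log (by linarith) (by linarith)
  change ∑ v, a t v (φ v) ≤ _
  linarith

end Pool.Agent.Work.MP_35c45d_lc.SA
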