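import Pool.Agent.Work.MP_35c45d_lc.SAUb

/-! # One variable can be evaluated, at the cost of a factor `(S + 1) ^ 2` -/

set_option autoImplicit false

namespace Pool.Agent.Work.MP_35c45d_lc.SA

open MvPolynomial Filter Topology SD

section lag

variable {ι : Type} [DecidableEq ι] {n : ℕ}

/-- derivatives of a product with a power of a variable -/
theorem dk_pow_mul (u : ι) (Q : MvPolynomial (ι ⊕ Fin n) ℂ) (b : ℕ) :
    ∀ {k : ℕ} (a : Fin k → ι), dk a (X (Sum.inl u) ^ b * Q) ∈
      Submodule.span ℂ {P | ∃ b' ≤ b, ∃ k' ≤ k, ∃ a' : Fin k' → ι,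
        P = X (Sum.inl u) ^ b' * dk a' Q}
  | 0, a => by
    apply Submodule.subset_span
    exact ⟨b, le_rfl, 0, le_rfl, a, rfl⟩
  | (k + 1), a => by
    have h := dk_pow_mul u Q b (Fin.tail a)
    change pderiv (Sum.inl (a 0)) (dk (Fin.tail a) (X (Sum.inl u) ^ b * Q)) ∈ _
    refine Submodule.span_induction (p := fun P _ => pderiv (Sum.inl (a 0)) P ∈ _)
      ?_ ?_ ?_ ?_ h
    · rintro P ⟨b', hb', k', hk', a', rfl⟩
      rw [Derivation.leibniz, Derivation.leibniz_pow]
      refine Submodule.add_mem _ ?_ ?_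
      · apply Submodule.subset_span
        refine ⟨b', hb', k' + 1, by omega, Fin.cons (a 0) a', ?_⟩
        rw [smul_eq_mul]
        rfl
      · by_cases hu : a 0 = u
        · rw [hu, pderiv_X_self, smul_eq_mul, smul_eq_mul, mul_one, nsmul_eq_mul]
          have e : dk a' Q * ((b' : MvPolynomial (ι ⊕ Fin n) ℂ) * X (Sum.inl u) ^ (b' - 1)) =
              (b' : ℂ) • (X (Sum.inl u) ^ (b' - 1) * dk a' Q) := by
            rw [smul_eq_C_mul, map_natCast]
            ring
          rw [e]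
          refine Submodule.smul_mem _ _ (Submodule.subset_span ?_)
          exact ⟨b' - 1, by omega, k', by omega, a', rfl⟩
        · rw [pderiv_X_of_ne (fun h => hu (Sum.inl_injective h).symm)]
          simp
    · rw [map_zero]
      exact Submodule.zero_mem _
    · intro P Q _ _ hP hQ
      rw [map_add]
      exact Submodule.add_mem _ hP hQ
    · intro c P _ hP
      rw [Derivation.map_smul]
      exact Submodule.smul_mem _ _ hP

/-- the Lagrange polynomials of the nodes `0, …, S` -/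
noncomputable def lagr (S : ℕ) (ξ : ℕ) : Polynomial ℂ :=
  Lagrange.basis (Finset.range (S + 1)) (fun i : ℕ => (i : ℂ)) ξ

theorem lagr_pow {S e : ℕ} (he : e ≤ S) :
    (Polynomial.X : Polynomial ℂ) ^ e =
      ∑ ξ ∈ Finset.range (S + 1), Polynomial.C ((ξ : ℂ) ^ e) * lagr S ξ := by
  have hinj : Set.InjOn (fun i : ℕ => (i : ℂ)) (Finset.range (S + 1) : Finset ℕ) := by
    intro x _ y _ h
    exact Nat.cast_injective (R := ℂ) h
  have h := Lagrange.eq_interpolate (s := Finset.range (S + 1)) (v := fun i : ℕ => (i : ℂ))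
    (f := (Polynomial.X : Polynomial ℂ) ^ e) hinj (by
      rw [Polynomial.degree_X_pow, Finset.card_range]
      exact_mod_cast Nat.lt_succ_of_le he)
  rw [h, Lagrange.interpolate_apply]
  refine Finset.sum_congr rfl fun ξ _ => ?_
  rw [Polynomial.eval_pow, Polynomial.eval_X]
  rfl

theorem natDegree_lagr_le (S ξ : ℕ) (hξ : ξ ∈ Finset.range (S + 1)) :
    (lagr S ξ).natDegree ≤ S := by
  have hinj : Set.InjOn (fun i : ℕ => (i : ℂ)) (Finset.range (S + 1) : Finset ℕ) := by
    intro x _ y _ h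
    exact Nat.cast_injective (R := ℂ) h
  unfold lagr
  rw [Lagrange.natDegree_basis hinj hξ, Finset.card_range]
  omega

/-- interpolation in one variable -/
theorem eq_lagr (G : MvPolynomial (ι ⊕ Fin n) ℂ) (u : ι) {S : ℕ}
    (hdeg : degreeOf (Sum.inl u) G ≤ S) :
    G = ∑ ξ ∈ Finset.range (S + 1), Polynomial.aeval (X (Sum.inl u)) (lagr S ξ) * ev u ξ G := by
  conv_lhs => rw [G.as_sum]
  have h1 : ∀ ξ : ℂ, ev u ξ G = ∑ d ∈ G.support, ev u ξ (monomial d (coeff d G)) := by
    intro ξ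
    conv_lhs => rw [G.as_sum, map_sum]
  simp only [h1, Finset.mul_sum]
  rw [Finset.sum_comm]
  refine Finset.sum_congr rfl fun d hd => ?_
  have hd1 : d (Sum.inl u) ≤ S := (monomial_le_degreeOf _ hd).trans hdeg
  -- split the monomial
  set e := d (Sum.inl u) with he
  set d' := d.erase (Sum.inl u) with hd'
  have hdd : monomial d (coeff d G) = monomial d' (coeff d G) * X (Sum.inl u) ^ e := by
    rw [X_pow_eq_monomial, monomial_mul, mul_one]
    congr 1
    rw [hd', he, add_comm, Finsupp.single_add_erase]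
  have hev : ∀ ξ : ℂ, ev u ξ (monomial d (coeff d G)) =
      monomial d' (coeff d G) * C (ξ ^ e) := by
    intro ξ
    rw [hdd, map_mul, map_pow]
    have h2 : ev (n := n) u ξ (X (Sum.inl u)) = C ξ := by
      simp [ev]
    rw [h2, ← C_pow]
    congr 1
    rw [ev, aeval_monomial, monomial_eq]
    congr 1
    refine Finsupp.prod_congr fun w hw => ?_
    rw [if_neg]
    rintro rfl
    rw [hd', Finsupp.support_erase] at hw
    exact (Finset.notMem_erase _ _) hw
  simp only [hev]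
  rw [hdd]
  have h3 : (X (Sum.inl u) : MvPolynomial (ι ⊕ Fin n) ℂ) ^ e =
      ∑ ξ ∈ Finset.range (S + 1), C ((ξ : ℂ) ^ e) *
        Polynomial.aeval (X (Sum.inl u) : MvPolynomial (ι ⊕ Fin n) ℂ) (lagr S ξ) := by
    have h4 := congr_arg (Polynomial.aeval (X (Sum.inl u) : MvPolynomial (ι ⊕ Fin n) ℂ))
      (lagr_pow hd1)
    rw [map_pow, Polynomial.aeval_X, map_sum] at h4
    rw [h4]
    refine Finset.sum_congr rfl fun ξ _ => ?_
    rw [map_mul, Polynomial.aeval_C, algebraMap_eq]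
  rw [h3, Finset.mul_sum]
  refine Finset.sum_congr rfl fun ξ _ => ?_
  ring

/-- **one variable can be evaluated** -/
theorem ub_step {k l S B : ℕ} (G : MvPolynomial (ι ⊕ Fin n) ℂ) (u : ι)
    (hdeg : degreeOf (Sum.inl u) G ≤ S) (h : ∀ ξ : ℕ, ξ ≤ S → UB k l B (ev u ξ G)) :
    UB k l ((S + 1) ^ 2 * B) G := by
  classical
  choose W hfd hr hW using h
  -- the spaces `X ^ b * W ξ`
  let e : Fin ((S + 1) ^ 2) ≃ Fin (S + 1) × Fin (S + 1) :=
    (finCongr (by ring)).trans finProdFinEquiv.symm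
  let V' : Fin (S + 1) × Fin (S + 1) → Submodule ℂ (MvPolynomial (ι ⊕ Fin n) ℂ) := fun q =>
    (W q.2 (by have := q.2.isLt; omega)).map
      (LinearMap.mulLeft ℂ (X (Sum.inl u) ^ (q.1 : ℕ)))
  let V : Fin ((S + 1) ^ 2) → Submodule ℂ (MvPolynomial (ι ⊕ Fin n) ℂ) := fun p => V' (e p)
  have hVfd : ∀ p, FiniteDimensional ℂ (V p) := by
    intro p
    have := hfd (e p).2 (by have := (e p).2.isLt; omega)
    exact inferInstanceAs (FiniteDimensional ℂ (Submodule.map _ _))
  have hVr : ∀ p, Module.finrank ℂ (V p) ≤ B := by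
    intro p
    have := hfd (e p).2 (by have := (e p).2.isLt; omega)
    exact (Submodule.finrank_map_le _ _).trans (hr _ _)
  obtain ⟨Y, hY, hYr, hYm⟩ := exists_sum_space V hVfd (u := B) hVr
  refine ⟨Y, hY, hYr, fun k' hk' a μ hμ => ?_⟩
  -- every space is in the sum
  have hVY : ∀ p, ∀ w ∈ V p, w ∈ Y := by
    intro p w hw
    have h1 := hYm (fun q => if q = p then w else 0) (fun q => by
      by_cases hq : q = p
      · subst hq
        simpa using hw
      · simp [hq])
    rw [Finset.sum_ite_eq'] at h1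
    simpa using h1
  have hkey : ∀ (ξ : ℕ) (hξ : ξ ≤ S) (b : ℕ) (_ : b ≤ S) (Q : MvPolynomial (ι ⊕ Fin n) ℂ),
      Q ∈ W ξ hξ → X (Sum.inl u) ^ b * Q ∈ Y := by
    intro ξ hξ b hb Q hQ
    refine hVY (e.symm (⟨b, by omega⟩, ⟨ξ, by omega⟩)) _ ?_
    have hVe : V (e.symm (⟨b, by omega⟩, ⟨ξ, by omega⟩)) = V' (⟨b, by omega⟩, ⟨ξ, by omega⟩) := by
      simp only [V, Equiv.apply_symm_apply]
    rw [hVe]
    exact Submodule.mem_map.2 ⟨Q, hQ, LinearMap.mulLeft_apply _ _ _⟩
  rw [eq_lagr G u hdeg, dk_eq, map_sum, Finset.mul_sum]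
  refine Submodule.sum_mem _ fun ξ hξ => ?_
  have hξ' : ξ ≤ S := by
    rw [Finset.mem_range] at hξ
    omega
  have h5 : Polynomial.aeval (X (Sum.inl u) : MvPolynomial (ι ⊕ Fin n) ℂ) (lagr S ξ) *
      ev u ξ G = ∑ b ∈ Finset.range (S + 1), (lagr S ξ).coeff b •
        (X (Sum.inl u) ^ b * ev u ξ G) := by
    rw [Polynomial.aeval_eq_sum_range' (Nat.lt_succ_of_le (natDegree_lagr_le S ξ hξ)),
      Finset.sum_mul]
    refine Finset.sum_congr rfl fun b _ => ?_
    rw [smul_mul_assoc]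
  rw [h5, map_sum, Finset.mul_sum]
  refine Submodule.sum_mem _ fun b hb => ?_
  have hb' : b ≤ S := by
    rw [Finset.mem_range] at hb
    omega
  rw [map_smul, mul_smul_comm, ← dk_eq]
  refine Submodule.smul_mem _ _ ?_
  refine Submodule.span_induction (p := fun P _ => monomial μ 1 * P ∈ Y) ?_ ?_ ?_ ?_
    (dk_pow_mul u (ev u ξ G) b a)
  · rintro P ⟨b', hb'', k'', hk'', a', rfl⟩
    have e1 : monomial μ (1 : ℂ) * (X (Sum.inl u) ^ b' * dk a' (ev u ξ G)) =
        X (Sum.inl u) ^ b' * (monomial μ 1 * dk a' (ev u ξ G)) := by ring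
    rw [e1]
    exact hkey ξ hξ' b' (hb''.trans hb') _ (hW ξ hξ' k'' (hk''.trans hk') a' μ hμ)
  · rw [mul_zero]
    exact Submodule.zero_mem _
  · intro P Q _ _ hP hQ
    rw [mul_add]
    exact Submodule.add_mem _ hP hQ
  · intro c P _ hP
    rw [mul_smul_comm]
    exact Submodule.smul_mem _ _ hP

end lag

end Pool.Agent.Work.MP_35c45d_lc.SA
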