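import Pool.Agent.Work.MP_35c45d_lc.SFCount

/-! # The refined count and the choice of the parameters -/

set_option autoImplicit false

namespace Pool.Agent.Work.MP_35c45d_lc.SF

open Filter Topology SD SE

/-- refined form of `SE.goodE_card`: here `z` is computed with the variables that are not free. -/
theorem goodE_card2 (k T L D n l : ℕ) (hk : 1 ≤ k) (hT : 1 ≤ T) (hD : 2 ≤ D) (hL : D ≤ L) (z : ℝ)
    (hz : z = ((k * (T * (D - 1)) + n : ℕ) : ℝ) / ((k * (T * (D - 1)) + n + l : ℕ) : ℝ))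
    (h : 2 * ((T * (L - (D - 1)) : ℕ) : ℝ) * (1 - z) ^ (D - 1) ≤ 1) :
    (((T * (L - (D - 1)) : ℕ) : ℝ) / 2) ^ k * ((k * (T * L) + n + l).choose l : ℝ) ≤
      ((goodE k T L D n l).card : ℝ) := by
  have hcs : Fintype.card ((Fin k × Fin T × Fin L) ⊕ Fin n) = k * (T * L) + n := by
    rw [Fintype.card_sum, Fintype.card_prod, Fintype.card_prod, Fintype.card_fin, Fintype.card_fin,
      Fintype.card_fin, Fintype.card_fin]
  have h5 : (Finset.univ.filter fun v : Fin L => D - 1 ≤ (v : ℕ)).card = L - (D - 1) := by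
    have h6 : (Finset.univ.filter fun v : Fin L => D - 1 ≤ (v : ℕ)).card +
        (Finset.univ.filter fun v : Fin L => ¬ (D - 1 ≤ (v : ℕ))).card = L := by
      rw [Finset.card_filter_add_card_filter_not, Finset.card_univ, Fintype.card_fin]
    have h7 : (Finset.univ.filter fun v : Fin L => ¬ (D - 1 ≤ (v : ℕ))).card = D - 1 := by
      have h8 : (Finset.univ.filter fun v : Fin L => ¬ (D - 1 ≤ (v : ℕ))) =
          Finset.univ.filter fun v : Fin L => (v : ℕ) < D - 1 := by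
        refine Finset.filter_congr fun v _ => ?_
        rw [not_le]
      rw [h8, Fin.card_filter_val_lt]
      omega
    omega
  -- the free variables
  set B : Finset ((Fin k × Fin T × Fin L) ⊕ Fin n) :=
    (Finset.univ.filter fun q : Fin k × Fin T × Fin L => D - 1 ≤ (q.2.2 : ℕ)).map
      Function.Embedding.inl with hB
  have hBc : B.card = k * (T * (L - (D - 1))) := by
    rw [hB, Finset.card_map]
    have h4 : (Finset.univ.filter fun q : Fin k × Fin T × Fin L => D - 1 ≤ (q.2.2 : ℕ)) =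
        (Finset.univ : Finset (Fin k)) ×ˢ ((Finset.univ : Finset (Fin T)) ×ˢ
          (Finset.univ.filter fun v : Fin L => D - 1 ≤ (v : ℕ))) := by
      ext q
      simp
    rw [h4, Finset.card_product, Finset.card_product, Finset.card_univ, Finset.card_univ,
      Fintype.card_fin, Fintype.card_fin, h5]
  have hBcc : Bᶜ.card = k * (T * (D - 1)) + n := by
    have h9 := Finset.card_add_card_compl B
    rw [hBc, hcs] at h9
    have h10 : k * (T * L) = k * (T * (L - (D - 1))) + k * (T * (D - 1)) := by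
      rw [← Nat.mul_add, ← Nat.mul_add]
      congr 2
      omega
    omega
  have hN : 0 < Bᶜ.card := by
    rw [hBcc]
    have : 0 < k * (T * (D - 1)) := Nat.mul_pos hk (Nat.mul_pos hT (by omega))
    omega
  have hNr : (0 : ℝ) < (Bᶜ.card : ℝ) := by exact_mod_cast hN
  obtain ⟨s, hs, h1⟩ := SF.exists_good B (D - 1) l k (T * (L - (D - 1))) hBc hN (1 - z) (by
    rw [hz, ← hBcc, Nat.cast_add]
    field_simp
    ring) h
  rw [hcs] at h1
  have h2 : ∀ s : Finset ((Fin k × Fin T × Fin L) ⊕ Fin n →₀ ℕ),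
      (∀ μ ∈ s, μ ∈ mons (Finset.univ : Finset ((Fin k × Fin T × Fin L) ⊕ Fin n)) l ∧
        ∀ q ∈ B, μ q < D - 1) → (s.card : ℝ) ≤
      (((mons (Finset.univ : Finset ((Fin k × Fin T × Fin L) ⊕ Fin n)) l).filter
        fun μ => ∀ q : Fin k × Fin T × Fin L, D - 1 ≤ (q.2.2 : ℕ) →
      μ (Sum.inl q) < D - 1).card : ℝ) := by
    intro s hs
    refine Nat.cast_le.2 (Finset.card_le_card fun μ hμ => ?_)
    rw [Finset.mem_filter]
    refine ⟨(hs μ hμ).1, fun q hq => (hs μ hμ).2 _ ?_⟩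
    rw [hB]
    exact Finset.mem_map.2 ⟨q, by simpa using hq, rfl⟩
  replace h1 := h1.trans (h2 _ hs)
  -- the derivatives
  have h3 : (Finset.univ.filter fun a : Fin k → Fin T × Fin L => ∀ i, D - 1 ≤ ((a i).2 : ℕ)).card =
      (T * (L - (D - 1))) ^ k := by
    have h4 : (Finset.univ.filter fun a : Fin k → Fin T × Fin L => ∀ i, D - 1 ≤ ((a i).2 : ℕ)) =
        Fintype.piFinset fun _ : Fin k => (Finset.univ : Finset (Fin T)) ×ˢ
          (Finset.univ.filter fun v : Fin L => D - 1 ≤ (v : ℕ)) := by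
      ext a
      simp
    rw [h4, Fintype.card_piFinset_const, Finset.card_product, Finset.card_univ, Fintype.card_fin, h5]
  rw [goodE, Finset.card_product, h3]
  push_cast
  rw [div_pow, div_mul_eq_mul_div, mul_div_assoc]
  refine mul_le_mul_of_nonneg_left ?_ (by positivity)
  exact h1

/-- The generic form: `R` variables are not free, `Nv ≤ 3 R`. -/
theorem core_gen2 {k D n M w Nv R : ℕ} (hk : 1 ≤ k) (hw : 10000 ≤ w) (hR1 : 1 ≤ R)
    (hR : R ≤ Nv) (hR3 : Nv ≤ 3 * R)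
    (hD : 2 * Real.log (2 * (w : ℝ)) ≤ (D : ℝ) - 1) (G : ℕ → ℕ → ℕ)
    (hgood : ∀ (n' l : ℕ) (z : ℝ), z = ((R + n' : ℕ) : ℝ) / ((R + n' + l : ℕ) : ℝ) →
      2 * (w : ℝ) * (1 - z) ^ (D - 1) ≤ 1 →
        ((w : ℝ) / 2) ^ k * ((Nv + n' + l).choose l : ℝ) ≤ (G n' l : ℝ))
    (hlim : ∀ n' l, n ≤ n' → G n' l ≤ M * ub Nv n' k l)
    (hn : 50 * n * Real.log (2 * (w : ℝ)) ≤ k * ((D : ℝ) - 1) * √w) :
    (2 : ℝ) ^ k ≤ M := by
  have hk1 : (1 : ℝ) ≤ k := by exact_mod_cast hk
  have hp1 : (10000 : ℝ) ≤ w := by exact_mod_cast hw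
  set L : ℝ := Real.log (2 * (w : ℝ)) with hL
  have hL1 : 1 ≤ L := by
    rw [hL, Real.le_log_iff_exp_le (by linarith)]
    have := Real.exp_one_lt_d9
    linarith
  have hDr : 2 ≤ (D : ℝ) - 1 := by linarith
  have hD3 : 3 ≤ D := by
    have : (3 : ℝ) ≤ D := by linarith
    exact_mod_cast this
  set d : ℝ := (D : ℝ) - 1 with hd
  have hsp : (100 : ℝ) ≤ √w := by
    rw [Real.le_sqrt (by norm_num) (by linarith)]
    linarith
  have hspp : √(w : ℝ) * √w = w := Real.mul_self_sqrt (by linarith)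
  -- the padded size
  set X : ℝ := k * d / L with hX
  have hX2 : 2 ≤ X := by
    rw [hX, le_div_iff₀ (by linarith)]
    nlinarith
  set n' : ℕ := ⌊X * √w / 50⌋₊ with hn'
  have hn'le : (n' : ℝ) ≤ X * √w / 50 := Nat.floor_le (by positivity)
  have hn'lt : X * √w / 50 < n' + 1 := Nat.lt_floor_add_one _
  have hnn' : n ≤ n' := by
    rw [hn']
    apply Nat.le_floor
    rw [hX, le_div_iff₀ (by norm_num), div_mul_eq_mul_div, le_div_iff₀ (by linarith)]
    nlinarith
  -- the shift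
  set N : ℝ := ((R + n' : ℕ) : ℝ) with hN
  have hN1 : 1 ≤ N := by
    rw [hN]
    exact_mod_cast (by omega : 1 ≤ R + n')
  set l : ℕ := ⌊N * d / (2 * L)⌋₊ with hl
  have hlle : (l : ℝ) ≤ N * d / (2 * L) := Nat.floor_le (by positivity)
  have hllt : N * d / (2 * L) < l + 1 := Nat.lt_floor_add_one _
  set z : ℝ := N / ((R + n' + l : ℕ) : ℝ) with hz
  have hNl : ((R + n' + l : ℕ) : ℝ) = N + l := by
    rw [hN, Nat.cast_add (R + n') l]
  have hNlpos : 0 < N + l := by positivity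
  -- `z ≤ 2 L / d`
  have hz1 : z * d ≤ 2 * L := by
    rw [hz, hNl, div_mul_eq_mul_div, div_le_iff₀ hNlpos]
    have h1 : N * d ≤ (l + 1) * (2 * L) := by
      rw [← div_le_iff₀ (by linarith)]
      exact hllt.le
    nlinarith
  -- `z ≥ L / d`
  have hz2 : L ≤ z * d := by
    rw [hz, hNl, div_mul_eq_mul_div, le_div_iff₀ hNlpos]
    have h1 : (l : ℝ) * (2 * L) ≤ N * d := by
      rw [← le_div_iff₀ (by linarith)]
      exact hlle
    nlinarith
  have hz0 : 0 < z := by rw [hz, hNl]; positivity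
  have hz01 : z ≤ 1 := by
    rw [hz, hNl, div_le_one hNlpos]
    have : (0 : ℝ) ≤ l := Nat.cast_nonneg l
    linarith
  -- the good monomials
  have hexp : 2 * (w : ℝ) * (1 - z) ^ (D - 1) ≤ 1 := by
    have h1 : (1 - z) ^ (D - 1) ≤ Real.exp (-L) := by
      have h2 : 1 - z ≤ Real.exp (-z) := by
        have := Real.add_one_le_exp (-z)
        linarith
      calc (1 - z) ^ (D - 1) ≤ (Real.exp (-z)) ^ (D - 1) :=
            pow_le_pow_left₀ (by linarith) h2 _
        _ = Real.exp (-(z * d)) := by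
            rw [← Real.exp_nat_mul, Nat.cast_sub (by omega), Nat.cast_one, ← hd]
            congr 1
            ring
        _ ≤ Real.exp (-L) := Real.exp_le_exp.2 (by linarith)
    have h3 : Real.exp (-L) = (2 * (w : ℝ))⁻¹ := by
      rw [Real.exp_neg, hL, Real.exp_log (by linarith)]
    rw [h3] at h1
    calc 2 * (w : ℝ) * (1 - z) ^ (D - 1) ≤ 2 * (w : ℝ) * (2 * (w : ℝ))⁻¹ :=
          mul_le_mul_of_nonneg_left h1 (by positivity)
      _ = 1 := mul_inv_cancel₀ (by linarith)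
  have hgood' := hgood n' l z (by rw [hz, hN]) hexp
  -- the parameter with all variables
  set z' : ℝ := ((Nv + n' : ℕ) : ℝ) / ((Nv + n' + l : ℕ) : ℝ) with hz'
  have hNvR : N ≤ ((Nv + n' : ℕ) : ℝ) := by
    rw [hN]
    exact_mod_cast (by omega : R + n' ≤ Nv + n')
  have hNv3 : ((Nv + n' : ℕ) : ℝ) ≤ 3 * N := by
    rw [hN]
    exact_mod_cast (by omega : Nv + n' ≤ 3 * (R + n'))
  have hNvl : ((Nv + n' + l : ℕ) : ℝ) = ((Nv + n' : ℕ) : ℝ) + l := by
    rw [Nat.cast_add (Nv + n') l]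
  have hl0 : (0 : ℝ) ≤ l := Nat.cast_nonneg l
  have hzz1 : z ≤ z' := by
    rw [hz, hz', hNl, hNvl, div_le_div_iff₀ hNlpos (by linarith)]
    nlinarith
  have hzz2 : z' ≤ 3 * z := by
    rw [hz, hz', hNl, hNvl, ← mul_div_assoc, div_le_div_iff₀ (by linarith) hNlpos]
    nlinarith
  have hz'0 : 0 < z' := by linarith
  have hz'01 : z' ≤ 1 := by
    rw [hz', hNvl, div_le_one (by linarith)]
    linarith
  -- the upper bound
  have hub := ub_le Nv n' k l hk z' hz' (by
    have h1 : (X * √w / 50 - 1) * z' ≤ n' * z' := mul_le_mul_of_nonneg_right (by linarith) hz'0.le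
    have h2 : X * z * L = k * (z * d) := by
      rw [hX]
      field_simp
    have h3 : (k : ℝ) * L ≤ X * z * L := by
      rw [h2]
      exact mul_le_mul_of_nonneg_left hz2 (by linarith)
    have h4 : (k : ℝ) ≤ X * z := le_of_mul_le_mul_right h3 (by linarith)
    have h4' : X * z ≤ X * z' := mul_le_mul_of_nonneg_left hzz1 (by linarith)
    have h5 : X * z' * 100 ≤ X * z' * √w := mul_le_mul_of_nonneg_left hsp (by positivity)
    nlinarith)
  have hlim' : (G n' l : ℝ) ≤ M * (ub Nv n' k l : ℝ) := by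
    exact_mod_cast hlim n' l hnn'
  set θ : ℝ := 3 * Real.exp 1 * n' * z' / (2 * k) with hθ
  set Ch : ℝ := ((Nv + n' + l).choose l : ℝ) with hCh
  have hChpos : 0 < Ch := by
    rw [hCh]
    exact_mod_cast Nat.choose_pos (by omega)
  have hθ0 : 0 ≤ θ := by rw [hθ]; positivity
  have hθ1 : θ ≤ 9 * Real.exp 1 * √w / 50 := by
    rw [hθ, div_le_iff₀ (by linarith)]
    have h1 : (n' : ℝ) * z' ≤ X * √w / 50 * z' := mul_le_mul_of_nonneg_right hn'le hz'0.le
    have h2 : X * z ≤ 2 * k := by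
      have h3 : X * z * L = k * (z * d) := by
        rw [hX]
        field_simp
      have h4 : X * z * L ≤ 2 * k * L := by
        rw [h3]
        nlinarith
      exact le_of_mul_le_mul_right h4 (by linarith)
    have h2' : X * z' ≤ 6 * k := by
      have := mul_le_mul_of_nonneg_left hzz2 (by linarith : 0 ≤ X)
      linarith
    have h5 : (n' : ℝ) * z' ≤ 6 * k * √w / 50 := by
      have h6 : X * z' * √w ≤ 6 * k * √w := mul_le_mul_of_nonneg_right h2' (Real.sqrt_nonneg _)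
      nlinarith
    have he : 0 < Real.exp 1 := Real.exp_pos 1
    have h7 := mul_le_mul_of_nonneg_left h5 (by positivity : 0 ≤ 3 * Real.exp 1)
    calc 3 * Real.exp 1 * ↑n' * z' = 3 * Real.exp 1 * (↑n' * z') := by ring
      _ ≤ 3 * Real.exp 1 * (6 * k * √w / 50) := h7
      _ = 9 * Real.exp 1 * √w / 50 * (2 * k) := by ring
  have hθ2 : θ ^ 2 ≤ w / 4 := by
    have he : Real.exp 1 < 2.7182818286 := Real.exp_one_lt_d9
    have he0 : 0 < Real.exp 1 := Real.exp_pos 1
    have he2 : Real.exp 1 ^ 2 ≤ 7.7 := by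
      calc Real.exp 1 ^ 2 ≤ 2.7182818286 ^ 2 := pow_le_pow_left₀ he0.le he.le 2
        _ ≤ 7.7 := by norm_num
    calc θ ^ 2 ≤ (9 * Real.exp 1 * √w / 50) ^ 2 := pow_le_pow_left₀ hθ0 hθ1 2
      _ = 81 * Real.exp 1 ^ 2 * (√w * √w) / 2500 := by ring
      _ = 81 * Real.exp 1 ^ 2 * w / 2500 := by rw [hspp]
      _ ≤ 81 * 7.7 * w / 2500 := by gcongr
      _ ≤ w / 4 := by linarith
  have hfin : ((w : ℝ) / 2) ^ k ≤ M * ((w : ℝ) / 4) ^ k := by
    have h1 : ((w : ℝ) / 2) ^ k * Ch ≤ M * (θ ^ (2 * k) * Ch) := by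
      refine hgood'.trans (hlim'.trans ?_)
      exact mul_le_mul_of_nonneg_left hub (Nat.cast_nonneg M)
    have h2 : ((w : ℝ) / 2) ^ k ≤ M * θ ^ (2 * k) := by
      have : ((w : ℝ) / 2) ^ k * Ch ≤ M * θ ^ (2 * k) * Ch := by linarith
      exact le_of_mul_le_mul_right this hChpos
    refine h2.trans (mul_le_mul_of_nonneg_left ?_ (Nat.cast_nonneg M))
    rw [pow_mul]
    exact pow_le_pow_left₀ (by positivity) hθ2 k
  have hppos : (0 : ℝ) < ((w : ℝ) / 4) ^ k := by positivity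
  have h3 : ((w : ℝ) / 2) ^ k = 2 ^ k * ((w : ℝ) / 4) ^ k := by
    rw [← mul_pow]
    congr 1
    ring
  rw [h3] at hfin
  exact le_of_mul_le_mul_right hfin hppos

end Pool.Agent.Work.MP_35c45d_lc.SF
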