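import Pool.Agent.Work.MP_35c45d_lc.SMDefs
import Pool.Agent.Work.MP_35c45d_lc.SEGood
import Pool.Agent.Work.MP_35c45d_lc.SFCore

/-! # Multiples: the number of pairs (derivative, shift), as a product -/

set_option autoImplicit false

namespace Pool.Agent.Work.MP_35c45d_lc.SM

open SD SE

/-- the shifts with small exponents in the free variables -/
def shE (k T L D n l : ℕ) : Finset (Vr k T L n →₀ ℕ) :=
  (mons Finset.univ l).filter fun μ => ∀ q : Fin k × Fin T × Fin L, D - 1 ≤ (q.2.2 : ℕ) →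
      μ (Sum.inl q) < D - 1

theorem card_free (L D : ℕ) (hL : D ≤ L) :
    (Finset.univ.filter fun v : Fin L => D - 1 ≤ (v : ℕ)).card = L - (D - 1) := by
  have h6 : (Finset.univ.filter fun v : Fin L => D - 1 ≤ (v : ℕ)).card +
      (Finset.univ.filter fun v : Fin L => ¬ (D - 1 ≤ (v : ℕ))).card = L := by
    rw [Finset.card_filter_add_card_filter_not, Finset.card_univ, Fintype.card_fin]
  have h7 : (Finset.univ.filter fun v : Fin L => ¬ (D - 1 ≤ (v : ℕ))).card = D - 1 := by
    have h8 : (Finset.univ.filter fun v : Fin L => ¬ (D - 1 ≤ (v : ℕ))) =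
        Finset.univ.filter fun v : Fin L => (v : ℕ) < D - 1 := by
      refine Finset.filter_congr fun v _ => ?_
      rw [not_le]
    rw [h8, Fin.card_filter_val_lt]
    omega
  omega

theorem goodE_card_eq (k T L D n l : ℕ) (hL : D ≤ L) :
    (goodE k T L D n l).card = (T * (L - (D - 1))) ^ k * (shE k T L D n l).card := by
  have h4 : (Finset.univ.filter fun a : Fin k → Fin T × Fin L => ∀ i, D - 1 ≤ ((a i).2 : ℕ)) =
      Fintype.piFinset fun _ : Fin k => (Finset.univ : Finset (Fin T)) ×ˢ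
        (Finset.univ.filter fun v : Fin L => D - 1 ≤ (v : ℕ)) := by
    ext a
    simp
  rw [goodE, Finset.card_product, h4, Fintype.card_piFinset_const, Finset.card_product,
    Finset.card_univ, Fintype.card_fin, card_free L D hL]
  rfl

/-- the number of pairs -/
theorem goodM_card_eq (k T L D n l : ℕ) (hT : 1 ≤ T) (hD : 1 ≤ D) (hL : D ≤ L) :
    (goodM k T L D n l).card = (T * (L - (D - 1)) - 1) ^ k * (shE k T L D n l).card := by
  classical
  have h1 : goodM k T L D n l = (Fintype.piFinset fun _ : Fin k =>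
      ((Finset.univ : Finset (Fin T)) ×ˢ
        (Finset.univ.filter fun v : Fin L => D - 1 ≤ (v : ℕ))).erase
        (⟨0, hT⟩, ⟨D - 1, by omega⟩)) ×ˢ shE k T L D n l := by
    ext ⟨a, μ⟩
    rw [goodM, Finset.mem_filter, goodE, Finset.mem_product, Finset.mem_filter, Finset.mem_product,
      Fintype.mem_piFinset]
    have h2 : ∀ c : Fin T × Fin L, Spec D c ↔ c = (⟨0, hT⟩, ⟨D - 1, by omega⟩) := by
      intro c
      rw [Spec, Prod.ext_iff, Fin.ext_iff, Fin.ext_iff]
    simp only [Finset.mem_univ, true_and, Finset.mem_erase, Finset.mem_product,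
      Finset.mem_filter, h2, ne_eq]
    rw [shE, Finset.mem_filter]
    constructor
    · rintro ⟨⟨h3, h4⟩, h5⟩
      exact ⟨fun i => ⟨h5 i, h3 i⟩, h4⟩
    · rintro ⟨h3, h4⟩
      exact ⟨⟨fun i => (h3 i).2, h4⟩, fun i => (h3 i).1⟩
  rw [h1, Finset.card_product, Fintype.card_piFinset_const, Finset.card_erase_of_mem,
    Finset.card_product, Finset.card_univ, Fintype.card_fin, card_free L D hL]
  rw [Finset.mem_product, Finset.mem_filter]
  exact ⟨Finset.mem_univ _, Finset.mem_univ _, le_rfl⟩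

/-- (M6a) compare `SE.goodE_card` -/
theorem goodM_card (k T L D n l : ℕ) (hk : 1 ≤ k) (hT : 1 ≤ T) (hD : 1 ≤ D) (hL : D ≤ L) (z : ℝ)
    (hz : z = ((k * (T * L) + n : ℕ) : ℝ) / ((k * (T * L) + n + l : ℕ) : ℝ))
    (h : 2 * ((k * (T * L) : ℕ) : ℝ) * (1 - z) ^ (D - 1) ≤ 1) :
    ((T * (L - (D - 1)) - 1 : ℕ) : ℝ) ^ k / 2 * ((k * (T * L) + n + l).choose l : ℝ) ≤
      ((goodM k T L D n l).card : ℝ) := by
  have h1 := goodE_card k T L D n l hk hT hL (by omega) z hz h
  have hw : 0 < T * (L - (D - 1)) := Nat.mul_pos hT (by omega)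
  rw [goodE_card_eq k T L D n l hL] at h1
  rw [goodM_card_eq k T L D n l hT hD hL]
  generalize T * (L - (D - 1)) = w at *
  rw [Nat.cast_mul, Nat.cast_pow, div_mul_eq_mul_div, mul_div_assoc] at h1
  rw [Nat.cast_mul, Nat.cast_pow, div_mul_eq_mul_div, mul_div_assoc]
  have hw' : (0 : ℝ) < (w : ℝ) ^ k := by
    have : (0 : ℝ) < (w : ℝ) := by exact_mod_cast hw
    positivity
  exact mul_le_mul_of_nonneg_left (le_of_mul_le_mul_left h1 hw') (by positivity)

/-- (M6b) the refined count: `z` is computed with the variables that are not free; compare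
`SF.goodE_card2` -/
theorem goodM_card1 (k T L D n l : ℕ) (hk : 1 ≤ k) (hT : 1 ≤ T) (hD : 2 ≤ D) (hL : D ≤ L) (z : ℝ)
    (hz : z = ((k * (T * (D - 1)) + n : ℕ) : ℝ) / ((k * (T * (D - 1)) + n + l : ℕ) : ℝ))
    (h : 2 * ((T * (L - (D - 1)) : ℕ) : ℝ) * (1 - z) ^ (D - 1) ≤ 1) :
    (((T * (L - (D - 1)) - 1 : ℕ) : ℝ) / 2) ^ k * ((k * (T * L) + n + l).choose l : ℝ) ≤
      ((goodM k T L D n l).card : ℝ) := by
  have h1 := SF.goodE_card2 k T L D n l hk hT hD hL z hz h
  have hw : 0 < T * (L - (D - 1)) := Nat.mul_pos hT (by omega)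
  rw [goodE_card_eq k T L D n l hL] at h1
  rw [goodM_card_eq k T L D n l hT (by omega) hL]
  generalize T * (L - (D - 1)) = w at *
  rw [Nat.cast_mul, Nat.cast_pow, div_pow, div_mul_eq_mul_div, mul_div_assoc] at h1
  rw [Nat.cast_mul, Nat.cast_pow, div_pow, div_mul_eq_mul_div, mul_div_assoc]
  have hw' : (0 : ℝ) < (w : ℝ) ^ k := by
    have : (0 : ℝ) < (w : ℝ) := by exact_mod_cast hw
    positivity
  exact mul_le_mul_of_nonneg_left (le_of_mul_le_mul_left h1 hw') (by positivity)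

end Pool.Agent.Work.MP_35c45d_lc.SM
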