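import Pool.Agent.Work.MP_35c45d_lc.SGUb

/-! # Multiples: the choice of the parameters

As `SG.core_gen`, with `Nv` variables of which at least `Nb` are not free, `w` in the logarithms and
`v` as base. `G n' l` is a number of linearly independent shifted derivatives of order `k` with shifts
of degree at most `l`. -/

set_option autoImplicit false

namespace Pool.Agent.Work.MP_35c45d_lc.SM

open Filter Topology SD SG

theorem core_gen {k D δ n M w v Nv Nb : ℕ} (hk : 1 ≤ k) (hδ : 1 ≤ δ) (hv : 400 ≤ v) (hvw : v ≤ w)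
    (hNb : Nb < Nv) (hNb1 : 1 ≤ Nb) (hNv : 10 * Nv ≤ 21 * Nb)
    (hD : 10 * δ * Real.log (2 * (w : ℝ)) ≤ (D : ℝ) - 1) (G : ℕ → ℕ → ℕ)
    (hgood : ∀ (n' l : ℕ) (z : ℝ), z = ((Nb + n' : ℕ) : ℝ) / ((Nb + n' + l : ℕ) : ℝ) →
      2 * (w : ℝ) * (1 - z) ^ (D - 1) ≤ 1 →
        ((v : ℝ) / 2) ^ k * ((Nv + n' + l).choose l : ℝ) ≤ (G n' l : ℝ))
    (hlim : ∀ n' l, n ≤ n' → G n' l ≤ M * ubD δ Nv n' k (l + k * (δ - 1)))
    (hn : 22 * n * δ * Real.log (2 * (w : ℝ)) ≤ k * ((D : ℝ) - 1) * √v) :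
    (2 : ℝ) ^ k ≤ M := by
  have hk1 : (1 : ℝ) ≤ k := by exact_mod_cast hk
  have hδ1 : (1 : ℝ) ≤ δ := by exact_mod_cast hδ
  have hv1 : (400 : ℝ) ≤ v := by exact_mod_cast hv
  have hvw1 : (v : ℝ) ≤ w := by exact_mod_cast hvw
  have hw1 : (400 : ℝ) ≤ w := hv1.trans hvw1
  have hNb2 : (Nb : ℝ) + 1 ≤ Nv := by exact_mod_cast hNb
  have hNv1 : 10 * (Nv : ℝ) ≤ 21 * Nb := by exact_mod_cast hNv
  set L : ℝ := Real.log (2 * (w : ℝ)) with hL
  have hL1 : 1 ≤ L := by
    rw [hL, Real.le_log_iff_exp_le (by linarith)]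
    have := Real.exp_one_lt_d9
    linarith
  have hL0 : 0 < L := by linarith
  set d : ℝ := (D : ℝ) - 1 with hd
  have hδL : L ≤ δ * L := le_mul_of_one_le_left hL0.le hδ1
  have hd10 : 10 * L ≤ d := by linarith
  have hd1 : 10 ≤ d := by linarith
  have hD2 : 2 ≤ D := by
    have : (2 : ℝ) ≤ D := by linarith
    exact_mod_cast this
  have hsw : (20 : ℝ) ≤ √v := by
    rw [Real.le_sqrt (by norm_num) (by linarith)]
    linarith
  have hsww : √(v : ℝ) * √v = v := Real.mul_self_sqrt (by linarith)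
  -- the padded size
  set X : ℝ := k * d / L with hX
  have hXL : X * L = k * d := by
    rw [hX]
    field_simp
  have hX0 : 0 < X := by rw [hX]; positivity
  set n' : ℕ := ⌊X * √v / (22 * δ)⌋₊ with hn'
  have hn'le : (n' : ℝ) ≤ X * √v / (22 * δ) := Nat.floor_le (by positivity)
  have hn'lt : X * √v / (22 * δ) < n' + 1 := Nat.lt_floor_add_one _
  have hnn' : n ≤ n' := by
    rw [hn']
    apply Nat.le_floor
    rw [le_div_iff₀ (by positivity), hX, div_mul_eq_mul_div, le_div_iff₀ hL0]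
    calc (n : ℝ) * (22 * δ) * L = 22 * n * δ * L := by ring
      _ ≤ _ := hn
  have hNb0 : (1 : ℝ) ≤ Nb := by exact_mod_cast hNb1
  -- the two numbers of variables
  set N₂ : ℝ := ((Nb + n' : ℕ) : ℝ) with hN₂
  set N₁ : ℝ := ((Nv + n' : ℕ) : ℝ) with hN₁
  have hn'0 : (0 : ℝ) ≤ n' := Nat.cast_nonneg _
  have hN₂1 : 1 ≤ N₂ := by
    rw [hN₂]
    push_cast
    linarith
  have hN₁₂' : N₂ + 1 ≤ N₁ := by
    rw [hN₁, hN₂]
    push_cast
    linarith
  have hN₁₂ : N₂ ≤ N₁ := by linarith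
  have hN₁le : N₁ ≤ 21 / 10 * N₂ := by
    rw [hN₁, hN₂]
    push_cast
    linarith
  -- the shift
  set l : ℕ := ⌊N₂ * (d / L - 1)⌋₊ with hl
  have hdL : 10 ≤ d / L := by
    rw [le_div_iff₀ hL0]
    exact hd10
  have hlle : (l : ℝ) ≤ N₂ * (d / L - 1) := Nat.floor_le (mul_nonneg (by linarith) (by linarith))
  have hllt : N₂ * (d / L - 1) < l + 1 := Nat.lt_floor_add_one _
  have hl1 : 1 ≤ l := by
    rw [hl]
    apply Nat.le_floor
    push_cast
    exact one_le_mul_of_one_le_of_one_le hN₂1 (by linarith)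
  have hl0 : (1 : ℝ) ≤ l := by exact_mod_cast hl1
  have hlL : (l : ℝ) * L ≤ N₂ * (d - L) := by
    have h1 := mul_le_mul_of_nonneg_right hlle hL0.le
    have h2 : N₂ * (d / L - 1) * L = N₂ * (d - L) := by
      field_simp
    linarith
  have hlL2 : N₂ * d < L * (l + 1 + N₂) := by
    have h1 := mul_lt_mul_of_pos_right hllt hL0
    have h2 : N₂ * (d / L - 1) * L = N₂ * (d - L) := by
      field_simp
    linarith
  -- the ratio without the free variables
  set z₂ : ℝ := N₂ / ((Nb + n' + l : ℕ) : ℝ) with hz₂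
  have hNl₂ : ((Nb + n' + l : ℕ) : ℝ) = N₂ + l := by
    rw [hN₂, Nat.cast_add (Nb + n') l]
  have hN₂l : 0 < N₂ + l := by positivity
  have hz₂d : L ≤ z₂ * d := by
    rw [hz₂, hNl₂, div_mul_eq_mul_div, le_div_iff₀ hN₂l]
    linarith
  have hz₂1 : z₂ ≤ 1 := by
    rw [hz₂, hNl₂, div_le_one hN₂l]
    linarith
  have hexp : 2 * (w : ℝ) * (1 - z₂) ^ (D - 1) ≤ 1 := by
    have h1 : (1 - z₂) ^ (D - 1) ≤ Real.exp (-L) := by
      have h2 : 1 - z₂ ≤ Real.exp (-z₂) := by
        have := Real.add_one_le_exp (-z₂)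
        linarith
      calc (1 - z₂) ^ (D - 1) ≤ (Real.exp (-z₂)) ^ (D - 1) :=
            pow_le_pow_left₀ (by linarith) h2 _
        _ = Real.exp (-(z₂ * d)) := by
            rw [← Real.exp_nat_mul, Nat.cast_sub (by omega), Nat.cast_one, ← hd]
            congr 1
            ring
        _ ≤ Real.exp (-L) := Real.exp_le_exp.2 (by linarith)
    have h3 : Real.exp (-L) = (2 * (w : ℝ))⁻¹ := by
      rw [Real.exp_neg, hL, Real.exp_log (by linarith)]
    rw [h3] at h1
    calc 2 * (w : ℝ) * (1 - z₂) ^ (D - 1) ≤ 2 * (w : ℝ) * (2 * (w : ℝ))⁻¹ :=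
          mul_le_mul_of_nonneg_left h1 (by positivity)
      _ = 1 := mul_inv_cancel₀ (by linarith)
  have hgood' := hgood n' l z₂ (by rw [hz₂, hN₂]) hexp
  -- the ratio with all variables
  set z : ℝ := N₁ / (N₁ + l) with hz
  have hN₁0 : 0 < N₁ := by linarith
  have hN₁l : 0 < N₁ + l := by positivity
  have hz0 : 0 < z := by rw [hz]; positivity
  have hz1 : z * d ≤ 21 / 10 * L := by
    rw [hz, div_mul_eq_mul_div, div_le_iff₀ hN₁l]
    have h1 : N₂ * d ≤ L * (N₁ + l) := by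
      refine hlL2.le.trans ?_
      refine mul_le_mul_of_nonneg_left ?_ hL0.le
      linarith
    have h2 : N₁ * d ≤ 21 / 10 * N₂ * d := mul_le_mul_of_nonneg_right hN₁le (by linarith)
    linarith
  have hz2 : L ≤ z * d := by
    rw [hz, div_mul_eq_mul_div, le_div_iff₀ hN₁l]
    have h1 : N₂ * (d - L) ≤ N₁ * (d - L) := by
      exact mul_le_mul_of_nonneg_right hN₁₂ (by linarith)
    linarith
  have hzδ : z * δ ≤ 21 / 100 := by
    have h1 : z * (10 * δ * L) ≤ z * d := mul_le_mul_of_nonneg_left hD hz0.le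
    have h2 : (z * δ) * L ≤ 21 / 100 * L := by linarith
    exact le_of_mul_le_mul_right h2 hL0
  -- the change of the degree
  set t : ℕ := k * (δ - 1) with ht
  have hup : ((Nv + n' + (l + t)).choose (l + t) : ℝ) ≤
      (100 / 79) ^ k * ((Nv + n' + l).choose l : ℝ) := by
    have h1 := choose_up (Nv + n') l t hl1
    refine h1.trans (mul_le_mul_of_nonneg_right ?_ (by positivity))
    rw [← hN₁, ht, mul_comm k, pow_mul]
    refine pow_le_pow_left₀ (by positivity) ?_ k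
    have h2 : (N₁ + l) / l = (1 - z)⁻¹ := by
      have h21 : 1 - z = l / (N₁ + l) := by
        rw [hz, eq_div_iff hN₁l.ne', sub_mul, one_mul, div_mul_cancel₀ _ hN₁l.ne']
        ring
      rw [h21, inv_div]
    have h3 : (79 : ℝ) / 100 ≤ (1 - z) ^ (δ - 1) := by
      have h4 := one_add_mul_le_pow (a := -z) (by
        have : z ≤ z * δ := le_mul_of_one_le_right hz0.le hδ1
        linarith) (δ - 1)
      have h5 : ((δ - 1 : ℕ) : ℝ) * z ≤ 21 / 100 := by
        rw [Nat.cast_sub hδ, Nat.cast_one]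
        linarith
      have h6 : 1 + -z = 1 - z := by ring
      rw [h6] at h4
      linarith
    rw [h2, inv_pow]
    rw [inv_le_comm₀ (by linarith) (by norm_num)]
    norm_num
    linarith
  -- the upper bound
  have hzL : ((Nv + n' : ℕ) : ℝ) / ((Nv + n' + (l + t) : ℕ) : ℝ) ≤ z := by
    rw [hz, ← hN₁]
    refine div_le_div_of_nonneg_left hN₁0.le hN₁l ?_
    rw [Nat.cast_add (Nv + n') (l + t), ← hN₁]
    push_cast
    have : (0 : ℝ) ≤ t := Nat.cast_nonneg _
    linarith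
  have hXz1 : X * z ≤ 21 / 10 * k := by
    have h1 : X * z * L = k * (z * d) := by
      calc X * z * L = X * L * z := by ring
        _ = k * d * z := by rw [hXL]
        _ = k * (z * d) := by ring
    have h2 : X * z * L ≤ 21 / 10 * k * L := by
      rw [h1]
      have := mul_le_mul_of_nonneg_left hz1 (by linarith : (0 : ℝ) ≤ k)
      linarith
    exact le_of_mul_le_mul_right h2 hL0
  have hXz2 : k ≤ X * z := by
    have h1 : X * z * L = k * (z * d) := by
      calc X * z * L = X * L * z := by ring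
        _ = k * d * z := by rw [hXL]
        _ = k * (z * d) := by ring
    have h2 : (k : ℝ) * L ≤ X * z * L := by
      rw [h1]
      exact mul_le_mul_of_nonneg_left hz2 (by linarith)
    exact le_of_mul_le_mul_right h2 hL0
  have hub := ubD_le δ (Nv) n' k (l + t) hk z hzL (by
    have h1 : X * √v / 22 ≤ n' * δ + δ := by
      have h2 : X * √v / (22 * δ) * δ ≤ (n' + 1) * δ :=
        mul_le_mul_of_nonneg_right hn'lt.le (by linarith)
      have h3 : X * √v / (22 * δ) * δ = X * √v / 22 := by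
        have : (δ : ℝ) ≠ 0 := by linarith
        field_simp
      linarith
    have h4 : X * √v / 22 * z ≤ (n' * δ + δ) * z := mul_le_mul_of_nonneg_right h1 hz0.le
    have h5 : X * z * 20 ≤ X * z * √v := mul_le_mul_of_nonneg_left hsw (by positivity)
    linarith)
  set θ : ℝ := 3 * Real.exp 1 * n' * (δ * z) / (2 * k) with hθ
  set Ch : ℝ := ((Nv + n' + l).choose l : ℝ) with hCh
  have hChpos : 0 < Ch := by
    rw [hCh]
    exact_mod_cast Nat.choose_pos (by omega)
  have hθ0 : 0 ≤ θ := by rw [hθ]; positivity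
  have hθ1 : θ ≤ 63 / 440 * (Real.exp 1 * √v) := by
    rw [hθ, div_le_iff₀ (by linarith)]
    have h1 : (n' : ℝ) * δ ≤ X * √v / 22 := by
      have h2 : (n' : ℝ) * δ ≤ X * √v / (22 * δ) * δ :=
        mul_le_mul_of_nonneg_right hn'le (by linarith)
      have h3 : X * √v / (22 * δ) * δ = X * √v / 22 := by
        have : (δ : ℝ) ≠ 0 := by linarith
        field_simp
      linarith
    have h4 : (n' : ℝ) * δ * z ≤ X * √v / 22 * z := mul_le_mul_of_nonneg_right h1 hz0.le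
    have h5 : X * z * √v ≤ 21 / 10 * k * √v :=
      mul_le_mul_of_nonneg_right hXz1 (Real.sqrt_nonneg _)
    have h6 : (n' : ℝ) * δ * z ≤ 21 / 220 * (k * √v) := by linarith
    have he : 0 < Real.exp 1 := Real.exp_pos 1
    have h7 := mul_le_mul_of_nonneg_left h6 (by positivity : 0 ≤ 3 * Real.exp 1)
    calc 3 * Real.exp 1 * ↑n' * (↑δ * z) = 3 * Real.exp 1 * (↑n' * ↑δ * z) := by ring
      _ ≤ 3 * Real.exp 1 * (21 / 220 * (k * √v)) := h7
      _ = 63 / 440 * (Real.exp 1 * √v) * (2 * k) := by ring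
  have hθ2 : θ ^ 2 * (100 / 79) ≤ v / 4 := by
    have he : Real.exp 1 < 2.7182818286 := Real.exp_one_lt_d9
    have he0 : 0 < Real.exp 1 := Real.exp_pos 1
    have he2 : Real.exp 1 ^ 2 ≤ 7.4 := by
      calc Real.exp 1 ^ 2 ≤ 2.7182818286 ^ 2 := pow_le_pow_left₀ he0.le he.le 2
        _ ≤ 7.4 := by norm_num
    have h1 : θ ^ 2 ≤ (63 / 440) ^ 2 * 7.4 * v := by
      calc θ ^ 2 ≤ (63 / 440 * (Real.exp 1 * √v)) ^ 2 := pow_le_pow_left₀ hθ0 hθ1 2
        _ = (63 / 440) ^ 2 * Real.exp 1 ^ 2 * (√v * √v) := by ring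
        _ = (63 / 440) ^ 2 * Real.exp 1 ^ 2 * v := by rw [hsww]
        _ ≤ (63 / 440) ^ 2 * 7.4 * v := by gcongr
    have h2 : ((63 : ℝ) / 440) ^ 2 * 7.4 * (100 / 79) ≤ 1 / 4 := by norm_num
    calc θ ^ 2 * (100 / 79) ≤ (63 / 440) ^ 2 * 7.4 * v * (100 / 79) :=
          mul_le_mul_of_nonneg_right h1 (by norm_num)
      _ = (63 / 440) ^ 2 * 7.4 * (100 / 79) * v := by ring
      _ ≤ 1 / 4 * v := mul_le_mul_of_nonneg_right h2 (by linarith)
      _ = v / 4 := by ring
  have hlim' : (G n' l : ℝ) ≤ M * (ubD δ (Nv) n' k (l + t) : ℝ) := by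
    exact_mod_cast hlim n' l hnn'
  have hfin : ((v : ℝ) / 2) ^ k ≤ M * ((v : ℝ) / 4) ^ k := by
    have h1 : ((v : ℝ) / 2) ^ k * Ch ≤ M * (θ ^ (2 * k) * ((100 / 79) ^ k * Ch)) := by
      refine hgood'.trans (hlim'.trans ?_)
      refine mul_le_mul_of_nonneg_left (hub.trans ?_) (Nat.cast_nonneg M)
      exact mul_le_mul_of_nonneg_left hup (by positivity)
    have h2 : ((v : ℝ) / 2) ^ k ≤ M * (θ ^ (2 * k) * (100 / 79) ^ k) := by
      have : ((v : ℝ) / 2) ^ k * Ch ≤ M * (θ ^ (2 * k) * (100 / 79) ^ k) * Ch := by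
        calc ((v : ℝ) / 2) ^ k * Ch ≤ M * (θ ^ (2 * k) * ((100 / 79) ^ k * Ch)) := h1
          _ = _ := by ring
      exact le_of_mul_le_mul_right this hChpos
    refine h2.trans (mul_le_mul_of_nonneg_left ?_ (Nat.cast_nonneg M))
    rw [pow_mul, ← mul_pow]
    exact pow_le_pow_left₀ (by positivity) hθ2 k
  have h4pos : (0 : ℝ) < ((v : ℝ) / 4) ^ k := by positivity
  have h5 : (2 : ℝ) ^ k * ((v : ℝ) / 4) ^ k ≤ M * ((v : ℝ) / 4) ^ k := by
    rw [← mul_pow]
    have h6 : (2 : ℝ) * (v / 4) = v / 2 := by ring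
    rw [h6]
    exact hfin
  exact le_of_mul_le_mul_right h5 h4pos

end Pool.Agent.Work.MP_35c45d_lc.SM
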