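import Pool.Agent.Work.MP_35c45d_lc.SAIneq
import Pool.Agent.Work.MP_35c45d_lc.SMIndep
import Pool.Agent.Work.MP_35c45d_lc.SMCardA
import Pool.Agent.Work.MP_35c45d_lc.SMCore

/-! # Multiples; sums of determinants with heavy and light variables -/

set_option autoImplicit false

namespace Pool.Agent.Work.MP_35c45d_lc.SA

open MvPolynomial Filter Topology SD SE SF SM

/-- compare `lim_ineq_heavy` -/
theorem lim_ineq_heavyM {k L D M S h n l : ℕ} (hD : 2 ≤ D) (hL : D < L)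
    {g : MvPolynomial (Fin k × Fin 1 × Fin L) ℂ} (hg : g ≠ 0)
    (N : ℕ → Fin M → ℕ) (A : (j : ℕ) → (t : Fin M) → Matrix (Fin (N j t)) (Fin (N j t)) ℂ)
    (B : (j : ℕ) → (t : Fin M) → Fin k × Fin 1 × Fin L →
      Matrix (Fin (N j t)) (Fin (N j t)) ℂ)
    (hS : ∀ j t v, (B j t v).rank ≤ S)
    (hT : ∀ j t, ∃ T : Finset (Fin k × Fin 1 × Fin L), T.card ≤ h ∧
      ∑ v ∈ Tᶜ, (B j t v).rank ≤ n)
    (hlim : ∀ d, Tendsto (fun j => coeff d (∑ t, (affM (A j t) (B j t)).det)) atTop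
      (𝓝 (coeff d (g * esf k 1 L D)))) :
    (goodM k 1 L D n l).card ≤ (M * (S + 1) ^ (2 * h)) * ub (k * (1 * L)) n k l := by
  classical
  have hg' : (rename Sum.inl g : MvPolynomial (Vr k 1 L n) ℂ) ≠ 0 := by
    intro h0
    apply hg
    apply rename_injective (Sum.inl : Fin k × Fin 1 × Fin L → Vr k 1 L n) Sum.inl_injective
    rw [h0, map_zero]
  obtain ⟨b, hb, hli⟩ := indepM (k := k) (T := 1) (L := L) (D := D) (n := n) (l := l) le_rfl hD hL
    (rename Sum.inl g) hg'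
  have h1 := card_le_heavy (k := k) (l := l) N A B hS hT hlim (α := goodM k 1 L D n l)
    (fun x i => (i, x.1.1 i)) (fun x => b x.1.2) (fun x => ?_) ?_
  · rw [Fintype.card_coe, Fintype.card_prod, Fintype.card_prod, Fintype.card_fin, Fintype.card_fin,
      Fintype.card_fin] at h1
    exact h1
  · refine (hb _).trans ?_
    have h2 := (Finset.mem_filter.1 x.2).1
    exact (mem_mons.1 (Finset.mem_filter.1 (Finset.mem_product.1 h2).2).1).2
  · simp only [map_mul]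
    exact hli

theorem ubD_one (N n k l : ℕ) : SG.ubD 1 N n k l = ub N n k l := by
  unfold SG.ubD ub
  refine Finset.sum_congr rfl fun p _ => ?_
  rw [one_pow, one_mul]

/-- compare `core_heavy` -/
theorem core_heavyM {k D M S h n : ℕ} (hk : 1 ≤ k) (hw4 : 10000 ≤ D + 1)
    {g : MvPolynomial (Fin k × Fin 1 × Fin (2 * D)) ℂ} (hg : g ≠ 0)
    (N : ℕ → Fin M → ℕ) (A : (j : ℕ) → (t : Fin M) → Matrix (Fin (N j t)) (Fin (N j t)) ℂ)
    (B : (j : ℕ) → (t : Fin M) → Fin k × Fin 1 × Fin (2 * D) →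
      Matrix (Fin (N j t)) (Fin (N j t)) ℂ)
    (hS : ∀ j t v, (B j t v).rank ≤ S)
    (hT : ∀ j t, ∃ T : Finset (Fin k × Fin 1 × Fin (2 * D)), T.card ≤ h ∧
      ∑ v ∈ Tᶜ, (B j t v).rank ≤ n)
    (hlim : ∀ d, Tendsto (fun j => coeff d (∑ t, (affM (A j t) (B j t)).det)) atTop
      (𝓝 (coeff d (g * esf k 1 (2 * D) D))))
    (hn : 50 * n * Real.log (2 * ((D + 1 : ℕ) : ℝ)) ≤ k * ((D : ℝ) - 1) * √((D + 1 : ℕ) : ℝ)) :
    (2 : ℝ) ^ k ≤ M * ((S : ℝ) + 1) ^ (2 * h) := by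
  have hw : D + 1 = 1 * (2 * D - (D - 1)) := by omega
  have hD4 : (9999 : ℝ) ≤ D := by exact_mod_cast (by omega : 9999 ≤ D)
  have hNb : k * (1 * (D - 1)) < k * (1 * (2 * D)) := Nat.mul_lt_mul_of_pos_left (by omega) hk
  have hNb1 : 1 ≤ k * (1 * (D - 1)) := Nat.mul_pos hk (by omega)
  have hNv : 10 * (k * (1 * (2 * D))) ≤ 21 * (k * (1 * (D - 1))) := by
    have h1 : 10 * (2 * D) ≤ 21 * (D - 1) := by omega
    calc 10 * (k * (1 * (2 * D))) = k * (10 * (2 * D)) := by ring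
      _ ≤ k * (21 * (D - 1)) := Nat.mul_le_mul_left _ h1
      _ = 21 * (k * (1 * (D - 1))) := by ring
  -- the logarithm
  have hlog : 10 * ((1 : ℕ) : ℝ) * Real.log (2 * ((D + 1 : ℕ) : ℝ)) ≤ (D : ℝ) - 1 := by
    set y : ℝ := √(2 * ((D + 1 : ℕ) : ℝ)) with hy
    have hy0 : 0 ≤ 2 * ((D + 1 : ℕ) : ℝ) := by positivity
    have hyy : y * y = 2 * ((D : ℝ) + 1) := by
      rw [hy, Real.mul_self_sqrt hy0]
      push_cast
      ring
    have hy1 : 140 ≤ y := by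
      rw [hy, Real.le_sqrt (by norm_num) hy0]
      push_cast
      linarith
    have h1 : Real.log (2 * ((D + 1 : ℕ) : ℝ)) = 2 * Real.log y := by
      have h2 : 2 * ((D + 1 : ℕ) : ℝ) = y * y := by
        rw [hyy]
        push_cast
        ring
      rw [h2, Real.log_mul (by linarith) (by linarith)]
      ring
    have h3 : Real.log y ≤ y - 1 := Real.log_le_sub_one_of_pos (by linarith)
    have h4 : 140 * y ≤ y * y := mul_le_mul_of_nonneg_right hy1 (by linarith)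
    rw [h1, Nat.cast_one]
    linarith
  have hlog0 : 0 ≤ Real.log (2 * ((D + 1 : ℕ) : ℝ)) := by
    apply Real.log_nonneg
    push_cast
    linarith
  have hsqrt : √((D + 1 : ℕ) : ℝ) ≤ 2 * √((D + 1 - 1 : ℕ) : ℝ) := by
    have h5 : ((D + 1 : ℕ) : ℝ) ≤ 2 ^ 2 * ((D + 1 - 1 : ℕ) : ℝ) := by
      exact_mod_cast (by omega : D + 1 ≤ 2 ^ 2 * (D + 1 - 1))
    calc √((D + 1 : ℕ) : ℝ) ≤ √(2 ^ 2 * ((D + 1 - 1 : ℕ) : ℝ)) := Real.sqrt_le_sqrt h5
      _ = 2 * √((D + 1 - 1 : ℕ) : ℝ) := by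
        rw [Real.sqrt_mul (by positivity), Real.sqrt_sq (by norm_num)]
  have hn' : 22 * (n : ℝ) * ((1 : ℕ) : ℝ) * Real.log (2 * ((D + 1 : ℕ) : ℝ)) ≤
      k * ((D : ℝ) - 1) * √((D + 1 - 1 : ℕ) : ℝ) := by
    have h6 : 0 ≤ (k : ℝ) * ((D : ℝ) - 1) := mul_nonneg (Nat.cast_nonneg _) (by linarith)
    have h7 := mul_le_mul_of_nonneg_left hsqrt h6
    have h8 : 0 ≤ (n : ℝ) * Real.log (2 * ((D + 1 : ℕ) : ℝ)) :=
      mul_nonneg (Nat.cast_nonneg _) hlog0
    rw [Nat.cast_one]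
    linarith
  have h1 := SM.core_gen (n := n) (D := D) (δ := 1) (w := D + 1) (v := D + 1 - 1)
    (M := M * (S + 1) ^ (2 * h)) (Nv := k * (1 * (2 * D))) (Nb := k * (1 * (D - 1)))
    hk le_rfl (by omega) (Nat.sub_le _ _) hNb hNb1 hNv hlog
    (fun n' l => (goodM k 1 (2 * D) D n' l).card)
    (fun n' l z hz he => ?_) (fun n' l hnn => ?_) hn'
  · push_cast at h1
    exact h1
  · have h2 := goodM_card1 k 1 (2 * D) D n' l hk le_rfl (by omega) (by omega) z hz (by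
      rw [← hw]; exact he)
    rw [← hw] at h2
    exact h2
  · rw [ubD_one]
    refine lim_ineq_heavyM (by omega) (by omega) hg N A B hS (fun j t => ?_) hlim
    obtain ⟨T, hT1, hT2⟩ := hT j t
    exact ⟨T, hT1, hT2.trans hnn⟩

end Pool.Agent.Work.MP_35c45d_lc.SA
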