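import Mathlib

/-! # Total rank: the choice of the parameters -/

set_option autoImplicit false

namespace Pool.Agent.Work.MP_35c45d_lc.SA

/-- `n = H h ≤ 7 r x` -/
theorem num_Hh {r x D L lM k H h : ℝ} (hr : 1 ≤ r) (hD : 1 ≤ D) (hk : 1 ≤ k)
    (hlM : 0 ≤ lM) (hkD : k * (3 * D) ≤ x) (hkL : 10 ^ 4 * (L * lM) ≤ k)
    (hH3 : H ≤ 1001 * (r * D * L)) (hHpos : 0 < H) (hh3 : h ≤ 6 * (r * x) / H + 3.5 * lM) :
    H * h ≤ 7 * (r * x) := by
  have h6 : H * h ≤ H * (6 * (r * x) / H + 3.5 * lM) :=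
    mul_le_mul_of_nonneg_left hh3 hHpos.le
  have h7 : H * (6 * (r * x) / H + 3.5 * lM) = 6 * (r * x) + 3.5 * (H * lM) := by
    field_simp
  have h8 : H * lM ≤ 1001 * (r * D * L) * lM := mul_le_mul_of_nonneg_right hH3 hlM
  have h9 : 1001 * (r * D * L) * lM = 1001 * (r * D) * (L * lM) := by ring
  have h10 : 1001 * (r * D) * (L * lM) ≤ 1001 * (r * D) * (k / 10 ^ 4) := by
    refine mul_le_mul_of_nonneg_left ?_ (by positivity)
    rw [le_div_iff₀ (by norm_num)]
    linarith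
  have h11 : 1001 * (r * D) * (k / 10 ^ 4) = 0.1001 * (r * (k * D)) := by ring
  have h12 : r * (k * D) ≤ r * (x / 3) := by
    refine mul_le_mul_of_nonneg_left ?_ (by linarith)
    linarith
  have h13 : r * (x / 3) = r * x / 3 := by ring
  have h14 : 0 ≤ r * x := by
    have h15 : 0 ≤ x := by
      have : 0 ≤ k * (3 * D) := by positivity
      linarith
    exact mul_nonneg (by linarith) h15
  linarith

/-- `h L` is small compared with `k` -/
theorem num_hL {r x D L lM k H h : ℝ} (hr : 1 ≤ r) (hD : 1 ≤ D) (hk : 1 ≤ k) (hL : 1 ≤ L)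
    (hx : x ≤ 6 * (k * D)) (hH1 : 1000 * (r * D * L) ≤ H) (hHpos : 0 < H)
    (hh3 : h ≤ 6 * (r * x) / H + 3.5 * lM) :
    h * L ≤ 0.036 * k + 3.5 * (L * lM) := by
  have h9 : 6 * (r * x) / H * L ≤ 0.036 * k := by
    rw [div_mul_eq_mul_div, div_le_iff₀ hHpos]
    have h10 : r * x ≤ r * (6 * (k * D)) := mul_le_mul_of_nonneg_left hx (by linarith)
    have h11 : 0.036 * k * (1000 * (r * D * L)) ≤ 0.036 * k * H :=
      mul_le_mul_of_nonneg_left hH1 (by positivity)
    have h12 : r * x * L ≤ r * (6 * (k * D)) * L := mul_le_mul_of_nonneg_right h10 (by linarith)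
    have h13 : 0.036 * k * (1000 * (r * D * L)) = 6 * (r * (6 * (k * D)) * L) := by ring
    linarith
  have h14 : h * L ≤ (6 * (r * x) / H + 3.5 * lM) * L :=
    mul_le_mul_of_nonneg_right hh3 (by linarith)
  have h15 : (6 * (r * x) / H + 3.5 * lM) * L = 6 * (r * x) / H * L + 3.5 * (L * lM) := by ring
  linarith

theorem num_n {r x D L k n Λ q : ℝ} (hr : 1 ≤ r) (hD : 10 ^ 7 ≤ D) (hk : 1 ≤ k) (hL : 1 ≤ L)
    (hΛ : Λ ≤ L) (hx : x ≤ 6 * (k * D)) (hn : n ≤ 7 * (r * x)) (hn0 : 0 ≤ n)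
    (hq : 3000 * (r * L) ≤ q) :
    50 * n * Λ ≤ k * (D - 1) * q := by
  have h6 : D * 0.9 ≤ D - 1 := by linarith
  have hx0 : r * x ≤ r * (6 * (k * D)) := mul_le_mul_of_nonneg_left hx (by linarith)
  have hn2 : n ≤ 42 * (r * (k * D)) := by linarith
  have hrkD : 0 ≤ r * (k * D) := by positivity
  calc 50 * n * Λ ≤ 50 * n * L := mul_le_mul_of_nonneg_left hΛ (by linarith)
    _ ≤ 50 * (42 * (r * (k * D))) * L := by
        refine mul_le_mul_of_nonneg_right ?_ (by linarith)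
        linarith
    _ = 2100 * (k * D * (r * L)) := by ring
    _ ≤ 2700 * (k * D * (r * L)) := by
        refine mul_le_mul_of_nonneg_right (by norm_num) (by positivity)
    _ = k * (D * 0.9) * (3000 * (r * L)) := by ring
    _ ≤ k * (D - 1) * q := by
        refine mul_le_mul ?_ hq (by positivity) ?_
        · exact mul_le_mul_of_nonneg_left h6 (by linarith)
        · exact mul_nonneg (by linarith) (by linarith)

theorem total_num {m M s : ℕ} (hm : 1 ≤ m) (hM : 1 ≤ M)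
    (hc : ∀ H k D n h : ℕ, 1 ≤ H → 1 ≤ k → 10000 ≤ D + 1 →
      2 * Real.log (2 * ((D + 1 : ℕ) : ℝ)) ≤ (D : ℝ) - 1 → k * (3 * D) ≤ m →
      6 * (s : ℝ) / (m * H) + Real.log (2 * M) ≤ h → H * h ≤ n →
      50 * n * Real.log (2 * ((D + 1 : ℕ) : ℝ)) ≤ k * ((D : ℝ) - 1) * √((D + 1 : ℕ) : ℝ) →
      (2 : ℝ) ^ k ≤ M * ((s : ℝ) + 1) ^ (2 * h)) :
    (m : ℝ) ^ 5 ≤ 10 ^ 12 * ((s : ℝ) + m ^ 2) ^ 2 * (1 + Real.log m) ^ 3 * Real.log (M + 1) := by
  have hx1 : (1 : ℝ) ≤ m := by exact_mod_cast hm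
  obtain ⟨x, hx⟩ : ∃ x : ℝ, x = m := ⟨_, rfl⟩
  rw [← hx] at hx1 hc ⊢
  have hlx : 0 ≤ Real.log x := Real.log_nonneg hx1
  obtain ⟨L, hL⟩ : ∃ L : ℝ, L = 1 + Real.log x := ⟨_, rfl⟩
  rw [← hL]
  have hL1 : 1 ≤ L := by linarith
  have hs0 : (0 : ℝ) ≤ s := Nat.cast_nonneg s
  obtain ⟨r, hr⟩ : ∃ r : ℝ, r = ((s : ℝ) + x ^ 2) / x ^ 2 := ⟨_, rfl⟩
  have hrx : r * x ^ 2 = (s : ℝ) + x ^ 2 := by
    rw [hr]
    field_simp
  have hr1 : 1 ≤ r := by
    rw [hr, le_div_iff₀ (by positivity)]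
    linarith
  have hM1 : (1 : ℝ) ≤ M := by exact_mod_cast hM
  obtain ⟨lM, hlM⟩ : ∃ lM : ℝ, lM = Real.log (M + 1) := ⟨_, rfl⟩
  rw [← hlM]
  have hlog2 : Real.log 2 ≤ lM := by
    rw [hlM]
    exact Real.log_le_log (by norm_num) (by linarith)
  have hl2 : (0.69 : ℝ) ≤ Real.log 2 := by
    have := Real.log_two_gt_d9
    linarith
  have hl2' : Real.log 2 ≤ 0.7 := by
    have := Real.log_two_lt_d9
    linarith
  have hlM0 : 0.69 ≤ lM := by linarith
  -- it is enough to bound `x`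
  suffices hsuff : x ≤ 10 ^ 12 * r ^ 2 * L ^ 3 * lM by
    rw [← hrx]
    calc x ^ 5 = x * x ^ 4 := by ring
      _ ≤ (10 ^ 12 * r ^ 2 * L ^ 3 * lM) * x ^ 4 := mul_le_mul_of_nonneg_right hsuff (by positivity)
      _ = 10 ^ 12 * (r * x ^ 2) ^ 2 * L ^ 3 * lM := by ring
  obtain ⟨C, hC⟩ : ∃ C : ℝ, C = r ^ 2 * L ^ 2 := ⟨_, rfl⟩
  have hr2 : 1 ≤ r ^ 2 := one_le_pow₀ hr1
  have hL2 : 1 ≤ L ^ 2 := one_le_pow₀ hL1
  have hC1 : 1 ≤ C := by
    rw [hC]
    exact one_le_mul_of_one_le_of_one_le hr2 hL2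
  have hrC : r ^ 2 ≤ C := by
    rw [hC]
    exact le_mul_of_one_le_right (by positivity) hL2
  have hLC : L ≤ C := by
    have h1 : L ≤ L ^ 2 := by
      rw [sq]
      exact le_mul_of_one_le_left (by linarith) hL1
    have h2 : L ^ 2 ≤ C := by
      rw [hC]
      exact le_mul_of_one_le_left (by positivity) hr2
    linarith
  have hgoal : 10 ^ 12 * r ^ 2 * L ^ 3 * lM = 10 ^ 12 * (C * (L * lM)) := by
    rw [hC]; ring
  rw [hgoal]
  have hLlM : lM ≤ L * lM := le_mul_of_one_le_left (by linarith) hL1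
  have hCL : C * 0.69 ≤ C * (L * lM) := mul_le_mul_of_nonneg_left (by linarith) (by linarith)
  obtain ⟨D, hD1, hD2⟩ : ∃ D : ℕ, 10 ^ 7 * C ≤ D ∧ (D : ℝ) < 10 ^ 7 * C + 1 :=
    ⟨⌈10 ^ 7 * C⌉₊, Nat.le_ceil _, Nat.ceil_lt_add_one (by positivity)⟩
  have hD7 : (10 ^ 7 : ℝ) ≤ D := by linarith
  have hD7' : 10000 ≤ D := by
    have : (10000 : ℝ) ≤ D := by linarith
    exact_mod_cast this
  obtain ⟨k, hk⟩ : ∃ k : ℕ, k = m / (3 * D) := ⟨_, rfl⟩
  rcases Nat.eq_zero_or_pos k with hk0 | hk0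
  · have h1 : m < 3 * D := by
      by_contra hcon
      push Not at hcon
      have := Nat.div_pos hcon (by omega)
      omega
    have h2 : x < 3 * D := by
      rw [hx]
      exact_mod_cast h1
    linarith
  · by_contra hcon
    push Not at hcon
    have hkD : k * (3 * D) ≤ m := by
      rw [hk]
      exact Nat.div_mul_le_self _ _
    have hkD' : (k : ℝ) * (3 * D) ≤ x := by
      rw [hx]
      exact_mod_cast hkD
    have hkD2 : m < (k + 1) * (3 * D) := by
      rw [hk]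
      exact Nat.lt_mul_of_div_lt (Nat.lt_succ_self _) (by omega)
    have hk1 : (1 : ℝ) ≤ k := by exact_mod_cast hk0
    have h4 : x < (k + 1) * (3 * D) := by
      rw [hx]
      exact_mod_cast hkD2
    have hDk : (D : ℝ) ≤ k * D := le_mul_of_one_le_left (by linarith) hk1
    have h5 : x ≤ 6 * (k * D) := by
      have : ((k : ℝ) + 1) * (3 * D) = 3 * (k * D) + 3 * D := by ring
      linarith
    -- `k` is large compared with `L * log (M + 1)`
    have hkL : 10 ^ 4 * (L * lM) ≤ k := by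
      have h6 : (k : ℝ) * D ≤ k * (1.1 * 10 ^ 7 * C) :=
        mul_le_mul_of_nonneg_left (by linarith) (by linarith)
      have h7 : 10 ^ 12 * (L * lM) * C ≤ 6.6 * 10 ^ 7 * k * C := by
        have h8 : 10 ^ 12 * (L * lM) * C = 10 ^ 12 * (C * (L * lM)) := by ring
        have h9 : 6.6 * 10 ^ 7 * (k : ℝ) * C = 6 * (k * (1.1 * 10 ^ 7 * C)) := by ring
        linarith
      have h9 : 10 ^ 12 * (L * lM) ≤ 6.6 * 10 ^ 7 * k := le_of_mul_le_mul_right h7 (by linarith)
      linarith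
    -- logarithms
    have hDx : 3 * (D : ℝ) ≤ x := by
      have : (k : ℝ) * (3 * D) = 3 * (k * D) := by ring
      linarith
    have hΛ : Real.log (2 * ((D + 1 : ℕ) : ℝ)) ≤ L := by
      have h6 : Real.log (2 * ((D + 1 : ℕ) : ℝ)) ≤ Real.log x := by
        refine Real.log_le_log (by positivity) ?_
        push_cast
        linarith
      linarith
    have hr2x : r ^ 2 ≤ x := by linarith
    have hls : Real.log ((s : ℝ) + 1) ≤ 5 / 2 * L := by
      have hx2 : 1 ≤ x ^ 2 := one_le_pow₀ hx1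
      have h6 : (s : ℝ) + 1 ≤ r * x ^ 2 := by
        rw [hrx]
        linarith
      have h7 : Real.log ((s : ℝ) + 1) ≤ Real.log (r * x ^ 2) :=
        Real.log_le_log (by positivity) h6
      have h8 : Real.log (r * x ^ 2) = Real.log r + 2 * Real.log x := by
        rw [Real.log_mul (by positivity) (by positivity), Real.log_pow]
        push_cast
        ring
      have h9 : 2 * Real.log r ≤ Real.log x := by
        have h10 : 2 * Real.log r = Real.log (r ^ 2) := by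
          rw [Real.log_pow]
          push_cast
          ring
        rw [h10]
        exact Real.log_le_log (by positivity) hr2x
      linarith
    have hls0 : 0 ≤ Real.log ((s : ℝ) + 1) := Real.log_nonneg (by linarith)
    -- the parameters `H`, `h`
    have hrDL : 1 ≤ r * D * L := by
      have h6 : 1 ≤ r * D := one_le_mul_of_one_le_of_one_le hr1 (by linarith)
      exact one_le_mul_of_one_le_of_one_le h6 hL1
    obtain ⟨H, hH1, hH2⟩ : ∃ H : ℕ, 1000 * (r * D * L) ≤ H ∧ (H : ℝ) < 1000 * (r * D * L) + 1 :=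
      ⟨⌈1000 * (r * D * L)⌉₊, Nat.le_ceil _, Nat.ceil_lt_add_one (by linarith)⟩
    have hH3 : (H : ℝ) ≤ 1001 * (r * D * L) := by linarith
    have hHpos : 0 < (H : ℝ) := by linarith
    have hH0 : 1 ≤ H := by
      have : 0 < H := by exact_mod_cast hHpos
      omega
    obtain ⟨y, hy⟩ : ∃ y : ℝ, y = 6 * (s : ℝ) / (x * H) + Real.log (2 * M) := ⟨_, rfl⟩
    have hlogM : Real.log M ≤ lM := by
      rw [hlM]
      exact Real.log_le_log (by linarith) (by linarith)
    have hlog2M : Real.log (2 * M) ≤ 2 * lM := by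
      have h6 : Real.log (2 * M) = Real.log 2 + Real.log M :=
        Real.log_mul (by norm_num) (by positivity)
      linarith
    have hlog2M0 : 0 ≤ Real.log (2 * M) := Real.log_nonneg (by linarith)
    have hy0 : 0 ≤ y := by
      rw [hy]
      positivity
    obtain ⟨h, hh1, hh2⟩ : ∃ h : ℕ, y ≤ h ∧ (h : ℝ) < y + 1 :=
      ⟨⌈y⌉₊, Nat.le_ceil _, Nat.ceil_lt_add_one hy0⟩
    have hsx : (s : ℝ) / x ≤ r * x := by
      rw [div_le_iff₀ (by linarith)]
      have h6 : r * x * x = r * x ^ 2 := by ring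
      rw [h6, hrx]
      have : 0 ≤ x ^ 2 := by positivity
      linarith
    have hyH : y ≤ 6 * (r * x) / H + 2 * lM := by
      rw [hy]
      have h6 : 6 * (s : ℝ) / (x * H) = 6 * ((s : ℝ) / x) / H := by
        field_simp
      rw [h6]
      have h7 : 6 * ((s : ℝ) / x) / H ≤ 6 * (r * x) / H := by gcongr
      linarith
    have hh3 : (h : ℝ) ≤ 6 * (r * x) / H + 3.5 * lM := by linarith
    have hHh : (H : ℝ) * h ≤ 7 * (r * x) :=
      num_Hh hr1 (by linarith) hk1 (by linarith) hkD' hkL hH3 hHpos hh3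
    -- the hypotheses of `hc`
    have hDlog : 2 * Real.log (2 * ((D + 1 : ℕ) : ℝ)) ≤ (D : ℝ) - 1 := by linarith
    have hsq : 3000 * (r * L) ≤ √((D + 1 : ℕ) : ℝ) := by
      rw [Real.le_sqrt (by positivity) (by positivity)]
      push_cast
      have h6 : (3000 * (r * L)) ^ 2 = 9 * 10 ^ 6 * C := by
        rw [hC]; ring
      rw [h6]
      linarith
    have hn : 50 * ((H * h : ℕ) : ℝ) * Real.log (2 * ((D + 1 : ℕ) : ℝ)) ≤
        k * ((D : ℝ) - 1) * √((D + 1 : ℕ) : ℝ) :=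
      num_n hr1 hD7 hk1 hL1 hΛ h5 (by push_cast; exact hHh) (by positivity) hsq
    have hfin := hc H k D (H * h) h hH0 hk0 (by omega) hDlog hkD (by rw [← hy]; exact hh1)
      le_rfl hn
    -- take logarithms
    have hlogfin : (k : ℝ) * Real.log 2 ≤ Real.log M + (2 * h : ℕ) * Real.log ((s : ℝ) + 1) := by
      have h6 := Real.log_le_log (by positivity) hfin
      rw [Real.log_pow, Real.log_mul (by positivity) (by positivity), Real.log_pow] at h6
      exact h6
    have h7 : ((2 * h : ℕ) : ℝ) * Real.log ((s : ℝ) + 1) ≤ 5 * (h * L) := by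
      have h8 : ((2 * h : ℕ) : ℝ) * Real.log ((s : ℝ) + 1) ≤ ((2 * h : ℕ) : ℝ) * (5 / 2 * L) :=
        mul_le_mul_of_nonneg_left hls (by positivity)
      have h9 : ((2 * h : ℕ) : ℝ) * (5 / 2 * L) = 5 * (h * L) := by
        push_cast
        ring
      linarith
    have h8 := num_hL hr1 (by linarith) hk1 hL1 h5 hH1 hHpos hh3
    have h10 : (k : ℝ) * 0.69 ≤ k * Real.log 2 := mul_le_mul_of_nonneg_left hl2 (by linarith)
    linarith

end Pool.Agent.Work.MP_35c45d_lc.SA
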