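import Pool.Agent.Work.MP_35c45d_lc.SDCell

/-! # Sections of the permanent whose cells are moved by a permutation of the columns -/

set_option autoImplicit false

namespace Pool.Agent.Work.MP_35c45d_lc.SA

open MvPolynomial SD

/-- the permanent is invariant under permutations of the columns -/
theorem aeval_permP_col {κ : Type} {m : ℕ} (τ : Equiv.Perm (Fin m))
    (φ ψ : Fin m × Fin m → MvPolynomial κ ℂ) (h : ∀ a b, ψ (a, τ b) = φ (a, b)) :
    aeval ψ (permP m) = aeval φ (permP m) := by
  unfold permP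
  rw [Matrix.permanent, map_sum, map_sum]
  refine Fintype.sum_equiv (Equiv.mulRight τ) _ _ fun σ => ?_
  rw [map_prod, map_prod]
  refine (Fintype.prod_equiv τ _ _ fun b => ?_).symm
  simp only [Matrix.of_apply, aeval_X, Equiv.coe_mulRight, Equiv.Perm.coe_mul,
    Function.comp_apply]
  rw [h]

/-- (8) the section with permuted columns (from `SD.esf_cell2`, since `permP m` is invariant under
permutations of the columns) -/
theorem esf_cell3 {k L D m : ℕ} (hDL : D ≤ L) (hm : k * (2 * L - D) ≤ m) :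
    ∃ (i j : Fin k × Fin 1 × Fin L → Fin m) (c0 : ℂ), Function.Injective i ∧
      Function.Injective j ∧ c0 ≠ 0 ∧ ∀ τ : Equiv.Perm (Fin m), ∃ c : Fin m × Fin m → ℂ,
        aeval (cellφ c fun v => (i v, τ (j v))) (permP m) = C c0 * SE.esf k 1 L D := by
  obtain ⟨c, cell, c0, h1, h2, h3, h4⟩ := esf_cell2 (k := k) (L := L) (D := D) (m := m) hDL hm
  refine ⟨fun v => (cell v).1, fun v => (cell v).2, c0, h1, h2, h3, fun τ =>
    ⟨fun q => c (q.1, τ.symm q.2), ?_⟩⟩
  rw [← h4]
  refine aeval_permP_col τ _ _ fun a b => ?_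
  have hc : ∀ v, (((cell v).1, τ (cell v).2) = (a, τ b)) ↔ cell v = (a, b) := by
    intro v
    rw [Prod.mk.injEq, EmbeddingLike.apply_eq_iff_eq, Prod.ext_iff]
  simp only [cellφ, Equiv.symm_apply_apply, hc]

end Pool.Agent.Work.MP_35c45d_lc.SA
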