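import Pool.Agent.Work.MP_35c45d_lc.SMLim

/-! # Sections of multiples: a fixed substitution and its translates -/

set_option autoImplicit false

namespace Pool.Agent.Work.MP_35c45d_lc.SM

open MvPolynomial Filter Topology SD FD

/-- The section of a multiple. `S` and `S'` are the two classes; `S'` contains the constant multiples of
the substitutions `φ + ρ`, `φ` fixed and `ρ` constant, of the elements of `S`. -/
theorem mult_section_fix {ι κ : Type} [Fintype ι] [Fintype κ] (N : ℕ)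
    (S : Set (MvPolynomial ι ℂ)) (S' : Set (MvPolynomial κ ℂ)) (N' : ℕ)
    (hN : ∀ F ∈ S, F.totalDegree ≤ N) (hN' : ∀ F ∈ S', F.totalDegree ≤ N')
    (φ : ι → MvPolynomial κ ℂ)
    (hsub : ∀ F ∈ S, ∀ ρ : ι → ℂ, ∀ b : ℂ, b ≠ 0 →
      C b * aeval (fun q => φ q + C (ρ q)) F ∈ S')
    {g P : MvPolynomial ι ℂ} (hg : g ≠ 0) {f : MvPolynomial κ ℂ} {c : ℂ} (hc : c ≠ 0)
    (hsec : aeval φ P = C c * f)
    (F : ℕ → MvPolynomial ι ℂ) (hF : ∀ s, F s ∈ S)
    (hlim : ∀ d, Tendsto (fun s => coeff d (F s)) atTop (𝓝 (coeff d (g * P)))) :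
    ∃ g' : MvPolynomial κ ℂ, g' ≠ 0 ∧ ∃ F' : ℕ → MvPolynomial κ ℂ, (∀ s, F' s ∈ S') ∧
      ∀ d, Tendsto (fun s => coeff d (F' s)) atTop (𝓝 (coeff d (g' * f))) := by
  classical
  obtain ⟨p, hp⟩ : ∃ p : ι → ℂ, eval p g ≠ 0 := by
    by_contra hcon
    push Not at hcon
    exact hg (MvPolynomial.funext fun x => by rw [hcon x, map_zero])
  -- the family of sections
  set ρ : ι → ℂ := fun q => p q - eval 0 (φ q) with hρ
  set ψ : ι → Polynomial (MvPolynomial κ ℂ) := fun q =>
    Polynomial.C (φ q) + Polynomial.X * Polynomial.C (C (ρ q)) with hψ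
  have hψe : ∀ (v : ℂ) q, (ψ q).eval (C v) = φ q + C v * C (ρ q) := by
    intro v q
    rw [hψ]
    simp only [Polynomial.eval_add, Polynomial.eval_mul, Polynomial.eval_C, Polynomial.eval_X]
  set G : Polynomial (MvPolynomial κ ℂ) := aeval ψ g with hG
  set H : Polynomial (MvPolynomial κ ℂ) := aeval ψ P with hH
  have hG0 : G ≠ 0 := by
    intro h0
    apply hp
    have h1 : eval 0 (G.eval (C 1)) = eval p g := by
      rw [hG, eval_aeval]
      have h2 : ∀ q : ι, eval (0 : κ → ℂ) ((ψ q).eval (C 1)) = p q := by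
        intro q
        rw [hψe, map_add, map_mul, eval_C, eval_C, hρ]
        ring
      have h3 : eval (0 : κ → ℂ) (aeval (fun a => (ψ a).eval (C 1)) g) =
          eval (fun a => eval (0 : κ → ℂ) ((ψ a).eval (C 1))) g := by
        rw [← coe_aeval_eq_eval, ← coe_aeval_eq_eval]
        change (aeval (0 : κ → ℂ)) (aeval (fun a => (ψ a).eval (C 1)) g) = _
        rw [← AlgHom.comp_apply, comp_aeval]
        rfl
      rw [h3]
      simp only [h2]
    rw [← h1, h0, Polynomial.eval_zero, map_zero]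
  obtain ⟨a, G', hGG', hG'0⟩ := exists_factor G hG0
  have hH0 : H.eval (C 0) = C c * f := by
    rw [hH, eval_aeval, ← hsec]
    congr 1
    refine MvPolynomial.algHom_ext fun q => ?_
    rw [aeval_X, aeval_X, hψe, map_zero, zero_mul, add_zero]
  refine ⟨G'.coeff 0 * C c, mul_ne_zero hG'0 (by rwa [Ne, C_eq_zero]), ?_⟩
  have hf0 : (G' * H).eval (C 0) = G'.coeff 0 * C c * f := by
    rw [Polynomial.eval_mul, hH0, map_zero, ← Polynomial.coeff_zero_eq_eval_zero]
    ring
  rw [← hf0]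
  set v : ℕ → ℂ := fun j => 1 / ((j : ℂ) + 1) with hv
  have hv0 : ∀ j, v j ≠ 0 := by
    intro j
    rw [hv]
    have : (j : ℂ) + 1 ≠ 0 := Nat.cast_add_one_ne_zero j
    simp only [one_div, ne_eq, inv_eq_zero]
    exact this
  have hvt : Tendsto v atTop (𝓝 0) := tendsto_one_div_add_atTop_nhds_zero_nat
  refine diag N' S' hN' (fun j => (G' * H).eval (C (v j))) _ (fun j => ?_) (fun d => ?_)
  · -- the limit for a fixed parameter
    set φ' : ι → MvPolynomial κ ℂ := fun q => φ q + C (v j) * C (ρ q) with hφ'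
    have hφ'2 : φ' = fun q => φ q + C (v j * ρ q) := by
      rw [hφ']
      funext q
      rw [C_mul]
    refine ⟨fun s => C ((v j ^ a)⁻¹) * aeval φ' (F s), fun s => by
      rw [hφ'2]
      exact hsub _ (hF s) _ _ (inv_ne_zero (pow_ne_zero _ (hv0 j))), fun d => ?_⟩
    have h1 : (G' * H).eval (C (v j)) = C ((v j ^ a)⁻¹) * aeval φ' (g * P) := by
      have h2 : aeval φ' (g * P) = (G * H).eval (C (v j)) := by
        rw [hG, hH, ← map_mul, eval_aeval]
        congr 2
        funext q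
        rw [hψe]
      rw [h2, hGG', Polynomial.eval_mul, Polynomial.eval_mul, Polynomial.eval_mul,
        Polynomial.eval_pow, Polynomial.eval_X, ← C_pow, ← mul_assoc, ← mul_assoc, ← C_mul,
        inv_mul_cancel₀ (pow_ne_zero _ (hv0 j)), C_1, one_mul]
    simp only
    rw [h1]
    have h3 := SQ.tendsto_linear N F (g * P) (fun s => hN _ (hF s)) hlim
      ((lcoeff ℂ d).comp (((v j ^ a)⁻¹) • (aeval φ').toLinearMap))
    have h4 : ∀ Q : MvPolynomial ι ℂ,
        ((lcoeff ℂ d).comp (((v j ^ a)⁻¹) • (aeval φ').toLinearMap)) Q =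
          coeff d (C ((v j ^ a)⁻¹) * aeval φ' Q) := by
      intro Q
      rw [LinearMap.comp_apply, LinearMap.smul_apply, ← smul_eq_C_mul]
      rfl
    simp only [h4] at h3
    exact h3
  · exact (tendsto_eval (G' * H) d).comp hvt

end Pool.Agent.Work.MP_35c45d_lc.SM
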