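import Pool.Agent.Work.MP_35c45d_lc.SAMult
import Pool.Agent.Work.MP_35c45d_lc.SMLimC
import Pool.Agent.Work.MP_35c45d_lc.SAInj
import Pool.Agent.Work.MP_35c45d_lc.SASec
import Pool.Agent.Work.MP_35c45d_lc.SAAff
import Pool.Agent.Work.MP_35c45d_lc.SANum

/-! # Multiples of the permanent as sums of determinants: only the total rank matters -/

set_option autoImplicit false

namespace Pool.Agent.Work.MP_35c45d_lc.SA

open MvPolynomial Filter Topology SD SE SM

/-- `f` is a coefficientwise limit of sums of `M` determinants of matrices of affine linear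
forms, of any sizes, such that the ranks of the coefficient matrices of the `m ^ 2` variables add
up to at most `s` -/
def LimSumTotalG (M m s : ℕ) (f : MvPolynomial (Fin m × Fin m) ℂ) : Prop :=
  ∃ (N : ℕ → Fin M → ℕ) (A : (j : ℕ) → (t : Fin M) → Matrix (Fin (N j t)) (Fin (N j t)) ℂ)
    (B : (j : ℕ) → (t : Fin M) → Fin m × Fin m → Matrix (Fin (N j t)) (Fin (N j t)) ℂ),
    (∀ j t, ∑ q, (B j t q).rank ≤ s) ∧
    ∀ d, Tendsto (fun j => coeff d (∑ t, (affM (A j t) (B j t)).det)) atTop (𝓝 (coeff d f))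

section scale

variable {κ : Type} [Fintype κ] [DecidableEq κ]

/-- a nonzero factor can be moved into the matrix -/
theorem exists_scale {N : ℕ} (A : Matrix (Fin N) (Fin N) ℂ) (B : κ → Matrix (Fin N) (Fin N) ℂ)
    (b : ℂ) : ∃ (N' : ℕ) (A' : Matrix (Fin N') (Fin N') ℂ) (B' : κ → Matrix (Fin N') (Fin N') ℂ),
      (affM A' B').det = C b * (affM A B).det ∧ ∀ v, (B' v).rank ≤ (B v).rank := by
  cases N with
  | zero =>
    refine ⟨1, fun _ _ => b, fun _ => 0, ?_, fun v => ?_⟩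
    · rw [Matrix.det_fin_zero, mul_one, Matrix.det_fin_one]
      simp [affM]
    · rw [Matrix.rank_zero]
      exact Nat.zero_le _
  | succ n =>
    set d : Fin (n + 1) → ℂ := Function.update 1 0 b with hd
    refine ⟨n + 1, Matrix.diagonal d * A, fun v => Matrix.diagonal d * B v, ?_, fun v => ?_⟩
    · have h1 : affM (Matrix.diagonal d * A) (fun v => Matrix.diagonal d * B v) =
          Matrix.diagonal (fun i => (C (d i) : MvPolynomial κ ℂ)) * affM A B := by
        refine Matrix.ext fun i j => ?_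
        rw [Matrix.diagonal_mul]
        simp only [affM, Matrix.of_apply, Matrix.diagonal_mul]
        rw [mul_add, ← C_mul, Finset.mul_sum]
        congr 1
        refine Finset.sum_congr rfl fun v _ => ?_
        rw [← mul_assoc, ← C_mul]
      rw [h1, Matrix.det_mul, Matrix.det_diagonal]
      congr 1
      rw [← map_prod, hd, Finset.prod_update_of_mem (Finset.mem_univ _)]
      simp
    · exact Matrix.rank_mul_le_right _ _

end scale

/-- the heavy variables: from the truncated ranks to the set -/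
theorem exists_heavy {κ : Type} [Fintype κ] [DecidableEq κ] {H h n : ℕ} (hH : 1 ≤ H)
    (ρ : κ → ℕ) (hh : ∑ v, min ((ρ v : ℝ) / H) 1 ≤ h) (hHn : H * h ≤ n) :
    ∃ T : Finset κ, T.card ≤ h ∧ ∑ v ∈ Tᶜ, ρ v ≤ n := by
  classical
  have hH0 : (0 : ℝ) < H := by exact_mod_cast hH
  set T : Finset κ := Finset.univ.filter fun v => H < ρ v with hT
  have h0 : ∀ v, 0 ≤ min ((ρ v : ℝ) / H) 1 := fun v => le_min (by positivity) zero_le_one
  refine ⟨T, ?_, ?_⟩
  · have h1 : (T.card : ℝ) ≤ h := by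
      calc (T.card : ℝ) = ∑ v ∈ T, (1 : ℝ) := by simp
        _ ≤ ∑ v ∈ T, min ((ρ v : ℝ) / H) 1 := by
          refine Finset.sum_le_sum fun v hv => ?_
          have h2 : H < ρ v := (Finset.mem_filter.1 hv).2
          refine le_min ?_ le_rfl
          rw [one_le_div hH0]
          exact_mod_cast h2.le
        _ ≤ ∑ v, min ((ρ v : ℝ) / H) 1 :=
          Finset.sum_le_sum_of_subset_of_nonneg (Finset.subset_univ _) fun v _ _ => h0 v
        _ ≤ h := hh
    exact_mod_cast h1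
  · refine le_trans ?_ hHn
    have h1 : ((∑ v ∈ Tᶜ, ρ v : ℕ) : ℝ) ≤ H * h := by
      push_cast
      calc ∑ v ∈ Tᶜ, (ρ v : ℝ) ≤ ∑ v ∈ Tᶜ, H * min ((ρ v : ℝ) / H) 1 := by
            refine Finset.sum_le_sum fun v hv => ?_
            have h2 : ¬ H < ρ v := fun h3 =>
              (Finset.mem_compl.1 hv) (Finset.mem_filter.2 ⟨Finset.mem_univ _, h3⟩)
            have h3 : (ρ v : ℝ) / H ≤ 1 := by
              rw [div_le_one hH0]
              exact_mod_cast not_lt.1 h2
            rw [min_eq_left h3, mul_div_cancel₀ _ hH0.ne']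
        _ = H * ∑ v ∈ Tᶜ, min ((ρ v : ℝ) / H) 1 := by rw [Finset.mul_sum]
        _ ≤ H * ∑ v, min ((ρ v : ℝ) / H) 1 := by
            refine mul_le_mul_of_nonneg_left ?_ hH0.le
            exact Finset.sum_le_sum_of_subset_of_nonneg (Finset.subset_univ _) fun v _ _ => h0 v
        _ ≤ H * h := mul_le_mul_of_nonneg_left hh hH0.le
    exact_mod_cast h1

/-- the class before the section -/
def clsA (M s h n : ℕ) {ι κ : Type} [Fintype ι] [Fintype κ] [DecidableEq κ] (cell : κ → ι) :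
    Set (MvPolynomial ι ℂ) :=
  {F | ∃ (N : Fin M → ℕ) (A : (t : Fin M) → Matrix (Fin (N t)) (Fin (N t)) ℂ)
    (B : (t : Fin M) → ι → Matrix (Fin (N t)) (Fin (N t)) ℂ),
    (∀ t, ∑ q, (B t q).rank ≤ s) ∧
    (∀ t, ∃ T : Finset κ, T.card ≤ h ∧ ∑ v ∈ Tᶜ, (B t (cell v)).rank ≤ n) ∧
    F = ∑ t, (affM (A t) (B t)).det}

/-- the class after the section -/
def clsB (M s h n : ℕ) (κ : Type) [Fintype κ] [DecidableEq κ] : Set (MvPolynomial κ ℂ) :=
  {F | ∃ (N : Fin M → ℕ) (A : (t : Fin M) → Matrix (Fin (N t)) (Fin (N t)) ℂ)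
    (B : (t : Fin M) → κ → Matrix (Fin (N t)) (Fin (N t)) ℂ),
    (∀ t v, (B t v).rank ≤ s) ∧
    (∀ t, ∃ T : Finset κ, T.card ≤ h ∧ ∑ v ∈ Tᶜ, (B t v).rank ≤ n) ∧
    F = ∑ t, (affM (A t) (B t)).det}

theorem totalDegree_affM_le {ι : Type} [Fintype ι] [DecidableEq ι] {N : ℕ}
    (A : Matrix (Fin N) (Fin N) ℂ) (B : ι → Matrix (Fin N) (Fin N) ℂ) :
    (affM A B).det.totalDegree ≤ ∑ w, (B w).rank := totalDegree_det_affG_le A B

/-- compare `total_core`; the multiple version -/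
theorem total_coreM {m M s H k D n h : ℕ} (hm : 1 ≤ m) (hM : 1 ≤ M) (hH : 1 ≤ H) (hk : 1 ≤ k)
    (hw4 : 10000 ≤ D + 1) (hkm : k * (3 * D) ≤ m)
    {g : MvPolynomial (Fin m × Fin m) ℂ} (hg : g ≠ 0)
    (hs : LimSumTotalG M m s (g * permP m))
    (hh : 6 * (s : ℝ) / (m * H) + Real.log (2 * M) ≤ h) (hHn : H * h ≤ n)
    (hn : 50 * n * Real.log (2 * ((D + 1 : ℕ) : ℝ)) ≤ k * ((D : ℝ) - 1) * √((D + 1 : ℕ) : ℝ)) :
    (2 : ℝ) ^ k ≤ M * ((s : ℝ) + 1) ^ (2 * h) := by
  classical
  obtain ⟨N, A, B, hs, hlim⟩ := hs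
  obtain ⟨i, j, c0, hi, hj, hc0, hsec⟩ := esf_cell3 (k := k) (L := 2 * D) (D := D) (m := m)
    (by omega) (by
      refine le_trans (le_of_eq ?_) hkm
      congr 1
      omega)
  -- a good permutation for every index
  have hκ : 3 * Fintype.card (Fin k × Fin 1 × Fin (2 * D)) ≤ 2 * m := by
    rw [Fintype.card_prod, Fintype.card_prod, Fintype.card_fin, Fintype.card_fin, Fintype.card_fin]
    calc 3 * (k * (1 * (2 * D))) = 2 * (k * (3 * D)) := by ring
      _ ≤ 2 * m := Nat.mul_le_mul_left _ hkm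
  choose τ hτ using fun a => exists_perm_good (s := s) (H := H) hm hM hH
    (fun t q => (B a t q).rank) (hs a) i j hi hj hκ
  -- one permutation occurs infinitely often
  obtain ⟨τ0, hτ0⟩ : ∃ τ0, ∃ᶠ a in atTop, τ a = τ0 := by
    by_contra hcon
    push Not at hcon
    have h1 : ∀ᶠ a in atTop, ∀ τ0, τ a ≠ τ0 := by
      rw [eventually_all]
      intro τ0
      exact hcon τ0
    obtain ⟨a, ha⟩ := h1.exists
    exact ha (τ a) rfl
  obtain ⟨ψ, hψ, hψτ⟩ := extraction_of_frequently_atTop hτ0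
  obtain ⟨c, hc⟩ := hsec τ0
  set cell : Fin k × Fin 1 × Fin (2 * D) → Fin m × Fin m := fun v => (i v, τ0 (j v)) with hcell
  -- the class
  set F : ℕ → MvPolynomial (Fin m × Fin m) ℂ := fun a =>
    ∑ t, (affM (A (ψ a) t) (B (ψ a) t)).det with hF
  have hF' : ∀ a, F a ∈ clsA M s h n cell := by
    intro a
    refine ⟨_, _, _, hs (ψ a), fun t => ?_, rfl⟩
    refine exists_heavy hH _ (le_trans ?_ hh) hHn
    have h1 := hτ (ψ a) t
    rw [hψτ a] at h1
    exact h1
  have hlimF : ∀ d, Tendsto (fun a => coeff d (F a)) atTop (𝓝 (coeff d (g * permP m))) := fun d =>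
    (hlim d).comp hψ.tendsto_atTop
  have hdegA : ∀ P ∈ clsA M s h n cell, P.totalDegree ≤ s := by
    rintro P ⟨N, A, B, h1, -, rfl⟩
    exact totalDegree_finsetSum_le fun t _ => (totalDegree_affM_le _ _).trans (h1 t)
  have hdegB : ∀ P ∈ clsB M s h n (Fin k × Fin 1 × Fin (2 * D)), P.totalDegree ≤
      Fintype.card (Fin k × Fin 1 × Fin (2 * D)) * s := by
    rintro P ⟨N, A, B, h1, -, rfl⟩
    refine totalDegree_finsetSum_le fun t _ => (totalDegree_affM_le _ _).trans ?_
    refine (Finset.sum_le_sum fun v _ => h1 t v).trans ?_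
    rw [Finset.sum_const, smul_eq_mul, Finset.card_univ]
  have hsub : ∀ P ∈ clsA M s h n cell, ∀ ρ : Fin m × Fin m → ℂ, ∀ b : ℂ, b ≠ 0 →
      C b * aeval (fun q => cellφ c cell q + C (ρ q)) P ∈
        clsB M s h n (Fin k × Fin 1 × Fin (2 * D)) := by
    rintro P ⟨N, A, B, h1, h2, rfl⟩ ρ b _
    have h3 : (fun q => cellφ c cell q + C (ρ q)) = cellφ (fun q => c q + ρ q) cell := by
      funext q
      rw [cellφ, cellφ, C_add]
      ring
    rw [h3]
    choose N' A' B' h4 h5 using fun t => exists_scale (A t + ∑ q, (c q + ρ q) • B t q)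
      (fun v => B t (cell v)) b
    refine ⟨N', A', B', fun t v => ?_, fun t => ?_, ?_⟩
    · refine (h5 t v).trans (le_trans ?_ (h1 t))
      exact Finset.single_le_sum (f := fun q => (B t q).rank) (fun q _ => Nat.zero_le _)
        (Finset.mem_univ _)
    · obtain ⟨T, hT1, hT2⟩ := h2 t
      exact ⟨T, hT1, (Finset.sum_le_sum fun v _ => h5 t v).trans hT2⟩
    · rw [map_sum, Finset.mul_sum]
      refine Finset.sum_congr rfl fun t _ => ?_
      rw [h4, affM_subst]
  obtain ⟨g', hg', F', hF'', hlim'⟩ := mult_section_fix s (clsA M s h n cell)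
    (clsB M s h n (Fin k × Fin 1 × Fin (2 * D))) _ hdegA hdegB (cellφ c cell) hsub hg hc0 hc F hF'
    hlimF
  choose N' A' B' h1 h2 h3 using hF''
  refine core_heavyM (n := n) hk hw4 hg' N' A' B' h1 h2 (fun d => ?_) hn
  simp only [← h3]
  exact hlim' d

theorem permP_ne (m : ℕ) : permP m ≠ 0 := by
  intro h0
  have h1 := perm_coeff (m := m)
  rw [h0, coeff_zero] at h1
  exact zero_ne_one h1

/-- **Main theorem** -/
theorem total_mainM {m M s : ℕ} (hm : 1 ≤ m) {g : MvPolynomial (Fin m × Fin m) ℂ} (hg : g ≠ 0)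
    (h : LimSumTotalG M m s (g * permP m)) :
    (m : ℝ) ^ 5 ≤ 10 ^ 12 * ((s : ℝ) + m ^ 2) ^ 2 * (1 + Real.log m) ^ 3 * Real.log (M + 1) := by
  have hM : 1 ≤ M := by
    by_contra hlt
    have h0 : M = 0 := by omega
    subst h0
    apply mul_ne_zero hg (permP_ne m)
    obtain ⟨N, A, B, -, hlim⟩ := h
    ext d
    have h1 := hlim d
    simp only [Finset.univ_eq_empty, Finset.sum_empty, coeff_zero] at h1
    rw [coeff_zero]
    exact (tendsto_nhds_unique tendsto_const_nhds h1).symm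
  exact total_num hm hM fun H k D n h' hH hk hw4 _ hkm hh hHn hn =>
    total_coreM hm hM hH hk hw4 hkm hg h hh hHn hn

end Pool.Agent.Work.MP_35c45d_lc.SA
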