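import Pool.Agent.Work.MP_35c45d_lc.SAAff

/-! # The upper bound for one determinant with few heavy variables -/

set_option autoImplicit false

namespace Pool.Agent.Work.MP_35c45d_lc.SA

open MvPolynomial Filter Topology SD

variable {ι : Type} [Fintype ι] [DecidableEq ι] {n N : ℕ}

theorem rank_block_le (Y : Matrix (Fin N) (Fin N) ℂ) :
    (Matrix.fromBlocks Y (0 : Matrix (Fin N) (Fin n) ℂ) (0 : Matrix (Fin n) (Fin N) ℂ)
      (0 : Matrix (Fin n) (Fin n) ℂ)).rank ≤ Y.rank := by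
  have h1 : Matrix.fromBlocks Y (0 : Matrix (Fin N) (Fin n) ℂ) (0 : Matrix (Fin n) (Fin N) ℂ)
      (0 : Matrix (Fin n) (Fin n) ℂ) =
      Matrix.fromRows (1 : Matrix (Fin N) (Fin N) ℂ) (0 : Matrix (Fin n) (Fin N) ℂ) *
        (Y * Matrix.fromCols (1 : Matrix (Fin N) (Fin N) ℂ) (0 : Matrix (Fin N) (Fin n) ℂ)) := by
    rw [Matrix.mul_fromCols, Matrix.fromRows_mul_fromCols]
    simp
  rw [h1]
  exact (Matrix.rank_mul_le_right _ _).trans (Matrix.rank_mul_le_left _ _)

theorem rank_block_le' (Y : Matrix (Fin n) (Fin N) ℂ) (Z : Matrix (Fin n) (Fin n) ℂ) :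
    (Matrix.fromBlocks (0 : Matrix (Fin N) (Fin N) ℂ) (0 : Matrix (Fin N) (Fin n) ℂ) Y
      Z).rank ≤ n := by
  have h1 : Matrix.fromBlocks (0 : Matrix (Fin N) (Fin N) ℂ) (0 : Matrix (Fin N) (Fin n) ℂ) Y Z =
      Matrix.fromRows (0 : Matrix (Fin N) (Fin n) ℂ) (1 : Matrix (Fin n) (Fin n) ℂ) *
        Matrix.fromCols Y Z := by
    rw [Matrix.fromRows_mul_fromCols]
    simp
  rw [h1]
  refine (Matrix.rank_mul_le_right _ _).trans ((Matrix.rank_le_card_height _).trans ?_)
  rw [Fintype.card_fin]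

/-- common factorization of the light coefficient matrices -/
theorem light (B : ι → Matrix (Fin N) (Fin N) ℂ) (Λ : Finset ι)
    (h : ∑ v ∈ Λ, (B v).rank ≤ n) :
    ∃ (U : Matrix (Fin N) (Fin n) ℂ) (W : ι → Matrix (Fin n) (Fin N) ℂ),
      ∀ v ∈ Λ, U * W v = B v := by
  classical
  choose U0 V0 hUV using fun v => rank_factor (B v) (le_refl (B v).rank)
  have hcard : Fintype.card (Σ v : Λ, Fin (B v).rank) ≤ Fintype.card (Fin n) := by
    rw [Fintype.card_sigma, Fintype.card_fin]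
    simp only [Fintype.card_fin]
    rw [Finset.sum_coe_sort Λ (fun v => (B v).rank)]
    exact h
  obtain ⟨e⟩ := Function.Embedding.nonempty_of_card_le hcard
  refine ⟨Matrix.of fun i c => Function.extend e (fun q => U0 q.1 i q.2) 0 c,
    fun v => Matrix.of fun c j =>
      Function.extend e (fun q => if (q.1 : ι) = v then V0 q.1 q.2 j else 0) 0 c,
    fun v hv => ?_⟩
  refine Matrix.ext fun i j => ?_
  rw [Matrix.mul_apply]
  have h1 : ∑ q : (Σ v : Λ, Fin (B v).rank), U0 q.1 i q.2 *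
      (if (q.1 : ι) = v then V0 q.1 q.2 j else 0) =
      ∑ c, (Matrix.of fun i c => Function.extend e (fun q => U0 q.1 i q.2) 0 c) i c *
        (Matrix.of fun c j =>
          Function.extend e (fun q => if (q.1 : ι) = v then V0 q.1 q.2 j else 0) 0 c) c j := by
    refine Fintype.sum_of_injective e e.injective _ _ (fun c hc => ?_) (fun q => ?_)
    · have hc' : ¬ ∃ q, e q = c := fun ⟨q, hq⟩ => hc ⟨q, hq⟩
      rw [Matrix.of_apply, Function.extend_apply' _ _ _ hc']
      simp
    · rw [Matrix.of_apply, Matrix.of_apply, e.injective.extend_apply, e.injective.extend_apply]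
  rw [← h1, Fintype.sum_sigma, Finset.sum_eq_single (⟨v, hv⟩ : Λ)]
  · simp only [if_true]
    conv_rhs => rw [hUV v]
    rw [Matrix.mul_apply]
  · intro w _ hw
    refine Finset.sum_eq_zero fun t _ => ?_
    rw [if_neg (fun h' => hw (Subtype.ext h')), mul_zero]
  · intro h'
    exact absurd (Finset.mem_univ _) h'

/-- coefficients of a determinant depend continuously on a parameter -/
theorem tendsto_det_param {α τ : Type} [Fintype α] [DecidableEq α]
    (P0 P1 : Matrix α α (MvPolynomial τ ℂ)) (d : τ →₀ ℕ) :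
    Tendsto (fun ε : ℂ => coeff d (Matrix.of fun i j => P0 i j + C ε * P1 i j).det) (𝓝 0)
      (𝓝 (coeff d P0.det)) := by
  classical
  let P : Polynomial (MvPolynomial τ ℂ) :=
    (Matrix.of fun i j => Polynomial.C (P0 i j) + Polynomial.X * Polynomial.C (P1 i j)).det
  have h1 : ∀ ε : ℂ, (Matrix.of fun i j => P0 i j + C ε * P1 i j).det = P.eval (C ε) := by
    intro ε
    have h2 : P.eval (C ε) = Polynomial.evalRingHom (C ε) P := rfl
    rw [h2, RingHom.map_det]
    congr 1
    refine Matrix.ext fun i j => ?_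
    simp only [Matrix.of_apply, RingHom.mapMatrix_apply, Matrix.map_apply]
    rw [map_add, map_mul, Polynomial.coe_evalRingHom, Polynomial.eval_C, Polynomial.eval_X,
      Polynomial.eval_C]
  have h3 : ∀ ε : ℂ, coeff d (Matrix.of fun i j => P0 i j + C ε * P1 i j).det =
      ∑ j ∈ Finset.range (P.natDegree + 1), coeff d (P.coeff j) * ε ^ j := by
    intro ε
    rw [h1, Polynomial.eval_eq_sum_range, coeff_sum]
    refine Finset.sum_congr rfl fun j _ => ?_
    rw [← C_pow, mul_comm, coeff_C_mul, mul_comm]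
  have h4 : coeff d P0.det = ∑ j ∈ Finset.range (P.natDegree + 1),
      coeff d (P.coeff j) * (0 : ℂ) ^ j := by
    rw [← h3]
    congr 2
    refine Matrix.ext fun i j => ?_
    simp
  rw [h4]
  simp only [h3]
  refine (Continuous.tendsto ?_ 0)
  fun_prop

/-- a matrix becomes invertible after adding a small multiple of the identity -/
theorem eventually_det_ne (Y : Matrix (Fin N) (Fin N) ℂ) :
    ∀ᶠ ε in 𝓝[≠] (0 : ℂ), (Y + ε • (1 : Matrix (Fin N) (Fin N) ℂ)).det ≠ 0 := by
  classical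
  have h1 : ∀ ε : ℂ, (Y + ε • (1 : Matrix (Fin N) (Fin N) ℂ)).det = (-Y).charpoly.eval ε := by
    intro ε
    rw [Matrix.eval_charpoly]
    congr 1
    refine Matrix.ext fun i j => ?_
    simp [Matrix.one_apply, Matrix.scalar_apply, Matrix.diagonal_apply, add_comm]
  have h2 : (-Y).charpoly ≠ 0 := (Matrix.charpoly_monic _).ne_zero
  have h3 : ((((-Y).charpoly.roots.toFinset.erase 0 : Finset ℂ) : Set ℂ))ᶜ ∈ 𝓝 (0 : ℂ) :=
    (Finset.finite_toSet _).isClosed.isOpen_compl.mem_nhds (by simp)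
  filter_upwards [mem_nhdsWithin_of_mem_nhds h3, self_mem_nhdsWithin] with ε h4 h5
  rw [h1]
  intro h6
  apply h4
  rw [Finset.mem_coe, Finset.mem_erase, Multiset.mem_toFinset, Polynomial.mem_roots h2]
  exact ⟨h5, h6⟩

section main

/-- the coefficient matrices -/
noncomputable def cB (B : ι → Matrix (Fin N) (Fin N) ℂ) (W : ι → Matrix (Fin n) (Fin N) ℂ)
    (T Λ : Finset ι) (ε : ℂ) : ι ⊕ Fin n → Matrix (Fin N ⊕ Fin n) (Fin N ⊕ Fin n) ℂ :=
  Sum.elim (fun u => (if u ∈ T then Matrix.fromBlocks (B u) 0 0 0 else 0) +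
    (if u ∈ Λ then Matrix.fromBlocks 0 0 (-W u) 0 else 0))
    (fun c => Matrix.fromBlocks 0 0 0 (Matrix.diagonal fun c' => if c' = c then ε else 0))

/-- the block matrix -/
noncomputable def BL (A : Matrix (Fin N) (Fin N) ℂ) (B : ι → Matrix (Fin N) (Fin N) ℂ)
    (U : Matrix (Fin N) (Fin n) ℂ) (W : ι → Matrix (Fin n) (Fin N) ℂ) (T Λ : Finset ι) (ε : ℂ) :
    Matrix (Fin N ⊕ Fin n) (Fin N ⊕ Fin n) (MvPolynomial (ι ⊕ Fin n) ℂ) :=
  Matrix.fromBlocks (Matrix.of fun i j => C (A i j) + ∑ u ∈ T, C (B u i j) * X (Sum.inl u))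
    (U.map C) (Matrix.of fun c j => - ∑ v ∈ Λ, C (W v c j) * X (Sum.inl v))
    (Matrix.diagonal fun c => 1 + C ε * X (Sum.inr c))

theorem affG_eq_BL (A : Matrix (Fin N) (Fin N) ℂ) (B : ι → Matrix (Fin N) (Fin N) ℂ)
    (U : Matrix (Fin N) (Fin n) ℂ) (W : ι → Matrix (Fin n) (Fin N) ℂ) (T Λ : Finset ι) (ε : ℂ) :
    affG (Matrix.fromBlocks A U 0 1) (cB B W T Λ ε) = BL A B U W T Λ ε := by
  refine Matrix.ext fun i j => ?_
  simp only [affG, Matrix.of_apply, Fintype.sum_sum_type, cB, Sum.elim_inl, Sum.elim_inr]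
  rcases i with i | i <;> rcases j with j | j
  · have h1 : ∀ u : ι, ((if u ∈ T then Matrix.fromBlocks (B u) 0 0 0 else 0) +
        (if u ∈ Λ then Matrix.fromBlocks 0 0 (-W u) 0 else 0) :
        Matrix (Fin N ⊕ Fin n) (Fin N ⊕ Fin n) ℂ) (Sum.inl i) (Sum.inl j) =
        if u ∈ T then B u i j else 0 := by
      intro u
      rw [Matrix.add_apply]
      by_cases h : u ∈ T <;> by_cases h' : u ∈ Λ <;> simp [h, h']
    simp only [h1]
    simp [BL, Finset.sum_ite_mem, apply_ite, ite_mul]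
  · have h1 : ∀ u : ι, ((if u ∈ T then Matrix.fromBlocks (B u) 0 0 0 else 0) +
        (if u ∈ Λ then Matrix.fromBlocks 0 0 (-W u) 0 else 0) :
        Matrix (Fin N ⊕ Fin n) (Fin N ⊕ Fin n) ℂ) (Sum.inl i) (Sum.inr j) = 0 := by
      intro u
      rw [Matrix.add_apply]
      by_cases h : u ∈ T <;> by_cases h' : u ∈ Λ <;> simp [h, h']
    simp only [h1]
    simp [BL]
  · have h1 : ∀ u : ι, ((if u ∈ T then Matrix.fromBlocks (B u) 0 0 0 else 0) +
        (if u ∈ Λ then Matrix.fromBlocks 0 0 (-W u) 0 else 0) :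
        Matrix (Fin N ⊕ Fin n) (Fin N ⊕ Fin n) ℂ) (Sum.inr i) (Sum.inl j) =
        if u ∈ Λ then - W u i j else 0 := by
      intro u
      rw [Matrix.add_apply]
      by_cases h : u ∈ T <;> by_cases h' : u ∈ Λ <;> simp [h, h']
    simp only [h1]
    simp [BL, Finset.sum_ite_mem, apply_ite, ite_mul]
  · have h1 : ∀ u : ι, ((if u ∈ T then Matrix.fromBlocks (B u) 0 0 0 else 0) +
        (if u ∈ Λ then Matrix.fromBlocks 0 0 (-W u) 0 else 0) :
        Matrix (Fin N ⊕ Fin n) (Fin N ⊕ Fin n) ℂ) (Sum.inr i) (Sum.inr j) = 0 := by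
      intro u
      rw [Matrix.add_apply]
      by_cases h : u ∈ T <;> by_cases h' : u ∈ Λ <;> simp [h, h']
    simp only [h1]
    by_cases hij : i = j
    · subst hij
      have h2 : ∑ x : Fin n, (C (if i = x then ε else 0) * X (Sum.inr x) :
          MvPolynomial (ι ⊕ Fin n) ℂ) = C ε * X (Sum.inr i) := by
        rw [Finset.sum_eq_single i]
        · rw [if_pos rfl]
        · intro x _ hx
          rw [if_neg (fun h => hx h.symm), map_zero, zero_mul]
        · intro h
          exact absurd (Finset.mem_univ _) h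
      simpa [BL] using h2
    · simp [BL, hij]

theorem BL_det_zero (A : Matrix (Fin N) (Fin N) ℂ) (B : ι → Matrix (Fin N) (Fin N) ℂ)
    (U : Matrix (Fin N) (Fin n) ℂ) (W : ι → Matrix (Fin n) (Fin N) ℂ) (T : Finset ι)
    (hUW : ∀ v ∈ Tᶜ, U * W v = B v) :
    (BL A B U W T Tᶜ 0).det = rename Sum.inl (affM A B).det := by
  have h0 : (Matrix.diagonal fun c : Fin n => (1 : MvPolynomial (ι ⊕ Fin n) ℂ) +
      C (0 : ℂ) * X (Sum.inr c)) = 1 := by
    simp
  rw [BL, h0, Matrix.det_fromBlocks_one₂₂, AlgHom.map_det]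
  congr 1
  refine Matrix.ext fun i j => ?_
  rw [Matrix.sub_apply, Matrix.mul_apply, AlgHom.mapMatrix_apply, Matrix.map_apply]
  simp only [Matrix.of_apply, Matrix.map_apply, affM, map_add, map_sum, map_mul, rename_C,
    rename_X]
  have h1 : ∑ c : Fin n, (C (U i c) : MvPolynomial (ι ⊕ Fin n) ℂ) *
      (- ∑ v ∈ Tᶜ, C (W v c j) * X (Sum.inl v)) =
      - ∑ v ∈ Tᶜ, C (B v i j) * X (Sum.inl v) := by
    have h2 : ∀ v ∈ Tᶜ, (C (B v i j) * X (Sum.inl v) : MvPolynomial (ι ⊕ Fin n) ℂ) =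
        ∑ c : Fin n, C (U i c) * (C (W v c j) * X (Sum.inl v)) := by
      intro v hv
      rw [← hUW v hv, Matrix.mul_apply, map_sum, Finset.sum_mul]
      refine Finset.sum_congr rfl fun c _ => ?_
      rw [C_mul]
      ring
    rw [Finset.sum_congr rfl h2, Finset.sum_comm, ← Finset.sum_neg_distrib]
    refine Finset.sum_congr rfl fun c _ => ?_
    rw [← Finset.mul_sum]
    ring
  rw [h1, sub_neg_eq_add, add_assoc, Finset.sum_add_sum_compl]

theorem BL_det_inv (A : Matrix (Fin N) (Fin N) ℂ) (hA : A.det ≠ 0)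
    (B : ι → Matrix (Fin N) (Fin N) ℂ)
    (U : Matrix (Fin N) (Fin n) ℂ) (W : ι → Matrix (Fin n) (Fin N) ℂ) (Λ : Finset ι) (ε : ℂ) :
    (BL A B U W ∅ Λ ε).det = C A.det * (SD.bord ε (Matrix.of fun c c' : Fin n =>
      ((if c = c' then 1 else 0) + ∑ v ∈ Λ, C ((W v * (A⁻¹ * U)) c c') * X v :
        MvPolynomial ι ℂ))).det := by
  have hA' : IsUnit A.det := isUnit_iff_ne_zero.2 hA
  let Ac : Matrix (Fin N) (Fin N) (MvPolynomial (ι ⊕ Fin n) ℂ) := A.map C
  let Ai : Matrix (Fin N) (Fin N) (MvPolynomial (ι ⊕ Fin n) ℂ) := A⁻¹.map C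
  have hAA : Ac * Ai = 1 := by
    have h1 : Ac * Ai = (A * A⁻¹).map (C : ℂ →+* MvPolynomial (ι ⊕ Fin n) ℂ) :=
      (Matrix.map_mul (f := (C : ℂ →+* MvPolynomial (ι ⊕ Fin n) ℂ))).symm
    rw [h1, Matrix.mul_nonsing_inv A hA']
    simp
  let inv : Invertible Ac := invertibleOfRightInverse _ _ hAA
  have hinv : ⅟Ac = Ai := invOf_eq_right_inv hAA
  have h0 : (Matrix.of fun i j => (C (A i j) + ∑ u ∈ (∅ : Finset ι), C (B u i j) * X (Sum.inl u) :
      MvPolynomial (ι ⊕ Fin n) ℂ)) = Ac := by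
    refine Matrix.ext fun i j => ?_
    simp [Ac]
  rw [BL, h0, Matrix.det_fromBlocks₁₁, hinv]
  congr 1
  · have h1 : Ac.det = (C : ℂ →+* MvPolynomial (ι ⊕ Fin n) ℂ) A.det := by
      rw [RingHom.map_det]
      rfl
    exact h1
  · congr 1
    refine Matrix.ext fun c c' => ?_
    have h2 : ((Matrix.of (fun c j => - ∑ v ∈ Λ, C (W v c j) * X (Sum.inl v)) :
        Matrix (Fin n) (Fin N) (MvPolynomial (ι ⊕ Fin n) ℂ)) * Ai *
        (U.map C : Matrix (Fin N) (Fin n) (MvPolynomial (ι ⊕ Fin n) ℂ))) c c' =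
        - ∑ v ∈ Λ, C ((W v * (A⁻¹ * U)) c c') * X (Sum.inl v) := by
      have h3 : Ai * (U.map C : Matrix (Fin N) (Fin n) (MvPolynomial (ι ⊕ Fin n) ℂ)) =
          (A⁻¹ * U).map (C : ℂ →+* MvPolynomial (ι ⊕ Fin n) ℂ) :=
        (Matrix.map_mul (f := (C : ℂ →+* MvPolynomial (ι ⊕ Fin n) ℂ))).symm
      have h4 : ∀ v ∈ Λ, (C ((W v * (A⁻¹ * U)) c c') * X (Sum.inl v) :
          MvPolynomial (ι ⊕ Fin n) ℂ) =
          ∑ j, C (W v c j) * X (Sum.inl v) * C ((A⁻¹ * U) j c') := by
        intro v _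
        rw [Matrix.mul_apply (M := W v), map_sum, Finset.sum_mul]
        refine Finset.sum_congr rfl fun j _ => ?_
        rw [C_mul]
        ring
      rw [Matrix.mul_assoc, h3, Matrix.mul_apply, Finset.sum_congr rfl h4, Finset.sum_comm,
        ← Finset.sum_neg_distrib]
      refine Finset.sum_congr rfl fun j _ => ?_
      rw [Matrix.of_apply, Matrix.map_apply, neg_mul, Finset.sum_mul]
    rw [Matrix.sub_apply, h2]
    simp only [SD.bord, Matrix.of_apply, map_add, map_sum, map_mul, rename_C, rename_X,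
      sub_neg_eq_add]
    by_cases hcc : c = c'
    · subst hcc
      simp only [Matrix.diagonal_apply_eq, if_true, map_one]
      ring
    · simp only [Matrix.diagonal_apply_ne _ hcc, if_neg hcc, map_zero]
      ring

/-- **one summand**: `T` is the set of the heavy variables -/
theorem ub_summand (A : Matrix (Fin N) (Fin N) ℂ) (B : ι → Matrix (Fin N) (Fin N) ℂ)
    (T : Finset ι) {S : ℕ} (hS : ∀ v, (B v).rank ≤ S) (hT : ∑ v ∈ Tᶜ, (B v).rank ≤ n) :
    ∃ G : ℂ → MvPolynomial (ι ⊕ Fin n) ℂ,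
      (∀ d, Tendsto (fun ε => coeff d (G ε)) (𝓝 0)
        (𝓝 (coeff d (rename Sum.inl (affM A B).det)))) ∧
      (∀ ε, (G ε).totalDegree ≤ (S + n + 1) * (Fintype.card ι + n)) ∧
      ∀ᶠ ε in 𝓝[≠] 0, ∀ k l,
        UB k l ((S + 1) ^ (2 * T.card) * ub (Fintype.card ι) n k l) (G ε) := by
  classical
  obtain ⟨U, W, hUW⟩ := light B Tᶜ hT
  refine ⟨fun ε => (affG (Matrix.fromBlocks (A + ε • (1 : Matrix (Fin N) (Fin N) ℂ)) U 0 1)
    (cB B W T Tᶜ ε)).det, fun d => ?_, fun ε => ?_, ?_⟩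
  · -- continuity
    have h1 : ∀ ε : ℂ, affG (Matrix.fromBlocks (A + ε • (1 : Matrix (Fin N) (Fin N) ℂ)) U 0 1)
        (cB B W T Tᶜ ε) = Matrix.of fun i j => BL A B U W T Tᶜ 0 i j + C ε *
          (Matrix.fromBlocks 1 0 0 (Matrix.diagonal fun c => X (Sum.inr c)) :
            Matrix (Fin N ⊕ Fin n) (Fin N ⊕ Fin n) (MvPolynomial (ι ⊕ Fin n) ℂ)) i j := by
      intro ε
      rw [affG_eq_BL]
      refine Matrix.ext fun i j => ?_
      rw [Matrix.of_apply]
      rcases i with i | i <;> rcases j with j | j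
      · simp only [BL, Matrix.fromBlocks_apply₁₁, Matrix.of_apply, Matrix.add_apply,
          Matrix.smul_apply, Matrix.one_apply, smul_eq_mul]
        split_ifs
        · rw [mul_one, mul_one, map_add]
          ring
        · rw [mul_zero, mul_zero, add_zero, add_zero]
      · simp [BL]
      · simp [BL]
      · by_cases hij : i = j
        · subst hij
          simp [BL]
        · simp [BL, hij]
    simp only [h1]
    rw [← BL_det_zero A B U W T hUW]
    exact tendsto_det_param _ _ d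
  · -- degree
    refine (totalDegree_det_affG_le _ _).trans ?_
    have h1 : ∀ w : ι ⊕ Fin n, (cB B W T Tᶜ ε w).rank ≤ S + n + 1 := by
      rintro (u | c)
      · simp only [cB, Sum.elim_inl]
        by_cases hu : u ∈ T
        · rw [if_pos hu, if_neg (by simpa using hu), add_zero]
          exact (rank_block_le _).trans ((hS u).trans (by omega))
        · rw [if_neg hu, if_pos (by simpa using hu), zero_add]
          exact (rank_block_le' _ _).trans (by omega)
      · simp only [cB, Sum.elim_inr]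
        exact (rank_block_le' _ _).trans (by omega)
    refine (Finset.sum_le_card_nsmul _ _ _ fun w _ => h1 w).trans ?_
    rw [Finset.card_univ, Fintype.card_sum, Fintype.card_fin, smul_eq_mul, mul_comm]
  · -- the bound
    have h1 : ∀ᶠ ε in 𝓝[≠] (0 : ℂ), ∀ ξ : ι → Fin (S + 1),
        (A + ∑ u ∈ T, ((ξ u : ℕ) : ℂ) • B u + ε • (1 : Matrix (Fin N) (Fin N) ℂ)).det ≠ 0 := by
      rw [Filter.eventually_all]
      intro ξ
      exact eventually_det_ne _
    filter_upwards [h1, self_mem_nhdsWithin] with ε h2 hε k l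
    have hε' : ε ≠ 0 := hε
    refine ub_eval T _ _ (fun u hu => ?_) (fun ξ hξ => ?_)
    · simp only [cB, Sum.elim_inl]
      rw [if_pos hu, if_neg (by simpa using hu), add_zero]
      exact (rank_block_le _).trans (hS u)
    · have e1 : Matrix.fromBlocks (A + ε • (1 : Matrix (Fin N) (Fin N) ℂ)) U 0 1 +
          ∑ u ∈ T, (ξ u : ℂ) • cB B W T Tᶜ ε (Sum.inl u) =
          Matrix.fromBlocks (A + ∑ u ∈ T, (ξ u : ℂ) • B u +
            ε • (1 : Matrix (Fin N) (Fin N) ℂ)) U 0 1 := by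
        have h3 : ∑ u ∈ T, (ξ u : ℂ) • cB B W T Tᶜ ε (Sum.inl u) =
            Matrix.fromBlocks (∑ u ∈ T, (ξ u : ℂ) • B u) 0 0 0 := by
          have h4 : ∀ u ∈ T, (ξ u : ℂ) • cB B W T Tᶜ ε (Sum.inl u) =
              Matrix.fromBlocks ((ξ u : ℂ) • B u) 0 0 0 := by
            intro u hu
            simp only [cB, Sum.elim_inl]
            rw [if_pos hu, if_neg (by simpa using hu), add_zero, Matrix.fromBlocks_smul]
            simp
          rw [Finset.sum_congr rfl h4]
          refine Matrix.ext fun i j => ?_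
          rw [Matrix.sum_apply]
          rcases i with i | i <;> rcases j with j | j <;> simp [Matrix.sum_apply]
        rw [h3, Matrix.fromBlocks_add]
        congr 1
        · rw [add_assoc, add_assoc]
          congr 1
          rw [add_comm]
        · simp
        · simp
        · simp
      have e2 : (fun w : ι ⊕ Fin n => if ∃ u ∈ T, w = Sum.inl u then 0 else
          cB B W T Tᶜ ε w) = cB B W ∅ Tᶜ ε := by
        funext w
        rcases w with u | c
        · by_cases hu : u ∈ T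
          · rw [if_pos ⟨u, hu, rfl⟩]
            simp only [cB, Sum.elim_inl]
            rw [if_neg (by simp), if_neg (by simpa using hu), add_zero]
          · rw [if_neg]
            · simp only [cB, Sum.elim_inl]
              rw [if_neg hu, if_neg (by simp : u ∉ (∅ : Finset ι))]
            · rintro ⟨v, hv, h5⟩
              exact hu (Sum.inl_injective h5 ▸ hv)
        · rw [if_neg]
          · rfl
          · rintro ⟨v, -, h5⟩
            exact absurd h5 (by simp)
      rw [e1, e2, affG_eq_BL, BL_det_inv _ ?_]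
      · refine (ub_bord _ (fun c c' => ?_) ε hε' k l).smul _
        rw [Matrix.of_apply]
        refine (totalDegree_add _ _).trans (max_le ?_ ?_)
        · split_ifs <;> simp
        · refine totalDegree_finsetSum_le fun v _ => (totalDegree_mul _ _).trans ?_
          rw [totalDegree_C, zero_add, totalDegree_X]
      · have := h2 fun u => ⟨ξ u, Nat.lt_succ_of_le (hξ u)⟩
        simpa using this

end main

end Pool.Agent.Work.MP_35c45d_lc.SA
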