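import Pool.Agent.Work.MP_35c45d_lc.SADefs

/-! # The upper bound for all orders at once -/

set_option autoImplicit false

namespace Pool.Agent.Work.MP_35c45d_lc.SA

open MvPolynomial Filter Topology SD

variable {ι : Type} [Fintype ι] [DecidableEq ι] {n : ℕ}

/-- `SD.upper` for all orders `≤ k` at once -/
theorem ub_bord (A : Matrix (Fin n) (Fin n) (MvPolynomial ι ℂ))
    (hA : ∀ i j, (A i j).totalDegree ≤ 1) (v : ℂ) (hv : v ≠ 0) (k l : ℕ) :
    UB k l (ub (Fintype.card ι) n k l) (bord v A).det := by
  classical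
  set S : Finset ((_ : Finset (Fin n) × Finset (Fin n)) × ((ι ⊕ Fin n) →₀ ℕ)) :=
    (prs n k).sigma fun p => mons ((Finset.univ : Finset ι).disjSum (p.1 ∩ p.2)) l with hS
  have hsub : nforms v A k l ⊆ Submodule.span ℂ ((S.image (sform v A) :
      Finset (MvPolynomial (ι ⊕ Fin n) ℂ)) : Set (MvPolynomial (ι ⊕ Fin n) ℂ)) := by
    rintro P ⟨r, hr, f, g, μ, hμ, hy, rfl⟩
    by_cases hf : Function.Injective f
    swap
    · rw [mnr_zero_left _ _ _ hf, mul_zero]
      exact Submodule.zero_mem _
    by_cases hg : Function.Injective g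
    swap
    · rw [mnr_zero_right _ _ _ hg, mul_zero]
      exact Submodule.zero_mem _
    obtain ⟨ε, hε⟩ := mnr_sort (bord v A) f g hf hg
    have cf : (Finset.univ.image f).card = r := by
      rw [Finset.card_image_of_injective _ hf, Finset.card_univ, Fintype.card_fin]
    have cg : (Finset.univ.image g).card = r := by
      rw [Finset.card_image_of_injective _ hg, Finset.card_univ, Fintype.card_fin]
    rw [hε, mnr_cast (bord v A) _ _ cf cg]
    have e : monomial μ (1 : ℂ) * ((ε : MvPolynomial (ι ⊕ Fin n) ℂ) * mnr (bord v A)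
        ((Finset.univ.image f).orderEmbOfFin rfl : Fin (Finset.univ.image f).card → Fin n)
        ((Finset.univ.image g).orderEmbOfFin (cg.trans cf.symm) :
          Fin (Finset.univ.image f).card → Fin n)) =
        (ε : ℂ) • sform v A ⟨(Finset.univ.image f, Finset.univ.image g), μ⟩ := by
      unfold sform
      simp only
      rw [dif_pos (cg.trans cf.symm), smul_eq_C_mul, map_intCast]
      ring
    rw [e]
    refine Submodule.smul_mem _ _ (Submodule.subset_span ?_)
    rw [Finset.coe_image]
    refine ⟨_, ?_, rfl⟩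
    rw [hS, Finset.mem_coe, Finset.mem_sigma]
    refine ⟨?_, ?_⟩
    · simp only [prs, Finset.mem_filter, Finset.mem_univ, true_and]
      exact ⟨cf.trans cg.symm, by rw [cf]; exact hr⟩
    · simp only
      rw [mem_mons]
      refine ⟨?_, hμ⟩
      intro x hx
      rw [Finsupp.mem_support_iff] at hx
      rcases x with x | i
      · simp
      · have := hy i hx
        simpa using this
  refine ⟨Submodule.span ℂ ((S.image (sform v A) :
      Finset (MvPolynomial (ι ⊕ Fin n) ℂ)) : Set (MvPolynomial (ι ⊕ Fin n) ℂ)),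
    FiniteDimensional.span_finset _ _, ?_, ?_⟩
  · refine (finrank_span_finset_le_card _).trans (Finset.card_image_le.trans ?_)
    rw [hS, Finset.card_sigma]
    unfold ub
    refine Finset.sum_le_sum fun p _ => ?_
    rw [card_mons, Finset.card_disjSum, Finset.card_univ]
  · intro k' hk' a μ hμ
    have h1 := dk_mem A hA v a
    have h2 : Submodule.span ℂ (nforms v A k l) ≤ Submodule.span ℂ ((S.image (sform v A) :
      Finset (MvPolynomial (ι ⊕ Fin n) ℂ)) : Set (MvPolynomial (ι ⊕ Fin n) ℂ)) :=
      Submodule.span_le.2 hsub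
    apply h2
    refine Submodule.span_induction (p := fun P _ => monomial μ 1 * P ∈
      Submodule.span ℂ (nforms v A k l)) ?_ ?_ ?_ ?_ h1
    · rintro P ⟨r, hr, f, g, rfl⟩
      exact kill v hv A hA k l _ μ hμ le_rfl r (by omega) f g
    · rw [mul_zero]
      exact Submodule.zero_mem _
    · intro P Q _ _ hP hQ
      rw [mul_add]
      exact Submodule.add_mem _ hP hQ
    · intro c P _ hP
      rw [mul_smul_comm]
      exact Submodule.smul_mem _ _ hP

omit [Fintype ι] [DecidableEq ι] in
/-- scalar multiples -/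
theorem UB.smul {k l B : ℕ} {G : MvPolynomial (ι ⊕ Fin n) ℂ} (h : UB k l B G) (c : ℂ) :
    UB k l B (C c * G) := by
  obtain ⟨W, hfd, hr, hW⟩ := h
  refine ⟨W, hfd, hr, fun k' hk' a μ hμ => ?_⟩
  rw [dk_eq, ← smul_eq_C_mul, map_smul, mul_smul_comm, ← dk_eq]
  exact Submodule.smul_mem _ _ (hW k' hk' a μ hμ)

end Pool.Agent.Work.MP_35c45d_lc.SA
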