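import Pool.Agent.Work.MP_35c45d_lc.SDCell

/-! # Determinants of any size: only the total rank along every permutation matters -/

set_option autoImplicit false

namespace Pool.Agent.Work.MP_35c45d_lc.SD

open MvPolynomial Filter Topology

/-- `perm_m` is a coefficientwise limit of sums of `M` determinants of matrices of affine linear
forms, of any sizes, such that the ranks of the coefficient matrices of `x_(i, σ i)`, `i < m`, add
up to at most `n`, for every permutation `σ` -/
def LimSumPerm (M m n : ℕ) : Prop :=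
  ∃ (N : ℕ → Fin M → ℕ) (A : (s : ℕ) → (t : Fin M) → Matrix (Fin (N s t)) (Fin (N s t)) ℂ)
    (B : (s : ℕ) → (t : Fin M) → Fin m × Fin m → Matrix (Fin (N s t)) (Fin (N s t)) ℂ),
    (∀ s t (σ : Equiv.Perm (Fin m)), ∑ i, (B s t (i, σ i)).rank ≤ n) ∧
    ∀ d, Tendsto (fun s => coeff d (∑ t, (affM (A s t) (B s t)).det)) atTop
      (𝓝 (coeff d (permP m)))

section block

variable {ι : Type} [Fintype ι] [DecidableEq ι] {N : ℕ}

/-- The determinant of an affine matrix is the determinant of a matrix of affine forms all of whose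
rows except `∑ v, ρ v` are constant, `ρ v` the rank of the coefficient matrix of `v`. -/
theorem det_affM_sigma (A : Matrix (Fin N) (Fin N) ℂ) (B : ι → Matrix (Fin N) (Fin N) ℂ)
    (ρ : ι → ℕ) (hB : ∀ v, (B v).rank ≤ ρ v) :
    ∃ P : Matrix (Fin N ⊕ Σ v, Fin (ρ v)) (Fin N ⊕ Σ v, Fin (ρ v)) (MvPolynomial ι ℂ),
      P.det = (affM A B).det ∧ (∀ i j, (P i j).totalDegree ≤ 1) ∧
      ∀ i j, ∃ c : ℂ, P (Sum.inl i) j = C c := by
  classical
  choose U V hUV using fun v => rank_factor (B v) (hB v)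
  let P12 : Matrix (Fin N) (Σ v, Fin (ρ v)) (MvPolynomial ι ℂ) :=
    Matrix.of fun i q => C (U q.1 i q.2)
  let P21 : Matrix (Σ v, Fin (ρ v)) (Fin N) (MvPolynomial ι ℂ) :=
    Matrix.of fun q j => - (C (V q.1 q.2 j) * X q.1)
  refine ⟨Matrix.fromBlocks (A.map C) P12 P21 1, ?_, ?_, ?_⟩
  · rw [Matrix.det_fromBlocks_one₂₂]
    congr 1
    refine Matrix.ext fun i j => ?_
    rw [Matrix.sub_apply, Matrix.mul_apply, Matrix.map_apply]
    simp only [P12, P21, Matrix.of_apply, affM]
    rw [Fintype.sum_sigma, sub_eq_add_neg, ← Finset.sum_neg_distrib]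
    congr 1
    refine Finset.sum_congr rfl fun v _ => ?_
    rw [hUV v, Matrix.mul_apply, map_sum, Finset.sum_mul, ← Finset.sum_neg_distrib]
    refine Finset.sum_congr rfl fun t _ => ?_
    rw [C_mul]
    ring
  · rintro (i | i) (j | j)
    · simp
    · simp [P12]
    · simp only [Matrix.fromBlocks_apply₂₁, P21, Matrix.of_apply, totalDegree_neg]
      refine (totalDegree_mul _ _).trans ?_
      rw [totalDegree_C, zero_add, totalDegree_X]
    · rw [Matrix.fromBlocks_apply₂₂, Matrix.one_apply]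
      split_ifs <;> simp
  · rintro i (j | j)
    · exact ⟨A i j, by simp⟩
    · exact ⟨U j.1 i j.2, by simp [P12]⟩

/-- one determinant of size `n`, if the ranks of the coefficient matrices add up to at most `n` -/
theorem exists_small_sum {n : ℕ} (hn : 1 ≤ n) (A : Matrix (Fin N) (Fin N) ℂ)
    (B : ι → Matrix (Fin N) (Fin N) ℂ) (hB : ∑ v, (B v).rank ≤ n) :
    ∃ P : Matrix (Fin n) (Fin n) (MvPolynomial ι ℂ),
      (∀ i j, (P i j).totalDegree ≤ 1) ∧ P.det = (affM A B).det := by
  classical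
  obtain ⟨P, hP, hP1, hP2⟩ := det_affM_sigma A B (fun v => (B v).rank) fun v => le_rfl
  obtain ⟨Q, hQ, hdet⟩ := exists_small_fintype hn P hP1
    ((Finset.univ : Finset (Σ v, Fin (B v).rank)).map Function.Embedding.inr) (by
      rw [Finset.card_map, Finset.card_univ, Fintype.card_sigma]
      simpa using hB) (by
      rintro (i | i) hi j
      · exact hP2 i j
      · exact absurd (Finset.mem_map.2 ⟨i, Finset.mem_univ _, rfl⟩) hi)
  exact ⟨Q, hQ, hdet.trans hP⟩

end block

/-- two injective maps into a finite set differ by a permutation -/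
theorem exists_perm_of_injective {κ α : Type} [Fintype α] [DecidableEq α] (f g : κ → α)
    (hf : Function.Injective f) (hg : Function.Injective g) :
    ∃ σ : Equiv.Perm α, ∀ v, σ (f v) = g v := by
  classical
  refine ⟨Equiv.extendSubtype (p := fun x => x ∈ Set.range f) (q := fun x => x ∈ Set.range g)
    ((Equiv.ofInjective f hf).symm.trans (Equiv.ofInjective g hg)), fun v => ?_⟩
  rw [Equiv.extendSubtype_apply_of_mem _ _ ⟨v, rfl⟩]
  have : (Equiv.ofInjective f hf).symm ⟨f v, ⟨v, rfl⟩⟩ = v := Equiv.ofInjective_symm_apply hf v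
  simp [this]

variable {M m n : ℕ}

/-- every rank is at most the total -/
theorem rank_le_of_perm {N : ℕ} (B : Fin m × Fin m → Matrix (Fin N) (Fin N) ℂ)
    (h : ∀ σ : Equiv.Perm (Fin m), ∑ i, (B (i, σ i)).rank ≤ n) (q : Fin m × Fin m) :
    (B q).rank ≤ n := by
  refine le_trans ?_ (h (Equiv.swap q.1 q.2))
  have h1 : (B q).rank = (fun i => (B (i, Equiv.swap q.1 q.2 i)).rank) q.1 := by
    simp only [Equiv.swap_apply_left]
  rw [h1]
  exact Finset.single_le_sum (f := fun i => (B (i, Equiv.swap q.1 q.2 i)).rank)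
    (fun _ _ => Nat.zero_le _) (Finset.mem_univ _)

theorem LimSumPerm.read (h : LimSumPerm M m n) : LimSumRead M n (permP m) := by
  obtain ⟨N, A, B, hB, hlim⟩ := h
  exact ⟨N, A, B, fun s t v => rank_le_of_perm _ (hB s t) v, hlim⟩

theorem LimSumPerm.mono {n' : ℕ} (h : LimSumPerm M m n) (hn : n ≤ n') : LimSumPerm M m n' := by
  obtain ⟨N, A, B, hB, hlim⟩ := h
  exact ⟨N, A, B, fun s t σ => (hB s t σ).trans hn, hlim⟩

theorem LimSumPerm.one_le (h : LimSumPerm M m n) (hm : 1 ≤ m) : 1 ≤ M :=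
  (((h.mono (Nat.le_succ n)).read.limSumDet (by
    rw [Fintype.card_prod, Fintype.card_fin]
    exact Nat.mul_pos (Nat.succ_pos _) (Nat.mul_pos hm hm))).le hm).2

/-- **The section.** -/
theorem LimSumPerm.limSumDet_esf {k L D : ℕ} (h : LimSumPerm M m n) (hDL : D ≤ L)
    (hm : k * (2 * L - D) ≤ m) (hn : 1 ≤ n) :
    ∃ c : ℂ, c ≠ 0 ∧ LimSumDet M n (C c * SE.esf k 1 L D) := by
  classical
  obtain ⟨c, cell, c0, hi1, hi2, hc0, hcell⟩ := esf_cell2 hDL hm
  refine ⟨c0, hc0, ?_⟩
  rw [← hcell]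
  obtain ⟨N, A, B, hB, hlim⟩ := h
  obtain ⟨σ, hσ⟩ := exists_perm_of_injective _ _ hi1 hi2
  have hsum : ∀ s t, ∑ v, (B s t (cell v)).rank ≤ n := by
    intro s t
    refine le_trans ?_ (hB s t σ)
    calc ∑ v, (B s t (cell v)).rank
        = ∑ v, (fun i => (B s t (i, σ i)).rank) (cell v).1 := by
          refine Finset.sum_congr rfl fun v _ => ?_
          simp only [hσ v]
      _ = ∑ i ∈ Finset.univ.map ⟨fun v => (cell v).1, hi1⟩, (B s t (i, σ i)).rank := by
          rw [Finset.sum_map]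
          rfl
      _ ≤ ∑ i, (B s t (i, σ i)).rank :=
          Finset.sum_le_sum_of_subset (Finset.subset_univ _)
  choose P hP hdet using fun s t =>
    exists_small_sum hn (A s t + ∑ q, c q • B s t q) (fun v => B s t (cell v)) (hsum s t)
  refine ⟨P, hP, fun d => ?_⟩
  have h1 : ∀ s, ∑ t, (P s t).det = aeval (cellφ c cell) (∑ t, (affM (A s t) (B s t)).det) := by
    intro s
    rw [map_sum]
    exact Finset.sum_congr rfl fun t _ => (hdet s t).trans (affM_subst _ _ _ _).symm
  simp only [h1]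
  exact SQ.tendsto_linear (n * Fintype.card (Fin m × Fin m)) _ (permP m)
    (fun s => totalDegree_finsetSum_le fun t _ =>
      totalDegree_affM_le _ _ (fun v => rank_le_of_perm _ (hB s t) v)) hlim
    ((lcoeff ℂ d).comp (aeval (cellφ c cell)).toLinearMap)

end Pool.Agent.Work.MP_35c45d_lc.SD
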