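import Mathlib

/-! # Sums of determinants: common definitions

The permanent is not (a limit of) a sum of few determinants of small size.
-/

set_option autoImplicit false

namespace Pool.Agent.Work.MP_35c45d_lc.SD

open MvPolynomial Filter Topology

/-- `f` is a coefficientwise limit of sums of `M` determinants of `n × n` matrices of affine
linear forms. -/
def LimSumDet (M n : ℕ) {ι : Type} (f : MvPolynomial ι ℂ) : Prop :=
  ∃ A : ℕ → Fin M → Matrix (Fin n) (Fin n) (MvPolynomial ι ℂ),
    (∀ s t i j, (A s t i j).totalDegree ≤ 1) ∧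
    ∀ d, Tendsto (fun s => coeff d (∑ t, (A s t).det)) atTop (𝓝 (coeff d f))

/-- The permanent of the generic `m × m` matrix. -/
noncomputable def permP (m : ℕ) : MvPolynomial (Fin m × Fin m) ℂ :=
  (Matrix.of (fun i j : Fin m => (X (i, j) : MvPolynomial (Fin m × Fin m) ℂ))).permanent

/-- `∏ i < k, ∑ a < p, X (i, a) ^ D`. -/
noncomputable def fermat (k p D : ℕ) : MvPolynomial (Fin k × Fin p) ℂ :=
  ∏ i : Fin k, ∑ a : Fin p, X (i, a) ^ D

/-- `f` is, up to a nonzero constant, an affine section of the `m × m` permanent. -/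
def HasSec (m : ℕ) {κ : Type} (f : MvPolynomial κ ℂ) : Prop :=
  ∃ φ : Fin m × Fin m → MvPolynomial κ ℂ, (∀ q, (φ q).totalDegree ≤ 1) ∧
    ∃ c : ℂ, c ≠ 0 ∧ aeval φ (permP m) = C c * f

/-- exponents of degree at most `l` with support in `s` -/
def mons {σ : Type} [DecidableEq σ] (s : Finset σ) (l : ℕ) : Finset (σ →₀ ℕ) :=
  (Finset.range (l + 1)).biUnion fun d => Finset.finsuppAntidiag s d

section upper

variable {ι : Type} {n : ℕ}

/-- The matrix `A` with the diagonal matrix of the dummy variables, multiplied by `v`, added. -/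
noncomputable def bord (v : ℂ) (A : Matrix (Fin n) (Fin n) (MvPolynomial ι ℂ)) :
    Matrix (Fin n) (Fin n) (MvPolynomial (ι ⊕ Fin n) ℂ) :=
  Matrix.of fun i j => rename Sum.inl (A i j) + if i = j then C v * X (Sum.inr i) else 0

/-- minors -/
noncomputable def mnr {R : Type} [CommRing R] {r : ℕ} (B : Matrix (Fin n) (Fin n) R)
    (f g : Fin r → Fin n) : R := (B.submatrix f g).det

/-- iterated derivatives in the variables `Sum.inl (a i)` -/
noncomputable def dk : {k : ℕ} → (Fin k → ι) → MvPolynomial (ι ⊕ Fin n) ℂ →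
    MvPolynomial (ι ⊕ Fin n) ℂ
  | 0, _, P => P
  | (_ + 1), a, P => pderiv (Sum.inl (a 0)) (dk (Fin.tail a) P)

/-- pairs of (row set, column set) of the minors -/
def prs (n k : ℕ) : Finset (Finset (Fin n) × Finset (Fin n)) :=
  Finset.univ.filter fun p => p.1.card = p.2.card ∧ n ≤ p.1.card + k

/-- the upper bound for the dimension -/
def ub (N n k l : ℕ) : ℕ :=
  ∑ p ∈ prs n k, (N + (p.1 ∩ p.2).card + l).choose l

end upper

end Pool.Agent.Work.MP_35c45d_lc.SD
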