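import Pool.Agent.Work.MP_35c45d_lc.SQNum
import Pool.Agent.Work.MP_35c45d_lc.SDNumF

/-! # Numerics of the gadget (the numerics of the final bound are in `SDNumF`) -/

set_option autoImplicit false

namespace Pool.Agent.Work.MP_35c45d_lc.SD

open Finset

/-- parameters of the gadget (compare `SQ.numerics`) -/
theorem num_gadget (ε : ℝ) (hε : 0 < ε) (hε1 : ε < 1) {s0 d0 D0 : ℕ} (hD : 2 ≤ D0) (hDs : D0 < s0)
    (hd : 1 ≤ d0) (hcode : (s0 : ℝ) ^ (2 - ε) ≤ (d0 : ℝ) * (D0 : ℝ)) :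
    ∃ c : ℝ, 0 < c ∧ ∃ E : ℝ, 0 < E ∧ ∃ m₀ : ℕ, ∀ m, m₀ ≤ m → ∃ K q : ℕ, 1 ≤ q ∧
      s0 ^ K + ∑ i ∈ range K, d0 * D0 ^ (i + 1) * s0 ^ (K - 1 - i) + (q - 1) * D0 ^ K ≤ m ∧
      400 ≤ q * d0 ^ K ∧ ((q * d0 ^ K : ℕ) : ℝ) ≤ (m : ℝ) ^ E ∧
      c * (m : ℝ) ^ (1 / E) ≤ ((D0 ^ K : ℕ) : ℝ) ∧
      c * (m : ℝ) ^ (3 - ε) ≤ ((q * d0 ^ K : ℕ) : ℝ) * ((D0 ^ K : ℕ) : ℝ) ^ 2 := by
  have hs0 : 3 ≤ s0 := by omega
  have hs0pos : (0 : ℝ) < s0 := by positivity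
  have hs01 : (1 : ℝ) ≤ s0 := by exact_mod_cast (by omega : 1 ≤ s0)
  -- `d0 ≥ 2`
  have hd2 : 2 ≤ d0 := by
    by_contra hlt
    have h1 : d0 = 1 := by omega
    rw [h1] at hcode
    have h2 : (s0 : ℝ) ≤ (s0 : ℝ) ^ (2 - ε) := by
      calc (s0 : ℝ) = (s0 : ℝ) ^ (1 : ℝ) := (Real.rpow_one _).symm
        _ ≤ (s0 : ℝ) ^ (2 - ε) := Real.rpow_le_rpow_of_exponent_le hs01 (by linarith)
    have h3 : (D0 : ℝ) < s0 := by exact_mod_cast hDs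
    push_cast at hcode
    linarith
  set B : ℕ := 1 + d0 * D0 with hB
  have hB3 : 5 ≤ B := by rw [hB]; nlinarith
  have hBpos : (0 : ℝ) < B := by positivity
  set L : ℝ := 2 * B * s0 with hL
  have hLpos : 0 < L := by positivity
  set E : ℝ := (d0 : ℝ) + s0 + 1 with hE
  have hEpos : 0 < E := by positivity
  refine ⟨min (L ^ (-(1 / E))) (L ^ (-(2 - ε)) / 4), by positivity, E, hEpos,
    2 * B * s0 ^ 9, ?_⟩
  intro m hm
  set K : ℕ := Nat.log s0 (m / (2 * B)) with hK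
  have hmB : s0 ^ 9 ≤ m / (2 * B) := by
    rw [Nat.le_div_iff_mul_le (by omega)]
    calc s0 ^ 9 * (2 * B) = 2 * B * s0 ^ 9 := by ring
      _ ≤ m := hm
  have hK9 : 9 ≤ K := Nat.le_log_of_pow_le (by omega) hmB
  have hs9 : 1 ≤ s0 ^ 9 := Nat.one_le_pow _ _ (by omega)
  have hKlow : 2 * B * s0 ^ K ≤ m := by
    have h1 : s0 ^ K ≤ m / (2 * B) := Nat.pow_log_le_self s0 (by omega)
    rw [Nat.le_div_iff_mul_le (by omega)] at h1
    calc 2 * B * s0 ^ K = s0 ^ K * (2 * B) := by ring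
      _ ≤ m := h1
  have hKup : m < 2 * B * s0 ^ (K + 1) := by
    have h1 : m / (2 * B) < s0 ^ (K + 1) := Nat.lt_pow_succ_log_self (by omega) _
    rw [Nat.div_lt_iff_lt_mul (by omega)] at h1
    calc m < s0 ^ (K + 1) * (2 * B) := h1
      _ = 2 * B * s0 ^ (K + 1) := by ring
  have hDs' : D0 ^ K ≤ s0 ^ K := Nat.pow_le_pow_left hDs.le K
  have hDK : 1 ≤ D0 ^ K := Nat.one_le_pow _ _ (by omega)
  have hm10 : 10 * D0 ^ K ≤ m := by
    calc 10 * D0 ^ K ≤ 2 * B * D0 ^ K := by gcongr; omega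
      _ ≤ 2 * B * s0 ^ K := by gcongr
      _ ≤ m := hKlow
  set q : ℕ := m / (2 * D0 ^ K) with hq
  have hq1 : 1 ≤ q := by
    rw [hq, Nat.le_div_iff_mul_le (by omega)]
    omega
  have hqD : 2 * (q * D0 ^ K) ≤ m := by
    calc 2 * (q * D0 ^ K) = m / (2 * D0 ^ K) * (2 * D0 ^ K) := by rw [hq]; ring
      _ ≤ m := Nat.div_mul_le_self m _
  have hqD' : m ≤ 4 * (q * D0 ^ K) := by
    have h1 := Nat.lt_div_mul_add (a := m) (b := 2 * D0 ^ K) (by omega)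
    have h2 : m < 2 * (q * D0 ^ K) + 2 * D0 ^ K := by
      calc m < m / (2 * D0 ^ K) * (2 * D0 ^ K) + 2 * D0 ^ K := h1
        _ = 2 * (q * D0 ^ K) + 2 * D0 ^ K := by rw [hq]; ring
    omega
  have hm1 : 1 ≤ m := by omega
  have hmpos : (0 : ℝ) < m := by exact_mod_cast hm1
  have hmR1 : (1 : ℝ) ≤ m := by exact_mod_cast hm1
  have hsK : s0 ^ K ≤ m := by
    calc s0 ^ K ≤ 2 * B * s0 ^ K := Nat.le_mul_of_pos_left _ (by omega)
      _ ≤ m := hKlow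
  have h5 : (m : ℝ) / L ≤ (s0 : ℝ) ^ K := by
    rw [div_le_iff₀ hLpos, hL]
    have h6 : (m : ℝ) < 2 * B * (s0 : ℝ) ^ (K + 1) := by exact_mod_cast hKup
    calc (m : ℝ) ≤ 2 * B * (s0 : ℝ) ^ (K + 1) := h6.le
      _ = (s0 : ℝ) ^ K * (2 * B * s0) := by rw [pow_succ]; ring
  refine ⟨K, q, hq1, ?_, ?_, ?_, ?_, ?_⟩
  · have h1 := SQ.num_size (d := d0) hDs K
    rw [← hB] at h1
    have h2 : 2 * (B * s0 ^ K) ≤ m := by
      calc 2 * (B * s0 ^ K) = 2 * B * s0 ^ K := by ring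
        _ ≤ m := hKlow
    have h3 : (q - 1) * D0 ^ K ≤ q * D0 ^ K := Nat.mul_le_mul_right _ (Nat.sub_le _ _)
    omega
  · have h1 : 2 ^ 9 ≤ d0 ^ K := by
      calc 2 ^ 9 ≤ 2 ^ K := Nat.pow_le_pow_right (by omega) hK9
        _ ≤ d0 ^ K := Nat.pow_le_pow_left hd2 K
    calc 400 ≤ 1 * 2 ^ 9 := by norm_num
      _ ≤ q * d0 ^ K := Nat.mul_le_mul hq1 h1
  · have h1 : d0 ≤ s0 ^ d0 := by
      calc d0 ≤ 2 ^ d0 := (Nat.lt_two_pow_self (n := d0)).le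
        _ ≤ s0 ^ d0 := Nat.pow_le_pow_left (by omega) _
    have h2 : d0 ^ K ≤ m ^ d0 := by
      calc d0 ^ K ≤ (s0 ^ d0) ^ K := Nat.pow_le_pow_left h1 K
        _ = (s0 ^ K) ^ d0 := by rw [← pow_mul, ← pow_mul, mul_comm]
        _ ≤ m ^ d0 := Nat.pow_le_pow_left hsK d0
    have h3 : q ≤ m := Nat.div_le_self _ _
    have h4 : q * d0 ^ K ≤ m ^ (d0 + 1) := by
      calc q * d0 ^ K ≤ m * m ^ d0 := Nat.mul_le_mul h3 h2
        _ = m ^ (d0 + 1) := by ring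
    calc ((q * d0 ^ K : ℕ) : ℝ) ≤ ((m ^ (d0 + 1) : ℕ) : ℝ) := by exact_mod_cast h4
      _ = (m : ℝ) ^ ((d0 + 1 : ℕ) : ℝ) := by rw [Real.rpow_natCast]; push_cast; ring
      _ ≤ (m : ℝ) ^ E := by
        apply Real.rpow_le_rpow_of_exponent_le hmR1
        rw [hE]
        push_cast
        linarith
  · have h1 : s0 ≤ D0 ^ s0 := by
      calc s0 ≤ 2 ^ s0 := (Nat.lt_two_pow_self (n := s0)).le
        _ ≤ D0 ^ s0 := Nat.pow_le_pow_left hD _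
    have h2 : (s0 : ℝ) ^ K ≤ ((D0 : ℝ) ^ K) ^ E := by
      have h3 : s0 ^ K ≤ (D0 ^ K) ^ s0 := by
        calc s0 ^ K ≤ (D0 ^ s0) ^ K := Nat.pow_le_pow_left h1 K
          _ = (D0 ^ K) ^ s0 := by rw [← pow_mul, ← pow_mul, mul_comm]
      have h4 : (1 : ℝ) ≤ (D0 : ℝ) ^ K := by exact_mod_cast hDK
      calc (s0 : ℝ) ^ K ≤ ((D0 : ℝ) ^ K) ^ s0 := by exact_mod_cast h3
        _ = ((D0 : ℝ) ^ K) ^ (s0 : ℝ) := (Real.rpow_natCast _ _).symm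
        _ ≤ ((D0 : ℝ) ^ K) ^ E := by
          apply Real.rpow_le_rpow_of_exponent_le h4
          rw [hE]
          linarith [Nat.cast_nonneg (α := ℝ) d0]
    calc min (L ^ (-(1 / E))) (L ^ (-(2 - ε)) / 4) * (m : ℝ) ^ (1 / E)
        ≤ L ^ (-(1 / E)) * (m : ℝ) ^ (1 / E) := by
          gcongr
          exact min_le_left _ _
      _ = ((m : ℝ) / L) ^ (1 / E) := by
          rw [Real.div_rpow hmpos.le hLpos.le, Real.rpow_neg hLpos.le]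
          field_simp
      _ ≤ (((D0 : ℝ) ^ K) ^ E) ^ (1 / E) := by
          gcongr
          exact h5.trans h2
      _ = ((D0 ^ K : ℕ) : ℝ) := by
          rw [← Real.rpow_mul (by positivity), mul_one_div_cancel hEpos.ne', Real.rpow_one]
          push_cast
          rfl
  · have h7 : ((m : ℝ) / L) ^ (2 - ε) ≤ ((d0 : ℝ) * D0) ^ K := by
      calc ((m : ℝ) / L) ^ (2 - ε) ≤ ((s0 : ℝ) ^ K) ^ (2 - ε) :=
            Real.rpow_le_rpow (by positivity) h5 (by linarith)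
        _ = ((s0 : ℝ) ^ (2 - ε)) ^ K := by
            rw [← Real.rpow_natCast, ← Real.rpow_mul hs0pos.le, mul_comm, Real.rpow_mul hs0pos.le,
              Real.rpow_natCast]
        _ ≤ ((d0 : ℝ) * D0) ^ K := pow_le_pow_left₀ (by positivity) hcode K
    have h8 : L ^ (-(2 - ε)) * (m : ℝ) ^ (3 - ε) = m * ((m : ℝ) / L) ^ (2 - ε) := by
      rw [Real.div_rpow hmpos.le hLpos.le, Real.rpow_neg hLpos.le]
      have h9 : (m : ℝ) ^ (3 - ε) = m * (m : ℝ) ^ (2 - ε) := by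
        rw [← Real.rpow_one_add' hmpos.le (by linarith)]
        congr 1
        ring
      rw [h9]
      field_simp
    have hmR : (m : ℝ) ≤ 4 * (q * (D0 : ℝ) ^ K) := by exact_mod_cast hqD'
    calc min (L ^ (-(1 / E))) (L ^ (-(2 - ε)) / 4) * (m : ℝ) ^ (3 - ε)
        ≤ L ^ (-(2 - ε)) / 4 * (m : ℝ) ^ (3 - ε) := by
          gcongr
          exact min_le_right _ _
      _ = m * ((m : ℝ) / L) ^ (2 - ε) / 4 := by rw [← h8]; ring
      _ ≤ (4 * (q * (D0 : ℝ) ^ K)) * ((d0 : ℝ) * D0) ^ K / 4 := by gcongr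
      _ = ((q * d0 ^ K : ℕ) : ℝ) * ((D0 ^ K : ℕ) : ℝ) ^ 2 := by
          push_cast
          rw [mul_pow]
          ring

end Pool.Agent.Work.MP_35c45d_lc.SD
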