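import Pool.Agent.Work.MP_35c45d_lc.SDDefs

/-! # Numerical form of the upper bound -/

set_option autoImplicit false

namespace Pool.Agent.Work.MP_35c45d_lc.SD

open Finset

/-- `binom (N - u + l, l) ≤ (N / (N + l)) ^ u binom (N + l, l)` -/
theorem choose_ratio (N u l : ℕ) (hu : u ≤ N) (hN : 0 < N) :
    ((N - u + l).choose l : ℝ) ≤ ((N : ℝ) / (N + l)) ^ u * ((N + l).choose l : ℝ) := by
  have hNl : (0 : ℝ) < N + l := by positivity
  induction u with
  | zero => simp
  | succ u ih =>
    have ih := ih (by omega)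
    obtain ⟨a, ha⟩ : ∃ a, N - u = a + 1 := ⟨N - u - 1, by omega⟩
    have ha' : N - (u + 1) = a := by omega
    rw [ha'] 
    rw [ha] at ih
    have h1 : (a + 1 + l).choose l * (a + 1) = (a + l).choose l * (a + 1 + l) := by
      have := Nat.add_one_mul_choose_eq (a + l) a
      have h2 : (a + 1 + l).choose (a + 1) = (a + 1 + l).choose l := by
        rw [← Nat.choose_symm_of_eq_add]; omega
      have h3 : (a + l).choose a = (a + l).choose l := by
        rw [← Nat.choose_symm_of_eq_add]; omega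
      have h4 : a + l + 1 = a + 1 + l := by omega
      rw [h4, h3, h2] at this
      linarith
    have h1' : ((a + 1 + l).choose l : ℝ) * (a + 1) = ((a + l).choose l : ℝ) * (a + 1 + l) := by
      exact_mod_cast h1
    have haN : ((a : ℝ) + 1) ≤ N := by
      have : a + 1 ≤ N := by omega
      exact_mod_cast this
    have h2 : ((a + l).choose l : ℝ) ≤ (N : ℝ) / (N + l) * ((a + 1 + l).choose l : ℝ) := by
      rw [div_mul_eq_mul_div, le_div_iff₀ hNl]
      have h5 : (0 : ℝ) < (a : ℝ) + 1 + l := by positivity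
      have h6 : ((a + l).choose l : ℝ) = ((a + 1 + l).choose l : ℝ) * (a + 1) / (a + 1 + l) := by
        field_simp
        linarith
      rw [h6, div_mul_eq_mul_div, div_le_iff₀ h5]
      have h7 : (0 : ℝ) ≤ ((a + 1 + l).choose l : ℝ) := by positivity
      have h8 : (0 : ℝ) ≤ (l : ℝ) := by positivity
      nlinarith [mul_nonneg h7 (mul_nonneg h8 (sub_nonneg.2 haN))]
    calc ((a + l).choose l : ℝ) ≤ (N : ℝ) / (N + l) * ((a + 1 + l).choose l : ℝ) := h2
      _ ≤ (N : ℝ) / (N + l) * (((N : ℝ) / (N + l)) ^ u * ((N + l).choose l : ℝ)) := by gcongr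
      _ = ((N : ℝ) / (N + l)) ^ (u + 1) * ((N + l).choose l : ℝ) := by ring

/-- `binom (N + l - t, l - t) ≤ (l / (N + l)) ^ t binom (N + l, l)`  -/
theorem choose_ratio' (N l t : ℕ) (ht : t ≤ l) (hN : 0 < N) :
    ((N + (l - t)).choose (l - t) : ℝ) ≤ ((l : ℝ) / (N + l)) ^ t * ((N + l).choose l : ℝ) := by
  have hNl : (0 : ℝ) < N + l := by positivity
  induction t with
  | zero => simp
  | succ t ih =>
    have ih := ih (by omega)
    obtain ⟨a, ha⟩ : ∃ a, l - t = a + 1 := ⟨l - t - 1, by omega⟩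
    have ha' : l - (t + 1) = a := by omega
    rw [ha'] 
    rw [ha] at ih
    have h1 : (N + (a + 1)).choose (a + 1) * (a + 1) = (N + a).choose a * (N + a + 1) := by
      have := Nat.add_one_mul_choose_eq (N + a) a
      have h5 : N + (a + 1) = N + a + 1 := by omega
      rw [h5, ← this]
      ring
    have h1' : ((N + (a + 1)).choose (a + 1) : ℝ) * (a + 1) = ((N + a).choose a : ℝ) * (N + a + 1) := by
      exact_mod_cast h1
    have haN : ((a : ℝ) + 1) ≤ l := by
      have : a + 1 ≤ l := by omega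
      exact_mod_cast this
    have h2 : ((N + a).choose a : ℝ) ≤ (l : ℝ) / (N + l) * ((N + (a + 1)).choose (a + 1) : ℝ) := by
      rw [div_mul_eq_mul_div, le_div_iff₀ hNl]
      have h5 : (0 : ℝ) < (N : ℝ) + a + 1 := by positivity
      have h6 : ((N + a).choose a : ℝ) =
          ((N + (a + 1)).choose (a + 1) : ℝ) * (a + 1) / (N + a + 1) := by
        field_simp
        linarith
      rw [h6, div_mul_eq_mul_div, div_le_iff₀ h5]
      have h7 : (0 : ℝ) ≤ ((N + (a + 1)).choose (a + 1) : ℝ) := by positivity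
      have h8 : (0 : ℝ) ≤ (N : ℝ) := by positivity
      nlinarith [mul_nonneg h7 (mul_nonneg h8 (sub_nonneg.2 haN))]
    calc ((N + a).choose a : ℝ) ≤ (l : ℝ) / (N + l) * ((N + (a + 1)).choose (a + 1) : ℝ) := h2
      _ ≤ (l : ℝ) / (N + l) * (((l : ℝ) / (N + l)) ^ t * ((N + l).choose l : ℝ)) := by gcongr
      _ = ((l : ℝ) / (N + l)) ^ (t + 1) * ((N + l).choose l : ℝ) := by ring

theorem sum_pow_card_union (n : ℕ) (x : ℝ) :
    ∑ p : Finset (Fin n) × Finset (Fin n), x ^ (p.1 ∪ p.2).card = (1 + 3 * x) ^ n := by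
  rw [Fintype.sum_prod_type]
  have h1 : ∀ I : Finset (Fin n), ∑ J : Finset (Fin n), x ^ (I ∪ J).card =
      (2 * x) ^ I.card * (1 + x) ^ (n - I.card) := by
    intro I
    have h2 : ∀ J : Finset (Fin n), x ^ (I ∪ J).card =
        x ^ I.card * ∏ i ∈ J, (if i ∈ I then 1 else x) := by
      intro J
      rw [Finset.prod_ite, Finset.prod_const_one, one_mul, Finset.prod_const, ← pow_add]
      congr 1
      have h8 : I ∪ J = I ∪ J.filter (fun i => i ∉ I) := by
        ext i
        simp only [Finset.mem_union, Finset.mem_filter]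
        tauto
      rw [h8, Finset.card_union_of_disjoint]
      rw [Finset.disjoint_left]
      intro i hi hi'
      exact (Finset.mem_filter.1 hi').2 hi
    simp only [h2]
    rw [← Finset.mul_sum]
    have h3 : ∑ J : Finset (Fin n), ∏ i ∈ J, (if i ∈ I then 1 else x) =
        ∏ i : Fin n, (1 + (if i ∈ I then 1 else x)) := by
      rw [Finset.prod_one_add]
      simp
    rw [h3]
    have h4 : ∀ i : Fin n, (1 + (if i ∈ I then (1 : ℝ) else x)) =
        if i ∈ I then 2 else 1 + x := by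
      intro i; split_ifs <;> norm_num
    simp only [h4]
    rw [Finset.prod_ite, Finset.prod_const, Finset.prod_const, mul_pow]
    have h5 : (Finset.univ.filter fun i => i ∈ I) = I := by ext; simp
    have h6 : (Finset.univ.filter fun i => i ∉ I).card = n - I.card := by
      rw [show (Finset.univ.filter fun i => i ∉ I) = Iᶜ by ext; simp, Finset.card_compl,
        Fintype.card_fin]
    rw [h5, h6]
    ring
  simp only [h1]
  have h7 := Fintype.sum_pow_mul_eq_add_pow (Fin n) (2 * x) (1 + x)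
  rw [Fintype.card_fin] at h7
  rw [h7]
  congr 1
  ring

/-- numerical form of the upper bound: with complements `I, J` of the row and column sets the sum is
`≤ ∑ z ^ |I ∪ J| ≤ t ^ (-2k) ∑_{I,J} (t z) ^ |I ∪ J| = t ^ (-2k) (1 + 3 t z) ^ n`,
`t = 2k / (3 n z) ≤ 1`. -/
theorem ub_le (N n k l : ℕ) (hk : 1 ≤ k) (z : ℝ)
    (hz : z = ((N + n : ℕ) : ℝ) / ((N + n + l : ℕ) : ℝ)) (h : 2 * (k : ℝ) ≤ 3 * n * z) :
    (ub N n k l : ℝ) ≤
      (3 * Real.exp 1 * n * z / (2 * k)) ^ (2 * k) * ((N + n + l).choose l : ℝ) := by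
  have hk0 : (0 : ℝ) < k := by exact_mod_cast hk
  have hz0 : 0 ≤ z := by rw [hz]; positivity
  have hn : n ≠ 0 := by
    rintro rfl
    simp at h
    linarith
  have hn0 : (0 : ℝ) < n := by positivity
  have hzp : 0 < z := by
    rcases hz0.lt_or_eq with h1 | h1
    · exact h1
    · rw [← h1] at h; simp at h; linarith
  have hNn : 0 < N + n := by omega
  set t : ℝ := 2 * k / (3 * n * z) with ht
  have h3 : 0 < 3 * (n : ℝ) * z := by positivity
  have ht0 : 0 < t := by positivity
  have ht1 : t ≤ 1 := by rw [ht, div_le_one h3]; exact h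
  set B : ℝ := ((N + n + l).choose l : ℝ) with hB
  have hB0 : 0 ≤ B := by positivity
  have h1 : (ub N n k l : ℝ) ≤
      ∑ p ∈ prs n k, t⁻¹ ^ (2 * k) * (t * z) ^ (p.1ᶜ ∪ p.2ᶜ).card * B := by
    unfold ub
    push_cast
    refine Finset.sum_le_sum fun p hp => ?_
    obtain ⟨hp1, hp2⟩ := (Finset.mem_filter.1 hp).2
    set u := (p.1ᶜ ∪ p.2ᶜ).card with hu
    have hcomp : (p.1 ∩ p.2).card = n - u := by
      have h4 : p.1 ∩ p.2 = (p.1ᶜ ∪ p.2ᶜ)ᶜ := by
        ext i; simp
      rw [h4, Finset.card_compl, Fintype.card_fin]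
    have hun : u ≤ n := by
      have := Finset.card_le_univ (p.1ᶜ ∪ p.2ᶜ)
      rwa [Fintype.card_fin] at this
    have hu2 : u ≤ 2 * k := by
      have h5 := Finset.card_union_le p.1ᶜ p.2ᶜ
      rw [Finset.card_compl, Finset.card_compl, Fintype.card_fin] at h5
      omega
    have h6 := choose_ratio (N + n) u l (by omega) hNn
    have h7 : N + n - u = N + (n - u) := by omega
    rw [h7] at h6
    rw [hcomp]
    have hz' : ((N + n : ℕ) : ℝ) / (((N + n : ℕ) : ℝ) + l) = z := by
      rw [hz]; push_cast; ring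
    rw [hz'] at h6
    refine h6.trans ?_
    have h8 : z ^ u ≤ t⁻¹ ^ (2 * k) * (t * z) ^ u := by
      rw [mul_pow, ← mul_assoc]
      have h9 : (1 : ℝ) ≤ t⁻¹ ^ (2 * k) * t ^ u := by
        have h10 : t ^ (2 * k) ≤ t ^ u := pow_le_pow_of_le_one ht0.le ht1 hu2
        rw [inv_pow, inv_mul_eq_div, one_le_div (by positivity)]
        exact h10
      have h11 : 0 ≤ z ^ u := by positivity
      nlinarith
    exact mul_le_mul_of_nonneg_right h8 hB0
  have h2 : ∑ p ∈ prs n k, t⁻¹ ^ (2 * k) * (t * z) ^ (p.1ᶜ ∪ p.2ᶜ).card * B ≤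
      t⁻¹ ^ (2 * k) * (1 + 3 * (t * z)) ^ n * B := by
    calc ∑ p ∈ prs n k, t⁻¹ ^ (2 * k) * (t * z) ^ (p.1ᶜ ∪ p.2ᶜ).card * B
        ≤ ∑ p : Finset (Fin n) × Finset (Fin n),
            t⁻¹ ^ (2 * k) * (t * z) ^ (p.1ᶜ ∪ p.2ᶜ).card * B :=
          Finset.sum_le_sum_of_subset_of_nonneg (Finset.subset_univ _)
            fun p _ _ => by positivity
      _ = ∑ p : Finset (Fin n) × Finset (Fin n),
            t⁻¹ ^ (2 * k) * (t * z) ^ (p.1 ∪ p.2).card * B := by
          exact ((compl_involutive.toPerm (compl : Finset (Fin n) → _)).prodCongr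
            (compl_involutive.toPerm (compl : Finset (Fin n) → _))).sum_comp
            (fun p : Finset (Fin n) × Finset (Fin n) =>
              t⁻¹ ^ (2 * k) * (t * z) ^ (p.1 ∪ p.2).card * B)
      _ = t⁻¹ ^ (2 * k) * (1 + 3 * (t * z)) ^ n * B := by
          rw [← Finset.sum_mul, ← Finset.mul_sum, sum_pow_card_union]
  refine h1.trans (h2.trans (mul_le_mul_of_nonneg_right ?_ hB0))
  have h4 : 3 * (t * z) = 2 * k / n := by
    rw [ht]; field_simp
  have h5 : (1 + 3 * (t * z)) ^ n ≤ Real.exp (2 * k) := by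
    rw [h4]
    calc (1 + 2 * (k : ℝ) / n) ^ n ≤ (Real.exp (2 * k / n)) ^ n := by
          gcongr
          have := Real.add_one_le_exp (2 * (k : ℝ) / n)
          linarith
      _ = Real.exp (2 * k) := by
          rw [← Real.exp_nat_mul]
          congr 1
          field_simp
  calc t⁻¹ ^ (2 * k) * (1 + 3 * (t * z)) ^ n ≤ t⁻¹ ^ (2 * k) * Real.exp (2 * k) := by gcongr
    _ = (3 * Real.exp 1 * n * z / (2 * k)) ^ (2 * k) := by
        have h6 : Real.exp (2 * k) = Real.exp 1 ^ (2 * k) := by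
          rw [← Real.exp_nat_mul]; push_cast; ring_nf
        rw [h6, ← mul_pow]
        congr 1
        rw [ht]
        field_simp

end Pool.Agent.Work.MP_35c45d_lc.SD
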