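import Pool.Agent.Work.MP_35c45d_lc.SDMonsA
import Pool.Agent.Work.MP_35c45d_lc.SDMonsB

/-! # Counting monomials, and the numerical form of the upper bound

`mem_mons`, `card_mons` are in `SDMonsA`, `choose_ratio`, `choose_ratio'`, `ub_le` in `SDMonsB`. -/
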