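import Mathlib

/-! # Affine matrices whose coefficient matrices have small rank

The determinant of such a matrix is the determinant of a matrix with few non-constant rows. -/

set_option autoImplicit false

namespace Pool.Agent.Work.MP_35c45d_lc.SD

open MvPolynomial

/-- rank factorization -/
theorem rank_factor {α β : Type} [Fintype α] [Fintype β] [DecidableEq β] (B : Matrix α β ℂ)
    {r : ℕ} (h : B.rank ≤ r) : ∃ (U : Matrix α (Fin r) ℂ) (V : Matrix (Fin r) β ℂ), B = U * V := by
  classical
  have h1 : Module.finrank ℂ (LinearMap.range B.mulVecLin) ≤ Module.finrank ℂ (Fin r → ℂ) := by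
    rw [Module.finrank_fin_fun]
    exact h
  obtain ⟨i, hi⟩ := finrank_le_iff_exists_linearMap.1 h1
  obtain ⟨g, hg⟩ := LinearMap.exists_leftInverse_of_injective i (LinearMap.ker_eq_bot.2 hi)
  refine ⟨LinearMap.toMatrix' ((LinearMap.range B.mulVecLin).subtype.comp g),
    LinearMap.toMatrix' (i.comp B.mulVecLin.rangeRestrict), ?_⟩
  rw [← LinearMap.toMatrix'_comp]
  have h2 : ((LinearMap.range B.mulVecLin).subtype.comp g).comp
      (i.comp B.mulVecLin.rangeRestrict) = B.mulVecLin := by
    refine LinearMap.ext fun x => ?_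
    have h3 := LinearMap.congr_fun hg (B.mulVecLin.rangeRestrict x)
    simp only [LinearMap.comp_apply, LinearMap.id_apply] at h3
    simp only [LinearMap.comp_apply, h3]
    rfl
  rw [h2, ← Matrix.toLin'_apply', LinearMap.toMatrix'_toLin']

section block

variable {ι : Type} [Fintype ι] [DecidableEq ι] {N : ℕ}

/-- the affine matrix with constant part `A` and coefficient matrices `B v` -/
noncomputable def affM (A : Matrix (Fin N) (Fin N) ℂ) (B : ι → Matrix (Fin N) (Fin N) ℂ) :
    Matrix (Fin N) (Fin N) (MvPolynomial ι ℂ) :=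
  Matrix.of fun i j => C (A i j) + ∑ v, C (B v i j) * X v

/-- The determinant of an affine matrix whose coefficient matrices have rank at most `r` is the
determinant of a matrix of affine forms all of whose rows except `r * card ι` are constant. -/
theorem det_affM (A : Matrix (Fin N) (Fin N) ℂ) (B : ι → Matrix (Fin N) (Fin N) ℂ) {r : ℕ}
    (hB : ∀ v, (B v).rank ≤ r) :
    ∃ P : Matrix (Fin N ⊕ ι × Fin r) (Fin N ⊕ ι × Fin r) (MvPolynomial ι ℂ),
      P.det = (affM A B).det ∧ (∀ i j, (P i j).totalDegree ≤ 1) ∧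
      ∀ i j, ∃ c : ℂ, P (Sum.inl i) j = C c := by
  classical
  choose U V hUV using fun v => rank_factor (B v) (hB v)
  let P12 : Matrix (Fin N) (ι × Fin r) (MvPolynomial ι ℂ) := Matrix.of fun i q => C (U q.1 i q.2)
  let P21 : Matrix (ι × Fin r) (Fin N) (MvPolynomial ι ℂ) :=
    Matrix.of fun q j => - (C (V q.1 q.2 j) * X q.1)
  refine ⟨Matrix.fromBlocks (A.map C) P12 P21 1, ?_, ?_, ?_⟩
  · rw [Matrix.det_fromBlocks_one₂₂]
    congr 1
    refine Matrix.ext fun i j => ?_
    rw [Matrix.sub_apply, Matrix.mul_apply, Matrix.map_apply]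
    simp only [P12, P21, Matrix.of_apply, affM]
    rw [Fintype.sum_prod_type, sub_eq_add_neg, ← Finset.sum_neg_distrib]
    congr 1
    refine Finset.sum_congr rfl fun v _ => ?_
    rw [hUV v, Matrix.mul_apply, map_sum, Finset.sum_mul, ← Finset.sum_neg_distrib]
    refine Finset.sum_congr rfl fun t _ => ?_
    rw [C_mul]
    ring
  · rintro (i | i) (j | j)
    · simp
    · simp [P12]
    · simp only [Matrix.fromBlocks_apply₂₁, P21, Matrix.of_apply, totalDegree_neg]
      refine (totalDegree_mul _ _).trans ?_
      rw [totalDegree_C, zero_add, totalDegree_X]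
    · rw [Matrix.fromBlocks_apply₂₂, Matrix.one_apply]
      split_ifs <;> simp
  · rintro i (j | j)
    · exact ⟨A i j, by simp⟩
    · exact ⟨U j.1 i j.2, by simp [P12]⟩

end block

end Pool.Agent.Work.MP_35c45d_lc.SD
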