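import Pool.Agent.Work.MP_35c45d_lc.SDRead
import Pool.Agent.Work.MP_35c45d_lc.SDSub
import Pool.Agent.Work.MP_35c45d_lc.SDRows

/-! # Limits of sums of determinants of any size with coefficient matrices of small rank -/

set_option autoImplicit false

namespace Pool.Agent.Work.MP_35c45d_lc.SD

open MvPolynomial Filter Topology

/-- the degree of a determinant in terms of the degrees of the rows -/
theorem totalDegree_det_rows {α κ : Type} [Fintype α] [DecidableEq α]
    (P : Matrix α α (MvPolynomial κ ℂ)) (w : α → ℕ) (h : ∀ i j, (P i j).totalDegree ≤ w i) :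
    P.det.totalDegree ≤ ∑ i, w i := by
  rw [Matrix.det_apply']
  refine totalDegree_finsetSum_le fun σ _ => ?_
  refine (totalDegree_mul _ _).trans ?_
  have h1 : (((Equiv.Perm.sign σ : ℤ) : MvPolynomial κ ℂ)).totalDegree = 0 := by
    have : ((Equiv.Perm.sign σ : ℤ) : MvPolynomial κ ℂ) = C (((Equiv.Perm.sign σ : ℤ) : ℂ)) := by
      rw [map_intCast]
    rw [this, totalDegree_C]
  rw [h1, zero_add]
  refine (totalDegree_finsetProd _ _).trans ?_
  rw [← Equiv.sum_comp σ w]
  exact Finset.sum_le_sum fun i _ => h _ _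

variable {ι κ : Type} [Fintype ι] [DecidableEq ι] [Fintype κ] [DecidableEq κ] {M r : ℕ}

theorem totalDegree_affM_le {N : ℕ} (A : Matrix (Fin N) (Fin N) ℂ)
    (B : ι → Matrix (Fin N) (Fin N) ℂ) (hB : ∀ v, (B v).rank ≤ r) :
    (affM A B).det.totalDegree ≤ r * Fintype.card ι := by
  obtain ⟨P, hP, hP1, hP2⟩ := det_affM A B hB
  rw [← hP]
  refine (totalDegree_det_rows P (Sum.elim (fun _ => 0) (fun _ => 1)) ?_).trans ?_
  · rintro (i | i) j
    · obtain ⟨c, hc⟩ := hP2 i j
      rw [hc, totalDegree_C]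
      exact Nat.zero_le _
    · exact hP1 _ _
  · rw [Fintype.sum_sum_type]
    simp [mul_comm]

/-- `f` is a coefficientwise limit of sums of `M` determinants of matrices of affine linear forms,
of any sizes, in which the coefficient matrix of every variable has rank at most `r` -/
def LimSumRead (M r : ℕ) (f : MvPolynomial ι ℂ) : Prop :=
  ∃ (N : ℕ → Fin M → ℕ) (A : (s : ℕ) → (t : Fin M) → Matrix (Fin (N s t)) (Fin (N s t)) ℂ)
    (B : (s : ℕ) → (t : Fin M) → ι → Matrix (Fin (N s t)) (Fin (N s t)) ℂ),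
    (∀ s t v, (B s t v).rank ≤ r) ∧
    ∀ d, Tendsto (fun s => coeff d (∑ t, (affM (A s t) (B s t)).det)) atTop (𝓝 (coeff d f))

/-- the substitution putting constants or variables in the places of the variables -/
noncomputable def cellφ (c : ι → ℂ) (cell : κ → ι) (q : ι) : MvPolynomial κ ℂ :=
  C (c q) + ∑ v, if cell v = q then X v else 0

omit [DecidableEq κ] in
theorem affM_subst {N : ℕ} (A : Matrix (Fin N) (Fin N) ℂ) (B : ι → Matrix (Fin N) (Fin N) ℂ)
    (c : ι → ℂ) (cell : κ → ι) :
    aeval (cellφ c cell) (affM A B).det =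
      (affM (A + ∑ q, c q • B q) (fun v => B (cell v))).det := by
  rw [AlgHom.map_det]
  congr 1
  refine Matrix.ext fun i j => ?_
  rw [AlgHom.mapMatrix_apply, Matrix.map_apply]
  simp only [affM, Matrix.of_apply, map_add, map_sum, map_mul, aeval_X, cellφ, Matrix.add_apply,
    Matrix.sum_apply, Matrix.smul_apply, smul_eq_mul, aeval_C, algebraMap_eq, mul_add,
    Finset.sum_add_distrib]
  rw [add_assoc]
  congr 1
  congr 1
  · refine Finset.sum_congr rfl fun q _ => ?_
    rw [mul_comm]
  · simp only [Finset.mul_sum]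
    rw [Finset.sum_comm]
    refine Finset.sum_congr rfl fun v _ => ?_
    rw [Finset.sum_eq_single (cell v)]
    · rw [if_pos rfl]
    · intro q _ hq
      rw [if_neg hq.symm, mul_zero]
    · intro h
      exact absurd (Finset.mem_univ _) h

omit [DecidableEq κ] in
theorem LimSumRead.subst {f : MvPolynomial ι ℂ} (hf : LimSumRead M r f) (c : ι → ℂ)
    (cell : κ → ι) : LimSumRead M r (aeval (cellφ c cell) f) := by
  obtain ⟨N, A, B, hB, hlim⟩ := hf
  refine ⟨N, fun s t => A s t + ∑ q, c q • B s t q, fun s t v => B s t (cell v),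
    fun s t v => hB s t _, fun d => ?_⟩
  have h1 : ∀ s, ∑ t, (affM (A s t + ∑ q, c q • B s t q) (fun v => B s t (cell v))).det =
      aeval (cellφ c cell) (∑ t, (affM (A s t) (B s t)).det) := by
    intro s
    rw [map_sum]
    exact Finset.sum_congr rfl fun t _ => (affM_subst _ _ _ _).symm
  simp only [h1]
  exact SQ.tendsto_linear (r * Fintype.card ι) _ f (fun s => totalDegree_finsetSum_le fun t _ =>
    totalDegree_affM_le _ _ (hB s t)) hlim ((lcoeff ℂ d).comp (aeval (cellφ c cell)).toLinearMap)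

/-- one determinant -/
theorem exists_small_read {N : ℕ} (hR : 1 ≤ r * Fintype.card ι) (A : Matrix (Fin N) (Fin N) ℂ)
    (B : ι → Matrix (Fin N) (Fin N) ℂ) (hB : ∀ v, (B v).rank ≤ r) :
    ∃ P : Matrix (Fin (r * Fintype.card ι)) (Fin (r * Fintype.card ι)) (MvPolynomial ι ℂ),
      (∀ i j, (P i j).totalDegree ≤ 1) ∧ P.det = (affM A B).det := by
  classical
  obtain ⟨P, hP, hP1, hP2⟩ := det_affM A B hB
  obtain ⟨Q, hQ, hdet⟩ := exists_small_fintype hR P hP1
    ((Finset.univ : Finset (ι × Fin r)).map Function.Embedding.inr) (by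
      rw [Finset.card_map, Finset.card_univ, Fintype.card_prod, Fintype.card_fin, mul_comm]) (by
      rintro (i | i) hi j
      · exact hP2 i j
      · exact absurd (Finset.mem_map.2 ⟨i, Finset.mem_univ _, rfl⟩) hi)
  exact ⟨Q, hQ, hdet.trans hP⟩

/-- only the number of variables and the rank matter, not the size -/
theorem LimSumRead.limSumDet {f : MvPolynomial ι ℂ} (hf : LimSumRead M r f)
    (hR : 1 ≤ r * Fintype.card ι) : LimSumDet M (r * Fintype.card ι) f := by
  obtain ⟨N, A, B, hB, hlim⟩ := hf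
  choose P hP hdet using fun s t => exists_small_read hR (A s t) (B s t) (hB s t)
  refine ⟨P, hP, fun d => ?_⟩
  simp only [hdet]
  exact hlim d

end Pool.Agent.Work.MP_35c45d_lc.SD
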