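import Pool.Agent.Work.MP_35c45d_lc.SDMonsA

/-! # A basis of the polynomial ring adapted to a system of homogeneous elements

`Phi q θ m = ∏ v, X v ^ (m v % q v) * θ v ^ (m v / q v)`. If every `X v ^ q v` is a combination of
monomials of smaller weight modulo the ideal generated by the `θ`, these are linearly independent.
-/

set_option autoImplicit false

namespace Pool.Agent.Work.MP_35c45d_lc.SE

open MvPolynomial Finset

section defs

variable {σ : Type} [Fintype σ]

/-- the adapted polynomials -/
noncomputable def Phi (q : σ → ℕ) (θ : σ → MvPolynomial σ ℂ) (m : σ →₀ ℕ) : MvPolynomial σ ℂ :=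
  ∏ v, (X v ^ (m v % q v) * θ v ^ (m v / q v))

/-- weight of a monomial -/
def wt (ω : σ → ℕ) (m : σ →₀ ℕ) : ℕ := ∑ v, m v * ω v

/-- combinations of monomials of degree at most `N` and weight less than `w` -/
noncomputable def low (ω : σ → ℕ) (N w : ℕ) : Submodule ℂ (MvPolynomial σ ℂ) :=
  Submodule.span ℂ {p | ∃ μ : σ →₀ ℕ, μ.degree ≤ N ∧ wt ω μ < w ∧ p = monomial μ 1}

theorem wt_add (ω : σ → ℕ) (m m' : σ →₀ ℕ) : wt ω (m + m') = wt ω m + wt ω m' := by
  simp [wt, add_mul, Finset.sum_add_distrib]

theorem wt_single [DecidableEq σ] (ω : σ → ℕ) (v : σ) (a : ℕ) :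
    wt ω (Finsupp.single v a) = a * ω v := by
  unfold wt
  rw [Finset.sum_eq_single v]
  · simp
  · intro u _ hu
    rw [Finsupp.single_apply, if_neg hu.symm, zero_mul]
  · intro h
    exact absurd (mem_univ _) h

/-- the span of the adapted polynomials of degree at most `N` -/
noncomputable def UN (q : σ → ℕ) (θ : σ → MvPolynomial σ ℂ) (N : ℕ) :
    Submodule ℂ (MvPolynomial σ ℂ) :=
  Submodule.span ℂ (Phi q θ '' {m | m.degree ≤ N})

end defs

variable {σ : Type} [Fintype σ] [DecidableEq σ]

theorem Phi_add (q : σ → ℕ) (hq : ∀ v, 1 ≤ q v) (θ : σ → MvPolynomial σ ℂ) (m : σ →₀ ℕ) (v : σ) :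
    Phi q θ (m + Finsupp.single v (q v)) = Phi q θ m * θ v := by
  unfold Phi
  rw [← Finset.mul_prod_erase univ _ (mem_univ v),
    ← Finset.mul_prod_erase univ (fun v => X v ^ (m v % q v) * θ v ^ (m v / q v)) (mem_univ v)]
  have h1 : ∀ u ∈ univ.erase v,
      (X u ^ ((m + Finsupp.single v (q v)) u % q u) * θ u ^ ((m + Finsupp.single v (q v)) u / q u) :
        MvPolynomial σ ℂ) = X u ^ (m u % q u) * θ u ^ (m u / q u) := by
    intro u hu
    have : (m + Finsupp.single v (q v)) u = m u := by
      rw [Finsupp.add_apply, Finsupp.single_apply, if_neg (ne_of_mem_erase hu).symm, add_zero]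
    rw [this]
  have h2 : (m + Finsupp.single v (q v)) v = m v + q v := by simp
  rw [prod_congr rfl h1, h2, Nat.add_mod_right, Nat.add_div_right _ (hq v), pow_succ]
  ring

theorem Phi_totalDegree_le (q : σ → ℕ) (θ : σ → MvPolynomial σ ℂ)
    (hθ : ∀ v, (θ v).totalDegree ≤ q v) (m : σ →₀ ℕ) : (Phi q θ m).totalDegree ≤ m.degree := by
  unfold Phi
  refine (totalDegree_finsetProd _ _).trans ?_
  rw [Finsupp.degree_eq_sum]
  refine Finset.sum_le_sum fun v _ => ?_
  refine (totalDegree_mul _ _).trans ?_
  have h1 : (X v ^ (m v % q v) : MvPolynomial σ ℂ).totalDegree ≤ m v % q v := by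
    refine (totalDegree_pow _ _).trans ?_
    rw [totalDegree_X, mul_one]
  have h2 : (θ v ^ (m v / q v)).totalDegree ≤ (m v / q v) * q v :=
    (totalDegree_pow _ _).trans (Nat.mul_le_mul_left _ (hθ v))
  have h3 := Nat.mod_add_div (m v) (q v)
  rw [mul_comm] at h3
  omega

theorem Phi_box (q : σ → ℕ) (θ : σ → MvPolynomial σ ℂ) (m : σ →₀ ℕ) (h : ∀ v, m v < q v) :
    Phi q θ m = monomial m 1 := by
  unfold Phi
  rw [monomial_eq, C_1, one_mul, Finsupp.prod_fintype _ _ (fun v => pow_zero _)]
  refine prod_congr rfl fun v _ => ?_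
  rw [Nat.mod_eq_of_lt (h v), Nat.div_eq_of_lt (h v), pow_zero, mul_one]

theorem mem_of_monomials (S : Submodule ℂ (MvPolynomial σ ℂ)) (N : ℕ)
    (h : ∀ m : σ →₀ ℕ, m.degree ≤ N → monomial m 1 ∈ S) (p : MvPolynomial σ ℂ)
    (hp : p.totalDegree ≤ N) : p ∈ S := by
  rw [p.as_sum]
  refine Submodule.sum_mem _ fun m hm => ?_
  have h1 : monomial m (coeff m p) = coeff m p • (monomial m 1 : MvPolynomial σ ℂ) := by
    rw [smul_monomial, smul_eq_mul, mul_one]
  rw [h1]
  refine Submodule.smul_mem _ _ (h m ?_)
  have h2 := le_totalDegree hm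
  rw [Finsupp.degree_apply]
  exact h2.trans hp

theorem UN_mul (q : σ → ℕ) (hq : ∀ v, 1 ≤ q v) (θ : σ → MvPolynomial σ ℂ) (N : ℕ) (v : σ)
    (p : MvPolynomial σ ℂ) (hp : p ∈ UN q θ N) : p * θ v ∈ UN q θ (N + q v) := by
  have h1 : UN q θ N ≤ (UN q θ (N + q v)).comap (LinearMap.mulRight ℂ (θ v)) := by
    refine Submodule.span_le.2 ?_
    rintro _ ⟨m, hm, rfl⟩
    change Phi q θ m * θ v ∈ UN q θ (N + q v)
    rw [← Phi_add q hq θ m v]
    refine Submodule.subset_span ⟨_, ?_, rfl⟩
    change (m + Finsupp.single v (q v)).degree ≤ N + q v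
    rw [map_add, Finsupp.degree_single]
    exact Nat.add_le_add_right hm _
  exact h1 hp

/-- every monomial of degree at most `N` is a combination of adapted polynomials -/
theorem monomial_mem (q : σ → ℕ) (hq : ∀ v, 1 ≤ q v) (θ : σ → MvPolynomial σ ℂ)
    (ω : σ → ℕ) (hrule : ∀ v, ∃ s : σ → MvPolynomial σ ℂ,
      (∀ u, s u ≠ 0 → (s u).totalDegree + q u ≤ q v) ∧
      X v ^ q v - ∑ u, s u * θ u ∈ low ω (q v) (q v * ω v)) :
    ∀ (N : ℕ) (m : σ →₀ ℕ), m.degree ≤ N → monomial m 1 ∈ UN q θ N := by
  intro N
  induction N using Nat.strong_induction_on with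
  | _ N ih =>
    have inner : ∀ (W : ℕ) (m : σ →₀ ℕ), wt ω m = W → m.degree ≤ N →
        monomial m 1 ∈ UN q θ N := by
      intro W
      induction W using Nat.strong_induction_on with
      | _ W ihW =>
        intro m hW hm
        by_cases hbox : ∀ v, m v < q v
        · rw [← Phi_box q θ m hbox]
          exact Submodule.subset_span ⟨m, hm, rfl⟩
        · push Not at hbox
          obtain ⟨v, hv⟩ := hbox
          obtain ⟨s, hs, hlow⟩ := hrule v
          set m0 := m - Finsupp.single v (q v) with hm0
          have hmm : m = m0 + Finsupp.single v (q v) := by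
            rw [hm0, tsub_add_cancel_of_le]
            exact Finsupp.single_le_iff.2 hv
          have hdeg : m.degree = m0.degree + q v := by
            conv_lhs => rw [hmm]
            rw [map_add, Finsupp.degree_single]
          have hwt : wt ω m = wt ω m0 + q v * ω v := by
            conv_lhs => rw [hmm]
            rw [wt_add, wt_single]
          have h1 : (monomial m 1 : MvPolynomial σ ℂ) =
              monomial m0 1 * (X v ^ q v - ∑ u, s u * θ u) +
                ∑ u, (monomial m0 1 * s u) * θ u := by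
            rw [mul_sub, Finset.mul_sum, X_pow_eq_monomial, monomial_mul, one_mul, ← hmm]
            simp only [mul_assoc]
            rw [sub_add_cancel]
          rw [h1]
          refine Submodule.add_mem _ ?_ (Submodule.sum_mem _ fun u _ => ?_)
          · have h2 : low ω (q v) (q v * ω v) ≤
                (UN q θ N).comap (LinearMap.mulLeft ℂ (monomial m0 1)) := by
              refine Submodule.span_le.2 ?_
              rintro _ ⟨μ, hμ1, hμ2, rfl⟩
              change monomial m0 1 * monomial μ 1 ∈ UN q θ N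
              rw [monomial_mul, one_mul]
              refine ihW (wt ω (m0 + μ)) ?_ _ rfl ?_
              · rw [wt_add]
                omega
              · rw [map_add]
                omega
            exact h2 hlow
          · by_cases hsu : s u = 0
            · rw [hsu, mul_zero, zero_mul]
              exact Submodule.zero_mem _
            · have h3 := hs u hsu
              have h4 : (monomial m0 1 * s u).totalDegree ≤ N - q u := by
                refine (totalDegree_mul _ _).trans ?_
                have h5 : (monomial m0 (1 : ℂ)).totalDegree = m0.degree := by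
                  rw [totalDegree_monomial _ one_ne_zero, Finsupp.degree_apply]
                  rfl
                omega
              have hqu := hq u
              have h6 := mem_of_monomials (UN q θ (N - q u)) (N - q u)
                (ih (N - q u) (by omega)) _ h4
              have h7 := UN_mul q hq θ (N - q u) u _ h6
              rwa [Nat.sub_add_cancel (by omega)] at h7
    intro m hm
    exact inner _ m rfl hm

/-- the counting half -/
theorem li_of_UN (q : σ → ℕ) (θ : σ → MvPolynomial σ ℂ)
    (hmem : ∀ (N : ℕ) (m : σ →₀ ℕ), m.degree ≤ N → monomial m 1 ∈ UN q θ N) :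
    LinearIndependent ℂ (Phi q θ) := by
  classical
  have hN : ∀ N : ℕ, LinearIndependent ℂ
      (fun x : (SD.mons (univ : Finset σ) N) => Phi q θ x.1) := by
    intro N
    rw [linearIndependent_iff_card_le_finrank_span]
    have h1 : LinearIndependent ℂ
        (fun x : (SD.mons (univ : Finset σ) N) => (monomial x.1 1 : MvPolynomial σ ℂ)) := by
      have h2 := (basisMonomials σ ℂ).linearIndependent.comp
        (fun x : (SD.mons (univ : Finset σ) N) => x.1) Subtype.val_injective
      simpa [Function.comp_def] using h2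
    rw [← finrank_span_eq_card h1]
    have hfin : FiniteDimensional ℂ (Submodule.span ℂ (Set.range
        (fun x : (SD.mons (univ : Finset σ) N) => Phi q θ x.1))) :=
      FiniteDimensional.span_of_finite ℂ (Set.finite_range _)
    refine Submodule.finrank_mono ?_
    refine Submodule.span_le.2 ?_
    rintro _ ⟨x, rfl⟩
    have h3 := hmem N x.1 (SD.mem_mons.1 x.2).2
    refine (Submodule.span_mono ?_ : UN q θ N ≤ _) h3
    rintro _ ⟨m, hm, rfl⟩
    exact ⟨⟨m, SD.mem_mons.2 ⟨Finset.subset_univ _, hm⟩⟩, rfl⟩
  rw [linearIndependent_iff_finset_linearIndependent]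
  intro s
  have hs : ∀ x ∈ s, x ∈ SD.mons (univ : Finset σ) (s.sup fun m => m.degree) := fun x hx =>
    SD.mem_mons.2 ⟨Finset.subset_univ _, Finset.le_sup (f := fun m : σ →₀ ℕ => m.degree) hx⟩
  exact (hN (s.sup fun m => m.degree)).comp
    (fun x : s => (⟨x.1, hs x.1 x.2⟩ : (SD.mons (univ : Finset σ) (s.sup fun m => m.degree))))
    (fun x y hxy => Subtype.ext (congrArg (fun z => z.1) hxy))

/-- If every `X v ^ q v` is, modulo the ideal of the `θ` (with the natural degree bounds), a
combination of monomials of smaller weight, then the adapted polynomials are linearly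
independent. -/
theorem Phi_linearIndependent (q : σ → ℕ) (hq : ∀ v, 1 ≤ q v) (θ : σ → MvPolynomial σ ℂ)
    (ω : σ → ℕ) (hrule : ∀ v, ∃ s : σ → MvPolynomial σ ℂ,
      (∀ u, s u ≠ 0 → (s u).totalDegree + q u ≤ q v) ∧
      X v ^ q v - ∑ u, s u * θ u ∈ low ω (q v) (q v * ω v)) :
    LinearIndependent ℂ (Phi q θ) :=
  li_of_UN q θ (monomial_mem q hq θ ω hrule)

theorem Phi_isHomogeneous (q : σ → ℕ) (θ : σ → MvPolynomial σ ℂ)
    (hθ : ∀ v, (θ v).IsHomogeneous (q v)) (m : σ →₀ ℕ) :
    (Phi q θ m).IsHomogeneous m.degree := by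
  unfold Phi
  rw [Finsupp.degree_eq_sum]
  refine IsHomogeneous.prod _ _ _ fun v _ => ?_
  have h3 := Nat.mod_add_div (m v) (q v)
  have h1 : (X v ^ (m v % q v) : MvPolynomial σ ℂ).IsHomogeneous (1 * (m v % q v)) :=
    (isHomogeneous_X ℂ v).pow _
  have h2 : (θ v ^ (m v / q v)).IsHomogeneous (q v * (m v / q v)) := (hθ v).pow _
  have h4 := h1.mul h2
  rwa [one_mul, h3] at h4

/-- homogeneous version: it is enough that the adapted polynomials span everything -/
theorem phi_indep (q : σ → ℕ) (θ : σ → MvPolynomial σ ℂ)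
    (hθ : ∀ v, (θ v).IsHomogeneous (q v))
    (hspan : ⊤ ≤ Submodule.span ℂ (Set.range (Phi q θ))) : LinearIndependent ℂ (Phi q θ) := by
  classical
  refine li_of_UN q θ fun N m hm => ?_
  have h1 : Submodule.span ℂ (Set.range (Phi q θ)) ≤
      (UN q θ N).comap (homogeneousComponent m.degree) := by
    refine Submodule.span_le.2 ?_
    rintro _ ⟨m', rfl⟩
    change homogeneousComponent m.degree (Phi q θ m') ∈ UN q θ N
    rw [homogeneousComponent_of_mem ((mem_homogeneousSubmodule _ _).2
      (Phi_isHomogeneous q θ hθ m'))]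
    split_ifs with h
    · refine Submodule.subset_span ⟨m', ?_, rfl⟩
      change m'.degree ≤ N
      omega
    · exact Submodule.zero_mem _
  have h2 : homogeneousComponent m.degree (monomial m (1 : ℂ)) ∈ UN q θ N :=
    h1 (hspan Submodule.mem_top)
  rwa [homogeneousComponent_of_mem ((mem_homogeneousSubmodule _ _).2
    (isHomogeneous_monomial _ rfl)), if_pos rfl] at h2

end Pool.Agent.Work.MP_35c45d_lc.SE
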