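import Pool.Agent.Work.MP_35c45d_lc.SEDefs
import Pool.Agent.Work.MP_35c45d_lc.SDLow
import Pool.Agent.Work.MP_35c45d_lc.SQEsym

/-! # The iterated derivative of the product of direct sums of elementary symmetric functions -/

set_option autoImplicit false

namespace Pool.Agent.Work.MP_35c45d_lc.SE

open MvPolynomial SD

/-- one derivative in each factor of a product of polynomials in disjoint sets of variables -/
theorem dk_prod_aux {α : Type} {k n : ℕ} (g : Fin k → MvPolynomial ((Fin k × α) ⊕ Fin n) ℂ)
    (hg : ∀ i j, j ≠ i → ∀ a, pderiv (Sum.inl (j, a)) (g i) = 0)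
    (hg' : ∀ i j, j ≠ i → ∀ a b, pderiv (Sum.inl (j, b)) (pderiv (Sum.inl (i, a)) (g i)) = 0)
    (a : Fin k → α) : ∀ (k' : ℕ) (b : Fin k' → Fin k), Function.Injective b →
    dk (n := n) (fun t => (b t, a (b t))) (∏ i, g i) =
      (∏ t, pderiv (Sum.inl (b t, a (b t))) (g (b t))) *
        ∏ i ∈ Finset.univ \ Finset.univ.image b, g i := by
  classical
  intro k'
  induction k' with
  | zero =>
    intro b _
    simp [dk]
  | succ k' ih =>
    intro b hb
    have hb' : Function.Injective (Fin.tail b) := fun i j hij => Fin.succ_injective _ (hb hij)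
    have hb0 : ∀ t, Fin.tail b t ≠ b 0 := fun t h => by
      have := hb h
      exact absurd this (Fin.succ_ne_zero t)
    have h1 : dk (n := n) (fun t => (b t, a (b t))) (∏ i, g i) =
        pderiv (Sum.inl (b 0, a (b 0))) (dk (n := n) (fun t => (Fin.tail b t, a (Fin.tail b t)))
          (∏ i, g i)) := rfl
    rw [h1, ih (Fin.tail b) hb']
    have hset : Finset.univ \ Finset.univ.image (Fin.tail b) =
        insert (b 0) (Finset.univ \ Finset.univ.image b) := by
      ext i
      simp only [Finset.mem_sdiff, Finset.mem_univ, true_and, Finset.mem_image, not_exists,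
        Finset.mem_insert]
      constructor
      · intro h
        by_cases hi : i = b 0
        · exact Or.inl hi
        · right
          intro t
          refine Fin.cases (fun h => hi h.symm) (fun t => h t) t
      · rintro (rfl | h)
        · exact hb0
        · exact fun t => h t.succ
    have hnot : b 0 ∉ Finset.univ \ Finset.univ.image b := by
      simp
    rw [hset, Finset.prod_insert hnot]
    set v : (Fin k × α) ⊕ Fin n := Sum.inl (b 0, a (b 0)) with hv
    set P1 : MvPolynomial ((Fin k × α) ⊕ Fin n) ℂ :=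
      ∏ t, pderiv (Sum.inl (Fin.tail b t, a (Fin.tail b t))) (g (Fin.tail b t)) with hP1
    set P2 : MvPolynomial ((Fin k × α) ⊕ Fin n) ℂ :=
      ∏ i ∈ Finset.univ \ Finset.univ.image b, g i with hP2
    have d1 : pderiv v P1 = 0 := by
      refine pderiv_prod_zero _ _ _ fun t _ => ?_
      exact hg' _ _ (fun h => hb0 t h.symm) _ _
    have d2 : pderiv v P2 = 0 := by
      refine pderiv_prod_zero _ _ _ fun i hi => ?_
      exact hg _ _ (fun h => hnot (by rw [h]; exact hi)) _
    rw [Derivation.leibniz, Derivation.leibniz, d1, d2, Fin.prod_univ_succ]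
    have h3 : (∏ t : Fin k', pderiv (Sum.inl (b t.succ, a (b t.succ))) (g (b t.succ)) :
      MvPolynomial ((Fin k × α) ⊕ Fin n) ℂ) = P1 := rfl
    rw [h3, ← hv]
    simp only [smul_eq_mul]
    ring

theorem dk_prod {α : Type} {k n : ℕ} (g : Fin k → MvPolynomial ((Fin k × α) ⊕ Fin n) ℂ)
    (hg : ∀ i j, j ≠ i → ∀ a, pderiv (Sum.inl (j, a)) (g i) = 0) (a : Fin k → α)
    (hg' : ∀ i j, j ≠ i → ∀ a b, pderiv (Sum.inl (j, b)) (pderiv (Sum.inl (i, a)) (g i)) = 0) :
    dk (n := n) (fun i => (i, a i)) (∏ i, g i) = ∏ i, pderiv (Sum.inl (i, a i)) (g i) := by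
  classical
  have h := dk_prod_aux g hg hg' a k id Function.injective_id
  simp only [id_eq] at h
  rw [h, Finset.image_id, Finset.sdiff_self, Finset.prod_empty, mul_one]

section es

variable {σ J : Type} [DecidableEq J]

omit [DecidableEq J] in
/-- an elementary symmetric function of variables different from `v` -/
theorem pderiv_es_zero (x : J → σ) (v : σ) (s : Finset J) (hv : ∀ j ∈ s, x j ≠ v) (k : ℕ) :
    pderiv v (SQ.es (fun j => (X (x j) : MvPolynomial σ ℂ)) k s) = 0 := by
  classical
  rw [SQ.es, map_sum]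
  refine Finset.sum_eq_zero fun t ht => ?_
  refine pderiv_prod_zero _ _ _ fun j hj => ?_
  exact pderiv_X_of_ne (hv j ((Finset.mem_powersetCard.1 ht).1 hj))

/-- the derivative of an elementary symmetric function -/
theorem pderiv_es_self (x : J → σ) (hx : Function.Injective x) (s : Finset J) {j : J} (hj : j ∈ s)
    (k : ℕ) : pderiv (x j) (SQ.es (fun j => (X (x j) : MvPolynomial σ ℂ)) (k + 1) s) =
      SQ.es (fun j => (X (x j) : MvPolynomial σ ℂ)) k (s.erase j) := by
  classical
  rw [SQ.es_erase _ _ hj, map_add, Derivation.leibniz,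
    pderiv_es_zero x (x j) _ (fun j' hj' h => (Finset.mem_erase.1 hj').1 (hx h)),
    pderiv_es_zero x (x j) _ (fun j' hj' h => (Finset.mem_erase.1 hj').1 (hx h)), pderiv_X_self]
  simp

end es

/-- the iterated derivative of `esf` -/
theorem dk_esf {k T L D n : ℕ} (a : Fin k → Fin T × Fin L) :
    dk (n := n) (fun i => (i, a i)) (rename Sum.inl (esf k T L (D + 1))) =
      ∏ i : Fin k, SQ.es (fun v => X (Sum.inl (i, (a i).1, v))) D
        (Finset.univ.erase (a i).2) := by
  classical
  have h1 : rename Sum.inl (esf k T L (D + 1)) = ∏ i : Fin k, ∑ t : Fin T,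
      SQ.es (fun v => (X (Sum.inl (i, t, v)) :
        MvPolynomial ((Fin k × Fin T × Fin L) ⊕ Fin n) ℂ)) (D + 1) Finset.univ := by
    simp only [esf, SQ.es, map_prod, map_sum, rename_X]
  have hpd : ∀ (i : Fin k) (a : Fin T × Fin L), pderiv (Sum.inl (i, a)) (∑ t : Fin T,
      SQ.es (fun v => (X (Sum.inl (i, t, v)) :
        MvPolynomial ((Fin k × Fin T × Fin L) ⊕ Fin n) ℂ)) (D + 1) Finset.univ) =
      SQ.es (fun v => X (Sum.inl (i, a.1, v))) D (Finset.univ.erase a.2) := by
    rintro i ⟨t, v⟩
    rw [map_sum, Finset.sum_eq_single t]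
    · exact pderiv_es_self (fun v => Sum.inl (i, t, v)) (fun v v' h => by
        simpa using h) Finset.univ (Finset.mem_univ v) D
    · intro t' _ ht'
      refine pderiv_es_zero (fun v => Sum.inl (i, t', v)) _ _ (fun j _ h => ht' ?_) _
      simp only [Sum.inl.injEq, Prod.mk.injEq] at h
      exact h.2.1
    · intro h
      exact absurd (Finset.mem_univ _) h
  rw [h1, dk_prod]
  · exact Finset.prod_congr rfl fun i _ => hpd i (a i)
  · intro i j hij b
    rw [map_sum]
    refine Finset.sum_eq_zero fun t _ => ?_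
    refine pderiv_es_zero (fun v => Sum.inl (i, t, v)) _ _ (fun j' _ h => hij ?_) _
    simp only [Sum.inl.injEq, Prod.mk.injEq] at h
    exact h.1.symm
  · intro i j hij b b'
    rw [hpd]
    refine pderiv_es_zero (fun v => Sum.inl (i, b.1, v)) _ _ (fun j' _ h => hij ?_) _
    simp only [Sum.inl.injEq, Prod.mk.injEq] at h
    exact h.1.symm

end Pool.Agent.Work.MP_35c45d_lc.SE
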