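import Pool.Agent.Work.MP_35c45d_lc.SENum

/-! # The final numerics, exponential form -/

set_option autoImplicit false

namespace Pool.Agent.Work.MP_35c45d_lc.SE

open Filter

/-- The final numerics. Take `m' ≈ C (ν / m) ^ (1 + ε / 2)`, `k = m / m'`. -/
theorem num_final' (ε : ℝ) (hε : 0 < ε) (hε1 : ε < 1) (c : ℝ) (hc : 0 < c)
    (m₀ : ℕ) (T Q : ℕ → ℕ) (hTQ : ∀ m', m₀ ≤ m' → 400 ≤ T m' * (Q m' + 1) ∧ T m' ≤ m' ∧
      Q m' ≤ m' ∧ c * (m' : ℝ) ^ (1 - ε / 8) ≤ (Q m' : ℝ) ∧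
      c * (m' : ℝ) ^ (2 - ε / 8) ≤ (T m' : ℝ) * (Q m' : ℝ)) :
    ∃ c' : ℝ, 0 < c' ∧ ∀ (m M : ℕ) (ν : ℝ), 1 ≤ m → (m : ℝ) ≤ ν → 1 ≤ M →
      (∀ k m' : ℕ, 1 ≤ k → m₀ ≤ m' → k * m' ≤ m → 10000 ≤ T m' * (Q m' + 1) →
        2 * Real.log (2 * (T m' * (Q m' + 1))) ≤ (Q m' : ℝ) - 1 →
        100 * ν * Real.log (2 * (T m' * (Q m' + 1))) ≤
          k * ((Q m' : ℝ) - 1) * √(T m' * (Q m' + 1)) → (2 : ℝ) ^ k ≤ M) →
      c' * (m : ℝ) ^ (2 + ε) ≤ ν ^ (1 + ε) * Real.log (M + 1) := by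
  have hsc : 0 < √c := Real.sqrt_pos.mpr hc
  have hev : ∀ᶠ x : ℝ in atTop, (m₀ : ℝ) ≤ x ∧ 1 ≤ x ∧
      (2 * Real.log 4 + 1) + 4 * Real.log x ≤ c * x ^ (1 - ε / 8) ∧
      100 * Real.log 4 + 200 * Real.log x ≤ c * √c / 4 * x ^ (7 * ε / 48) ∧
      10000 + 0 * Real.log x ≤ c * x ^ (2 - ε / 8) := by
    filter_upwards [eventually_ge_atTop (m₀ : ℝ), eventually_ge_atTop (1 : ℝ),
      SD.ev_log (2 * Real.log 4 + 1) 4 (1 - ε / 8) c (by linarith) hc (by positivity),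
      SD.ev_log (100 * Real.log 4) 200 (7 * ε / 48) (c * √c / 4) (by positivity) (by positivity)
        (by positivity),
      SD.ev_log 10000 0 (2 - ε / 8) c (by linarith) hc le_rfl] with x h1 h2 h4 h5 h6
    exact ⟨h1, h2, h4, h5, h6⟩
  obtain ⟨m1, hm1⟩ := eventually_atTop.mp (tendsto_natCast_atTop_atTop.eventually hev)
  set C : ℝ := (m1 : ℝ) + 1 with hC
  have hC1 : 1 ≤ C := by
    rw [hC]
    have : (0 : ℝ) ≤ m1 := Nat.cast_nonneg _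
    linarith
  have hCpos : 0 < C := by linarith
  refine ⟨1 / (8 * C), by positivity, ?_⟩
  intro m M ν hm hmν hM H
  have hm' : (1 : ℝ) ≤ m := by exact_mod_cast hm
  have hmpos : (0 : ℝ) < m := by linarith
  have hνpos : (0 : ℝ) < ν := by linarith
  have hM' : (1 : ℝ) ≤ M := by exact_mod_cast hM
  have hlog2 : (1 / 2 : ℝ) ≤ Real.log (M + 1) := by
    have h1 : Real.log 2 ≤ Real.log (M + 1) := Real.log_le_log (by norm_num) (by linarith)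
    have h2 := Real.log_two_gt_d9
    linarith
  set A : ℝ := ν / m with hA
  have hA1 : 1 ≤ A := by rwa [hA, one_le_div hmpos]
  have hApos : 0 < A := by linarith
  have hνA : ν = m * A := by rw [hA]; field_simp
  have hA2 : A ^ (1 + ε / 2) ≤ A ^ (1 + ε) :=
    Real.rpow_le_rpow_of_exponent_le hA1 (by linarith)
  have hν2 : ν ^ (1 + ε) = (m : ℝ) ^ (1 + ε) * A ^ (1 + ε) := by
    rw [hνA, Real.mul_rpow hmpos.le hApos.le]
  have hmm : (m : ℝ) ^ (2 + ε) = (m : ℝ) ^ (1 + ε) * m := by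
    rw [← Real.rpow_add_one hmpos.ne']
    congr 1
    ring
  have hmp : (0 : ℝ) < (m : ℝ) ^ (1 + ε) := Real.rpow_pos_of_pos hmpos _
  have hAp : (0 : ℝ) < A ^ (1 + ε) := Real.rpow_pos_of_pos hApos _
  set y : ℝ := C * A ^ (1 + ε / 2) with hy
  have hAy : A ^ (1 + ε / 2) ≤ y := by
    rw [hy]
    have h2 : (0 : ℝ) ≤ A ^ (1 + ε / 2) := Real.rpow_nonneg hApos.le _
    nlinarith
  have hA3 : 1 ≤ A ^ (1 + ε / 2) := Real.one_le_rpow hA1 (by linarith)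
  have hyC : C ≤ y := by
    rw [hy]
    nlinarith
  have hypos : 0 < y := by linarith
  have hy1 : 1 ≤ y := by linarith
  by_cases hbig : (m : ℝ) < 2 * y
  · -- nothing to prove
    have h1 : (m : ℝ) ≤ 2 * C * A ^ (1 + ε) := by
      rw [hy] at hbig
      nlinarith
    calc 1 / (8 * C) * (m : ℝ) ^ (2 + ε) = 1 / (8 * C) * ((m : ℝ) ^ (1 + ε) * m) := by rw [hmm]
      _ ≤ 1 / (8 * C) * ((m : ℝ) ^ (1 + ε) * (2 * C * A ^ (1 + ε))) := by gcongr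
      _ = ((m : ℝ) ^ (1 + ε) * A ^ (1 + ε)) * (1 / 4) := by field_simp; ring
      _ ≤ ((m : ℝ) ^ (1 + ε) * A ^ (1 + ε)) * Real.log (M + 1) := by
          gcongr
          linarith
      _ = ν ^ (1 + ε) * Real.log (M + 1) := by rw [hν2]
  rw [not_lt] at hbig
  set m' : ℕ := ⌈y⌉₊ with hm'def
  have hm'y : y ≤ (m' : ℝ) := Nat.le_ceil y
  have hm'2 : (m' : ℝ) ≤ 2 * y := by
    have := (Nat.ceil_lt_add_one (by linarith : 0 ≤ y)).le
    linarith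
  have hm'pos : (0 : ℝ) < m' := by linarith
  have hm'1 : (1 : ℝ) ≤ m' := by linarith
  have hm'posN : 0 < m' := by exact_mod_cast hm'pos
  have hm'm : m' ≤ m := by
    have : (m' : ℝ) ≤ m := hm'2.trans hbig
    exact_mod_cast this
  have hm1m' : m1 ≤ m' := by
    have : (m1 : ℝ) ≤ m' := by linarith
    exact_mod_cast this
  obtain ⟨hB0, -, hB1, hB2, hB3⟩ := hm1 m' hm1m'
  have hm0 : m₀ ≤ m' := by exact_mod_cast hB0
  obtain ⟨hT1, hT2, hQ1, hQ2, hTQ1⟩ := hTQ m' hm0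
  set k : ℕ := m / m' with hk
  have hk1 : 1 ≤ k := Nat.div_pos hm'm hm'posN
  have hkm : k * m' ≤ m := Nat.div_mul_le_self m m'
  have hk2 : (m : ℝ) ≤ 2 * k * m' := by
    have h1 : m < (k + 1) * m' := by
      have h0 := Nat.lt_mul_div_succ m hm'posN
      rw [hk, mul_comm]
      exact h0
    have h2 : (m : ℝ) < (k + 1) * m' := by exact_mod_cast h1
    have h3 : (1 : ℝ) ≤ k := by exact_mod_cast hk1
    nlinarith
  have hkpos : (0 : ℝ) < k := by exact_mod_cast hk1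
  -- the logarithm
  have hT2' : (T m' : ℝ) ≤ m' := by exact_mod_cast hT2
  have hQ1' : (Q m' : ℝ) ≤ m' := by exact_mod_cast hQ1
  have hw400 : (400 : ℝ) ≤ (T m' : ℝ) * ((Q m' : ℝ) + 1) := by exact_mod_cast hT1
  have hQ0 : (0 : ℝ) ≤ Q m' := Nat.cast_nonneg _
  have hT0 : (0 : ℝ) ≤ T m' := Nat.cast_nonneg _
  have hlogm : 0 ≤ Real.log m' := Real.log_nonneg hm'1
  have hlog : Real.log (2 * ((T m' : ℝ) * ((Q m' : ℝ) + 1))) ≤ Real.log 4 + 2 * Real.log m' := by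
    have h1 : 2 * ((T m' : ℝ) * ((Q m' : ℝ) + 1)) ≤ 4 * (m' : ℝ) ^ 2 := by
      have : (T m' : ℝ) * ((Q m' : ℝ) + 1) ≤ m' * (m' + 1) := by gcongr
      nlinarith
    calc Real.log (2 * ((T m' : ℝ) * ((Q m' : ℝ) + 1))) ≤ Real.log (4 * (m' : ℝ) ^ 2) :=
          Real.log_le_log (by linarith) h1
      _ = Real.log 4 + 2 * Real.log m' := by
        rw [Real.log_mul (by norm_num) (by positivity), Real.log_pow]
        norm_num
  have hlog4 : 0 ≤ Real.log 4 := Real.log_nonneg (by norm_num)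
  have hQ2' : 2 ≤ (Q m' : ℝ) := by
    have h4 : (1.38 : ℝ) ≤ Real.log 4 := by
      have h5 : Real.log 4 = 2 * Real.log 2 := by
        rw [show (4 : ℝ) = 2 ^ 2 by norm_num, Real.log_pow]
        norm_num
      have h2 := Real.log_two_gt_d9
      rw [h5]
      linarith
    linarith
  have hcond1 : 2 * Real.log (2 * ((T m' : ℝ) * ((Q m' : ℝ) + 1))) ≤ (Q m' : ℝ) - 1 := by
    linarith
  -- the square root
  have hsqrt : √c * (m' : ℝ) ^ (1 - ε / 16) ≤ √((T m' : ℝ) * ((Q m' : ℝ) + 1)) := by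
    have h1 : √(c * (m' : ℝ) ^ (2 - ε / 8)) ≤ √((T m' : ℝ) * ((Q m' : ℝ) + 1)) := by
      apply Real.sqrt_le_sqrt
      nlinarith
    rw [Real.sqrt_mul hc.le] at h1
    have h2 : √((m' : ℝ) ^ (2 - ε / 8)) = (m' : ℝ) ^ (1 - ε / 16) := by
      rw [Real.sqrt_eq_rpow, ← Real.rpow_mul hm'pos.le]
      congr 1
      ring
    rwa [h2] at h1
  have hmain : c * √c / 2 * (m' : ℝ) ^ (2 - 3 * ε / 16) ≤
      ((Q m' : ℝ) - 1) * √((T m' : ℝ) * ((Q m' : ℝ) + 1)) := by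
    have h1 : c / 2 * (m' : ℝ) ^ (1 - ε / 8) ≤ (Q m' : ℝ) - 1 := by linarith
    have h3 : (m' : ℝ) ^ (2 - 3 * ε / 16) = (m' : ℝ) ^ (1 - ε / 8) * (m' : ℝ) ^ (1 - ε / 16) := by
      rw [← Real.rpow_add hm'pos]
      congr 1
      ring
    have h4 : (0 : ℝ) < (m' : ℝ) ^ (1 - ε / 8) := Real.rpow_pos_of_pos hm'pos _
    have h5 : (0 : ℝ) < (m' : ℝ) ^ (1 - ε / 16) := Real.rpow_pos_of_pos hm'pos _
    calc c * √c / 2 * (m' : ℝ) ^ (2 - 3 * ε / 16)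
        = (c / 2 * (m' : ℝ) ^ (1 - ε / 8)) * (√c * (m' : ℝ) ^ (1 - ε / 16)) := by rw [h3]; ring
      _ ≤ ((Q m' : ℝ) - 1) * √((T m' : ℝ) * ((Q m' : ℝ) + 1)) := by
        apply mul_le_mul h1 hsqrt (by positivity) (by linarith)
  -- `A ≤ m' ^ (1 - ε / 3)`
  have hAm : A ≤ (m' : ℝ) ^ (1 - ε / 3) := by
    calc A = A ^ (1 : ℝ) := (Real.rpow_one A).symm
      _ ≤ A ^ ((1 + ε / 2) * (1 - ε / 3)) := by
        refine Real.rpow_le_rpow_of_exponent_le hA1 ?_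
        nlinarith
      _ = (A ^ (1 + ε / 2)) ^ (1 - ε / 3) := by rw [← Real.rpow_mul hApos.le]
      _ ≤ (m' : ℝ) ^ (1 - ε / 3) :=
        Real.rpow_le_rpow (by positivity) (hAy.trans hm'y) (by linarith)
  have hcond0 : 10000 ≤ T m' * (Q m' + 1) := by
    have h1 : (10000 : ℝ) ≤ (T m' : ℝ) * ((Q m' : ℝ) + 1) := by nlinarith
    exact_mod_cast h1
  have hcond2 : 100 * ν * Real.log (2 * ((T m' : ℝ) * ((Q m' : ℝ) + 1))) ≤
      k * ((Q m' : ℝ) - 1) * √((T m' : ℝ) * ((Q m' : ℝ) + 1)) := by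
    have h6 : (m' : ℝ) ^ (2 - 3 * ε / 16) = m' * ((m' : ℝ) ^ (1 - ε / 3) *
        (m' : ℝ) ^ (7 * ε / 48)) := by
      rw [← Real.rpow_add hm'pos, ← Real.rpow_one_add' hm'pos.le (by linarith)]
      congr 1
      ring
    have hL : 0 ≤ Real.log 4 + 2 * Real.log m' := by linarith
    calc 100 * ν * Real.log (2 * ((T m' : ℝ) * ((Q m' : ℝ) + 1)))
        ≤ 100 * ν * (Real.log 4 + 2 * Real.log m') := by gcongr
      _ = m * (A * (100 * Real.log 4 + 200 * Real.log m')) := by rw [hνA]; ring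
      _ ≤ m * ((m' : ℝ) ^ (1 - ε / 3) * (c * √c / 4 * (m' : ℝ) ^ (7 * ε / 48))) := by
        gcongr
      _ ≤ (2 * k * m') * ((m' : ℝ) ^ (1 - ε / 3) * (c * √c / 4 * (m' : ℝ) ^ (7 * ε / 48))) := by
        gcongr
      _ = k * (c * √c / 2 * (m' : ℝ) ^ (2 - 3 * ε / 16)) := by rw [h6]; ring
      _ ≤ k * (((Q m' : ℝ) - 1) * √((T m' : ℝ) * ((Q m' : ℝ) + 1))) := by gcongr
      _ = k * ((Q m' : ℝ) - 1) * √((T m' : ℝ) * ((Q m' : ℝ) + 1)) := by ring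
  have hfin := H k m' hk1 hm0 hkm hcond0 hcond1 hcond2
  have hlogM : (k : ℝ) / 2 ≤ Real.log (M + 1) := by
    have h1 : Real.log ((2 : ℝ) ^ k) ≤ Real.log (M + 1) :=
      Real.log_le_log (by positivity) (by linarith)
    rw [Real.log_pow] at h1
    have h2 := Real.log_two_gt_d9
    nlinarith
  have hkA : (m : ℝ) / (8 * C * A ^ (1 + ε)) ≤ (k : ℝ) / 2 := by
    rw [div_le_iff₀ (by positivity)]
    have h1 : (m' : ℝ) ≤ 2 * C * A ^ (1 + ε) := by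
      calc (m' : ℝ) ≤ 2 * y := hm'2
        _ = 2 * C * A ^ (1 + ε / 2) := by rw [hy]; ring
        _ ≤ 2 * C * A ^ (1 + ε) := by gcongr
    calc (m : ℝ) ≤ 2 * k * m' := hk2
      _ ≤ 2 * k * (2 * C * A ^ (1 + ε)) := by gcongr
      _ = k / 2 * (8 * C * A ^ (1 + ε)) := by ring
  calc 1 / (8 * C) * (m : ℝ) ^ (2 + ε)
      = ((m : ℝ) ^ (1 + ε) * A ^ (1 + ε)) * (m / (8 * C * A ^ (1 + ε))) := by
        rw [hmm]
        field_simp
    _ ≤ ((m : ℝ) ^ (1 + ε) * A ^ (1 + ε)) * Real.log (M + 1) := by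
        gcongr
        exact hkA.trans hlogM
    _ = ν ^ (1 + ε) * Real.log (M + 1) := by rw [hν2]

/-- For `ν ≥ m δ` the second condition of `num_final'` implies `50 δ log (2 w) ≤ Q - 1`. -/
theorem num_delta {m k m' T Q : ℕ} {ν δ : ℝ} (hm : 1 ≤ m) (hδ : m * δ ≤ ν)
    (hkm : k * m' ≤ m) (hT : T ≤ m') (hQ : Q ≤ m') (hT1 : 1 ≤ T) (hQ1 : 1 ≤ Q)
    (h : 100 * ν * Real.log (2 * (T * (Q + 1))) ≤ k * ((Q : ℝ) - 1) * √(T * (Q + 1))) :
    50 * δ * Real.log (2 * (T * (Q + 1))) ≤ (Q : ℝ) - 1 := by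
  have hm0 : (0 : ℝ) < m := by exact_mod_cast hm
  have hT' : (T : ℝ) ≤ m' := by exact_mod_cast hT
  have hQ' : (Q : ℝ) ≤ m' := by exact_mod_cast hQ
  have hT1' : (1 : ℝ) ≤ T := by exact_mod_cast hT1
  have hQ1' : (1 : ℝ) ≤ Q := by exact_mod_cast hQ1
  have hm' : (1 : ℝ) ≤ m' := by linarith
  have hkm' : (k : ℝ) * m' ≤ m := by exact_mod_cast hkm
  have hk0 : (0 : ℝ) ≤ k := Nat.cast_nonneg _
  have hs : √((T : ℝ) * ((Q : ℝ) + 1)) ≤ 2 * m' := by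
    rw [Real.sqrt_le_left (by linarith)]
    have : (T : ℝ) * ((Q : ℝ) + 1) ≤ m' * (m' + 1) := by gcongr
    nlinarith
  have hL : 0 ≤ Real.log (2 * ((T : ℝ) * ((Q : ℝ) + 1))) := by
    apply Real.log_nonneg
    nlinarith
  have h1 : (k : ℝ) * ((Q : ℝ) - 1) * √((T : ℝ) * ((Q : ℝ) + 1)) ≤ 2 * m * ((Q : ℝ) - 1) := by
    calc (k : ℝ) * ((Q : ℝ) - 1) * √((T : ℝ) * ((Q : ℝ) + 1))
        ≤ k * ((Q : ℝ) - 1) * (2 * m') := by
          refine mul_le_mul_of_nonneg_left hs (mul_nonneg hk0 (by linarith))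
      _ = 2 * (k * m') * ((Q : ℝ) - 1) := by ring
      _ ≤ 2 * m * ((Q : ℝ) - 1) := by
          refine mul_le_mul_of_nonneg_right (by linarith) (by linarith)
  have h2 : 100 * (m * δ) * Real.log (2 * ((T : ℝ) * ((Q : ℝ) + 1))) ≤ 2 * m * ((Q : ℝ) - 1) := by
    refine le_trans ?_ (h.trans h1)
    refine mul_le_mul_of_nonneg_right ?_ hL
    linarith
  have h3 : (2 * m) * (50 * δ * Real.log (2 * ((T : ℝ) * ((Q : ℝ) + 1)))) ≤
      (2 * m) * ((Q : ℝ) - 1) := by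
    calc (2 * m) * (50 * δ * Real.log (2 * ((T : ℝ) * ((Q : ℝ) + 1))))
        = 100 * (m * δ) * Real.log (2 * ((T : ℝ) * ((Q : ℝ) + 1))) := by ring
      _ ≤ _ := h2
  exact le_of_mul_le_mul_left h3 (by linarith)

end Pool.Agent.Work.MP_35c45d_lc.SE
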