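import Pool.Agent.Work.MP_35c45d_lc.SEBasis
import Pool.Agent.Work.MP_35c45d_lc.SQEsym

/-! # A homogeneous basis adapted to elementary symmetric functions: spanning -/

set_option autoImplicit false
set_option linter.unusedSectionVars false

namespace Pool.Agent.Work.MP_35c45d_lc.SE

open MvPolynomial

section Phi

variable {σ : Type} [Fintype σ] [DecidableEq σ]

variable (q : σ → ℕ) (θ : σ → MvPolynomial σ ℂ)

theorem Phi_zero : Phi q θ 0 = 1 := by
  unfold Phi
  simp

theorem Phi_theta (hq : ∀ v, 1 ≤ q v) (m : σ →₀ ℕ) (v : σ) :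
    θ v * Phi q θ m = Phi q θ (m + Finsupp.single v (q v)) := by
  rw [Phi_add q hq, mul_comm]

theorem Phi_X (m : σ →₀ ℕ) (v : σ) (s : ℕ) (hs : m v % q v + s < q v) :
    X v ^ s * Phi q θ m = Phi q θ (m + Finsupp.single v s) := by
  unfold Phi
  rw [← Finset.mul_prod_erase _ _ (Finset.mem_univ v),
    ← Finset.mul_prod_erase _ _ (Finset.mem_univ v)]
  have h1 : ∏ u ∈ Finset.univ.erase v, (X u ^ (m u % q u) * θ u ^ (m u / q u)) =
      ∏ u ∈ Finset.univ.erase v, (X u ^ ((m + Finsupp.single v s) u % q u) *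
        θ u ^ ((m + Finsupp.single v s) u / q u)) := by
    refine Finset.prod_congr rfl fun u hu => ?_
    rw [Finsupp.add_apply, Finsupp.single_eq_of_ne (Finset.ne_of_mem_erase hu), add_zero]
  have h2 : (m v + s) % q v = m v % q v + s := by
    rw [Nat.add_mod, Nat.mod_eq_of_lt (a := s) (by omega), Nat.mod_eq_of_lt hs]
  have h3 : (m v + s) / q v = m v / q v := by
    have e1 := Nat.div_add_mod (m v + s) (q v)
    have e2 := Nat.div_add_mod (m v) (q v)
    rw [h2] at e1
    have h4 : q v * ((m v + s) / q v) = q v * (m v / q v) := by omega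
    exact Nat.eq_of_mul_eq_mul_left (by omega) h4
  rw [← h1, Finsupp.add_apply, Finsupp.single_eq_same, h2, h3, pow_add]
  ring

/-- the stabiliser of a subspace -/
def Stab (V : Submodule ℂ (MvPolynomial σ ℂ)) : Subalgebra ℂ (MvPolynomial σ ℂ) where
  carrier := {x | ∀ y ∈ V, x * y ∈ V}
  mul_mem' := by
    intro a b ha hb y hy
    rw [mul_assoc]
    exact ha _ (hb _ hy)
  add_mem' := by
    intro a b ha hb y hy
    rw [add_mul]
    exact V.add_mem (ha _ hy) (hb _ hy)
  algebraMap_mem' := by
    intro c y hy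
    rw [← Algebra.smul_def]
    exact V.smul_mem _ hy

theorem mem_Stab {V : Submodule ℂ (MvPolynomial σ ℂ)} {x : MvPolynomial σ ℂ} :
    x ∈ Stab V ↔ ∀ y ∈ V, x * y ∈ V := Iff.rfl

theorem mem_Stab_span {x : MvPolynomial σ ℂ}
    (h : ∀ m, x * Phi q θ m ∈ Submodule.span ℂ (Set.range (Phi q θ))) :
    x ∈ Stab (Submodule.span ℂ (Set.range (Phi q θ))) := by
  intro y hy
  refine Submodule.span_induction (p := fun y _ => x * y ∈ _) ?_ ?_ ?_ ?_ hy
  · rintro _ ⟨m, rfl⟩
    exact h m
  · rw [mul_zero]
    exact Submodule.zero_mem _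
  · intro a b _ _ ha hb
    rw [mul_add]
    exact Submodule.add_mem _ ha hb
  · intro c a _ ha
    rw [mul_smul_comm]
    exact Submodule.smul_mem _ _ ha

theorem theta_mem (hq : ∀ v, 1 ≤ q v) (v : σ) :
    θ v ∈ Stab (Submodule.span ℂ (Set.range (Phi q θ))) := by
  refine mem_Stab_span q θ fun m => ?_
  rw [Phi_theta q θ hq]
  exact Submodule.subset_span ⟨_, rfl⟩

theorem X_mem (hq : ∀ v, 1 ≤ q v) (v : σ) (a : ℕ → MvPolynomial σ ℂ)
    (ha : ∀ s, a s ∈ Stab (Submodule.span ℂ (Set.range (Phi q θ))))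
    (h : X v ^ q v = ∑ s ∈ Finset.range (q v), a s * X v ^ s) :
    X v ∈ Stab (Submodule.span ℂ (Set.range (Phi q θ))) := by
  refine mem_Stab_span q θ fun m => ?_
  by_cases hm : m v % q v + 1 < q v
  · have := Phi_X q θ m v 1 hm
    rw [pow_one] at this
    rw [this]
    exact Submodule.subset_span ⟨_, rfl⟩
  · have hlt := Nat.mod_lt (m v) (hq v)
    have hmod : m v % q v = q v - 1 := by omega
    -- remove the powers of `X v`
    have hle : q v - 1 ≤ m v := by
      rw [← hmod]
      exact Nat.mod_le _ _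
    obtain ⟨m', rfl⟩ : ∃ m', m = m' + Finsupp.single v (q v - 1) := by
      refine ⟨m - Finsupp.single v (q v - 1), ?_⟩
      rw [tsub_add_cancel_of_le]
      exact Finsupp.single_le_iff.2 hle
    rw [Finsupp.add_apply, Finsupp.single_eq_same] at hmod
    have hm' : m' v % q v = 0 := by
      have e1 := Nat.div_add_mod (m' v + (q v - 1)) (q v)
      rw [hmod] at e1
      have e2 : m' v = q v * ((m' v + (q v - 1)) / q v) := by omega
      rw [e2]
      exact Nat.mul_mod_right _ _
    have e3 := Phi_X q θ m' v (q v - 1) (by rw [hm']; have := hq v; omega)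
    rw [← e3, ← mul_assoc, ← pow_succ']
    have e4 : q v - 1 + 1 = q v := by have := hq v; omega
    rw [e4, h, Finset.sum_mul]
    refine Submodule.sum_mem _ fun s hs => ?_
    rw [mul_assoc, Phi_X q θ m' v s (by rw [hm']; have := Finset.mem_range.1 hs; omega)]
    exact ha s _ (Submodule.subset_span ⟨_, rfl⟩)

theorem span_eq_top (h : ∀ v, X v ∈ Stab (Submodule.span ℂ (Set.range (Phi q θ)))) :
    Submodule.span ℂ (Set.range (Phi q θ)) = ⊤ := by
  rw [eq_top_iff]
  intro x _
  have h1 : Stab (Submodule.span ℂ (Set.range (Phi q θ))) = ⊤ := by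
    rw [eq_top_iff, ← MvPolynomial.adjoin_range_X, Algebra.adjoin_le_iff]
    rintro _ ⟨v, rfl⟩
    exact h v
  have h2 : x ∈ Stab (Submodule.span ℂ (Set.range (Phi q θ))) := by
    rw [h1]
    exact Algebra.mem_top
  have h3 := h2 1 (Submodule.subset_span ⟨0, Phi_zero q θ⟩)
  rwa [mul_one] at h3

end Phi

section Es

variable {R : Type} [CommRing R] [Algebra ℂ R] {J : Type} [DecidableEq J]

theorem es_erase_expand (r : J → R) {s : Finset J} {j : J} (hj : j ∈ s) (k : ℕ) :
    SQ.es r k (s.erase j) = ∑ p ∈ Finset.range (k + 1), (-r j) ^ p * SQ.es r (k - p) s := by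
  induction k with
  | zero => simp [SQ.es_zero]
  | succ k ih =>
    have h1 := SQ.es_erase r k hj
    rw [Finset.sum_range_succ']
    have h2 : ∑ p ∈ Finset.range (k + 1), (-r j) ^ (p + 1) * SQ.es r (k + 1 - (p + 1)) s =
        -r j * SQ.es r k (s.erase j) := by
      rw [ih, Finset.mul_sum]
      refine Finset.sum_congr rfl fun p _ => ?_
      rw [pow_succ, Nat.add_sub_add_right]
      ring
    rw [h2, pow_zero, one_mul, Nat.sub_zero, h1]
    ring

/-- the initial segments -/
def seg (L n : ℕ) : Finset (Fin L) := Finset.univ.filter fun u => (u : ℕ) < n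

theorem seg_univ (L : ℕ) : seg L L = Finset.univ := by
  unfold seg
  ext u
  simp

theorem seg_erase {L n : ℕ} (h : n < L) : (seg L (n + 1)).erase ⟨n, h⟩ = seg L n := by
  unfold seg
  ext u
  simp only [Finset.mem_erase, Finset.mem_filter, Finset.mem_univ, true_and, ne_eq, Fin.ext_iff]
  omega

theorem card_seg_le {L n : ℕ} : (seg L n).card ≤ n := by
  have h1 : (seg L n).image (Fin.val : Fin L → ℕ) ⊆ Finset.range n := by
    intro x hx
    obtain ⟨u, hu, rfl⟩ := Finset.mem_image.1 hx
    exact Finset.mem_range.2 (Finset.mem_filter.1 hu).2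
  have h2 := Finset.card_le_card h1
  rw [Finset.card_image_of_injective _ Fin.val_injective, Finset.card_range] at h2
  exact h2

/-- isolating the top power in the expansion -/
theorem top_power (A : Subalgebra ℂ R) (x : R) (k : ℕ) (hk : 1 ≤ k) (f : ℕ → R)
    (hf : ∀ p, p ≤ k → f p ∈ A) (y : R) (hy : y ∈ A)
    (h : y = ∑ p ∈ Finset.range (k + 1), (-x) ^ p * f p) (h1 : f k = 1) :
    ∃ a : ℕ → R, (∀ s, a s ∈ A) ∧ x ^ k = ∑ s ∈ Finset.range k, a s * x ^ s := by
  rw [Finset.sum_range_succ, h1, mul_one] at h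
  -- `(-1)^k x^k = y - ∑ (-x)^p f p`
  refine ⟨fun s => if s < k then (-1) ^ k * ((if s = 0 then y else 0) - (-1) ^ s * f s) else 0,
    fun s => ?_, ?_⟩
  · have hn : ∀ p : ℕ, ((-1 : R)) ^ p ∈ A := fun p => A.pow_mem (A.neg_mem A.one_mem) p
    by_cases hs : s < k
    · simp only [if_pos hs]
      refine A.mul_mem (hn _) (A.sub_mem ?_ (A.mul_mem (hn _) (hf _ hs.le)))
      split_ifs
      · exact hy
      · exact A.zero_mem
    · simp only [if_neg hs]
      exact A.zero_mem
  · have h2 : ∑ s ∈ Finset.range k, (if s < k then (-1) ^ k * ((if s = 0 then y else 0) -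
        (-1) ^ s * f s) else 0) * x ^ s = (-1) ^ k * (y - ∑ p ∈ Finset.range k, (-x) ^ p * f p) := by
      have h3 : ∀ s ∈ Finset.range k, (if s < k then (-1) ^ k * ((if s = 0 then y else 0) -
          (-1) ^ s * f s) else 0) * x ^ s =
          (-1) ^ k * ((if s = 0 then y else 0) * x ^ s - (-x) ^ s * f s) := by
        intro s hs
        rw [if_pos (Finset.mem_range.1 hs), neg_pow x s]
        ring
      rw [Finset.sum_congr rfl h3, ← Finset.mul_sum, Finset.sum_sub_distrib]
      congr 2
      rw [Finset.sum_eq_single 0]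
      · simp
      · intro s _ hs
        rw [if_neg hs, zero_mul]
      · intro h4
        exact absurd (Finset.mem_range.2 hk) h4
    rw [h2]
    have h5 : y - ∑ p ∈ Finset.range k, (-x) ^ p * f p = (-x) ^ k := by
      rw [h]
      ring
    rw [h5, ← mul_pow]
    congr 1
    ring

/-- all variables of a group are in a subalgebra `A` with the following closure properties -/
theorem chain {L D : ℕ} (hD : 2 ≤ D) (A : Subalgebra ℂ R) (r : Fin L → R)
    (h1 : ∀ j, j < D → SQ.es r j Finset.univ ∈ A)
    (h2 : ∀ v : Fin L, D - 1 ≤ (v : ℕ) → SQ.es r (D - 1) (Finset.univ.erase v) ∈ A)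
    (hX : ∀ (v : Fin L) (a : ℕ → R), (∀ s, a s ∈ A) →
      r v ^ (min ((v : ℕ) + 1) (D - 1)) =
        ∑ s ∈ Finset.range (min ((v : ℕ) + 1) (D - 1)), a s * r v ^ s → r v ∈ A) :
    ∀ v, r v ∈ A := by
  have good : ∀ v : Fin L, D - 1 ≤ (v : ℕ) → r v ∈ A := by
    intro v hv
    obtain ⟨a, ha, h3⟩ := top_power A (r v) (D - 1) (by omega)
      (fun p => SQ.es r (D - 1 - p) Finset.univ) (fun p _ => h1 _ (by omega)) _ (h2 v hv)
      (es_erase_expand r (Finset.mem_univ v) (D - 1)) (by simp [SQ.es_zero])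
    have h4 : min ((v : ℕ) + 1) (D - 1) = D - 1 := by omega
    exact hX v a ha (by rw [h4]; exact h3)
  have main : ∀ d n : ℕ, n + d = L → ∀ v : Fin L, n ≤ (v : ℕ) → r v ∈ A := by
    intro d
    induction d with
    | zero =>
      intro n hn v hv
      have := v.2
      omega
    | succ d ih =>
      intro n hn v hv
      have ih' := ih (n + 1) (by omega)
      rcases Nat.lt_or_ge n (v : ℕ) with hlt | hge
      · exact ih' v hlt
      have hvn : (v : ℕ) = n := by omega
      by_cases hDn : D - 1 ≤ n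
      · exact good v (by omega)
      have hseg : ∀ e n' : ℕ, n' + e = L → n + 1 ≤ n' → ∀ q, q < D →
          SQ.es r q (seg L n') ∈ A := by
        intro e
        induction e with
        | zero =>
          intro n' hn' _ q hq
          have : n' = L := by omega
          rw [this, seg_univ]
          exact h1 q hq
        | succ e ihe =>
          intro n' hn' hnn' q hq
          have hn'L : n' < L := by omega
          rw [← seg_erase hn'L, es_erase_expand r (by simp [seg])]
          refine A.sum_mem fun p _ => A.mul_mem (A.pow_mem (A.neg_mem ?_) _) ?_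
          · exact ih' _ hnn'
          · exact ihe (n' + 1) (by omega) (by omega) _ (by omega)
      have hnL : n < L := by omega
      have hv' : v = ⟨n, hnL⟩ := Fin.ext hvn
      have h5 := es_erase_expand r (s := seg L (n + 1)) (j := ⟨n, hnL⟩) (by simp [seg]) (n + 1)
      rw [seg_erase hnL] at h5
      have h6 : SQ.es r (n + 1) (seg L n) = 0 := by
        unfold SQ.es
        rw [Finset.powersetCard_eq_empty.2 (by have := card_seg_le (L := L) (n := n); omega),
          Finset.sum_empty]
      rw [h6] at h5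
      obtain ⟨a, ha, h7⟩ := top_power A (r ⟨n, hnL⟩) (n + 1) (by omega)
        (fun p => SQ.es r (n + 1 - p) (seg L (n + 1)))
        (fun p _ => hseg (L - (n + 1)) (n + 1) (by omega) le_rfl _ (by omega)) 0 A.zero_mem h5
        (by simp [SQ.es_zero])
      have h8 : min (n + 1) (D - 1) = n + 1 := by omega
      rw [hv']
      exact hX ⟨n, hnL⟩ a ha (by simp only; rw [h8]; exact h7)
  intro v
  exact main L 0 (by omega) v (Nat.zero_le _)

end Es

end Pool.Agent.Work.MP_35c45d_lc.SE
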