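import Pool.Agent.Work.MP_35c45d_lc.SEPhi
import Pool.Agent.Work.MP_35c45d_lc.SEDer

/-! # Linear independence of the shifted derivatives -/

set_option autoImplicit false

namespace Pool.Agent.Work.MP_35c45d_lc.SE

open MvPolynomial SD

section rule

variable (k T L D n : ℕ)

/-- the periods -/
def qE : (Fin k × Fin T × Fin L) ⊕ Fin n → ℕ
  | Sum.inl v => min ((v.2.2 : ℕ) + 1) (D - 1)
  | Sum.inr _ => 1

/-- the elements `θ` -/
noncomputable def thE : (Fin k × Fin T × Fin L) ⊕ Fin n →
    MvPolynomial ((Fin k × Fin T × Fin L) ⊕ Fin n) ℂ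
  | Sum.inl v => if (v.2.2 : ℕ) < D - 1
      then SQ.es (fun u => X (Sum.inl (v.1, v.2.1, u))) ((v.2.2 : ℕ) + 1) Finset.univ
      else SQ.es (fun u => X (Sum.inl (v.1, v.2.1, u))) (D - 1) (Finset.univ.erase v.2.2)
  | Sum.inr j => X (Sum.inr j)

variable {k T L D n}

theorem es_homog {σ J : Type} (x : J → σ) (s : Finset J) (j : ℕ) :
    (SQ.es (fun u => (X (x u) : MvPolynomial σ ℂ)) j s).IsHomogeneous j := by
  unfold SQ.es
  refine IsHomogeneous.sum _ _ _ fun t ht => ?_
  have h1 : (∏ u ∈ t, (X (x u) : MvPolynomial σ ℂ)).IsHomogeneous (∑ _u ∈ t, 1) :=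
    IsHomogeneous.prod _ _ _ fun u _ => isHomogeneous_X _ _
  rwa [Finset.sum_const, smul_eq_mul, mul_one, (Finset.mem_powersetCard.1 ht).2] at h1

theorem qE_pos (hD : 2 ≤ D) (v : (Fin k × Fin T × Fin L) ⊕ Fin n) : 1 ≤ qE k T L D n v := by
  rcases v with v | j
  · simp only [qE]
    omega
  · simp [qE]

theorem thE_homog (v : (Fin k × Fin T × Fin L) ⊕ Fin n) :
    (thE k T L D n v).IsHomogeneous (qE k T L D n v) := by
  rcases v with v | j
  · simp only [thE, qE]
    split_ifs with h
    · have : min ((v.2.2 : ℕ) + 1) (D - 1) = (v.2.2 : ℕ) + 1 := by omega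
      rw [this]
      exact es_homog _ _ _
    · have : min ((v.2.2 : ℕ) + 1) (D - 1) = D - 1 := by omega
      rw [this]
      exact es_homog _ _ _
  · exact isHomogeneous_X _ _

theorem span_top (hD : 2 ≤ D) (hL : D ≤ L) :
    Submodule.span ℂ (Set.range (Phi (qE k T L D n) (thE k T L D n))) = ⊤ := by
  have hth := theta_mem (qE k T L D n) (thE k T L D n) (qE_pos hD)
  refine span_eq_top _ _ fun v => ?_
  rcases v with ⟨i, t, u⟩ | j
  · refine chain hD (Stab _) (fun u => X (Sum.inl (i, t, u))) ?_ ?_ ?_ u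
    · intro j hj
      rcases Nat.eq_zero_or_pos j with rfl | hj0
      · rw [SQ.es_zero]
        exact Subalgebra.one_mem _
      · have h1 := hth (Sum.inl (i, t, ⟨j - 1, by omega⟩))
        simp only [thE] at h1
        rw [if_pos (by omega), Nat.sub_add_cancel hj0] at h1
        exact h1
    · intro v hv
      have h1 := hth (Sum.inl (i, t, v))
      simp only [thE] at h1
      rwa [if_neg (by omega)] at h1
    · intro v a ha h
      exact X_mem (qE k T L D n) (thE k T L D n) (qE_pos hD) (Sum.inl (i, t, v)) a ha h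
  · exact hth (Sum.inr j)

theorem Phi_li (hD : 2 ≤ D) (hL : D ≤ L) :
    LinearIndependent ℂ (Phi (qE k T L D n) (thE k T L D n)) :=
  phi_indep _ _ thE_homog (span_top hD hL).ge

/-- the exponent -/
noncomputable def expE (D : ℕ)
    (x : (Fin k → Fin T × Fin L) × ((Fin k × Fin T × Fin L) ⊕ Fin n →₀ ℕ)) :
    (Fin k × Fin T × Fin L) ⊕ Fin n →₀ ℕ :=
  x.2 + ∑ i, Finsupp.single (Sum.inl (i, x.1 i)) (D - 1)

theorem expE_apply (x : (Fin k → Fin T × Fin L) × ((Fin k × Fin T × Fin L) ⊕ Fin n →₀ ℕ))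
    (i : Fin k) (c : Fin T × Fin L) :
    expE D x (Sum.inl (i, c)) = x.2 (Sum.inl (i, c)) + if x.1 i = c then D - 1 else 0 := by
  classical
  rw [expE, Finsupp.add_apply, Finsupp.finsetSum_apply]
  congr 1
  rw [Finset.sum_eq_single i]
  · rw [Finsupp.single_apply]
    simp only [Sum.inl.injEq, Prod.mk.injEq, true_and]
  · intro j _ hj
    rw [Finsupp.single_apply, if_neg]
    intro h
    exact hj (Prod.mk.inj (Sum.inl.inj h)).1
  · intro h
    exact absurd (Finset.mem_univ _) h

theorem expE_inj {l : ℕ} : Set.InjOn (expE (k := k) (T := T) (L := L) (n := n) D)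
    (goodE k T L D n l) := by
  classical
  rintro ⟨a, μ⟩ hx ⟨a', μ'⟩ hx' h
  simp only [goodE, Finset.coe_product, Set.mem_prod, Finset.mem_coe, Finset.mem_filter,
    Finset.mem_univ, true_and] at hx hx'
  have ha : a = a' := by
    funext i
    by_contra hne
    have h1 := DFunLike.congr_fun h (Sum.inl (i, a i))
    rw [expE_apply, expE_apply] at h1
    have h3 : (if (a, μ).1 i = a i then D - 1 else 0) = D - 1 := if_pos rfl
    have h4 : (if (a', μ').1 i = a i then D - 1 else 0) = 0 := if_neg (fun h => hne h.symm)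
    rw [h3, h4] at h1
    have h2 := hx'.2.2 (i, a i) (hx.1 i)
    simp only at h1
    omega
  subst ha
  rw [expE, expE] at h
  simp only at h
  rw [add_right_cancel h]

theorem Phi_prod (hD : 2 ≤ D) (μ : (Fin k × Fin T × Fin L) ⊕ Fin n →₀ ℕ)
    (a : Fin k → Fin T × Fin L) (ha : ∀ i, D - 1 ≤ ((a i).2 : ℕ)) (s : Finset (Fin k)) :
    Phi (qE k T L D n) (thE k T L D n) μ * ∏ i ∈ s, thE k T L D n (Sum.inl (i, a i)) =
      Phi (qE k T L D n) (thE k T L D n)
        (μ + ∑ i ∈ s, Finsupp.single (Sum.inl (i, a i)) (D - 1)) := by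
  classical
  induction s using Finset.induction_on with
  | empty => simp
  | insert i s hi ih =>
    rw [Finset.prod_insert hi, Finset.sum_insert hi]
    have h1 : qE k T L D n (Sum.inl (i, a i)) = D - 1 := by
      simp only [qE]
      have := ha i
      omega
    have h2 := Phi_add (qE k T L D n) (qE_pos hD) (thE k T L D n)
      (μ + ∑ i ∈ s, Finsupp.single (Sum.inl (i, a i)) (D - 1)) (Sum.inl (i, a i))
    rw [h1, ← ih] at h2
    have h3 : μ + (Finsupp.single (Sum.inl (i, a i)) (D - 1) +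
        ∑ i ∈ s, Finsupp.single (Sum.inl (i, a i)) (D - 1)) =
        μ + ∑ i ∈ s, Finsupp.single (Sum.inl (i, a i)) (D - 1) +
          Finsupp.single (Sum.inl (i, a i)) (D - 1) := by
      abel
    rw [h3, h2]
    ring

end rule

/-- The shifted derivatives, with the shifts in a suitable homogeneous basis `b`, are linearly
independent. -/
theorem indep {k T L D n l : ℕ} (hD : 2 ≤ D) (hL : D ≤ L) :
    ∃ b : ((Fin k × Fin T × Fin L) ⊕ Fin n →₀ ℕ) → MvPolynomial ((Fin k × Fin T × Fin L) ⊕ Fin n) ℂ,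
      (∀ μ, (b μ).totalDegree ≤ μ.degree) ∧
      LinearIndependent ℂ (fun x : goodE k T L D n l =>
        b x.1.2 * dk (fun i => (i, x.1.1 i)) (rename Sum.inl (esf k T L D))) := by
  classical
  refine ⟨Phi (qE k T L D n) (thE k T L D n), fun μ => ?_, ?_⟩
  · exact Phi_totalDegree_le _ _ (fun v => (thE_homog v).totalDegree_le) μ
  · have h1 : (fun x : goodE k T L D n l => Phi (qE k T L D n) (thE k T L D n) x.1.2 *
        dk (fun i => (i, x.1.1 i)) (rename Sum.inl (esf k T L D))) =
        (Phi (qE k T L D n) (thE k T L D n)) ∘ (fun x : goodE k T L D n l => expE D x.1) := by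
      funext x
      have hx : x.1 ∈ goodE k T L D n l := x.2
      simp only [goodE, Finset.mem_product, Finset.mem_filter, Finset.mem_univ, true_and] at hx
      obtain ⟨D', rfl⟩ : ∃ D', D = D' + 1 := ⟨D - 1, by omega⟩
      rw [dk_esf, Function.comp_apply, expE, ← Phi_prod hD _ _ hx.1]
      congr 1
      refine Finset.prod_congr rfl fun i _ => ?_
      have h2 := hx.1 i
      simp only [thE]
      rw [if_neg (by omega)]
      rfl
    rw [h1]
    refine (Phi_li hD hL).comp _ ?_
    intro x y hxy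
    exact Subtype.ext (expE_inj x.2 y.2 hxy)

end Pool.Agent.Work.MP_35c45d_lc.SE
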