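import Pool.Agent.Work.MP_35c45d_lc.SEDefs

/-! # A refined count of the monomials with small exponents in a set of variables

The loss is a factor `1 - x ^ d` per variable instead of a union bound. -/

set_option autoImplicit false

namespace Pool.Agent.Work.MP_35c45d_lc.SF

open SD Finset

section count

variable {σ : Type} [Fintype σ] [DecidableEq σ]

/-- Among the monomials of degree at most `l` with exponents smaller than `d` on `S` those with
exponent at least `d` at `v` are few. -/
theorem card_bad (B S : Finset σ) (hSB : S ⊆ B) (v : σ) (hv : v ∈ B) (d l : ℕ)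
    (hN : 0 < Bᶜ.card) (x : ℝ) (hx : x = (l : ℝ) / ((Bᶜ.card : ℝ) + l)) :
    (((mons (Finset.univ : Finset σ) l).filter fun μ => (∀ q ∈ S, μ q < d) ∧ d ≤ μ v).card : ℝ) ≤
      x ^ d * (((mons (Finset.univ : Finset σ) l).filter fun μ => ∀ q ∈ S, μ q < d).card : ℝ) := by
  classical
  have hNr : (0 : ℝ) < (Bᶜ.card : ℝ) := by exact_mod_cast hN
  have hx0 : 0 ≤ x := by rw [hx]; positivity
  by_cases hl : d ≤ l
  · set Box : Finset (σ →₀ ℕ) := (mons B (l - d)).filter fun b => ∀ q ∈ S, b q < d with hBox
    have hBoxm : ∀ b ∈ Box, b.support ⊆ B ∧ b.degree ≤ l - d ∧ ∀ q ∈ S, b q < d := by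
      intro b hb
      rw [hBox, Finset.mem_filter, mem_mons] at hb
      exact ⟨hb.1.1, hb.1.2, hb.2⟩
    -- first injection
    have h1 : ((mons (Finset.univ : Finset σ) l).filter
        fun μ => (∀ q ∈ S, μ q < d) ∧ d ≤ μ v).card ≤
        (Box.sigma fun b => mons Bᶜ (l - b.degree - d)).card := by
      refine Finset.card_le_card_of_injOn
        (fun μ => (⟨μ.filter (· ∈ B) - Finsupp.single v d, μ.filter (fun a => ¬ a ∈ B)⟩ :
          (_ : σ →₀ ℕ) × (σ →₀ ℕ))) ?_ ?_
      · intro μ hμ
        rw [Finset.coe_filter, Set.mem_ofPred_eq, mem_mons] at hμ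
        obtain ⟨⟨_, hdeg⟩, hS, hdv⟩ := hμ
        have e1 : μ.filter (· ∈ B) - Finsupp.single v d + Finsupp.single v d =
            μ.filter (· ∈ B) := by
          rw [tsub_add_cancel_of_le]
          refine Finsupp.single_le_iff.2 ?_
          rw [Finsupp.filter_apply_pos _ _ hv]
          exact hdv
        have e2 := congrArg Finsupp.degree e1
        rw [map_add, Finsupp.degree_single] at e2
        have e3 := congrArg Finsupp.degree (Finsupp.filter_add_filter_not μ (· ∈ B))
        rw [map_add] at e3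
        rw [Finset.mem_coe, Finset.mem_sigma]
        refine ⟨?_, ?_⟩
        · rw [hBox, Finset.mem_filter, mem_mons]
          refine ⟨⟨?_, ?_⟩, ?_⟩
          · intro a ha
            rw [Finsupp.mem_support_iff] at ha
            by_contra haB
            apply ha
            rw [Finsupp.tsub_apply, Finsupp.filter_apply_neg _ _ haB, Nat.zero_sub]
          · change (μ.filter (· ∈ B) - Finsupp.single v d).degree ≤ l - d
            omega
          · intro q hq
            refine lt_of_le_of_lt ?_ (hS q hq)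
            rw [Finsupp.tsub_apply]
            refine (Nat.sub_le _ _).trans ?_
            by_cases hqB : q ∈ B
            · rw [Finsupp.filter_apply_pos _ _ hqB]
            · rw [Finsupp.filter_apply_neg _ _ hqB]
              exact Nat.zero_le _
        · rw [mem_mons]
          refine ⟨?_, ?_⟩
          · intro a ha
            rw [Finsupp.mem_support_iff] at ha
            rw [Finset.mem_compl]
            intro haB
            apply ha
            exact Finsupp.filter_apply_neg _ _ (by simpa using haB)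
          · change (μ.filter (fun a => ¬ a ∈ B)).degree ≤
              l - (μ.filter (· ∈ B) - Finsupp.single v d).degree - d
            omega
      · intro μ hμ μ' hμ' hh
        rw [Finset.coe_filter, Set.mem_ofPred_eq] at hμ hμ'
        simp only [Sigma.mk.injEq, heq_eq_eq] at hh
        have e1 : ∀ ν : σ →₀ ℕ, d ≤ ν v →
            ν.filter (· ∈ B) - Finsupp.single v d + Finsupp.single v d = ν.filter (· ∈ B) := by
          intro ν hν
          rw [tsub_add_cancel_of_le]
          refine Finsupp.single_le_iff.2 ?_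
          rw [Finsupp.filter_apply_pos _ _ hv]
          exact hν
        rw [← Finsupp.filter_add_filter_not μ (· ∈ B),
          ← Finsupp.filter_add_filter_not μ' (· ∈ B), hh.2,
          ← e1 μ hμ.2.2, ← e1 μ' hμ'.2.2, hh.1]
    -- second injection
    have h2 : (Box.sigma fun b => mons Bᶜ (l - b.degree)).card ≤
        ((mons (Finset.univ : Finset σ) l).filter fun μ => ∀ q ∈ S, μ q < d).card := by
      refine Finset.card_le_card_of_injOn
        (fun p : (_ : σ →₀ ℕ) × (σ →₀ ℕ) => p.1 + p.2) ?_ ?_
      · rintro ⟨b, ν⟩ hp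
        rw [Finset.mem_coe, Finset.mem_sigma, mem_mons] at hp
        obtain ⟨hb, hν1, hν2⟩ := hp
        simp only at hb hν1 hν2
        obtain ⟨hb1, hb2, hb3⟩ := hBoxm b hb
        rw [Finset.mem_coe, Finset.mem_filter, mem_mons]
        refine ⟨⟨Finset.subset_univ _, ?_⟩, ?_⟩
        · change (b + ν).degree ≤ l
          rw [map_add]
          omega
        · intro q hq
          have hq2 : ν q = 0 := by
            by_contra hne
            have := hν1 (Finsupp.mem_support_iff.2 hne)
            rw [Finset.mem_compl] at this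
            exact this (hSB hq)
          rw [Finsupp.add_apply, hq2, add_zero]
          exact hb3 q hq
      · rintro ⟨b, ν⟩ hp ⟨b', ν'⟩ hp' hh
        rw [Finset.mem_coe, Finset.mem_sigma, mem_mons] at hp hp'
        obtain ⟨hb, hν1, -⟩ := hp
        obtain ⟨hb', hν1', -⟩ := hp'
        simp only at hb hν1 hb' hν1' hh
        obtain ⟨hb1, -, -⟩ := hBoxm b hb
        obtain ⟨hb1', -, -⟩ := hBoxm b' hb'
        have hz : ∀ (ν : σ →₀ ℕ), ν.support ⊆ Bᶜ → ∀ a ∈ B, ν a = 0 := by
          intro ν hν a ha
          by_contra hne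
          have := hν (Finsupp.mem_support_iff.2 hne)
          rw [Finset.mem_compl] at this
          exact this ha
        have hz2 : ∀ (b : σ →₀ ℕ), b.support ⊆ B → ∀ a, a ∉ B → b a = 0 := by
          intro b hb a ha
          by_contra hne
          exact ha (hb (Finsupp.mem_support_iff.2 hne))
        have hbb : b = b' := by
          ext a
          by_cases ha : a ∈ B
          · have := DFunLike.congr_fun hh a
            rw [Finsupp.add_apply, Finsupp.add_apply, hz ν hν1 a ha, hz ν' hν1' a ha] at this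
            simpa using this
          · rw [hz2 b hb1 a ha, hz2 b' hb1' a ha]
        subst hbb
        have hνν : ν = ν' := add_left_cancel hh
        rw [hνν]
    rw [Finset.card_sigma] at h1 h2
    have h3 : ∀ b ∈ Box, ((mons Bᶜ (l - b.degree - d)).card : ℝ) ≤
        x ^ d * ((mons Bᶜ (l - b.degree)).card : ℝ) := by
      intro b hb
      obtain ⟨-, hb2, -⟩ := hBoxm b hb
      rw [card_mons, card_mons]
      set l' := l - b.degree with hl'
      have hdl : d ≤ l' := by omega
      refine (choose_ratio' Bᶜ.card l' d hdl hN).trans ?_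
      refine mul_le_mul_of_nonneg_right ?_ (Nat.cast_nonneg _)
      have hl'l : (l' : ℝ) ≤ l := by exact_mod_cast Nat.sub_le _ _
      have hl'0 : (0 : ℝ) ≤ l' := Nat.cast_nonneg _
      refine pow_le_pow_left₀ (by positivity) ?_ d
      rw [hx, div_le_div_iff₀ (by linarith) (by linarith)]
      nlinarith
    calc (((mons (Finset.univ : Finset σ) l).filter
          fun μ => (∀ q ∈ S, μ q < d) ∧ d ≤ μ v).card : ℝ)
        ≤ ((∑ b ∈ Box, (mons Bᶜ (l - b.degree - d)).card : ℕ) : ℝ) := by exact_mod_cast h1
      _ = ∑ b ∈ Box, ((mons Bᶜ (l - b.degree - d)).card : ℝ) := by push_cast; rfl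
      _ ≤ ∑ b ∈ Box, x ^ d * ((mons Bᶜ (l - b.degree)).card : ℝ) := Finset.sum_le_sum h3
      _ = x ^ d * ((∑ b ∈ Box, (mons Bᶜ (l - b.degree)).card : ℕ) : ℝ) := by
          rw [← Finset.mul_sum]; push_cast; rfl
      _ ≤ _ := mul_le_mul_of_nonneg_left (by exact_mod_cast h2) (by positivity)
  · have : ((mons (Finset.univ : Finset σ) l).filter
        fun μ => (∀ q ∈ S, μ q < d) ∧ d ≤ μ v) = ∅ := by
      rw [Finset.filter_eq_empty_iff]
      intro μ hμ hq
      rw [mem_mons] at hμ
      have h3 : μ v ≤ μ.degree := Finsupp.le_degree _ _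
      have h4 := hμ.2
      omega
    rw [this, Finset.card_empty, Nat.cast_zero]
    positivity

/-- **The refined count.** -/
theorem card_good (B : Finset σ) (d l : ℕ) (hN : 0 < Bᶜ.card) (x : ℝ)
    (hx : x = (l : ℝ) / ((Bᶜ.card : ℝ) + l)) (S : Finset σ) (hSB : S ⊆ B) :
    (1 - x ^ d) ^ S.card * ((Fintype.card σ + l).choose l : ℝ) ≤
      (((mons (Finset.univ : Finset σ) l).filter fun μ => ∀ q ∈ S, μ q < d).card : ℝ) := by
  classical
  have hNr : (0 : ℝ) < (Bᶜ.card : ℝ) := by exact_mod_cast hN
  have hx0 : 0 ≤ x := by rw [hx]; positivity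
  have hx1 : x ≤ 1 := by
    rw [hx, div_le_one (by positivity)]
    linarith
  have hxd : x ^ d ≤ 1 := pow_le_one₀ hx0 hx1
  induction S using Finset.induction_on with
  | empty =>
    simp only [Finset.card_empty, pow_zero, one_mul, Finset.notMem_empty, false_implies,
      implies_true, Finset.filter_true]
    rw [card_mons, Finset.card_univ]
  | insert v S hv ih =>
    have hvB : v ∈ B := hSB (Finset.mem_insert_self _ _)
    have hSB' : S ⊆ B := fun a ha => hSB (Finset.mem_insert_of_mem ha)
    have ih' := ih hSB'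
    have hb := card_bad B S hSB' v hvB d l hN x hx
    set G := (mons (Finset.univ : Finset σ) l).filter fun μ => ∀ q ∈ S, μ q < d with hG
    set G1 := (mons (Finset.univ : Finset σ) l).filter
      fun μ => (∀ q ∈ S, μ q < d) ∧ d ≤ μ v with hG1
    set G2 := (mons (Finset.univ : Finset σ) l).filter
      fun μ => ∀ q ∈ insert v S, μ q < d with hG2
    have hsub : G ⊆ G2 ∪ G1 := by
      intro μ hμ
      rw [hG, Finset.mem_filter] at hμ
      rw [Finset.mem_union]
      by_cases hd : d ≤ μ v
      · right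
        rw [hG1, Finset.mem_filter]
        exact ⟨hμ.1, hμ.2, hd⟩
      · left
        rw [hG2, Finset.mem_filter]
        refine ⟨hμ.1, fun q hq => ?_⟩
        rcases Finset.mem_insert.1 hq with rfl | hq
        · omega
        · exact hμ.2 q hq
    have hcard : (G.card : ℝ) ≤ (G2.card : ℝ) + (G1.card : ℝ) := by
      exact_mod_cast (Finset.card_le_card hsub).trans (Finset.card_union_le _ _)
    rw [Finset.card_insert_of_notMem hv, pow_succ]
    have h1 : 0 ≤ 1 - x ^ d := by linarith
    calc (1 - x ^ d) ^ S.card * (1 - x ^ d) * ((Fintype.card σ + l).choose l : ℝ)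
        = (1 - x ^ d) * ((1 - x ^ d) ^ S.card * ((Fintype.card σ + l).choose l : ℝ)) := by ring
      _ ≤ (1 - x ^ d) * (G.card : ℝ) := mul_le_mul_of_nonneg_left ih' h1
      _ = (G.card : ℝ) - x ^ d * (G.card : ℝ) := by ring
      _ ≤ (G2.card : ℝ) := by linarith

/-- `2 w x ^ d ≤ 1` gives a loss of a factor `2` only for every `w` variables. -/
theorem card_good' (B : Finset σ) (d l k w : ℕ) (hB : B.card = k * w) (hN : 0 < Bᶜ.card) (x : ℝ)
    (hx : x = (l : ℝ) / ((Bᶜ.card : ℝ) + l)) (h : 2 * (w : ℝ) * x ^ d ≤ 1) :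
    ((Fintype.card σ + l).choose l : ℝ) / 2 ^ k ≤
      (((mons (Finset.univ : Finset σ) l).filter fun μ => ∀ q ∈ B, μ q < d).card : ℝ) := by
  have hNr : (0 : ℝ) < (Bᶜ.card : ℝ) := by exact_mod_cast hN
  have hx0 : 0 ≤ x := by rw [hx]; positivity
  have hx1 : x ≤ 1 := by
    rw [hx, div_le_one (by positivity)]
    linarith
  have hxd : x ^ d ≤ 1 := pow_le_one₀ hx0 hx1
  have hxd0 : 0 ≤ x ^ d := by positivity
  refine le_trans ?_ (card_good B d l hN x hx B (Finset.Subset.refl _))
  rw [hB]
  have h1 : (1 / 2 : ℝ) ≤ (1 - x ^ d) ^ w := by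
    have h2 := one_add_mul_le_pow (a := - x ^ d) (by linarith) w
    have h3 : (1 + - x ^ d) = 1 - x ^ d := by ring
    rw [h3] at h2
    nlinarith
  have h4 : (1 / 2 : ℝ) ^ k ≤ (1 - x ^ d) ^ (k * w) := by
    rw [mul_comm k w, pow_mul]
    exact pow_le_pow_left₀ (by norm_num) h1 k
  calc ((Fintype.card σ + l).choose l : ℝ) / 2 ^ k
      = (1 / 2 : ℝ) ^ k * ((Fintype.card σ + l).choose l : ℝ) := by
        rw [one_div, inv_pow]; ring
    _ ≤ _ := mul_le_mul_of_nonneg_right h4 (Nat.cast_nonneg _)

theorem exists_good (B : Finset σ) (d l k w : ℕ) (hB : B.card = k * w) (hN : 0 < Bᶜ.card) (x : ℝ)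
    (hx : x = (l : ℝ) / ((Bᶜ.card : ℝ) + l)) (h : 2 * (w : ℝ) * x ^ d ≤ 1) :
    ∃ s : Finset (σ →₀ ℕ), (∀ μ ∈ s, μ ∈ mons (Finset.univ : Finset σ) l ∧ ∀ q ∈ B, μ q < d) ∧
      ((Fintype.card σ + l).choose l : ℝ) / 2 ^ k ≤ (s.card : ℝ) :=
  ⟨_, fun μ hμ => by rw [Finset.mem_filter] at hμ; exact hμ, card_good' B d l k w hB hN x hx h⟩

end count

end Pool.Agent.Work.MP_35c45d_lc.SF
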