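import Pool.Agent.Work.MP_35c45d_lc.SDDefs

/-! # Sums of determinants with entries of bounded degree: definitions -/

set_option autoImplicit false

namespace Pool.Agent.Work.MP_35c45d_lc.SG

open MvPolynomial Filter Topology SD

/-- `f` is a coefficientwise limit of sums of `M` determinants of `n × n` matrices whose entries
are polynomials of total degree at most `δ`. -/
def LimSumDetD (δ M n : ℕ) {ι : Type} (f : MvPolynomial ι ℂ) : Prop :=
  ∃ A : ℕ → Fin M → Matrix (Fin n) (Fin n) (MvPolynomial ι ℂ),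
    (∀ s t i j, (A s t i j).totalDegree ≤ δ) ∧
    ∀ d, Tendsto (fun s => coeff d (∑ t, (A s t).det)) atTop (𝓝 (coeff d f))

/-- The matrix `A` with the diagonal matrix of the `δ`-th powers of the dummy variables, multiplied
by `v`, added. -/
noncomputable def bordD {ι : Type} {n : ℕ} (δ : ℕ) (v : ℂ)
    (A : Matrix (Fin n) (Fin n) (MvPolynomial ι ℂ)) :
    Matrix (Fin n) (Fin n) (MvPolynomial (ι ⊕ Fin n) ℂ) :=
  Matrix.of fun i j => rename Sum.inl (A i j) + if i = j then C v * X (Sum.inr i) ^ δ else 0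

/-- the upper bound for the dimension -/
def ubD (δ N n k l : ℕ) : ℕ :=
  ∑ p ∈ prs n k, δ ^ (n - (p.1 ∩ p.2).card) * (N + (p.1 ∩ p.2).card + l).choose l

end Pool.Agent.Work.MP_35c45d_lc.SG
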