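import Pool.Agent.Work.MP_35c45d_lc.SGDefs
import Pool.Agent.Work.MP_35c45d_lc.SDRows

/-! # Matrices of any size with few non-constant rows, entries of bounded degree -/

set_option autoImplicit false

namespace Pool.Agent.Work.MP_35c45d_lc.SG

open MvPolynomial Filter Topology SD

/-- `f` is a coefficientwise limit of sums of `M` determinants of square matrices of any sizes
`N s t` whose entries are polynomials of total degree at most `δ` and in which at most `R` rows
contain a non-constant entry. -/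
def LimSumDetRowsD (δ M R : ℕ) {ι : Type} (f : MvPolynomial ι ℂ) : Prop :=
  ∃ (N : ℕ → Fin M → ℕ)
    (A : ∀ s t, Matrix (Fin (N s t)) (Fin (N s t)) (MvPolynomial ι ℂ)),
    (∀ s t i j, (A s t i j).totalDegree ≤ δ) ∧
    (∀ s t, ∃ S : Finset (Fin (N s t)), S.card ≤ R ∧ ∀ i ∉ S, ∀ j, ∃ c : ℂ, A s t i j = C c) ∧
    ∀ d, Tendsto (fun s => coeff d (∑ t, (A s t).det)) atTop (𝓝 (coeff d f))

theorem LimSumDetRowsD.limSumDetD {δ M R : ℕ} (hR : 1 ≤ R) {ι : Type} {f : MvPolynomial ι ℂ}
    (h : LimSumDetRowsD δ M R f) : LimSumDetD δ M R f := by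
  obtain ⟨N, A, hA, hS, hlim⟩ := h
  have h1 : ∀ s t, ∃ B : Matrix (Fin R) (Fin R) (MvPolynomial ι ℂ),
      (∀ i j, (B i j).totalDegree ≤ δ) ∧ B.det = (A s t).det := by
    intro s t
    obtain ⟨S, hSc, hSr⟩ := hS s t
    exact exists_small hR (A s t) (hA s t) S hSc hSr
  choose B hB hBdet using h1
  refine ⟨B, hB, fun d => ?_⟩
  simp only [hBdet]
  exact hlim d

/-- The rank form: matrices of any size of the form `A₀ + V W` with complex matrices `A₀` and `V`,
`V` of width `R`, and `W` with entries of degree at most `δ`. -/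
theorem LimSumDetRankD {δ M R : ℕ} (hR : 1 ≤ R) {ι : Type} {f : MvPolynomial ι ℂ}
    (h : LimSumDetRank M R δ f) : LimSumDetD δ M R f := by
  obtain ⟨N, A₀, V, W, hW, hlim⟩ := h
  have h1 : ∀ s t, ∃ B : Matrix (Fin R) (Fin R) (MvPolynomial ι ℂ),
      (∀ i j, (B i j).totalDegree ≤ δ) ∧ B.det = (cm ι (A₀ s t) + cm ι (V s t) * W s t :
      Matrix (Fin (N s t)) (Fin (N s t)) (MvPolynomial ι ℂ)).det := fun s t =>
    exists_small_rank hR (A₀ s t) (V s t) (W s t) (hW s t)
  choose B hB hBdet using h1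
  refine ⟨B, hB, fun d => ?_⟩
  simp only [hBdet]
  exact hlim d

end Pool.Agent.Work.MP_35c45d_lc.SG
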