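import Pool.Agent.Work.MP_35c45d_lc.SGSemi
import Pool.Agent.Work.MP_35c45d_lc.SGCore
import Pool.Agent.Work.MP_35c45d_lc.SGRows
import Pool.Agent.Work.MP_35c45d_lc.SFCore
import Pool.Agent.Work.MP_35c45d_lc.SELow
import Pool.Agent.Work.MP_35c45d_lc.SESec
import Pool.Agent.Work.MP_35c45d_lc.SENum2
import Pool.Agent.Work.MP_35c45d_lc.SQCode3

/-! # Assembly: entries of degree at most `δ`, at most `R` non-constant rows, refined count -/

set_option autoImplicit false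

namespace Pool.Agent.Work.MP_35c45d_lc.SG

open MvPolynomial Filter Topology SD SE

theorem lim_ineq {k T L D δ n M l : ℕ} (hδ : 1 ≤ δ) (hD : 2 ≤ D) (hL : D ≤ L) {c : ℂ} (hc : c ≠ 0)
    (h : LimSumDetD δ M n (C c * esf k T L D)) :
    (goodE k T L D n l).card ≤ M * ubD δ (k * (T * L)) n k (l + k * (δ - 1)) := by
  classical
  obtain ⟨b, hb, hli⟩ := indep (k := k) (T := T) (L := L) (D := D) (n := n) (l := l) hD hL
  have h1 := lim_card (k := k) (l := l) hδ h (α := goodE k T L D n l) (fun x i => (i, x.1.1 i))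
    (fun x => b x.1.2) (fun x => ?_) ?_
  · rw [Fintype.card_coe, Fintype.card_prod, Fintype.card_prod, Fintype.card_fin, Fintype.card_fin,
      Fintype.card_fin] at h1
    exact h1
  · refine (hb _).trans ?_
    exact (mem_mons.1 (Finset.mem_filter.1 (Finset.mem_product.1 x.2).2).1).2
  · have h2 := hli.units_smul (fun _ => Units.mk0 c hc)
    convert h2 using 1
    funext x
    change _ = (Units.mk0 c hc) • (b x.1.2 * dk (fun i => (i, x.1.1 i))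
      (rename Sum.inl (esf k T L D)))
    rw [dk_eq, dk_eq, map_mul, rename_C, ← smul_eq_C_mul, map_smul, mul_smul_comm]
    rfl

/-- the numerical form; `w` is the number of free variables of a block. -/
theorem core {k T L D δ n M w : ℕ} (hk : 1 ≤ k) (hδ : 1 ≤ δ) (hT : 1 ≤ T) (hL : D ≤ L)
    (hL2 : L ≤ 2 * D) (hw : w = T * (L - (D - 1))) (hw4 : 400 ≤ w)
    (hD : 10 * δ * Real.log (2 * (w : ℝ)) ≤ (D : ℝ) - 1) {c : ℂ} (hc : c ≠ 0)
    (h : LimSumDetD δ M n (C c * esf k T L D))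
    (hn : 22 * n * δ * Real.log (2 * (w : ℝ)) ≤ k * ((D : ℝ) - 1) * √w) :
    (2 : ℝ) ^ k ≤ M := by
  have hδ1 : (1 : ℝ) ≤ δ := by exact_mod_cast hδ
  have hw1 : (400 : ℝ) ≤ w := by exact_mod_cast hw4
  have hlog : 2 ≤ Real.log (2 * (w : ℝ)) := by
    rw [Real.le_log_iff_exp_le (by linarith)]
    have h1 := Real.exp_one_lt_d9
    have h2 : Real.exp 2 = Real.exp 1 * Real.exp 1 := by rw [← Real.exp_add]; norm_num
    have h3 : 0 < Real.exp 1 := Real.exp_pos 1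
    rw [h2]
    nlinarith
  have hD21 : 21 ≤ D := by
    have h1 : 20 ≤ 10 * (δ : ℝ) * Real.log (2 * (w : ℝ)) := by nlinarith
    have h2 : (21 : ℝ) ≤ D := by linarith
    exact_mod_cast h2
  have hNv : k * (T * L) = k * (T * (D - 1)) + k * w := by
    rw [hw, ← Nat.mul_add, ← Nat.mul_add]
    congr 2
    omega
  have hNb : 10 * (k * w) ≤ 11 * (k * (T * (D - 1))) := by
    have h1 : 10 * (L - (D - 1)) ≤ 11 * (D - 1) := by omega
    rw [hw]
    calc 10 * (k * (T * (L - (D - 1)))) = k * T * (10 * (L - (D - 1))) := by ring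
      _ ≤ k * T * (11 * (D - 1)) := Nat.mul_le_mul_left _ h1
      _ = 11 * (k * (T * (D - 1))) := by ring
  refine core_gen (n := n) (D := D) (δ := δ) hk hδ hw4 hNb hD
    (fun n' l => (goodE k T L D n' l).card) (fun n' l z hz he => ?_) (fun n' l hnn => ?_) hn
  · have h1 := SF.goodE_card2 k T L D n' l hk hT (by omega) hL z hz (by rw [← hw]; exact he)
    rw [← hw, hNv] at h1
    exact h1
  · have h1 := lim_ineq (l := l) hδ (by omega) hL hc (h.pad hnn)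
    rw [hNv] at h1
    exact h1

theorem main_lt (ε : ℝ) (hε : 0 < ε) (hε1 : ε < 1) : ∃ c : ℝ, 0 < c ∧ ∀ m R δ M : ℕ, 1 ≤ m →
    1 ≤ δ → LimSumDetRowsD δ M R (permP m) →
    c * (m : ℝ) ^ (2 + ε) ≤ (((R : ℝ) + m) * δ) ^ (1 + ε) * Real.log (M + 1) := by
  obtain ⟨s0, d0, D0, e, π, c0, hD, hDs, hd, hcode, hsize⟩ :=
    SQ.exists_code3 (ε / 8) (by positivity)
  have hcode' : ∀ a b j, ∑ x ∈ Finset.univ.filter (fun x => (some (π a x) : Option (Fin D0)) =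
      some j), c0 a x * e b x = if a = b then 1 else 0 := fun a b j => by simpa using hcode a b j
  have hds : d0 ≤ s0 := code_le (by omega) e (fun a x => some (π a x)) c0 hcode'
  obtain ⟨c, hc, m₀, hg⟩ := num_gadget (ε / 8) (by positivity) (by linarith) hD hDs hd hds hsize
  choose! K hs h400 hTm hDm hDE hTD using hg
  obtain ⟨c', hc', h⟩ := num_final' ε hε hε1 c hc m₀ (fun m' => d0 ^ K m')
    (fun m' => D0 ^ K m') (fun m' hm' => ⟨h400 m' hm', hTm m' hm', hDm m' hm', hDE m' hm', by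
      simpa using hTD m' hm'⟩)
  refine ⟨c', hc', fun m R δ M hm hδ hRows => ?_⟩
  have hRows' : LimSumDetRowsD δ M (R + m) (permP m) := by
    obtain ⟨N, A, h1, h2, h3⟩ := hRows
    exact ⟨N, A, h1, fun s t => by
      obtain ⟨S, hS, hS2⟩ := h2 s t
      exact ⟨S, by omega, hS2⟩, h3⟩
  have hL := hRows'.limSumDetD (by omega)
  obtain ⟨-, hM⟩ := hL.le
  have hm1 : (1 : ℝ) ≤ m := by exact_mod_cast hm
  have hδ1 : (1 : ℝ) ≤ δ := by exact_mod_cast hδ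
  have hR0 : (0 : ℝ) ≤ R := Nat.cast_nonneg _
  refine h m M (((R : ℝ) + m) * δ) hm (by nlinarith) hM ?_
  intro k m' hk hm' hkm h10 hD2 hn
  have h1 := SE.hasSec_code (by omega) hd e (fun a x => some (π a x)) c0 hcode' (K m') 2 m'
    (by norm_num) (hs m' hm')
  obtain ⟨φ, hφ, c1, hc1, h2⟩ := SE.hasSec_esf hkm h1
  have h3 := hL.subst φ hφ
  rw [h2] at h3
  have hT1 : 1 ≤ d0 ^ K m' := Nat.one_le_pow _ _ hd
  have hQ1 : 1 ≤ D0 ^ K m' := Nat.one_le_pow _ _ (by omega)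
  have hw : d0 ^ K m' * (D0 ^ K m' + 1) = d0 ^ K m' * (2 * D0 ^ K m' - (D0 ^ K m' - 1)) := by
    congr 1
    omega
  have hdel := num_delta (δ := (δ : ℝ)) (ν := ((R : ℝ) + m) * δ) hm (by nlinarith) hkm
    (hTm m' hm') (hDm m' hm') hT1 hQ1 hn
  have hcast : (((d0 ^ K m' * (D0 ^ K m' + 1) : ℕ)) : ℝ) =
      ((d0 ^ K m' : ℕ) : ℝ) * (((D0 ^ K m' : ℕ) : ℝ) + 1) := by
    push_cast
    ring
  have hlog0 : 0 ≤ Real.log (2 * (((d0 ^ K m' : ℕ) : ℝ) * (((D0 ^ K m' : ℕ) : ℝ) + 1))) := by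
    rw [← hcast]
    apply Real.log_nonneg
    have h5 : (1 : ℝ) ≤ ((d0 ^ K m' * (D0 ^ K m' + 1) : ℕ) : ℝ) := by
      exact_mod_cast (by nlinarith : 1 ≤ d0 ^ K m' * (D0 ^ K m' + 1))
    linarith
  refine core (n := R + m) hk hδ hT1 (by omega) le_rfl hw (h400 m' hm') ?_ hc1 h3 ?_
  · rw [hcast]
    refine le_trans ?_ hdel
    have : 0 ≤ δ * Real.log (2 * (((d0 ^ K m' : ℕ) : ℝ) * (((D0 ^ K m' : ℕ) : ℝ) + 1))) := by
      positivity
    linarith
  · rw [hcast]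
    refine le_trans ?_ hn
    have h5 : (((R + m : ℕ) : ℝ)) = R + m := by push_cast; ring
    rw [h5]
    have : 0 ≤ ((R : ℝ) + m) * δ *
        Real.log (2 * (((d0 ^ K m' : ℕ) : ℝ) * (((D0 ^ K m' : ℕ) : ℝ) + 1))) := by
      positivity
    linarith

/-- **Main theorem** -/
theorem main (ε : ℝ) (hε : 0 < ε) : ∃ c : ℝ, 0 < c ∧ ∀ m R δ M : ℕ, 1 ≤ m →
    1 ≤ δ → LimSumDetRowsD δ M R (permP m) →
    c * (m : ℝ) ^ (2 + ε) ≤ (((R : ℝ) + m) * δ) ^ (1 + ε) * Real.log (M + 1) := by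
  set ε' := min ε (1 / 2) with hε'
  have hε'0 : 0 < ε' := lt_min hε (by norm_num)
  have hle : ε' ≤ ε := min_le_left _ _
  obtain ⟨c, hc, h⟩ := main_lt ε' hε'0 (lt_of_le_of_lt (min_le_right _ _) (by norm_num))
  refine ⟨c, hc, fun m R δ M hm hδ hL => ?_⟩
  have h1 := h m R δ M hm hδ hL
  have hm1 : (1 : ℝ) ≤ m := by exact_mod_cast hm
  have hδ1 : (1 : ℝ) ≤ δ := by exact_mod_cast hδ
  have hR0 : (0 : ℝ) ≤ R := Nat.cast_nonneg _
  have hν : (m : ℝ) ≤ ((R : ℝ) + m) * δ := by nlinarith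
  have hm0 : (0 : ℝ) < m := by linarith
  have hν0 : 0 < ((R : ℝ) + m) * δ := by linarith
  have h2 : (m : ℝ) ^ (2 + ε) = (m : ℝ) ^ (ε - ε') * (m : ℝ) ^ (2 + ε') := by
    rw [← Real.rpow_add hm0]
    congr 1
    ring
  have h3 : (((R : ℝ) + m) * δ) ^ (1 + ε) =
      (((R : ℝ) + m) * δ) ^ (ε - ε') * (((R : ℝ) + m) * δ) ^ (1 + ε') := by
    rw [← Real.rpow_add hν0]
    congr 1
    ring
  have h4 : (m : ℝ) ^ (ε - ε') ≤ (((R : ℝ) + m) * δ) ^ (ε - ε') :=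
    Real.rpow_le_rpow hm0.le hν (by linarith)
  have h5 : 0 ≤ c * (m : ℝ) ^ (2 + ε') := by positivity
  rw [h2, h3]
  calc c * ((m : ℝ) ^ (ε - ε') * (m : ℝ) ^ (2 + ε'))
      = (m : ℝ) ^ (ε - ε') * (c * (m : ℝ) ^ (2 + ε')) := by ring
    _ ≤ (((R : ℝ) + m) * δ) ^ (ε - ε') *
        ((((R : ℝ) + m) * δ) ^ (1 + ε') * Real.log (M + 1)) :=
        mul_le_mul h4 h1 h5 (by positivity)
    _ = _ := by ring

end Pool.Agent.Work.MP_35c45d_lc.SG
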