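import Pool.Agent.Work.MP_35c45d_lc.SGDefs
import Pool.Agent.Work.MP_35c45d_lc.SDMons
import Pool.Agent.Work.MP_35c45d_lc.SDSpan

/-! # The upper bound for the shifted partial derivatives of a determinant with entries of bounded
degree -/

set_option autoImplicit false

namespace Pool.Agent.Work.MP_35c45d_lc.SG

open MvPolynomial SD

section span

variable {ι : Type} {n δ : ℕ}

/-- the degree of a partial derivative -/
theorem totalDegree_pderiv_le {σ : Type} (x : σ) (p : MvPolynomial σ ℂ) :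
    (pderiv x p).totalDegree ≤ p.totalDegree - 1 := by
  classical
  conv_lhs => rw [p.as_sum]
  rw [map_sum]
  refine totalDegree_finsetSum_le fun d hd => ?_
  rw [pderiv_monomial]
  by_cases h0 : d x = 0
  · rw [h0]
    simp
  · refine (totalDegree_monomial_le _ _).trans ?_
    have h1 : (d - Finsupp.single x 1) + Finsupp.single x 1 = d :=
      tsub_add_cancel_of_le (Finsupp.single_le_iff.2 (by omega))
    have h2 := congrArg Finsupp.degree h1
    rw [map_add, Finsupp.degree_single] at h2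
    have h3 : d.degree ≤ p.totalDegree := by
      rw [Finsupp.degree_apply]
      exact le_totalDegree hd
    have h4 : ((d - Finsupp.single x 1).sum fun _ => id) = (d - Finsupp.single x 1).degree := by
      rw [Finsupp.degree_apply]
      rfl
    rw [h4]
    omega

/-- monomials of bounded degree times a polynomial of bounded degree -/
theorem mul_poly_mem {σ : Type} (T : Submodule ℂ (MvPolynomial σ ℂ)) (μ : σ →₀ ℕ)
    (p : MvPolynomial σ ℂ) {e : ℕ} (hp : p.totalDegree ≤ e) (Q : MvPolynomial σ ℂ)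
    (H : ∀ m ∈ p.support, m.degree ≤ e → monomial (μ + m) 1 * Q ∈ T) :
    monomial μ 1 * (p * Q) ∈ T := by
  have e : monomial μ 1 * (p * Q) =
      ∑ m ∈ p.support, coeff m p • (monomial (μ + m) 1 * Q) := by
    conv_lhs => rw [p.as_sum]
    rw [Finset.sum_mul, Finset.mul_sum]
    refine Finset.sum_congr rfl fun m _ => ?_
    rw [← mul_assoc, monomial_mul, one_mul, ← smul_mul_assoc, smul_monomial,
      smul_eq_mul, mul_one]
  rw [e]
  refine Submodule.sum_mem _ fun m hm => Submodule.smul_mem _ _ (H m hm ?_)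
  rw [Finsupp.degree_apply]
  exact (le_totalDegree hm).trans hp

/-- the generators before the reduction -/
def gens (δ : ℕ) (v : ℂ) (A : Matrix (Fin n) (Fin n) (MvPolynomial ι ℂ)) (k l : ℕ) :
    Set (MvPolynomial (ι ⊕ Fin n) ℂ) :=
  {P | ∃ r, n ≤ r + k ∧ ∃ f g : Fin r → Fin n, ∃ μ : (ι ⊕ Fin n) →₀ ℕ, μ.degree ≤ l ∧
    P = monomial μ 1 * mnr (bordD δ v A) f g}

theorem bordD_totalDegree (A : Matrix (Fin n) (Fin n) (MvPolynomial ι ℂ))
    (hA : ∀ i j, (A i j).totalDegree ≤ δ) (v : ℂ) (i j : Fin n) :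
    (bordD δ v A i j).totalDegree ≤ δ := by
  rw [bordD, Matrix.of_apply]
  refine (totalDegree_add _ _).trans (max_le ?_ ?_)
  · exact (totalDegree_rename_le _ _).trans (hA i j)
  · split_ifs
    · refine (totalDegree_mul _ _).trans ?_
      rw [totalDegree_C, zero_add]
      refine (totalDegree_pow _ _).trans ?_
      rw [totalDegree_X, mul_one]
    · simp

/-- the derivatives of a minor of size `r`: minors of size `r - 1` times monomials -/
theorem pderiv_mnr_mem [Fintype ι] {k l r : ℕ} (A : Matrix (Fin n) (Fin n) (MvPolynomial ι ℂ))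
    (hA : ∀ i j, (A i j).totalDegree ≤ δ) (v : ℂ) (x : ι ⊕ Fin n) (hr : n ≤ r + k)
    (f g : Fin r → Fin n) (μ : (ι ⊕ Fin n) →₀ ℕ) (hμ : μ.degree + (δ - 1) ≤ l) :
    monomial μ 1 * pderiv x (mnr (bordD δ v A) f g) ∈
      Submodule.span ℂ (gens δ v A (k + 1) l) := by
  unfold mnr
  rw [SQ.jacobi (pderiv x) ((bordD δ v A).submatrix f g), Finset.mul_sum]
  refine Submodule.sum_mem _ fun a _ => ?_
  rw [Finset.mul_sum]
  refine Submodule.sum_mem _ fun b _ => ?_
  rw [Matrix.submatrix_apply]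
  obtain _ | r := r
  · exact a.elim0
  rw [Matrix.adjugate_fin_succ_eq_det_submatrix]
  have e : (-1) ^ ((b : ℕ) + (a : ℕ)) *
      (((bordD δ v A).submatrix f g).submatrix b.succAbove a.succAbove).det *
        pderiv x (bordD δ v A (f b) (g a)) =
      ((-1) ^ ((b : ℕ) + (a : ℕ)) : ℂ) •
        (pderiv x (bordD δ v A (f b) (g a)) *
          mnr (bordD δ v A) (f ∘ b.succAbove) (g ∘ a.succAbove)) := by
    unfold mnr
    rw [smul_eq_C_mul, Matrix.submatrix_submatrix]
    simp only [map_pow, map_neg, map_one]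
    ring
  rw [e, mul_smul_comm]
  apply Submodule.smul_mem
  refine mul_poly_mem _ _ _ (e := δ - 1) ((totalDegree_pderiv_le _ _).trans
    (Nat.sub_le_sub_right (bordD_totalDegree A hA v _ _) 1)) _ fun m _ hm => ?_
  apply Submodule.subset_span
  exact ⟨r, by omega, f ∘ b.succAbove, g ∘ a.succAbove, μ + m, by rw [map_add]; omega, rfl⟩

/-- the `k`-th derivatives of the determinant -/
theorem dk_mem [Fintype ι] {k : ℕ} (A : Matrix (Fin n) (Fin n) (MvPolynomial ι ℂ))
    (hA : ∀ i j, (A i j).totalDegree ≤ δ) (v : ℂ) (a : Fin k → ι) :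
    dk a (bordD δ v A).det ∈ Submodule.span ℂ (gens δ v A k (k * (δ - 1))) := by
  induction k with
  | zero =>
    apply Submodule.subset_span
    refine ⟨n, by omega, id, id, 0, by simp, ?_⟩
    change (bordD δ v A).det = monomial 0 1 * _
    rw [show (monomial (0 : ι ⊕ Fin n →₀ ℕ)) (1 : ℂ) = 1 from rfl, one_mul]
    rfl
  | succ k ih =>
    have h := ih (Fin.tail a)
    show pderiv (Sum.inl (a 0)) (dk (Fin.tail a) (bordD δ v A).det) ∈ _
    refine Submodule.span_induction (p := fun P _ => pderiv (Sum.inl (a 0)) P ∈ _)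
      ?_ ?_ ?_ ?_ h
    · rintro P ⟨r, hr, f, g, μ, hμ, rfl⟩
      rw [Derivation.leibniz, smul_eq_mul, smul_eq_mul]
      refine Submodule.add_mem _ ?_ ?_
      · refine pderiv_mnr_mem A hA v _ hr f g μ ?_
        rw [Nat.add_mul, one_mul]
        omega
      · rw [pderiv_monomial, one_mul]
        have h1 : mnr (bordD δ v A) f g * monomial (μ - Finsupp.single (Sum.inl (a 0)) 1)
            ((μ (Sum.inl (a 0)) : ℕ) : ℂ) = ((μ (Sum.inl (a 0)) : ℕ) : ℂ) •
              (monomial (μ - Finsupp.single (Sum.inl (a 0)) 1) 1 * mnr (bordD δ v A) f g) := by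
          rw [← smul_mul_assoc, smul_monomial, smul_eq_mul, mul_one, mul_comm]
        rw [h1]
        refine Submodule.smul_mem _ _ (Submodule.subset_span ⟨r, by omega, f, g, _, ?_, rfl⟩)
        have h2 : (μ - Finsupp.single (Sum.inl (a 0)) 1).degree ≤ μ.degree :=
          Finsupp.degree_mono tsub_le_self
        refine h2.trans (hμ.trans ?_)
        exact Nat.mul_le_mul_right _ (Nat.le_succ _)
    · rw [map_zero]
      exact Submodule.zero_mem _
    · intro P Q _ _ hP hQ
      rw [map_add]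
      exact Submodule.add_mem _ hP hQ
    · intro c P _ hP
      rw [Derivation.map_smul]
      exact Submodule.smul_mem _ _ hP

/-- the normal forms -/
def nforms (δ : ℕ) (v : ℂ) (A : Matrix (Fin n) (Fin n) (MvPolynomial ι ℂ)) (k l : ℕ) :
    Set (MvPolynomial (ι ⊕ Fin n) ℂ) :=
  {P | ∃ r, n ≤ r + k ∧ ∃ f g : Fin r → Fin n, ∃ μ : (ι ⊕ Fin n) →₀ ℕ, μ.degree ≤ l ∧
    (∀ i, δ ≤ μ (Sum.inr i) → i ∈ Set.range f ∧ i ∈ Set.range g) ∧
    P = monomial μ 1 * mnr (bordD δ v A) f g}

theorem kill_row (v : ℂ) (hv : v ≠ 0) (A : Matrix (Fin n) (Fin n) (MvPolynomial ι ℂ))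
    {r : ℕ} (f g : Fin r → Fin n) (i : Fin n) (hi : i ∉ Set.range g) (μ : (ι ⊕ Fin n) →₀ ℕ) :
    monomial (μ + Finsupp.single (Sum.inr i) δ) 1 * mnr (bordD δ v A) f g =
      v⁻¹ • (monomial μ 1 * mnr (bordD δ v A) (Fin.cons i f : Fin (r + 1) → Fin n)
          (Fin.cons i g : Fin (r + 1) → Fin n) -
        monomial μ 1 * (rename Sum.inl (A i i) * mnr (bordD δ v A) f g) -
        ∑ j : Fin r, ((-1) ^ ((j : ℕ) + 1) : ℂ) • (monomial μ 1 *
          (rename Sum.inl (A i (g j)) * mnr (bordD δ v A) f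
            ((Fin.cons i g : Fin (r + 1) → Fin n) ∘ (Fin.succ j).succAbove)))) := by
  have e1 : bordD δ v A i i = rename Sum.inl (A i i) + C v * X (Sum.inr i) ^ δ := by
    simp [bordD]
  have e2 : ∀ j, bordD δ v A i (g j) = rename Sum.inl (A i (g j)) := by
    intro j
    have : i ≠ g j := fun h => hi ⟨j, h.symm⟩
    simp [bordD, this]
  rw [laplace_row, e1]
  have e3 : ∑ j : Fin r, (-1) ^ ((j : ℕ) + 1) * bordD δ v A i (g j) * mnr (bordD δ v A) f
      ((Fin.cons i g : Fin (r + 1) → Fin n) ∘ (Fin.succ j).succAbove) =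
      ∑ j : Fin r, (-1) ^ ((j : ℕ) + 1) * (rename Sum.inl (A i (g j)) * mnr (bordD δ v A) f
      ((Fin.cons i g : Fin (r + 1) → Fin n) ∘ (Fin.succ j).succAbove)) := by
    refine Finset.sum_congr rfl fun j _ => ?_
    rw [e2, mul_assoc]
  rw [e3]
  have e4 : ∑ j : Fin r, ((-1) ^ ((j : ℕ) + 1) : ℂ) • (monomial μ (1 : ℂ) *
          (rename Sum.inl (A i (g j)) * mnr (bordD δ v A) f
            ((Fin.cons i g : Fin (r + 1) → Fin n) ∘ (Fin.succ j).succAbove))) =
      monomial μ 1 * ∑ j : Fin r, (-1) ^ ((j : ℕ) + 1) * (rename Sum.inl (A i (g j)) *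
        mnr (bordD δ v A) f ((Fin.cons i g : Fin (r + 1) → Fin n) ∘ (Fin.succ j).succAbove)) := by
    rw [Finset.mul_sum]
    refine Finset.sum_congr rfl fun j _ => ?_
    rw [smul_eq_C_mul, map_pow, map_neg, map_one]
    ring
  rw [e4]
  have e5 : monomial (μ + Finsupp.single (Sum.inr i) δ) (1 : ℂ) =
      monomial μ 1 * X (Sum.inr i) ^ δ := by
    rw [X_pow_eq_monomial, monomial_mul, one_mul]
  rw [e5, smul_eq_C_mul]
  have e6 : (C v⁻¹ * C v : MvPolynomial (ι ⊕ Fin n) ℂ) = 1 := by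
    rw [← C_mul, inv_mul_cancel₀ hv, C_1]
  linear_combination (-(monomial μ (1 : ℂ) * X (Sum.inr i) ^ δ * mnr (bordD δ v A) f g)) * e6

theorem kill_col (v : ℂ) (hv : v ≠ 0) (A : Matrix (Fin n) (Fin n) (MvPolynomial ι ℂ))
    {r : ℕ} (f g : Fin r → Fin n) (i : Fin n) (hi : i ∉ Set.range f) (μ : (ι ⊕ Fin n) →₀ ℕ) :
    monomial (μ + Finsupp.single (Sum.inr i) δ) 1 * mnr (bordD δ v A) f g =
      v⁻¹ • (monomial μ 1 * mnr (bordD δ v A) (Fin.cons i f : Fin (r + 1) → Fin n)
          (Fin.cons i g : Fin (r + 1) → Fin n) -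
        monomial μ 1 * (rename Sum.inl (A i i) * mnr (bordD δ v A) f g) -
        ∑ j : Fin r, ((-1) ^ ((j : ℕ) + 1) : ℂ) • (monomial μ 1 *
          (rename Sum.inl (A (f j) i) * mnr (bordD δ v A)
            ((Fin.cons i f : Fin (r + 1) → Fin n) ∘ (Fin.succ j).succAbove) g))) := by
  have e1 : bordD δ v A i i = rename Sum.inl (A i i) + C v * X (Sum.inr i) ^ δ := by
    simp [bordD]
  have e2 : ∀ j, bordD δ v A (f j) i = rename Sum.inl (A (f j) i) := by
    intro j
    have : f j ≠ i := fun h => hi ⟨j, h⟩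
    simp [bordD, this]
  rw [laplace_col, e1]
  have e3 : ∑ j : Fin r, (-1) ^ ((j : ℕ) + 1) * bordD δ v A (f j) i * mnr (bordD δ v A)
      ((Fin.cons i f : Fin (r + 1) → Fin n) ∘ (Fin.succ j).succAbove) g =
      ∑ j : Fin r, (-1) ^ ((j : ℕ) + 1) * (rename Sum.inl (A (f j) i) * mnr (bordD δ v A)
      ((Fin.cons i f : Fin (r + 1) → Fin n) ∘ (Fin.succ j).succAbove) g) := by
    refine Finset.sum_congr rfl fun j _ => ?_
    rw [e2, mul_assoc]
  rw [e3]
  have e4 : ∑ j : Fin r, ((-1) ^ ((j : ℕ) + 1) : ℂ) • (monomial μ (1 : ℂ) *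
          (rename Sum.inl (A (f j) i) * mnr (bordD δ v A)
            ((Fin.cons i f : Fin (r + 1) → Fin n) ∘ (Fin.succ j).succAbove) g)) =
      monomial μ 1 * ∑ j : Fin r, (-1) ^ ((j : ℕ) + 1) * (rename Sum.inl (A (f j) i) *
        mnr (bordD δ v A) ((Fin.cons i f : Fin (r + 1) → Fin n) ∘ (Fin.succ j).succAbove) g) := by
    rw [Finset.mul_sum]
    refine Finset.sum_congr rfl fun j _ => ?_
    rw [smul_eq_C_mul, map_pow, map_neg, map_one]
    ring
  rw [e4]
  have e5 : monomial (μ + Finsupp.single (Sum.inr i) δ) (1 : ℂ) =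
      monomial μ 1 * X (Sum.inr i) ^ δ := by
    rw [X_pow_eq_monomial, monomial_mul, one_mul]
  rw [e5, smul_eq_C_mul]
  have e6 : (C v⁻¹ * C v : MvPolynomial (ι ⊕ Fin n) ℂ) = 1 := by
    rw [← C_mul, inv_mul_cancel₀ hv, C_1]
  linear_combination (-(monomial μ (1 : ℂ) * X (Sum.inr i) ^ δ * mnr (bordD δ v A) f g)) * e6

theorem support_rename_inr (p : MvPolynomial ι ℂ) (m : (ι ⊕ Fin n) →₀ ℕ)
    (hm : m ∈ (rename (Sum.inl : ι → ι ⊕ Fin n) p).support) (i : Fin n) : m (Sum.inr i) = 0 := by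
  classical
  rw [support_rename_of_injective Sum.inl_injective, Finset.mem_image] at hm
  obtain ⟨d, _, rfl⟩ := hm
  exact mapDomain_inl_inr d i

theorem kill (hδ : 1 ≤ δ) (v : ℂ) (hv : v ≠ 0) (A : Matrix (Fin n) (Fin n) (MvPolynomial ι ℂ))
    (hA : ∀ i j, (A i j).totalDegree ≤ δ) (k l : ℕ) (d : ℕ) :
    ∀ μ : (ι ⊕ Fin n) →₀ ℕ, μ.degree ≤ l → ∑ i, μ (Sum.inr i) ≤ d →
    ∀ r, n ≤ r + k → ∀ f g : Fin r → Fin n,
      monomial μ 1 * mnr (bordD δ v A) f g ∈ Submodule.span ℂ (nforms δ v A k l) := by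
  induction d with
  | zero =>
    intro μ hμ hd r hr f g
    apply Submodule.subset_span
    refine ⟨r, hr, f, g, μ, hμ, fun i hi => ?_, rfl⟩
    have := Finset.sum_eq_zero_iff.1 (Nat.le_zero.1 hd) i (Finset.mem_univ _)
    omega
  | succ d ih =>
    intro μ hμ hd r hr f g
    by_cases hall : ∀ i, δ ≤ μ (Sum.inr i) → i ∈ Set.range f ∧ i ∈ Set.range g
    · exact Submodule.subset_span ⟨r, hr, f, g, μ, hμ, hall, rfl⟩
    · push Not at hall
      obtain ⟨i, hi, hfg⟩ := hall
      obtain ⟨μ', rfl⟩ : ∃ μ', μ = μ' + Finsupp.single (Sum.inr i) δ := by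
        refine ⟨μ - Finsupp.single (Sum.inr i) δ, ?_⟩
        rw [tsub_add_cancel_of_le]
        rw [Finsupp.single_le_iff]
        exact hi
      have hdeg : μ'.degree + δ ≤ l := by
        rw [map_add, Finsupp.degree_single] at hμ
        exact hμ
      have hyd : ∑ i, μ' (Sum.inr i) ≤ d := by
        simp only [Finsupp.add_apply, Finset.sum_add_distrib] at hd
        have h1 : δ ≤ ∑ j : Fin n, (Finsupp.single (Sum.inr i : ι ⊕ Fin n) δ) (Sum.inr j) := by
          refine le_trans (le_of_eq ?_) (Finset.single_le_sum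
            (f := fun j : Fin n => (Finsupp.single (Sum.inr i : ι ⊕ Fin n) δ) (Sum.inr j))
            (fun _ _ => Nat.zero_le _) (Finset.mem_univ i))
          simp
        omega
      have aux : ∀ (p : MvPolynomial ι ℂ) (_ : p.totalDegree ≤ δ) (f g : Fin r → Fin n),
          monomial μ' 1 * (rename Sum.inl p * mnr (bordD δ v A) f g) ∈
            Submodule.span ℂ (nforms δ v A k l) := by
        intro p hp f g
        refine mul_poly_mem _ _ _ (e := δ) ((totalDegree_rename_le _ _).trans hp) _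
          fun m hms hm => ih _ ?_ ?_ r hr f g
        · rw [map_add]
          omega
        · simp only [Finsupp.add_apply, support_rename_inr p m hms, add_zero]
          exact hyd
      have hplus : monomial μ' 1 * mnr (bordD δ v A) (Fin.cons i f : Fin (r + 1) → Fin n)
          (Fin.cons i g : Fin (r + 1) → Fin n) ∈ Submodule.span ℂ (nforms δ v A k l) :=
        ih μ' (by omega) hyd (r + 1) (by omega) _ _
      by_cases hf : i ∈ Set.range f
      · rw [kill_row v hv A f g i (hfg hf)]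
        refine Submodule.smul_mem _ _ (Submodule.sub_mem _ (Submodule.sub_mem _ hplus
          (aux _ (hA _ _) _ _)) (Submodule.sum_mem _ fun j _ => Submodule.smul_mem _ _
          (aux _ (hA _ _) _ _)))
      · rw [kill_col v hv A f g i hf]
        refine Submodule.smul_mem _ _ (Submodule.sub_mem _ (Submodule.sub_mem _ hplus
          (aux _ (hA _ _) _ _)) (Submodule.sum_mem _ fun j _ => Submodule.smul_mem _ _
          (aux _ (hA _ _) _ _)))

/-- the sorted normal forms -/
noncomputable def sform (δ : ℕ) (v : ℂ) (A : Matrix (Fin n) (Fin n) (MvPolynomial ι ℂ))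
    (q : (_ : Finset (Fin n) × Finset (Fin n)) × ((ι ⊕ Fin n) →₀ ℕ)) :
    MvPolynomial (ι ⊕ Fin n) ℂ :=
  if h : q.1.2.card = q.1.1.card then
    monomial q.2 1 * mnr (bordD δ v A) (q.1.1.orderEmbOfFin rfl : Fin q.1.1.card → Fin n)
      (q.1.2.orderEmbOfFin h : Fin q.1.1.card → Fin n)
  else 0

end span

/-- monomials with bounded exponents outside of `s` -/
theorem card_mons_bounded {ι : Type} [Fintype ι] [DecidableEq ι] {n δ : ℕ} (hδ : 1 ≤ δ)
    (s : Finset (Fin n)) (l : ℕ) :
    ((mons (Finset.univ : Finset (ι ⊕ Fin n)) l).filter fun μ => ∀ i, i ∉ s →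
      μ (Sum.inr i) < δ).card ≤ δ ^ (n - s.card) * (Fintype.card ι + s.card + l).choose l := by
  classical
  set W : Finset (ι ⊕ Fin n) := (Finset.univ : Finset ι).disjSum s with hW
  have hcard : ((Finset.univ : Finset ({i : Fin n // i ∉ s} → Fin δ)) ×ˢ (mons W l)).card =
      δ ^ (n - s.card) * (Fintype.card ι + s.card + l).choose l := by
    rw [Finset.card_product, Finset.card_univ, Fintype.card_fun, Fintype.card_fin, card_mons, hW,
      Finset.card_disjSum, Finset.card_univ]
    congr 2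
    rw [Fintype.card_subtype_compl, Fintype.card_fin]
    congr 1
    exact Fintype.card_coe s
  rw [← hcard]
  refine Finset.card_le_card_of_injOn (fun μ => (fun i => ⟨μ (Sum.inr i.1) % δ,
    Nat.mod_lt _ hδ⟩, μ.filter (fun x => x ∈ W))) ?_ ?_
  · intro μ hμ
    rw [Finset.mem_coe, Finset.mem_filter, mem_mons] at hμ
    rw [Finset.mem_coe, Finset.mem_product]
    refine ⟨Finset.mem_univ _, ?_⟩
    rw [mem_mons]
    refine ⟨?_, ?_⟩
    · rw [Finsupp.support_filter]
      exact fun x hx => (Finset.mem_filter.1 hx).2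
    · have h1 : (μ.filter (fun x => x ∈ W)).degree ≤ μ.degree := by
        refine Finsupp.degree_mono fun x => ?_
        rw [Finsupp.filter_apply]
        split_ifs
        · exact le_rfl
        · exact Nat.zero_le _
      exact h1.trans hμ.1.2
  · intro μ hμ μ' hμ' h
    rw [Finset.mem_coe, Finset.mem_filter] at hμ hμ'
    simp only [Prod.mk.injEq] at h
    obtain ⟨h1, h2⟩ := h
    ext x
    by_cases hx : x ∈ W
    · have := DFunLike.congr_fun h2 x
      rwa [Finsupp.filter_apply_pos _ _ hx, Finsupp.filter_apply_pos _ _ hx] at this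
    · rcases x with x | i
      · exact absurd (by simp [hW]) hx
      · have hi : i ∉ s := fun hi => hx (by simp [hW, hi])
        have h3 := congrFun h1 ⟨i, hi⟩
        have h4 := congrArg Fin.val h3
        simp only at h4
        rwa [Nat.mod_eq_of_lt (hμ.2 i hi), Nat.mod_eq_of_lt (hμ'.2 i hi)] at h4

/-- The upper bound. -/
theorem upper {ι : Type} [Fintype ι] [DecidableEq ι] {n δ : ℕ} (hδ : 1 ≤ δ)
    (A : Matrix (Fin n) (Fin n) (MvPolynomial ι ℂ)) (hA : ∀ i j, (A i j).totalDegree ≤ δ)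
    (v : ℂ) (hv : v ≠ 0) (k l : ℕ) :
    ∃ W : Submodule ℂ (MvPolynomial (ι ⊕ Fin n) ℂ), FiniteDimensional ℂ W ∧
      Module.finrank ℂ W ≤ ubD δ (Fintype.card ι) n k (l + k * (δ - 1)) ∧
      ∀ (a : Fin k → ι) (μ : (ι ⊕ Fin n) →₀ ℕ), μ.degree ≤ l →
        monomial μ 1 * dk a (bordD δ v A).det ∈ W := by
  classical
  set L := l + k * (δ - 1) with hL
  set S : Finset ((_ : Finset (Fin n) × Finset (Fin n)) × ((ι ⊕ Fin n) →₀ ℕ)) :=
    (prs n k).sigma fun p => (mons (Finset.univ : Finset (ι ⊕ Fin n)) L).filter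
      fun μ => ∀ i, i ∉ p.1 ∩ p.2 → μ (Sum.inr i) < δ with hS
  have hsub : nforms δ v A k L ⊆ Submodule.span ℂ ((S.image (sform δ v A) :
      Finset (MvPolynomial (ι ⊕ Fin n) ℂ)) : Set (MvPolynomial (ι ⊕ Fin n) ℂ)) := by
    rintro P ⟨r, hr, f, g, μ, hμ, hy, rfl⟩
    by_cases hf : Function.Injective f
    swap
    · rw [mnr_zero_left _ _ _ hf, mul_zero]
      exact Submodule.zero_mem _
    by_cases hg : Function.Injective g
    swap
    · rw [mnr_zero_right _ _ _ hg, mul_zero]
      exact Submodule.zero_mem _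
    obtain ⟨ε, hε⟩ := mnr_sort (bordD δ v A) f g hf hg
    have cf : (Finset.univ.image f).card = r := by
      rw [Finset.card_image_of_injective _ hf, Finset.card_univ, Fintype.card_fin]
    have cg : (Finset.univ.image g).card = r := by
      rw [Finset.card_image_of_injective _ hg, Finset.card_univ, Fintype.card_fin]
    rw [hε, mnr_cast (bordD δ v A) _ _ cf cg]
    have e : monomial μ (1 : ℂ) * ((ε : MvPolynomial (ι ⊕ Fin n) ℂ) * mnr (bordD δ v A)
        ((Finset.univ.image f).orderEmbOfFin rfl : Fin (Finset.univ.image f).card → Fin n)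
        ((Finset.univ.image g).orderEmbOfFin (cg.trans cf.symm) :
          Fin (Finset.univ.image f).card → Fin n)) =
        (ε : ℂ) • sform δ v A ⟨(Finset.univ.image f, Finset.univ.image g), μ⟩ := by
      unfold sform
      simp only
      rw [dif_pos (cg.trans cf.symm), smul_eq_C_mul, map_intCast]
      ring
    rw [e]
    refine Submodule.smul_mem _ _ (Submodule.subset_span ?_)
    rw [Finset.coe_image]
    refine ⟨_, ?_, rfl⟩
    rw [hS, Finset.mem_coe, Finset.mem_sigma]
    refine ⟨?_, ?_⟩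
    · simp only [prs, Finset.mem_filter, Finset.mem_univ, true_and]
      exact ⟨cf.trans cg.symm, by rw [cf]; exact hr⟩
    · simp only
      rw [Finset.mem_filter, mem_mons]
      refine ⟨⟨Finset.subset_univ _, hμ⟩, fun i hi => ?_⟩
      by_contra hcon
      have h3 := hy i (not_lt.1 hcon)
      exact hi (by simpa using h3)
  refine ⟨Submodule.span ℂ ((S.image (sform δ v A) :
      Finset (MvPolynomial (ι ⊕ Fin n) ℂ)) : Set (MvPolynomial (ι ⊕ Fin n) ℂ)),
    FiniteDimensional.span_finset _ _, ?_, ?_⟩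
  · refine (finrank_span_finset_le_card _).trans (Finset.card_image_le.trans ?_)
    rw [hS, Finset.card_sigma]
    unfold ubD
    exact Finset.sum_le_sum fun p _ => card_mons_bounded hδ _ _
  · intro a μ hμ
    have h1 := dk_mem A hA v a
    have h2 : Submodule.span ℂ (nforms δ v A k L) ≤ Submodule.span ℂ ((S.image (sform δ v A) :
      Finset (MvPolynomial (ι ⊕ Fin n) ℂ)) : Set (MvPolynomial (ι ⊕ Fin n) ℂ)) :=
      Submodule.span_le.2 hsub
    apply h2
    refine Submodule.span_induction (p := fun P _ => monomial μ 1 * P ∈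
      Submodule.span ℂ (nforms δ v A k L)) ?_ ?_ ?_ ?_ h1
    · rintro P ⟨r, hr, f, g, ν, hν, rfl⟩
      rw [← mul_assoc, monomial_mul, one_mul]
      exact kill hδ v hv A hA k L _ (μ + ν) (by rw [map_add]; omega) le_rfl r hr f g
    · rw [mul_zero]
      exact Submodule.zero_mem _
    · intro P Q _ _ hP hQ
      rw [mul_add]
      exact Submodule.add_mem _ hP hQ
    · intro c P _ hP
      rw [mul_smul_comm]
      exact Submodule.smul_mem _ _ hP

end Pool.Agent.Work.MP_35c45d_lc.SG
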