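import Pool.Agent.Work.MP_35c45d_lc.SGDefs
import Pool.Agent.Work.MP_35c45d_lc.SDMonsB

/-! # Numerical form of the upper bound -/

set_option autoImplicit false

namespace Pool.Agent.Work.MP_35c45d_lc.SG

open Finset SD

/-- `binom (N + l + t, N) ≤ ((N + l) / l) ^ t binom (N + l, N)` -/
theorem choose_up (N l t : ℕ) (hl : 1 ≤ l) :
    ((N + (l + t)).choose (l + t) : ℝ) ≤ (((N : ℝ) + l) / l) ^ t * ((N + l).choose l : ℝ) := by
  have hl0 : (0 : ℝ) < l := by exact_mod_cast hl
  induction t with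
  | zero => simp
  | succ t ih =>
    set a := l + t with ha
    have ha' : l + (t + 1) = a + 1 := by omega
    rw [ha']
    have h1 : (N + (a + 1)).choose (a + 1) * (a + 1) = (N + a).choose a * (N + a + 1) := by
      have := Nat.add_one_mul_choose_eq (N + a) a
      have h5 : N + (a + 1) = N + a + 1 := by omega
      rw [h5, ← this]
      ring
    have h1' : ((N + (a + 1)).choose (a + 1) : ℝ) * (a + 1) =
        ((N + a).choose a : ℝ) * (N + a + 1) := by
      exact_mod_cast h1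
    have hla : (l : ℝ) ≤ (a : ℝ) + 1 := by
      have : l ≤ a + 1 := by omega
      exact_mod_cast this
    have ha0 : (0 : ℝ) < (a : ℝ) + 1 := by positivity
    have h2 : ((N + (a + 1)).choose (a + 1) : ℝ) ≤
        ((N : ℝ) + l) / l * ((N + a).choose a : ℝ) := by
      have h6 : ((N + (a + 1)).choose (a + 1) : ℝ) =
          ((N : ℝ) + a + 1) / (a + 1) * ((N + a).choose a : ℝ) := by
        field_simp
        linarith
      rw [h6]
      refine mul_le_mul_of_nonneg_right ?_ (by positivity)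
      rw [div_le_div_iff₀ ha0 hl0]
      have h8 : (0 : ℝ) ≤ (N : ℝ) := by positivity
      nlinarith
    calc ((N + (a + 1)).choose (a + 1) : ℝ) ≤ ((N : ℝ) + l) / l * ((N + a).choose a : ℝ) := h2
      _ ≤ ((N : ℝ) + l) / l * ((((N : ℝ) + l) / l) ^ t * ((N + l).choose l : ℝ)) := by gcongr
      _ = (((N : ℝ) + l) / l) ^ (t + 1) * ((N + l).choose l : ℝ) := by ring

/-- numerical form of the upper bound, compare `SD.ub_le` -/
theorem ubD_le (δ N n k l : ℕ) (hk : 1 ≤ k) (z : ℝ)
    (hz : ((N + n : ℕ) : ℝ) / ((N + n + l : ℕ) : ℝ) ≤ z) (h : 2 * (k : ℝ) ≤ 3 * n * (δ * z)) :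
    (ubD δ N n k l : ℝ) ≤
      (3 * Real.exp 1 * n * (δ * z) / (2 * k)) ^ (2 * k) * ((N + n + l).choose l : ℝ) := by
  have hk0 : (0 : ℝ) < k := by exact_mod_cast hk
  have hz0 : 0 ≤ z := le_trans (by positivity) hz
  have hn : n ≠ 0 := by
    rintro rfl
    simp at h
    linarith
  have hn0 : (0 : ℝ) < n := by positivity
  have hδ : δ ≠ 0 := by
    rintro rfl
    simp at h
    linarith
  have hδ0 : (0 : ℝ) < δ := by positivity
  have hzp : 0 < z := by
    rcases hz0.lt_or_eq with h1 | h1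
    · exact h1
    · rw [← h1] at h; simp at h; linarith
  have hNn : 0 < N + n := by omega
  set y : ℝ := δ * z with hy
  have hy0 : 0 < y := by positivity
  set t : ℝ := 2 * k / (3 * n * y) with ht
  have h3 : 0 < 3 * (n : ℝ) * y := by positivity
  have ht0 : 0 < t := by positivity
  have ht1 : t ≤ 1 := by rw [ht, div_le_one h3]; exact h
  set B : ℝ := ((N + n + l).choose l : ℝ) with hB
  have hB0 : 0 ≤ B := by positivity
  have h1 : (ubD δ N n k l : ℝ) ≤
      ∑ p ∈ prs n k, t⁻¹ ^ (2 * k) * (t * y) ^ (p.1ᶜ ∪ p.2ᶜ).card * B := by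
    unfold ubD
    push_cast
    refine Finset.sum_le_sum fun p hp => ?_
    obtain ⟨hp1, hp2⟩ := (Finset.mem_filter.1 hp).2
    set u := (p.1ᶜ ∪ p.2ᶜ).card with hu
    have hun : u ≤ n := by
      have := Finset.card_le_univ (p.1ᶜ ∪ p.2ᶜ)
      rwa [Fintype.card_fin] at this
    have hcomp : (p.1 ∩ p.2).card = n - u := by
      have h4 : p.1 ∩ p.2 = (p.1ᶜ ∪ p.2ᶜ)ᶜ := by
        ext i; simp
      rw [h4, Finset.card_compl, Fintype.card_fin]
    have hcomp2 : n - (p.1 ∩ p.2).card = u := by omega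
    have hu2 : u ≤ 2 * k := by
      have h5 := Finset.card_union_le p.1ᶜ p.2ᶜ
      rw [Finset.card_compl, Finset.card_compl, Fintype.card_fin] at h5
      omega
    have h6 := choose_ratio (N + n) u l (by omega) hNn
    have h7 : N + n - u = N + (n - u) := by omega
    rw [h7] at h6
    rw [hcomp2, hcomp]
    have hz' : ((N + n : ℕ) : ℝ) / (((N + n : ℕ) : ℝ) + l) ≤ z := by
      refine le_trans (le_of_eq ?_) hz
      push_cast
      ring
    have h6' : ((N + (n - u) + l).choose l : ℝ) ≤ z ^ u * B := by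
      refine h6.trans (mul_le_mul_of_nonneg_right ?_ hB0)
      exact pow_le_pow_left₀ (by positivity) hz' u
    have h8 : y ^ u ≤ t⁻¹ ^ (2 * k) * (t * y) ^ u := by
      have h9 : (1 : ℝ) ≤ t⁻¹ ^ (2 * k) * t ^ u := by
        have h10 : t ^ (2 * k) ≤ t ^ u := pow_le_pow_of_le_one ht0.le ht1 hu2
        rw [inv_pow, inv_mul_eq_div, one_le_div (by positivity)]
        exact h10
      have h11 : 0 ≤ y ^ u := by positivity
      calc y ^ u = 1 * y ^ u := (one_mul _).symm
        _ ≤ t⁻¹ ^ (2 * k) * t ^ u * y ^ u := mul_le_mul_of_nonneg_right h9 h11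
        _ = t⁻¹ ^ (2 * k) * (t * y) ^ u := by rw [mul_pow t y u, mul_assoc]
    calc (δ : ℝ) ^ u * ((N + (n - u) + l).choose l : ℝ) ≤ (δ : ℝ) ^ u * (z ^ u * B) :=
          mul_le_mul_of_nonneg_left h6' (by positivity)
      _ = y ^ u * B := by rw [hy, mul_pow]; ring
      _ ≤ t⁻¹ ^ (2 * k) * (t * y) ^ u * B := mul_le_mul_of_nonneg_right h8 hB0
  have h2 : ∑ p ∈ prs n k, t⁻¹ ^ (2 * k) * (t * y) ^ (p.1ᶜ ∪ p.2ᶜ).card * B ≤
      t⁻¹ ^ (2 * k) * (1 + 3 * (t * y)) ^ n * B := by
    calc ∑ p ∈ prs n k, t⁻¹ ^ (2 * k) * (t * y) ^ (p.1ᶜ ∪ p.2ᶜ).card * B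
        ≤ ∑ p : Finset (Fin n) × Finset (Fin n),
            t⁻¹ ^ (2 * k) * (t * y) ^ (p.1ᶜ ∪ p.2ᶜ).card * B :=
          Finset.sum_le_sum_of_subset_of_nonneg (Finset.subset_univ _)
            fun p _ _ => by positivity
      _ = ∑ p : Finset (Fin n) × Finset (Fin n),
            t⁻¹ ^ (2 * k) * (t * y) ^ (p.1 ∪ p.2).card * B := by
          exact ((compl_involutive.toPerm (compl : Finset (Fin n) → _)).prodCongr
            (compl_involutive.toPerm (compl : Finset (Fin n) → _))).sum_comp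
            (fun p : Finset (Fin n) × Finset (Fin n) =>
              t⁻¹ ^ (2 * k) * (t * y) ^ (p.1 ∪ p.2).card * B)
      _ = t⁻¹ ^ (2 * k) * (1 + 3 * (t * y)) ^ n * B := by
          rw [← Finset.sum_mul, ← Finset.mul_sum, sum_pow_card_union]
  refine h1.trans (h2.trans (mul_le_mul_of_nonneg_right ?_ hB0))
  have h4 : 3 * (t * y) = 2 * k / n := by
    rw [ht]; field_simp
  have h5 : (1 + 3 * (t * y)) ^ n ≤ Real.exp (2 * k) := by
    rw [h4]
    calc (1 + 2 * (k : ℝ) / n) ^ n ≤ (Real.exp (2 * k / n)) ^ n := by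
          gcongr
          have := Real.add_one_le_exp (2 * (k : ℝ) / n)
          linarith
      _ = Real.exp (2 * k) := by
          rw [← Real.exp_nat_mul]
          congr 1
          field_simp
  calc t⁻¹ ^ (2 * k) * (1 + 3 * (t * y)) ^ n ≤ t⁻¹ ^ (2 * k) * Real.exp (2 * k) := by gcongr
    _ = (3 * Real.exp 1 * n * y / (2 * k)) ^ (2 * k) := by
        have h6 : Real.exp (2 * k) = Real.exp 1 ^ (2 * k) := by
          rw [← Real.exp_nat_mul]; push_cast; ring_nf
        rw [h6, ← mul_pow]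
        congr 1
        rw [ht]
        field_simp

end Pool.Agent.Work.MP_35c45d_lc.SG
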