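import Pool.Agent.Work.MP_35c45d_lc.SDDefs

/-! # Sums of determinants with rows of different degrees: definitions -/

set_option autoImplicit false

namespace Pool.Agent.Work.MP_35c45d_lc.SK

open MvPolynomial Filter Topology SD

/-- `f` is a coefficientwise limit of sums of `M` determinants of `n × n` matrices; the row `i` of
such a matrix has entries of total degree at most `g i`, where `1 ≤ g i ≤ δ` and the sum of the
`g i` is at most `D`. -/
def LimK (δ D M n : ℕ) {ι : Type} (f : MvPolynomial ι ℂ) : Prop :=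
  ∃ (A : ℕ → Fin M → Matrix (Fin n) (Fin n) (MvPolynomial ι ℂ)) (g : ℕ → Fin M → Fin n → ℕ),
    (∀ s t i, 1 ≤ g s t i) ∧ (∀ s t i, g s t i ≤ δ) ∧ (∀ s t, ∑ i, g s t i ≤ D) ∧
    (∀ s t i j, (A s t i j).totalDegree ≤ g s t i) ∧
    ∀ d, Tendsto (fun s => coeff d (∑ t, (A s t).det)) atTop (𝓝 (coeff d f))

/-- `f` is a coefficientwise limit of sums of `M` determinants of square matrices of any sizes
`N s t`, whose entries are polynomials of total degree at most `δ` and for which the sum over the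
rows of the maximal total degree in the row is at most `n`. -/
def LimSumDetDeg (δ M n : ℕ) {ι : Type} (f : MvPolynomial ι ℂ) : Prop :=
  ∃ (N : ℕ → Fin M → ℕ)
    (A : ∀ s t, Matrix (Fin (N s t)) (Fin (N s t)) (MvPolynomial ι ℂ)),
    (∀ s t i j, (A s t i j).totalDegree ≤ δ) ∧
    (∀ s t, ∑ i, Finset.univ.sup (fun j => (A s t i j).totalDegree) ≤ n) ∧
    ∀ d, Tendsto (fun s => coeff d (∑ t, (A s t).det)) atTop (𝓝 (coeff d f))

/-- The matrix `A` with the diagonal matrix of the powers `y_i ^ (g i)` of the dummy variables,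
multiplied by `v`, added. -/
noncomputable def bordK {ι : Type} {n : ℕ} (g : Fin n → ℕ) (v : ℂ)
    (A : Matrix (Fin n) (Fin n) (MvPolynomial ι ℂ)) :
    Matrix (Fin n) (Fin n) (MvPolynomial (ι ⊕ Fin n) ℂ) :=
  Matrix.of fun i j => rename Sum.inl (A i j) + if i = j then C v * X (Sum.inr i) ^ g i else 0

/-- the upper bound for the dimension -/
def ubK {n : ℕ} (g : Fin n → ℕ) (N k l : ℕ) : ℕ :=
  ∑ p ∈ prs n k, (∏ i ∈ (p.1 ∩ p.2)ᶜ, g i) * (N + (p.1 ∩ p.2).card + l).choose l

end Pool.Agent.Work.MP_35c45d_lc.SK
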