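import Pool.Agent.Work.MP_35c45d_lc.SKDefs
import Pool.Agent.Work.MP_35c45d_lc.SDRows

/-! # Matrices of any size: removing the constant rows -/

set_option autoImplicit false

namespace Pool.Agent.Work.MP_35c45d_lc.SK

open MvPolynomial Filter Topology SD

variable {ι : Type}

/-- compare `SD.exists_small`: a determinant of any size is a determinant of size `R`, if the sum of
the degrees `w i` of the rows is at most `R`. -/
theorem exists_small {N R δ : ℕ} (hR : 1 ≤ R) (hδ : 1 ≤ δ)
    (A : Matrix (Fin N) (Fin N) (MvPolynomial ι ℂ)) (w : Fin N → ℕ)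
    (hA : ∀ i j, (A i j).totalDegree ≤ w i) (hwδ : ∀ i, w i ≤ δ) (hw : ∑ i, w i ≤ R) :
    ∃ (B : Matrix (Fin R) (Fin R) (MvPolynomial ι ℂ)) (g : Fin R → ℕ),
      (∀ i, 1 ≤ g i) ∧ (∀ i, g i ≤ δ) ∧ ∑ i, g i ≤ R + ∑ i, w i ∧
      (∀ i j, (B i j).totalDegree ≤ g i) ∧ B.det = A.det := by
  classical
  by_cases h0 : A.det = 0
  · refine ⟨0, fun _ => 1, fun i => le_rfl, fun i => hδ, ?_, fun i j => ?_, ?_⟩
    · simp
    · rw [Matrix.zero_apply, totalDegree_zero]
      exact Nat.zero_le _
    · rw [h0]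
      have : Nonempty (Fin R) := ⟨⟨0, hR⟩⟩
      exact Matrix.det_zero
  -- a point where the determinant does not vanish
  obtain ⟨x, hx⟩ : ∃ x : ι → ℂ, eval x A.det ≠ 0 := by
    by_contra hcon
    push Not at hcon
    exact h0 (MvPolynomial.funext fun x => by rw [hcon x, map_zero])
  -- the rows which are not constant
  set S : Finset (Fin N) := Finset.univ.filter fun i => w i ≠ 0 with hSdef
  have hSw : ∑ i ∈ S, w i = ∑ i, w i := Finset.sum_filter_ne_zero _
  have hS : S.card ≤ R := by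
    refine le_trans ?_ hw
    rw [← hSw, Finset.card_eq_sum_ones]
    refine Finset.sum_le_sum fun i hi => ?_
    have := (Finset.mem_filter.1 hi).2
    omega
  have hc : ∀ i ∉ S, ∀ j, ∃ c : ℂ, A i j = C c := by
    intro i hi j
    have h1 : w i = 0 := by
      by_contra hne
      exact hi (Finset.mem_filter.2 ⟨Finset.mem_univ _, hne⟩)
    have h2 : (A i j).totalDegree = 0 := Nat.le_zero.1 (h1 ▸ hA i j)
    exact ⟨_, totalDegree_eq_zero_iff_eq_C.1 h2⟩
  set Q : Matrix (Fin N) (Fin N) ℂ := A.map (eval x) with hQ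
  have hQdet : Q.det = eval x A.det := by
    rw [hQ, RingHom.map_det]
    rfl
  have hQu : IsUnit Q.det := by
    rw [hQdet]
    exact isUnit_iff_ne_zero.2 hx
  set G : Matrix (Fin N) (Fin N) (MvPolynomial ι ℂ) := (Q⁻¹).map C with hG
  set M : Matrix (Fin N) (Fin N) (MvPolynomial ι ℂ) := A * G with hM
  have hGdet : G.det = C (Q.det)⁻¹ := by
    rw [hG]
    have h1 : ((Q⁻¹).map C : Matrix (Fin N) (Fin N) (MvPolynomial ι ℂ)).det = C (Q⁻¹).det :=
      ((C : ℂ →+* MvPolynomial ι ℂ).map_det Q⁻¹).symm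
    rw [h1, Matrix.det_nonsing_inv, Ring.inverse_eq_inv']
  have hAM : A.det = C Q.det * M.det := by
    rw [hM, Matrix.det_mul, hGdet]
    have h1 : (C Q.det : MvPolynomial ι ℂ) * C (Q.det)⁻¹ = 1 := by
      rw [← C_mul, mul_inv_cancel₀ (by rw [hQdet]; exact hx), C_1]
    calc A.det = A.det * 1 := (mul_one _).symm
      _ = A.det * (C Q.det * C (Q.det)⁻¹) := by rw [h1]
      _ = _ := by ring
  -- the constant rows of `M` are rows of the identity
  have hrow : ∀ i ∉ S, ∀ j, M i j = if i = j then 1 else 0 := by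
    intro i hi j
    have h1 : ∀ k, A i k = C (Q i k) := by
      intro k
      obtain ⟨c, hc'⟩ := hc i hi k
      rw [hQ, Matrix.map_apply, hc', eval_C]
    have h2 : M i j = C ((Q * Q⁻¹) i j) := by
      rw [hM, Matrix.mul_apply, Matrix.mul_apply, map_sum]
      refine Finset.sum_congr rfl fun k _ => ?_
      rw [h1, hG, Matrix.map_apply, C_mul]
    rw [h2, Matrix.mul_nonsing_inv _ hQu, Matrix.one_apply]
    split_ifs <;> simp
  have hMdeg : ∀ i j, (M i j).totalDegree ≤ w i := by
    intro i j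
    rw [hM, Matrix.mul_apply]
    refine totalDegree_finsetSum_le fun k _ => ?_
    refine (totalDegree_mul _ _).trans ?_
    rw [hG, Matrix.map_apply, totalDegree_C, add_zero]
    exact hA i k
  have hdet : M.det = (Matrix.toSquareBlockProp M fun i => i ∈ S).det := by
    rw [Matrix.twoBlockTriangular_det M (fun i => i ∈ S)]
    · have h1 : (Matrix.toSquareBlockProp M fun i => ¬ i ∈ S) = 1 := by
        refine Matrix.ext fun i j => ?_
        rw [Matrix.toSquareBlockProp_def, Matrix.of_apply, hrow i.1 i.2, Matrix.one_apply]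
        congr 1
        exact propext Subtype.ext_iff.symm
      rw [h1, Matrix.det_one, mul_one]
      exact det_inst _ _ _ _ _
    · intro i hi j hj
      rw [hrow i hi, if_neg]
      rintro rfl
      exact hi hj
  -- reindexing and padding
  obtain ⟨e, he⟩ : ∃ e, R = S.card + e := ⟨R - S.card, by omega⟩
  let φ : {i // i ∈ S} ⊕ Fin e ≃ Fin R :=
    (Equiv.sumCongr S.equivFin (Equiv.refl _)).trans (finSumFinEquiv.trans (finCongr he.symm))
  let B0 : Matrix ({i // i ∈ S} ⊕ Fin e) ({i // i ∈ S} ⊕ Fin e) (MvPolynomial ι ℂ) :=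
    Matrix.fromBlocks (Matrix.toSquareBlockProp M fun i => i ∈ S) 0 0 1
  let w0 : {i // i ∈ S} ⊕ Fin e → ℕ := Sum.elim (fun i => w i.1) (fun _ => 0)
  have hB0 : B0.det = M.det := by
    rw [Matrix.det_fromBlocks_zero₂₁, Matrix.det_one, mul_one, hdet]
  have hB0deg : ∀ i j, (B0 i j).totalDegree ≤ w0 i := by
    rintro (i | i) (j | j)
    · exact hMdeg _ _
    · simp [B0]
    · simp [B0]
    · change ((1 : Matrix (Fin e) (Fin e) (MvPolynomial ι ℂ)) i j).totalDegree ≤ _
      rw [Matrix.one_apply]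
      split_ifs <;> simp
  have hw0 : ∑ i, w0 i = ∑ i, w i := by
    rw [Fintype.sum_sum_type]
    simp only [w0, Sum.elim_inl, Sum.elim_inr, Finset.sum_const_zero, add_zero]
    rw [← hSw]
    exact Finset.sum_coe_sort S w
  let d : Fin R → MvPolynomial ι ℂ := Function.update 1 ⟨0, hR⟩ (C Q.det)
  refine ⟨Matrix.diagonal d * B0.submatrix φ.symm φ.symm, fun i => max 1 (w0 (φ.symm i)),
    fun i => le_max_left _ _, fun i => max_le hδ ?_, ?_, fun i j => ?_, ?_⟩
  · rcases φ.symm i with a | a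
    · exact hwδ a.1
    · exact Nat.zero_le _
  · calc ∑ i, max 1 (w0 (φ.symm i)) ≤ ∑ i : Fin R, (1 + w0 (φ.symm i)) :=
          Finset.sum_le_sum fun i _ => max_le (by omega) (by omega)
      _ = R + ∑ i, w i := by
          rw [Finset.sum_add_distrib, Equiv.sum_comp φ.symm w0, hw0]
          simp
  · rw [Matrix.diagonal_mul, Matrix.submatrix_apply]
    refine (totalDegree_mul _ _).trans ?_
    have h1 : (d i).totalDegree = 0 := by
      by_cases hi : i = ⟨0, hR⟩
      · rw [hi]
        simp only [d, Function.update_self, totalDegree_C]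
      · simp only [d, Function.update_of_ne hi, Pi.one_apply, totalDegree_one]
    rw [h1, zero_add]
    exact (hB0deg _ _).trans (le_max_right _ _)
  · rw [Matrix.det_mul, Matrix.det_diagonal, Matrix.det_submatrix_equiv_self, hB0, hAM]
    congr 1
    rw [Finset.prod_update_of_mem (Finset.mem_univ _)]
    simp

theorem LimSumDetDeg.limK {δ M n R : ℕ} (hδ : 1 ≤ δ) (hR : 1 ≤ R) (hnR : n ≤ R)
    {f : MvPolynomial ι ℂ} (h : LimSumDetDeg δ M n f) : LimK δ (R + n) M R f := by
  obtain ⟨N, A, hA, hS, hlim⟩ := h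
  have h1 : ∀ s t, ∃ (B : Matrix (Fin R) (Fin R) (MvPolynomial ι ℂ)) (g : Fin R → ℕ),
      (∀ i, 1 ≤ g i) ∧ (∀ i, g i ≤ δ) ∧ ∑ i, g i ≤ R + n ∧
      (∀ i j, (B i j).totalDegree ≤ g i) ∧ B.det = (A s t).det := by
    intro s t
    obtain ⟨B, g, h1, h2, h3, h4, h5⟩ := exists_small hR hδ (A s t)
      (fun i => Finset.univ.sup fun j => (A s t i j).totalDegree)
      (fun i j => Finset.le_sup (f := fun j => (A s t i j).totalDegree) (Finset.mem_univ j))
      (fun i => Finset.sup_le fun j _ => hA s t i j) ((hS s t).trans hnR)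
    exact ⟨B, g, h1, h2, h3.trans (Nat.add_le_add_left (hS s t) R), h4, h5⟩
  choose B g hg1 hg2 hg3 hB hBdet using h1
  refine ⟨B, g, hg1, hg2, hg3, hB, fun d => ?_⟩
  simp only [hBdet]
  exact hlim d

end Pool.Agent.Work.MP_35c45d_lc.SK
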