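import Pool.Agent.Work.MP_35c45d_lc.SKDefs
import Pool.Agent.Work.MP_35c45d_lc.SGSpan

/-! # The upper bound for the shifted partial derivatives of a determinant with rows of different
degrees -/

set_option autoImplicit false

namespace Pool.Agent.Work.MP_35c45d_lc.SK

open MvPolynomial SD

section span

variable {ι : Type} {n : ℕ} {w : Fin n → ℕ}

/-- the generators before the reduction -/
def gens (w : Fin n → ℕ) (v : ℂ) (A : Matrix (Fin n) (Fin n) (MvPolynomial ι ℂ)) (k l : ℕ) :
    Set (MvPolynomial (ι ⊕ Fin n) ℂ) :=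
  {P | ∃ r, n ≤ r + k ∧ ∃ f g : Fin r → Fin n, ∃ μ : (ι ⊕ Fin n) →₀ ℕ,
    μ.degree + ∑ a, w (f a) + k ≤ l + ∑ i, w i ∧ P = monomial μ 1 * mnr (bordK w v A) f g}

theorem bordK_totalDegree (A : Matrix (Fin n) (Fin n) (MvPolynomial ι ℂ))
    (hA : ∀ i j, (A i j).totalDegree ≤ w i) (v : ℂ) (i j : Fin n) :
    (bordK w v A i j).totalDegree ≤ w i := by
  rw [bordK, Matrix.of_apply]
  refine (totalDegree_add _ _).trans (max_le ?_ ?_)
  · exact (totalDegree_rename_le _ _).trans (hA i j)
  · split_ifs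
    · refine (totalDegree_mul _ _).trans ?_
      rw [totalDegree_C, zero_add]
      refine (totalDegree_pow _ _).trans ?_
      rw [totalDegree_X, mul_one]
    · simp

/-- the derivatives of a minor of size `r`: minors of size `r - 1` times monomials -/
theorem pderiv_mnr_mem [Fintype ι] {k l r : ℕ} (hw : ∀ i, 1 ≤ w i)
    (A : Matrix (Fin n) (Fin n) (MvPolynomial ι ℂ))
    (hA : ∀ i j, (A i j).totalDegree ≤ w i) (v : ℂ) (x : ι ⊕ Fin n) (hr : n ≤ r + k)
    (f g : Fin r → Fin n) (μ : (ι ⊕ Fin n) →₀ ℕ)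
    (hμ : μ.degree + ∑ a, w (f a) + k ≤ l + ∑ i, w i) :
    monomial μ 1 * pderiv x (mnr (bordK w v A) f g) ∈
      Submodule.span ℂ (gens w v A (k + 1) l) := by
  unfold mnr
  rw [SQ.jacobi (pderiv x) ((bordK w v A).submatrix f g), Finset.mul_sum]
  refine Submodule.sum_mem _ fun a _ => ?_
  rw [Finset.mul_sum]
  refine Submodule.sum_mem _ fun b _ => ?_
  rw [Matrix.submatrix_apply]
  obtain _ | r := r
  · exact a.elim0
  rw [Matrix.adjugate_fin_succ_eq_det_submatrix]
  have e : (-1) ^ ((b : ℕ) + (a : ℕ)) *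
      (((bordK w v A).submatrix f g).submatrix b.succAbove a.succAbove).det *
        pderiv x (bordK w v A (f b) (g a)) =
      ((-1) ^ ((b : ℕ) + (a : ℕ)) : ℂ) •
        (pderiv x (bordK w v A (f b) (g a)) *
          mnr (bordK w v A) (f ∘ b.succAbove) (g ∘ a.succAbove)) := by
    unfold mnr
    rw [smul_eq_C_mul, Matrix.submatrix_submatrix]
    simp only [map_pow, map_neg, map_one]
    ring
  rw [e, mul_smul_comm]
  apply Submodule.smul_mem
  refine SG.mul_poly_mem _ _ _ (e := w (f b) - 1) ((SG.totalDegree_pderiv_le _ _).trans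
    (Nat.sub_le_sub_right (bordK_totalDegree A hA v _ _) 1)) _ fun m _ hm => ?_
  apply Submodule.subset_span
  refine ⟨r, by omega, f ∘ b.succAbove, g ∘ a.succAbove, μ + m, ?_, rfl⟩
  rw [map_add]
  rw [Fin.sum_univ_succAbove _ b] at hμ
  have h1 := hw (f b)
  simp only [Function.comp_apply]
  omega

/-- the `k`-th derivatives of the determinant -/
theorem dk_mem [Fintype ι] {k : ℕ} (hw : ∀ i, 1 ≤ w i)
    (A : Matrix (Fin n) (Fin n) (MvPolynomial ι ℂ))
    (hA : ∀ i j, (A i j).totalDegree ≤ w i) (v : ℂ) (a : Fin k → ι) :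
    dk a (bordK w v A).det ∈ Submodule.span ℂ (gens w v A k 0) := by
  induction k with
  | zero =>
    apply Submodule.subset_span
    refine ⟨n, by omega, id, id, 0, by simp, ?_⟩
    change (bordK w v A).det = monomial 0 1 * _
    rw [show (monomial (0 : ι ⊕ Fin n →₀ ℕ)) (1 : ℂ) = 1 from rfl, one_mul]
    rfl
  | succ k ih =>
    have h := ih (Fin.tail a)
    show pderiv (Sum.inl (a 0)) (dk (Fin.tail a) (bordK w v A).det) ∈ _
    refine Submodule.span_induction (p := fun P _ => pderiv (Sum.inl (a 0)) P ∈ _)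
      ?_ ?_ ?_ ?_ h
    · rintro P ⟨r, hr, f, g, μ, hμ, rfl⟩
      rw [Derivation.leibniz, smul_eq_mul, smul_eq_mul]
      refine Submodule.add_mem _ ?_ ?_
      · exact pderiv_mnr_mem hw A hA v _ hr f g μ hμ
      · rw [pderiv_monomial, one_mul]
        have h1 : mnr (bordK w v A) f g * monomial (μ - Finsupp.single (Sum.inl (a 0)) 1)
            ((μ (Sum.inl (a 0)) : ℕ) : ℂ) = ((μ (Sum.inl (a 0)) : ℕ) : ℂ) •
              (monomial (μ - Finsupp.single (Sum.inl (a 0)) 1) 1 * mnr (bordK w v A) f g) := by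
          rw [← smul_mul_assoc, smul_monomial, smul_eq_mul, mul_one, mul_comm]
        rw [h1]
        by_cases h0 : μ (Sum.inl (a 0)) = 0
        · rw [h0, Nat.cast_zero, zero_smul]
          exact Submodule.zero_mem _
        refine Submodule.smul_mem _ _ (Submodule.subset_span ⟨r, by omega, f, g, _, ?_, rfl⟩)
        have h2 : (μ - Finsupp.single (Sum.inl (a 0)) 1) + Finsupp.single (Sum.inl (a 0)) 1 = μ :=
          tsub_add_cancel_of_le (Finsupp.single_le_iff.2 (by omega))
        have h3 := congrArg Finsupp.degree h2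
        rw [map_add, Finsupp.degree_single] at h3
        omega
    · rw [map_zero]
      exact Submodule.zero_mem _
    · intro P Q _ _ hP hQ
      rw [map_add]
      exact Submodule.add_mem _ hP hQ
    · intro c P _ hP
      rw [Derivation.map_smul]
      exact Submodule.smul_mem _ _ hP

/-- the normal forms -/
def nforms (w : Fin n → ℕ) (v : ℂ) (A : Matrix (Fin n) (Fin n) (MvPolynomial ι ℂ)) (k l : ℕ) :
    Set (MvPolynomial (ι ⊕ Fin n) ℂ) :=
  {P | ∃ r, n ≤ r + k ∧ ∃ f g : Fin r → Fin n, ∃ μ : (ι ⊕ Fin n) →₀ ℕ,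
    μ.degree + ∑ a, w (f a) + k ≤ l + ∑ i, w i ∧
    (∀ i, w i ≤ μ (Sum.inr i) → i ∈ Set.range f ∧ i ∈ Set.range g) ∧
    P = monomial μ 1 * mnr (bordK w v A) f g}

theorem kill_row (v : ℂ) (hv : v ≠ 0) (A : Matrix (Fin n) (Fin n) (MvPolynomial ι ℂ))
    {r : ℕ} (f g : Fin r → Fin n) (i : Fin n) (hi : i ∉ Set.range g) (μ : (ι ⊕ Fin n) →₀ ℕ) :
    monomial (μ + Finsupp.single (Sum.inr i) (w i)) 1 * mnr (bordK w v A) f g =
      v⁻¹ • (monomial μ 1 * mnr (bordK w v A) (Fin.cons i f : Fin (r + 1) → Fin n)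
          (Fin.cons i g : Fin (r + 1) → Fin n) -
        monomial μ 1 * (rename Sum.inl (A i i) * mnr (bordK w v A) f g) -
        ∑ j : Fin r, ((-1) ^ ((j : ℕ) + 1) : ℂ) • (monomial μ 1 *
          (rename Sum.inl (A i (g j)) * mnr (bordK w v A) f
            ((Fin.cons i g : Fin (r + 1) → Fin n) ∘ (Fin.succ j).succAbove)))) := by
  have e1 : bordK w v A i i = rename Sum.inl (A i i) + C v * X (Sum.inr i) ^ w i := by
    simp [bordK]
  have e2 : ∀ j, bordK w v A i (g j) = rename Sum.inl (A i (g j)) := by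
    intro j
    have : i ≠ g j := fun h => hi ⟨j, h.symm⟩
    simp [bordK, this]
  rw [laplace_row, e1]
  have e3 : ∑ j : Fin r, (-1) ^ ((j : ℕ) + 1) * bordK w v A i (g j) * mnr (bordK w v A) f
      ((Fin.cons i g : Fin (r + 1) → Fin n) ∘ (Fin.succ j).succAbove) =
      ∑ j : Fin r, (-1) ^ ((j : ℕ) + 1) * (rename Sum.inl (A i (g j)) * mnr (bordK w v A) f
      ((Fin.cons i g : Fin (r + 1) → Fin n) ∘ (Fin.succ j).succAbove)) := by
    refine Finset.sum_congr rfl fun j _ => ?_
    rw [e2, mul_assoc]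
  rw [e3]
  have e4 : ∑ j : Fin r, ((-1) ^ ((j : ℕ) + 1) : ℂ) • (monomial μ (1 : ℂ) *
          (rename Sum.inl (A i (g j)) * mnr (bordK w v A) f
            ((Fin.cons i g : Fin (r + 1) → Fin n) ∘ (Fin.succ j).succAbove))) =
      monomial μ 1 * ∑ j : Fin r, (-1) ^ ((j : ℕ) + 1) * (rename Sum.inl (A i (g j)) *
        mnr (bordK w v A) f ((Fin.cons i g : Fin (r + 1) → Fin n) ∘ (Fin.succ j).succAbove)) := by
    rw [Finset.mul_sum]
    refine Finset.sum_congr rfl fun j _ => ?_
    rw [smul_eq_C_mul, map_pow, map_neg, map_one]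
    ring
  rw [e4]
  have e5 : monomial (μ + Finsupp.single (Sum.inr i) (w i)) (1 : ℂ) =
      monomial μ 1 * X (Sum.inr i) ^ w i := by
    rw [X_pow_eq_monomial, monomial_mul, one_mul]
  rw [e5, smul_eq_C_mul]
  have e6 : (C v⁻¹ * C v : MvPolynomial (ι ⊕ Fin n) ℂ) = 1 := by
    rw [← C_mul, inv_mul_cancel₀ hv, C_1]
  linear_combination (-(monomial μ (1 : ℂ) * X (Sum.inr i) ^ w i * mnr (bordK w v A) f g)) * e6

theorem kill_col (v : ℂ) (hv : v ≠ 0) (A : Matrix (Fin n) (Fin n) (MvPolynomial ι ℂ))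
    {r : ℕ} (f g : Fin r → Fin n) (i : Fin n) (hi : i ∉ Set.range f) (μ : (ι ⊕ Fin n) →₀ ℕ) :
    monomial (μ + Finsupp.single (Sum.inr i) (w i)) 1 * mnr (bordK w v A) f g =
      v⁻¹ • (monomial μ 1 * mnr (bordK w v A) (Fin.cons i f : Fin (r + 1) → Fin n)
          (Fin.cons i g : Fin (r + 1) → Fin n) -
        monomial μ 1 * (rename Sum.inl (A i i) * mnr (bordK w v A) f g) -
        ∑ j : Fin r, ((-1) ^ ((j : ℕ) + 1) : ℂ) • (monomial μ 1 *
          (rename Sum.inl (A (f j) i) * mnr (bordK w v A)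
            ((Fin.cons i f : Fin (r + 1) → Fin n) ∘ (Fin.succ j).succAbove) g))) := by
  have e1 : bordK w v A i i = rename Sum.inl (A i i) + C v * X (Sum.inr i) ^ w i := by
    simp [bordK]
  have e2 : ∀ j, bordK w v A (f j) i = rename Sum.inl (A (f j) i) := by
    intro j
    have : f j ≠ i := fun h => hi ⟨j, h⟩
    simp [bordK, this]
  rw [laplace_col, e1]
  have e3 : ∑ j : Fin r, (-1) ^ ((j : ℕ) + 1) * bordK w v A (f j) i * mnr (bordK w v A)
      ((Fin.cons i f : Fin (r + 1) → Fin n) ∘ (Fin.succ j).succAbove) g =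
      ∑ j : Fin r, (-1) ^ ((j : ℕ) + 1) * (rename Sum.inl (A (f j) i) * mnr (bordK w v A)
      ((Fin.cons i f : Fin (r + 1) → Fin n) ∘ (Fin.succ j).succAbove) g) := by
    refine Finset.sum_congr rfl fun j _ => ?_
    rw [e2, mul_assoc]
  rw [e3]
  have e4 : ∑ j : Fin r, ((-1) ^ ((j : ℕ) + 1) : ℂ) • (monomial μ (1 : ℂ) *
          (rename Sum.inl (A (f j) i) * mnr (bordK w v A)
            ((Fin.cons i f : Fin (r + 1) → Fin n) ∘ (Fin.succ j).succAbove) g)) =
      monomial μ 1 * ∑ j : Fin r, (-1) ^ ((j : ℕ) + 1) * (rename Sum.inl (A (f j) i) *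
        mnr (bordK w v A) ((Fin.cons i f : Fin (r + 1) → Fin n) ∘ (Fin.succ j).succAbove) g) := by
    rw [Finset.mul_sum]
    refine Finset.sum_congr rfl fun j _ => ?_
    rw [smul_eq_C_mul, map_pow, map_neg, map_one]
    ring
  rw [e4]
  have e5 : monomial (μ + Finsupp.single (Sum.inr i) (w i)) (1 : ℂ) =
      monomial μ 1 * X (Sum.inr i) ^ w i := by
    rw [X_pow_eq_monomial, monomial_mul, one_mul]
  rw [e5, smul_eq_C_mul]
  have e6 : (C v⁻¹ * C v : MvPolynomial (ι ⊕ Fin n) ℂ) = 1 := by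
    rw [← C_mul, inv_mul_cancel₀ hv, C_1]
  linear_combination (-(monomial μ (1 : ℂ) * X (Sum.inr i) ^ w i * mnr (bordK w v A) f g)) * e6

theorem sum_cons_succAbove {r : ℕ} (f : Fin r → Fin n) (i : Fin n) (j : Fin r) :
    ∑ a, w (((Fin.cons i f : Fin (r + 1) → Fin n) ∘ (Fin.succ j).succAbove) a) + w (f j) =
      w i + ∑ a, w (f a) := by
  have h1 := Fin.sum_univ_succAbove (fun a => w ((Fin.cons i f : Fin (r + 1) → Fin n) a))
    (Fin.succ j)
  have h2 : ∑ a, w ((Fin.cons i f : Fin (r + 1) → Fin n) a) = w i + ∑ a, w (f a) := by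
    rw [Fin.sum_univ_succ]
    simp
  rw [h2] at h1
  rw [h1]
  simp only [Function.comp_apply, Fin.cons_succ]
  ring

theorem kill (hw : ∀ i, 1 ≤ w i) (v : ℂ) (hv : v ≠ 0)
    (A : Matrix (Fin n) (Fin n) (MvPolynomial ι ℂ))
    (hA : ∀ i j, (A i j).totalDegree ≤ w i) (k l : ℕ) (d : ℕ) :
    ∀ μ : (ι ⊕ Fin n) →₀ ℕ, ∑ i, μ (Sum.inr i) ≤ d →
    ∀ r, n ≤ r + k → ∀ f g : Fin r → Fin n, μ.degree + ∑ a, w (f a) + k ≤ l + ∑ i, w i →
      monomial μ 1 * mnr (bordK w v A) f g ∈ Submodule.span ℂ (nforms w v A k l) := by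
  induction d with
  | zero =>
    intro μ hd r hr f g hμ
    apply Submodule.subset_span
    refine ⟨r, hr, f, g, μ, hμ, fun i hi => ?_, rfl⟩
    have := Finset.sum_eq_zero_iff.1 (Nat.le_zero.1 hd) i (Finset.mem_univ _)
    have := hw i
    omega
  | succ d ih =>
    intro μ hd r hr f g hμ
    by_cases hall : ∀ i, w i ≤ μ (Sum.inr i) → i ∈ Set.range f ∧ i ∈ Set.range g
    · exact Submodule.subset_span ⟨r, hr, f, g, μ, hμ, hall, rfl⟩
    · push Not at hall
      obtain ⟨i, hi, hfg⟩ := hall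
      obtain ⟨μ', rfl⟩ : ∃ μ', μ = μ' + Finsupp.single (Sum.inr i) (w i) := by
        refine ⟨μ - Finsupp.single (Sum.inr i) (w i), ?_⟩
        rw [tsub_add_cancel_of_le]
        rw [Finsupp.single_le_iff]
        exact hi
      have hwi := hw i
      have hdeg : μ'.degree + w i + ∑ a, w (f a) + k ≤ l + ∑ i, w i := by
        rw [map_add, Finsupp.degree_single] at hμ
        exact hμ
      have hyd : ∑ i, μ' (Sum.inr i) ≤ d := by
        simp only [Finsupp.add_apply, Finset.sum_add_distrib] at hd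
        have h1 : w i ≤ ∑ j : Fin n, (Finsupp.single (Sum.inr i : ι ⊕ Fin n) (w i)) (Sum.inr j) := by
          refine le_trans (le_of_eq ?_) (Finset.single_le_sum
            (f := fun j : Fin n => (Finsupp.single (Sum.inr i : ι ⊕ Fin n) (w i)) (Sum.inr j))
            (fun _ _ => Nat.zero_le _) (Finset.mem_univ i))
          simp
        omega
      have aux : ∀ (p : MvPolynomial ι ℂ) (e : ℕ) (_ : p.totalDegree ≤ e) (f g : Fin r → Fin n),
          μ'.degree + e + ∑ a, w (f a) + k ≤ l + ∑ i, w i →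
          monomial μ' 1 * (rename Sum.inl p * mnr (bordK w v A) f g) ∈
            Submodule.span ℂ (nforms w v A k l) := by
        intro p e hp f g hfg
        refine SG.mul_poly_mem _ _ _ (e := e) ((totalDegree_rename_le _ _).trans hp) _
          fun m hms hm => ih _ ?_ r hr f g ?_
        · simp only [Finsupp.add_apply, SG.support_rename_inr p m hms, add_zero]
          exact hyd
        · rw [map_add]
          omega
      have hplus : monomial μ' 1 * mnr (bordK w v A) (Fin.cons i f : Fin (r + 1) → Fin n)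
          (Fin.cons i g : Fin (r + 1) → Fin n) ∈ Submodule.span ℂ (nforms w v A k l) := by
        refine ih μ' hyd (r + 1) (by omega) _ _ ?_
        rw [Fin.sum_univ_succ]
        simp only [Fin.cons_zero, Fin.cons_succ]
        omega
      by_cases hf : i ∈ Set.range f
      · rw [kill_row v hv A f g i (hfg hf)]
        refine Submodule.smul_mem _ _ (Submodule.sub_mem _ (Submodule.sub_mem _ hplus
          (aux _ _ (hA _ _) _ _ hdeg)) (Submodule.sum_mem _ fun j _ => Submodule.smul_mem _ _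
          (aux _ _ (hA _ _) _ _ hdeg)))
      · rw [kill_col v hv A f g i hf]
        refine Submodule.smul_mem _ _ (Submodule.sub_mem _ (Submodule.sub_mem _ hplus
          (aux _ _ (hA _ _) _ _ hdeg)) (Submodule.sum_mem _ fun j _ => Submodule.smul_mem _ _
          (aux _ _ (hA _ _) _ _ ?_)))
        have h1 := sum_cons_succAbove (w := w) f i j
        omega

/-- the sorted normal forms -/
noncomputable def sform (w : Fin n → ℕ) (v : ℂ) (A : Matrix (Fin n) (Fin n) (MvPolynomial ι ℂ))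
    (q : (_ : Finset (Fin n) × Finset (Fin n)) × ((ι ⊕ Fin n) →₀ ℕ)) :
    MvPolynomial (ι ⊕ Fin n) ℂ :=
  if h : q.1.2.card = q.1.1.card then
    monomial q.2 1 * mnr (bordK w v A) (q.1.1.orderEmbOfFin rfl : Fin q.1.1.card → Fin n)
      (q.1.2.orderEmbOfFin h : Fin q.1.1.card → Fin n)
  else 0

end span

/-- monomials with bounded exponents outside of `s` -/
theorem card_mons_bounded {ι : Type} [Fintype ι] [DecidableEq ι] {n : ℕ} {w : Fin n → ℕ}
    (hw : ∀ i, 1 ≤ w i) (s : Finset (Fin n)) (l : ℕ) :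
    ((mons (Finset.univ : Finset (ι ⊕ Fin n)) l).filter fun μ => ∀ i, i ∉ s →
      μ (Sum.inr i) < w i).card ≤ (∏ i ∈ sᶜ, w i) * (Fintype.card ι + s.card + l).choose l := by
  classical
  set W : Finset (ι ⊕ Fin n) := (Finset.univ : Finset ι).disjSum s with hW
  have hcard : ((Finset.univ : Finset (∀ i : {i : Fin n // i ∈ sᶜ}, Fin (w i))) ×ˢ
      (mons W l)).card = (∏ i ∈ sᶜ, w i) * (Fintype.card ι + s.card + l).choose l := by
    rw [Finset.card_product, Finset.card_univ, Fintype.card_pi, card_mons, hW,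
      Finset.card_disjSum, Finset.card_univ]
    congr 1
    simp only [Fintype.card_fin]
    exact Finset.prod_coe_sort sᶜ w
  rw [← hcard]
  refine Finset.card_le_card_of_injOn (fun μ => (fun i => ⟨μ (Sum.inr i.1) % w i.1,
    Nat.mod_lt _ (hw i.1)⟩, μ.filter (fun x => x ∈ W))) ?_ ?_
  · intro μ hμ
    rw [Finset.mem_coe, Finset.mem_filter, mem_mons] at hμ
    rw [Finset.mem_coe, Finset.mem_product]
    refine ⟨Finset.mem_univ _, ?_⟩
    rw [mem_mons]
    refine ⟨?_, ?_⟩
    · rw [Finsupp.support_filter]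
      exact fun x hx => (Finset.mem_filter.1 hx).2
    · have h1 : (μ.filter (fun x => x ∈ W)).degree ≤ μ.degree := by
        refine Finsupp.degree_mono fun x => ?_
        rw [Finsupp.filter_apply]
        split_ifs
        · exact le_rfl
        · exact Nat.zero_le _
      exact h1.trans hμ.1.2
  · intro μ hμ μ' hμ' h
    rw [Finset.mem_coe, Finset.mem_filter] at hμ hμ'
    simp only [Prod.mk.injEq] at h
    obtain ⟨h1, h2⟩ := h
    ext x
    by_cases hx : x ∈ W
    · have := DFunLike.congr_fun h2 x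
      rwa [Finsupp.filter_apply_pos _ _ hx, Finsupp.filter_apply_pos _ _ hx] at this
    · rcases x with x | i
      · exact absurd (by simp [hW]) hx
      · have hi : i ∉ s := fun hi => hx (by simp [hW, hi])
        have h3 := congrFun h1 ⟨i, Finset.mem_compl.2 hi⟩
        have h4 := congrArg Fin.val h3
        simp only at h4
        rwa [Nat.mod_eq_of_lt (hμ.2 i hi), Nat.mod_eq_of_lt (hμ'.2 i hi)] at h4

/-- The upper bound. -/
theorem upper {ι : Type} [Fintype ι] [DecidableEq ι] {n δ : ℕ} {w : Fin n → ℕ}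
    (hw : ∀ i, 1 ≤ w i) (hwδ : ∀ i, w i ≤ δ) (hδ : 1 ≤ δ)
    (A : Matrix (Fin n) (Fin n) (MvPolynomial ι ℂ)) (hA : ∀ i j, (A i j).totalDegree ≤ w i)
    (v : ℂ) (hv : v ≠ 0) (k l : ℕ) :
    ∃ W : Submodule ℂ (MvPolynomial (ι ⊕ Fin n) ℂ), FiniteDimensional ℂ W ∧
      Module.finrank ℂ W ≤ ubK w (Fintype.card ι) k (l + k * (δ - 1)) ∧
      ∀ (a : Fin k → ι) (μ : (ι ⊕ Fin n) →₀ ℕ), μ.degree ≤ l →
        monomial μ 1 * dk a (bordK w v A).det ∈ W := by
  classical
  set L := l + k * (δ - 1) with hL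
  set S : Finset ((_ : Finset (Fin n) × Finset (Fin n)) × ((ι ⊕ Fin n) →₀ ℕ)) :=
    (prs n k).sigma fun p => (mons (Finset.univ : Finset (ι ⊕ Fin n)) L).filter
      fun μ => ∀ i, i ∉ p.1 ∩ p.2 → μ (Sum.inr i) < w i with hS
  have hsub : nforms w v A k l ⊆ Submodule.span ℂ ((S.image (sform w v A) :
      Finset (MvPolynomial (ι ⊕ Fin n) ℂ)) : Set (MvPolynomial (ι ⊕ Fin n) ℂ)) := by
    rintro P ⟨r, hr, f, g, μ, hμ, hy, rfl⟩
    by_cases hf : Function.Injective f
    swap
    · rw [mnr_zero_left _ _ _ hf, mul_zero]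
      exact Submodule.zero_mem _
    by_cases hg : Function.Injective g
    swap
    · rw [mnr_zero_right _ _ _ hg, mul_zero]
      exact Submodule.zero_mem _
    obtain ⟨ε, hε⟩ := mnr_sort (bordK w v A) f g hf hg
    have cf : (Finset.univ.image f).card = r := by
      rw [Finset.card_image_of_injective _ hf, Finset.card_univ, Fintype.card_fin]
    have cg : (Finset.univ.image g).card = r := by
      rw [Finset.card_image_of_injective _ hg, Finset.card_univ, Fintype.card_fin]
    have hμL : μ.degree ≤ L := by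
      have h1 : ∑ a, w (f a) = ∑ i ∈ Finset.univ.image f, w i := by
        rw [Finset.sum_image fun a _ b _ h => hf h]
      have h2 := Finset.sum_add_sum_compl (Finset.univ.image f) w
      have h3 : ∑ i ∈ (Finset.univ.image f)ᶜ, w i ≤ k * δ := by
        refine (Finset.sum_le_card_nsmul _ _ δ fun i _ => hwδ i).trans ?_
        rw [smul_eq_mul]
        refine Nat.mul_le_mul_right _ ?_
        rw [Finset.card_compl, Fintype.card_fin, cf]
        omega
      have h4 : k * δ = k * (δ - 1) + k := by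
        obtain ⟨e, rfl⟩ : ∃ e, δ = e + 1 := ⟨δ - 1, by omega⟩
        rw [Nat.add_sub_cancel, Nat.mul_add, mul_one]
      omega
    rw [hε, mnr_cast (bordK w v A) _ _ cf cg]
    have e : monomial μ (1 : ℂ) * ((ε : MvPolynomial (ι ⊕ Fin n) ℂ) * mnr (bordK w v A)
        ((Finset.univ.image f).orderEmbOfFin rfl : Fin (Finset.univ.image f).card → Fin n)
        ((Finset.univ.image g).orderEmbOfFin (cg.trans cf.symm) :
          Fin (Finset.univ.image f).card → Fin n)) =
        (ε : ℂ) • sform w v A ⟨(Finset.univ.image f, Finset.univ.image g), μ⟩ := by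
      unfold sform
      simp only
      rw [dif_pos (cg.trans cf.symm), smul_eq_C_mul, map_intCast]
      ring
    rw [e]
    refine Submodule.smul_mem _ _ (Submodule.subset_span ?_)
    rw [Finset.coe_image]
    refine ⟨_, ?_, rfl⟩
    rw [hS, Finset.mem_coe, Finset.mem_sigma]
    refine ⟨?_, ?_⟩
    · simp only [prs, Finset.mem_filter, Finset.mem_univ, true_and]
      exact ⟨cf.trans cg.symm, by rw [cf]; exact hr⟩
    · simp only
      rw [Finset.mem_filter, mem_mons]
      refine ⟨⟨Finset.subset_univ _, hμL⟩, fun i hi => ?_⟩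
      by_contra hcon
      have h3 := hy i (not_lt.1 hcon)
      exact hi (by simpa using h3)
  refine ⟨Submodule.span ℂ ((S.image (sform w v A) :
      Finset (MvPolynomial (ι ⊕ Fin n) ℂ)) : Set (MvPolynomial (ι ⊕ Fin n) ℂ)),
    FiniteDimensional.span_finset _ _, ?_, ?_⟩
  · refine (finrank_span_finset_le_card _).trans (Finset.card_image_le.trans ?_)
    rw [hS, Finset.card_sigma]
    unfold ubK
    exact Finset.sum_le_sum fun p _ => card_mons_bounded hw _ _
  · intro a μ hμ
    have h1 := dk_mem hw A hA v a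
    have h2 : Submodule.span ℂ (nforms w v A k l) ≤ Submodule.span ℂ ((S.image (sform w v A) :
      Finset (MvPolynomial (ι ⊕ Fin n) ℂ)) : Set (MvPolynomial (ι ⊕ Fin n) ℂ)) :=
      Submodule.span_le.2 hsub
    apply h2
    refine Submodule.span_induction (p := fun P _ => monomial μ 1 * P ∈
      Submodule.span ℂ (nforms w v A k l)) ?_ ?_ ?_ ?_ h1
    · rintro P ⟨r, hr, f, g, ν, hν, rfl⟩
      rw [← mul_assoc, monomial_mul, one_mul]
      exact kill hw v hv A hA k l _ (μ + ν) le_rfl r hr f g (by rw [map_add]; omega)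
    · rw [mul_zero]
      exact Submodule.zero_mem _
    · intro P Q _ _ hP hQ
      rw [mul_add]
      exact Submodule.add_mem _ hP hQ
    · intro c P _ hP
      rw [mul_smul_comm]
      exact Submodule.smul_mem _ _ hP

end Pool.Agent.Work.MP_35c45d_lc.SK
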