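import Pool.Agent.Work.MP_35c45d_lc.SKDefs
import Pool.Agent.Work.MP_35c45d_lc.SDMonsB

/-! # Numerical form of the upper bound -/

set_option autoImplicit false

namespace Pool.Agent.Work.MP_35c45d_lc.SK

open Finset SD

/-- compare `SD.sum_pow_card_union` -/
theorem sum_prod_union {n : ℕ} (x : Fin n → ℝ) :
    ∑ p : Finset (Fin n) × Finset (Fin n), ∏ i ∈ p.1 ∪ p.2, x i = ∏ i, (1 + 3 * x i) := by
  classical
  have key : ∀ s : Finset (Fin n), ∑ I ∈ s.powerset, ∑ J ∈ s.powerset, ∏ i ∈ I ∪ J, x i =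
      ∏ i ∈ s, (1 + 3 * x i) := by
    intro s
    induction s using Finset.induction_on with
    | empty => simp
    | insert a s ha ih =>
      rw [Finset.sum_powerset_insert ha, Finset.prod_insert ha, ← ih]
      have h1 : ∀ I ∈ s.powerset, ∀ J ∈ s.powerset,
          ∏ i ∈ I ∪ insert a J, x i = x a * ∏ i ∈ I ∪ J, x i := by
        intro I hI J hJ
        rw [Finset.union_insert, Finset.prod_insert]
        rw [Finset.mem_union]
        rintro (h | h)
        · exact ha (Finset.mem_powerset.1 hI h)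
        · exact ha (Finset.mem_powerset.1 hJ h)
      have h2 : ∀ I ∈ s.powerset, ∀ J ∈ s.powerset,
          ∏ i ∈ insert a I ∪ J, x i = x a * ∏ i ∈ I ∪ J, x i := by
        intro I hI J hJ
        rw [Finset.insert_union, Finset.prod_insert]
        rw [Finset.mem_union]
        rintro (h | h)
        · exact ha (Finset.mem_powerset.1 hI h)
        · exact ha (Finset.mem_powerset.1 hJ h)
      have h3 : ∀ I ∈ s.powerset, ∀ J ∈ s.powerset,
          ∏ i ∈ insert a I ∪ insert a J, x i = x a * ∏ i ∈ I ∪ J, x i := by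
        intro I hI J hJ
        rw [Finset.insert_union, Finset.union_insert, Finset.insert_idem, Finset.prod_insert]
        rw [Finset.mem_union]
        rintro (h | h)
        · exact ha (Finset.mem_powerset.1 hI h)
        · exact ha (Finset.mem_powerset.1 hJ h)
      have h4 : ∑ I ∈ s.powerset, ∑ J ∈ (insert a s).powerset, ∏ i ∈ I ∪ J, x i =
          (1 + x a) * ∑ I ∈ s.powerset, ∑ J ∈ s.powerset, ∏ i ∈ I ∪ J, x i := by
        rw [Finset.mul_sum]
        refine Finset.sum_congr rfl fun I hI => ?_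
        rw [Finset.sum_powerset_insert ha, Finset.sum_congr rfl (h1 I hI), ← Finset.mul_sum]
        ring
      have h5 : ∑ I ∈ s.powerset, ∑ J ∈ (insert a s).powerset, ∏ i ∈ insert a I ∪ J, x i =
          2 * x a * ∑ I ∈ s.powerset, ∑ J ∈ s.powerset, ∏ i ∈ I ∪ J, x i := by
        rw [Finset.mul_sum]
        refine Finset.sum_congr rfl fun I hI => ?_
        rw [Finset.sum_powerset_insert ha, Finset.sum_congr rfl (h2 I hI),
          Finset.sum_congr rfl (h3 I hI), ← Finset.mul_sum]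
        ring
      rw [h4, h5]
      ring
  have h := key Finset.univ
  rw [← h, Fintype.sum_prod_type]
  simp only [Finset.powerset_univ]

/-- numerical form of the upper bound, compare `SD.ub_le` -/
theorem ubK_le {n : ℕ} (w : Fin n → ℕ) (N k l : ℕ) (hk : 1 ≤ k) (hNn : 0 < N + n) (y z : ℝ)
    (hy : ((∑ i, w i : ℕ) : ℝ) ≤ y) (hz : ((N + n : ℕ) : ℝ) / ((N + n + l : ℕ) : ℝ) ≤ z)
    (h : 2 * (k : ℝ) ≤ 3 * (y * z)) :
    (ubK w N k l : ℝ) ≤
      (3 * Real.exp 1 * (y * z) / (2 * k)) ^ (2 * k) * ((N + n + l).choose l : ℝ) := by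
  have hk0 : (0 : ℝ) < k := by exact_mod_cast hk
  have hz0 : 0 ≤ z := le_trans (by positivity) hz
  have hy0 : 0 ≤ y := le_trans (by positivity) hy
  have hyz : 0 < y * z := by linarith
  have hzp : 0 < z := by
    rcases hz0.lt_or_eq with h1 | h1
    · exact h1
    · rw [← h1, mul_zero] at hyz; exact absurd hyz (lt_irrefl _)
  have hyp : 0 < y := pos_of_mul_pos_left hyz hz0
  set t : ℝ := 2 * k / (3 * (y * z)) with ht
  have h3 : 0 < 3 * (y * z) := by positivity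
  have ht0 : 0 < t := by positivity
  have ht1 : t ≤ 1 := by rw [ht, div_le_one h3]; exact h
  set B : ℝ := ((N + n + l).choose l : ℝ) with hB
  have hB0 : 0 ≤ B := by positivity
  have h1 : (ubK w N k l : ℝ) ≤
      ∑ p ∈ prs n k, t⁻¹ ^ (2 * k) * (∏ i ∈ p.1ᶜ ∪ p.2ᶜ, (t * z * w i)) * B := by
    unfold ubK
    push_cast
    refine Finset.sum_le_sum fun p hp => ?_
    obtain ⟨hp1, hp2⟩ := (Finset.mem_filter.1 hp).2
    set u := (p.1ᶜ ∪ p.2ᶜ).card with hu
    have hun : u ≤ n := by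
      have := Finset.card_le_univ (p.1ᶜ ∪ p.2ᶜ)
      rwa [Fintype.card_fin] at this
    have hc : (p.1 ∩ p.2)ᶜ = p.1ᶜ ∪ p.2ᶜ := by
      ext i; simp
    have hcomp : (p.1 ∩ p.2).card = n - u := by
      have h4 : p.1 ∩ p.2 = (p.1ᶜ ∪ p.2ᶜ)ᶜ := by
        ext i; simp
      rw [h4, Finset.card_compl, Fintype.card_fin]
    have hu2 : u ≤ 2 * k := by
      have h5 := Finset.card_union_le p.1ᶜ p.2ᶜ
      rw [Finset.card_compl, Finset.card_compl, Fintype.card_fin] at h5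
      omega
    have h6 := choose_ratio (N + n) u l (by omega) hNn
    have h7 : N + n - u = N + (n - u) := by omega
    rw [h7] at h6
    rw [hc, hcomp]
    have hz' : ((N + n : ℕ) : ℝ) / (((N + n : ℕ) : ℝ) + l) ≤ z := by
      refine le_trans (le_of_eq ?_) hz
      push_cast
      ring
    have h6' : ((N + (n - u) + l).choose l : ℝ) ≤ z ^ u * B := by
      refine h6.trans (mul_le_mul_of_nonneg_right ?_ hB0)
      exact pow_le_pow_left₀ (by positivity) hz' u
    have h8 : (1 : ℝ) ≤ t⁻¹ ^ (2 * k) * t ^ u := by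
      have h10 : t ^ (2 * k) ≤ t ^ u := pow_le_pow_of_le_one ht0.le ht1 hu2
      rw [inv_pow, inv_mul_eq_div, one_le_div (by positivity)]
      exact h10
    have h9 : ∏ i ∈ p.1ᶜ ∪ p.2ᶜ, (t * z * (w i : ℝ)) =
        t ^ u * z ^ u * ∏ i ∈ p.1ᶜ ∪ p.2ᶜ, (w i : ℝ) := by
      rw [Finset.prod_mul_distrib, Finset.prod_const, mul_pow]
    have hP0 : (0 : ℝ) ≤ ∏ i ∈ p.1ᶜ ∪ p.2ᶜ, (w i : ℝ) :=
      Finset.prod_nonneg fun i _ => Nat.cast_nonneg _
    calc (∏ i ∈ p.1ᶜ ∪ p.2ᶜ, (w i : ℝ)) * ((N + (n - u) + l).choose l : ℝ)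
        ≤ (∏ i ∈ p.1ᶜ ∪ p.2ᶜ, (w i : ℝ)) * (z ^ u * B) := mul_le_mul_of_nonneg_left h6' hP0
      _ = 1 * (z ^ u * (∏ i ∈ p.1ᶜ ∪ p.2ᶜ, (w i : ℝ)) * B) := by ring
      _ ≤ t⁻¹ ^ (2 * k) * t ^ u * (z ^ u * (∏ i ∈ p.1ᶜ ∪ p.2ᶜ, (w i : ℝ)) * B) :=
          mul_le_mul_of_nonneg_right h8 (by positivity)
      _ = t⁻¹ ^ (2 * k) * (∏ i ∈ p.1ᶜ ∪ p.2ᶜ, (t * z * (w i : ℝ))) * B := by
          rw [h9]; ring
  have h2 : ∑ p ∈ prs n k, t⁻¹ ^ (2 * k) * (∏ i ∈ p.1ᶜ ∪ p.2ᶜ, (t * z * (w i : ℝ))) * B ≤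
      t⁻¹ ^ (2 * k) * (∏ i, (1 + 3 * (t * z * (w i : ℝ)))) * B := by
    have hP : ∀ s : Finset (Fin n), (0 : ℝ) ≤ ∏ i ∈ s, (t * z * (w i : ℝ)) := fun s =>
      Finset.prod_nonneg fun i _ => by positivity
    calc ∑ p ∈ prs n k, t⁻¹ ^ (2 * k) * (∏ i ∈ p.1ᶜ ∪ p.2ᶜ, (t * z * (w i : ℝ))) * B
        ≤ ∑ p : Finset (Fin n) × Finset (Fin n),
            t⁻¹ ^ (2 * k) * (∏ i ∈ p.1ᶜ ∪ p.2ᶜ, (t * z * (w i : ℝ))) * B :=
          Finset.sum_le_sum_of_subset_of_nonneg (Finset.subset_univ _)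
            fun p _ _ => mul_nonneg (mul_nonneg (by positivity) (hP _)) hB0
      _ = ∑ p : Finset (Fin n) × Finset (Fin n),
            t⁻¹ ^ (2 * k) * (∏ i ∈ p.1 ∪ p.2, (t * z * (w i : ℝ))) * B := by
          exact ((compl_involutive.toPerm (compl : Finset (Fin n) → _)).prodCongr
            (compl_involutive.toPerm (compl : Finset (Fin n) → _))).sum_comp
            (fun p : Finset (Fin n) × Finset (Fin n) =>
              t⁻¹ ^ (2 * k) * (∏ i ∈ p.1 ∪ p.2, (t * z * (w i : ℝ))) * B)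
      _ = t⁻¹ ^ (2 * k) * (∏ i, (1 + 3 * (t * z * (w i : ℝ)))) * B := by
          rw [← Finset.sum_mul, ← Finset.mul_sum, sum_prod_union]
  refine h1.trans (h2.trans (mul_le_mul_of_nonneg_right ?_ hB0))
  have h4 : 3 * (t * (y * z)) = 2 * k := by
    rw [ht]; field_simp
  have h5 : ∏ i, (1 + 3 * (t * z * (w i : ℝ))) ≤ Real.exp (2 * k) := by
    calc ∏ i, (1 + 3 * (t * z * (w i : ℝ))) ≤ ∏ i, Real.exp (3 * (t * z * (w i : ℝ))) := by
          refine Finset.prod_le_prod (fun i _ => by positivity) fun i _ => ?_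
          have := Real.add_one_le_exp (3 * (t * z * (w i : ℝ)))
          linarith
      _ = Real.exp (∑ i, 3 * (t * z * (w i : ℝ))) := (Real.exp_sum _ _).symm
      _ ≤ Real.exp (2 * k) := by
          apply Real.exp_le_exp.2
          rw [← Finset.mul_sum, ← Finset.mul_sum]
          push_cast at hy
          have h6 : t * z * ∑ i, (w i : ℝ) ≤ t * z * y :=
            mul_le_mul_of_nonneg_left hy (by positivity)
          linarith
  calc t⁻¹ ^ (2 * k) * (∏ i, (1 + 3 * (t * z * (w i : ℝ)))) ≤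
      t⁻¹ ^ (2 * k) * Real.exp (2 * k) := by gcongr
    _ = (3 * Real.exp 1 * (y * z) / (2 * k)) ^ (2 * k) := by
        have h6 : Real.exp (2 * k) = Real.exp 1 ^ (2 * k) := by
          rw [← Real.exp_nat_mul]; push_cast; ring_nf
        rw [h6, ← mul_pow]
        congr 1
        rw [ht]
        field_simp

end Pool.Agent.Work.MP_35c45d_lc.SK
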