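import Pool.Agent.Work.MP_35c45d_lc.SKDefs
import Pool.Agent.Work.MP_35c45d_lc.SGSub

/-! # Limits of sums of determinants with rows of different degrees: substitutions, degree -/

set_option autoImplicit false

namespace Pool.Agent.Work.MP_35c45d_lc.SK

open MvPolynomial Filter Topology SD

variable {ι κ : Type} {δ D M n : ℕ}

theorem totalDegree_det_le (w : Fin n → ℕ) (A : Matrix (Fin n) (Fin n) (MvPolynomial ι ℂ))
    (hA : ∀ i j, (A i j).totalDegree ≤ w i) : A.det.totalDegree ≤ ∑ i, w i := by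
  rw [← Matrix.det_transpose, Matrix.det_apply]
  refine totalDegree_finsetSum_le fun τ _ => ?_
  refine (totalDegree_smul_le _ _).trans ?_
  refine (totalDegree_finsetProd _ _).trans ?_
  exact Finset.sum_le_sum fun i _ => hA _ _

theorem totalDegree_sum_det_le (w : Fin M → Fin n → ℕ) (hw : ∀ t, ∑ i, w t i ≤ D)
    (A : Fin M → Matrix (Fin n) (Fin n) (MvPolynomial ι ℂ))
    (hA : ∀ t i j, (A t i j).totalDegree ≤ w t i) : (∑ t, (A t).det).totalDegree ≤ D :=
  totalDegree_finsetSum_le fun t _ => (totalDegree_det_le (w t) _ (hA t)).trans (hw t)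

/-- compare `SD.LimSumDet.subst` -/
theorem LimK.subst [Fintype ι] {f : MvPolynomial ι ℂ} (hf : LimK δ D M n f)
    (φ : ι → MvPolynomial κ ℂ) (hφ : ∀ i, (φ i).totalDegree ≤ 1) :
    LimK δ D M n (aeval φ f) := by
  classical
  obtain ⟨A, w, hw1, hw2, hw3, hA, hlim⟩ := hf
  refine ⟨fun s t => (A s t).map (aeval φ), w, hw1, hw2, hw3, fun s t i j => ?_, fun d => ?_⟩
  · exact (SG.totalDegree_aeval_le _ φ hφ).trans (hA s t i j)
  · have h1 : ∀ s, ∑ t, ((A s t).map (aeval φ)).det = aeval φ (∑ t, (A s t).det) := by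
      intro s
      rw [map_sum]
      refine Finset.sum_congr rfl fun t _ => ?_
      rw [AlgHom.map_det]
      rfl
    simp only [h1]
    exact SQ.tendsto_linear D _ f (fun s => totalDegree_sum_det_le _ (hw3 s) _ (hA s)) hlim
      ((lcoeff ℂ d).comp (aeval φ).toLinearMap)

theorem LimK.le {m : ℕ} (h : LimK δ D M n (permP m)) : m ≤ D ∧ 1 ≤ M := by
  obtain ⟨A, w, hw1, hw2, hw3, hA, hlim⟩ := h
  have h1 := hlim (∑ i : Fin m, Finsupp.single (i, i) 1)
  rw [perm_coeff] at h1
  constructor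
  · by_contra hlt
    have h2 : ∀ s, coeff (∑ i : Fin m, Finsupp.single (i, i) 1) (∑ t, (A s t).det) = 0 := by
      intro s
      apply coeff_eq_zero_of_totalDegree_lt
      refine lt_of_le_of_lt (totalDegree_sum_det_le _ (hw3 s) _ (hA s)) ?_
      have h3 := degree_diag m
      rw [Finsupp.degree_apply] at h3
      rw [h3]
      omega
    simp only [h2] at h1
    exact zero_ne_one (tendsto_nhds_unique tendsto_const_nhds h1)
  · by_contra hlt
    have h0 : M = 0 := by omega
    subst h0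
    simp only [Finset.univ_eq_empty, Finset.sum_empty, coeff_zero] at h1
    exact zero_ne_one (tendsto_nhds_unique tendsto_const_nhds h1)

/-- coefficients depend continuously on the parameter of the dummy variables -/
theorem tendsto_bordK (w : Fin n → ℕ) (A : Matrix (Fin n) (Fin n) (MvPolynomial ι ℂ))
    (d : ι ⊕ Fin n →₀ ℕ) :
    Tendsto (fun v : ℂ => coeff d (bordK w v A).det) (𝓝 0)
      (𝓝 (coeff d (rename Sum.inl A.det))) := by
  classical
  let P : Polynomial (MvPolynomial (ι ⊕ Fin n) ℂ) :=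
    (Matrix.of fun i j => Polynomial.C (rename Sum.inl (A i j)) +
      if i = j then Polynomial.X * Polynomial.C (X (Sum.inr i) ^ w i) else 0).det
  have h1 : ∀ v : ℂ, (bordK w v A).det = P.eval (C v) := by
    intro v
    have h2 : P.eval (C v) = Polynomial.evalRingHom (C v) P := rfl
    rw [h2, RingHom.map_det]
    congr 1
    refine Matrix.ext fun i j => ?_
    simp only [bordK, Matrix.of_apply, RingHom.mapMatrix_apply, Matrix.map_apply]
    split_ifs
    · rw [map_add, map_mul, Polynomial.coe_evalRingHom, Polynomial.eval_C, Polynomial.eval_X,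
        Polynomial.eval_C]
    · rw [map_add, map_zero, Polynomial.coe_evalRingHom, Polynomial.eval_C]
  have h3 : ∀ v : ℂ, coeff d (bordK w v A).det =
      ∑ j ∈ Finset.range (P.natDegree + 1), coeff d (P.coeff j) * v ^ j := by
    intro v
    rw [h1, Polynomial.eval_eq_sum_range, coeff_sum]
    refine Finset.sum_congr rfl fun j _ => ?_
    rw [← C_pow, mul_comm, coeff_C_mul, mul_comm]
  have h4 : coeff d (rename Sum.inl A.det) = ∑ j ∈ Finset.range (P.natDegree + 1),
      coeff d (P.coeff j) * (0 : ℂ) ^ j := by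
    rw [← h3]
    congr 1
    rw [AlgHom.map_det]
    congr 1
    ext i j
    simp [bordK]
  rw [h4]
  simp only [h3]
  refine (Continuous.tendsto ?_ 0)
  fun_prop

theorem totalDegree_bordK_le (w : Fin n → ℕ) (v : ℂ)
    (A : Matrix (Fin n) (Fin n) (MvPolynomial ι ℂ))
    (hA : ∀ i j, (A i j).totalDegree ≤ w i) (i j : Fin n) :
    (bordK w v A i j).totalDegree ≤ w i := by
  rw [bordK, Matrix.of_apply]
  refine (totalDegree_add _ _).trans (max_le ?_ ?_)
  · exact (totalDegree_rename_le _ _).trans (hA i j)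
  · split_ifs
    · refine (totalDegree_mul _ _).trans ?_
      rw [totalDegree_C, zero_add]
      refine (totalDegree_pow _ _).trans ?_
      rw [totalDegree_X, mul_one]
    · simp

/-- In a limit of sums of determinants the dummy variables can be added. -/
theorem LimK.bord [Fintype ι] {f : MvPolynomial ι ℂ} (hf : LimK δ D M n f) :
    ∃ (A : ℕ → Fin M → Matrix (Fin n) (Fin n) (MvPolynomial ι ℂ))
      (w : ℕ → Fin M → Fin n → ℕ) (v : ℕ → ℂ),
      (∀ s t i, 1 ≤ w s t i) ∧ (∀ s t i, w s t i ≤ δ) ∧ (∀ s t, ∑ i, w s t i ≤ D) ∧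
      (∀ s t i j, (A s t i j).totalDegree ≤ w s t i) ∧ (∀ s, v s ≠ 0) ∧
      ∀ d, Tendsto (fun s => coeff d (∑ t, (bordK (w s t) (v s) (A s t)).det)) atTop
        (𝓝 (coeff d (rename Sum.inl f))) := by
  classical
  obtain ⟨A, w, hw1, hw2, hw3, hA, hlim⟩ := hf
  obtain ⟨T, hT⟩ := SQ.exists_expset (ι := ι ⊕ Fin n) D
  have hlim' : ∀ d, Tendsto (fun s => coeff d (rename (Sum.inl : ι → ι ⊕ Fin n)
      (∑ t, (A s t).det))) atTop (𝓝 (coeff d (rename Sum.inl f))) := fun d =>
    SQ.tendsto_linear D _ f (fun s => totalDegree_sum_det_le _ (hw3 s) _ (hA s)) hlim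
      ((lcoeff ℂ d).comp (rename Sum.inl).toLinearMap)
  have hex : ∀ s : ℕ, ∃ v : ℂ, v ≠ 0 ∧ ∀ d ∈ T,
      dist (coeff d (∑ t, (bordK (w s t) v (A s t)).det))
        (coeff d (rename (Sum.inl : ι → ι ⊕ Fin n) (∑ t, (A s t).det))) < 1 / ((s : ℝ) + 1) := by
    intro s
    have h1 : ∀ᶠ v in 𝓝[≠] (0 : ℂ), ∀ d ∈ T,
        dist (coeff d (∑ t, (bordK (w s t) v (A s t)).det))
        (coeff d (rename (Sum.inl : ι → ι ⊕ Fin n) (∑ t, (A s t).det))) < 1 / ((s : ℝ) + 1) := by
      rw [Filter.eventually_all_finset]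
      intro d _
      have h2 : Tendsto (fun v : ℂ => coeff d (∑ t, (bordK (w s t) v (A s t)).det)) (𝓝 0)
          (𝓝 (coeff d (rename (Sum.inl : ι → ι ⊕ Fin n) (∑ t, (A s t).det)))) := by
        simp only [coeff_sum, map_sum]
        exact tendsto_finsetSum _ fun t _ => tendsto_bordK (w s t) (A s t) d
      exact ((Metric.tendsto_nhds.mp h2) _ (by positivity)).filter_mono nhdsWithin_le_nhds
    obtain ⟨v, hv, hv0⟩ := (h1.and self_mem_nhdsWithin).exists
    exact ⟨v, hv0, hv⟩
  choose v hv0 hv using hex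
  refine ⟨A, w, v, hw1, hw2, hw3, hA, hv0, fun d => ?_⟩
  by_cases hd : d ∈ T
  · have h0 : Tendsto (fun t : ℕ => 1 / ((t : ℝ) + 1)) atTop (𝓝 0) :=
      tendsto_one_div_add_atTop_nhds_zero_nat
    have h2 : Tendsto (fun s => coeff d (∑ t, (bordK (w s t) (v s) (A s t)).det) -
        coeff d (rename (Sum.inl : ι → ι ⊕ Fin n) (∑ t, (A s t).det))) atTop (𝓝 0) := by
      rw [tendsto_zero_iff_norm_tendsto_zero]
      refine squeeze_zero (fun t => norm_nonneg _) (fun t => ?_) h0
      rw [← dist_eq_norm]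
      exact (hv t d hd).le
    have h3 := h2.add (hlim' d)
    simpa using h3
  · have h1 : ∀ g : MvPolynomial (ι ⊕ Fin n) ℂ, g.totalDegree ≤ D → coeff d g = 0 := by
      intro g hg
      by_contra h
      exact hd (hT g hg (mem_support_iff.mpr h))
    have h2 : ∀ s, coeff d (∑ t, (bordK (w s t) (v s) (A s t)).det) = 0 := fun s =>
      h1 _ (totalDegree_sum_det_le _ (hw3 s) _ fun t => totalDegree_bordK_le _ _ _ (hA s t))
    have h3 : ∀ s, coeff d (rename (Sum.inl : ι → ι ⊕ Fin n) (∑ t, (A s t).det)) = 0 := fun s =>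
      h1 _ ((totalDegree_rename_le _ _).trans (totalDegree_sum_det_le _ (hw3 s) _ (hA s)))
    have h4 := hlim' d
    simp only [h3] at h4
    rw [← tendsto_nhds_unique tendsto_const_nhds h4]
    simp only [h2]
    exact tendsto_const_nhds

end Pool.Agent.Work.MP_35c45d_lc.SK
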