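import Mathlib

/-! # Algebraic dependence and multiples -/

set_option autoImplicit false

namespace Pool.Agent.Work.MP_35c45d_lc.SM

open MvPolynomial

/-- If `p ≠ 0` is algebraic over `ℂ[F 0, …, F (c - 1)]`, then a nonzero multiple of `p` is a
polynomial in the `F a`. -/
theorem exists_multiple {R ι : Type} [CommRing R] [IsDomain R] [Algebra ℂ R] (F : ι → R) (p : R)
    (hp : p ≠ 0) (h : IsAlgebraic (Algebra.adjoin ℂ (Set.range F)) p) :
    ∃ (g : R) (Ψ : MvPolynomial ι ℂ), g ≠ 0 ∧ g * p = aeval F Ψ := by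
  classical
  -- an equation with nonzero constant term
  have key : ∀ (N : ℕ) (P : Polynomial (Algebra.adjoin ℂ (Set.range F))), P.natDegree ≤ N →
      P ≠ 0 → Polynomial.aeval p P = 0 →
      ∃ Q : Polynomial (Algebra.adjoin ℂ (Set.range F)), Q.coeff 0 ≠ 0 ∧
        Polynomial.aeval p Q = 0 := by
    intro N
    induction N with
    | zero =>
      intro P hN hP h0
      refine ⟨P, ?_, h0⟩
      intro hc
      apply hP
      rw [Polynomial.eq_C_of_natDegree_le_zero hN, hc, map_zero]
    | succ N ih =>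
      intro P hN hP h0
      by_cases hc : P.coeff 0 = 0
      · have h1 : P = Polynomial.X * P.divX := by
          have := Polynomial.X_mul_divX_add P
          rw [hc, map_zero, add_zero] at this
          exact this.symm
        refine ih P.divX ?_ ?_ ?_
        · rw [Polynomial.natDegree_divX_eq_natDegree_tsub_one]
          omega
        · intro h2
          rw [h2, mul_zero] at h1
          exact hP h1
        · rw [h1, map_mul, Polynomial.aeval_X] at h0
          exact (mul_eq_zero.1 h0).resolve_left hp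
      · exact ⟨P, hc, h0⟩
  obtain ⟨P, hP, h0⟩ := h
  obtain ⟨Q, hQ, hQ0⟩ := key P.natDegree P le_rfl hP h0
  have h1 : Polynomial.aeval p Q = Polynomial.aeval p Q.divX * p + (Q.coeff 0 : R) := by
    conv_lhs => rw [← Polynomial.divX_mul_X_add Q]
    rw [map_add, map_mul, Polynomial.aeval_X, Polynomial.aeval_C]
    rfl
  have h2 : ((Q.coeff 0 : Algebra.adjoin ℂ (Set.range F)) : R) ≠ 0 := by
    intro h3
    exact hQ (Subtype.ext h3)
  have h3 : -Polynomial.aeval p Q.divX * p = (Q.coeff 0 : R) := by
    rw [h1] at hQ0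
    linear_combination -hQ0
  have h4 : ((Q.coeff 0 : Algebra.adjoin ℂ (Set.range F)) : R) ∈
      (aeval F : MvPolynomial ι ℂ →ₐ[ℂ] R).range := by
    rw [← Algebra.adjoin_range_eq_range_aeval]
    exact (Q.coeff 0).2
  obtain ⟨Ψ, hΨ⟩ := h4
  refine ⟨-Polynomial.aeval p Q.divX, Ψ, ?_, ?_⟩
  · intro h5
    rw [h5, zero_mul] at h3
    exact h2 h3.symm
  · rw [h3]
    exact hΨ.symm

end Pool.Agent.Work.MP_35c45d_lc.SM
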