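import Pool.Agent.Work.MP_35c45d_lc.SERule
import Pool.Agent.Work.MP_35c45d_lc.SGDefs
import Pool.Agent.Work.MP_35c45d_lc.FDDefs

/-! # Multiples of the permanent: definitions

In the lower half of the theorems on sums of determinants the polynomial `f` (a product of direct sums
of elementary symmetric functions) is replaced by `g * f` with an arbitrary nonzero `g`.
-/

set_option autoImplicit false

namespace Pool.Agent.Work.MP_35c45d_lc.SM

open MvPolynomial SD SE

/-- the variables -/
abbrev Vr (k T L n : ℕ) : Type := (Fin k × Fin T × Fin L) ⊕ Fin n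

/-- the factor of the block `i` -/
noncomputable def fM (k T L D n : ℕ) (i : Fin k) : MvPolynomial (Vr k T L n) ℂ :=
  ∑ t : Fin T, SQ.es (fun u => X (Sum.inl (i, t, u))) D Finset.univ

/-- the special variable of a block -/
def Spec (D : ℕ) {T L : ℕ} (c : Fin T × Fin L) : Prop := (c.1 : ℕ) = 0 ∧ (c.2 : ℕ) = D - 1

instance {D T L : ℕ} (c : Fin T × Fin L) : Decidable (Spec D c) := by
  unfold Spec
  infer_instance

/-- the periods -/
def qM (k T L D n : ℕ) : Vr k T L n → ℕ
  | Sum.inl v => if Spec D v.2 then D else min ((v.2.2 : ℕ) + 1) (D - 1)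
  | Sum.inr _ => 1

/-- the elements `θ` -/
noncomputable def thM (k T L D n : ℕ) : Vr k T L n → MvPolynomial (Vr k T L n) ℂ
  | Sum.inl v => if Spec D v.2 then fM k T L D n v.1 else
      if (v.2.2 : ℕ) < D - 1
      then SQ.es (fun u => X (Sum.inl (v.1, v.2.1, u))) ((v.2.2 : ℕ) + 1) Finset.univ
      else SQ.es (fun u => X (Sum.inl (v.1, v.2.1, u))) (D - 1) (Finset.univ.erase v.2.2)
  | Sum.inr j => X (Sum.inr j)

/-- the ideal of the factors -/
noncomputable def IM (k T L D n : ℕ) : Ideal (MvPolynomial (Vr k T L n) ℂ) :=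
  Ideal.span (Set.range (fM k T L D n))

/-- the pairs (derivative, shift); no derivative in a special variable -/
def goodM (k T L D n l : ℕ) :
    Finset ((Fin k → Fin T × Fin L) × (Vr k T L n →₀ ℕ)) :=
  (goodE k T L D n l).filter fun x => ∀ i, ¬ Spec D (x.1 i)

theorem rename_esf (k T L D n : ℕ) :
    (rename Sum.inl (esf k T L D) : MvPolynomial (Vr k T L n) ℂ) = ∏ i, fM k T L D n i := by
  simp only [esf, fM, SQ.es, map_prod, map_sum, rename_X]

end Pool.Agent.Work.MP_35c45d_lc.SM
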