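import Pool.Agent.Work.MP_35c45d_lc.SMFun
import Pool.Agent.Work.MP_35c45d_lc.SMAlg

/-! # The permanent is not algebraic over few small determinants -/

set_option autoImplicit false

namespace Pool.Agent.Work.MP_35c45d_lc.SM

open MvPolynomial Filter Topology SD SE FD

theorem alg_main (ε : ℝ) (hε : 0 < ε) : ∃ κ : ℝ, 0 < κ ∧ ∀ m c n : ℕ, 1 ≤ m →
    ∀ A : Fin c → Matrix (Fin n) (Fin n) (MvPolynomial (Fin m × Fin m) ℂ),
      (∀ a i j, (A a i j).totalDegree ≤ 1) →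
      IsAlgebraic (Algebra.adjoin ℂ (Set.range fun a => (A a).det)) (permP m) →
      κ * (m : ℝ) ^ (2 - ε) ≤ (c : ℝ) + n * √c := by
  obtain ⟨κ, hκ, h⟩ := fun_main (min ε (1 / 2)) (lt_min hε (by norm_num))
  set ε' : ℝ := min ε (1 / 2) with hε'
  have hε'1 : ε' ≤ 1 / 2 := min_le_right _ _
  have hε'2 : ε' ≤ ε := min_le_left _ _
  -- `m ≤ (κ / 2) * m ^ (2 - ε')` for large `m`
  obtain ⟨m1, hm1⟩ : ∃ m1 : ℕ, ∀ m : ℕ, m1 ≤ m → 1 ≤ m →
      (m : ℝ) ≤ κ / 2 * (m : ℝ) ^ (2 - ε') := by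
    obtain ⟨m1, hm1⟩ := exists_nat_ge ((2 / κ) ^ 2)
    refine ⟨m1, fun m hm hm1' => ?_⟩
    have hmr : (1 : ℝ) ≤ m := by exact_mod_cast hm1'
    have hmpos : (0 : ℝ) < m := by linarith
    have h1 : 2 / κ ≤ (m : ℝ) ^ (1 - ε') := by
      have h2 : 2 / κ ≤ √(m : ℝ) := by
        rw [Real.le_sqrt' (by positivity)]
        refine hm1.trans ?_
        exact_mod_cast hm
      refine h2.trans ?_
      rw [Real.sqrt_eq_rpow]
      exact Real.rpow_le_rpow_of_exponent_le hmr (by linarith)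
    have h3 : (m : ℝ) ^ (2 - ε') = (m : ℝ) ^ (1 - ε') * m := by
      rw [← Real.rpow_add_one hmpos.ne']
      congr 1
      ring
    rw [h3, ← mul_assoc]
    have h4 : 1 ≤ κ / 2 * (m : ℝ) ^ (1 - ε') := by
      calc (1 : ℝ) = κ / 2 * (2 / κ) := by field_simp
        _ ≤ _ := mul_le_mul_of_nonneg_left h1 (by positivity)
    nlinarith
  refine ⟨min (κ / 2) (1 / ((m1 : ℝ) + 1) ^ 2), by positivity, fun m c n hm A hA halg => ?_⟩
  obtain ⟨g, Ψ, hg, hgΨ⟩ := exists_multiple (fun a => (A a).det) (permP m) (permP_ne_zero m) halg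
  have hL : LimFunDet 1 c n (g * permP m) :=
    ⟨Ψ.totalDegree, fun _ _ => Ψ, fun _ _ => A, fun _ _ => le_rfl, fun _ _ => hA, fun d => by
      rw [hgΨ]
      simp⟩
  have hc1 : 1 ≤ c := LimFunDet.one_le_c hL (one_le_degree_mul_perm hm hg)
  have hc1' : (1 : ℝ) ≤ c := by exact_mod_cast hc1
  have hmr : (1 : ℝ) ≤ m := by exact_mod_cast hm
  have hnc : (0 : ℝ) ≤ n * √(c : ℝ) := by positivity
  have hexp : (m : ℝ) ^ (2 - ε) ≤ (m : ℝ) ^ (2 - ε') :=
    Real.rpow_le_rpow_of_exponent_le hmr (by linarith)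
  by_cases hmm : m1 ≤ m
  · have h1 := h m c n 1 hm g hg hL
    have hlog : Real.log ((1 : ℕ) + 1) ^ 2 ≤ 1 := by
      have h2 : Real.log ((1 : ℕ) + 1) ≤ 1 := by
        have := Real.log_two_lt_d9
        norm_num
        linarith
      have h3 : 0 ≤ Real.log ((1 : ℕ) + 1) := Real.log_nonneg (by norm_num)
      nlinarith
    have h4 : ((c : ℝ) + n * √c + m) * Real.log ((1 : ℕ) + 1) ^ 2 ≤ (c : ℝ) + n * √c + m :=
      mul_le_of_le_one_right (by positivity) hlog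
    have h5 := hm1 m hmm hm
    have h6 : κ / 2 * (m : ℝ) ^ (2 - ε') ≤ (c : ℝ) + n * √c := by linarith
    calc min (κ / 2) (1 / ((m1 : ℝ) + 1) ^ 2) * (m : ℝ) ^ (2 - ε) ≤
        κ / 2 * (m : ℝ) ^ (2 - ε') := by
          gcongr
          exact min_le_left _ _
      _ ≤ _ := h6
  · have h1 : (m : ℝ) ≤ (m1 : ℝ) + 1 := by
      have : m ≤ m1 + 1 := by omega
      exact_mod_cast this
    have h2 : (m : ℝ) ^ (2 - ε) ≤ ((m1 : ℝ) + 1) ^ 2 := by
      calc (m : ℝ) ^ (2 - ε) ≤ (m : ℝ) ^ ((2 : ℕ) : ℝ) :=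
            Real.rpow_le_rpow_of_exponent_le hmr (by push_cast; linarith)
        _ = (m : ℝ) ^ 2 := Real.rpow_natCast _ _
        _ ≤ _ := by gcongr
    calc min (κ / 2) (1 / ((m1 : ℝ) + 1) ^ 2) * (m : ℝ) ^ (2 - ε) ≤
        1 / ((m1 : ℝ) + 1) ^ 2 * ((m1 : ℝ) + 1) ^ 2 := by
          gcongr
          exact min_le_right _ _
      _ = 1 := by
          field_simp
      _ ≤ _ := by linarith

end Pool.Agent.Work.MP_35c45d_lc.SM
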