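import Pool.Agent.Work.MP_35c45d_lc.FDSemi

/-! # Sections of multiples of the permanent

If a nonzero multiple `g * permP m` is a limit of elements of a class of polynomials, and `f` is, up to a
nonzero constant, an affine section of the permanent, then a nonzero multiple `g' * f` is a limit of
elements of the class. -/

set_option autoImplicit false

namespace Pool.Agent.Work.MP_35c45d_lc.SM

open MvPolynomial Filter Topology SD FD

/-- a limit of limits is a limit (bounded degree) -/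
theorem diag {σ : Type} [Fintype σ] (N : ℕ) (S : Set (MvPolynomial σ ℂ))
    (hS : ∀ F ∈ S, F.totalDegree ≤ N) (f : ℕ → MvPolynomial σ ℂ) (f0 : MvPolynomial σ ℂ)
    (hf : ∀ j, ∃ F : ℕ → MvPolynomial σ ℂ, (∀ s, F s ∈ S) ∧
      ∀ d, Tendsto (fun s => coeff d (F s)) atTop (𝓝 (coeff d (f j))))
    (hlim : ∀ d, Tendsto (fun j => coeff d (f j)) atTop (𝓝 (coeff d f0))) :
    ∃ F : ℕ → MvPolynomial σ ℂ, (∀ s, F s ∈ S) ∧
      ∀ d, Tendsto (fun s => coeff d (F s)) atTop (𝓝 (coeff d f0)) := by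
  classical
  obtain ⟨T, hT⟩ := SQ.exists_expset (ι := σ) N
  have hex : ∀ j : ℕ, ∃ F ∈ S, ∀ d ∈ T,
      dist (coeff d F) (coeff d (f j)) < 1 / ((j : ℝ) + 1) := by
    intro j
    obtain ⟨F, hF, hl⟩ := hf j
    have h1 : ∀ᶠ s in atTop, ∀ d ∈ T,
        dist (coeff d (F s)) (coeff d (f j)) < 1 / ((j : ℝ) + 1) := by
      rw [Filter.eventually_all_finset]
      intro d _
      exact (Metric.tendsto_nhds.mp (hl d)) _ (by positivity)
    obtain ⟨s, hs⟩ := h1.exists
    exact ⟨F s, hF s, hs⟩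
  choose F hF hFd using hex
  refine ⟨F, hF, fun d => ?_⟩
  by_cases hd : d ∈ T
  · have h0 : Tendsto (fun t : ℕ => 1 / ((t : ℝ) + 1)) atTop (𝓝 0) :=
      tendsto_one_div_add_atTop_nhds_zero_nat
    have h2 : Tendsto (fun s => coeff d (F s) - coeff d (f s)) atTop (𝓝 0) := by
      rw [tendsto_zero_iff_norm_tendsto_zero]
      refine squeeze_zero (fun t => norm_nonneg _) (fun t => ?_) h0
      rw [← dist_eq_norm]
      exact (hFd t d hd).le
    have h3 := h2.add (hlim d)
    simpa using h3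
  · have h1 : ∀ g : MvPolynomial σ ℂ, g.totalDegree ≤ N → coeff d g = 0 := by
      intro g hg
      by_contra h
      exact hd (hT g hg (mem_support_iff.mpr h))
    have h4 : ∀ j, coeff d (f j) = 0 := by
      intro j
      obtain ⟨F', hF', hl⟩ := hf j
      have h5 := hl d
      simp only [fun s => h1 _ (hS _ (hF' s))] at h5
      exact (tendsto_nhds_unique tendsto_const_nhds h5).symm
    have h6 := hlim d
    simp only [h4] at h6
    rw [← tendsto_nhds_unique tendsto_const_nhds h6]
    simp only [fun s => h1 _ (hS _ (hF s))]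
    exact tendsto_const_nhds

/-- a nonzero polynomial in one variable is a power of the variable times a polynomial with nonzero
constant coefficient -/
theorem exists_factor {R : Type} [CommRing R] [IsDomain R] (G : Polynomial R) (hG : G ≠ 0) :
    ∃ (a : ℕ) (G' : Polynomial R), G = Polynomial.X ^ a * G' ∧ G'.coeff 0 ≠ 0 := by
  obtain ⟨q, hq, hnd⟩ := Polynomial.exists_eq_pow_rootMultiplicity_mul_and_not_dvd G hG 0
  rw [map_zero, sub_zero] at hq hnd
  exact ⟨_, q, hq, fun h => hnd (Polynomial.X_dvd_iff.2 h)⟩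

/-- The section of a multiple. `S` and `S'` are the two classes; `S'` contains the constant multiples of
the affine substitutions of the elements of `S`. -/
theorem mult_section {κ : Type} [Fintype κ] {m : ℕ} (N : ℕ)
    (S : Set (MvPolynomial (Fin m × Fin m) ℂ)) (S' : Set (MvPolynomial κ ℂ)) (N' : ℕ)
    (hN : ∀ F ∈ S, F.totalDegree ≤ N) (hN' : ∀ F ∈ S', F.totalDegree ≤ N')
    (hsub : ∀ F ∈ S, ∀ φ : Fin m × Fin m → MvPolynomial κ ℂ, (∀ q, (φ q).totalDegree ≤ 1) →
      ∀ b : ℂ, b ≠ 0 → C b * aeval φ F ∈ S')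
    {g : MvPolynomial (Fin m × Fin m) ℂ} (hg : g ≠ 0) {f : MvPolynomial κ ℂ} (hs : HasSec m f)
    (F : ℕ → MvPolynomial (Fin m × Fin m) ℂ) (hF : ∀ s, F s ∈ S)
    (hlim : ∀ d, Tendsto (fun s => coeff d (F s)) atTop (𝓝 (coeff d (g * permP m)))) :
    ∃ g' : MvPolynomial κ ℂ, g' ≠ 0 ∧ ∃ F' : ℕ → MvPolynomial κ ℂ, (∀ s, F' s ∈ S') ∧
      ∀ d, Tendsto (fun s => coeff d (F' s)) atTop (𝓝 (coeff d (g' * f))) := by
  classical
  obtain ⟨φ, hφ, c, hc, hsec⟩ := hs
  obtain ⟨p, hp⟩ : ∃ p : Fin m × Fin m → ℂ, eval p g ≠ 0 := by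
    by_contra hcon
    push Not at hcon
    exact hg (MvPolynomial.funext fun x => by rw [hcon x, map_zero])
  -- the family of sections
  set ρ : Fin m × Fin m → ℂ := fun q => p q - eval 0 (φ q) with hρ
  set ψ : Fin m × Fin m → Polynomial (MvPolynomial κ ℂ) := fun q =>
    Polynomial.C (φ q) + Polynomial.X * Polynomial.C (C (ρ q)) with hψ
  have hψe : ∀ (v : ℂ) q, (ψ q).eval (C v) = φ q + C v * C (ρ q) := by
    intro v q
    rw [hψ]
    simp only [Polynomial.eval_add, Polynomial.eval_mul, Polynomial.eval_C, Polynomial.eval_X]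
  set G : Polynomial (MvPolynomial κ ℂ) := aeval ψ g with hG
  set H : Polynomial (MvPolynomial κ ℂ) := aeval ψ (permP m) with hH
  have hG0 : G ≠ 0 := by
    intro h0
    apply hp
    have h1 : eval 0 (G.eval (C 1)) = eval p g := by
      rw [hG, eval_aeval]
      have h2 : ∀ q : Fin m × Fin m, eval (0 : κ → ℂ) ((ψ q).eval (C 1)) = p q := by
        intro q
        rw [hψe, map_add, map_mul, eval_C, eval_C, hρ]
        ring
      have h3 : eval (0 : κ → ℂ) (aeval (fun a => (ψ a).eval (C 1)) g) =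
          eval (fun a => eval (0 : κ → ℂ) ((ψ a).eval (C 1))) g := by
        rw [← coe_aeval_eq_eval, ← coe_aeval_eq_eval]
        change (aeval (0 : κ → ℂ)) (aeval (fun a => (ψ a).eval (C 1)) g) = _
        rw [← AlgHom.comp_apply, comp_aeval]
        rfl
      rw [h3]
      simp only [h2]
    rw [← h1, h0, Polynomial.eval_zero, map_zero]
  obtain ⟨a, G', hGG', hG'0⟩ := exists_factor G hG0
  have hH0 : H.eval (C 0) = C c * f := by
    rw [hH, eval_aeval, ← hsec]
    congr 1
    refine MvPolynomial.algHom_ext fun q => ?_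
    rw [aeval_X, aeval_X, hψe, map_zero, zero_mul, add_zero]
  refine ⟨G'.coeff 0 * C c, mul_ne_zero hG'0 (by rwa [Ne, C_eq_zero]), ?_⟩
  have hf0 : (G' * H).eval (C 0) = G'.coeff 0 * C c * f := by
    rw [Polynomial.eval_mul, hH0, map_zero, ← Polynomial.coeff_zero_eq_eval_zero]
    ring
  rw [← hf0]
  set v : ℕ → ℂ := fun j => 1 / ((j : ℂ) + 1) with hv
  have hv0 : ∀ j, v j ≠ 0 := by
    intro j
    rw [hv]
    have : (j : ℂ) + 1 ≠ 0 := Nat.cast_add_one_ne_zero j
    simp only [one_div, ne_eq, inv_eq_zero]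
    exact this
  have hvt : Tendsto v atTop (𝓝 0) := tendsto_one_div_add_atTop_nhds_zero_nat
  refine diag N' S' hN' (fun j => (G' * H).eval (C (v j))) _ (fun j => ?_) (fun d => ?_)
  · -- the limit for a fixed parameter
    set φ' : Fin m × Fin m → MvPolynomial κ ℂ := fun q => φ q + C (v j) * C (ρ q) with hφ'
    have hφ'd : ∀ q, (φ' q).totalDegree ≤ 1 := by
      intro q
      refine (totalDegree_add _ _).trans (max_le (hφ q) ?_)
      rw [← C_mul, totalDegree_C]
      exact Nat.zero_le _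
    refine ⟨fun s => C ((v j ^ a)⁻¹) * aeval φ' (F s),
      fun s => hsub _ (hF s) φ' hφ'd _ (inv_ne_zero (pow_ne_zero _ (hv0 j))), fun d => ?_⟩
    have h1 : (G' * H).eval (C (v j)) = C ((v j ^ a)⁻¹) * aeval φ' (g * permP m) := by
      have h2 : aeval φ' (g * permP m) = (G * H).eval (C (v j)) := by
        rw [hG, hH, ← map_mul, eval_aeval]
        congr 2
        funext q
        rw [hψe]
      rw [h2, hGG', Polynomial.eval_mul, Polynomial.eval_mul, Polynomial.eval_mul,
        Polynomial.eval_pow, Polynomial.eval_X, ← C_pow, ← mul_assoc, ← mul_assoc, ← C_mul,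
        inv_mul_cancel₀ (pow_ne_zero _ (hv0 j)), C_1, one_mul]
    simp only
    rw [h1]
    have h3 := SQ.tendsto_linear N F (g * permP m) (fun s => hN _ (hF s)) hlim
      ((lcoeff ℂ d).comp (((v j ^ a)⁻¹) • (aeval φ').toLinearMap))
    have h4 : ∀ P : MvPolynomial (Fin m × Fin m) ℂ,
        ((lcoeff ℂ d).comp (((v j ^ a)⁻¹) • (aeval φ').toLinearMap)) P =
          coeff d (C ((v j ^ a)⁻¹) * aeval φ' P) := by
      intro P
      rw [LinearMap.comp_apply, LinearMap.smul_apply, ← smul_eq_C_mul]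
      rfl
    simp only [h4] at h3
    exact h3
  · exact (tendsto_eval (G' * H) d).comp hvt

end Pool.Agent.Work.MP_35c45d_lc.SM
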