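import Pool.Agent.Work.MP_35c45d_lc.SMLim
import Pool.Agent.Work.MP_35c45d_lc.SKSub

/-! # Sections of multiples of the permanent: sums of determinants with rows of bounded degree -/

set_option autoImplicit false

namespace Pool.Agent.Work.MP_35c45d_lc.SM

open MvPolynomial Filter Topology SD

/-- sums of `M` determinants of size `n`, the rows have degrees `g t i`, of sum at most `D` -/
def detSetK (δ D M n : ℕ) (ι : Type) : Set (MvPolynomial ι ℂ) :=
  {F | ∃ (A : Fin M → Matrix (Fin n) (Fin n) (MvPolynomial ι ℂ)) (g : Fin M → Fin n → ℕ),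
    (∀ t i, 1 ≤ g t i) ∧ (∀ t i, g t i ≤ δ) ∧ (∀ t, ∑ i, g t i ≤ D) ∧
    (∀ t i j, (A t i j).totalDegree ≤ g t i) ∧ F = ∑ t, (A t).det}

theorem limK_iff {δ D M n : ℕ} {ι : Type} {f : MvPolynomial ι ℂ} :
    SK.LimK δ D M n f ↔ ∃ F : ℕ → MvPolynomial ι ℂ, (∀ s, F s ∈ detSetK δ D M n ι) ∧
      ∀ d, Tendsto (fun s => coeff d (F s)) atTop (𝓝 (coeff d f)) := by
  constructor
  · rintro ⟨A, g, h1, h2, h3, h4, hlim⟩
    exact ⟨_, fun s => ⟨A s, g s, h1 s, h2 s, h3 s, h4 s, rfl⟩, hlim⟩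
  · rintro ⟨F, hF, hlim⟩
    choose A g h1 h2 h3 h4 hFe using hF
    refine ⟨A, g, h1, h2, h3, h4, fun d => ?_⟩
    simp only [hFe] at hlim
    exact hlim d

theorem LimK.mult_section {m δ D M n : ℕ} (hn : 1 ≤ n) {κ : Type} [Fintype κ]
    {g : MvPolynomial (Fin m × Fin m) ℂ} (hg : g ≠ 0) (h : SK.LimK δ D M n (g * permP m))
    {f : MvPolynomial κ ℂ} (hs : HasSec m f) :
    ∃ g' : MvPolynomial κ ℂ, g' ≠ 0 ∧ SK.LimK δ D M n (g' * f) := by
  classical
  obtain ⟨F, hF, hlim⟩ := limK_iff.1 h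
  have hdeg : ∀ (ι : Type), ∀ P ∈ detSetK δ D M n ι, P.totalDegree ≤ D := by
    rintro ι P ⟨A, γ, h1, h2, h3, h4, rfl⟩
    exact totalDegree_finsetSum_le fun t _ => (SK.totalDegree_det_le (γ t) (A t) (h4 t)).trans (h3 t)
  have hsub : ∀ F ∈ detSetK δ D M n (Fin m × Fin m), ∀ φ : Fin m × Fin m → MvPolynomial κ ℂ,
      (∀ q, (φ q).totalDegree ≤ 1) → ∀ b : ℂ, b ≠ 0 → C b * aeval φ F ∈ detSetK δ D M n κ := by
    rintro P ⟨A, γ, h1, h2, h3, h4, rfl⟩ φ hφ b _
    set i0 : Fin n := ⟨0, hn⟩ with hi0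
    set B : Fin M → Matrix (Fin n) (Fin n) (MvPolynomial κ ℂ) := fun t => (A t).map (aeval φ)
      with hB
    have h5 : ∀ t i j, (B t i j).totalDegree ≤ γ t i := fun t i j =>
      (SG.totalDegree_aeval_le _ φ hφ).trans (h4 t i j)
    refine ⟨fun t => (B t).updateRow i0 (fun j => C b * B t i0 j), γ, h1, h2, h3,
      fun t i j => ?_, ?_⟩
    · simp only [Matrix.updateRow_apply]
      split_ifs with hi
      · refine (totalDegree_mul _ _).trans ?_
        rw [totalDegree_C, zero_add, hi]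
        exact h5 _ _ _
      · exact h5 _ _ _
    · rw [map_sum, Finset.mul_sum]
      refine Finset.sum_congr rfl fun t _ => ?_
      have h6 := Matrix.det_updateRow_smul (B t) i0 (C b) (B t i0)
      rw [Matrix.updateRow_eq_self] at h6
      change C b * _ = ((B t).updateRow i0 ((C b : MvPolynomial κ ℂ) • B t i0)).det
      rw [h6, AlgHom.map_det]
      rfl
  obtain ⟨g', hg', F', hF', hlim'⟩ := SM.mult_section D (detSetK δ D M n (Fin m × Fin m))
    (detSetK δ D M n κ) D (hdeg _) (hdeg _) hsub hg hs F hF hlim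
  exact ⟨g', hg', limK_iff.2 ⟨F', hF', hlim'⟩⟩

end Pool.Agent.Work.MP_35c45d_lc.SM
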