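import Pool.Agent.Work.MP_35c45d_lc.SMMain
import Pool.Agent.Work.MP_35c45d_lc.SMLimK
import Pool.Agent.Work.MP_35c45d_lc.SMCoreK
import Pool.Agent.Work.MP_35c45d_lc.SKSemi
import Pool.Agent.Work.MP_35c45d_lc.SKRed

/-! # Multiples: assembly for sums of determinants with rows of different degrees -/

set_option autoImplicit false

namespace Pool.Agent.Work.MP_35c45d_lc.SM

open MvPolynomial Filter Topology SD SE

theorem lim_ineqK {k T L D δ Dg n M l : ℕ} (hk : 1 ≤ k) (hδ : 1 ≤ δ) (hT : 1 ≤ T) (hD : 2 ≤ D)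
    (hL : D < L) (g : MvPolynomial (Fin k × Fin T × Fin L) ℂ) (hg : g ≠ 0)
    (h : SK.LimK δ Dg M n (g * esf k T L D)) (y z : ℝ) (hy : (Dg : ℝ) ≤ y)
    (hz : ((k * (T * L) + n : ℕ) : ℝ) / ((k * (T * L) + n + (l + k * (δ - 1)) : ℕ) : ℝ) ≤ z)
    (h2 : 2 * (k : ℝ) ≤ 3 * (y * z)) :
    ((goodM k T L D n l).card : ℝ) ≤ M * ((3 * Real.exp 1 * (y * z) / (2 * k)) ^ (2 * k) *
      ((k * (T * L) + n + (l + k * (δ - 1))).choose (l + k * (δ - 1)) : ℝ)) := by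
  classical
  have hg' : (rename Sum.inl g : MvPolynomial (Vr k T L n) ℂ) ≠ 0 := by
    intro h0
    apply hg
    apply rename_injective (Sum.inl : Fin k × Fin T × Fin L → Vr k T L n) Sum.inl_injective
    rw [h0, map_zero]
  obtain ⟨b, hb, hli⟩ := indepM (k := k) (T := T) (L := L) (D := D) (n := n) (l := l) hT hD hL
    (rename Sum.inl g) hg'
  have hcard : Fintype.card (Fin k × Fin T × Fin L) = k * (T * L) := by
    rw [Fintype.card_prod, Fintype.card_prod, Fintype.card_fin, Fintype.card_fin, Fintype.card_fin]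
  have hpos : 0 < k * (T * L) := Nat.mul_pos hk (Nat.mul_pos hT (by omega))
  have h1 := SK.lim_real (k := k) (l := l) hδ hk (by rw [hcard]; omega) h
    (α := goodM k T L D n l) (fun x i => (i, x.1.1 i)) (fun x => b x.1.2) (fun x => ?_) ?_
    y z hy (by rw [hcard]; exact hz) h2
  · rw [Fintype.card_coe, hcard] at h1
    exact h1
  · refine (hb _).trans ?_
    have h2 := (Finset.mem_filter.1 x.2).1
    exact (mem_mons.1 (Finset.mem_filter.1 (Finset.mem_product.1 h2).2).1).2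
  · simp only [map_mul]
    exact hli

/-- the numerical form; `w` is the number of free variables of a block. -/
theorem coreK {k T L D δ Dg n M w : ℕ} (hk : 1 ≤ k) (hδ : 1 ≤ δ) (hT : 1 ≤ T) (hL : D < L)
    (hL2 : L ≤ 2 * D) (hw : w = T * (L - (D - 1))) (hw4 : 401 ≤ w)
    (hD : 10 * δ * Real.log (2 * (w : ℝ)) ≤ (D : ℝ) - 1)
    {g : MvPolynomial (Fin k × Fin T × Fin L) ℂ} (hg : g ≠ 0)
    (h : SK.LimK δ Dg M n (g * esf k T L D))
    (hn : 22 * Dg * Real.log (2 * (w : ℝ)) ≤ k * ((D : ℝ) - 1) * √((w - 1 : ℕ) : ℝ)) :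
    (2 : ℝ) ^ k ≤ M := by
  have hδ1 : (1 : ℝ) ≤ δ := by exact_mod_cast hδ
  have hw1 : (401 : ℝ) ≤ w := by exact_mod_cast hw4
  have hlog : 2 ≤ Real.log (2 * (w : ℝ)) := by
    rw [Real.le_log_iff_exp_le (by linarith)]
    have h1 := Real.exp_one_lt_d9
    have h2 : Real.exp 2 = Real.exp 1 * Real.exp 1 := by rw [← Real.exp_add]; norm_num
    have h3 : 0 < Real.exp 1 := Real.exp_pos 1
    rw [h2]
    nlinarith
  have hD21 : 21 ≤ D := by
    have h1 : 20 ≤ 10 * (δ : ℝ) * Real.log (2 * (w : ℝ)) := by nlinarith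
    have h2 : (21 : ℝ) ≤ D := by linarith
    exact_mod_cast h2
  have hNb : k * (T * (D - 1)) < k * (T * L) :=
    Nat.mul_lt_mul_of_pos_left (Nat.mul_lt_mul_of_pos_left (by omega) hT) hk
  have hNb1 : 1 ≤ k * (T * (D - 1)) := Nat.mul_pos hk (Nat.mul_pos hT (by omega))
  have hNv : 10 * (k * (T * L)) ≤ 21 * (k * (T * (D - 1))) := by
    have h1 : 10 * L ≤ 21 * (D - 1) := by omega
    calc 10 * (k * (T * L)) = k * T * (10 * L) := by ring
      _ ≤ k * T * (21 * (D - 1)) := Nat.mul_le_mul_left _ h1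
      _ = 21 * (k * (T * (D - 1))) := by ring
  refine core_genK (n := n) (D := D) (δ := δ) (w := w) (v := w - 1) (Nv := k * (T * L))
    (Nb := k * (T * (D - 1))) (Dg := Dg) hk hδ (by omega) (Nat.sub_le _ _) hNb hNb1 hNv hD
    (fun l => (goodM k T L D n l).card) (fun l z hz he => ?_) (fun l y z hy hz h2 => ?_) hn
  · have h1 := goodM_card1 k T L D n l hk hT (by omega) hL.le z hz (by rw [← hw]; exact he)
    rw [← hw] at h1
    exact h1
  · exact lim_ineqK (l := l) hk hδ hT (by omega) hL g hg h y z hy hz h2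

theorem one_le_of_limK {δ Dg M n : ℕ} {ι : Type} {f : MvPolynomial ι ℂ} (hf : f ≠ 0)
    (h : SK.LimK δ Dg M n f) : 1 ≤ M := by
  by_contra hlt
  have h0 : M = 0 := by omega
  subst h0
  apply hf
  obtain ⟨A, -, -, -, -, -, hlim⟩ := h
  ext d
  have h1 := hlim d
  simp only [Finset.univ_eq_empty, Finset.sum_empty, coeff_zero] at h1
  rw [coeff_zero]
  exact (tendsto_nhds_unique tendsto_const_nhds h1).symm

theorem mainK_lt (ε : ℝ) (hε : 0 < ε) (hε1 : ε < 1) : ∃ c : ℝ, 0 < c ∧ ∀ m n δ M : ℕ, 1 ≤ m →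
    1 ≤ δ → ∀ g : MvPolynomial (Fin m × Fin m) ℂ, g ≠ 0 →
    SK.LimSumDetDeg δ M n (g * permP m) →
    c * (m : ℝ) ^ (2 + ε) ≤ ((n : ℝ) + m * δ) ^ (1 + ε) * Real.log (M + 1) := by
  obtain ⟨s0, d0, D0, e, π, c0, hD, hDs, hd, hcode, hsize⟩ :=
    SQ.exists_code3 (ε / 8) (by positivity)
  have hcode' : ∀ a b j, ∑ x ∈ Finset.univ.filter (fun x => (some (π a x) : Option (Fin D0)) =
      some j), c0 a x * e b x = if a = b then 1 else 0 := fun a b j => by simpa using hcode a b j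
  have hds : d0 ≤ s0 := code_le (by omega) e (fun a x => some (π a x)) c0 hcode'
  obtain ⟨c, hc, m₀, hg⟩ := num_gadget (ε / 8) (by positivity) (by linarith) hD hDs hd hds hsize
  choose! K hs h400 hTm hDm hDE hTD using hg
  obtain ⟨c', hc', h⟩ := num_final' ε hε hε1 c hc m₀ (fun m' => d0 ^ K m')
    (fun m' => D0 ^ K m') (fun m' hm' => ⟨h400 m' hm', hTm m' hm', hDm m' hm', hDE m' hm', by
      simpa using hTD m' hm'⟩)
  refine ⟨c', hc', fun m n δ M hm hδ g hg0 hRows => ?_⟩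
  have hL := hRows.limK (R := n + m) hδ (by omega) (by omega)
  have hM := one_le_of_limK (mul_ne_zero hg0 (permP_ne_zero m)) hL
  have hm1 : (1 : ℝ) ≤ m := by exact_mod_cast hm
  have hδ1 : (1 : ℝ) ≤ δ := by exact_mod_cast hδ
  have hn0 : (0 : ℝ) ≤ n := Nat.cast_nonneg _
  refine h m M ((n : ℝ) + m * δ) hm (by nlinarith) hM ?_
  intro k m' hk hm' hkm h10 hD2 hn
  have h1 := SE.hasSec_code (by omega) hd e (fun a x => some (π a x)) c0 hcode' (K m') 2 m'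
    (by norm_num) (hs m' hm')
  obtain ⟨g', hg', h3⟩ := LimK.mult_section (by omega) hg0 hL (SE.hasSec_esf hkm h1)
  have hT1 : 1 ≤ d0 ^ K m' := Nat.one_le_pow _ _ hd
  have hQ1 : 1 ≤ D0 ^ K m' := Nat.one_le_pow _ _ (by omega)
  have hw : d0 ^ K m' * (D0 ^ K m' + 1) = d0 ^ K m' * (2 * D0 ^ K m' - (D0 ^ K m' - 1)) := by
    congr 1
    omega
  have hdel := num_delta (δ := (δ : ℝ)) (ν := (n : ℝ) + m * δ) hm (by linarith) hkm
    (hTm m' hm') (hDm m' hm') hT1 hQ1 hn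
  have hcast : (((d0 ^ K m' * (D0 ^ K m' + 1) : ℕ)) : ℝ) =
      ((d0 ^ K m' : ℕ) : ℝ) * (((D0 ^ K m' : ℕ) : ℝ) + 1) := by
    push_cast
    ring
  have hw10 : 10000 ≤ d0 ^ K m' * (D0 ^ K m' + 1) := h10
  have hlog0 : 0 ≤ Real.log (2 * (((d0 ^ K m' : ℕ) : ℝ) * (((D0 ^ K m' : ℕ) : ℝ) + 1))) := by
    rw [← hcast]
    apply Real.log_nonneg
    have h5 : (1 : ℝ) ≤ ((d0 ^ K m' * (D0 ^ K m' + 1) : ℕ) : ℝ) := by
      exact_mod_cast (by omega : 1 ≤ d0 ^ K m' * (D0 ^ K m' + 1))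
    linarith
  have hsqrt : √(((d0 ^ K m' : ℕ) : ℝ) * (((D0 ^ K m' : ℕ) : ℝ) + 1)) ≤
      2 * √((d0 ^ K m' * (D0 ^ K m' + 1) - 1 : ℕ) : ℝ) := by
    rw [← hcast]
    have h5 : ((d0 ^ K m' * (D0 ^ K m' + 1) : ℕ) : ℝ) ≤
        2 ^ 2 * ((d0 ^ K m' * (D0 ^ K m' + 1) - 1 : ℕ) : ℝ) := by
      exact_mod_cast (by omega : d0 ^ K m' * (D0 ^ K m' + 1) ≤
        2 ^ 2 * (d0 ^ K m' * (D0 ^ K m' + 1) - 1))
    calc √((d0 ^ K m' * (D0 ^ K m' + 1) : ℕ) : ℝ)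
        ≤ √(2 ^ 2 * ((d0 ^ K m' * (D0 ^ K m' + 1) - 1 : ℕ) : ℝ)) := Real.sqrt_le_sqrt h5
      _ = 2 * √((d0 ^ K m' * (D0 ^ K m' + 1) - 1 : ℕ) : ℝ) := by
        rw [Real.sqrt_mul (by positivity), Real.sqrt_sq (by norm_num)]
  have hQ1' : (1 : ℝ) ≤ ((D0 ^ K m' : ℕ) : ℝ) := by exact_mod_cast hQ1
  refine coreK (Dg := n + m + n) (n := n + m) hk hδ hT1 (by omega) le_rfl hw (by omega) ?_ hg' h3 ?_
  · rw [hcast]
    refine le_trans ?_ hdel
    have : 0 ≤ δ * Real.log (2 * (((d0 ^ K m' : ℕ) : ℝ) * (((D0 ^ K m' : ℕ) : ℝ) + 1))) := by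
      positivity
    linarith
  · rw [hcast]
    have h5 : (((n + m + n : ℕ) : ℝ)) ≤ 2 * ((n : ℝ) + m * δ) := by
      push_cast
      nlinarith
    have h6 : 0 ≤ (k : ℝ) * (((D0 ^ K m' : ℕ) : ℝ) - 1) :=
      mul_nonneg (Nat.cast_nonneg _) (by linarith)
    have h7 := mul_le_mul_of_nonneg_left hsqrt h6
    have h9 := mul_le_mul_of_nonneg_right h5 hlog0
    have h8 : 0 ≤ ((n : ℝ) + m * δ) *
        Real.log (2 * (((d0 ^ K m' : ℕ) : ℝ) * (((D0 ^ K m' : ℕ) : ℝ) + 1))) := by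
      positivity
    linarith

/-- compare `SK.main`; the multiple version -/
theorem mainK (ε : ℝ) (hε : 0 < ε) : ∃ c : ℝ, 0 < c ∧ ∀ m n δ M : ℕ, 1 ≤ m →
    1 ≤ δ → ∀ g : MvPolynomial (Fin m × Fin m) ℂ, g ≠ 0 →
    SK.LimSumDetDeg δ M n (g * permP m) →
    c * (m : ℝ) ^ (2 + ε) ≤ ((n : ℝ) + m * δ) ^ (1 + ε) * Real.log (M + 1) := by
  set ε' := min ε (1 / 2) with hε'
  have hε'0 : 0 < ε' := lt_min hε (by norm_num)
  have hle : ε' ≤ ε := min_le_left _ _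
  obtain ⟨c, hc, h⟩ := mainK_lt ε' hε'0 (lt_of_le_of_lt (min_le_right _ _) (by norm_num))
  refine ⟨c, hc, fun m n δ M hm hδ g hg hL => ?_⟩
  have h1 := h m n δ M hm hδ g hg hL
  have hm1 : (1 : ℝ) ≤ m := by exact_mod_cast hm
  have hδ1 : (1 : ℝ) ≤ δ := by exact_mod_cast hδ
  have hn0 : (0 : ℝ) ≤ n := Nat.cast_nonneg _
  have hν : (m : ℝ) ≤ (n : ℝ) + m * δ := by nlinarith
  have hm0 : (0 : ℝ) < m := by linarith
  have hν0 : 0 < (n : ℝ) + m * δ := by linarith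
  have h2 : (m : ℝ) ^ (2 + ε) = (m : ℝ) ^ (ε - ε') * (m : ℝ) ^ (2 + ε') := by
    rw [← Real.rpow_add hm0]
    congr 1
    ring
  have h3 : ((n : ℝ) + m * δ) ^ (1 + ε) =
      ((n : ℝ) + m * δ) ^ (ε - ε') * ((n : ℝ) + m * δ) ^ (1 + ε') := by
    rw [← Real.rpow_add hν0]
    congr 1
    ring
  have h4 : (m : ℝ) ^ (ε - ε') ≤ ((n : ℝ) + m * δ) ^ (ε - ε') :=
    Real.rpow_le_rpow hm0.le hν (by linarith)
  have h5 : 0 ≤ c * (m : ℝ) ^ (2 + ε') := by positivity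
  rw [h2, h3]
  calc c * ((m : ℝ) ^ (ε - ε') * (m : ℝ) ^ (2 + ε'))
      = (m : ℝ) ^ (ε - ε') * (c * (m : ℝ) ^ (2 + ε')) := by ring
    _ ≤ ((n : ℝ) + m * δ) ^ (ε - ε') *
        (((n : ℝ) + m * δ) ^ (1 + ε') * Real.log (M + 1)) :=
        mul_le_mul h4 h1 h5 (by positivity)
    _ = _ := by ring

end Pool.Agent.Work.MP_35c45d_lc.SM
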