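import Pool.Agent.Work.MP_35c45d_lc.SMDefs

/-! # Multiples: the basis adapted to the ideal of the factors -/

set_option autoImplicit false

namespace Pool.Agent.Work.MP_35c45d_lc.SM

open MvPolynomial SD SE

/-- variant of `SE.chain` with one variable of period `D` -/
theorem chainM {R : Type} [CommRing R] [Algebra ℂ R] {L D : ℕ} (hD : 2 ≤ D) (A : Subalgebra ℂ R)
    (r : Fin L → R) (h1 : ∀ j, j ≤ D → SQ.es r j Finset.univ ∈ A)
    (h2 : ∀ v : Fin L, D ≤ (v : ℕ) → SQ.es r (D - 1) (Finset.univ.erase v) ∈ A)
    (hX : ∀ (v : Fin L) (a : ℕ → R) (N : ℕ),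
      N = (if (v : ℕ) = D - 1 then D else min ((v : ℕ) + 1) (D - 1)) → (∀ s, a s ∈ A) →
      r v ^ N = ∑ s ∈ Finset.range N, a s * r v ^ s → r v ∈ A) :
    ∀ v, r v ∈ A := by
  have good : ∀ v : Fin L, D ≤ (v : ℕ) → r v ∈ A := by
    intro v hv
    obtain ⟨a, ha, h3⟩ := top_power A (r v) (D - 1) (by omega)
      (fun p => SQ.es r (D - 1 - p) Finset.univ) (fun p _ => h1 _ (by omega)) _ (h2 v hv)
      (es_erase_expand r (Finset.mem_univ v) (D - 1)) (by simp [SQ.es_zero])
    refine hX v a (D - 1) ?_ ha h3
    rw [if_neg (by omega)]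
    omega
  have main : ∀ d n : ℕ, n + d = L → ∀ v : Fin L, n ≤ (v : ℕ) → r v ∈ A := by
    intro d
    induction d with
    | zero =>
      intro n hn v hv
      have := v.2
      omega
    | succ d ih =>
      intro n hn v hv
      have ih' := ih (n + 1) (by omega)
      rcases Nat.lt_or_ge n (v : ℕ) with hlt | hge
      · exact ih' v hlt
      have hvn : (v : ℕ) = n := by omega
      by_cases hDn : D ≤ n
      · exact good v (by omega)
      have hseg : ∀ e n' : ℕ, n' + e = L → n + 1 ≤ n' → ∀ q, q ≤ D →
          SQ.es r q (seg L n') ∈ A := by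
        intro e
        induction e with
        | zero =>
          intro n' hn' _ q hq
          have : n' = L := by omega
          rw [this, seg_univ]
          exact h1 q hq
        | succ e ihe =>
          intro n' hn' hnn' q hq
          have hn'L : n' < L := by omega
          rw [← seg_erase hn'L, es_erase_expand r (by simp [seg])]
          refine A.sum_mem fun p _ => A.mul_mem (A.pow_mem (A.neg_mem ?_) _) ?_
          · exact ih' _ hnn'
          · exact ihe (n' + 1) (by omega) (by omega) _ (by omega)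
      have hnL : n < L := by omega
      have hv' : v = ⟨n, hnL⟩ := Fin.ext hvn
      have h5 := es_erase_expand r (s := seg L (n + 1)) (j := ⟨n, hnL⟩) (by simp [seg]) (n + 1)
      rw [seg_erase hnL] at h5
      have h6 : SQ.es r (n + 1) (seg L n) = 0 := by
        unfold SQ.es
        rw [Finset.powersetCard_eq_empty.2 (by have := card_seg_le (L := L) (n := n); omega),
          Finset.sum_empty]
      rw [h6] at h5
      obtain ⟨a, ha, h7⟩ := top_power A (r ⟨n, hnL⟩) (n + 1) (by omega)
        (fun p => SQ.es r (n + 1 - p) (seg L (n + 1)))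
        (fun p _ => hseg (L - (n + 1)) (n + 1) (by omega) le_rfl _ (by omega)) 0 A.zero_mem h5
        (by simp [SQ.es_zero])
      rw [hv']
      refine hX ⟨n, hnL⟩ a (n + 1) ?_ ha h7
      simp only
      split_ifs <;> omega
  intro v
  exact main L 0 (by omega) v (Nat.zero_le _)

variable {k T L D n : ℕ}

theorem qM_pos (hD : 2 ≤ D) (v : Vr k T L n) : 1 ≤ qM k T L D n v := by
  rcases v with v | j
  · simp only [qM]
    split_ifs <;> omega
  · simp [qM]

theorem fM_homog (i : Fin k) : (fM k T L D n i).IsHomogeneous D :=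
  IsHomogeneous.sum _ _ _ fun _ _ => es_homog _ _ _

theorem thM_homog (v : Vr k T L n) : (thM k T L D n v).IsHomogeneous (qM k T L D n v) := by
  rcases v with v | j
  · simp only [thM, qM]
    split_ifs with h h'
    · exact fM_homog _
    · have : min ((v.2.2 : ℕ) + 1) (D - 1) = (v.2.2 : ℕ) + 1 := by omega
      rw [this]
      exact es_homog _ _ _
    · have : min ((v.2.2 : ℕ) + 1) (D - 1) = D - 1 := by omega
      rw [this]
      exact es_homog _ _ _
  · exact isHomogeneous_X _ _

theorem spanM_top (hT : 1 ≤ T) (hD : 2 ≤ D) (hL : D ≤ L) :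
    Submodule.span ℂ (Set.range (Phi (qM k T L D n) (thM k T L D n))) = ⊤ := by
  have hth := theta_mem (qM k T L D n) (thM k T L D n) (qM_pos hD)
  -- the copies without special variable
  have hne : ∀ (i : Fin k) (t : Fin T), (t : ℕ) ≠ 0 → ∀ u : Fin L,
      (X (Sum.inl (i, t, u)) : MvPolynomial (Vr k T L n) ℂ) ∈
        Stab (Submodule.span ℂ (Set.range (Phi (qM k T L D n) (thM k T L D n)))) := by
    intro i t ht u
    have hsp : ∀ u : Fin L, ¬ Spec D (t, u) := fun u h => ht h.1
    refine chain hD (Stab _) (fun u => X (Sum.inl (i, t, u))) ?_ ?_ ?_ u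
    · intro j hj
      rcases Nat.eq_zero_or_pos j with rfl | hj0
      · rw [SQ.es_zero]
        exact Subalgebra.one_mem _
      · have h1 := hth (Sum.inl (i, t, ⟨j - 1, by omega⟩))
        simp only [thM] at h1
        rw [if_neg (hsp _), if_pos (by omega), Nat.sub_add_cancel hj0] at h1
        exact h1
    · intro v hv
      have h1 := hth (Sum.inl (i, t, v))
      simp only [thM] at h1
      rwa [if_neg (hsp _), if_neg (by omega)] at h1
    · intro v a ha h
      refine X_mem (qM k T L D n) (thM k T L D n) (qM_pos hD) (Sum.inl (i, t, v)) a ha ?_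
      simp only [qM]
      rw [if_neg (hsp _)]
      exact h
  refine span_eq_top _ _ fun v => ?_
  rcases v with ⟨i, t, u⟩ | j
  swap
  · exact hth (Sum.inr j)
  by_cases ht : (t : ℕ) ≠ 0
  · exact hne i t ht u
  push Not at ht
  -- the elementary symmetric function of degree `D` of the copy `0`
  have heD : SQ.es (fun u => (X (Sum.inl (i, t, u)) : MvPolynomial (Vr k T L n) ℂ)) D
      Finset.univ ∈ Stab (Submodule.span ℂ (Set.range (Phi (qM k T L D n) (thM k T L D n)))) := by
    have h1 := hth (Sum.inl (i, t, ⟨D - 1, by omega⟩))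
    simp only [thM] at h1
    have hsp : Spec D (t, (⟨D - 1, by omega⟩ : Fin L)) := ⟨ht, rfl⟩
    rw [if_pos hsp, fM, ← Finset.sum_erase_add _ _ (Finset.mem_univ t)] at h1
    have h2 : ∑ t' ∈ Finset.univ.erase t, SQ.es (fun u => (X (Sum.inl (i, t', u)) :
        MvPolynomial (Vr k T L n) ℂ)) D Finset.univ ∈
        Stab (Submodule.span ℂ (Set.range (Phi (qM k T L D n) (thM k T L D n)))) := by
      refine Subalgebra.sum_mem _ fun t' ht' => ?_
      have ht'0 : (t' : ℕ) ≠ 0 := fun h =>
        (Finset.mem_erase.1 ht').1 (Fin.ext (h.trans ht.symm))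
      unfold SQ.es
      exact Subalgebra.sum_mem _ fun s _ => Subalgebra.prod_mem _ fun u _ => hne i t' ht'0 u
    have h3 := Subalgebra.sub_mem _ h1 h2
    rwa [add_sub_cancel_left] at h3
  refine chainM hD (Stab _) (fun u => X (Sum.inl (i, t, u))) ?_ ?_ ?_ u
  · intro j hj
    rcases Nat.eq_zero_or_pos j with rfl | hj0
    · rw [SQ.es_zero]
      exact Subalgebra.one_mem _
    rcases Nat.lt_or_ge j D with hjD | hjD
    · have h1 := hth (Sum.inl (i, t, ⟨j - 1, by omega⟩))
      simp only [thM] at h1
      rw [if_neg (fun h : Spec D (t, _) => by have := h.2; simp only at this; omega),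
        if_pos (by omega), Nat.sub_add_cancel hj0] at h1
      exact h1
    · have : j = D := by omega
      rw [this]
      exact heD
  · intro v hv
    have h1 := hth (Sum.inl (i, t, v))
    simp only [thM] at h1
    rwa [if_neg (fun h : Spec D (t, v) => by have := h.2; simp only at this; omega),
      if_neg (by omega)] at h1
  · intro v a N hN ha h
    have hq : qM k T L D n (Sum.inl (i, t, v)) = N := by
      rw [hN]
      by_cases hv : (v : ℕ) = D - 1
      · have hsp : Spec D (t, v) := ⟨ht, hv⟩
        simp only [qM]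
        rw [if_pos hsp, if_pos hv]
      · have hsp : ¬ Spec D (t, v) := fun h => hv h.2
        simp only [qM]
        rw [if_neg hsp, if_neg hv]
    refine X_mem (qM k T L D n) (thM k T L D n) (qM_pos hD) (Sum.inl (i, t, v)) a ha ?_
    rw [hq]
    exact h

theorem PhiM_li (hT : 1 ≤ T) (hD : 2 ≤ D) (hL : D ≤ L) :
    LinearIndependent ℂ (Phi (qM k T L D n) (thM k T L D n)) :=
  phi_indep _ _ thM_homog (spanM_top hT hD hL).ge

end Pool.Agent.Work.MP_35c45d_lc.SM
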