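import Pool.Agent.Work.MP_35c45d_lc.SMPhi

/-! # Multiples: powers of the ideal of the factors in the adapted basis (helper59) -/

set_option autoImplicit false

namespace Pool.Agent.Work.MP_35c45d_lc.SM

open MvPolynomial SD SE

variable {k T L D n : ℕ}

/-- the multiplicities of the factors in a basis element; `0` if there is no special variable -/
def mult (k T L D n : ℕ) (m : Vr k T L n →₀ ℕ) (i : Fin k) : ℕ :=
  if h : 1 ≤ T ∧ D - 1 < L then m (Sum.inl (i, ⟨0, h.1⟩, ⟨D - 1, h.2⟩)) / D else 0

/-- the special variables -/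
def sp (n : ℕ) (hT : 1 ≤ T) (hL : D - 1 < L) (i : Fin k) : Vr k T L n :=
  Sum.inl (i, ⟨0, hT⟩, ⟨D - 1, hL⟩)

theorem sp_inj (hT : 1 ≤ T) (hL : D - 1 < L) :
    Function.Injective (sp (k := k) n hT hL) := by
  intro i j h
  unfold sp at h
  exact (Prod.mk.inj (Sum.inl.inj h)).1

theorem mult_eq (hT : 1 ≤ T) (hL : D - 1 < L) (m : Vr k T L n →₀ ℕ) (i : Fin k) :
    mult k T L D n m i = m (sp n hT hL i) / D := by
  unfold mult
  rw [dif_pos ⟨hT, hL⟩]
  rfl

theorem qM_sp (hT : 1 ≤ T) (hL : D - 1 < L) (i : Fin k) :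
    qM k T L D n (sp n hT hL i) = D := by
  simp [qM, sp, Spec]

theorem thM_sp (hT : 1 ≤ T) (hL : D - 1 < L) (i : Fin k) :
    thM k T L D n (sp n hT hL i) = fM k T L D n i := by
  simp [thM, sp, Spec]

theorem mult_add_sp (hT : 1 ≤ T) (hL : D - 1 < L) (hD : 1 ≤ D) (m : Vr k T L n →₀ ℕ)
    (i j : Fin k) : mult k T L D n (m + Finsupp.single (sp n hT hL i) D) j =
      mult k T L D n m j + if j = i then 1 else 0 := by
  rw [mult_eq hT hL, mult_eq hT hL, Finsupp.add_apply, Finsupp.single_apply]
  by_cases h : j = i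
  · subst h
    rw [if_pos rfl, if_pos rfl, Nat.add_div_right _ hD]
  · rw [if_neg (fun hh => h (sp_inj hT hL hh).symm), if_neg h, add_zero, add_zero]

theorem Phi_mul_fM (hT : 1 ≤ T) (hD : 2 ≤ D) (hL : D - 1 < L) (m : Vr k T L n →₀ ℕ) (i : Fin k) :
    Phi (qM k T L D n) (thM k T L D n) m * fM k T L D n i =
      Phi (qM k T L D n) (thM k T L D n) (m + Finsupp.single (sp n hT hL i) D) := by
  have h := Phi_add (qM k T L D n) (qM_pos hD) (thM k T L D n) m (sp n hT hL i)
  rw [qM_sp, thM_sp] at h
  exact h.symm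

theorem dvd_Phi (hT : 1 ≤ T) (hL : D - 1 < L) (m : Vr k T L n →₀ ℕ) :
    ∏ i, fM k T L D n i ^ mult k T L D n m i ∣ Phi (qM k T L D n) (thM k T L D n) m := by
  classical
  unfold Phi
  have h1 : ∏ i, fM k T L D n i ^ mult k T L D n m i ∣
      ∏ v ∈ Finset.univ.map ⟨sp n hT hL, sp_inj hT hL⟩,
        (X v ^ (m v % qM k T L D n v) * thM k T L D n v ^ (m v / qM k T L D n v)) := by
    rw [Finset.prod_map]
    refine Finset.prod_dvd_prod_of_dvd _ _ fun i _ => ?_
    simp only [Function.Embedding.coeFn_mk]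
    rw [thM_sp, qM_sp, mult_eq hT hL]
    exact dvd_mul_left _ _
  exact h1.trans (Finset.prod_dvd_prod_of_subset _ _ _ (Finset.subset_univ _))

/-- `IM ^ a` is spanned by the basis elements of total multiplicity at least `a` -/
theorem mem_pow_iff (hT : 1 ≤ T) (hD : 2 ≤ D) (hL : D ≤ L) (a : ℕ)
    (p : MvPolynomial (Vr k T L n) ℂ) :
    p ∈ IM k T L D n ^ a ↔ p ∈ Submodule.span ℂ (Phi (qM k T L D n) (thM k T L D n) ''
      {m | a ≤ ∑ i, mult k T L D n m i}) := by
  have hL' : D - 1 < L := by omega
  constructor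
  · induction a generalizing p with
    | zero =>
      intro _
      have h1 : Phi (qM k T L D n) (thM k T L D n) '' {m | 0 ≤ ∑ i, mult k T L D n m i} =
          Set.range (Phi (qM k T L D n) (thM k T L D n)) := by
        rw [← Set.image_univ]
        congr 1
        ext m
        simp
      rw [h1, spanM_top hT hD hL]
      exact Submodule.mem_top
    | succ a ih =>
      intro hp
      rw [pow_succ] at hp
      refine Submodule.mul_induction_on hp (fun x hx y hy => ?_) (fun x y hx hy =>
        Submodule.add_mem _ hx hy)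
      refine Submodule.span_induction (p := fun y _ => ∀ x ∈ IM k T L D n ^ a, x * y ∈
        Submodule.span ℂ (Phi (qM k T L D n) (thM k T L D n) ''
          {m | a + 1 ≤ ∑ i, mult k T L D n m i})) ?_ ?_ ?_ ?_ hy x hx
      · rintro _ ⟨i, rfl⟩ x hx
        refine Submodule.span_induction (p := fun x _ => x * fM k T L D n i ∈
          Submodule.span ℂ (Phi (qM k T L D n) (thM k T L D n) ''
          {m | a + 1 ≤ ∑ i, mult k T L D n m i})) ?_ ?_ ?_ ?_ (ih x hx)
        · rintro _ ⟨m, hm, rfl⟩
          rw [Phi_mul_fM hT hD hL']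
          refine Submodule.subset_span ⟨_, ?_, rfl⟩
          have h2 : ∑ j, mult k T L D n (m + Finsupp.single (sp n hT hL' i) D) j =
              ∑ j, mult k T L D n m j + 1 := by
            rw [Finset.sum_congr rfl fun j _ => mult_add_sp hT hL' (by omega) m i j,
              Finset.sum_add_distrib, Finset.sum_ite_eq', if_pos (Finset.mem_univ _)]
          change a + 1 ≤ _
          rw [h2]
          exact Nat.add_le_add_right hm 1
        · rw [zero_mul]
          exact Submodule.zero_mem _
        · intro x y _ _ hx hy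
          rw [add_mul]
          exact Submodule.add_mem _ hx hy
        · intro c x _ hx
          rw [smul_mul_assoc]
          exact Submodule.smul_mem _ _ hx
      · intro x _
        rw [mul_zero]
        exact Submodule.zero_mem _
      · intro y z _ _ hy hz x hx
        rw [mul_add]
        exact Submodule.add_mem _ (hy x hx) (hz x hx)
      · intro r y _ hy x hx
        rw [smul_eq_mul, ← mul_assoc]
        exact hy _ (Ideal.mul_mem_right _ _ hx)
  · intro hp
    refine Submodule.span_induction (p := fun p _ => p ∈ IM k T L D n ^ a) ?_ ?_ ?_ ?_ hp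
    · rintro _ ⟨m, hm, rfl⟩
      refine Ideal.mem_of_dvd _ (dvd_Phi hT hL' m) ?_
      refine Ideal.pow_le_pow_right hm ?_
      have h3 : ∀ s : Finset (Fin k), ∏ i ∈ s, fM k T L D n i ^ mult k T L D n m i ∈
          IM k T L D n ^ (∑ i ∈ s, mult k T L D n m i) := by
        classical
        intro s
        induction s using Finset.induction_on with
        | empty => simp
        | insert i s hi ih =>
          rw [Finset.prod_insert hi, Finset.sum_insert hi, pow_add]
          have h4 : fM k T L D n i ∈ IM k T L D n := Ideal.subset_span (Set.mem_range_self i)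
          exact Ideal.mul_mem_mul (Ideal.pow_mem_pow h4 _) ih
      exact h3 Finset.univ
    · exact Ideal.zero_mem _
    · intro x y _ _ hx hy
      exact Ideal.add_mem _ hx hy
    · intro c x _ hx
      rw [smul_eq_C_mul]
      exact Ideal.mul_mem_left _ _ hx

/-- the ideal itself -/
theorem mem_IM_iff (hT : 1 ≤ T) (hD : 2 ≤ D) (hL : D ≤ L) (p : MvPolynomial (Vr k T L n) ℂ) :
    p ∈ IM k T L D n ↔ p ∈ Submodule.span ℂ (Phi (qM k T L D n) (thM k T L D n) ''
      {m | 1 ≤ ∑ i, mult k T L D n m i}) := by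
  rw [← mem_pow_iff hT hD hL, pow_one]

end Pool.Agent.Work.MP_35c45d_lc.SM
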