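import Mathlib

/-! # An ideal generated by elements which are linear in private variables is prime

`f i = X (v i) * P i + Q i`, where `P i`, `Q i` are free of all `v j`. If the `P i` can be cancelled
modulo `I = (f i)`, then `I` is prime. -/

set_option autoImplicit false
set_option linter.unusedSectionVars false

namespace Pool.Agent.Work.MP_35c45d_lc.SM

open MvPolynomial

section prime

variable {σ ι : Type} [Fintype ι] [DecidableEq ι] (v : ι → σ) (P Q f : ι → MvPolynomial σ ℂ)

/-- elimination of the private variables -/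
theorem exists_elim
    (hP : ∀ i, P i ∈ supported ℂ (Set.range v)ᶜ) (hQ : ∀ i, Q i ∈ supported ℂ (Set.range v)ᶜ)
    (hf : ∀ i, f i = X (v i) * P i + Q i) (h : MvPolynomial σ ℂ) :
    ∃ (N : ℕ) (s : MvPolynomial σ ℂ), s ∈ supported ℂ (Set.range v)ᶜ ∧
      (∏ i, P i) ^ N * h - s ∈ Ideal.span (Set.range f) := by
  have hPr : ∏ i, P i ∈ supported ℂ (Set.range v)ᶜ := Subalgebra.prod_mem _ fun i _ => hP i
  induction h using MvPolynomial.induction_on with
  | C a =>
    refine ⟨0, C a, ?_, ?_⟩
    · exact Subalgebra.algebraMap_mem _ a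
    · rw [pow_zero, one_mul, sub_self]
      exact Ideal.zero_mem _
  | add p q hp hq =>
    obtain ⟨N1, s1, h1, h2⟩ := hp
    obtain ⟨N2, s2, h3, h4⟩ := hq
    refine ⟨N1 + N2, (∏ i, P i) ^ N2 * s1 + (∏ i, P i) ^ N1 * s2, ?_, ?_⟩
    · exact add_mem (mul_mem (pow_mem hPr _) h1) (mul_mem (pow_mem hPr _) h3)
    · have h5 : (∏ i, P i) ^ (N1 + N2) * (p + q) -
          ((∏ i, P i) ^ N2 * s1 + (∏ i, P i) ^ N1 * s2) =
          (∏ i, P i) ^ N2 * ((∏ i, P i) ^ N1 * p - s1) +
            (∏ i, P i) ^ N1 * ((∏ i, P i) ^ N2 * q - s2) := by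
        ring
      rw [h5]
      exact Ideal.add_mem _ (Ideal.mul_mem_left _ _ h2) (Ideal.mul_mem_left _ _ h4)
  | mul_X p u hp =>
    obtain ⟨N, s, h1, h2⟩ := hp
    by_cases hu : u ∈ Set.range v
    · obtain ⟨i, rfl⟩ := hu
      refine ⟨N + 1, s * (-((∏ j ∈ Finset.univ.erase i, P j) * Q i)), ?_, ?_⟩
      · exact mul_mem h1 (neg_mem (mul_mem (Subalgebra.prod_mem _ fun j _ => hP j) (hQ i)))
      · have h3 : ∏ j, P j = P i * ∏ j ∈ Finset.univ.erase i, P j :=
          (Finset.mul_prod_erase _ _ (Finset.mem_univ i)).symm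
        have h5 : (∏ i, P i) ^ (N + 1) * (p * X (v i)) -
            s * (-((∏ j ∈ Finset.univ.erase i, P j) * Q i)) =
            ((∏ i, P i) * X (v i)) * ((∏ i, P i) ^ N * p - s) +
              (s * ∏ j ∈ Finset.univ.erase i, P j) * f i := by
          rw [hf i]
          generalize hB : ∏ j ∈ Finset.univ.erase i, P j = B at *
          rw [h3]
          ring
        rw [h5]
        exact Ideal.add_mem _ (Ideal.mul_mem_left _ _ h2)
          (Ideal.mul_mem_left _ _ (Ideal.subset_span ⟨i, rfl⟩))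
    · refine ⟨N, s * X u, mul_mem h1 (X_mem_supported.2 hu), ?_⟩
      have h5 : (∏ i, P i) ^ N * (p * X u) - s * X u = X u * ((∏ i, P i) ^ N * p - s) := by
        ring
      rw [h5]
      exact Ideal.mul_mem_left _ _ h2

/-- `X (v i)` becomes `- Q i / P i` -/
noncomputable def psi : MvPolynomial σ ℂ →ₐ[ℂ] FractionRing (MvPolynomial σ ℂ) :=
  open Classical in
  aeval fun u => if h : ∃ i, v i = u then
    -algebraMap (MvPolynomial σ ℂ) (FractionRing (MvPolynomial σ ℂ)) (Q h.choose) /
      algebraMap (MvPolynomial σ ℂ) (FractionRing (MvPolynomial σ ℂ)) (P h.choose)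
    else algebraMap (MvPolynomial σ ℂ) (FractionRing (MvPolynomial σ ℂ)) (X u)

theorem psi_v (hv : Function.Injective v) (i : ι) : psi v P Q (X (v i)) =
    -algebraMap (MvPolynomial σ ℂ) (FractionRing (MvPolynomial σ ℂ)) (Q i) /
      algebraMap (MvPolynomial σ ℂ) (FractionRing (MvPolynomial σ ℂ)) (P i) := by
  classical
  rw [psi, aeval_X]
  have h : ∃ j, v j = v i := ⟨i, rfl⟩
  rw [dif_pos h, hv h.choose_spec]

theorem psi_free {s : MvPolynomial σ ℂ} (hs : s ∈ supported ℂ (Set.range v)ᶜ) :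
    psi v P Q s = algebraMap (MvPolynomial σ ℂ) (FractionRing (MvPolynomial σ ℂ)) s := by
  classical
  have h1 : Set.EqOn (psi v P Q)
      (IsScalarTower.toAlgHom ℂ (MvPolynomial σ ℂ) (FractionRing (MvPolynomial σ ℂ)))
      (supported ℂ (Set.range v)ᶜ : Set (MvPolynomial σ ℂ)) := by
    refine AlgHom.eqOn_adjoin_iff.2 ?_
    rintro _ ⟨u, hu, rfl⟩
    have hu' : ¬ ∃ i, v i = u := fun h => hu h
    rw [psi, aeval_X, dif_neg hu']
    rfl
  exact h1 hs

theorem prime_of_linear (hv : Function.Injective v)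
    (hP : ∀ i, P i ∈ supported ℂ (Set.range v)ᶜ) (hQ : ∀ i, Q i ∈ supported ℂ (Set.range v)ᶜ)
    (hf : ∀ i, f i = X (v i) * P i + Q i) (hne : ∀ i, P i ≠ 0)
    (hinj : ∀ i h, P i * h ∈ Ideal.span (Set.range f) → h ∈ Ideal.span (Set.range f)) :
    (Ideal.span (Set.range f)).IsPrime := by
  have hle : Ideal.span (Set.range f) ≤ RingHom.ker (psi v P Q) := by
    rw [Ideal.span_le]
    rintro _ ⟨i, rfl⟩
    change psi v P Q (f i) = 0
    have hPi : algebraMap (MvPolynomial σ ℂ) (FractionRing (MvPolynomial σ ℂ)) (P i) ≠ 0 := by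
      intro h0
      exact hne i ((IsFractionRing.injective (MvPolynomial σ ℂ)
        (FractionRing (MvPolynomial σ ℂ))) (by rw [h0, map_zero]))
    rw [hf i, map_add, map_mul, psi_v v P Q hv, psi_free v P Q (hP i), psi_free v P Q (hQ i),
      div_mul_cancel₀ _ hPi, neg_add_cancel]
  have hcancel : ∀ (N : ℕ) (h : MvPolynomial σ ℂ),
      (∏ i, P i) ^ N * h ∈ Ideal.span (Set.range f) → h ∈ Ideal.span (Set.range f) := by
    have h1 : ∀ (s : Finset ι) (h : MvPolynomial σ ℂ),
        (∏ i ∈ s, P i) * h ∈ Ideal.span (Set.range f) → h ∈ Ideal.span (Set.range f) := by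
      intro s
      induction s using Finset.induction_on with
      | empty => intro h hh; simpa using hh
      | insert i s hi ih =>
        intro h hh
        rw [Finset.prod_insert hi, mul_assoc] at hh
        exact ih h (hinj i _ hh)
    intro N
    induction N with
    | zero => intro h hh; simpa using hh
    | succ N ih =>
      intro h hh
      rw [pow_succ', mul_assoc] at hh
      exact ih h (h1 _ _ hh)
  have hge : RingHom.ker (psi v P Q) ≤ Ideal.span (Set.range f) := by
    intro h hh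
    replace hh : psi v P Q h = 0 := hh
    obtain ⟨N, s, hs, h1⟩ := exists_elim v P Q f hP hQ hf h
    have h2 : psi v P Q ((∏ i, P i) ^ N * h - s) = 0 := hle h1
    rw [map_sub, map_mul, hh, mul_zero, zero_sub, neg_eq_zero, psi_free v P Q hs] at h2
    have h3 : s = 0 := (IsFractionRing.injective (MvPolynomial σ ℂ)
        (FractionRing (MvPolynomial σ ℂ))) (by rw [h2, map_zero])
    rw [h3, sub_zero] at h1
    exact hcancel N h h1
  rw [le_antisymm hle hge]
  exact RingHom.ker_isPrime _

end prime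

end Pool.Agent.Work.MP_35c45d_lc.SM
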