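import Pool.Agent.Work.MP_35c45d_lc.SMPow
import Pool.Agent.Work.MP_35c45d_lc.SMPrimeA

/-! # Multiples: the ideal of the factors is prime -/

set_option autoImplicit false

namespace Pool.Agent.Work.MP_35c45d_lc.SM

open MvPolynomial SD SE

variable {k T L D n : ℕ}

/-- the multiplicities do not change under a shift by a variable which is not special -/
theorem mult_add_single (m : Vr k T L n →₀ ℕ) (v : Fin k × Fin T × Fin L) (hv : ¬ Spec D v.2)
    (s : ℕ) (i : Fin k) :
    mult k T L D n (m + Finsupp.single (Sum.inl v) s) i = mult k T L D n m i := by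
  unfold mult
  split_ifs with h
  · rw [Finsupp.add_apply, Finsupp.single_eq_of_ne, add_zero]
    intro h1
    apply hv
    have h2 : (i, (⟨0, h.1⟩ : Fin T), (⟨D - 1, h.2⟩ : Fin L)) = v := Sum.inl.inj h1
    rw [← h2]
    exact ⟨rfl, rfl⟩
  · rfl

/-- multiplication by the `θ` of a variable which is not special is injective modulo `IM`: `θ` maps
the basis element `Phi m` to `Phi (m + q v)` (`Phi_add`), and multiplicities do not change. -/
theorem thM_cancel (hT : 1 ≤ T) (hD : 2 ≤ D) (hL : D ≤ L) (v : Fin k × Fin T × Fin L)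
    (hv : ¬ Spec D v.2) (p : MvPolynomial (Vr k T L n) ℂ)
    (h : thM k T L D n (Sum.inl v) * p ∈ IM k T L D n) : p ∈ IM k T L D n := by
  classical
  set b := Module.Basis.mk (PhiM_li (k := k) (n := n) hT hD hL) (spanM_top hT hD hL).ge with hb
  have hbm : ∀ m, b m = Phi (qM k T L D n) (thM k T L D n) m := fun m => by
    rw [hb, Module.Basis.mk_apply]
  have hmem : ∀ q : MvPolynomial (Vr k T L n) ℂ, q ∈ IM k T L D n ↔
      ((b.repr q).support : Set (Vr k T L n →₀ ℕ)) ⊆ {m | 1 ≤ ∑ i, mult k T L D n m i} := by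
    intro q
    have h1 := mem_pow_iff (k := k) (n := n) hT hD hL 1 q
    rw [pow_one] at h1
    have h2 : (Phi (qM k T L D n) (thM k T L D n) '' {m | 1 ≤ ∑ i, mult k T L D n m i}) =
        b '' {m | 1 ≤ ∑ i, mult k T L D n m i} := by
      refine Set.image_congr fun m _ => (hbm m).symm
    rw [h1, h2, b.mem_span_image]
  set s : Vr k T L n →₀ ℕ := Finsupp.single (Sum.inl v) (qM k T L D n (Sum.inl v)) with hs
  have hrep : b.repr (thM k T L D n (Sum.inl v) * p) = (b.repr p).mapDomain (· + s) := by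
    rw [← b.repr.apply_symm_apply ((b.repr p).mapDomain (· + s))]
    congr 1
    rw [Module.Basis.repr_symm_apply, Finsupp.linearCombination_mapDomain]
    conv_lhs => rw [← b.linearCombination_repr p]
    rw [Finsupp.linearCombination_apply, Finsupp.linearCombination_apply, Finsupp.sum,
      Finsupp.sum, Finset.mul_sum]
    refine Finset.sum_congr rfl fun m _ => ?_
    rw [mul_smul_comm, Function.comp_apply, hbm, hbm, Phi_theta _ _ (qM_pos hD)]
  rw [hmem, hrep, Finsupp.mapDomain_support_of_injective (add_left_injective s)] at h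
  rw [hmem]
  intro m hm
  have h1 := h (Finset.mem_coe.2 (Finset.mem_image_of_mem _ (Finset.mem_coe.1 hm)))
  simp only [Set.mem_ofPred_eq] at h1 ⊢
  rw [hs] at h1
  simpa only [mult_add_single m v hv] using h1

theorem thM_ne_zero (hT : 1 ≤ T) (hD : 2 ≤ D) (hL : D ≤ L) (v : Vr k T L n) :
    thM k T L D n v ≠ 0 := by
  intro h0
  have h1 := Phi_theta (qM k T L D n) (thM k T L D n) (qM_pos hD) 0 v
  rw [h0, zero_mul] at h1
  exact (PhiM_li (k := k) (n := n) hT hD hL).ne_zero _ h1.symm

/-- (M2) `fM i = X (i, 0, D) * P i + Q i` with `P i = thM (i, 0, D)` and `P i`, `Q i` free of all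
`X (j, 0, D)`; `IM` is the kernel of `X (i, 0, D) ↦ - Q i / P i` to the field of fractions. -/
theorem isPrime_IM (hT : 1 ≤ T) (hD : 2 ≤ D) (hL : D < L) : (IM k T L D n).IsPrime := by
  classical
  set t0 : Fin T := ⟨0, hT⟩ with ht0
  set u0 : Fin L := ⟨D, hL⟩ with hu0
  set v : Fin k → Vr k T L n := fun i => Sum.inl (i, t0, u0) with hv
  have hns : ∀ i : Fin k, ¬ Spec D ((i, t0, u0) : Fin k × Fin T × Fin L).2 := by
    intro i h
    have h1 : D = D - 1 := h.2
    omega
  have hfree : ∀ (i : Fin k) (t : Fin T) (u : Fin L), ¬ (t = t0 ∧ u = u0) →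
      (X (Sum.inl (i, t, u)) : MvPolynomial (Vr k T L n) ℂ) ∈ supported ℂ (Set.range v)ᶜ := by
    intro i t u h
    rw [X_mem_supported]
    rintro ⟨j, hj⟩
    have h1 : (j, t0, u0) = (i, t, u) := Sum.inl.inj hj
    have h2 := Prod.mk.inj (Prod.mk.inj h1).2
    exact h ⟨h2.1.symm, h2.2.symm⟩
  have hes : ∀ (i : Fin k) (t : Fin T) (j : ℕ) (s : Finset (Fin L)), (t = t0 → u0 ∉ s) →
      SQ.es (fun u => (X (Sum.inl (i, t, u)) : MvPolynomial (Vr k T L n) ℂ)) j s ∈
        supported ℂ (Set.range v)ᶜ := by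
    intro i t j s hs
    unfold SQ.es
    refine Subalgebra.sum_mem _ fun r hr => Subalgebra.prod_mem _ fun u hu => ?_
    refine hfree i t u ?_
    rintro ⟨rfl, rfl⟩
    exact hs rfl ((Finset.mem_powersetCard.1 hr).1 hu)
  refine prime_of_linear v (fun i => thM k T L D n (v i))
    (fun i => SQ.es (fun u => X (Sum.inl (i, t0, u))) D (Finset.univ.erase u0) +
      ∑ t ∈ Finset.univ.erase t0, SQ.es (fun u => X (Sum.inl (i, t, u))) D Finset.univ)
    (fM k T L D n) ?_ ?_ ?_ ?_ ?_ ?_
  · intro i j h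
    exact (Prod.mk.inj (Sum.inl.inj h)).1
  · intro i
    have h1 : ¬ ((u0 : ℕ) < D - 1) := by
      rw [hu0]
      simp only
      omega
    simp only [hv, thM, if_neg (hns i), if_neg h1]
    exact hes i t0 _ _ fun _ => Finset.notMem_erase _ _
  · intro i
    refine add_mem (hes i t0 _ _ fun _ => Finset.notMem_erase _ _)
      (Subalgebra.sum_mem _ fun t ht => hes i t _ _ fun h => ?_)
    exact absurd h (Finset.ne_of_mem_erase ht)
  · intro i
    have h1 : ¬ ((u0 : ℕ) < D - 1) := by
      rw [hu0]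
      simp only
      omega
    simp only [hv, thM, if_neg (hns i), if_neg h1]
    obtain ⟨D', rfl⟩ : ∃ D', D = D' + 1 := ⟨D - 1, by omega⟩
    have h2 := SQ.es_erase (fun u => (X (Sum.inl (i, t0, u)) : MvPolynomial (Vr k T L n) ℂ)) D'
      (s := Finset.univ) (j := u0) (Finset.mem_univ _)
    rw [fM, ← Finset.add_sum_erase _ _ (Finset.mem_univ t0), Nat.add_sub_cancel]
    rw [h2]
    ring
  · intro i
    exact thM_ne_zero hT hD hL.le _
  · intro i p hp
    exact thM_cancel hT hD hL.le (i, t0, u0) (hns i) p hp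

end Pool.Agent.Work.MP_35c45d_lc.SM
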