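import Mathlib

/-! Permanent expansions for the base matrix. -/

set_option autoImplicit false

namespace Pool.Agent.Work.MP_35c45d_lc.SQ

open Matrix

section basic

variable {R : Type*} [CommRing R]

theorem permanent_reindex {m n : Type*} [Fintype m] [DecidableEq m] [Fintype n]
    [DecidableEq n] (e : n ≃ m) (A : Matrix m m R) :
    permanent (A.submatrix e e) = permanent A := by
  rw [permanent, permanent]
  apply Fintype.sum_equiv (Equiv.permCongr e)
  intro σ
  apply Fintype.prod_equiv e
  intro i
  rw [Equiv.permCongr_apply, Equiv.symm_apply_apply, submatrix_apply]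

/-- Expansion along the column `none` when all rows with a nonzero entry there agree on the
remaining columns. -/
theorem permanent_option {ι : Type*} [Fintype ι] [DecidableEq ι]
    (M : Matrix (Option ι) (Option ι) R)
    (h : ∀ i, M (some i) none ≠ 0 → ∀ j, M (some i) (some j) = M none (some j)) :
    M.permanent = (∑ r, M r none) * (M.submatrix some some).permanent := by
  classical
  have hR : (∑ r, M r none) * (M.submatrix some some).permanent
      = ∑ x : Option ι × Equiv.Perm ι, M x.1 none * ∏ i, M (some (x.2 i)) (some i) := by
    rw [permanent, Finset.sum_mul_sum, Fintype.sum_prod_type]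
    rfl
  rw [hR, permanent]
  refine Fintype.sum_equiv Equiv.Perm.decomposeOption _ _ ?_
  intro σ
  obtain ⟨⟨r, π⟩, rfl⟩ := Equiv.Perm.decomposeOption.symm.surjective σ
  rw [Equiv.apply_symm_apply]
  simp only [Equiv.Perm.decomposeOption_symm_apply]
  rw [Fintype.prod_option]
  simp only [Equiv.Perm.coe_mul, Function.comp_apply, Equiv.optionCongr_apply, Option.map_none,
    Option.map_some, Equiv.swap_apply_left]
  by_cases hr : M r none = 0
  · rw [hr, zero_mul, zero_mul]
  · congr 1
    refine Finset.prod_congr rfl fun j _ => ?_
    cases r with
    | none => simp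
    | some i =>
      by_cases hj : π j = i
      · rw [hj, Equiv.swap_apply_right, h i hr j]
      · rw [Equiv.swap_apply_of_ne_of_ne (by simp) (by simpa using hj)]

end basic

section spec

variable {R : Type*} [CommRing R] {V Θ : Type*} [Fintype V] [DecidableEq V] [DecidableEq Θ]

/-- The matrix `M0` bordered by `t` special rows and columns. -/
def specM (M0 : Matrix V V R) (τ : V → Option Θ) {t : ℕ} (θ : Fin t → Θ) (d : Fin t → R) :
    Matrix (V ⊕ Fin t) (V ⊕ Fin t) R := fun x y =>
  match x, y with
  | Sum.inl v, Sum.inl w => M0 v w
  | Sum.inl v, Sum.inr s => if τ v = some (θ s) then 1 else 0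
  | Sum.inr _, Sum.inl _ => 1
  | Sum.inr r, Sum.inr s => if θ r = θ s then (if r < s then 1 else if r = s then d s else 0) else 0

/-- reindexing removing the first special index -/
def eqv (V : Type*) (t : ℕ) : Option (V ⊕ Fin t) ≃ V ⊕ Fin (t + 1) where
  toFun x := match x with
    | none => Sum.inr 0
    | some (Sum.inl v) => Sum.inl v
    | some (Sum.inr s) => Sum.inr s.succ
  invFun x := match x with
    | Sum.inl v => some (Sum.inl v)
    | Sum.inr s => Fin.cases none (fun s' => some (Sum.inr s')) s
  left_inv x := by
    rcases x with _ | v | s <;> simp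
  right_inv x := by
    rcases x with v | s
    · rfl
    · refine Fin.cases ?_ (fun s' => ?_) s <;> simp

theorem permanent_specM (M0 : Matrix V V R) (τ : V → Option Θ)
    (h : ∀ v a, τ v = some a → ∀ w, M0 v w = 1) :
    ∀ (t : ℕ) (θ : Fin t → Θ) (d : Fin t → R),
    (specM M0 τ θ d).permanent
      = (∏ s, (((Finset.univ.filter fun v => τ v = some (θ s)).card : R) + d s))
        * M0.permanent := by
  intro t
  induction t with
  | zero =>
    intro θ d
    rw [Finset.univ_eq_empty, Finset.prod_empty, one_mul]
    rw [← permanent_reindex (Equiv.sumEmpty V (Fin 0)).symm (specM M0 τ θ d)]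
    rfl
  | succ t ih =>
    intro θ d
    rw [← permanent_reindex (eqv V t) (specM M0 τ θ d), permanent_option]
    · have h1 : ((specM M0 τ θ d).submatrix (eqv V t) (eqv V t)).submatrix some some
          = specM M0 τ (fun s => θ s.succ) (fun s => d s.succ) := by
        ext x y
        rcases x with v | r <;> rcases y with w | s <;>
          simp [specM, eqv]
      rw [h1, ih, Fin.prod_univ_succ, ← mul_assoc]
      congr 2
      rw [Fintype.sum_option, Fintype.sum_sum_type]
      simp only [submatrix_apply, eqv, Equiv.coe_fn_mk, specM]
      simp [Fin.succ_ne_zero, add_comm]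
    · intro x hx y
      rcases x with v | r
      · have hv : τ v = some (θ 0) := by
          by_contra hne
          apply hx
          simp [specM, eqv, hne]
        rcases y with w | s
        · simp [specM, eqv, h v _ hv w]
        · simp [specM, eqv, hv, eq_comm]
      · exfalso
        apply hx
        simp [specM, eqv, Fin.succ_ne_zero]

end spec

end Pool.Agent.Work.MP_35c45d_lc.SQ
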