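import Mathlib

set_option autoImplicit false

namespace Pool.Agent.Work.MP_35c45d_lc.Torus

open Equiv Finset

/-- The number of permutations mapping `S` onto `T`. -/
theorem card_map_le {m : ℕ} (S T : Finset (Fin m)) :
    (univ.filter (fun σ : Perm (Fin m) => S.map σ.toEmbedding = T)).card
      ≤ S.card.factorial * (m - S.card).factorial := by
  classical
  rcases (univ.filter (fun σ : Perm (Fin m) => S.map σ.toEmbedding = T)).eq_empty_or_nonempty
    with h | ⟨σ0, h0⟩
  · rw [h]; simp
  rw [mem_filter] at h0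
  have hmem : ∀ σ : Perm (Fin m), S.map σ.toEmbedding = T → ∀ a, a ∈ S ↔ σ a ∈ T := by
    intro σ hσ a
    rw [← hσ]
    simp
  rw [← Fintype.card_subtype]
  let F : {σ : Perm (Fin m) // S.map σ.toEmbedding = T} →
      ({x // x ∈ S} ≃ {x // x ∈ T}) × ({x // x ∉ S} ≃ {x // x ∉ T}) := fun σ =>
    (Equiv.subtypeEquiv σ.1 (hmem σ.1 σ.2),
      Equiv.subtypeEquiv σ.1 (fun a => not_congr (hmem σ.1 σ.2 a)))
  have hF : Function.Injective F := by
    intro σ σ' h
    apply Subtype.ext
    apply Equiv.ext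
    intro x
    have h1 := congrArg Prod.fst h
    have h2 := congrArg Prod.snd h
    by_cases hx : x ∈ S
    · have := congrArg (fun f : {x // x ∈ S} ≃ {x // x ∈ T} => (f ⟨x, hx⟩ : Fin m)) h1
      simpa [F] using this
    · have := congrArg (fun f : {x // x ∉ S} ≃ {x // x ∉ T} => (f ⟨x, hx⟩ : Fin m)) h2
      simpa [F] using this
  refine (Fintype.card_le_of_injective F hF).trans ?_
  rw [Fintype.card_prod, Fintype.card_equiv (Equiv.subtypeEquiv σ0 (hmem σ0 h0.2)),
    Fintype.card_equiv (Equiv.subtypeEquiv σ0 (fun a => not_congr (hmem σ0 h0.2 a)))]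
  simp [Fintype.card_subtype_compl]

theorem choose_le_of_cover {m k : ℕ} (hk : k ≤ m)
    (T : Finset (Finset (Fin m) × Finset (Fin m))) (h1 : ∀ p ∈ T, p.1.card = k)
    (hcov : ∀ σ : Perm (Fin m), ∃ p ∈ T, p.1.map σ.toEmbedding = p.2) :
    m.choose k ≤ T.card := by
  classical
  have h2 : (univ : Finset (Perm (Fin m))) ⊆ T.biUnion
      (fun p => univ.filter (fun σ : Perm (Fin m) => p.1.map σ.toEmbedding = p.2)) := by
    intro σ _
    obtain ⟨p, hp, hpσ⟩ := hcov σ
    rw [mem_biUnion]
    exact ⟨p, hp, by simp [hpσ]⟩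
  have h3 := card_le_card h2
  rw [card_univ, Fintype.card_perm, Fintype.card_fin] at h3
  have h4 := h3.trans (card_biUnion_le_card_mul T _ (k.factorial * (m - k).factorial) (by
    intro p hp
    have := card_map_le p.1 p.2
    rwa [h1 p hp] at this))
  rw [← Nat.choose_mul_factorial_mul_factorial hk, mul_assoc] at h4
  exact Nat.le_of_mul_le_mul_right h4 (by positivity)

theorem count_total {m : ℕ} (hm : 1 ≤ m) (T : Finset (Finset (Fin m) × Finset (Fin m)))
    (hcov : ∀ k, 1 ≤ k → k < m → ∀ σ : Perm (Fin m), ∃ p ∈ T, p.1.card = k ∧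
      p.1.map σ.toEmbedding = p.2) : 2 ^ m ≤ T.card + 2 := by
  classical
  have h1 : ∀ k ∈ Ico 1 m, m.choose k ≤ (T.filter (fun p => p.1.card = k)).card := by
    intro k hk
    rw [mem_Ico] at hk
    refine choose_le_of_cover hk.2.le _ (fun p hp => (mem_filter.1 hp).2) ?_
    intro σ
    obtain ⟨p, hp, hpk, hpσ⟩ := hcov k hk.1 hk.2 σ
    exact ⟨p, mem_filter.2 ⟨hp, hpk⟩, hpσ⟩
  have h2 : ∑ k ∈ Ico 1 m, m.choose k ≤ T.card := by
    refine (sum_le_sum h1).trans ?_
    rw [← card_biUnion]
    · apply card_le_card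
      intro p hp
      rw [mem_biUnion] at hp
      obtain ⟨k, _, hk⟩ := hp
      exact (mem_filter.1 hk).1
    · intro a _ b _ hab
      rw [Function.onFun, disjoint_left]
      intro p hp hp'
      rw [mem_filter] at hp hp'
      exact hab (hp.2.symm.trans hp'.2)
  have h3 := Nat.sum_range_choose m
  rw [sum_range_succ, range_eq_Ico, sum_eq_sum_Ico_succ_bot (by omega)] at h3
  simp only [Nat.choose_zero_right, Nat.choose_self, zero_add] at h3
  omega

theorem le_choose {m k : ℕ} (hk1 : 1 ≤ k) (hk2 : k < m) : m ≤ m.choose k := by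
  induction m generalizing k with
  | zero => omega
  | succ m ih =>
    obtain ⟨k, rfl⟩ : ∃ l, k = l + 1 := ⟨k - 1, by omega⟩
    rw [Nat.choose_succ_succ']
    rcases Nat.lt_or_ge (k + 1) m with h | h
    · have h1 := ih (k := k + 1) (by omega) h
      have h2 : 1 ≤ m.choose k := Nat.choose_pos (by omega)
      omega
    · have : k + 1 = m := by omega
      subst this
      rw [Nat.choose_self, Nat.choose_succ_self_right]

theorem cover_bound {m : ℕ} {ρ : Type*} [Fintype ρ] [DecidableEq ρ]
    (q : Perm (Fin m) → ρ) (S : Perm (Fin m) → Finset (Fin m)) (hS1 : ∀ σ, 1 ≤ (S σ).card)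
    (hS2 : ∀ σ, (S σ).card < m)
    (huniq : ∀ σ σ', q σ = q σ' → S σ = S σ' ∧
      (S σ).map σ.toEmbedding = (S σ').map σ'.toEmbedding) : m ≤ Fintype.card ρ := by
  classical
  have hm : 1 ≤ m := by
    have h1 := hS1 1
    have h2 := hS2 1
    omega
  have h1 : ∀ x : ρ, (univ.filter (fun σ => q σ = x)).card ≤ (m - 1).factorial := by
    intro x
    rcases (univ.filter (fun σ => q σ = x)).eq_empty_or_nonempty with h | ⟨σ0, h0⟩
    · rw [h]; simp
    rw [mem_filter] at h0
    have h2 : univ.filter (fun σ => q σ = x) ⊆ univ.filter (fun σ : Perm (Fin m) =>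
        (S σ0).map σ.toEmbedding = (S σ0).map σ0.toEmbedding) := by
      intro σ hσ
      rw [mem_filter] at hσ ⊢
      have h3 := huniq σ σ0 (hσ.2.trans h0.2.symm)
      refine ⟨hσ.1, ?_⟩
      rw [← h3.2, h3.1]
    refine (card_le_card h2).trans ((card_map_le _ _).trans ?_)
    have h4 := le_choose (hS1 σ0) (hS2 σ0)
    have h5 := Nat.choose_mul_factorial_mul_factorial (hS2 σ0).le
    have h6 : m.factorial = m * (m - 1).factorial := (Nat.mul_factorial_pred (by omega)).symm
    rw [h6, mul_assoc] at h5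
    by_contra hlt
    push Not at hlt
    have h7 : m * (m - 1).factorial < m.choose (S σ0).card *
        ((S σ0).card.factorial * (m - (S σ0).card).factorial) := by
      calc m * (m - 1).factorial < m * ((S σ0).card.factorial * (m - (S σ0).card).factorial) :=
            Nat.mul_lt_mul_of_pos_left hlt (by omega)
        _ ≤ _ := Nat.mul_le_mul_right _ h4
    omega
  have h2 : (univ : Finset (Perm (Fin m))).card
      = ∑ x : ρ, (univ.filter (fun σ => q σ = x)).card :=
    card_eq_sum_card_fiberwise (fun _ _ => mem_univ _)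
  have h3 : (univ : Finset (Perm (Fin m))).card ≤ Fintype.card ρ * (m - 1).factorial := by
    rw [h2]
    refine (sum_le_sum (fun x _ => h1 x)).trans ?_
    rw [sum_const, card_univ, smul_eq_mul]
  rw [card_univ, Fintype.card_perm, Fintype.card_fin, ← Nat.mul_factorial_pred (by omega)] at h3
  exact Nat.le_of_mul_le_mul_right h3 (by positivity)

end Pool.Agent.Work.MP_35c45d_lc.Torus
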