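import Mathlib

set_option autoImplicit false

namespace Pool.Agent.Work.MP_35c45d_lc.Torus

section rook

variable {ρ X : Type*} [Fintype ρ] [DecidableEq ρ]

theorem rook_aux (p : ρ → ρ → X × X) (h3 : 2 < Fintype.card ρ)
    (hN : ∀ v v' w w', v ≠ v' → w ≠ w' →
      (p v w).1 ≠ (p v' w').1 ∧ (p v w).2 ≠ (p v' w').2)
    (hT : ∀ v v' w w', v ≠ v' → w ≠ w' →
      (p v w' = ((p v w).1, (p v' w').2) ∧ p v' w = ((p v' w').1, (p v w).2)) ∨
      (p v w' = ((p v' w').1, (p v w).2) ∧ p v' w = ((p v w).1, (p v' w').2)))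
    (v0 w0 w1 : ρ) (hw : w0 ≠ w1) (h0 : (p v0 w0).1 = (p v0 w1).1) :
    ∃ α β : ρ → X, ∀ v w, p v w = (α v, β w) := by
  have hother : ∀ v : ρ, ∃ v', v ≠ v' := by
    intro v
    obtain ⟨a, b, c, hab, _, _⟩ := Fintype.two_lt_card_iff.1 h3
    by_cases h : v = a
    · exact ⟨b, by rw [h]; exact hab⟩
    · exact ⟨a, h⟩
  have h1 : ∀ v w w', w ≠ w' → ((p v w).1 = (p v w').1 ∧ (p v w).2 ≠ (p v w').2) ∨
      ((p v w).1 ≠ (p v w').1 ∧ (p v w).2 = (p v w').2) := by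
    intro v w w' hww
    obtain ⟨v', hv'⟩ := hother v
    obtain ⟨hN1, hN2⟩ := hN v v' w w' hv' hww
    rcases hT v v' w w' hv' hww with ⟨h, _⟩ | ⟨h, _⟩
    · left
      rw [h]
      exact ⟨rfl, hN2⟩
    · right
      rw [h]
      exact ⟨hN1, rfl⟩
  have h2 : ∀ v v' w w', v ≠ v' → w ≠ w' → (p v w).1 = (p v w').1 →
      (p v w).2 = (p v' w).2 ∧ (p v' w).1 = (p v' w').1 := by
    intro v v' w w' hvv hww hR
    obtain ⟨hN1, hN2⟩ := hN v v' w w' hvv hww
    rcases hT v v' w w' hvv hww with ⟨_, h⟩ | ⟨h, _⟩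
    · rw [h]
      exact ⟨rfl, rfl⟩
    · exfalso
      rw [h] at hR
      exact hN1 hR
  have h3' : ∀ v w w' w'', w ≠ w' → w ≠ w'' → w' ≠ w'' → (p v w).1 = (p v w').1 →
      (p v w).1 = (p v w'').1 := by
    intro v w w' w'' a b c hR
    rcases h1 v w w' a with ⟨_, e1⟩ | ⟨e1, _⟩
    · rcases h1 v w w'' b with ⟨e2, _⟩ | ⟨e2, e3⟩
      · exact e2
      · rcases h1 v w' w'' c with ⟨e4, _⟩ | ⟨_, e4⟩
        · exact hR.trans e4
        · exact absurd (e3.trans e4.symm) e1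
    · exact absurd hR e1
  have h4 : ∀ v w w', w ≠ w' → (p v w).1 = (p v w').1 → ∀ x, (p v x).1 = (p v w).1 := by
    intro v w w' hww hR x
    by_cases hx : w = x
    · rw [hx]
    · by_cases hx' : w' = x
      · rw [← hx', hR]
      · exact (h3' v w w' x hww hx hx' hR).symm
  have h5 : ∀ v x y, (p v x).1 = (p v y).1 := by
    intro v x y
    have hR : (p v w0).1 = (p v w1).1 := by
      by_cases hv : v0 = v
      · rw [← hv]; exact h0
      · exact (h2 v0 v w0 w1 hv hw h0).2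
    rw [h4 v w0 w1 hw hR x, h4 v w0 w1 hw hR y]
  refine ⟨fun v => (p v w0).1, fun w => (p v0 w).2, fun v w => ?_⟩
  apply Prod.ext
  · exact h5 v w w0
  · by_cases hv : v0 = v
    · rw [hv]
    · obtain ⟨w', hw'⟩ := hother w
      exact (h2 v0 v w w' hv hw' (h5 v0 w w')).1.symm

theorem rook (p : ρ → ρ → X × X) (h3 : 2 < Fintype.card ρ)
    (hN : ∀ v v' w w', v ≠ v' → w ≠ w' →
      (p v w).1 ≠ (p v' w').1 ∧ (p v w).2 ≠ (p v' w').2)
    (hT : ∀ v v' w w', v ≠ v' → w ≠ w' →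
      (p v w' = ((p v w).1, (p v' w').2) ∧ p v' w = ((p v' w').1, (p v w).2)) ∨
      (p v w' = ((p v' w').1, (p v w).2) ∧ p v' w = ((p v w).1, (p v' w').2))) :
    (∃ α β : ρ → X, ∀ v w, p v w = (α v, β w)) ∨
      (∃ α β : ρ → X, ∀ v w, p v w = (β w, α v)) := by
  obtain ⟨a, b, _, hab, _, _⟩ := Fintype.two_lt_card_iff.1 h3
  rcases hT a b a b hab hab with ⟨h, _⟩ | ⟨h, _⟩
  · left
    refine rook_aux p h3 hN hT a a b hab ?_
    rw [h]
  · right
    obtain ⟨α, β, hαβ⟩ := rook_aux (fun v w => (p v w).swap) h3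
      (by
        intro v v' w w' hv hw
        exact ⟨(hN v v' w w' hv hw).2, (hN v v' w w' hv hw).1⟩)
      (by
        intro v v' w w' hv hw
        rcases hT v v' w w' hv hw with ⟨e1, e2⟩ | ⟨e1, e2⟩
        · right
          simp only [e1, e2, Prod.swap]
          exact ⟨trivial, trivial⟩
        · left
          simp only [e1, e2, Prod.swap]
          exact ⟨trivial, trivial⟩)
      a a b hab (by simp only [Prod.fst_swap]; rw [h])
    refine ⟨α, β, fun v w => ?_⟩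
    have := hαβ v w
    rw [← Prod.swap_inj] at this
    simpa using this

end rook

end Pool.Agent.Work.MP_35c45d_lc.Torus
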