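import Mathlib

set_option autoImplicit false

namespace Pool.Agent.Work.MP_35c45d_lc.Torus

open Equiv Finset

/-- Follow a permutation from a vertex outside `I` until it leaves `I` again. -/
theorem walk {m n : ℕ} (τ : Perm (Fin n)) (c : Fin n → Option (Fin m)) (I : Finset (Fin n))
    (μ lam : Fin n → ℂ) (t : Fin m → ℂ)
    (hinj : ∀ v v' i, c v = some i → c v' = some i → v = v')
    (h0 : ∀ v, c v = none → v ∈ I ∧ τ v = v)
    (h1 : ∀ v i, c v = some i → lam (τ v) = t i * μ v)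
    (hI : ∀ v ∈ I, lam v = μ v) (v0 : Fin n) (hv0 : v0 ∉ I) :
    ∃ (j : ℕ) (S : ℕ → Finset (Fin m)), 1 ≤ j ∧ (τ ^ j) v0 ∉ I ∧
      (∀ k, 1 ≤ k → k < j → (τ ^ k) v0 ∈ I) ∧
      (∀ k ≤ j, (S k).card = k) ∧
      (∀ k, 1 ≤ k → k ≤ j → lam ((τ ^ k) v0) = (∏ i ∈ S k, t i) * μ v0) ∧
      (∀ k i, i ∈ S k → ∃ l < k, c ((τ ^ l) v0) = some i) := by
  classical
  have hex : ∃ j, 1 ≤ j ∧ (τ ^ j) v0 ∉ I :=
    ⟨orderOf τ, orderOf_pos τ, by rw [pow_orderOf_eq_one]; exact hv0⟩
  set j := Nat.find hex with hj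
  have hj1 : 1 ≤ j := (Nat.find_spec hex).1
  have hj2 : (τ ^ j) v0 ∉ I := (Nat.find_spec hex).2
  have hmid : ∀ k, 1 ≤ k → k < j → (τ ^ k) v0 ∈ I := by
    intro k hk1 hk2
    by_contra hne
    exact Nat.find_min hex hk2 ⟨hk1, hne⟩
  have hcs : ∀ k, k < j → ∃ i, c ((τ ^ k) v0) = some i := by
    intro k hk
    cases h : c ((τ ^ k) v0) with
    | some i => exact ⟨i, rfl⟩
    | none =>
      exfalso
      obtain ⟨h2, h3⟩ := h0 _ h
      have h4 : τ v0 = v0 := by
        apply (τ ^ k).injective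
        rw [← Perm.mul_apply, ← pow_succ, pow_succ', Perm.mul_apply, h3]
      have h5 : (τ ^ k) v0 = v0 := Perm.pow_apply_eq_self_of_apply_eq_self h4 k
      rw [h5] at h2
      exact hv0 h2
  have hdist : ∀ l k, l < k → k < j → (τ ^ l) v0 ≠ (τ ^ k) v0 := by
    intro l k hlk hkj heq
    have h2 : (τ ^ (k - l)) v0 = v0 := by
      apply (τ ^ l).injective
      rw [← Perm.mul_apply, ← pow_add, Nat.add_sub_cancel' hlk.le, heq]
    have h3 := hmid (k - l) (by omega) (by omega)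
    rw [h2] at h3
    exact hv0 h3
  set S : ℕ → Finset (Fin m) := fun k => univ.filter (fun i => ∃ l < k, c ((τ ^ l) v0) = some i)
    with hS
  have hS0 : S 0 = ∅ := by
    ext i
    simp [S]
  have hstep : ∀ k, k < j → ∃ i, c ((τ ^ k) v0) = some i ∧ i ∉ S k ∧ S (k + 1) = insert i (S k) := by
    intro k hk
    obtain ⟨i, hi⟩ := hcs k hk
    refine ⟨i, hi, ?_, ?_⟩
    · intro hmem
      simp only [S, mem_filter, mem_univ, true_and] at hmem
      obtain ⟨l, hl, hli⟩ := hmem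
      exact hdist l k hl hk (hinj _ _ i hli hi)
    · ext x
      simp only [S, mem_insert, mem_filter, mem_univ, true_and]
      constructor
      · rintro ⟨l, hl, hlx⟩
        rcases Nat.lt_succ_iff_lt_or_eq.1 hl with h | h
        · exact Or.inr ⟨l, h, hlx⟩
        · left
          rw [h, hi] at hlx
          exact (Option.some.inj hlx).symm
      · rintro (h | ⟨l, hl, hlx⟩)
        · exact ⟨k, Nat.lt_succ_self k, by rw [h]; exact hi⟩
        · exact ⟨l, Nat.lt_succ_of_lt hl, hlx⟩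
  have hmain : ∀ k, k ≤ j → (S k).card = k ∧
      (1 ≤ k → lam ((τ ^ k) v0) = (∏ i ∈ S k, t i) * μ v0) := by
    intro k
    induction k with
    | zero =>
      intro _
      rw [hS0]
      exact ⟨rfl, fun h => absurd h (by omega)⟩
    | succ k ih =>
      intro hk
      obtain ⟨ih1, ih2⟩ := ih (by omega)
      obtain ⟨i, hi, hiS, hSS⟩ := hstep k (by omega)
      refine ⟨by rw [hSS, card_insert_of_notMem hiS, ih1], fun _ => ?_⟩
      have hμ : μ ((τ ^ k) v0) = (∏ i ∈ S k, t i) * μ v0 := by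
        rcases Nat.eq_zero_or_pos k with h | h
        · subst h
          rw [hS0]
          simp
        · rw [← hI _ (hmid k h (by omega)), ih2 h]
      rw [pow_succ', Perm.mul_apply, h1 _ i hi, hμ, hSS, prod_insert hiS, mul_assoc]
  refine ⟨j, S, hj1, hj2, hmid, fun k hk => (hmain k hk).1, fun k h1k hk => (hmain k hk).2 h1k, ?_⟩
  intro k i hi
  simpa [S] using hi

end Pool.Agent.Work.MP_35c45d_lc.Torus
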