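import Pool.Agent.Work.MP_35c45d_lc.TorusExpand
import Pool.Agent.Work.MP_35c45d_lc.TorusCount
import Pool.Agent.Work.MP_35c45d_lc.TorusWalk
import Pool.Agent.Work.MP_35c45d_lc.TorusRook

set_option autoImplicit false

namespace Pool.Agent.Work.MP_35c45d_lc.Torus

open MvPolynomial Equiv Finset

/-- weight of a pair of sets -/
noncomputable def wt {m : ℕ} (d e : Fin m → ℂ) (S T : Finset (Fin m)) : ℂ :=
  (∏ i ∈ S, d i) * ∏ j ∈ T, e j

/-- A representation in normal form. -/
structure Setup {m n : ℕ} (d e : Fin m → ℂ)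
    (E : Option (Fin m × Fin m) → Matrix (Fin n) (Fin n) ℂ) (I : Finset (Fin n))
    (μ lam : Fin n → ℂ) : Prop where
  hd : ∀ i, d i ≠ 0
  he : ∀ j, e j ≠ 0
  gen : ∀ S T S' T' : Finset (Fin m), S.card = T.card → S'.card = T'.card → S.card < m →
      S'.card < m → wt d e S T = wt d e S' T' → S = S' ∧ T = T'
  coef : ∀ σ : Perm (Fin m), (polyMat E).det.coeff (monPerm σ) ≠ 0
  hμ : ∀ v, μ v ≠ 0
  hI : ∀ v ∈ I, lam v = μ v
  hE0 : ∀ w v, E none w v = if v ∈ I ∧ w = v then 1 else 0
  hE1 : ∀ p w v, E (some p) w v ≠ 0 → lam w = d p.1 * e p.2 * μ v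

section

variable {m n : ℕ} {d e : Fin m → ℂ} {E : Option (Fin m × Fin m) → Matrix (Fin n) (Fin n) ℂ}
  {I : Finset (Fin n)} {μ lam : Fin n → ℂ}

theorem prod_t (d e : Fin m → ℂ) (σ : Perm (Fin m)) (S : Finset (Fin m)) :
    ∏ i ∈ S, d i * e (σ i) = wt d e S (S.map σ.toEmbedding) := by
  unfold wt
  rw [prod_mul_distrib, prod_map]
  rfl

theorem Setup.wt_ne (h : Setup d e E I μ lam) (S T : Finset (Fin m)) : wt d e S T ≠ 0 :=
  mul_ne_zero (prod_ne_zero_iff.2 fun i _ => h.hd i) (prod_ne_zero_iff.2 fun i _ => h.he i)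

theorem map_fst_some {σ : Perm (Fin m)} {c : Fin n → Option (Fin m × Fin m)} (hg : Good σ c)
    {v : Fin n} {i : Fin m} (hv : (c v).map Prod.fst = some i) : c v = some (i, σ i) := by
  rw [Option.map_eq_some_iff] at hv
  obtain ⟨p, hp, rfl⟩ := hv
  have := hg.graph v p hp
  rw [hp, ← this]

theorem Setup.none_mem (h : Setup d e E I μ lam) {w v : Fin n} (hv : E none w v ≠ 0) :
    v ∈ I ∧ w = v := by
  rw [h.hE0] at hv
  by_contra hne
  rw [if_neg hne] at hv
  exact hv rfl

theorem Setup.walk (h : Setup d e E I μ lam) (σ : Perm (Fin m)) (τ : Perm (Fin n))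
    (c : Fin n → Option (Fin m × Fin m)) (hg : Good σ c) (hc : ∀ v, E (c v) (τ v) v ≠ 0)
    (v0 : Fin n) (hv0 : v0 ∉ I) :
    ∃ (j : ℕ) (S : ℕ → Finset (Fin m)), 1 ≤ j ∧ (τ ^ j) v0 ∉ I ∧
      (∀ k, 1 ≤ k → k < j → (τ ^ k) v0 ∈ I) ∧
      (∀ k ≤ j, (S k).card = k) ∧
      (∀ k, 1 ≤ k → k ≤ j → lam ((τ ^ k) v0) = wt d e (S k) ((S k).map σ.toEmbedding) * μ v0) ∧
      (∀ k i, i ∈ S k → ∃ l < k, c ((τ ^ l) v0) = some (i, σ i)) := by
  obtain ⟨j, S, h1, h2, h3, h4, h5, h6⟩ := Torus.walk τ (fun v => (c v).map Prod.fst) I μ lam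
    (fun i => d i * e (σ i))
    (by
      intro v v' i hv hv'
      exact hg.inj v v' _ (map_fst_some hg hv) (map_fst_some hg hv'))
    (by
      intro v hv
      have hv2 : c v = none := by simpa using hv
      have := hc v
      rw [hv2] at this
      exact h.none_mem this)
    (by
      intro v i hv
      have hv2 := map_fst_some hg hv
      have := hc v
      rw [hv2] at this
      exact h.hE1 _ _ _ this)
    h.hI v0 hv0
  refine ⟨j, S, h1, h2, h3, h4, ?_, ?_⟩
  · intro k hk1 hk2
    rw [h5 k hk1 hk2, prod_t]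
  · intro k i hi
    obtain ⟨l, hl, hli⟩ := h6 k i hi
    exact ⟨l, hl, map_fst_some hg hli⟩

theorem Setup.prod_lam (h : Setup d e E I μ lam) (σ : Perm (Fin m)) (τ : Perm (Fin n))
    (c : Fin n → Option (Fin m × Fin m)) (hg : Good σ c) (hc : ∀ v, E (c v) (τ v) v ≠ 0) :
    ∏ v, lam v = (∏ i, d i * e (σ i)) * ∏ v, μ v := by
  classical
  let g : Fin n → ℂ := fun v => match c v with
    | none => 1
    | some p => d p.1 * e p.2
  have h1 : ∀ v, lam (τ v) = g v * μ v := by
    intro v
    have hcv := hc v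
    simp only [g]
    cases hv : c v with
    | none =>
      rw [hv] at hcv
      obtain ⟨h2, h3⟩ := h.none_mem hcv
      rw [h3, h.hI v h2]
      simp
    | some p =>
      rw [hv] at hcv
      exact h.hE1 _ _ _ hcv
  rw [← Equiv.prod_comp τ, prod_congr rfl (fun v _ => h1 v), prod_mul_distrib]
  congr 1
  choose u hu using hg.ex
  symm
  apply prod_of_injOn u
  · intro i _ i' _ hii
    have h2 := hu i
    rw [hii, hu i'] at h2
    have := congrArg (Option.map Prod.fst) h2
    simpa using this.symm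
  · intro i _
    simp
  · intro v _ hv
    simp only [g]
    cases hcv : c v with
    | none => rfl
    | some p =>
      exfalso
      apply hv
      refine ⟨p.1, by simp, ?_⟩
      apply hg.inj _ _ _ (hu p.1)
      rw [hcv, ← hg.graph v p hcv]
  · intro i _
    simp only [g, hu]

theorem Setup.exists_not_mem (h : Setup d e E I μ lam)
    (hzero : constantCoeff (polyMat E).det = 0 ∨ wt d e univ univ ≠ 1) : ∃ v, v ∉ I := by
  by_contra hne
  push Not at hne
  have h1 : constantCoeff (polyMat E).det = 1 := by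
    rw [RingHom.map_det]
    have h2 : (constantCoeff (R := ℂ) (σ := Fin m × Fin m)).mapMatrix (polyMat E) = 1 := by
      refine Matrix.ext fun w v => ?_
      have h3 : constantCoeff (polyMat E w v) = E none w v := by
        have h4 : polyMat E w v = ∑ o, monomial (mon o) (E o w v) := rfl
        rw [h4, Fintype.sum_option, map_add, map_sum]
        rw [sum_eq_zero, add_zero]
        · exact (constantCoeff_monomial (0 : (Fin m × Fin m) →₀ ℕ) (E none w v)).trans
            (if_pos rfl)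
        · intro p _
          refine (constantCoeff_monomial _ _).trans (if_neg ?_)
          intro hp
          have := congrArg (fun f => f p) hp
          simp [mon] at this
      rw [RingHom.mapMatrix_apply, Matrix.map_apply, h3, h.hE0, Matrix.one_apply]
      simp [hne]
    rw [h2, Matrix.det_one]
  rcases hzero with h2 | h2
  · rw [h1] at h2
    exact one_ne_zero h2
  · apply h2
    obtain ⟨τ, c, hg, _, hc⟩ := exists_good E 1 (h.coef 1)
    have h3 := h.prod_lam 1 τ c hg hc
    rw [prod_congr rfl (fun v _ => h.hI v (hne v)), prod_t] at h3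
    have h4 : ∏ v, μ v ≠ 0 := prod_ne_zero_iff.2 fun v _ => h.hμ v
    have h5 := mul_right_cancel₀ h4 ((one_mul _).trans h3)
    rw [h5]
    congr 1
    ext i
    simp

/-- The case of a one-dimensional kernel. -/
theorem Setup.case_one (h : Setup d e E I μ lam) (hm : 1 ≤ m) (v0 : Fin n) (hv0 : v0 ∉ I)
    (hone : ∀ v, v ∉ I → v = v0) : 2 ^ m ≤ n + 1 := by
  classical
  have key : ∀ k, 1 ≤ k → k < m → ∀ σ : Perm (Fin m), ∃ S : Finset (Fin m), S.card = k ∧
      ∃ v ∈ I, μ v = wt d e S (S.map σ.toEmbedding) * μ v0 := by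
    intro k hk1 hkm σ
    obtain ⟨τ, c, hg, _, hc⟩ := exists_good E σ (h.coef σ)
    obtain ⟨j, S, h1, h2, h3, h4, h5, h6⟩ := h.walk σ τ c hg hc v0 hv0
    have hjm : j ≤ m := by
      have := h4 j le_rfl
      rw [← this]
      exact (card_le_univ _).trans (by simp)
    have h7 : (τ ^ j) v0 = v0 := hone _ h2
    have h8 := h5 j h1 le_rfl
    rw [h7] at h8
    have h9 := h.prod_lam σ τ c hg hc
    rw [← mul_prod_erase univ lam (mem_univ v0), ← mul_prod_erase univ μ (mem_univ v0)] at h9
    have h10 : ∏ v ∈ univ.erase v0, lam v = ∏ v ∈ univ.erase v0, μ v := by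
      refine prod_congr rfl fun v hv => h.hI v ?_
      by_contra hvI
      exact (mem_erase.1 hv).1 (hone v hvI)
    have h11 : ∏ v ∈ univ.erase v0, μ v ≠ 0 := prod_ne_zero_iff.2 fun v _ => h.hμ v
    have h12 : lam v0 = (∏ i, d i * e (σ i)) * μ v0 := by
      apply mul_right_cancel₀ h11
      rw [← mul_assoc, h10] at h9
      exact h9
    have h13 : (∏ i, d i * e (σ i)) = wt d e (S j) ((S j).map σ.toEmbedding) := by
      apply mul_right_cancel₀ (h.hμ v0)
      rw [← h12, h8]
    have h14 : ∏ i ∈ (S j)ᶜ, d i * e (σ i) = 1 := by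
      rw [← prod_mul_prod_compl (S j), prod_t] at h13
      exact mul_left_cancel₀ (h.wt_ne _ _) (h13.trans (mul_one _).symm)
    rw [prod_t] at h14
    have hjm2 : j = m := by
      by_contra hne
      have h15 : (S j)ᶜ.card = m - j := by
        rw [card_compl, h4 j le_rfl, Fintype.card_fin]
      have h16 := h.gen (S j)ᶜ ((S j)ᶜ.map σ.toEmbedding) ∅ ∅ (by simp) rfl (by omega)
        (by simp; omega) (by rw [h14]; simp [wt])
      rw [h16.1] at h15
      simp at h15
      omega
    have h17 := h3 k hk1 (by omega)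
    refine ⟨S k, h4 k (by omega), (τ ^ k) v0, h17, ?_⟩
    rw [← h.hI _ h17, h5 k hk1 (by omega)]
  let T : Finset (Finset (Fin m) × Finset (Fin m)) := univ.filter (fun p =>
    p.1.card = p.2.card ∧ p.1.card < m ∧ ∃ v ∈ I, μ v = wt d e p.1 p.2 * μ v0)
  have hT : 2 ^ m ≤ T.card + 2 := by
    refine count_total hm T ?_
    intro k hk1 hkm σ
    obtain ⟨S, hS, v, hv, hvμ⟩ := key k hk1 hkm σ
    refine ⟨(S, S.map σ.toEmbedding), ?_, hS, rfl⟩
    simp only [T, mem_filter, mem_univ, true_and, card_map]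
    exact ⟨by omega, v, hv, hvμ⟩
  have hT2 : T.card ≤ I.card := by
    have hex : ∀ p ∈ T, ∃ v ∈ I, μ v = wt d e p.1 p.2 * μ v0 := by
      intro p hp
      exact (mem_filter.1 hp).2.2.2
    have : Nonempty (Fin n) := ⟨v0⟩
    choose! f hf1 hf2 using hex
    refine card_le_card_of_injOn f hf1 ?_
    intro p hp p' hp' hpp
    have h1 := hf2 p hp
    rw [hpp, hf2 p' hp'] at h1
    have h2 := mul_right_cancel₀ (h.hμ v0) h1
    have hp3 := (mem_filter.1 hp).2
    have hp4 := (mem_filter.1 hp').2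
    have h3 := h.gen p'.1 p'.2 p.1 p.2 hp4.1 hp3.1 hp4.2.1 hp3.2.1 h2
    exact Prod.ext h3.1.symm h3.2.symm
  have hI : I.card + 1 ≤ n := by
    have : (insert v0 I).card ≤ n := (card_le_univ _).trans (by simp)
    rwa [card_insert_of_notMem hv0] at this
  omega

/-- The number of kernel vectors is at most `m`, and if it is `m` then exactly these vertices
carry variables. -/
theorem Setup.card_le (h : Setup d e E I μ lam) (σ : Perm (Fin m)) (τ : Perm (Fin n))
    (c : Fin n → Option (Fin m × Fin m)) (hg : Good σ c) (hc : ∀ v, E (c v) (τ v) v ≠ 0) :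
    Fintype.card {v // v ∉ I} ≤ m ∧
      (m ≤ Fintype.card {v // v ∉ I} → ∀ v ∈ I, c v = none) := by
  classical
  have hex : ∀ v : {v // v ∉ I}, ∃ i, c v = some (i, σ i) := by
    intro v
    cases hv : c v with
    | none =>
      have := hc v
      rw [hv] at this
      exact absurd (h.none_mem this).1 v.2
    | some p =>
      exact ⟨p.1, by rw [← hg.graph _ p hv]⟩
  choose f hf using hex
  have hinj : Function.Injective f := by
    intro v v' hvv
    apply Subtype.ext
    have h1 := hf v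
    rw [hvv] at h1
    exact hg.inj _ _ _ h1 (hf v')
  have hle : Fintype.card {v // v ∉ I} ≤ m := by
    have := Fintype.card_le_of_injective f hinj
    simpa using this
  refine ⟨hle, fun hge v hv => ?_⟩
  have hbij : Function.Bijective f := by
    rw [Fintype.bijective_iff_injective_and_card]
    refine ⟨hinj, ?_⟩
    rw [Fintype.card_fin]
    omega
  cases hcv : c v with
  | none => rfl
  | some p =>
    exfalso
    obtain ⟨v', hv'⟩ := hbij.2 p.1
    have h1 := hf v'
    rw [hv', ← hg.graph v p hcv] at h1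
    have h2 := hg.inj _ _ _ hcv h1
    rw [h2] at hv
    exact v'.2 hv

/-- If the kernel has dimension at least two, it has dimension `m`. -/
theorem Setup.le_card (h : Setup d e E I μ lam) (v0 v1 : Fin n) (hv0 : v0 ∉ I)
    (hv1 : v1 ∉ I) (hne : v1 ≠ v0) : m ≤ Fintype.card {v // v ∉ I} := by
  classical
  have key : ∀ σ : Perm (Fin m), ∃ (q : {v // v ∉ I}) (S : Finset (Fin m)), 1 ≤ S.card ∧
      S.card < m ∧ lam q = wt d e S (S.map σ.toEmbedding) * μ v0 := by
    intro σ
    obtain ⟨τ, c, hg, _, hc⟩ := exists_good E σ (h.coef σ)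
    obtain ⟨j, S, h1, h2, h3, h4, h5, h6⟩ := h.walk σ τ c hg hc v0 hv0
    refine ⟨⟨(τ ^ j) v0, h2⟩, S j, by rw [h4 j le_rfl]; exact h1, ?_, h5 j h1 le_rfl⟩
    have hex : ∃ i, c v1 = some (i, σ i) := by
      cases hv : c v1 with
      | none =>
        have := hc v1
        rw [hv] at this
        exact absurd (h.none_mem this).1 hv1
      | some p => exact ⟨p.1, by rw [← hg.graph _ p hv]⟩
    obtain ⟨i1, hi1⟩ := hex
    have hnot : i1 ∉ S j := by
      intro hmem
      obtain ⟨l, hl, hli⟩ := h6 j i1 hmem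
      have h7 := hg.inj _ _ _ hi1 hli
      rcases Nat.eq_zero_or_pos l with h8 | h8
      · subst h8
        exact hne (by simpa using h7)
      · rw [h7] at hv1
        exact hv1 (h3 l h8 hl)
    have hlt : S j ⊂ univ := by
      rw [ssubset_univ_iff]
      intro heq
      rw [heq] at hnot
      exact hnot (mem_univ _)
    have := card_lt_card hlt
    simpa using this
  choose q S hS1 hS2 hq using key
  refine cover_bound q S hS1 hS2 ?_
  intro σ σ' hσ
  have h1 := hq σ
  rw [hσ, hq σ'] at h1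
  have h2 := mul_right_cancel₀ (h.hμ v0) h1
  have h3 := h.gen _ _ _ _ (by simp) (by simp) (hS2 σ') (hS2 σ) h2
  exact ⟨h3.1.symm, h3.2.symm⟩

theorem Setup.t_inj (h : Setup d e E I μ lam) (hm : 3 ≤ m) (p p' : Fin m × Fin m)
    (hp : d p.1 * e p.2 = d p'.1 * e p'.2) : p = p' := by
  have := h.gen {p.1} {p.2} {p'.1} {p'.2} (by simp) (by simp) (by simp; omega)
    (by simp; omega) (by simpa [wt] using hp)
  rw [singleton_inj, singleton_inj] at this
  exact Prod.ext this.1 this.2

/-- In the degenerate case all data are unique and parametrised by permutations. -/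
theorem Setup.data (h : Setup d e E I μ lam) (hm : 3 ≤ m)
    (hge : m ≤ Fintype.card {v // v ∉ I}) :
    ∃ (F : Perm (Fin m) ≃ {f : Perm (Fin n) // ∀ a, ¬ (a ∉ I) → f a = a})
      (c : Perm (Fin m) → Fin n → Option (Fin m × Fin m)),
      (∀ σ, Good σ (c σ)) ∧ (∀ σ v, E (c σ v) ((F σ).1 v) v ≠ 0) ∧
      (∀ σ, ∀ v ∈ I, c σ v = none) ∧ Fintype.card {v // v ∉ I} = m ∧
      (∀ σ, (polyMat E).det.coeff (monPerm σ)
        = ((Perm.sign (F σ).1 : ℤ) : ℂ) * ∏ v, E (c σ v) ((F σ).1 v) v) := by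
  classical
  -- all data
  have hdata : ∀ σ : Perm (Fin m), ∃ (τ : Perm (Fin n)) (c : Fin n → Option (Fin m × Fin m)),
      Good σ c ∧ (∑ v, mon (c v) = monPerm σ) ∧ ∀ v, E (c v) (τ v) v ≠ 0 :=
    fun σ => exists_good E σ (h.coef σ)
  have hnone : ∀ (σ : Perm (Fin m)) (τ : Perm (Fin n)) (c : Fin n → Option (Fin m × Fin m)),
      Good σ c → (∀ v, E (c v) (τ v) v ≠ 0) → ∀ v ∈ I, c v = none :=
    fun σ τ c hg hc => (h.card_le σ τ c hg hc).2 hge
  have hcard : Fintype.card {v // v ∉ I} = m := by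
    obtain ⟨τ, c, hg, _, hc⟩ := hdata 1
    exact le_antisymm (h.card_le 1 τ c hg hc).1 hge
  have hfix : ∀ (σ : Perm (Fin m)) (τ : Perm (Fin n)) (c : Fin n → Option (Fin m × Fin m)),
      Good σ c → (∀ v, E (c v) (τ v) v ≠ 0) → ∀ v ∈ I, τ v = v := by
    intro σ τ c hg hc v hv
    have h1 := hnone σ τ c hg hc v hv
    have h2 := hc v
    rw [h1] at h2
    exact (h.none_mem h2).2
  have hceq : ∀ (σ σ' : Perm (Fin m)) (τ : Perm (Fin n))
      (c c' : Fin n → Option (Fin m × Fin m)), Good σ c → (∀ v, E (c v) (τ v) v ≠ 0) →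
      Good σ' c' → (∀ v, E (c' v) (τ v) v ≠ 0) → c = c' ∧ σ = σ' := by
    intro σ σ' τ c c' hg hc hg' hc'
    have h1 : c = c' := by
      funext v
      by_cases hv : v ∈ I
      · rw [hnone σ τ c hg hc v hv, hnone σ' τ c' hg' hc' v hv]
      · have h2 := hc v
        have h3 := hc' v
        cases hcv : c v with
        | none =>
          rw [hcv] at h2
          exact absurd (h.none_mem h2).1 hv
        | some p =>
          cases hcv' : c' v with
          | none =>
            rw [hcv'] at h3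
            exact absurd (h.none_mem h3).1 hv
          | some p' =>
            rw [hcv] at h2
            rw [hcv'] at h3
            have h4 := h.hE1 _ _ _ h2
            rw [h.hE1 _ _ _ h3] at h4
            rw [h.t_inj hm p' p (mul_right_cancel₀ (h.hμ v) h4)]
    refine ⟨h1, ?_⟩
    apply Equiv.ext
    intro i
    obtain ⟨v, hv⟩ := hg.ex i
    rw [h1] at hv
    exact hg'.graph v _ hv
  choose τf cf hgf hsf hcf using hdata
  let F : Perm (Fin m) → {f : Perm (Fin n) // ∀ a, ¬ (a ∉ I) → f a = a} := fun σ =>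
    ⟨τf σ, fun a ha => hfix σ (τf σ) (cf σ) (hgf σ) (hcf σ) a (not_not.1 ha)⟩
  have hFinj : Function.Injective F := by
    intro σ σ' hσ
    have h1 : τf σ = τf σ' := congrArg Subtype.val hσ
    have h2 := hcf σ
    rw [h1] at h2
    exact (hceq σ σ' (τf σ') (cf σ) (cf σ') (hgf σ) h2 (hgf σ') (hcf σ')).2
  have hFbij : Function.Bijective F := by
    rw [Fintype.bijective_iff_injective_and_card]
    refine ⟨hFinj, ?_⟩
    rw [← Fintype.card_congr (Equiv.Perm.subtypeEquivSubtypePerm (fun a => a ∉ I)),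
      Fintype.card_perm, Fintype.card_perm, hcard, Fintype.card_fin]
  refine ⟨Equiv.ofBijective F hFbij, cf, hgf, hcf,
    fun σ => hnone σ (τf σ) (cf σ) (hgf σ) (hcf σ), hcard, ?_⟩
  intro σ
  refine coeff_unique E σ (τf σ) (cf σ) ?_ (hsf σ)
  intro τ' c' hg' hc'
  obtain ⟨σ', hσ'⟩ := hFbij.2
    ⟨τ', fun a ha => hfix σ τ' c' hg' hc' a (not_not.1 ha)⟩
  have hσ2' : τf σ' = τ' := congrArg Subtype.val hσ'
  have hcσ' := hcf σ'
  rw [hσ2'] at hcσ'
  have h2 := hceq σ σ' τ' c' (cf σ') hg' hc' (hgf σ') hcσ'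
  have h3 : τ' = τf σ := by
    rw [← hσ2', h2.2]
  refine ⟨h3, ?_⟩
  rw [h2.1, h2.2]

end

end Pool.Agent.Work.MP_35c45d_lc.Torus
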