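import Mathlib

set_option autoImplicit false

/-!
Definitions for the torus-equivariant determinantal complexity of the permanent.
-/

namespace Pool.Agent.Work.MP_35c45d_lc.Torus

open MvPolynomial

/-- `n × n` matrices whose entries are polynomials in the `m ^ 2` variables `x_{ij}`. -/
abbrev PMat (m n : ℕ) : Type := Matrix (Fin n) (Fin n) (MvPolynomial (Fin m × Fin m) ℂ)

/-- The `m × m` permanent of the generic matrix, as a polynomial. -/
noncomputable def permPoly (m : ℕ) : MvPolynomial (Fin m × Fin m) ℂ :=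
  (Matrix.of fun i j : Fin m => (X (i, j) : MvPolynomial (Fin m × Fin m) ℂ)).permanent

/-- All entries are affine linear forms. -/
def Affine {m n : ℕ} (A : PMat m n) : Prop := ∀ i j, (A i j).totalDegree ≤ 1

/-- `A` is an affine linear determinantal representation of the `m × m` permanent. -/
def IsRep {m n : ℕ} (A : PMat m n) : Prop := Affine A ∧ A.det = permPoly m

/-- The substitution `X ↦ diag(d) X diag(e)`, that is `x_{ij} ↦ d_i e_j x_{ij}`. -/
noncomputable def rescale {m : ℕ} (d e : Fin m → ℂ) :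
    MvPolynomial (Fin m × Fin m) ℂ →ₐ[ℂ] MvPolynomial (Fin m × Fin m) ℂ :=
  aeval fun p => C (d p.1 * e p.2) * X p

/-- `A(diag(d) X diag(e)) = G A(X) H` or `= G A(X)ᵀ H`, with `G`, `H` invertible over `ℂ`. -/
def EquivariantAt {m n : ℕ} (A : PMat m n) (d e : Fin m → ℂ) : Prop :=
  ∃ G H : GL (Fin n) ℂ,
    A.map (rescale d e) = (G : Matrix (Fin n) (Fin n) ℂ).map C * A *
        (H : Matrix (Fin n) (Fin n) ℂ).map C ∨
      A.map (rescale d e) = (G : Matrix (Fin n) (Fin n) ℂ).map C * A.transpose *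
        (H : Matrix (Fin n) (Fin n) ℂ).map C

/-- The pair `(diag(d), diag(e))` is generic: it is invertible and the squares of the numbers
`∏_{i ∈ S} d_i ∏_{j ∈ T} e_j`, for `|S| = |T| < m`, are pairwise different. -/
def Generic {m : ℕ} (d e : Fin m → ℂ) : Prop :=
  (∀ i, d i ≠ 0) ∧ (∀ j, e j ≠ 0) ∧
    ∀ S T S' T' : Finset (Fin m), S.card = T.card → S'.card = T'.card → S.card < m →
      S'.card < m →
      ((∏ i ∈ S, d i) * ∏ j ∈ T, e j) ^ 2 = ((∏ i ∈ S', d i) * ∏ j ∈ T', e j) ^ 2 →
      S = S' ∧ T = T'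

/-- The exponent of the monomial `∏_i x_{i σ(i)}`. -/
noncomputable def monPerm {m : ℕ} (σ : Equiv.Perm (Fin m)) : (Fin m × Fin m) →₀ ℕ :=
  ∑ i, Finsupp.single (i, σ i) 1

end Pool.Agent.Work.MP_35c45d_lc.Torus
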