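import Pool.Agent.Work.MP_35c45d_lc.TorusCore

set_option autoImplicit false

namespace Pool.Agent.Work.MP_35c45d_lc.Torus

open MvPolynomial Equiv Finset

section

variable {m n : ℕ} {d e : Fin m → ℂ} {E : Option (Fin m × Fin m) → Matrix (Fin n) (Fin n) ℂ}
  {I : Finset (Fin n)} {μ lam : Fin n → ℂ}

theorem absorb (hm : 1 ≤ m) (κ : ℂ) (a : Fin m → Fin m → ℂ) : ∃ a' : Fin m → Fin m → ℂ,
    ∀ σ : Perm (Fin m), κ * ∏ i, a i (σ i) = ∏ i, a' i (σ i) := by
  classical
  refine ⟨fun i j => (if i = ⟨0, hm⟩ then κ else 1) * a i j, fun σ => ?_⟩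
  rw [prod_mul_distrib, prod_ite_eq' univ (⟨0, hm⟩ : Fin m) (fun _ => κ), if_pos (mem_univ _)]

theorem Setup.dichotomy (h : Setup d e E I μ lam) (hm : 3 ≤ m)
    (hge : m ≤ Fintype.card {v // v ∉ I}) :
    ∃ a : Fin m → Fin m → ℂ, ∀ σ : Perm (Fin m),
      (polyMat E).det.coeff (monPerm σ) = ((Perm.sign σ : ℤ) : ℂ) * ∏ i, a i (σ i) := by
  classical
  obtain ⟨F, c, hg, hE, hnone, hcard, hcoef⟩ := h.data hm hge
  -- the permutations `F σ` preserve the complement of `I`
  have hpres : ∀ (τ : Perm (Fin n)), (∀ a, ¬ (a ∉ I) → τ a = a) → ∀ v, v ∉ I → τ v ∉ I := by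
    intro τ hτ v hv hmem
    have h1 := hτ (τ v) (not_not.2 hmem)
    have h2 := τ.injective h1
    rw [h2] at hmem
    exact hv hmem
  have hsome : ∀ σ v, v ∉ I → ∃ p, c σ v = some p ∧ lam ((F σ).1 v) = d p.1 * e p.2 * μ v := by
    intro σ v hv
    have h1 := hE σ v
    cases hcv : c σ v with
    | none =>
      rw [hcv] at h1
      exact absurd (h.none_mem h1).1 hv
    | some p =>
      rw [hcv] at h1
      exact ⟨p, rfl, h.hE1 _ _ _ h1⟩
  have hswap : ∀ v w : Fin n, v ∉ I → w ∉ I → ∀ a, ¬ (a ∉ I) → swap v w a = a := by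
    intro v w hv hw a ha
    rw [not_not] at ha
    apply swap_apply_of_ne_of_ne
    · rintro rfl; exact hv ha
    · rintro rfl; exact hw ha
  have hp : ∀ v w : {v // v ∉ I}, ∃ p : Fin m × Fin m, lam w = d p.1 * e p.2 * μ v := by
    intro v w
    obtain ⟨p, _, hp⟩ := hsome (F.symm ⟨swap v.1 w.1, hswap v w v.2 w.2⟩) v v.2
    refine ⟨p, ?_⟩
    rw [Equiv.apply_symm_apply] at hp
    simpa using hp
  choose p hp using hp
  have hcp : ∀ (σ : Perm (Fin m)) (v w : {v // v ∉ I}), (F σ).1 v = w → c σ v = some (p v w) := by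
    intro σ v w hvw
    obtain ⟨p', h1, h2⟩ := hsome σ v v.2
    rw [h1]
    rw [hvw, hp v w] at h2
    rw [h.t_inj hm p' (p v w) (mul_right_cancel₀ (h.hμ v) h2).symm]
  -- two prescribed values
  have htwo : ∀ v v' w w' : {v // v ∉ I}, v ≠ v' → w ≠ w' →
      ∃ σ : Perm (Fin m), (F σ).1 v = w ∧ (F σ).1 v' = w' := by
    intro v v' w w' hv hw
    have h1 : swap v.1 w.1 v'.1 ∉ I := hpres (swap v.1 w.1) (hswap v w v.2 w.2) v' v'.2
    let τ : Perm (Fin n) := swap (swap v.1 w.1 v'.1) w'.1 * swap v.1 w.1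
    have hτ : ∀ a, ¬ (a ∉ I) → τ a = a := by
      intro a ha
      simp only [τ, Perm.mul_apply]
      rw [hswap v w v.2 w.2 a ha, hswap _ _ h1 w'.2 a ha]
    refine ⟨F.symm ⟨τ, hτ⟩, ?_, ?_⟩
    · rw [Equiv.apply_symm_apply]
      simp only [τ, Perm.mul_apply, swap_apply_left]
      apply swap_apply_of_ne_of_ne
      · intro heq
        have h2 : swap v.1 w.1 v.1 = swap v.1 w.1 v'.1 := by rw [swap_apply_left]; exact heq
        exact hv (Subtype.ext ((swap v.1 w.1).injective h2))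
      · intro heq
        exact hw (Subtype.ext heq)
    · rw [Equiv.apply_symm_apply]
      simp only [τ, Perm.mul_apply, swap_apply_left]
  have hN : ∀ v v' w w', v ≠ v' → w ≠ w' →
      (p v w).1 ≠ (p v' w').1 ∧ (p v w).2 ≠ (p v' w').2 := by
    intro v v' w w' hv hw
    obtain ⟨σ, h1, h2⟩ := htwo v v' w w' hv hw
    have h3 := hcp σ v w h1
    have h4 := hcp σ v' w' h2
    have h5 := (hg σ).graph _ _ h3
    have h6 := (hg σ).graph _ _ h4
    have h7 : (p v w).1 ≠ (p v' w').1 := by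
      intro heq
      have h8 : p v w = p v' w' := Prod.ext heq (by rw [h5, h6, heq])
      rw [h8] at h3
      exact hv (Subtype.ext ((hg σ).inj _ _ _ h3 h4))
    refine ⟨h7, fun heq => h7 ?_⟩
    rw [h5, h6] at heq
    exact σ.injective heq
  -- `p` is a bijection
  have hbij : Function.Bijective (fun x : {v // v ∉ I} × {v // v ∉ I} => p x.1 x.2) := by
    rw [Fintype.bijective_iff_surjective_and_card]
    constructor
    · rintro ⟨i, j⟩
      obtain ⟨v, hv⟩ := (hg (swap i j)).ex i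
      rw [swap_apply_left] at hv
      have hvI : v ∉ I := by
        intro hmem
        rw [hnone _ v hmem] at hv
        simp at hv
      have hwI : (F (swap i j)).1 v ∉ I := hpres _ (F (swap i j)).2 v hvI
      refine ⟨(⟨v, hvI⟩, ⟨_, hwI⟩), ?_⟩
      have h1 := hcp (swap i j) ⟨v, hvI⟩ ⟨_, hwI⟩ rfl
      rw [hv] at h1
      exact (Option.some.inj h1).symm
    · rw [Fintype.card_prod, Fintype.card_prod, hcard, Fintype.card_fin]
  have hpinj : ∀ v w v' w', p v w = p v' w' → v = v' ∧ w = w' := by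
    intro v w v' w' heq
    have := hbij.1 (a₁ := (v, w)) (a₂ := (v', w')) heq
    exact Prod.mk.inj this
  have hT : ∀ v v' w w', v ≠ v' → w ≠ w' →
      (p v w' = ((p v w).1, (p v' w').2) ∧ p v' w = ((p v' w').1, (p v w).2)) ∨
      (p v w' = ((p v' w').1, (p v w).2) ∧ p v' w = ((p v w).1, (p v' w').2)) := by
    intro v v' w w' hv hw
    obtain ⟨n1, n2⟩ := hN v v' w w' hv hw
    obtain ⟨n3, n4⟩ := hN v v' w' w hv hw.symm
    have hprod : d (p v w).1 * e (p v w).2 * (d (p v' w').1 * e (p v' w').2)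
        = d (p v w').1 * e (p v w').2 * (d (p v' w).1 * e (p v' w).2) := by
      have e1 := hp v w
      have e2 := hp v' w'
      have e3 := hp v w'
      have e4 := hp v' w
      have h1 : lam w * lam w' = lam w' * lam w := mul_comm _ _
      apply mul_right_cancel₀ (mul_ne_zero (h.hμ v) (h.hμ v'))
      calc d (p v w).1 * e (p v w).2 * (d (p v' w').1 * e (p v' w').2) * (μ v * μ v')
          = lam w * lam w' := by rw [e1, e2]; ring
        _ = lam w' * lam w := h1
        _ = _ := by rw [e3, e4]; ring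
    have hgen := h.gen {(p v w).1, (p v' w').1} {(p v w).2, (p v' w').2}
      {(p v w').1, (p v' w).1} {(p v w').2, (p v' w).2}
      (by rw [card_pair n1, card_pair n2]) (by rw [card_pair n3, card_pair n4])
      (by rw [card_pair n1]; omega) (by rw [card_pair n3]; omega)
      (by
        unfold wt
        rw [prod_pair n1, prod_pair n2, prod_pair n3, prod_pair n4]
        linear_combination hprod)
    have s1 := congrArg (fun s : Finset (Fin m) => (s : Set (Fin m))) hgen.1
    have s2 := congrArg (fun s : Finset (Fin m) => (s : Set (Fin m))) hgen.2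
    simp only [coe_pair] at s1 s2
    rw [Set.pair_eq_pair_iff] at s1 s2
    rcases s1 with ⟨a1, a2⟩ | ⟨a1, a2⟩
    · rcases s2 with ⟨b1, b2⟩ | ⟨b1, b2⟩
      · exact absurd (hpinj v w v w' (Prod.ext a1 b1)).2 hw
      · left
        exact ⟨Prod.ext a1.symm b2.symm, Prod.ext a2.symm b1.symm⟩
    · rcases s2 with ⟨b1, b2⟩ | ⟨b1, b2⟩
      · right
        exact ⟨Prod.ext a2.symm b1.symm, Prod.ext a1.symm b2.symm⟩
      · exact absurd (hpinj v' w' v w' (Prod.ext a2 b2)).1 hv.symm
  have h3 : 2 < Fintype.card {v // v ∉ I} := by omega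
  have hprodsplit : ∀ (σ : Perm (Fin m)) (g : {v // v ∉ I} → ℂ),
      (∀ v : {v // v ∉ I}, E (c σ v) ((F σ).1 v) v = g v) →
      ∏ v, E (c σ v) ((F σ).1 v) v = ∏ v, g v := by
    intro σ g hgv
    rw [← Fintype.prod_subtype_mul_prod_subtype (fun v => v ∉ I)
      (fun v => E (c σ v) ((F σ).1 v) v)]
    have h1 : ∏ v : {v // ¬ v ∉ I}, E (c σ v) ((F σ).1 v) v = 1 := by
      apply prod_eq_one
      intro v _
      have hv : v.1 ∈ I := not_not.1 v.2
      rw [hnone σ v hv, (F σ).2 v v.2, h.hE0]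
      simp [hv]
    rw [h1, mul_one]
    exact prod_congr rfl fun v _ => hgv v
  have hother : ∀ v : {v // v ∉ I}, ∃ v', v ≠ v' := by
    intro v
    obtain ⟨a, b, c, hab, _, _⟩ := Fintype.two_lt_card_iff.1 h3
    by_cases hh : v = a
    · exact ⟨b, by rw [hh]; exact hab⟩
    · exact ⟨a, hh⟩
  have hsignsub : ∀ (σ : Perm (Fin m)) (ζ : Perm {v // v ∉ I}),
      (∀ v : {v // v ∉ I}, (F σ).1 v = ζ v) → Perm.sign (F σ).1 = Perm.sign ζ := by
    intro σ ζ hζ
    rw [← Perm.sign_ofSubtype ζ]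
    congr 1
    apply Equiv.ext
    intro v
    by_cases hv : v ∉ I
    · rw [Perm.ofSubtype_apply_of_mem ζ hv]
      exact hζ ⟨v, hv⟩
    · rw [Perm.ofSubtype_apply_of_not_mem ζ hv]
      exact (F σ).2 v hv
  have hfin : ∀ (γ : Perm (Fin m)) (a : Fin m → Fin m → ℂ),
      (∀ σ : Perm (Fin m), (polyMat E).det.coeff (monPerm σ)
        = ((Perm.sign γ * Perm.sign σ : ℤ) : ℂ) * ∏ i, a i (σ i)) →
      ∃ a : Fin m → Fin m → ℂ, ∀ σ : Perm (Fin m),
      (polyMat E).det.coeff (monPerm σ) = ((Perm.sign σ : ℤ) : ℂ) * ∏ i, a i (σ i) := by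
    intro γ a ha
    obtain ⟨a', ha'⟩ := absorb (by omega : 1 ≤ m) ((Perm.sign γ : ℤ) : ℂ) a
    refine ⟨a', fun σ => ?_⟩
    rw [ha σ, ← ha' σ]
    push_cast
    ring
  rcases rook p h3 hN hT with ⟨α, β, hαβ⟩ | ⟨α, β, hαβ⟩
  · have hα : Function.Injective α := by
      intro v v' heq
      by_contra hne
      obtain ⟨w', hw'⟩ := hother v
      have := (hN v v' v w' hne hw').1
      rw [hαβ, hαβ] at this
      exact this heq
    have hβ : Function.Injective β := by
      intro w w' heq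
      by_contra hne
      obtain ⟨v', hv'⟩ := hother w
      have := (hN w v' w w' hv' hne).2
      rw [hαβ, hαβ] at this
      exact this heq
    let αe : {v // v ∉ I} ≃ Fin m := Equiv.ofBijective α
      ((Fintype.bijective_iff_injective_and_card α).2 ⟨hα, by rw [hcard, Fintype.card_fin]⟩)
    let βe : {v // v ∉ I} ≃ Fin m := Equiv.ofBijective β
      ((Fintype.bijective_iff_injective_and_card β).2 ⟨hβ, by rw [hcard, Fintype.card_fin]⟩)
    have hw : ∀ (σ : Perm (Fin m)) (v : {v // v ∉ I}),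
        (F σ).1 v = βe.symm (σ (αe v)) ∧ c σ v = some (αe v, σ (αe v)) := by
      intro σ v
      have hwI : (F σ).1 v ∉ I := hpres _ (F σ).2 v v.2
      have h1 := hcp σ v ⟨_, hwI⟩ rfl
      rw [hαβ] at h1
      have h2 := (hg σ).graph _ _ h1
      have h4 : βe ⟨_, hwI⟩ = σ (αe v) := h2
      refine ⟨?_, ?_⟩
      · rw [← h4, Equiv.symm_apply_apply]
      · rw [h1, ← h4]
        rfl
    refine hfin (βe.symm.trans αe) (fun i j => E (some (i, j)) (βe.symm j) (αe.symm i)) ?_
    intro σ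
    rw [hcoef σ, hprodsplit σ (fun v => E (some (αe v, σ (αe v))) (βe.symm (σ (αe v))) v)
      (fun v => by rw [(hw σ v).1, (hw σ v).2])]
    have hsg : Perm.sign (F σ).1 = Perm.sign (βe.symm.trans αe) * Perm.sign σ := by
      rw [hsignsub σ (αe.trans (σ.trans βe.symm)) (fun v => (hw σ v).1), ← Perm.sign_mul,
        ← Perm.sign_trans_trans_symm ((βe.symm.trans αe) * σ) αe]
      congr 1
      apply Equiv.ext
      intro v
      simp
    rw [hsg]
    congr 1
    rw [← Equiv.prod_comp αe]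
    refine prod_congr rfl fun v _ => ?_
    rw [Equiv.symm_apply_apply]
  · have hα : Function.Injective α := by
      intro v v' heq
      by_contra hne
      obtain ⟨w', hw'⟩ := hother v
      have := (hN v v' v w' hne hw').2
      rw [hαβ, hαβ] at this
      exact this heq
    have hβ : Function.Injective β := by
      intro w w' heq
      by_contra hne
      obtain ⟨v', hv'⟩ := hother w
      have := (hN w v' w w' hv' hne).1
      rw [hαβ, hαβ] at this
      exact this heq
    let αe : {v // v ∉ I} ≃ Fin m := Equiv.ofBijective α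
      ((Fintype.bijective_iff_injective_and_card α).2 ⟨hα, by rw [hcard, Fintype.card_fin]⟩)
    let βe : {v // v ∉ I} ≃ Fin m := Equiv.ofBijective β
      ((Fintype.bijective_iff_injective_and_card β).2 ⟨hβ, by rw [hcard, Fintype.card_fin]⟩)
    have hw : ∀ (σ : Perm (Fin m)) (v : {v // v ∉ I}),
        (F σ).1 v = βe.symm (σ.symm (αe v)) ∧ c σ v = some (σ.symm (αe v), αe v) := by
      intro σ v
      have hwI : (F σ).1 v ∉ I := hpres _ (F σ).2 v v.2
      have h1 := hcp σ v ⟨_, hwI⟩ rfl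
      rw [hαβ] at h1
      have h2 := (hg σ).graph _ _ h1
      have h4 : αe v = σ (βe ⟨_, hwI⟩) := h2
      have h5 : βe ⟨_, hwI⟩ = σ.symm (αe v) := by rw [h4, Equiv.symm_apply_apply]
      refine ⟨?_, ?_⟩
      · rw [← h5, Equiv.symm_apply_apply]
      · rw [h1, ← h5]
        rfl
    refine hfin (βe.symm.trans αe) (fun i j => E (some (i, j)) (βe.symm i) (αe.symm j)) ?_
    intro σ
    rw [hcoef σ, hprodsplit σ (fun v => E (some (σ.symm (αe v), αe v))
      (βe.symm (σ.symm (αe v))) v) (fun v => by rw [(hw σ v).1, (hw σ v).2])]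
    have hsg : Perm.sign (F σ).1 = Perm.sign (βe.symm.trans αe) * Perm.sign σ := by
      rw [hsignsub σ (αe.trans (σ.symm.trans βe.symm)) (fun v => (hw σ v).1),
        ← Perm.sign_symm σ, ← Perm.sign_mul,
        ← Perm.sign_trans_trans_symm ((βe.symm.trans αe) * σ.symm) αe]
      congr 1
      apply Equiv.ext
      intro v
      simp
    rw [hsg]
    congr 1
    rw [← Equiv.prod_comp (αe.trans σ.symm)]
    refine prod_congr rfl fun v _ => ?_
    simp

theorem Setup.bound (h : Setup d e E I μ lam) (hm : 3 ≤ m) (hv : ∃ v, v ∉ I) : 2 ^ m ≤ n + 1 ∨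
    ∃ a : Fin m → Fin m → ℂ, ∀ σ : Perm (Fin m),
      (polyMat E).det.coeff (monPerm σ) = ((Perm.sign σ : ℤ) : ℂ) * ∏ i, a i (σ i) := by
  obtain ⟨v0, hv0⟩ := hv
  by_cases hone : ∀ v, v ∉ I → v = v0
  · exact Or.inl (h.case_one (by omega) v0 hv0 hone)
  · push Not at hone
    obtain ⟨v1, hv1, hne⟩ := hone
    exact Or.inr (h.dichotomy hm (h.le_card v0 v1 hv0 hv1 hne))

end

end Pool.Agent.Work.MP_35c45d_lc.Torus
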