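import Pool.Agent.Work.MP_35c45d_lc.TorusDefs

set_option autoImplicit false

namespace Pool.Agent.Work.MP_35c45d_lc.Torus

open MvPolynomial Equiv

/-- exponent of the variable (or of the constant 1) -/
noncomputable def mon {m : ℕ} : Option (Fin m × Fin m) → ((Fin m × Fin m) →₀ ℕ)
  | none => 0
  | some p => Finsupp.single p 1

theorem monPerm_apply {m : ℕ} (σ : Perm (Fin m)) (p : Fin m × Fin m) :
    monPerm σ p = if p.2 = σ p.1 then 1 else 0 := by
  unfold monPerm
  rw [Finsupp.finsetSum_apply]
  by_cases h : p.2 = σ p.1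
  · rw [if_pos h, Finset.sum_eq_single p.1]
    · rw [← h]; simp
    · intro i _ hi
      rw [Finsupp.single_apply, if_neg]
      rintro rfl
      exact hi rfl
    · simp
  · rw [if_neg h]
    apply Finset.sum_eq_zero
    intro i _
    rw [Finsupp.single_apply, if_neg]
    rintro rfl
    exact h rfl

theorem monPerm_injective {m : ℕ} : Function.Injective (monPerm (m := m)) := by
  intro σ σ' h
  ext i
  have h1 := congrArg (fun f => f (i, σ i)) h
  simp only [monPerm_apply, if_true] at h1
  by_contra hne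
  rw [if_neg] at h1
  · exact one_ne_zero h1
  · intro h2
    exact hne (congrArg Fin.val h2)

theorem coeff_permPoly {m : ℕ} (σ : Perm (Fin m)) : (permPoly m).coeff (monPerm σ) = 1 := by
  unfold permPoly
  rw [← Matrix.permanent_transpose]
  unfold Matrix.permanent
  rw [coeff_sum]
  have h1 : ∀ τ : Perm (Fin m), (∏ i, (Matrix.of fun i j : Fin m =>
      (X (i, j) : MvPolynomial (Fin m × Fin m) ℂ)).transpose (τ i) i)
      = monomial (monPerm τ) (1 : ℂ) := by
    intro τ
    simp only [Matrix.transpose_apply, Matrix.of_apply, monPerm, monomial_sum_one]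
    rfl
  simp only [h1, coeff_monomial]
  rw [Finset.sum_eq_single σ]
  · simp
  · intro τ _ hτ
    rw [if_neg]
    intro h
    exact hτ (monPerm_injective h)
  · simp

/-- the matrix of polynomials with coefficient matrices `E` -/
noncomputable def polyMat {m n : ℕ} (E : Option (Fin m × Fin m) → Matrix (Fin n) (Fin n) ℂ) :
    PMat m n :=
  Matrix.of fun w v => ∑ o, monomial (mon o) (E o w v)

theorem coeff_det {m n : ℕ} (E : Option (Fin m × Fin m) → Matrix (Fin n) (Fin n) ℂ)
    (s : (Fin m × Fin m) →₀ ℕ) :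
    (polyMat E).det.coeff s = ∑ τ : Perm (Fin n), ((Perm.sign τ : ℤ) : ℂ) *
      ∑ c : Fin n → Option (Fin m × Fin m),
        if ∑ v, mon (c v) = s then ∏ v, E (c v) (τ v) v else 0 := by
  classical
  rw [Matrix.det_apply', coeff_sum]
  refine Finset.sum_congr rfl fun τ _ => ?_
  have h1 : ((Perm.sign τ : ℤ) : MvPolynomial (Fin m × Fin m) ℂ)
      = C ((Perm.sign τ : ℤ) : ℂ) := by simp
  rw [h1, coeff_C_mul]
  congr 1
  have h2 : ∏ v, polyMat E (τ v) v
      = ∑ c : Fin n → Option (Fin m × Fin m),
          monomial (∑ v, mon (c v)) (∏ v, E (c v) (τ v) v) := by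
    unfold polyMat
    simp only [Matrix.of_apply]
    rw [Finset.prod_univ_sum, Fintype.piFinset_univ]
    refine Finset.sum_congr rfl fun c _ => ?_
    rw [monomial_sum_prod]
  rw [h2, coeff_sum]
  refine Finset.sum_congr rfl fun c _ => ?_
  rw [coeff_monomial]

theorem count_mon {m n : ℕ} (c : Fin n → Option (Fin m × Fin m)) (p : Fin m × Fin m) :
    (∑ v, mon (c v)) p = (Finset.univ.filter fun v => c v = some p).card := by
  classical
  rw [Finsupp.finsetSum_apply, Finset.card_filter]
  refine Finset.sum_congr rfl fun v _ => ?_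
  cases h : c v with
  | none => simp [mon]
  | some q =>
    simp only [mon, Finsupp.single_apply, Option.some.injEq]

/-- the data attached to a monomial of the permanent -/
structure Good {m n : ℕ} (σ : Perm (Fin m)) (c : Fin n → Option (Fin m × Fin m)) : Prop where
  graph : ∀ v p, c v = some p → p.2 = σ p.1
  ex : ∀ i, ∃ v, c v = some (i, σ i)
  inj : ∀ v v' p, c v = some p → c v' = some p → v = v'

theorem good_of_sum {m n : ℕ} (σ : Perm (Fin m)) (c : Fin n → Option (Fin m × Fin m))
    (h : ∑ v, mon (c v) = monPerm σ) : Good σ c := by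
  classical
  have h1 : ∀ p, (Finset.univ.filter fun v => c v = some p).card
      = if p.2 = σ p.1 then 1 else 0 := by
    intro p
    rw [← count_mon, h, monPerm_apply]
  refine ⟨?_, ?_, ?_⟩
  · intro v p hv
    by_contra hne
    have h2 := h1 p
    rw [if_neg hne, Finset.card_eq_zero] at h2
    have : v ∈ Finset.univ.filter fun v => c v = some p := by simp [hv]
    rw [h2] at this
    simp at this
  · intro i
    have h2 := h1 (i, σ i)
    rw [if_pos rfl] at h2
    obtain ⟨v, hv⟩ := Finset.card_eq_one.1 h2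
    refine ⟨v, ?_⟩
    have : v ∈ Finset.univ.filter fun v => c v = some (i, σ i) := by rw [hv]; simp
    simpa using this
  · intro v v' p hv hv'
    have h2 : (Finset.univ.filter fun v => c v = some p).card ≤ 1 := by
      rw [h1 p]; split_ifs <;> simp
    exact Finset.card_le_one.1 h2 v (by simp [hv]) v' (by simp [hv'])

theorem exists_good {m n : ℕ} (E : Option (Fin m × Fin m) → Matrix (Fin n) (Fin n) ℂ)
    (σ : Perm (Fin m)) (hcoef : (polyMat E).det.coeff (monPerm σ) ≠ 0) :
    ∃ (τ : Perm (Fin n)) (c : Fin n → Option (Fin m × Fin m)), Good σ c ∧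
      (∑ v, mon (c v) = monPerm σ) ∧ ∀ v, E (c v) (τ v) v ≠ 0 := by
  classical
  rw [coeff_det E (monPerm σ)] at hcoef
  obtain ⟨τ, _, hτ⟩ := Finset.exists_ne_zero_of_sum_ne_zero hcoef
  obtain ⟨c, _, hc⟩ := Finset.exists_ne_zero_of_sum_ne_zero (right_ne_zero_of_mul hτ)
  have h3 : ∑ v, mon (c v) = monPerm σ := by
    by_contra hne
    rw [if_neg hne] at hc
    exact hc rfl
  rw [if_pos h3] at hc
  refine ⟨τ, c, good_of_sum σ c h3, h3, ?_⟩
  intro v
  exact Finset.prod_ne_zero_iff.1 hc v (Finset.mem_univ v)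

/-- If only one pair `(τ, c)` contributes to the monomial of `σ`, the coefficient is this term. -/
theorem coeff_unique {m n : ℕ} (E : Option (Fin m × Fin m) → Matrix (Fin n) (Fin n) ℂ)
    (σ : Perm (Fin m)) (τ : Perm (Fin n)) (c : Fin n → Option (Fin m × Fin m))
    (huniq : ∀ τ' c', Good σ c' → (∀ v, E (c' v) (τ' v) v ≠ 0) → τ' = τ ∧ c' = c)
    (hsum : ∑ v, mon (c v) = monPerm σ) :
    (polyMat E).det.coeff (monPerm σ) = ((Perm.sign τ : ℤ) : ℂ) * ∏ v, E (c v) (τ v) v := by
  classical
  have h0 : ∀ τ' c', (τ' ≠ τ ∨ c' ≠ c) →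
      (if ∑ v, mon (c' v) = monPerm σ then ∏ v, E (c' v) (τ' v) v else 0) = 0 := by
    intro τ' c' hne
    split_ifs with h
    · by_contra hp
      have h2 := huniq τ' c' (good_of_sum σ c' h)
        (fun v => Finset.prod_ne_zero_iff.1 hp v (Finset.mem_univ v))
      rcases hne with h3 | h3
      · exact h3 h2.1
      · exact h3 h2.2
    · rfl
  rw [coeff_det E (monPerm σ), Finset.sum_eq_single τ]
  · congr 1
    rw [Finset.sum_eq_single c]
    · rw [if_pos hsum]
    · intro c' _ hne
      exact h0 τ c' (Or.inr hne)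
    · simp
  · intro τ' _ hne
    rw [Finset.sum_eq_zero, mul_zero]
    intro c' _
    exact h0 τ' c' (Or.inl hne)
  · simp

end Pool.Agent.Work.MP_35c45d_lc.Torus
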