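import Pool.Agent.Work.MP_35c45d_lc.TorusDefs

set_option autoImplicit false

namespace Pool.Agent.Work.MP_35c45d_lc.Torus

open Finset

theorem two_pow_sq_inj {a b : ℕ} (h : ((2 : ℂ) ^ a) ^ 2 = ((2 : ℂ) ^ b) ^ 2) : a = b := by
  rw [← pow_mul, ← pow_mul] at h
  have h1 : (2 : ℕ) ^ (a * 2) = 2 ^ (b * 2) := by exact_mod_cast h
  have h2 := Nat.pow_right_injective (le_refl 2) h1
  omega

/-- the set of exponents attached to a pair of sets -/
def expo {m : ℕ} (S T : Finset (Fin m)) : Finset ℕ :=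
  S.image (fun i : Fin m => (i : ℕ)) ∪ T.image (fun j : Fin m => m + (j : ℕ))

theorem mem_expo_left {m : ℕ} {S T : Finset (Fin m)} (i : Fin m) : (i : ℕ) ∈ expo S T ↔ i ∈ S := by
  unfold expo
  simp only [mem_union, mem_image]
  constructor
  · rintro (⟨a, ha, hai⟩ | ⟨a, _, hai⟩)
    · rwa [← Fin.ext hai]
    · have := i.2
      omega
  · intro h
    exact Or.inl ⟨i, h, rfl⟩

theorem mem_expo_right {m : ℕ} {S T : Finset (Fin m)} (j : Fin m) :
    m + (j : ℕ) ∈ expo S T ↔ j ∈ T := by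
  unfold expo
  simp only [mem_union, mem_image]
  constructor
  · rintro (⟨a, _, hai⟩ | ⟨a, ha, hai⟩)
    · have := a.2
      omega
    · have h1 : a = j := Fin.ext (by omega)
      rwa [← h1]
  · intro h
    exact Or.inr ⟨j, h, rfl⟩

theorem expo_inj {m : ℕ} {S T S' T' : Finset (Fin m)} (h : expo S T = expo S' T') :
    S = S' ∧ T = T' := by
  constructor
  · ext i
    rw [← mem_expo_left (T := T) i, h, mem_expo_left]
  · ext j
    rw [← mem_expo_right (S := S) j, h, mem_expo_right]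

theorem sum_expo {m : ℕ} (S T : Finset (Fin m)) :
    ∑ u ∈ expo S T, 2 ^ u = ∑ i ∈ S, 2 ^ (i : ℕ) + ∑ j ∈ T, 2 ^ (m + (j : ℕ)) := by
  unfold expo
  rw [sum_union, sum_image, sum_image]
  · intro a _ b _ hab
    exact Fin.ext (by simpa using hab)
  · intro a _ b _ hab
    exact Fin.ext hab
  · rw [disjoint_left]
    intro u hu hu'
    rw [mem_image] at hu hu'
    obtain ⟨a, _, rfl⟩ := hu
    obtain ⟨b, _, hb⟩ := hu'
    have := a.2
    omega

/-- A generic pair with product different from `±1`. -/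
theorem exists_generic_ne (m : ℕ) (hm : 1 ≤ m) :
    ∃ d e : Fin m → ℂ, Generic d e ∧ ((∏ i, d i) * ∏ j, e j) ^ 2 ≠ 1 := by
  refine ⟨fun i => 2 ^ (2 ^ (i : ℕ)), fun j => 2 ^ (2 ^ (m + (j : ℕ))), ⟨?_, ?_, ?_⟩, ?_⟩
  · intro i
    exact pow_ne_zero _ two_ne_zero
  · intro j
    exact pow_ne_zero _ two_ne_zero
  · intro S T S' T' _ _ _ _ h
    rw [prod_pow_eq_pow_sum, prod_pow_eq_pow_sum, prod_pow_eq_pow_sum, prod_pow_eq_pow_sum,
      ← pow_add, ← pow_add, ← sum_expo, ← sum_expo] at h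
    exact expo_inj (geomSum_injective (le_refl 2) (two_pow_sq_inj h))
  · rw [prod_pow_eq_pow_sum, prod_pow_eq_pow_sum, ← pow_add, ← sum_expo]
    intro h
    have h1 : ((2 : ℂ) ^ (∑ u ∈ expo (univ : Finset (Fin m)) univ, 2 ^ u)) ^ 2
        = ((2 : ℂ) ^ 0) ^ 2 := by
      rw [h]; simp
    have h2 := two_pow_sq_inj h1
    have h3 : 0 < ∑ u ∈ expo (univ : Finset (Fin m)) univ, 2 ^ u := by
      apply sum_pos
      · intro u _
        positivity
      · exact ⟨(⟨0, hm⟩ : Fin m), (mem_expo_left _).2 (mem_univ _)⟩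
    omega

/-- A generic pair in the symmetry torus of the permanent. -/
theorem exists_generic_one (m : ℕ) (hm : 1 ≤ m) :
    ∃ d e : Fin m → ℂ, Generic d e ∧ (∏ i, d i) * ∏ j, e j = 1 := by
  classical
  let z : Fin m := ⟨m - 1, by omega⟩
  let N : ℕ := ∑ u ∈ expo (univ : Finset (Fin m)) (univ.erase z), 2 ^ u
  let d : Fin m → ℂ := fun i => 2 ^ (2 ^ (i : ℕ))
  let e : Fin m → ℂ := fun j => if j = z then ((2 : ℂ) ^ N)⁻¹ else 2 ^ (2 ^ (m + (j : ℕ)))
  have hN0 : (2 : ℂ) ^ N ≠ 0 := pow_ne_zero _ two_ne_zero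
  have hin : ∀ S T : Finset (Fin m), z ∈ T → (∏ i ∈ S, d i) * ∏ j ∈ T, e j
      = (2 : ℂ) ^ (∑ u ∈ expo S (T.erase z), 2 ^ u) * ((2 : ℂ) ^ N)⁻¹ := by
    intro S T hz
    have h1 : ∏ j ∈ T.erase z, e j = ∏ j ∈ T.erase z, (2 : ℂ) ^ (2 ^ (m + (j : ℕ))) := by
      refine prod_congr rfl fun j hj => ?_
      simp only [e]
      rw [if_neg (mem_erase.1 hj).1]
    have h2 : e z = ((2 : ℂ) ^ N)⁻¹ := by simp [e]
    rw [← mul_prod_erase T e hz, h1, h2, prod_pow_eq_pow_sum, prod_pow_eq_pow_sum, sum_expo,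
      pow_add]
    ring
  have hout : ∀ S T : Finset (Fin m), z ∉ T → (∏ i ∈ S, d i) * ∏ j ∈ T, e j
      = (2 : ℂ) ^ (∑ u ∈ expo S (T.erase z), 2 ^ u) := by
    intro S T hz
    have h1 : ∏ j ∈ T, e j = ∏ j ∈ T, (2 : ℂ) ^ (2 ^ (m + (j : ℕ))) := by
      refine prod_congr rfl fun j hj => ?_
      simp only [e]
      rw [if_neg]
      rintro rfl
      exact hz hj
    rw [h1, prod_pow_eq_pow_sum, prod_pow_eq_pow_sum, erase_eq_of_notMem hz, sum_expo, pow_add]
  have hle : ∀ S T : Finset (Fin m), ∑ u ∈ expo S (T.erase z), 2 ^ u ≤ N := by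
    intro S T
    apply sum_le_sum_of_subset
    intro u hu
    unfold expo at hu ⊢
    rw [mem_union] at hu ⊢
    rcases hu with hu | hu
    · exact Or.inl (image_subset_image (subset_univ _) hu)
    · exact Or.inr (image_subset_image (erase_subset_erase z (subset_univ _)) hu)
  -- the mixed case is impossible
  have hmix : ∀ S T S' T' : Finset (Fin m), S.card < m →
      ((2 : ℂ) ^ (∑ u ∈ expo S (T.erase z), 2 ^ u) * ((2 : ℂ) ^ N)⁻¹) ^ 2
        = ((2 : ℂ) ^ (∑ u ∈ expo S' (T'.erase z), 2 ^ u)) ^ 2 → False := by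
    intro S T S' T' hS h
    rw [mul_pow, inv_pow, mul_inv_eq_iff_eq_mul₀ (pow_ne_zero 2 hN0), ← mul_pow, ← pow_add] at h
    have h1 := two_pow_sq_inj h
    have h2 := hle S T
    have h3 : ∑ u ∈ expo S (T.erase z), 2 ^ u = N := by omega
    have h4 := (expo_inj (geomSum_injective (le_refl 2) h3)).1
    rw [h4] at hS
    simp at hS
  refine ⟨d, e, ⟨?_, ?_, ?_⟩, ?_⟩
  · intro i
    exact pow_ne_zero _ two_ne_zero
  · intro j
    simp only [e]
    split_ifs
    · exact inv_ne_zero hN0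
    · exact pow_ne_zero _ two_ne_zero
  · intro S T S' T' _ _ hS hS' h
    by_cases hz : z ∈ T
    · rw [hin S T hz] at h
      by_cases hz' : z ∈ T'
      · rw [hin S' T' hz', mul_pow, mul_pow] at h
        have h1 := mul_right_cancel₀ (pow_ne_zero 2 (inv_ne_zero hN0)) h
        have h2 := expo_inj (geomSum_injective (le_refl 2) (two_pow_sq_inj h1))
        refine ⟨h2.1, ?_⟩
        rw [← insert_erase hz, ← insert_erase hz', h2.2]
      · rw [hout S' T' hz'] at h
        exact (hmix S T S' T' hS h).elim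
    · rw [hout S T hz] at h
      by_cases hz' : z ∈ T'
      · rw [hin S' T' hz'] at h
        exact (hmix S' T' S T hS' h.symm).elim
      · rw [hout S' T' hz'] at h
        have h2 := expo_inj (geomSum_injective (le_refl 2) (two_pow_sq_inj h))
        refine ⟨h2.1, ?_⟩
        rw [← erase_eq_of_notMem hz, ← erase_eq_of_notMem hz', h2.2]
  · rw [hin univ univ (mem_univ z)]
    exact mul_inv_cancel₀ hN0

end Pool.Agent.Work.MP_35c45d_lc.Torus
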