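import Pool.Agent.Work.MP_35c45d_lc.TorusPerm

set_option autoImplicit false

namespace Pool.Agent.Work.MP_35c45d_lc.Torus

open Finset MvPolynomial

/-- proper subsets -/
abbrev K (q : ℕ) : Type := {S : Finset (Fin (q + 1)) // S ≠ univ}

theorem empty_ne_univ (q : ℕ) : (∅ : Finset (Fin (q + 1))) ≠ univ := by
  intro h
  have := congrArg Finset.card h
  simp at this

/-- the empty set as a vertex -/
def kz (q : ℕ) : K q := ⟨∅, empty_ne_univ q⟩

/-- identify the full set with the empty set -/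
def kpi {q : ℕ} (S : Finset (Fin (q + 1))) : K q := if h : S = univ then kz q else ⟨S, h⟩

theorem kpi_univ {q : ℕ} : kpi (univ : Finset (Fin (q + 1))) = kz q := by simp [kpi]

theorem kpi_of_ne {q : ℕ} {S : Finset (Fin (q + 1))} (h : S ≠ univ) : kpi S = ⟨S, h⟩ := by
  simp [kpi, h]

/-- the row used at the vertex `S` -/
def rw' {q : ℕ} (S : Finset (Fin (q + 1))) : Fin (q + 1) := Fin.ofNat (q + 1) (q - S.card)

abbrev P (q : ℕ) : Type := MvPolynomial (Fin (q + 1) × Fin (q + 1)) ℂ

/-- Grenet's matrix. -/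
noncomputable def gr (q : ℕ) : Matrix (K q) (K q) (P q) := Matrix.of fun S T =>
  C (if S.1 = ∅ then (-1) ^ q else 1) *
    (∑ j, if j ∉ S.1 ∧ kpi (insert j S.1) = T then X (rw' S.1, j) else 0) +
  (if S = T ∧ S.1 ≠ ∅ then 1 else 0)

/-- partial permanents -/
noncomputable def pf (q l : ℕ) (S : Finset (Fin (q + 1))) : P q :=
  pperm (fun l (j : Fin (q + 1)) => (X (Fin.ofNat (q + 1) l, j) : P q)) l S

/-- signed partial permanents -/
noncomputable def yh {q : ℕ} (S : Finset (Fin (q + 1))) : P q :=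
  (-1) ^ (q + 1 - S.card) * pf q (q + 1 - S.card) S

theorem card_le_of_ne {q : ℕ} {S : Finset (Fin (q + 1))} (h : S ≠ univ) : S.card ≤ q := by
  have := card_lt_card (ssubset_univ_iff.2 h)
  simp at this
  omega

theorem yh_rec {q : ℕ} {S : Finset (Fin (q + 1))} (h : S ≠ univ) :
    yh S = - ∑ j ∈ Sᶜ, X (rw' S, j) * yh (insert j S) := by
  have hq := card_le_of_ne h
  unfold yh
  have h1 : q + 1 - S.card = (q - S.card) + 1 := by omega
  rw [h1, pf, pperm, mul_sum, ← sum_neg_distrib]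
  refine sum_congr rfl fun j hj => ?_
  rw [card_insert_of_notMem (mem_compl.1 hj)]
  have h2 : q + 1 - (S.card + 1) = q - S.card := by omega
  rw [h2, pow_succ]
  unfold rw' pf
  ring

theorem yh_univ {q : ℕ} : yh (univ : Finset (Fin (q + 1))) = 1 := by
  unfold yh
  simp [pf, pperm]

/-- the vector -/
noncomputable def yv {q : ℕ} (S : K q) : P q := if S = kz q then 1 else yh S.1

theorem yv_kpi {q : ℕ} {S : Finset (Fin (q + 1))} (h : S ≠ ∅) : yv (kpi S) = yh S := by
  by_cases hS : S = univ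
  · subst hS
    rw [kpi_univ, yh_univ]
    simp [yv]
  · rw [kpi_of_ne hS]
    unfold yv
    rw [if_neg]
    intro h2
    exact h (congrArg Subtype.val h2)

theorem gr_mulVec {q : ℕ} (S : K q) :
    ((gr q).mulVec yv) S = C (if S.1 = ∅ then (-1) ^ q else 1) *
      (∑ j ∈ S.1ᶜ, X (rw' S.1, j) * yh (insert j S.1)) + (if S.1 ≠ ∅ then yv S else 0) := by
  classical
  rw [Matrix.mulVec]
  unfold dotProduct
  simp only [gr, Matrix.of_apply, add_mul, sum_add_distrib]
  congr 1
  · simp only [mul_assoc, ← mul_sum]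
    congr 1
    simp only [sum_mul]
    rw [sum_comm]
    rw [← sum_subset (subset_univ S.1ᶜ)]
    · refine sum_congr rfl fun j hj => ?_
      rw [mem_compl] at hj
      rw [sum_eq_single (kpi (insert j S.1))]
      · rw [if_pos ⟨hj, rfl⟩, yv_kpi (insert_ne_empty _ _)]
      · intro T _ hT
        rw [if_neg, zero_mul]
        rintro ⟨_, h⟩
        exact hT h.symm
      · simp
    · intro j _ hj
      rw [mem_compl, not_not] at hj
      apply sum_eq_zero
      intro T _
      rw [if_neg (fun h => h.1 hj), zero_mul]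
  · rw [sum_eq_single S]
    · by_cases h : S.1 ≠ ∅
      · rw [if_pos ⟨rfl, h⟩, if_pos h, one_mul]
      · rw [if_neg h, if_neg (fun hh => h hh.2), zero_mul]
    · intro T _ hT
      rw [if_neg, zero_mul]
      rintro ⟨h, _⟩
      exact hT h.symm
    · simp

theorem gr_mulVec_eq {q : ℕ} :
    (gr q).mulVec yv = Pi.single (kz q) (permPoly (q + 1)) := by
  classical
  funext S
  rw [gr_mulVec]
  by_cases hS : S = kz q
  · subst hS
    have h1 : (kz q).1 = ∅ := rfl
    have h2 := yh_rec (S := (kz q).1) (kz q).2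
    have h3 : ∑ j ∈ (kz q).1ᶜ, X (rw' (kz q).1, j) * yh (insert j (kz q).1) = - yh (kz q).1 := by
      rw [h2, neg_neg]
    rw [h3, Pi.single_eq_same, if_pos h1, if_neg (fun h => h h1), h1, add_zero]
    unfold yh
    rw [card_empty, Nat.sub_zero, pf, pperm_full, map_pow, map_neg, map_one, pow_succ]
    have h4 : ((-1 : P q) ^ q) * ((-1) ^ q) = 1 := by
      rw [← mul_pow]; simp
    linear_combination (permPoly (q + 1)) * h4
  · have h1 : S.1 ≠ ∅ := fun h => hS (Subtype.ext h)
    have h2 := yh_rec S.2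
    rw [if_neg h1, if_pos h1, Pi.single_eq_of_ne hS, yv, if_neg hS, h2, map_one, one_mul]
    ring

theorem gr_lower {q : ℕ} (S T : K q) (hT : T ≠ kz q) (h : T.1.card ≤ S.1.card) :
    gr q S T = if S = T then 1 else 0 := by
  classical
  unfold gr
  rw [Matrix.of_apply, sum_eq_zero, mul_zero, zero_add]
  · by_cases hST : S = T
    · subst hST
      have h1 : S.1 ≠ ∅ := fun h => hT (Subtype.ext h)
      simp [h1]
    · simp [hST]
  · intro j _
    rw [if_neg]
    rintro ⟨hj, hjT⟩
    by_cases hu : insert j S.1 = univ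
    · rw [hu, kpi_univ] at hjT
      exact hT hjT.symm
    · rw [kpi_of_ne hu] at hjT
      have : T.1 = insert j S.1 := by rw [← hjT]
      rw [this, card_insert_of_notMem hj] at h
      omega

theorem det_updateCol {q : ℕ} :
    ((gr q).updateCol (kz q) (Pi.single (kz q) 1)).det = 1 := by
  classical
  set M := (gr q).updateCol (kz q) (Pi.single (kz q) 1) with hM
  have hlow : ∀ S T : K q, T.1.card ≤ S.1.card → M S T = if S = T then 1 else 0 := by
    intro S T h
    rw [hM, Matrix.updateCol_apply]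
    by_cases hT : T = kz q
    · rw [if_pos hT, Pi.single_apply, hT]
    · rw [if_neg hT, gr_lower S T hT h]
  have htri : Matrix.BlockTriangular M (fun S : K q => S.1.card) := by
    intro S T h
    rw [hlow S T h.le, if_neg]
    rintro rfl
    exact lt_irrefl _ h
  rw [htri.det]
  apply prod_eq_one
  intro a _
  have : M.toSquareBlock (fun S : K q => S.1.card) a = 1 := by
    refine Matrix.ext fun S T => ?_
    rw [Matrix.toSquareBlock_def, Matrix.of_apply, hlow S.1 T.1 (by rw [S.2, T.2]),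
      Matrix.one_apply]
    simp only [Subtype.ext_iff]
  rw [this, Matrix.det_one]

theorem det_gr (q : ℕ) : (gr q).det = permPoly (q + 1) := by
  classical
  have h1 : Matrix.cramer (gr q) ((gr q).mulVec yv) (kz q) = (gr q).det := by
    rw [Matrix.cramer_eq_adjugate_mulVec, Matrix.mulVec_mulVec, Matrix.adjugate_mul,
      Matrix.smul_mulVec, Matrix.one_mulVec, Pi.smul_apply, smul_eq_mul]
    simp [yv]
  rw [← h1, gr_mulVec_eq]
  have h2 : (Pi.single (kz q) (permPoly (q + 1)) : K q → P q)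
      = (permPoly (q + 1)) • (Pi.single (kz q) 1 : K q → P q) := by
    rw [← Pi.single_smul, smul_eq_mul, mul_one]
  rw [h2, map_smul, Pi.smul_apply, Matrix.cramer_apply, det_updateCol, smul_eq_mul, mul_one]

theorem totalDegree_gr {q : ℕ} (S T : K q) : (gr q S T).totalDegree ≤ 1 := by
  classical
  unfold gr
  rw [Matrix.of_apply]
  refine (totalDegree_add _ _).trans (max_le ?_ ?_)
  · refine (totalDegree_mul _ _).trans ?_
    rw [totalDegree_C, zero_add]
    refine totalDegree_finsetSum_le fun j _ => ?_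
    split_ifs
    · simp
    · simp
  · split_ifs
    · simp
    · simp

/-- weights of the vertices -/
noncomputable def ph {q : ℕ} (d e : Fin (q + 1) → ℂ) (S : Finset (Fin (q + 1))) : ℂ :=
  (∏ k ∈ range S.card, d (Fin.ofNat (q + 1) (q - k))) * ∏ j ∈ S, e j

theorem ph_insert {q : ℕ} (d e : Fin (q + 1) → ℂ) {S : Finset (Fin (q + 1))} {j : Fin (q + 1)}
    (hj : j ∉ S) : ph d e (insert j S) = ph d e S * (d (rw' S) * e j) := by
  unfold ph rw'
  rw [card_insert_of_notMem hj, prod_range_succ, prod_insert hj]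
  ring

theorem ph_ne {q : ℕ} {d e : Fin (q + 1) → ℂ} (hd : ∀ i, d i ≠ 0) (he : ∀ j, e j ≠ 0)
    (S : Finset (Fin (q + 1))) : ph d e S ≠ 0 :=
  mul_ne_zero (prod_ne_zero_iff.2 fun _ _ => hd _) (prod_ne_zero_iff.2 fun _ _ => he _)

/-- column weights -/
noncomputable def ps {q : ℕ} (d e : Fin (q + 1) → ℂ) (T : K q) : ℂ :=
  if T = kz q then ph d e univ else ph d e T.1

theorem ps_ne {q : ℕ} {d e : Fin (q + 1) → ℂ} (hd : ∀ i, d i ≠ 0) (he : ∀ j, e j ≠ 0)
    (T : K q) : ps d e T ≠ 0 := by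
  unfold ps
  split_ifs
  · exact ph_ne hd he _
  · exact ph_ne hd he _

theorem ps_kpi {q : ℕ} (d e : Fin (q + 1) → ℂ) {S : Finset (Fin (q + 1))} (h : S ≠ ∅) :
    ps d e (kpi S) = ph d e S := by
  by_cases hS : S = univ
  · subst hS
    rw [kpi_univ]
    simp [ps]
  · rw [kpi_of_ne hS]
    unfold ps
    rw [if_neg]
    intro h2
    exact h (congrArg Subtype.val h2)

theorem rescale_gr {q : ℕ} (d e : Fin (q + 1) → ℂ) (hd : ∀ i, d i ≠ 0) (he : ∀ j, e j ≠ 0)
    (S T : K q) : rescale d e (gr q S T) = C (ph d e S.1)⁻¹ * gr q S T * C (ps d e T) := by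
  classical
  unfold gr
  rw [Matrix.of_apply, map_add, mul_add, add_mul]
  congr 1
  · rw [map_mul, map_sum]
    have h1 : ∀ a : ℂ, rescale d e (C a) = C a := by
      intro a
      rw [rescale, aeval_C]
      rfl
    rw [h1]
    have h2 : ∀ j, rescale d e (if j ∉ S.1 ∧ kpi (insert j S.1) = T then X (rw' S.1, j) else 0)
        = C (ph d e S.1)⁻¹ * (if j ∉ S.1 ∧ kpi (insert j S.1) = T then X (rw' S.1, j) else 0)
          * C (ps d e T) := by
      intro j
      split_ifs with h
      · rw [rescale, aeval_X, ← h.2, ps_kpi d e (insert_ne_empty _ _), ph_insert d e h.1]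
        have h3 := ph_ne hd he S.1
        have h4 : C (ph d e S.1)⁻¹ * (X (rw' S.1, j) : P q)
            * C (ph d e S.1 * (d (rw' S.1) * e j))
            = C ((ph d e S.1)⁻¹ * (ph d e S.1 * (d (rw' S.1) * e j))) * X (rw' S.1, j) := by
          rw [C_mul (a := (ph d e S.1)⁻¹)]
          ring
        rw [h4, ← mul_assoc, inv_mul_cancel₀ h3, one_mul]
      · simp
    rw [sum_congr rfl (fun j _ => h2 j), ← sum_mul, ← mul_sum]
    ring
  · by_cases h : S = T ∧ S.1 ≠ ∅
    · rw [if_pos h, map_one, mul_one, ← C_mul]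
      obtain ⟨rfl, h2⟩ := h
      have h3 : S ≠ kz q := fun hh => h2 (congrArg Subtype.val hh)
      rw [ps, if_neg h3, inv_mul_cancel₀ (ph_ne hd he _), C_1]
    · rw [if_neg h]
      simp

theorem card_K (q : ℕ) : Fintype.card (K q) = 2 ^ (q + 1) - 1 := by
  classical
  have h1 : Fintype.card {S : Finset (Fin (q + 1)) // ¬ S = univ} = 2 ^ (q + 1) - 1 := by
    rw [Fintype.card_subtype_compl, Fintype.card_finset, Fintype.card_fin,
      Fintype.card_subtype_eq]
  exact h1

theorem equivariantAt_of_diag {m n : ℕ} (A : PMat m n) (d e : Fin m → ℂ) (a b : Fin n → ℂ)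
    (ha : ∀ i, a i ≠ 0) (hb : ∀ i, b i ≠ 0)
    (h : ∀ i j, rescale d e (A i j) = C (a i) * A i j * C (b j)) :
    ∃ G H : GL (Fin n) ℂ, A.map (rescale d e) = (G : Matrix (Fin n) (Fin n) ℂ).map C * A *
        (H : Matrix (Fin n) (Fin n) ℂ).map C := by
  classical
  have hdet : ∀ c : Fin n → ℂ, (∀ i, c i ≠ 0) → (Matrix.diagonal c).det ≠ 0 := by
    intro c hc
    rw [Matrix.det_diagonal]
    exact prod_ne_zero_iff.2 fun i _ => hc i
  refine ⟨Matrix.GeneralLinearGroup.mkOfDetNeZero (Matrix.diagonal a) (hdet a ha),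
    Matrix.GeneralLinearGroup.mkOfDetNeZero (Matrix.diagonal b) (hdet b hb), ?_⟩
  refine Matrix.ext fun i j => ?_
  have h1 : ((Matrix.GeneralLinearGroup.mkOfDetNeZero (Matrix.diagonal a) (hdet a ha) :
      GL (Fin n) ℂ) : Matrix (Fin n) (Fin n) ℂ) = Matrix.diagonal a := rfl
  have h2 : ((Matrix.GeneralLinearGroup.mkOfDetNeZero (Matrix.diagonal b) (hdet b hb) :
      GL (Fin n) ℂ) : Matrix (Fin n) (Fin n) ℂ) = Matrix.diagonal b := rfl
  rw [h1, h2, Matrix.diagonal_map (map_zero _), Matrix.diagonal_map (map_zero _),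
    Matrix.mul_diagonal, Matrix.diagonal_mul, Matrix.map_apply, h]

/-- Attainment. -/
theorem grenet (m : ℕ) (hm : 1 ≤ m) : ∃ A : PMat m (2 ^ m - 1), IsRep A ∧
    ∀ d e : Fin m → ℂ, (∀ i, d i ≠ 0) → (∀ j, e j ≠ 0) →
      ∃ G H : GL (Fin (2 ^ m - 1)) ℂ, A.map (rescale d e) =
        (G : Matrix (Fin (2 ^ m - 1)) (Fin (2 ^ m - 1)) ℂ).map C * A *
        (H : Matrix (Fin (2 ^ m - 1)) (Fin (2 ^ m - 1)) ℂ).map C := by
  classical
  obtain ⟨q, rfl⟩ : ∃ q, m = q + 1 := ⟨m - 1, by omega⟩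
  let ε : K q ≃ Fin (2 ^ (q + 1) - 1) := Fintype.equivFinOfCardEq (card_K q)
  refine ⟨(gr q).submatrix ε.symm ε.symm, ⟨fun i j => totalDegree_gr _ _, ?_⟩, ?_⟩
  · rw [Matrix.det_submatrix_equiv_self, det_gr]
  · intro d e hd he
    refine equivariantAt_of_diag _ d e (fun i => (ph d e (ε.symm i).1)⁻¹)
      (fun j => ps d e (ε.symm j)) (fun i => inv_ne_zero (ph_ne hd he _))
      (fun j => ps_ne hd he _) ?_
    intro i j
    exact rescale_gr d e hd he _ _

end Pool.Agent.Work.MP_35c45d_lc.Torus
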