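import Pool.Agent.Work.MP_35c45d_lc.TorusCore

set_option autoImplicit false

namespace Pool.Agent.Work.MP_35c45d_lc.Torus

open MvPolynomial Equiv Finset

section

variable {m n : ℕ} {d e : Fin m → ℂ} {E : Option (Fin m × Fin m) → Matrix (Fin n) (Fin n) ℂ}
  {I : Finset (Fin n)} {μ lam : Fin n → ℂ}

/-- If the constant part is invertible, follow the cycle through a vertex carrying a variable. -/
theorem Setup.cycle (h : Setup d e E I μ lam) (hall : ∀ v, v ∈ I) (σ : Perm (Fin m))
    (τ : Perm (Fin n)) (c : Fin n → Option (Fin m × Fin m)) (hg : Good σ c)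
    (hc : ∀ v, E (c v) (τ v) v ≠ 0) (v0 : Fin n) (hv0 : c v0 ≠ none) (k : ℕ) (hk1 : 1 ≤ k)
    (hkm : k < m) : ∃ S : Finset (Fin m), S.card = k ∧
      μ ((τ ^ k) v0) = wt d e S (S.map σ.toEmbedding) * μ v0 := by
  classical
  obtain ⟨j, S, h1, h2, h3, h4, h5, h6⟩ := Torus.walk τ (fun v => (c v).map Prod.fst)
    (univ.erase v0) μ lam (fun i => d i * e (σ i))
    (by
      intro v v' i hv hv'
      exact hg.inj v v' _ (map_fst_some hg hv) (map_fst_some hg hv'))
    (by
      intro v hv
      have hv2 : c v = none := by simpa using hv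
      have := hc v
      rw [hv2] at this
      refine ⟨?_, (h.none_mem this).2⟩
      rw [mem_erase]
      refine ⟨?_, mem_univ _⟩
      rintro rfl
      exact hv0 hv2)
    (by
      intro v i hv
      have hv2 := map_fst_some hg hv
      have := hc v
      rw [hv2] at this
      exact h.hE1 _ _ _ this)
    (fun v _ => h.hI v (hall v)) v0 (by simp)
  have hjv : (τ ^ j) v0 = v0 := by simpa using h2
  have hjm : j ≤ m := by
    have := h4 j le_rfl
    rw [← this]
    exact (card_le_univ _).trans (by simp)
  have h7 := h5 j h1 le_rfl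
  rw [hjv, h.hI v0 (hall v0), prod_t] at h7
  have h8 : wt d e (S j) ((S j).map σ.toEmbedding) = 1 :=
    mul_right_cancel₀ (h.hμ v0) (h7.symm.trans (one_mul _).symm)
  have hjm2 : j = m := by
    by_contra hne
    have h9 := h.gen (S j) ((S j).map σ.toEmbedding) ∅ ∅ (by simp) rfl
      (by rw [h4 j le_rfl]; omega) (by simp; omega) (by rw [h8]; simp [wt])
    have h10 := h4 j le_rfl
    rw [h9.1] at h10
    simp at h10
    omega
  refine ⟨S k, h4 k (by omega), ?_⟩
  have h11 := h5 k hk1 (by omega)
  rw [h.hI _ (hall _), prod_t] at h11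
  exact h11

/-- The bound in the case of an invertible constant part. -/
theorem Setup.bound_zero (h : Setup d e E I μ lam) (hm : 1 ≤ m) (hall : ∀ v, v ∈ I) :
    m * (2 ^ m - 2) ≤ n * (n - 1) := by
  classical
  have hdata : ∀ σ : Perm (Fin m), ∃ (τ : Perm (Fin n)) (c : Fin n → Option (Fin m × Fin m)),
      Good σ c ∧ (∑ v, mon (c v) = monPerm σ) ∧ ∀ v, E (c v) (τ v) v ≠ 0 :=
    fun σ => exists_good E σ (h.coef σ)
  choose τf cf hgf _ hcf using hdata
  choose u hu using fun σ => (hgf σ).ex
  let Pk : ℕ → Finset (Fin n × Fin n) := fun k => univ.filter (fun x =>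
    ∃ S T : Finset (Fin m), S.card = k ∧ T.card = k ∧ μ x.2 = wt d e S T * μ x.1)
  have hkey : ∀ k, 1 ≤ k → k < m → ∀ (σ : Perm (Fin m)) (i : Fin m),
      ∃ S : Finset (Fin m), S.card = k ∧
      μ ((τf σ ^ k) (u σ i)) = wt d e S (S.map σ.toEmbedding) * μ (u σ i) := by
    intro k hk1 hkm σ i
    refine h.cycle hall σ (τf σ) (cf σ) (hgf σ) (hcf σ) (u σ i) ?_ k hk1 hkm
    rw [hu]
    simp
  have hcount : ∀ k ∈ Ico 1 m, m * m.choose k ≤ (Pk k).card := by
    intro k hk
    rw [mem_Ico] at hk
    choose S hS1 hS2 using hkey k hk.1 hk.2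
    let f : Perm (Fin m) × Fin m → Fin n × Fin n := fun x =>
      (u x.1 x.2, (τf x.1 ^ k) (u x.1 x.2))
    have hfm : ∀ x ∈ (univ : Finset (Perm (Fin m) × Fin m)), f x ∈ Pk k := by
      intro x _
      simp only [Pk, mem_filter, mem_univ, true_and]
      exact ⟨S x.1 x.2, (S x.1 x.2).map x.1.toEmbedding, hS1 _ _,
        by rw [card_map, hS1], hS2 _ _⟩
    have hfib : ∀ y ∈ Pk k, ((univ : Finset (Perm (Fin m) × Fin m)).filter
        (fun x => f x = y)).card ≤ k.factorial * (m - k).factorial := by
      intro y _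
      rcases ((univ : Finset (Perm (Fin m) × Fin m)).filter
        (fun x => f x = y)).eq_empty_or_nonempty with h0 | ⟨x0, h0⟩
      · rw [h0]; simp
      rw [mem_filter] at h0
      have h1 : ∀ x, f x = y → (S x0.1 x0.2).map x.1.toEmbedding
          = (S x0.1 x0.2).map x0.1.toEmbedding := by
        intro x hx
        have e1 := hS2 x.1 x.2
        have e2 := hS2 x0.1 x0.2
        have e3 : f x = f x0 := hx.trans h0.2.symm
        have e4 : u x.1 x.2 = u x0.1 x0.2 := congrArg Prod.fst e3
        have e5 : (τf x.1 ^ k) (u x.1 x.2) = (τf x0.1 ^ k) (u x0.1 x0.2) :=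
          congrArg Prod.snd e3
        rw [e5, e4, e2] at e1
        have e6 := mul_right_cancel₀ (h.hμ _) e1
        have e7 := h.gen _ _ _ _ (by simp) (by simp) (by rw [hS1]; exact hk.2)
          (by rw [hS1]; exact hk.2) e6
        rw [e7.2, ← e7.1]
      have h2 : ((univ : Finset (Perm (Fin m) × Fin m)).filter (fun x => f x = y)).card
          ≤ (univ.filter (fun σ : Perm (Fin m) => (S x0.1 x0.2).map σ.toEmbedding
            = (S x0.1 x0.2).map x0.1.toEmbedding)).card := by
        refine card_le_card_of_injOn Prod.fst ?_ ?_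
        · intro x hx
          have hx2 := (mem_filter.1 hx).2
          exact mem_filter.2 ⟨mem_univ _, h1 x hx2⟩
        · intro x hx x' hx' hxx
          have hx2 := (mem_filter.1 hx).2
          have hx3 := (mem_filter.1 hx').2
          have e4 : u x.1 x.2 = u x'.1 x'.2 := congrArg Prod.fst (hx2.trans hx3.symm)
          have hxx' : x.1 = x'.1 := hxx
          refine Prod.ext hxx' ?_
          have e8 := hu x.1 x.2
          rw [e4, hxx', hu x'.1 x'.2] at e8
          have e9 := congrArg (Option.map Prod.fst) e8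
          simpa using e9.symm
      refine h2.trans ((card_map_le _ _).trans ?_)
      rw [hS1]
    have h1 := card_eq_sum_card_fiberwise (s := (univ : Finset (Perm (Fin m) × Fin m)))
      (t := Pk k) (f := f) (fun x hx => hfm x hx)
    have h2 : (univ : Finset (Perm (Fin m) × Fin m)).card
        ≤ (Pk k).card * (k.factorial * (m - k).factorial) := by
      rw [h1]
      refine (sum_le_sum hfib).trans ?_
      rw [sum_const, smul_eq_mul]
    rw [card_univ, Fintype.card_prod, Fintype.card_perm, Fintype.card_fin,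
      ← Nat.choose_mul_factorial_mul_factorial hk.2.le] at h2
    have h3 : m * m.choose k * (k.factorial * (m - k).factorial)
        ≤ (Pk k).card * (k.factorial * (m - k).factorial) := by
      calc m * m.choose k * (k.factorial * (m - k).factorial)
          = m.choose k * k.factorial * (m - k).factorial * m := by ring
        _ ≤ _ := h2
    exact Nat.le_of_mul_le_mul_right h3 (by positivity)
  have hsum : ∑ k ∈ Ico 1 m, m * m.choose k ≤ (univ : Finset (Fin n)).offDiag.card := by
    refine (sum_le_sum hcount).trans ?_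
    rw [← card_biUnion]
    · apply card_le_card
      intro x hx
      rw [mem_biUnion] at hx
      obtain ⟨k, hk, hxk⟩ := hx
      rw [mem_Ico] at hk
      simp only [Pk, mem_filter, mem_univ, true_and] at hxk
      obtain ⟨S, T, hS, hT, hST⟩ := hxk
      rw [mem_offDiag]
      refine ⟨mem_univ _, mem_univ _, ?_⟩
      intro heq
      rw [← heq] at hST
      have h1 : wt d e S T = 1 := mul_right_cancel₀ (h.hμ x.1) (hST.symm.trans (one_mul _).symm)
      have h2 := h.gen S T ∅ ∅ (by rw [hS, hT]) rfl (by omega) (by simp; omega)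
        (by rw [h1]; simp [wt])
      rw [h2.1] at hS
      simp at hS
      omega
    · intro a ha b hb hab
      rw [Function.onFun, disjoint_left]
      intro x hx hx'
      simp only [Pk, mem_filter, mem_univ, true_and] at hx hx'
      obtain ⟨S, T, hS, hT, hST⟩ := hx
      obtain ⟨S', T', hS', hT', hST'⟩ := hx'
      rw [hST'] at hST
      have h1 := mul_right_cancel₀ (h.hμ x.1) hST
      have ha2 := mem_Ico.1 ha
      have hb2 := mem_Ico.1 hb
      have h2 := h.gen S' T' S T (by rw [hS', hT']) (by rw [hS, hT]) (by omega) (by omega) h1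
      rw [h2.1, hS] at hS'
      exact hab hS'
  have h3 : ∑ k ∈ Ico 1 m, m.choose k = 2 ^ m - 2 := by
    have h4 := Nat.sum_range_choose m
    rw [sum_range_succ, range_eq_Ico, sum_eq_sum_Ico_succ_bot (by omega)] at h4
    simp only [Nat.choose_zero_right, Nat.choose_self, zero_add] at h4
    omega
  rw [← mul_sum, h3, offDiag_card, card_univ, Fintype.card_fin] at hsum
  rwa [Nat.mul_sub_one]

end

end Pool.Agent.Work.MP_35c45d_lc.Torus
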