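import Pool.Agent.Work.MP_35c45d_lc.TorusNormal
import Pool.Agent.Work.MP_35c45d_lc.TorusDich
import Pool.Agent.Work.MP_35c45d_lc.TorusZero

set_option autoImplicit false

namespace Pool.Agent.Work.MP_35c45d_lc.Torus

open MvPolynomial Equiv Finset

/-- A polynomial of total degree at most one is its affine part. -/
theorem affine_eq {m : ℕ} (p : MvPolynomial (Fin m × Fin m) ℂ) (h : p.totalDegree ≤ 1) :
    p = ∑ o, monomial (mon o) (p.coeff (mon o)) := by
  classical
  ext s
  rw [coeff_sum]
  simp only [coeff_monomial]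
  by_cases hs : ∃ o, mon o = s
  · obtain ⟨o, rfl⟩ := hs
    rw [sum_eq_single o]
    · simp
    · intro o' _ ho'
      rw [if_neg]
      intro hoo
      apply ho'
      cases o with
      | none =>
        cases o' with
        | none => rfl
        | some q =>
          have := congrArg (fun f => f q) hoo
          simp [mon] at this
      | some q =>
        cases o' with
        | none =>
          have := congrArg (fun f => f q) hoo
          simp [mon] at this
        | some q' =>
          rw [Finsupp.single_left_injective one_ne_zero hoo]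
    · simp
  · push Not at hs
    rw [sum_eq_zero (fun o _ => if_neg (hs o))]
    apply coeff_eq_zero_of_totalDegree_lt
    refine lt_of_le_of_lt h ?_
    by_contra hlt
    push Not at hlt
    obtain ⟨t, ht⟩ : ∃ t, s t ≠ 0 := by
      by_contra hc
      push Not at hc
      exact hs none (Finsupp.ext fun a => (hc a).symm)
    have hts : t ∈ s.support := by simpa using ht
    have h2 := Finset.add_sum_erase s.support (fun i => s i) hts
    apply hs (some t)
    ext b
    by_cases hb : b = t
    · subst hb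
      simp only [mon, Finsupp.single_eq_same]
      omega
    · simp only [mon]
      rw [Finsupp.single_eq_of_ne hb]
      by_cases hbs : s b = 0
      · exact hbs.symm
      · have hb2 : b ∈ s.support.erase t := by
          simp [hb, hbs]
        have h3 := Finset.single_le_sum (f := fun i => s i) (fun i _ => Nat.zero_le _) hb2
        omega

/-- coefficient matrices -/
noncomputable def cf {m n : ℕ} (A : PMat m n) (o : Option (Fin m × Fin m)) :
    Matrix (Fin n) (Fin n) ℂ := A.map (coeff (mon o))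

theorem polyMat_cf {m n : ℕ} (A : PMat m n) (hA : ∀ i j, (A i j).totalDegree ≤ 1) :
    polyMat (cf A) = A := by
  refine Matrix.ext fun w v => ?_
  exact (affine_eq (A w v) (hA w v)).symm

theorem polyMat_mul {m n : ℕ} (E : Option (Fin m × Fin m) → Matrix (Fin n) (Fin n) ℂ)
    (P Q : Matrix (Fin n) (Fin n) ℂ) :
    polyMat (fun o => P * E o * Q) = P.map C * polyMat E * Q.map C := by
  refine Matrix.ext fun w v => ?_
  simp only [polyMat, Matrix.of_apply, Matrix.mul_apply, Matrix.map_apply, map_sum,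
    Finset.sum_mul, Finset.mul_sum]
  rw [sum_comm]
  refine sum_congr rfl fun a _ => ?_
  rw [sum_comm]
  refine sum_congr rfl fun b _ => ?_
  refine sum_congr rfl fun o _ => ?_
  rw [C_mul_monomial, mul_comm _ (C _), C_mul_monomial]
  congr 1
  ring

theorem cf_mul {m n : ℕ} (A : PMat m n) (P Q : Matrix (Fin n) (Fin n) ℂ)
    (o : Option (Fin m × Fin m)) :
    cf (P.map C * A * Q.map C) o = P * cf A o * Q := by
  refine Matrix.ext fun w v => ?_
  simp only [cf, Matrix.map_apply, Matrix.mul_apply, coeff_sum, Finset.sum_mul, mul_comm _ (C _)]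
  refine sum_congr rfl fun a _ => ?_
  rw [coeff_C_mul, coeff_sum, mul_sum]
  refine sum_congr rfl fun b _ => ?_
  rw [coeff_C_mul]
  ring

theorem rescale_monomial {m : ℕ} (d e : Fin m → ℂ) (o : Option (Fin m × Fin m)) (a : ℂ) :
    rescale d e (monomial (mon o) a)
      = monomial (mon o) ((match o with | none => 1 | some p => d p.1 * e p.2) * a) := by
  cases o with
  | none =>
    simp only [mon, one_mul]
    have : (monomial (0 : (Fin m × Fin m) →₀ ℕ)) a = C a := rfl
    rw [this, rescale, aeval_C]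
    rfl
  | some p =>
    simp only [mon]
    have h1 : ∀ b : ℂ, (monomial (Finsupp.single p 1 : (Fin m × Fin m) →₀ ℕ)) b = C b * X p := by
      intro b
      rw [X, C_mul_monomial, mul_one]
    rw [h1, h1, rescale, map_mul, aeval_C, aeval_X]
    have h2 : (algebraMap ℂ (MvPolynomial (Fin m × Fin m) ℂ)) a = C a := rfl
    rw [h2]
    simp only [C_mul]
    ring

theorem cf_rescale {m n : ℕ} (A : PMat m n) (hA : ∀ i j, (A i j).totalDegree ≤ 1)
    (d e : Fin m → ℂ) (o : Option (Fin m × Fin m)) :
    cf (A.map (rescale d e)) o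
      = (match o with | none => (1 : ℂ) | some p => d p.1 * e p.2) • cf A o := by
  classical
  refine Matrix.ext fun w v => ?_
  simp only [cf, Matrix.map_apply, Matrix.smul_apply, smul_eq_mul]
  conv_lhs => rw [affine_eq (A w v) (hA w v)]
  rw [map_sum, coeff_sum, sum_eq_single o]
  · rw [rescale_monomial, coeff_monomial, if_pos rfl]
  · intro o' _ ho'
    rw [rescale_monomial, coeff_monomial, if_neg]
    intro hoo
    apply ho'
    cases o with
    | none =>
      cases o' with
      | none => rfl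
      | some q =>
        have := congrArg (fun f => f q) hoo
        simp [mon] at this
    | some q =>
      cases o' with
      | none =>
        have := congrArg (fun f => f q) hoo
        simp [mon] at this
      | some q' =>
        rw [Finsupp.single_left_injective one_ne_zero hoo]
  · simp

/-- the dichotomy without transposition -/
theorem dich_plain {m n : ℕ} (hm : 3 ≤ m) (A : PMat m n) (hA : Affine A) (d e : Fin m → ℂ)
    (hd : ∀ i, d i ≠ 0) (he : ∀ j, e j ≠ 0)
    (gen : ∀ S T S' T' : Finset (Fin m), S.card = T.card → S'.card = T'.card → S.card < m →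
      S'.card < m → wt d e S T = wt d e S' T' → S = S' ∧ T = T')
    (hcoef : ∀ σ : Perm (Fin m), A.det.coeff (monPerm σ) ≠ 0)
    (G H : GL (Fin n) ℂ)
    (hGH : A.map (rescale d e) = (G : Matrix (Fin n) (Fin n) ℂ).map C * A *
        (H : Matrix (Fin n) (Fin n) ℂ).map C) :
    2 ^ m ≤ n + 1 ∨ (m * (2 ^ m - 2) ≤ n * (n - 1) ∧
      ¬ (constantCoeff A.det = 0 ∨ wt d e univ univ ≠ 1)) ∨
    ∃ a : Fin m → Fin m → ℂ, ∀ σ : Perm (Fin m),
      A.det.coeff (monPerm σ) = ((Perm.sign σ : ℤ) : ℂ) * ∏ i, a i (σ i) := by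
  classical
  have h0 : (G : Matrix (Fin n) (Fin n) ℂ) * cf A none * (H : Matrix (Fin n) (Fin n) ℂ)
      = cf A none := by
    rw [← cf_mul, ← hGH, cf_rescale A hA, one_smul]
  have h1 : ∀ p : Fin m × Fin m, (G : Matrix (Fin n) (Fin n) ℂ) * cf A (some p) *
      (H : Matrix (Fin n) (Fin n) ℂ) = (d p.1 * e p.2) • cf A (some p) := by
    intro p
    rw [← cf_mul, ← hGH, cf_rescale A hA]
  obtain ⟨P, Q, I, μ, lam, hμ, hI, hE0, hE1⟩ :=
    normal_form (cf A none) (fun p : Fin m × Fin m => cf A (some p)) G H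
      (fun p => d p.1 * e p.2) h0 h1
  have hP : (P : Matrix (Fin n) (Fin n) ℂ).det ≠ 0 := by
    rw [← isUnit_iff_ne_zero, ← Matrix.isUnit_iff_isUnit_det]
    exact P.isUnit
  have hQ : (Q : Matrix (Fin n) (Fin n) ℂ).det ≠ 0 := by
    rw [← isUnit_iff_ne_zero, ← Matrix.isUnit_iff_isUnit_det]
    exact Q.isUnit
  set κ := (P : Matrix (Fin n) (Fin n) ℂ).det * (Q : Matrix (Fin n) (Fin n) ℂ).det with hκdef
  have hκ : κ ≠ 0 := mul_ne_zero hP hQ
  have hdet : (polyMat (fun o => (P : Matrix (Fin n) (Fin n) ℂ) * cf A o *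
      (Q : Matrix (Fin n) (Fin n) ℂ))).det = C κ * A.det := by
    rw [polyMat_mul, polyMat_cf A hA, Matrix.det_mul, Matrix.det_mul]
    have h2 : ∀ M : Matrix (Fin n) (Fin n) ℂ,
        (M.map (C : ℂ →+* MvPolynomial (Fin m × Fin m) ℂ)).det = C M.det := by
      intro M
      rw [RingHom.map_det]
      rfl
    rw [h2, h2, hκdef, C_mul]
    ring
  have hS : Setup d e (fun o => (P : Matrix (Fin n) (Fin n) ℂ) * cf A o *
      (Q : Matrix (Fin n) (Fin n) ℂ)) I μ lam := by
    refine ⟨hd, he, gen, ?_, hμ, hI, hE0, hE1⟩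
    intro σ
    rw [hdet, coeff_C_mul]
    exact mul_ne_zero hκ (hcoef σ)
  by_cases hex : ∃ v, v ∉ I
  swap
  · push Not at hex
    right
    left
    refine ⟨hS.bound_zero (by omega) hex, ?_⟩
    intro hzero
    obtain ⟨v, hv⟩ := hS.exists_not_mem (by
      rcases hzero with h | h
      · left
        rw [hdet, map_mul, h, mul_zero]
      · exact Or.inr h)
    exact hv (hex v)
  rcases hS.bound hm hex with h | ⟨a, ha⟩
  · exact Or.inl h
  · right
    right
    obtain ⟨a', ha'⟩ := absorb (by omega : 1 ≤ m) κ⁻¹ a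
    refine ⟨a', fun σ => ?_⟩
    have h2 := ha σ
    rw [hdet, coeff_C_mul] at h2
    rw [← ha' σ]
    field_simp
    rw [mul_comm, h2]

theorem rescale_rescale {m : ℕ} (d e : Fin m → ℂ) (f : MvPolynomial (Fin m × Fin m) ℂ) :
    rescale d e (rescale d e f) = rescale (fun i => d i ^ 2) (fun j => e j ^ 2) f := by
  have : (rescale d e).comp (rescale d e) = rescale (fun i => d i ^ 2) (fun j => e j ^ 2) := by
    apply algHom_ext
    intro p
    simp only [AlgHom.comp_apply, rescale, aeval_X, map_mul, aeval_C]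
    have h2 : ∀ a : ℂ, (algebraMap ℂ (MvPolynomial (Fin m × Fin m) ℂ)) a = C a := fun a => rfl
    simp only [h2, C_pow]
    ring
  rw [← this]
  rfl

theorem wt_sq {m : ℕ} (d e : Fin m → ℂ) (S T : Finset (Fin m)) :
    wt (fun i => d i ^ 2) (fun j => e j ^ 2) S T = ((∏ i ∈ S, d i) * ∏ j ∈ T, e j) ^ 2 := by
  unfold wt
  rw [prod_pow, prod_pow, mul_pow]

/-- The dichotomy. -/
theorem dich {m n : ℕ} (hm : 3 ≤ m) (A : PMat m n) (hA : Affine A) (d e : Fin m → ℂ)
    (hgen : Generic d e) (hequiv : EquivariantAt A d e)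
    (hcoef : ∀ σ : Perm (Fin m), A.det.coeff (monPerm σ) ≠ 0) :
    2 ^ m ≤ n + 1 ∨ (m * (2 ^ m - 2) ≤ n * (n - 1) ∧
      ¬ (A.det.coeff 0 = 0 ∨ ((∏ i, d i) * ∏ j, e j) ^ 2 ≠ 1)) ∨
    ∃ a : Fin m → Fin m → ℂ, ∀ σ : Perm (Fin m),
      A.det.coeff (monPerm σ) = ((Perm.sign σ : ℤ) : ℂ) * ∏ i, a i (σ i) := by
  classical
  obtain ⟨hd, he, hg⟩ := hgen
  obtain ⟨G, H, hGH | hGH⟩ := hequiv
  · rcases dich_plain hm A hA d e hd he (by
      intro S T S' T' h1 h2 h3 h4 h5
      refine hg S T S' T' h1 h2 h3 h4 ?_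
      unfold wt at h5
      rw [h5]) hcoef G H hGH with h | ⟨h, h'⟩ | h
    · exact Or.inl h
    · refine Or.inr (Or.inl ⟨h, fun hz => h' ?_⟩)
      rcases hz with hz | hz
      · exact Or.inl hz
      · right
        intro h2
        apply hz
        unfold wt at h2
        rw [h2, one_pow]
    · exact Or.inr (Or.inr h)
  · have hu1 : IsUnit ((G : Matrix (Fin n) (Fin n) ℂ) *
        (H : Matrix (Fin n) (Fin n) ℂ).transpose) :=
      G.isUnit.mul ((Matrix.isUnit_transpose _).2 H.isUnit)
    have hu2 : IsUnit ((G : Matrix (Fin n) (Fin n) ℂ).transpose *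
        (H : Matrix (Fin n) (Fin n) ℂ)) :=
      ((Matrix.isUnit_transpose _).2 G.isUnit).mul H.isUnit
    obtain ⟨G', hG'⟩ := hu1
    obtain ⟨H', hH'⟩ := hu2
    have hmapC : ∀ M : Matrix (Fin n) (Fin n) ℂ,
        (M.map (C : ℂ →+* MvPolynomial (Fin m × Fin m) ℂ)).map (rescale d e) = M.map C := by
      intro M
      refine Matrix.ext fun w v => ?_
      simp only [Matrix.map_apply, rescale, aeval_C]
      rfl
    have h1 : A.map (rescale (fun i => d i ^ 2) (fun j => e j ^ 2))
        = (A.map (rescale d e)).map (rescale d e) := by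
      refine Matrix.ext fun w v => ?_
      simp only [Matrix.map_apply]
      rw [rescale_rescale]
    have hGH2 : A.map (rescale (fun i => d i ^ 2) (fun j => e j ^ 2))
        = (G' : Matrix (Fin n) (Fin n) ℂ).map C * A *
          (H' : Matrix (Fin n) (Fin n) ℂ).map C := by
      rw [h1]
      conv_lhs => rw [hGH]
      rw [Matrix.map_mul, Matrix.map_mul, hmapC, hmapC, Matrix.transpose_map, hGH, hG', hH']
      rw [Matrix.map_mul, Matrix.map_mul, Matrix.transpose_mul, Matrix.transpose_mul,
        Matrix.transpose_transpose, Matrix.transpose_map, Matrix.transpose_map]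
      simp only [Matrix.mul_assoc]
    rcases dich_plain hm A hA (fun i => d i ^ 2) (fun j => e j ^ 2)
      (fun i => pow_ne_zero 2 (hd i)) (fun j => pow_ne_zero 2 (he j)) (by
        intro S T S' T' h1 h2 h3 h4 h5
        refine hg S T S' T' h1 h2 h3 h4 ?_
        rwa [wt_sq, wt_sq] at h5) hcoef G' H' hGH2 with h | ⟨h, h'⟩ | h
    · exact Or.inl h
    · refine Or.inr (Or.inl ⟨h, fun hz => h' ?_⟩)
      rcases hz with hz | hz
      · exact Or.inl hz
      · right
        rwa [wt_sq]
    · exact Or.inr (Or.inr h)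

/-- Numbers of the form `sgn(σ) ∏ a_{iσ(i)}` satisfy a sign relation. -/
theorem six_relation {m : ℕ} (hm : 3 ≤ m) (c : Perm (Fin m) → ℂ) (a : Fin m → Fin m → ℂ)
    (h : ∀ σ : Perm (Fin m), c σ = ((Perm.sign σ : ℤ) : ℂ) * ∏ i, a i (σ i)) :
    ∃ s1 s2 s3 s4 s5 s6 : Perm (Fin m), c s1 * c s2 * c s3 = -(c s4 * c s5 * c s6) := by
  classical
  let x : Fin m := ⟨0, by omega⟩
  let y : Fin m := ⟨1, by omega⟩
  let z : Fin m := ⟨2, by omega⟩
  have hxy : x ≠ y := by simp [x, y]
  have hxz : x ≠ z := by simp [x, z]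
  have hyz : y ≠ z := by simp [y, z]
  refine ⟨1, swap x y * swap y z, swap y z * swap x y, swap x y, swap y z, swap x z, ?_⟩
  rw [h, h, h, h, h, h]
  have key : (∏ v, a v ((1 : Perm (Fin m)) v)) * (∏ v, a v ((swap x y * swap y z) v)) *
      (∏ v, a v ((swap y z * swap x y) v)) = (∏ v, a v (swap x y v)) *
      (∏ v, a v (swap y z v)) * (∏ v, a v (swap x z v)) := by
    rw [← prod_mul_distrib, ← prod_mul_distrib, ← prod_mul_distrib, ← prod_mul_distrib]
    refine prod_congr rfl fun v _ => ?_
    simp only [Perm.mul_apply, Perm.one_apply]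
    by_cases h1 : v = x
    · subst h1
      rw [swap_apply_of_ne_of_ne hxy hxz, swap_apply_left, swap_apply_left, swap_apply_left]
      ring
    by_cases h2 : v = y
    · subst h2
      rw [swap_apply_left, swap_apply_of_ne_of_ne hxz.symm hyz.symm, swap_apply_right,
        swap_apply_of_ne_of_ne hxy hxz, swap_apply_of_ne_of_ne hxy.symm hyz]
      ring
    by_cases h3 : v = z
    · subst h3
      rw [swap_apply_right, swap_apply_right, swap_apply_of_ne_of_ne hxz.symm hyz.symm,
        swap_apply_right, swap_apply_right]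
      ring
    · rw [swap_apply_of_ne_of_ne h2 h3, swap_apply_of_ne_of_ne h1 h2,
        swap_apply_of_ne_of_ne h2 h3, swap_apply_of_ne_of_ne h1 h3]
  have e1 : ((Perm.sign (1 : Perm (Fin m)) : ℤ) : ℂ) = 1 := by simp
  have e2 : ((Perm.sign (swap x y * swap y z) : ℤ) : ℂ) = 1 := by
    rw [Perm.sign_mul, Perm.sign_swap hxy, Perm.sign_swap hyz]; simp
  have e3 : ((Perm.sign (swap y z * swap x y) : ℤ) : ℂ) = 1 := by
    rw [Perm.sign_mul, Perm.sign_swap hxy, Perm.sign_swap hyz]; simp
  have e4 : ((Perm.sign (swap x y) : ℤ) : ℂ) = -1 := by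
    rw [Perm.sign_swap hxy]; simp
  have e5 : ((Perm.sign (swap y z) : ℤ) : ℂ) = -1 := by
    rw [Perm.sign_swap hyz]; simp
  have e6 : ((Perm.sign (swap x z) : ℤ) : ℂ) = -1 := by
    rw [Perm.sign_swap hxz]; simp
  rw [e1, e2, e3, e4, e5, e6]
  linear_combination key

end Pool.Agent.Work.MP_35c45d_lc.Torus
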