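import Pool.Agent.Work.MP_35c45d_lc.TorusLower
import Pool.Agent.Work.MP_35c45d_lc.TorusGrenet
import Pool.Agent.Work.MP_35c45d_lc.TorusGeneric

set_option autoImplicit false

namespace Pool.Agent.Work.MP_35c45d_lc.Torus

open MvPolynomial Equiv Finset

theorem perm_zero (m : ℕ) (hm : 1 ≤ m) : (permPoly m).coeff 0 = 0 := by
  have h : constantCoeff (permPoly m) = 0 := by
    unfold permPoly Matrix.permanent
    rw [map_sum]
    apply sum_eq_zero
    intro σ _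
    rw [map_prod]
    apply prod_eq_zero (mem_univ (⟨0, hm⟩ : Fin m))
    simp
  exact h

/-- The general lower bound. -/
theorem lower_general {m n : ℕ} (hm : 3 ≤ m) (A : PMat m n) (hA : Affine A) (d e : Fin m → ℂ)
    (hgen : Generic d e) (hequiv : EquivariantAt A d e)
    (hcoef : ∀ σ : Perm (Fin m), A.det.coeff (monPerm σ) ≠ 0) :
    2 ^ m - 1 ≤ n ∨
    (A.det.coeff 0 ≠ 0 ∧ ((∏ i, d i) * ∏ j, e j) ^ 2 = 1 ∧ m * (2 ^ m - 2) ≤ n * (n - 1)) ∨
    ∃ a : Fin m → Fin m → ℂ, ∀ σ : Perm (Fin m),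
      A.det.coeff (monPerm σ) = ((Perm.sign σ : ℤ) : ℂ) * ∏ i, a i (σ i) := by
  rcases dich hm A hA d e hgen hequiv hcoef with h | ⟨h, h'⟩ | h
  · left
    omega
  · right
    left
    push Not at h'
    exact ⟨h'.1, h'.2, h⟩
  · exact Or.inr (Or.inr h)

/-- The permanent: exact lower bound. -/
theorem lower_perm {m n : ℕ} (hm : 3 ≤ m) (A : PMat m n) (hA : IsRep A) (d e : Fin m → ℂ)
    (hgen : Generic d e) (hequiv : EquivariantAt A d e) : 2 ^ m - 1 ≤ n := by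
  have h1 : ∀ σ : Perm (Fin m), A.det.coeff (monPerm σ) = 1 := by
    intro σ
    rw [hA.2, coeff_permPoly]
  rcases lower_general hm A hA.1 d e hgen hequiv (fun σ => by rw [h1]; exact one_ne_zero)
    with h | ⟨h, _⟩ | ⟨a, ha⟩
  · exact h
  · exfalso
    apply h
    rw [hA.2, perm_zero m (by omega)]
  · exfalso
    obtain ⟨s1, s2, s3, s4, s5, s6, h2⟩ :=
      six_relation hm (fun σ => A.det.coeff (monPerm σ)) a ha
    simp only [h1] at h2
    norm_num at h2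

/-- Robust form. -/
theorem lower_near {m n : ℕ} (hm : 3 ≤ m) (A : PMat m n) (hA : Affine A) (d e : Fin m → ℂ)
    (hgen : Generic d e) (hequiv : EquivariantAt A d e)
    (hnear : ∀ σ : Perm (Fin m), ‖A.det.coeff (monPerm σ) - 1‖ < 1 / 4) :
    2 ^ m - 1 ≤ n ∨
    (((∏ i, d i) * ∏ j, e j) ^ 2 = 1 ∧ m * (2 ^ m - 2) ≤ n * (n - 1)) := by
  have hne : ∀ σ : Perm (Fin m), A.det.coeff (monPerm σ) ≠ 0 := by
    intro σ h0
    have := hnear σ
    rw [h0, zero_sub, norm_neg, norm_one] at this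
    norm_num at this
  rcases lower_general hm A hA d e hgen hequiv hne with h | ⟨_, h, h'⟩ | ⟨a, ha⟩
  · exact Or.inl h
  · exact Or.inr ⟨h, h'⟩
  · exfalso
    obtain ⟨s1, s2, s3, s4, s5, s6, h2⟩ :=
      six_relation hm (fun σ => A.det.coeff (monPerm σ)) a ha
    have key : ∀ x y z : ℂ, ‖x - 1‖ < 1 / 4 → ‖y - 1‖ < 1 / 4 → ‖z - 1‖ < 1 / 4 →
        ‖x * y * z - 1‖ < 1 := by
      intro x y z hx hy hz
      have e1 : x * y * z - 1 = (x - 1) * (y - 1) * (z - 1) + (x - 1) * (y - 1)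
          + (x - 1) * (z - 1) + (y - 1) * (z - 1) + (x - 1) + (y - 1) + (z - 1) := by ring
      have nx := norm_nonneg (x - 1)
      have ny := norm_nonneg (y - 1)
      have nz := norm_nonneg (z - 1)
      have b1 : ‖x * y * z - 1‖ ≤ ‖x - 1‖ * ‖y - 1‖ * ‖z - 1‖ + ‖x - 1‖ * ‖y - 1‖
          + ‖x - 1‖ * ‖z - 1‖ + ‖y - 1‖ * ‖z - 1‖ + ‖x - 1‖ + ‖y - 1‖ + ‖z - 1‖ := by
        rw [e1]
        refine (norm_add_le _ _).trans (add_le_add ?_ le_rfl)
        refine (norm_add_le _ _).trans (add_le_add ?_ le_rfl)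
        refine (norm_add_le _ _).trans (add_le_add ?_ le_rfl)
        refine (norm_add_le _ _).trans (add_le_add ?_ (norm_mul_le _ _))
        refine (norm_add_le _ _).trans (add_le_add ?_ (norm_mul_le _ _))
        refine (norm_add_le _ _).trans (add_le_add ?_ (norm_mul_le _ _))
        rw [norm_mul, norm_mul]
      have c1 : ‖x - 1‖ * ‖y - 1‖ ≤ 1 / 4 * (1 / 4) :=
        mul_le_mul hx.le hy.le ny (by norm_num)
      have c2 : ‖x - 1‖ * ‖z - 1‖ ≤ 1 / 4 * (1 / 4) :=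
        mul_le_mul hx.le hz.le nz (by norm_num)
      have c3 : ‖y - 1‖ * ‖z - 1‖ ≤ 1 / 4 * (1 / 4) :=
        mul_le_mul hy.le hz.le nz (by norm_num)
      have c4 : ‖x - 1‖ * ‖y - 1‖ * ‖z - 1‖ ≤ 1 / 4 * (1 / 4) * (1 / 4) :=
        mul_le_mul c1 hz.le nz (by norm_num)
      linarith
    have k1 := key _ _ _ (hnear s1) (hnear s2) (hnear s3)
    have k2 := key _ _ _ (hnear s4) (hnear s5) (hnear s6)
    rw [h2] at k1
    set w := A.det.coeff (monPerm s4) * A.det.coeff (monPerm s5) * A.det.coeff (monPerm s6)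
      with hw
    have h5 : (2 : ℂ) = (1 - w) - (-w - 1) := by ring
    have h3 : ‖(2 : ℂ)‖ < 2 := by
      calc ‖(2 : ℂ)‖ = ‖(1 - w) - (-w - 1)‖ := by rw [← h5]
        _ ≤ ‖1 - w‖ + ‖-w - 1‖ := norm_sub_le _ _
        _ < 1 + 1 := by
            rw [← norm_neg (1 - w), neg_sub]
            exact add_lt_add k2 k1
        _ = 2 := by norm_num
    simp at h3

theorem quad_of_le {m n : ℕ} (hm : 3 ≤ m) (h : 2 ^ m - 1 ≤ n) :
    m * (2 ^ m - 2) ≤ n * (n - 1) := by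
  have h1 : m < 2 ^ m := Nat.lt_two_pow_self
  calc m * (2 ^ m - 2) ≤ n * (2 ^ m - 2) := Nat.mul_le_mul_right _ (by omega)
    _ ≤ n * (n - 1) := Nat.mul_le_mul_left _ (by omega)

open Filter Topology in
/-- Border version. -/
theorem lower_border {m n : ℕ} (hm : 3 ≤ m) (A : ℕ → PMat m n) (d e : ℕ → Fin m → ℂ)
    (hall : ∀ k, Affine (A k) ∧ Generic (d k) (e k) ∧ EquivariantAt (A k) (d k) (e k))
    (hlim : ∀ σ : Perm (Fin m), Tendsto (fun k => (A k).det.coeff (monPerm σ)) atTop (𝓝 1)) :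
    m * (2 ^ m - 2) ≤ n * (n - 1) ∧
      ((∀ k, ((∏ i, d k i) * ∏ j, e k j) ^ 2 ≠ 1) → 2 ^ m - 1 ≤ n) := by
  have h1 : ∀ σ : Perm (Fin m), ∀ᶠ k in atTop, ‖(A k).det.coeff (monPerm σ) - 1‖ < 1 / 4 := by
    intro σ
    have := Metric.tendsto_nhds.1 (hlim σ) (1 / 4) (by norm_num)
    simpa [dist_eq_norm] using this
  have h2 : ∀ᶠ k in atTop, ∀ σ : Perm (Fin m), ‖(A k).det.coeff (monPerm σ) - 1‖ < 1 / 4 :=
    eventually_all.2 h1
  obtain ⟨k, hk⟩ := h2.exists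
  have h3 := lower_near hm (A k) (hall k).1 (d k) (e k) (hall k).2.1 (hall k).2.2 hk
  constructor
  · rcases h3 with h | ⟨_, h⟩
    · exact quad_of_le hm h
    · exact h
  · intro hδ
    rcases h3 with h | ⟨h, _⟩
    · exact h
    · exact absurd h (hδ k)

/-- Attainment by Grenet's matrix. -/
theorem attained (m : ℕ) (hm : 1 ≤ m) : ∃ A : PMat m (2 ^ m - 1), IsRep A ∧
    ∀ d e : Fin m → ℂ, (∀ i, d i ≠ 0) → (∀ j, e j ≠ 0) → EquivariantAt A d e := by
  obtain ⟨A, hA, h⟩ := grenet m hm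
  refine ⟨A, hA, fun d e hd he => ?_⟩
  obtain ⟨G, H, hGH⟩ := h d e hd he
  exact ⟨G, H, Or.inl hGH⟩

end Pool.Agent.Work.MP_35c45d_lc.Torus
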