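import Mathlib

set_option autoImplicit false

namespace Pool.Agent.Work.MP_35c45d_lc.Torus

open Module

section graded

variable {n : ℕ} {Λ : Type*}

theorem span_homog (Vg : Λ → Submodule ℂ (Fin n → ℂ)) (hVt : ⨆ i, Vg i = ⊤) :
    Submodule.span ℂ {x : Fin n → ℂ | ∃ i, x ∈ Vg i} = ⊤ := by
  rw [eq_top_iff, ← hVt]
  refine iSup_le fun i x hx => Submodule.subset_span ⟨i, hx⟩

theorem ker_homog (Vg Wg : Λ → Submodule ℂ (Fin n → ℂ)) (hVt : ⨆ i, Vg i = ⊤)
    (hWi : iSupIndep Wg) (f : (Fin n → ℂ) →ₗ[ℂ] (Fin n → ℂ))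
    (hf : ∀ i, ∀ x ∈ Vg i, f x ∈ Wg i) :
    LinearMap.ker f ≤ Submodule.span ℂ ({x : Fin n → ℂ | ∃ i, x ∈ Vg i} ∩ {x | f x = 0}) := by
  intro x hx
  have hx2 : x ∈ iSup Vg := by rw [hVt]; trivial
  obtain ⟨c, hc, hcx⟩ := (Submodule.mem_iSup_iff_exists_finsupp Vg x).1 hx2
  rw [Finsupp.sum] at hcx
  have h0 : ∑ i ∈ c.support, f (c i) = 0 := by
    rw [← map_sum, hcx]
    exact hx
  have h1 := (iSupIndep_iff_finsetSum_eq_zero_imp_eq_zero Wg).1 hWi c.support
    (fun i => f (c i)) (fun i _ => hf i _ (hc i)) h0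
  rw [← hcx]
  refine Submodule.sum_mem _ fun i hi => Submodule.subset_span ⟨⟨i, hc i⟩, h1 i hi⟩

theorem graded_basis (Vg Wg : Λ → Submodule ℂ (Fin n → ℂ)) (hVt : ⨆ i, Vg i = ⊤)
    (hWi : iSupIndep Wg) (hWt : ⨆ i, Wg i = ⊤) (f : (Fin n → ℂ) →ₗ[ℂ] (Fin n → ℂ))
    (hf : ∀ i, ∀ x ∈ Vg i, f x ∈ Wg i) :
    ∃ (bV bW : Basis (Fin n) ℂ (Fin n → ℂ)) (μ lam : Fin n → Λ) (I : Finset (Fin n)),
      (∀ v, bV v ∈ Vg (μ v)) ∧ (∀ v, bW v ∈ Wg (lam v)) ∧ (∀ v ∈ I, lam v = μ v) ∧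
      (∀ v ∈ I, f (bV v) = bW v) ∧ (∀ v, v ∉ I → f (bV v) = 0) := by
  classical
  set HV : Set (Fin n → ℂ) := {x | ∃ i, x ∈ Vg i} with hHV
  set HW : Set (Fin n → ℂ) := {x | ∃ i, x ∈ Wg i} with hHW
  obtain ⟨sK, hsK, hsKspan, hsKli⟩ := exists_linearIndependent ℂ (HV ∩ {x | f x = 0})
  have hker : LinearMap.ker f = Submodule.span ℂ sK := by
    apply le_antisymm
    · rw [hsKspan]
      exact ker_homog Vg Wg hVt hWi f hf
    · rw [Submodule.span_le]
      intro x hx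
      exact (hsK hx).2
  have hsKli' : LinearIndepOn ℂ id sK := hsKli
  obtain ⟨b, hbV, hsb, hbspan, hbli⟩ :=
    exists_linearIndepOn_id_extension hsKli' (hsK.trans Set.inter_subset_left)
  have hbtop : (⊤ : Submodule ℂ (Fin n → ℂ)) ≤ Submodule.span ℂ b := by
    rw [← span_homog Vg hVt]
    exact Submodule.span_le.2 hbspan
  let B0 : Basis b ℂ (Fin n → ℂ) := Basis.mk (v := ((↑) : b → (Fin n → ℂ))) hbli (by
    rw [Subtype.range_coe]; exact hbtop)
  let e : b ≃ Fin n := B0.indexEquiv (Pi.basisFun ℂ (Fin n))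
  let bV : Basis (Fin n) ℂ (Fin n → ℂ) := B0.reindex e
  have hbVb : ∀ i, bV i ∈ b := by
    intro i
    simp [bV, B0]
  have hbVh : ∀ i, ∃ μ, bV i ∈ Vg μ := fun i => hbV (hbVb i)
  choose μ hμ using hbVh
  set s : Set (Fin n) := {i | f (bV i) ≠ 0} with hs
  -- the kernel is spanned by the basis vectors off `s`
  have hkers : LinearMap.ker f ≤ Submodule.span ℂ (bV '' sᶜ) := by
    rw [hker]
    apply Submodule.span_mono
    intro x hx
    refine ⟨e ⟨x, hsb hx⟩, ?_, ?_⟩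
    · simp only [s, Set.mem_compl_iff, Set.mem_ofPred_eq, not_not]
      have : bV (e ⟨x, hsb hx⟩) = x := by simp [bV, B0]
      rw [this]
      exact (hsK hx).2
    · simp [bV, B0]
  have hli : LinearIndepOn ℂ (f ∘ bV) s := by
    have h1 : LinearIndependent ℂ (fun i : s => bV i) := bV.linearIndependent.comp _
      Subtype.val_injective
    have h2 := h1.map (f := f) (by
      have h3 : Set.range (fun i : s => bV i) = bV '' s := by
        ext x; simp
      rw [h3]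
      exact (bV.linearIndependent.disjoint_span_image (s := s) (t := sᶜ)
        disjoint_compl_right).mono_right hkers)
    exact h2
  have hli2 : LinearIndepOn ℂ id ((f ∘ bV) '' s) := hli.id_image
  have hinj : Set.InjOn (f ∘ bV) s := hli.injOn
  obtain ⟨c, hcW, hsc, hcspan, hcli⟩ :=
    exists_linearIndepOn_id_extension hli2 (t := HW) (by
      rintro _ ⟨i, _, rfl⟩
      exact ⟨μ i, hf _ _ (hμ i)⟩)
  have hctop : (⊤ : Submodule ℂ (Fin n → ℂ)) ≤ Submodule.span ℂ c := by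
    rw [← span_homog Wg hWt]
    exact Submodule.span_le.2 hcspan
  let B1 : Basis c ℂ (Fin n → ℂ) := Basis.mk (v := ((↑) : c → (Fin n → ℂ))) hcli (by
    rw [Subtype.range_coe]; exact hctop)
  let e1 : c ≃ Fin n := B1.indexEquiv (Pi.basisFun ℂ (Fin n))
  have : Fintype c := Fintype.ofEquiv _ e1.symm
  have hcard : Fintype.card (Fin n) = c.toFinset.card := by
    rw [Set.toFinset_card]
    exact (Fintype.card_congr e1).symm
  obtain ⟨g, hg⟩ := Set.MapsTo.exists_equiv_extend_of_card_eq (s := s) (f := f ∘ bV)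
    (t := c.toFinset) hcard (by
      intro i hi
      rw [Set.coe_toFinset]
      exact hsc ⟨i, hi, rfl⟩) hinj
  let g2 : Fin n ≃ c := g.trans (Equiv.subtypeEquivRight (by simp))
  let bW : Basis (Fin n) ℂ (Fin n → ℂ) := B1.reindex g2.symm
  have hbW : ∀ i, bW i = (g i : Fin n → ℂ) := by
    intro i
    simp [bW, B1, g2]
  have hbWh : ∀ i, ∃ ν, bW i ∈ Wg ν := by
    intro i
    apply hcW
    rw [hbW]
    have := (g i).2
    rwa [Set.mem_toFinset] at this
  choose ν hν using hbWh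
  have hkey : ∀ i ∈ s, f (bV i) = bW i := by
    intro i hi
    rw [hbW, hg i hi]
    rfl
  refine ⟨bV, bW, μ, fun i => if i ∈ s then μ i else ν i, s.toFinset, hμ, ?_, ?_, ?_, ?_⟩
  · intro v
    by_cases hv : v ∈ s
    · simp only [hv, if_true]
      rw [← hkey v hv]
      exact hf _ _ (hμ v)
    · simp only [hv, if_false]
      exact hν v
  · intro v hv
    rw [Set.mem_toFinset] at hv
    simp [hv]
  · intro v hv
    rw [Set.mem_toFinset] at hv
    exact hkey v hv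
  · intro v hv
    rw [Set.mem_toFinset] at hv
    simpa [s] using hv

theorem coord_weight (Wg : Λ → Submodule ℂ (Fin n → ℂ)) (hWi : iSupIndep Wg)
    (b : Basis (Fin n) ℂ (Fin n → ℂ)) (lam : Fin n → Λ) (hb : ∀ v, b v ∈ Wg (lam v))
    (ν : Λ) (x : Fin n → ℂ) (hx : x ∈ Wg ν) (w : Fin n) (hw : b.repr x w ≠ 0) : lam w = ν := by
  classical
  by_contra hne
  apply hw
  set y := ∑ i ∈ Finset.univ.filter (fun i => lam i = ν), b.repr x i • b i with hy
  set z := ∑ i ∈ Finset.univ.filter (fun i => ¬ lam i = ν), b.repr x i • b i with hz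
  have hsum : y + z = x := by
    rw [hy, hz, Finset.sum_filter_add_sum_filter_not]
    exact b.sum_repr x
  have hyW : y ∈ Wg ν := by
    refine Submodule.sum_mem _ fun i hi => Submodule.smul_mem _ _ ?_
    rw [Finset.mem_filter] at hi
    rw [← hi.2]
    exact hb i
  have hz1 : z ∈ Wg ν := by
    have : z = x - y := by rw [← hsum]; abel
    rw [this]
    exact Submodule.sub_mem _ hx hyW
  have hz2 : z ∈ ⨆ (j : Λ) (_ : j ≠ ν), Wg j := by
    refine Submodule.sum_mem _ fun i hi => Submodule.smul_mem _ _ ?_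
    rw [Finset.mem_filter] at hi
    exact Submodule.mem_iSup_of_mem (lam i) (Submodule.mem_iSup_of_mem hi.2 (hb i))
  have hz0 : z = 0 := Submodule.disjoint_def.1 (hWi ν) z hz1 hz2
  have hxy : x = y := by rw [← hsum, hz0, add_zero]
  have hr : b.repr y w = 0 := by
    rw [hy]
    simp only [map_sum, map_smul, Basis.repr_self, Finsupp.coe_finsetSum, Finsupp.coe_smul,
      Finset.sum_apply, Pi.smul_apply, smul_eq_mul]
    apply Finset.sum_eq_zero
    intro i hi
    rw [Finset.mem_filter] at hi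
    have : i ≠ w := by
      rintro rfl
      exact hne hi.2
    rw [Finsupp.single_apply, if_neg this, mul_zero]
  rw [hxy]
  exact hr

end graded

section eigen

variable {n : ℕ}

theorem maps_gen (g h f : (Fin n → ℂ) →ₗ[ℂ] (Fin n → ℂ)) (t : ℂ)
    (hc : ∀ x, g (f x) = t • f (h x)) (μ : ℂ) {x : Fin n → ℂ}
    (hx : x ∈ Module.End.maxGenEigenspace h μ) :
    f x ∈ Module.End.maxGenEigenspace g (t * μ) := by
  rw [Module.End.mem_maxGenEigenspace] at hx ⊢
  obtain ⟨k, hk⟩ := hx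
  refine ⟨k, ?_⟩
  have key : ∀ (k : ℕ) (x : Fin n → ℂ),
      ((g - (t * μ) • (1 : Module.End ℂ (Fin n → ℂ))) ^ k) (f x)
        = t ^ k • f (((h - μ • (1 : Module.End ℂ (Fin n → ℂ))) ^ k) x) := by
    intro k
    induction k with
    | zero => intro x; simp
    | succ k ih =>
      intro x
      rw [pow_succ (g - (t * μ) • (1 : Module.End ℂ (Fin n → ℂ))),
        pow_succ (h - μ • (1 : Module.End ℂ (Fin n → ℂ))), Module.End.mul_apply,
        Module.End.mul_apply]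
      have h1 : (g - (t * μ) • (1 : Module.End ℂ (Fin n → ℂ))) (f x)
          = f (t • ((h - μ • (1 : Module.End ℂ (Fin n → ℂ))) x)) := by
        simp only [LinearMap.sub_apply, LinearMap.smul_apply, Module.End.one_apply, map_smul,
          map_sub]
        rw [hc, smul_sub, smul_smul]
      rw [h1, ih, map_smul, map_smul, smul_smul, pow_succ]
  rw [key, hk]
  simp

theorem weight_ne_zero (h : (Fin n → ℂ) →ₗ[ℂ] (Fin n → ℂ)) (hinj : Function.Injective h)
    (μ : ℂ) {x : Fin n → ℂ} (hx : x ∈ Module.End.maxGenEigenspace h μ) (hx0 : x ≠ 0) :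
    μ ≠ 0 := by
  rintro rfl
  rw [Module.End.mem_maxGenEigenspace] at hx
  obtain ⟨k, hk⟩ := hx
  apply hx0
  rw [zero_smul, sub_zero] at hk
  have : Function.Injective (h ^ k : Module.End ℂ (Fin n → ℂ)) := by
    rw [Module.End.coe_pow]
    exact hinj.iterate k
  apply this
  rw [hk, map_zero]

end eigen

/-- Normal form of an equivariant family of matrices. -/
theorem normal_form {n : ℕ} {ι : Type*} (A0 : Matrix (Fin n) (Fin n) ℂ)
    (A : ι → Matrix (Fin n) (Fin n) ℂ) (G H : GL (Fin n) ℂ) (t : ι → ℂ)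
    (h0 : (G : Matrix (Fin n) (Fin n) ℂ) * A0 * (H : Matrix (Fin n) (Fin n) ℂ) = A0)
    (h1 : ∀ p, (G : Matrix (Fin n) (Fin n) ℂ) * A p * (H : Matrix (Fin n) (Fin n) ℂ)
      = t p • A p) :
    ∃ (P Q : GL (Fin n) ℂ) (I : Finset (Fin n)) (μ lam : Fin n → ℂ),
      (∀ v, μ v ≠ 0) ∧ (∀ v ∈ I, lam v = μ v) ∧
      (∀ w v, ((P : Matrix (Fin n) (Fin n) ℂ) * A0 * (Q : Matrix (Fin n) (Fin n) ℂ)) w v
        = if v ∈ I ∧ w = v then 1 else 0) ∧
      (∀ p w v, ((P : Matrix (Fin n) (Fin n) ℂ) * A p * (Q : Matrix (Fin n) (Fin n) ℂ)) w v ≠ 0 →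
        lam w = t p * μ v) := by
  classical
  set g : (Fin n → ℂ) →ₗ[ℂ] (Fin n → ℂ) := Matrix.toLin' (G : Matrix (Fin n) (Fin n) ℂ) with hg
  set h : (Fin n → ℂ) →ₗ[ℂ] (Fin n → ℂ) :=
    Matrix.toLin' ((H⁻¹ : GL (Fin n) ℂ) : Matrix (Fin n) (Fin n) ℂ) with hh
  have hHH : (H : Matrix (Fin n) (Fin n) ℂ) * ((H⁻¹ : GL (Fin n) ℂ) : Matrix (Fin n) (Fin n) ℂ)
      = 1 := by
    rw [← Units.val_mul, mul_inv_cancel, Units.val_one]
  have hc0 : ∀ x, g (Matrix.toLin' A0 x) = (1 : ℂ) • Matrix.toLin' A0 (h x) := by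
    intro x
    rw [one_smul, hg, hh, ← LinearMap.comp_apply, ← LinearMap.comp_apply, ← Matrix.toLin'_mul,
      ← Matrix.toLin'_mul]
    congr 2
    conv_rhs => rw [← h0]
    rw [mul_assoc, mul_assoc, hHH, mul_one]
  have hc1 : ∀ p x, g (Matrix.toLin' (A p) x) = t p • Matrix.toLin' (A p) (h x) := by
    intro p x
    rw [hg, hh, ← LinearMap.comp_apply, ← LinearMap.comp_apply, ← Matrix.toLin'_mul,
      ← Matrix.toLin'_mul, ← LinearMap.smul_apply, ← map_smul]
    congr 2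
    rw [← Matrix.smul_mul, ← h1, mul_assoc, mul_assoc, hHH, mul_one]
  have hhinj : Function.Injective h := by
    have : Function.LeftInverse (Matrix.toLin' (H : Matrix (Fin n) (Fin n) ℂ)) h := by
      intro x
      rw [hh, ← LinearMap.comp_apply, ← Matrix.toLin'_mul, hHH, Matrix.toLin'_one]
      rfl
    exact this.injective
  obtain ⟨bV, bW, μ, lam, I, hbV, hbW, hI, hfI, hfI2⟩ :=
    graded_basis (Module.End.maxGenEigenspace h) (Module.End.maxGenEigenspace g)
      (Module.End.iSup_maxGenEigenspace_eq_top h) (Module.End.independent_maxGenEigenspace g)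
      (Module.End.iSup_maxGenEigenspace_eq_top g) (Matrix.toLin' A0) (by
        intro i x hx
        have := maps_gen g h (Matrix.toLin' A0) 1 hc0 i hx
        rwa [one_mul] at this)
  have hPu : IsUnit (bW.toMatrix (Pi.basisFun ℂ (Fin n))) := by
    refine (isUnit_iff_exists).2 ⟨(Pi.basisFun ℂ (Fin n)).toMatrix bW, ?_, ?_⟩ <;> simp
  have hQu : IsUnit ((Pi.basisFun ℂ (Fin n)).toMatrix bV) := by
    refine (isUnit_iff_exists).2 ⟨bV.toMatrix (Pi.basisFun ℂ (Fin n)), ?_, ?_⟩ <;> simp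
  obtain ⟨P, hP⟩ := hPu
  obtain ⟨Q, hQ⟩ := hQu
  have hconj : ∀ M : Matrix (Fin n) (Fin n) ℂ,
      (P : Matrix (Fin n) (Fin n) ℂ) * M * (Q : Matrix (Fin n) (Fin n) ℂ)
        = LinearMap.toMatrix bV bW (Matrix.toLin' M) := by
    intro M
    have := basis_toMatrix_mul_linearMap_toMatrix_mul_basis_toMatrix
      bV (Pi.basisFun ℂ (Fin n)) bW (Pi.basisFun ℂ (Fin n)) (Matrix.toLin' M)
    rw [hP, hQ, ← this]
    congr 2
    rw [← Matrix.toLin_eq_toLin', LinearMap.toMatrix_toLin]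
  refine ⟨P, Q, I, μ, lam, ?_, hI, ?_, ?_⟩
  · intro v
    exact weight_ne_zero h hhinj (μ v) (hbV v) (bV.ne_zero v)
  · intro w v
    rw [hconj, LinearMap.toMatrix_apply]
    by_cases hv : v ∈ I
    · rw [hfI v hv, Basis.repr_self, Finsupp.single_apply]
      simp [hv, eq_comm]
    · rw [hfI2 v hv]
      simp [hv]
  · intro p w v hne
    rw [hconj, LinearMap.toMatrix_apply] at hne
    exact coord_weight (Module.End.maxGenEigenspace g) (Module.End.independent_maxGenEigenspace g)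
      bW lam hbW _ _ (maps_gen g h (Matrix.toLin' (A p)) (t p) (hc1 p) (μ v) (hbV v)) w hne

end Pool.Agent.Work.MP_35c45d_lc.Torus
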