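import Pool.Agent.Work.MP_35c45d_lc.TorusDefs

set_option autoImplicit false

namespace Pool.Agent.Work.MP_35c45d_lc.Torus

open Finset Equiv

/-- Partial permanents: sums over injective sequences avoiding `S`, by recursion. -/
def pperm {R α : Type*} [CommSemiring R] [Fintype α] [DecidableEq α] (x : ℕ → α → R) :
    ℕ → Finset α → R
  | 0, _ => 1
  | l + 1, S => ∑ j ∈ Sᶜ, x l j * pperm x l (insert j S)

theorem pperm_eq {R α : Type*} [CommSemiring R] [Fintype α] [DecidableEq α] (x : ℕ → α → R)
    (l : ℕ) (S : Finset α) :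
    pperm x l S = ∑ f : Fin l → α,
      if Function.Injective f ∧ (∀ i, f i ∉ S) then ∏ i : Fin l, x i (f i) else 0 := by
  classical
  induction l generalizing S with
  | zero =>
    simp [pperm, Function.Injective]
  | succ l ih =>
    rw [pperm]
    have h1 : ∀ j : α, (if j ∈ Sᶜ then x l j * pperm x l (insert j S) else 0)
        = ∑ g : Fin l → α, if Function.Injective (Fin.snoc (α := fun _ => α) g j) ∧
          (∀ i, Fin.snoc (α := fun _ => α) g j i ∉ S) then
            ∏ i : Fin (l + 1), x i (Fin.snoc (α := fun _ => α) g j i) else 0 := by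
      intro j
      rw [ih]
      by_cases hj : j ∈ Sᶜ
      · rw [if_pos hj, mul_sum]
        refine sum_congr rfl fun g _ => ?_
        have h2 : (Function.Injective (Fin.snoc (α := fun _ => α) g j) ∧
            (∀ i, Fin.snoc (α := fun _ => α) g j i ∉ S)) ↔
            (Function.Injective g ∧ ∀ i, g i ∉ insert j S) := by
          rw [Fin.snoc_injective_iff, Fin.forall_fin_succ']
          simp only [Fin.snoc_castSucc, Fin.snoc_last, Set.mem_range, not_exists, mem_insert,
            not_or]
          rw [mem_compl] at hj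
          constructor
          · rintro ⟨⟨h3, h4⟩, h5, _⟩
            exact ⟨h3, fun i => ⟨h4 i, h5 i⟩⟩
          · rintro ⟨h3, h4⟩
            exact ⟨⟨h3, fun i => (h4 i).1⟩, fun i => (h4 i).2, hj⟩
        rw [Fin.prod_univ_castSucc]
        simp only [Fin.snoc_castSucc, Fin.snoc_last, Fin.val_castSucc, Fin.val_last]
        by_cases h3 : Function.Injective g ∧ ∀ i, g i ∉ insert j S
        · rw [if_pos h3, if_pos (h2.2 h3), mul_comm]
        · rw [if_neg h3, if_neg (fun h => h3 (h2.1 h)), mul_zero]
      · rw [if_neg hj]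
        symm
        apply sum_eq_zero
        intro g _
        rw [if_neg]
        rintro ⟨_, h3⟩
        have := h3 (Fin.last l)
        rw [Fin.snoc_last] at this
        exact hj (mem_compl.2 this)
    have h2 : ∑ j ∈ Sᶜ, x l j * pperm x l (insert j S)
        = ∑ j : α, if j ∈ Sᶜ then x l j * pperm x l (insert j S) else 0 := by
      rw [sum_ite_mem, univ_inter]
    rw [h2, sum_congr rfl (fun j _ => h1 j), ← Fintype.sum_prod_type']
    exact Fintype.sum_equiv (Fin.snocEquiv (fun _ => α)) _ _ (fun _ => rfl)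

theorem sum_injective_eq {R : Type*} [AddCommMonoid R] {m : ℕ}
    (g : (Fin m → Fin m) → R) :
    (∑ f : Fin m → Fin m, if Function.Injective f then g f else 0) = ∑ σ : Perm (Fin m), g σ := by
  classical
  symm
  apply sum_of_injOn (fun σ : Perm (Fin m) => (σ : Fin m → Fin m))
  · intro σ _ σ' _ h
    exact DFunLike.coe_injective h
  · intro σ _
    simp
  · intro f _ hf
    rw [if_neg]
    intro hinj
    apply hf
    exact ⟨Equiv.ofBijective f (Finite.injective_iff_bijective.1 hinj), by simp, rfl⟩
  · intro σ _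
    rw [if_pos σ.injective]

theorem pperm_full (q : ℕ) :
    pperm (fun l (j : Fin (q + 1)) =>
      (MvPolynomial.X (Fin.ofNat (q + 1) l, j) : MvPolynomial (Fin (q + 1) × Fin (q + 1)) ℂ))
      (q + 1) ∅ = permPoly (q + 1) := by
  rw [pperm_eq]
  have h1 : ∀ f : Fin (q + 1) → Fin (q + 1),
      (if Function.Injective f ∧ (∀ i, f i ∉ (∅ : Finset (Fin (q + 1)))) then
        ∏ i : Fin (q + 1), (MvPolynomial.X (Fin.ofNat (q + 1) i, f i) :
          MvPolynomial (Fin (q + 1) × Fin (q + 1)) ℂ) else 0)
      = if Function.Injective f then ∏ i : Fin (q + 1), (MvPolynomial.X (i, f i) :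
          MvPolynomial (Fin (q + 1) × Fin (q + 1)) ℂ) else 0 := by
    intro f
    simp
  rw [sum_congr rfl (fun f _ => h1 f), sum_injective_eq (fun f => ∏ i : Fin (q + 1),
    (MvPolynomial.X (i, f i) : MvPolynomial (Fin (q + 1) × Fin (q + 1)) ℂ))]
  unfold permPoly
  rw [← Matrix.permanent_transpose]
  rfl

end Pool.Agent.Work.MP_35c45d_lc.Torus
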